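import Pool.Agent.Work.MP_969914_nt.Runge

-- merged part: Pool.Agent.Work.MP_969914_nt.Chain
section
/-! One step of the descent along the tangent map. -/

set_option autoImplicit false
set_option maxSynthPendingDepth 3

open Polynomial

namespace Pool.Agent.Work.MP_969914_nt

section gen
variable {A : Type*} [CommRing A]

lemma hom_ext2 {S : Type*} [CommRing S] {f g : A[X][X] →+* S}
    (h1 : ∀ a, f (C (C a)) = g (C (C a))) (h2 : f (C X) = g (C X)) (h3 : f X = g X) : f = g := by
  refine ringHom_ext' (ringHom_ext' ?_ ?_) h3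
  · ext a; simpa using h1 a
  · simpa using h2

@[simp] lemma sharp_CC (c a : A) : sharp c (C (C a)) = C (C a) := by simp [sharp_apply]
@[simp] lemma sharp_CX (c : A) : sharp c (C X) = C (X ^ 2 + C c) := by simp [sharp_apply]
@[simp] lemma sharp_X (c : A) : sharp c X = C (2 * X) * X + 1 := by simp [sharp_apply]

/-- The involution `(X, Y) ↦ (-X, -Y)`. -/
noncomputable def iota (A : Type*) [CommRing A] : A[X][X] →+* A[X][X] :=
  (compRingHom (C (-1) * X)).comp (mapRingHom (compRingHom (C (-1) * X)))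

lemma iota_apply (Ψ : A[X][X]) :
    iota A Ψ = (Ψ.map (compRingHom (C (-1) * X))).comp (C (-1) * X) := rfl

@[simp] lemma iota_CC (a : A) : iota A (C (C a)) = C (C a) := by simp [iota_apply]
@[simp] lemma iota_CX : iota A (C X) = - (C X : A[X][X]) := by simp [iota_apply]
@[simp] lemma iota_X : iota A X = - (X : A[X][X]) := by simp [iota_apply]

lemma iota_iota (Ψ : A[X][X]) : iota A (iota A Ψ) = Ψ := by
  have : (iota A).comp (iota A) = RingHom.id _ := hom_ext2 (by simp) (by simp) (by simp)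
  exact congrArg (fun f : A[X][X] →+* A[X][X] => f Ψ) this

lemma iota_sharp (c : A) (Ψ : A[X][X]) : iota A (sharp c Ψ) = sharp c Ψ := by
  have h2 : iota A (C 2) = C 2 := by
    rw [show (C 2 : A[X][X]) = C (C 2) from rfl, iota_CC]
  have : (iota A).comp (sharp c) = sharp c := hom_ext2 (by simp) (by simp) (by simp [h2])
  exact congrArg (fun f : A[X][X] →+* A[X][X] => f Ψ) this

lemma coeff_iota (Ψ : A[X][X]) (j l : ℕ) :
    ((iota A Ψ).coeff l).coeff j = (Ψ.coeff l).coeff j * (-1) ^ (j + l) := by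
  rw [iota_apply, comp_C_mul_X_coeff, coeff_map]
  have : ((-1 : A[X])) ^ l = C ((-1) ^ l) := by simp
  rw [this, coeff_mul_C, coe_compRingHom_apply, comp_C_mul_X_coeff]
  ring

lemma evalEval_sharp (c x y : A) (Ψ : A[X][X]) :
    (sharp c Ψ).evalEval x y = Ψ.evalEval (x ^ 2 + c) (2 * x * y + 1) := by
  have : (evalEvalRingHom x y).comp (sharp c) = evalEvalRingHom (x ^ 2 + c) (2 * x * y + 1) :=
    hom_ext2 (by simp) (by simp) (by simp)
  exact congrArg (fun f : A[X][X] →+* A => f Ψ) this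

lemma map_sharp {B : Type*} [CommRing B] (φ : A →+* B) (c : A) (Ψ : A[X][X]) :
    (sharp c Ψ).map (mapRingHom φ) = sharp (φ c) (Ψ.map (mapRingHom φ)) := by
  have : (mapRingHom (mapRingHom φ)).comp (sharp c) =
      (sharp (φ c)).comp (mapRingHom (mapRingHom φ)) :=
    hom_ext2 (by simp) (by simp) (by simp)
  exact congrArg (fun f : A[X][X] →+* B[X][X] => f Ψ) this

lemma irreducible_iota {Ψ : A[X][X]} (h : Irreducible Ψ) : Irreducible (iota A Ψ) := by
  let e : A[X][X] ≃+* A[X][X] := RingEquiv.ofRingHom (iota A) (iota A)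
    (RingHom.ext iota_iota) (RingHom.ext iota_iota)
  exact (MulEquiv.irreducible_iff e.toMulEquiv).2 h

lemma natDegree_iota_le (Ψ : A[X][X]) : (iota A Ψ).natDegree ≤ Ψ.natDegree := by
  rw [natDegree_le_iff_coeff_eq_zero]
  intro l hl
  ext j
  rw [coeff_iota, coeff_eq_zero_of_natDegree_lt hl]
  simp

lemma natDegree_iota (Ψ : A[X][X]) : (iota A Ψ).natDegree = Ψ.natDegree := by
  refine le_antisymm (natDegree_iota_le Ψ) ?_
  conv_lhs => rw [← iota_iota Ψ]
  exact natDegree_iota_le _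

lemma coeff_sharp_top (c : A) {Ψ : A[X][X]} {n : ℕ} (hn : Ψ.natDegree ≤ n) :
    (sharp c Ψ).coeff n = (Ψ.coeff n).comp (X ^ 2 + C c) * (2 * X) ^ n := by
  rw [coeff_sharp c Ψ hn, Finset.sum_eq_single n]
  · simp
  · intro b hb hne
    have : b < n := by simp at hb; omega
    simp [Nat.choose_eq_zero_of_lt this]
  · simp

lemma natDegree_sharp_le (c : A) (Ψ : A[X][X]) : (sharp c Ψ).natDegree ≤ Ψ.natDegree := by
  rw [natDegree_le_iff_coeff_eq_zero]
  intro l hl
  rw [coeff_sharp c Ψ le_rfl]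
  refine Finset.sum_eq_zero fun b hb => ?_
  have : b < l := by simp at hb; omega
  simp [Nat.choose_eq_zero_of_lt this]

lemma natDegree_sharp [IsDomain A] (h2 : (2 : A) ≠ 0) (c : A) {Ψ : A[X][X]} (h : Ψ ≠ 0) :
    sharp c Ψ ≠ 0 ∧ (sharp c Ψ).natDegree = Ψ.natDegree := by
  have h2X : (2 * X : A[X]) ≠ 0 := mul_ne_zero (by rw [← C_ofNat]; exact C_ne_zero.2 h2) X_ne_zero
  have : (sharp c Ψ).coeff Ψ.natDegree ≠ 0 := by
    rw [coeff_sharp_top c le_rfl]
    refine mul_ne_zero ?_ (pow_ne_zero _ h2X)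
    rw [Ne, comp_eq_zero_iff]
    rintro (h' | ⟨-, h'⟩)
    · exact h (by simpa using h')
    · have := congrArg natDegree h'
      rw [natDegree_X_pow_add_C, natDegree_C] at this
      omega
  exact ⟨fun h0 => by simp [h0] at this,
    le_antisymm (natDegree_sharp_le c Ψ) (le_natDegree_of_ne_zero this)⟩

lemma exists_irr_factor {R S : Type*} [CommRing R] [WfDvdMonoid R] [CommRing S] [IsDomain S]
    (ev : R →+* S) {p : R} (hp : p ≠ 0) (h : ev p = 0) : ∃ q, Irreducible q ∧ q ∣ p ∧ ev q = 0 := by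
  induction p using WfDvdMonoid.induction_on_irreducible with
  | zero => exact absurd rfl hp
  | unit u hu => exact absurd h (hu.map ev).ne_zero
  | mul a i ha hi ih =>
    rw [map_mul, mul_eq_zero] at h
    rcases h with h | h
    · exact ⟨i, hi, dvd_mul_right _ _, h⟩
    · obtain ⟨q, h1, h2, h3⟩ := ih ha h
      exact ⟨q, h1, h2.mul_left _, h3⟩

end gen

variable {k : Type*} [Field k]

lemma eq_sum_mono (p : k[X][X][X]) {N : ℕ} (h : (tot k).d p ≤ N) :
    p = ∑ s ∈ Finset.range (N + 1) ×ˢ Finset.range (N + 1),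
      mono ((p.coeff s.2).coeff s.1) s.1 s.2 := by
  ext l j : 2
  rw [coeff_sum_mono, Finset.sum_eq_single (j, l)]
  · simp
  · intro s _ hs
    rw [if_neg (fun h' => hs (Prod.ext h'.1 h'.2))]
  · intro h'
    rw [if_pos ⟨rfl, rfl⟩]
    by_contra hne
    have := (tot_le_iff p N).1 h j l hne
    exact h' (by simp only [Finset.mem_product, Finset.mem_range]; omega)

lemma size_sharp {Ψ : k[X][X][X]} {B : ℕ} (h1 : (ht k).d Ψ ≤ B) (h2 : (tot k).d Ψ ≤ B) :
    (ht k).d (sharp X Ψ) ≤ 2 * B ∧ (tot k).d (sharp X Ψ) ≤ 2 * B := by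
  have key : ∀ s : ℕ × ℕ,
      (ht k).d (sharp X (mono ((Ψ.coeff s.2).coeff s.1) s.1 s.2)) ≤ 2 * B ∧
      (tot k).d (sharp X (mono ((Ψ.coeff s.2).coeff s.1) s.1 s.2)) ≤ 2 * B := by
    rintro ⟨j, l⟩
    by_cases h0 : (Ψ.coeff l).coeff j = 0
    · simp [h0, mono, DF.d_zero]
    have hjl := (tot_le_iff Ψ B).1 h2 j l h0
    have ha := (ht_le_iff Ψ B).1 h1 j l
    simp only [mono_eq, map_mul, map_pow, sharp_CC, sharp_CX, sharp_X]
    have two : (C 2 : k[X][X][X]) = ((2 : ℕ) : k[X][X][X]) := rfl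
    constructor
    · have a1 : (ht k).d (C (X ^ 2 + C X)) ≤ 1 :=
        (ht_C _).trans ((ht1 k).add_le (((ht1 k).pow_le _ 2 ht1_X).trans (by simp))
          ((ht1_C _).trans (by simp)))
      have a2 : (ht k).d (C 2 * C X * X + 1) ≤ 0 + 0 + 0 :=
        (ht k).add_le ((ht k).mul_le' ((ht k).mul_le' (by rw [two, DF.natCast_le])
          ((ht_C _).trans ht1_X)) ht_X) (ht k).d_one.le
      have := (ht k).mul_le' ((ht k).mul_le' ((ht_C _).trans ((ht1_C _).trans ha))
        ((ht k).pow_le _ j a1)) ((ht k).pow_le _ l a2)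
      omega
    · have a1 : (tot k).d (C (X ^ 2 + C X)) ≤ 2 :=
        (tot_C _).trans (by rw [natDegree_X_pow_add_C])
      have a2 : (tot k).d (C 2 * C X * X + 1) ≤ 0 + 1 + 1 :=
        (tot k).add_le ((tot k).mul_le' ((tot k).mul_le' (by rw [two, DF.natCast_le])
          ((tot_C _).trans (by simp))) tot_X) (by simp [(tot k).d_one])
      have := (tot k).mul_le' ((tot k).mul_le' ((tot_C (C ((Ψ.coeff l).coeff j))).trans
        (natDegree_C _).le) ((tot k).pow_le _ j a1)) ((tot k).pow_le _ l a2)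
      omega
  rw [eq_sum_mono Ψ h2, map_sum]
  exact ⟨(ht k).sum_le _ _ fun s _ => (key s).1, (tot k).sum_le _ _ fun s _ => (key s).2⟩

lemma descend (h2 : (2 : k) ≠ 0) {Ψ : k[X][X][X]} {B m : ℕ} (h1 : (ht k).d Ψ ≤ B)
    (h3 : (tot k).d Ψ ≤ B) (hm : m ≤ B + 1) (hm' : Ψ.natDegree ≤ m)
    (hpar : ∀ j l, (Ψ.coeff l).coeff j ≠ 0 → Even (j + m + l)) :
    ∃ Θ : k[X][X][X], sharp X Θ = C X ^ m * Ψ ∧ (ht k).d Θ ≤ 2 * B ∧ (tot k).d Θ ≤ 2 * B ∧
      Θ.natDegree ≤ Ψ.natDegree := by
  set u : k[X][X][X] := C (C (C (2⁻¹ : k))) * (X - 1) with hu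
  set v : k[X][X][X] := C X - C (C X) with hv
  have hu1 : sharp X u = C X * X := by
    have : (C (C (C (2⁻¹ : k))) : k[X][X][X]) * C 2 = 1 := by
      rw [show (C 2 : k[X][X][X]) = C (C (C 2)) from rfl, ← map_mul, ← map_mul, ← map_mul,
        inv_mul_cancel₀ h2, map_one, map_one, map_one]
    simp only [hu, map_mul, map_sub, sharp_CC, sharp_X, map_one]
    linear_combination (C X * X) * this
  have hv1 : sharp X v = C X ^ 2 := by simp [hv]
  have hu2 : (ht k).d u ≤ 0 + 0 := (ht k).mul_le' ((ht_C _).trans ((ht1_C _).trans (by simp)))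
    ((ht k).sub_le ht_X (ht k).d_one.le)
  have hu3 : (tot k).d u ≤ 0 + 1 := (tot k).mul_le' ((tot_C _).trans (by simp))
    ((tot k).sub_le tot_X (by simp [(tot k).d_one]))
  have hu4 : u.natDegree ≤ 1 := (natDegree_C_mul_le _ _).trans
    (by rw [← C_1, natDegree_X_sub_C])
  have hv2 : (ht k).d v ≤ 1 := (ht k).sub_le ((ht_C _).trans (ht1_X.trans (by simp)))
    ((ht_C _).trans ((ht1_C _).trans (by simp)))
  have hv3 : (tot k).d v ≤ 1 := (tot k).sub_le ((tot_C _).trans (by simp))
    ((tot_C _).trans (by simp))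
  have hv4 : v.natDegree = 0 := by rw [hv, ← map_sub, natDegree_C]
  let θ : ℕ × ℕ → k[X][X][X] := fun s =>
    C (C ((Ψ.coeff s.2).coeff s.1)) * v ^ ((s.1 + m - s.2) / 2) * u ^ s.2
  have key : ∀ s : ℕ × ℕ, sharp X (θ s) = C X ^ m * mono ((Ψ.coeff s.2).coeff s.1) s.1 s.2 ∧
      (ht k).d (θ s) ≤ 2 * B ∧ (tot k).d (θ s) ≤ 2 * B ∧ (θ s).natDegree ≤ Ψ.natDegree := by
    rintro ⟨j, l⟩
    by_cases h0 : (Ψ.coeff l).coeff j = 0
    · simp [θ, h0, mono, DF.d_zero]
    have hjl := (tot_le_iff Ψ B).1 h3 j l h0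
    have ha := (ht_le_iff Ψ B).1 h1 j l
    have hl : l ≤ Ψ.natDegree := le_natDegree_of_ne_zero (fun h => by simp [h] at h0)
    obtain ⟨e, he⟩ := hpar j l h0
    have he' : (j + m - l) / 2 = e - l := by omega
    simp only [θ, he']
    refine ⟨?_, ?_, ?_, ?_⟩
    · simp only [map_mul, map_pow, sharp_CC, hu1, hv1, mono_eq]
      have : (C X : k[X][X][X]) ^ m * C X ^ j = (C X ^ 2) ^ (e - l) * C X ^ l := by
        rw [← pow_mul, ← pow_add, ← pow_add]; congr 1; omega
      rw [mul_pow]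
      linear_combination (-(C (C ((Ψ.coeff l).coeff j)) * X ^ l)) * this
    · have := (ht k).mul_le' ((ht k).mul_le' ((ht_C _).trans ((ht1_C _).trans ha))
        ((ht k).pow_le _ (e - l) hv2)) ((ht k).pow_le _ l hu2)
      omega
    · have := (tot k).mul_le' ((tot k).mul_le' ((tot_C (C ((Ψ.coeff l).coeff j))).trans
        (natDegree_C _).le) ((tot k).pow_le _ (e - l) hv3)) ((tot k).pow_le _ l hu3)
      omega
    · refine natDegree_mul_le.trans ?_
      have a1 := natDegree_C_mul_le (C ((Ψ.coeff l).coeff j)) (v ^ (e - l))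
      have a2 : (v ^ (e - l)).natDegree ≤ (e - l) * 0 := natDegree_pow_le_of_le _ hv4.le
      have a3 : (u ^ l).natDegree ≤ l * 1 := natDegree_pow_le_of_le _ hu4
      omega
  refine ⟨∑ s ∈ Finset.range (B + 1) ×ˢ Finset.range (B + 1), θ s, ?_,
    (ht k).sum_le _ _ fun s _ => (key s).2.1, (tot k).sum_le _ _ fun s _ => (key s).2.2.1,
    natDegree_sum_le_of_forall_le _ _ fun s _ => (key s).2.2.2⟩
  rw [map_sum]
  conv_rhs => rw [eq_sum_mono Ψ h3, Finset.mul_sum]
  exact Finset.sum_congr rfl fun s _ => (key s).1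

end Pool.Agent.Work.MP_969914_nt
end

-- merged part: Pool.Agent.Work.MP_969914_nt.ZE
section
/-! The zero estimate at the points `(x_r, x_r')` of the critical orbit. -/

set_option autoImplicit false
set_option maxSynthPendingDepth 3

open Polynomial

namespace Pool.Agent.Work.MP_969914_nt

/-- The critical orbit `c, c^2 + c, ...`. -/
def orb {A : Type*} [CommRing A] (c : A) : ℕ → A
  | 0 => c
  | r + 1 => orb c r ^ 2 + c

variable {k : Type*} [Field k]

lemma natDegree_orb {c : k[X]} (hc : c.natDegree ≠ 0) (r : ℕ) :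
    (orb c r).natDegree = 2 ^ r * c.natDegree := by
  induction r with
  | zero => simp [orb]
  | succ r ih =>
    have h1 : (orb c r ^ 2).natDegree = 2 ^ (r + 1) * c.natDegree := by
      rw [natDegree_pow, ih]; ring
    have h2 : c.natDegree < 2 ^ (r + 1) * c.natDegree := by
      have : 1 < 2 ^ (r + 1) := Nat.one_lt_two_pow (by omega)
      have h3 : 0 < c.natDegree := Nat.pos_of_ne_zero hc
      nlinarith
    rw [orb, natDegree_add_eq_left_of_natDegree_lt (by omega), h1]

lemma natDegree_orbX (r : ℕ) : (orb (X : k[X]) r).natDegree = 2 ^ r := by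
  simpa using natDegree_orb (c := (X : k[X])) (by simp) r

lemma derivative_orbX (r : ℕ) : derivative (orb (X : k[X]) (r + 1)) =
    2 * orb X r * derivative (orb X r) + 1 := by
  rw [orb, derivative_add, derivative_sq, derivative_X]
  rfl

/-- An irreducible curve of bounded size through the `r`-th point. -/
structure Nice (Ψ : k[X][X][X]) (r B n : ℕ) : Prop where
  irr : Irreducible Ψ
  h1 : (ht k).d Ψ ≤ B
  h2 : (tot k).d Ψ ≤ B
  hn : Ψ.natDegree = n
  hn0 : n ≠ 0
  ev : Ψ.evalEval (orb X r) (derivative (orb X r)) = 0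

lemma Nice.mono {Ψ : k[X][X][X]} {r B B' n : ℕ} (h : Nice Ψ r B n) (hB : B ≤ B') :
    Nice Ψ r B' n := ⟨h.irr, h.h1.trans hB, h.h2.trans hB, h.hn, h.hn0, h.ev⟩

lemma exists_nice {Φ : k[X][X][X]} (h0 : Φ ≠ 0) {B r : ℕ} (h1 : (ht k).d Φ ≤ B)
    (h2 : (tot k).d Φ ≤ B) (hr : B < 2 ^ r)
    (ev : Φ.evalEval (orb X r) (derivative (orb X r)) = 0) :
    ∃ Ψ, Ψ ∣ Φ ∧ Nice Ψ r B Ψ.natDegree := by
  obtain ⟨Ψ, hi, hd, he⟩ := exists_irr_factor
    (evalEvalRingHom (orb (X : k[X]) r) (derivative (orb X r))) h0 ev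
  have a1 := ((ht k).le_of_dvd hd h0).trans h1
  refine ⟨Ψ, hd, hi, a1, ((tot k).le_of_dvd hd h0).trans h2, rfl, fun hn => ?_, he⟩
  obtain ⟨R, rfl⟩ := natDegree_eq_zero.1 hn
  have hR : R ≠ 0 := by rintro rfl; exact hi.ne_zero (map_zero _)
  have a2 : (ht1 k).d R ≤ B := by simpa using ((ht1 k).coeff_le 0 (C R) 0).trans a1
  refine eval_ne_zero_of_ht_lt hR a2 (x := orb X r) (by rwa [natDegree_orbX]) ?_
  simpa [evalEval_C] using he

lemma step (h2 : (2 : k) ≠ 0) {Ψ : k[X][X][X]} {r B n : ℕ} (h : Nice Ψ (r + 1) B n)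
    (hr : 32 * B ^ 2 < 2 ^ r) :
    ∃ (Ψ1 : k[X][X][X]) (n1 : ℕ), Nice Ψ1 r (2 * B) n1 ∧
      ((n1 = n ∧ ∃ μ : k[X][X], sharp X Ψ = C μ * Ψ1) ∨ 2 * n1 ≤ n) := by
  have h2' : (2 : k[X]) ≠ 0 := by rw [← C_ofNat]; exact C_ne_zero.2 h2
  obtain ⟨hs0, hsn⟩ := natDegree_sharp h2' X h.irr.ne_zero
  obtain ⟨s1, s2⟩ := size_sharp h.h1 h.h2
  have hB : 1 ≤ B := by have := natDegree_le_tot Ψ; have := h.h2; have := h.hn; have := h.hn0; omega
  have hev : ∀ Θ : k[X][X][X], (sharp X Θ).evalEval (orb X r) (derivative (orb X r)) =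
      Θ.evalEval (orb X (r + 1)) (derivative (orb X (r + 1))) := by
    intro Θ; rw [evalEval_sharp, derivative_orbX]; rfl
  obtain ⟨Ψ1, hd, hN⟩ := exists_nice hs0 s1 s2 (r := r) (by (clear * - hB hr; nlinarith)) (by rw [hev, h.ev])
  refine ⟨Ψ1, _, hN, ?_⟩
  have hle : Ψ1.natDegree ≤ n := by rw [← h.hn, ← hsn]; exact natDegree_le_of_dvd hd hs0
  by_cases hass : Associated Ψ1 (iota _ Ψ1)
  · left
    have hge : n ≤ Ψ1.natDegree := by
      obtain ⟨u, hu⟩ := hass
      obtain ⟨u1, hu1, hu1'⟩ := Polynomial.isUnit_iff.1 u.isUnit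
      obtain ⟨u2, -, hu2'⟩ := Polynomial.isUnit_iff.1 hu1
      have hc : ∀ j l, (Ψ1.coeff l).coeff j ≠ 0 → u2 = (-1) ^ (j + l) := by
        intro j l hjl
        have := coeff_iota Ψ1 j l
        rw [← hu, ← hu1', ← hu2', coeff_mul_C, coeff_mul_C] at this
        exact mul_left_cancel₀ hjl this
      have hneg : (-1 : k[X]) ≠ 1 := by
        intro h'; apply h2'; linear_combination -h'
      obtain ⟨m, hm1, hm2, hm3⟩ : ∃ m, Ψ1.natDegree ≤ m ∧ m ≤ Ψ1.natDegree + 1 ∧
          u2 = (-1) ^ m := by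
        have htop : (Ψ1.coeff Ψ1.natDegree).coeff (Ψ1.coeff Ψ1.natDegree).natDegree ≠ 0 := by
          simpa using hN.irr.ne_zero
        have := hc _ _ htop
        rcases Nat.even_or_odd (Ψ1.coeff Ψ1.natDegree).natDegree with he | he
        · exact ⟨_, le_rfl, by omega, by rw [this, pow_add, he.neg_one_pow, one_mul]⟩
        · exact ⟨_ + 1, by omega, le_rfl, by rw [this, pow_add, he.neg_one_pow, pow_succ']⟩
      have hn1 := (natDegree_le_tot Ψ1).trans hN.h2
      obtain ⟨Θ, t1, t2, t3, t4⟩ := descend h2 hN.h1 hN.h2 (m := m) (by omega) hm1 (by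
        intro j l hjl
        have e1 := hc j l hjl
        rw [← neg_one_pow_eq_one_iff_even hneg, show j + m + l = (j + l) + m by ring, pow_add,
          ← e1, hm3, ← mul_pow]
        simp)
      have t5 : Θ.evalEval (orb X (r + 1)) (derivative (orb X (r + 1))) = 0 := by
        rw [← hev, t1, evalEval_mul, hN.ev, mul_zero]
      have t0 : Θ ≠ 0 := by
        rintro rfl
        rw [map_zero] at t1
        exact mul_ne_zero (pow_ne_zero _ (C_ne_zero.2 X_ne_zero)) hN.irr.ne_zero t1.symm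
      by_cases hdv : Ψ ∣ Θ
      · have := natDegree_le_of_dvd hdv t0
        have := h.hn
        omega
      · exfalso
        have := elim h.irr (by rw [h.hn]; exact h.hn0) hdv (B := 2 * (2 * B))
          (h.h1.trans (by omega)) (h.h2.trans (by omega)) t2 t3 h.ev t5
        rw [natDegree_orbX, pow_succ] at this
        (clear * - hr this; nlinarith)
    refine ⟨le_antisymm hle hge, ?_⟩
    obtain ⟨w, hw⟩ := hd
    have hw0 : w ≠ 0 := by rintro rfl; exact hs0 (by simpa using hw)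
    have : w.natDegree = 0 := by
      have e := congrArg natDegree hw
      rw [natDegree_mul hN.irr.ne_zero hw0, hsn, h.hn] at e
      omega
    obtain ⟨μ, rfl⟩ := natDegree_eq_zero.1 this
    exact ⟨μ, by rw [hw, mul_comm]⟩
  · right
    have hi := irreducible_iota hN.irr
    have hd2 : iota _ Ψ1 ∣ sharp X Ψ := by
      have := _root_.map_dvd (iota k[X]) hd
      rwa [iota_sharp] at this
    have hrel : IsRelPrime Ψ1 (iota _ Ψ1) := by
      rw [hN.irr.isRelPrime_iff_not_dvd]
      exact fun hdv => hass (hN.irr.associated_of_dvd hi hdv)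
    have hmd : Ψ1 * iota _ Ψ1 ∣ sharp X Ψ := IsRelPrime.mul_dvd hrel hd hd2
    have := natDegree_le_of_dvd hmd hs0
    rw [natDegree_mul hN.irr.ne_zero hi.ne_zero, natDegree_iota, hsn, h.hn] at this
    omega

lemma chain_ring (p : ℕ) [hp : Fact p.Prime] [CharP k p] (hp2 : p ≠ 2) {n : ℕ} (hn : n ≠ 0)
    (Ψ : ℕ → k[X][X][X]) (hd : ∀ s, (Ψ s).natDegree = n) (ht : ∀ s, (tot k).d (Ψ s) ≤ n)
    (hrel : ∀ s < 3, ∃ μ : k[X][X], sharp X (Ψ s) = C μ * Ψ (s + 1)) : False := by
  let F := FractionRing k[X]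
  let φ : k[X] →+* F := algebraMap _ _
  have hφ : Function.Injective φ := IsFractionRing.injective _ _
  have : CharP F p := charP_of_injective_ringHom hφ p
  have hl : ∀ s, ∃ a : k[X], a ≠ 0 ∧ (Ψ s).coeff n = C a := by
    intro s
    have h0 : (Ψ s).coeff n ≠ 0 := by
      rw [← hd s]
      have : Ψ s ≠ 0 := by intro h; have := hd s; rw [h] at this; exact hn (by simpa using this.symm)
      simpa using this
    have := (tot_le_iff' _ _).1 (ht s) n h0
    obtain ⟨a, ha⟩ := natDegree_eq_zero.1 (show ((Ψ s).coeff n).natDegree = 0 by omega)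
    exact ⟨a, by rintro rfl; exact h0 (by simpa using ha.symm), ha.symm⟩
  choose a ha0 ha using hl
  have ha1 : ∀ s, φ (a s) ≠ 0 := fun s => (map_ne_zero_iff φ hφ).2 (ha0 s)
  let Φ : ℕ → F[X][X] := fun s => C (C (φ (a s))⁻¹) * (Ψ s).map (mapRingHom φ)
  have hΦd : ∀ s, (Φ s).natDegree ≤ n := fun s =>
    (natDegree_C_mul_le _ _).trans (natDegree_map_le.trans (hd s).le)
  have hΦm : ∀ s, (Φ s).coeff n = 1 := by
    intro s
    simp only [Φ, coeff_C_mul, coeff_map, ha, coe_mapRingHom, map_C]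
    rw [← map_mul, inv_mul_cancel₀ (ha1 s), map_one]
  refine chain_field (F := F) p hp2 (c := φ X) ((map_ne_zero_iff φ hφ).2 X_ne_zero) ?_ hn Φ hΦd
    hΦm ?_ ?_
  · have : φ X + 2 = φ (X + C 2) := by rw [map_add, C_ofNat, map_ofNat]
    rw [this]
    exact (map_ne_zero_iff φ hφ).2 (X_add_C_ne_zero _)
  · intro s b
    simp only [Φ, coeff_C_mul, coeff_map, coe_mapRingHom]
    refine (natDegree_C_mul_le _ _).trans (natDegree_map_le.trans ?_)
    by_cases h0 : (Ψ s).coeff b = 0
    · simp [h0]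
    have := (tot_le_iff' _ _).1 (ht s) b h0
    omega
  · intro s hs
    obtain ⟨μ, hμ⟩ := hrel s hs
    have e1 : sharp (φ X) (Φ s) =
        C (C (φ (a s))⁻¹ * μ.map φ * C (φ (a (s + 1)))) * Φ (s + 1) := by
      have e2 : (C (C (φ (a (s + 1)))) : F[X][X]) * C (C (φ (a (s + 1)))⁻¹) = 1 := by
        rw [← map_mul, ← map_mul, mul_inv_cancel₀ (ha1 _), map_one, map_one]
      simp only [Φ, map_mul, sharp_CC, ← map_sharp, hμ, Polynomial.map_mul, map_C,
        coe_mapRingHom]
      linear_combination (-(C (C (φ (a s))⁻¹) * C (μ.map φ) *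
        (Ψ (s + 1)).map (mapRingHom φ))) * e2
    have e3 := congrArg (fun q => q.coeff n) e1
    simp only [coeff_sharp_top _ (hΦd s), hΦm, coeff_C_mul, one_comp, one_mul, mul_one] at e3
    rw [e1, e3]

lemma three (p : ℕ) [hp : Fact p.Prime] [CharP k p] (hp2 : p ≠ 2) {Ψ : k[X][X][X]} {r B n : ℕ}
    (h : Nice Ψ (r + 3) B n) (hr : 722 * (8 * B) ^ 12 < 2 ^ r) :
    ∃ (Ψ1 : k[X][X][X]) (n1 r1 : ℕ), r ≤ r1 ∧ Nice Ψ1 r1 (8 * B) n1 ∧ 2 * n1 ≤ n := by
  have h2 : (2 : k) ≠ 0 := by
    intro h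
    have := (CharP.cast_eq_zero_iff k p 2).1 (by exact_mod_cast h)
    exact hp2 ((Nat.prime_dvd_prime_iff_eq hp.out Nat.prime_two).1 this)
  have hB : 1 ≤ B := by have := natDegree_le_tot Ψ; have := h.h2; have := h.hn; have := h.hn0; omega
  have hb : ∀ B' i, B' ≤ 8 * B → 32 * B' ^ 2 < 2 ^ (r + i) := by
    intro B' i hB'
    have e1 : B' ^ 2 ≤ (8 * B) ^ 2 := Nat.pow_le_pow_left hB' 2
    have e2 : (8 * B) ^ 2 ≤ (8 * B) ^ 12 := Nat.pow_le_pow_right (by omega) (by norm_num)
    have e3 : 2 ^ r ≤ 2 ^ (r + i) := Nat.pow_le_pow_right (by norm_num) (by omega)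
    omega
  obtain ⟨Ψ1, n1, N1, c1⟩ := step h2 (r := r + 2) h (hb _ _ (by omega))
  rcases c1 with ⟨rfl, c1⟩ | c1
  swap
  · exact ⟨Ψ1, n1, r + 2, by omega, N1.mono (by omega), c1⟩
  obtain ⟨Ψ2, n2, N2, c2⟩ := step h2 (r := r + 1) N1 (hb _ _ (by omega))
  rcases c2 with ⟨rfl, c2⟩ | c2
  swap
  · exact ⟨Ψ2, n2, r + 1, by omega, N2.mono (by omega), c2⟩
  obtain ⟨Ψ3, n3, N3, c3⟩ := step h2 (r := r) N2 (hb _ 0 (by omega))
  rcases c3 with ⟨rfl, c3⟩ | c3
  swap
  · exact ⟨Ψ3, n3, r, by omega, N3.mono (by omega), c3⟩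
  exfalso
  have hrun : ∀ {Θ : k[X][X][X]} {i B'}, Nice Θ (r + i) B' n3 → B' ≤ 8 * B →
      Θ.natDegree = n3 ∧ (tot k).d Θ ≤ n3 := by
    intro Θ i B' hN hB'
    have hN' := hN.mono hB'
    refine ⟨hN.hn, ?_⟩
    rw [← hN.hn]
    refine runge hN.irr (by rw [hN.hn]; exact hN.hn0) hN'.h1 hN'.h2
      ((natDegree_derivative_le _).trans (Nat.sub_le _ _)) hN.ev ?_
    rw [natDegree_orbX]
    exact hr.trans_le (Nat.pow_le_pow_right (by norm_num) (by omega))
  have r0 := hrun h (by omega)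
  have r1 := hrun N1 (by omega)
  have r2 := hrun N2 (by omega)
  have r3 := hrun (i := 0) N3 (by omega)
  refine chain_ring p hp2 h.hn0
    (fun s => if s = 0 then Ψ else if s = 1 then Ψ1 else if s = 2 then Ψ2 else Ψ3) ?_ ?_ ?_
  · intro s; split_ifs; exacts [r0.1, r1.1, r2.1, r3.1]
  · intro s; split_ifs; exacts [r0.2, r1.2, r2.2, r3.2]
  · intro s hs
    interval_cases s
    · simpa using c1
    · simpa using c2
    · simpa using c3

lemma no_nice (p : ℕ) [hp : Fact p.Prime] [CharP k p] (hp2 : p ≠ 2) (r0 h : ℕ) :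
    ∀ (Ψ : k[X][X][X]) (r B n : ℕ), Nice Ψ r B n → n < 2 ^ h → r0 + 3 * h ≤ r →
      722 * (8 ^ h * B) ^ 12 < 2 ^ r0 → False := by
  induction h with
  | zero => intro Ψ r B n hN hn _ _; have := hN.hn0; omega
  | succ h ih =>
    intro Ψ r B n hN hn hr hB
    obtain ⟨r', rfl⟩ : ∃ r', r = r' + 3 := ⟨r - 3, by omega⟩
    have e1 : 8 * B ≤ 8 ^ (h + 1) * B :=
      Nat.mul_le_mul_right _ (Nat.le_self_pow (by omega) 8)
    have e2 : (8 * B) ^ 12 ≤ (8 ^ (h + 1) * B) ^ 12 := Nat.pow_le_pow_left e1 12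
    have e3 : 2 ^ r0 ≤ 2 ^ r' := Nat.pow_le_pow_right (by norm_num) (by omega)
    obtain ⟨Ψ1, n1, r1, a1, a2, a3⟩ := three p hp2 hN (by omega)
    refine ih Ψ1 r1 _ n1 a2 (by rw [pow_succ] at hn; omega) (by omega) ?_
    rwa [← mul_assoc, ← pow_succ]

/-- The zero estimate. -/
theorem zero_estimate (p : ℕ) [hp : Fact p.Prime] [CharP k p] (hp2 : p ≠ 2) {Φ : k[X][X][X]}
    (h0 : Φ ≠ 0) {h r : ℕ} (h1 : (ht k).d Φ ≤ 2 ^ h) (h2 : (tot k).d Φ ≤ 2 ^ h)
    (hr : 51 * h + 49 ≤ r) : Φ.evalEval (orb X r) (derivative (orb X r)) ≠ 0 := by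
  intro ev
  obtain ⟨Ψ, -, hN⟩ := exists_nice h0 h1 h2 (Nat.pow_lt_pow_right (by norm_num) (by omega)) ev
  refine no_nice p hp2 (48 * h + 46) (h + 1) Ψ r _ _ hN ?_ (by omega) ?_
  · have := (natDegree_le_tot Ψ).trans hN.h2
    rw [pow_succ]
    have : 0 < 2 ^ h := by positivity
    omega
  · have : (8 ^ (h + 1) * 2 ^ h) ^ 12 = 2 ^ (48 * h + 36) := by
      rw [show (8 : ℕ) = 2 ^ 3 by norm_num, ← pow_mul, ← pow_add, ← pow_mul]; congr 1; ring
    rw [this, show 48 * h + 46 = 10 + (48 * h + 36) by ring, pow_add 2 10]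
    have : 0 < 2 ^ (48 * h + 36) := by positivity
    omega

end Pool.Agent.Work.MP_969914_nt
end

-- merged part: Pool.Agent.Work.MP_969914_nt.Mult
section
/-! Multiple roots of the critical orbit polynomials carry a negligible part of the degree. -/

set_option autoImplicit false
set_option maxSynthPendingDepth 3

open Polynomial

namespace Pool.Agent.Work.MP_969914_nt

section gen
variable {A : Type*} [CommRing A]

/-- The map `y ↦ y^2 + c`. -/
def fq (c : A) : A → A := fun y => y ^ 2 + c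

lemma orb_eq (c : A) (r : ℕ) : orb c r = (fq c)^[r] c := by
  induction r with
  | zero => rfl
  | succ r ih => rw [Function.iterate_succ_apply', ← ih]; rfl

lemma map_fq {B : Type*} [CommRing B] (φ : A →+* B) (c : A) (n : ℕ) (x : A) :
    φ ((fq c)^[n] x) = (fq (φ c))^[n] (φ x) := by
  induction n with
  | zero => rfl
  | succ n ih => simp only [Function.iterate_succ_apply', fq, map_add, map_pow, ih]

lemma map_orb {B : Type*} [CommRing B] (φ : A →+* B) (c : A) (n : ℕ) :
    φ (orb c n) = orb (φ c) n := by rw [orb_eq, orb_eq, map_fq]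

/-- The composition of `g` with the `n`-th iterate of `X^2 + c`. -/
noncomputable def Gs (g : A[X]) (c : A) : ℕ → A[X]
  | 0 => g
  | n + 1 => (Gs g c n).comp (X ^ 2 + C c)

lemma map_Gs {B : Type*} [CommRing B] (φ : A →+* B) (g : A[X]) (c : A) (n : ℕ) :
    (Gs g c n).map φ = Gs (g.map φ) (φ c) n := by
  induction n with
  | zero => rfl
  | succ n ih => simp [Gs, Polynomial.map_comp, ih]

lemma eval_Gs (g : A[X]) (c : A) (n : ℕ) (x : A) : (Gs g c n).eval x = g.eval ((fq c)^[n] x) := by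
  induction n generalizing x with
  | zero => rfl
  | succ n ih => rw [Gs, eval_comp, ih]; simp [fq]

lemma natDegree_Gs [IsDomain A] (g : A[X]) (c : A) (n : ℕ) :
    (Gs g c n).natDegree = g.natDegree * 2 ^ n := by
  induction n with
  | zero => simp [Gs]
  | succ n ih => rw [Gs, natDegree_comp, ih, natDegree_X_pow_add_C]; ring

lemma leadingCoeff_Gs [IsDomain A] (g : A[X]) (c : A) (n : ℕ) :
    (Gs g c n).leadingCoeff = g.leadingCoeff := by
  induction n with
  | zero => simp [Gs]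
  | succ n ih =>
    rw [Gs, leadingCoeff_comp (by rw [natDegree_X_pow_add_C]; norm_num), ih,
      leadingCoeff_X_pow_add_C (by norm_num)]
    simp

lemma separable_Gs {F : Type*} [Field F] (h2 : (2 : F) ≠ 0) {g : F[X]} (hg : g.Separable) (c : F)
    (hP : ∀ j, g.eval (orb c j) ≠ 0) (n : ℕ) : (Gs g c n).Separable := by
  induction n with
  | zero => exact hg
  | succ n ih =>
    rw [Separable, Gs, derivative_comp]
    refine IsCoprime.mul_right ?_ (IsCoprime.map ih (compRingHom (X ^ 2 + C c)))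
    have : derivative (X ^ 2 + C c : F[X]) = C 2 * X := by simp [derivative_sq]
    rw [this]
    refine IsCoprime.mul_right ?_ ?_
    · exact ⟨0, C 2⁻¹, by rw [zero_mul, zero_add, ← map_mul, inv_mul_cancel₀ h2, map_one]⟩
    · rw [isCoprime_comm, irreducible_X.coprime_iff_not_dvd, X_dvd_iff, coeff_zero_eq_eval_zero,
        eval_comp, eval_Gs]
      simpa [← orb_eq] using hP n

end gen

variable {k : Type*} [Field k]

/-- Derivative with respect to the parameter. -/
noncomputable def dT (p : k[X][X]) : k[X][X] :=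
  ∑ i ∈ p.support, monomial i (derivative (p.coeff i))

lemma coeff_dT (p : k[X][X]) (i : ℕ) : (dT p).coeff i = derivative (p.coeff i) := by
  rw [dT, finsetSum_coeff, Finset.sum_eq_single i]
  · simp
  · intro b _ hb; rw [coeff_monomial, if_neg hb]
  · intro h; rw [notMem_support_iff.1 h]; simp

lemma natDegree_dT_le (p : k[X][X]) : (dT p).natDegree ≤ p.natDegree := by
  rw [natDegree_le_iff_coeff_eq_zero]
  intro l hl
  rw [coeff_dT, coeff_eq_zero_of_natDegree_lt hl, derivative_zero]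

lemma ht1_dT_le (p : k[X][X]) : (ht1 k).d (dT p) ≤ (ht1 k).d p - 1 := by
  rw [ht1_le_iff]
  intro j
  rw [coeff_dT]
  have := (ht1_le_iff p _).1 le_rfl j
  have := natDegree_derivative_le (p.coeff j)
  omega

lemma ht1_derivative_le (p : k[X][X]) : (ht1 k).d (derivative p) ≤ (ht1 k).d p := by
  rw [ht1_le_iff]
  intro j
  rw [coeff_derivative]
  have h1 := (ht1_le_iff p _).1 le_rfl (j + 1)
  have h2 : ((j : k[X]) + 1).natDegree = 0 := by
    rw [← Nat.cast_succ, natDegree_natCast]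
  have := natDegree_mul_le (p := p.coeff (j + 1)) (q := (j : k[X]) + 1)
  omega

lemma derivative_eval_dT (p : k[X][X]) (x : k[X]) :
    derivative (p.eval x) = (dT p).eval x + (derivative p).eval x * derivative x := by
  have h1 : (dT p).eval x = ∑ i ∈ Finset.range (p.natDegree + 1), derivative (p.coeff i) * x ^ i := by
    rw [eval_eq_sum_range' (n := p.natDegree + 1) ((natDegree_dT_le p).trans_lt (by omega))]
    simp only [coeff_dT]
  have h2 : (derivative p).eval x =
      ∑ i ∈ Finset.range (p.natDegree + 1), p.coeff i * (i * x ^ (i - 1)) := by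
    conv_lhs => rw [p.as_sum_range_C_mul_X_pow, derivative_sum, eval_finsetSum]
    refine Finset.sum_congr rfl fun i _ => ?_
    simp [derivative_X_pow]
  rw [h1, h2, eval_eq_sum_range, derivative_sum, Finset.sum_mul, ← Finset.sum_add_distrib]
  refine Finset.sum_congr rfl fun i _ => ?_
  rw [derivative_mul, derivative_pow]
  simp only [map_natCast]
  ring

lemma ht1_comp_le (p q : k[X][X]) :
    (ht1 k).d (p.comp q) ≤ (ht1 k).d p + p.natDegree * (ht1 k).d q := by
  rw [comp, eval₂_eq_sum_range]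
  refine (ht1 k).sum_le _ _ fun i hi => ?_
  have h1 := (ht1 k).mul_le' ((ht1_C (p.coeff i)).trans ((ht1_le_iff p _).1 le_rfl i))
    ((ht1 k).pow_le q i le_rfl)
  have : i * (ht1 k).d q ≤ p.natDegree * (ht1 k).d q :=
    Nat.mul_le_mul_right _ (by simp at hi; omega)
  omega

lemma ht1_Gs (g : k[X][X]) (c : k[X]) (n : ℕ) :
    (ht1 k).d (Gs g c n) ≤ (ht1 k).d g + g.natDegree * 2 ^ n * c.natDegree := by
  induction n with
  | zero => simp [Gs]
  | succ n ih =>
    have h1 := ht1_comp_le (Gs g c n) (X ^ 2 + C c)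
    have h2 : (ht1 k).d (X ^ 2 + C c) ≤ c.natDegree :=
      (ht1 k).add_le (((ht1 k).pow_le _ 2 ht1_X).trans (by simp)) (ht1_C _)
    rw [natDegree_Gs] at h1
    have := Nat.mul_le_mul_left (g.natDegree * 2 ^ n) h2
    rw [Gs, pow_succ 2 n]
    nlinarith

lemma dvd_resultant {G M : k[X][X]} (hG : G.natDegree ≠ 0) :
    ∃ U V : k[X][X], ∀ x, resultant G M = G.eval x * U.eval x + M.eval x * V.eval x := by
  obtain ⟨U, V, -, -, hUV⟩ := exists_mul_add_mul_eq_C_resultant G M le_rfl le_rfl (Or.inl hG)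
  refine ⟨U, V, fun x => ?_⟩
  have := congrArg (eval x) hUV
  simpa using this.symm

lemma exists_aux (G M Nn : k[X][X]) (hG : G ≠ 0) {A N W : ℕ} (hA : 1 ≤ A) (hN : G.natDegree ≤ N)
    (hM : M.natDegree ≤ N) (hNn : Nn.natDegree ≤ N) (h1 : (ht1 k).d G ≤ W) (h2 : (ht1 k).d M ≤ W)
    (h3 : (ht1 k).d Nn ≤ W) (hAN : N < (A + 1) ^ 2) :
    ∃ (c : ℕ × ℕ → k[X]) (H : k[X][X]),
      (∑ s ∈ Finset.range (A + 1) ×ˢ Finset.range (A + 1), mono (c s) s.1 s.2) ≠ 0 ∧
      (∀ s, (c s).natDegree ≤ (A + A * N + 1) * (A * W)) ∧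
      ∑ s ∈ Finset.range (A + 1) ×ˢ Finset.range (A + 1),
        C (c s) * (X ^ s.1 * Nn ^ s.2 * M ^ (A - s.2)) = G * H := by
  classical
  set D := A + A * N with hD
  have hDN : N ≤ D := by (clear * - hA hD; nlinarith)
  set I := Finset.range (A + 1) ×ˢ Finset.range (A + 1) with hI
  set J := Finset.range (D - N + 1) with hJ
  let E : (ℕ × ℕ) ⊕ ℕ → k[X][X] := Sum.elim
    (fun s => if s ∈ I then X ^ s.1 * Nn ^ s.2 * M ^ (A - s.2) else 0) (fun s => -(G * X ^ s))
  have hE : ∀ s, (ht1 k).d (E s) ≤ A * W := by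
    rintro (s | s)
    · simp only [E, Sum.elim_inl]
      split_ifs with hs
      · have := (ht1 k).mul_le' ((ht1 k).mul_le' ((ht1 k).pow_le _ s.1 ht1_X)
          ((ht1 k).pow_le _ s.2 h3)) ((ht1 k).pow_le _ (A - s.2) h2)
        have hs2 : s.2 ≤ A := by
          simp only [hI, Finset.mem_product, Finset.mem_range] at hs; omega
        have e : s.2 * W + (A - s.2) * W = A * W := by rw [← add_mul]; congr 1; omega
        omega
      · simp [DF.d_zero]
    · simp only [E, Sum.elim_inr, DF.d_neg]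
      have := (ht1 k).mul_le' h1 ((ht1 k).pow_le _ s ht1_X)
      (clear * - hA this; nlinarith)
  have hEd : ∀ s ∈ I.disjSum J, (E s).natDegree ≤ D := by
    rintro (s | s) hs
    · have hs' : s ∈ I := by simpa using hs
      simp only [E, Sum.elim_inl, if_pos hs']
      simp only [hI, Finset.mem_product, Finset.mem_range] at hs'
      have := (DF.deg k[X]).mul_le' ((DF.deg k[X]).mul_le'
        ((DF.deg k[X]).pow_le X s.1 (n := 1) natDegree_X_le)
        ((DF.deg k[X]).pow_le _ s.2 hNn)) ((DF.deg k[X]).pow_le _ (A - s.2) hM)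
      have e : s.2 * N + (A - s.2) * N = A * N := by rw [← add_mul]; congr 1; omega
      simp only [DF.deg] at this
      omega
    · have hs' : s ∈ J := by simpa using hs
      simp only [hJ, Finset.mem_range] at hs'
      simp only [E, Sum.elim_inr, natDegree_neg]
      have := natDegree_mul_le (p := G) (q := X ^ s)
      rw [natDegree_X_pow] at this
      omega
  obtain ⟨c, hc0, hc1, hc2⟩ := siegel' (I.disjSum J) (Finset.range (D + 1))
    (fun o s => (E s).coeff o) (A * W) (fun o s => (ht1_le_iff _ _).1 (hE s) _) (by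
      simp only [Finset.card_disjSum, hI, hJ, Finset.card_product, Finset.card_range]
      rw [sq] at hAN
      omega)
  have hz : ∑ s ∈ I.disjSum J, C (c s) * E s = 0 := by
    ext1 o
    rw [finsetSum_coeff, coeff_zero]
    by_cases ho : o < D + 1
    · rw [← hc2 o (Finset.mem_range.2 ho)]
      exact Finset.sum_congr rfl fun s _ => by rw [coeff_C_mul, mul_comm]
    · refine Finset.sum_eq_zero fun s hs => ?_
      rw [coeff_C_mul, coeff_eq_zero_of_natDegree_lt ((hEd s hs).trans_lt (by omega)), mul_zero]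
  set H := ∑ s ∈ J, monomial s (c (Sum.inr s)) with hH
  have hmain : ∑ s ∈ I, C (c (Sum.inl s)) * (X ^ s.1 * Nn ^ s.2 * M ^ (A - s.2)) = G * H := by
    rw [Finset.sum_disjSum] at hz
    have e1 : ∑ s ∈ I, C (c (Sum.inl s)) * E (Sum.inl s) =
        ∑ s ∈ I, C (c (Sum.inl s)) * (X ^ s.1 * Nn ^ s.2 * M ^ (A - s.2)) :=
      Finset.sum_congr rfl fun s hs => by simp only [E, Sum.elim_inl, if_pos hs]
    have e2 : ∑ s ∈ J, C (c (Sum.inr s)) * E (Sum.inr s) + G * H = 0 := by
      rw [hH, Finset.mul_sum, ← Finset.sum_add_distrib]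
      refine Finset.sum_eq_zero fun s _ => ?_
      simp only [E, Sum.elim_inr, ← C_mul_X_pow_eq_monomial]
      ring
    rw [← e1]
    linear_combination hz - e2
  refine ⟨fun s => c (Sum.inl s), H, fun h0 => ?_, fun s => by simpa using hc1 _, hmain⟩
  have hI0 : ∀ s ∈ I, c (Sum.inl s) = 0 := by
    intro s hs
    have := coeff_sum_mono I (fun s => c (Sum.inl s)) Prod.fst Prod.snd s.1 s.2
    rw [h0, Finset.sum_eq_single s] at this
    · simpa using this.symm
    · intro s' _ hne
      rw [if_neg (fun h' => hne (Prod.ext h'.1 h'.2))]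
    · intro h'; exact absurd hs h'
  obtain ⟨s, hs, hs0⟩ := hc0
  rcases s with s | s
  · exact hs0 (hI0 s (by simpa using hs))
  · have hs' : s ∈ J := by simpa using hs
    rw [Finset.sum_eq_zero (fun s hs => by rw [hI0 s hs, map_zero, zero_mul])] at hmain
    have hH0 : H = 0 := (mul_eq_zero.1 hmain.symm).resolve_left hG
    have := congrArg (fun q => q.coeff s) hH0
    simp only [hH, finsetSum_coeff, coeff_monomial, Finset.sum_ite_eq', if_pos hs',
      coeff_zero] at this
    exact hs0 this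

lemma mult_core (p : ℕ) [hp : Fact p.Prime] [CharP k p] (hp2 : p ≠ 2) (G : k[X][X])
    (hG : G.natDegree ≠ 0) (hres : resultant G (derivative G) ≠ 0) {A N W h r : ℕ} (hA : 1 ≤ A)
    (hN : G.natDegree ≤ N) (h1 : (ht1 k).d G ≤ W) (hAN : N < (A + 1) ^ 2)
    (hh1 : (A + A * N + 1) * (A * W) ≤ 2 ^ h) (hh2 : 2 * A ≤ 2 ^ h) (hr : 51 * h + 49 ≤ r)
    (R : k[X]) (hR1 : R ∣ G.eval (orb X r)) (hR2 : R ∣ derivative (G.eval (orb X r))) :
    R.natDegree ≤ A * (2 * N * W) + (2 ^ h + 2 * A * 2 ^ r) := by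
  have hG0 : G ≠ 0 := by rintro rfl; simp at hG
  have hMd : (derivative G).natDegree ≤ N :=
    ((natDegree_derivative_le _).trans (Nat.sub_le _ _)).trans hN
  have hMh := (ht1_derivative_le G).trans h1
  obtain ⟨c, H, c1, c2, c3⟩ := exists_aux G (derivative G) (-dT G) hG0 hA hN hMd
    (by rw [natDegree_neg]; exact (natDegree_dT_le G).trans hN) h1 hMh
    (by rw [DF.d_neg]; exact ((ht1_dT_le G).trans (Nat.sub_le _ _)).trans h1) hAN
  set I := Finset.range (A + 1) ×ˢ Finset.range (A + 1) with hI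
  set Φ := ∑ s ∈ I, mono (c s) s.1 s.2 with hΦ
  have hI2 : ∀ s ∈ I, s.1 ≤ A ∧ s.2 ≤ A := by
    intro s hs
    simp only [hI, Finset.mem_product, Finset.mem_range] at hs; omega
  have t1 : (ht k).d Φ ≤ 2 ^ h :=
    (ht k).sum_le _ _ fun s _ => (ht_mono _ _ _).trans ((c2 s).trans hh1)
  have t2 : (tot k).d Φ ≤ 2 * A :=
    (tot k).sum_le _ _ fun s hs => (tot_mono _ _ _).trans (by have := hI2 s hs; omega)
  have t3 := zero_estimate p hp2 c1 t1 (t2.trans hh2) hr
  set x := orb (X : k[X]) r with hx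
  set y := derivative x with hy
  have t4 : (Φ.evalEval x y).natDegree ≤ 2 ^ h + 2 * A * 2 ^ r :=
    natDegree_evalEval_le Φ x y t1 t2 (natDegree_orbX r).le
      (((natDegree_derivative_le _).trans (Nat.sub_le _ _)).trans (natDegree_orbX r).le)
  have t5 : (resultant G (derivative G)).natDegree ≤ 2 * N * W := by
    have := res_d_le (DF.deg k) G (derivative G) G.natDegree (derivative G).natDegree (b := W)
      (fun i => (ht1_le_iff _ _).1 h1 i) (fun i => (ht1_le_iff _ _).1 hMh i)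
    exact this.trans (Nat.mul_le_mul_right _ (by omega))
  have hdvd : R ∣ resultant G (derivative G) ^ A * Φ.evalEval x y := by
    obtain ⟨U, V, hUV⟩ := dvd_resultant (M := derivative G) hG
    rw [← Ideal.mem_span_singleton, ← Ideal.Quotient.eq_zero_iff_mem] at hR1 hR2 ⊢
    set π := Ideal.Quotient.mk (Ideal.span {R}) with hπ
    rw [derivative_eval_dT, map_add, map_mul] at hR2
    have e1 := congrArg (fun q => π (eval x q)) c3
    simp only [eval_finsetSum, eval_mul, eval_C, eval_pow, eval_X, eval_neg, map_sum, map_mul,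
      map_pow, map_neg, hR1, zero_mul] at e1
    have e2 : π ((derivative G).eval x) ^ A * π (Φ.evalEval x y) = 0 := by
      rw [← e1, hΦ, evalEval_finsetSum, map_sum, Finset.mul_sum]
      refine Finset.sum_congr rfl fun s hs => ?_
      have e3 : -π (eval x (dT G)) = π ((derivative G).eval x) * π y := by
        linear_combination -hR2
      obtain ⟨a, ha⟩ := Nat.exists_eq_add_of_le (hI2 s hs).2
      rw [e3, ha, Nat.add_sub_cancel_left]
      simp only [mono_eq, evalEval_mul, evalEval_pow, evalEval_C, evalEval_X, eval_C, eval_X,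
        map_mul, map_pow]
      ring
    rw [hUV x, map_mul, map_pow, map_add, map_mul, map_mul, hR1, zero_mul, zero_add, mul_pow]
    linear_combination π (V.eval x) ^ A * e2
  have := natDegree_le_of_dvd hdvd (mul_ne_zero (pow_ne_zero _ hres) t3)
  refine this.trans (natDegree_mul_le.trans (add_le_add (natDegree_pow_le_of_le _ t5) t4))

lemma separable_frac {g : k[X][X]} (hg : Irreducible g) (hd : g.natDegree ≠ 0)
    (hsep : derivative g ≠ 0) {F : Type*} [Field F] [Algebra k[X] F] [IsFractionRing k[X] F] :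
    Irreducible (g.map (algebraMap k[X] F)) ∧ (g.map (algebraMap k[X] F)).Separable := by
  have hi := ((hg.isPrimitive hd).irreducible_iff_irreducible_map_fraction_map (K := F)).1 hg
  refine ⟨hi, (separable_iff_derivative_ne_zero hi).2 ?_⟩
  rw [derivative_map]
  exact (Polynomial.map_ne_zero_iff (IsFractionRing.injective _ _)).2 hsep

theorem mult_bound (p : ℕ) [hp : Fact p.Prime] [CharP k p] (hp2 : p ≠ 2) {g : k[X][X]}
    (hg : Irreducible g) (hd : g.natDegree ≠ 0) (hsep : derivative g ≠ 0) {c : k[X]}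
    (hc : c = X ∨ (derivative c = 0 ∧ dT g ≠ 0)) (hP : ∀ j, g.eval (orb c j) ≠ 0) :
    ∃ C : ℕ, ∀ (j : ℕ) (R : k[X]), R ∣ g.eval (orb c j) → R ∣ derivative (g.eval (orb c j)) →
      R.natDegree ≤ C * 2 ^ (j - j / 400) := by
  rcases hc with rfl | ⟨hc, hT⟩
  · have h2 : (2 : k) ≠ 0 := by
      intro h
      have := (CharP.cast_eq_zero_iff k p 2).1 (by exact_mod_cast h)
      exact hp2 ((Nat.prime_dvd_prime_iff_eq hp.out Nat.prime_two).1 this)
    obtain ⟨e, he1, he2⟩ : ∃ e, g.natDegree ≤ 2 ^ e ∧ (ht1 k).d g ≤ 2 ^ e :=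
      ⟨g.natDegree + (ht1 k).d g, by have := @Nat.lt_two_pow_self (g.natDegree + (ht1 k).d g); omega,
        by have := @Nat.lt_two_pow_self (g.natDegree + (ht1 k).d g); omega⟩
    refine ⟨2 ^ (4 * e + 4), fun j R hR1 hR2 => ?_⟩
    set κ := j / 400 with hκ
    rw [← pow_add]
    by_cases hsmall : κ < 3 * e + 3
    · refine (natDegree_le_of_dvd hR1 (hP j)).trans ?_
      refine (natDegree_eval_le1 g _ he2 he1 (natDegree_orbX j).le).trans ?_
      have e1 : 2 ^ e ≤ 2 ^ (e + j) := Nat.pow_le_pow_right (by norm_num) (by omega)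
      have e2 : 2 ^ (e + j + 1) ≤ 2 ^ (4 * e + 4 + (j - κ)) :=
        Nat.pow_le_pow_right (by norm_num) (by omega)
      rw [← pow_add]
      rw [pow_succ] at e2
      omega
    obtain ⟨r, hr⟩ : ∃ r, j = r + 2 * κ := ⟨j - 2 * κ, by omega⟩
    have hev : (Gs g X (2 * κ)).eval (orb X r) = g.eval (orb X j) := by
      rw [eval_Gs, orb_eq, orb_eq, ← Function.iterate_add_apply, hr, add_comm]
    let φ := algebraMap k[X] (FractionRing k[X])
    have hφ : Function.Injective φ := IsFractionRing.injective _ _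
    have hs := separable_Gs (F := FractionRing k[X]) (by
      rw [show (2 : FractionRing k[X]) = φ (C 2) by rw [C_ofNat, map_ofNat]]
      exact (map_ne_zero_iff φ hφ).2 (C_ne_zero.2 h2)) (separable_frac hg hd hsep).2 (φ X) (by
      intro j
      rw [← map_orb, eval_map, eval₂_at_apply]
      exact (map_ne_zero_iff φ hφ).2 (hP j)) (2 * κ)
    have hres : resultant (Gs g X (2 * κ)) (derivative (Gs g X (2 * κ))) ≠ 0 :=
      res_ne_zero_of_map φ hφ _ _ (by rw [← derivative_map, map_Gs]; exact hs)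
    have a1 : (Gs g X (2 * κ)).natDegree ≤ 2 ^ (e + 2 * κ) := by
      rw [natDegree_Gs, pow_add]; exact Nat.mul_le_mul_right _ he1
    have a2 : (ht1 k).d (Gs g X (2 * κ)) ≤ 2 ^ (e + 2 * κ + 1) := by
      have := ht1_Gs g X (2 * κ)
      rw [← natDegree_Gs g X, natDegree_X, mul_one] at this
      have e1 : 2 ^ e ≤ 2 ^ (e + 2 * κ) := Nat.pow_le_pow_right (by norm_num) (by omega)
      rw [pow_succ]
      omega
    have hu : 1 ≤ 2 ^ e := Nat.one_le_two_pow
    have hv : 1 ≤ 2 ^ κ := Nat.one_le_two_pow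
    have := mult_core p hp2 (Gs g X (2 * κ))
      (by rw [natDegree_Gs]; exact mul_ne_zero hd (by positivity)) hres (A := 2 ^ (e + κ))
      (h := 4 * e + 6 * κ + 3) (r := r) Nat.one_le_two_pow a1 a2 ?_ ?_ ?_ (by omega) R
      (by rwa [hev]) (by rwa [hev])
    · refine this.trans ?_
      have e1 : 2 ^ (e + κ) * (2 * 2 ^ (e + 2 * κ) * 2 ^ (e + 2 * κ + 1)) =
          2 ^ (3 * e + 5 * κ + 2) := by ring
      have e2 : 2 * 2 ^ (e + κ) * 2 ^ r = 2 ^ (e + κ + r + 1) := by ring
      have e3 : 2 ^ (3 * e + 5 * κ + 2) ≤ 2 ^ (4 * e + 2 + (j - κ)) :=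
        Nat.pow_le_pow_right (by norm_num) (by omega)
      have e4 : 2 ^ (e + κ + r + 1) ≤ 2 ^ (4 * e + 2 + (j - κ)) :=
        Nat.pow_le_pow_right (by norm_num) (by omega)
      have e5 : 2 ^ (4 * e + 6 * κ + 3) ≤ 2 ^ (4 * e + 2 + (j - κ)) :=
        Nat.pow_le_pow_right (by norm_num) (by omega)
      have e6 : 2 ^ (4 * e + 4 + (j - κ)) = 4 * 2 ^ (4 * e + 2 + (j - κ)) := by ring
      omega
    · have e1 : 2 ^ (e + 2 * κ) ≤ 2 ^ (2 * e + 2 * κ) :=
        Nat.pow_le_pow_right (by norm_num) (by omega)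
      have e2 : 2 ^ (2 * e + 2 * κ) = (2 ^ (e + κ)) ^ 2 := by ring
      have e3 : (2 ^ (e + κ)) ^ 2 < (2 ^ (e + κ) + 1) ^ 2 :=
        Nat.pow_lt_pow_left (by omega) (by norm_num)
      omega
    · have e1 : 2 ^ (e + κ) * 2 ^ (e + 2 * κ) = 2 ^ (2 * e + 3 * κ) := by ring
      have e2 : 2 ^ (e + κ) ≤ 2 ^ (2 * e + 3 * κ) := Nat.pow_le_pow_right (by norm_num) (by omega)
      have e3 : 1 ≤ 2 ^ (2 * e + 3 * κ) := Nat.one_le_two_pow
      have e4 : 2 ^ (4 * e + 6 * κ + 3) =
          (4 * 2 ^ (2 * e + 3 * κ)) * (2 ^ (e + κ) * 2 ^ (e + 2 * κ + 1)) := by ring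
      rw [e4]
      exact Nat.mul_le_mul_right _ (by omega)
    · rw [← pow_succ']
      exact Nat.pow_le_pow_right (by norm_num) (by omega)
  · have hx : ∀ j, derivative (orb c j) = 0 := by
      intro j
      induction j with
      | zero => exact hc
      | succ j ih => rw [orb, derivative_add, derivative_sq, ih, hc]; simp
    have hres : resultant g (dT g) ≠ 0 := by
      refine res_ne_zero_of_irreducible hg hd fun hdv => ?_
      have h1 := (ht1 k).le_of_dvd hdv hT
      have h2 := ht1_dT_le g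
      have h3 : (ht1 k).d g ≤ 0 := by omega
      apply hT
      ext1 i
      rw [coeff_dT, coeff_zero]
      exact derivative_of_natDegree_zero (by have := (ht1_le_iff g 0).1 h3 i; omega)
    refine ⟨(resultant g (dT g)).natDegree, fun j R hR1 hR2 => ?_⟩
    obtain ⟨U, V, hUV⟩ := dvd_resultant (M := dT g) hd
    rw [derivative_eval_dT, hx, mul_zero, add_zero] at hR2
    have : R ∣ resultant g (dT g) := by
      rw [hUV (orb c j)]; exact dvd_add (hR1.mul_right _) (hR2.mul_right _)
    exact (natDegree_le_of_dvd this hres).trans (Nat.le_mul_of_pos_right _ (by positivity))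

end Pool.Agent.Work.MP_969914_nt
end

-- merged part: Pool.Agent.Work.MP_969914_nt.Tower
section
/-! Degree growth in towers of square roots. -/

set_option autoImplicit false

open Polynomial IntermediateField Module

namespace Pool.Agent.Work.MP_969914_nt

variable {Ω : Type*} [Field Ω]

/-- Sets behaving like the elements whose valuation lies in a fixed subgroup. -/
structure TS (U : Set Ω) : Prop where
  mul : ∀ a ∈ U, ∀ b ∈ U, a * b ∈ U
  add : ∀ a ∈ U, ∀ b ∈ U, a ^ 2 - b ^ 2 ∈ U → a + b ∈ U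

/-- A vertex `z` of level `j` whose children ramify at a place where nothing else does. -/
def Good (c : Ω) (W : Set Ω) (j : ℕ) (z : Ω) : Prop :=
  ∃ U : Set Ω, TS U ∧ W ⊆ U ∧ (∀ i < j, ∀ s, (fq c)^[i + 1] s = (fq c)^[j] z → s ∈ U) ∧
    (∀ s, (fq c)^[j + 1] s = (fq c)^[j] z → fq c s ≠ z → s ∈ U) ∧ ∀ s, fq c s = z → s ∉ U

lemma Good.comap {c : Ω} {W W' : Set Ω} {j : ℕ} {z : Ω} (σ : Ω →+* Ω) (hc : σ c = c)
    (hW : ∀ x ∈ W, σ x ∈ W') (h : Good c W' j (σ z)) : Good c W j z := by
  obtain ⟨U, h1, h2, h3, h4, h5⟩ := h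
  have e : ∀ n x, σ ((fq c)^[n] x) = (fq c)^[n] (σ x) := fun n x => by rw [map_fq, hc]
  refine ⟨σ ⁻¹' U, ⟨?_, ?_⟩, fun x hx => h2 (hW x hx), ?_, ?_, ?_⟩
  · intro a ha b hb
    simpa using h1.mul _ ha _ hb
  · intro a ha b hb hab
    simpa using h1.add _ ha _ hb (by simpa using hab)
  · intro i hi s hs
    exact h3 i hi (σ s) (by rw [← e, ← e, hs])
  · intro s hs hne
    refine h4 (σ s) (by rw [← e, ← e, hs]) fun h => hne (σ.injective ?_)
    rw [← h]; exact e 1 s
  · intro s hs
    exact h5 (σ s) (by rw [← hs]; exact (e 1 s).symm)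

/-- The `n`-th preimages of `y0`. -/
noncomputable def pre (c : Ω) (n : ℕ) (y0 : Ω) : Finset Ω := by
  classical exact (Gs (X - C y0) c n).roots.toFinset

lemma Gs_ne_zero {A : Type*} [CommRing A] [IsDomain A] {g : A[X]} (hg : g ≠ 0) (c : A) (n : ℕ) :
    Gs g c n ≠ 0 := by
  rw [← leadingCoeff_ne_zero, leadingCoeff_Gs]; simpa using hg

lemma mem_pre {c : Ω} {n : ℕ} {y0 y : Ω} : y ∈ pre c n y0 ↔ (fq c)^[n] y = y0 := by
  classical
  simp only [pre, Multiset.mem_toFinset, mem_roots (Gs_ne_zero (X_sub_C_ne_zero y0) c n),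
    IsRoot.def, eval_Gs, eval_sub, eval_X, eval_C, sub_eq_zero]

lemma card_pre_le (c : Ω) (n : ℕ) (y0 : Ω) : (pre c n y0).card ≤ 2 ^ n := by
  classical
  refine (Multiset.toFinset_card_le _).trans ((card_roots' _).trans ?_)
  rw [natDegree_Gs, natDegree_X_sub_C, one_mul]

lemma card_pre [IsAlgClosed Ω] (h2 : (2 : Ω) ≠ 0) {c y0 : Ω} (h : ∀ j, orb c j ≠ y0) (n : ℕ) :
    (pre c n y0).card = 2 ^ n := by
  classical
  have := separable_Gs h2 (separable_X_sub_C (x := y0)) c
    (fun j => by simpa [sub_eq_zero] using h j) n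
  rw [pre, Multiset.toFinset_card_of_nodup (nodup_roots this), IsAlgClosed.card_roots_eq_natDegree,
    natDegree_Gs, natDegree_X_sub_C, one_mul]

lemma orb_ne_of_card {c y0 : Ω} (h : ∀ n, (pre c n y0).card = 2 ^ n) (j : ℕ) : orb c j ≠ y0 := by
  classical
  intro he
  set G := Gs (X - C y0) c (j + 1) with hG
  have hG0 : G ≠ 0 := Gs_ne_zero (X_sub_C_ne_zero y0) c _
  have h1 : G.roots.card ≤ 2 ^ (j + 1) := by
    refine (card_roots' _).trans ?_
    rw [natDegree_Gs, natDegree_X_sub_C, one_mul]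
  have h2 : G.roots.toFinset.card = G.roots.card :=
    le_antisymm (Multiset.toFinset_card_le _) (h1.trans (h (j + 1)).ge)
  have h3 := Multiset.nodup_iff_count_le_one.1 (Multiset.toFinset_card_eq_card_iff_nodup.1 h2) 0
  have h4 : (X - C c) ∣ Gs (X - C y0) c j := by
    rw [dvd_iff_isRoot, IsRoot.def, eval_Gs, ← orb_eq, he]; simp
  obtain ⟨u, hu⟩ := h4
  have h5 : (X - C 0) ^ 2 ∣ G := by
    rw [hG, Gs, hu]; exact ⟨u.comp (X ^ 2 + C c), by simp⟩
  rw [count_roots] at h3
  have := (le_rootMultiplicity_iff hG0).2 h5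
  omega

lemma exists_child [IsAlgClosed Ω] (c z : Ω) : ∃ s, fq c s = z := by
  obtain ⟨s, hs⟩ := IsAlgClosed.exists_pow_nat_eq (z - c) (n := 2) (by norm_num)
  exact ⟨s, by simp [fq, hs]⟩

variable {K : Type*} [Field K] [Algebra K Ω] [Algebra.IsAlgebraic K Ω]

lemma adj_one {U : Set Ω} (hU : TS U) (L : IntermediateField K Ω) (hL : (L : Set Ω) ⊆ U) {s : Ω}
    (hs : s ∈ U) (hs2 : s ^ 2 ∈ L) : ((L ⊔ adjoin K {s} : IntermediateField K Ω) : Set Ω) ⊆ U := by
  let S : Subalgebra K Ω :=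
    { carrier := {x | ∃ a ∈ L, ∃ b ∈ L, x = a + b * s}
      mul_mem' := by
        rintro _ _ ⟨a, ha, b, hb, rfl⟩ ⟨a', ha', b', hb', rfl⟩
        exact ⟨a * a' + b * b' * s ^ 2, L.add_mem (L.mul_mem ha ha') (L.mul_mem (L.mul_mem hb hb') hs2),
          a * b' + b * a', L.add_mem (L.mul_mem ha hb') (L.mul_mem hb ha'), by ring⟩
      add_mem' := by
        rintro _ _ ⟨a, ha, b, hb, rfl⟩ ⟨a', ha', b', hb', rfl⟩
        exact ⟨a + a', L.add_mem ha ha', b + b', L.add_mem hb hb', by ring⟩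
      algebraMap_mem' := fun r => ⟨_, L.algebraMap_mem r, 0, L.zero_mem, by ring⟩ }
  let E := Subalgebra.IsAlgebraic.toIntermediateField (S := S)
    (fun x _ => Algebra.IsAlgebraic.isAlgebraic x)
  have hle : L ⊔ adjoin K {s} ≤ E := by
    refine sup_le (fun x hx => ⟨x, hx, 0, L.zero_mem, by ring⟩) ?_
    rw [adjoin_simple_le_iff]
    exact ⟨0, L.zero_mem, 1, L.one_mem, by ring⟩
  intro x hx
  obtain ⟨a, ha, b, hb, rfl⟩ := hle hx
  refine hU.add _ (hL ha) _ (hU.mul _ (hL hb) _ hs) (hL ?_)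
  rw [mul_pow]
  exact L.sub_mem (pow_mem ha 2) (L.mul_mem (pow_mem hb 2) hs2)

lemma adj_fin {U : Set Ω} (hU : TS U) (L : IntermediateField K Ω) (hL : (L : Set Ω) ⊆ U)
    (T : Finset Ω) (hT : ∀ s ∈ T, s ∈ U ∧ s ^ 2 ∈ L) :
    ((L ⊔ adjoin K (T : Set Ω) : IntermediateField K Ω) : Set Ω) ⊆ U := by
  classical
  induction T using Finset.induction_on with
  | empty => simpa using hL
  | insert s T _ ih =>
    rw [Finset.coe_insert, Set.insert_eq, Set.union_comm, adjoin_union, ← sup_assoc]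
    exact adj_one hU _ (ih fun x hx => hT x (by simp [hx])) (hT s (by simp)).1
      (le_sup_left (a := L) (hT s (by simp)).2)

instance fd_adjoin (T : Finset Ω) : FiniteDimensional K (adjoin K (T : Set Ω)) :=
  finiteDimensional_adjoin fun x _ => (Algebra.IsAlgebraic.isAlgebraic x).isIntegral

omit [Algebra.IsAlgebraic K Ω] in
lemma two_mul_finrank_le {L L' : IntermediateField K Ω} [FiniteDimensional K L'] (h : L ≤ L')
    (hne : L ≠ L') : 2 * finrank K L ≤ finrank K L' := by
  obtain ⟨m, hm⟩ := finrank_dvd_of_le_right h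
  have h1 : finrank K L ≠ finrank K L' := fun e => hne (eq_of_le_of_finrank_eq h e)
  have h2 : 0 < finrank K L' := finrank_pos
  have : 2 ≤ m := by
    by_contra hlt
    have : m = 0 ∨ m = 1 := by omega
    rcases this with rfl | rfl <;> simp_all
  rw [hm]; nlinarith

lemma level_gen (L : IntermediateField K Ω) [FiniteDimensional K L] (s : Ω → Ω) (U : Ω → Set Ω)
    (Z : Finset Ω) (hZ : ∀ z ∈ Z, TS (U z) ∧ (L : Set Ω) ⊆ U z ∧ s z ∉ U z ∧ s z ^ 2 ∈ L ∧
      ∀ z' ∈ Z, z' ≠ z → s z' ∈ U z) :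
    2 ^ Z.card * finrank K L ≤ finrank K (L ⊔ adjoin K (s '' Z) : IntermediateField K Ω) := by
  classical
  induction Z using Finset.induction_on with
  | empty =>
    rw [Finset.coe_empty, Set.image_empty, adjoin_empty, sup_bot_eq]; simp
  | insert z Z hz ih =>
    have ih' := ih fun x hx => by
      obtain ⟨a1, a2, a3, a4, a5⟩ := hZ x (by simp [hx])
      exact ⟨a1, a2, a3, a4, fun z' hz' => a5 z' (by simp [hz'])⟩
    obtain ⟨a1, a2, a3, a4, a5⟩ := hZ z (by simp)
    have hsub := adj_fin a1 L a2 (Z.image s) (by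
      intro x hx
      obtain ⟨z', hz', rfl⟩ := Finset.mem_image.1 hx
      exact ⟨a5 z' (by simp [hz']) (by rintro rfl; exact hz hz'), (hZ z' (by simp [hz'])).2.2.2.1⟩)
    rw [Finset.coe_image] at hsub
    have hfd : FiniteDimensional K (adjoin K (s '' (insert z Z : Finset Ω))) := by
      rw [← Finset.coe_image]; infer_instance
    have hle : (L ⊔ adjoin K (s '' Z) : IntermediateField K Ω) ≤
        L ⊔ adjoin K (s '' (insert z Z : Finset Ω)) :=
      sup_le_sup_left (adjoin.mono _ _ _ (Set.image_mono (by simp))) _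
    have := two_mul_finrank_le hle (by
      intro he
      apply a3
      apply hsub
      rw [he]
      exact le_sup_right (a := L) (subset_adjoin _ _ ⟨z, by simp, rfl⟩))
    rw [Finset.card_insert_of_notMem hz, pow_succ]
    nlinarith

/-- The field generated by the `n`-th preimages of `y0`. -/
noncomputable def Lv (K : Type*) [Field K] [Algebra K Ω] (c : Ω) (n : ℕ) (y0 : Ω) :
    IntermediateField K Ω := adjoin K (pre c n y0 : Set Ω)

instance fd_Lv (c : Ω) (n : ℕ) (y0 : Ω) : FiniteDimensional K (Lv K c n y0) := fd_adjoin _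

omit [Algebra.IsAlgebraic K Ω] in
lemma sq_mem_Lv (c : K) {n : ℕ} {y0 s : Ω} (hs : (fq (algebraMap K Ω c))^[n + 1] s = y0) :
    s ^ 2 ∈ Lv K (algebraMap K Ω c) n y0 := by
  have : s ^ 2 = fq (algebraMap K Ω c) s - algebraMap K Ω c := by simp [fq]
  rw [this]
  exact sub_mem (subset_adjoin _ _ (by simpa [mem_pre] using hs)) (IntermediateField.algebraMap_mem _ _)

omit [Algebra.IsAlgebraic K Ω] in
lemma Lv_le_succ [IsAlgClosed Ω] (c : K) (n : ℕ) (y0 : Ω) :
    Lv K (algebraMap K Ω c) n y0 ≤ Lv K (algebraMap K Ω c) (n + 1) y0 := by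
  rw [Lv, adjoin_le_iff]
  intro z hz
  obtain ⟨s, rfl⟩ := exists_child (algebraMap K Ω c) z
  have : s ∈ Lv K (algebraMap K Ω c) (n + 1) y0 :=
    subset_adjoin _ _ (by simpa [mem_pre] using hz)
  exact add_mem (pow_mem this 2) (IntermediateField.algebraMap_mem _ _)

lemma level_step [IsAlgClosed Ω] (c b : K) {y0 : Ω} {k n : ℕ}
    (hy : (fq (algebraMap K Ω c))^[k] y0 = algebraMap K Ω b) (Z : Finset Ω)
    (hZ : ∀ z ∈ Z, (fq (algebraMap K Ω c))^[n] z = y0 ∧
      Good (algebraMap K Ω c) (Set.range (algebraMap K Ω)) (k + n) z) :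
    2 ^ Z.card * finrank K (Lv K (algebraMap K Ω c) n y0) ≤
      finrank K (Lv K (algebraMap K Ω c) (n + 1) y0) := by
  set c' := algebraMap K Ω c with hc'
  set β := algebraMap K Ω b with hβ
  choose s hs using exists_child c'
  have hG : ∀ z ∈ Z, Good c' (Set.range (algebraMap K Ω)) (k + n) z := fun z hz => (hZ z hz).2
  choose! U u1 u2 u3 u4 u5 using hG
  have hlev : ∀ z ∈ Z, (fq c')^[k + n] z = β := fun z hz => by
    rw [Function.iterate_add_apply, (hZ z hz).1, hy]
  have hs1 : ∀ z ∈ Z, (fq c')^[n + 1] (s z) = y0 := fun z hz => by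
    rw [Function.iterate_succ_apply, hs, (hZ z hz).1]
  refine (level_gen _ s U Z fun z hz => ⟨u1 z hz, ?_, u5 z hz _ (hs z), sq_mem_Lv c (hs1 z hz),
    fun z' hz' hne => u4 z hz _ ?_ (by rwa [hs])⟩).trans (finrank_le_of_le_right ?_)
  · have key : ∀ i ≤ k + n, (Lv K c' i β : Set Ω) ⊆ U z := by
      intro i
      induction i with
      | zero =>
        intro _
        have : Lv K c' 0 β ≤ ⊥ := by
          rw [Lv, adjoin_le_iff]
          intro x hx
          have : x = β := by simpa [mem_pre] using hx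
          rw [this]
          exact IntermediateField.algebraMap_mem _ _
        intro x hx
        obtain ⟨y, rfl⟩ := IntermediateField.mem_bot.1 (this hx)
        exact u2 z hz ⟨y, rfl⟩
      | succ i ih =>
        intro hi
        have := adj_fin (u1 z hz) _ (ih (by omega)) (pre c' (i + 1) β) (fun x hx =>
          ⟨u3 z hz i (by omega) x (by rw [mem_pre.1 hx, hlev z hz]), sq_mem_Lv c (mem_pre.1 hx)⟩)
        exact fun x hx => this (le_sup_right (a := Lv K c' i β) hx)
    refine fun x hx => key _ le_rfl (adjoin.mono _ _ _ ?_ hx)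
    intro y hy'
    have : (fq c')^[n] y = y0 := by simpa [mem_pre] using hy'
    simp [mem_pre, Function.iterate_add_apply, this, hy]
  · rw [Function.iterate_succ_apply, hs, hlev z hz, hlev z' hz']
  · refine sup_le (Lv_le_succ c n y0) (adjoin.mono _ _ _ ?_)
    rintro _ ⟨z, hz, rfl⟩
    simpa [mem_pre] using hs1 z hz

open Classical in
/-- The bad vertices of level `j`. -/
noncomputable def bad (c : Ω) (W : Set Ω) (j : ℕ) (β : Ω) : Finset Ω :=
  (pre c j β).filter fun z => ¬ Good c W j z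

theorem index_of_bad [IsAlgClosed Ω] (c b : K) (Bd : ℕ → ℕ)
    (hcard : ∀ n, (pre (algebraMap K Ω c) n (algebraMap K Ω b)).card = 2 ^ n)
    (hB : ∀ j, (bad (algebraMap K Ω c) (Set.range (algebraMap K Ω)) j (algebraMap K Ω b)).card ≤
      Bd j) (n : ℕ) : 2 ^ (2 ^ n - 1) ≤ 2 ^ (∑ j ∈ Finset.range n, Bd j) *
        finrank K (Lv K (algebraMap K Ω c) n (algebraMap K Ω b)) := by
  classical
  induction n with
  | zero =>
    have : 0 < finrank K (Lv K (algebraMap K Ω c) 0 (algebraMap K Ω b)) := finrank_pos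
    simp only [pow_zero, Finset.range_zero, Finset.sum_empty]
    omega
  | succ n ih =>
    set Z := (pre (algebraMap K Ω c) n (algebraMap K Ω b)).filter
      fun z => Good (algebraMap K Ω c) (Set.range (algebraMap K Ω)) n z with hZ
    have h1 := level_step c b (k := 0) (n := n) rfl Z (by
      intro z hz
      simpa [hZ, mem_pre] using hz)
    have h2 : Z.card + (bad (algebraMap K Ω c) (Set.range (algebraMap K Ω)) n
        (algebraMap K Ω b)).card = 2 ^ n := by
      rw [← hcard n, ← Finset.card_filter_add_card_filter_not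
        (s := pre (algebraMap K Ω c) n (algebraMap K Ω b))
        (fun z => Good (algebraMap K Ω c) (Set.range (algebraMap K Ω)) n z)]
      exact congrArg (fun t : Finset Ω => Z.card + t.card) (by ext x; simp [bad])
    have h3 := hB n
    have h4 : 2 ^ (2 ^ n) ≤ 2 ^ Bd n * 2 ^ Z.card := by
      rw [← pow_add]; exact Nat.pow_le_pow_right (by norm_num) (by omega)
    have h5 : 2 ^ (n + 1) - 1 = (2 ^ n - 1) + 2 ^ n := by
      have : 1 ≤ 2 ^ n := Nat.one_le_two_pow
      rw [pow_succ]; omega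
    rw [h5, pow_add, Finset.sum_range_succ, pow_add]
    calc _ ≤ (2 ^ (∑ j ∈ Finset.range n, Bd j) *
        finrank K (Lv K (algebraMap K Ω c) n (algebraMap K Ω b))) * (2 ^ Bd n * 2 ^ Z.card) :=
          Nat.mul_le_mul ih h4
      _ = (2 ^ (∑ j ∈ Finset.range n, Bd j) * 2 ^ Bd n) * (2 ^ Z.card *
        finrank K (Lv K (algebraMap K Ω c) n (algebraMap K Ω b))) := by ring
      _ ≤ _ := Nat.mul_le_mul_left _ h1

lemma finrank_le_bad [IsAlgClosed Ω] (h2 : (2 : K) ≠ 0) (c b : K)
    (hpc : ∀ j, orb (algebraMap K Ω c) j ≠ algebraMap K Ω b) {j : ℕ} {z : Ω}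
    (hz : z ∈ bad (algebraMap K Ω c) (Set.range (algebraMap K Ω)) j (algebraMap K Ω b)) :
    finrank K (adjoin K {z}) ≤
      (bad (algebraMap K Ω c) (Set.range (algebraMap K Ω)) j (algebraMap K Ω b)).card := by
  classical
  have : IsAlgClosure K Ω := ⟨inferInstance, inferInstance⟩
  simp only [bad, Finset.mem_filter, mem_pre] at hz
  have halg : IsAlgebraic K z := Algebra.IsAlgebraic.isAlgebraic z
  have hsep := separable_Gs h2 (separable_X_sub_C (x := b)) c (fun j h => hpc j (by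
    rw [← map_orb]; congr 1; simpa [sub_eq_zero] using h)) j
  have hdvd : minpoly K z ∣ Gs (X - C b) c j := by
    refine minpoly.dvd K z ?_
    rw [aeval_def, ← eval_map, map_Gs, eval_Gs, hz.1]; simp
  rw [adjoin.finrank halg.isIntegral,
    ← card_rootSet_eq_natDegree (K := Ω) (hsep.of_dvd hdvd) (IsAlgClosed.splits _),
    ← Set.toFinset_card]
  refine Finset.card_le_card fun x hx => ?_
  rw [Set.mem_toFinset, mem_rootSet] at hx
  obtain ⟨σ, hσ⟩ := minpoly.exists_algEquiv_of_root' halg hx.2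
  simp only [bad, Finset.mem_filter, mem_pre]
  constructor
  · have := map_fq (σ : Ω →+* Ω) (algebraMap K Ω c) j z
    simp only [RingHom.coe_coe, AlgEquiv.commutes, hσ, hz.1] at this
    exact this.symm
  · intro hg
    refine hz.2 (Good.comap (σ : Ω →+* Ω) (by simp) ?_ (by simpa [hσ] using hg))
    rintro _ ⟨y, rfl⟩
    exact ⟨y, by simp⟩

theorem full_of_bad [IsAlgClosed Ω] (h2 : (2 : K) ≠ 0) (c b : K)
    (hpc : ∀ j, orb (algebraMap K Ω c) j ≠ algebraMap K Ω b) {k D : ℕ} {z : Ω}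
    (hz : (fq (algebraMap K Ω c))^[k] z = algebraMap K Ω b)
    (hB : ∀ n, (bad (algebraMap K Ω c) (Set.range (algebraMap K Ω)) (k + n)
      (algebraMap K Ω b)).card ≤ D * 2 ^ n) (hD : D < finrank K (adjoin K {z})) (n : ℕ) :
    2 ^ (2 ^ n - 1) * finrank K (adjoin K {z}) ≤ finrank K (Lv K (algebraMap K Ω c) n z) := by
  classical
  set c' := algebraMap K Ω c with hc'
  have hL0 : ∀ y : Ω, Lv K c' 0 y = adjoin K {y} := by
    intro y
    rw [Lv]; congr 1; ext x; simp [mem_pre]
  have hgood : ∀ n y, (fq c')^[n] y = z → D * 2 ^ n < finrank K (adjoin K {y}) →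
      Good c' (Set.range (algebraMap K Ω)) (k + n) y := by
    intro n y hy hd
    by_contra hg
    have := finrank_le_bad h2 c b hpc (j := k + n) (z := y) (by
      simp only [bad, Finset.mem_filter, mem_pre]
      exact ⟨by rw [Function.iterate_add_apply, hy, hz], hg⟩)
    have := this.trans (hB n)
    omega
  have hdeg : ∀ n y, (fq c')^[n] y = z → D * 2 ^ n < finrank K (adjoin K {y}) := by
    intro n
    induction n with
    | zero => intro y hy; rw [show y = z from hy]; simpa using hD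
    | succ n ih =>
      intro y hy
      have h1 := ih (fq c' y) hy
      have h3 := level_step c b (y0 := fq c' y) (k := k + n) (n := 0)
        (by rw [Function.iterate_add_apply]; rw [Function.iterate_succ_apply] at hy; rw [hy, hz])
        {fq c' y} (by
          intro x hx
          rw [Finset.mem_singleton.1 hx]
          exact ⟨rfl, hgood n _ hy h1⟩)
      have hfd : FiniteDimensional K (adjoin K {y}) := by
        have := fd_adjoin (K := K) ({y} : Finset Ω); rwa [Finset.coe_singleton] at this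
      have h4 : Lv K c' (0 + 1) (fq c' y) ≤ adjoin K {y} := by
        rw [Lv, adjoin_le_iff]
        intro x hx
        have : x ^ 2 = y ^ 2 := by simpa [mem_pre, fq] using hx
        rcases sq_eq_sq_iff_eq_or_eq_neg.1 this with rfl | rfl
        · exact mem_adjoin_simple_self _ _
        · exact neg_mem (mem_adjoin_simple_self _ _)
      have h5 := h3.trans (finrank_le_of_le_right h4)
      rw [hL0, Finset.card_singleton] at h5
      rw [pow_succ, ← mul_assoc]
      omega
  have h2' : (2 : Ω) ≠ 0 := by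
    rw [← map_ofNat (algebraMap K Ω) 2]; exact (_root_.map_ne_zero _).2 h2
  have hpz : ∀ j, orb c' j ≠ z := by
    intro j h
    apply hpc (k + j)
    rw [← hz, ← h, orb_eq, orb_eq, Function.iterate_add_apply]
  induction n with
  | zero => rw [hL0]; simp
  | succ n ih =>
    have h1 := level_step c b hz (pre c' n z) (fun y hy =>
      ⟨mem_pre.1 hy, hgood n y (mem_pre.1 hy) (hdeg n y (mem_pre.1 hy))⟩)
    rw [card_pre h2' hpz] at h1
    have h5 : 2 ^ (n + 1) - 1 = 2 ^ n + (2 ^ n - 1) := by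
      have : 1 ≤ 2 ^ n := Nat.one_le_two_pow
      rw [pow_succ]; omega
    rw [h5, pow_add, mul_assoc]
    exact (Nat.mul_le_mul_left _ ih).trans h1

end Pool.Agent.Work.MP_969914_nt
end

-- merged part: Pool.Agent.Work.MP_969914_nt.Val
section
/-! Valuations above the places of `k(t)`. -/

set_option autoImplicit false

open Polynomial

namespace Pool.Agent.Work.MP_969914_nt

universe u

section grp
variable {Γ : Type*} [LinearOrderedCommGroupWithZero Γ]

/-- An odd power of `x` is an integral power of `γ`. -/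
def InH (γ x : Γ) : Prop := ∃ q : ℕ, Odd q ∧ ∃ m : ℤ, x ^ q = γ ^ m

lemma InH.pow (γ : Γ) (m : ℕ) : InH γ (γ ^ m) := ⟨1, odd_one, m, by simp⟩

lemma InH.one (γ : Γ) : InH γ 1 := by simpa using InH.pow γ 0

lemma InH.mul {γ x y : Γ} (h : γ ≠ 0) (hx : InH γ x) (hy : InH γ y) : InH γ (x * y) := by
  obtain ⟨q, hq, m, e⟩ := hx
  obtain ⟨q', hq', m', e'⟩ := hy
  refine ⟨q * q', hq.mul hq', m * q' + m' * q, ?_⟩
  rw [mul_pow, pow_mul, e, mul_comm q q', pow_mul, e', zpow_add₀ h, zpow_mul, zpow_mul,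
    zpow_natCast, zpow_natCast]

lemma InH.cancel {γ x y : Γ} (h : γ ≠ 0) (hxy : InH γ (x * y)) (hy : InH γ y) : InH γ x := by
  obtain ⟨q', hq', m', e'⟩ := hy
  have hy0 : y ≠ 0 := by
    rintro rfl
    rw [zero_pow (by rintro rfl; simp at hq')] at e'
    exact zpow_ne_zero _ h e'.symm
  have := hxy.mul h (y := y⁻¹) ⟨q', hq', -m', by rw [inv_pow, e', zpow_neg]⟩
  rwa [mul_inv_cancel_right₀ hy0] at this

lemma InH.of_pow {γ x : Γ} {n : ℕ} (hn : Odd n) (hx : InH γ (x ^ n)) : InH γ x := by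
  obtain ⟨q, hq, m, e⟩ := hx
  exact ⟨n * q, hn.mul hq, m, by rw [pow_mul, e]⟩

lemma not_InH {γ x : Γ} (h0 : γ ≠ 0) (h1 : γ ≠ 1) (hx : x ^ 2 = γ) : ¬ InH γ x := by
  rintro ⟨q, hq, m, e⟩
  have : γ ^ (q : ℤ) = γ ^ (m * 2) := by
    rw [zpow_mul, ← e, ← hx, zpow_natCast, zpow_ofNat, ← pow_mul, ← pow_mul, mul_comm]
  have h2 := zpow_right_injective₀ (zero_lt_iff.2 h0) h1 this
  obtain ⟨r, hr⟩ := hq
  omega

variable {Ω : Type*} [Field Ω] (v : Valuation Ω Γ)

/-- Elements with valuation in the odd saturation of the group generated by `γ`. -/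
def UV (γ : Γ) : Set Ω := {x | x = 0 ∨ InH γ (v x)}

lemma TS_UV {γ : Γ} (h : γ ≠ 0) (h2 : v 2 = 1) : TS (UV v γ) := by
  have h2' : ∀ x, v (2 * x) = v x := fun x => by rw [map_mul, h2, one_mul]
  have hz : ∀ x y, x ∈ UV v γ → y ≠ 0 → v y = v x → y ∈ UV v γ := by
    intro x y hx hy e
    rcases hx with rfl | hx
    · exact absurd (by simpa using e) hy
    · exact Or.inr (e ▸ hx)
  constructor
  · rintro a (rfl | ha) b hb
    · left; simp
    rcases hb with rfl | hb
    · left; simp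
    · right; rw [map_mul]; exact ha.mul h hb
  · intro a ha b hb hab
    by_cases h0 : a + b = 0
    · exact Or.inl h0
    have e1 : 2 * a = (a + b) + (a - b) := by ring
    have e2 : 2 * b = (a + b) - (a - b) := by ring
    rcases lt_trichotomy (v (a + b)) (v (a - b)) with hlt | heq | hgt
    · have h3 : v (a - b) = v a := by rw [← h2' a, e1, v.map_add_eq_of_lt_right hlt]
      have h4 : a - b ≠ 0 := by rintro h; simp [h] at hlt
      have h5 := (hz a (a - b) ha h4 h3).resolve_left h4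
      have h6 : a ^ 2 - b ^ 2 = (a + b) * (a - b) := by ring
      rw [h6] at hab
      have h7 := hab.resolve_left (mul_ne_zero h0 h4)
      rw [map_mul] at h7
      exact Or.inr (h7.cancel h h5)
    · have h3 : v a ≤ v (a + b) := by rw [← h2' a, e1]; exact v.map_add_le le_rfl heq.ge
      have h4 : v b ≤ v (a + b) := by rw [← h2' b, e2]; exact v.map_sub_le le_rfl heq.ge
      rcases v.map_add' a b with h5 | h5
      · exact hz a _ ha h0 (le_antisymm h5 h3)
      · exact hz b _ hb h0 (le_antisymm h5 h4)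
    · exact hz a _ ha h0 (by rw [← h2' a, e1, v.map_add_eq_of_lt_left hgt])

lemma root_bound {h : Polynomial Ω} (h0 : h ≠ 0) {θ : Ω} (hθ : h.eval θ = 0) {γ : Γ}
    (hc : ∀ i, v (h.coeff i) ≤ γ) : v h.leadingCoeff * v θ ≤ γ := by
  rcases le_or_gt (v θ) 1 with h1 | h1
  · exact (mul_le_mul' (hc _) h1).trans (by simp)
  obtain ⟨n, hn⟩ : ∃ n, h.natDegree = n + 1 := by
    refine Nat.exists_eq_succ_of_ne_zero fun hd => h0 ?_
    obtain ⟨a, rfl⟩ := natDegree_eq_zero.1 hd
    simpa using hθ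
  rw [eval_eq_sum_range, Finset.sum_range_succ, add_comm, add_eq_zero_iff_eq_neg] at hθ
  have h2 : v (h.coeff h.natDegree * θ ^ h.natDegree) ≤ γ * v θ ^ n := by
    rw [hθ, v.map_neg]
    refine v.map_sum_le fun i hi => ?_
    rw [map_mul, map_pow]
    exact mul_le_mul' (hc i) (pow_le_pow_right₀ h1.le (by simp at hi; omega))
  rw [map_mul, map_pow, coeff_natDegree, hn, pow_succ', ← mul_assoc] at h2
  exact le_of_mul_le_mul_right h2 (pow_pos (zero_lt_one.trans h1) n)

end grp

variable {k : Type*} [Field k] {Ω : Type u} [Field Ω]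

lemma exists_val (φ : k[X] →+* Ω) (hφ : Function.Injective φ) (a : k) :
    ∃ (Γ : Type u) (_ : LinearOrderedCommGroupWithZero Γ) (v : Valuation Ω Γ),
      (∀ q, v (φ q) ≤ 1) ∧ v (φ (X - C a)) < 1 := by
  obtain ⟨B, h1, h2⟩ := Ideal.image_subset_nonunits_valuationSubring (A := φ.range)
    (Ideal.span {⟨φ (X - C a), _, rfl⟩}) (by
      rw [Ne, Ideal.span_singleton_eq_top, isUnit_iff_exists_inv]
      rintro ⟨⟨_, q, rfl⟩, h⟩
      have h' : φ ((X - C a) * q) = φ 1 := by
        rw [map_mul, map_one]; exact congrArg Subtype.val h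
      have := congrArg (eval a) (hφ h')
      simp at this)
  refine ⟨_, inferInstance, B.valuation, fun q => (B.valuation_le_one_iff _).2 (h1 ⟨q, rfl⟩), ?_⟩
  exact B.mem_nonunits_iff.1 (h2 ⟨_, Ideal.subset_span rfl, rfl⟩)

variable [Algebra k[X] Ω] {Γ : Type*} [LinearOrderedCommGroupWithZero Γ]

/-- `v` lies above the place `t = a`. -/
structure Above (v : Valuation Ω Γ) (a : k) : Prop where
  le : ∀ q : k[X], v (algebraMap k[X] Ω q) ≤ 1
  lt : v (algebraMap k[X] Ω (X - C a)) < 1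

lemma val_C {v : Valuation Ω Γ} (h : ∀ r : k, v (algebraMap k[X] Ω (C r)) ≤ 1) {r : k}
    (hr : r ≠ 0) : v (algebraMap k[X] Ω (C r)) = 1 := by
  have e : v (algebraMap k[X] Ω (C r)) * v (algebraMap k[X] Ω (C r⁻¹)) = 1 := by
    rw [← map_mul, ← map_mul, ← map_mul, mul_inv_cancel₀ hr, map_one, map_one, map_one]
  refine le_antisymm (h r) ?_
  calc 1 = _ := e.symm
    _ ≤ _ * 1 := mul_le_mul' le_rfl (h _)
    _ = _ := mul_one _

namespace Above

variable {v : Valuation Ω Γ} {a : k} (h : Above v a)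
include h

lemma two (h2 : (2 : k) ≠ 0) : v 2 = 1 := by
  have := val_C (fun r => h.le _) h2
  rwa [C_ofNat, map_ofNat] at this

lemma mul_lt {x : Ω} (hx : v x ≤ 1) : v (algebraMap k[X] Ω (X - C a) * x) < 1 := by
  rw [map_mul]; exact (mul_le_mul' le_rfl hx).trans_lt (by simpa using h.lt)

lemma eq_one {q : k[X]} (hq : q.eval a ≠ 0) : v (algebraMap k[X] Ω q) = 1 := by
  obtain ⟨w, hw⟩ := X_sub_C_dvd_sub_C_eval (a := a) (p := q)
  have : q = C (q.eval a) + (X - C a) * w := by linear_combination hw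
  have h1 := val_C (fun r => h.le _) hq
  rw [this, map_add, map_mul, v.map_add_eq_of_lt_left (by rw [h1]; exact h.mul_lt (h.le w)), h1]

lemma lt_one {q : k[X]} (hq : q.eval a = 0) : v (algebraMap k[X] Ω q) < 1 := by
  obtain ⟨w, hw⟩ := dvd_iff_isRoot.2 hq
  rw [hw, map_mul]; exact h.mul_lt (h.le w)

lemma eval_eq_zero {q : k[X]} (hq : v (algebraMap k[X] Ω q) < 1) : q.eval a = 0 := by
  by_contra h0; exact absurd (h.eq_one h0) hq.ne

lemma val_eq {q : k[X]} (hq : q ≠ 0) :
    v (algebraMap k[X] Ω q) = v (algebraMap k[X] Ω (X - C a)) ^ rootMultiplicity a q := by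
  obtain ⟨w, h1, h2⟩ := exists_eq_pow_rootMultiplicity_mul_and_not_dvd q hq a
  conv_lhs => rw [h1]
  rw [map_mul, map_mul, map_pow, map_pow, h.eq_one (fun h0 => h2 (dvd_iff_isRoot.2 h0)), mul_one]

lemma aeval_le {θ : Ω} (hθ : v θ ≤ 1) (q : k[X][X]) : v (aeval θ q) ≤ 1 := by
  rw [aeval_eq_sum_range]
  refine v.map_sum_le fun i _ => ?_
  rw [Algebra.smul_def, map_mul, map_pow]
  exact mul_le_one' (h.le _) (pow_le_one' hθ i)

lemma root_le {g : k[X][X]} (hinj : Function.Injective (algebraMap k[X] Ω)) (h0 : g ≠ 0) {θ : Ω}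
    (hθ : aeval θ g = 0) : v (algebraMap k[X] Ω g.leadingCoeff) * v θ ≤ 1 := by
  have := root_bound v (h := g.map (algebraMap k[X] Ω)) ((Polynomial.map_ne_zero_iff hinj).2 h0)
    (by rwa [eval_map_algebraMap]) (γ := 1) (fun i => by rw [coeff_map]; exact h.le _)
  rwa [leadingCoeff_map_of_injective hinj] at this

lemma exists_residue [IsAlgClosed k] {g : k[X][X]} (hg : g.leadingCoeff.eval a ≠ 0) {θ : Ω}
    (hθ1 : v θ ≤ 1) (hθ : aeval θ g = 0) : ∃ r : k, v (θ - algebraMap k[X] Ω (C r)) < 1 := by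
  set q := g.map (evalRingHom a) with hq
  have hq0 : q ≠ 0 := by
    intro h0
    have := congrArg (fun x => x.coeff g.natDegree) h0
    exact hg (by simpa [hq] using this)
  obtain ⟨w, hw⟩ : C (X - C a) ∣ q.map C - g := by
    rw [C_dvd_iff_dvd_coeff]
    intro i
    rw [coeff_sub, coeff_map, hq, coeff_map, ← dvd_neg, neg_sub]
    exact X_sub_C_dvd_sub_C_eval
  have h1 : v (aeval θ (q.map C)) < 1 := by
    have : q.map C = g + C (X - C a) * w := by linear_combination hw
    rw [this, map_add, hθ, zero_add, map_mul, aeval_C]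
    exact h.mul_lt (h.aeval_le hθ1 w)
  by_contra hno
  push Not at hno
  rw [(IsAlgClosed.splits q).eq_prod_roots, Polynomial.map_mul, map_C, map_mul, aeval_C, map_mul,
    val_C (fun r => h.le _) (leadingCoeff_ne_zero.2 hq0), one_mul, Polynomial.map_multiset_prod,
    map_multiset_prod, map_multiset_prod] at h1
  refine absurd h1 (not_lt.2 (Multiset.one_le_prod_of_one_le ?_))
  simp only [Multiset.map_map, Multiset.mem_map, Function.comp_apply, Polynomial.map_sub, map_X,
    map_C, map_sub, aeval_X, aeval_C]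
  rintro _ ⟨r, -, rfl⟩
  exact hno r

lemma int_step {g : k[X][X]} {θ : Ω} (hθ1 : v θ ≤ 1) (hθ : aeval θ g = 0)
    (hd : v (aeval θ (derivative g)) = 1) {r : k} (hr : v (θ - algebraMap k[X] Ω (C r)) < 1)
    (q : k[X][X]) (hq : v (aeval θ q) < 1) :
    ∃ q' : k[X][X], v (aeval θ q) = v (algebraMap k[X] Ω (X - C a)) * v (aeval θ q') := by
  have dec : ∀ q : k[X][X], v (aeval θ q) < 1 → ∃ (q1 : k[X][X]) (w : k[X]),
      q = (X - C (C r)) * q1 + C ((X - C a) * w) := by
    intro q hq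
    obtain ⟨q1, h1⟩ := X_sub_C_dvd_sub_C_eval (a := C r) (p := q)
    have h2 : v (algebraMap k[X] Ω (q.eval (C r))) < 1 := by
      have : C (q.eval (C r)) = q - (X - C (C r)) * q1 := by linear_combination -h1
      rw [← aeval_C θ, this, map_sub, map_mul]
      refine v.map_sub_lt hq ?_
      rw [map_mul]
      exact (mul_le_mul' le_rfl (h.aeval_le hθ1 q1)).trans_lt (by simpa using hr)
    obtain ⟨w, hw⟩ := dvd_iff_isRoot.2 (h.eval_eq_zero h2)
    exact ⟨q1, w, by rw [← hw]; linear_combination h1⟩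
  obtain ⟨g1, wg, hg⟩ := dec g (by simp [hθ])
  obtain ⟨q1, wq, hq'⟩ := dec q hq
  have h1 : v (aeval θ g1) = 1 := by
    have e : derivative g = g1 + (X - C (C r)) * derivative g1 := by
      conv_lhs => rw [hg]
      simp only [derivative_add, derivative_mul, derivative_sub, derivative_X, derivative_C]
      ring
    have h3 : v (aeval θ ((X - C (C r)) * derivative g1)) < 1 := by
      rw [map_mul, map_mul]
      exact (mul_le_mul' le_rfl (h.aeval_le hθ1 _)).trans_lt (by simpa using hr)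
    have : g1 = derivative g - (X - C (C r)) * derivative g1 := by rw [e]; ring
    rw [this, map_sub, v.map_sub_eq_of_lt_left (by rwa [hd]), hd]
  refine ⟨C wq * g1 - C wg * q1, ?_⟩
  have e : q * g1 = C (X - C a) * (C wq * g1 - C wg * q1) + g * q1 := by
    conv_lhs => rw [hq']
    conv_rhs => rw [hg]
    simp only [map_mul]
    ring
  have := congrArg (fun x => v (aeval θ x)) e
  simpa only [map_mul, map_add, hθ, zero_mul, add_zero, h1, mul_one, aeval_C] using this

lemma int_aeval [IsAlgClosed k] [Algebra.IsAlgebraic k[X] Ω]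
    (hinj : Function.Injective (algebraMap k[X] Ω)) {g : k[X][X]} (hn : g.natDegree ≠ 0)
    (hg : g.leadingCoeff.eval a ≠ 0) (hres : (resultant g (derivative g)).eval a ≠ 0) {θ : Ω}
    (hθ : aeval θ g = 0) (q : k[X][X]) (hq : aeval θ q ≠ 0) :
    ∃ m : ℕ, v (aeval θ q) = v (algebraMap k[X] Ω (X - C a)) ^ m := by
  have hθ1 : v θ ≤ 1 := by
    have := h.root_le hinj (by rintro rfl; simp at hn) hθ
    rwa [h.eq_one hg, one_mul] at this
  obtain ⟨r, hr⟩ := h.exists_residue hg hθ1 hθ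
  have hd : v (aeval θ (derivative g)) = 1 := by
    obtain ⟨U, V, -, -, hUV⟩ :=
      exists_mul_add_mul_eq_C_resultant g (derivative g) le_rfl le_rfl (Or.inl hn)
    have := congrArg (fun x => v (aeval θ x)) hUV
    simp only [map_add, map_mul, hθ, zero_mul, zero_add, aeval_C, h.eq_one hres] at this
    refine le_antisymm (h.aeval_le hθ1 _) ?_
    calc 1 = _ := this.symm
      _ ≤ _ * 1 := mul_le_mul' le_rfl (h.aeval_le hθ1 _)
      _ = _ := mul_one _
  have hπ : 0 < v (algebraMap k[X] Ω (X - C a)) :=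
    v.pos_iff.2 ((map_ne_zero_iff _ hinj).2 (X_sub_C_ne_zero a))
  obtain ⟨N, hN⟩ : ∃ N : ℕ, v (algebraMap k[X] Ω (X - C a)) ^ N ≤ v (aeval θ q) := by
    obtain ⟨t, ht, ρ, hρ, e⟩ := (Algebra.IsAlgebraic.isAlgebraic (R := k[X])
      (aeval θ q)).exists_nonzero_eq_adjoin_mul (mem_nonZeroDivisors_of_ne_zero hq)
    rw [Algebra.adjoin_singleton_eq_range_aeval] at ht
    obtain ⟨w, rfl⟩ := ht
    refine ⟨rootMultiplicity a ρ, ?_⟩
    rw [← h.val_eq hρ, ← e, map_mul]
    exact (mul_le_mul' le_rfl (h.aeval_le (h.aeval_le hθ1 q) w)).trans (by simp)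
  clear hq
  induction N generalizing q with
  | zero => exact ⟨0, le_antisymm (by simpa using h.aeval_le hθ1 q) hN⟩
  | succ N ih =>
    rcases (h.aeval_le hθ1 q).lt_or_eq with h1 | h1
    · obtain ⟨q', hq'⟩ := h.int_step hθ1 hθ hd hr q h1
      rw [hq', pow_succ'] at hN
      obtain ⟨m, hm⟩ := ih q' (le_of_mul_le_mul_left hN hπ)
      exact ⟨m + 1, by rw [hq', hm, pow_succ']⟩
    · exact ⟨0, by simpa using h1⟩

end Above

lemma val_inf {v : Valuation Ω Γ} (h : ∀ r : k, v (algebraMap k[X] Ω (C r)) ≤ 1)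
    (h1 : 1 < v (algebraMap k[X] Ω X)) {q : k[X]} (hq : q ≠ 0) :
    v (algebraMap k[X] Ω q) = v (algebraMap k[X] Ω X) ^ q.natDegree := by
  induction hn : q.natDegree generalizing q with
  | zero =>
    obtain ⟨r, rfl⟩ := natDegree_eq_zero.1 hn
    rw [val_C h (by rintro rfl; simp at hq), pow_zero]
  | succ n ih =>
    have h2 : q.divX.natDegree = n := by rw [natDegree_divX_eq_natDegree_tsub_one, hn]; rfl
    have h3 : q.divX ≠ 0 := by
      intro h0
      rw [divX_eq_zero_iff] at h0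
      rw [h0, natDegree_C] at hn
      omega
    have h4 : v (algebraMap k[X] Ω (X * q.divX)) = v (algebraMap k[X] Ω X) ^ (n + 1) := by
      rw [map_mul, map_mul, ih h3 h2, pow_succ']
    conv_lhs => rw [← X_mul_divX_add q]
    rw [map_add, v.map_add_eq_of_lt_left, h4]
    rw [h4]
    exact (h _).trans_lt (one_lt_pow₀ h1 (by omega))

lemma exists_inf (hinj : Function.Injective (algebraMap k[X] Ω)) :
    ∃ (Γ : Type u) (_ : LinearOrderedCommGroupWithZero Γ) (v : Valuation Ω Γ),
      (∀ r : k, v (algebraMap k[X] Ω (C r)) ≤ 1) ∧ 1 < v (algebraMap k[X] Ω X) := by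
  let _ : Algebra k Ω := ((algebraMap k[X] Ω).comp C).toAlgebra
  have e : ∀ q : k[X], aeval (algebraMap k[X] Ω X) q = algebraMap k[X] Ω q := by
    intro q
    have : (aeval (algebraMap k[X] Ω X) : k[X] →ₐ[k] Ω).toRingHom = algebraMap k[X] Ω := by
      ext r
      · simp; rfl
      · simp
    exact congrArg (fun f : k[X] →+* Ω => f q) this
  have ht : Transcendental k (algebraMap k[X] Ω X) := by
    rw [transcendental_iff_injective]
    intro x y hxy
    exact hinj (by rw [← e x, ← e y, hxy])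
  have ht' : Transcendental k (algebraMap k[X] Ω X)⁻¹ := fun h' => ht (IsAlgebraic.inv_iff.1 h')
  obtain ⟨Γ, _, v, h1, h2⟩ := exists_val (aeval (algebraMap k[X] Ω X)⁻¹ : k[X] →ₐ[k] Ω).toRingHom
    (transcendental_iff_injective.1 ht') 0
  refine ⟨Γ, inferInstance, v, fun r => by
    have := h1 (C r)
    simp only [AlgHom.toRingHom_eq_coe, RingHom.coe_coe, aeval_C] at this
    exact this, ?_⟩
  rw [v.one_lt_val_iff ((map_ne_zero_iff _ hinj).2 X_ne_zero)]
  simpa using h2

open IntermediateField in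
lemma exists_unram [IsAlgClosed k] (p : ℕ) [hp : Fact p.Prime] [CharP k p] (hp2 : p ≠ 2)
    {F : Type*} [Field F] [Algebra k[X] F] [IsFractionRing k[X] F] [Algebra F Ω]
    [IsScalarTower k[X] F Ω] [Algebra.IsAlgebraic F Ω] (M : IntermediateField F Ω)
    [FiniteDimensional F M] :
    ∃ ρ : k[X], ρ ≠ 0 ∧ ∀ (Γ : Type u) [LinearOrderedCommGroupWithZero Γ] (v : Valuation Ω Γ)
      (a : k), Above v a → ρ.eval a ≠ 0 → (M : Set Ω) ⊆ UV v (v (algebraMap k[X] Ω (X - C a))) := by
  have hφ : Function.Injective (algebraMap k[X] F) := IsFractionRing.injective _ _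
  have hinj : Function.Injective (algebraMap k[X] Ω) := by
    rw [IsScalarTower.algebraMap_eq k[X] F Ω]; exact (algebraMap F Ω).injective.comp hφ
  have : Algebra.IsAlgebraic k[X] Ω := (IsFractionRing.comap_isAlgebraic_iff (K := F)).2 ‹_›
  have : CharP F p := charP_of_injective_ringHom hφ p
  set E := separableClosure F Ω ⊓ M with hE
  have : FiniteDimensional F E :=
    FiniteDimensional.of_injective (inclusion (inf_le_right : E ≤ M)).toLinearMap
      (inclusion_injective (inf_le_right : E ≤ M))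
  have : Algebra.IsSeparable F E := (le_separableClosure_iff F Ω E).1 inf_le_left
  obtain ⟨α, hα⟩ := Field.exists_primitive_element F E
  have hα' : adjoin F {(α : Ω)} = E := by rw [← lift_adjoin_simple, hα, lift_top]
  have hsep : IsSeparable F (α : Ω) := mem_separableClosure_iff.1 α.2.1
  have hint : IsIntegral F (α : Ω) := hsep.isIntegral
  obtain ⟨b, hb, hg⟩ := IsLocalization.integerNormalization_spec (nonZeroDivisors k[X])
    (minpoly F (α : Ω))
  set g := IsLocalization.integerNormalization (nonZeroDivisors k[X]) (minpoly F (α : Ω))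
  have hb0 : algebraMap k[X] F b ≠ 0 := (map_ne_zero_iff _ hφ).2 (nonZeroDivisors.ne_zero hb)
  have hg' : g.map (algebraMap k[X] F) = C (algebraMap k[X] F b) * minpoly F (α : Ω) := by
    rw [hg, ← algebraMap_smul F b, smul_eq_C_mul]
  have hn : g.natDegree ≠ 0 := by
    rw [← natDegree_map_eq_of_injective hφ, hg', natDegree_C_mul hb0]
    exact (minpoly.natDegree_pos hint).ne'
  have hroot : aeval (α : Ω) g = 0 := by
    rw [← aeval_map_algebraMap F, hg', map_mul, minpoly.aeval, mul_zero]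
  have hres : resultant g (derivative g) ≠ 0 := res_ne_zero_of_map _ hφ _ _ (by
    rw [← derivative_map, hg']
    exact (show (C (algebraMap k[X] F b) * minpoly F (α : Ω)).Separable from
      Separable.unit_mul (isUnit_C.2 hb0.isUnit) hsep))
  refine ⟨g.leadingCoeff * resultant g (derivative g),
    mul_ne_zero (by rw [leadingCoeff_ne_zero]; rintro h0; simp [h0] at hn) hres, ?_⟩
  intro Γ _ v a h hρ x hx
  rw [eval_mul] at hρ
  by_cases hx0 : x = 0
  · exact Or.inl hx0
  right
  have : CharP (separableClosure F Ω) p :=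
    charP_of_injective_algebraMap (algebraMap F (separableClosure F Ω)).injective p
  have : ExpChar (separableClosure F Ω) p := ExpChar.prime hp.out
  obtain ⟨n, y, hy⟩ := IsPurelyInseparable.pow_mem (separableClosure F Ω) p x
  have hxE : x ^ p ^ n ∈ adjoin F {(α : Ω)} := by
    rw [hα']; exact ⟨hy ▸ y.2, pow_mem hx _⟩
  rw [← mem_toSubalgebra, adjoin_simple_toSubalgebra_of_isAlgebraic hint.isAlgebraic,
    Algebra.adjoin_singleton_eq_range_aeval] at hxE
  obtain ⟨w, hw⟩ := hxE
  obtain ⟨b', hb', hw'⟩ := IsLocalization.integerNormalization_spec (nonZeroDivisors k[X]) w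
  set w' := IsLocalization.integerNormalization (nonZeroDivisors k[X]) w
  have hb'0 := nonZeroDivisors.ne_zero hb'
  have e : aeval (α : Ω) w' = x ^ p ^ n * algebraMap k[X] Ω b' := by
    rw [← aeval_map_algebraMap F, hw', ← algebraMap_smul F b', map_smul, Algebra.smul_def,
      ← IsScalarTower.algebraMap_apply, mul_comm]
    exact congrArg (· * _) hw
  obtain ⟨m, hm⟩ := h.int_aeval hinj hn (left_ne_zero_of_mul hρ) (right_ne_zero_of_mul hρ) hroot w'
    (by rw [e]; exact mul_ne_zero (pow_ne_zero _ hx0) ((map_ne_zero_iff _ hinj).2 hb'0))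
  have hπ : v (algebraMap k[X] Ω (X - C a)) ≠ 0 :=
    v.ne_zero_iff.2 ((map_ne_zero_iff _ hinj).2 (X_sub_C_ne_zero a))
  rw [e, map_mul, map_pow] at hm
  refine InH.of_pow (hp.out.odd_of_ne_two hp2).pow (InH.cancel hπ (hm ▸ InH.pow _ m) ?_)
  rw [h.val_eq hb'0]
  exact InH.pow _ _

end Pool.Agent.Work.MP_969914_nt
end

-- merged part: Pool.Agent.Work.MP_969914_nt.Count
section
/-! Auxiliary counting and valuation lemmas. -/

set_option autoImplicit false

open Polynomial

namespace Pool.Agent.Work.MP_969914_nt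

universe u

variable {k : Type*} [Field k]

lemma deg_count [IsAlgClosed k] {N P L Z : k[X]} (hP : P ≠ 0) (hL : L ≠ 0) (hZ : Z ≠ 0)
    (hd : N ∣ P * L) (hr : ∀ a, N.eval a = 0 → Z.eval a = 0 ∨ 2 ≤ rootMultiplicity a P) {m : ℕ}
    (hm : ∀ R : k[X], R ∣ P → R ∣ derivative P → R.natDegree ≤ m) :
    N.natDegree ≤ 2 * m + Z.natDegree + L.natDegree := by
  classical
  have hN : N ≠ 0 := ne_zero_of_dvd_ne_zero (mul_ne_zero hP hL) hd
  set s := P.roots - P.roots.dedup with hs
  have hcs : ∀ a, s.count a = rootMultiplicity a P - 1 := by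
    intro a
    rw [hs, Multiset.count_sub, Multiset.count_dedup, count_roots]
    split_ifs with h
    · rfl
    · rw [← count_roots, Multiset.count_eq_zero_of_notMem h]
  have h1 : s.card ≤ m := by
    rw [← natDegree_multiset_prod_X_sub_C_eq_card]
    refine hm _ ((Multiset.prod_X_sub_C_dvd_iff_le_roots hP s).2 (Multiset.sub_le_self _ _)) ?_
    by_cases h0 : derivative P = 0
    · simp [h0]
    refine (Multiset.prod_X_sub_C_dvd_iff_le_roots h0 s).2 (Multiset.le_iff_count.2 fun a => ?_)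
    rw [hcs, count_roots]
    exact rootMultiplicity_sub_one_le_derivative_rootMultiplicity_of_ne_zero P a h0
  have h2 : N.roots ≤ s + s + Z.roots + L.roots := by
    refine Multiset.le_iff_count.2 fun a => ?_
    simp only [Multiset.count_add, hcs, count_roots]
    have h3 := rootMultiplicity_le_rootMultiplicity_of_dvd (mul_ne_zero hP hL) hd a
    rw [rootMultiplicity_mul (mul_ne_zero hP hL)] at h3
    by_cases ha : N.eval a = 0
    · rcases hr a ha with h | h
      · have := (rootMultiplicity_pos hZ).2 h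
        omega
      · omega
    · rw [rootMultiplicity_eq_zero ha]; omega
  have h3 := Multiset.card_le_card h2
  simp only [Multiset.card_add, IsAlgClosed.card_roots_eq_natDegree] at h3
  omega

lemma eval_derivative_Gs {A : Type*} [CommRing A] (g : A[X]) (c : A) (n : ℕ) (x : A) :
    (derivative (Gs g c n)).eval x =
      (derivative g).eval ((fq c)^[n] x) * ∏ i ∈ Finset.range n, 2 * (fq c)^[i] x := by
  induction n generalizing x with
  | zero => simp [Gs]
  | succ n ih =>
    rw [Gs, derivative_comp, eval_mul, eval_comp, ih, Finset.prod_range_succ']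
    simp only [Function.iterate_succ_apply, derivative_add, derivative_sq, derivative_X,
      derivative_C, eval_add, eval_mul, eval_pow, eval_X, eval_C, fq, Function.iterate_zero_apply,
      eval_one, eval_zero]
    ring

lemma mem_range_of_fixed {F Ω : Type*} [Field F] [Field Ω] [Algebra F Ω] [IsAlgClosed Ω]
    [Algebra.IsAlgebraic F Ω] {x : Ω} (hx : IsSeparable F x) (h : ∀ σ : Ω ≃ₐ[F] Ω, σ x = x) :
    x ∈ (algebraMap F Ω).range := by
  have : IsAlgClosure F Ω := ⟨inferInstance, inferInstance⟩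
  rw [← minpoly.natDegree_eq_one_iff]
  refine le_antisymm ?_ (minpoly.natDegree_pos hx.isIntegral)
  rw [← card_rootSet_eq_natDegree (K := Ω) hx (IsAlgClosed.splits _), Fintype.card_le_one_iff]
  have key : ∀ y : (minpoly F x).rootSet Ω, (y : Ω) = x := by
    rintro ⟨y, hy⟩
    obtain ⟨σ, hσ⟩ := minpoly.exists_algEquiv_of_root' hx.isIntegral.isAlgebraic
      (mem_rootSet.1 hy).2
    exact hσ.symm.trans (h σ)
  exact fun a b => Subtype.ext ((key a).trans (key b).symm)

section val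
variable {Ω : Type u} [Field Ω] {Γ : Type*} [LinearOrderedCommGroupWithZero Γ]
  {v : Valuation Ω Γ} {c : Ω}

lemma val_iter_of_le {z : Ω} (h1 : 1 < v z) (h2 : v c ≤ v z) (j : ℕ) :
    v ((fq c)^[j] z) = v z ^ 2 ^ j := by
  induction j with
  | zero => simp
  | succ j ih =>
    have : v c < v ((fq c)^[j] z ^ 2) := by
      rw [map_pow, ih, ← pow_mul]
      refine h2.trans_lt ?_
      have := pow_lt_pow_right₀ h1 (show 1 < 2 ^ j * 2 by have := @Nat.one_le_two_pow j; omega)
      rwa [pow_one] at this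
    rw [Function.iterate_succ_apply', fq, v.map_add_eq_of_lt_left this, map_pow, ih, ← pow_mul,
      pow_succ]

lemma val_sub_pow_le (hc : v c ≤ 1) {z : Ω} {j : ℕ} {γ : Γ} (hγ : γ ≤ 1)
    (h : γ * v ((fq c)^[j] z) ≤ 1) : v (c - z) ^ 2 ^ j * γ ≤ 1 := by
  rcases le_or_gt (v z) 1 with h1 | h1
  · exact mul_le_one' (pow_le_one' (v.map_sub_le hc h1) _) hγ
  · rwa [v.map_sub_eq_of_lt_right (hc.trans_lt h1), ← val_iter_of_le h1 (hc.trans h1.le), mul_comm]

lemma val_le_one_of_iter (hc : v c ≤ 1) {z : Ω} {j : ℕ} (h : v ((fq c)^[j] z) ≤ 1) : v z ≤ 1 := by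
  by_contra h1
  push Not at h1
  rw [val_iter_of_le h1 (hc.trans h1.le)] at h
  exact absurd (one_lt_pow₀ h1 (n := 2 ^ j) (by positivity)) (not_lt.2 h)

lemma val_iter_le (hc : v c ≤ 1) {z : Ω} (h : v z ≤ 1) (j : ℕ) : v ((fq c)^[j] z) ≤ 1 := by
  induction j with
  | zero => exact h
  | succ j ih =>
    rw [Function.iterate_succ_apply', fq]
    exact v.map_add_le (by rw [map_pow]; exact pow_le_one' ih 2) hc

lemma val_iter_sub (hc : v c ≤ 1) {x z : Ω} (hx : v x ≤ 1) (hz : v z ≤ 1) (h : v (x - z) < 1)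
    (j : ℕ) : v ((fq c)^[j] x - (fq c)^[j] z) < 1 := by
  induction j with
  | zero => exact h
  | succ j ih =>
    have : (fq c)^[j + 1] x - (fq c)^[j + 1] z =
        ((fq c)^[j] x - (fq c)^[j] z) * ((fq c)^[j] x + (fq c)^[j] z) := by
      simp only [Function.iterate_succ_apply', fq]; ring
    rw [this, map_mul]
    exact (mul_le_mul' le_rfl (v.map_add_le (val_iter_le hc hx j) (val_iter_le hc hz j))).trans_lt
      (by simpa using ih)

lemma val_prod_lt {ι : Type*} {s : Finset ι} {f : ι → Ω} (h : ∀ i ∈ s, v (f i) ≤ 1) {i : ι}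
    (hi : i ∈ s) (h1 : v (f i) < 1) : v (∏ i ∈ s, f i) < 1 := by
  classical
  rw [← Finset.mul_prod_erase s f hi, map_mul, map_prod]
  exact (mul_le_mul' le_rfl (Finset.prod_le_one' fun j hj =>
    h j (Finset.mem_of_mem_erase hj))).trans_lt (by simpa using h1)

lemma val_prod_mul_le {ι : Type*} {s : Finset ι} {f : ι → Ω} {γ : Γ} (hγ : γ ≤ 1) {n d : ℕ}
    (hn : n ≠ 0) (hs : s.card ≤ d * n) (h : ∀ i ∈ s, v (f i) ^ n * γ ≤ 1) :
    v (∏ i ∈ s, f i) * γ ^ d ≤ 1 := by
  have h1 : ∏ i ∈ s, (v (f i) ^ n * γ) ≤ 1 := Finset.prod_le_one' h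
  rw [Finset.prod_mul_distrib, Finset.prod_pow, Finset.prod_const, ← map_prod] at h1
  rw [← pow_le_one_iff_of_nonneg zero_le hn, mul_pow, ← pow_mul]
  exact (mul_le_mul' le_rfl (pow_le_pow_of_le_one zero_le hγ hs)).trans h1

end val

lemma exists_poly [IsAlgClosed k] {Ω : Type u} [Field Ω] [Algebra k[X] Ω] {F : Type*} [Field F]
    [Algebra k[X] F] [IsFractionRing k[X] F] [Algebra F Ω] [IsScalarTower k[X] F Ω] {x : Ω}
    (hx : x ∈ (algebraMap F Ω).range)
    (h : ∀ (Γ : Type u) [LinearOrderedCommGroupWithZero Γ] (v : Valuation Ω Γ) (a : k),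
      Above v a → v x ≤ 1) : ∃ q : k[X], algebraMap k[X] Ω q = x := by
  obtain ⟨y, rfl⟩ := hx
  have hinj : Function.Injective (algebraMap k[X] Ω) := by
    rw [IsScalarTower.algebraMap_eq k[X] F Ω]
    exact (algebraMap F Ω).injective.comp (IsFractionRing.injective _ _)
  suffices IsUnit (IsFractionRing.den k[X] y : k[X]) by
    obtain ⟨q, rfl⟩ := IsFractionRing.isInteger_of_isUnit_den this
    exact ⟨q, IsScalarTower.algebraMap_apply _ _ _ _⟩
  by_contra hu
  have hd0 : (IsFractionRing.den k[X] y : k[X]) ≠ 0 := nonZeroDivisors.coe_ne_zero _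
  obtain ⟨a, ha⟩ := IsAlgClosed.exists_root (IsFractionRing.den k[X] y : k[X])
    (fun h0 => hu (isUnit_iff_degree_eq_zero.2 h0))
  obtain ⟨Γ, _, v, h1, h2⟩ := exists_val _ hinj a
  have hv : Above v a := ⟨h1, h2⟩
  have h3 : (IsFractionRing.num k[X] y).eval a ≠ 0 := fun h0 =>
    not_isUnit_X_sub_C a (IsFractionRing.num_den_reduced k[X] y (dvd_iff_isRoot.2 h0)
      (dvd_iff_isRoot.2 ha))
  have h4 : algebraMap k[X] Ω (IsFractionRing.num k[X] y) =
      algebraMap F Ω y * algebraMap k[X] Ω (IsFractionRing.den k[X] y : k[X]) := by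
    rw [IsScalarTower.algebraMap_apply k[X] F Ω, IsScalarTower.algebraMap_apply k[X] F Ω,
      ← map_mul]
    congr 1
    rw [← div_eq_iff ((map_ne_zero_iff _ (IsFractionRing.injective k[X] F)).2 hd0)]
    exact IsFractionRing.mk'_num_den' k[X] y
  have h5 := hv.eq_one h3
  rw [h4, map_mul] at h5
  exact absurd h5 ((mul_le_mul' (h Γ v a hv) le_rfl).trans_lt (by simpa using hv.lt_one ha)).ne

/-- The polynomial whose roots are the excluded places at level `j`. -/
noncomputable def excl (g : k[X][X]) (c : k[X]) (j : ℕ) : k[X] :=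
  (∏ i ∈ Finset.range (2 * j / 3 + 1), g.eval (orb c i)) *
    ∏ n ∈ Finset.range (j / 3 + 1), resultant g (Gs X c (n + 1) - X)

lemma excl_spec {g : k[X][X]} (hd : g.natDegree ≠ 0) {c : k[X]} {j : ℕ} {a : k}
    (h : (excl g c j).eval a ≠ 0) (hj : (g.eval (orb c j)).eval a = 0) {i : ℕ} (hi : i < j) :
    (orb c i).eval a ≠ (orb c j).eval a := by
  intro he
  rw [excl, eval_mul, eval_prod, eval_prod] at h
  have hmap : ∀ (q : k[X][X]) (x : k[X]), (q.eval x).eval a =
      (q.map (evalRingHom a)).eval (x.eval a) := by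
    intro q x
    rw [eval_map, ← coe_evalRingHom, eval₂_at_apply]
  by_cases h1 : i ≤ 2 * j / 3
  · refine Finset.prod_ne_zero_iff.1 (left_ne_zero_of_mul h) i (by simp; omega) ?_
    rw [hmap, he, ← hmap, hj]
  · obtain ⟨n, rfl⟩ : ∃ n, j = n + 1 + i := ⟨j - i - 1, by omega⟩
    refine Finset.prod_ne_zero_iff.1 (right_ne_zero_of_mul h) n (by simp; omega) ?_
    obtain ⟨U, V, hUV⟩ := dvd_resultant (M := Gs X c (n + 1) - X) hd
    rw [hUV (orb c (n + 1 + i)), eval_add, eval_mul, eval_mul, hj, eval_sub, eval_Gs, eval_X, eval_X,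
      eval_sub]
    have e1 := map_fq (evalRingHom a) c (n + 1) (orb c (n + 1 + i))
    have e2 := map_fq (evalRingHom a) c (n + 1) (orb c i)
    simp only [coe_evalRingHom] at e1 e2
    rw [e1, ← he, ← e2, he, orb_eq, orb_eq, ← Function.iterate_add_apply]
    simp

lemma natDegree_excl {g : k[X][X]} {c : k[X]} {e : ℕ} (h1 : g.natDegree ≤ 2 ^ e)
    (h2 : (ht1 k).d g ≤ 2 ^ e) (h3 : c.natDegree ≤ 2 ^ e) (hc : c.natDegree ≠ 0) (j : ℕ) :
    (excl g c j).natDegree ≤ 2 ^ (2 * e + 7) * 2 ^ (j - j / 400) := by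
  have a1 : ∀ i ∈ Finset.range (2 * j / 3 + 1),
      (DF.deg k).d (g.eval (orb c i)) ≤ 2 ^ (2 * e + 4 + 2 * j / 3) := by
    intro i hi
    have hi' : i ≤ 2 * j / 3 := by simp at hi; omega
    refine (natDegree_eval_le1 g _ h2 h1 (e := 2 ^ i * 2 ^ e)
      ((natDegree_orb hc i).le.trans (Nat.mul_le_mul_left _ h3))).trans ?_
    have e1 : 2 ^ e * (2 ^ i * 2 ^ e) = 2 ^ (2 * e + i) := by ring
    have e2 : 2 ^ e ≤ 2 ^ (2 * e + i) := Nat.pow_le_pow_right (by norm_num) (by omega)
    have e3 : 2 ^ (2 * e + i + 1) ≤ 2 ^ (2 * e + 4 + 2 * j / 3) :=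
      Nat.pow_le_pow_right (by norm_num) (by omega)
    rw [pow_succ] at e3
    omega
  have a2 : ∀ n ∈ Finset.range (j / 3 + 1),
      (DF.deg k).d (resultant g (Gs X c (n + 1) - X)) ≤ 2 ^ (2 * e + 4 + 2 * j / 3) := by
    intro n hn
    have hn' : n ≤ j / 3 := by simp at hn; omega
    have b1 : (Gs X c (n + 1) - X).natDegree ≤ 2 ^ (e + n + 1) := by
      refine (natDegree_sub_le _ _).trans (max_le ?_ (natDegree_X_le.trans Nat.one_le_two_pow))
      rw [natDegree_Gs, natDegree_X, one_mul]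
      exact Nat.pow_le_pow_right (by norm_num) (by omega)
    have b2 : (ht1 k).d (Gs X c (n + 1) - X) ≤ 2 ^ (e + n + 1) := by
      refine (ht1 k).sub_le ((ht1_Gs X c (n + 1)).trans ?_) (ht1_X.trans (Nat.zero_le _))
      have := ht1_X (k := k)
      have e1 : 2 ^ (n + 1) * c.natDegree ≤ 2 ^ (n + 1) * 2 ^ e := Nat.mul_le_mul_left _ h3
      have e2 : 2 ^ (n + 1) * 2 ^ e = 2 ^ (e + n + 1) := by ring
      rw [natDegree_X, one_mul]
      omega
    have e2 : 2 ^ e ≤ 2 ^ (e + n + 1) := Nat.pow_le_pow_right (by norm_num) (by omega)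
    refine (res_d_le (DF.deg k) g _ _ _ (b := 2 ^ (e + n + 1))
      (fun i => (ht1_le_iff _ _).1 (h2.trans e2) i) (fun i => (ht1_le_iff _ _).1 b2 i)).trans ?_
    calc _ ≤ (2 ^ (e + n + 1) + 2 ^ (e + n + 1)) * 2 ^ (e + n + 1) :=
          Nat.mul_le_mul_right _ (by omega)
      _ = 2 ^ (2 * e + 2 * n + 3) := by ring
      _ ≤ _ := Nat.pow_le_pow_right (by norm_num) (by omega)
  have a3 := (DF.deg k).mul_le' ((DF.deg k).prod_le _ _ a1) ((DF.deg k).prod_le _ _ a2)
  refine a3.trans ?_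
  rw [Finset.card_range, Finset.card_range, ← add_mul]
  have b1 : j / 4 < 2 ^ (j / 4) := Nat.lt_two_pow_self
  calc _ ≤ 2 ^ (3 + j / 4) * 2 ^ (2 * e + 4 + 2 * j / 3) :=
        Nat.mul_le_mul_right _ (by rw [pow_add]; omega)
    _ ≤ _ := by
      rw [← pow_add, ← pow_add]
      exact Nat.pow_le_pow_right (by norm_num) (by omega)

end Pool.Agent.Work.MP_969914_nt
end

-- merged part: Pool.Agent.Work.MP_969914_nt.Mass
section
/-! Almost all vertices of a level are good. -/

set_option autoImplicit false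

open Polynomial

namespace Pool.Agent.Work.MP_969914_nt

universe u

variable {k : Type*} [Field k] {Ω : Type u} [Field Ω] [Algebra k[X] Ω]

lemma good_of_place {Γ : Type*} [LinearOrderedCommGroupWithZero Γ]
    (hinj : Function.Injective (algebraMap k[X] Ω)) (h2 : (2 : k) ≠ 0) {g : k[X][X]}
    (hd : g.natDegree ≠ 0) {c : k[X]} {j : ℕ} {A : Finset Ω}
    (hprod : (Gs g c j).map (algebraMap k[X] Ω) =
      C (algebraMap k[X] Ω g.leadingCoeff) * ∏ z ∈ A, (X - C z))
    (hA : ∀ z ∈ A, aeval ((fq (algebraMap k[X] Ω c))^[j] z) g = 0)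
    (hA' : ∀ z, aeval ((fq (algebraMap k[X] Ω c))^[j] z) g = 0 → z ∈ A)
    {v : Valuation Ω Γ} {a : k} (h : Above v a) (hlc : g.leadingCoeff.eval a ≠ 0)
    (hres : (resultant g (derivative g)).eval a ≠ 0) (hex : (excl g c j).eval a ≠ 0)
    (hP : g.eval (orb c j) ≠ 0) (hμ : rootMultiplicity a (g.eval (orb c j)) ≤ 1) {W : Set Ω}
    (hW : W ⊆ UV v (v (algebraMap k[X] Ω (X - C a)))) {z : Ω} (hz : z ∈ A)
    (hv : v (algebraMap k[X] Ω c - z) < 1) : Good (algebraMap k[X] Ω c) W j z := by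
  classical
  set ι := algebraMap k[X] Ω with hι
  have hg0 : g ≠ 0 := by rintro rfl; simp at hd
  have hc : v (ι c) ≤ 1 := h.le c
  have hroot : ∀ y, aeval y g = 0 → v y ≤ 1 := by
    intro y hy
    have := h.root_le hinj hg0 hy
    rwa [h.eq_one hlc, one_mul] at this
  have hA1 : ∀ w ∈ A, v (ι c - w) ≤ 1 := fun w hw =>
    v.map_sub_le hc (val_le_one_of_iter hc (hroot _ (hA w hw)))
  have hev : ι (g.eval (orb c j)) = ι g.leadingCoeff * ∏ w ∈ A, (ι c - w) := by
    have := congrArg (eval (ι c)) hprod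
    rw [eval_map, eval₂_at_apply, eval_Gs, ← orb_eq] at this
    simpa [eval_prod] using this
  have hPa : (g.eval (orb c j)).eval a = 0 := by
    refine h.eval_eq_zero ?_
    rw [hev, map_mul, h.eq_one hlc, one_mul]
    exact val_prod_lt hA1 hz hv
  have hcong : ∀ (i : ℕ) (w : Ω), v w ≤ 1 → v (ι c - w) < 1 →
      v (ι (orb c i) - (fq (ι c))^[i] w) < 1 := by
    intro i w hw h1
    rw [map_orb, orb_eq]
    exact val_iter_sub hc hc hw h1 i
  have hz1 : v z ≤ 1 := val_le_one_of_iter hc (hroot _ (hA z hz))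
  have hlow : ∀ i < j, ∀ w, (fq (ι c))^[i] w = (fq (ι c))^[j] z → v (ι c - w) = 1 := by
    intro i hi w hw
    have hw1 : v w ≤ 1 := val_le_one_of_iter hc (j := i) (by rw [hw]; exact hroot _ (hA z hz))
    refine ((v.map_sub_le hc hw1).lt_or_eq).resolve_left fun hlt => ?_
    have e1 := hcong i w hw1 hlt
    have e2 := hcong j z hz1 hv
    rw [hw] at e1
    have e3 := v.map_sub_lt e1 e2
    rw [sub_sub_sub_cancel_right, ← map_sub] at e3
    have := h.eval_eq_zero e3
    rw [eval_sub, sub_eq_zero] at this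
    exact excl_spec hd hex hPa hi this
  have hsame : ∀ w ∈ A, w ≠ z → v (ι c - w) = 1 := by
    intro w hw hne
    refine ((hA1 w hw).lt_or_eq).resolve_left fun hlt => ?_
    have e1 : v (ι ((derivative (Gs g c j)).eval c)) < 1 := by
      have := congrArg (fun q => eval (ι c) (derivative q)) hprod
      simp only [derivative_map, eval_map, eval₂_at_apply, derivative_C_mul,
        derivative_prod_finset, derivative_X_sub_C, mul_one, eval_mul, eval_C, eval_finsetSum,
        eval_prod, eval_sub, eval_X] at this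
      rw [this, map_mul, h.eq_one hlc, one_mul]
      refine v.map_sum_lt one_ne_zero fun x _ => ?_
      have hle : ∀ y ∈ A.erase x, v (ι c - y) ≤ 1 := fun y hy => hA1 y (Finset.mem_of_mem_erase hy)
      by_cases hx : x = z
      · exact val_prod_lt hle (Finset.mem_erase.2 ⟨by rwa [hx], hw⟩) hlt
      · exact val_prod_lt hle (Finset.mem_erase.2 ⟨Ne.symm hx, hz⟩) hv
    have e2 := h.eval_eq_zero e1
    rw [eval_derivative_Gs, ← orb_eq, eval_mul, mul_eq_zero] at e2
    rcases e2 with e2 | e2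
    · obtain ⟨U, V, hUV⟩ := dvd_resultant (M := derivative g) hd
      apply hres
      rw [hUV (orb c j), eval_add, eval_mul, eval_mul, hPa, e2, zero_mul, zero_mul, add_zero]
    · rw [eval_prod, Finset.prod_eq_zero_iff] at e2
      obtain ⟨i, hi, e2⟩ := e2
      rw [← orb_eq, eval_mul, eval_ofNat, mul_eq_zero] at e2
      have e3 := e2.resolve_left h2
      obtain ⟨m, rfl⟩ : ∃ m, j = m + (i + 1) := ⟨j - i - 1, by simp at hi; omega⟩
      refine excl_spec hd hex hPa (i := m) (by omega) ?_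
      have e4 : (orb c (i + 1)).eval a = c.eval a := by simp [orb, e3]
      have e5 := map_fq (evalRingHom a) c m (orb c (i + 1))
      have e6 := map_fq (evalRingHom a) c m c
      simp only [coe_evalRingHom] at e5 e6
      rw [orb_eq c m, orb_eq c (m + _), Function.iterate_add_apply, ← orb_eq c (i + 1), e5, e6, e4]
  have hπ : v (ι (X - C a)) ≠ 0 := v.ne_zero_iff.2 ((map_ne_zero_iff _ hinj).2 (X_sub_C_ne_zero a))
  have hvz : v (ι c - z) = v (ι (X - C a)) := by
    have e1 := h.val_eq hP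
    have e2 : rootMultiplicity a (g.eval (orb c j)) = 1 :=
      le_antisymm hμ ((rootMultiplicity_pos hP).2 hPa)
    rw [e2, pow_one, hev, map_mul, h.eq_one hlc, one_mul, ← Finset.mul_prod_erase A _ hz, map_mul,
      map_prod, Finset.prod_eq_one (fun w hw => hsame w (Finset.mem_of_mem_erase hw)
        (Finset.ne_of_mem_erase hw)), mul_one] at e1
    exact e1
  have hsq : ∀ s, v s ^ 2 = v (ι c - fq (ι c) s) := by
    intro s
    rw [v.map_sub_swap, ← map_pow]; simp [fq]
  have hU : ∀ s, v (ι c - fq (ι c) s) = 1 → s ∈ UV v (v (ι (X - C a))) := by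
    intro s hs
    right
    rw [← hsq, pow_eq_one_iff_of_nonneg zero_le (by norm_num)] at hs
    rw [hs]; exact InH.one _
  refine ⟨_, TS_UV v hπ (h.two h2), hW, fun i hi s hs => hU s (hlow i hi _ hs),
    fun s hs hne => hU s (hsame _ (hA' _ ?_) hne), ?_⟩
  · rw [← Function.iterate_succ_apply, hs]; exact hA z hz
  · rintro s hs (rfl | hs')
    · have := hsq 0
      rw [hs, hvz] at this
      exact hπ (by simpa using this.symm)
    · exact not_InH hπ h.lt.ne (by rw [hsq, hs, hvz]) hs'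

theorem mass [IsAlgClosed k] [IsAlgClosed Ω] (p : ℕ) [hp : Fact p.Prime] [CharP k p] (hp2 : p ≠ 2)
    {F : Type*} [Field F] [Algebra k[X] F] [IsFractionRing k[X] F] [Algebra F Ω]
    [IsScalarTower k[X] F Ω] [Algebra.IsAlgebraic F Ω] (M : IntermediateField F Ω)
    [FiniteDimensional F M] {g : k[X][X]} (hg : Irreducible g) (hd : g.natDegree ≠ 0)
    (hsep : derivative g ≠ 0) {c : k[X]} (hc0 : c.natDegree ≠ 0)
    (hc : c = X ∨ (derivative c = 0 ∧ dT g ≠ 0)) {β : Ω} (hβ : aeval β g = 0)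
    (hpc : ∀ j, orb (algebraMap k[X] Ω c) j ≠ β)
    (hper : ∀ n, (fq (algebraMap k[X] Ω c))^[n + 1] β ≠ β) {W0 : Set Ω} (hW0 : W0 ⊆ M) :
    ∃ C : ℕ, ∀ j, (bad (algebraMap k[X] Ω c) W0 j β).card ≤ C * 2 ^ (j - j / 400) := by
  classical
  set ι := algebraMap k[X] Ω with hι
  have hφ : Function.Injective (algebraMap k[X] F) := IsFractionRing.injective _ _
  have hιF : ∀ q, ι q = algebraMap F Ω (algebraMap k[X] F q) :=
    fun q => IsScalarTower.algebraMap_apply _ _ _ _
  have hinj : Function.Injective ι := by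
    rw [hι, IsScalarTower.algebraMap_eq k[X] F Ω]; exact (algebraMap F Ω).injective.comp hφ
  have h2 : (2 : k) ≠ 0 := by
    intro h
    have := (CharP.cast_eq_zero_iff k p 2).1 (by exact_mod_cast h)
    exact hp2 ((Nat.prime_dvd_prime_iff_eq hp.out Nat.prime_two).1 this)
  have h2F : (2 : F) ≠ 0 := by
    rw [show (2 : F) = algebraMap k[X] F (C 2) by rw [C_ofNat, map_ofNat]]
    exact (map_ne_zero_iff _ hφ).2 (C_ne_zero.2 h2)
  have hg0 : g ≠ 0 := hg.ne_zero
  have hlc0 : g.leadingCoeff ≠ 0 := leadingCoeff_ne_zero.2 hg0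
  obtain ⟨hgi, hgs⟩ := separable_frac hg hd hsep (F := F)
  have hβF : aeval β (g.map (algebraMap k[X] F)) = 0 := by rwa [aeval_map_algebraMap]
  have hP : ∀ j, g.eval (orb c j) ≠ 0 := by
    intro j h0
    have h1 : (g.map (algebraMap k[X] F)).IsRoot (algebraMap k[X] F (orb c j)) := by
      rw [IsRoot.def, eval_map, eval₂_at_apply, h0, map_zero]
    obtain ⟨u, hu⟩ := ((irreducible_X_sub_C _).associated_of_dvd hgi (dvd_iff_isRoot.2 h1))
    rw [← hu, map_mul, mul_eq_zero] at hβF
    rcases hβF with h | h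
    · apply hpc j
      rw [← map_orb, hιF]
      simp only [map_sub, aeval_X, aeval_C, sub_eq_zero] at h
      exact h.symm
    · exact (u.isUnit.map (aeval β)).ne_zero h
  have hex0 : ∀ j, excl g c j ≠ 0 := by
    intro j
    refine mul_ne_zero (Finset.prod_ne_zero_iff.2 fun i _ => hP i)
      (Finset.prod_ne_zero_iff.2 fun n _ => res_ne_zero_of_irreducible hg hd ?_)
    rintro ⟨w, hw⟩
    apply hper n
    have := congrArg (aeval β) hw
    rw [map_mul, hβ, zero_mul, map_sub, aeval_X, sub_eq_zero, ← eval_map_algebraMap, map_Gs,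
      eval_Gs] at this
    simpa using this
  have hres0 : resultant g (derivative g) ≠ 0 :=
    res_ne_zero_of_map _ hφ _ _ (by rw [← derivative_map]; exact hgs)
  obtain ⟨ρ, hρ0, hρ⟩ := exists_unram (k := k) p hp2 M
  obtain ⟨C1, hC1⟩ := mult_bound p hp2 hg hd hsep hc hP
  obtain ⟨e, he1, he2, he3⟩ : ∃ e, g.natDegree ≤ 2 ^ e ∧ (ht1 k).d g ≤ 2 ^ e ∧
      c.natDegree ≤ 2 ^ e := by
    refine ⟨g.natDegree + (ht1 k).d g + c.natDegree, ?_⟩
    have := @Nat.lt_two_pow_self (g.natDegree + (ht1 k).d g + c.natDegree)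
    omega
  set Z0 := g.leadingCoeff * resultant g (derivative g) * ρ with hZ0
  set L := g.leadingCoeff ^ (2 * g.natDegree) with hL
  refine ⟨2 * C1 + Z0.natDegree + 2 ^ (2 * e + 7) + L.natDegree + 2 ^ e, fun j => ?_⟩
  have hpos : 1 ≤ 2 ^ (j - j / 400) := Nat.one_le_two_pow
  by_cases hj : 2 ^ j ≤ 2 ^ e
  · have h1 : (bad (ι c) W0 j β).card ≤ 2 ^ j := (Finset.card_filter_le _ _).trans (card_pre_le _ _ _)
    nlinarith [Nat.zero_le C1, Nat.zero_le Z0.natDegree, Nat.zero_le L.natDegree,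
      Nat.zero_le (2 ^ (2 * e + 7))]
  -- the set of all conjugate vertices
  have hsepF := separable_Gs h2F hgs (algebraMap k[X] F c) (by
    intro j
    rw [← map_orb, eval_map, eval₂_at_apply]
    exact (map_ne_zero_iff _ hφ).2 (hP j)) j
  rw [← map_Gs] at hsepF
  set G := (Gs g c j).map ι with hG
  have hGF : G = ((Gs g c j).map (algebraMap k[X] F)).map (algebraMap F Ω) := by
    rw [Polynomial.map_map, ← IsScalarTower.algebraMap_eq]
  have hGs : G.Separable := by rw [hGF]; exact hsepF.map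
  have hG0 : G ≠ 0 := hGs.ne_zero
  set A := G.roots.toFinset with hA
  have hmem : ∀ z, z ∈ A ↔ aeval ((fq (ι c))^[j] z) g = 0 := by
    intro z
    rw [hA, Multiset.mem_toFinset, mem_roots hG0, IsRoot.def, hG, map_Gs, eval_Gs,
      eval_map_algebraMap]
  have hprod : G = C (ι g.leadingCoeff) * ∏ z ∈ A, (X - C z) := by
    rw [Finset.prod_eq_multiset_prod, hA, Multiset.toFinset_val,
      Multiset.dedup_eq_self.2 (nodup_roots hGs)]
    conv_lhs => rw [(IsAlgClosed.splits G).eq_prod_roots]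
    rw [hG, leadingCoeff_map_of_injective hinj, leadingCoeff_Gs]
  have hcardA : A.card ≤ g.natDegree * 2 ^ j := by
    refine (Multiset.toFinset_card_le _).trans ((card_roots' _).trans ?_)
    rw [hG, natDegree_map_eq_of_injective hinj, natDegree_Gs]
  set W : Set Ω := {x | ∃ σ : Ω ≃ₐ[F] Ω, ∃ y ∈ M, x = σ y} with hW
  have hσι : ∀ (σ : Ω ≃ₐ[F] Ω) q, σ (ι q) = ι q := fun σ q => by rw [hιF, σ.commutes]
  have hσA : ∀ (σ : Ω ≃ₐ[F] Ω), ∀ z ∈ A, σ z ∈ A := by
    intro σ z hz
    rw [hmem] at hz ⊢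
    have e1 := map_fq (σ : Ω →+* Ω) (ι c) j z
    simp only [RingHom.coe_coe, hσι] at e1
    rw [← e1, ← aeval_map_algebraMap F, aeval_algHom_apply, aeval_map_algebraMap, hz, map_zero]
  have hσG : ∀ (σ : Ω ≃ₐ[F] Ω) z, Good (ι c) W j (σ z) → Good (ι c) W j z := by
    intro σ z hz
    refine Good.comap (σ : Ω →+* Ω) (hσι σ c) ?_ hz
    rintro _ ⟨τ, y, hy, rfl⟩
    exact ⟨τ.trans σ, y, hy, rfl⟩
  have hpoly : ∀ T ⊆ A, (∀ (σ : Ω ≃ₐ[F] Ω), ∀ z ∈ T, σ z ∈ T) →
      ∃ q : k[X], ι q = (∏ z ∈ T, (ι c - z)) * ι g.leadingCoeff ^ g.natDegree := by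
    intro T hT hσT
    refine exists_poly (F := F) (mul_mem (mem_range_of_fixed ?_ ?_)
      (pow_mem (RingHom.mem_range.2 ⟨_, (hιF _).symm⟩) _)) ?_
    · rw [← mem_separableClosure_iff]
      refine prod_mem fun z hz => sub_mem (by rw [hιF]; exact IntermediateField.algebraMap_mem _ _) ?_
      rw [mem_separableClosure_iff]
      refine hsepF.of_dvd (minpoly.dvd F z ?_)
      have := (mem_roots hG0).1 (Multiset.mem_toFinset.1 (hT hz))
      rwa [hGF, IsRoot.def, eval_map_algebraMap] at this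
    · intro σ
      rw [map_prod]
      refine Finset.prod_nbij' σ σ.symm (fun z hz => hσT σ z hz) (fun z hz => hσT σ.symm z hz)
        (by simp) (by simp) (fun z _ => by rw [map_sub, hσι])
    · intro Γ _ v a hv
      rw [map_mul, map_pow]
      refine val_prod_mul_le (hv.le _) (n := 2 ^ j) (by positivity)
        ((Finset.card_le_card hT).trans hcardA) fun z hz => ?_
      exact val_sub_pow_le (hv.le c) (hv.le _) (hv.root_le hinj hg0 ((hmem z).1 (hT hz)))
  set B := A.filter fun z => ¬ Good (ι c) W j z with hB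
  obtain ⟨N1, hN1⟩ := hpoly B (Finset.filter_subset _ _) (by
    intro σ z hz
    simp only [hB, Finset.mem_filter] at hz ⊢
    exact ⟨hσA σ z hz.1, fun h => hz.2 (hσG σ z h)⟩)
  obtain ⟨N2, hN2⟩ := hpoly (A.filter fun z => Good (ι c) W j z) (Finset.filter_subset _ _) (by
    intro σ z hz
    simp only [Finset.mem_filter] at hz ⊢
    exact ⟨hσA σ z hz.1, hσG σ.symm _ (by simpa using hz.2)⟩)
  have hev : ι (g.eval (orb c j)) = ι g.leadingCoeff * ∏ w ∈ A, (ι c - w) := by
    have := congrArg (eval (ι c)) hprod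
    rw [hG, eval_map, eval₂_at_apply, eval_Gs, ← orb_eq] at this
    simpa [eval_prod] using this
  have hdvd : N1 ∣ g.eval (orb c j) * L := by
    refine ⟨N2 * g.leadingCoeff, hinj ?_⟩
    rw [map_mul, map_mul, map_mul, hev, hN1, hN2, hL, map_pow,
      ← Finset.prod_filter_mul_prod_filter_not A (fun z => Good (ι c) W j z)]
    ring
  have hN10 : N1 ≠ 0 := ne_zero_of_dvd_ne_zero (mul_ne_zero (hP j) (pow_ne_zero _ hlc0)) hdvd
  have hdeg := deg_count (hP j) (pow_ne_zero _ hlc0) (Z := Z0 * excl g c j)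
    (mul_ne_zero (mul_ne_zero (mul_ne_zero hlc0 hres0) hρ0) (hex0 j)) hdvd (by
      intro a ha
      by_contra hno
      push Not at hno
      obtain ⟨hno1, hno2⟩ := hno
      simp only [hZ0, eval_mul, ne_eq, mul_eq_zero, not_or] at hno1
      obtain ⟨Γ, _, v, v1, v2⟩ := exists_val _ hinj a
      have hv : Above v a := ⟨v1, v2⟩
      have e1 := hv.lt_one ha
      rw [hN1, map_mul, map_pow, hv.eq_one hno1.1.1.1, one_pow, mul_one, map_prod] at e1
      obtain ⟨z, hz, hz1⟩ : ∃ z ∈ B, v (ι c - z) < 1 := by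
        by_contra hall
        push Not at hall
        exact absurd e1 (not_lt.2 (Finset.one_le_prod' hall))
      simp only [hB, Finset.mem_filter] at hz
      refine hz.2 (good_of_place hinj h2 hd hprod (fun z => (hmem z).1) (fun z => (hmem z).2) hv
        hno1.1.1.1 hno1.1.1.2 hno1.2 (hP j) (by omega) ?_ hz.1 hz1)
      rintro _ ⟨σ, y, hy, rfl⟩
      have hv' : Above (v.comap (σ : Ω →+* Ω)) a :=
        ⟨fun q => by rw [Valuation.comap_apply, RingHom.coe_coe, hσι]; exact hv.le q, by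
          rw [Valuation.comap_apply, RingHom.coe_coe, hσι]; exact hv.lt⟩
      rcases hρ Γ _ a hv' hno1.1.2 hy with h | h
      · left; simp [h]
      · right
        rwa [Valuation.comap_apply, Valuation.comap_apply, RingHom.coe_coe, hσι] at h)
    (hC1 j)
  have hinf : B.card ≤ N1.natDegree := by
    obtain ⟨Γ, _, v, v1, v2⟩ := exists_inf hinj
    have hv : ∀ {q : k[X]}, q ≠ 0 → v (ι q) = v (ι X) ^ q.natDegree := val_inf v1 v2
    have hc' : v (ι X) ≤ v (ι c) := by
      rw [hv (q := c) (by rintro rfl; simp at hc0)]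
      exact le_self_pow₀ v2.le hc0
    have hl1 : 1 ≤ v (ι g.leadingCoeff) := by rw [hv hlc0]; exact one_le_pow₀ v2.le
    have hz : ∀ z ∈ B, v (ι X) ≤ v (ι c - z) := by
      intro z hz
      have hz' := (hmem z).1 (Finset.mem_filter.1 hz).1
      have e1 := root_bound v (h := g.map ι) ((Polynomial.map_ne_zero_iff hinj).2 hg0)
        (by rw [hι, eval_map_algebraMap]; exact hz') (γ := v (ι X) ^ 2 ^ e) (fun i => by
          rw [coeff_map]
          by_cases h0 : g.coeff i = 0
          · simp [h0]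
          · rw [hv h0]
            exact pow_le_pow_right₀ v2.le ((ht1_le_iff g _).1 he2 i))
      rw [leadingCoeff_map_of_injective hinj] at e1
      have e2 : v ((fq (ι c))^[j] z) ≤ v (ι X) ^ 2 ^ e :=
        (le_mul_of_one_le_left zero_le hl1).trans e1
      have e3 : v z < v (ι c) := by
        by_contra hle
        push Not at hle
        rw [val_iter_of_le (v2.trans_le (hc'.trans hle)) hle] at e2
        have e4 := (pow_le_pow_left₀ zero_le (hc'.trans hle) (2 ^ j)).trans e2
        exact hj ((pow_le_pow_iff_right₀ v2).1 e4)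
      rwa [v.map_sub_eq_of_lt_left e3]
    rw [← pow_le_pow_iff_right₀ v2, ← hv hN10, hN1, map_mul, map_prod, map_pow, ← Finset.prod_const]
    exact (Finset.prod_le_prod' hz).trans (le_mul_of_one_le_right zero_le (one_le_pow₀ hl1))
  have hsub : bad (ι c) W0 j β ⊆ B := by
    intro z hz
    simp only [bad, Finset.mem_filter, mem_pre] at hz
    simp only [hB, Finset.mem_filter, hmem, hz.1, hβ, true_and]
    exact fun h => hz.2 (Good.comap (W' := W) (RingHom.id Ω) rfl
      (fun x hx => ⟨AlgEquiv.refl, x, hW0 hx, rfl⟩) h)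
  have h3 := natDegree_mul_le (p := Z0) (q := excl g c j)
  have h4 := natDegree_excl he1 he2 he3 hc0 j
  have h5 := Finset.card_le_card hsub
  nlinarith [Nat.zero_le C1, Nat.zero_le Z0.natDegree, Nat.zero_le L.natDegree,
    Nat.zero_le (2 ^ e)]

end Pool.Agent.Work.MP_969914_nt
end

-- merged part: Pool.Agent.Work.MP_969914_nt.Reduce
section
/-! Reduction of a global function field to the rational function field of the parameter. -/

set_option autoImplicit false

open Polynomial IntermediateField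

namespace Pool.Agent.Work.MP_969914_nt

universe u

lemma exists_param {k : Type*} [Field k] [PerfectField k] {Ω : Type u} [Field Ω] [Algebra k Ω]
    [IsAlgClosed Ω] (p : ℕ) [hp : Fact p.Prime] [CharP k p] {c β : Ω} (n : ℕ) :
    ∀ (t : Ω) (Q : ℕ) (g : k[X][X]), Irreducible g → g.natDegree = n → n ≠ 0 →
      eval₂ (aeval t : k[X] →ₐ[k] Ω).toRingHom β g = 0 → t ^ Q = c → Q ≠ 0 →
      (Q = 1 ∨ (p ∣ Q ∧ dT g ≠ 0)) →
    ∃ (t : Ω) (Q : ℕ) (g : k[X][X]), Irreducible g ∧ g.natDegree ≠ 0 ∧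
      eval₂ (aeval t : k[X] →ₐ[k] Ω).toRingHom β g = 0 ∧ t ^ Q = c ∧ Q ≠ 0 ∧
      (Q = 1 ∨ (p ∣ Q ∧ dT g ≠ 0)) ∧ derivative g ≠ 0 := by
  induction n using Nat.strong_induction_on with | _ n ih
  intro t Q g hg hn hn0 hβ ht hQ hQ'
  by_cases hd : derivative g = 0
  swap
  · exact ⟨t, Q, g, hg, by omega, hβ, ht, hQ, hQ', hd⟩
  have hp0 : p ≠ 0 := hp.out.ne_zero
  have : CharP Ω p := charP_of_injective_algebraMap (algebraMap k Ω).injective p
  have : ExpChar k p := ExpChar.prime hp.out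
  have : ExpChar Ω p := ExpChar.prime hp.out
  have : ExpChar k[X] p := ExpChar.prime hp.out
  have he := expand_contract p hd hp0
  set g1 := contract p g with hg1
  have hi1 : Irreducible g1 := of_irreducible_expand hp0 (by rwa [he])
  obtain ⟨s, hs⟩ := IsAlgClosed.exists_pow_nat_eq t hp.out.pos
  set ψ : k[X] ≃+* k[X] := mapEquiv (frobeniusEquiv k p).symm with hψ
  have hn1 : g1.natDegree * p = n := by rw [← natDegree_expand, he, hn]
  have hn2 : (g1.map (ψ : k[X] →+* k[X])).natDegree = g1.natDegree :=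
    natDegree_map_eq_of_injective ψ.injective _
  have hn3 : g1.natDegree ≠ 0 := by rintro h; simp [h] at hn1; omega
  refine ih g1.natDegree ?_ s (p * Q) (g1.map (ψ : k[X] →+* k[X])) ?_ hn2 hn3 ?_ ?_
    (mul_ne_zero hp0 hQ) (Or.inr ⟨dvd_mul_right _ _, fun h0 => ?_⟩)
  · have := hp.out.two_le
    have : 0 < g1.natDegree := Nat.pos_of_ne_zero hn3
    nlinarith
  · exact (MulEquiv.irreducible_iff (mapEquiv ψ).toMulEquiv).2 hi1
  · apply frobenius_inj Ω p
    rw [map_zero, eval₂_map, hom_eval₂]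
    have e1 : (frobenius Ω p).comp ((aeval s : k[X] →ₐ[k] Ω).toRingHom.comp (ψ : k[X] →+* k[X])) =
        (aeval t : k[X] →ₐ[k] Ω).toRingHom := by
      ext r
      · have := frobenius_apply_frobeniusEquiv_symm k p r
        rw [frobenius_def] at this
        simp only [hψ, RingHom.coe_comp, Function.comp_apply, RingHom.coe_coe, mapEquiv_apply,
          map_C, AlgHom.toRingHom_eq_coe, aeval_C, frobenius_def]
        rw [← map_pow, this]
      · simp [hψ, frobenius_def, hs]
    rw [e1, ← hβ, ← he, frobenius_def, expand_eq_comp_X_pow, eval₂_comp]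
    simp
  · rw [pow_mul, hs, ht]
  · obtain ⟨h, hh⟩ : ∃ h : k[X][X], h.map (frobenius k[X] p) = g1 := by
      rw [← mem_lifts, lifts_iff_coeff_lifts]
      intro i
      have e1 := congrArg (fun q => q.coeff i) h0
      simp only [coeff_dT, coeff_map, coeff_zero] at e1
      have e2 : derivative (g1.coeff i) = 0 := by
        apply ψ.injective
        rw [map_zero, ← e1]
        simp [hψ, derivative_map]
      refine ⟨ψ (contract p (g1.coeff i)), ?_⟩
      rw [frobenius_def, ← map_frobenius_expand, map_expand]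
      conv_rhs => rw [← expand_contract p e2 hp0]
      congr 1
      simp only [hψ, mapEquiv_apply, Polynomial.map_map]
      rw [show (frobenius k p).comp ((frobeniusEquiv k p).symm : k →+* k) = RingHom.id k from
        RingHom.ext (frobenius_apply_frobeniusEquiv_symm k p), Polynomial.map_id]
    rw [← he, ← hh, ← map_expand, map_frobenius_expand] at hg
    exact not_irreducible_pow hp.out.ne_one hg

lemma isAlgebraic_of_range {E F Ω : Type*} [Field E] [CommRing F] [Field Ω] [Algebra E Ω]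
    [Algebra F Ω] (h : ∀ e, algebraMap E Ω e ∈ Set.range (algebraMap F Ω)) {x : Ω}
    (hx : IsAlgebraic E x) : IsAlgebraic F x := by
  obtain ⟨P, hP0, hP⟩ := hx
  obtain ⟨Q, hQ⟩ : ∃ Q : F[X], Q.map (algebraMap F Ω) = P.map (algebraMap E Ω) := by
    rw [← mem_lifts, lifts_iff_coeff_lifts]
    intro i; rw [coeff_map]; exact h _
  refine ⟨Q, ?_, by rw [← eval_map_algebraMap, hQ, eval_map_algebraMap, hP]⟩
  rintro rfl
  exact Polynomial.map_ne_zero hP0 (by rw [← hQ, Polynomial.map_zero])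

theorem bad_bound {K : Type} [Field K] (Fq : Type) [Field Fq] [Finite Fq] [Algebra (RatFunc Fq) K]
    [FunctionField Fq K] (h2 : ringChar K ≠ 2) (c b : K) (hpcf : Function.Injective (orb c))
    (hpc : ∀ j, orb (algebraMap K (AlgebraicClosure K) c) j ≠ algebraMap K (AlgebraicClosure K) b)
    (hper : ∀ n, (fq c)^[n + 1] b ≠ b) :
    ∃ C : ℕ, ∀ j, (bad (algebraMap K (AlgebraicClosure K) c)
      (Set.range (algebraMap K (AlgebraicClosure K))) j
      (algebraMap K (AlgebraicClosure K) b)).card ≤ C * 2 ^ (j - j / 400) := by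
  classical
  set Ω := AlgebraicClosure K
  let _ : Algebra Fq K := ((algebraMap (RatFunc Fq) K).comp (algebraMap Fq (RatFunc Fq))).toAlgebra
  have : IsScalarTower Fq (RatFunc Fq) K := IsScalarTower.of_algebraMap_eq' rfl
  obtain ⟨p, hchar⟩ := CharP.exists Fq
  have hp : Fact p.Prime := ⟨CharP.char_is_prime Fq p⟩
  have : CharP K p := charP_of_injective_algebraMap (algebraMap Fq K).injective p
  have hp2 : p ≠ 2 := by rwa [ringChar.eq K p] at h2
  have hct : Transcendental Fq c := by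
    intro ha
    have : FiniteDimensional Fq Fq⟮c⟯ := adjoin.finiteDimensional ha.isIntegral
    have : Finite Fq⟮c⟯ := Module.finite_of_finite Fq
    have hmem : ∀ r, orb c r ∈ Fq⟮c⟯ := by
      intro r
      induction r with
      | zero => exact mem_adjoin_simple_self _ _
      | succ r ih => exact add_mem (pow_mem ih 2) (mem_adjoin_simple_self _ _)
    exact not_injective_infinite_finite (fun r => (⟨orb c r, hmem r⟩ : Fq⟮c⟯))
      fun a b h => hpcf (congrArg Subtype.val h)
  have hfd := FunctionField.finiteDimensional_of_adjoin_transcendental hct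
  have halgE : Algebra.IsAlgebraic Fq⟮c⟯ Ω := Algebra.IsAlgebraic.trans Fq⟮c⟯ K Ω
  set k := algebraicClosure Fq Ω
  have : IsAlgClosed k := IsAlgClosure.isAlgClosed Fq
  have : CharP k p := charP_of_injective_algebraMap (algebraMap Fq k).injective p
  set c' := algebraMap K Ω c with hc'
  have hct' : Transcendental k c' :=
    ((transcendental_algebraMap_iff (algebraMap K Ω).injective).2 hct).algebraicClosure
  have key : ∀ (t : Ω) (Q : ℕ), t ^ Q = c' → ∀ [Algebra k[X] Ω],
      (∀ q, algebraMap k[X] Ω q = aeval t q) → ∀ [FaithfulSMul k[X] Ω],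
      letI := FractionRing.liftAlgebra k[X] Ω
      ∀ e : Fq⟮c⟯, algebraMap Fq⟮c⟯ Ω e ∈ Set.range (algebraMap (FractionRing k[X]) Ω) := by
    intro t Q ht _ hq _
    let _ := FractionRing.liftAlgebra k[X] Ω
    rintro ⟨e, he⟩
    have hr : ∀ q : k[X], aeval t q ∈ (algebraMap (FractionRing k[X]) Ω).fieldRange := fun q =>
      ⟨algebraMap k[X] _ q, by rw [← IsScalarTower.algebraMap_apply, hq]⟩
    change algebraMap K Ω e ∈ (algebraMap (FractionRing k[X]) Ω).fieldRange
    induction he using adjoin_induction with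
    | mem x hx =>
      rw [Set.mem_singleton_iff.1 hx, ← hc', ← ht]
      simpa using hr (X ^ Q)
    | algebraMap r =>
      have := hr (C (algebraMap Fq k r))
      rw [aeval_C] at this
      exact this
    | add x y _ _ hx hy => rw [map_add]; exact add_mem hx hy
    | inv x _ hx => rw [map_inv₀]; exact inv_mem hx
    | mul x y _ _ hx hy => rw [map_mul]; exact mul_mem hx hy
  obtain ⟨t, Q, g, hg, hd, hβ, ht, hQ, hQ', hsep⟩ : ∃ (t : Ω) (Q : ℕ) (g : k[X][X]),
      Irreducible g ∧ g.natDegree ≠ 0 ∧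
      eval₂ (aeval t : k[X] →ₐ[k] Ω).toRingHom (algebraMap K Ω b) g = 0 ∧ t ^ Q = c' ∧ Q ≠ 0 ∧
      (Q = 1 ∨ (p ∣ Q ∧ dT g ≠ 0)) ∧ derivative g ≠ 0 := by
    let _ : Algebra k[X] Ω := (aeval c' : k[X] →ₐ[k] Ω).toRingHom.toAlgebra
    have hinj : Function.Injective (algebraMap k[X] Ω) := transcendental_iff_injective.1 hct'
    have : FaithfulSMul k[X] Ω := (faithfulSMul_iff_algebraMap_injective _ _).2 hinj
    let _ := FractionRing.liftAlgebra k[X] Ω
    have h1 := isAlgebraic_of_range (key c' 1 (pow_one _) (fun _ => rfl))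
      (halgE.isAlgebraic (algebraMap K Ω b))
    obtain ⟨P, hP0, hP⟩ := (IsFractionRing.isAlgebraic_iff k[X] (FractionRing k[X]) Ω).2 h1
    obtain ⟨g, hg, -, hg0⟩ := exists_irr_factor
      (aeval (algebraMap K Ω b) : k[X][X] →ₐ[k[X]] Ω).toRingHom hP0 hP
    refine exists_param p g.natDegree c' 1 g hg rfl (fun h0 => ?_) hg0 (pow_one _) one_ne_zero
      (Or.inl rfl)
    obtain ⟨a, rfl⟩ := natDegree_eq_zero.1 h0
    have : algebraMap k[X] Ω a = 0 := by simpa using hg0
    rw [(map_eq_zero_iff _ hinj).1 this] at hg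
    exact hg.ne_zero (map_zero _)
  let _ : Algebra k[X] Ω := (aeval t : k[X] →ₐ[k] Ω).toRingHom.toAlgebra
  have htt : Transcendental k t := fun h => hct' (ht ▸ h.pow Q)
  have hinj : Function.Injective (algebraMap k[X] Ω) := transcendental_iff_injective.1 htt
  have : FaithfulSMul k[X] Ω := (faithfulSMul_iff_algebraMap_injective _ _).2 hinj
  let _ := FractionRing.liftAlgebra k[X] Ω
  have hE := key t Q ht (fun _ => rfl)
  have : Algebra.IsAlgebraic (FractionRing k[X]) Ω :=
    ⟨fun x => isAlgebraic_of_range hE (halgE.isAlgebraic x)⟩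
  obtain ⟨s, hs⟩ := Module.Finite.fg_top (R := Fq⟮c⟯) (M := K)
  have hcQ : algebraMap k[X] Ω (X ^ Q) = c' := by
    change aeval t (X ^ Q : k[X]) = c'
    simp [ht]
  rw [← hcQ]
  refine mass p hp2 (F := FractionRing k[X])
    (adjoin (FractionRing k[X]) (s.image (algebraMap K Ω) : Set Ω)) hg hd hsep
    (by rwa [natDegree_X_pow]) ?_ hβ (by rwa [hcQ]) ?_ ?_
  · rcases hQ' with rfl | ⟨⟨m, rfl⟩, h⟩
    · left; simp
    · right
      refine ⟨?_, h⟩
      rw [derivative_X_pow]
      simp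
  · intro n h
    rw [hcQ, hc', ← map_fq] at h
    exact hper n ((algebraMap K Ω).injective h)
  · rintro _ ⟨x, rfl⟩
    have hx : x ∈ Submodule.span Fq⟮c⟯ (s : Set K) := hs ▸ Submodule.mem_top
    induction hx using Submodule.span_induction with
    | mem y hy => exact subset_adjoin _ _ (by simpa using ⟨y, hy, rfl⟩)
    | zero => simp
    | add x y _ _ hx hy => rw [map_add]; exact add_mem hx hy
    | smul a x _ hx =>
      rw [Algebra.smul_def, map_mul]
      obtain ⟨y, hy⟩ := hE a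
      exact mul_mem (by
        have := IntermediateField.algebraMap_mem
          (adjoin (FractionRing k[X]) (s.image (algebraMap K Ω) : Set Ω)) y
        rw [hy] at this
        exact this) hx

end Pool.Agent.Work.MP_969914_nt
end

-- merged part: Pool.Agent.Work.MP_969914_nt.Main
section
/-! The two main theorems for a general quadratic polynomial with base point `0`. -/

set_option autoImplicit false

open Polynomial IntermediateField Module

namespace Pool.Agent.Work.MP_969914_nt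

section
variable {Ω : Type*} [Field Ω] {K : Type*} [Field K] [Algebra K Ω] [Algebra.IsAlgebraic K Ω]

lemma Lv_sub {c b : K} {j : ℕ} {z : Ω} (hz : (fq (algebraMap K Ω c))^[j] z = algebraMap K Ω b)
    {U : Set Ω} (u1 : TS U) (u2 : Set.range (algebraMap K Ω) ⊆ U)
    (u3 : ∀ i < j, ∀ s, (fq (algebraMap K Ω c))^[i + 1] s = (fq (algebraMap K Ω c))^[j] z → s ∈ U) :
    ∀ i ≤ j, (Lv K (algebraMap K Ω c) i (algebraMap K Ω b) : Set Ω) ⊆ U := by
  intro i
  induction i with
  | zero =>
    intro _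
    have : Lv K (algebraMap K Ω c) 0 (algebraMap K Ω b) ≤ ⊥ := by
      rw [Lv, adjoin_le_iff]
      intro x hx
      have : x = algebraMap K Ω b := by simpa [mem_pre] using hx
      rw [this]
      exact IntermediateField.algebraMap_mem _ _
    intro x hx
    obtain ⟨y, rfl⟩ := IntermediateField.mem_bot.1 (this hx)
    exact u2 ⟨y, rfl⟩
  | succ i ih =>
    intro hi
    have := adj_fin u1 _ (ih (by omega)) (pre (algebraMap K Ω c) (i + 1) (algebraMap K Ω b))
      (fun x hx => ⟨u3 i (by omega) x (by rw [mem_pre.1 hx, hz]), sq_mem_Lv c (mem_pre.1 hx)⟩)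
    exact fun x hx => this (le_sup_right (a := Lv K (algebraMap K Ω c) i (algebraMap K Ω b)) hx)

lemma level_step' [IsAlgClosed Ω] (c b : K) {j : ℕ} (L L' : IntermediateField K Ω)
    [FiniteDimensional K L'] (hL : L ≤ Lv K (algebraMap K Ω c) j (algebraMap K Ω b)) (hLL : L ≤ L')
    (Z : Finset Ω) (hZ : ∀ z ∈ Z, z ∈ L ∧ (fq (algebraMap K Ω c))^[j] z = algebraMap K Ω b ∧
      Good (algebraMap K Ω c) (Set.range (algebraMap K Ω)) j z ∧
      ∀ s, fq (algebraMap K Ω c) s = z → s ∈ L') :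
    2 ^ Z.card * finrank K L ≤ finrank K L' := by
  have : FiniteDimensional K L :=
    FiniteDimensional.of_injective (inclusion hLL).toLinearMap (inclusion_injective hLL)
  choose s hs using exists_child (algebraMap K Ω c)
  have hG : ∀ z ∈ Z, Good (algebraMap K Ω c) (Set.range (algebraMap K Ω)) j z :=
    fun z hz => (hZ z hz).2.2.1
  choose! U u1 u2 u3 u4 u5 using hG
  refine (level_gen _ s U Z fun z hz => ⟨u1 z hz, ?_, u5 z hz _ (hs z), ?_,
    fun z' hz' hne => u4 z hz _ ?_ (by rwa [hs])⟩).trans (finrank_le_of_le_right ?_)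
  · exact fun x hx => Lv_sub (hZ z hz).2.1 (u1 z hz) (u2 z hz) (u3 z hz) j le_rfl (hL hx)
  · have : s z ^ 2 = z - algebraMap K Ω c := by rw [eq_sub_iff_add_eq]; exact hs z
    rw [this]
    exact sub_mem (hZ z hz).1 (IntermediateField.algebraMap_mem _ _)
  · rw [Function.iterate_succ_apply, hs, (hZ z hz).2.1, (hZ z' hz').2.1]
  · refine sup_le hLL ?_
    rw [adjoin_le_iff]
    rintro _ ⟨z, hz, rfl⟩
    exact (hZ z hz).2.2.2 _ (hs z)

lemma good_above [IsAlgClosed Ω] (h2 : (2 : K) ≠ 0) (c b : K)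
    (hpc : ∀ j, orb (algebraMap K Ω c) j ≠ algebraMap K Ω b) {k D : ℕ} {z : Ω}
    (hz : (fq (algebraMap K Ω c))^[k] z = algebraMap K Ω b)
    (hB : ∀ n, (bad (algebraMap K Ω c) (Set.range (algebraMap K Ω)) (k + n)
      (algebraMap K Ω b)).card ≤ D * 2 ^ n) (hD : D < finrank K (adjoin K {z})) (n : ℕ) (y : Ω)
    (hy : (fq (algebraMap K Ω c))^[n] y = z) :
    Good (algebraMap K Ω c) (Set.range (algebraMap K Ω)) (k + n) y := by
  classical
  have hgood : ∀ n y, (fq (algebraMap K Ω c))^[n] y = z → D * 2 ^ n < finrank K (adjoin K {y}) →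
      Good (algebraMap K Ω c) (Set.range (algebraMap K Ω)) (k + n) y := by
    intro n y hy hd
    by_contra hg
    have := finrank_le_bad h2 c b hpc (j := k + n) (z := y) (by
      simp only [bad, Finset.mem_filter, mem_pre]
      exact ⟨by rw [Function.iterate_add_apply, hy, hz], hg⟩)
    have := this.trans (hB n)
    omega
  refine hgood n y hy ?_
  induction n generalizing y with
  | zero => rw [show y = z from hy]; simpa using hD
  | succ n ih =>
    have h1 := ih (fq (algebraMap K Ω c) y) hy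
    have hfd : FiniteDimensional K (adjoin K {y}) := by
      have := fd_adjoin (K := K) ({y} : Finset Ω); rwa [Finset.coe_singleton] at this
    have hlev : (fq (algebraMap K Ω c))^[k + n] (fq (algebraMap K Ω c) y) = algebraMap K Ω b := by
      rw [Function.iterate_add_apply]; rw [Function.iterate_succ_apply] at hy; rw [hy, hz]
    have h3 := level_step' c b (j := k + n) (adjoin K {fq (algebraMap K Ω c) y}) (adjoin K {y})
      (adjoin.mono _ _ _ (by simpa [mem_pre] using hlev))
      (by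
        rw [adjoin_simple_le_iff]
        exact add_mem (pow_mem (mem_adjoin_simple_self _ _) 2) (IntermediateField.algebraMap_mem _ _))
      {fq (algebraMap K Ω c) y} (by
        intro x hx
        rw [Finset.mem_singleton.1 hx]
        refine ⟨mem_adjoin_simple_self _ _, hlev, hgood n _ hy h1, fun s hs => ?_⟩
        have : s ^ 2 = y ^ 2 := by simpa [fq] using hs
        rcases sq_eq_sq_iff_eq_or_eq_neg.1 this with rfl | rfl
        · exact mem_adjoin_simple_self _ _
        · exact neg_mem (mem_adjoin_simple_self _ _))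
    rw [Finset.card_singleton] at h3
    rw [pow_succ, ← mul_assoc]
    omega

theorem full_of_bad' [IsAlgClosed Ω] (h2 : (2 : K) ≠ 0) (c b : K)
    (hpc : ∀ j, orb (algebraMap K Ω c) j ≠ algebraMap K Ω b) {k D : ℕ}
    (hB : ∀ n, (bad (algebraMap K Ω c) (Set.range (algebraMap K Ω)) (k + n)
      (algebraMap K Ω b)).card ≤ D * 2 ^ n) (Z : Finset Ω)
    (hZ : ∀ z ∈ Z, (fq (algebraMap K Ω c))^[k] z = algebraMap K Ω b ∧
      D < finrank K (adjoin K {z})) (n : ℕ) :
    2 ^ (Z.card * (2 ^ n - 1)) *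
      finrank K (adjoin K {y | (fq (algebraMap K Ω c))^[k] y = algebraMap K Ω b}) ≤
    finrank K (adjoin K ({y | (fq (algebraMap K Ω c))^[k] y = algebraMap K Ω b} ∪
      {y | (fq (algebraMap K Ω c))^[n] y ∈ Z})) := by
  classical
  set c' := algebraMap K Ω c with hc'
  set β := algebraMap K Ω b with hβ
  have h2' : (2 : Ω) ≠ 0 := by
    rw [← map_ofNat (algebraMap K Ω) 2]; exact (_root_.map_ne_zero _).2 h2
  have hmem : ∀ n y, y ∈ Z.biUnion (pre c' n) ↔ (fq c')^[n] y ∈ Z := by
    intro n y; simp [mem_pre]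
  have hset : ∀ n, ({y | (fq c')^[k] y = β} ∪ {y | (fq c')^[n] y ∈ Z} : Set Ω) =
      (pre c' k β ∪ Z.biUnion (pre c' n) : Finset Ω) := by
    intro n; ext y; simp only [Set.mem_union, Set.mem_ofPred_eq, Finset.coe_union, Finset.mem_coe,
      mem_pre, hmem]
  have hcard : ∀ n, (Z.biUnion (pre c' n)).card = Z.card * 2 ^ n := by
    intro n
    rw [Finset.card_biUnion, Finset.sum_const_nat (m := 2 ^ n)]
    · intro z hz
      refine card_pre h2' (fun j h => hpc (k + j) ?_) n
      rw [← (hZ z hz).1, ← h, orb_eq, orb_eq, Function.iterate_add_apply]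
    · intro z _ z' _ hne
      rw [Function.onFun, Finset.disjoint_left]
      intro y h1 h3
      exact hne ((mem_pre.1 h1).symm.trans (mem_pre.1 h3))
  induction n with
  | zero =>
    have : ({y | (fq c')^[k] y = β} ∪ {y | (fq c')^[0] y ∈ Z} : Set Ω) = {y | (fq c')^[k] y = β} :=
      Set.union_eq_self_of_subset_right (fun y hy => (hZ y hy).1)
    rw [this]
    simp
  | succ n ih =>
    have hfd : FiniteDimensional K
        (adjoin K ({y | (fq c')^[k] y = β} ∪ {y | (fq c')^[n + 1] y ∈ Z})) := by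
      rw [hset]; infer_instance
    have hmono : ∀ m, Lv K c' k β ≤ Lv K c' (k + m) β := by
      intro m
      induction m with
      | zero => exact le_rfl
      | succ m ih => exact ih.trans (Lv_le_succ c _ _)
    have h1 := level_step' c b (j := k + n)
      (adjoin K ({y | (fq c')^[k] y = β} ∪ {y | (fq c')^[n] y ∈ Z}))
      (adjoin K ({y | (fq c')^[k] y = β} ∪ {y | (fq c')^[n + 1] y ∈ Z}))
      (by
        rw [adjoin_le_iff]
        rintro y (hy | hy)
        · exact hmono n (subset_adjoin _ _ (by simpa [mem_pre] using hy))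
        · exact subset_adjoin _ _ (by
            simpa [mem_pre, Function.iterate_add_apply] using (hZ _ hy).1))
      (by
        rw [adjoin_le_iff]
        rintro y (hy | hy)
        · exact subset_adjoin _ _ (Or.inl hy)
        · obtain ⟨s, rfl⟩ := exists_child c' y
          have hs : s ∈ adjoin K ({y | (fq c')^[k] y = β} ∪ {y | (fq c')^[n + 1] y ∈ Z}) :=
            subset_adjoin _ _ (Or.inr hy)
          exact add_mem (pow_mem hs 2) (IntermediateField.algebraMap_mem _ _))
      (Z.biUnion (pre c' n)) (by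
        intro y hy
        rw [hmem] at hy
        refine ⟨subset_adjoin _ _ (Or.inr hy), ?_,
          good_above h2 c b hpc (hZ _ hy).1 hB (hZ _ hy).2 n y rfl, ?_⟩
        · rw [Function.iterate_add_apply]; exact (hZ _ hy).1
        · rintro s rfl
          exact subset_adjoin _ _ (Or.inr hy))
    rw [hcard] at h1
    have h5 : Z.card * (2 ^ (n + 1) - 1) = Z.card * 2 ^ n + Z.card * (2 ^ n - 1) := by
      have : 1 ≤ 2 ^ n := Nat.one_le_two_pow
      rw [← mul_add, pow_succ]; congr 1; omega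
    rw [h5, pow_add, mul_assoc]
    exact (Nat.mul_le_mul_left _ ih).trans h1

omit [Algebra.IsAlgebraic K Ω] in
lemma adjoin_affine {a b : K} (ha : a ≠ 0) (S : Set Ω) :
    adjoin K {z | algebraMap K Ω a * z + algebraMap K Ω b ∈ S} = adjoin K S := by
  have ha' : algebraMap K Ω a ≠ 0 := (_root_.map_ne_zero _).2 ha
  apply le_antisymm <;> rw [adjoin_le_iff] <;> intro z hz
  · have : z = (algebraMap K Ω a * z + algebraMap K Ω b - algebraMap K Ω b) / algebraMap K Ω a := by
      field_simp; ring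
    rw [this]
    exact div_mem (sub_mem (subset_adjoin _ _ hz) (IntermediateField.algebraMap_mem _ _))
      (IntermediateField.algebraMap_mem _ _)
  · have : z = algebraMap K Ω a * ((z - algebraMap K Ω b) / algebraMap K Ω a) + algebraMap K Ω b := by
      field_simp; ring
    have h1 : (z - algebraMap K Ω b) / algebraMap K Ω a ∈
        adjoin K {z | algebraMap K Ω a * z + algebraMap K Ω b ∈ S} :=
      subset_adjoin _ _ (by rw [Set.mem_ofPred_eq, ← this]; exact hz)
    rw [this]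
    exact add_mem (mul_mem (IntermediateField.algebraMap_mem _ _) h1)
      (IntermediateField.algebraMap_mem _ _)

end

lemma sum_bound (n : ℕ) : ∑ j ∈ Finset.range n, 2 ^ (j - j / 400) ≤ 3 * 2 ^ (n - n / 400) ∧
    (n % 400 ≠ 0 → ∑ j ∈ Finset.range n, 2 ^ (j - j / 400) ≤ 2 * 2 ^ (n - n / 400)) := by
  induction n with
  | zero => simp
  | succ n ih =>
    rw [Finset.sum_range_succ]
    by_cases h : (n + 1) % 400 = 0
    · have : n + 1 - (n + 1) / 400 = n - n / 400 := by omega
      have := ih.2 (by omega)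
      rw [‹n + 1 - (n + 1) / 400 = _›]
      omega
    · have : n + 1 - (n + 1) / 400 = n - n / 400 + 1 := by omega
      rw [this, pow_succ]
      omega

theorem setup (K : Type) [Field K]
    (hK : ∃ (Fq : Type) (_ : Field Fq) (_ : Finite Fq) (_ : Algebra (RatFunc Fq) K),
      FunctionField Fq K)
    (h2 : ringChar K ≠ 2) (a b c : K) (ha : a ≠ 0) (φ : AlgebraicClosure K → AlgebraicClosure K)
    (hφ : ∀ x, φ x = algebraMap K _ a * x ^ 2 + algebraMap K _ b * x + algebraMap K _ c)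
    (htree : ∀ n, {z | φ^[n] z = 0}.ncard = 2 ^ n)
    (hpcf : ∀ m n, m < n →
      φ^[m] (algebraMap K _ (-b / (2 * a))) ≠ φ^[n] (algebraMap K _ (-b / (2 * a))))
    (hper : ∀ n, 1 ≤ n → φ^[n] 0 ≠ 0) :
    ∃ c0 b0 : K, (2 : K) ≠ 0 ∧
      (∀ n z, (fq (algebraMap K _ c0))^[n] (algebraMap K _ a * z + algebraMap K _ b0) =
        algebraMap K _ a * φ^[n] z + algebraMap K _ b0) ∧
      (∀ n, (pre (algebraMap K (AlgebraicClosure K) c0) n (algebraMap K _ b0)).card = 2 ^ n) ∧
      ∃ C : ℕ, ∀ j, (bad (algebraMap K (AlgebraicClosure K) c0)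
        (Set.range (algebraMap K (AlgebraicClosure K))) j
        (algebraMap K (AlgebraicClosure K) b0)).card ≤ C * 2 ^ (j - j / 400) := by
  set ι := algebraMap K (AlgebraicClosure K) with hι
  have h2K : (2 : K) ≠ 0 := Ring.two_ne_zero h2
  have h2' : (2 : AlgebraicClosure K) ≠ 0 := by
    rw [← map_ofNat ι 2]; exact (_root_.map_ne_zero _).2 h2K
  have ha' : ι a ≠ 0 := (_root_.map_ne_zero _).2 ha
  have hconj : ∀ n z, (fq (ι (a * c + b / 2 - (b / 2) ^ 2)))^[n] (ι a * z + ι (b / 2)) =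
      ι a * φ^[n] z + ι (b / 2) := by
    intro n z
    induction n with
    | zero => rfl
    | succ n ih =>
      rw [Function.iterate_succ_apply', Function.iterate_succ_apply', ih, hφ, fq]
      simp only [map_add, map_sub, map_mul, map_pow, map_div₀, map_ofNat]
      field_simp
      ring
  have hcard : ∀ n, (pre (ι (a * c + b / 2 - (b / 2) ^ 2)) n (ι (b / 2))).card = 2 ^ n := by
    intro n
    rw [← htree n, ← Set.ncard_coe_finset]
    symm
    refine Set.ncard_congr (fun z _ => ι a * z + ι (b / 2)) ?_ ?_ ?_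
    · intro z hz
      rw [Finset.mem_coe, mem_pre, hconj, show φ^[n] z = 0 from hz]; simp
    · intro x y _ _ h
      exact mul_left_cancel₀ ha' (add_right_cancel h)
    · intro y hy
      have e : ι a * ((y - ι (b / 2)) / ι a) + ι (b / 2) = y := by field_simp; ring
      refine ⟨(y - ι (b / 2)) / ι a, ?_, e⟩
      rw [Finset.mem_coe, mem_pre, ← e, hconj] at hy
      simpa [ha'] using hy
  refine ⟨_, _, h2K, hconj, hcard, ?_⟩
  obtain ⟨Fq, _, _, _, _⟩ := hK
  refine bad_bound Fq h2 _ _ ?_ (orb_ne_of_card hcard) ?_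
  · have h0 : ι a * ι (-b / (2 * a)) + ι (b / 2) = 0 := by
      rw [← map_mul, ← map_add, map_eq_zero]; field_simp; ring
    have key : ∀ n, ι (orb (a * c + b / 2 - (b / 2) ^ 2) n) =
        ι a * φ^[n + 1] (ι (-b / (2 * a))) + ι (b / 2) := by
      intro n
      rw [← hconj, h0, map_orb, orb_eq, Function.iterate_succ_apply]
      simp [fq]
    intro m n h
    have e : φ^[m + 1] (ι (-b / (2 * a))) = φ^[n + 1] (ι (-b / (2 * a))) := by
      have := (key m).symm.trans ((congrArg ι h).trans (key n))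
      exact mul_left_cancel₀ ha' (add_right_cancel this)
    rcases lt_trichotomy m n with h' | h' | h'
    · exact absurd e (hpcf _ _ (by omega))
    · exact h'
    · exact absurd e.symm (hpcf _ _ (by omega))
  · intro n h
    have := hconj (n + 1) 0
    rw [mul_zero, zero_add, ← map_fq, h] at this
    exact hper (n + 1) (by omega) (by simpa [ha'] using this.symm)

theorem index_main (K : Type) [Field K]
    (hK : ∃ (Fq : Type) (_ : Field Fq) (_ : Finite Fq) (_ : Algebra (RatFunc Fq) K),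
      FunctionField Fq K)
    (h2 : ringChar K ≠ 2) (a b c : K) (ha : a ≠ 0) (φ : AlgebraicClosure K → AlgebraicClosure K)
    (hφ : ∀ x, φ x = algebraMap K _ a * x ^ 2 + algebraMap K _ b * x + algebraMap K _ c)
    (htree : ∀ n, {z | φ^[n] z = 0}.ncard = 2 ^ n)
    (hpcf : ∀ m n, m < n →
      φ^[m] (algebraMap K _ (-b / (2 * a))) ≠ φ^[n] (algebraMap K _ (-b / (2 * a))))
    (hper : ∀ n, 1 ≤ n → φ^[n] 0 ≠ 0) :
    ∃ C : ℕ, ∀ n : ℕ, 2 ^ (2 ^ n - 1) ≤
      2 ^ (C * 2 ^ (n - n / 400)) * finrank K (adjoin K {z | φ^[n] z = 0}) := by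
  obtain ⟨c0, b0, -, h1, h3, C, hC⟩ := setup K hK h2 a b c ha φ hφ htree hpcf hper
  refine ⟨3 * C, fun n => (index_of_bad c0 b0 _ h3 hC n).trans (Nat.mul_le_mul ?_ ?_)⟩
  · refine Nat.pow_le_pow_right (by norm_num) ?_
    rw [← Finset.mul_sum, mul_comm 3 C, mul_assoc]
    exact Nat.mul_le_mul_left _ (sum_bound n).1
  · rw [Lv, ← adjoin_affine (b := b0) ha]
    have : {z | algebraMap K (AlgebraicClosure K) a * z + algebraMap K _ b0 ∈
        (pre (algebraMap K (AlgebraicClosure K) c0) n (algebraMap K _ b0) : Set _)} =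
        {z | φ^[n] z = 0} := by
      ext z; simp [mem_pre, h1, ha]
    rw [this]

theorem full_main (K : Type) [Field K]
    (hK : ∃ (Fq : Type) (_ : Field Fq) (_ : Finite Fq) (_ : Algebra (RatFunc Fq) K),
      FunctionField Fq K)
    (h2 : ringChar K ≠ 2) (a b c : K) (ha : a ≠ 0) (φ : AlgebraicClosure K → AlgebraicClosure K)
    (hφ : ∀ x, φ x = algebraMap K _ a * x ^ 2 + algebraMap K _ b * x + algebraMap K _ c)
    (htree : ∀ n, {z | φ^[n] z = 0}.ncard = 2 ^ n)
    (hpcf : ∀ m n, m < n →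
      φ^[m] (algebraMap K _ (-b / (2 * a))) ≠ φ^[n] (algebraMap K _ (-b / (2 * a))))
    (hper : ∀ n, 1 ≤ n → φ^[n] 0 ≠ 0) :
    ∃ C : ℕ, ∀ (k : ℕ) (Z : Finset (AlgebraicClosure K)),
      (∀ z ∈ Z, φ^[k] z = 0 ∧ C * 2 ^ (k - k / 400) < finrank K (adjoin K {z})) →
      ∀ n : ℕ, 2 ^ (Z.card * (2 ^ n - 1)) * finrank K (adjoin K {y | φ^[k] y = 0}) ≤
        finrank K (adjoin K ({y | φ^[k] y = 0} ∪ {y | φ^[n] y ∈ Z})) := by
  classical
  obtain ⟨c0, b0, h0, h1, h3, C, hC⟩ := setup K hK h2 a b c ha φ hφ htree hpcf hper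
  refine ⟨C, fun k Z hZ n => ?_⟩
  set ι := algebraMap K (AlgebraicClosure K) with hι
  have ha' : ι a ≠ 0 := (_root_.map_ne_zero _).2 ha
  have hinj : Function.Injective fun z => ι a * z + ι b0 :=
    fun x y h => mul_left_cancel₀ ha' (add_right_cancel h)
  have := full_of_bad' h0 c0 b0 (orb_ne_of_card h3) (k := k) (D := C * 2 ^ (k - k / 400))
    (fun n => (hC _).trans (by
      rw [mul_assoc, ← pow_add]
      exact Nat.mul_le_mul_left _ (Nat.pow_le_pow_right (by norm_num) (by omega))))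
    (Z.image fun z => ι a * z + ι b0) (by
      intro y hy
      obtain ⟨z, hz, rfl⟩ := Finset.mem_image.1 hy
      refine ⟨by rw [h1, (hZ z hz).1, mul_zero, zero_add], (hZ z hz).2.trans_eq ?_⟩
      rw [← adjoin_affine (b := b0) ha {ι a * z + ι b0}]
      have : {x | ι a * x + ι b0 ∈ ({ι a * z + ι b0} : Set _)} = {z} := by
        ext x; simp [ha']
      rw [this]) n
  rw [Finset.card_image_of_injective _ hinj, ← adjoin_affine (b := b0) ha,
    ← adjoin_affine (b := b0) ha (_ ∪ _)] at this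
  have e1 : {z | ι a * z + ι b0 ∈ {y | (fq (ι c0))^[k] y = ι b0}} = {y | φ^[k] y = 0} := by
    ext z; simp [h1, ha']
  have e2 : {z | ι a * z + ι b0 ∈ {y | (fq (ι c0))^[k] y = ι b0} ∪
      {y | (fq (ι c0))^[n] y ∈ Z.image fun z => ι a * z + ι b0}} =
      {y | φ^[k] y = 0} ∪ {y | φ^[n] y ∈ Z} := by
    ext z; simp [h1, ha']
  rwa [e1, e2] at this

end Pool.Agent.Work.MP_969914_nt
end
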