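import Pool.Agent.Work.MP_969914_nt.H70Places
import Pool.Agent.Work.MP_969914_nt.Main

/-! Eventual stability over global function fields and the finite index theorem. -/

set_option autoImplicit false

open Polynomial IntermediateField Module

namespace Pool.Agent.Work.MP_969914_nt.H70

lemma deg_le {F Ω K : Type*} [Field F] [Field Ω] [Field K] [Algebra F Ω] [Algebra K Ω]
    (M : IntermediateField F Ω) [FiniteDimensional F M] (h : ∀ x : K, algebraMap K Ω x ∈ M) {z : Ω}
    (hz : IsIntegral K z) : (minpoly F z).natDegree ≤ finrank F M * finrank K K⟮z⟯ := by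
  let ψ : K →+* M := (algebraMap K Ω).codRestrict M h
  have hm := (minpoly.monic hz).map ψ
  have h0 : aeval z ((minpoly K z).map ψ) = 0 := by
    rw [aeval_def, eval₂_map]
    exact minpoly.aeval K z
  have hzM : IsIntegral M z := ⟨_, hm, h0⟩
  have h1 : finrank M M⟮z⟯ ≤ finrank K K⟮z⟯ := by
    rw [adjoin.finrank hzM, adjoin.finrank hz]
    exact (natDegree_le_natDegree (minpoly.min M z hm h0)).trans natDegree_map_le
  have := adjoin.finiteDimensional hzM
  have : FiniteDimensional F (IntermediateField.restrictScalars F M⟮z⟯) := Module.Finite.trans (R := F) M M⟮z⟯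
  have h3 : F⟮z⟯ ≤ IntermediateField.restrictScalars F M⟮z⟯ :=
    adjoin_simple_le_iff.2 (mem_adjoin_simple_self M z)
  rw [← adjoin.finrank (isIntegral_trans (R := F) z hzM)]
  refine (finrank_le_of_le_right h3).trans (le_trans (le_of_eq ?_) (Nat.mul_le_mul_left _ h1))
  exact (Module.finrank_mul_finrank F M M⟮z⟯).symm

theorem deg_bound {K : Type} [Field K] (Fq : Type) [Field Fq] [Finite Fq] [Algebra (RatFunc Fq) K]
    [FunctionField Fq K] (h2 : ringChar K ≠ 2) (c b : K) (hpcf : Function.Injective (orb c))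
    (hper : ∀ n, (fq c)^[n + 1] b ≠ b) :
    ∃ C : ℕ, ∀ n z, (fq (algebraMap K (AlgebraicClosure K) c))^[n] z = algebraMap K _ b →
      2 ^ n ≤ C * finrank K K⟮z⟯ := by
  classical
  set Ω := AlgebraicClosure K
  let _ : Algebra Fq K := ((algebraMap (RatFunc Fq) K).comp (algebraMap Fq (RatFunc Fq))).toAlgebra
  have : IsScalarTower Fq (RatFunc Fq) K := IsScalarTower.of_algebraMap_eq' rfl
  obtain ⟨p, hchar⟩ := CharP.exists Fq
  have hp : Fact p.Prime := ⟨CharP.char_is_prime Fq p⟩
  have : CharP K p := charP_of_injective_algebraMap (algebraMap Fq K).injective p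
  have hp2 : p ≠ 2 := by rwa [ringChar.eq K p] at h2
  have hct : Transcendental Fq c := by
    intro ha
    have : FiniteDimensional Fq Fq⟮c⟯ := adjoin.finiteDimensional ha.isIntegral
    have : Finite Fq⟮c⟯ := Module.finite_of_finite Fq
    have hmem : ∀ r, orb c r ∈ Fq⟮c⟯ := by
      intro r
      induction r with
      | zero => exact mem_adjoin_simple_self _ _
      | succ r ih => exact add_mem (pow_mem ih 2) (mem_adjoin_simple_self _ _)
    exact not_injective_infinite_finite (fun r => (⟨orb c r, hmem r⟩ : Fq⟮c⟯))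
      fun a b h => hpcf (congrArg Subtype.val h)
  have hfd := FunctionField.finiteDimensional_of_adjoin_transcendental hct
  have halgE : Algebra.IsAlgebraic Fq⟮c⟯ Ω := Algebra.IsAlgebraic.trans Fq⟮c⟯ K Ω
  set k := algebraicClosure Fq Ω
  have : IsAlgClosed k := IsAlgClosure.isAlgClosed Fq
  have : CharP k p := charP_of_injective_algebraMap (algebraMap Fq k).injective p
  set c' := algebraMap K Ω c with hc'
  have hct' : Transcendental k c' :=
    ((transcendental_algebraMap_iff (algebraMap K Ω).injective).2 hct).algebraicClosure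
  obtain ⟨s, hs⟩ := IsAlgClosed.exists_pow_nat_eq (-c') two_pos
  replace hs : c' = -s ^ 2 := by rw [hs, neg_neg]
  have hst : Transcendental k s := fun h => hct' (hs ▸ (h.pow 2).neg)
  have key : ∀ (t : Ω) (Q : ℕ), t ^ Q = s → ∀ [Algebra k[X] Ω],
      (∀ q, algebraMap k[X] Ω q = aeval t q) → ∀ [FaithfulSMul k[X] Ω],
      letI := FractionRing.liftAlgebra k[X] Ω
      ∀ e : Fq⟮c⟯, algebraMap Fq⟮c⟯ Ω e ∈ Set.range (algebraMap (FractionRing k[X]) Ω) := by
    intro t Q ht _ hq _
    let _ := FractionRing.liftAlgebra k[X] Ω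
    rintro ⟨e, he⟩
    have hr : ∀ q : k[X], aeval t q ∈ (algebraMap (FractionRing k[X]) Ω).fieldRange := fun q =>
      ⟨algebraMap k[X] _ q, by rw [← IsScalarTower.algebraMap_apply, hq]⟩
    change algebraMap K Ω e ∈ (algebraMap (FractionRing k[X]) Ω).fieldRange
    induction he using adjoin_induction with
    | mem x hx =>
      rw [Set.mem_singleton_iff.1 hx, ← hc', hs, ← ht]
      exact neg_mem (pow_mem (by simpa using hr (X ^ Q)) 2)
    | algebraMap r =>
      have := hr (C (algebraMap Fq k r))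
      rw [aeval_C] at this
      exact this
    | add x y _ _ hx hy => rw [map_add]; exact add_mem hx hy
    | inv x _ hx => rw [map_inv₀]; exact inv_mem hx
    | mul x y _ _ hx hy => rw [map_mul]; exact mul_mem hx hy
  obtain ⟨t, Q, g, hg, hd, hβ, ht, hQ, hQ', hsep⟩ : ∃ (t : Ω) (Q : ℕ) (g : k[X][X]),
      Irreducible g ∧ g.natDegree ≠ 0 ∧
      eval₂ (aeval t : k[X] →ₐ[k] Ω).toRingHom (algebraMap K Ω b) g = 0 ∧ t ^ Q = s ∧ Q ≠ 0 ∧
      (Q = 1 ∨ (p ∣ Q ∧ dT g ≠ 0)) ∧ derivative g ≠ 0 := by
    let _ : Algebra k[X] Ω := (aeval s : k[X] →ₐ[k] Ω).toRingHom.toAlgebra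
    have hinj : Function.Injective (algebraMap k[X] Ω) := transcendental_iff_injective.1 hst
    have : FaithfulSMul k[X] Ω := (faithfulSMul_iff_algebraMap_injective _ _).2 hinj
    let _ := FractionRing.liftAlgebra k[X] Ω
    have h1 := isAlgebraic_of_range (key s 1 (pow_one _) (fun _ => rfl))
      (halgE.isAlgebraic (algebraMap K Ω b))
    obtain ⟨P, hP0, hP⟩ := (IsFractionRing.isAlgebraic_iff k[X] (FractionRing k[X]) Ω).2 h1
    obtain ⟨g, hg, -, hg0⟩ := exists_irr_factor
      (aeval (algebraMap K Ω b) : k[X][X] →ₐ[k[X]] Ω).toRingHom hP0 hP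
    refine exists_param p g.natDegree s 1 g hg rfl (fun h0 => ?_) hg0 (pow_one _) one_ne_zero
      (Or.inl rfl)
    obtain ⟨a, rfl⟩ := natDegree_eq_zero.1 h0
    have : algebraMap k[X] Ω a = 0 := by simpa using hg0
    rw [(map_eq_zero_iff _ hinj).1 this] at hg
    exact hg.ne_zero (map_zero _)
  let _ : Algebra k[X] Ω := (aeval t : k[X] →ₐ[k] Ω).toRingHom.toAlgebra
  have htt : Transcendental k t := fun h => hst (ht ▸ h.pow Q)
  have hinj : Function.Injective (algebraMap k[X] Ω) := transcendental_iff_injective.1 htt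
  have : FaithfulSMul k[X] Ω := (faithfulSMul_iff_algebraMap_injective _ _).2 hinj
  let _ := FractionRing.liftAlgebra k[X] Ω
  have hE := key t Q ht (fun _ => rfl)
  have : Algebra.IsAlgebraic (FractionRing k[X]) Ω :=
    ⟨fun x => isAlgebraic_of_range hE (halgE.isAlgebraic x)⟩
  obtain ⟨S, hS⟩ := Module.Finite.fg_top (R := Fq⟮c⟯) (M := K)
  have hcQ : -algebraMap k[X] Ω (X ^ Q) ^ 2 = c' := by
    change -aeval t (X ^ Q : k[X]) ^ 2 = c'
    simp [ht, hs]
  have h2k : (2 : k) ≠ 0 := Ring.two_ne_zero (by rwa [ringChar.eq k p])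
  obtain ⟨C, hC⟩ := stab_F (F := FractionRing k[X]) (s0 := X ^ Q) h2k hg hd hsep
    (by
      rcases hQ' with rfl | ⟨⟨m, rfl⟩, h⟩
      · left; simp
      · right
        refine ⟨by rwa [natDegree_X_pow], ?_, h⟩
        rw [derivative_X_pow]
        simp) hβ
    (by
      intro n h
      rw [hcQ, hc', ← map_fq] at h
      exact hper n ((algebraMap K Ω).injective h))
  rw [hcQ] at hC
  have hfdM := fd_adjoin (K := FractionRing k[X]) (S.image (algebraMap K Ω))
  refine ⟨C * finrank (FractionRing k[X])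
    (adjoin (FractionRing k[X]) (S.image (algebraMap K Ω) : Set Ω)), fun n z hz => ?_⟩
  rw [mul_assoc]
  refine (hC n z hz).trans (Nat.mul_le_mul_left _ (deg_le _ (fun x => ?_)
    (Algebra.IsAlgebraic.isAlgebraic z).isIntegral))
  have hx : x ∈ Submodule.span Fq⟮c⟯ (S : Set K) := hS ▸ Submodule.mem_top
  induction hx using Submodule.span_induction with
  | mem y hy => exact subset_adjoin _ _ (Finset.mem_coe.2 (Finset.mem_image_of_mem _ hy))
  | zero => simp
  | add x y _ _ hx hy => rw [map_add]; exact add_mem hx hy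
  | smul a x _ hx =>
    rw [Algebra.smul_def, map_mul]
    obtain ⟨y, hy⟩ := hE a
    exact mul_mem (by
      have := IntermediateField.algebraMap_mem
        (adjoin (FractionRing k[X]) (S.image (algebraMap K Ω) : Set Ω)) y
      rw [hy] at this
      exact this) hx

theorem stable_main (K : Type) [Field K]
    (hK : ∃ (Fq : Type) (_ : Field Fq) (_ : Finite Fq) (_ : Algebra (RatFunc Fq) K),
      FunctionField Fq K)
    (h2 : ringChar K ≠ 2) (a b c : K) (ha : a ≠ 0) (φ : AlgebraicClosure K → AlgebraicClosure K)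
    (hφ : ∀ x, φ x = algebraMap K _ a * x ^ 2 + algebraMap K _ b * x + algebraMap K _ c)
    (hpcf : ∀ m n, m < n →
      φ^[m] (algebraMap K _ (-b / (2 * a))) ≠ φ^[n] (algebraMap K _ (-b / (2 * a))))
    (hper : ∀ n, 1 ≤ n → φ^[n] 0 ≠ 0) :
    ∃ C : ℕ, ∀ n z, φ^[n] z = 0 → 2 ^ n ≤ C * finrank K K⟮z⟯ := by
  set ι := algebraMap K (AlgebraicClosure K) with hι
  have h2K : (2 : K) ≠ 0 := Ring.two_ne_zero h2
  have h2' : (2 : AlgebraicClosure K) ≠ 0 := by
    rw [← map_ofNat ι 2]; exact (_root_.map_ne_zero _).2 h2K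
  have ha' : ι a ≠ 0 := (_root_.map_ne_zero _).2 ha
  have hconj : ∀ n z, (fq (ι (a * c + b / 2 - (b / 2) ^ 2)))^[n] (ι a * z + ι (b / 2)) =
      ι a * φ^[n] z + ι (b / 2) := by
    intro n z
    induction n with
    | zero => rfl
    | succ n ih =>
      rw [Function.iterate_succ_apply', Function.iterate_succ_apply', ih, hφ, fq]
      simp only [map_add, map_sub, map_mul, map_pow, map_div₀, map_ofNat]
      field_simp
      ring
  obtain ⟨Fq, _, _, _, _⟩ := hK
  obtain ⟨C, hC⟩ := deg_bound Fq h2 (a * c + b / 2 - (b / 2) ^ 2) (b / 2)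
    (by
      have h0 : ι a * ι (-b / (2 * a)) + ι (b / 2) = 0 := by
        rw [← map_mul, ← map_add, map_eq_zero]; field_simp; ring
      have key : ∀ n, ι (orb (a * c + b / 2 - (b / 2) ^ 2) n) =
          ι a * φ^[n + 1] (ι (-b / (2 * a))) + ι (b / 2) := by
        intro n
        rw [← hconj, h0, map_orb, orb_eq, Function.iterate_succ_apply]
        simp [fq]
      intro m n h
      have e : φ^[m + 1] (ι (-b / (2 * a))) = φ^[n + 1] (ι (-b / (2 * a))) := by
        have := (key m).symm.trans ((congrArg ι h).trans (key n))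
        exact mul_left_cancel₀ ha' (add_right_cancel this)
      rcases lt_trichotomy m n with h' | h' | h'
      · exact absurd e (hpcf _ _ (by omega))
      · exact h'
      · exact absurd e.symm (hpcf _ _ (by omega)))
    (by
      intro n h
      have := hconj (n + 1) 0
      rw [mul_zero, zero_add, ← map_fq, h] at this
      exact hper (n + 1) (by omega) (by simpa [ha'] using this.symm))
  refine ⟨C, fun n z hz => (hC n (ι a * z + ι (b / 2)) (by rw [hconj, hz, mul_zero, zero_add])).trans_eq ?_⟩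
  rw [← adjoin_affine (b := b / 2) ha {ι a * z + ι (b / 2)}]
  have : {x | ι a * x + ι (b / 2) ∈ ({ι a * z + ι (b / 2)} : Set _)} = {z} := by
    ext x; simp [ha']
  rw [this]

theorem finite_index (K : Type) [Field K]
    (hK : ∃ (Fq : Type) (_ : Field Fq) (_ : Finite Fq) (_ : Algebra (RatFunc Fq) K),
      FunctionField Fq K)
    (h2 : ringChar K ≠ 2) (a b c : K) (ha : a ≠ 0) (φ : AlgebraicClosure K → AlgebraicClosure K)
    (hφ : ∀ x, φ x = algebraMap K _ a * x ^ 2 + algebraMap K _ b * x + algebraMap K _ c)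
    (htree : ∀ n, {z | φ^[n] z = 0}.ncard = 2 ^ n)
    (hpcf : ∀ m n, m < n →
      φ^[m] (algebraMap K _ (-b / (2 * a))) ≠ φ^[n] (algebraMap K _ (-b / (2 * a))))
    (hper : ∀ n, 1 ≤ n → φ^[n] 0 ≠ 0) :
    ∃ M : ℕ, ∀ n : ℕ, 2 ^ (2 ^ n - 1) ≤ M * finrank K (adjoin K {z | φ^[n] z = 0}) := by
  classical
  obtain ⟨C, hC⟩ := full_main K hK h2 a b c ha φ hφ htree hpcf hper
  obtain ⟨D, hD⟩ := stable_main K hK h2 a b c ha φ hφ hpcf hper
  have hfin : ∀ n, {z | φ^[n] z = 0}.Finite := fun n =>
    Set.finite_of_ncard_ne_zero (by rw [htree]; positivity)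
  have hfd : ∀ n, FiniteDimensional K (adjoin K {z | φ^[n] z = 0}) := fun n => by
    have := fd_adjoin (K := K) (hfin n).toFinset
    rwa [Set.Finite.coe_toFinset] at this
  have hpos : ∀ n, 1 ≤ finrank K (adjoin K {z | φ^[n] z = 0}) := fun n => by
    have := hfd n
    exact Module.finrank_pos
  set k := 400 * (D * C) with hk
  refine ⟨2 ^ 2 ^ k, fun n => ?_⟩
  rcases le_or_gt n k with hn | hn
  · refine le_trans ?_ (Nat.le_mul_of_pos_right _ (hpos n))
    exact Nat.pow_le_pow_right two_pos ((Nat.sub_le _ _).trans (Nat.pow_le_pow_right two_pos hn))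
  obtain ⟨n, rfl⟩ := Nat.exists_eq_add_of_le hn.le
  have h1 := hC k (hfin k).toFinset (fun z hz => by
    rw [Set.Finite.mem_toFinset] at hz
    refine ⟨hz, Nat.lt_of_mul_lt_mul_left (a := D) (lt_of_lt_of_le ?_ (hD k z hz))⟩
    have e : k = D * C + (k - k / 400) := by omega
    rw [← mul_assoc]
    conv_rhs => rw [e, pow_add]
    exact Nat.mul_lt_mul_of_pos_right Nat.lt_two_pow_self (by positivity)) n
  have hmono : ∀ m, adjoin K {z | φ^[k] z = 0} ≤ adjoin K {z | φ^[k + m] z = 0} := by
    intro m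
    induction m with
    | zero => exact le_rfl
    | succ m ih =>
      refine ih.trans (adjoin_le_iff.2 fun y hy => ?_)
      obtain ⟨x, hx⟩ : ∃ x, φ x = y := by
        obtain ⟨x, hx⟩ := IsAlgClosed.exists_root
          (Polynomial.C (algebraMap K _ a) * X ^ 2 + Polynomial.C (algebraMap K _ b) * X +
            Polynomial.C (algebraMap K (AlgebraicClosure K) c - y))
          (by rw [degree_quadratic ((_root_.map_ne_zero _).2 ha)]; decide)
        refine ⟨x, ?_⟩
        rw [hφ, ← sub_eq_zero, ← hx.eq_zero]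
        simp; ring
      have hx' : x ∈ adjoin K {z | φ^[k + (m + 1)] z = 0} :=
        subset_adjoin _ _ (by
          rw [Set.mem_ofPred_eq, ← add_assoc, Function.iterate_succ_apply, hx]; exact hy)
      rw [← hx, hφ]
      exact add_mem (add_mem (mul_mem (IntermediateField.algebraMap_mem _ _) (pow_mem hx' 2))
        (mul_mem (IntermediateField.algebraMap_mem _ _) hx')) (IntermediateField.algebraMap_mem _ _)
  have := hfd (k + n)
  have h3 : finrank K (adjoin K ({y | φ^[k] y = 0} ∪ {y | φ^[n] y ∈ (hfin k).toFinset})) ≤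
      finrank K (adjoin K {z | φ^[k + n] z = 0}) := by
    refine finrank_le_of_le_right (adjoin_le_iff.2 ?_)
    rintro y (hy | hy)
    · exact hmono n (subset_adjoin _ _ hy)
    · exact subset_adjoin _ _ (by simpa [Function.iterate_add_apply] using hy)
  rw [← Set.ncard_eq_toFinset_card _ (hfin k), htree] at h1
  refine le_trans ?_ (Nat.mul_le_mul_left _ (((Nat.le_mul_of_pos_right _ (hpos k)).trans h1).trans h3))
  rw [← pow_add]
  refine Nat.pow_le_pow_right two_pos ?_
  obtain ⟨m, hm⟩ : ∃ m, 2 ^ n = m + 1 := ⟨_, (Nat.sub_add_cancel Nat.one_le_two_pow).symm⟩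
  rw [pow_add, hm, Nat.add_sub_cancel, mul_add]
  omega

end Pool.Agent.Work.MP_969914_nt.H70
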