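import Pool.Agent.Work.MP_969914_nt.Main
import Mathlib

-- merged part: Pool.Agent.Work.MP_969914_nt.H70Base
section
/-! Local dynamics of `x ^ 2 - s ^ 2` at a place where `s` is large. -/

set_option autoImplicit false

open Polynomial
open scoped NNReal

namespace Pool.Agent.Work.MP_969914_nt.H70

section basis
variable {A : Type*} [CommRing A]

/-- A monic basis adapted to the iterates of `X ^ 2 + c`. -/
noncomputable def bb (c : A) : ℕ → ℕ → A[X]
  | 0, a => X ^ a
  | L + 1, a => X ^ (a % 2) * (bb c L (a / 2)).comp (X ^ 2 + C c)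

/-- The truncated binary digit sum. -/
def ds : ℕ → ℕ → ℕ
  | 0, a => a
  | L + 1, a => a % 2 + ds L (a / 2)

lemma ds_le {L a : ℕ} (h : a < 2 ^ L) : ds L a ≤ L := by
  induction L generalizing a with
  | zero => simp at h; simp [ds, h]
  | succ L ih =>
    have := ih (a := a / 2) (by rw [pow_succ] at h; omega)
    simp only [ds]; omega

lemma sum_range_two_mul (f : ℕ → ℕ) (n : ℕ) :
    ∑ a ∈ Finset.range (2 * n), f a = ∑ a ∈ Finset.range n, (f (2 * a) + f (2 * a + 1)) := by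
  induction n with
  | zero => simp
  | succ n ih =>
    rw [show 2 * (n + 1) = 2 * n + 1 + 1 by ring, Finset.sum_range_succ, Finset.sum_range_succ, ih,
      Finset.sum_range_succ]
    ring

lemma sum_ds (L : ℕ) : 2 * ∑ a ∈ Finset.range (2 ^ L), ds L a = L * 2 ^ L := by
  induction L with
  | zero => simp [ds]
  | succ L ih =>
    rw [pow_succ', sum_range_two_mul]
    have : ∀ a, ds (L + 1) (2 * a) + ds (L + 1) (2 * a + 1) = 2 * ds L a + 1 := by
      intro a
      simp only [ds]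
      rw [show 2 * a / 2 = a by omega, show (2 * a + 1) / 2 = a by omega]
      omega
    simp only [this, Finset.sum_add_distrib, ← Finset.mul_sum, Finset.sum_const, Finset.card_range,
      smul_eq_mul, mul_one]
    rw [ih]; ring

lemma monic_phi [Nontrivial A] (c : A) : (X ^ 2 + C c : A[X]).Monic :=
  monic_X_pow_add_C c (by norm_num)

lemma bb_monic_natDegree [IsDomain A] (c : A) (L a : ℕ) :
    (bb c L a).Monic ∧ (bb c L a).natDegree = a := by
  induction L generalizing a with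
  | zero => exact ⟨monic_X_pow a, natDegree_X_pow a⟩
  | succ L ih =>
    have h1 : ((bb c L (a / 2)).comp (X ^ 2 + C c)).Monic :=
      (ih _).1.comp (monic_phi c) (by rw [natDegree_X_pow_add_C]; norm_num)
    refine ⟨(monic_X_pow _).mul h1, ?_⟩
    rw [bb, (monic_X_pow _).natDegree_mul h1, natDegree_X_pow, natDegree_comp, (ih _).2,
      natDegree_X_pow_add_C]
    omega

lemma map_bb {B : Type*} [CommRing B] (f : A →+* B) (c : A) (L a : ℕ) :
    (bb c L a).map f = bb (f c) L a := by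
  induction L generalizing a with
  | zero => simp [bb]
  | succ L ih => simp [bb, Polynomial.map_comp, ih]

lemma eval_bb_succ (c : A) (L a : ℕ) (x : A) :
    (bb c (L + 1) a).eval x = x ^ (a % 2) * (bb c L (a / 2)).eval (fq c x) := by
  simp [bb, eval_comp, fq]

/-- Linear independence of the basis. -/
lemma sum_bb_eq_zero [IsDomain A] (c : A) (L n : ℕ) (f : ℕ → A)
    (h : ∑ a ∈ Finset.range n, C (f a) * bb c L a = 0) : ∀ a < n, f a = 0 := by
  induction n with
  | zero => intro a ha; omega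
  | succ n ih =>
    rw [Finset.sum_range_succ] at h
    have h1 : f n = 0 := by
      have h2 := congrArg (fun p => p.coeff n) h
      simp only [coeff_add, finsetSum_coeff, coeff_C_mul, coeff_zero] at h2
      rw [Finset.sum_eq_zero, zero_add] at h2
      · have h3 := (bb_monic_natDegree c L n).1.coeff_natDegree
        rw [(bb_monic_natDegree c L n).2] at h3
        rwa [h3, mul_one] at h2
      · intro a ha
        rw [coeff_eq_zero_of_natDegree_lt, mul_zero]
        rw [(bb_monic_natDegree c L a).2]; simpa using ha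
    rw [h1, map_zero, zero_mul, add_zero] at h
    intro a ha
    rcases Nat.lt_succ_iff_lt_or_eq.1 ha with h' | rfl
    · exact ih h a h'
    · exact h1

lemma natDegree_sum_bb_lt [IsDomain A] (c : A) (L n : ℕ) (hn : n ≠ 0) (f : ℕ → A) :
    (∑ a ∈ Finset.range n, C (f a) * bb c L a).natDegree < n := by
  refine lt_of_le_of_lt (natDegree_sum_le_of_forall_le _ _ (n := n - 1) fun a ha => ?_) (by omega)
  refine (natDegree_C_mul_le _ _).trans ?_
  rw [(bb_monic_natDegree c L a).2]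
  have := Finset.mem_range.1 ha
  omega

/-- Even and odd part with respect to `X ^ 2 + c`. -/
lemma exists_even_odd [Nontrivial A] (c : A) (n : ℕ) (R : A[X]) (hR : R.degree < (2 * n : ℕ)) :
    ∃ R0 R1 : A[X], R0.degree < n ∧ R1.degree < n ∧
      R = R0.comp (X ^ 2 + C c) + X * R1.comp (X ^ 2 + C c) := by
  induction n generalizing R with
  | zero =>
    refine ⟨0, 0, by simp, by simp, ?_⟩
    simpa using hR
  | succ n ih =>
    have hm := monic_phi c
    have hd : (X ^ 2 + C c : A[X]).degree = 2 := degree_X_pow_add_C (by norm_num) c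
    obtain ⟨Q0, Q1, h0, h1, hQ⟩ := ih (R /ₘ (X ^ 2 + C c)) (by
      by_cases hz : R /ₘ (X ^ 2 + C c) = 0
      · rw [hz, degree_zero]; exact WithBot.bot_lt_coe _
      have hR0 : R ≠ 0 := by rintro rfl; simp at hz
      rw [← natDegree_lt_iff_degree_lt hz, natDegree_divByMonic _ hm, natDegree_X_pow_add_C]
      have h2 := (natDegree_lt_iff_degree_lt hR0).2 hR
      have h3 : ¬ R.degree < (X ^ 2 + C c : A[X]).degree := fun h =>
        hz ((divByMonic_eq_zero_iff hm).2 h)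
      rw [hd, not_lt] at h3
      have h4 : 2 ≤ R.natDegree := le_natDegree_of_coe_le_degree h3
      omega)
    have hr := degree_modByMonic_lt R hm
    rw [hd] at hr
    have hr' := eq_X_add_C_of_degree_le_one (p := R %ₘ (X ^ 2 + C c))
      (Order.le_of_lt_succ hr)
    have key : ∀ (Q : A[X]) (a : A), Q.degree < (n : ℕ) → (X * Q + C a).degree < ((n + 1 : ℕ) : WithBot ℕ) := by
      intro Q a hQ
      refine (degree_add_le _ _).trans_lt (max_lt ?_ (degree_C_le.trans_lt (by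
        exact_mod_cast Nat.succ_pos n)))
      rw [mul_comm, degree_mul_X]
      push_cast
      exact WithBot.add_lt_add_right (by simp) hQ
    refine ⟨X * Q0 + C ((R %ₘ (X ^ 2 + C c)).coeff 0), X * Q1 + C ((R %ₘ (X ^ 2 + C c)).coeff 1),
      key _ _ h0, key _ _ h1, ?_⟩
    conv_lhs => rw [← modByMonic_add_div R (X ^ 2 + C c), hr', hQ]
    simp only [add_comp, mul_comp, X_comp, C_comp]
    ring

end basis

variable {E : Type*} [Field E] {v : Valuation E ℝ≥0} {s : E}

lemma fq_eq (s z : E) : fq (-s ^ 2) z = (z - s) * (z + s) := by simp only [fq]; ring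

lemma val_of_lt {z : E} (h : v (fq (-s ^ 2) z) < v s ^ 2) : v z = v s := by
  have h1 : z ^ 2 = fq (-s ^ 2) z + s ^ 2 := by simp [fq]
  have h2 : v z ^ 2 = v s ^ 2 := by
    rw [← map_pow, h1, v.map_add_eq_of_lt_right (by rwa [map_pow]), map_pow]
  exact (pow_left_inj₀ zero_le zero_le (by norm_num)).1 h2

lemma lt_sq (hs : 1 < v s) : v s < v s ^ 2 := by
  have := pow_lt_pow_right₀ hs (show 1 < 2 by norm_num)
  simpa using this

lemma val_pre (hs : 1 < v s) {z : E} (h : v (fq (-s ^ 2) z) ≤ v s) : v z = v s :=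
  val_of_lt (h.trans_lt (lt_sq hs))

lemma val_iter_le (hs : 1 < v s) {n : ℕ} {z : E} (h : v ((fq (-s ^ 2))^[n] z) ≤ v s) :
    ∀ i ≤ n, v ((fq (-s ^ 2))^[i] z) ≤ v s := by
  induction n with
  | zero => intro i hi; rwa [Nat.le_zero.1 hi]
  | succ n ih =>
    intro i hi
    rcases hi.lt_or_eq with h' | rfl
    · rw [Function.iterate_succ_apply'] at h
      exact ih (val_pre hs h).le i (by omega)
    · exact h

lemma val_iter_eq (hs : 1 < v s) {n : ℕ} {z : E} (h : v ((fq (-s ^ 2))^[n] z) ≤ v s) {i : ℕ}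
    (hi : i < n) : v ((fq (-s ^ 2))^[i] z) = v s := by
  have := val_iter_le hs h (i + 1) hi
  rw [Function.iterate_succ_apply'] at this
  exact val_pre hs this

lemma val_le_of_iter (hs : 1 < v s) {n : ℕ} {z : E} (h : v ((fq (-s ^ 2))^[n] z) ≤ v s) :
    v z ≤ v s := val_iter_le hs h 0 (Nat.zero_le _)

lemma val_bb_le (hs : 1 < v s) (L a : ℕ) {z : E} (h : v ((fq (-s ^ 2))^[L] z) ≤ v s) :
    v ((bb (-s ^ 2) L a).eval z) ≤ v s ^ ds L a := by
  induction L generalizing a z with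
  | zero => simpa [bb, ds] using pow_le_pow_left₀ zero_le h a
  | succ L ih =>
    rw [eval_bb_succ, map_mul, map_pow, ds, pow_add]
    exact mul_le_mul' (pow_le_pow_left₀ zero_le (val_le_of_iter hs h) _) (ih _ h)

/-- Interpolation at the nodes of level `L`. -/
lemma interp [IsAlgClosed E] (hs : 1 < v s) (h2 : v 2 = 1) {p : E} (hp : v p ≤ v s) (L : ℕ)
    (R : E[X]) (hR : R.degree < (2 ^ L : ℕ)) {B : ℝ≥0}
    (hB : ∀ z, (fq (-s ^ 2))^[L] z = p → v (R.eval z) ≤ B) {w : E}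
    (hw : v ((fq (-s ^ 2))^[L] w) ≤ v s) : v (R.eval w) ≤ B := by
  induction L generalizing R B w with
  | zero =>
    have : R = C (R.coeff 0) := eq_C_of_degree_le_zero (Order.le_of_lt_succ hR)
    have h1 := hB p rfl
    rw [this] at h1 ⊢
    simpa using h1
  | succ L ih =>
    obtain ⟨R0, R1, h0, h1, hR'⟩ := exists_even_odd (-s ^ 2) (2 ^ L) R (by rwa [← pow_succ'])
    have hev : ∀ x, R.eval x = R0.eval (fq (-s ^ 2) x) + x * R1.eval (fq (-s ^ 2) x) := by
      intro x; rw [hR']; simp [eval_comp, fq]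
    have hs0 : 0 < v s := zero_lt_one.trans hs
    have key : ∀ z', (fq (-s ^ 2))^[L] z' = p → v (R0.eval z') ≤ B ∧ v (R1.eval z') ≤ B / v s := by
      intro z' hz'
      obtain ⟨z, rfl⟩ := exists_child (-s ^ 2) z'
      have e1 := hB z hz'
      have hn : fq (-s ^ 2) (-z) = fq (-s ^ 2) z := by simp [fq]
      have e2 := hB (-z) (by rw [Function.iterate_succ_apply, hn]; exact hz')
      rw [hev] at e1 e2
      rw [hn] at e2
      have hz : v z = v s := val_iter_eq hs (n := L + 1) (i := 0) (by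
        rw [Function.iterate_succ_apply, hz']; exact hp) (by omega)
      constructor
      · have := v.map_add_le e1 e2
        rwa [show R0.eval (fq (-s ^ 2) z) + z * R1.eval (fq (-s ^ 2) z) +
          (R0.eval (fq (-s ^ 2) z) + -z * R1.eval (fq (-s ^ 2) z)) =
            2 * R0.eval (fq (-s ^ 2) z) by ring, map_mul, h2, one_mul] at this
      · have := v.map_sub_le e1 e2
        rw [show R0.eval (fq (-s ^ 2) z) + z * R1.eval (fq (-s ^ 2) z) -
          (R0.eval (fq (-s ^ 2) z) + -z * R1.eval (fq (-s ^ 2) z)) =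
            2 * (z * R1.eval (fq (-s ^ 2) z)) by ring, map_mul, h2, one_mul, map_mul, hz] at this
        rwa [le_div_iff₀ hs0, mul_comm]
    rw [hev]
    refine v.map_add_le (ih R0 h0 (fun z hz => (key z hz).1) hw) ?_
    have := ih R1 h1 (fun z hz => (key z hz).2) hw
    rw [map_mul]
    rw [le_div_iff₀ hs0, mul_comm] at this
    exact (mul_le_mul' (val_le_of_iter hs hw) le_rfl).trans this

/-- The point `s` or `-s`. -/
def sv (s : E) (b : Bool) : E := if b then s else -s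

open Classical in
/-- The sign of a point close to `s` or `-s`. -/
noncomputable def sg (v : Valuation E ℝ≥0) (s z : E) : Bool := decide (v (z - s) < v s)

lemma val_sv (b : Bool) : v (sv s b) = v s := by cases b <;> simp [sv]

lemma sv_sq (b : Bool) : sv s b ^ 2 = s ^ 2 := by cases b <;> simp [sv]

lemma sv_not (b : Bool) : sv s (!b) = -sv s b := by cases b <;> simp [sv]

lemma val_add_of_sub (h2 : v 2 = 1) {z t : E} (h : v (z - t) < v t) : v (z + t) = v t := by
  rw [show z + t = (z - t) + 2 * t by ring, v.map_add_eq_of_lt_right (by rwa [map_mul, h2, one_mul]),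
    map_mul, h2, one_mul]

lemma sg_eq (h2 : v 2 = 1) {z : E} {b : Bool} (h : v (z - sv s b) < v s) : sg v s z = b := by
  cases b
  · have := val_add_of_sub h2 (z := z) (t := -s) (by simpa [sv] using h)
    simp only [sg, decide_eq_false_iff_not, not_lt]
    rw [sub_eq_add_neg, this, v.map_neg]
  · simpa [sg, sv] using h

lemma val_sub_sv (hs : 1 < v s) (h2 : v 2 = 1) {z : E} (h : v (fq (-s ^ 2) z) ≤ v s) :
    v (z - sv s (sg v s z)) ≤ 1 := by
  have hs0 : 0 < v s := zero_lt_one.trans hs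
  rw [fq_eq, map_mul] at h
  by_cases h1 : v (z - s) < v s
  · rw [val_add_of_sub h2 h1] at h
    have : sg v s z = true := by simpa [sg] using h1
    rw [this]
    exact (mul_le_iff_le_one_left hs0).1 h
  · have : sg v s z = false := by simpa [sg] using h1
    rw [this]
    simp only [sv, Bool.false_eq_true, ↓reduceIte, sub_neg_eq_add]
    exact (mul_le_iff_le_one_right hs0).1 ((mul_le_mul' (not_lt.1 h1) le_rfl).trans h)

/-- The itinerary of length `j`. -/
noncomputable def pat (v : Valuation E ℝ≥0) (s : E) (j : ℕ) (x : E) : Fin j → Bool :=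
  fun i => sg v s ((fq (-s ^ 2))^[i] x)

lemma tail_pat (j : ℕ) (x : E) : Fin.tail (pat v s (j + 1) x) = pat v s j (fq (-s ^ 2) x) := rfl

lemma pat_zero (j : ℕ) (x : E) : pat v s (j + 1) x 0 = sg v s x := rfl

lemma exists_pat [IsAlgClosed E] (hs : 1 < v s) (h2 : v 2 = 1) (j : ℕ) (ε : Fin j → Bool) {w : E}
    (hw : v w ≤ v s) : ∃ x, (fq (-s ^ 2))^[j] x = w ∧ pat v s j x = ε := by
  induction j with
  | zero => exact ⟨w, rfl, Subsingleton.elim _ _⟩
  | succ j ih =>
    obtain ⟨x', h1, h3⟩ := ih (Fin.tail ε)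
    have hx' : v x' ≤ v s := val_le_of_iter hs (h1 ▸ hw)
    obtain ⟨x, hx, hx0⟩ : ∃ x, fq (-s ^ 2) x = x' ∧ sg v s x = ε 0 := by
      obtain ⟨x, hx⟩ := exists_child (-s ^ 2) x'
      by_cases he : sg v s x = ε 0
      · exact ⟨x, hx, he⟩
      · refine ⟨-x, by simpa [fq] using hx, sg_eq h2 ?_⟩
        have h4 := val_sub_sv hs h2 (z := x) (hx ▸ hx')
        have h5 : ε 0 = !sg v s x := by cases h6 : ε 0 <;> simp_all
        rw [h5, sv_not, ← v.map_neg]
        exact lt_of_le_of_lt (by convert h4 using 2; ring) hs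
    refine ⟨x, by rw [Function.iterate_succ_apply, hx, h1], ?_⟩
    funext i
    refine Fin.cases hx0 (fun i => ?_) i
    have := congrFun (tail_pat (v := v) (s := s) j x) i
    rw [hx, h3] at this
    exact this

end Pool.Agent.Work.MP_969914_nt.H70
end

-- merged part: Pool.Agent.Work.MP_969914_nt.H70Siegel
section
/-! Uniform closures and a Siegel lemma at the infinite place. -/

set_option autoImplicit false

open Polynomial
open scoped NNReal

namespace Pool.Agent.Work.MP_969914_nt.H70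

variable {E : Type*} [Field E] {v : Valuation E ℝ≥0} {s : E}

section cl
variable {ι : Type*}

/-- Bounded uniform limits of elements of `R`. -/
def cl (v : Valuation E ℝ≥0) (R : Subring (ι → E)) : Subring (ι → E) where
  carrier := {f | (∃ B : ℝ≥0, ∀ i, v (f i) ≤ B) ∧
    ∀ ε : ℝ≥0, 0 < ε → ∃ g ∈ R, ∀ i, v (f i - g i) ≤ ε}
  zero_mem' := ⟨⟨0, by simp⟩, fun ε _ => ⟨0, R.zero_mem, by simp⟩⟩
  one_mem' := ⟨⟨1, by simp⟩, fun ε _ => ⟨1, R.one_mem, by simp⟩⟩
  add_mem' := by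
    rintro f f' ⟨⟨B, hB⟩, h⟩ ⟨⟨B', hB'⟩, h'⟩
    refine ⟨⟨max B B', fun i => v.map_add_le ((hB i).trans (le_max_left _ _))
      ((hB' i).trans (le_max_right _ _))⟩, fun ε hε => ?_⟩
    obtain ⟨g, hg, h1⟩ := h ε hε
    obtain ⟨g', hg', h1'⟩ := h' ε hε
    refine ⟨g + g', R.add_mem hg hg', fun i => ?_⟩
    have := v.map_add_le (h1 i) (h1' i)
    convert this using 2
    simp only [Pi.add_apply]; ring
  neg_mem' := by
    rintro f ⟨⟨B, hB⟩, h⟩
    refine ⟨⟨B, fun i => by simpa using hB i⟩, fun ε hε => ?_⟩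
    obtain ⟨g, hg, h1⟩ := h ε hε
    refine ⟨-g, R.neg_mem hg, fun i => ?_⟩
    rw [← v.map_neg]
    convert h1 i using 2
    simp only [Pi.neg_apply]; ring
  mul_mem' := by
    rintro f f' ⟨⟨B, hB⟩, h⟩ ⟨⟨B', hB'⟩, h'⟩
    refine ⟨⟨B * B', fun i => by
      rw [Pi.mul_apply, map_mul]; exact mul_le_mul' (hB i) (hB' i)⟩, fun ε hε => ?_⟩
    have hp : 0 < B + B' + 1 := by positivity
    have hδ : 0 < min 1 (ε / (B + B' + 1)) := lt_min one_pos (div_pos hε hp)
    obtain ⟨g, hg, h1⟩ := h _ hδ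
    obtain ⟨g', hg', h1'⟩ := h' _ hδ
    refine ⟨g * g', R.mul_mem hg hg', fun i => ?_⟩
    have key : ∀ x y : E, v x ≤ B + B' + 1 → v y ≤ min 1 (ε / (B + B' + 1)) → v (x * y) ≤ ε := by
      intro x y hx hy
      rw [map_mul]
      refine (mul_le_mul' hx (hy.trans (min_le_right _ _))).trans_eq ?_
      field_simp
    have e : (f * f') i - (g * g') i = f i * (f' i - g' i) + g' i * (f i - g i) := by
      simp only [Pi.mul_apply]; ring
    rw [e]
    refine v.map_add_le (key _ _ ((hB i).trans ?_) (h1' i)) (key _ _ ?_ (h1 i))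
    · rw [add_assoc]; exact le_self_add
    · have : g' i = f' i - (f' i - g' i) := by ring
      rw [this]
      refine v.map_sub_le ((hB' i).trans ?_) (((h1' i).trans (min_le_left _ _)).trans le_add_self)
      exact le_add_self.trans le_self_add

lemma mem_cl {R : Subring (ι → E)} {f : ι → E} (hf : f ∈ R) {B : ℝ≥0} (hB : ∀ i, v (f i) ≤ B) :
    f ∈ cl v R := ⟨⟨B, hB⟩, fun _ _ => ⟨f, hf, by simp⟩⟩

lemma mem_cl_of_lim {R : Subring (ι → E)} {f : ι → E}
    (h : ∀ ε : ℝ≥0, 0 < ε → ∃ g ∈ cl v R, ∀ i, v (f i - g i) ≤ ε) : f ∈ cl v R := by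
  constructor
  · obtain ⟨g, ⟨⟨B, hB⟩, -⟩, h1⟩ := h 1 one_pos
    refine ⟨max 1 B, fun i => ?_⟩
    rw [show f i = (f i - g i) + g i by ring]
    exact v.map_add_le ((h1 i).trans (le_max_left _ _)) ((hB i).trans (le_max_right _ _))
  · intro ε hε
    obtain ⟨g, ⟨-, hg⟩, h1⟩ := h ε hε
    obtain ⟨g', hg', h2⟩ := hg ε hε
    refine ⟨g', hg', fun i => ?_⟩
    rw [show f i - g' i = (f i - g i) + (g i - g' i) by ring]
    exact v.map_add_le (h1 i) (h2 i)

lemma sqrt_mem_cl (h2 : v 2 = 1) {R : Subring (ι → E)} (hh : (fun _ => (2 : E)⁻¹) ∈ cl v R)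
    {u h : ι → E} (hu : u ∈ cl v R) {ρ : ℝ≥0} (hρ : ρ < 1) (hu' : ∀ i, v (u i) ≤ ρ)
    (he : ∀ i, (1 + h i) ^ 2 = 1 + u i) (hh' : ∀ i, v (h i) < 1) : h ∈ cl v R := by
  have h20 : (2 : E) ≠ 0 := by rintro h; simp [h] at h2
  have hv : ∀ i, v (h i) ≤ ρ := by
    intro i
    have e : u i = h i * (2 + h i) := by linear_combination -he i
    have := hu' i
    rwa [e, map_mul, v.map_add_eq_of_lt_left (by rw [h2]; exact hh' i), h2, mul_one] at this
  have key : ∀ n : ℕ, ∃ g ∈ cl v R, ∀ i, v (g i) ≤ ρ ∧ v (h i - g i) ≤ ρ ^ n := by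
    intro n
    induction n with
    | zero => exact ⟨0, zero_mem _, fun i => ⟨by simp, by simpa using (hh' i).le⟩⟩
    | succ n ih =>
      obtain ⟨g, hg, h1⟩ := ih
      refine ⟨(u - g ^ 2) * fun _ => (2 : E)⁻¹, mul_mem (sub_mem hu (pow_mem hg 2)) hh,
        fun i => ⟨?_, ?_⟩⟩
      · simp only [Pi.mul_apply, Pi.sub_apply, Pi.pow_apply, map_mul, map_inv₀, h2, inv_one,
          mul_one]
        refine v.map_sub_le (hu' i) ?_
        rw [map_pow, sq]
        exact (mul_le_mul' (h1 i).1 ((h1 i).1.trans hρ.le)).trans_eq (mul_one _)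
      · have e : h i - (u i - g i ^ 2) * (2 : E)⁻¹ = -((h i - g i) * (h i + g i) * 2⁻¹) := by
          field_simp
          linear_combination he i
        simp only [Pi.mul_apply, Pi.sub_apply, Pi.pow_apply]
        rw [e, v.map_neg, map_mul, map_mul, map_inv₀, h2, inv_one, mul_one, pow_succ]
        exact mul_le_mul' (h1 i).2 (v.map_add_le (hv i) (h1 i).1)
  refine mem_cl_of_lim fun ε hε => ?_
  obtain ⟨n, hn⟩ := exists_pow_lt_of_lt_one hε hρ
  obtain ⟨g, hg, h1⟩ := key n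
  exact ⟨g, hg, fun i => (h1 i).2.trans hn.le⟩

lemma branch_mem_cl (hs : 1 < v s) (h2 : v 2 = 1) {R : Subring (ι → E)}
    (hh : (fun _ => (2 : E)⁻¹) ∈ cl v R) (hs' : (fun _ => s⁻¹) ∈ cl v R) {Z : ι → E} {b : Bool}
    (hZ : (fun i => fq (-s ^ 2) (Z i) / s) ∈ cl v R) (hv : ∀ i, v (fq (-s ^ 2) (Z i)) ≤ v s)
    (hb : ∀ i, sg v s (Z i) = b) : (fun i => Z i / s) ∈ cl v R := by
  have hs0 : 0 < v s := zero_lt_one.trans hs
  have hsn : s ≠ 0 := v.pos_iff.1 hs0
  have hb0 : sv s b ≠ 0 := v.pos_iff.1 (by rwa [val_sv])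
  have h1 : (fun i => Z i / sv s b - 1) ∈ cl v R := by
    refine sqrt_mem_cl h2 hh (mul_mem hZ hs') (ρ := (v s)⁻¹) (inv_lt_one_of_one_lt₀ hs)
      (fun i => ?_) (fun i => ?_) (fun i => ?_)
    · simp only [Pi.mul_apply, map_mul, map_div₀, map_inv₀]
      exact (mul_le_mul' ((div_le_one hs0).2 (hv i)) le_rfl).trans_eq (one_mul _)
    · simp only [Pi.mul_apply, fq, add_sub_cancel, div_pow, sv_sq]
      field_simp
      ring
    · rw [show Z i / sv s b - 1 = (Z i - sv s b) / sv s b by field_simp, map_div₀, val_sv,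
        div_lt_one hs0, ← hb i]
      exact (val_sub_sv hs h2 (hv i)).trans_lt hs
  have h3 := add_mem h1 (one_mem _)
  cases b
  · convert neg_mem h3 using 1
    funext i
    simp [sv, div_neg]
  · convert h3 using 1
    funext i
    simp [sv]

end cl

variable {k : Type*} [Field k] [Algebra k[X] E]

/-- Laurent polynomials in the parameter. -/
def lau (k E : Type*) [Field k] [Field E] [Algebra k[X] E] : Subring E where
  carrier := {x | ∃ (N : ℕ) (q : k[X]), x * algebraMap k[X] E X ^ N = algebraMap k[X] E q}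
  zero_mem' := ⟨0, 0, by simp⟩
  one_mem' := ⟨0, 1, by simp⟩
  add_mem' := by
    rintro x y ⟨N, q, h⟩ ⟨N', q', h'⟩
    refine ⟨N + N', q * X ^ N' + q' * X ^ N, ?_⟩
    simp only [map_add, map_mul, map_pow, ← h, ← h']; ring
  neg_mem' := by
    rintro x ⟨N, q, h⟩
    exact ⟨N, -q, by simp [← h]⟩
  mul_mem' := by
    rintro x y ⟨N, q, h⟩ ⟨N', q', h'⟩
    refine ⟨N + N', q * q', ?_⟩
    simp only [map_mul, ← h, ← h']; ring

/-- The closure of the Laurent polynomials. -/
noncomputable def Lam (k : Type*) [Field k] [Algebra k[X] E] (v : Valuation E ℝ≥0) : Subring E :=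
  (cl v ((lau k E).comap (Pi.evalRingHom (fun _ : Unit => E) ()))).comap (Pi.constRingHom Unit E)

lemma mem_Lam_of_lau {x : E} (h : x ∈ lau k E) : x ∈ Lam k v :=
  mem_cl (B := v x) h fun _ => le_rfl

lemma algebraMap_mem_Lam (q : k[X]) : algebraMap k[X] E q ∈ Lam k v :=
  mem_Lam_of_lau ⟨0, q, by simp⟩

/-- `v` lies above the infinite place. -/
structure AtInf (k : Type*) [Field k] [Algebra k[X] E] (v : Valuation E ℝ≥0) : Prop where
  hk : ∀ r : k, v (algebraMap k[X] E (C r)) ≤ 1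
  ht : 1 < v (algebraMap k[X] E X)
  two : (2 : k) ≠ 0

namespace AtInf
variable (h : AtInf k v)
include h

lemma v2 : v 2 = 1 := by
  have := val_C h.hk h.two
  rwa [C_ofNat, map_ofNat] at this

lemma pos : 0 < v (algebraMap k[X] E X) := zero_lt_one.trans h.ht

lemma ne : algebraMap k[X] E X ≠ 0 := v.pos_iff.1 h.pos

lemma two_ne : (2 : E) ≠ 0 := v.pos_iff.1 (by rw [h.v2]; exact one_pos)

lemma half : algebraMap k[X] E (C 2⁻¹) = 2⁻¹ := by
  refine eq_inv_of_mul_eq_one_left ?_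
  rw [← map_ofNat (algebraMap k[X] E) 2, ← map_mul, ← C_ofNat, ← map_mul, inv_mul_cancel₀ h.two,
    map_one, map_one]

lemma val_eq {q : k[X]} (hq : q ≠ 0) :
    v (algebraMap k[X] E q) = v (algebraMap k[X] E X) ^ q.natDegree := val_inf h.hk h.ht hq

lemma one_le {q : k[X]} (hq : q ≠ 0) : 1 ≤ v (algebraMap k[X] E q) := by
  rw [h.val_eq hq]; exact one_le_pow₀ h.ht.le

lemma injective : Function.Injective (algebraMap k[X] E) := by
  rw [injective_iff_map_eq_zero]
  intro q hq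
  by_contra h0
  have := h.one_le h0
  simp [hq] at this

lemma val_le_of_degree_lt {q : k[X]} {m : ℕ} (hq : q.degree < m) :
    v (algebraMap k[X] E q) ≤ v (algebraMap k[X] E X) ^ ((m : ℤ) - 1) := by
  by_cases h0 : q = 0
  · simp [h0]
  rw [h.val_eq h0, ← zpow_natCast]
  have := (natDegree_lt_iff_degree_lt h0).2 hq
  exact zpow_le_zpow_right₀ h.ht.le (by omega)

lemma inv_mem_Lam : (algebraMap k[X] E X)⁻¹ ∈ Lam k v :=
  mem_Lam_of_lau ⟨1, 1, by simp [h.ne]⟩

lemma pre_mem_Lam {z : E} (hz : fq (-algebraMap k[X] E X ^ 2) z ∈ Lam k v)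
    (hv : v (fq (-algebraMap k[X] E X ^ 2) z) ≤ v (algebraMap k[X] E X)) : z ∈ Lam k v := by
  have h1 : z / algebraMap k[X] E X ∈ Lam k v := by
    refine branch_mem_cl (Z := fun _ => z) (b := sg v (algebraMap k[X] E X) z) h.ht h.v2 ?_
      h.inv_mem_Lam ?_ (fun _ => hv) (fun _ => rfl)
    · rw [← h.half]; exact algebraMap_mem_Lam _
    · exact (div_eq_mul_inv (fq (-algebraMap k[X] E X ^ 2) z) _) ▸ mul_mem hz h.inv_mem_Lam
  have := mul_mem h1 (algebraMap_mem_Lam (v := v) (X : k[X]))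
  rwa [div_mul_cancel₀ _ h.ne] at this

lemma iter_mem_Lam {n : ℕ} {z : E} (hz : (fq (-algebraMap k[X] E X ^ 2))^[n] z ∈ Lam k v)
    (hv : v ((fq (-algebraMap k[X] E X ^ 2))^[n] z) ≤ v (algebraMap k[X] E X)) : z ∈ Lam k v := by
  induction n generalizing z with
  | zero => exact hz
  | succ n ih => exact h.pre_mem_Lam (ih hz hv) (val_le_of_iter h.ht (n := n) hv)

lemma digit {x : E} (hx : x ∈ Lam k v) {n : ℤ} (hn : v x ≤ v (algebraMap k[X] E X) ^ n) :
    ∃ a : k, v (x - algebraMap k[X] E (C a) * algebraMap k[X] E X ^ n) ≤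
      v (algebraMap k[X] E X) ^ (n - 1) := by
  set t := algebraMap k[X] E X with ht
  have hp := h.pos
  have hmono : v t ^ (n - 1) ≤ v t ^ n := zpow_le_zpow_right₀ h.ht.le (by omega)
  obtain ⟨g, ⟨N, q, hq⟩, hg⟩ := hx.2 (v t ^ (n - 1)) (zpow_pos hp _)
  replace hg : v (x - g ()) ≤ v t ^ (n - 1) := hg ()
  change g () * t ^ N = _ at hq
  have hg' : v (g ()) ≤ v t ^ n := by
    rw [show g () = x - (x - g ()) by ring]; exact v.map_sub_le hn (hg.trans hmono)
  by_cases h0 : q = 0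
  · have : g () = 0 := by
      rw [h0, map_zero] at hq
      exact (mul_eq_zero.1 hq).resolve_right (pow_ne_zero _ h.ne)
    exact ⟨0, by simpa [this] using hg⟩
  have hd : (q.natDegree : ℤ) ≤ n + N := by
    have e := congrArg v hq
    rw [h.val_eq h0, map_mul, map_pow] at e
    rw [← zpow_le_zpow_iff_right₀ h.ht, zpow_natCast, ← e, zpow_add₀ hp.ne', zpow_natCast]
    exact mul_le_mul' hg' le_rfl
  obtain ⟨m, hm⟩ : ∃ m : ℕ, (m : ℤ) = n + N := ⟨(n + N).toNat, by omega⟩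
  refine ⟨q.coeff m, ?_⟩
  have h3 : (q - C (q.coeff m) * X ^ m).degree < (m : WithBot ℕ) := by
    rw [degree_lt_iff_coeff_zero]
    intro j hj
    rw [coeff_sub, coeff_C_mul, coeff_X_pow]
    split_ifs with h4
    · simp [h4]
    · rw [coeff_eq_zero_of_natDegree_lt (by omega)]; simp
  have h4 := h.val_le_of_degree_lt h3
  have e : x - algebraMap k[X] E (C (q.coeff m)) * t ^ n = (x - g ()) +
      algebraMap k[X] E (q - C (q.coeff m) * X ^ m) * t ^ (-N : ℤ) := by
    rw [map_sub, map_mul, map_pow, ← hq, ← ht, show n = m + (-N : ℤ) by omega, zpow_add₀ h.ne,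
      zpow_neg, zpow_natCast, zpow_natCast]
    have := pow_ne_zero N h.ne
    field_simp
    ring
  rw [e]
  refine v.map_add_le hg ?_
  rw [map_mul, map_zpow₀]
  refine (mul_le_mul' h4 le_rfl).trans_eq ?_
  rw [← zpow_add₀ hp.ne']
  congr 1; omega

section siegel
variable {U : Type*} [AddCommGroup U] [Module k U] [FiniteDimensional k U]

lemma step (T : U →+ E) (hT : ∀ a u, T (a • u) = algebraMap k[X] E (C a) * T u)
    (hL : ∀ u, T u ∈ Lam k v) (W : Submodule k U) {n : ℤ}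
    (hW : ∀ u ∈ W, v (T u) ≤ v (algebraMap k[X] E X) ^ n) :
    ∃ W' : Submodule k U, W' ≤ W ∧ Module.finrank k W ≤ Module.finrank k W' + 1 ∧
      ∀ u ∈ W', v (T u) ≤ v (algebraMap k[X] E X) ^ (n - 1) := by
  set t := algebraMap k[X] E X with ht
  let W' : Submodule k U :=
    { carrier := {u | u ∈ W ∧ v (T u) ≤ v t ^ (n - 1)}
      zero_mem' := ⟨W.zero_mem, by simp⟩
      add_mem' := fun ha hb => ⟨W.add_mem ha.1 hb.1, by
        rw [map_add]; exact v.map_add_le ha.2 hb.2⟩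
      smul_mem' := fun a u hu => ⟨W.smul_mem a hu.1, by
        rw [hT, map_mul]; exact (mul_le_mul' (h.hk a) hu.2).trans_eq (one_mul _)⟩ }
  refine ⟨W', fun u hu => hu.1, ?_, fun u hu => hu.2⟩
  by_cases hle : W ≤ W'
  · exact (Submodule.finrank_mono hle).trans (Nat.le_succ _)
  obtain ⟨u0, hu0, hu0'⟩ := SetLike.not_le_iff_exists.1 hle
  obtain ⟨a0, ha0⟩ := h.digit (hL u0) (hW u0 hu0)
  have hne : a0 ≠ 0 := by
    rintro rfl
    exact hu0' ⟨hu0, by simpa using ha0⟩
  have h1 : W ≤ W' ⊔ Submodule.span k {u0} := by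
    intro u hu
    obtain ⟨a, ha⟩ := h.digit (hL u) (hW u hu)
    rw [show u = (u - (a / a0) • u0) + (a / a0) • u0 by abel]
    refine Submodule.add_mem_sup ⟨W.sub_mem hu (W.smul_mem _ hu0), ?_⟩
      (Submodule.smul_mem _ _ (Submodule.mem_span_singleton_self _))
    have e : T (u - (a / a0) • u0) = (T u - algebraMap k[X] E (C a) * t ^ n) -
        algebraMap k[X] E (C (a / a0)) * (T u0 - algebraMap k[X] E (C a0) * t ^ n) := by
      rw [map_sub, hT, mul_sub, ← mul_assoc, ← map_mul, ← map_mul, div_mul_cancel₀ _ hne]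
      ring
    rw [e]
    refine v.map_sub_le ha ?_
    rw [map_mul]; exact (mul_le_mul' (h.hk _) ha0).trans_eq (one_mul _)
  refine (Submodule.finrank_mono h1).trans ((Submodule.finrank_add_le_finrank_add_finrank _ _).trans
    (Nat.add_le_add_left ?_ _))
  exact (finrank_span_le_card _).trans (by simp)

lemma steps (T : U →+ E) (hT : ∀ a u, T (a • u) = algebraMap k[X] E (C a) * T u)
    (hL : ∀ u, T u ∈ Lam k v) (W : Submodule k U) {n : ℤ}
    (hW : ∀ u ∈ W, v (T u) ≤ v (algebraMap k[X] E X) ^ n) (m : ℕ) :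
    ∃ W' : Submodule k U, W' ≤ W ∧ Module.finrank k W ≤ Module.finrank k W' + m ∧
      ∀ u ∈ W', v (T u) ≤ v (algebraMap k[X] E X) ^ (n - m) := by
  induction m with
  | zero => exact ⟨W, le_rfl, le_rfl, by simpa using hW⟩
  | succ m ih =>
    obtain ⟨W1, h1, h2, h3⟩ := ih
    obtain ⟨W2, h4, h5, h6⟩ := h.step T hT hL W1 h3
    exact ⟨W2, h4.trans h1, by omega, by simpa [sub_sub] using h6⟩

end siegel

/-- Siegel's lemma at the infinite place. -/
theorem siegel {ι I : Type*} (J : Finset ι) (O : Finset I) (n : ι → ℕ) (α : I → ι → E)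
    (A : I → ℤ) (m : I → ℕ) (hα : ∀ i ∈ O, ∀ j ∈ J, α i j ∈ Lam k v)
    (hb : ∀ i ∈ O, ∀ j ∈ J, v (α i j) ≤ v (algebraMap k[X] E X) ^ (A i + 1 - n j))
    (hc : ∑ i ∈ O, m i < ∑ j ∈ J, n j) :
    ∃ f : ι → k[X], (∃ j ∈ J, f j ≠ 0) ∧ (∀ j ∈ J, (f j).degree < n j) ∧
      ∀ i ∈ O, v (∑ j ∈ J, algebraMap k[X] E (f j) * α i j) ≤
        v (algebraMap k[X] E X) ^ (A i - m i) := by
  classical
  let U := (j : J) → degreeLT k (n j)
  have hfd : ∀ j : J, FiniteDimensional k (degreeLT k (n j)) := fun j =>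
    (degreeLTEquiv k (n j)).symm.finiteDimensional
  have hU : Module.finrank k U = ∑ j ∈ J, n j := by
    rw [Module.finrank_pi_fintype, ← Finset.sum_coe_sort J]
    exact Finset.sum_congr rfl fun j _ => by
      rw [(degreeLTEquiv k (n j)).finrank_eq, Module.finrank_fin_fun]
  let T : I → U →+ E := fun i =>
    { toFun := fun u => ∑ j : J, algebraMap k[X] E (u j) * α i j
      map_zero' := by simp [U]
      map_add' := fun u u' => by
        simp only [U, Pi.add_apply, Submodule.coe_add, map_add, add_mul, Finset.sum_add_distrib] }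
  have key : ∀ O' ⊆ O, ∃ W : Submodule k U, Module.finrank k U ≤ Module.finrank k W +
      ∑ i ∈ O', m i ∧ ∀ u ∈ W, ∀ i ∈ O', v (T i u) ≤ v (algebraMap k[X] E X) ^ (A i - m i) := by
    intro O'
    induction O' using Finset.induction_on with
    | empty => exact fun _ => ⟨⊤, by simp, by simp⟩
    | insert i O' hi ih =>
      intro hO
      have hiO : i ∈ O := hO (Finset.mem_insert_self _ _)
      obtain ⟨W, h1, h2⟩ := ih ((Finset.subset_insert _ _).trans hO)
      obtain ⟨W', h3, h4, h5⟩ := h.steps (T i) (fun a u => by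
          simp only [T, U, AddMonoidHom.coe_mk, ZeroHom.coe_mk, Pi.smul_apply, Submodule.coe_smul,
            Finset.mul_sum, ← C_mul', map_mul, mul_assoc])
        (fun u => sum_mem fun j _ => mul_mem (algebraMap_mem_Lam _) (hα i hiO j j.2)) W
        (n := A i) (fun u _ => v.map_sum_le fun j _ => by
          rw [map_mul]
          refine (mul_le_mul' (h.val_le_of_degree_lt (mem_degreeLT.1 (u j).2))
            (hb i hiO j j.2)).trans_eq ?_
          rw [← zpow_add₀ h.pos.ne']; congr 1; ring) (m i)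
      refine ⟨W', by rw [Finset.sum_insert hi]; omega, fun u hu i' hi' => ?_⟩
      rcases Finset.mem_insert.1 hi' with rfl | hi'
      · exact h5 u hu
      · exact h2 u (h3 hu) i' hi'
  obtain ⟨W, h1, h2⟩ := key O subset_rfl
  have hpos : 0 < Module.finrank k W := by omega
  obtain ⟨u, hu, hu0⟩ := Submodule.exists_mem_ne_zero_of_ne_bot (p := W) (by
    rintro rfl; simp at hpos)
  refine ⟨fun j => if hj : j ∈ J then (u ⟨j, hj⟩ : k[X]) else 0, ?_, ?_, fun i hi => ?_⟩
  · obtain ⟨j, hj⟩ := Function.ne_iff.1 hu0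
    exact ⟨j, j.2, by simpa [U] using hj⟩
  · intro j hj
    simpa [hj] using mem_degreeLT.1 (u ⟨j, hj⟩).2
  · convert h2 u hu i hi using 2
    rw [← Finset.sum_coe_sort J]
    exact Finset.sum_congr rfl fun j _ => by simp

end AtInf

end Pool.Agent.Work.MP_969914_nt.H70
end

-- merged part: Pool.Agent.Work.MP_969914_nt.H70Aux
section
/-! An auxiliary polynomial that is small along orbits of the tangent map. -/

set_option autoImplicit false

open Polynomial
open scoped NNReal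

namespace Pool.Agent.Work.MP_969914_nt.H70

variable {E : Type*} [Field E] {v : Valuation E ℝ≥0} {s : E}

/-- The derivative of the iterate in the variable. -/
noncomputable def Ep (c : E) : ℕ → E[X]
  | 0 => 1
  | l + 1 => 2 * Gs X c l * Ep c l

/-- The derivative of the iterate in the parameter. -/
noncomputable def Wp (c e : E) : ℕ → E[X]
  | 0 => 0
  | l + 1 => 2 * Gs X c l * Wp c e l + C e

lemma eval_Ep (c : E) (l : ℕ) (z : E) :
    (Ep c (l + 1)).eval z = 2 * (fq c)^[l] z * (Ep c l).eval z := by simp [Ep, eval_Gs]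

lemma eval_Wp (c e : E) (l : ℕ) (z : E) :
    (Wp c e (l + 1)).eval z = 2 * (fq c)^[l] z * (Wp c e l).eval z + e := by simp [Wp, eval_Gs]

lemma natDegree_Ep (c : E) (l : ℕ) : (Ep c l).natDegree + 1 ≤ 2 ^ l := by
  induction l with
  | zero => simp [Ep]
  | succ l ih =>
    have h := natDegree_Gs X c l
    rw [natDegree_X, one_mul] at h
    have : (Ep c (l + 1)).natDegree ≤ (Gs X c l).natDegree + (Ep c l).natDegree := by
      rw [Ep]; generalize Gs X c l = G; generalize Ep c l = G'; compute_degree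
    rw [pow_succ]; omega

lemma natDegree_Wp (c e : E) (l : ℕ) : (Wp c e l).natDegree + 1 ≤ 2 ^ l := by
  induction l with
  | zero => simp [Wp]
  | succ l ih =>
    have h := natDegree_Gs X c l
    rw [natDegree_X, one_mul] at h
    have : (Wp c e (l + 1)).natDegree ≤ (Gs X c l).natDegree + (Wp c e l).natDegree := by
      rw [Wp]; generalize Gs X c l = G; generalize Wp c e l = G'; compute_degree
    rw [pow_succ]; omega

lemma iter_eq {c : E} {x : ℕ → E} (hx : ∀ r, x (r + 1) = fq c (x r)) (r : ℕ) :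
    x r = (fq c)^[r] (x 0) := by
  induction r with
  | zero => rfl
  | succ r ih => rw [hx, ih, Function.iterate_succ_apply']

lemma tangent_eq {c e : E} {x u : ℕ → E} (hx : ∀ r, x (r + 1) = fq c (x r))
    (hu : ∀ r, u (r + 1) = 2 * x r * u r + e) (l : ℕ) :
    u l = (Ep c l).eval (x 0) * u 0 + (Wp c e l).eval (x 0) := by
  induction l with
  | zero => simp [Ep, Wp]
  | succ l ih => rw [hu, ih, eval_Ep, eval_Wp, ← iter_eq hx]; ring

lemma val_Ep (hs : 1 < v s) (h2 : v 2 = 1) {l : ℕ} {z : E} (h : v ((fq (-s ^ 2))^[l] z) ≤ v s) :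
    v ((Ep (-s ^ 2) l).eval z) = v s ^ l := by
  induction l with
  | zero => simp [Ep]
  | succ l ih =>
    rw [eval_Ep, map_mul, map_mul, h2, one_mul, val_iter_eq hs h (Nat.lt_succ_self l),
      ih (val_iter_le hs h l (Nat.le_succ l)), pow_succ']

lemma val_Wp (hs : 1 < v s) (h2 : v 2 = 1) {e : E} (he : v e ≤ v s) {l : ℕ} {z : E}
    (h : v ((fq (-s ^ 2))^[l] z) ≤ v s) : v ((Wp (-s ^ 2) e l).eval z) ≤ v s ^ l := by
  induction l with
  | zero => simp [Wp]
  | succ l ih =>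
    rw [eval_Wp]
    refine v.map_add_le ?_ (he.trans (le_self_pow₀ hs.le (by omega)))
    rw [map_mul, map_mul, h2, one_mul, val_iter_eq hs h (Nat.lt_succ_self l), pow_succ' (v s)]
    exact mul_le_mul' le_rfl (ih (val_iter_le hs h l (Nat.le_succ l)))

section mem
variable {R : Subring E} {c e z : E}

lemma iter_mem (hc : c ∈ R) (hz : z ∈ R) (l : ℕ) : (fq c)^[l] z ∈ R := by
  induction l with
  | zero => exact hz
  | succ l ih => rw [Function.iterate_succ_apply']; exact add_mem (pow_mem ih 2) hc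

lemma Ep_mem (hc : c ∈ R) (hz : z ∈ R) (l : ℕ) : (Ep c l).eval z ∈ R := by
  induction l with
  | zero => simp [Ep]
  | succ l ih => rw [eval_Ep]; exact mul_mem (mul_mem (ofNat_mem R 2) (iter_mem hc hz l)) ih

lemma Wp_mem (hc : c ∈ R) (he : e ∈ R) (hz : z ∈ R) (l : ℕ) : (Wp c e l).eval z ∈ R := by
  induction l with
  | zero => simp [Wp]
  | succ l ih =>
    rw [eval_Wp]; exact add_mem (mul_mem (mul_mem (ofNat_mem R 2) (iter_mem hc hz l)) ih) he

lemma bb_mem (hc : c ∈ R) (hz : z ∈ R) (L a : ℕ) : (bb c L a).eval z ∈ R := by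
  induction L generalizing a z with
  | zero => simpa [bb] using pow_mem hz a
  | succ L ih =>
    rw [eval_bb_succ]; exact mul_mem (pow_mem hz _) (ih (add_mem (pow_mem hz 2) hc) _)

end mem

variable {k : Type*} [Field k] [Algebra k[X] E]

lemma aeval_sum_bb (L n : ℕ) (f : ℕ → k[X]) (z : E) :
    aeval z (∑ a ∈ Finset.range n, C (f a) * bb (-X ^ 2 : k[X]) L a) =
      ∑ a ∈ Finset.range n, algebraMap k[X] E (f a) *
        (bb (-algebraMap k[X] E X ^ 2) L a).eval z := by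
  rw [map_sum]
  refine Finset.sum_congr rfl fun a _ => ?_
  rw [map_mul, aeval_C, ← eval_map_algebraMap, map_bb, map_neg, map_pow]

lemma aux_count (M l : ℕ) (hl : l = 4 * M + 16) {N : ℕ} (hN : N ≤ 2 ^ (l + 4)) :
    N * (9 * M + 39) + N * (5 * M + 24) + N * (M + 9) <
      3 * ∑ a ∈ Finset.range (14 * 2 ^ l), (8 * M + 40 - ds (l + 4) a) := by
  have h4 := sum_ds (l + 4)
  have h5 : ∑ a ∈ Finset.range (14 * 2 ^ l), ds (l + 4) a ≤
      ∑ a ∈ Finset.range (2 ^ (l + 4)), ds (l + 4) a :=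
    Finset.sum_le_sum_of_subset (Finset.range_mono (by rw [pow_add]; omega))
  have h6 : 14 * 2 ^ l * (8 * M + 40) ≤ ∑ a ∈ Finset.range (14 * 2 ^ l),
      (8 * M + 40 - ds (l + 4) a) + ∑ a ∈ Finset.range (14 * 2 ^ l), ds (l + 4) a := by
    rw [← Finset.sum_add_distrib]
    refine le_trans ?_ (Finset.card_nsmul_le_sum _ _ (8 * M + 40) fun a _ => by omega)
    rw [Finset.card_range, smul_eq_mul]
  have h7 : 0 < 2 ^ l := by positivity
  generalize ∑ a ∈ Finset.range (14 * 2 ^ l), ds (l + 4) a = S1 at *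
  generalize ∑ a ∈ Finset.range (2 ^ (l + 4)), ds (l + 4) a = S2 at *
  generalize ∑ a ∈ Finset.range (14 * 2 ^ l), (8 * M + 40 - ds (l + 4) a) = S3 at *
  rw [pow_add] at hN h4
  generalize 2 ^ l = T at *
  subst hl
  have h8 : N * (15 * M + 72) ≤ T * 2 ^ 4 * (15 * M + 72) := Nat.mul_le_mul_right _ hN
  nlinarith

/-- The change of variables. -/
noncomputable def mat (A B : E[X]) : Fin 3 → Fin 3 → E[X] :=
  ![![A ^ 2, -(A * B), B ^ 2], ![0, A, -(2 * B)], ![0, 0, 1]]

lemma mat_mem {R : Subring E} {A B : E[X]} {z : E} (hA : A.eval z ∈ R) (hB : B.eval z ∈ R)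
    (i b : Fin 3) : (mat A B i b).eval z ∈ R := by
  fin_cases i <;> fin_cases b <;> simp [mat] <;> apply_rules [pow_mem, mul_mem, ofNat_mem]

lemma val_mat (h2 : v 2 = 1) {A B : E[X]} {z : E} {T : ℝ≥0} (hA : v (A.eval z) ≤ T)
    (hB : v (B.eval z) ≤ T) (i b : Fin 3) : v ((mat A B i b).eval z) ≤ T ^ (2 - (i : ℕ)) := by
  have h3 := mul_le_mul' hA hA
  have h4 := mul_le_mul' hA hB
  have h5 := mul_le_mul' hB hB
  fin_cases i <;> fin_cases b <;> simp [mat, h2, sq, *]

lemma natDegree_mat {A B : E[X]} {n : ℕ} (hA : A.natDegree ≤ n) (hB : B.natDegree ≤ n)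
    (i b : Fin 3) : (mat A B i b).natDegree ≤ 2 * n := by
  fin_cases i <;> fin_cases b <;> simp only [mat, Fin.zero_eta, Fin.mk_one, Fin.reduceFinMk,
    Matrix.cons_val_zero, Matrix.cons_val_one, Matrix.cons_val] <;> compute_degree <;> omega

lemma mat_eq (A B : E[X]) (x u : E) (p : Fin 3 → E) :
    A.eval x ^ 2 * (p 0 + p 1 * u + p 2 * u ^ 2) =
      ∑ b, (mat A B 0 b).eval x * p b + (∑ b, (mat A B 1 b).eval x * p b) *
        (A.eval x * u + B.eval x) + (∑ b, (mat A B 2 b).eval x * p b) *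
        ((A.eval x * u + B.eval x) * (A.eval x * u + B.eval x)) := by
  simp [mat, Fin.sum_univ_three]; ring

theorem AtInf.aux [IsAlgClosed E] (h : AtInf k v) (M : ℕ) : ∃ (L : ℕ) (P0 P1 P2 : k[X][X]),
    (P0 ≠ 0 ∨ P1 ≠ 0 ∨ P2 ≠ 0) ∧ P0.natDegree ≤ 2 ^ L ∧ P1.natDegree ≤ 2 ^ L ∧
    P2.natDegree ≤ 2 ^ L ∧ ∀ x u : ℕ → E, (∀ r, x (r + 1) = fq (-algebraMap k[X] E X ^ 2) (x r)) →
      (∀ r, u (r + 1) = 2 * x r * u r + -2 * algebraMap k[X] E X) →
      v (x L) ≤ v (algebraMap k[X] E X) → (∀ r ≤ L, v (u r) ≤ v (algebraMap k[X] E X)) →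
      v (aeval (x 0) P0 + aeval (x 0) P1 * u 0 + aeval (x 0) P2 * u 0 ^ 2) ≤
        v (algebraMap k[X] E X) ^ (-M : ℤ) := by
  have hs := h.ht
  have hs0 := h.pos
  have h2 := h.v2
  have hsL : algebraMap k[X] E X ∈ Lam k v := algebraMap_mem_Lam _
  have hsie := @h.siegel
  have hit := @h.iter_mem_Lam
  have hsum := aeval_sum_bb (k := k) (E := E)
  generalize algebraMap k[X] E X = s at *
  obtain ⟨l, hl⟩ : ∃ l, l = 4 * M + 16 := ⟨_, rfl⟩
  obtain ⟨A, hA⟩ : ∃ A, A = Ep (-s ^ 2) l := ⟨_, rfl⟩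
  obtain ⟨B, hB⟩ : ∃ B, B = Wp (-s ^ 2) (-2 * s) l := ⟨_, rfl⟩
  have he : v (-2 * s) ≤ v s := by simp [h2]
  have hcL : -s ^ 2 ∈ Lam k v := neg_mem (pow_mem hsL 2)
  have heL : -2 * s ∈ Lam k v := mul_mem (neg_mem (ofNat_mem _ 2)) hsL
  have hnode : ∀ z ∈ pre (-s ^ 2) (l + 4) s, v ((fq (-s ^ 2))^[l + 4] z) ≤ v s ∧ z ∈ Lam k v := by
    intro z hz
    have := mem_pre.1 hz
    exact ⟨by rw [this], hit (n := l + 4) (by rwa [this]) (by rw [this])⟩
  have hle : 14 * 2 ^ l + 2 * 2 ^ l ≤ 2 ^ (l + 4) := by rw [pow_add]; omega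
  obtain ⟨f, hf0, -, hf⟩ := hsie (Finset.univ ×ˢ Finset.range (14 * 2 ^ l))
    (Finset.univ ×ˢ pre (-s ^ 2) (l + 4) s) (fun j => 8 * M + 40 - ds (l + 4) j.2)
    (fun i j => (mat A B i.1 j.1).eval i.2 * (bb (-s ^ 2) (l + 4) j.2).eval i.2)
    (fun i => 8 * M + 39 + (l * (2 - (i.1 : ℕ)) : ℕ))
    (fun i => ![9 * M + 39, 5 * M + 24, M + 9] i.1)
    (by
      rintro ⟨i, z⟩ hi ⟨b, a⟩ -
      have hz := (hnode z (Finset.mem_product.1 hi).2).2
      exact mul_mem (mat_mem (hA ▸ Ep_mem hcL hz l) (hB ▸ Wp_mem hcL heL hz l) _ _)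
        (bb_mem hcL hz _ _))
    (by
      rintro ⟨i, z⟩ hi ⟨b, a⟩ hj
      have hz := (hnode z (Finset.mem_product.1 hi).2).1
      have ha := Finset.mem_range.1 (Finset.mem_product.1 hj).2
      have hd := ds_le (L := l + 4) (a := a) (by omega)
      have hz' := val_iter_le hs hz l (by omega)
      have h3 := val_mat h2 (hA ▸ val_Ep hs h2 hz').le (hB ▸ val_Wp hs h2 he hz') i b
      rw [map_mul]
      refine (mul_le_mul' h3 (val_bb_le hs _ a hz)).trans_eq ?_
      rw [← pow_mul, ← pow_add, ← zpow_natCast]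
      congr 1
      simp only
      omega)
    (by
      rw [Finset.sum_product, Finset.sum_product]
      simp only [Finset.sum_const, smul_eq_mul, Finset.card_univ, Fintype.card_fin]
      rw [Fin.sum_univ_three]
      exact aux_count M l hl (card_pre_le _ _ _))
  obtain ⟨P, hP⟩ : ∃ P : Fin 3 → k[X][X], ∀ b, P b =
    ∑ a ∈ Finset.range (14 * 2 ^ l), C (f (b, a)) * bb (-X ^ 2 : k[X]) (l + 4) a :=
    ⟨_, fun _ => rfl⟩
  have hPd : ∀ b, (P b).natDegree < 14 * 2 ^ l := fun b =>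
    hP b ▸ natDegree_sum_bb_lt _ _ _ (by positivity) _
  refine ⟨l + 4, P 0, P 1, P 2, ?_, by have := hPd 0; omega, by have := hPd 1; omega,
    by have := hPd 2; omega, fun x u hx hu hxL huL => ?_⟩
  · obtain ⟨⟨b, a⟩, hj, hj0⟩ := hf0
    have : P b ≠ 0 := fun h0 => hj0 (sum_bb_eq_zero _ _ _ (fun a => f (b, a)) ((hP b).symm.trans h0)
      a (Finset.mem_range.1 (Finset.mem_product.1 hj).2))
    fin_cases b
    · exact Or.inl this
    · exact Or.inr (Or.inl this)
    · exact Or.inr (Or.inr this)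
  rw [iter_eq hx] at hxL
  have key : ∀ i : Fin 3, v (∑ b, (mat A B i b).eval (x 0) * aeval (x 0) (P b)) ≤
      v s ^ (2 * l - M - (i : ℕ) : ℤ) := by
    intro i
    have hev : ∀ z, (∑ b, mat A B i b * (P b).map (algebraMap k[X] E)).eval z =
        ∑ b, (mat A B i b).eval z * aeval z (P b) := by
      intro z; simp only [eval_finsetSum, eval_mul, eval_map_algebraMap]
    rw [← hev]
    refine interp hs h2 le_rfl (l + 4) _ ?_ (fun z hz => ?_) hxL
    · refine (degree_sum_le _ _).trans_lt ((Finset.sup_lt_iff (WithBot.bot_lt_coe _)).2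
        fun b _ => degree_le_natDegree.trans_lt (Nat.cast_lt.2 ?_))
      have h3 := natDegree_mat (A := A) (B := B) (n := 2 ^ l)
        (by have := natDegree_Ep (-s ^ 2) l; rw [hA]; omega)
        (by have := natDegree_Wp (-s ^ 2) (-2 * s) l; rw [hB]; omega) i b
      have h6 := natDegree_mul_le (p := mat A B i b) (q := (P b).map (algebraMap k[X] E))
      have h7 := natDegree_map_le (f := algebraMap k[X] E) (p := P b)
      have h8 := hPd b
      omega
    · rw [hev]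
      have := hf (i, z) (Finset.mem_product.2 ⟨Finset.mem_univ _, mem_pre.2 hz⟩)
      rw [Finset.sum_product] at this
      refine le_of_eq_of_le (congrArg v ?_) (this.trans_eq (congrArg _ ?_))
      · refine Finset.sum_congr rfl fun b _ => ?_
        rw [hP, hsum, Finset.mul_sum]
        exact Finset.sum_congr rfl fun a _ => by ring
      · fin_cases i <;> simp [hl] <;> ring
  have hul := huL l (by omega)
  have hA' : v (A.eval (x 0)) = v s ^ l := hA ▸ val_Ep hs h2 (val_iter_le hs hxL l (by omega))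
  rw [tangent_eq hx hu l, ← hA, ← hB] at hul
  have k1 := mul_le_mul' (key 1) hul
  have k2 := mul_le_mul' (key 2) (mul_le_mul' hul hul)
  rw [← map_mul, ← zpow_add_one₀ hs0.ne'] at k1
  rw [← map_mul, ← map_mul, ← mul_assoc (v s ^ _), ← zpow_add_one₀ hs0.ne',
    ← zpow_add_one₀ hs0.ne'] at k2
  have k3 := v.map_add_le (v.map_add_le ((key 0).trans_eq (by congr 1; simp)) (k1.trans_eq
    (by congr 1; simp))) (k2.trans_eq (show _ = v s ^ (2 * l - M : ℤ) by congr 1; simp; ring))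
  rw [← mat_eq A B (x 0) (u 0) (fun b => aeval (x 0) (P b)), map_mul, map_pow, hA', ← pow_mul,
    ← le_div_iff₀' (pow_pos hs0 _), ← zpow_natCast (v s), ← zpow_sub₀ hs0.ne'] at k3
  exact k3.trans_eq (by congr 1; push_cast; ring)

end Pool.Agent.Work.MP_969914_nt.H70
end

-- merged part: Pool.Agent.Work.MP_969914_nt.H70Approx
section
/-! Functions on a branch of a curve that are limits of polynomials. -/

set_option autoImplicit false

open Polynomial
open scoped NNReal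

namespace Pool.Agent.Work.MP_969914_nt.H70

variable {E : Type*} [Field E] {v : Valuation E ℝ≥0} {s : E} {ι : Type*}

/-- Integral polynomials in `π / s`. -/
noncomputable def polR (v : Valuation E ℝ≥0) (s : E) (π : ι → E) : Subring (ι → E) :=
  (eval₂RingHom ((Pi.constRingHom ι E).comp v.integer.subtype) fun i => π i / s).range

lemma mem_polR {π f : ι → E} : f ∈ polR v s π ↔
    ∃ P : v.integer[X], ∀ i, f i = P.eval₂ v.integer.subtype (π i / s) := by
  have : ∀ (P : v.integer[X]) (i : ι), (P.eval₂ ((Pi.constRingHom ι E).comp v.integer.subtype)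
      fun i => π i / s) i = P.eval₂ v.integer.subtype (π i / s) := fun P i =>
    hom_eval₂ P _ (Pi.evalRingHom (fun _ => E) i) _
  simp only [polR, RingHom.mem_range, coe_eval₂RingHom, funext_iff, this, eq_comm]

lemma const_mem_polR (π : ι → E) {a : E} (ha : v a ≤ 1) : (fun _ => a) ∈ cl v (polR v s π) :=
  mem_cl (mem_polR.2 ⟨C ⟨a, ha⟩, fun _ => by simp⟩) fun _ => ha

lemma self_mem_polR (hs : 1 < v s) {π : ι → E} (h : ∀ i, v (π i) ≤ v s) :
    (fun i => π i / s) ∈ cl v (polR v s π) :=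
  mem_cl (B := 1) (mem_polR.2 ⟨X, fun _ => by simp⟩) fun i => by
    rw [map_div₀]; exact (div_le_one (zero_lt_one.trans hs)).2 (h i)

lemma val_eval₂_le (P : v.integer[X]) {z : E} (hz : v z ≤ 1) :
    v (P.eval₂ v.integer.subtype z) ≤ 1 := by
  have := eval₂_at_apply (p := P) v.integer.subtype ⟨z, hz⟩
  rw [Subring.subtype_apply] at this
  rw [this]
  exact (P.eval ⟨z, hz⟩).2

lemma exists_psi (hs : 1 < v s) (L : ℕ) : ∃ ψ : v.integer[X], ψ.Monic ∧ ψ.natDegree = 2 ^ L ∧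
    ∀ z, ψ.eval₂ v.integer.subtype (z / s) * s ^ 2 ^ L = (fq (-s ^ 2))^[L] z := by
  have hs0 : s ≠ 0 := v.pos_iff.1 (zero_lt_one.trans hs)
  induction L with
  | zero => exact ⟨X, monic_X, by simp, fun z => by simp [hs0]⟩
  | succ L ih =>
    obtain ⟨ψ, h1, h2, h3⟩ := ih
    have h4 : v (-s ^ 2 / s ^ 2 ^ (L + 1)) ≤ 1 := by
      rw [map_div₀, v.map_neg, map_pow, map_pow, div_le_one (pow_pos (zero_lt_one.trans hs) _)]
      exact pow_le_pow_right₀ hs.le (Nat.le_self_pow (by omega) 2)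
    have h5 : (ψ ^ 2).natDegree = 2 ^ (L + 1) := by rw [h1.natDegree_pow, h2, pow_succ']
    refine ⟨ψ ^ 2 + C ⟨_, h4⟩, (h1.pow 2).add_of_left (degree_C_le.trans_lt
      (natDegree_pos_iff_degree_pos.1 (by rw [h5]; positivity))), by rw [natDegree_add_C, h5],
      fun z => ?_⟩
    rw [Function.iterate_succ_apply', ← h3, fq, eval₂_add, eval₂_pow, eval₂_C,
      Subring.subtype_apply, add_mul, div_mul_cancel₀ _ (pow_ne_zero _ hs0), pow_succ 2 L, pow_mul,
      mul_pow]

theorem approx_small [IsAlgClosed E] (hs : 1 < v s) (h2 : v 2 = 1) {π f : ι → E} {γ L : ℕ}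
    (hf : (fun i => f i / s ^ γ) ∈ cl v (polR v s π)) {T : ℝ≥0} (hT : 0 < T)
    (hT' : v s ^ γ * v s / v s ^ 2 ^ L ≤ T)
    (hn : ∀ z, (fq (-s ^ 2))^[L] z = s → ∃ i, π i = z ∧ v (f i) ≤ T) {i : ι}
    (hi : v ((fq (-s ^ 2))^[L] (π i)) ≤ v s) : v (f i) ≤ T := by
  have hp : 0 < v s := zero_lt_one.trans hs
  have hs0 : s ≠ 0 := v.pos_iff.1 hp
  obtain ⟨g, hg, hfg⟩ := hf.2 (T / v s ^ γ) (div_pos hT (pow_pos hp _))
  obtain ⟨P, hP⟩ := mem_polR.1 hg
  obtain ⟨ψ, h1, h3, h4⟩ := exists_psi hs L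
  have h5 : v (s / s ^ 2 ^ L) ≤ 1 := by
    rw [map_div₀, map_pow, div_le_one (pow_pos hp _)]
    exact le_self_pow₀ hs.le (by positivity)
  obtain ⟨Ψ, hΨ⟩ : ∃ Ψ, Ψ = ψ - C ⟨_, h5⟩ := ⟨_, rfl⟩
  have h6 : Ψ.Monic := hΨ ▸ h1.sub_of_left (degree_C_le.trans_lt
    (natDegree_pos_iff_degree_pos.1 (by rw [h3]; positivity)))
  have h7 : Ψ.natDegree = 2 ^ L := by rw [hΨ, natDegree_sub_C, h3]
  have h8 : ∀ z, Ψ.eval₂ v.integer.subtype (z / s) = ((fq (-s ^ 2))^[L] z - s) / s ^ 2 ^ L := by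
    intro z
    rw [hΨ, eval₂_sub, eval₂_C, ← h4, Subring.subtype_apply]
    field_simp
  obtain ⟨R, hR⟩ : ∃ R, R = ((P %ₘ Ψ).map v.integer.subtype).comp (C s⁻¹ * X) := ⟨_, rfl⟩
  have h9 : ∀ z, P.eval₂ v.integer.subtype (z / s) = R.eval z +
      ((fq (-s ^ 2))^[L] z - s) / s ^ 2 ^ L * (P /ₘ Ψ).eval₂ v.integer.subtype (z / s) := by
    intro z
    rw [← h8, ← eval₂_mul, hR, eval_comp, eval_map, eval_mul, eval_C, eval_X, ← div_eq_inv_mul,
      ← eval₂_add, modByMonic_add_div]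
  have h10 : v (R.eval (π i)) ≤ T / v s ^ γ := by
    refine interp hs h2 le_rfl L R ?_ (fun z hz => ?_) hi
    · refine degree_le_natDegree.trans_lt (Nat.cast_lt.2 ?_)
      rw [hR, natDegree_comp, natDegree_C_mul_X _ (inv_ne_zero hs0), mul_one, ← h7]
      refine natDegree_map_le.trans_lt (natDegree_modByMonic_lt P h6 ?_)
      rintro rfl
      exact absurd h7 (by rw [natDegree_one]; positivity)
    · obtain ⟨i', rfl, h11⟩ := hn z hz
      have e := h9 (π i')
      rw [hz, sub_self, zero_div, zero_mul, add_zero, ← hP] at e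
      rw [← e, show g i' = f i' / s ^ γ - (f i' / s ^ γ - g i') by ring]
      refine v.map_sub_le ?_ (hfg i')
      rw [map_div₀, map_pow]
      exact div_le_div_of_nonneg_right h11 zero_le
  have h11 : v (f i / s ^ γ) ≤ T / v s ^ γ := by
    rw [show f i / s ^ γ = (f i / s ^ γ - g i) + g i by ring]
    refine v.map_add_le (hfg i) ?_
    rw [hP, h9]
    refine v.map_add_le h10 ?_
    rw [map_mul, le_div_iff₀ (pow_pos hp _)]
    refine le_trans ?_ hT'
    rw [mul_comm, mul_div_assoc]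
    refine mul_le_mul' le_rfl ((mul_le_mul' ?_ (val_eval₂_le _ ?_)).trans_eq (mul_one _))
    · rw [map_div₀, map_pow]
      exact div_le_div_of_nonneg_right (v.map_sub_le hi le_rfl) zero_le
    · rw [map_div₀]; exact (div_le_one hp).2 (val_le_of_iter hs hi)
  rwa [map_div₀, map_pow, div_le_div_iff_of_pos_right (pow_pos hp _)] at h11

lemma bb_top (hs : s ≠ 0) {R : Subring (ι → E)} (hR : (fun _ => s⁻¹) ∈ R) (L a : ℕ) {W : ι → E}
    {e : ℕ} (hW : (fun i => W i / s ^ (e + 1)) ∈ R) :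
    (fun i => (bb (-s ^ 2) L a).eval (W i) / s ^ ((e + 1) * a)) ∈ R := by
  induction L generalizing a W e with
  | zero =>
    convert pow_mem hW a using 1
    funext i
    simp [bb, pow_mul, div_pow]
  | succ L ih =>
    have h1 := ih (a / 2) (W := fun i => fq (-s ^ 2) (W i)) (e := 2 * e + 1) (by
      convert sub_mem (pow_mem hW 2) (pow_mem hR (2 * e)) using 1
      funext i
      simp only [fq, Pi.sub_apply, Pi.pow_apply, inv_pow]
      field_simp
      ring)
    convert mul_mem (pow_mem hW (a % 2)) h1 using 1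
    funext i
    rw [eval_bb_succ, Pi.mul_apply, Pi.pow_apply, div_pow, div_mul_div_comm, ← pow_mul, ← pow_add]
    congr 2
    have := Nat.mod_add_div a 2
    linear_combination (e + 1) * this.symm

lemma bb_branch (hs : 1 < v s) (h2 : v 2 = 1) {R : Subring (ι → E)}
    (hh : (fun _ => (2 : E)⁻¹) ∈ cl v R) (hR : (fun _ => s⁻¹) ∈ cl v R) (L j : ℕ) {Z : ι → E}
    {ε : Fin j → Bool} (hε : ∀ i, pat v s j (Z i) = ε)
    (hv : ∀ i, v ((fq (-s ^ 2))^[j] (Z i)) ≤ v s)
    (hZ : (fun i => (fq (-s ^ 2))^[j] (Z i) / s) ∈ cl v R) :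
    (fun i => Z i / s) ∈ cl v R ∧
      ∀ a, (fun i => (bb (-s ^ 2) (L + j) a).eval (Z i) / s ^ (j + a / 2 ^ j)) ∈ cl v R := by
  have hs0 : s ≠ 0 := v.pos_iff.1 (zero_lt_one.trans hs)
  induction j generalizing Z with
  | zero => exact ⟨hZ, fun a => by simpa using bb_top hs0 hR L a (e := 0) (by simpa using hZ)⟩
  | succ j ih =>
    obtain ⟨h1, h3⟩ := ih (Z := fun i => fq (-s ^ 2) (Z i)) (ε := Fin.tail ε)
      (fun i => by rw [← hε i, tail_pat]) hv hZ
    have h4 := branch_mem_cl hs h2 hh hR (b := ε 0) h1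
      (fun i => val_le_of_iter hs (n := j) (hv i)) fun i => by rw [← hε i, pat_zero]
    refine ⟨h4, fun a => ?_⟩
    have h5 : (fun i => Z i ^ (a % 2) / s) ∈ cl v R := by
      rcases Nat.mod_two_eq_zero_or_one a with h | h <;> rw [h]
      · simpa using hR
      · simpa using h4
    convert mul_mem h5 (h3 (a / 2)) using 1
    funext i
    rw [← add_assoc, eval_bb_succ, Pi.mul_apply, div_mul_div_comm, ← pow_succ',
      Nat.div_div_eq_div_mul, ← pow_succ']
    congr 2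
    ring

end Pool.Agent.Work.MP_969914_nt.H70
end

-- merged part: Pool.Agent.Work.MP_969914_nt.H70Irr
section
/-! Irreducibility of the curves of pairs of points with opposite iterates. -/

set_option autoImplicit false

open Polynomial IntermediateField

namespace Pool.Agent.Work.MP_969914_nt.H70

lemma Gs_sub_C {A : Type*} [CommRing A] (a c : A) (j : ℕ) :
    Gs (X - C a) c j = Gs X c j - C a := by
  induction j with
  | zero => rfl
  | succ j ih => simp [Gs, ih]

lemma irr_iter {K : Type*} [Field K] (c a : K) (j : ℕ)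
    (h : ∀ i < j, ∀ r : K, r ^ 2 ≠ orb c i - a ∧ r ^ 2 ≠ -(orb c i - a)) :
    Irreducible (Gs (X - C a) c j) := by
  induction j with
  | zero => exact irreducible_X_sub_C a
  | succ j ih =>
    have h1 := ih fun i hi => h i (by omega)
    have hm : (Gs (X - C a) c j).Monic := by rw [Monic, leadingCoeff_Gs, leadingCoeff_X_sub_C]
    have h3 : Irreducible ((Gs (X - C a) c j).comp (X + C c)) := by
      have := (MulEquiv.irreducible_iff (algEquivAevalXAddC c)).2 h1
      simpa [algEquivAevalXAddC, comp_eq_aeval] using this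
    have e : Gs (X - C a) c (j + 1) = ((Gs (X - C a) c j).comp (X + C c)).comp (X ^ 2) := by
      rw [Gs, comp_assoc]; simp
    rw [e]
    refine irreducible_comp (hm.comp_X_add_C c) (monic_X_pow 2) h3 fun L _ _ x hx => ?_
    have hi : IsIntegral K x := not_not.mp fun h' => h3.ne_zero (hx.symm.trans (dif_neg h'))
    rw [Polynomial.map_pow, map_X]
    refine X_pow_sub_C_irreducible_of_prime Nat.prime_two fun b hb => ?_
    have e2 := congrArg (Algebra.norm K) hb
    rw [map_pow, ← adjoin.powerBasis_gen hi, Algebra.PowerBasis.norm_gen_eq_coeff_zero_minpoly,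
      adjoin.powerBasis_gen, minpoly_gen, hx, coeff_zero_eq_eval_zero, eval_comp, eval_Gs] at e2
    simp only [eval_add, eval_X, eval_C, zero_add, eval_sub, ← orb_eq] at e2
    rcases neg_one_pow_eq_or K (adjoin.powerBasis hi).dim with h4 | h4 <;> rw [h4] at e2
    · exact (h j (by omega) _).1 (by rw [e2, one_mul])
    · exact (h j (by omega) _).2 (by rw [e2, neg_one_mul])

variable {E : Type*} [Field E]

lemma not_sq {p : E[X]} (hp : p.Separable) (hd : p.natDegree ≠ 0) (r : FractionRing E[X]) :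
    r ^ 2 ≠ algebraMap E[X] _ p := by
  intro h
  have hi : IsIntegral E[X] r :=
    IsIntegral.of_pow (n := 2) (by norm_num) (h ▸ isIntegral_algebraMap)
  obtain ⟨q, rfl⟩ := IsIntegrallyClosed.isIntegral_iff.1 hi
  rw [← map_pow] at h
  have h1 := IsFractionRing.injective E[X] (FractionRing E[X]) h
  have h2 := hp.squarefree q (by rw [← h1, sq])
  rw [← h1, natDegree_pow, natDegree_eq_zero_of_isUnit h2] at hd
  exact hd rfl

lemma irr_curve (h2 : (2 : E) ≠ 0) {c : E} (hc : ∀ i j, orb c i + orb c j ≠ 0) (j : ℕ) :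
    Irreducible (Gs (X - C (-Gs X c j)) (C c) j) := by
  have hm : (Gs (X - C (-Gs X c j)) (C c) j).Monic := by
    rw [Monic, leadingCoeff_Gs, leadingCoeff_X_sub_C]
  rw [hm.irreducible_iff_irreducible_map_fraction_map (K := FractionRing E[X]), map_Gs,
    Polynomial.map_sub, map_X, map_C]
  refine irr_iter _ _ j fun i _ r => ?_
  have hs := separable_Gs h2 (separable_X_sub_C (x := -orb c i)) c
    (fun l => by simpa [add_comm] using hc i l) j
  have hd : (Gs (X - C (-orb c i)) c j).natDegree ≠ 0 := by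
    rw [natDegree_Gs, natDegree_X_sub_C]; positivity
  have e : orb (algebraMap E[X] (FractionRing E[X]) (C c)) i -
      algebraMap E[X] (FractionRing E[X]) (-Gs X c j) =
      algebraMap E[X] _ (Gs (X - C (-orb c i)) c j) := by
    rw [← map_orb, ← map_orb C, ← map_sub, Gs_sub_C]
    congr 1
    rw [map_neg]; ring
  rw [e, ← map_neg]
  refine ⟨not_sq hs hd r, not_sq ?_ (by rwa [natDegree_neg]) r⟩
  exact (Associated.refl _).neg_right.separable hs

theorem curve_zero (h2 : (2 : E) ≠ 0) {c : E} (hc : ∀ i j, orb c i + orb c j ≠ 0) (j : ℕ)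
    {P : E[X][X]} (hP : P ≠ 0) (hd : P.natDegree < 2 ^ j) {b : ℕ}
    (hb : ∀ i, (P.coeff i).natDegree ≤ b) (hb' : 2 ^ j ≤ b) :
    ∃ R : E[X], R ≠ 0 ∧ R.natDegree ≤ 2 * 2 ^ j * b ∧ ∀ x y : E,
      (fq c)^[j] x + (fq c)^[j] y = 0 → P.evalEval x y = 0 → R.eval x = 0 := by
  have hi := irr_curve h2 hc j
  obtain ⟨G, hG⟩ : ∃ G, G = Gs (X - C (-Gs X c j)) (C c) j := ⟨_, rfl⟩
  have hGd : G.natDegree = 2 ^ j := by rw [hG, natDegree_Gs, natDegree_X_sub_C, one_mul]
  have hG' : G = (Gs X c j).map C + C (Gs X c j) := by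
    rw [hG, Gs_sub_C, map_Gs, map_X, map_neg, sub_neg_eq_add]
  have h0 : G.natDegree ≠ 0 := by rw [hGd]; positivity
  rw [← hG] at hi
  refine ⟨resultant G P, res_ne_zero_of_irreducible hi h0 fun h => ?_, ?_, fun x y h1 h3 => ?_⟩
  · have := natDegree_le_of_dvd h hP
    omega
  · refine (res_d_le (DF.deg E) G P _ _ (b := b) (fun i => ?_) hb).trans ?_
    · change (G.coeff i).natDegree ≤ b
      rw [hG', coeff_add, coeff_map, coeff_C]
      refine (natDegree_add_le _ _).trans (max_le (by simp) ?_)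
      split_ifs
      · rw [natDegree_Gs, natDegree_X, one_mul]; exact hb'
      · simp
    · exact Nat.mul_le_mul_right _ (by omega)
  · obtain ⟨U, V, -, -, hUV⟩ := exists_mul_add_mul_eq_C_resultant G P le_rfl le_rfl (Or.inl h0)
    have e := congrArg (evalEval x y) hUV
    have e2 : G.evalEval x y = 0 := by
      rw [hG', evalEval_add, evalEval_map_C, evalEval_C, eval_Gs, eval_Gs, eval_X, eval_X,
        add_comm, h1]
    simpa [e2, h3, evalEval_C] using e.symm

end Pool.Agent.Work.MP_969914_nt.H70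
end

-- merged part: Pool.Agent.Work.MP_969914_nt.H70Orbit
section
/-! Conjugates, averages over them and the product formula. -/

set_option autoImplicit false

open Polynomial
open scoped NNReal

namespace Pool.Agent.Work.MP_969914_nt.H70

variable {E : Type*} [Field E] (F : Type*) [Field F] [Algebra F E]

open Classical in
/-- The conjugates of `y` over `F`. -/
noncomputable def conj (y : E) : Finset E := ((minpoly F y).aroots E).toFinset

/-- Logarithmic size. -/
noncomputable def lg (v : Valuation E ℝ≥0) (s x : E) : ℝ := Real.logb (v s) (v x)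

/-- Mean logarithmic size of the conjugates. -/
noncomputable def lam (v : Valuation E ℝ≥0) (s y : E) : ℝ :=
  (∑ z ∈ conj F y, lg v s z) / (conj F y).card

variable {F} {v : Valuation E ℝ≥0} {s : E}

lemma lg_mul {x y : E} (hx : x ≠ 0) (hy : y ≠ 0) : lg v s (x * y) = lg v s x + lg v s y := by
  simp only [lg, map_mul, NNReal.coe_mul]
  exact Real.logb_mul (by simpa using hx) (by simpa using hy)

lemma lg_le (hs : 1 < v s) {x : E} (hx : x ≠ 0) {n : ℤ} (h : v x ≤ v s ^ n) : lg v s x ≤ n := by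
  have h1 : (1 : ℝ) < v s := by exact_mod_cast hs
  rw [lg, Real.logb_le_iff_le_rpow h1 (by simpa using v.pos_iff.2 hx), Real.rpow_intCast]
  exact_mod_cast h

lemma lg_eq (hs : 1 < v s) {x : E} {n : ℤ} (h : v x = v s ^ n) : lg v s x = n := by
  have h1 : (1 : ℝ) < v s := by exact_mod_cast hs
  rw [lg, h, NNReal.coe_zpow, ← Real.rpow_intCast, Real.logb_rpow (by linarith) h1.ne']

lemma lg_prod {ι : Type*} (Y : Finset ι) (f : ι → E) (h : ∀ x ∈ Y, f x ≠ 0) :
    lg v s (∏ x ∈ Y, f x) = ∑ x ∈ Y, lg v s (f x) := by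
  classical
  induction Y using Finset.induction_on with
  | empty => simp [lg]
  | insert a Y ha ih =>
    rw [Finset.prod_insert ha, Finset.sum_insert ha, lg_mul (h a (by simp))
      (Finset.prod_ne_zero_iff.2 fun x hx => h x (by simp [hx])), ih fun x hx => h x (by simp [hx])]

lemma lg_nonneg (hs : 1 < v s) {x : E} (h : 1 ≤ v x) : 0 ≤ lg v s x :=
  Real.logb_nonneg (by exact_mod_cast hs) (by exact_mod_cast h)

variable [IsAlgClosed E] [Algebra.IsAlgebraic F E]

lemma mem_conj {y z : E} : z ∈ conj F y ↔ ∃ σ : E ≃ₐ[F] E, σ y = z := by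
  classical
  have : IsAlgClosure F E := ⟨inferInstance, inferInstance⟩
  have ha : IsAlgebraic F y := Algebra.IsAlgebraic.isAlgebraic y
  rw [conj, Multiset.mem_toFinset, mem_aroots]
  constructor
  · exact fun h => minpoly.exists_algEquiv_of_root' ha h.2
  · rintro ⟨σ, rfl⟩
    exact ⟨minpoly.ne_zero ha.isIntegral, by rw [aeval_algHom_apply, minpoly.aeval, map_zero]⟩

lemma self_mem_conj (y : E) : y ∈ conj F y := mem_conj.2 ⟨1, rfl⟩

lemma map_mem_conj {y z : E} (h : z ∈ conj F y) (σ : E ≃ₐ[F] E) : σ z ∈ conj F y := by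
  obtain ⟨τ, rfl⟩ := mem_conj.1 h
  exact mem_conj.2 ⟨σ * τ, rfl⟩

lemma map_mem_conj_iff {y z : E} (σ : E ≃ₐ[F] E) : σ z ∈ conj F y ↔ z ∈ conj F y :=
  ⟨fun h => by simpa using map_mem_conj h σ.symm, fun h => map_mem_conj h σ⟩

lemma conj_eq {y z : E} (h : z ∈ conj F y) : conj F z = conj F y := by
  obtain ⟨τ, rfl⟩ := mem_conj.1 h
  ext x
  simp only [mem_conj]
  exact ⟨fun ⟨σ, h⟩ => ⟨σ * τ, h⟩, fun ⟨σ, h⟩ => ⟨σ * τ⁻¹, by simpa using h⟩⟩

lemma card_conj_pos (y : E) : 0 < (conj F y).card := Finset.card_pos.2 ⟨y, self_mem_conj y⟩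

lemma ne_zero_of_mem_conj {y z : E} (h : z ∈ conj F y) (hy : y ≠ 0) : z ≠ 0 := by
  obtain ⟨τ, rfl⟩ := mem_conj.1 h
  simpa using hy

omit [IsAlgClosed E] [Algebra.IsAlgebraic F E] in
lemma prod_smul {Z M : Type*} [CommMonoid M] [MulAction (E ≃ₐ[F] E) Z] {Y : Finset Z}
    (hY : ∀ σ : E ≃ₐ[F] E, ∀ x ∈ Y, σ • x ∈ Y) (f : Z → M) (σ : E ≃ₐ[F] E) :
    ∏ x ∈ Y, f (σ • x) = ∏ x ∈ Y, f x :=
  Finset.prod_nbij' (fun x => σ • x) (fun x => σ⁻¹ • x) (hY σ) (hY σ⁻¹) (by simp) (by simp)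
    (fun _ _ => rfl)

lemma sum_push {Z : Type*} [MulAction (E ≃ₐ[F] E) Z] {Y : Finset Z}
    (hY : ∀ σ : E ≃ₐ[F] E, ∀ x ∈ Y, σ • x ∈ Y) {f : Z → E}
    (hf : ∀ σ : E ≃ₐ[F] E, ∀ x ∈ Y, f (σ • x) = σ (f x)) {y : E} (h0 : ∀ x ∈ Y, f x ∈ conj F y)
    (h : E → ℝ) : ∑ x ∈ Y, h (f x) = Y.card * ((∑ z ∈ conj F y, h z) / (conj F y).card) := by
  classical
  have hc : ∀ z ∈ conj F y, (Y.filter fun x => f x = z).card = (Y.filter fun x => f x = y).card := by
    intro z hz
    obtain ⟨σ, rfl⟩ := mem_conj.1 hz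
    symm
    refine Finset.card_nbij' (fun x => σ • x) (fun x => σ⁻¹ • x) ?_ ?_ (by intro x _; simp)
      (by intro x _; simp)
    · intro x hx
      simp only [Finset.coe_filter, Set.mem_ofPred_eq] at hx ⊢
      exact ⟨hY σ x hx.1, by rw [hf σ x hx.1, hx.2]⟩
    · intro x hx
      simp only [Finset.coe_filter, Set.mem_ofPred_eq] at hx ⊢
      exact ⟨hY _ x hx.1, by rw [hf _ x hx.1, hx.2]; simp⟩
  have h1 : (Y.card : ℝ) = (conj F y).card * (Y.filter fun x => f x = y).card := by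
    rw [Finset.card_eq_sum_card_fiberwise (f := f) (t := conj F y) h0, Finset.sum_congr rfl hc]
    simp
  have h2 : ((conj F y).card : ℝ) ≠ 0 := by exact_mod_cast (card_conj_pos y).ne'
  rw [← Finset.sum_fiberwise_of_maps_to h0, h1, mul_comm ((conj F y).card : ℝ), mul_assoc,
    mul_div_cancel₀ _ h2, Finset.mul_sum]
  refine Finset.sum_congr rfl fun z hz => ?_
  rw [Finset.sum_congr rfl (g := fun _ => h z) (fun x hx => by rw [(Finset.mem_filter.1 hx).2]),
    Finset.sum_const, hc z hz, nsmul_eq_mul]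

lemma lam_eq_avg {x : E} {f : E → E} (hf : ∀ σ : E ≃ₐ[F] E, ∀ z ∈ conj F x, f (σ z) = σ (f z)) :
    lam F v s (f x) = (∑ z ∈ conj F x, lg v s (f z)) / (conj F x).card := by
  have h2 : ((conj F x).card : ℝ) ≠ 0 := by exact_mod_cast (card_conj_pos x).ne'
  rw [sum_push (Y := conj F x) (fun σ z hz => map_mem_conj hz σ) hf (y := f x) (fun z hz => by
    obtain ⟨σ, rfl⟩ := mem_conj.1 hz
    exact mem_conj.2 ⟨σ, (hf σ x (self_mem_conj x)).symm⟩) (lg v s), mul_div_cancel_left₀ _ h2, lam]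

lemma lam_mul {y z : E} (hy : y ≠ 0) (hz : z ≠ 0) :
    lam F v s (y * z) = lam F v s y + lam F v s z := by
  classical
  set Y := (conj F y ×ˢ conj F z).filter fun p => ∃ σ : E ≃ₐ[F] E, σ • (y, z) = p with hYd
  have hmem : ∀ p, p ∈ Y ↔ ∃ σ : E ≃ₐ[F] E, σ • (y, z) = p := by
    intro p
    simp only [hYd, Finset.mem_filter, Finset.mem_product, and_iff_right_iff_imp]
    rintro ⟨σ, rfl⟩
    exact ⟨mem_conj.2 ⟨σ, rfl⟩, mem_conj.2 ⟨σ, rfl⟩⟩
  have hY : ∀ σ : E ≃ₐ[F] E, ∀ x ∈ Y, σ • x ∈ Y := by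
    intro σ x hx
    obtain ⟨τ, rfl⟩ := (hmem x).1 hx
    exact (hmem _).2 ⟨σ * τ, mul_smul _ _ _⟩
  have h1 := sum_push hY (f := Prod.fst) (fun _ _ _ => rfl) (y := y)
    (fun p hp => (Finset.mem_product.1 (Finset.mem_filter.1 hp).1).1) (lg v s)
  have h2 := sum_push hY (f := Prod.snd) (fun _ _ _ => rfl) (y := z)
    (fun p hp => (Finset.mem_product.1 (Finset.mem_filter.1 hp).1).2) (lg v s)
  have h3 := sum_push hY (f := fun p => p.1 * p.2) (fun σ p _ => (map_mul σ p.1 p.2).symm)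
    (y := y * z) (fun p hp => by
      obtain ⟨τ, rfl⟩ := (hmem p).1 hp
      exact mem_conj.2 ⟨τ, map_mul τ y z⟩) (lg v s)
  have h4 : (Y.card : ℝ) ≠ 0 := by
    exact_mod_cast (Finset.card_pos.2 ⟨_, (hmem _).2 ⟨1, rfl⟩⟩).ne'
  apply mul_left_cancel₀ h4
  rw [mul_add, lam, lam, lam, ← h1, ← h2, ← h3, ← Finset.sum_add_distrib]
  refine Finset.sum_congr rfl fun p hp => ?_
  have := Finset.mem_product.1 (Finset.mem_filter.1 hp).1
  exact lg_mul (ne_zero_of_mem_conj this.1 hy) (ne_zero_of_mem_conj this.2 hz)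

lemma lam_le' {y : E} {B : ℝ} (h : ∀ σ : E ≃ₐ[F] E, lg v s (σ y) ≤ B) : lam F v s y ≤ B := by
  have h2 : (0 : ℝ) < (conj F y).card := by exact_mod_cast card_conj_pos y
  rw [lam, div_le_iff₀ h2, mul_comm, ← nsmul_eq_mul]
  refine Finset.sum_le_card_nsmul _ _ _ fun z hz => ?_
  obtain ⟨σ, rfl⟩ := mem_conj.1 hz
  exact h σ

lemma lam_le (hs : 1 < v s) {y : E} (hy : y ≠ 0) {n : ℤ}
    (h : ∀ σ : E ≃ₐ[F] E, v (σ y) ≤ v s ^ n) : lam F v s y ≤ n :=
  lam_le' fun σ => lg_le hs (by simpa using hy) (h σ)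

lemma lam_eq (hs : 1 < v s) {y : E} {n : ℤ} (h : ∀ σ : E ≃ₐ[F] E, v (σ y) = v s ^ n) :
    lam F v s y = n := by
  have h2 : ((conj F y).card : ℝ) ≠ 0 := by exact_mod_cast (card_conj_pos y).ne'
  rw [lam, Finset.sum_congr rfl (g := fun _ => (n : ℝ)) (fun z hz => by
    obtain ⟨σ, rfl⟩ := mem_conj.1 hz
    exact lg_eq hs (h σ)), Finset.sum_const, nsmul_eq_mul, mul_div_cancel_left₀ _ h2]

lemma lam_one : lam F v s (1 : E) = 0 := by
  have := lam_mul (F := F) (v := v) (s := s) (one_ne_zero (α := E)) one_ne_zero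
  rw [mul_one] at this
  linarith

lemma lam_pow {y : E} (hy : y ≠ 0) (n : ℕ) : lam F v s (y ^ n) = n * lam F v s y := by
  induction n with
  | zero => simp [lam_one]
  | succ n ih => rw [pow_succ, lam_mul (pow_ne_zero _ hy) hy, ih]; push_cast; ring

lemma lam_prod {ι : Type*} (Y : Finset ι) (f : ι → E) (h : ∀ x ∈ Y, f x ≠ 0) :
    lam F v s (∏ x ∈ Y, f x) = ∑ x ∈ Y, lam F v s (f x) := by
  classical
  induction Y using Finset.induction_on with
  | empty => simp [lam_one]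
  | insert a Y ha ih =>
    rw [Finset.prod_insert ha, Finset.sum_insert ha, lam_mul (h a (by simp))
      (Finset.prod_ne_zero_iff.2 fun x hx => h x (by simp [hx])), ih fun x hx => h x (by simp [hx])]

variable {k : Type*} [Field k] [Algebra k[X] E] [Algebra k[X] F] [IsScalarTower k[X] F E]

omit [IsAlgClosed E] [Algebra.IsAlgebraic F E] in
lemma map_A (σ : E ≃ₐ[F] E) (q : k[X]) : σ (algebraMap k[X] E q) = algebraMap k[X] E q := by
  rw [IsScalarTower.algebraMap_apply k[X] F E, AlgEquiv.commutes]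

omit [IsAlgClosed E] [Algebra.IsAlgebraic F E] in
lemma isIntegral_map (σ : E ≃ₐ[F] E) {y : E} (h : IsIntegral k[X] y) : IsIntegral k[X] (σ y) :=
  h.map (σ.toAlgHom.restrictScalars k[X])

lemma isIntegral_of_mem_conj {y z : E} (hz : z ∈ conj F y) (h : IsIntegral k[X] y) :
    IsIntegral k[X] z := by
  obtain ⟨σ, rfl⟩ := mem_conj.1 hz
  exact isIntegral_map σ h

omit [IsAlgClosed E] [Algebra.IsAlgebraic F E] in
lemma map_aeval_A (σ : E ≃ₐ[F] E) (P : k[X][X]) (x : E) : σ (aeval x P) = aeval (σ x) P :=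
  (aeval_algHom_apply (σ.toAlgHom.restrictScalars k[X]) x P).symm

variable [IsFractionRing k[X] F]

lemma AtInf.one_le_of_fixed (h : AtInf k v) {y : E} (hy : IsIntegral k[X] y) (h0 : y ≠ 0)
    (hf : ∀ σ : E ≃ₐ[F] E, σ y = y) : 1 ≤ v y := by
  classical
  have : FaithfulSMul k[X] E := (faithfulSMul_iff_algebraMap_injective _ _).2 h.injective
  have e := minpoly.isIntegrallyClosed_eq_field_fractions' F hy
  have hm : ((minpoly k[X] y).map (algebraMap k[X] E)).Monic := (minpoly.monic hy).map _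
  have h1 := (IsAlgClosed.splits _).coeff_zero_eq_prod_roots_of_monic hm
  have h2 : ((minpoly k[X] y).map (algebraMap k[X] E)).roots = Multiset.replicate
      ((minpoly k[X] y).map (algebraMap k[X] E)).roots.card y := by
    rw [Multiset.eq_replicate]
    refine ⟨rfl, fun z hz => ?_⟩
    have : z ∈ conj F y := by
      rw [conj, Multiset.mem_toFinset, e, aroots, Polynomial.map_map,
        ← IsScalarTower.algebraMap_eq]
      exact hz
    obtain ⟨σ, rfl⟩ := mem_conj.1 this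
    exact hf σ
  rw [h2, Multiset.prod_replicate, coeff_map, IsAlgClosed.card_roots_eq_natDegree,
    (minpoly.monic hy).natDegree_map] at h1
  have h3 : (minpoly k[X] y).coeff 0 ≠ 0 := by
    intro h3
    rw [h3, map_zero] at h1
    simp [h0] at h1
  have h4 := h.one_le h3
  rw [h1] at h4
  simp only [map_mul, map_pow, Valuation.map_neg, map_one, one_pow, one_mul] at h4
  exact (one_le_pow_iff_of_nonneg zero_le (minpoly.natDegree_pos hy).ne').1 h4

lemma AtInf.one_le_prod (h : AtInf k v) {Z : Type*} [MulAction (E ≃ₐ[F] E) Z] {Y : Finset Z}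
    (hY : ∀ σ : E ≃ₐ[F] E, ∀ x ∈ Y, σ • x ∈ Y) {f : Z → E}
    (hf : ∀ σ : E ≃ₐ[F] E, ∀ x ∈ Y, f (σ • x) = σ (f x))
    (hi : ∀ x ∈ Y, IsIntegral k[X] (f x) ∧ f x ≠ 0) : 1 ≤ v (∏ x ∈ Y, f x) := by
  refine h.one_le_of_fixed (F := F) (IsIntegral.prod _ fun x hx => (hi x hx).1)
    (Finset.prod_ne_zero_iff.2 fun x hx => (hi x hx).2) fun σ => ?_
  rw [map_prod, ← prod_smul hY f σ]
  exact Finset.prod_congr rfl fun x hx => (hf σ x hx).symm

lemma AtInf.lam_nonneg (h : AtInf k v) (hs : 1 < v s) {y : E} (hy : IsIntegral k[X] y)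
    (h0 : y ≠ 0) : 0 ≤ lam F v s y := by
  refine div_nonneg ?_ (Nat.cast_nonneg _)
  rw [← lg_prod _ (fun z => z) fun z hz => ne_zero_of_mem_conj hz h0]
  exact lg_nonneg hs (h.one_le_prod (F := F) (Y := conj F y) (fun σ z hz => map_mem_conj hz σ)
    (fun _ _ _ => rfl) fun z hz => ⟨isIntegral_of_mem_conj hz hy, ne_zero_of_mem_conj hz h0⟩)

end Pool.Agent.Work.MP_969914_nt.H70
end

-- merged part: Pool.Agent.Work.MP_969914_nt.H70Jet
section
/-! Derivatives of separable integral elements with respect to the parameter. -/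

set_option autoImplicit false

open Polynomial
open scoped NNReal

namespace Pool.Agent.Work.MP_969914_nt.H70

variable {k : Type*} [Field k] {E : Type*} [Field E] [Algebra k[X] E]

lemma dT_add (P Q : k[X][X]) : dT (P + Q) = dT P + dT Q := by
  ext1 i; simp [coeff_dT]

lemma dT_mul (P Q : k[X][X]) : dT (P * Q) = dT P * Q + P * dT Q := by
  ext1 i
  simp [coeff_dT, coeff_mul, Finset.sum_add_distrib]

lemma dT_C (a : k[X]) : dT (C a) = C (derivative a) := by
  ext1 i
  simp only [coeff_dT, coeff_C]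
  split_ifs <;> simp

lemma dT_X : dT (X : k[X][X]) = 0 := by
  ext1 i
  simp only [coeff_dT, coeff_X, coeff_zero]
  split_ifs <;> simp

/-- The total derivative of `P(t, z)` when `z` has derivative `u`. -/
noncomputable def del (z u : E) (P : k[X][X]) : E :=
  aeval z (dT P) + aeval z (derivative P) * u

lemma del_add (z u : E) (P Q : k[X][X]) : del z u (P + Q) = del z u P + del z u Q := by
  simp only [del, dT_add, map_add]; ring

lemma del_mul (z u : E) (P Q : k[X][X]) :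
    del z u (P * Q) = del z u P * aeval z Q + aeval z P * del z u Q := by
  simp only [del, dT_mul, derivative_mul, map_add, map_mul]; ring

lemma del_C (z u : E) (a : k[X]) : del z u (C a) = algebraMap k[X] E (derivative a) := by
  simp [del, dT_C]

lemma del_X (z u : E) : del z u (X : k[X][X]) = u := by simp [del, dT_X]

lemma del_neg (z u : E) (P : k[X][X]) : del z u (-P) = -del z u P := by
  have h1 := del_add z u P (-P)
  have h2 := del_C z u (0 : k[X])
  rw [map_zero, derivative_zero, map_zero] at h2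
  rw [add_neg_cancel, h2] at h1
  linear_combination -h1

lemma del_sub (z u : E) (P Q : k[X][X]) : del z u (P - Q) = del z u P - del z u Q := by
  rw [sub_eq_add_neg, del_add, del_neg, sub_eq_add_neg]

lemma del_comp (z u : E) (P Q : k[X][X]) :
    del z u (P.comp Q) = del (aeval z Q) (del z u Q) P := by
  induction P using Polynomial.induction_on with
  | C a => simp [del_C]
  | add p q hp hq => rw [add_comp, del_add, del_add, hp, hq]
  | monomial n a ih =>
    rw [pow_succ, ← mul_assoc, mul_comp, X_comp, del_mul, del_mul (aeval z Q), ih, del_X,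
      aeval_comp, aeval_X]

/-- `u` is the derivative of `z`. -/
def IsDer (k : Type*) [Field k] [Algebra k[X] E] (z u : E) : Prop :=
  ∀ P : k[X][X], aeval z P = 0 → del z u P = 0

/-- The derivative of `z`. -/
noncomputable def du (k : Type*) [Field k] [Algebra k[X] E] (z : E) : E :=
  Classical.epsilon (IsDer k z)

lemma IsDer.aeval {z u : E} (h : IsDer k z u) (Q : k[X][X]) : IsDer k (aeval z Q) (del z u Q) :=
  fun P hP => by rw [← del_comp]; exact h _ (by rwa [aeval_comp])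

variable (F : Type*) [Field F] [Algebra F E]

open Classical in
/-- The different of `z`. -/
noncomputable def Dd (z : E) : E := ∏ y ∈ (conj F z).erase z, (z - y)

/-- Separable integral elements. -/
noncomputable def IS (k : Type*) [Field k] [Algebra k[X] E] : Subring E :=
  (integralClosure k[X] E).toSubring ⊓ (separableClosure F E).toSubring

variable {F}

lemma mem_IS {z : E} : z ∈ IS F k ↔ IsIntegral k[X] z ∧ IsSeparable F z := Iff.rfl

lemma Dd_ne_zero (z : E) : Dd F z ≠ 0 := by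
  classical
  exact Finset.prod_ne_zero_iff.2 fun y hy => sub_ne_zero.2 (Finset.mem_erase.1 hy).1.symm

lemma sqrt_mem_IS (h2 : (2 : E) ≠ 0) {z : E} (h : z ^ 2 ∈ IS F k) : z ∈ IS F k := by
  refine ⟨IsIntegral.of_pow (by norm_num) h.1, ?_⟩
  by_cases h0 : z = 0
  · rw [h0]; exact zero_mem _
  set a : separableClosure F E := ⟨z ^ 2, h.2⟩ with ha
  have h3 : (X ^ 2 - C a).Separable := separable_X_pow_sub_C a
    (fun h' => h2 (congrArg Subtype.val h'))
    (fun h' => h0 (by simpa [ha] using congrArg Subtype.val h'))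
  exact IsSeparable.of_algebra_isSeparable_of_isSeparable F (E := separableClosure F E)
    (h3.of_dvd (minpoly.dvd _ z (by simp [ha])))

variable [Algebra k[X] F] [IsScalarTower k[X] F E]

lemma algebraMap_mem_IS (q : k[X]) : algebraMap k[X] E q ∈ IS F k :=
  ⟨isIntegral_algebraMap, by
    rw [IsScalarTower.algebraMap_apply k[X] F E]; exact IntermediateField.algebraMap_mem _ _⟩

lemma aeval_mem_IS {z : E} (h : z ∈ IS F k) (P : k[X][X]) : aeval z P ∈ IS F k := by
  rw [aeval_eq_sum_range]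
  refine sum_mem fun i _ => ?_
  rw [Algebra.smul_def]
  exact mul_mem (algebraMap_mem_IS _) (pow_mem h _)

lemma map_mem_IS (σ : E ≃ₐ[F] E) {z : E} (h : z ∈ IS F k) : σ z ∈ IS F k :=
  ⟨isIntegral_map σ h.1, (map_mem_separableClosure_iff σ.toAlgHom).2 h.2⟩

lemma map_del (σ : E ≃ₐ[F] E) (z u : E) (P : k[X][X]) : σ (del z u P) = del (σ z) (σ u) P := by
  simp only [del, map_add, map_mul, map_aeval_A]

lemma IsDer.map {z u : E} (h : IsDer k z u) (σ : E ≃ₐ[F] E) : IsDer k (σ z) (σ u) :=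
  fun P hP => by
    rw [← map_del, h P (σ.injective (by rw [map_aeval_A, hP, map_zero])), map_zero]

variable [IsAlgClosed E] [Algebra.IsAlgebraic F E]

lemma mem_IS_of_mem_conj {y z : E} (hz : z ∈ conj F y) (h : y ∈ IS F k) : z ∈ IS F k := by
  obtain ⟨σ, rfl⟩ := mem_conj.1 hz
  exact map_mem_IS σ h

omit [Algebra k[X] F] [IsScalarTower k[X] F E] in
lemma map_prod_conj {M : Type*} [CommMonoid M] (σ : E ≃ₐ[F] E) (z : E) (p : E → Prop)
    [DecidablePred p] (p' : E → Prop) [DecidablePred p'] (hp : ∀ y, p' (σ y) ↔ p y) (f : E → M) :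
    ∏ y ∈ (conj F z).filter p, f (σ y) = ∏ y ∈ (conj F z).filter p', f y := by
  refine Finset.prod_nbij' σ σ.symm ?_ ?_ (by simp) (by simp) (fun _ _ => rfl)
  · intro y hy
    rw [Finset.mem_filter] at hy ⊢
    exact ⟨map_mem_conj hy.1 σ, (hp y).2 hy.2⟩
  · intro y hy
    rw [Finset.mem_filter] at hy ⊢
    exact ⟨map_mem_conj hy.1 σ.symm, (hp _).1 (by simpa using hy.2)⟩

omit [Algebra k[X] F] [IsScalarTower k[X] F E] in
lemma map_Dd (σ : E ≃ₐ[F] E) (z : E) : σ (Dd F z) = Dd F (σ z) := by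
  classical
  rw [Dd, Dd, conj_eq (map_mem_conj (self_mem_conj z) σ), ← Finset.filter_ne',
    ← Finset.filter_ne', ← map_prod_conj σ z (· ≠ z) (· ≠ σ z) (by simp), map_prod]
  simp

lemma Dd_mem_IS {z : E} (h : z ∈ IS F k) : Dd F z ∈ IS F k := by
  classical
  exact prod_mem fun y hy => sub_mem h (mem_IS_of_mem_conj (Finset.mem_erase.1 hy).2 h)

variable [IsFractionRing k[X] F]

lemma exists_lift {R : E[X]} (h1 : R ∈ liftsRing (IS F k).subtype)
    (h2 : ∀ σ : E ≃ₐ[F] E, R.map (σ : E →+* E) = R) :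
    ∃ R0 : k[X][X], R0.map (algebraMap k[X] E) = R := by
  rw [← lifts_iff_liftsRing, lifts_iff_coeff_lifts] at h1
  rw [← mem_lifts, lifts_iff_coeff_lifts]
  intro n
  obtain ⟨⟨x, hx⟩, hx'⟩ := h1 n
  change x = _ at hx'
  subst hx'
  obtain ⟨y, hy⟩ := mem_range_of_fixed (F := F) hx.2 fun σ => by
    simpa using congrArg (fun p => p.coeff n) (h2 σ)
  have h3 : IsIntegral k[X] y := by
    rw [← isIntegral_algebraMap_iff (algebraMap F E).injective, hy]; exact hx.1
  obtain ⟨q, hq⟩ := IsIntegrallyClosed.isIntegral_iff.1 h3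
  exact ⟨q, by rw [IsScalarTower.algebraMap_apply k[X] F E, hq, hy]⟩

omit [Algebra k[X] F] [IsScalarTower k[X] F E] [IsAlgClosed E] [Algebra.IsAlgebraic F E]
  [IsFractionRing k[X] F] in
lemma C_mem_liftsRing {z : E} (h : z ∈ IS F k) : C z ∈ liftsRing (IS F k).subtype :=
  (lifts_iff_liftsRing _ _).1 (C'_mem_lifts ⟨⟨z, h⟩, rfl⟩)

omit [Algebra k[X] F] [IsScalarTower k[X] F E] [IsAlgClosed E] [Algebra.IsAlgebraic F E]
  [IsFractionRing k[X] F] in
lemma X_sub_C_mem_liftsRing {z : E} (h : z ∈ IS F k) : X - C z ∈ liftsRing (IS F k).subtype :=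
  sub_mem ((lifts_iff_liftsRing _ _).1 (X_mem_lifts _)) (C_mem_liftsRing h)

lemma exists_min {z : E} (h : z ∈ IS F k) : ∃ g : k[X][X], aeval z g = 0 ∧
    aeval z (derivative g) = Dd F z ∧ ∀ P : k[X][X], aeval z P = 0 → g ∣ P := by
  classical
  obtain ⟨g, hg⟩ := exists_lift (F := F) (k := k) (R := ∏ y ∈ conj F z, (X - C y))
    (prod_mem fun y hy => X_sub_C_mem_liftsRing (mem_IS_of_mem_conj hy h)) fun σ => by
      rw [Polynomial.map_prod, ← prod_smul (Y := conj F z) (fun σ z hz => map_mem_conj hz σ)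
        (fun y => X - C y) σ]
      simp
  have hinj : Function.Injective (algebraMap k[X] E) := by
    rw [IsScalarTower.algebraMap_eq k[X] F E]
    exact (algebraMap F E).injective.comp (IsFractionRing.injective _ _)
  refine ⟨g, ?_, ?_, fun P hP => ?_⟩
  · rw [← eval_map_algebraMap, hg, eval_prod]
    exact Finset.prod_eq_zero (self_mem_conj z) (by simp)
  · rw [← eval_map_algebraMap, ← derivative_map, hg, derivative_prod_finset, eval_finsetSum,
      Finset.sum_eq_single z]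
    · simp [Dd, eval_prod]
    · intro y _ hy
      rw [eval_mul, eval_prod,
        Finset.prod_eq_zero (Finset.mem_erase.2 ⟨hy.symm, self_mem_conj z⟩) (by simp), zero_mul]
    · intro h'; exact absurd (self_mem_conj z) h'
  · have hm : g.Monic := monic_of_injective hinj (by
      rw [hg]; exact monic_prod_of_monic _ _ fun y _ => monic_X_sub_C y)
    rw [← map_dvd_map _ hinj hm, hg]
    refine Finset.prod_dvd_of_coprime
      ((pairwise_coprime_X_sub_C Function.injective_id).set_pairwise _) fun y hy => ?_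
    obtain ⟨σ, rfl⟩ := mem_conj.1 hy
    rw [dvd_iff_isRoot, IsRoot.def, eval_map_algebraMap, ← map_aeval_A, hP, map_zero]

lemma isDer_du {z : E} (h : z ∈ IS F k) : IsDer k z (du k z) := by
  obtain ⟨g, h1, h2, h3⟩ := exists_min h
  refine Classical.epsilon_spec ⟨-aeval z (dT g) / Dd F z, fun P hP => ?_⟩
  obtain ⟨Q, rfl⟩ := h3 P hP
  have := Dd_ne_zero (F := F) z
  rw [del_mul, h1, zero_mul, add_zero, del, h2, mul_div_cancel₀ _ this]
  simp

lemma IsDer.eq_du {z u : E} (hu : IsDer k z u) (h : z ∈ IS F k) : du k z = u := by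
  obtain ⟨g, h1, h2, -⟩ := exists_min h
  have e1 := hu g h1
  have e2 := isDer_du h g h1
  rw [del, h2] at e1 e2
  exact mul_left_cancel₀ (Dd_ne_zero (F := F) z) (by linear_combination e2 - e1)

lemma map_du (σ : E ≃ₐ[F] E) {z : E} (h : z ∈ IS F k) : σ (du k z) = du k (σ z) :=
  (((isDer_du h).map σ).eq_du (map_mem_IS σ h)).symm

lemma du_aeval {z : E} (h : z ∈ IS F k) (Q : k[X][X]) : du k (aeval z Q) = del z (du k z) Q :=
  ((isDer_du h).aeval Q).eq_du (aeval_mem_IS h Q)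

lemma du_fq {z : E} (h : z ∈ IS F k) (c : k[X]) : du k (fq (algebraMap k[X] E c) z) =
    2 * z * du k z + algebraMap k[X] E (derivative c) := by
  have := du_aeval h (X * X + C c)
  rw [del_add, del_mul, del_X, del_C] at this
  simp only [map_add, map_mul, aeval_X, aeval_C] at this
  rw [fq, sq, this]; ring

lemma isIntegral_del {z : E} (h : z ∈ IS F k) (Q : k[X][X]) :
    IsIntegral k[X] (Dd F z * del z (du k z) Q) := by
  obtain ⟨g, h1, h2, -⟩ := exists_min h
  have e2 := isDer_du h g h1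
  rw [del, h2] at e2
  have : Dd F z * del z (du k z) Q =
      Dd F z * aeval z (dT Q) - aeval z (derivative Q) * aeval z (dT g) := by
    rw [del]; linear_combination aeval z (derivative Q) * e2
  rw [this]
  exact ((Dd_mem_IS h).1.mul (aeval_mem_IS h _).1).sub
    ((aeval_mem_IS h _).1.mul (aeval_mem_IS h _).1)

lemma exists_aeval_eq {z : E} (h : z ∈ IS F k) {f : E → E}
    (hf : ∀ σ : E ≃ₐ[F] E, ∀ x ∈ conj F z, f (σ x) = σ (f x)) (hf' : f z ∈ IS F k) :
    ∃ R : k[X][X], aeval z R = Dd F z * f z := by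
  classical
  have hf2 : ∀ x ∈ conj F z, f x ∈ IS F k := by
    intro x hx
    obtain ⟨σ, rfl⟩ := mem_conj.1 hx
    rw [hf σ z (self_mem_conj z)]
    exact map_mem_IS σ hf'
  obtain ⟨R, hR⟩ := exists_lift (F := F) (k := k)
    (R := ∑ x ∈ conj F z, C (f x) * ∏ y ∈ (conj F z).filter (· ≠ x), (X - C y))
    (sum_mem fun x hx => mul_mem (C_mem_liftsRing (hf2 x hx)) (prod_mem fun y hy =>
      X_sub_C_mem_liftsRing (mem_IS_of_mem_conj (Finset.mem_filter.1 hy).1 h))) fun σ => by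
      rw [Polynomial.map_sum]
      refine Finset.sum_nbij' σ σ.symm (fun x hx => map_mem_conj hx σ)
        (fun x hx => map_mem_conj hx σ.symm) (by simp) (by simp) fun x hx => ?_
      rw [← map_prod_conj σ z (· ≠ x) (· ≠ σ x) (by simp), hf σ x hx, Polynomial.map_mul,
        Polynomial.map_prod]
      simp
  refine ⟨R, ?_⟩
  rw [← eval_map_algebraMap, hR, eval_finsetSum, Finset.sum_eq_single z]
  · simp [Dd, eval_prod, Finset.filter_ne', mul_comm]
  · intro y _ hy
    rw [eval_mul, eval_prod, Finset.prod_eq_zero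
      (Finset.mem_filter.2 ⟨self_mem_conj z, hy.symm⟩) (by simp), mul_zero]
  · intro h'; exact absurd (self_mem_conj z) h'

/-- The formal derivative of a square root lying in the field generated by `z`. -/
lemma isIntegral_sqrt_der {z : E} (h : z ∈ IS F k) {f : E → E}
    (hf : ∀ σ : E ≃ₐ[F] E, ∀ x ∈ conj F z, f (σ x) = σ (f x)) (hf' : f z ∈ IS F k)
    (h2 : (2 : E) ≠ 0) (h0 : f z ≠ 0) {x : k[X]} (he : f z ^ 2 = algebraMap k[X] E x - z) :
    IsIntegral k[X] (Dd F z ^ 2 * ((algebraMap k[X] E (derivative x) - du k z) / (2 * f z))) := by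
  obtain ⟨R, hR⟩ := exists_aeval_eq h hf hf'
  obtain ⟨g, h1, hg, -⟩ := exists_min h
  have e := isDer_du h (R * R - derivative g * derivative g * (C x - X)) (by
    simp only [map_sub, map_mul, hR, hg, aeval_C, aeval_X, ← he]; ring)
  simp only [del_sub, del_mul, del_C, del_X, map_sub, map_mul, hR, hg, aeval_C, aeval_X,
    ← he] at e
  have hD := Dd_ne_zero (F := F) z
  have : Dd F z ^ 2 * ((algebraMap k[X] E (derivative x) - du k z) / (2 * f z)) =
      Dd F z * del z (du k z) R - Dd F z * del z (du k z) (derivative g) * f z := by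
    field_simp
    apply mul_left_cancel₀ hD
    linear_combination -e
  rw [this]
  exact (isIntegral_del h R).sub ((isIntegral_del h _).mul hf'.1)

end Pool.Agent.Work.MP_969914_nt.H70
end

-- merged part: Pool.Agent.Work.MP_969914_nt.H70Delta
section
/-! Decomposition of the different along a branch of the preimage tree. -/

set_option autoImplicit false

open Polynomial
open scoped NNReal

namespace Pool.Agent.Work.MP_969914_nt.H70

variable {E : Type*} [Field E] (F : Type*) [Field F] [Algebra F E]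

open Classical in
/-- The part of the different coming from conjugates that become opposite after `j` steps. -/
noncomputable def piS (c z : E) (j : ℕ) : E :=
  ∏ y ∈ (conj F z).filter fun y => (fq c)^[j] y = -(fq c)^[j] z, (z - y)

open Classical in
/-- The companion product of sums. -/
noncomputable def piP (c z : E) (j : ℕ) : E :=
  ∏ y ∈ (conj F z).filter fun y => (fq c)^[j] y = -(fq c)^[j] z, (z + y)

open Classical in
/-- The part of the different coming from conjugates that are still distinct after `j` steps. -/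
noncomputable def piN (c z : E) (j : ℕ) : E :=
  ∏ y ∈ (conj F z).filter fun y => (fq c)^[j] y ≠ (fq c)^[j] z, (z - y)

variable {F} {c z : E}

lemma fq_eq_iff {x y : E} : fq c x = fq c y ↔ x = y ∨ x = -y := by
  simp only [fq, add_left_inj, sq_eq_sq_iff_eq_or_eq_neg]

lemma piN_zero : piN F c z 0 = Dd F z := by
  classical
  rw [piN, Dd, ← Finset.filter_ne']
  rfl

lemma ne_neg_self (h2 : (2 : E) ≠ 0) {x : E} (h : x ≠ 0) : x ≠ -x := fun h' =>
  mul_ne_zero h2 h (by linear_combination h')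

lemma piN_succ (h2 : (2 : E) ≠ 0) {j : ℕ} (h : (fq c)^[j] z ≠ 0) :
    piN F c z j = piN F c z (j + 1) * piS F c z j := by
  classical
  rw [piN, piN, piS, ← Finset.prod_union]
  · congr 1
    ext y
    simp only [Finset.mem_filter, Finset.mem_union, Function.iterate_succ_apply', ne_eq, fq_eq_iff]
    have := ne_neg_self h2 h
    grind
  · rw [Finset.disjoint_filter]
    intro y _ h1 h3
    rw [Function.iterate_succ_apply', Function.iterate_succ_apply', ne_eq, fq_eq_iff] at h1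
    exact h1 (Or.inr h3)

lemma piN_ne_zero (j : ℕ) : piN F c z j ≠ 0 := by
  classical
  refine Finset.prod_ne_zero_iff.2 fun y hy => sub_ne_zero.2 ?_
  rintro rfl
  exact (Finset.mem_filter.1 hy).2 rfl

lemma piS_ne_zero (h2 : (2 : E) ≠ 0) {j : ℕ} (h : (fq c)^[j] z ≠ 0) : piS F c z j ≠ 0 := by
  classical
  refine Finset.prod_ne_zero_iff.2 fun y hy => sub_ne_zero.2 ?_
  rintro rfl
  exact ne_neg_self h2 h (Finset.mem_filter.1 hy).2

lemma map_iter (σ : E ≃ₐ[F] E) (hc : σ c = c) (n : ℕ) (x : E) :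
    σ ((fq c)^[n] x) = (fq c)^[n] (σ x) := by
  have := map_fq (σ : E →+* E) c n x
  rwa [RingHom.coe_coe, hc] at this

variable [IsAlgClosed E] [Algebra.IsAlgebraic F E]

lemma iter_mem_conj (hc : ∀ σ : E ≃ₐ[F] E, σ c = c) {y : E} (hy : y ∈ conj F z) (n : ℕ) :
    (fq c)^[n] y ∈ conj F ((fq c)^[n] z) := by
  obtain ⟨σ, rfl⟩ := mem_conj.1 hy
  exact mem_conj.2 ⟨σ, map_iter σ (hc σ) n z⟩

lemma exists_conj_pre (hc : ∀ σ : E ≃ₐ[F] E, σ c = c) {y : E} (hy : y ∈ conj F (fq c z)) :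
    ∃ x ∈ conj F z, fq c x = y := by
  obtain ⟨σ, rfl⟩ := mem_conj.1 hy
  exact ⟨σ z, mem_conj.2 ⟨σ, rfl⟩, (map_iter σ (hc σ) 1 z).symm⟩

lemma neg_mem_conj_iff {y : E} (hy : y ∈ conj F z) : -y ∈ conj F z ↔ -z ∈ conj F z := by
  obtain ⟨σ, rfl⟩ := mem_conj.1 hy
  rw [← map_neg, map_mem_conj_iff]

open Classical in
lemma fiber_good (hz : -z ∈ conj F z) {x : E} (hx : x ∈ conj F z) :
    (conj F z).filter (fun y => fq c y = fq c x) = {x, -x} := by
  ext y
  simp only [Finset.mem_filter, fq_eq_iff, Finset.mem_insert, Finset.mem_singleton,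
    and_iff_right_iff_imp]
  rintro (rfl | rfl)
  · exact hx
  · exact (neg_mem_conj_iff hx).2 hz

open Classical in
lemma fiber_bad (hz : -z ∉ conj F z) {x : E} (hx : x ∈ conj F z) :
    (conj F z).filter (fun y => fq c y = fq c x) = {x} := by
  ext y
  simp only [Finset.mem_filter, fq_eq_iff, Finset.mem_singleton]
  constructor
  · rintro ⟨h, rfl | rfl⟩
    · rfl
    · exact absurd ((neg_mem_conj_iff hx).1 h) hz
  · rintro rfl; exact ⟨hx, Or.inl rfl⟩

open Classical in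
lemma prod_fiber {M : Type*} [CommMonoid M] (hc : ∀ σ : E ≃ₐ[F] E, σ c = c) (p : E → Prop)
    (f g : E → M) (h : ∀ x ∈ conj F z,
      ∏ y ∈ (conj F z).filter (fun y => fq c y = fq c x), f y = g (fq c x)) :
    ∏ y ∈ (conj F z).filter (fun y => p (fq c y)), f y =
      ∏ y ∈ (conj F (fq c z)).filter p, g y := by
  rw [← Finset.prod_fiberwise_of_maps_to (g := fq c) (t := (conj F (fq c z)).filter p)
    (fun y hy => by
      rw [Finset.mem_filter] at hy ⊢
      exact ⟨iter_mem_conj hc hy.1 1, hy.2⟩)]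
  refine Finset.prod_congr rfl fun y hy => ?_
  rw [Finset.mem_filter] at hy
  obtain ⟨x, hx, rfl⟩ := exists_conj_pre hc hy.1
  rw [← h x hx, Finset.filter_filter]
  refine Finset.prod_congr (Finset.filter_congr fun y _ => ?_) fun _ _ => rfl
  exact ⟨fun h => h.2, fun h => ⟨h ▸ hy.2, h⟩⟩

open Classical in
lemma prod_good {M : Type*} [CommMonoid M] (hc : ∀ σ : E ≃ₐ[F] E, σ c = c) (h2 : (2 : E) ≠ 0)
    (h0 : z ≠ 0) (hz : -z ∈ conj F z) (p : E → Prop) (f g : E → M)
    (h : ∀ x, f x * f (-x) = g (fq c x)) :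
    ∏ y ∈ (conj F z).filter (fun y => p (fq c y)), f y =
      ∏ y ∈ (conj F (fq c z)).filter p, g y :=
  prod_fiber hc p f g fun x hx => by
    rw [fiber_good hz hx, Finset.prod_pair (ne_neg_self h2 (ne_zero_of_mem_conj hx h0)), h]

open Classical in
lemma prod_bad {M : Type*} [CommMonoid M] (hc : ∀ σ : E ≃ₐ[F] E, σ c = c)
    (hz : -z ∉ conj F z) (p : E → Prop) (f g : E → M) (h : ∀ x, f x = g (fq c x)) :
    ∏ y ∈ (conj F z).filter (fun y => p (fq c y)), f y =
      ∏ y ∈ (conj F (fq c z)).filter p, g y :=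
  prod_fiber hc p f g fun x hx => by rw [fiber_bad hz hx, Finset.prod_singleton, h]

lemma card_good (hc : ∀ σ : E ≃ₐ[F] E, σ c = c) (h2 : (2 : E) ≠ 0) (h0 : z ≠ 0)
    (hz : -z ∈ conj F z) : (conj F z).card = 2 * (conj F (fq c z)).card := by
  classical
  have := prod_good (M := Multiplicative ℕ) hc h2 h0 hz (fun _ => True)
    (fun _ => Multiplicative.ofAdd 1) (fun _ => Multiplicative.ofAdd 2) fun _ => rfl
  simp only [Finset.filter_true, Finset.prod_const, ← ofAdd_nsmul, smul_eq_mul,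
    EmbeddingLike.apply_eq_iff_eq] at this
  omega

lemma card_bad (hc : ∀ σ : E ≃ₐ[F] E, σ c = c) (hz : -z ∉ conj F z) :
    (conj F z).card = (conj F (fq c z)).card := by
  classical
  have := prod_bad (M := Multiplicative ℕ) hc hz (fun _ => True)
    (fun _ => Multiplicative.ofAdd 1) (fun _ => Multiplicative.ofAdd 1) fun _ => rfl
  simpa only [Finset.filter_true, Finset.prod_const, ← ofAdd_nsmul, smul_eq_mul, mul_one,
    EmbeddingLike.apply_eq_iff_eq] using this

lemma piS_bad (hc : ∀ σ : E ≃ₐ[F] E, σ c = c) (hz : -z ∉ conj F z) (j : ℕ) :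
    piS F c z (j + 1) * piP F c z (j + 1) = piS F c (fq c z) j := by
  classical
  rw [piS, piP, ← Finset.prod_mul_distrib, piS]
  exact prod_bad hc hz (fun y => (fq c)^[j] y = -(fq c)^[j] (fq c z))
    (fun y => (z - y) * (z + y)) (fun y => fq c z - y) fun x => by simp only [fq]; ring

variable {k : Type*} [Field k] [Algebra k[X] E] [Algebra k[X] F] [IsScalarTower k[X] F E]
  [IsFractionRing k[X] F] {v : Valuation E ℝ≥0} {s : E}

open Classical in
lemma AtInf.lam_filter_le (h : AtInf k v) (hs : 1 < v s) (hc : ∀ σ : E ≃ₐ[F] E, σ c = c)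
    (h0 : z ≠ 0) (hi : IsIntegral k[X] z) (p : E → Prop) (hp : ¬ p (fq c z)) :
    lam F v s (∏ y ∈ (conj F z).filter (fun y => p (fq c y)), (z - y)) ≤
      lam F v s (∏ y ∈ (conj F (fq c z)).filter p, (fq c z - y)) := by
  by_cases hz : -z ∈ conj F z
  · rw [prod_good hc h.two_ne h0 hz p _ (fun y => fq c z - y) fun x => by simp only [fq]; ring]
  · have e := prod_bad hc hz p (fun y => (z - y) * (z + y)) (fun y => fq c z - y)
      fun x => by simp only [fq]; ring
    have h1 : ∏ y ∈ (conj F (fq c z)).filter p, (fq c z - y) ≠ 0 := by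
      refine Finset.prod_ne_zero_iff.2 fun y hy => sub_ne_zero.2 ?_
      rintro rfl
      exact hp (Finset.mem_filter.1 hy).2
    rw [← e, Finset.prod_mul_distrib] at h1 ⊢
    rw [lam_mul (left_ne_zero_of_mul h1) (right_ne_zero_of_mul h1)]
    have := h.lam_nonneg (F := F) hs (IsIntegral.prod _ fun y hy =>
      hi.add (isIntegral_of_mem_conj (Finset.mem_filter.1 hy).1 hi)) (right_ne_zero_of_mul h1)
    linarith

omit [IsFractionRing k[X] F] [IsScalarTower k[X] F E] [Algebra k[X] F] in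
lemma lam_Dd (h2 : (2 : E) ≠ 0) (n : ℕ) (h : ∀ j < n, (fq c)^[j] z ≠ 0) :
    lam F v s (Dd F z) = lam F v s (piN F c z n) +
      ∑ j ∈ Finset.range n, lam F v s (piS F c z j) := by
  induction n with
  | zero => simp [piN_zero]
  | succ n ih =>
    rw [ih fun j hj => h j (by omega), piN_succ h2 (h n (by omega)),
      lam_mul (piN_ne_zero _) (piS_ne_zero h2 (h n (by omega))), Finset.sum_range_succ]
    ring

variable (F) in
/-- A branch of the preimage tree above a normalised base point. -/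
structure Branch (v : Valuation E ℝ≥0) (s0 : k[X]) (b : ℕ → E) : Prop where
  hs : 1 < v (algebraMap k[X] E s0)
  step : ∀ n, fq (-algebraMap k[X] E s0 ^ 2) (b (n + 1)) = b n
  mem : b 0 ∈ IS F k
  size : ∀ σ : E ≃ₐ[F] E, v (σ (b 0)) ≤ v (algebraMap k[X] E s0)

open Classical in
variable (F) in
/-- The number of steps below level `n` at which the degree doubles. -/
noncomputable def sG (b : ℕ → E) (n : ℕ) : ℕ :=
  ((Finset.range n).filter fun m => -b (m + 1) ∈ conj F (b (m + 1))).card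

omit [IsAlgClosed E] [Algebra.IsAlgebraic F E] [IsFractionRing k[X] F] in
lemma map_c (s0 : k[X]) (σ : E ≃ₐ[F] E) :
    σ (-algebraMap k[X] E s0 ^ 2) = -algebraMap k[X] E s0 ^ 2 := by
  rw [map_neg, map_pow, map_A]

namespace Branch
variable {s0 : k[X]} {b : ℕ → E} (hb : Branch F v s0 b)
include hb

omit [IsAlgClosed E] [Algebra.IsAlgebraic F E] [IsFractionRing k[X] F] [IsScalarTower k[X] F E]
  [Algebra k[X] F] in
lemma iter (n r : ℕ) : (fq (-algebraMap k[X] E s0 ^ 2))^[r] (b (n + r)) = b n := by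
  induction r with
  | zero => rfl
  | succ r ih => rw [Function.iterate_succ_apply, ← add_assoc, hb.step, ih]

omit [IsAlgClosed E] [Algebra.IsAlgebraic F E] [IsFractionRing k[X] F] [IsScalarTower k[X] F E]
  [Algebra k[X] F] in
lemma iter' {n r : ℕ} (h : r ≤ n) : (fq (-algebraMap k[X] E s0 ^ 2))^[r] (b n) = b (n - r) := by
  rw [← hb.iter (n - r) r, Nat.sub_add_cancel h]

omit [IsAlgClosed E] [Algebra.IsAlgebraic F E] [IsFractionRing k[X] F] in
lemma mem' (h2 : (2 : E) ≠ 0) (n : ℕ) : b n ∈ IS F k := by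
  induction n with
  | zero => exact hb.mem
  | succ n ih =>
    refine sqrt_mem_IS h2 ?_
    rw [show b (n + 1) ^ 2 = b n + algebraMap k[X] E s0 ^ 2 by rw [← hb.step n, fq]; ring]
    exact add_mem ih (pow_mem (algebraMap_mem_IS _) 2)

omit [IsAlgClosed E] [Algebra.IsAlgebraic F E] [IsFractionRing k[X] F] in
lemma size' (σ : E ≃ₐ[F] E) (n : ℕ) : v (σ (b n)) ≤ v (algebraMap k[X] E s0) := by
  refine val_le_of_iter hb.hs (n := n) ?_
  rw [← map_iter σ (map_c s0 σ), hb.iter' le_rfl, Nat.sub_self]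
  exact hb.size σ

omit [IsAlgClosed E] [Algebra.IsAlgebraic F E] [IsFractionRing k[X] F] in
lemma size_eq (σ : E ≃ₐ[F] E) (n : ℕ) : v (σ (b (n + 1))) = v (algebraMap k[X] E s0) := by
  refine val_pre hb.hs ?_
  have := map_iter σ (map_c s0 σ) 1 (b (n + 1))
  rw [Function.iterate_one, hb.step] at this
  rw [← this]
  exact hb.size' σ n

omit [IsAlgClosed E] [Algebra.IsAlgebraic F E] [IsFractionRing k[X] F] in
lemma ne_zero (n : ℕ) : b (n + 1) ≠ 0 := by
  have := hb.size_eq 1 n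
  rw [AlgEquiv.one_apply] at this
  exact v.pos_iff.1 (this ▸ zero_lt_one.trans hb.hs)

omit [IsFractionRing k[X] F] in
lemma card_succ (h2 : (2 : E) ≠ 0) (n : ℕ) :
    (conj F (b (n + 1))).card * 2 ^ sG F b n = (conj F (b n)).card * 2 ^ sG F b (n + 1) := by
  classical
  rw [sG, sG, Finset.range_add_one, Finset.filter_insert]
  split_ifs with h
  · rw [card_good (map_c s0) h2 (hb.ne_zero n) h, hb.step, Finset.card_insert_of_notMem (by simp)]
    ring
  · rw [card_bad (map_c s0) h, hb.step]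

omit [IsFractionRing k[X] F] in
lemma pow_le_card (h2 : (2 : E) ≠ 0) (n : ℕ) : 2 ^ sG F b n ≤ (conj F (b n)).card := by
  induction n with
  | zero => simpa [sG] using card_conj_pos (F := F) (b 0)
  | succ n ih =>
    have := hb.card_succ h2 n
    refine Nat.le_of_mul_le_mul_right (c := 2 ^ sG F b n) ?_ (by positivity)
    rw [this, mul_comm]
    exact Nat.mul_le_mul_right _ ih

lemma piN_le (h : AtInf k v) (n : ℕ) :
    lam F v (algebraMap k[X] E s0) (piN F (-algebraMap k[X] E s0 ^ 2) (b n) n) ≤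
      lam F v (algebraMap k[X] E s0) (Dd F (b 0)) := by
  induction n with
  | zero => rw [piN_zero]
  | succ n ih =>
    refine le_trans ?_ ih
    have := h.lam_filter_le hb.hs (map_c (F := F) s0) (hb.ne_zero n) (hb.mem' h.two_ne _).1
      (fun y => (fq (-algebraMap k[X] E s0 ^ 2))^[n] y ≠ (fq (-algebraMap k[X] E s0 ^ 2))^[n]
        (fq (-algebraMap k[X] E s0 ^ 2) (b (n + 1)))) (by simp)
    rw [← hb.step n]
    simp only [piN, Function.iterate_succ_apply]
    convert this using 3 <;> congr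

lemma piS_le (h : AtInf k v) (m j : ℕ) :
    lam F v (algebraMap k[X] E s0) (piS F (-algebraMap k[X] E s0 ^ 2) (b (m + 1 + j + 1)) (j + 1)) ≤
      lam F v (algebraMap k[X] E s0) (piS F (-algebraMap k[X] E s0 ^ 2) (b (m + 1 + j)) j) := by
  have := h.lam_filter_le hb.hs (map_c (F := F) s0) (hb.ne_zero (m + 1 + j))
    (hb.mem' h.two_ne _).1
    (fun y => (fq (-algebraMap k[X] E s0 ^ 2))^[j] y = -(fq (-algebraMap k[X] E s0 ^ 2))^[j]
      (fq (-algebraMap k[X] E s0 ^ 2) (b (m + 1 + j + 1)))) (by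
        rw [hb.step, hb.iter]; exact ne_neg_self h.two_ne (hb.ne_zero m))
  rw [← hb.step (m + 1 + j), piS, piS]
  exact this

omit [IsFractionRing k[X] F] in
open Classical in
lemma piS_zero (h : AtInf k v) (m : ℕ) :
    lam F v (algebraMap k[X] E s0) (piS F (-algebraMap k[X] E s0 ^ 2) (b (m + 1)) 0) =
      if -b (m + 1) ∈ conj F (b (m + 1)) then 1 else 0 := by
  have e : piS F (-algebraMap k[X] E s0 ^ 2) (b (m + 1)) 0 =
      ∏ y ∈ (conj F (b (m + 1))).filter (· = -b (m + 1)), (b (m + 1) - y) := rfl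
  rw [e]
  split_ifs with h1
  · rw [show (conj F (b (m + 1))).filter (· = -b (m + 1)) = {-b (m + 1)} by ext; simp; grind,
      Finset.prod_singleton]
    have := lam_eq (F := F) hb.hs (y := b (m + 1) - -b (m + 1)) (n := 1) fun σ => by
      rw [sub_neg_eq_add, ← two_mul, map_mul, map_ofNat, map_mul, h.v2, one_mul, zpow_one,
        hb.size_eq]
    simpa using this
  · rw [show (conj F (b (m + 1))).filter (· = -b (m + 1)) = ∅ by ext; simp; grind,
      Finset.prod_empty, lam_one]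

lemma delta_le (h : AtInf k v) (n : ℕ) :
    lam F v (algebraMap k[X] E s0) (Dd F (b n)) ≤ lam F v (algebraMap k[X] E s0) (Dd F (b 0)) +
      ∑ m ∈ Finset.range n, lam F v (algebraMap k[X] E s0)
        (piS F (-algebraMap k[X] E s0 ^ 2) (b (m + 1 + (n - 1 - m))) (n - 1 - m)) := by
  rw [lam_Dd (c := -algebraMap k[X] E s0 ^ 2) h.two_ne n fun j hj => by
    rw [hb.iter' hj.le, show n - j = n - j - 1 + 1 by omega]; exact hb.ne_zero _,
    ← Finset.sum_range_reflect]
  refine add_le_add (hb.piN_le h n) (Finset.sum_congr rfl fun m hm => ?_).le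
  rw [show m + 1 + (n - 1 - m) = n by have := Finset.mem_range.1 hm; omega]

open Classical in
lemma piS_le' (h : AtInf k v) (m j : ℕ) :
    lam F v (algebraMap k[X] E s0) (piS F (-algebraMap k[X] E s0 ^ 2) (b (m + 1 + j)) j) ≤
      if -b (m + 1) ∈ conj F (b (m + 1)) then 1 else 0 := by
  induction j with
  | zero => exact (hb.piS_zero h m).le
  | succ j ih => exact (hb.piS_le h m j).trans ih

lemma delta_le_sG (h : AtInf k v) (n : ℕ) :
    lam F v (algebraMap k[X] E s0) (Dd F (b n)) ≤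
      lam F v (algebraMap k[X] E s0) (Dd F (b 0)) + sG F b n := by
  classical
  refine (hb.delta_le h n).trans (add_le_add le_rfl ?_)
  refine (Finset.sum_le_sum fun m _ => hb.piS_le' h m _).trans_eq ?_
  rw [sG, Finset.sum_boole]

end Branch

end Pool.Agent.Work.MP_969914_nt.H70
end

-- merged part: Pool.Agent.Work.MP_969914_nt.H70Equi
section
/-! Equidistribution of Galois stable sets of pairs on the branches of a curve. -/

set_option autoImplicit false

open Polynomial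
open scoped NNReal

namespace Pool.Agent.Work.MP_969914_nt.H70

variable {E : Type*} [Field E] {v : Valuation E ℝ≥0}

/-- The auxiliary function of two variables. -/
noncomputable def FF (c : E) (f : ℕ × ℕ → E) (n L j : ℕ) (x y : E) : E :=
  ∑ p ∈ Finset.range n ×ˢ Finset.range (2 ^ j),
    f p * ((bb c (L + j) p.1).eval x * (bb c j p.2).eval y)

lemma FF_poly (c : E) (f : ℕ × ℕ → E) (n L j : ℕ)
    (h : ∃ p ∈ Finset.range n ×ˢ Finset.range (2 ^ j), f p ≠ 0) :
    ∃ P : E[X][X], P ≠ 0 ∧ P.natDegree < 2 ^ j ∧ (∀ i, (P.coeff i).natDegree ≤ n) ∧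
      ∀ x y, P.evalEval x y = FF c f n L j x y := by
  obtain ⟨⟨a, a'⟩, hp, hp0⟩ := h
  rw [Finset.mem_product, Finset.mem_range, Finset.mem_range] at hp
  refine ⟨∑ a' ∈ Finset.range (2 ^ j), C (∑ a ∈ Finset.range n, C (f (a, a')) * bb c (L + j) a) *
    bb (C c) j a', fun h0 => hp0 ?_, natDegree_sum_bb_lt _ _ _ (by positivity) _, fun i => ?_,
    fun x y => ?_⟩
  · exact sum_bb_eq_zero _ _ _ (fun a => f (a, a')) (sum_bb_eq_zero _ _ _ _ h0 a' hp.2) a hp.1
  · rw [finsetSum_coeff]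
    refine natDegree_sum_le_of_forall_le _ _ fun b _ => ?_
    rw [coeff_C_mul, ← map_bb, coeff_map]
    exact (natDegree_mul_C_le _ _).trans (natDegree_sum_bb_lt _ _ _ (by omega) _).le
  · rw [FF, Finset.sum_product_right, evalEval_finsetSum]
    refine Finset.sum_congr rfl fun b _ => ?_
    rw [evalEval_mul, evalEval_C, ← map_bb, evalEval_map_C, eval_finsetSum, Finset.sum_mul]
    exact Finset.sum_congr rfl fun a _ => by simp [mul_assoc]

lemma FF_mem {R : Subring E} {c : E} {f : ℕ × ℕ → E} (hc : c ∈ R) (hf : ∀ p, f p ∈ R) (n L j : ℕ)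
    {x y : E} (hx : x ∈ R) (hy : y ∈ R) : FF c f n L j x y ∈ R :=
  sum_mem fun p _ => mul_mem (hf p) (mul_mem (bb_mem hc hx _ _) (bb_mem hc hy _ _))

lemma map_FF (σ : E →+* E) {c : E} {f : ℕ × ℕ → E} (hc : σ c = c) (hf : ∀ p, σ (f p) = f p)
    (n L j : ℕ) (x y : E) : σ (FF c f n L j x y) = FF c f n L j (σ x) (σ y) := by
  have : ∀ L a x, σ ((bb c L a).eval x) = (bb c L a).eval (σ x) := fun L a x => by
    rw [← eval_map_apply, map_bb, hc]
  simp only [FF, map_sum, map_mul, hf, this]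

lemma val_bb_pair {s : E} (hs : 1 < v s) {L j a a' : ℕ} (ha : a < 2 ^ (L + j)) (ha' : a' < 2 ^ j)
    {x y : E} (hxy : (fq (-s ^ 2))^[j] x + (fq (-s ^ 2))^[j] y = 0)
    (hx : v ((fq (-s ^ 2))^[L + j] x) ≤ v s) :
    v ((bb (-s ^ 2) (L + j) a).eval x * (bb (-s ^ 2) j a').eval y) ≤ v s ^ (L + 2 * j) := by
  have hy : v ((fq (-s ^ 2))^[j] y) ≤ v s := by
    rw [eq_neg_of_add_eq_zero_right hxy, v.map_neg]
    exact val_iter_le hs hx j (by omega)
  rw [map_mul, show L + 2 * j = (L + j) + j by ring, pow_add]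
  exact mul_le_mul' ((val_bb_le hs _ a hx).trans (pow_le_pow_right₀ hs.le (ds_le ha)))
    ((val_bb_le hs _ a' hy).trans (pow_le_pow_right₀ hs.le (ds_le ha')))

lemma orb_add_ne {s : E} (hs : 1 < v s) (h2 : v 2 = 1) (i j : ℕ) :
    orb (-s ^ 2) i + orb (-s ^ 2) j ≠ 0 := by
  have key : ∀ i, v (orb (-s ^ 2) i) = v s ^ 2 ^ (i + 1) := by
    intro i
    induction i with
    | zero => simp [orb]
    | succ i ih =>
      rw [orb, v.map_add_eq_of_lt_left, map_pow, ih, ← pow_mul, ← pow_succ]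
      rw [map_pow, ih, v.map_neg, map_pow, ← pow_mul]
      have : 1 ≤ 2 ^ i := Nat.one_le_two_pow
      exact pow_lt_pow_right₀ hs (by rw [pow_succ]; omega)
  intro h
  have e := congrArg v (eq_neg_of_add_eq_zero_left h)
  rw [v.map_neg, key, key] at e
  have e2 := Nat.pow_right_injective le_rfl (pow_right_injective₀ (zero_lt_one.trans hs) hs.ne' e)
  rw [show j = i by omega, ← two_mul] at h
  have := congrArg v h
  rw [map_mul, h2, key, one_mul, map_zero] at this
  exact pow_ne_zero _ (zero_lt_one.trans hs).ne' this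

variable {k : Type*} [Field k] [Algebra k[X] E] [IsAlgClosed E]

theorem AtInf.aux2 (h : AtInf k v) {j H L n : ℕ} (hn : n + 4 ^ j * H = 2 ^ L)
    (hH : 4 ^ j * H * (H + 1) < 2 ^ L) (ε ε' : Fin j → Bool) : ∃ f : ℕ × ℕ → k[X],
    (∃ p ∈ Finset.range (n * 2 ^ j) ×ˢ Finset.range (2 ^ j), f p ≠ 0) ∧ ∀ x y : E,
      (fq (-algebraMap k[X] E X ^ 2))^[j] x + (fq (-algebraMap k[X] E X ^ 2))^[j] y = 0 →
      v ((fq (-algebraMap k[X] E X ^ 2))^[L + j] x) ≤ v (algebraMap k[X] E X) →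
      v (FF (-algebraMap k[X] E X ^ 2) (fun p => algebraMap k[X] E (f p)) (n * 2 ^ j) L j x y) ≤
        v (algebraMap k[X] E X) ^ (H + L + 2 * j : ℤ) ∧
      (pat v (algebraMap k[X] E X) j x = ε → pat v (algebraMap k[X] E X) j y = ε' →
      v (FF (-algebraMap k[X] E X ^ 2) (fun p => algebraMap k[X] E (f p)) (n * 2 ^ j) L j x y) ≤
        v (algebraMap k[X] E X) ^ (H + L + 2 * j - (4 ^ j * H : ℕ) : ℤ)) := by
  have hs := h.ht
  have hs0 := h.pos
  have h2 := h.v2
  have hsL : algebraMap k[X] E X ∈ Lam k v := algebraMap_mem_Lam _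
  have hsie := @h.siegel
  have hit := @h.iter_mem_Lam
  have hdeg := @h.val_le_of_degree_lt
  generalize algebraMap k[X] E X = s at *
  have hsn : s ≠ 0 := v.pos_iff.1 hs0
  have hcL : -s ^ 2 ∈ Lam k v := neg_mem (pow_mem hsL 2)
  choose! X0 hX0 hX1 using fun w : E => exists_pat hs h2 j ε (w := w)
  choose! Y0 hY0 hY1 using fun w : E => exists_pat hs h2 j ε' (w := w)
  have hnode : ∀ z, (fq (-s ^ 2))^[L] z = s → v z ≤ v s ∧ z ∈ Lam k v := fun z hz =>
    ⟨val_le_of_iter hs (n := L) (by rw [hz]), hit (n := L) (by rwa [hz]) (by rw [hz])⟩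
  have hnode' : ∀ z, (fq (-s ^ 2))^[L] z = s →
      (fq (-s ^ 2))^[j] (X0 z) + (fq (-s ^ 2))^[j] (Y0 (-z)) = 0 ∧
      v ((fq (-s ^ 2))^[L + j] (X0 z)) ≤ v s := fun z hz => by
    rw [Function.iterate_add_apply, hX0 z (hnode z hz).1,
      hY0 (-z) (by rw [v.map_neg]; exact (hnode z hz).1), hz]
    exact ⟨add_neg_cancel z, le_rfl⟩
  have hlt : ∀ p ∈ Finset.range (n * 2 ^ j) ×ˢ Finset.range (2 ^ j),
      p.1 < n * 2 ^ j ∧ p.1 < 2 ^ (L + j) ∧ p.2 < 2 ^ j := fun p hp => by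
    rw [Finset.mem_product, Finset.mem_range, Finset.mem_range] at hp
    exact ⟨hp.1, hp.1.trans_le (by rw [pow_add]; exact Nat.mul_le_mul_right _ (by omega)), hp.2⟩
  obtain ⟨f, hf0, hf1, hf⟩ := hsie (Finset.range (n * 2 ^ j) ×ˢ Finset.range (2 ^ j))
    (pre (-s ^ 2) L s) (fun _ => H + 1)
    (fun z p => (bb (-s ^ 2) (L + j) p.1).eval (X0 z) * (bb (-s ^ 2) j p.2).eval (Y0 (-z)))
    (fun _ => H + L + 2 * j) (fun _ => 4 ^ j * H)
    (fun z hz p _ => by
      obtain ⟨h3, h4⟩ := hnode z (mem_pre.1 hz)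
      have h5 : v (-z) ≤ v s := by rwa [v.map_neg]
      exact mul_mem (bb_mem hcL (hit (n := j) (by rwa [hX0 z h3]) (by rwa [hX0 z h3])) _ _)
        (bb_mem hcL (hit (n := j) (by rw [hY0 _ h5]; exact neg_mem h4) (by rwa [hY0 _ h5])) _ _))
    (fun z hz p hp => by
      obtain ⟨h3, h4⟩ := hnode' z (mem_pre.1 hz)
      refine (val_bb_pair hs (hlt p hp).2.1 (hlt p hp).2.2 h3 h4).trans_eq ?_
      rw [← zpow_natCast]; congr 1; push_cast; ring)
    (by
      simp only [Finset.sum_const, smul_eq_mul, Finset.card_product, Finset.card_range]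
      have h3 := Nat.mul_le_mul_right (4 ^ j * H) (card_pre_le (-s ^ 2) L s)
      have h4 : 2 ^ j * 2 ^ j = 4 ^ j := (mul_pow 2 2 j).symm
      have h5 : 0 < 4 ^ j := by positivity
      rw [mul_assoc n, h4]
      rw [← hn] at h3 hH
      generalize 4 ^ j = B at *
      have h6 : B * H * H < n := by (clear * - hH; nlinarith)
      (clear * - h3 h5 hH; nlinarith))
  have hfv : ∀ p ∈ Finset.range (n * 2 ^ j) ×ˢ Finset.range (2 ^ j),
      v (algebraMap k[X] E (f p)) ≤ v s ^ H := fun p hp => by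
    simpa using hdeg (hf1 p hp)
  refine ⟨f, hf0, fun x y hxy hx => ⟨v.map_sum_le fun p hp => ?_, fun e1 e2 => ?_⟩⟩
  · rw [map_mul]
    refine (mul_le_mul' (hfv p hp) (val_bb_pair hs (hlt p hp).2.1 (hlt p hp).2.2 hxy hx)).trans_eq ?_
    rw [← pow_add, ← zpow_natCast]; congr 1; push_cast; ring
  let ι := {p : E × E // (fq (-s ^ 2))^[j] p.1 + (fq (-s ^ 2))^[j] p.2 = 0 ∧
    v ((fq (-s ^ 2))^[j] p.1) ≤ v s ∧ pat v s j p.1 = ε ∧ pat v s j p.2 = ε'}
  let π : ι → E := fun i => (fq (-s ^ 2))^[j] i.1.1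
  have c1 : (fun _ => (2 : E)⁻¹) ∈ cl v (polR v s π) := const_mem_polR π (by simp [h2])
  have c2 : (fun _ => s⁻¹) ∈ cl v (polR v s π) :=
    const_mem_polR π (by rw [map_inv₀]; exact inv_le_one_of_one_le₀ hs.le)
  have c3 := self_mem_polR hs (π := π) fun i => i.2.2.1
  have c4 := (bb_branch hs h2 c1 c2 L j (Z := fun i : ι => i.1.1) (fun i => i.2.2.2.1)
    (fun i => i.2.2.1) c3).2
  have c5 := (bb_branch hs h2 c1 c2 0 j (Z := fun i : ι => i.1.2) (fun i => i.2.2.2.2)
    (fun i => by rw [eq_neg_of_add_eq_zero_right i.2.1, v.map_neg]; exact i.2.2.1) (by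
      convert neg_mem c3 using 1
      funext i
      rw [eq_neg_of_add_eq_zero_right i.2.1, neg_div]; rfl)).2
  have hn0 : 0 < n := by
    obtain ⟨p, hp, -⟩ := hf0
    exact Nat.pos_of_mul_pos_right ((Nat.zero_le _).trans_lt (hlt p hp).1)
  refine approx_small hs h2 (π := π) (L := L) (γ := H + 2 * j + (n - 1))
    (f := fun i : ι => FF (-s ^ 2) (fun p => algebraMap k[X] E (f p)) (n * 2 ^ j) L j i.1.1 i.1.2)
    ?_ (zpow_pos hs0 _) ?_ (fun z hz => ?_)
    (i := ⟨(x, y), hxy, val_iter_le hs hx j (by omega), e1, e2⟩)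
    (by rw [← Function.iterate_add_apply]; exact hx)
  · simp only [FF, Finset.sum_div]
    rw [← Finset.sum_fn]
    refine sum_mem fun p hp => ?_
    have h3 : p.1 / 2 ^ j ≤ n - 1 := by
      have := (Nat.div_lt_iff_lt_mul (by positivity)).2 (hlt p hp).1
      omega
    obtain ⟨e, he⟩ := Nat.exists_eq_add_of_le h3
    have c6 : (fun _ => algebraMap k[X] E (f p) / s ^ H) ∈ cl v (polR v s π) :=
      const_mem_polR π (by rw [map_div₀, map_pow]; exact (div_le_one (pow_pos hs0 _)).2 (hfv p hp))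
    convert mul_mem (mul_mem c6 (mul_mem (c4 p.1) (c5 p.2))) (pow_mem c2 e) using 1
    funext i
    simp only [Pi.mul_apply, Pi.pow_apply, Nat.zero_add, he, Nat.div_eq_of_lt (hlt p hp).2.2,
      inv_pow]
    field_simp
    ring
  · rw [← pow_succ, ← zpow_natCast, ← zpow_natCast, ← zpow_sub₀ hs0.ne']
    refine zpow_le_zpow_right₀ hs.le ?_
    generalize 4 ^ j * H = W at *
    generalize 2 ^ L = T at *
    omega
  · obtain ⟨h3, h4⟩ := hnode z hz
    have h5 : v (-z) ≤ v s := by rwa [v.map_neg]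
    exact ⟨⟨(X0 z, Y0 (-z)), (hnode' z hz).1, by rwa [hX0 z h3], hX1 z h3, hY1 _ h5⟩, hX0 z h3,
      hf z (mem_pre.2 hz)⟩

variable {F : Type*} [Field F] [Algebra F E] [Algebra k[X] F] [IsScalarTower k[X] F E]
  [Algebra.IsAlgebraic F E] [IsFractionRing k[X] F]

open Classical in
theorem AtInf.equid (h : AtInf k v) {j t : ℕ} (ht : 1 ≤ t) {Y : Finset (E × E)}
    (hY : ∀ σ : E ≃ₐ[F] E, ∀ p ∈ Y, σ • p ∈ Y)
    (hi : ∀ p ∈ Y, IsIntegral k[X] p.1 ∧ IsIntegral k[X] p.2)
    (hc : ∀ p ∈ Y, (fq (-algebraMap k[X] E X ^ 2))^[j] p.1 +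
      (fq (-algebraMap k[X] E X ^ 2))^[j] p.2 = 0)
    (hv : ∀ p ∈ Y, v ((fq (-algebraMap k[X] E X ^ 2))^[2 * j + 2 * t + 1 + j] p.1) ≤
      v (algebraMap k[X] E X))
    (hd : ∀ p ∈ Y, 2 ^ (4 * j + 2 * t + 2) < (conj F p.1).card) (ε ε' : Fin j → Bool) :
    (Y.filter fun p => pat v (algebraMap k[X] E X) j p.1 = ε ∧
      pat v (algebraMap k[X] E X) j p.2 = ε').card * (4 ^ j * 2 ^ t) ≤
      Y.card * (2 ^ t + (4 * j + 2 * t + 1)) := by
  have hH : 4 ^ j * 2 ^ t * (2 ^ t + 1) < 2 ^ (2 * j + 2 * t + 1) := by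
    have h1 : 2 ^ 1 ≤ 2 ^ t := Nat.pow_le_pow_right (by norm_num) ht
    have h3 : 0 < 4 ^ j * 2 ^ t := by positivity
    rw [show 2 ^ (2 * j + 2 * t + 1) = 4 ^ j * 2 ^ t * (2 * 2 ^ t) by
      rw [show (4 : ℕ) = 2 ^ 2 by norm_num, ← pow_mul, pow_succ, pow_add, two_mul t, pow_add]
      generalize 2 ^ (2 * j) = a
      ring]
    exact Nat.mul_lt_mul_of_pos_left (by omega) h3
  obtain ⟨L, hL⟩ : ∃ L, L = 2 * j + 2 * t + 1 := ⟨_, rfl⟩
  rw [← hL] at hH hv
  obtain ⟨n, hn⟩ : ∃ n, n + 4 ^ j * 2 ^ t = 2 ^ L := ⟨2 ^ L - 4 ^ j * 2 ^ t,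
    Nat.sub_add_cancel (le_trans (Nat.le_mul_of_pos_right _ (by positivity)) hH.le)⟩
  obtain ⟨f, hf0, hf⟩ := h.aux2 hn hH ε ε'
  obtain ⟨P, p0, p1, p2, p3⟩ := FF_poly (-algebraMap k[X] E X ^ 2)
    (fun p => algebraMap k[X] E (f p)) (n * 2 ^ j) L j (by
      simpa only [Ne, map_eq_zero_iff _ h.injective] using hf0)
  obtain ⟨R, r0, r1, r2⟩ := curve_zero h.two_ne (orb_add_ne h.ht h.v2) j p0 p1 (b := 2 ^ (L + j))
    (fun i => (p2 i).trans (by rw [pow_add]; exact Nat.mul_le_mul_right _ (by omega)))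
    (Nat.pow_le_pow_right (by norm_num) (by omega))
  have hmap : ∀ (σ : E ≃ₐ[F] E) (x y : E), σ (FF (-algebraMap k[X] E X ^ 2)
      (fun p => algebraMap k[X] E (f p)) (n * 2 ^ j) L j x y) = FF (-algebraMap k[X] E X ^ 2)
      (fun p => algebraMap k[X] E (f p)) (n * 2 ^ j) L j (σ x) (σ y) := fun σ x y =>
    map_FF (σ : E →+* E) (map_c X σ) (fun p => map_A σ _) _ _ _ _ _
  have hA : ∀ q : k[X], algebraMap k[X] E q ∈ (integralClosure k[X] E).toSubring :=
    fun _ => isIntegral_algebraMap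
  have h1 := h.one_le_prod hY (f := fun p => FF (-algebraMap k[X] E X ^ 2)
    (fun p => algebraMap k[X] E (f p)) (n * 2 ^ j) L j p.1 p.2) (fun σ p _ => (hmap σ _ _).symm)
    fun p hp => ⟨FF_mem (R := (integralClosure k[X] E).toSubring) (neg_mem (pow_mem (hA _) 2))
      (fun _ => hA _) _ _ _ (hi p hp).1 (hi p hp).2, fun h0 => by
        have h3 : conj F p.1 ⊆ R.roots.toFinset := fun z hz => by
          obtain ⟨σ, rfl⟩ := mem_conj.1 hz
          rw [Multiset.mem_toFinset, mem_roots r0]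
          exact r2 _ (σ p.2) (hc _ (hY σ p hp)) (by rw [p3, ← hmap, h0, map_zero])
        have h4 := (((Finset.card_le_card h3).trans (Multiset.toFinset_card_le _)).trans
          (card_roots' R)).trans r1
        have h5 := hd p hp
        rw [show 2 * 2 ^ j * 2 ^ (L + j) = 2 ^ (4 * j + 2 * t + 2) by rw [hL]; ring] at h4
        omega⟩
  obtain ⟨q, hq⟩ : ∃ q : E × E → Prop, q = fun p => pat v (algebraMap k[X] E X) j p.1 = ε ∧
      pat v (algebraMap k[X] E X) j p.2 = ε' := ⟨_, rfl⟩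
  rw [map_prod, ← Finset.prod_filter_mul_prod_filter_not Y q] at h1
  have h3 := h1.trans (mul_le_mul'
    (Finset.prod_le_pow_card _ _ _ fun p hp => by
      rw [Finset.mem_filter, hq] at hp
      exact (hf p.1 p.2 (hc p hp.1) (hv p hp.1)).2 hp.2.1 hp.2.2)
    (Finset.prod_le_pow_card _ _ _ fun p hp => by
      rw [Finset.mem_filter] at hp
      exact (hf p.1 p.2 (hc p hp.1) (hv p hp.1)).1))
  rw [← zpow_natCast, ← zpow_natCast, ← zpow_mul, ← zpow_mul, ← zpow_add₀ h.pos.ne',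
    one_le_zpow_iff_right₀ h.ht] at h3
  have h4 := Finset.card_filter_add_card_filter_not (s := Y) q
  have h5 : (Y.filter fun p => pat v (algebraMap k[X] E X) j p.1 = ε ∧
      pat v (algebraMap k[X] E X) j p.2 = ε') = Y.filter q := by rw [hq]; congr
  rw [h5, ← h4]
  generalize (Y.filter q).card = a at *
  generalize (Y.filter fun p => ¬ q p).card = b at *
  subst hL
  zify
  push_cast at h3
  (clear * - h3; nlinarith)

end Pool.Agent.Work.MP_969914_nt.H70
end

-- merged part: Pool.Agent.Work.MP_969914_nt.H70Halve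
section
/-! A bad step halves the contributions to the different. -/

set_option autoImplicit false

open Polynomial
open scoped NNReal

namespace Pool.Agent.Work.MP_969914_nt.H70

/-- The logarithmic distance of two points in terms of their itineraries. -/
def ell : (j : ℕ) → (Fin j → Bool) → (Fin j → Bool) → ℤ
  | 0, _, _ => 1
  | j + 1, ε, ε' => if ε 0 = ε' 0 then ell j (Fin.tail ε) (Fin.tail ε') - 1 else 1

lemma ell_bound (j : ℕ) (ε ε' : Fin j → Bool) : 1 - j ≤ ell j ε ε' ∧ ell j ε ε' ≤ 1 := by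
  induction j with
  | zero => simp [ell]
  | succ j ih =>
    have := ih (Fin.tail ε) (Fin.tail ε')
    rw [ell]
    split_ifs <;> omega

/-- The logarithmic size of `(x - y) / (x + y)` in terms of the itineraries. -/
def fb (j : ℕ) (p : (Fin (j + 1) → Bool) × (Fin (j + 1) → Bool)) : ℤ :=
  if p.1 0 = p.2 0 then ell j (Fin.tail p.1) (Fin.tail p.2) - 2
  else 2 - ell j (Fin.tail p.1) (Fin.tail p.2)

lemma abs_fb (j : ℕ) (p : (Fin (j + 1) → Bool) × (Fin (j + 1) → Bool)) : |fb j p| ≤ j + 1 := by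
  have := ell_bound j (Fin.tail p.1) (Fin.tail p.2)
  rw [fb, abs_le]
  split_ifs <;> omega

lemma sum_fb (j : ℕ) : ∑ p, fb j p = 0 := by
  refine Finset.sum_involution (fun p _ => (p.1, Function.update p.2 0 (!p.2 0))) (fun p _ => ?_)
    (fun p _ _ h => ?_) (fun _ _ => Finset.mem_univ _) fun p _ => ?_
  · simp only [fb, Fin.tail_update_zero, Function.update_self]
    cases p.1 0 <;> cases p.2 0 <;> simp
  · have := congrFun (congrArg Prod.snd h) 0
    simp at this
  · simp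

lemma sum_le_of_count {α P : Type*} [Fintype P] [DecidableEq P] (Y : Finset α) (g : α → P)
    (f : P → ℝ) {N J : ℝ} (hN : ∀ p, ((Y.filter fun y => g y = p).card : ℝ) ≤ N)
    (h0 : ∑ p, f p = 0) (hJ : ∀ p, |f p| ≤ J) :
    ∑ y ∈ Y, f (g y) ≤ J * (Fintype.card P * N - Y.card) := by
  have h1 : ∑ y ∈ Y, f (g y) = ∑ p, ((Y.filter fun y => g y = p).card - N) * f p := by
    simp only [sub_mul, Finset.sum_sub_distrib, ← Finset.mul_sum, h0, mul_zero, sub_zero]
    rw [← Finset.sum_fiberwise Y g]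
    refine Finset.sum_congr rfl fun p _ => ?_
    rw [Finset.sum_congr rfl (g := fun _ => f p) fun y hy => by rw [(Finset.mem_filter.1 hy).2],
      Finset.sum_const, nsmul_eq_mul]
  have h2 : (Y.card : ℝ) = ∑ p, ((Y.filter fun y => g y = p).card : ℝ) := by
    exact_mod_cast Finset.card_eq_sum_card_fiberwise (t := Finset.univ) fun _ _ => Finset.mem_univ _
  rw [h1, h2, ← nsmul_eq_mul, ← Finset.card_univ, ← Finset.sum_const, ← Finset.sum_sub_distrib,
    Finset.mul_sum]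
  refine Finset.sum_le_sum fun p _ => ?_
  have h3 := hN p
  have h4 := (abs_le.1 (hJ p)).1
  nlinarith

variable {E : Type*} [Field E] {v : Valuation E ℝ≥0} {s : E}

lemma val_add_same (hs : 1 < v s) (h2 : v 2 = 1) {x y : E} {b : Bool} (hx : v (x - sv s b) ≤ 1)
    (hy : v (y - sv s b) ≤ 1) : v (x + y) = v s := by
  have h3 : v (2 * sv s b) = v s := by rw [map_mul, h2, one_mul, val_sv]
  rw [show x + y = (x - sv s b + (y - sv s b)) + 2 * sv s b by ring,
    v.map_add_eq_of_lt_right (by rw [h3]; exact (v.map_add_le hx hy).trans_lt hs), h3]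

lemma val_pair (hs : 1 < v s) (h2 : v 2 = 1) {x y : E} (hx : v (fq (-s ^ 2) x) ≤ v s)
    (hy : v (fq (-s ^ 2) y) ≤ v s) {n : ℤ} (h : v (fq (-s ^ 2) x - fq (-s ^ 2) y) = v s ^ n) :
    v (x - y) = v s ^ (if sg v s x = sg v s y then n - 1 else 1) ∧
      v (x + y) = v s ^ (if sg v s x = sg v s y then 1 else n - 1) := by
  have hp : 0 < v s := zero_lt_one.trans hs
  have h1 := val_sub_sv hs h2 hx
  have h3 := val_sub_sv hs h2 hy
  rw [show fq (-s ^ 2) x - fq (-s ^ 2) y = (x - y) * (x + y) by simp only [fq]; ring, map_mul] at h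
  split_ifs with h4
  · have h5 := val_add_same hs h2 h1 (h4 ▸ h3)
    rw [h5] at h
    exact ⟨by rw [zpow_sub_one₀ hp.ne', ← h, mul_inv_cancel_right₀ hp.ne'], by rwa [zpow_one]⟩
  · have h5 : v (x - y) = v s := by
      rw [sub_eq_add_neg]
      refine val_add_same hs h2 h1 ?_
      have : sg v s x = !sg v s y := by
        cases h6 : sg v s x <;> cases h7 : sg v s y <;> (clear * - h4 h6 h7; simp_all)
      rw [this, sv_not, ← v.map_neg]
      convert h3 using 2
      ring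
    rw [h5, mul_comm] at h
    exact ⟨by rwa [zpow_one], by rw [zpow_sub_one₀ hp.ne', ← h, mul_inv_cancel_right₀ hp.ne']⟩

lemma val_sub_pat (hs : 1 < v s) (h2 : v 2 = 1) (j : ℕ) {x y : E}
    (h : (fq (-s ^ 2))^[j] x + (fq (-s ^ 2))^[j] y = 0) (hx : v ((fq (-s ^ 2))^[j] x) = v s) :
    v (x - y) = v s ^ ell j (pat v s j x) (pat v s j y) := by
  induction j generalizing x y with
  | zero =>
    have h' : y = -x := eq_neg_of_add_eq_zero_right h
    rw [h', sub_neg_eq_add, ← two_mul, map_mul, h2, one_mul, ell, zpow_one]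
    exact hx
  | succ j ih =>
    have hy : v ((fq (-s ^ 2))^[j + 1] y) ≤ v s := by
      rw [eq_neg_of_add_eq_zero_right h, v.map_neg, hx]
    exact (val_pair hs h2 (val_le_of_iter hs (n := j) hx.le) (val_le_of_iter hs (n := j) hy)
      (ih h hx)).1

lemma lg_sub_pat (hs : 1 < v s) (h2 : v 2 = 1) (j : ℕ) {x y : E}
    (h : (fq (-s ^ 2))^[j + 1] x + (fq (-s ^ 2))^[j + 1] y = 0)
    (hx : v ((fq (-s ^ 2))^[j + 1] x) = v s) : x - y ≠ 0 ∧ x + y ≠ 0 ∧
    lg v s (x - y) - lg v s (x + y) = fb j (pat v s (j + 1) x, pat v s (j + 1) y) := by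
  have hy : v ((fq (-s ^ 2))^[j + 1] y) ≤ v s := by
    rw [eq_neg_of_add_eq_zero_right h, v.map_neg, hx]
  obtain ⟨h1, h3⟩ := val_pair hs h2 (val_le_of_iter hs (n := j) hx.le)
    (val_le_of_iter hs (n := j) hy) (val_sub_pat hs h2 j h hx)
  have hp : 0 < v s := zero_lt_one.trans hs
  refine ⟨v.pos_iff.1 (h1 ▸ zpow_pos hp _), v.pos_iff.1 (h3 ▸ zpow_pos hp _), ?_⟩
  rw [lg_eq hs h1, lg_eq hs h3, fb]
  simp only [tail_pat, pat_zero]
  split_ifs <;> push_cast <;> ring

variable {F : Type*} [Field F] [Algebra F E] [IsAlgClosed E] [Algebra.IsAlgebraic F E]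

lemma map_piS {c : E} (hc : ∀ σ : E ≃ₐ[F] E, σ c = c) (σ : E ≃ₐ[F] E) (x : E) (j : ℕ) :
    piS F c (σ x) j = σ (piS F c x j) := by
  classical
  rw [piS, piS, conj_eq (map_mem_conj (self_mem_conj x) σ), map_prod,
    ← map_prod_conj σ x (fun y => (fq c)^[j] y = -(fq c)^[j] x)]
  · simp
  · intro y
    rw [← map_iter σ (hc σ), ← map_iter σ (hc σ), ← map_neg]
    exact σ.injective.eq_iff

lemma map_piP {c : E} (hc : ∀ σ : E ≃ₐ[F] E, σ c = c) (σ : E ≃ₐ[F] E) (x : E) (j : ℕ) :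
    piP F c (σ x) j = σ (piP F c x j) := by
  classical
  rw [piP, piP, conj_eq (map_mem_conj (self_mem_conj x) σ), map_prod,
    ← map_prod_conj σ x (fun y => (fq c)^[j] y = -(fq c)^[j] x)]
  · simp
  · intro y
    rw [← map_iter σ (hc σ), ← map_iter σ (hc σ), ← map_neg]
    exact σ.injective.eq_iff

variable {k : Type*} [Field k] [Algebra k[X] E] [Algebra k[X] F] [IsScalarTower k[X] F E]
  [IsFractionRing k[X] F]

theorem AtInf.lam_sub_le (h : AtInf k v) {j t : ℕ} (ht : 1 ≤ t) {z : E} (hi : IsIntegral k[X] z)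
    (hv : ∀ x ∈ conj F z, v ((fq (-algebraMap k[X] E X ^ 2))^[2 * (j + 1) + 2 * t + 1 + (j + 1)] x)
      ≤ v (algebraMap k[X] E X))
    (hd : 2 ^ (4 * (j + 1) + 2 * t + 2) < (conj F z).card) :
    lam F v (algebraMap k[X] E X) (piS F (-algebraMap k[X] E X ^ 2) z (j + 1)) -
      lam F v (algebraMap k[X] E X) (piP F (-algebraMap k[X] E X ^ 2) z (j + 1)) ≤
      2 ^ (j + 1) * (j + 1) * (4 * (j + 1) + 2 * t + 1) / 2 ^ t := by
  classical
  have hc := map_c (F := F) (E := E) (X : k[X])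
  have heq := fun Y => h.equid (F := F) (j := j + 1) (Y := Y) ht
  have hs := h.ht
  have h2 := h.v2
  generalize algebraMap k[X] E X = s at *
  obtain ⟨Y, hY⟩ : ∃ Y, Y = (conj F z ×ˢ conj F z).filter
    fun p => (fq (-s ^ 2))^[j + 1] p.2 = -(fq (-s ^ 2))^[j + 1] p.1 := ⟨_, rfl⟩
  have hmem : ∀ p, p ∈ Y ↔ (p.1 ∈ conj F z ∧ p.2 ∈ conj F z) ∧
      (fq (-s ^ 2))^[j + 1] p.1 + (fq (-s ^ 2))^[j + 1] p.2 = 0 := fun p => by
    rw [hY, Finset.mem_filter, Finset.mem_product, add_comm (_^[_] _), add_eq_zero_iff_eq_neg]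
  have hsum : ∀ g : E × E → ℝ, ∑ p ∈ Y, g p = ∑ x ∈ conj F z, ∑ y ∈ (conj F x).filter
      fun y => (fq (-s ^ 2))^[j + 1] y = -(fq (-s ^ 2))^[j + 1] x, g (x, y) := fun g => by
    rw [hY, Finset.sum_filter, Finset.sum_product]
    exact Finset.sum_congr rfl fun x hx => by rw [Finset.sum_filter, conj_eq hx]
  have hlg := fun p hp => lg_sub_pat hs h2 j ((hmem p).1 hp).2
    (val_iter_eq hs (hv p.1 ((hmem p).1 hp).1.1) (by omega))
  have hO : (0 : ℝ) < (conj F z).card := by exact_mod_cast card_conj_pos z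
  have hcard : (Y.card : ℝ) ≤ (conj F z).card * 2 ^ (j + 1) := by
    have := hsum fun _ => 1
    rw [Finset.sum_const, nsmul_eq_mul, mul_one] at this
    rw [this, ← nsmul_eq_mul]
    refine Finset.sum_le_card_nsmul _ _ _ fun x _ => ?_
    rw [Finset.sum_const, nsmul_eq_mul, mul_one]
    norm_cast
    exact (Finset.card_le_card fun y hy => mem_pre.2 (Finset.mem_filter.1 hy).2).trans
      (card_pre_le (-s ^ 2) (j + 1) (-(fq (-s ^ 2))^[j + 1] x))
  have hcount := sum_le_of_count Y (fun p => (pat v s (j + 1) p.1, pat v s (j + 1) p.2))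
    (fun p => (fb j p : ℝ)) (J := j + 1)
    (N := Y.card * (2 ^ t + (4 * (j + 1) + 2 * t + 1)) / (4 ^ (j + 1) * 2 ^ t))
    (fun p => by
      rw [le_div_iff₀ (by positivity)]
      have := heq Y (fun σ p hp => by
          rw [hmem] at hp ⊢
          refine ⟨⟨map_mem_conj hp.1.1 σ, map_mem_conj hp.1.2 σ⟩, ?_⟩
          change (fq _)^[_] (σ p.1) + (fq _)^[_] (σ p.2) = 0
          rw [← map_iter σ (hc σ), ← map_iter σ (hc σ), ← map_add, hp.2, map_zero])
        (fun p hp => ⟨isIntegral_of_mem_conj ((hmem p).1 hp).1.1 hi,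
          isIntegral_of_mem_conj ((hmem p).1 hp).1.2 hi⟩) (fun p hp => ((hmem p).1 hp).2)
        (fun p hp => hv _ ((hmem p).1 hp).1.1)
        (fun p hp => by rwa [conj_eq ((hmem p).1 hp).1.1]) p.1 p.2
      simp only [Prod.ext_iff]
      exact_mod_cast this)
    (by exact_mod_cast sum_fb j) (fun p => by exact_mod_cast abs_fb j p)
  rw [lam_eq_avg (f := fun x => piS F (-s ^ 2) x (j + 1)) fun σ x _ => map_piS hc σ x _,
    lam_eq_avg (f := fun x => piP F (-s ^ 2) x (j + 1)) fun σ x _ => map_piP hc σ x _,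
    ← sub_div, ← Finset.sum_sub_distrib, div_le_iff₀ hO]
  have e : ∑ x ∈ conj F z, (lg v s (piS F (-s ^ 2) x (j + 1)) - lg v s (piP F (-s ^ 2) x (j + 1)))
      = ∑ p ∈ Y, (fb j (pat v s (j + 1) p.1, pat v s (j + 1) p.2) : ℝ) := by
    rw [← Finset.sum_congr rfl fun p hp => (hlg p hp).2.2, hsum]
    refine Finset.sum_congr rfl fun x hx => ?_
    have hm : ∀ y ∈ (conj F x).filter
        fun y => (fq (-s ^ 2))^[j + 1] y = -(fq (-s ^ 2))^[j + 1] x, (x, y) ∈ Y := fun y hy => by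
      rw [Finset.mem_filter, conj_eq hx] at hy
      exact (hmem _).2 ⟨⟨hx, hy.1⟩, by rw [hy.2, add_neg_cancel]⟩
    rw [piS, piP, lg_prod _ _ fun y hy => (hlg _ (hm y hy)).1,
      lg_prod _ _ fun y hy => (hlg _ (hm y hy)).2.1, Finset.sum_sub_distrib]
  rw [e]
  refine hcount.trans ?_
  have e2 : (Fintype.card ((Fin (j + 1) → Bool) × (Fin (j + 1) → Bool)) : ℝ) = 4 ^ (j + 1) := by
    simp [← mul_pow]
  rw [e2]
  have e3 : (4 : ℝ) ^ (j + 1) * (Y.card * (2 ^ t + (4 * (j + 1) + 2 * t + 1)) /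
      (4 ^ (j + 1) * 2 ^ t)) - Y.card = Y.card * ((4 * (j + 1) + 2 * t + 1) / 2 ^ t) := by
    field_simp; ring
  rw [e3]
  calc _ ≤ (j + 1 : ℝ) * ((conj F z).card * 2 ^ (j + 1) * ((4 * (j + 1) + 2 * t + 1) / 2 ^ t)) := by
        gcongr
    _ = _ := by ring

theorem Branch.halve {b : ℕ → E} (hb : Branch F v (X : k[X]) b) (h : AtInf k v) {m j J : ℕ}
    (hj : j + 1 ≤ J) (hJ : 17 * J ≤ sG F b (m + 1))
    (hbad : -b (m + 1 + j + 1) ∉ conj F (b (m + 1 + j + 1))) :
    lam F v (algebraMap k[X] E X) (piS F (-algebraMap k[X] E X ^ 2) (b (m + 1 + j + 1)) (j + 1)) ≤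
      lam F v (algebraMap k[X] E X) (piS F (-algebraMap k[X] E X ^ 2) (b (m + 1 + j)) j) / 2 +
        15 / 2 ^ J / 2 := by
  classical
  have h1 : sG F b (m + 1) ≤ m + 1 := (Finset.card_filter_le _ _).trans (by simp)
  have h3 : sG F b (m + 1) ≤ sG F b (m + 1 + j + 1) :=
    Finset.card_le_card (Finset.filter_subset_filter _ (Finset.range_mono (by omega)))
  have h4 := h.lam_sub_le (F := F) (j := j) (t := 5 * J) (by omega)
    (hb.mem' h.two_ne (m + 1 + j + 1)).1 (fun x hx => by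
      obtain ⟨σ, rfl⟩ := mem_conj.1 hx
      rw [← map_iter σ (map_c X σ), hb.iter' (by omega)]
      exact hb.size' σ _)
    ((Nat.pow_lt_pow_right (by norm_num) (by omega)).trans_le (hb.pow_le_card h.two_ne _))
  have h5 := piS_bad (map_c (F := F) (X : k[X])) hbad j
  have h6 := piS_ne_zero (F := F) (c := -algebraMap k[X] E X ^ 2) (z := b (m + 1 + j)) h.two_ne
    (j := j) (by rw [hb.iter]; exact hb.ne_zero m)
  rw [hb.step] at h5
  rw [← h5] at h6 ⊢
  rw [lam_mul (left_ne_zero_of_mul h6) (right_ne_zero_of_mul h6)]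
  have h7 : (2 : ℝ) ^ (j + 1) * (j + 1) * (4 * (j + 1) + 2 * (5 * J : ℕ) + 1) / 2 ^ (5 * J) ≤
      15 / 2 ^ J := by
    have k1 : (2 : ℝ) ^ (j + 1) ≤ 2 ^ J := pow_le_pow_right₀ (by norm_num) hj
    have k2 : (J : ℝ) ≤ 2 ^ J := by exact_mod_cast Nat.lt_two_pow_self.le
    have k3 : (j + 1 : ℝ) ≤ J := by exact_mod_cast hj
    have k4 : (1 : ℝ) ≤ 2 ^ J := one_le_pow₀ (by norm_num)
    rw [div_le_div_iff₀ (by positivity) (by positivity), mul_comm 5 J, pow_mul]
    push_cast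
    calc _ ≤ (2 : ℝ) ^ J * 2 ^ J * (15 * 2 ^ J) * 2 ^ J := by gcongr <;> linarith
      _ = 15 * (2 ^ J) ^ 4 := by ring
      _ ≤ _ := by gcongr; norm_num
  linarith

end Pool.Agent.Work.MP_969914_nt.H70
end

-- merged part: Pool.Agent.Work.MP_969914_nt.H70Zero
section
/-! A zero estimate along orbits of the tangent map. -/

set_option autoImplicit false

open Polynomial

namespace Pool.Agent.Work.MP_969914_nt.H70

variable {E : Type*} [Field E]

lemma natDegree_comp_phi (c : E) (P : E[X]) : (P.comp (X ^ 2 + C c)).natDegree = 2 * P.natDegree := by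
  rw [natDegree_comp, natDegree_X_pow_add_C, mul_comm]

lemma comp_phi_ne_zero (c : E) {P : E[X]} (h : P ≠ 0) : P.comp (X ^ 2 + C c) ≠ 0 := by
  rw [← leadingCoeff_ne_zero, leadingCoeff_comp (by rw [natDegree_X_pow_add_C]; norm_num),
    leadingCoeff_X_pow_add_C (by norm_num)]
  simpa using h

lemma no_rat (h2 : (2 : E) ≠ 0) (c : E) {e : E} (he : e ≠ 0) {N D : E[X]} (hD : D ≠ 0) :
    N.comp (X ^ 2 + C c) * D ≠ (2 * X * N - C e * D) * D.comp (X ^ 2 + C c) := by
  classical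
  intro h
  obtain ⟨N1, D1, hN1, hD1, hc⟩ : ∃ N1 D1, N = gcd N D * N1 ∧ D = gcd N D * D1 ∧
      IsCoprime N1 D1 := by
    obtain ⟨N1, D1, h1, h3, h4⟩ := extract_gcd N D
    exact ⟨N1, D1, h1, h3, (gcd_isUnit_iff _ _).1 h4⟩
  set g := gcd N D
  have hg : g ≠ 0 := by rintro h0; rw [h0, zero_mul] at hD1; exact hD hD1
  have hD0 : D1 ≠ 0 := by rintro h0; rw [h0, mul_zero] at hD1; exact hD hD1
  have h1 : N1.comp (X ^ 2 + C c) * D1 = (2 * X * N1 - C e * D1) * D1.comp (X ^ 2 + C c) := by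
    apply mul_left_cancel₀ (mul_ne_zero hg (comp_phi_ne_zero c hg))
    rw [hN1, hD1, mul_comp, mul_comp] at h
    linear_combination h
  have h3 : D1.comp (X ^ 2 + C c) ∣ D1 :=
    (hc.map (compRingHom (X ^ 2 + C c))).symm.dvd_of_dvd_mul_left (h1 ▸ dvd_mul_left _ _)
  have h4 := natDegree_le_of_dvd h3 hD0
  rw [natDegree_comp_phi] at h4
  obtain ⟨a, rfl⟩ := natDegree_eq_zero.1 (show D1.natDegree = 0 by omega)
  rw [C_comp] at h1
  have h5 := mul_right_cancel₀ hD0 h1
  have h6 : (2 * X * N1 - C e * C a).natDegree ≤ N1.natDegree + 1 := by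
    refine (natDegree_sub_le _ _).trans (max_le ?_ ?_)
    · refine natDegree_mul_le.trans ?_
      have : (2 * X : E[X]).natDegree ≤ 1 := by compute_degree
      omega
    · rw [← map_mul, natDegree_C]; omega
  rw [← h5, natDegree_comp_phi] at h6
  have h7 := eq_X_add_C_of_natDegree_le_one (show N1.natDegree ≤ 1 by omega)
  generalize N1.coeff 1 = α at h7
  generalize N1.coeff 0 = γ at h7
  subst h7
  have e0 := congrArg (eval 0) h5
  have e1 := congrArg (eval 1) h5
  have e2 := congrArg (eval (-1)) h5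
  simp only [eval_comp, eval_add, eval_mul, eval_C, eval_X, eval_pow, eval_sub, eval_ofNat]
    at e0 e1 e2
  have h8 : γ = 0 := by
    have : (2 * 2) * γ = 0 := by linear_combination e2 - e1
    exact (mul_eq_zero.1 this).resolve_left (mul_ne_zero h2 h2)
  have h9 : α = 0 := by rw [h8] at e0 e1; linear_combination e0 - e1
  rw [h8, h9] at e0
  have : e * a = 0 := by linear_combination e0
  exact mul_ne_zero he (by rintro rfl; simp at hD0) this

variable {c e : E} {x u : ℕ → E}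

lemma zero0 {W N : ℕ} (hinj : ∀ r ≤ W, ∀ r' ≤ W, x r = x r' → r = r') {P : E[X]} (hP : P ≠ 0)
    (hN : P.natDegree ≤ N) (h : ∀ r ≤ W, P.eval (x r) = 0) : W + 1 ≤ N := by
  classical
  refine le_trans ?_ (((Multiset.toFinset_card_le _).trans (card_roots' P)).trans hN)
  rw [← Finset.card_range (W + 1)]
  refine Finset.card_le_card_of_injOn x (fun r hr => ?_) fun r hr r' hr' => hinj r ?_ r' ?_
  · simpa [hP] using h r (by simpa [Nat.lt_succ_iff] using hr)
  · simpa [Nat.lt_succ_iff] using hr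
  · simpa [Nat.lt_succ_iff] using hr'

lemma zero1 (h2 : (2 : E) ≠ 0) (he : e ≠ 0) (hx : ∀ r, x (r + 1) = fq c (x r))
    (hu : ∀ r, u (r + 1) = 2 * x r * u r + e) {W N : ℕ}
    (hinj : ∀ r ≤ W, ∀ r' ≤ W, x r = x r' → r = r') {P0 P1 : E[X]} (hP : P0 ≠ 0 ∨ P1 ≠ 0)
    (h0 : P0.natDegree ≤ N) (h1 : P1.natDegree ≤ N)
    (h : ∀ r ≤ W, P0.eval (x r) + P1.eval (x r) * u r = 0) : W ≤ 3 * N + 1 := by
  by_cases hP1 : P1 = 0
  · have := zero0 hinj (hP.resolve_right (by simpa using hP1)) h0 (by simpa [hP1] using h)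
    omega
  rcases W with _ | W
  · omega
  refine zero0 (x := x) (fun r hr r' hr' => hinj r (by omega) r' (by omega))
    (P := P0.comp (X ^ 2 + C c) * P1 - (2 * X * P0 - C e * P1) * P1.comp (X ^ 2 + C c))
    (sub_ne_zero.2 (no_rat h2 c he hP1)) ?_ fun r hr => ?_
  · have e0 := natDegree_comp_phi c P0
    have e1 := natDegree_comp_phi c P1
    generalize P0.comp (X ^ 2 + C c) = Q0 at e0
    generalize P1.comp (X ^ 2 + C c) = Q1 at e1
    compute_degree
    omega
  · have e1 := h r (by omega)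
    have e2 := h (r + 1) (by omega)
    rw [hx, hu, fq] at e2
    simp only [eval_comp, eval_add, eval_mul, eval_C, eval_X, eval_pow, eval_sub, eval_ofNat]
    linear_combination P1.eval (x r) * e2 - 2 * x r * P1.eval (x r ^ 2 + c) * e1

lemma zero2 (h2 : (2 : E) ≠ 0) (he : e ≠ 0) (hx : ∀ r, x (r + 1) = fq c (x r))
    (hu : ∀ r, u (r + 1) = 2 * x r * u r + e) {W N : ℕ}
    (hinj : ∀ r ≤ W, ∀ r' ≤ W, x r = x r' → r = r') {P0 P1 P2 : E[X]}
    (hP : P0 ≠ 0 ∨ P1 ≠ 0 ∨ P2 ≠ 0)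
    (h0 : P0.natDegree ≤ N) (h1 : P1.natDegree ≤ N) (h3 : P2.natDegree ≤ N)
    (h : ∀ r ≤ W, P0.eval (x r) + P1.eval (x r) * u r + P2.eval (x r) * u r ^ 2 = 0) :
    W ≤ 9 * N + 8 := by
  by_cases hP2 : P2 = 0
  · have := zero1 h2 he hx hu hinj (by simpa [hP2] using hP) h0 h1 (by simpa [hP2] using h)
    omega
  rcases W with _ | W
  · omega
  have e0 := natDegree_comp_phi c P0
  have e1 := natDegree_comp_phi c P1
  have e2 := natDegree_comp_phi c P2
  have := zero1 h2 he hx hu (W := W) (N := 3 * N + 2)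
    (fun r hr r' hr' => hinj r (by omega) r' (by omega))
    (P0 := P2 * (P0.comp (X ^ 2 + C c) + C e * P1.comp (X ^ 2 + C c) +
      C e ^ 2 * P2.comp (X ^ 2 + C c)) - 4 * X ^ 2 * P2.comp (X ^ 2 + C c) * P0)
    (P1 := 2 * X * (P1.comp (X ^ 2 + C c) * P2 -
      (2 * X * P1 - C (2 * e) * P2) * P2.comp (X ^ 2 + C c)))
    (Or.inr (mul_ne_zero (mul_ne_zero (by
      rw [← C_ofNat]; exact C_ne_zero.2 h2) X_ne_zero)
      (sub_ne_zero.2 (no_rat h2 c (mul_ne_zero h2 he) hP2)))) ?_ ?_ fun r hr => ?_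
  · omega
  · generalize P0.comp (X ^ 2 + C c) = Q0 at e0
    generalize P1.comp (X ^ 2 + C c) = Q1 at e1
    generalize P2.comp (X ^ 2 + C c) = Q2 at e2
    compute_degree
    omega
  · generalize P1.comp (X ^ 2 + C c) = Q1 at e1
    generalize P2.comp (X ^ 2 + C c) = Q2 at e2
    compute_degree
    omega
  · have e1 := h r (by omega)
    have e2 := h (r + 1) (by omega)
    rw [hx, hu, fq] at e2
    simp only [eval_comp, eval_add, eval_mul, eval_C, eval_X, eval_pow, eval_sub, eval_ofNat]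
    linear_combination P2.eval (x r) * e2 - 4 * x r ^ 2 * P2.eval (x r ^ 2 + c) * e1

end Pool.Agent.Work.MP_969914_nt.H70
end

-- merged part: Pool.Agent.Work.MP_969914_nt.H70Lower
section
/-! Lower bounds for the different along a branch. -/

set_option autoImplicit false

open Polynomial
open scoped NNReal

namespace Pool.Agent.Work.MP_969914_nt.H70

variable {k : Type*} [Field k] {E : Type*} [Field E] [Algebra k[X] E] {F : Type*} [Field F]
  [Algebra F E] [Algebra k[X] F] [IsScalarTower k[X] F E] [IsAlgClosed E]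
  [Algebra.IsAlgebraic F E] [IsFractionRing k[X] F] {v : Valuation E ℝ≥0}

lemma du_phi {z : E} (hz : z ∈ IS F k) (s0 : k[X]) : du k (fq (-algebraMap k[X] E s0 ^ 2) z) =
    2 * z * du k z + -2 * algebraMap k[X] E s0 * algebraMap k[X] E (derivative s0) := by
  have := du_fq hz (-s0 ^ 2)
  rw [map_neg, map_pow] at this
  rw [this, derivative_neg, derivative_sq, map_neg, map_mul, map_mul, C_ofNat, map_ofNat]
  ring

omit [IsAlgClosed E] [Algebra.IsAlgebraic F E] [IsFractionRing k[X] F] in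
lemma c_mem_IS (s0 : k[X]) : -algebraMap k[X] E s0 ^ 2 ∈ IS F k :=
  neg_mem (pow_mem (algebraMap_mem_IS _) 2)

lemma isIntegral_du_iter {z : E} (hz : z ∈ IS F k) (s0 : k[X]) (r : ℕ) :
    IsIntegral k[X] (Dd F z * du k ((fq (-algebraMap k[X] E s0 ^ 2))^[r] z)) := by
  have e : aeval z (Gs X (-s0 ^ 2) r) = (fq (-algebraMap k[X] E s0 ^ 2))^[r] z := by
    rw [← eval_map_algebraMap, map_Gs, eval_Gs]; simp
  rw [← e, du_aeval hz]
  exact isIntegral_del hz _

namespace Branch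
variable {s0 : k[X]} {b : ℕ → E}

lemma du_step (hb : Branch F v s0 b) (h2 : (2 : E) ≠ 0) (n : ℕ) :
    du k (b n) = 2 * b (n + 1) * du k (b (n + 1)) +
      -2 * algebraMap k[X] E s0 * algebraMap k[X] E (derivative s0) := by
  rw [← du_phi (hb.mem' h2 _), hb.step]

lemma du_le (hb : Branch F v (X : k[X]) b) (h : AtInf k v)
    (h0 : ∀ σ : E ≃ₐ[F] E, v (σ (du k (b 0))) ≤ 1) (σ : E ≃ₐ[F] E) (n : ℕ) : v (σ (du k (b n))) ≤ 1 := by
  induction n with
  | zero => exact h0 σ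
  | succ n ih =>
    have e := congrArg σ (hb.du_step h.two_ne n)
    simp only [derivative_X, map_one, mul_one, map_add, map_mul, map_neg, map_ofNat, map_A] at e
    have h1 : v (2 * σ (b (n + 1)) * σ (du k (b (n + 1)))) ≤ v (algebraMap k[X] E X) := by
      rw [← sub_eq_iff_eq_add.2 e]
      exact v.map_sub_le (ih.trans h.ht.le) (by simp [h.v2])
    rw [map_mul, map_mul, h.v2, one_mul, hb.size_eq] at h1
    exact (mul_le_iff_le_one_right h.pos).1 h1

/-- The inseparable case. -/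
theorem insep (hb : Branch F v s0 b) (h : AtInf k v) (hd : derivative s0 = 0)
    (h0 : du k (b 0) ≠ 0) (n : ℕ) : (n : ℝ) ≤ lam F v (algebraMap k[X] E s0) (du k (b 0)) +
      lam F v (algebraMap k[X] E s0) (Dd F (b 0)) + sG F b n := by
  have key : ∀ n : ℕ, du k (b n) ≠ 0 ∧ lam F v (algebraMap k[X] E s0) (du k (b n)) + n =
      lam F v (algebraMap k[X] E s0) (du k (b 0)) := by
    intro n
    induction n with
    | zero => exact ⟨h0, by simp⟩
    | succ n ih =>
      have e := hb.du_step h.two_ne n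
      rw [hd, map_zero, mul_zero, add_zero] at e
      have h1 := ih.1
      rw [e] at h1
      refine ⟨right_ne_zero_of_mul h1, ?_⟩
      have h3 := lam_eq (F := F) hb.hs (y := 2 * b (n + 1)) (n := 1) fun σ => by
        rw [map_mul, map_ofNat, map_mul, h.v2, one_mul, zpow_one, hb.size_eq]
      rw [← ih.2, e, lam_mul (left_ne_zero_of_mul h1) (right_ne_zero_of_mul h1), h3]
      push_cast; ring
  have h1 := h.lam_nonneg (F := F) hb.hs (isIntegral_du_iter (hb.mem' h.two_ne n) s0 0)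
    (mul_ne_zero (Dd_ne_zero _) (key n).1)
  rw [Function.iterate_zero_apply, lam_mul (Dd_ne_zero _) (key n).1] at h1
  have h3 := hb.delta_le_sG h n
  have h4 := (key n).2
  linarith

end Branch

/-- The different grows along every branch. -/
theorem AtInf.lower (h : AtInf k v) (M : ℕ) : ∃ N : ℕ, ∀ b : ℕ → E, Branch F v (X : k[X]) b →
    (∀ σ : E ≃ₐ[F] E, v (σ (du k (b 0))) ≤ 1) → Function.Injective b →
    ∀ n, N ≤ n → (M : ℝ) ≤ lam F v (algebraMap k[X] E X) (Dd F (b n)) := by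
  obtain ⟨L, P0, P1, P2, hP, d0, d1, d2, haux⟩ := h.aux (2 * M)
  refine ⟨L + 9 * 2 ^ L + 9, fun b hb hu hinj n hn => ?_⟩
  by_contra hlt
  push Not at hlt
  have h2 := h.two_ne
  have hrec : ∀ z ∈ IS F k, ∀ r, du k ((fq (-algebraMap k[X] E X ^ 2))^[r + 1] z) =
      2 * (fq (-algebraMap k[X] E X ^ 2))^[r] z * du k ((fq (-algebraMap k[X] E X ^ 2))^[r] z) +
        -2 * algebraMap k[X] E X := by
    intro z hz r
    rw [Function.iterate_succ_apply', du_phi (iter_mem (c_mem_IS X) hz r)]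
    simp
  have hz := hb.mem' h2 n
  have hvan : ∀ r ≤ n - L, aeval (b (n - r)) P0 + aeval (b (n - r)) P1 * du k (b (n - r)) +
      aeval (b (n - r)) P2 * du k (b (n - r)) ^ 2 = 0 := by
    intro r hr
    by_contra hne
    have hm := hb.mem' h2 (n - r)
    have h1 := lam_le (F := F) h.ht hne (n := -(2 * M : ℕ)) fun σ => by
      have := haux (fun i => (fq (-algebraMap k[X] E X ^ 2))^[i] (σ (b (n - r))))
        (fun i => du k ((fq (-algebraMap k[X] E X ^ 2))^[i] (σ (b (n - r)))))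
        (fun i => Function.iterate_succ_apply' _ _ _) (hrec _ (map_mem_IS σ hm))
        (by
          rw [← map_iter σ (map_c X σ), hb.iter' (by omega)]
          exact hb.size' σ _)
        (fun i hi => by
          rw [← map_iter σ (map_c X σ), hb.iter' (by omega), ← map_du σ (hb.mem' h2 _)]
          exact (hb.du_le h hu σ _).trans h.ht.le)
      simpa only [map_add, map_mul, map_pow, map_aeval_A, map_du σ hm,
        Function.iterate_zero_apply] using this
    have h3 := isIntegral_du_iter hz X r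
    rw [hb.iter' (by omega)] at h3
    have h4 := h.lam_nonneg (F := F) h.ht (y := Dd F (b n) ^ 2 * (aeval (b (n - r)) P0 +
      aeval (b (n - r)) P1 * du k (b (n - r)) + aeval (b (n - r)) P2 * du k (b (n - r)) ^ 2))
      (by
        have h5 := (Dd_mem_IS hz).1
        have := (((h5.pow 2).mul (aeval_mem_IS hm P0).1).add
          ((h5.mul (aeval_mem_IS hm P1).1).mul h3)).add ((aeval_mem_IS hm P2).1.mul (h3.pow 2))
        exact (congrArg (IsIntegral k[X]) (by ring)).mp this)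
      (mul_ne_zero (pow_ne_zero _ (Dd_ne_zero _)) hne)
    rw [lam_mul (pow_ne_zero _ (Dd_ne_zero _)) hne, lam_pow (Dd_ne_zero _)] at h4
    push_cast at h1 h4
    linarith
  have hi := h.injective
  have := zero2 (c := -algebraMap k[X] E X ^ 2) (e := -2 * algebraMap k[X] E X)
    (x := fun i => (fq (-algebraMap k[X] E X ^ 2))^[i] (b n))
    (u := fun i => du k ((fq (-algebraMap k[X] E X ^ 2))^[i] (b n))) h2
    (mul_ne_zero (neg_ne_zero.2 h2) h.ne) (fun i => Function.iterate_succ_apply' _ _ _)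
    (hrec _ hz) (W := n - L) (N := 2 ^ L)
    (fun r hr r' hr' he => by
      rw [hb.iter' (by omega), hb.iter' (by omega)] at he
      have := hinj he
      omega)
    (P0 := P0.map (algebraMap k[X] E)) (P1 := P1.map (algebraMap k[X] E))
    (P2 := P2.map (algebraMap k[X] E)) (by simpa only [Polynomial.map_ne_zero_iff hi] using hP)
    (natDegree_map_le.trans d0) (natDegree_map_le.trans d1) (natDegree_map_le.trans d2)
    (fun r hr => by
      simp only [eval_map_algebraMap]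
      rw [hb.iter' (by omega)]
      exact hvan r hr)
  omega

end Pool.Agent.Work.MP_969914_nt.H70
end

-- merged part: Pool.Agent.Work.MP_969914_nt.H70Wr
section
/-! A Wronskian attached to three square roots. -/

set_option autoImplicit false

open scoped NNReal

namespace Pool.Agent.Work.MP_969914_nt.H70

variable {E : Type*} [Field E] {v : Valuation E ℝ≥0}

section size
variable (h2 : v 2 = 1) {S τ : ℝ≥0} (hS : 1 ≤ S) (hτ : S ≤ τ)
include h2 hS hτ

lemma pair_small {ξ ζ : E} (h1 : v ξ = τ) (h3 : v (ξ ^ 2 - ζ ^ 2) ≤ S) :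
    v (ξ - ζ) ≤ S / τ ∨ v (ξ + ζ) ≤ S / τ := by
  have h0 : 0 < τ := (zero_lt_one.trans_le hS).trans_le hτ
  rw [sq_sub_sq, map_mul] at h3
  have h4 : τ ≤ max (v (ξ + ζ)) (v (ξ - ζ)) := by
    have := v.map_add (ξ + ζ) (ξ - ζ)
    rwa [show ξ + ζ + (ξ - ζ) = 2 * ξ by ring, map_mul, h2, one_mul, h1] at this
  rw [le_div_iff₀ h0, le_div_iff₀ h0]
  rcases le_max_iff.1 h4 with h | h
  · left; rw [mul_comm]; exact (mul_le_mul' h le_rfl).trans h3
  · right; exact (mul_le_mul' le_rfl h).trans h3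

lemma eta_le {ξ x a : E} (h1 : v ξ = τ) (hx : v x ≤ τ ^ 2) (ha : v a ≤ 1) :
    v ((x - a) / (2 * ξ)) ≤ τ := by
  have h0 : 0 < τ := (zero_lt_one.trans_le hS).trans_le hτ
  rw [map_div₀, map_mul, h2, one_mul, h1, div_le_iff₀ h0, ← sq]
  exact v.map_sub_le hx (ha.trans (one_le_pow₀ (hS.trans hτ)))

lemma eta_sub_le {ξ ζ x a b : E} (h1 : v ξ = τ) (h1' : v ζ = τ) (hx : v x ≤ τ ^ 2) (ha : v a ≤ 1)
    (hb : v b ≤ 1) (h : v (ξ - ζ) ≤ S / τ) :
    v ((x - a) / (2 * ξ) - (x - b) / (2 * ζ)) ≤ S / τ := by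
  have h0 : 0 < τ := (zero_lt_one.trans_le hS).trans_le hτ
  have hξ : ξ ≠ 0 := v.pos_iff.1 (h1 ▸ h0)
  have hζ : ζ ≠ 0 := v.pos_iff.1 (h1' ▸ h0)
  have h20 : (2 : E) ≠ 0 := v.pos_iff.1 (h2 ▸ one_pos)
  have e : (x - a) / (2 * ξ) - (x - b) / (2 * ζ) =
      (-(x * (ξ - ζ)) - a * ζ + b * ξ) / (2 * ξ * ζ) := by
    field_simp; ring
  have h3 : ∀ y z : E, v y ≤ 1 → v z = τ → v (y * z) ≤ S / τ * (τ * τ) := by
    intro y z hy hz
    rw [map_mul, hz, ← mul_assoc, div_mul_cancel₀ _ h0.ne']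
    exact mul_le_mul' (hy.trans hS) le_rfl
  rw [e, map_div₀, map_mul, map_mul, h2, one_mul, h1, h1', div_le_iff₀ (mul_pos h0 h0)]
  refine v.map_add_le (v.map_sub_le ?_ (h3 _ _ ha h1')) (h3 _ _ hb h1)
  rw [v.map_neg, map_mul, mul_comm, ← sq]
  exact mul_le_mul' h hx

omit h2 hS hτ in
lemma val_det_le {A B C D : E} {p q : ℝ≥0} (hA : v A ≤ p) (hB : v B ≤ p) (hC : v C ≤ q)
    (hD : v D ≤ q) : v (A * D - C * B) ≤ p * q := by
  refine v.map_sub_le ?_ ?_ <;> rw [map_mul]
  · exact mul_le_mul' hA hD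
  · rw [mul_comm]; exact mul_le_mul' hB hC

lemma wr_size {ξ1 ξ2 ξ3 x a1 a2 a3 : E} (e1 : v ξ1 = τ) (e2 : v ξ2 = τ) (e3 : v ξ3 = τ)
    (hx : v x ≤ τ ^ 2) (f1 : v a1 ≤ 1) (f2 : v a2 ≤ 1) (f3 : v a3 ≤ 1)
    (g2 : v (ξ1 ^ 2 - ξ2 ^ 2) ≤ S) (g3 : v (ξ1 ^ 2 - ξ3 ^ 2) ≤ S) :
    v (((ξ1 - ξ2) * ((x - a1) / (2 * ξ1) - (x - a3) / (2 * ξ3)) -
      (ξ1 - ξ3) * ((x - a1) / (2 * ξ1) - (x - a2) / (2 * ξ2))) ^ 2 *
      ((ξ1 + ξ2) * (ξ1 + ξ3) * (ξ2 + ξ3))) ≤ S ^ 4 / τ := by
  have h0 : 0 < τ := (zero_lt_one.trans_le hS).trans_le hτ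
  have n1 := eta_le h2 hS hτ e1 hx f1
  have n2 := eta_le h2 hS hτ e2 hx f2
  have n3 := eta_le h2 hS hτ e3 hx f3
  have d12 := eta_sub_le h2 hS hτ e1 e2 hx f1 f2
  have d13 := eta_sub_le h2 hS hτ e1 e3 hx f1 f3
  have d23 := eta_sub_le h2 hS hτ e2 e3 hx f2 f3
  generalize (x - a1) / (2 * ξ1) = η1 at *
  generalize (x - a2) / (2 * ξ2) = η2 at *
  generalize (x - a3) / (2 * ξ3) = η3 at *
  have p12 := v.map_add_le e1.le e2.le
  have p13 := v.map_add_le e1.le e3.le
  have p23 := v.map_add_le e2.le e3.le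
  simp only [map_mul, map_pow]
  rcases pair_small h2 hS hτ e1 g2 with c2 | c2 <;> rcases pair_small h2 hS hτ e1 g3 with c3 | c3
  · refine (mul_le_mul' (pow_le_pow_left₀ zero_le (val_det_le c2 (d12 c2) c3 (d13 c3)) 2)
      (mul_le_mul' (mul_le_mul' p12 p13) p23)).trans_eq ?_
    field_simp
  · have c4 : v (ξ2 + ξ3) ≤ S / τ := by
      rw [show ξ2 + ξ3 = (ξ1 + ξ3) - (ξ1 - ξ2) by ring]; exact v.map_sub_le c3 c2
    refine (mul_le_mul' (pow_le_pow_left₀ zero_le (val_det_le c2 (d12 c2)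
      (v.map_sub_le e1.le e3.le) (v.map_sub_le n1 n3)) 2)
      (mul_le_mul' (mul_le_mul' p12 c3) c4)).trans_eq ?_
    field_simp
  · have c4 : v (ξ2 + ξ3) ≤ S / τ := by
      rw [show ξ2 + ξ3 = (ξ1 + ξ2) - (ξ1 - ξ3) by ring]; exact v.map_sub_le c2 c3
    refine (mul_le_mul' (pow_le_pow_left₀ zero_le (val_det_le (v.map_sub_le e1.le e2.le)
      (v.map_sub_le n1 n2) c3 (d13 c3)) 2)
      (mul_le_mul' (mul_le_mul' c2 p13) c4)).trans_eq ?_
    field_simp
  · have c4 : v (ξ2 - ξ3) ≤ S / τ := by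
      rw [show ξ2 - ξ3 = (ξ1 + ξ2) - (ξ1 + ξ3) by ring]; exact v.map_sub_le c2 c3
    rw [show (ξ1 - ξ2) * (η1 - η3) - (ξ1 - ξ3) * (η1 - η2) =
      (ξ1 - ξ2) * (η2 - η3) - (ξ2 - ξ3) * (η1 - η2) by ring]
    refine (mul_le_mul' (pow_le_pow_left₀ zero_le (val_det_le (v.map_sub_le e1.le e2.le)
      (v.map_sub_le n1 n2) c4 (d23 c4)) 2)
      (mul_le_mul' (mul_le_mul' c2 c3) p23)).trans_eq ?_
    field_simp

end size

lemma wr_both (h2 : (2 : E) ≠ 0) {ξ1 ξ2 ξ3 p1 p2 p3 : E} (n1 : ξ1 ≠ 0) (n2 : ξ2 ≠ 0) (n3 : ξ3 ≠ 0)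
    (n : ξ2 ≠ ξ3)
    (h : (ξ1 - ξ2) * (p1 / (2 * ξ1) - p3 / (2 * ξ3)) -
      (ξ1 - ξ3) * (p1 / (2 * ξ1) - p2 / (2 * ξ2)) = 0)
    (h' : (-ξ1 - ξ2) * (p1 / (2 * -ξ1) - p3 / (2 * ξ3)) -
      (-ξ1 - ξ3) * (p1 / (2 * -ξ1) - p2 / (2 * ξ2)) = 0) :
    ∃ ρ, p1 = ρ * ξ1 ^ 2 ∧ p2 = ρ * ξ2 ^ 2 ∧ p3 = ρ * ξ3 ^ 2 := by
  obtain ⟨η1, rfl⟩ : ∃ η, p1 = 2 * ξ1 * η := ⟨p1 / (2 * ξ1), by field_simp⟩
  obtain ⟨η2, rfl⟩ : ∃ η, p2 = 2 * ξ2 * η := ⟨p2 / (2 * ξ2), by field_simp⟩
  obtain ⟨η3, rfl⟩ : ∃ η, p3 = 2 * ξ3 * η := ⟨p3 / (2 * ξ3), by field_simp⟩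
  rw [mul_neg, div_neg] at h'
  rw [mul_div_cancel_left₀ _ (mul_ne_zero h2 n1), mul_div_cancel_left₀ _ (mul_ne_zero h2 n2),
    mul_div_cancel_left₀ _ (mul_ne_zero h2 n3)] at h h'
  have k1 : η3 * ξ2 = η2 * ξ3 := mul_left_cancel₀ h2 (by linear_combination h + h')
  have k2 : η1 * ξ2 = η2 * ξ1 := by
    apply mul_left_cancel₀ (mul_ne_zero h2 (sub_ne_zero.2 n))
    linear_combination ξ2 * (h' - h) - 2 * ξ1 * k1
  refine ⟨2 * η2 / ξ2, ?_, ?_, ?_⟩ <;> field_simp
  · linear_combination k2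
  · linear_combination k1

lemma eta_mem {R : Subring E} {K y ξ1 ξ2 ξ3 ξ4 η1 η2 η3 η4 : E} (m1 : ξ1 ∈ R) (m2 : ξ2 ∈ R)
    (m3 : ξ3 ∈ R) (m4 : ξ4 ∈ R) (hy : K * y ∈ R)
    (he : y = η1 * (ξ2 * ξ3 * ξ4) + η2 * (ξ1 * ξ3 * ξ4) + η3 * (ξ1 * ξ2 * ξ4) + η4 * (ξ1 * ξ2 * ξ3))
    (k1 : K * (ξ1 * η1) ∈ R) (k2 : K * (ξ2 * η2) ∈ R) (k3 : K * (ξ3 * η3) ∈ R)
    (k4 : K * (ξ4 * η4) ∈ R) :
    K * ((ξ2 ^ 2 - ξ1 ^ 2) * (ξ3 ^ 2 - ξ1 ^ 2) * (ξ4 ^ 2 - ξ1 ^ 2)) * η1 ∈ R := by
  have : K * ((ξ2 ^ 2 - ξ1 ^ 2) * (ξ3 ^ 2 - ξ1 ^ 2) * (ξ4 ^ 2 - ξ1 ^ 2)) * η1 =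
      ξ2 * ξ3 * ξ4 * (K * y) - ξ1 * ξ3 ^ 2 * ξ4 ^ 2 * (K * (ξ2 * η2)) -
        ξ1 * ξ2 ^ 2 * ξ4 ^ 2 * (K * (ξ3 * η3)) - ξ1 * ξ2 ^ 2 * ξ3 ^ 2 * (K * (ξ4 * η4)) -
        ξ1 * (ξ2 ^ 2 * ξ3 ^ 2 + ξ2 ^ 2 * ξ4 ^ 2 + ξ3 ^ 2 * ξ4 ^ 2 -
          ξ1 ^ 2 * (ξ2 ^ 2 + ξ3 ^ 2 + ξ4 ^ 2) + ξ1 ^ 4) * (K * (ξ1 * η1)) := by
    rw [he]; ring
  rw [this]
  generalize K * y = Y at hy
  generalize K * (ξ1 * η1) = Y1 at k1
  generalize K * (ξ2 * η2) = Y2 at k2
  generalize K * (ξ3 * η3) = Y3 at k3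
  generalize K * (ξ4 * η4) = Y4 at k4
  apply_rules (maxDepth := 200) [sub_mem, add_mem, mul_mem, pow_mem]

end Pool.Agent.Work.MP_969914_nt.H70
end

-- merged part: Pool.Agent.Work.MP_969914_nt.H70Gap
section
/-! A long run of good steps cannot be followed by a bad step. -/

set_option autoImplicit false

open Polynomial
open scoped NNReal

namespace Pool.Agent.Work.MP_969914_nt.H70

variable {E : Type*} [Field E] {v : Valuation E ℝ≥0}

/-- The algebraic data attached to a square on the critical orbit. -/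
structure GD (s x β u w a b w' a' b' ξ1 ξ2 ξ3 : E) : Prop where
  hw : w ^ 2 = β + s ^ 2
  ha : a ^ 2 = w + s ^ 2
  hb : b ^ 2 = -w + s ^ 2
  hw' : 2 * w * w' = u + 2 * s
  ha' : 2 * a * a' = w' + 2 * s
  hb' : 2 * b * b' = -w' + 2 * s
  e1 : ξ1 ^ 2 = x - a
  e2 : ξ2 ^ 2 = x + a
  e3 : ξ3 ^ 2 = x - b

/-- The Wronskian. -/
def Wr (x' a' b' ξ1 ξ2 ξ3 : E) : E :=
  (ξ1 - ξ2) * ((x' - a') / (2 * ξ1) - (x' - b') / (2 * ξ3)) -
    (ξ1 - ξ3) * ((x' - a') / (2 * ξ1) - (x' - -a') / (2 * ξ2))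

lemma val_of_sq {s z y : E} (hs : 1 < v s) (h : z ^ 2 = y + s ^ 2) (hy : v y ≤ v s) : v z = v s :=
  val_pre hs (by rw [fq, h]; simpa using hy)

lemma val_le_one {s z z' y : E} (hs : 1 < v s) (h2 : v 2 = 1) (hz : v z = v s)
    (h : 2 * z * z' = y + 2 * s) (hy : v y ≤ 1) : v z' ≤ 1 := by
  have h1 : v (2 * z * z') ≤ v s := h ▸ v.map_add_le (hy.trans hs.le) (by simp [h2])
  rw [map_mul, map_mul, h2, one_mul, hz] at h1
  exact (mul_le_iff_le_one_right (zero_lt_one.trans hs)).1 h1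

lemma val_xi {s x a ξ : E} {τ : ℝ≥0} (hs : 1 < v s) (hτ : v s ≤ τ) (hx : v x = τ ^ 2)
    (ha : v a = v s) (h : ξ ^ 2 = x + a) : v ξ = τ := by
  have : v ξ ^ 2 = τ ^ 2 := by
    rw [← map_pow, h, v.map_add_eq_of_lt_left, hx]
    rw [hx, ha]
    exact (lt_sq hs).trans_le (pow_le_pow_left₀ zero_le hτ 2)
  exact (pow_left_inj₀ zero_le zero_le (by norm_num)).1 this

namespace GD
variable {s x β u w a b w' a' b' ξ1 ξ2 ξ3 : E} (h : GD s x β u w a b w' a' b' ξ1 ξ2 ξ3)
include h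

lemma map (σ : E →+* E) : GD (σ s) (σ x) (σ β) (σ u) (σ w) (σ a) (σ b) (σ w') (σ a') (σ b')
    (σ ξ1) (σ ξ2) (σ ξ3) := by
  obtain ⟨h1, h2, h3, h4, h5, h6, h7, h8, h9⟩ := h
  apply_fun σ at h1 h2 h3 h4 h5 h6 h7 h8 h9
  simp only [map_pow, map_add, map_neg, map_mul, map_sub, map_ofNat] at *
  exact ⟨h1, h2, h3, h4, h5, h6, h7, h8, h9⟩

lemma neg : GD s x β u w a b w' a' b' (-ξ1) ξ2 ξ3 :=
  { h with e1 := by rw [neg_sq, h.e1] }

lemma size (hs : 1 < v s) (h2 : v 2 = 1) {τ : ℝ≥0} (hτ : v s ≤ τ) (hx : v x = τ ^ 2) {x' : E}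
    (hx' : v x' ≤ τ ^ 2) (hβ : v β ≤ v s) (hu : v u ≤ 1) :
    v w = v s ∧ v a = v s ∧ v b = v s ∧ v ξ1 = τ ∧ v ξ2 = τ ∧ v ξ3 = τ ∧
      v (Wr x' a' b' ξ1 ξ2 ξ3 ^ 2 * ((ξ1 + ξ2) * (ξ1 + ξ3) * (ξ2 + ξ3))) ≤ v s ^ 4 / τ := by
  have k1 := val_of_sq hs h.hw hβ
  have k2 := val_of_sq hs h.ha k1.le
  have k3 := val_of_sq hs h.hb (by rw [v.map_neg, k1])
  have k4 := val_le_one hs h2 k1 h.hw' hu
  have k5 := val_le_one hs h2 k2 h.ha' k4
  have k6 := val_le_one hs h2 k3 h.hb' (by rwa [v.map_neg])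
  have k7 := val_xi hs hτ hx (a := -a) (by rw [v.map_neg, k2]) (h.e1.trans (sub_eq_add_neg _ _))
  have k8 := val_xi hs hτ hx k2 h.e2
  have k9 := val_xi hs hτ hx (a := -b) (by rw [v.map_neg, k3]) (h.e3.trans (sub_eq_add_neg _ _))
  refine ⟨k1, k2, k3, k7, k8, k9, wr_size h2 hs.le hτ k7 k8 k9 hx' k5 (by rwa [v.map_neg]) k6 ?_ ?_⟩
  · rw [h.e1, h.e2, show x - a - (x + a) = -(2 * a) by ring]; simp [h2, k2]
  · rw [h.e1, h.e3, show x - a - (x - b) = b - a by ring]; exact v.map_sub_le k3.le k2.le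

lemma ne (h2 : (2 : E) ≠ 0) (hw : w ≠ 0) : a ≠ b ∧ a ≠ -b := by
  have : a ^ 2 ≠ b ^ 2 := fun e => mul_ne_zero h2 hw (by linear_combination e - h.ha + h.hb)
  rwa [Ne, sq_eq_sq_iff_eq_or_eq_neg, not_or] at this

lemma both (h2 : (2 : E) ≠ 0) (hs : s ≠ 0) (hw : w ≠ 0) (n1 : ξ1 ≠ 0) (n2 : ξ2 ≠ 0)
    (n3 : ξ3 ≠ 0) {x' : E} (z1 : Wr x' a' b' ξ1 ξ2 ξ3 = 0) (z2 : Wr x' a' b' (-ξ1) ξ2 ξ3 = 0) :
    u * s = 2 * (s ^ 2 + 2 * β) := by
  obtain ⟨ρ, r1, r2, r3⟩ := wr_both h2 n1 n2 n3 (fun e => (h.ne h2 hw).2 (by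
    linear_combination h.e3 - h.e2 + (ξ2 + ξ3) * e)) z1 z2
  rw [h.e1] at r1
  rw [h.e2] at r2
  rw [h.e3] at r3
  have k1 : a' = ρ * a := mul_left_cancel₀ h2 (by linear_combination r2 - r1)
  have k2 : b' = ρ * b := by linear_combination r1 - r3 + k1
  have k3 := h.ha'
  have k4 := h.hb'
  rw [k1] at k3
  rw [k2] at k4
  have k5 : ρ * s = 1 := by
    apply mul_left_cancel₀ (mul_ne_zero (mul_ne_zero h2 h2) hs)
    linear_combination k3 + k4 - 2 * ρ * h.ha - 2 * ρ * h.hb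
  have k6 : w' = 2 * ρ * w := by linear_combination -k3 + 2 * ρ * h.ha + 2 * s * k5
  have k7 := h.hw'
  rw [k6] at k7
  linear_combination -s * k7 + 4 * w ^ 2 * k5 + 4 * h.hw

lemma mem (h2 : (2 : E) ≠ 0) {R : Subring E} (hh : (2 : E)⁻¹ ∈ R) {D y x' : E} (ms : s ∈ R)
    (mx' : x' ∈ R) (mw : w ∈ R) (ma : a ∈ R) (mb : b ∈ R) (m1 : ξ1 ∈ R)
    (m2 : ξ2 ∈ R) (m3 : ξ3 ∈ R) (m4 : y / (ξ1 * ξ2 * ξ3) ∈ R) (mD : D ∈ R) (mu : D * u ∈ R)
    (n1 : ξ1 ≠ 0) (n2 : ξ2 ≠ 0) (n3 : ξ3 ≠ 0) (ny : y ≠ 0)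
    (hy : (y / (ξ1 * ξ2 * ξ3)) ^ 2 = x + b)
    (my : D ^ 2 * ((2 * (x ^ 2 - s ^ 2) * (2 * x * x' - 2 * s) - 2 * s - u) / (2 * y)) ∈ R) :
    D ^ 2 * (w * a * b) ^ 2 * Wr x' a' b' ξ1 ξ2 ξ3 ∈ R := by
  obtain ⟨ξ4, rfl⟩ : ∃ ξ4, y = ξ1 * ξ2 * ξ3 * ξ4 := ⟨y / (ξ1 * ξ2 * ξ3), by field_simp⟩
  rw [mul_div_cancel_left₀ _ (mul_ne_zero (mul_ne_zero n1 n2) n3)] at m4 hy
  have n4 : ξ4 ≠ 0 := right_ne_zero_of_mul ny
  obtain ⟨t, ht⟩ : ∃ t, t = (2 : E)⁻¹ := ⟨_, rfl⟩
  have ht2 : 2 * t = 1 := by rw [ht]; field_simp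
  rw [← ht] at hh
  have ma' : D * (w * a * b) * a' ∈ R := by
    rw [show D * (w * a * b) * a' = b * t * (t * (D * u + 2 * s * D) + 2 * s * w * D) by
      linear_combination (D * b * w * t) * h.ha' + (D * b * t * t) * h.hw' -
        (D * w * a * b * a' + D * b * t * w * w') * ht2]
    generalize D * u = U at mu
    apply_rules (maxDepth := 200) [add_mem, mul_mem, ofNat_mem]
  have mb' : D * (w * a * b) * b' ∈ R := by
    rw [show D * (w * a * b) * b' = a * t * (-(t * (D * u + 2 * s * D)) + 2 * s * w * D) by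
      linear_combination (D * a * w * t) * h.hb' - (D * a * t * t) * h.hw' -
        (D * w * a * b * b' - D * a * t * w * w') * ht2]
    generalize D * u = U at mu
    apply_rules (maxDepth := 200) [add_mem, mul_mem, ofNat_mem, neg_mem]
  have mK : D * (w * a * b) ∈ R := by apply_rules [mul_mem]
  have key : ∀ ξ p : E, ξ ≠ 0 → D * (w * a * b) * p ∈ R →
      D ^ 2 * (w * a * b) * (ξ * ((x' - p) / (2 * ξ))) ∈ R := by
    intro ξ p hξ hp
    rw [show D ^ 2 * (w * a * b) * (ξ * ((x' - p) / (2 * ξ))) =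
      D * t * (D * (w * a * b) * x' - D * (w * a * b) * p) by rw [ht]; field_simp]
    exact mul_mem (mul_mem mD hh) (sub_mem (mul_mem mK mx') hp)
  have k1 := key ξ1 a' n1 ma'
  have k2 := key ξ2 (-a') n2 (by rw [mul_neg]; exact neg_mem ma')
  have k3 := key ξ3 b' n3 mb'
  have k4 := key ξ4 (-b') n4 (by rw [mul_neg]; exact neg_mem mb')
  have ky := mul_mem my (mul_mem (mul_mem mw ma) mb)
  rw [mul_right_comm] at ky
  have he : (2 * (x ^ 2 - s ^ 2) * (2 * x * x' - 2 * s) - 2 * s - u) / (2 * (ξ1 * ξ2 * ξ3 * ξ4)) =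
      (x' - a') / (2 * ξ1) * (ξ2 * ξ3 * ξ4) + (x' - -a') / (2 * ξ2) * (ξ1 * ξ3 * ξ4) +
      (x' - b') / (2 * ξ3) * (ξ1 * ξ2 * ξ4) + (x' - -b') / (2 * ξ4) * (ξ1 * ξ2 * ξ3) := by
    field_simp
    rw [h.e1, h.e2, h.e3, hy]
    linear_combination h.hw' + (x ^ 2 - a ^ 2) * h.hb' + (x ^ 2 - b ^ 2) * h.ha' +
      (2 * x * x' - 2 * s - w') * h.hb + (2 * x * x' - 2 * s + w') * h.ha
  rw [Wr]
  generalize (x' - a') / (2 * ξ1) = η1 at *
  generalize (x' - -a') / (2 * ξ2) = η2 at *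
  generalize (x' - b') / (2 * ξ3) = η3 at *
  generalize (x' - -b') / (2 * ξ4) = η4 at *
  have j1 := eta_mem m1 m2 m3 m4 ky he k1 k2 k3 k4
  have j2 := eta_mem m2 m1 m3 m4 ky (he.trans (by ring)) k2 k1 k3 k4
  have j3 := eta_mem m3 m1 m2 m4 ky (he.trans (by ring)) k3 k1 k2 k4
  rw [h.e1, h.e2, h.e3, hy] at j1 j2 j3
  have i1 : D ^ 2 * (w * a * b) ^ 2 * η1 ∈ R := by
    have := mul_mem j1 (mul_mem (mul_mem hh hh) mb)
    refine (congrArg (· ∈ R) ?_).mp this
    linear_combination (D ^ 2 * w * a ^ 2 * b ^ 2 * η1 * 2 * t * t) * (h.ha - h.hb) +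
      D ^ 2 * (w * a * b) ^ 2 * η1 * (2 * t + 1) * ht2
  have i2 : D ^ 2 * (w * a * b) ^ 2 * η2 ∈ R := by
    have := neg_mem (mul_mem j2 (mul_mem (mul_mem hh hh) mb))
    refine (congrArg (· ∈ R) ?_).mp this
    linear_combination (D ^ 2 * w * a ^ 2 * b ^ 2 * η2 * 2 * t * t) * (h.ha - h.hb) +
      D ^ 2 * (w * a * b) ^ 2 * η2 * (2 * t + 1) * ht2
  have i3 : D ^ 2 * (w * a * b) ^ 2 * η3 ∈ R := by
    have := neg_mem (mul_mem j3 (mul_mem (mul_mem hh hh) ma))
    refine (congrArg (· ∈ R) ?_).mp this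
    linear_combination (D ^ 2 * w * a ^ 2 * b ^ 2 * η3 * 2 * t * t) * (h.ha - h.hb) +
      D ^ 2 * (w * a * b) ^ 2 * η3 * (2 * t + 1) * ht2
  generalize D ^ 2 * (w * a * b) ^ 2 = K at *
  rw [show K * ((ξ1 - ξ2) * (η1 - η3) - (ξ1 - ξ3) * (η1 - η2)) =
    (ξ1 - ξ2) * (K * η1 - K * η3) - (ξ1 - ξ3) * (K * η1 - K * η2) by ring]
  exact sub_mem (mul_mem (sub_mem m1 m2) (sub_mem i1 i3)) (mul_mem (sub_mem m1 m3) (sub_mem i1 i2))

end GD

lemma exists_GD [IsAlgClosed E] {s : E} (hs : 1 < v s) (h2 : v 2 = 1) (x u : E) {β : E}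
    (hβ : v β ≤ v s) : ∃ w a b w' a' b' ξ1 ξ2 ξ3, GD s x β u w a b w' a' b' ξ1 ξ2 ξ3 := by
  have sq : ∀ y : E, ∃ z, z ^ 2 = y := fun y => IsAlgClosed.exists_pow_nat_eq y (by norm_num)
  obtain ⟨w, hw⟩ := sq (β + s ^ 2)
  obtain ⟨a, ha⟩ := sq (w + s ^ 2)
  obtain ⟨b, hb⟩ := sq (-w + s ^ 2)
  obtain ⟨ξ1, e1⟩ := sq (x - a)
  obtain ⟨ξ2, e2⟩ := sq (x + a)
  obtain ⟨ξ3, e3⟩ := sq (x - b)
  have k1 := val_of_sq hs hw hβ
  have k2 := val_of_sq hs ha k1.le
  have k3 := val_of_sq hs hb (by rw [v.map_neg, k1])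
  have h0 : ∀ z : E, v z = v s → 2 * z ≠ 0 := fun z hz =>
    v.pos_iff.1 (by rw [map_mul, h2, one_mul, hz]; exact zero_lt_one.trans hs)
  exact ⟨w, a, b, _, _, _, ξ1, ξ2, ξ3, hw, ha, hb, mul_div_cancel₀ _ (h0 w k1),
    mul_div_cancel₀ _ (h0 a k2), mul_div_cancel₀ _ (h0 b k3), e1, e2, e3⟩

variable {k : Type*} [Field k] [Algebra k[X] E] {F : Type*} [Field F]
  [Algebra F E] [Algebra k[X] F] [IsScalarTower k[X] F E] [IsAlgClosed E]
  [Algebra.IsAlgebraic F E] [IsFractionRing k[X] F]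

omit [IsAlgClosed E] in
lemma AtInf.val_derivative_le (h : AtInf k v) (q : k[X]) :
    v (algebraMap k[X] E (derivative q)) ≤ v (algebraMap k[X] E q) := by
  by_cases h0 : derivative q = 0
  · simp [h0]
  have h1 : q ≠ 0 := by rintro rfl; simp at h0
  rw [h.val_eq h0, h.val_eq h1]
  exact pow_le_pow_right₀ h.ht.le ((natDegree_derivative_le q).trans (Nat.sub_le _ _))

theorem AtInf.gap_core (h : AtInf k v) {β : E} (hβ : β ∈ IS F k)
    (hv : ∀ σ : E ≃ₐ[F] E, v (σ β) ≤ v (algebraMap k[X] E X))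
    (hu : ∀ σ : E ≃ₐ[F] E, v (σ (du k β)) ≤ 1) {q : k[X]} {N : ℕ} (hN : 1 ≤ N)
    (hq : v (algebraMap k[X] E q) = (v (algebraMap k[X] E X) ^ N) ^ 2) {y : E} (hy0 : y ≠ 0)
    (hy : y ^ 2 = algebraMap k[X] E (fq (-X ^ 2) (fq (-X ^ 2) q)) - β)
    (hy' : IsIntegral k[X] (Dd F β ^ 2 *
      ((algebraMap k[X] E (derivative (fq (-X ^ 2) (fq (-X ^ 2) q))) - du k β) / (2 * y)))) :
    (N : ℝ) ≤ 4 * lam F v (algebraMap k[X] E X) (Dd F β) + 16 := by
  have hs := h.ht
  have h2 := h.two_ne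
  have hτ : v (algebraMap k[X] E X) ≤ v (algebraMap k[X] E X) ^ N := le_self_pow₀ hs.le (by omega)
  have hτ0 : 0 < v (algebraMap k[X] E X) ^ N := pow_pos h.pos _
  have hq' := (h.val_derivative_le q).trans_eq hq
  obtain ⟨w, a, b, w', a', b', ξ1, ξ2, ξ3, hG, hW⟩ : ∃ w a b w' a' b' ξ1 ξ2 ξ3,
      GD (algebraMap k[X] E X) (algebraMap k[X] E q) β (du k β) w a b w' a' b' ξ1 ξ2 ξ3 ∧
      Wr (algebraMap k[X] E (derivative q)) a' b' ξ1 ξ2 ξ3 ≠ 0 := by
    obtain ⟨w, a, b, w', a', b', ξ1, ξ2, ξ3, hG⟩ := exists_GD hs h.v2 (algebraMap k[X] E q)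
      (du k β) (hv 1)
    by_contra hno
    push Not at hno
    obtain ⟨k1, -, -, k4, k5, k6, -⟩ := hG.size hs h.v2 hτ hq hq' (hv 1) (hu 1)
    have e := congrArg v (hG.both h2 h.ne (v.pos_iff.1 (k1 ▸ h.pos)) (v.pos_iff.1 (k4 ▸ hτ0))
      (v.pos_iff.1 (k5 ▸ hτ0)) (v.pos_iff.1 (k6 ▸ hτ0)) (hno _ _ _ _ _ _ _ _ _ hG)
      (hno _ _ _ _ _ _ _ _ _ hG.neg))
    rw [map_mul, map_mul, h.v2, one_mul, v.map_add_eq_of_lt_left (by
      rw [map_mul, h.v2, one_mul, map_pow]; exact (hv 1).trans_lt (lt_sq hs)), map_pow] at e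
    exact absurd e ((mul_le_mul' (hu 1) le_rfl).trans_lt (by rw [one_mul]; exact lt_sq hs)).ne
  have hsz : ∀ σ : E ≃ₐ[F] E, _ := fun σ => by
    have := hG.map (σ : E →+* E)
    simp only [RingHom.coe_coe, map_A] at this
    exact this.size hs h.v2 hτ hq hq' (hv σ) (hu σ)
  obtain ⟨k1, k2, k3, k4, k5, k6, -⟩ := hG.size hs h.v2 hτ hq hq' (hv 1) (hu 1)
  have nw := v.pos_iff.1 (k1 ▸ h.pos)
  have na := v.pos_iff.1 (k2 ▸ h.pos)
  have nb := v.pos_iff.1 (k3 ▸ h.pos)
  have n1 := v.pos_iff.1 (k4 ▸ hτ0)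
  have n2 := v.pos_iff.1 (k5 ▸ hτ0)
  have n3 := v.pos_iff.1 (k6 ▸ hτ0)
  have hA : ∀ p : k[X], IsIntegral k[X] (algebraMap k[X] E p) := fun p => isIntegral_algebraMap
  have sq : ∀ {z t : E}, z ^ 2 = t → IsIntegral k[X] t → IsIntegral k[X] z :=
    fun e ht => IsIntegral.of_pow (n := 2) (by norm_num) (e ▸ ht)
  have mw := sq hG.hw (hβ.1.add ((hA _).pow 2))
  have ma := sq hG.ha (mw.add ((hA _).pow 2))
  have mb := sq hG.hb (mw.neg.add ((hA _).pow 2))
  have m1 := sq hG.e1 ((hA _).sub ma)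
  have m2 := sq hG.e2 ((hA _).add ma)
  have m3 := sq hG.e3 ((hA _).sub mb)
  have e4 : (y / (ξ1 * ξ2 * ξ3)) ^ 2 = algebraMap k[X] E q + b := by
    rw [div_pow, div_eq_iff (pow_ne_zero _ (mul_ne_zero (mul_ne_zero n1 n2) n3)), mul_pow, mul_pow,
      hG.e1, hG.e2, hG.e3, hy]
    simp only [fq, map_add, map_pow, map_neg]
    linear_combination hG.hw + (algebraMap k[X] E q ^ 2 - b ^ 2) * hG.ha +
      (algebraMap k[X] E q ^ 2 - algebraMap k[X] E X ^ 2 - w) * hG.hb
  have hint := hG.mem h2 (R := (integralClosure k[X] E).toSubring) (h.half ▸ hA _) (hA _)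
    (hA (derivative q)) mw ma mb m1 m2 m3 (sq e4 ((hA _).add mb)) (Dd_mem_IS hβ).1
    (isIntegral_du_iter hβ X 0) n1 n2 n3 hy0 e4 (by
      refine (congrArg (IsIntegral k[X]) ?_).mp hy'
      simp only [fq, derivative_add, derivative_sq, derivative_neg, derivative_X, map_add,
        map_mul, map_neg, map_pow, C_ofNat, map_ofNat, map_one]
      ring)
  have np : (ξ1 + ξ2) * (ξ1 + ξ3) * (ξ2 + ξ3) ≠ 0 := by
    have hne := hG.ne h2 nw
    refine mul_ne_zero (mul_ne_zero (fun e => mul_ne_zero h2 na ?_) fun e => hne.1 ?_)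
      fun e => hne.2 ?_
    · linear_combination hG.e1 - hG.e2 - (ξ1 - ξ2) * e
    · linear_combination hG.e1 - hG.e3 - (ξ1 - ξ3) * e
    · linear_combination hG.e3 - hG.e2 + (ξ2 - ξ3) * e
  have nD := Dd_ne_zero (F := F) β
  have nwab : w * a * b ≠ 0 := mul_ne_zero (mul_ne_zero nw na) nb
  have nK := mul_ne_zero (pow_ne_zero 2 nD) (pow_ne_zero 2 nwab)
  have nZ := mul_ne_zero (pow_ne_zero 2 hW) np
  have z1 := h.lam_nonneg (F := F) hs ((IsIntegral.pow hint 2).mul
    (((m1.add m2).mul (m1.add m3)).mul (m2.add m3)))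
    (mul_ne_zero (pow_ne_zero 2 (mul_ne_zero nK hW)) np)
  rw [mul_pow, mul_assoc, lam_mul (pow_ne_zero 2 nK) nZ, lam_pow nK,
    lam_mul (pow_ne_zero 2 nD) (pow_ne_zero 2 nwab), lam_pow nD, lam_pow nwab] at z1
  have z2 := lam_eq (F := F) hs (y := w * a * b) (n := 3) fun σ => by
    rw [map_mul, map_mul, map_mul, map_mul, (hsz σ).1, (hsz σ).2.1, (hsz σ).2.2.1, zpow_ofNat]
    ring
  have z3 := lam_le (F := F) hs nZ (n := 4 - N) fun σ => by
    have := (hsz σ).2.2.2.2.2.2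
    rw [zpow_sub₀ h.pos.ne', zpow_natCast, zpow_ofNat]
    simpa only [Wr, map_mul σ, map_add σ, map_sub σ, map_pow σ, map_div₀ σ, map_neg σ,
      map_ofNat σ, map_A] using this
  push_cast at z1 z2 z3
  linarith

omit [IsAlgClosed E] in
lemma val_crit {s : E} (hs : 1 < v s) (i : ℕ) :
    v ((fq (-s ^ 2))^[i + 1] 0) = (v s ^ 2 ^ i) ^ 2 := by
  induction i with
  | zero => simp [fq]
  | succ i ih =>
    rw [Function.iterate_succ_apply', fq, v.map_add_eq_of_lt_left, map_pow, ih, ← pow_mul (v s),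
      ← pow_succ]
    rw [map_pow, ih, v.map_neg, map_pow, ← pow_mul, ← pow_mul]
    have : 1 ≤ 2 ^ i := Nat.one_le_two_pow
    exact pow_lt_pow_right₀ hs (by omega)

namespace Branch
variable {b : ℕ → E}

omit [IsFractionRing k[X] F] in
open Classical in
lemma prod_run {s0 : k[X]} (hb : Branch F v s0 b) (h2 : (2 : E) ≠ 0) (m i : ℕ)
    (hg : ∀ r < i, -b (m + r + 1) ∈ conj F (b (m + r + 1))) (T : E) :
    ∏ y ∈ (conj F (b (m + i))).filter (fun y => (fq (-algebraMap k[X] E s0 ^ 2))^[i] y = b m),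
      (T - y) = (fq (-algebraMap k[X] E s0 ^ 2))^[i] T - b m := by
  induction i generalizing T with
  | zero =>
    rw [show (conj F (b (m + 0))).filter (fun y => (fq (-algebraMap k[X] E s0 ^ 2))^[0] y = b m) =
      {b m} by ext y; simpa using fun h => h ▸ self_mem_conj y]
    simp
  | succ i ih =>
    have := prod_good (map_c (F := F) s0) h2 (hb.ne_zero (m + i)) (hg i (by omega))
      (fun y => (fq (-algebraMap k[X] E s0 ^ 2))^[i] y = b m) (fun y => T - y)
      (fun y => fq (-algebraMap k[X] E s0 ^ 2) T - y) fun x => by simp only [fq]; ring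
    rw [hb.step, ih fun r hr => hg r (by omega)] at this
    exact this

theorem gap (hb : Branch F v (X : k[X]) b) (h : AtInf k v)
    (hu : ∀ σ : E ≃ₐ[F] E, v (σ (du k (b 0))) ≤ 1) (m i : ℕ)
    (hg : ∀ r < i, -b (m + r + 1) ∈ conj F (b (m + r + 1)))
    (hbad : -b (m + i + 1) ∉ conj F (b (m + i + 1))) :
    (2 : ℝ) ^ i ≤ 16 * lam F v (algebraMap k[X] E X) (Dd F (b m)) + 64 := by
  classical
  have h2 := h.two_ne
  have hm := hb.mem' h2 m
  have hδ := h.lam_nonneg (F := F) h.ht (Dd_mem_IS hm).1 (Dd_ne_zero _)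
  rcases i with _ | _ | i
  · norm_num; linarith
  · norm_num; linarith
  set c := -algebraMap k[X] E X ^ 2 with hc
  let f : E → E := fun x => ∏ y ∈ (conj F (b (m + (i + 2) + 1))).filter
    (fun y => (fq c)^[i + 3] y = x), y
  have hf2 : f (b m) ^ 2 = algebraMap k[X] E (fq (-X ^ 2) (fq (-X ^ 2)
      ((fq (-X ^ 2))^[i + 1] (0 : k[X])))) - b m := by
    have e1 := prod_bad (map_c (F := F) (X : k[X])) hbad (fun y => (fq c)^[i + 2] y = b m)
      (fun y => y ^ 2) (fun y => y - c) fun x => by simp only [fq]; ring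
    have e2 := prod_good (map_c (F := F) (X : k[X])) h2 (hb.ne_zero (m + (i + 1)))
      (hg (i + 1) (by omega)) (fun y => (fq c)^[i + 1] y = b m) (fun y => y - c)
      (fun y => fq c c - y) fun x => by simp only [fq]; ring
    rw [hb.step] at e1 e2
    rw [hb.prod_run h2 m (i + 1) fun r hr => hg r (by omega)] at e2
    rw [← Finset.prod_pow]
    refine (e1.trans e2).trans ?_
    have e3 := map_fq (algebraMap k[X] E) (-X ^ 2) (i + 3) 0
    rw [Function.iterate_succ_apply', Function.iterate_succ_apply', map_zero, map_neg, map_pow,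
      ← hc] at e3
    rw [e3]
    simp [Function.iterate_succ_apply, fq, hc]
  have hf0 : f (b m) ≠ 0 := Finset.prod_ne_zero_iff.2 fun y hy =>
    ne_zero_of_mem_conj (Finset.mem_filter.1 hy).1 (hb.ne_zero _)
  have h3 := h.gap_core hm (hb.size' · m) (hb.du_le h hu · m) (N := 2 ^ i) Nat.one_le_two_pow
    (q := (fq (-X ^ 2))^[i + 1] 0) (by
      rw [map_fq, map_zero, map_neg, map_pow]; exact val_crit h.ht i) hf0 hf2
    (isIntegral_sqrt_der hm (f := f) (fun σ x _ => by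
      rw [map_prod, map_prod_conj σ _ _ (fun y => (fq c)^[i + 3] y = σ x) (fun y => by
        rw [← map_iter σ (map_c X σ)]; exact σ.injective.eq_iff) (fun y => y)])
      (prod_mem fun y hy => mem_IS_of_mem_conj (Finset.mem_filter.1 hy).1 (hb.mem' h2 _))
      h2 hf0 hf2)
  push_cast at h3
  rw [pow_succ, pow_succ]
  linarith

end Branch

end Pool.Agent.Work.MP_969914_nt.H70
end

-- merged part: Pool.Agent.Work.MP_969914_nt.H70Book
section
/-! Bookkeeping of the contributions to the different. -/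

set_option autoImplicit false

namespace Pool.Agent.Work.MP_969914_nt.H70

open Finset

lemma geo_sum {G : ℕ} (hG : 0 < G) (N : ℕ) : ∑ i ∈ range N, (1 / 2 : ℝ) ^ (i / G) ≤ 2 * G := by
  have key : ∀ q : ℕ, ∑ i ∈ range (G * q), (1 / 2 : ℝ) ^ (i / G) = 2 * G * (1 - (1 / 2) ^ q) := by
    intro q
    induction q with
    | zero => simp
    | succ q ih =>
      rw [mul_add_one, sum_range_add, ih, sum_congr rfl (g := fun _ => (1 / 2 : ℝ) ^ q)
        fun i hi => by rw [Nat.mul_add_div hG, Nat.div_eq_of_lt (mem_range.1 hi), add_zero],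
        sum_const, card_range, nsmul_eq_mul]
      ring
  refine (sum_le_sum_of_subset_of_nonneg (range_mono (Nat.le_mul_of_pos_left N hG))
    fun _ _ _ => by positivity).trans ?_
  rw [key]
  have : (0 : ℝ) ≤ (1 / 2) ^ N := by positivity
  have : (0 : ℝ) ≤ G := by positivity
  nlinarith

lemma sum_good (good : ℕ → Prop) [DecidablePred good] (f : ℕ → ℝ) (n : ℕ) :
    ∑ m ∈ range n, (if good m then f ((range (m + 1)).filter good).card else 0) =
      ∑ i ∈ range ((range n).filter good).card, f (i + 1) := by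
  induction n with
  | zero => simp
  | succ n ih =>
    rw [sum_range_succ, ih, range_add_one, filter_insert]
    split_ifs
    · rw [card_insert_of_notMem (by simp), sum_range_succ]
    · simp

lemma sq_le_two_pow (G : ℕ) : G ^ 2 ≤ 2 ^ (G + 1) := by
  induction G with
  | zero => simp
  | succ G ih =>
    have := Nat.lt_two_pow_self (n := G)
    rw [pow_succ 2 (G + 1), pow_succ 2 G] at *
    nlinarith

theorem book (C0 : ℝ) : ∃ M : ℝ, ∀ (good : ℕ → Prop) [DecidablePred good] (δ : ℕ → ℝ)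
    (d : ℕ → ℕ → ℝ), (∀ n, δ n ≤ C0 + ∑ m ∈ range n, d m (n - 1 - m)) →
    (∀ m j, d m j ≤ if good m then 1 else 0) → (∀ m j, d m (j + 1) ≤ d m j) →
    (∀ m j J, j + 1 ≤ J → 17 * J ≤ ((range (m + 1)).filter good).card → ¬ good (m + 1 + j) →
      d m (j + 1) ≤ d m j / 2 + 15 / 2 ^ J / 2) →
    (∀ m i, (∀ r < i, good (m + r)) → ¬ good (m + i) → (2 : ℝ) ^ i ≤ 16 * δ m + 64) →
    ∀ n, ¬ good n → δ n ≤ M := by
  classical
  refine ⟨C0 + 546 * (64 * |C0| + 35200), fun good _ δ d h1 h2 h3 h4 h5 n hn => ?_⟩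
  have hex : ∃ G, ∀ m, m + G ≤ n + 1 → ∃ r < G, ¬ good (m + r) := ⟨n + 2, fun m hm => by omega⟩
  obtain ⟨G, hG, hG'⟩ : ∃ G, (∀ m, m + G ≤ n + 1 → ∃ r < G, ¬ good (m + r)) ∧
      ∀ G' < G, ¬ ∀ m, m + G' ≤ n + 1 → ∃ r < G', ¬ good (m + r) :=
    ⟨Nat.find hex, Nat.find_spec hex, fun _ h => Nat.find_min hex h⟩
  have hG0 : 0 < G := by
    rcases G with _ | G
    · obtain ⟨r, hr, -⟩ := hG 0 (by omega)
      omega
    · omega
  have hanti : ∀ m, Antitone (d m) := fun m => antitone_nat_of_succ_le (h3 m)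
  have hq : ∀ m J q, 17 * J ≤ ((range (m + 1)).filter good).card → G * q ≤ J →
      m + 1 + G * q ≤ n + 1 → d m (G * q) ≤ (1 / 2) ^ q + 15 / 2 ^ J := by
    intro m J q hJ
    induction q with
    | zero =>
      intro _ _
      have := h2 m 0
      have h6 : (0 : ℝ) ≤ 15 / 2 ^ J := by positivity
      simp only [mul_zero, pow_zero]
      split_ifs at this <;> linarith
    | succ q ih =>
      rw [mul_add_one]
      intro k1 k2
      obtain ⟨r, hr, hbad⟩ := hG (m + 1 + G * q) (by omega)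
      have k3 := ih (by omega) (by omega)
      have k4 := h4 m (G * q + r) J (by omega) hJ (by rwa [← add_assoc])
      have k5 := hanti m (show G * q ≤ G * q + r by omega)
      have k6 := hanti m (show G * q + r + 1 ≤ G * q + G by omega)
      rw [pow_succ]
      linarith
  have hA : ∀ k ≤ n, δ k ≤ C0 + 546 * G := by
    intro k hk
    refine (h1 k).trans (add_le_add le_rfl ?_)
    have k1 : ∀ m ∈ range k, d m (k - 1 - m) ≤ (1 / 2) ^ ((k - 1 - m) / G) + 16 *
        (if good m then (1 / 2 : ℝ) ^ (((range (m + 1)).filter good).card / (17 * G)) else 0) := by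
      intro m hm
      have hm' := mem_range.1 hm
      split_ifs with hg
      · rw [← Nat.div_div_eq_div_mul]
        have k2 := Nat.mul_div_le ((range (m + 1)).filter good).card 17
        generalize ((range (m + 1)).filter good).card / 17 = J at *
        have k3 := Nat.mul_div_le (min (k - 1 - m) J) G
        have k4 := (hanti m (k3.trans (min_le_left _ _))).trans
          (hq m J _ k2 (k3.trans (min_le_right _ _)) (by omega))
        have k5 : (15 : ℝ) / 2 ^ J ≤ 15 * (1 / 2) ^ (J / G) := by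
          rw [div_eq_mul_one_div, ← one_div_pow]
          exact mul_le_mul_of_nonneg_left (pow_le_pow_of_le_one (by norm_num) (by norm_num)
            (Nat.div_le_self _ _)) (by norm_num)
        have k6 : (0 : ℝ) ≤ (1 / 2) ^ (J / G) := by positivity
        have k7 : (0 : ℝ) ≤ (1 / 2) ^ ((k - 1 - m) / G) := by positivity
        rcases min_choice (k - 1 - m) J with h | h <;> rw [h] at k4 <;> (clear * - k4 k5 k6 k7; linarith)
      · have := h2 m (k - 1 - m)
        rw [if_neg hg] at this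
        have k7 : (0 : ℝ) ≤ (1 / 2) ^ ((k - 1 - m) / G) := by positivity
        linarith
    refine (sum_le_sum k1).trans ?_
    rw [sum_add_distrib, ← mul_sum, sum_range_reflect (fun i => (1 / 2 : ℝ) ^ (i / G)),
      sum_good good fun i => (1 / 2 : ℝ) ^ (i / (17 * G))]
    have k2 := geo_sum hG0 k
    have k3 := geo_sum (G := 17 * G) (by omega) (((range k).filter good).card + 1)
    rw [sum_range_succ'] at k3
    have k4 : (0 : ℝ) ≤ (1 / 2) ^ (0 / (17 * G)) := by positivity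
    push_cast at k3
    linarith
  have hB : (G : ℝ) ≤ 64 * |C0| + 35200 := by
    obtain ⟨G, rfl⟩ : ∃ G', G = G' + 1 := ⟨G - 1, by omega⟩
    have k1 := hG' G (by omega)
    push Not at k1
    obtain ⟨m, hm, hgood⟩ := k1
    have habs := abs_nonneg C0
    rcases G with _ | G
    · push_cast; linarith
    have hmn : m + G < n := by
      have := hgood G (by omega)
      rcases (show m + G ≤ n by omega).lt_or_eq with h | h
      · exact h
      · exact absurd (h ▸ this) hn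
    have hex2 : ∃ i, ¬ good (m + i) := ⟨n - m, by rwa [Nat.add_sub_cancel' (by omega)]⟩
    have k2 := h5 m (Nat.find hex2) (fun r hr => not_not.1 (Nat.find_min hex2 hr))
      (Nat.find_spec hex2)
    have k3 : G + 1 ≤ Nat.find hex2 := by
      by_contra h
      exact Nat.find_spec hex2 (hgood _ (by omega))
    have k4 : (2 : ℝ) ^ (G + 1) ≤ 2 ^ Nat.find hex2 := pow_le_pow_right₀ (by norm_num) k3
    have k5 := hA m (by omega)
    have k6 : ((G + 1 + 1 : ℕ) : ℝ) ^ 2 ≤ 2 ^ (G + 1) * 4 := by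
      have := sq_le_two_pow (G + 1 + 1)
      rw [pow_succ 2 (G + 1 + 1), pow_succ 2 (G + 1), mul_assoc] at this
      exact_mod_cast this
    have k7 := le_abs_self C0
    have k8 : (1 : ℝ) ≤ ((G + 1 + 1 : ℕ) : ℝ) := by exact_mod_cast Nat.succ_pos _
    generalize ((G + 1 + 1 : ℕ) : ℝ) = g at *
    by_contra hlt
    push Not at hlt
    (clear * - habs hex2 hlt k2 k4 k5 k6 k7 k8; nlinarith)
  have := hA n le_rfl
  linarith

end Pool.Agent.Work.MP_969914_nt.H70
end

-- merged part: Pool.Agent.Work.MP_969914_nt.H70Stab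
section
/-! Eventual stability above an integral base point. -/

set_option autoImplicit false

open Polynomial
open scoped NNReal

namespace Pool.Agent.Work.MP_969914_nt.H70

variable {E : Type*} [Field E] (F : Type*) [Field F] [Algebra F E]

/-- The preimages of level `n` have at least `2 ^ n / C` conjugates. -/
def Stab (c β : E) : Prop :=
  ∃ N : ℕ, ∀ n z, (fq c)^[n] z = β → 2 ^ n ≤ 2 ^ N * (conj F z).card

variable {F} [IsAlgClosed E]

lemma exists_branch (c : E) (n : ℕ) (z : E) :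
    ∃ b : ℕ → E, (∀ i, fq c (b (i + 1)) = b i) ∧ b n = z ∧ b 0 = (fq c)^[n] z := by
  induction n with
  | zero =>
    choose g hg using exists_child c
    exact ⟨fun i => g^[i] z, fun i => by simp only [Function.iterate_succ_apply', hg], rfl, rfl⟩
  | succ n ih =>
    obtain ⟨b, h1, h2, h3⟩ := ih
    refine ⟨fun i => Nat.casesOn i (fq c (b 0)) b, fun i => ?_, h2, ?_⟩
    · cases i
      · rfl
      · exact h1 _
    · rw [Function.iterate_succ_apply', ← h3]; rfl

variable [Algebra.IsAlgebraic F E]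

lemma Stab.of_pre {c β : E} (n0 : ℕ) (h : ∀ z, (fq c)^[n0] z = β → Stab F c z) : Stab F c β := by
  choose! N hN using h
  refine ⟨n0 + (pre c n0 β).sup N, fun n z hz => ?_⟩
  rcases le_or_gt n0 n with h1 | h1
  · obtain ⟨r, rfl⟩ := Nat.exists_eq_add_of_le h1
    rw [Function.iterate_add_apply] at hz
    rw [pow_add, pow_add, mul_assoc]
    refine Nat.mul_le_mul_left _ ((hN _ hz r z rfl).trans (Nat.mul_le_mul_right _ ?_))
    exact Nat.pow_le_pow_right (by norm_num) (Finset.le_sup (mem_pre.2 hz))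
  · exact (Nat.pow_le_pow_right (by norm_num) (by omega)).trans
      (Nat.le_mul_of_pos_right _ (card_conj_pos z))

variable {v : Valuation E ℝ≥0}

lemma exists_conj_bound {s : E} (hs : 1 < v s) (Z : Finset E) (f : E → E) :
    ∃ N : ℕ, ∀ z ∈ Z, ∀ σ : E ≃ₐ[F] E, v (σ (f z)) ≤ v s ^ N := by
  classical
  obtain ⟨N, hN⟩ := pow_unbounded_of_one_lt ((Z.biUnion fun z => conj F (f z)).sup v) hs
  refine ⟨N, fun z hz σ => le_trans (Finset.le_sup (f := v) ?_) hN.le⟩
  exact Finset.mem_biUnion.2 ⟨z, hz, mem_conj.2 ⟨σ, rfl⟩⟩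

omit [IsAlgClosed E] in
lemma val_le_of_iter_le {s : E} (hs : 1 < v s) {n : ℕ} {z : E}
    (h : v ((fq (-s ^ 2))^[n] z) ≤ v s ^ (n + 1)) : v z ≤ v s := by
  induction n with
  | zero => simpa using h
  | succ n ih =>
    refine ih ((pow_le_pow_iff_left₀ zero_le zero_le two_ne_zero).1 ?_)
    rw [Function.iterate_succ_apply'] at h
    generalize (fq (-s ^ 2))^[n] z = w at h
    rw [← map_pow, show w ^ 2 = fq (-s ^ 2) w + s ^ 2 by simp [fq], ← pow_mul]
    refine v.map_add_le (h.trans (pow_le_pow_right₀ hs.le (by omega))) ?_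
    rw [map_pow]
    exact pow_le_pow_right₀ hs.le (by omega)

variable {k : Type*} [Field k] [Algebra k[X] E] [Algebra k[X] F] [IsScalarTower k[X] F E]

omit [IsAlgClosed E] [Algebra.IsAlgebraic F E] in
lemma mem_IS_of_iter (h2 : (2 : E) ≠ 0) (s0 : k[X]) {n : ℕ} {z : E}
    (h : (fq (-algebraMap k[X] E s0 ^ 2))^[n] z ∈ IS F k) : z ∈ IS F k := by
  induction n generalizing z with
  | zero => exact h
  | succ n ih =>
    refine sqrt_mem_IS h2 ?_
    rw [show z ^ 2 = fq (-algebraMap k[X] E s0 ^ 2) z + algebraMap k[X] E s0 ^ 2 by simp [fq]]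
    exact add_mem (ih h) (pow_mem (algebraMap_mem_IS _) 2)

lemma exists_level {s0 : k[X]} (hs : 1 < v (algebraMap k[X] E s0)) (β : E) :
    ∃ n, ∀ z, (fq (-algebraMap k[X] E s0 ^ 2))^[n] z = β →
      ∀ σ : E ≃ₐ[F] E, v (σ z) ≤ v (algebraMap k[X] E s0) := by
  obtain ⟨N, hN⟩ := exists_conj_bound (F := F) hs {β} id
  refine ⟨N, fun z hz σ => val_le_of_iter_le hs (n := N) ?_⟩
  rw [← map_iter σ (map_c s0 σ), hz]
  exact (hN β (by simp) σ).trans (pow_le_pow_right₀ hs.le (by omega))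

variable [IsFractionRing k[X] F]

theorem AtInf.stab_insep (h : AtInf k v) {s0 : k[X]} (hs : 1 < v (algebraMap k[X] E s0))
    (hd : derivative s0 = 0) {β : E} (hβ : β ∈ IS F k) (h0 : du k β ≠ 0) :
    Stab F (-algebraMap k[X] E s0 ^ 2) β := by
  obtain ⟨n0, hn0⟩ := exists_level (F := F) hs β
  refine Stab.of_pre n0 fun y hy => ?_
  have hy1 : y ∈ IS F k := mem_IS_of_iter h.two_ne s0 (hy ▸ hβ)
  have hy2 : du k y ≠ 0 := by
    intro h1
    have : ∀ r, du k ((fq (-algebraMap k[X] E s0 ^ 2))^[r] y) = 0 := by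
      intro r
      induction r with
      | zero => exact h1
      | succ r ih =>
        rw [Function.iterate_succ_apply', du_phi (iter_mem (c_mem_IS s0) hy1 r), ih, hd]
        simp
    exact h0 (hy ▸ this n0)
  refine ⟨⌈lam F v (algebraMap k[X] E s0) (du k y) + lam F v (algebraMap k[X] E s0) (Dd F y)⌉₊,
    fun n z hz => ?_⟩
  obtain ⟨b, b1, rfl, b3⟩ := exists_branch (-algebraMap k[X] E s0 ^ 2) n z
  rw [hz] at b3
  subst b3
  have hb : Branch F v s0 b := ⟨hs, b1, hy1, hn0 _ hy⟩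
  have h1 := (hb.insep h hd hy2 n).trans (add_le_add (Nat.le_ceil _) le_rfl)
  refine le_trans ?_ (Nat.mul_le_mul_left _ (hb.pow_le_card h.two_ne n))
  rw [← pow_add]
  exact Nat.pow_le_pow_right (by norm_num) (by exact_mod_cast h1)

theorem AtInf.stab_norm (h : AtInf k v) {β : E} (hβ : β ∈ IS F k)
    (hv : ∀ σ : E ≃ₐ[F] E, v (σ β) ≤ v (algebraMap k[X] E X))
    (hu : ∀ σ : E ≃ₐ[F] E, v (σ (du k β)) ≤ 1)
    (hper : ∀ n, (fq (-algebraMap k[X] E X ^ 2))^[n + 1] β ≠ β) :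
    Stab F (-algebraMap k[X] E X ^ 2) β := by
  classical
  obtain ⟨M, hM⟩ := book (lam F v (algebraMap k[X] E X) (Dd F β))
  obtain ⟨N, hN⟩ := h.lower (F := F) (⌈M⌉₊ + 1)
  refine ⟨N, fun n z hz => ?_⟩
  obtain ⟨b, b1, rfl, b3⟩ := exists_branch (-algebraMap k[X] E X ^ 2) n z
  rw [hz] at b3
  subst b3
  have hb : Branch F v (X : k[X]) b := ⟨h.ht, b1, hβ, hv⟩
  have hinj : Function.Injective b := by
    refine Function.Injective.of_lt_imp_ne fun i j hij he => ?_
    obtain ⟨r, rfl⟩ := Nat.exists_eq_add_of_lt hij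
    apply hper r
    have e1 := hb.iter 0 i
    have e2 := hb.iter 0 (r + 1 + i)
    rw [zero_add] at e1 e2
    rw [show r + 1 + i = i + r + 1 by ring, ← he, show i + r + 1 = r + 1 + i by ring,
      Function.iterate_add_apply, e1] at e2
    exact e2
  have hgood : ∀ m, N ≤ m → -b (m + 1) ∈ conj F (b (m + 1)) := by
    intro m hm
    by_contra hbad
    have h1 := hM (fun m => -b (m + 1) ∈ conj F (b (m + 1)))
      (fun n => lam F v (algebraMap k[X] E X) (Dd F (b n)))
      (fun m j => lam F v (algebraMap k[X] E X)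
        (piS F (-algebraMap k[X] E X ^ 2) (b (m + 1 + j)) j))
      (hb.delta_le h) (fun m j => by convert hb.piS_le' h m j) (hb.piS_le h)
      (fun m j J k1 k2 k3 => hb.halve h k1 (by convert k2; rw [sG]) k3)
      (fun m i => hb.gap h hu m i) m hbad
    have h2 := hN b hb hu hinj m hm
    have h3 := Nat.le_ceil M
    push_cast at h2
    linarith
  refine le_trans ?_ (Nat.mul_le_mul_left _ (hb.pow_le_card h.two_ne n))
  rw [← pow_add]
  refine Nat.pow_le_pow_right (by norm_num) ?_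
  have : (Finset.Ico N n).card ≤ sG F b n := Finset.card_le_card fun m hm => by
    rw [Finset.mem_Ico] at hm
    exact Finset.mem_filter.2 ⟨Finset.mem_range.2 hm.2, hgood m hm.1⟩
  rw [Nat.card_Ico] at this
  omega

theorem AtInf.stab_sep (h : AtInf k v) {β : E} (hβ : β ∈ IS F k)
    (hper : ∀ n, (fq (-algebraMap k[X] E X ^ 2))^[n + 1] β ≠ β) :
    Stab F (-algebraMap k[X] E X ^ 2) β := by
  obtain ⟨n0, hn0⟩ := exists_level (F := F) h.ht β
  refine Stab.of_pre n0 fun y hy => ?_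
  have hy1 : y ∈ IS F k := mem_IS_of_iter h.two_ne X (hy ▸ hβ)
  obtain ⟨N, hN⟩ := exists_conj_bound (F := F) h.ht {y} (du k)
  refine Stab.of_pre N fun z hz => ?_
  obtain ⟨b, b1, rfl, b3⟩ := exists_branch (-algebraMap k[X] E X ^ 2) N z
  rw [hz] at b3
  subst b3
  have hb : Branch F v (X : k[X]) b := ⟨h.ht, b1, hy1, hn0 _ hy⟩
  refine h.stab_norm (hb.mem' h.two_ne N) (hb.size' · N) (fun σ => ?_) fun n hn => hper n ?_
  · have key : ∀ i ≤ N, v (σ (du k (b i))) ≤ v (algebraMap k[X] E X) ^ (N - i) := by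
      intro i
      induction i with
      | zero => exact fun _ => hN _ (by simp) σ
      | succ i ih =>
        intro hi
        have e := congrArg σ (hb.du_step h.two_ne i)
        simp only [derivative_X, map_one, mul_one, map_add, map_mul, map_neg, map_ofNat,
          map_A] at e
        have h1 : v (2 * σ (b (i + 1)) * σ (du k (b (i + 1)))) ≤
            v (algebraMap k[X] E X) ^ (N - i) := by
          rw [← sub_eq_iff_eq_add.2 e]
          refine v.map_sub_le (ih (by omega)) ?_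
          simpa [h.v2] using le_self_pow₀ h.ht.le (show N - i ≠ 0 by omega)
        rw [map_mul, map_mul, h.v2, one_mul, hb.size_eq, show N - i = N - (i + 1) + 1 by omega,
          pow_succ'] at h1
        exact le_of_mul_le_mul_left h1 h.pos
    simpa using key N le_rfl
  · rw [← hy, ← hz, ← Function.iterate_add_apply _ n0, ← Function.iterate_add_apply, add_comm,
      Function.iterate_add_apply, hn]

end Pool.Agent.Work.MP_969914_nt.H70
end
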