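import Pool.Agent.Work.MP_969914_nt.Main

namespace Pool.Agent.Work.MP_969914_nt.OldFullAbove

theorem result (K : Type) [Field K]
    (hK : ∃ (Fq : Type) (_ : Field Fq) (_ : Finite Fq) (_ : Algebra (RatFunc Fq) K),
      FunctionField Fq K)
    (h2 : ringChar K ≠ 2) (a b c : K) (ha : a ≠ 0)
    (φ : AlgebraicClosure K → AlgebraicClosure K)
    (hφ : ∀ x, φ x = algebraMap K (AlgebraicClosure K) a * x ^ 2
      + algebraMap K (AlgebraicClosure K) b * x + algebraMap K (AlgebraicClosure K) c)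
    (htree : ∀ n : ℕ, {z : AlgebraicClosure K | φ^[n] z = 0}.ncard = 2 ^ n)
    (hpcf : ∀ m n : ℕ, m < n →
      φ^[m] (algebraMap K (AlgebraicClosure K) (-b / (2 * a))) ≠
        φ^[n] (algebraMap K (AlgebraicClosure K) (-b / (2 * a))))
    (hper : ∀ n : ℕ, 1 ≤ n → φ^[n] 0 ≠ 0) :
    ∃ C : ℕ, ∀ (k : ℕ) (Z : Finset (AlgebraicClosure K)),
      (∀ z ∈ Z, φ^[k] z = 0 ∧
        C * 2 ^ (k - k / 400) < Module.finrank K (IntermediateField.adjoin K {z})) →
      ∀ n : ℕ, 2 ^ (Z.card * (2 ^ n - 1)) *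
          Module.finrank K (IntermediateField.adjoin K {y : AlgebraicClosure K | φ^[k] y = 0}) ≤
        Module.finrank K (IntermediateField.adjoin K
          ({y : AlgebraicClosure K | φ^[k] y = 0} ∪ {y : AlgebraicClosure K | φ^[n] y ∈ Z})) :=
  Pool.Agent.Work.MP_969914_nt.full_main K hK h2 a b c ha φ hφ htree hpcf hper

end Pool.Agent.Work.MP_969914_nt.OldFullAbove
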