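import Pool.Agent.Work.MP_969914_nt.H70Main

namespace Pool.Agent.Results.MP_969914_nt.PolyFiniteIndex

theorem result (K : Type) [Field K]
    (hK : ∃ (Fq : Type) (_ : Field Fq) (_ : Finite Fq) (_ : Algebra (RatFunc Fq) K),
      FunctionField Fq K)
    (h2 : ringChar K ≠ 2) (a b c : K) (ha : a ≠ 0)
    (φ : AlgebraicClosure K → AlgebraicClosure K)
    (hφ : ∀ x, φ x = algebraMap K (AlgebraicClosure K) a * x ^ 2
      + algebraMap K (AlgebraicClosure K) b * x + algebraMap K (AlgebraicClosure K) c)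
    (htree : ∀ n : ℕ, {z : AlgebraicClosure K | φ^[n] z = 0}.ncard = 2 ^ n)
    (hinf : ∀ M : ℕ, ∃ n : ℕ,
      M * Module.finrank K (IntermediateField.adjoin K {z : AlgebraicClosure K | φ^[n] z = 0}) <
        2 ^ (2 ^ n - 1)) :
    (∃ m n : ℕ, m < n ∧ φ^[m] (algebraMap K (AlgebraicClosure K) (-b / (2 * a))) =
        φ^[n] (algebraMap K (AlgebraicClosure K) (-b / (2 * a)))) ∨
      ∃ n : ℕ, 1 ≤ n ∧ φ^[n] 0 = 0 := by
  by_contra h
  push Not at h
  obtain ⟨M, hM⟩ :=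
    Pool.Agent.Work.MP_969914_nt.H70.finite_index K hK h2 a b c ha φ hφ htree h.1 h.2
  obtain ⟨n, hn⟩ := hinf M
  exact absurd (hM n) (not_le.2 hn)

end Pool.Agent.Results.MP_969914_nt.PolyFiniteIndex
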