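import Pool.Agent.Work.MP_969914_nt.RPStda
import Mathlib

-- merged part: Pool.Agent.Work.MP_969914_nt.RDyn
section
/-! Algebra of the iterates. -/

set_option autoImplicit false

namespace JR

open Polynomial

section ring
variable {R : Type} [CommRing R] (a c : R)

theorem wedge_Phi (Z W : R × R) :
    wedge (Phi a c Z) (Phi a c W) = (a - c) * wedge Z W * (Z.1 * W.2 + Z.2 * W.1) := by
  simp only [wedge, Phi]; ring

theorem Phi_smul (l : R) (Z : R × R) :
    Phi a c (l * Z.1, l * Z.2) = (l ^ 2 * (Phi a c Z).1, l ^ 2 * (Phi a c Z).2) := by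
  simp only [Phi]; ext <;> simp <;> ring

theorem iter_smul (l : R) (Z : R × R) (n : ℕ) :
    (Phi a c)^[n] (l * Z.1, l * Z.2) =
      (l ^ 2 ^ n * ((Phi a c)^[n] Z).1, l ^ 2 ^ n * ((Phi a c)^[n] Z).2) := by
  induction n with
  | zero => simp
  | succ n ih =>
    rw [Function.iterate_succ_apply', Function.iterate_succ_apply', ih, Phi_smul, ← pow_mul,
      ← pow_succ]

theorem map_iter {S : Type} [CommRing S] (f : R →+* S) (Z : R × R) (n : ℕ) :
    (Phi (f a) (f c))^[n] (f Z.1, f Z.2) =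
      (f ((Phi a c)^[n] Z).1, f ((Phi a c)^[n] Z).2) := by
  induction n with
  | zero => rfl
  | succ n ih =>
    rw [Function.iterate_succ_apply', Function.iterate_succ_apply', ih]
    simp [Phi]

theorem map_orb {S : Type} [CommRing S] (f : R →+* S) (b : Bool) (n : ℕ) :
    orb (f a) (f c) b n = (f (orb a c b n).1, f (orb a c b n).2) := by
  rw [orb, orb, ← map_iter]
  cases b <;> simp [crit]

theorem orb_succ (b : Bool) (n : ℕ) : orb a c b (n + 1) = Phi a c (orb a c b n) :=
  Function.iterate_succ_apply' _ _ _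

theorem PQ_succ (j : ℕ) : PQ a c (j + 1) = Phi (C a) (C c) (PQ a c j) :=
  Function.iterate_succ_apply' _ _ _

theorem aeval_PQ {S : Type} [CommRing S] [Algebra R S] (j : ℕ) (z : S) :
    (aeval z (PQ a c j).1, aeval z (PQ a c j).2) =
      (Phi (algebraMap R S a) (algebraMap R S c))^[j] (z, 1) := by
  have h := map_iter (C a) (C c) (aeval z : R[X] →ₐ[R] S).toRingHom (X, 1) j
  simp only [AlgHom.toRingHom_eq_coe, RingHom.coe_coe, aeval_C, aeval_X, map_one] at h
  exact h.symm

theorem natDegree_PQ (j : ℕ) :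
    (PQ a c j).1.natDegree ≤ 2 ^ j ∧ (PQ a c j).2.natDegree ≤ 2 ^ j := by
  induction j with
  | zero => exact ⟨natDegree_X_le, by simp [PQ]⟩
  | succ j ih =>
    have h1 := natDegree_pow_le_of_le 2 ih.1
    have h2 := natDegree_pow_le_of_le 2 ih.2
    rw [← pow_succ'] at h1 h2
    rw [PQ_succ]
    exact ⟨natDegree_add_le_of_degree_le ((natDegree_C_mul_le _ _).trans h1) h2,
      natDegree_add_le_of_degree_le ((natDegree_C_mul_le _ _).trans h1) h2⟩

theorem coeff_PQ (j : ℕ) :
    ((PQ a c j).1.coeff (2 ^ j), (PQ a c j).2.coeff (2 ^ j)) = orb a c true j := by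
  induction j with
  | zero => simp [PQ, orb, crit, coeff_one]
  | succ j ih =>
    rw [PQ_succ, orb_succ, ← ih, pow_succ']
    simp only [Phi, coeff_add, coeff_C_mul, coeff_pow_of_natDegree_le (natDegree_PQ a c j).1,
      coeff_pow_of_natDegree_le (natDegree_PQ a c j).2]

theorem Wr_succ (j : ℕ) : Wr (PQ a c (j + 1)).1 (PQ a c (j + 1)).2 =
    C (2 * (a - c)) * (PQ a c j).1 * (PQ a c j).2 * Wr (PQ a c j).1 (PQ a c j).2 := by
  rw [PQ_succ]
  simp only [Wr, Phi, derivative_add, derivative_mul, derivative_C, sq, map_mul, map_sub,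
    map_ofNat]
  ring

theorem Wr_zero : Wr (PQ a c 0).1 (PQ a c 0).2 = 1 := by simp [PQ, Wr]

theorem rdyn_eval (j : ℕ) (z : R) :
    ((PQ a c j).1.eval z, (PQ a c j).2.eval z) = (Phi a c)^[j] (z, 1) := by
  simpa using aeval_PQ a c j z

theorem rdyn_orb (b : Bool) (n m : ℕ) : (Phi a c)^[n] (orb a c b m) = orb a c b (n + m) :=
  (Function.iterate_add_apply _ _ _ _).symm

theorem rdyn_map {S : Type} [CommRing S] (f : R →+* S) (b b' : Bool) (m n : ℕ) :
    wedge (orb (f a) (f c) b m) (orb (f a) (f c) b' n) =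
      f (wedge (orb a c b m) (orb a c b' n)) := by
  simp [map_orb, wedge]

variable {a c} in
theorem rdyn_comm {Z W : R × R} (h : wedge Z W = 0) : wedge W Z = 0 := by
  simp only [wedge] at h ⊢
  linear_combination -h

theorem rdyn_false (Z : R × R) : wedge Z (orb a c false 0) = Z.1 := by simp [wedge, orb, crit]

theorem rdyn_true (Z : R × R) : wedge Z (orb a c true 0) = -Z.2 := by simp [wedge, orb, crit]

end ring

section field
variable {K : Type} [Field K] {a c : K}

theorem Phi_ne_zero (h : a ≠ c) {Z : K × K} (hZ : Z ≠ 0) : Phi a c Z ≠ 0 := by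
  intro e
  simp only [Phi, Prod.mk_eq_zero] at e
  have h1 : Z.1 ^ 2 = 0 := (mul_eq_zero.1 (show (a - c) * Z.1 ^ 2 = 0 by
    linear_combination e.1 - e.2)).resolve_left (sub_ne_zero.2 h)
  have h2 : Z.2 ^ 2 = 0 := by linear_combination e.1 - a * h1
  exact hZ (Prod.ext (pow_eq_zero_iff two_ne_zero |>.1 h1) (pow_eq_zero_iff two_ne_zero |>.1 h2))

theorem iter_ne_zero (h : a ≠ c) {Z : K × K} (hZ : Z ≠ 0) (n : ℕ) : (Phi a c)^[n] Z ≠ 0 := by
  induction n with
  | zero => exact hZ
  | succ n ih =>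
    rw [Function.iterate_succ_apply']
    exact Phi_ne_zero h ih

theorem orb_ne_zero (h : a ≠ c) (b : Bool) (n : ℕ) : orb a c b n ≠ 0 := by
  exact iter_ne_zero h (by cases b <;> simp [crit]) n

/-- Proportionality is transitive. -/
theorem wedge_trans {X Y Z : K × K} (hY : Y ≠ 0) (h1 : wedge X Y = 0) (h2 : wedge Y Z = 0) :
    wedge X Z = 0 := by
  simp only [wedge] at h1 h2 ⊢
  by_contra h
  exact hY (Prod.ext (mul_left_cancel₀ h (by
      rw [Prod.fst_zero]; linear_combination X.1 * h2 + Z.1 * h1))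
    (mul_left_cancel₀ h (by rw [Prod.snd_zero]; linear_combination X.2 * h2 + Z.2 * h1)))

theorem wedge_iter {Z W : K × K} (h : wedge Z W = 0) (n : ℕ) :
    wedge ((Phi a c)^[n] Z) ((Phi a c)^[n] W) = 0 := by
  induction n with
  | zero => exact h
  | succ n ih =>
    rw [Function.iterate_succ_apply', Function.iterate_succ_apply', wedge_Phi, ih, mul_zero,
      zero_mul]

theorem isCoprime_PQ (h : a ≠ c) (j : ℕ) : IsCoprime (PQ a c j).1 (PQ a c j).2 := by
  induction j with
  | zero => exact isCoprime_one_right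
  | succ j ih =>
    obtain ⟨u, v, e⟩ := ih.pow (m := 2) (n := 2)
    have hd : C (a - c)⁻¹ * (C a - C c) = 1 := by
      rw [← C_sub, ← C_mul, inv_mul_cancel₀ (sub_ne_zero.2 h), C_1]
    rw [PQ_succ]
    refine ⟨C (a - c)⁻¹ * (u - v * C c), C (a - c)⁻¹ * (v * C a - u), ?_⟩
    simp only [Phi]
    linear_combination e + (u * (PQ a c j).1 ^ 2 + v * (PQ a c j).2 ^ 2) * hd

theorem Wr_ne_zero (h2 : (2 : K) ≠ 0) (h : a ≠ c) (j : ℕ) :
    Wr (PQ a c j).1 (PQ a c j).2 ≠ 0 := by
  induction j with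
  | zero => simp [Wr_zero]
  | succ j ih =>
    rw [Wr_succ]
    refine mul_ne_zero (mul_ne_zero (mul_ne_zero
      (C_ne_zero.2 (mul_ne_zero h2 (sub_ne_zero.2 h))) fun e => ih ?_) fun e => ih ?_) ih <;>
      simp [Wr, e]

theorem HypEq.hypH (h : HypEq a c) : HypH a c := by
  exact ⟨h.two, h.ne, fun m n e => (h.inj _ _ m n e).2, fun s _ e => by
    simpa using (h.inj _ _ _ _ e).1⟩
theorem rdyn_two {L : Type} [Field L] (f : K →+* L) : (2 : L) ≠ 0 ↔ (2 : K) ≠ 0 := by
  rw [← map_ofNat f 2, _root_.map_ne_zero]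


theorem HypH.map {L : Type} [Field L] (f : K →+* L) : HypH (f a) (f c) ↔ HypH a c := by
  refine ⟨fun h => ⟨(rdyn_two f).1 h.two, fun e => h.ne (congrArg f e), ?_, ?_⟩,
    fun h => ⟨(rdyn_two f).2 h.two, f.injective.ne h.ne, ?_, ?_⟩⟩
  · simpa only [rdyn_map, map_eq_zero] using h.inj
  · simpa only [rdyn_map, _root_.map_ne_zero] using h.sep
  · simpa only [rdyn_map, map_eq_zero] using h.inj
  · simpa only [rdyn_map, _root_.map_ne_zero] using h.sep

theorem HypEq.map {L : Type} [Field L] (f : K →+* L) : HypEq (f a) (f c) ↔ HypEq a c := by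
  refine ⟨fun h => ⟨(rdyn_two f).1 h.two, fun e => h.ne (congrArg f e), ?_⟩,
    fun h => ⟨(rdyn_two f).2 h.two, f.injective.ne h.ne, ?_⟩⟩ <;>
    simpa only [rdyn_map, map_eq_zero] using h.inj

theorem Unr.map {L : Type} [Field L] (f : K →+* L) {s : K} :
    Unr (f a) (f c) (f s) ↔ Unr a c s := by
  refine forall₂_congr fun b i => ?_
  rw [← map_ne_zero f (a := wedge _ _), map_orb]
  simp [wedge]

theorem map_vv {L : Type} [Field L] (f : K →+* L) (b : Bool) (r : ℕ) :
    vv (f a) (f c) b r = f (vv a c b r) := by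
  rw [vv, vv, map_orb, map_div₀]

/-- The orbit of the first critical value avoids the critical points and `v₂`. -/
theorem HypH.orb_ne (h : HypH a c) (r : ℕ) :
    (orb a c false (r + 1)).1 ≠ 0 ∧ (orb a c false (r + 1)).2 ≠ 0 ∧
      wedge (orb a c false (r + 1)) (orb a c true 1) ≠ 0 := by
  refine ⟨fun e => ?_, fun e => h.sep (2 + (r + 1)) (by omega) ?_,
    fun e => h.sep (1 + (r + 1)) (by omega) ?_⟩
  · simpa using h.inj _ _ ((rdyn_false a c _).trans e)
  · rw [← rdyn_orb]
    exact wedge_iter ((rdyn_true a c _).trans (neg_eq_zero.2 e)) 2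
  · rw [← rdyn_orb]
    exact wedge_iter e 1
theorem rdyn_div {Z W : K × K} (hZ : Z.2 ≠ 0) (hW : W.2 ≠ 0) :
    Z.1 / Z.2 = W.1 / W.2 ↔ wedge Z W = 0 := by
  rw [div_eq_div_iff hZ hW, wedge, sub_eq_zero, mul_comm Z.2]

theorem rdyn_phi {Z : K × K} (hZ : Z.2 ≠ 0) :
    (c * (Z.1 / Z.2) ^ 2 + 1 ≠ 0 ↔ (Phi a c Z).2 ≠ 0) ∧
      (Phi a c Z).1 / (Phi a c Z).2 = phi a c (Z.1 / Z.2) := by
  have key : ∀ t : K, t * (Z.1 / Z.2) ^ 2 + 1 = (t * Z.1 ^ 2 + Z.2 ^ 2) / Z.2 ^ 2 := fun t => by
    field_simp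
  rw [phi, key, key, div_div_div_cancel_right₀ (pow_ne_zero 2 hZ), div_ne_zero_iff,
    and_iff_left (pow_ne_zero 2 hZ)]
  exact ⟨Iff.rfl, rfl⟩

theorem rdyn_vv {b : Bool}
    (h : ∀ r, (orb a c b (r + 1)).1 ≠ 0 ∧ (orb a c b (r + 1)).2 ≠ 0) (r : ℕ) : vv a c b r ≠ 0 ∧
      c * vv a c b r ^ 2 + 1 ≠ 0 ∧ vv a c b (r + 1) = phi a c (vv a c b r) := by
  have h1 := rdyn_phi (a := a) (c := c) (h r).2
  rw [← orb_succ] at h1
  exact ⟨div_ne_zero (h r).1 (h r).2, h1.1.2 (h _).2, h1.2⟩


theorem HypH.vv_inj (h : HypH a c) : Function.Injective (vv a c false) := by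
  exact fun r r' e => Nat.succ_injective
    (h.inj _ _ ((rdyn_div (h.orb_ne r).2.1 (h.orb_ne r').2.1).1 e))

theorem HypH.vv_succ (h : HypH a c) (r : ℕ) : vv a c false r ≠ 0 ∧
    c * vv a c false r ^ 2 + 1 ≠ 0 ∧ vv a c false (r + 1) = phi a c (vv a c false r) := by
  exact rdyn_vv (fun r => ⟨(h.orb_ne r).1, (h.orb_ne r).2.1⟩) r

theorem vv_zero_false : vv a c false 0 = 1 := by simp [vv, orb, crit, Phi]

theorem vv_zero_true : vv a c true 0 = a / c := by simp [vv, orb, crit, Phi]

theorem HypEq.orb_ne (h : HypEq a c) (b : Bool) (r : ℕ) :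
    (orb a c b (r + 1)).1 ≠ 0 ∧ (orb a c b (r + 1)).2 ≠ 0 := by
  refine ⟨fun e => ?_, fun e => ?_⟩
  · simpa using (h.inj _ _ _ _ ((rdyn_false a c _).trans e)).2
  · simpa using (h.inj _ _ _ _ ((rdyn_true a c _).trans (neg_eq_zero.2 e))).2

theorem HypEq.vv_inj (h : HypEq a c) {b b' : Bool} {r r' : ℕ} (e : vv a c b r = vv a c b' r') :
    b = b' ∧ r = r' := by
  simpa using h.inj _ _ _ _ ((rdyn_div (h.orb_ne b r).2 (h.orb_ne b' r').2).1 e)

theorem HypEq.vv_succ (h : HypEq a c) (b : Bool) (r : ℕ) : vv a c b r ≠ 0 ∧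
    c * vv a c b r ^ 2 + 1 ≠ 0 ∧ vv a c b (r + 1) = phi a c (vv a c b r) := by
  exact rdyn_vv (h.orb_ne b) r

theorem IsOrbit.iter {k0 : Type} [Field k0] [Algebra k0 K] {a c : k0} {z : ℤ → K}
    (hz : IsOrbit (algebraMap k0 K a) (algebraMap k0 K c) z) (i : ℤ) (j : ℕ) :
    aeval (z i) (PQ a c j).2 ≠ 0 ∧
      z (i + j) = aeval (z i) (PQ a c j).1 / aeval (z i) (PQ a c j).2 := by
  have e := fun j => aeval_PQ a c j (z i)
  rw [show aeval (z i) (PQ a c j).1 = _ from congrArg Prod.fst (e j),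
    show aeval (z i) (PQ a c j).2 = _ from congrArg Prod.snd (e j)]
  induction j with
  | zero => simp
  | succ j ih =>
    have h1 := rdyn_phi (a := algebraMap k0 K a) (c := algebraMap k0 K c) ih.1
    rw [← ih.2] at h1
    rw [Function.iterate_succ_apply', h1.2, Nat.cast_succ, ← add_assoc]
    exact ⟨h1.1.1 (hz _).1, (hz _).2⟩

theorem rdyn_unr (h : a ≠ c) {z : K} {B : K × K} (hB : ∀ b i, wedge (orb a c b (i + 2)) B ≠ 0)
    (hz : wedge (Phi a c (z, 1)) B = 0) : Unr a c z := fun b i e =>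
  hB b i (wedge_trans (Phi_ne_zero h (by simp)) (orb_succ a c b _ ▸ wedge_iter e 1) hz)

theorem rdyn_mul {F G : K[X]} {n : ℕ} {Z : Finset K} (h : Splits a c F n Z) {t : K} (ht : t ≠ 0)
    (e : G = C t * F) : Splits a c G n Z := by
  obtain ⟨l, h1, h2⟩ := h.eq
  exact ⟨h.card, h.unr, t * l, mul_ne_zero ht h1, by rw [e, h2, C_mul, mul_assoc]⟩

theorem rdyn_neg (h2 : (2 : K) ≠ 0) {u : K} (hu : u ≠ 0) : u ≠ -u := fun e =>
  hu (mul_left_cancel₀ h2 (by linear_combination e))

/-- Preimages of finite sets of points which are not postcritical. -/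
theorem exists_splits_pull (h2 : (2 : K) ≠ 0) (h : a ≠ c) (hs : ∀ α : K, ∃ β, β ^ 2 = α)
    (S : Finset K) (hS : ∀ s ∈ S, Unr a c s) (j : ℕ) :
    ∃ Z : Finset K, Splits a c (pullS a c j S) (2 ^ j * S.card) Z := by
  classical
  induction j generalizing S with
  | zero => exact ⟨S, by simp, hS, 1, one_ne_zero, by simp [pullS, PQ]⟩
  | succ j ih =>
    have h3 : ∀ s ∈ S, a - c * s ≠ 0 := fun s hs' => by
      simpa [orb, crit, Phi, wedge] using hS s hs' true 0
    have h4 : ∀ s ∈ S, 1 - s ≠ 0 := fun s hs' => by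
      simpa [orb, crit, Phi, wedge] using hS s hs' false 0
    choose u hu using fun s => hs ((s - 1) / (a - c * s))
    have h5 : ∀ s ∈ S, (a - c * s) * u s ^ 2 = s - 1 := fun s hs' => by
      rw [hu, mul_div_cancel₀ _ (h3 s hs')]
    have h6 : ∀ s ∈ S, u s ≠ -u s := fun s hs' => rdyn_neg h2 fun e =>
      h4 s hs' (by have := h5 s hs'; rw [e] at this; linear_combination this)
    have h7 : ∀ s ∈ S, ∀ z ∈ ({u s, -u s} : Finset K), wedge (Phi a c (z, 1)) (s, 1) = 0 := by
      intro s hs' z hz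
      simp only [Finset.mem_insert, Finset.mem_singleton] at hz
      simp only [wedge, Phi]
      rcases hz with rfl | rfl <;> linear_combination h5 s hs'
    have h8 : (S : Set K).PairwiseDisjoint fun s => ({u s, -u s} : Finset K) := by
      intro s hs' t ht hst
      refine Finset.disjoint_left.2 fun z z1 z2 => hst ?_
      have := wedge_trans (Phi_ne_zero h (by simp)) (rdyn_comm (h7 s hs' z z1)) (h7 t ht z z2)
      simpa [wedge, sub_eq_zero] using this
    obtain ⟨Z, hZ⟩ := ih (S.biUnion fun s => {u s, -u s}) fun z hz => by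
      obtain ⟨s, hs', hz⟩ := Finset.mem_biUnion.1 hz
      exact rdyn_unr h (fun b i => hS s hs' b (i + 1)) (h7 s hs' z hz)
    rw [Finset.card_biUnion h8, Finset.sum_congr rfl fun s hs' => Finset.card_pair (h6 s hs'),
      Finset.sum_const, smul_eq_mul, mul_comm S.card, ← mul_assoc, ← pow_succ] at hZ
    refine ⟨Z, rdyn_mul hZ (Finset.prod_ne_zero_iff.2 h3) ?_⟩
    rw [pullS, pullS, Finset.prod_biUnion h8, map_prod, ← Finset.prod_mul_distrib]
    refine Finset.prod_congr rfl fun s hs' => ?_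
    have h9 := congrArg C (h5 s hs')
    rw [Finset.prod_pair (h6 s hs'), PQ_succ]
    simp only [Phi, map_mul, map_sub, map_pow, map_neg, map_one] at h9 ⊢
    linear_combination (PQ a c j).2 ^ 2 * h9

theorem exists_splits_crit (h : HypEq a c) (hs : ∀ α : K, ∃ β, β ^ 2 = α) (b : Bool) (i : ℕ) :
    ∃ Z : Finset K, Splits a c (critPoly a c b (i + 1)) (2 ^ (i + 1)) Z := by
  classical
  have ht : (if b then c else a) ≠ 0 := by
    have := h.orb_ne true 0
    cases b <;> simp_all [orb, crit, Phi]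
  obtain ⟨u, hu⟩ := hs (-1 / if b then c else a)
  rw [eq_div_iff ht] at hu
  have h1 : u ≠ -u := rdyn_neg h.two fun e => by simp [e] at hu
  obtain ⟨Z, hZ⟩ := exists_splits_pull h.two h.ne hs {u, -u} (fun z hz => by
    refine rdyn_unr h.ne (B := orb a c b 0) (fun b' i e => by simpa using (h.inj _ _ _ _ e).2) ?_
    simp only [Finset.mem_insert, Finset.mem_singleton] at hz
    cases b
    · rw [rdyn_false]
      simp only [Phi, Bool.false_eq_true, if_false] at hu ⊢
      rcases hz with rfl | rfl <;> linear_combination hu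
    · rw [rdyn_true]
      simp only [Phi, if_true] at hu ⊢
      rcases hz with rfl | rfl <;> linear_combination -hu) i
  rw [Finset.card_pair h1, ← pow_succ] at hZ
  refine ⟨Z, rdyn_mul hZ ht ?_⟩
  have h2 := congrArg C hu
  rw [pullS, Finset.prod_pair h1, critPoly, PQ_succ]
  cases b <;> simp only [Phi, map_mul, map_pow, map_neg, map_one, Bool.false_eq_true, if_false,
    if_true] at h2 ⊢ <;> linear_combination (PQ a c i).2 ^ 2 * h2

/-- A point of the `j`-th preimage of `S` maps into `S`. -/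
theorem Splits.mem_pull (h : a ≠ c) {S Z : Finset K} {j n : ℕ}
    (hZ : Splits a c (pullS a c j S) n Z) {ζ : K} (hζ : ζ ∈ Z) :
    (PQ a c j).2.eval ζ ≠ 0 ∧ (PQ a c j).1.eval ζ / (PQ a c j).2.eval ζ ∈ S := by
  obtain ⟨l, -, e⟩ := hZ.eq
  have h1 : (pullS a c j S).eval ζ = 0 := by
    rw [e, eval_mul, eval_prod, Finset.prod_eq_zero hζ (by simp), mul_zero]
  rw [pullS, eval_prod, Finset.prod_eq_zero_iff] at h1
  obtain ⟨s, hs, h1⟩ := h1
  rw [eval_sub, eval_mul, eval_C, sub_eq_zero] at h1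
  have h2 : (PQ a c j).2.eval ζ ≠ 0 := fun h2 => iter_ne_zero h (Z := (ζ, 1)) (by simp) j
    (by rw [← rdyn_eval, h1, h2, mul_zero]; rfl)
  exact ⟨h2, by rwa [h1, mul_div_cancel_right₀ _ h2]⟩

theorem rdyn_hit (h : HypEq a c) {Z : K × K} (hZ : Z ≠ 0) {b b' : Bool} {m n : ℕ}
    (h1 : wedge ((Phi a c)^[m] Z) (orb a c b 0) = 0)
    (h2 : wedge ((Phi a c)^[n] Z) (orb a c b' 0) = 0) : m = n := by
  wlog hmn : m ≤ n generalizing b b' m n
  · exact (this h2 h1 (le_of_not_ge hmn)).symm
  obtain ⟨d, rfl⟩ := Nat.exists_eq_add_of_le' hmn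
  have h3 := wedge_iter (a := a) (c := c) h1 d
  rw [← Function.iterate_add_apply, rdyn_orb] at h3
  have := (h.inj _ _ _ _ (wedge_trans (iter_ne_zero h.ne hZ _) (rdyn_comm h3) h2)).2
  omega

/-- Data of `φ^(i+1+r)` at an `i`-th preimage of a critical point. -/
theorem crit_data (h : HypEq a c) {b : Bool} {i : ℕ} {ζ : K}
    (hζ : (critPoly a c b (i + 1)).eval ζ = 0) (r : ℕ) :
    (PQ a c (i + 2 + r)).2.eval ζ ≠ 0 ∧
    (Wr (PQ a c (i + 2 + r)).1 (PQ a c (i + 2 + r)).2).eval ζ = 0 ∧
    (derivative (Wr (PQ a c (i + 2 + r)).1 (PQ a c (i + 2 + r)).2)).eval ζ ≠ 0 ∧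
    (PQ a c (i + 2 + r)).1.eval ζ / (PQ a c (i + 2 + r)).2.eval ζ = vv a c b r := by
  have h0 : ((ζ, 1) : K × K) ≠ 0 := by simp
  have h1 : wedge ((Phi a c)^[i + 1] (ζ, 1)) (orb a c b 0) = 0 := by
    rw [← rdyn_eval]
    cases b
    · exact (rdyn_false a c _).trans hζ
    · exact (rdyn_true a c _).trans (neg_eq_zero.2 hζ)
  have h2 : ∀ n, n ≠ i + 1 → (PQ a c n).1.eval ζ ≠ 0 ∧ (PQ a c n).2.eval ζ ≠ 0 := fun n hn =>
    ⟨fun e => hn (rdyn_hit h h0 (b := false) (by rw [← rdyn_eval, rdyn_false, e]) h1),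
      fun e => hn (rdyn_hit h h0 (b := true) (by rw [← rdyn_eval, rdyn_true, e, neg_zero]) h1)⟩
  have h3 := mul_ne_zero h.two (sub_ne_zero.2 h.ne)
  have h4 : ∀ n ≤ i + 1, (Wr (PQ a c n).1 (PQ a c n).2).eval ζ ≠ 0 := by
    intro n hn
    induction n with
    | zero => simp [Wr_zero]
    | succ n ih =>
      rw [Wr_succ, eval_mul, eval_mul, eval_mul, eval_C]
      exact mul_ne_zero (mul_ne_zero (mul_ne_zero h3 (h2 n (by omega)).1) (h2 n (by omega)).2)
        (ih (by omega))
  have h5 := wedge_iter (a := a) (c := c) h1 (r + 1)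
  rw [← Function.iterate_add_apply, rdyn_orb, show r + 1 + (i + 1) = i + 2 + r by omega,
    ← rdyn_eval] at h5
  have h6 := (h2 (i + 2 + r) (by omega)).2
  refine ⟨h6, and_assoc.1 ⟨?_, (rdyn_div (by exact h6) (h.orb_ne b r).2).2 h5⟩⟩
  clear h5 h6
  induction r with
  | zero =>
    have h7 := h4 _ le_rfl
    have h8 : (Wr (PQ a c (i + 1)).1 (PQ a c (i + 1)).2).eval ζ = _ := eval_sub _ _ ζ
    rw [eval_mul, eval_mul] at h8
    rw [add_zero, Wr_succ]
    generalize Wr (PQ a c (i + 1)).1 (PQ a c (i + 1)).2 = W at h7 h8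
    simp only [derivative_mul, derivative_C, eval_add, eval_mul, eval_C, eval_zero]
    cases b <;> simp only [critPoly, Bool.false_eq_true, if_false, if_true] at hζ <;>
      rw [hζ] at h8 ⊢ <;> refine ⟨by simp, fun e => mul_ne_zero h3 (mul_ne_zero h7 h7) ?_⟩
    · linear_combination e + 2 * (a - c) * W.eval ζ * h8
    · linear_combination -e + 2 * (a - c) * W.eval ζ * h8
  | succ r ih =>
    rw [← add_assoc, Wr_succ, derivative_mul, eval_add, eval_mul, eval_mul (q := Wr _ _),
      ih.1, mul_zero, mul_zero, zero_add, eval_mul, eval_mul, eval_mul, eval_C]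
    exact ⟨rfl, mul_ne_zero (mul_ne_zero (mul_ne_zero h3 (h2 _ (by omega)).1)
      (h2 _ (by omega)).2) ih.2⟩

/-- Data of `φ^(r+1)` at the critical point `0`. -/
theorem crit_data_zero (h : HypH a c) (r : ℕ) :
    (PQ a c (r + 1)).2.eval 0 ≠ 0 ∧ (Wr (PQ a c (r + 1)).1 (PQ a c (r + 1)).2).eval 0 = 0 ∧
    (PQ a c (r + 1)).1.eval 0 / (PQ a c (r + 1)).2.eval 0 = vv a c false r := by
  have e : _ = orb a c false (r + 1) := rdyn_eval a c (r + 1) 0
  refine ⟨by simpa only [← e] using (h.orb_ne r).2.1, ?_, by rw [vv, ← e]⟩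
  clear e
  induction r with
  | zero => rw [Wr_succ]; simp [PQ]
  | succ r ih => rw [Wr_succ, eval_mul, ih, mul_zero]

/-- The automorphism exchanging the critical points. -/
theorem Phi_swap (h : c = a ^ 3) (Z : K × K) :
    Phi a c (Z.2, a ^ 2 * Z.1) = (a * (Phi a c Z).2, a ^ 3 * (Phi a c Z).1) := by
  subst h; simp only [Phi]; ext <;> simp <;> ring

end field

end JR
end

-- merged part: Pool.Agent.Work.MP_969914_nt.RLevel
section
/-! Jets of orbits at different levels, and the next dependent index. -/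

set_option autoImplicit false

namespace JR

open Polynomial

variable {k0 K : Type} [Field k0] [Field K] [Algebra k0 K] {H0 : HD k0} {H : HD K}

theorem jet2_orbit (hc : H0.Compat H) {a c : k0} {x y : ℤ → K}
    (hx : IsOrbit (algebraMap k0 K a) (algebraMap k0 K c) x)
    (hy : IsOrbit (algebraMap k0 K a) (algebraMap k0 K c) y) (i : ℤ) (j : ℕ) :
    H.jet2 (x (i + j)) (y (i + j)) =
      jpt2 H0 (PQ a c j).1 (PQ a c j).2 (H.jet2 (x i) (y i)) := by
  rw [(hx.iter i j).2, (hy.iter i j).2]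
  exact HD.jet2_div H hc _ _ _ _ (hx.iter i j).1 (hy.iter i j).1

theorem rlevel_box_le {A B : ℕ} {s : Vr} (hs : s ∈ box A B) {m : ℕ} (hm : m ≤ s.2) :
    (s.1, m) ∈ box A B := lt_of_le_of_lt hm hs

theorem rlevel_step (hc : H0.Compat H) {a c : k0} (h2 : (2 : k0) ≠ 0) (hac : a ≠ c)
    {x y : ℤ → K} (hx : IsOrbit (algebraMap k0 K a) (algebraMap k0 K c) x)
    (hy : IsOrbit (algebraMap k0 K a) (algebraMap k0 K c) y) (hx0 : ∀ i, x i ≠ 0)
    (hy0 : ∀ i, y i ≠ 0) (A B : ℕ) (l : ℤ) :
    acl k0 (H.jet2 (x (l + 1)) (y (l + 1)) '' box A B) =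
      acl k0 (H.jet2 (x l) (y l) '' box A B) := by
  have e := jet2_orbit hc hx hy l 1
  rw [Nat.cast_one] at e
  apply Set.Subset.antisymm
  · refine acl_subset_acl ?_
    rintro _ ⟨s, hs, rfl⟩
    obtain ⟨F, hF⟩ := exists_aclField (k0 := k0) (H.jet2 (x l) (y l) '' box A B)
    rw [e, ← hF]
    refine jpt_mem H0 _ _ F fun m hm => ?_
    rw [← SetLike.mem_coe, hF]
    exact subset_acl _ ⟨_, rlevel_box_le hs hm, rfl⟩
  · refine acl_subset_acl ?_
    rintro _ ⟨s, hs, rfl⟩
    have hz : H.jet2 (x l) (y l) (s.1, 0) = if s.1 then y l else x l := H.D_zero _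
    refine mem_acl_jpt H0 (PQ a c 1).1 (PQ a c 1).2 (ξ := fun i => H.jet2 (x l) (y l) (s.1, i))
      ?_ ?_ (i := s.2) fun m hm => ?_
    · rw [hz]
      split_ifs
      · exact (hy.iter l 1).1
      · exact (hx.iter l 1).1
    · rw [Wr_succ a c 0, Wr_zero, hz]
      have h3 : algebraMap k0 K (2 * (a - c)) ≠ 0 :=
        (_root_.map_ne_zero _).2 (mul_ne_zero h2 (sub_ne_zero.2 hac))
      have h4 : (if s.1 then y l else x l) ≠ 0 := by
        split_ifs
        · exact hy0 l
        · exact hx0 l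
      simp only [PQ, Function.iterate_zero, id, map_mul, aeval_C, aeval_X, mul_one]
      rw [← map_mul]
      exact mul_ne_zero h3 h4
    · refine subset_acl _ ⟨_, rlevel_box_le hs hm, ?_⟩
      rw [e]
      rfl

/-- The closure of the jets in a box does not depend on the level. -/
theorem acl_box_level (hc : H0.Compat H) {a c : k0} (h2 : (2 : k0) ≠ 0) (hac : a ≠ c)
    {x y : ℤ → K} (hx : IsOrbit (algebraMap k0 K a) (algebraMap k0 K c) x)
    (hy : IsOrbit (algebraMap k0 K a) (algebraMap k0 K c) y) (hx0 : ∀ i, x i ≠ 0)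
    (hy0 : ∀ i, y i ≠ 0) (A B : ℕ) (l l' : ℤ) :
    acl k0 (H.jet2 (x l) (y l) '' box A B) = acl k0 (H.jet2 (x l') (y l') '' box A B) := by
  have key : ∀ l : ℤ, acl k0 (H.jet2 (x l) (y l) '' box A B) =
      acl k0 (H.jet2 (x 0) (y 0) '' box A B) := by
    intro l
    induction l using Int.induction_on with
    | zero => rfl
    | succ n ih => rw [rlevel_step hc h2 hac hx hy hx0 hy0, ih]
    | pred n ih => rw [← ih, ← rlevel_step hc h2 hac hx hy hx0 hy0, sub_add_cancel]
  rw [key l, key l']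

theorem rlevel_expand {σ : Type} {V : Set σ} {u : σ} {f : MvPolynomial σ k0}
    (hf : On (insert u V) f) :
    ∃ P : (MvPolynomial σ k0)[X], (∀ i, On V (P.coeff i)) ∧ P.eval (MvPolynomial.X u) = f := by
  classical
  let g : σ → (MvPolynomial σ k0)[X] := fun s =>
    if s = u then X else if s ∈ V then C (MvPolynomial.X s) else 0
  have h0 : On V (0 : MvPolynomial σ k0) := by simpa using On.C (V := V) (0 : k0)
  refine ⟨MvPolynomial.aeval g f, ?_, ?_⟩
  · clear hf
    induction f using MvPolynomial.induction_on with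
    | C r =>
      intro i
      rw [MvPolynomial.aeval_C, Polynomial.algebraMap_apply, coeff_C]
      split_ifs
      · exact On.C r
      · exact h0
    | add f f' ih ih' =>
      intro i
      rw [map_add, coeff_add]
      exact (ih i).add (ih' i)
    | mul_X f s ih =>
      intro i
      rw [map_mul, MvPolynomial.aeval_X]
      simp only [g]
      split_ifs with h1 h2
      · cases i with
        | zero => rw [coeff_mul_X_zero]; exact h0
        | succ i => rw [coeff_mul_X]; exact ih i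
      · rw [coeff_mul_C]
        exact (ih i).mul (On.X h2)
      · rw [mul_zero, coeff_zero]
        exact h0
  · have h1 := MvPolynomial.comp_aeval_apply g
      ((Polynomial.aeval (MvPolynomial.X u : MvPolynomial σ k0)).restrictScalars k0) f
    simp only [AlgHom.restrictScalars_apply, coe_aeval_eq_eval] at h1
    rw [h1, hf.aeval_congr (ω' := MvPolynomial.X), MvPolynomial.aeval_X_left_apply]
    intro s hs
    simp only [g]
    split_ifs with h2 h3
    · rw [eval_X, h2]
    · rw [eval_C]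
    · exact absurd hs (by simp [h2, h3])

theorem rlevel_aeval_eval {σ : Type} (ω : σ → K) (P : (MvPolynomial σ k0)[X]) (u : σ) :
    MvPolynomial.aeval ω (P.eval (MvPolynomial.X u)) =
      (P.map (MvPolynomial.aeval ω : MvPolynomial σ k0 →ₐ[k0] K).toRingHom).eval (ω u) := by
  rw [eval_map]
  have := Polynomial.hom_eval₂ P (RingHom.id _)
    (MvPolynomial.aeval ω : MvPolynomial σ k0 →ₐ[k0] K).toRingHom (MvPolynomial.X u)
  simpa using this

theorem rlevel_box_succ (A B : ℕ) : box A (B + 1) ⊆ insert (true, B) (box A B) := by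
  rintro ⟨β, m⟩ hs
  cases β
  · exact Or.inr hs
  · rcases (Nat.lt_succ_iff.1 hs).lt_or_eq with h | h
    · exact Or.inr h
    · exact Or.inl (Prod.ext rfl h)

theorem rlevel_free {ω ω' : Vr → K} {b : ℕ}
    (hn : ∀ b' A, b < b' → ω (true, b') ∉ acl k0 (ω '' box A b'))
    (e : ∀ s : Vr, (s.1 = true → s.2 ≤ b) → ω s = ω' s) (f : MvPolynomial Vr k0)
    (hf : MvPolynomial.aeval ω f = 0) : MvPolynomial.aeval ω' f = 0 := by
  have key : ∀ A B, ∀ f : MvPolynomial Vr k0, On (box A B) f → MvPolynomial.aeval ω f = 0 →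
      MvPolynomial.aeval ω' f = 0 := by
    intro A B
    induction B with
    | zero =>
      intro f h1 h2
      rw [← h2]
      refine (h1.aeval_congr fun s hs => e s fun h => ?_).symm
      simp [box, h] at hs
    | succ B ih =>
      intro f h1 h2
      by_cases hB : b < B
      · obtain ⟨P, hP, rfl⟩ := rlevel_expand (h1.mono (rlevel_box_succ A B))
        rw [rlevel_aeval_eval] at h2 ⊢
        have h3 : P.map (MvPolynomial.aeval ω : MvPolynomial Vr k0 →ₐ[k0] K).toRingHom = 0 := by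
          by_contra h0
          refine hn B A hB (mem_acl_of_root h0 (fun i => ?_) h2)
          rw [coeff_map]
          exact aeval_mem_acl (hP i) fun s hs => subset_acl _ ⟨s, hs, rfl⟩
        have h4 : P.map (MvPolynomial.aeval ω' : MvPolynomial Vr k0 →ₐ[k0] K).toRingHom = 0 := by
          ext i
          rw [coeff_map]
          refine ih _ (hP i) ?_
          simpa [coeff_map] using congrArg (fun Q => Q.coeff i) h3
        rw [h4, eval_zero]
      · rw [← h2]
        refine (h1.aeval_congr fun s hs => e s fun h => ?_).symm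
        simp only [box, h, Set.mem_ofPred_eq, if_true] at hs
        omega
  obtain ⟨U, -, hU⟩ := exists_on_finset (V := Set.univ) f fun s hs => absurd (Set.mem_univ s) hs
  refine key (U.sup Prod.snd + 1) (U.sup Prod.snd + 1) f (hU.mono fun s hs => ?_) hf
  have := Finset.le_sup (f := Prod.snd) (Finset.mem_coe.1 hs)
  simp only [box, Set.mem_ofPred_eq, ite_self]
  omega

theorem rlevel_eval₂_congr {σ R : Type} [CommRing R] {V : Set σ} {f : MvPolynomial σ k0}
    (hf : On V f) (φ : k0 →+* R) {g g' : σ → R} (e : ∀ s ∈ V, g s = g' s) :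
    f.eval₂ φ g = f.eval₂ φ g' := by
  refine MvPolynomial.eval₂_congr φ g g' fun {i c} h1 h2 => e i ?_
  by_contra hi
  have h3 := MvPolynomial.monomial_le_degreeOf i (MvPolynomial.mem_support_iff.2 h2)
  rw [hf i hi] at h3
  exact Finsupp.mem_support_iff.1 h1 (Nat.le_zero.1 h3)

/-- The formal Hasse derivative evaluated at a point. -/
noncomputable def rlevelTh (H0 : HD k0) {R : Type} [CommRing R] [Algebra k0 R] (ω : Vr → R)
    (f : MvPolynomial Vr k0) : PowerSeries R :=
  f.eval₂ ((PowerSeries.map (algebraMap k0 R)).comp H0.E)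
    fun s => PowerSeries.mk fun r => ((s.2 + r).choose s.2 : R) * ω (s.1, s.2 + r)

theorem rlevel_coeff_th (ω : Vr → K) (f : MvPolynomial Vr k0) (r : ℕ) :
    PowerSeries.coeff r (rlevelTh H0 ω f) = MvPolynomial.aeval ω
      (PowerSeries.coeff r (rlevelTh H0 (MvPolynomial.X : Vr → MvPolynomial Vr k0) f)) := by
  have h := MvPolynomial.eval₂_comp_left
    (PowerSeries.map (MvPolynomial.aeval ω : MvPolynomial Vr k0 →ₐ[k0] K).toRingHom)
    ((PowerSeries.map (algebraMap k0 (MvPolynomial Vr k0))).comp H0.E)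
    (fun s : Vr => PowerSeries.mk fun r =>
      ((s.2 + r).choose s.2 : MvPolynomial Vr k0) * MvPolynomial.X (s.1, s.2 + r)) f
  have h1 : rlevelTh H0 ω f = PowerSeries.map
      (MvPolynomial.aeval ω : MvPolynomial Vr k0 →ₐ[k0] K).toRingHom
      (rlevelTh H0 (MvPolynomial.X : Vr → MvPolynomial Vr k0) f) := by
    rw [rlevelTh, rlevelTh, h]
    congr 1
    · ext a i
      simp
    · funext s
      ext i
      simp
  rw [h1, PowerSeries.coeff_map]
  rfl

theorem rlevel_phi (hc : H0.Compat H) :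
    (PowerSeries.map (algebraMap k0 K)).comp H0.E = H.E.comp (algebraMap k0 K) := by
  ext a i
  exact (hc i a).symm

theorem rlevel_mk_jet (x y : K) (s : Vr) :
    (PowerSeries.mk fun r => ((s.2 + r).choose s.2 : K) * H.jet2 x y (s.1, s.2 + r)) =
      H.E (H.jet2 x y s) := by
  ext r
  rw [PowerSeries.coeff_mk]
  exact (H.D_D s.2 r _).symm

theorem rlevel_th_jet (hc : H0.Compat H) (x y : K) (f : MvPolynomial Vr k0) :
    rlevelTh H0 (H.jet2 x y) f = H.E (MvPolynomial.aeval (H.jet2 x y) f) := by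
  rw [MvPolynomial.aeval_def, MvPolynomial.eval₂_comp_left, rlevelTh, rlevel_phi hc]
  congr 1
  funext s
  exact rlevel_mk_jet x y s

theorem rlevel_choose (p : ℕ) [Fact p.Prime] [CharP K p] (b : ℕ) :
    ∃ M, b < M ∧ (M.choose b : K) ≠ 0 := by
  have h1 : b < p ^ b := Nat.lt_pow_self (Fact.out : p.Prime).one_lt
  refine ⟨b + p ^ b, by omega, ?_⟩
  rw [← coeff_one_add_X_pow, pow_add, add_pow_char_pow, one_pow, mul_add, mul_one, coeff_add,
    coeff_mul_X_pow', if_neg (by omega), coeff_one_add_X_pow, Nat.choose_self]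
  simp

/-- After one dependent jet of `y` there is another one. -/
theorem next_dep (p : ℕ) [Fact p.Prime] [CharP K p] [Infinite K] (hc : H0.Compat H) (x y : K)
    {b : ℕ} (hb : ∃ A, H.D b y ∈ acl k0 (H.jet2 x y '' box A b)) :
    ∃ b' A, b < b' ∧ H.D b' y ∈ acl k0 (H.jet2 x y '' box A b') := by
  by_contra hn
  push Not at hn
  obtain ⟨A, hb⟩ := hb
  obtain ⟨M, hM, hκ⟩ := rlevel_choose (K := K) p b
  obtain ⟨P, hP, hl, hz, -⟩ := exists_eq_of_mem_acl hb
  set ω := H.jet2 x y with hω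
  set G := P.eval (MvPolynomial.X (true, b)) with hG
  have hG0 : MvPolynomial.aeval ω G = 0 := by
    rw [hG, rlevel_aeval_eval, eval_map]
    exact hz
  have hGon : On (box A (b + 1)) G := by
    rw [hG, eval_eq_sum_range]
    refine On.sum fun i _ => ((hP i).mono fun s hs => ?_).mul ((On.X ?_).pow i)
    · simp only [box, Set.mem_ofPred_eq] at hs ⊢
      split_ifs at hs ⊢ <;> omega
    · simp [box]
  have h1 : ∀ ε : K, rlevelTh H0 (fun s => ω s + if s = (true, M) then ε else 0) G = 0 := by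
    intro ε
    ext r
    rw [rlevel_coeff_th, map_zero]
    refine rlevel_free (ω := ω) (b := b) (fun b' A' h => hn b' A' h) (fun s hs => ?_) _ ?_
    · rw [if_neg, add_zero]
      rintro rfl
      exact absurd (hs rfl) (by simpa using hM)
    · rw [← rlevel_coeff_th, hω, rlevel_th_jet hc, ← hω, hG0, map_zero, map_zero]
  let κ : Vr → PowerSeries K := fun s =>
    if s.1 then PowerSeries.C (M.choose s.2 : K) * PowerSeries.X ^ (b - s.2) else 0
  let Γ : (PowerSeries K)[X] := G.eval₂ (C.comp (H.E.comp (algebraMap k0 K)))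
    fun s => C (H.E (ω s)) + X * C (κ s)
  have h2 : ∀ z, Γ.eval z =
      G.eval₂ (H.E.comp (algebraMap k0 K)) fun s => H.E (ω s) + z * κ s := by
    intro z
    rw [← coe_evalRingHom, MvPolynomial.eval₂_comp_left]
    congr 1
    · ext a : 1
      simp
    · funext s
      simp only [Function.comp, coe_evalRingHom, eval_add, eval_mul, eval_C, eval_X]
  have h3 : Γ = 0 := by
    refine eq_zero_of_infinite_isRoot _ (Set.infinite_of_injective_forall_mem
      (f := fun ε : K => PowerSeries.C ε * PowerSeries.X ^ (M - b)) (fun ε ε' h => ?_) fun ε => ?_)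
    · simpa using congrArg (PowerSeries.coeff (M - b)) h
    · show Γ.eval _ = 0
      rw [h2, ← h1 ε, rlevelTh, rlevel_phi hc]
      refine rlevel_eval₂_congr hGon _ fun s hs => ?_
      rw [← rlevel_mk_jet x y s]
      obtain ⟨β, i⟩ := s
      ext r
      cases β
      · simp [κ, hω]
      · have hi : i < b + 1 := hs
        have h4 : PowerSeries.C ε * PowerSeries.X ^ (M - b) * κ (true, i) =
            PowerSeries.C (M.choose i * ε) * PowerSeries.X ^ (M - i) := by
          simp only [κ, if_true, map_mul]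
          rw [show M - i = (M - b) + (b - i) by omega, pow_add]
          ring
        rw [h4, map_add, PowerSeries.coeff_mk, PowerSeries.coeff_mk, PowerSeries.coeff_C_mul,
          PowerSeries.coeff_X_pow, mul_add]
        congr 1
        by_cases hr : r = M - i
        · rw [if_pos hr, if_pos (by rw [hr]; congr 1; omega), hr, show i + (M - i) = M by omega,
            mul_one]
        · rw [if_neg hr, if_neg fun h => hr (by have := (Prod.ext_iff.1 h).2; omega),
            mul_zero, mul_zero]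
  have h4 : ∀ e : K, (P.map (MvPolynomial.aeval ω : MvPolynomial Vr k0 →ₐ[k0] K).toRingHom).eval
      (ω (true, b) + e * M.choose b) = 0 := by
    intro e
    have h5 := congrArg PowerSeries.constantCoeff (h2 (PowerSeries.C e))
    rw [h3, eval_zero, map_zero, MvPolynomial.eval₂_comp_left] at h5
    have h6 : MvPolynomial.aeval (fun s => ω s + if s = (true, b) then e * M.choose b else 0) G
        = 0 := by
      have h7 : PowerSeries.constantCoeff.comp (H.E.comp (algebraMap k0 K)) = algebraMap k0 K := by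
        ext a
        simpa using H.c0 (algebraMap k0 K a)
      rw [h7] at h5
      refine Eq.trans (rlevel_eval₂_congr hGon _ fun s hs => ?_) h5.symm
      have h8 : ∀ s, PowerSeries.constantCoeff (H.E (ω s)) = ω s := fun s => by
        simpa using H.c0 (ω s)
      obtain ⟨β, i⟩ := s
      cases β
      · simp [κ, h8]
      · have hi : i < b + 1 := hs
        by_cases hib : i = b
        · simp [κ, h8, hib]
        · have h9 : b - i ≠ 0 := by omega
          simp [κ, h8, hib, h9]
    rw [hG, rlevel_aeval_eval, if_pos rfl] at h6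
    rw [← h6]
    congr 1
    ext i
    rw [coeff_map, coeff_map]
    refine (hP i).aeval_congr fun s hs => ?_
    rw [if_neg, add_zero]
    rintro rfl
    exact lt_irrefl b hs
  have h5 := eq_zero_of_infinite_isRoot _ (Set.infinite_of_injective_forall_mem
    (f := fun e : K => ω (true, b) + e * M.choose b)
    (fun e e' h => mul_right_cancel₀ hκ (add_left_cancel h)) h4)
  exact hl (by simpa [coeff_map] using congrArg (fun Q => Q.coeff P.natDegree) h5)

end JR
end

-- merged part: Pool.Agent.Work.MP_969914_nt.DF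
section
/-! Degree functions on domains and their Gauss extension to polynomial rings. -/

set_option autoImplicit false

open Polynomial

namespace Pool.Agent.Work.MP_969914_nt

/-- A multiplicative ultrametric degree function with values in the natural numbers. -/
structure DF (R : Type*) [CommRing R] where
  d : R → ℕ
  d_zero : d 0 = 0
  d_neg : ∀ a, d (-a) = d a
  d_add : ∀ a b, d (a + b) ≤ max (d a) (d b)
  d_mul : ∀ a b, a ≠ 0 → b ≠ 0 → d (a * b) = d a + d b

namespace DF

variable {R : Type*} [CommRing R] (D : DF R)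

lemma mul_le (a b : R) : D.d (a * b) ≤ D.d a + D.d b := by
  by_cases ha : a = 0
  · simp [ha, D.d_zero]
  by_cases hb : b = 0
  · simp [hb, D.d_zero]
  exact (D.d_mul a b ha hb).le

lemma d_one [Nontrivial R] : D.d 1 = 0 := by
  have := D.d_mul 1 1 one_ne_zero one_ne_zero
  simp only [mul_one] at this
  omega

lemma add_le {a b : R} {n : ℕ} (ha : D.d a ≤ n) (hb : D.d b ≤ n) : D.d (a + b) ≤ n :=
  (D.d_add a b).trans (max_le ha hb)

lemma sub_le {a b : R} {n : ℕ} (ha : D.d a ≤ n) (hb : D.d b ≤ n) : D.d (a - b) ≤ n := by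
  rw [sub_eq_add_neg]; exact D.add_le ha (by rwa [D.d_neg])

lemma mul_le' {a b : R} {m n : ℕ} (ha : D.d a ≤ m) (hb : D.d b ≤ n) : D.d (a * b) ≤ m + n :=
  (D.mul_le a b).trans (add_le_add ha hb)

lemma sum_le {ι : Type*} (s : Finset ι) (f : ι → R) {n : ℕ} (h : ∀ i ∈ s, D.d (f i) ≤ n) :
    D.d (∑ i ∈ s, f i) ≤ n := by
  classical
  induction s using Finset.induction_on with
  | empty => simp [D.d_zero]
  | insert a s ha ih =>
    rw [Finset.sum_insert ha]
    exact D.add_le (h a (by simp)) (ih fun i hi => h i (by simp [hi]))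

lemma prod_le [Nontrivial R] {ι : Type*} (s : Finset ι) (f : ι → R) {n : ℕ}
    (h : ∀ i ∈ s, D.d (f i) ≤ n) : D.d (∏ i ∈ s, f i) ≤ s.card * n := by
  classical
  induction s using Finset.induction_on with
  | empty => simp [D.d_one]
  | insert a s ha ih =>
    rw [Finset.prod_insert ha, Finset.card_insert_of_notMem ha]
    have := D.mul_le' (h a (by simp)) (ih fun i hi => h i (by simp [hi]))
    nlinarith

lemma pow_le [Nontrivial R] (a : R) (m : ℕ) {n : ℕ} (h : D.d a ≤ n) : D.d (a ^ m) ≤ m * n := by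
  induction m with
  | zero => simp [D.d_one]
  | succ m ih => rw [pow_succ]; have := D.mul_le' ih h; nlinarith

lemma d_pow [IsDomain R] (a : R) (ha : a ≠ 0) (m : ℕ) : D.d (a ^ m) = m * D.d a := by
  induction m with
  | zero => simp [D.d_one]
  | succ m ih => rw [pow_succ, D.d_mul _ _ (pow_ne_zero _ ha) ha, ih]; ring

lemma natCast_le [Nontrivial R] (m : ℕ) : D.d (m : R) = 0 := by
  induction m with
  | zero => simp [D.d_zero]
  | succ m ih =>
    push_cast
    have := D.add_le (n := 0) ih.le D.d_one.le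
    omega

lemma intCast_le [Nontrivial R] (m : ℤ) : D.d (m : R) = 0 := by
  obtain ⟨n, rfl | rfl⟩ := m.eq_nat_or_neg
  · simpa using D.natCast_le n
  · simpa [D.d_neg] using D.natCast_le n

lemma le_of_dvd {a b : R} (h : a ∣ b) (hb : b ≠ 0) : D.d a ≤ D.d b := by
  obtain ⟨c, rfl⟩ := h
  rw [D.d_mul a c (left_ne_zero_of_mul hb) (right_ne_zero_of_mul hb)]
  omega

lemma det_le [Nontrivial R] {n : Type*} [Fintype n] [DecidableEq n] (M : Matrix n n R) {b : ℕ}
    (h : ∀ i j, D.d (M i j) ≤ b) : D.d M.det ≤ Fintype.card n * b := by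
  rw [Matrix.det_apply']
  refine D.sum_le _ _ fun σ _ => ?_
  have h1 : D.d (((Equiv.Perm.sign σ : ℤˣ) : ℤ) : R) ≤ 0 := (D.intCast_le _).le
  have h2 := D.prod_le Finset.univ (fun i => M (σ i) i) (fun i _ => h _ _)
  have := D.mul_le' h1 h2
  simpa using this

lemma add_eq_of_lt {a b : R} (ha : a ≠ 0) (hb : b = 0 ∨ D.d b < D.d a) :
    a + b ≠ 0 ∧ D.d (a + b) = D.d a := by
  rcases hb with rfl | hb
  · simp [ha]
  refine ⟨fun h => ?_, le_antisymm (D.add_le le_rfl hb.le) ?_⟩
  · have : a = -b := by linear_combination h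
    rw [this, D.d_neg] at hb
    omega
  · by_contra hlt
    push Not at hlt
    have : D.d ((a + b) - b) ≤ max (D.d (a + b)) (D.d b) :=
      D.sub_le (le_max_left _ _) (le_max_right _ _)
    simp only [add_sub_cancel_right] at this
    omega

lemma sum_lt {ι : Type*} (s : Finset ι) (f : ι → R) {n : ℕ}
    (h : ∀ i ∈ s, f i = 0 ∨ D.d (f i) < n) :
    (∑ i ∈ s, f i) = 0 ∨ D.d (∑ i ∈ s, f i) < n := by
  classical
  induction s using Finset.induction_on with
  | empty => simp
  | insert a s ha ih =>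
    rw [Finset.sum_insert ha]
    rcases h a (by simp) with h1 | h1
    · simpa [h1] using ih fun i hi => h i (by simp [hi])
    rcases ih fun i hi => h i (by simp [hi]) with h2 | h2
    · right; simpa [h2] using h1
    · right; exact (D.d_add _ _).trans_lt (max_lt h1 h2)

/-- The underlying function of the Gauss extension with weight `ω` for the variable. -/
def extd (ω : ℕ) (p : R[X]) : ℕ := p.support.sup fun i => D.d (p.coeff i) + ω * i

lemma extd_le_iff (ω : ℕ) (p : R[X]) (n : ℕ) :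
    D.extd ω p ≤ n ↔ ∀ i, p.coeff i ≠ 0 → D.d (p.coeff i) + ω * i ≤ n := by
  simp [extd, Finset.sup_le_iff]

lemma le_extd (ω : ℕ) (p : R[X]) {i : ℕ} (hi : p.coeff i ≠ 0) :
    D.d (p.coeff i) + ω * i ≤ D.extd ω p := (D.extd_le_iff ω p _).1 le_rfl i hi

lemma exists_top (ω : ℕ) {p : R[X]} (hp : p ≠ 0) :
    ∃ i, p.coeff i ≠ 0 ∧ D.d (p.coeff i) + ω * i = D.extd ω p ∧
      ∀ j, i < j → p.coeff j ≠ 0 → D.d (p.coeff j) + ω * j < D.extd ω p := by
  classical
  have hne : p.support.Nonempty := by simpa using hp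
  obtain ⟨i0, hi0, h0⟩ := Finset.exists_mem_eq_sup _ hne (fun i => D.d (p.coeff i) + ω * i)
  set T := p.support.filter fun i => D.d (p.coeff i) + ω * i = D.extd ω p with hT
  have hTne : T.Nonempty := ⟨i0, by simp only [hT, Finset.mem_filter]; exact ⟨hi0, h0.symm⟩⟩
  have hm := T.max'_mem hTne
  simp only [hT, Finset.mem_filter, mem_support_iff] at hm
  refine ⟨T.max' hTne, hm.1, hm.2, fun j hj hc => ?_⟩
  refine lt_of_le_of_ne (D.le_extd ω p hc) fun h => ?_
  have : j ∈ T := by simp only [hT, Finset.mem_filter, mem_support_iff]; exact ⟨hc, h⟩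
  exact absurd (T.le_max' j this) (by omega)

lemma extd_mul_le (ω : ℕ) (p q : R[X]) : D.extd ω (p * q) ≤ D.extd ω p + D.extd ω q := by
  rw [extd_le_iff]
  intro s hs
  rw [coeff_mul] at hs ⊢
  obtain ⟨x, hx, hx0⟩ := Finset.exists_ne_zero_of_sum_ne_zero hs
  have key : ∀ y ∈ Finset.HasAntidiagonal.antidiagonal s, p.coeff y.1 * q.coeff y.2 ≠ 0 →
      D.d (p.coeff y.1 * q.coeff y.2) + ω * s ≤ D.extd ω p + D.extd ω q := by
    intro y hy h0
    have h1 := D.le_extd ω p (left_ne_zero_of_mul h0)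
    have h2 := D.le_extd ω q (right_ne_zero_of_mul h0)
    have h3 := D.mul_le (p.coeff y.1) (q.coeff y.2)
    rw [← Finset.HasAntidiagonal.mem_antidiagonal.1 hy, mul_add]
    omega
  have hs1 := key x hx hx0
  have : D.d (∑ y ∈ Finset.HasAntidiagonal.antidiagonal s, p.coeff y.1 * q.coeff y.2) ≤
      D.extd ω p + D.extd ω q - ω * s := by
    refine D.sum_le _ _ fun y hy => ?_
    by_cases h0 : p.coeff y.1 * q.coeff y.2 = 0
    · simp [h0, D.d_zero]
    · have := key y hy h0
      omega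
  omega

/-- Gauss extension of a degree function to the polynomial ring, the variable having weight `ω`. -/
def ext [IsDomain R] (ω : ℕ) : DF R[X] where
  d := D.extd ω
  d_zero := by simp [extd]
  d_neg a := by simp [extd, D.d_neg]
  d_add a b := by
    rw [extd_le_iff]
    intro i hi
    rw [coeff_add] at hi ⊢
    by_cases ha : a.coeff i = 0
    · have hb : b.coeff i ≠ 0 := by simpa [ha] using hi
      rw [ha, zero_add]
      exact (D.le_extd ω b hb).trans (le_max_right _ _)
    by_cases hb : b.coeff i = 0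
    · rw [hb, add_zero]
      exact (D.le_extd ω a ha).trans (le_max_left _ _)
    have h1 := D.le_extd ω a ha
    have h2 := D.le_extd ω b hb
    have h3 := D.d_add (a.coeff i) (b.coeff i)
    omega
  d_mul p q hp hq := by
    classical
    refine le_antisymm (D.extd_mul_le ω p q) ?_
    obtain ⟨i, hi, hi1, hi2⟩ := D.exists_top ω hp
    obtain ⟨j, hj, hj1, hj2⟩ := D.exists_top ω hq
    have hmem : (i, j) ∈ Finset.HasAntidiagonal.antidiagonal (i + j) := by simp
    have hsplit := Finset.add_sum_erase _ (fun y : ℕ × ℕ => p.coeff y.1 * q.coeff y.2) hmem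
    have hd := D.d_mul _ _ hi hj
    have hrest := D.sum_lt ((Finset.HasAntidiagonal.antidiagonal (i + j)).erase (i, j))
      (fun y : ℕ × ℕ => p.coeff y.1 * q.coeff y.2) (n := D.d (p.coeff i * q.coeff j)) (by
        intro y hy
        by_cases h0 : p.coeff y.1 * q.coeff y.2 = 0
        · exact Or.inl h0
        right
        have hy1 := Finset.HasAntidiagonal.mem_antidiagonal.1 (Finset.mem_of_mem_erase hy)
        have hy2 := Finset.ne_of_mem_erase hy
        have h1 := D.le_extd ω p (left_ne_zero_of_mul h0)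
        have h2 := D.le_extd ω q (right_ne_zero_of_mul h0)
        have h3 := D.mul_le (p.coeff y.1) (q.coeff y.2)
        have h4 : ω * y.1 + ω * y.2 = ω * i + ω * j := by rw [← mul_add, ← mul_add, hy1]
        by_cases hlt : i < y.1
        · have := hi2 y.1 hlt (left_ne_zero_of_mul h0)
          omega
        · have hlt' : j < y.2 := by
            rcases y with ⟨y1, y2⟩
            simp only [ne_eq, Prod.mk.injEq, not_and] at hy1 hy2 hlt ⊢
            omega
          have := hj2 y.2 hlt' (right_ne_zero_of_mul h0)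
          omega)
    have := D.add_eq_of_lt (mul_ne_zero hi hj) hrest
    rw [hsplit, ← coeff_mul] at this
    have h5 := D.le_extd ω (p * q) this.1
    rw [this.2, hd, mul_add] at h5
    omega

section ext
variable [IsDomain R] (ω : ℕ)

lemma ext_le_iff (p : R[X]) (n : ℕ) :
    (D.ext ω).d p ≤ n ↔ ∀ i, p.coeff i ≠ 0 → D.d (p.coeff i) + ω * i ≤ n := D.extd_le_iff ω p n

lemma le_ext (p : R[X]) {i : ℕ} (hi : p.coeff i ≠ 0) :
    D.d (p.coeff i) + ω * i ≤ (D.ext ω).d p := D.le_extd ω p hi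

lemma coeff_le (p : R[X]) (i : ℕ) : D.d (p.coeff i) ≤ (D.ext ω).d p := by
  by_cases h : p.coeff i = 0
  · simp [h, D.d_zero]
  · have := D.le_ext ω p h; omega

lemma ext_C (a : R) : (D.ext ω).d (C a) ≤ D.d a := by
  rw [ext_le_iff]
  intro i hi
  rw [coeff_C] at hi ⊢
  split_ifs at hi ⊢ with h
  · simp [h]
  · exact absurd rfl hi

lemma ext_X : (D.ext ω).d (X : R[X]) ≤ ω := by
  rw [ext_le_iff]
  intro i hi
  rw [coeff_X] at hi ⊢
  split_ifs at hi ⊢ with h
  · subst h; simp [D.d_one]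
  · exact absurd rfl hi

lemma exists_ext {p : R[X]} (hp : p ≠ 0) :
    ∃ i, p.coeff i ≠ 0 ∧ D.d (p.coeff i) + ω * i = (D.ext ω).d p ∧
      ∀ j, i < j → p.coeff j ≠ 0 → D.d (p.coeff j) + ω * j < (D.ext ω).d p := D.exists_top ω hp

end ext

/-- The zero degree function. -/
def triv (R : Type*) [CommRing R] : DF R where
  d _ := 0
  d_zero := rfl
  d_neg _ := rfl
  d_add _ _ := le_rfl
  d_mul _ _ _ _ := rfl

/-- The degree of polynomials. -/
noncomputable def deg (R : Type*) [CommRing R] [IsDomain R] : DF R[X] where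
  d p := p.natDegree
  d_zero := natDegree_zero
  d_neg := natDegree_neg
  d_add := natDegree_add_le
  d_mul _ _ ha hb := natDegree_mul ha hb

end DF

end Pool.Agent.Work.MP_969914_nt
end

-- merged part: Pool.Agent.Work.MP_969914_nt.Siegel
section
/-! Siegel's lemma over `k[T]`, and basic degree functions on `k[T][X][Y]`. -/

set_option autoImplicit false

open Polynomial

namespace Pool.Agent.Work.MP_969914_nt

variable {k : Type*} [Field k]

lemma siegel {ι o : Type*} [Fintype ι] [Fintype o] (M : o → ι → k[X]) (h : ℕ)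
    (hM : ∀ a i, (M a i).natDegree ≤ h) (hc : Fintype.card o < Fintype.card ι) :
    ∃ c : ι → k[X], c ≠ 0 ∧ (∀ i, (c i).natDegree ≤ Fintype.card o * h) ∧
      ∀ a, ∑ i, M a i * c i = 0 := by
  classical
  set T := Fintype.card o * h with hT
  let P : (ι × Fin (T + 1) → k) →ₗ[k] (ι → k[X]) :=
    LinearMap.pi fun i => ∑ m : Fin (T + 1), (monomial (m : ℕ)) ∘ₗ LinearMap.proj (i, m)
  have hP : ∀ u i, P u i = ∑ m : Fin (T + 1), monomial (m : ℕ) (u (i, m)) := by
    intro u i; simp [P]
  have hPdeg : ∀ u i, (P u i).natDegree ≤ T := by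
    intro u i
    rw [hP]
    refine natDegree_sum_le_of_forall_le _ _ fun m _ => ?_
    exact (natDegree_monomial_le _).trans (by omega)
  have hPcoeff : ∀ u i (m : Fin (T + 1)), (P u i).coeff m = u (i, m) := by
    intro u i m
    rw [hP, finsetSum_coeff, Finset.sum_eq_single m]
    · simp
    · intro b _ hb
      rw [coeff_monomial, if_neg (fun h => hb (Fin.ext h))]
    · simp
  let L : (ι × Fin (T + 1) → k) →ₗ[k] (o × Fin (T + h + 1) → k) :=
    LinearMap.pi fun x => (lcoeff k (x.2 : ℕ)) ∘ₗ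
      (∑ i, (LinearMap.mulLeft k (M x.1 i)) ∘ₗ LinearMap.proj i) ∘ₗ P
  have hL : ∀ u x, L u x = (∑ i, M x.1 i * P u i).coeff x.2 := by
    intro u x; simp [L]
  have hlt : Module.finrank k (o × Fin (T + h + 1) → k) <
      Module.finrank k (ι × Fin (T + 1) → k) := by
    simp only [Module.finrank_fintype_fun_eq_card, Fintype.card_prod, Fintype.card_fin]
    have : (Fintype.card o + 1) * (T + 1) ≤ Fintype.card ι * (T + 1) :=
      Nat.mul_le_mul_right _ hc
    nlinarith
  obtain ⟨u, hu, hu0⟩ := Submodule.exists_mem_ne_zero_of_ne_bot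
    (LinearMap.ker_ne_bot_of_finrank_lt (f := L) hlt)
  refine ⟨P u, fun h0 => hu0 ?_, hPdeg u, fun a => ?_⟩
  · funext x
    have := hPcoeff u x.1 x.2
    rw [h0] at this
    simpa using this.symm
  · have hdeg : (∑ i, M a i * P u i).natDegree ≤ T + h := by
      refine natDegree_sum_le_of_forall_le _ _ fun i _ => ?_
      have := natDegree_mul_le (p := M a i) (q := P u i)
      have := hM a i
      have := hPdeg u i
      omega
    ext s
    by_cases hs : s < T + h + 1
    · have := hL u (a, ⟨s, hs⟩)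
      rw [LinearMap.mem_ker.1 hu] at this
      simpa using this.symm
    · rw [coeff_zero]
      exact coeff_eq_zero_of_natDegree_lt (by omega)

/-- Siegel's lemma with finsets as index sets. -/
lemma siegel' {ι o : Type*} (I : Finset ι) (O : Finset o) (M : o → ι → k[X]) (h : ℕ)
    (hM : ∀ a i, (M a i).natDegree ≤ h) (hc : O.card < I.card) :
    ∃ c : ι → k[X], (∃ i ∈ I, c i ≠ 0) ∧ (∀ i, (c i).natDegree ≤ O.card * h) ∧
      ∀ a ∈ O, ∑ i ∈ I, M a i * c i = 0 := by
  classical
  obtain ⟨c, hc0, hc1, hc2⟩ := siegel (ι := I) (o := O) (fun a i => M a i) h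
    (fun a i => hM a i) (by simpa using hc)
  refine ⟨fun i => if hi : i ∈ I then c ⟨i, hi⟩ else 0, ?_, ?_, ?_⟩
  · obtain ⟨i, hi⟩ := Function.ne_iff.1 hc0
    exact ⟨i, i.2, by simpa using hi⟩
  · intro i
    dsimp only
    split_ifs with hi
    · simpa using hc1 ⟨i, hi⟩
    · simp
  · intro a ha
    rw [← Finset.sum_coe_sort]
    simpa using hc2 ⟨a, ha⟩

/-- Degree in `T` on `k[T][X]`. -/
noncomputable def ht1 (k : Type*) [Field k] : DF k[X][X] := (DF.deg k).ext 0
/-- Degree in `T` on `k[T][X][Y]`. -/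
noncomputable def ht (k : Type*) [Field k] : DF k[X][X][X] := (ht1 k).ext 0
/-- Degree in `X` on `k[T][X]`, as a Gauss extension. -/
noncomputable def tot1 (k : Type*) [Field k] : DF k[X][X] := (DF.triv k[X]).ext 1
/-- Total degree in `X, Y` on `k[T][X][Y]`. -/
noncomputable def tot (k : Type*) [Field k] : DF k[X][X][X] := (tot1 k).ext 1

lemma ht1_le_iff (p : k[X][X]) (n : ℕ) : (ht1 k).d p ≤ n ↔ ∀ j, (p.coeff j).natDegree ≤ n := by
  rw [ht1, DF.ext_le_iff]
  refine ⟨fun h j => ?_, fun h j _ => by simpa [DF.deg] using h j⟩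
  by_cases hj : p.coeff j = 0
  · simp [hj]
  · simpa [DF.deg] using h j hj

lemma ht_le_iff (p : k[X][X][X]) (n : ℕ) :
    (ht k).d p ≤ n ↔ ∀ j l, ((p.coeff l).coeff j).natDegree ≤ n := by
  rw [ht, DF.ext_le_iff]
  refine ⟨fun h j l => ?_, fun h l _ => by simpa [ht1_le_iff] using fun j => h j l⟩
  by_cases hl : p.coeff l = 0
  · simp [hl]
  · have := h l hl
    simp only [zero_mul, add_zero, ht1_le_iff] at this
    exact this j

lemma tot1_eq (p : k[X][X]) : (tot1 k).d p = p.natDegree := by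
  apply le_antisymm
  · rw [tot1, DF.ext_le_iff]
    intro i hi
    simpa [DF.triv] using le_natDegree_of_ne_zero hi
  · by_cases hp : p = 0
    · simp [hp]
    have := (DF.triv k[X]).le_ext 1 p (i := p.natDegree) (by simpa using hp)
    rw [one_mul] at this
    exact le_trans (Nat.le_add_left _ _) this

lemma tot_le_iff (p : k[X][X][X]) (n : ℕ) :
    (tot k).d p ≤ n ↔ ∀ j l, (p.coeff l).coeff j ≠ 0 → j + l ≤ n := by
  rw [tot, DF.ext_le_iff]
  simp only [tot1_eq, one_mul]
  refine ⟨fun h j l hjl => ?_, fun h l hl => h _ l (by simpa using hl)⟩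
  have h1 := h l (fun h0 => by simp [h0] at hjl)
  have := le_natDegree_of_ne_zero hjl
  omega

lemma tot_le_iff' (p : k[X][X][X]) (n : ℕ) :
    (tot k).d p ≤ n ↔ ∀ l, p.coeff l ≠ 0 → (p.coeff l).natDegree + l ≤ n := by
  rw [tot, DF.ext_le_iff]
  simp only [tot1_eq, one_mul]

lemma natDegree_le_tot (p : k[X][X][X]) : p.natDegree ≤ (tot k).d p := by
  by_cases hp : p = 0
  · simp [hp]
  have := (tot_le_iff' p _).1 le_rfl p.natDegree (by simpa using hp)
  omega

lemma coeff_natDegree_le_tot (p : k[X][X][X]) (l : ℕ) : (p.coeff l).natDegree ≤ (tot k).d p := by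
  rw [← tot1_eq]; exact (tot1 k).coeff_le 1 p l

lemma ht_C (a : k[X][X]) : (ht k).d (C a) ≤ (ht1 k).d a := (ht1 k).ext_C 0 a
lemma ht_X : (ht k).d (X : k[X][X][X]) ≤ 0 := (ht1 k).ext_X 0
lemma ht1_C (a : k[X]) : (ht1 k).d (C a) ≤ a.natDegree := (DF.deg k).ext_C 0 a
lemma ht1_X : (ht1 k).d (X : k[X][X]) ≤ 0 := (DF.deg k).ext_X 0
lemma tot_C (a : k[X][X]) : (tot k).d (C a) ≤ a.natDegree := by
  rw [← tot1_eq]; exact (tot1 k).ext_C 1 a
lemma tot_X : (tot k).d (X : k[X][X][X]) ≤ 1 := (tot1 k).ext_X 1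

/-- The monomial `a X^j Y^l`. -/
noncomputable def mono (a : k[X]) (j l : ℕ) : k[X][X][X] := monomial l (monomial j a)

lemma coeff_mono (a : k[X]) (j l j' l' : ℕ) :
    ((mono a j l).coeff l').coeff j' = if j = j' ∧ l = l' then a else 0 := by
  unfold mono
  rw [coeff_monomial]
  split_ifs with h1 h2 h2
  · rw [coeff_monomial, if_pos h2.1]
  · rw [coeff_monomial, if_neg (fun h => h2 ⟨h, h1⟩)]
  · exact absurd h2.2 h1
  · simp

lemma mono_eq (a : k[X]) (j l : ℕ) : mono a j l = C (C a) * C X ^ j * X ^ l := by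
  unfold mono
  rw [← C_mul_X_pow_eq_monomial, ← C_mul_X_pow_eq_monomial]
  simp

lemma ht_mono (a : k[X]) (j l : ℕ) : (ht k).d (mono a j l) ≤ a.natDegree := by
  rw [ht_le_iff]
  intro j' l'
  rw [coeff_mono]
  split_ifs <;> simp

lemma tot_mono (a : k[X]) (j l : ℕ) : (tot k).d (mono a j l) ≤ j + l := by
  rw [tot_le_iff]
  intro j' l' h
  rw [coeff_mono] at h
  split_ifs at h with h1
  · omega
  · exact absurd rfl h

lemma coeff_mul_mono (p : k[X][X][X]) (a : k[X]) (j l j' l' : ℕ) :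
    ((p * mono a j l).coeff l').coeff j' =
      if j ≤ j' ∧ l ≤ l' then (p.coeff (l' - l)).coeff (j' - j) * a else 0 := by
  unfold mono
  by_cases hl : l ≤ l'
  · obtain ⟨l1, rfl⟩ := Nat.exists_eq_add_of_le' hl
    rw [coeff_mul_monomial]
    by_cases hj : j ≤ j'
    · obtain ⟨j1, rfl⟩ := Nat.exists_eq_add_of_le' hj
      rw [coeff_mul_monomial]
      simp
    · rw [if_neg (fun h => hj h.1), ← C_mul_X_pow_eq_monomial, ← mul_assoc, coeff_mul_X_pow',
        if_neg hj]
  · rw [if_neg (fun h => hl h.2), ← C_mul_X_pow_eq_monomial, ← mul_assoc, coeff_mul_X_pow',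
      if_neg hl, coeff_zero]

lemma natDegree_eval_le1 (p : k[X][X]) (x : k[X]) {h n e : ℕ} (hh : (ht1 k).d p ≤ h)
    (hn : p.natDegree ≤ n) (hx : x.natDegree ≤ e) : (p.eval x).natDegree ≤ h + n * e := by
  rw [eval_eq_sum_range]
  refine natDegree_sum_le_of_forall_le _ _ fun i hi => ?_
  have h1 := (ht1_le_iff p h).1 hh i
  have h2 : (x ^ i).natDegree ≤ i * e := natDegree_pow_le_of_le i hx
  have h3 := natDegree_mul_le (p := p.coeff i) (q := x ^ i)
  have h4 : i ≤ n := by simp at hi; omega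
  have : i * e ≤ n * e := Nat.mul_le_mul_right _ h4
  omega

lemma natDegree_evalEval_le (p : k[X][X][X]) (x y : k[X]) {h n e : ℕ} (hh : (ht k).d p ≤ h)
    (hn : (tot k).d p ≤ n) (hx : x.natDegree ≤ e) (hy : y.natDegree ≤ e) :
    (p.evalEval x y).natDegree ≤ h + n * e := by
  have : p.evalEval x y = ∑ l ∈ Finset.range (p.natDegree + 1), (p.coeff l).eval x * y ^ l := by
    rw [evalEval, eval_eq_sum_range (p := p), eval_finsetSum]
    simp
  rw [this]
  refine natDegree_sum_le_of_forall_le _ _ fun l _ => ?_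
  by_cases hl : p.coeff l = 0
  · simp [hl]
  have h1 := (tot_le_iff' p n).1 hn l hl
  have h2 := natDegree_eval_le1 (p.coeff l) x (h := h) (((ht1 k).coeff_le 0 p l).trans hh)
    le_rfl hx
  have h3 : (y ^ l).natDegree ≤ l * e := natDegree_pow_le_of_le l hy
  have h4 := natDegree_mul_le (p := (p.coeff l).eval x) (q := y ^ l)
  have : ((p.coeff l).natDegree + l) * e ≤ n * e := Nat.mul_le_mul_right _ h1
  rw [add_mul] at this
  omega

end Pool.Agent.Work.MP_969914_nt
end

-- merged part: Pool.Agent.Work.MP_969914_nt.Elim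
section
/-! Effective elimination through resultants. -/

set_option autoImplicit false

open Polynomial

namespace Pool.Agent.Work.MP_969914_nt

lemma res_d_le {R : Type*} [CommRing R] [Nontrivial R] (D : DF R) (p q : R[X]) (m n : ℕ) {b : ℕ}
    (hp : ∀ i, D.d (p.coeff i) ≤ b) (hq : ∀ i, D.d (q.coeff i) ≤ b) :
    D.d (resultant p q m n) ≤ (m + n) * b := by
  have := D.det_le (sylvester p q m n) (b := b) (by
    intro i j
    induction j using Fin.addCases with
    | left j =>
      simp only [sylvester, Matrix.of_apply, Fin.addCases_left]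
      split_ifs
      · exact hq _
      · simp [D.d_zero]
    | right j =>
      simp only [sylvester, Matrix.of_apply, Fin.addCases_right]
      split_ifs
      · exact hp _
      · simp [D.d_zero])
  simpa [resultant] using this

lemma res_ne_zero_of_map {R K : Type*} [CommRing R] [CommRing K] [IsDomain K] (φ : R →+* K)
    (hφ : Function.Injective φ) (p q : R[X]) (h : IsCoprime (p.map φ) (q.map φ)) :
    resultant p q ≠ 0 := by
  intro h0
  have := resultant_ne_zero _ _ h
  rw [natDegree_map_eq_of_injective hφ, natDegree_map_eq_of_injective hφ, resultant_map_map,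
    h0, map_zero] at this
  exact this rfl

lemma res_ne_zero_of_irreducible {R : Type*} [CommRing R] [IsDomain R] [IsGCDMonoid R]
    {p q : R[X]} (hp : Irreducible p) (hn : p.natDegree ≠ 0) (hq : ¬ p ∣ q) :
    resultant p q ≠ 0 := by
  have hprim := hp.isPrimitive hn
  refine res_ne_zero_of_map (algebraMap R (FractionRing R)) (IsFractionRing.injective _ _) p q ?_
  have hi := (hprim.irreducible_iff_irreducible_map_fraction_map (K := FractionRing R)).1 hp
  rw [hi.coprime_iff_not_dvd]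
  exact fun h => hq (hprim.dvd_of_fraction_map_dvd_fraction_map h)

variable {k : Type*} [Field k]

lemma eval_ne_zero_of_ht_lt {R : k[X][X]} (hR : R ≠ 0) {h : ℕ} (hh : (ht1 k).d R ≤ h)
    {x : k[X]} (hx : h < x.natDegree) : R.eval x ≠ 0 := by
  have hx0 : x ≠ 0 := by rintro rfl; simp at hx
  rw [eval_eq_sum_range, Finset.sum_range_succ, add_comm]
  have hl : R.coeff R.natDegree ≠ 0 := by simpa using hR
  refine ((DF.deg k).add_eq_of_lt (mul_ne_zero hl (pow_ne_zero _ hx0)) ?_).1
  refine (DF.deg k).sum_lt _ _ fun i hi => Or.inr ?_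
  have hi' : i + 1 ≤ R.natDegree := by simpa using hi
  have h1 := (ht1_le_iff R h).1 hh i
  have h2 := natDegree_mul_le (p := R.coeff i) (q := x ^ i)
  have h3 : (R.coeff R.natDegree * x ^ R.natDegree).natDegree =
      (R.coeff R.natDegree).natDegree + R.natDegree * x.natDegree := by
    rw [natDegree_mul hl (pow_ne_zero _ hx0), natDegree_pow]
  rw [natDegree_pow] at h2
  have h4 : (i + 1) * x.natDegree ≤ R.natDegree * x.natDegree := Nat.mul_le_mul_right _ hi'
  simp only [DF.deg]
  rw [add_mul] at h4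
  omega

/-- Effective finiteness of the intersection of two curves. -/
lemma elim {Ψ G : k[X][X][X]} (hΨ : Irreducible Ψ) (hn : Ψ.natDegree ≠ 0) (hG : ¬ Ψ ∣ G)
    {B : ℕ} (h1 : (ht k).d Ψ ≤ B) (h2 : (tot k).d Ψ ≤ B) (h3 : (ht k).d G ≤ B)
    (h4 : (tot k).d G ≤ B) {x y : k[X]} (e1 : Ψ.evalEval x y = 0) (e2 : G.evalEval x y = 0) :
    x.natDegree ≤ 2 * B ^ 2 := by
  by_contra hlt
  push Not at hlt
  have hres := res_ne_zero_of_irreducible hΨ hn hG
  have hd := res_d_le (ht1 k) Ψ G Ψ.natDegree G.natDegree (b := B)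
    (fun i => ((ht1 k).coeff_le 0 Ψ i).trans h1) (fun i => ((ht1 k).coeff_le 0 G i).trans h3)
  have hn1 := (natDegree_le_tot Ψ).trans h2
  have hn2 := (natDegree_le_tot G).trans h4
  have hd' : (ht1 k).d (resultant Ψ G) ≤ 2 * B ^ 2 := hd.trans (by nlinarith)
  obtain ⟨U, V, -, -, hUV⟩ := exists_mul_add_mul_eq_C_resultant Ψ G le_rfl le_rfl (Or.inl hn)
  have := congrArg (evalEval x y) hUV
  simp only [evalEval_add, evalEval_mul, e1, e2, zero_mul, add_zero, evalEval_C] at this
  exact eval_ne_zero_of_ht_lt hres hd' hlt this.symm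

end Pool.Agent.Work.MP_969914_nt
end

-- merged part: Pool.Agent.Work.MP_969914_nt.RCurveAlg
section
/-! Plane curves: auxiliary facts and the classification of invariant curves. -/

set_option autoImplicit false

namespace JR

open Polynomial

variable {k0 : Type} [Field k0]

theorem rcurvealg_res {G G' : k0[X][X]} (hG : Irreducible G) (hd : G.natDegree ≠ 0)
    (h : ¬ G ∣ G') : ∃ (R : k0[X]) (A B : k0[X][X]), R ≠ 0 ∧ A * G + B * G' = C R := by
  classical
  obtain ⟨U, V, -, -, e⟩ := exists_mul_add_mul_eq_C_resultant G G' le_rfl le_rfl (Or.inl hd)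
  exact ⟨_, U, V, Pool.Agent.Work.MP_969914_nt.res_ne_zero_of_irreducible hG hd h,
    by rw [← e]; ring⟩

/-- Two curves with infinitely many common points with distinct abscissae. -/
theorem dvd_of_common_points {G G' : k0[X][X]} (hG : Irreducible G) (hd : G.natDegree ≠ 0)
    (s : Set (k0 × k0)) (hs : (Prod.fst '' s).Infinite)
    (h : ∀ x ∈ s, G.evalEval x.1 x.2 = 0 ∧ G'.evalEval x.1 x.2 = 0) : G ∣ G' := by
  by_contra hn
  obtain ⟨R, A, B, hR, e⟩ := rcurvealg_res hG hd hn
  refine hR (eq_zero_of_infinite_isRoot R (hs.mono ?_))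
  rintro _ ⟨x, hx, rfl⟩
  have := congrArg (evalEval x.1 x.2) e
  rw [evalEval_add, evalEval_mul, evalEval_mul, (h x hx).1, (h x hx).2, evalEval_C] at this
  simpa using this.symm

theorem exists_min_rel {L : Type} [Field L] [Algebra k0 L] {x y : L} (hx : Transcendental k0 x)
    {G0 : k0[X][X]} (h0 : G0 ≠ 0) (h : aevalAeval x y G0 = 0) :
    ∃ G : k0[X][X], Irreducible G ∧ G.natDegree ≠ 0 ∧ ∀ f, aevalAeval x y f = 0 ↔ G ∣ f := by
  obtain ⟨G, h1, h2⟩ := (RingHom.ker_isPrime (aevalAeval (R := k0) x y)).exists_mem_prime_of_ne_bot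
    fun e => h0 (Ideal.mem_bot.1 (e ▸ (RingHom.mem_ker.2 h)))
  rw [RingHom.mem_ker] at h1
  have h3 : ∀ p : k0[X], aevalAeval x y (C p) = 0 → p = 0 := fun p hp =>
    transcendental_iff.1 hx p (by rwa [aevalAeval_C] at hp)
  have hd : G.natDegree ≠ 0 := fun e => by
    rw [eq_C_of_natDegree_eq_zero e] at h1 h2
    exact h2.ne_zero (by rw [h3 _ h1, C_0])
  refine ⟨G, h2.irreducible, hd, fun f => ⟨fun hf => ?_, ?_⟩⟩
  · by_contra hn
    obtain ⟨R, A, B, hR, e⟩ := rcurvealg_res h2.irreducible hd hn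
    exact hR (h3 R (by rw [← e, map_add, map_mul, map_mul, h1, hf, mul_zero, mul_zero, add_zero]))
  · rintro ⟨g, rfl⟩
    rw [map_mul, h1, zero_mul]

theorem rcurvealg_swap (G : k0[X][X]) (i j : ℕ) :
    ((Bivariate.swap G).coeff i).coeff j = (G.coeff j).coeff i := by
  induction G using Polynomial.induction_on' with
  | add p q hp hq => simp only [map_add, coeff_add, hp, hq]
  | monomial n p =>
    rw [Bivariate.swap_monomial, coeff_mul_C, coeff_map, coeff_C_mul, coeff_X_pow, coeff_monomial]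
    split_ifs <;> simp_all

theorem rcurvealg_deg (G : k0[X][X]) (j : ℕ) :
    (G.coeff j).natDegree ≤ (Bivariate.swap G).natDegree :=
  natDegree_le_iff_coeff_eq_zero.2 fun i hi => by
    rw [← rcurvealg_swap, coeff_eq_zero_of_natDegree_lt hi, coeff_zero]

/-- Powers of `Y` as quotients of small degree. -/
theorem exists_quot_pow {G : k0[X][X]} (hd : G.natDegree ≠ 0) (n M : ℕ)
    (h : (Bivariate.swap G).natDegree * n < (M + 1) * G.natDegree) :
    ∃ A B : k0[X][X], B ≠ 0 ∧ A.natDegree < G.natDegree ∧ B.natDegree < G.natDegree ∧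
      (∀ i, (A.coeff i).natDegree ≤ M) ∧ (∀ i, (B.coeff i).natDegree ≤ M) ∧
      G ∣ A - B * X ^ n := by
  classical
  set d := G.natDegree with hdd
  set e := (Bivariate.swap G).natDegree with he
  let T : ∀ p q : ℕ, (Fin p → Fin q → k0) →ₗ[k0] k0[X][X] := fun p q =>
    (ofFn p).restrictScalars k0 ∘ₗ (ofFn q).compLeft (Fin p)
  have hT : ∀ p q v, T p q v = ofFn p fun i => ofFn q (v i) := fun _ _ _ => rfl
  have h1 : ∀ p q v, (T p q v).degree < p := fun p q v => ofFn_degree_lt _
  have h2 : ∀ p q v i, ((T p q v).coeff i).degree < q := fun p q v i => by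
    rw [hT]
    rcases lt_or_ge i p with hi | hi
    · rw [ofFn_coeff_eq_val_of_lt _ hi]
      exact ofFn_degree_lt _
    · rw [ofFn_coeff_eq_zero_of_ge _ hi, degree_zero]
      exact WithBot.bot_lt_coe _
  have h3 : ∀ p q v, T p q v = 0 → v = 0 := fun p q v hv =>
    funext fun i => injective_ofFn q ((congrFun (injective_ofFn p (hv.trans (map_zero _).symm))
      i).trans (map_zero _).symm)
  let S : k0[X][X] →ₗ[k0] Fin (n + d) → Fin (M + 1) → k0 :=
    (toFn (M + 1)).compLeft _ ∘ₗ (toFn (n + d)).restrictScalars k0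
  let Φ := (T d (M + 1)).coprod ((LinearMap.mulRight k0 (-X ^ n) ∘ₗ T d (M + 1)).coprod
    (LinearMap.mulLeft k0 (-G) ∘ₗ T n (M + 1 - e)))
  obtain ⟨⟨u, v, w⟩, h4, h5⟩ := Submodule.exists_mem_ne_zero_of_ne_bot
    (LinearMap.ker_ne_bot_of_finrank_lt (f := S ∘ₗ Φ) (by
      simp only [Module.finrank_prod, Module.finrank_pi_fintype, Module.finrank_self,
        Finset.sum_const, Finset.card_univ, Fintype.card_fin, smul_eq_mul, mul_one]
      have : n * (M + 1) ≤ n * (M + 1 - e) + n * e := by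
        rw [← mul_add]
        exact Nat.mul_le_mul_left _ le_tsub_add
      nlinarith))
  have h6 := h1 d (M + 1) u
  have h7 := h1 d (M + 1) v
  have h8 := h1 n (M + 1 - e) w
  have h6' := h2 d (M + 1) u
  have h7' := h2 d (M + 1) v
  have h8' := h2 n (M + 1 - e) w
  have hΦ : Φ (u, v, w) = T d (M + 1) u - T d (M + 1) v * X ^ n - G * T n (M + 1 - e) w := by
    simp only [Φ, LinearMap.coprod_apply, LinearMap.comp_apply, LinearMap.mulRight_apply,
      LinearMap.mulLeft_apply]
    ring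
  have h9 : T d (M + 1) u - T d (M + 1) v * X ^ n - G * T n (M + 1 - e) w = 0 := by
    rw [LinearMap.mem_ker, LinearMap.comp_apply, hΦ] at h4
    generalize T d (M + 1) u = A at *
    generalize T d (M + 1) v = B at *
    generalize T n (M + 1 - e) w = D at *
    rw [degree_lt_iff_coeff_zero] at h6 h7 h8
    simp only [degree_lt_iff_coeff_zero] at h6' h7' h8'
    ext i j
    rcases lt_or_ge i (n + d) with hi | hi
    · rcases lt_or_ge j (M + 1) with hj | hj
      · exact congrFun (congrFun h4 ⟨i, hi⟩) ⟨j, hj⟩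
      rw [coeff_sub, coeff_sub, coeff_sub, coeff_sub, h6' i j hj, coeff_mul_X_pow', coeff_mul,
        finsetSum_coeff, Finset.sum_eq_zero fun s _ => ?_]
      · split_ifs <;> simp [h7' _ j hj]
      rw [coeff_mul]
      refine Finset.sum_eq_zero fun t ht => ?_
      have ht := Finset.HasAntidiagonal.mem_antidiagonal.1 ht
      rcases le_or_gt t.1 e with h' | h'
      · rw [h8' _ _ (by omega), mul_zero]
      · rw [coeff_eq_zero_of_natDegree_lt ((rcurvealg_deg G _).trans_lt h'), zero_mul]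
    rw [coeff_sub (A - _), coeff_sub A, h6 i (by omega), coeff_mul_X_pow', if_pos (by omega),
      h7 _ (by omega), coeff_mul, Finset.sum_eq_zero fun s hs => ?_]
    · simp
    have hs := Finset.HasAntidiagonal.mem_antidiagonal.1 hs
    rcases le_or_gt s.1 d with h' | h'
    · rw [h8 _ (by omega), mul_zero]
    · rw [coeff_eq_zero_of_natDegree_lt h', zero_mul]
  have h10 : ∀ {p : k0[X][X]}, p.degree < d → p.natDegree < d := fun {p} hp => by
    rcases eq_or_ne p 0 with h | h
    · rw [h, natDegree_zero]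
      omega
    · exact (natDegree_lt_iff_degree_lt h).2 hp
  have h11 : ∀ {p : k0[X]}, p.degree < (M + 1 : ℕ) → p.natDegree ≤ M := fun hp =>
    natDegree_le_iff_coeff_eq_zero.2 fun j hj => (degree_lt_iff_coeff_zero _ _).1 hp j hj
  refine ⟨_, _, fun h0 => h5 ?_, h10 h6, h10 h7, fun i => h11 (h6' i), fun i => h11 (h7' i),
    _, sub_eq_zero.1 h9⟩
  rw [h0, zero_mul, sub_zero, sub_eq_zero] at h9
  have h12 := eq_zero_of_dvd_of_natDegree_lt ⟨_, h9⟩ (h10 h6)
  have h13 := (mul_eq_zero.1 (h9.symm.trans h12)).resolve_left fun h => hd (by rw [hdd, h]; rfl)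
  rw [h3 _ _ _ h0, h3 _ _ _ h12, h3 _ _ _ h13]
  rfl

/-- Separability in `Y` gives squarefree fibres. -/
theorem exists_disc {G : k0[X][X]} (hG : Irreducible G) (hd : derivative G ≠ 0) :
    ∃ (R : k0[X]) (A B : k0[X][X]), R ≠ 0 ∧ A * G + B * derivative G = C R := by
  have h0 : G.natDegree ≠ 0 := fun h => hd (derivative_of_natDegree_zero h)
  exact rcurvealg_res hG h0 fun h =>
    hd (eq_zero_of_dvd_of_natDegree_lt h (natDegree_derivative_lt h0))

section aux
variable {L : Type} [Field L] [Algebra k0 L] {a c : k0} {G H : k0[X][X]} {m : ℕ}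

theorem rcurvealg_ev (x y : L) (G : k0[X][X]) :
    aevalAeval x y G = G.eval₂ (aeval x : k0[X] →ₐ[k0] L).toRingHom y := by
  induction G using Polynomial.induction_on' with
  | add p q hp hq => rw [map_add, eval₂_add, hp, hq]
  | monomial n p => simp [← C_mul_X_pow_eq_monomial]

theorem rcurvealg_spec (u : k0) (v : L) (G : k0[X][X]) :
    aeval v (G.map (evalRingHom u)) = aevalAeval (algebraMap k0 L u) v G := by
  rw [rcurvealg_ev, aeval_def, eval₂_map]
  congr 1
  ext <;> simp

theorem rcurvealg_refl (x y : L) (G : k0[X][X]) :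
    aevalAeval x y (G.map (aeval (-X) : k0[X] →ₐ[k0] k0[X]).toRingHom) = aevalAeval (-x) y G := by
  rw [rcurvealg_ev, rcurvealg_ev, eval₂_map]
  congr 1
  ext <;> simp

theorem rcurvealg_sum {p q : L} (hq : q ≠ 0) (u : ℕ → L) (n : ℕ) :
    ∑ j ∈ Finset.range (n + 1), u j * p ^ j * q ^ (n - j) =
      q ^ n * ∑ j ∈ Finset.range (n + 1), u j * (p / q) ^ j := by
  rw [Finset.mul_sum]
  refine Finset.sum_congr rfl fun j hj => ?_
  rw [pow_sub₀ _ hq (Finset.mem_range_succ_iff.1 hj), div_pow]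
  ring

theorem rcurvealg_sum_deg {R : Type} [CommRing R] {P Q : R[X]} {e : ℕ} (hP : P.natDegree ≤ e)
    (hQ : Q.natDegree ≤ e) (u : ℕ → R) (n : ℕ) :
    (∑ j ∈ Finset.range (n + 1), C (u j) * P ^ j * Q ^ (n - j)).natDegree ≤ e * n := by
  refine natDegree_sum_le_of_forall_le _ _ fun j hj => natDegree_mul_le.trans
    ((add_le_add ((natDegree_C_mul_le _ _).trans (natDegree_pow_le_of_le j hP))
      (natDegree_pow_le_of_le _ hQ)).trans_eq ?_)
  rw [← add_mul, Nat.add_sub_cancel' (Finset.mem_range_succ_iff.1 hj), mul_comm]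

theorem rcurvealg_pull1 {P Q : k0[X]} {e : ℕ} (hP : P.natDegree ≤ e) (hQ : Q.natDegree ≤ e)
    {g : k0[X]} {n : ℕ} (hg : g.natDegree ≤ n) : ∃ F : k0[X], F.natDegree ≤ e * n ∧
      ∀ (L : Type) [Field L] [Algebra k0 L] (v : L), aeval v Q ≠ 0 →
        aeval v F = aeval v Q ^ n * aeval (aeval v P / aeval v Q) g := by
  refine ⟨_, rcurvealg_sum_deg hP hQ g.coeff n, fun L _ _ v hv => ?_⟩
  rw [aeval_def (_ / _), eval₂_eq_sum_range' _ (Nat.lt_succ_of_le hg), ← rcurvealg_sum hv]
  simp

theorem rcurvealg_pull2 {P Q : k0[X]} {e : ℕ} (hP : P.natDegree ≤ e) (hQ : Q.natDegree ≤ e)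
    {n : ℕ} (hG : G.natDegree ≤ n) : ∃ (F : k0[X][X]) (m : ℕ), F.natDegree ≤ e * n ∧
      ∀ (L : Type) [Field L] [Algebra k0 L] (u v : L), aeval u Q ≠ 0 → aeval v Q ≠ 0 →
        aevalAeval u v F = aeval u Q ^ m * aeval v Q ^ n *
          aevalAeval (aeval u P / aeval u Q) (aeval v P / aeval v Q) G := by
  choose F _ hF using fun j => rcurvealg_pull1 hP hQ (rcurvealg_deg G j)
  refine ⟨_, (Bivariate.swap G).natDegree, rcurvealg_sum_deg (P := P.map C) (Q := Q.map C)
    (natDegree_map_le.trans hP) (natDegree_map_le.trans hQ) F n, fun L _ _ u v hu hv => ?_⟩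
  have h1 : ∀ p : k0[X], aevalAeval u v (p.map C) = aeval v p := fun p => by
    rw [← Bivariate.swap_C, Bivariate.aevalAeval_swap, aevalAeval_C]
  rw [rcurvealg_ev _ _ G, eval₂_eq_sum_range' _ (Nat.lt_succ_of_le hG), mul_assoc,
    ← rcurvealg_sum hv, Finset.mul_sum, map_sum]
  refine Finset.sum_congr rfl fun j _ => ?_
  rw [map_mul, map_mul, map_pow, map_pow, h1, h1, aevalAeval_C, hF j L u hu]
  simp only [mul_assoc]
  rfl

theorem rcurvealg_even (u v : L) (G : k0[X][X]) :
    aevalAeval u v G + aevalAeval u (-v) G = 2 * aevalAeval u (v ^ 2) (contract 2 G) := by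
  have h : G + G.comp (C (-1) * X) = 2 * (contract 2 G).comp (X ^ 2) := by
    refine Polynomial.ext fun n => ?_
    rw [← expand_eq_comp_X_pow, two_mul, coeff_add, coeff_add, comp_C_mul_X_coeff,
      coeff_expand two_pos, coeff_contract two_ne_zero]
    split_ifs with h
    · rw [Nat.div_mul_cancel h, (even_iff_two_dvd.2 h).neg_one_pow, mul_one]
    · rw [(Nat.not_even_iff_odd.1 (mt even_iff_two_dvd.1 h)).neg_one_pow]
      simp
  have := congrArg (eval₂ (aeval u : k0[X] →ₐ[k0] L).toRingHom v) h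
  simp only [rcurvealg_ev]
  rw [eval₂_add, eval₂_mul, eval₂_comp, eval₂_comp] at this
  simpa using this

theorem rcurvealg_even2 (G : k0[X][X]) : ∃ E : k0[X][X], E.natDegree ≤ G.natDegree / 2 ∧
    ∀ (L : Type) [Field L] [Algebra k0 L] (u v : L), 4 * aevalAeval (u ^ 2) (v ^ 2) E =
      aevalAeval u v G + aevalAeval u (-v) G + (aevalAeval (-u) v G + aevalAeval (-u) (-v) G) := by
  refine ⟨Bivariate.swap (contract 2 (Bivariate.swap (contract 2 G))),
    natDegree_le_iff_coeff_eq_zero.2 fun j hj => ?_, fun L _ _ u v => ?_⟩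
  · ext i
    rw [rcurvealg_swap, coeff_contract two_ne_zero, rcurvealg_swap, coeff_contract two_ne_zero,
      coeff_eq_zero_of_natDegree_lt (p := G) (by omega)]
    rfl
  · rw [rcurvealg_even, rcurvealg_even, Bivariate.aevalAeval_swap, ← mul_add,
      ← Bivariate.aevalAeval_swap _ u, ← Bivariate.aevalAeval_swap _ (-u), rcurvealg_even]
    ring

/-- `G * H` is the pull-back of `G`. -/
def rcurvealg_Sp (a c : k0) (G H : k0[X][X]) (m : ℕ) : Prop :=
  ∀ (L : Type) [Field L] [Algebra k0 L] (u v : L), algebraMap k0 L c * u ^ 2 + 1 ≠ 0 →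
    algebraMap k0 L c * v ^ 2 + 1 ≠ 0 → aevalAeval u v (G * H) =
      (algebraMap k0 L c * u ^ 2 + 1) ^ m * (algebraMap k0 L c * v ^ 2 + 1) ^ G.natDegree *
        aevalAeval (phi (algebraMap k0 L a) (algebraMap k0 L c) u)
          (phi (algebraMap k0 L a) (algebraMap k0 L c) v) G

theorem rcurvealg_P (a : k0) : (C a * X ^ 2 + 1).natDegree ≤ 2 := by
  compute_degree!

theorem rcurvealg_Sp.ev (h : rcurvealg_Sp a c G H m) {u v : k0} (hu : c * u ^ 2 + 1 ≠ 0)
    (hv : c * v ^ 2 + 1 ≠ 0) : (G * H).evalEval u v = (c * u ^ 2 + 1) ^ m *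
      (c * v ^ 2 + 1) ^ G.natDegree * G.evalEval (phi a c u) (phi a c v) := by
  rw [← coe_aevalAeval_eq_evalEval, ← coe_aevalAeval_eq_evalEval]
  exact h k0 u v hu hv

theorem rcurvealg_Sp.step (h : rcurvealg_Sp a c G H m) {u v : k0} (hu : c * u ^ 2 + 1 ≠ 0)
    (hv : c * v ^ 2 + 1 ≠ 0) (h0 : G.evalEval u v = 0) :
    G.evalEval (phi a c u) (phi a c v) = 0 := by
  have := h.ev hu hv
  rw [evalEval_mul, h0, zero_mul] at this
  exact (mul_eq_zero.1 this.symm).resolve_left (mul_ne_zero (pow_ne_zero _ hu) (pow_ne_zero _ hv))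

theorem rcurvealg_Sp.orb (h : rcurvealg_Sp a c G H m) (hE : HypEq a c) {b b' : Bool} {r r' : ℕ}
    (h0 : G.evalEval (vv a c b r) (vv a c b' r') = 0) (i : ℕ) :
    G.evalEval (vv a c b (r + i)) (vv a c b' (r' + i)) = 0 := by
  induction i with
  | zero => exact h0
  | succ i ih =>
    rw [← add_assoc, ← add_assoc, (hE.vv_succ b _).2.2, (hE.vv_succ b' _).2.2]
    exact h.step (hE.vv_succ b _).2.1 (hE.vv_succ b' _).2.1 ih

theorem rcurvealg_double {K : Type} [Field K] [IsAlgClosed K] {a c : K} (h2 : (2 : K) ≠ 0)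
    (hac : a ≠ c) {S T : Set K} (hT : T.Finite) (h1 : ∀ β ∈ S, β ≠ 1 ∧ c * β ≠ a)
    (h : ∀ v, c * v ^ 2 + 1 ≠ 0 → phi a c v ∈ S → v ∈ T) : 2 * S.ncard ≤ T.ncard := by
  choose s hs using fun β : K => IsAlgClosed.exists_pow_nat_eq ((1 - β) / (c * β - a)) two_pos
  have h3 : ∀ β ∈ S, ∀ v, v ^ 2 = s β ^ 2 → phi a c v = β ∧ v ∈ T := fun β hβ v hv => by
    have h3 := sub_ne_zero.2 (h1 β hβ).2
    have h4 : v ^ 2 * (c * β - a) = 1 - β := by rw [hv, hs, div_mul_cancel₀ _ h3]
    have h5 : c * v ^ 2 + 1 ≠ 0 := fun e => hac (by linear_combination c * h4 - (c * β - a) * e)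
    have h6 : phi a c v = β := by
      rw [phi, div_eq_iff h5]
      linear_combination -h4
    exact ⟨h6, h v h5 (h6.symm ▸ hβ)⟩
  have h4 : ∀ t : K → K, (∀ β, t β ^ 2 = s β ^ 2) → (t '' S).ncard = S.ncard ∧ t '' S ⊆ T :=
    fun t ht => ⟨Set.InjOn.ncard_image fun β hβ γ hγ e => by
      rw [← (h3 β hβ _ (ht β)).1, e, (h3 γ hγ _ (ht γ)).1],
      Set.image_subset_iff.2 fun β hβ => (h3 β hβ _ (ht β)).2⟩
  obtain ⟨h5, h6⟩ := h4 s fun _ => rfl
  obtain ⟨h7, h8⟩ := h4 (fun β => -s β) fun _ => neg_sq _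
  refine le_trans (Eq.le ?_) (Set.ncard_le_ncard (Set.union_subset h6 h8) hT)
  rw [Set.ncard_union_eq ?_ (hT.subset h6) (hT.subset h8), h5, h7, two_mul]
  refine Set.disjoint_left.2 ?_
  rintro _ ⟨β, hβ, rfl⟩ ⟨γ, hγ, e⟩
  obtain rfl : γ = β := by rw [← (h3 γ hγ _ (neg_sq _)).1, show -s γ = s β from e, (h3 β hβ _ rfl).1]
  have h9 : s γ = 0 := (mul_eq_zero.1 (show 2 * s γ = 0 by linear_combination -e)).resolve_left h2
  have h10 := hs γ
  rw [h9, zero_pow two_ne_zero, eq_comm, div_eq_zero_iff, sub_eq_zero, sub_eq_zero] at h10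
  exact h10.elim (h1 γ hγ).1.symm (h1 γ hγ).2

theorem rcurvealg_c (hE : HypEq a c) : c ≠ 0 := by
  simpa [orb, crit, Phi] using (hE.orb_ne true 0).2

theorem rcurvealg_Sp.cnt (h : rcurvealg_Sp a c G H m) (hE : HypEq a c) (K : Type) [Field K]
    [Algebra k0 K] [IsAlgClosed K] {u : k0} (hu : c * u ^ 2 + 1 ≠ 0)
    (h1 : G.evalEval (phi a c u) 1 ≠ 0) : (G * H).map (evalRingHom u) ≠ 0 ∧
      2 * ((G.map (evalRingHom (phi a c u))).rootSet K \ {algebraMap k0 K (a / c)}).ncard ≤
        (((G * H).map (evalRingHom u)).rootSet K).ncard := by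
  have h2 : (G * H).map (evalRingHom u) ≠ 0 := fun e => by
    have := h.ev hu (v := 0) (by simp)
    rw [← map_evalRingHom_eval, e, eval_zero] at this
    simp [hu, phi] at this
    exact h1 this
  have hi := (algebraMap k0 K).injective
  refine ⟨h2, rcurvealg_double (a := algebraMap k0 K a) (c := algebraMap k0 K c)
    (by simpa only [map_ofNat] using (_root_.map_ne_zero (algebraMap k0 K)).2 hE.two)
    (hi.ne hE.ne) (rootSet_finite _ _) (fun β hβ => ⟨?_, fun e => hβ.2 ?_⟩) fun v hv hv' => ?_⟩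
  · rintro rfl
    have := (mem_rootSet.1 hβ.1).2
    rw [← map_one (algebraMap k0 K), aeval_algebraMap_apply, map_eq_zero, coe_aeval_eq_eval,
      map_evalRingHom_eval] at this
    exact h1 this
  · rw [Set.mem_singleton_iff, map_div₀, ← e,
      mul_div_cancel_left₀ _ ((_root_.map_ne_zero _).2 (rcurvealg_c hE))]
  · refine mem_rootSet.2 ⟨h2, ?_⟩
    have h3 := (mem_rootSet.1 hv'.1).2
    rw [rcurvealg_spec] at h3 ⊢
    rw [h K _ v (by simpa using (_root_.map_ne_zero (algebraMap k0 K)).2 hu) hv]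
    refine mul_eq_zero_of_right _ (Eq.trans ?_ h3)
    simp [phi]

variable (hE : HypEq a c) (hG : Irreducible G) (hd : G.natDegree ≠ 0) {x y : L}
  (hx : algebraMap k0 L c * x ^ 2 + 1 ≠ 0) (hy : algebraMap k0 L c * y ^ 2 + 1 ≠ 0)
  (h0 : ∀ f, aevalAeval x y f = 0 ↔ G ∣ f)
  (h1 : ∀ f, aevalAeval (phi (algebraMap k0 L a) (algebraMap k0 L c) x)
    (phi (algebraMap k0 L a) (algebraMap k0 L c) y) f = 0 ↔ G ∣ f) (hxy : x ≠ y)

include hx hy h0 h1 in
theorem rcurvealg_phi : ∃ (H : k0[X][X]) (m : ℕ), (G * H).natDegree ≤ 2 * G.natDegree ∧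
    rcurvealg_Sp a c G H m := by
  obtain ⟨F, m, h2, h3⟩ := rcurvealg_pull2 (rcurvealg_P a) (rcurvealg_P c) (le_refl G.natDegree)
  simp only [map_add, map_mul, map_pow, map_one, aeval_C, aeval_X] at h3
  obtain ⟨H, rfl⟩ := (h0 F).1 ((h3 L x y hx hy).trans
    (mul_eq_zero_of_right _ ((h1 G).2 dvd_rfl)))
  exact ⟨H, m, h2, h3⟩

include hE hG hd h0 hxy in
theorem rcurvealg_Sp.diag (h : rcurvealg_Sp a c G H m) :
    G.evalEval 1 1 ≠ 0 ∧ G.evalEval 0 0 ≠ 0 := by
  have h2 : G.evalEval 1 1 ≠ 0 := fun h2 => by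
    have h3 := dvd_of_common_points (G' := X - C X) hG hd
      (Set.range fun i => (vv a c false (0 + i), vv a c false (0 + i))) (by
        rw [← Set.range_comp]
        exact Set.infinite_range_of_injective fun i j e => by simpa using (hE.vv_inj e).2) (by
        rintro _ ⟨i, rfl⟩
        exact ⟨h.orb hE (by rwa [vv_zero_false]) i, by simp [evalEval_C]⟩)
    have h4 := (h0 _).2 h3
    rw [map_sub, aevalAeval_X, aevalAeval_Y, sub_eq_zero] at h4
    exact hxy h4.symm
  exact ⟨h2, fun h3 => h2 (by simpa [phi] using h.step (by simp) (by simp) h3)⟩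

include hE hG hd hx hy h0 h1 hxy in
theorem rcurvealg_both (hm : aevalAeval (-x) y G = 0) (hm' : aevalAeval x (-y) G = 0) :
    False := by
  obtain ⟨H, m, -, h⟩ := rcurvealg_phi hx hy h0 h1
  obtain ⟨K, hK⟩ := (h0 _).1 ((rcurvealg_refl x y G).trans hm)
  have h2 : aevalAeval (-x) (-y) G = 0 := by
    rw [← rcurvealg_refl, hK, map_mul, hm', zero_mul]
  obtain ⟨E, h3, h4⟩ := rcurvealg_even2 G
  obtain ⟨F, n, h5, h6⟩ := rcurvealg_pull2 (P := 1 - X) (Q := C c * X - C a) (e := 1)
    (by compute_degree!) (by compute_degree!) h3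
  simp only [map_sub, map_mul, map_one, aeval_C, aeval_X] at h6
  have h7 : (4 : k0) ≠ 0 := by
    simpa only [show (2 : k0) * 2 = 4 by norm_num] using mul_ne_zero hE.two hE.two
  have h8 : ∀ z : L, algebraMap k0 L c * z ^ 2 + 1 ≠ 0 →
      algebraMap k0 L c * phi (algebraMap k0 L a) (algebraMap k0 L c) z - algebraMap k0 L a ≠ 0 ∧
      (1 - phi (algebraMap k0 L a) (algebraMap k0 L c) z) / (algebraMap k0 L c *
        phi (algebraMap k0 L a) (algebraMap k0 L c) z - algebraMap k0 L a) = z ^ 2 := by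
    have h8 := sub_ne_zero.2 ((algebraMap k0 L).injective.ne hE.ne.symm)
    generalize algebraMap k0 L a = A at *
    generalize algebraMap k0 L c = B at *
    intro z hz
    have h9 : phi A B z * (B * z ^ 2 + 1) = A * z ^ 2 + 1 := div_mul_cancel₀ _ hz
    have h10 : B * phi A B z - A ≠ 0 := fun e =>
      h8 (by linear_combination (B * z ^ 2 + 1) * e - B * h9)
    exact ⟨h10, (div_eq_iff h10).2 (by linear_combination -h9)⟩
  have h9 := h4 L x y
  rw [(h0 G).2 dvd_rfl, hm, hm', h2, add_zero, add_zero, mul_eq_zero] at h9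
  have h10 := h6 L _ _ (h8 x hx).1 (h8 y hy).1
  rw [(h8 x hx).2, (h8 y hy).2, h9.resolve_left
    (by simpa only [map_ofNat] using (_root_.map_ne_zero (algebraMap k0 L)).2 h7), mul_zero] at h10
  obtain rfl := eq_zero_of_dvd_of_natDegree_lt ((h1 F).1 h10) (by omega)
  have h11 : c * 1 - a ≠ 0 := by simpa [sub_eq_zero] using hE.ne.symm
  have h12 := h6 k0 1 1 h11 h11
  have h13 := h4 k0 0 0
  rw [map_zero, sub_self, zero_div, eq_comm, mul_eq_zero] at h12
  rw [zero_pow two_ne_zero, neg_zero, h12.resolve_left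
    (mul_ne_zero (pow_ne_zero _ h11) (pow_ne_zero _ h11)), coe_aevalAeval_eq_evalEval] at h13
  exact mul_ne_zero h7 (h.diag hE hG hd h0 hxy).2 (by linear_combination -h13)

include hE hx hy h0 h1 in
theorem rcurvealg_one (hd : G.natDegree = 1) (hdd : (Bivariate.swap G).natDegree = 1)
    (h2 : (G.map (evalRingHom 0)).natDegree = 0) (h3 : G.evalEval 0 0 ≠ 0)
    (h4 : G.evalEval 1 (a / c) = 0) : c = a ^ 3 := by
  have hc := rcurvealg_c hE
  have e1 := eq_X_add_C_of_natDegree_le_one ((rcurvealg_deg G 1).trans hdd.le)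
  have e0 := eq_X_add_C_of_natDegree_le_one ((rcurvealg_deg G 0).trans hdd.le)
  have e := eq_X_add_C_of_natDegree_le_one hd.le
  have h5 : (G.coeff 1).coeff 0 = 0 := by
    rw [coeff_zero_eq_eval_zero, ← coe_evalRingHom, ← coeff_map,
      coeff_eq_zero_of_natDegree_lt (by omega)]
  rw [e1, e0, h5] at e
  generalize (G.coeff 1).coeff 1 = p at e
  generalize (G.coeff 0).coeff 1 = q at e
  generalize (G.coeff 0).coeff 0 = r at e
  have h6 : ∀ (L : Type) [Field L] [Algebra k0 L] (u v : L), aevalAeval u v G =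
      algebraMap k0 L p * u * v + (algebraMap k0 L q * u + algebraMap k0 L r) := by
    intro L _ _ u v
    rw [e]
    simp
  have hp : p ≠ 0 := by
    rintro rfl
    rw [e] at hd
    simp only [map_zero, zero_mul, add_zero, zero_add, natDegree_C] at hd
    omega
  rw [← coe_aevalAeval_eq_evalEval, h6] at h3 h4
  have hr : r ≠ 0 := by simpa using h3
  have h7 : p * a + c * (q + r) = 0 := by
    simp only [Algebra.algebraMap_self_apply] at h4
    field_simp at h4
    linear_combination h4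
  have h8 := (h0 G).2 dvd_rfl
  have h9 := (h1 G).2 dvd_rfl
  rw [h6] at h8 h9
  have h10 : C p * (C a * X ^ 2 + 1) * (C a * (C q * X + C r) ^ 2 + C p ^ 2 * X ^ 2) +
      (C q * (C a * X ^ 2 + 1) + C r * (C c * X ^ 2 + 1)) *
        (C c * (C q * X + C r) ^ 2 + C p ^ 2 * X ^ 2) = 0 := by
    refine C_eq_zero.1 (eq_zero_of_dvd_of_natDegree_lt ((h0 _).1 ?_) (by rw [natDegree_C]; omega))
    simp only [aevalAeval_C, map_add, map_mul, map_pow, map_one, aeval_C, aeval_X]
    rw [← neg_eq_of_add_eq_zero_right h8]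
    generalize algebraMap k0 L a = A at *
    generalize algebraMap k0 L c = B at *
    have hU : phi A B x * (B * x ^ 2 + 1) = A * x ^ 2 + 1 := div_mul_cancel₀ _ hx
    have hW : phi A B y * (B * y ^ 2 + 1) = A * y ^ 2 + 1 := div_mul_cancel₀ _ hy
    linear_combination (algebraMap k0 L p * x) ^ 2 * ((B * x ^ 2 + 1) * (B * y ^ 2 + 1) * h9 -
      (algebraMap k0 L p * (A * y ^ 2 + 1) + algebraMap k0 L q * (B * y ^ 2 + 1)) * hU -
      algebraMap k0 L p * phi A B x * (B * x ^ 2 + 1) * hW)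
  have h11 := congrArg (eval 1) h10
  have h12 := congrArg (eval (-1)) h10
  simp only [eval_add, eval_mul, eval_pow, eval_C, eval_X, eval_one, eval_zero] at h11 h12
  have hac := sub_ne_zero.2 hE.ne
  obtain rfl : q = 0 := by
    have : 2 * 2 * r ^ 2 * c * (a - c) * q = 0 := by
      linear_combination h12 - h11 + 4 * q * r * (a + 1) * h7
    simpa [hE.two, hr, hc, hac] using this
  have : p ^ 3 * (a - c) * (a ^ 3 - c) = 0 := by
    linear_combination c ^ 2 * h11 - (p * (a + 1) * a * (c * r - p * a) +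
      (c + 1) * ((c * r) ^ 2 - c * r * p * a + (p * a) ^ 2 + c * p ^ 2)) * h7
  exact (sub_eq_zero.1 ((mul_eq_zero.1 this).resolve_left
    (mul_ne_zero (pow_ne_zero _ hp) hac))).symm

theorem rcurvealg_main (hE : HypEq a c)
    (h3 : Std3 a c) (hG : Irreducible G) (hd : G.natDegree ≠ 0)
    (hdd : (Bivariate.swap G).natDegree = G.natDegree) (hY : derivative G ≠ 0) {x y : L}
    (hx : algebraMap k0 L c * x ^ 2 + 1 ≠ 0) (hy : algebraMap k0 L c * y ^ 2 + 1 ≠ 0)
    (h0 : ∀ f, aevalAeval x y f = 0 ↔ G ∣ f)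
    (h1 : ∀ f, aevalAeval (phi (algebraMap k0 L a) (algebraMap k0 L c) x)
      (phi (algebraMap k0 L a) (algebraMap k0 L c) y) f = 0 ↔ G ∣ f)
    (hxy : x ≠ y) (hm : aevalAeval (-x) y G ≠ 0) : c = a ^ 3 := by
  let K := AlgebraicClosure k0
  obtain ⟨H, m, h4, h⟩ := rcurvealg_phi hx hy h0 h1
  obtain ⟨h11, h00⟩ := h.diag hE hG hd h0 hxy
  have hp : phi a c 0 = 1 := by simp [phi]
  obtain ⟨hF, hc⟩ := h.cnt hE K (u := 0) (by simp) (by rwa [hp])
  have hH : H.natDegree ≤ G.natDegree := by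
    rw [natDegree_mul hG.ne_zero fun e => hF (by simp [e])] at h4
    omega
  obtain ⟨R, hR⟩ := h3 G hG hd hdd
  have h5 : ∀ r b, G.evalEval (vv a c false (r + 1)) (vv a c b 0) ≠ 0 := fun r b e => by
    have := hR _ _ _ _ (Or.inl (by omega)) (h.orb hE e R)
    omega
  have h6 : ∀ r, G.natDegree ≤ ((G.map (evalRingHom (vv a c false (r + 1)))).rootSet K).ncard →
      G.natDegree ≤ ((G.map (evalRingHom (vv a c false r))).rootSet K).ncard := fun r hr => by
    obtain ⟨-, h6, h7⟩ := hE.vv_succ false r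
    obtain ⟨h8, h9⟩ := h.cnt hE K h6 (by rw [← h7, ← vv_zero_false (a := a) (c := c)]; exact h5 r _)
    rw [← h7, Set.sdiff_singleton_eq_self fun e => h5 r true (by
      have := (mem_rootSet.1 e).2
      rwa [aeval_algebraMap_apply, map_eq_zero, coe_aeval_eq_eval, map_evalRingHom_eval,
        ← vv_zero_true] at this), Polynomial.map_mul] at h9
    rw [Polynomial.map_mul] at h8
    have h10 := Set.ncard_le_ncard (s := (_ * _ : k0[X]).rootSet K) (t := _ ∪ _) (fun v hv => by
      have := (mem_rootSet.1 hv).2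
      rw [map_mul, mul_eq_zero] at this
      exact this.imp (fun e => mem_rootSet.2 ⟨left_ne_zero_of_mul h8, e⟩)
        fun e => mem_rootSet.2 ⟨right_ne_zero_of_mul h8, e⟩)
      ((rootSet_finite _ _).union (rootSet_finite _ _))
    have h11 := h9.trans (h10.trans ((Set.ncard_union_le _ _).trans (add_le_add le_rfl
      ((ncard_rootSet_le _ K).trans (natDegree_map_le.trans hH)))))
    omega
  obtain ⟨r, hr⟩ : ∃ r, G.natDegree ≤
      ((G.map (evalRingHom (vv a c false r))).rootSet K).ncard := by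
    obtain ⟨D, A, B, hD, e⟩ := exists_disc hG hY
    obtain ⟨r, hr⟩ : ∃ r, (D * G.leadingCoeff).eval (vv a c false r) ≠ 0 := by
      by_contra! hn
      exact mul_ne_zero hD (leadingCoeff_ne_zero.2 hG.ne_zero) (eq_zero_of_infinite_isRoot _
        ((Set.infinite_range_of_injective hE.hypH.vv_inj).mono (Set.range_subset_iff.2 hn)))
    rw [eval_mul, mul_ne_zero_iff] at hr
    have h7 : (G.map (evalRingHom (vv a c false r))).Separable := by
      have := congrArg (Polynomial.map (evalRingHom (vv a c false r))) e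
      rw [Polynomial.map_add, Polynomial.map_mul, Polynomial.map_mul, map_C,
        ← derivative_map] at this
      have h7 := congrArg (C (D.eval (vv a c false r))⁻¹ * ·) this
      simp only [mul_add, ← mul_assoc, ← C_mul, coe_evalRingHom, inv_mul_cancel₀ hr.1, C_1] at h7
      exact ⟨_, _, h7⟩
    refine ⟨r, Eq.ge ?_⟩
    rw [← Nat.card_coe_set_eq, Nat.card_eq_fintype_card,
      card_rootSet_eq_natDegree h7 (IsAlgClosed.splits _),
      natDegree_map_of_leadingCoeff_ne_zero _ hr.2]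
  have h7 : G.natDegree ≤ ((G.map (evalRingHom 1)).rootSet K).ncard := by
    rw [← vv_zero_false (a := a) (c := c)]
    induction r with
    | zero => exact hr
    | succ r ih => exact ih (h6 r hr)
  obtain ⟨D, hD⟩ : G ∣ H.map (aeval (-X) : k0[X] →ₐ[k0] k0[X]).toRingHom := by
    refine (hG.prime.dvd_or_dvd ((h0 _).1 ?_)).resolve_left fun e =>
      hm ((rcurvealg_refl x y G).symm.trans ((h0 _).2 e))
    rw [← Polynomial.map_mul, rcurvealg_refl, h L _ _ (by rwa [neg_sq]) hy]
    exact mul_eq_zero_of_right _ (by simpa only [phi, neg_sq] using (h1 G).2 dvd_rfl)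
  have h8 : H.map (evalRingHom 0) = G.map (evalRingHom 0) * D.map (evalRingHom 0) := by
    rw [← Polynomial.map_mul, ← hD, Polynomial.map_map]
    congr 1
    ext <;> simp
  have h9 : (D.map (evalRingHom 0)).natDegree = 0 := by
    have h9 := (natDegree_map_le (f := (aeval (-X) : k0[X] →ₐ[k0] k0[X]).toRingHom)).trans hH
    rw [hD, natDegree_mul hG.ne_zero fun e => hF (by simp [h8, e])] at h9
    exact Nat.le_zero.1 (natDegree_map_le.trans (by omega))
  have hF' := hF
  rw [Polynomial.map_mul, h8] at hF'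
  have hg := left_ne_zero_of_mul hF'
  have h10 : ((G * H).map (evalRingHom 0)).natDegree = 2 * (G.map (evalRingHom 0)).natDegree := by
    rw [Polynomial.map_mul, h8, natDegree_mul hg (right_ne_zero_of_mul hF'),
      natDegree_mul hg (right_ne_zero_of_mul (right_ne_zero_of_mul hF')), h9]
    ring
  have h12 := hc.trans ((Set.ncard_le_ncard (t := (G.map (evalRingHom 0)).rootSet K) (fun v hv => by
    have := (mem_rootSet.1 hv).2
    rw [Polynomial.map_mul, h8, map_mul, map_mul, mul_eq_zero, mul_eq_zero, ← or_assoc, or_self,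
      eq_C_of_natDegree_eq_zero h9, aeval_C, map_eq_zero (algebraMap k0 K)] at this
    refine mem_rootSet.2 ⟨hg, this.resolve_right fun e => hF' ?_⟩
    rw [eq_C_of_natDegree_eq_zero h9, e, C_0, mul_zero, mul_zero]) (rootSet_finite _ _)).trans
    (ncard_rootSet_le _ K))
  have h13 : (G.map (evalRingHom 0)).natDegree ≤ G.natDegree := natDegree_map_le
  rw [hp] at h12
  have h14 : G.evalEval 1 (a / c) = 0 := by
    by_contra h14
    rw [Set.sdiff_singleton_eq_self fun e => h14 (by
      have := (mem_rootSet.1 e).2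
      rwa [aeval_algebraMap_apply, map_eq_zero, coe_aeval_eq_eval, map_evalRingHom_eval]
        at this)] at h12
    omega
  obtain ⟨g, e⟩ := dvd_iff_isRoot.2 ((map_evalRingHom_eval _ _ G).trans h14)
  have h15 : g.natDegree ≤ G.natDegree - 1 := by
    have h15 : (G.map (evalRingHom 1)).natDegree ≤ G.natDegree := natDegree_map_le
    rw [e, natDegree_mul (X_sub_C_ne_zero _) fun e' => h11 (by
      rw [← map_evalRingHom_eval, e, e', mul_zero, eval_zero]), natDegree_X_sub_C] at h15
    omega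
  obtain ⟨F, h16, h17⟩ := rcurvealg_pull1 (rcurvealg_P a) (rcurvealg_P c) h15
  have h18 : (G * H).map (evalRingHom 0) = C (1 - a / c) * F := by
    refine eq_of_infinite_eval_eq _ _ ((Set.infinite_range_of_injective hE.hypH.vv_inj).mono
      (Set.range_subset_iff.2 fun i => ?_))
    have h18 := (hE.vv_succ false i).2.1
    generalize vv a c false i = v at h18
    have h19 := h17 k0 v (by simpa using h18)
    simp only [coe_aeval_eq_eval, eval_add, eval_mul, eval_pow, eval_C, eval_X, eval_one] at h19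
    have hq : (c * v ^ 2 + 1) ^ G.natDegree =
        (c * v ^ 2 + 1) ^ (G.natDegree - 1) * (c * v ^ 2 + 1) := by
      rw [← pow_succ, Nat.sub_add_cancel (by omega)]
    change eval v _ = eval v _
    rw [map_evalRingHom_eval, h.ev (by simp) h18, hp, ← map_evalRingHom_eval, e, eval_mul, eval_mul,
      h19, eval_C, eval_sub, eval_X, eval_C, phi, hq, zero_pow two_ne_zero, mul_zero, zero_add,
      one_pow]
    linear_combination (c * v ^ 2 + 1) ^ (G.natDegree - 1) *
      g.eval ((a * v ^ 2 + 1) / (c * v ^ 2 + 1)) * (div_mul_cancel₀ (a * v ^ 2 + 1) h18 -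
        v ^ 2 * div_mul_cancel₀ a (rcurvealg_c hE))
  have h19 := (natDegree_C_mul_le (1 - a / c) F).trans h16
  have h20 := Set.pred_ncard_le_ncard_sdiff_singleton ((G.map (evalRingHom 1)).rootSet K)
    (algebraMap k0 K (a / c))
  rw [← h18, h10] at h19
  exact rcurvealg_one hE hx hy h0 h1 (by omega) (by omega) (by omega) h00 h14

end aux

/-- An irreducible curve of bidegree `(d, d)` which is invariant, separable in both variables,
different from the diagonal and without shifted critical points. -/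
theorem curve_alg {L : Type} [Field L] [Algebra k0 L] {a c : k0} (hE : HypEq a c)
    (h3 : Std3 a c) {G : k0[X][X]} (hG : Irreducible G) (hd : G.natDegree ≠ 0)
    (hdd : (Bivariate.swap G).natDegree = G.natDegree) (hY : derivative G ≠ 0)
    (hX : derivative (Bivariate.swap G) ≠ 0) {x y : L}
    (hx : algebraMap k0 L c * x ^ 2 + 1 ≠ 0) (hy : algebraMap k0 L c * y ^ 2 + 1 ≠ 0)
    (h0 : ∀ f, aevalAeval x y f = 0 ↔ G ∣ f)
    (h1 : ∀ f, aevalAeval (phi (algebraMap k0 L a) (algebraMap k0 L c) x)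
      (phi (algebraMap k0 L a) (algebraMap k0 L c) y) f = 0 ↔ G ∣ f)
    (hxy : x ≠ y) : c = a ^ 3 := by
  by_cases hm : aevalAeval (-x) y G = 0
  · by_cases hm' : aevalAeval x (-y) G = 0
    · exact (rcurvealg_both hE hG hd hx hy h0 h1 hxy hm hm').elim
    have hs : ∀ {u v : L}, (∀ f, aevalAeval u v f = 0 ↔ G ∣ f) →
        ∀ f, aevalAeval v u f = 0 ↔ Bivariate.swap G ∣ f := fun h f => by
      rw [← Bivariate.aevalAeval_swap, h, ← map_dvd_iff (Bivariate.swap (R := k0)),
        Bivariate.swap_swap_apply]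
    exact rcurvealg_main hE h3 (hG.map (Bivariate.swap (R := k0))) (hdd ▸ hd)
      (by rw [Bivariate.swap_swap_apply, hdd]) hX hy hx (hs h0) (hs h1) hxy.symm
      (by rwa [Bivariate.aevalAeval_swap])
  · exact rcurvealg_main hE h3 hG hd hdd hY hx hy h0 h1 hxy hm

end JR
end

-- merged part: Pool.Agent.Work.MP_969914_nt.RParam
section
/-! Constants, the parameter and the comparison of degrees. -/

set_option autoImplicit false

namespace JR

open scoped IntermediateField
open Polynomial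

theorem rparam_lift {E F Ω : Type} [CommRing E] [CommRing F] [Field Ω] [Algebra E Ω]
    [Algebra F Ω] (h : ∀ e, algebraMap E Ω e ∈ Set.range (algebraMap F Ω)) (P : E[X]) :
    P.map (algebraMap E Ω) ∈ lifts (algebraMap F Ω) := by
  rw [lifts_iff_coeff_lifts]
  intro i
  rw [coeff_map]
  exact h _

theorem rparam_alg {E F Ω : Type} [Field E] [CommRing F] [Field Ω] [Algebra E Ω]
    [Algebra F Ω] (h : ∀ e, algebraMap E Ω e ∈ Set.range (algebraMap F Ω)) {x : Ω}
    (hx : IsAlgebraic E x) : IsAlgebraic F x := by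
  obtain ⟨P, hP0, hP⟩ := hx
  obtain ⟨Q, hQ⟩ := (mem_lifts _).1 (rparam_lift h P)
  refine ⟨Q, ?_, by rw [← eval_map_algebraMap, hQ, eval_map_algebraMap, hP]⟩
  rintro rfl
  exact Polynomial.map_ne_zero hP0 (by rw [← hQ, Polynomial.map_zero])

theorem rparam_int {E F Ω : Type} [CommRing E] [CommRing F] [Field Ω] [Algebra E Ω]
    [Algebra F Ω] (h : ∀ e, algebraMap E Ω e ∈ Set.range (algebraMap F Ω)) {x : Ω}
    (hx : IsIntegral E x) : IsIntegral F x := by
  obtain ⟨P, hP0, hP⟩ := hx
  obtain ⟨Q, hQ, -, hm⟩ := lifts_and_natDegree_eq_and_monic (rparam_lift h P) (hP0.map _)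
  exact ⟨Q, hm, by rw [← eval_map, hQ, eval_map, hP]⟩

theorem rparam_sep {E F Ω : Type} [Field E] [Field F] [Field Ω] [Algebra E Ω]
    [Algebra F Ω] (h : ∀ e, algebraMap E Ω e ∈ Set.range (algebraMap F Ω)) {x : Ω}
    (hx : IsSeparable E x) : IsSeparable F x := by
  obtain ⟨Q, hQ⟩ := (mem_lifts _).1 (rparam_lift h (minpoly E x))
  have h1 : Q.Separable := by
    rw [← separable_map (algebraMap F Ω), hQ]
    exact Separable.map hx
  refine h1.of_dvd (minpoly.dvd _ _ ?_)
  rw [← eval_map_algebraMap, hQ, eval_map_algebraMap, minpoly.aeval]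

theorem exists_consts (K : Type) [Field K] (Fq : Type) [Field Fq] [Finite Fq]
    [Algebra (RatFunc Fq) K] [FunctionField Fq K] (Ω : Type) [Field Ω] [IsAlgClosed Ω]
    [Algebra K Ω] [Algebra.IsAlgebraic K Ω] :
    ∃ (p : ℕ) (k : Subfield Ω) (u : Ω) (G : Finset Ω), p.Prime ∧ ringChar K = p ∧ CharP Ω p ∧
      IsAlgClosed k ∧ (∀ x : k, ∃ n, 0 < n ∧ x ^ p ^ n = x) ∧ (∀ z : Ω, IsAlgebraic k⟮u⟯ z) ∧
      ∀ x : K, algebraMap K Ω x ∈ IntermediateField.adjoin k (G : Set Ω) := by
  classical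
  let _ : Algebra (RatFunc Fq) Ω := ((algebraMap K Ω).comp (algebraMap (RatFunc Fq) K)).toAlgebra
  have : IsScalarTower (RatFunc Fq) K Ω := IsScalarTower.of_algebraMap_eq' rfl
  let _ : Algebra Fq Ω :=
    ((algebraMap (RatFunc Fq) Ω).comp (algebraMap Fq (RatFunc Fq))).toAlgebra
  obtain ⟨p, hchar⟩ := CharP.exists Fq
  have hp : Fact p.Prime := ⟨CharP.char_is_prime Fq p⟩
  have : CharP K p := charP_of_injective_ringHom
    ((algebraMap (RatFunc Fq) K).comp (algebraMap Fq (RatFunc Fq))).injective p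
  have hΩ : CharP Ω p := charP_of_injective_algebraMap (algebraMap K Ω).injective p
  let k : Subfield Ω := (algebraicClosure Fq Ω).toSubfield
  have hk : IsAlgClosed (algebraicClosure Fq Ω) := IsAlgClosure.isAlgClosed Fq
  let u : Ω := algebraMap (RatFunc Fq) Ω RatFunc.X
  have key : ∀ L : IntermediateField k Ω, u ∈ L → ∀ r, algebraMap (RatFunc Fq) Ω r ∈ L := by
    intro L hu r
    have hpol : ∀ q : Fq[X], algebraMap (RatFunc Fq) Ω (algebraMap Fq[X] (RatFunc Fq) q) ∈ L := by
      intro q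
      induction q using Polynomial.induction_on with
      | C a =>
        exact L.algebraMap_mem (⟨algebraMap Fq Ω a, (algebraicClosure Fq Ω).algebraMap_mem a⟩ : k)
      | add a b ha hb =>
        rw [map_add, map_add]
        exact add_mem ha hb
      | monomial n a ha =>
        rw [pow_succ, ← mul_assoc, map_mul, map_mul, RatFunc.algebraMap_X]
        exact mul_mem ha hu
    induction r using RatFunc.induction_on with
    | f a b _ =>
      rw [map_div₀]
      exact div_mem (hpol a) (hpol b)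
  obtain ⟨s, hs⟩ := Module.Finite.fg_top (R := RatFunc Fq) (M := K)
  refine ⟨p, k, u, insert u (s.image (algebraMap K Ω)), hp.out, ringChar.eq K p, hΩ, hk,
    fun x => ?_, fun z => ?_, fun x => ?_⟩
  · have ha : IsAlgebraic Fq (x : Ω) := mem_algebraicClosure_iff.1 x.2
    have : FiniteDimensional Fq Fq⟮(x : Ω)⟯ :=
      IntermediateField.adjoin.finiteDimensional ha.isIntegral
    have : Finite Fq⟮(x : Ω)⟯ := Module.finite_of_finite Fq
    let _ := Fintype.ofFinite Fq⟮(x : Ω)⟯
    have : CharP Fq⟮(x : Ω)⟯ p := charP_of_injective_algebraMap (algebraMap Fq _).injective p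
    obtain ⟨n, -, hn⟩ := FiniteField.card Fq⟮(x : Ω)⟯ p
    have h1 := FiniteField.pow_card
      (⟨x, IntermediateField.mem_adjoin_simple_self Fq (x : Ω)⟩ : Fq⟮(x : Ω)⟯)
    rw [hn] at h1
    have h2 : (x : Ω) ^ p ^ (n : ℕ) = x := congrArg Subtype.val h1
    exact ⟨n, n.2, Subtype.ext h2⟩
  · have : Algebra.IsAlgebraic (RatFunc Fq) Ω := Algebra.IsAlgebraic.trans (RatFunc Fq) K Ω
    exact rparam_alg (E := RatFunc Fq)
      (fun e => ⟨⟨_, key _ (IntermediateField.mem_adjoin_simple_self k u) e⟩, rfl⟩)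
      (this.isAlgebraic z)
  · have hx : x ∈ Submodule.span (RatFunc Fq) (s : Set K) := hs ▸ Submodule.mem_top
    induction hx using Submodule.span_induction with
    | mem y hy =>
      exact IntermediateField.subset_adjoin _ _
        (Finset.mem_coe.2 (Finset.mem_insert_of_mem (Finset.mem_image_of_mem _ hy)))
    | zero => rw [map_zero]; exact zero_mem _
    | add x y _ _ hx hy => rw [map_add]; exact add_mem hx hy
    | smul a x _ hx =>
      rw [Algebra.smul_def, map_mul]
      exact mul_mem (key _ (IntermediateField.subset_adjoin _ _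
        (Finset.mem_coe.2 (Finset.mem_insert_self _ _))) a) hx

theorem rparam_pow {R : Type} [Monoid R] {p n : ℕ} {x : R} (h : x ^ p ^ n = x) (j : ℕ) :
    x ^ p ^ (n * j) = x := by
  induction j with
  | zero => simp
  | succ j ih => rw [Nat.mul_succ, pow_add, pow_mul, ih, h]

/-- A map with an infinite critical orbit is not defined over a finite field. -/
theorem transcendental_of_hypH (p : ℕ) [Fact p.Prime] {k Ω : Type} [Field k] [IsAlgClosed k]
    [CharP k p] [Field Ω] [Algebra k Ω] (hk : ∀ x : k, ∃ n, 0 < n ∧ x ^ p ^ n = x) {a c : Ω}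
    (h : HypH a c) : Transcendental k a ∨ Transcendental k c := by
  by_contra hcon
  have hfix : ∀ z : Ω, ¬ Transcendental k z → ∃ n, 0 < n ∧ z ^ p ^ n = z := by
    intro z hz
    have hz' : IsAlgebraic k z := not_not.1 hz
    obtain ⟨y, rfl⟩ := minpoly.mem_range_of_degree_eq_one k z
      (IsAlgClosed.degree_eq_one_of_irreducible k (minpoly.irreducible hz'.isIntegral))
    obtain ⟨n, hn, hy⟩ := hk y
    exact ⟨n, hn, by rw [← map_pow, hy]⟩
  obtain ⟨n, hn, ha⟩ := hfix a fun h => hcon (Or.inl h)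
  obtain ⟨m, hm, hc⟩ := hfix c fun h => hcon (Or.inr h)
  replace ha := rparam_pow ha m
  replace hc := rparam_pow hc n
  rw [mul_comm] at hc
  have : CharP Ω p := charP_of_injective_algebraMap (algebraMap k Ω).injective p
  have hq : 1 < p ^ (n * m) := Nat.one_lt_pow (Nat.mul_pos hn hm).ne' (Fact.out : p.Prime).one_lt
  have hstep : ∀ e x y : Ω, e ^ p ^ (n * m) = e → x ^ p ^ (n * m) = x → y ^ p ^ (n * m) = y →
      (e * x ^ 2 + y ^ 2) ^ p ^ (n * m) = e * x ^ 2 + y ^ 2 := by
    intro e x y he hx hy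
    rw [add_pow_char_pow, mul_pow, he, pow_right_comm, hx, pow_right_comm, hy]
  have horb : ∀ j, (orb a c false j).1 ^ p ^ (n * m) = (orb a c false j).1 ∧
      (orb a c false j).2 ^ p ^ (n * m) = (orb a c false j).2 := by
    intro j
    induction j with
    | zero => exact ⟨zero_pow (by omega), one_pow _⟩
    | succ j ih =>
      unfold orb at ih ⊢
      rw [Function.iterate_succ_apply']
      exact ⟨hstep _ _ _ ha ih.1 ih.2, hstep _ _ _ hc ih.1 ih.2⟩
  have hfin : Set.Finite {z : Ω | z ^ p ^ (n * m) = z} := by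
    refine (rootSet_finite (X ^ p ^ (n * m) - X : Polynomial Ω) Ω).subset fun z hz => ?_
    rw [mem_rootSet_of_ne (FiniteField.X_pow_card_sub_X_ne_zero Ω hq)]
    simpa [sub_eq_zero] using hz
  obtain ⟨i, j, hij, he⟩ := Set.Finite.exists_lt_map_eq_of_forall_mem (f := orb a c false)
    (fun j => Set.mem_prod.2 (horb j)) (hfin.prod hfin)
  refine hij.ne (h.inj i j ?_)
  rw [he, wedge, mul_comm, sub_self]

theorem rparam_basis {k Ω : Type} [Field k] [Field Ω] [Algebra k Ω]
    (h1 : Algebra.trdeg k Ω ≤ 1) {t : Ω} (ht : Transcendental k t) (z : Ω) :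
    IsAlgebraic k⟮t⟯ z := by
  have hi : AlgebraicIndependent k fun _ : Unit => t := algebraicIndependent_unique_type_iff.2 ht
  have := (hi.isTranscendenceBasis_of_trdeg_le_of_finite (by simpa using h1)).isAlgebraic_field
  rw [Set.range_const] at this
  exact this.isAlgebraic z

theorem rparam_t0 {k Ω : Type} [Field k] [IsAlgClosed k] [Field Ω] [Algebra k Ω]
    (h1 : Algebra.trdeg k Ω ≤ 1) (K0 : IntermediateField k Ω) (hfg : K0.FG) {x : Ω}
    (hx : x ∈ K0) (hxt : Transcendental k x) :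
    ∃ t ∈ K0, Transcendental k t ∧ ∀ z ∈ K0, IsSeparable k⟮t⟯ z := by
  have : Algebra.EssFiniteType k K0 := IntermediateField.essFiniteType_iff.2 hfg
  obtain ⟨b, hb, hsep⟩ := exists_isTranscendenceBasis_and_isSeparable_of_perfectField k K0
  have hc : b.card ≤ 1 := by
    have h2 := hb.1.cardinalMk_le_trdeg.trans
      ((trdeg_le_of_injective K0.val Subtype.val_injective).trans h1)
    rw [Cardinal.mk_coe_finset] at h2
    exact_mod_cast h2
  have hne : b.Nonempty := by
    rw [Finset.nonempty_iff_ne_empty]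
    rintro rfl
    have := hb.isAlgebraic
    have h3 : Algebra.IsAlgebraic k K0 := hb.isEmpty_iff_isAlgebraic.1 inferInstance
    exact hxt (IntermediateField.isAlgebraic_iff.1 (h3.isAlgebraic ⟨x, hx⟩))
  obtain ⟨t, rfl⟩ := Finset.card_eq_one.1 (le_antisymm hc hne.card_pos)
  refine ⟨t, t.2, ?_, fun z hz => ?_⟩
  · have := hb.1.transcendental ⟨t, Finset.mem_singleton_self t⟩
    exact fun h => this (IntermediateField.isAlgebraic_iff.2 h)
  · have h4 := (hsep.isSeparable _ (⟨z, hz⟩ : K0)).map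
      (IsScalarTower.toAlgHom _ K0 Ω) Subtype.val_injective
    refine rparam_sep (fun e => ?_) h4
    have h5 : ((e : K0) : Ω) ∈ k⟮(t : Ω)⟯ := by
      have h6 : ((e : K0) : Ω) ∈ (IntermediateField.adjoin k (({t} : Finset K0) : Set K0)).map
        K0.val := ⟨e, e.2, rfl⟩
      rw [IntermediateField.adjoin_map] at h6
      simpa using h6
    exact ⟨⟨_, h5⟩, rfl⟩

theorem rparam_den {k Ω : Type} [Field k] [Field Ω] [Algebra k Ω] {t : Ω}
    (h : ∀ z : Ω, IsAlgebraic k⟮t⟯ z) (A : Finset Ω) :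
    ∃ g : k[X], g.Monic ∧ ∀ z ∈ A, IsIntegral (Algebra.adjoin k {t}) (aeval t g * z) := by
  have : Algebra.IsAlgebraic (Algebra.adjoin k {t}) Ω :=
    IntermediateField.isAlgebraic_adjoin_iff_top.1 ⟨h⟩
  obtain ⟨y, hy0, hy⟩ := Algebra.IsAlgebraic.exists_integral_multiples (Algebra.adjoin k {t}) A
  obtain ⟨g, hg⟩ := Algebra.adjoin_mem_exists_aeval k t y.2
  have hg0 : g ≠ 0 := by
    rintro rfl
    exact hy0 (Subtype.ext (by rw [← hg, map_zero]; rfl))
  refine ⟨g * C g.leadingCoeff⁻¹, monic_mul_leadingCoeff_inv hg0, fun z hz => ?_⟩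
  have h2 := (isIntegral_algebraMap (R := Algebra.adjoin k {t}) (A := Ω)
    (x := algebraMap k _ g.leadingCoeff⁻¹)).mul (hy z hz)
  rw [Algebra.smul_def, ← IsScalarTower.algebraMap_apply] at h2
  rw [map_mul, aeval_C, hg, mul_comm (y : Ω), mul_assoc]
  exact h2

theorem rparam_sq {k : Type} [Field k] {g : k[X]} (hg : g.Monic) : g ^ 2 - derivative g ≠ 0 := by
  intro h
  have h1 := degree_derivative_lt hg.ne_zero
  rw [← sub_eq_zero.1 h, degree_eq_natDegree hg.ne_zero,
    degree_eq_natDegree (hg.pow 2).ne_zero, hg.natDegree_pow] at h1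
  have : 2 * g.natDegree < g.natDegree := by exact_mod_cast h1
  omega

/-- The equation of `t0` over a ring containing `t`. -/
theorem rparam_eq {k R Ω : Type} [Field k] [CommRing R] [Nontrivial R] [Field Ω] [Algebra k Ω]
    [Algebra k R] [Algebra R Ω] [IsScalarTower k R Ω] {t0 : Ω} (ht : Transcendental k t0)
    {g : k[X]} (hg : g.Monic) (τ : R) (hτ : algebraMap R Ω τ = t0 + (aeval t0 g)⁻¹) :
    ∃ h : R[X], h.Monic ∧ aeval t0 h = 0 ∧ aeval t0 (derivative h) ≠ 0 := by
  have hinj := transcendental_iff_injective.1 ht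
  have h0 : aeval t0 g ≠ 0 := fun h => hg.ne_zero (hinj (by rw [h, map_zero]))
  have h1 : aeval t0 (g ^ 2 - derivative g) ≠ 0 := fun h =>
    rparam_sq hg (hinj (by rw [h, map_zero]))
  have hm : ((X - C τ) * g.map (algebraMap k R)).Monic := (monic_X_sub_C τ).mul (hg.map _)
  refine ⟨(X - C τ) * g.map (algebraMap k R) + 1, hm.add_of_left ?_, ?_, ?_⟩
  · rw [degree_one, degree_eq_natDegree hm.ne_zero,
      (monic_X_sub_C τ).natDegree_mul (hg.map _), natDegree_X_sub_C]
    exact_mod_cast Nat.add_pos_left one_pos _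
  · simp only [map_add, map_mul, map_sub, aeval_X, aeval_C, aeval_map_algebraMap, map_one, hτ]
    field_simp
    ring
  · intro h
    apply h1
    simp only [derivative_mul, derivative_X, derivative_C,
      derivative_one, derivative_map, map_add, map_mul, map_sub, aeval_X, aeval_C,
      aeval_map_algebraMap, map_one, map_zero, hτ] at h
    rw [map_sub, map_pow]
    field_simp at h
    linear_combination h

theorem exists_param {k Ω : Type} [Field k] [IsAlgClosed k] [Field Ω] [Algebra k Ω] {u : Ω}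
    (hu : ∀ z : Ω, IsAlgebraic k⟮u⟯ z) (s A : Finset Ω)
    (hA : ∀ z ∈ A, z ∈ IntermediateField.adjoin k (s : Set Ω)) {x : Ω}
    (hx : x ∈ IntermediateField.adjoin k (s : Set Ω)) (hxt : Transcendental k x) :
    ∃ t : Ω, Transcendental k t ∧ (∀ z : Ω, IsAlgebraic k⟮t⟯ z) ∧
      ∃ h : k⟮t⟯ ≤ IntermediateField.adjoin k (s : Set Ω),
        FiniteDimensional k⟮t⟯ (IntermediateField.extendScalars h) ∧
        (∀ z ∈ IntermediateField.adjoin k (s : Set Ω), IsSeparable k⟮t⟯ z) ∧
        ∀ z ∈ A, IsIntegral (Algebra.adjoin k {t}) z := by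
  have h1 : Algebra.trdeg k Ω ≤ 1 := by
    have : Algebra.IsAlgebraic (Algebra.adjoin k {u}) Ω :=
      IntermediateField.isAlgebraic_adjoin_iff_top.1 ⟨hu⟩
    simpa using Algebra.IsAlgebraic.trdeg_le_cardinalMk k ({u} : Set Ω)
  obtain ⟨t0, ht0, htr, hsep⟩ := rparam_t0 h1 _ ⟨s, rfl⟩ hx hxt
  obtain ⟨g, hg, hint⟩ := rparam_den (rparam_basis h1 htr) A
  set t := t0 + (aeval t0 g)⁻¹ with ht
  have h0 : aeval t0 g ≠ 0 := fun h =>
    hg.ne_zero (transcendental_iff_injective.1 htr (by rw [h, map_zero]))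
  have hi0 : IsIntegral (Algebra.adjoin k {t}) t0 := by
    obtain ⟨h, hm, he, -⟩ := rparam_eq (R := Algebra.adjoin k {t}) htr hg
      ⟨t, Algebra.self_mem_adjoin_singleton k t⟩ rfl
    exact ⟨h, hm, he⟩
  have htt : Transcendental k t := by
    intro ha
    have : Algebra.IsIntegral k (Algebra.adjoin k {t}) :=
      Algebra.IsIntegral.adjoin (by rintro _ rfl; exact ha.isIntegral)
    exact htr (isIntegral_trans t0 hi0).isAlgebraic
  have halg := rparam_basis h1 htt
  have hle : k⟮t⟯ ≤ IntermediateField.adjoin k (s : Set Ω) := by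
    rw [IntermediateField.adjoin_simple_le_iff]
    refine add_mem ht0 (inv_mem ?_)
    exact (Algebra.adjoin_le (S := (IntermediateField.adjoin k (s : Set Ω)).toSubalgebra)
      (Set.singleton_subset_iff.2 ht0)) (aeval_mem_adjoin_singleton k t0)
  have hs0 : IsSeparable k⟮t⟯ t0 := by
    obtain ⟨h, -, he, hd⟩ := rparam_eq (R := k⟮t⟯) htr hg
      ⟨t, IntermediateField.mem_adjoin_simple_self k t⟩ rfl
    obtain ⟨q, rfl⟩ := minpoly.dvd _ _ he
    refine (separable_iff_derivative_ne_zero (minpoly.irreducible (halg t0).isIntegral)).2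
      fun h2 => hd ?_
    rw [derivative_mul, h2, zero_mul, zero_add, map_mul, minpoly.aeval, zero_mul]
  refine ⟨t, htt, halg, hle, ?_, fun z hz => ?_, fun z hz => ?_⟩
  · rw [IntermediateField.extendScalars_adjoin]
    exact IntermediateField.finiteDimensional_adjoin fun z _ => (halg z).isIntegral
  · have := (IntermediateField.isSeparable_adjoin_simple_iff_isSeparable _ _).2 hs0
    refine IsSeparable.of_algebra_isSeparable_of_isSeparable k⟮t⟯ (E := (k⟮t⟯)⟮t0⟯)
      (rparam_sep (fun e => ?_) (hsep z hz))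
    have h3 : k⟮t0⟯ ≤ ((k⟮t⟯)⟮t0⟯).restrictScalars k :=
      IntermediateField.adjoin_simple_le_iff.2 (IntermediateField.mem_adjoin_simple_self _ t0)
    exact ⟨⟨e, h3 e.2⟩, rfl⟩
  · have h3 : Algebra.adjoin k {t0} ≤
        (integralClosure (Algebra.adjoin k {t}) Ω).restrictScalars k :=
      Algebra.adjoin_le (Set.singleton_subset_iff.2 hi0)
    have h4 : IsIntegral (integralClosure (Algebra.adjoin k {t}) Ω) (aeval t0 g * z) :=
      rparam_int (fun e => ⟨⟨e, h3 e.2⟩, rfl⟩) (hint z hz)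
    have h5 : IsIntegral (Algebra.adjoin k {t}) (aeval t0 g * z) := isIntegral_trans _ h4
    have h6 : IsIntegral (Algebra.adjoin k {t}) t := isIntegral_algebraMap
      (x := (⟨t, Algebra.self_mem_adjoin_singleton k t⟩ : Algebra.adjoin k {t}))
    have h7 := (h6.sub hi0).mul h5
    rwa [show t - t0 = (aeval t0 g)⁻¹ from add_sub_cancel_left _ _,
      inv_mul_cancel_left₀ h0] at h7

/-- Comparison of degrees. -/
theorem exists_finrank_le {K Ω T : Type} [Field K] [Field Ω] [Algebra K Ω] [Field T]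
    (K0 : Type) [Field K0] [Algebra K0 T] (ι : T →+* Ω) (F : Subfield Ω)
    (hF : ∀ z, z ∈ F ↔ ∃ y : K0, ι (algebraMap K0 T y) = z) (G : Finset Ω)
    (hG : ∀ z ∈ G, IsAlgebraic F z)
    (hK : ∀ x : K, algebraMap K Ω x ∈ IntermediateField.adjoin F (G : Set Ω)) :
    ∃ m : ℕ, ∀ (S : Set Ω) (S' : Set T), FiniteDimensional K (IntermediateField.adjoin K S) →
      (∀ L : Subfield Ω, F ≤ L → (∀ z ∈ G, z ∈ L) → (∀ z ∈ S, z ∈ L) → ∀ z ∈ S', ι z ∈ L) →
      Module.finrank K0 (IntermediateField.adjoin K0 S') ≤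
        m * Module.finrank K (IntermediateField.adjoin K S) := by
  set E := IntermediateField.adjoin F (G : Set Ω) with hE
  have : FiniteDimensional F E :=
    IntermediateField.finiteDimensional_adjoin fun z hz => (hG z hz).isIntegral
  let _ : Algebra K E := ((algebraMap K Ω).codRestrict E hK).toAlgebra
  have : IsScalarTower K E Ω := IsScalarTower.of_algebraMap_eq fun _ => rfl
  refine ⟨Module.finrank F E, fun S S' hfd hS => ?_⟩
  set M := IntermediateField.adjoin E (IntermediateField.adjoin K S : Set Ω) with hM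
  have h1 : Module.rank E M ≤ Module.rank K (IntermediateField.adjoin K S) :=
    IntermediateField.adjoin_rank_le_of_isAlgebraic_right E _
  have hEM : ∀ z ∈ E, z ∈ M := fun z hz => M.algebraMap_mem ⟨z, hz⟩
  have hFM : ∀ z ∈ F, z ∈ M := fun z hz => hEM z (E.algebraMap_mem ⟨z, hz⟩)
  have h2 := hS M.toSubfield hFM
    (fun z hz => hEM z (IntermediateField.subset_adjoin _ _ hz))
    fun z hz => IntermediateField.subset_adjoin _ _ (IntermediateField.subset_adjoin _ _ hz)
  have h3 : ∀ z : IntermediateField.adjoin K0 S', ι z ∈ M := by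
    rintro ⟨z, hz⟩
    change ι z ∈ M
    induction hz using IntermediateField.adjoin_induction with
    | mem x hx => exact h2 x hx
    | algebraMap r => exact hFM _ ((hF _).2 ⟨r, rfl⟩)
    | add x y _ _ hx hy => rw [map_add]; exact add_mem hx hy
    | inv x _ hx => rw [map_inv₀]; exact inv_mem hx
    | mul x y _ _ hx hy => rw [map_mul]; exact mul_mem hx hy
  have h4 : Module.rank K0 (IntermediateField.adjoin K0 S') ≤ Module.rank F M := by
    refine Algebra.rank_le_of_surjective_injective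
      ((ι.comp (algebraMap K0 T)).codRestrict F fun y => (hF _).2 ⟨y, rfl⟩)
      ((ι.comp (IntermediateField.adjoin K0 S').val.toRingHom).codRestrict M h3) ?_
      (RingHom.injective _) (RingHom.ext fun _ => rfl)
    rintro ⟨z, hz⟩
    obtain ⟨y, rfl⟩ := (hF z).1 hz
    exact ⟨y, rfl⟩
  refine Module.finrank_le_of_rank_le (h4.trans ?_)
  rw [← rank_mul_rank F E M, Nat.cast_mul, Module.finrank_eq_rank, Module.finrank_eq_rank]
  exact mul_le_mul_right h1 _

end JR
end

-- merged part: Pool.Agent.Work.MP_969914_nt.RPClos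
section
/-! The closure of `k (t)` at a place. -/

set_option autoImplicit false

namespace JR

open scoped NNReal ENNReal
open Polynomial

section
variable {T : Type} [Field T] (v : Valuation T ℝ≥0) (F : Subfield T)

theorem subset_clos : (F : Set T) ⊆ clos v F := by
  intro z hz ε hε
  exact ⟨z, hz, by simpa using hε⟩

theorem rpclos_mul {a b : T} (ha : a ∈ clos v F) (hb : b ∈ clos v F) : a * b ∈ clos v F := by
  intro ε hε
  have hM : 0 < v a + v b + 1 := by positivity
  have hδ : 0 < min 1 (ε / (v a + v b + 1)) := lt_min one_pos (div_pos hε hM)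
  obtain ⟨f, hf, h1⟩ := ha _ hδ
  obtain ⟨g, hg, h2⟩ := hb _ hδ
  refine ⟨f * g, F.mul_mem hf hg, ?_⟩
  have key : ∀ c d : ℝ≥0, c ≤ v a + v b + 1 → d < min 1 (ε / (v a + v b + 1)) → c * d < ε := by
    intro c d hc hd
    have h3 : d * (v a + v b + 1) < ε := (lt_div_iff₀ hM).1 (lt_min_iff.1 hd).2
    calc c * d ≤ (v a + v b + 1) * d := by gcongr
      _ = d * (v a + v b + 1) := mul_comm _ _
      _ < ε := h3
  have hg' : v g ≤ v a + v b + 1 := by
    have e : g = b - (b - g) := by ring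
    rw [e]
    refine v.map_sub_le ?_ ((lt_min_iff.1 h2).1.le.trans le_add_self)
    exact le_add_self.trans le_self_add
  have e : a * b - f * g = a * (b - g) + g * (a - f) := by ring
  rw [e]
  refine v.map_add_lt ?_ ?_
  · rw [map_mul]
    exact key _ _ (le_self_add.trans le_self_add) h2
  · rw [map_mul]
    exact key _ _ hg' h1

theorem rpclos_inv {a : T} (ha : a ∈ clos v F) : a⁻¹ ∈ clos v F := by
  by_cases h0 : a = 0
  · rw [h0, inv_zero]
    exact subset_clos v F F.zero_mem
  intro ε hε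
  have hv : 0 < v a := pos_iff_ne_zero.2 ((map_ne_zero v).2 h0)
  obtain ⟨f, hf, h1⟩ := ha (min (v a) (ε * v a ^ 2)) (lt_min hv (by positivity))
  obtain ⟨h2, h3⟩ := lt_min_iff.1 h1
  have h4 : v f = v a := v.map_eq_of_sub_lt (by rwa [v.map_sub_swap])
  have hf0 : f ≠ 0 := by
    rintro rfl
    rw [map_zero] at h4
    exact hv.ne h4
  refine ⟨f⁻¹, F.inv_mem hf, ?_⟩
  have e : a⁻¹ - f⁻¹ = (f - a) / (a * f) := by field_simp
  rw [e, map_div₀, map_mul, h4, v.map_sub_swap, div_lt_iff₀ (by positivity), ← sq]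
  exact h3

theorem exists_closField : ∃ U : Subfield T, (U : Set T) = clos v F := by
  refine ⟨{ carrier := clos v F
            mul_mem' := rpclos_mul v F
            one_mem' := subset_clos v F F.one_mem
            add_mem' := ?_
            zero_mem' := subset_clos v F F.zero_mem
            neg_mem' := ?_
            inv_mem' := fun a ha => rpclos_inv v F ha }, rfl⟩
  · intro a b ha hb ε hε
    obtain ⟨f, hf, h1⟩ := ha ε hε
    obtain ⟨g, hg, h2⟩ := hb ε hε
    refine ⟨f + g, F.add_mem hf hg, ?_⟩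
    have e : a + b - (f + g) = (a - f) + (b - g) := by ring
    rw [e]
    exact v.map_add_lt h1 h2
  · intro a ha ε hε
    obtain ⟨f, hf, h1⟩ := ha ε hε
    refine ⟨-f, F.neg_mem hf, ?_⟩
    have e : -a - -f = -(a - f) := by ring
    rwa [e, v.map_neg]

theorem val_clos {z : T} (hz : z ∈ clos v F) (h0 : z ≠ 0) : ∃ f ∈ F, v z = v f := by
  have hv : 0 < v z := pos_iff_ne_zero.2 ((map_ne_zero v).2 h0)
  obtain ⟨f, hf, h1⟩ := hz _ hv
  exact ⟨f, hf, (v.map_eq_of_sub_lt (by rwa [v.map_sub_swap])).symm⟩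

theorem rpclos_eval_mem (S : Subring T) {g : T[X]} (hg : ∀ i, g.coeff i ∈ S) {x : T}
    (hx : x ∈ S) : g.eval x ∈ S := by
  rw [eval_eq_sum_range]
  exact S.sum_mem fun i _ => S.mul_mem (hg i) (S.pow_mem hx i)

theorem rpclos_deriv_mem (S : Subring T) {g : T[X]} (hg : ∀ i, g.coeff i ∈ S) (i : ℕ) :
    (derivative g).coeff i ∈ S := by
  rw [coeff_derivative]
  exact S.mul_mem (hg _) (S.add_mem (natCast_mem S i) S.one_mem)

/-- Taylor expansion inside a subring. -/
theorem rpclos_taylor (S : Subring T) {g : T[X]} (hg : ∀ i, g.coeff i ∈ S) {x y : T}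
    (hx : x ∈ S) (hy : y ∈ S) :
    (∃ c ∈ S, g.eval (x + y) = g.eval x + (derivative g).eval x * y + c * y ^ 2) ∧
      ∃ c ∈ S, g.eval (x + y) - g.eval x = c * y := by
  obtain ⟨g0, rfl⟩ := (mem_lifts g).1 ((lifts_iff_coeff_lifts (f := S.subtype) g).2
    fun i => ⟨⟨_, hg i⟩, rfl⟩)
  obtain ⟨c, hc⟩ := binomExpansion g0 ⟨x, hx⟩ ⟨y, hy⟩
  have e : ∀ (p : S[X]) (a : S), S.subtype (p.eval a) = (p.map S.subtype).eval (a : T) := by
    intro p a
    rw [eval_map]
    exact (eval₂_at_apply S.subtype a).symm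
  have h1 := congrArg S.subtype hc
  simp only [map_add, map_mul, map_pow, e] at h1
  rw [← derivative_map] at h1
  have h2 : (g0.map S.subtype).eval (x + y) = (g0.map S.subtype).eval x +
      (derivative (g0.map S.subtype)).eval x * y + (c : T) * y ^ 2 := h1
  refine ⟨⟨c, c.2, h2⟩, (derivative (g0.map S.subtype)).eval x + c * y,
    S.add_mem (rpclos_eval_mem S (rpclos_deriv_mem S hg) hx) (S.mul_mem c.2 hy), ?_⟩
  rw [h2]
  ring

/-- One Newton step. -/
theorem rpclos_newton {g : T[X]} (hg : ∀ i, v (g.coeff i) ≤ 1) {θ θ0 : T}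
    (hθ : g.eval θ = 0) (h1 : v θ ≤ 1) (hd : v ((derivative g).eval θ) = 1)
    (h : v (θ - θ0) < 1) :
    v (θ - (θ0 - g.eval θ0 / (derivative g).eval θ0)) ≤ v (θ - θ0) ^ 2 := by
  have hg' : ∀ i, g.coeff i ∈ v.integer := hg
  have hy : θ - θ0 ∈ v.integer := h.le
  have hx : θ0 ∈ v.integer := by
    have e : θ0 = θ - (θ - θ0) := by ring
    rw [e]
    exact v.integer.sub_mem h1 hy
  obtain ⟨c, hc, e1⟩ := (rpclos_taylor v.integer hg' hx hy).1
  obtain ⟨c', hc', e2⟩ := (rpclos_taylor v.integer (rpclos_deriv_mem v.integer hg') hx hy).2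
  rw [add_sub_cancel] at e1 e2
  have hd0 : v ((derivative g).eval θ0) = 1 := by
    rw [← hd]
    refine v.map_eq_of_sub_lt ?_
    rw [v.map_sub_swap, e2, hd, map_mul]
    exact (mul_le_of_le_one_left' hc').trans_lt h
  have hne : (derivative g).eval θ0 ≠ 0 := by
    intro h0
    rw [h0, map_zero] at hd0
    exact zero_ne_one hd0
  have e : θ - (θ0 - g.eval θ0 / (derivative g).eval θ0) =
      -(c * (θ - θ0) ^ 2) / (derivative g).eval θ0 := by
    rw [hθ] at e1
    field_simp
    linear_combination -e1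
  rw [e, map_div₀, hd0, div_one, v.map_neg, map_mul, map_pow]
  exact mul_le_of_le_one_left' hc

/-- Hensel: simple roots with an approximation in the closure lie in the closure. -/
theorem hensel_clos {g : T[X]} (hg : ∀ i, g.coeff i ∈ clos v F ∧ v (g.coeff i) ≤ 1) {θ θ0 : T}
    (hθ : g.eval θ = 0) (h1 : v θ ≤ 1) (hd : v ((derivative g).eval θ) = 1) (h0 : θ0 ∈ clos v F)
    (h : v (θ - θ0) < 1) : θ ∈ clos v F := by
  obtain ⟨U, hU⟩ := exists_closField v F
  have hgU : ∀ i, g.coeff i ∈ U.toSubring := fun i => by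
    have := (hg i).1
    rwa [← hU] at this
  have key : ∀ n : ℕ, ∃ x ∈ U, v (θ - x) ≤ v (θ - θ0) ^ (n + 1) := by
    intro n
    induction n with
    | zero => exact ⟨θ0, by rwa [← hU] at h0, by simp⟩
    | succ n ih =>
      obtain ⟨x, hx, hx'⟩ := ih
      have hlt : v (θ - x) < 1 := hx'.trans_lt (pow_lt_one₀ zero_le h n.succ_ne_zero)
      refine ⟨x - g.eval x / (derivative g).eval x, U.sub_mem hx (U.div_mem
        (rpclos_eval_mem U.toSubring hgU hx)
        (rpclos_eval_mem U.toSubring (rpclos_deriv_mem U.toSubring hgU) hx)), ?_⟩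
      refine (rpclos_newton v (fun i => (hg i).2) hθ h1 hd hlt).trans ?_
      calc v (θ - x) ^ 2 ≤ (v (θ - θ0) ^ (n + 1)) ^ 2 := by gcongr
        _ = v (θ - θ0) ^ ((n + 1) * 2) := (pow_mul _ _ _).symm
        _ ≤ v (θ - θ0) ^ (n + 1 + 1) := pow_le_pow_of_le_one zero_le h.le (by omega)
  intro ε hε
  obtain ⟨n, hn⟩ := NNReal.exists_pow_lt_of_lt_one hε h
  obtain ⟨x, hx, hx'⟩ := key n
  have hx1 : x ∈ clos v F := by rwa [← hU]
  obtain ⟨f, hf, hf'⟩ := hx1 ε hε
  refine ⟨f, hf, ?_⟩
  have e : θ - f = (θ - x) + (x - f) := by ring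
  rw [e]
  refine v.map_add_lt (hx'.trans_lt (lt_of_le_of_lt ?_ hn)) hf'
  exact pow_le_pow_of_le_one zero_le h.le (by omega)

/-- Bound for the roots of a monic polynomial. -/
theorem rpclos_root_le {g : T[X]} (hm : g.Monic) {θ : T} (hθ : g.eval θ = 0) {M : ℝ≥0}
    (hM : 1 ≤ M) (hg : ∀ i, v (g.coeff i) ≤ M) : v θ ≤ M := by
  by_contra hc
  have hlt : M < v θ := not_le.1 hc
  have h1 : 1 < v θ := hM.trans_lt hlt
  have h0 : 0 < v θ := one_pos.trans h1
  rw [hm.as_sum, eval_add, eval_pow, eval_X, eval_finsetSum] at hθ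
  have h2 : v (∑ i ∈ Finset.range g.natDegree, (C (g.coeff i) * X ^ i).eval θ) <
      v θ ^ g.natDegree := by
    refine v.map_sum_lt (pow_ne_zero _ h0.ne') fun i hi => ?_
    rw [eval_mul, eval_C, eval_pow, eval_X, map_mul, map_pow]
    calc v (g.coeff i) * v θ ^ i < v θ * v θ ^ i :=
          mul_lt_mul_of_pos_right ((hg i).trans_lt hlt) (pow_pos h0 i)
      _ = v θ ^ (i + 1) := (pow_succ' _ _).symm
      _ ≤ v θ ^ g.natDegree := pow_le_pow_right₀ h1.le (Finset.mem_range.1 hi)
  rw [eq_neg_of_add_eq_zero_right hθ, v.map_neg, map_pow] at h2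
  exact lt_irrefl _ h2

end

variable {k T : Type} [Field k] [Field T] [Algebra (RatFunc k) T] (P : Pl k T)

theorem rpclos_ip_ne {f : k[X]} (hf : f ≠ 0) : ip k T f ≠ 0 := by
  unfold ip
  rw [RingHom.comp_apply, _root_.map_ne_zero]
  exact (map_ne_zero_iff _ (IsFractionRing.injective k[X] (RatFunc k))).2 hf

theorem rpclos_ip_mem (f : k[X]) : ip k T f ∈ (algebraMap (RatFunc k) T).fieldRange :=
  ⟨algebraMap k[X] (RatFunc k) f, rfl⟩

theorem rpclos_fin_le {w : P.W} (hw : P.pt w ≠ none) (f : k[X]) : P.v w (ip k T f) ≤ 1 := by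
  by_cases hf : f = 0
  · simp [hf]
  rw [P.v_ip w f hf]
  obtain ⟨a, ha⟩ := Option.ne_none_iff_exists'.1 hw
  rw [ha]
  exact pow_le_one₀ zero_le (inv_le_one_of_one_le₀ one_le_two)

theorem rpclos_const (w : P.W) {c : k} (hc : c ≠ 0) : P.v w (ip k T (C c)) = 1 := by
  rw [P.v_ip w _ (C_ne_zero.2 hc)]
  cases P.pt w with
  | none => simp [szp]
  | some a => simp [szp]

/-- A common denominator for the coefficients of a polynomial over `k (t)`. -/
theorem rpclos_den (p : (RatFunc k)[X]) : ∃ f : k[X], f ≠ 0 ∧ ∀ i, ∃ h : k[X],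
    ip k T f * (p.map (algebraMap (RatFunc k) T)).coeff i = ip k T h := by
  classical
  obtain ⟨b, hb⟩ := IsLocalization.exist_integer_multiples (nonZeroDivisors k[X]) p.support
    p.coeff
  refine ⟨b, nonZeroDivisors.ne_zero b.2, fun i => ?_⟩
  by_cases hi : i ∈ p.support
  · obtain ⟨h, hh⟩ := hb i hi
    refine ⟨h, ?_⟩
    unfold ip
    rw [coeff_map, RingHom.comp_apply, RingHom.comp_apply, ← map_mul, hh, Algebra.smul_def]
  · exact ⟨0, by rw [coeff_map, notMem_support_iff.1 hi, map_zero, mul_zero, map_zero]⟩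

/-- The coefficients of a polynomial over `k (t)` are integral outside finitely many fibres. -/
theorem rpclos_good (p : (RatFunc k)[X]) : ∃ A : Finset (Option k), none ∈ A ∧
    ∀ w, P.pt w ∉ A → ∀ i, P.v w ((p.map (algebraMap (RatFunc k) T)).coeff i) ≤ 1 := by
  classical
  obtain ⟨f, hf, h⟩ := rpclos_den (T := T) p
  refine ⟨insert none (f.roots.toFinset.image some), Finset.mem_insert_self _ _,
    fun w hw i => ?_⟩
  have hw0 : P.pt w ≠ none := fun hc => hw (hc ▸ Finset.mem_insert_self _ _)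
  obtain ⟨a, ha⟩ := Option.ne_none_iff_exists'.1 hw0
  have h1 : P.v w (ip k T f) = 1 := by
    rw [P.v_ip w f hf, ha]
    have : f.rootMultiplicity a = 0 := by
      refine rootMultiplicity_eq_zero fun hr => hw ?_
      rw [ha]
      exact Finset.mem_insert_of_mem (Finset.mem_image_of_mem _
        (Multiset.mem_toFinset.2 ((mem_roots hf).2 hr)))
    simp [szp, this]
  obtain ⟨g, hg⟩ := h i
  have h2 := rpclos_fin_le P hw0 g
  rwa [← hg, map_mul, h1, one_mul] at h2

/-- A finite separable extension lies in the closure of `k (t)` outside finitely many fibres. -/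
theorem Pl.exists_regular (L : IntermediateField (RatFunc k) T) [FiniteDimensional (RatFunc k) L]
    [Algebra.IsSeparable (RatFunc k) L] : ∃ A : Finset (Option k), none ∈ A ∧
      ∀ w, P.pt w ∉ A → ∀ z ∈ L, z ∈ clos (P.v w) (algebraMap (RatFunc k) T).fieldRange := by
  classical
  obtain ⟨α, hα⟩ := Field.exists_primitive_element (RatFunc k) L
  have hint : IsIntegral (RatFunc k) α := Algebra.IsIntegral.isIntegral α
  obtain ⟨a, b, hab⟩ : (minpoly (RatFunc k) α).Separable :=
    Algebra.IsSeparable.isSeparable (RatFunc k) α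
  obtain ⟨A, hA, h1⟩ := rpclos_good P (minpoly (RatFunc k) α)
  obtain ⟨B, _, h2⟩ := rpclos_good P b
  refine ⟨A ∪ B, Finset.mem_union_left _ hA, fun w hw z hz => ?_⟩
  rw [Finset.mem_union, not_or] at hw
  set g := (minpoly (RatFunc k) α).map (algebraMap (RatFunc k) T) with hg
  have hroot : g.eval (α : T) = 0 := by
    rw [hg, eval_map_algebraMap]
    have := congrArg L.val (minpoly.aeval (RatFunc k) α)
    rwa [← aeval_algHom_apply, map_zero] at this
  have hv1 : P.v w (α : T) ≤ 1 :=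
    rpclos_root_le _ ((minpoly.monic hint).map _) hroot le_rfl (h1 w hw.1)
  have hd : P.v w ((derivative g).eval (α : T)) = 1 := by
    have e := congrArg (fun p => (p.map (algebraMap (RatFunc k) T)).eval (α : T)) hab
    simp only [Polynomial.map_add, Polynomial.map_mul, eval_add, eval_mul, Polynomial.map_one,
      eval_one] at e
    rw [← derivative_map, ← hg, hroot, mul_zero, zero_add] at e
    have e1 : P.v w ((b.map (algebraMap (RatFunc k) T)).eval (α : T)) ≤ 1 :=
      rpclos_eval_mem (P.v w).integer (h2 w hw.2) hv1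
    have e2 : P.v w ((derivative g).eval (α : T)) ≤ 1 :=
      rpclos_eval_mem (P.v w).integer (rpclos_deriv_mem (P.v w).integer (h1 w hw.1)) hv1
    refine le_antisymm e2 ?_
    have e3 := congrArg (P.v w) e
    rw [map_mul, map_one] at e3
    rw [← e3]
    exact mul_le_of_le_one_left' e1
  obtain ⟨c, hc⟩ := P.residue w _ hv1
  have hαc : (α : T) ∈ clos (P.v w) (algebraMap (RatFunc k) T).fieldRange :=
    hensel_clos _ _ (fun i => ⟨subset_clos _ _
      (RingHom.mem_fieldRange.2 ⟨_, (coeff_map _ i).symm⟩), h1 w hw.1 i⟩) hroot hv1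
      hd (subset_clos _ _ (rpclos_ip_mem _)) hc
  obtain ⟨U, hU⟩ := exists_closField (P.v w) (algebraMap (RatFunc k) T).fieldRange
  have hK : ∀ x, algebraMap (RatFunc k) T x ∈ U := fun x => by
    rw [← SetLike.mem_coe, hU]
    exact subset_clos _ _ ⟨x, rfl⟩
  have hle : (⊤ : IntermediateField (RatFunc k) L) ≤ (U.toIntermediateField hK).comap L.val := by
    rw [← hα, IntermediateField.adjoin_simple_le_iff]
    rw [← hU] at hαc
    exact hαc
  rw [← hU]
  exact hle (IntermediateField.mem_top (x := ⟨z, hz⟩))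

theorem rpclos_szp (a : Option k) (f : k[X]) : ∃ n : ℤ, szp a f = 2 ^ n := by
  cases a with
  | none => exact ⟨f.natDegree, by simp [szp]⟩
  | some a => exact ⟨-(f.rootMultiplicity a : ℤ), by simp [szp]⟩

theorem Pl.vgroup (w : P.W) {z : T} (hz : z ∈ clos (P.v w) (algebraMap (RatFunc k) T).fieldRange)
    (h0 : z ≠ 0) : ∃ n : ℤ, P.v w z = P.q ^ n := by
  obtain ⟨f, ⟨r, rfl⟩, hf⟩ := val_clos _ _ hz h0
  have hr : r ≠ 0 := by
    rintro rfl
    rw [map_zero, map_zero] at hf
    exact h0 ((map_eq_zero _).1 hf)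
  have e : algebraMap (RatFunc k) T r = ip k T r.num / ip k T r.denom := by
    unfold ip
    rw [RingHom.comp_apply, RingHom.comp_apply, ← map_div₀, RatFunc.num_div_denom]
  obtain ⟨n, hn⟩ := rpclos_szp (P.pt w) r.num
  obtain ⟨m, hm⟩ := rpclos_szp (P.pt w) r.denom
  refine ⟨n - m, ?_⟩
  rw [hf, e, map_div₀, P.v_ip w _ (RatFunc.num_ne_zero hr), P.v_ip w _ r.denom_ne_zero, hn, hm,
    P.q_eq, zpow_sub₀ two_ne_zero]

theorem Pl.sqrt_clos (h2 : (2 : k) ≠ 0) (w : P.W) {z : T}
    (hz : z ^ 2 ∈ clos (P.v w) (algebraMap (RatFunc k) T).fieldRange) (h1 : P.v w z = 1) :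
    z ∈ clos (P.v w) (algebraMap (RatFunc k) T).fieldRange := by
  obtain ⟨c, hc⟩ := P.residue w z h1.le
  obtain ⟨U, hU⟩ := exists_closField (P.v w) (algebraMap (RatFunc k) T).fieldRange
  have h3 : P.v w (2 : T) = 1 := by
    have := rpclos_const P w h2
    rwa [map_ofNat, map_ofNat] at this
  have hco : ∀ S : Subring T, z ^ 2 ∈ S → ∀ i, (X ^ 2 - C (z ^ 2) : T[X]).coeff i ∈ S := by
    intro S hS i
    rw [coeff_sub, coeff_X_pow, coeff_C]
    refine S.sub_mem ?_ ?_
    · split_ifs
      exacts [S.one_mem, S.zero_mem]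
    · split_ifs
      exacts [hS, S.zero_mem]
  refine hensel_clos _ _ (g := X ^ 2 - C (z ^ 2)) (fun i => ⟨?_, ?_⟩) (by simp) h1.le ?_
    (subset_clos _ _ (rpclos_ip_mem _)) hc
  · rw [← hU] at hz ⊢
    exact hco U.toSubring hz i
  · refine hco (P.v w).integer ?_ i
    exact (P.v w).integer.pow_mem h1.le 2
  · have e : (derivative (X ^ 2 - C (z ^ 2) : T[X])).eval z = 2 * z := by
      rw [derivative_sub, derivative_C, derivative_X_sq]
      simp
    rw [e, map_mul, h3, h1, one_mul]

theorem rpclos_min [Algebra.IsAlgebraic (RatFunc k) T] (z : T) :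
    ∃ p : (RatFunc k)[X], (p.map (algebraMap (RatFunc k) T)).Monic ∧
      (p.map (algebraMap (RatFunc k) T)).eval z = 0 := by
  have hint : IsIntegral (RatFunc k) z := (Algebra.IsAlgebraic.isAlgebraic z).isIntegral
  exact ⟨minpoly (RatFunc k) z, (minpoly.monic hint).map _, by
    rw [eval_map_algebraMap, minpoly.aeval]⟩

theorem Pl.inf_bound [Algebra.IsAlgebraic (RatFunc k) T] (z : T) :
    ∃ C : ℕ, ∀ w, P.pt w = none → P.v w z ≤ P.q ^ C := by
  obtain ⟨p, hm, hp⟩ := rpclos_min (k := k) z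
  obtain ⟨f, hf, h⟩ := rpclos_den (T := T) p
  choose g hg using h
  refine ⟨(p.map (algebraMap (RatFunc k) T)).support.sup fun i => (g i).natDegree,
    fun w hw => ?_⟩
  rw [P.q_eq]
  refine rpclos_root_le _ hm hp (one_le_pow₀ one_le_two) fun i => ?_
  by_cases hi : i ∈ (p.map (algebraMap (RatFunc k) T)).support
  · have h1 : 1 ≤ P.v w (ip k T f) := by
      rw [P.v_ip w f hf, hw]
      exact one_le_pow₀ one_le_two
    have h2 : P.v w (ip k T (g i)) ≤ 2 ^ (g i).natDegree := by
      by_cases h0 : g i = 0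
      · simp [h0]
      · rw [P.v_ip w _ h0, hw]
        exact le_rfl
    rw [← hg i, map_mul] at h2
    refine ((le_mul_of_one_le_left' h1).trans h2).trans (pow_le_pow_right₀ one_le_two ?_)
    exact Finset.le_sup (f := fun i => (g i).natDegree) hi
  · rw [notMem_support_iff.1 hi, map_zero]
    exact zero_le

theorem Pl.denom [Algebra.IsAlgebraic (RatFunc k) T] (z : T) :
    ∃ f : k[X], f ≠ 0 ∧ ∀ w, P.pt w ≠ none → P.v w (ip k T f * z) ≤ 1 := by
  obtain ⟨p, hm, hp⟩ := rpclos_min (k := k) z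
  obtain ⟨f, hf, h⟩ := rpclos_den (T := T) p
  refine ⟨f, hf, fun w hw => ?_⟩
  have h0 : 0 < P.v w (ip k T f) := pos_iff_ne_zero.2 ((_root_.map_ne_zero _).2 (rpclos_ip_ne hf))
  have h1 : P.v w z ≤ (P.v w (ip k T f))⁻¹ := by
    refine rpclos_root_le _ hm hp ((one_le_inv₀ h0).2 (rpclos_fin_le P hw f)) fun i => ?_
    obtain ⟨g, hg⟩ := h i
    have h2 := rpclos_fin_le P hw g
    rw [← hg, map_mul] at h2
    rwa [← mul_one (P.v w (ip k T f))⁻¹, le_inv_mul_iff₀ h0]
  rw [map_mul]
  rwa [← mul_one (P.v w (ip k T f))⁻¹, le_inv_mul_iff₀ h0] at h1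

theorem rpclos_ht_int [Algebra.IsAlgebraic (RatFunc k) T] {z : T}
    (hz : ∀ w, P.pt w ≠ none → P.v w z ≤ 1) : P.toPF.ht z < ⊤ := by
  classical
  obtain ⟨C, hC⟩ := P.inf_bound z
  have h := P.toPF.I_le_mass (f := fun w => P.v w z) (C := C)
    (E := {w | P.pt w ∈ ({none} : Finset (Option k))})
    (fun w hw => hC w (Finset.mem_singleton.1 hw))
    (fun w hw => hz w fun hc => hw (Finset.mem_singleton.2 hc))
  rw [P.mass_pt] at h
  exact h.trans_lt (ENNReal.mul_lt_top (ENNReal.natCast_lt_top _) (ENNReal.natCast_lt_top _))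

theorem Pl.ht_lt [Algebra.IsAlgebraic (RatFunc k) T] (z : T) : P.toPF.ht z < ⊤ := by
  obtain ⟨f, hf, h⟩ := P.denom z
  have e : z = (ip k T f * z) * (ip k T f)⁻¹ := by
    rw [mul_comm (ip k T f), mul_inv_cancel_right₀ (rpclos_ip_ne hf)]
  rw [e]
  refine (P.toPF.ht_mul_le _ _).trans_lt (ENNReal.add_lt_top.2 ⟨rpclos_ht_int P h, ?_⟩)
  rw [P.toPF.ht_inv]
  exact rpclos_ht_int P fun w hw => rpclos_fin_le P hw f

end JR
end

-- merged part: Pool.Agent.Work.MP_969914_nt.RPMink
section
/-! The dimension lemma and the Minkowski lemma. -/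

set_option autoImplicit false

namespace JR

open scoped NNReal ENNReal
open Polynomial

theorem rpmink_codim {k ι : Type} [Field k] [Fintype ι] [DecidableEq ι] (B : Matrix ι ι k[X])
    (hB : B.det ≠ 0) :
    Module.Finite k ((ι → k[X]) ⧸ LinearMap.range (Matrix.toLin' B)) ∧
      Module.finrank k ((ι → k[X]) ⧸ LinearMap.range (Matrix.toLin' B)) = B.det.natDegree := by
  have hi : Function.Injective (Matrix.toLin' B) := by
    rw [← LinearMap.ker_eq_bot, Matrix.ker_toLin'_eq_bot_iff]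
    exact fun v hv => Matrix.eq_zero_of_mulVec_eq_zero hB hv
  let e := LinearEquiv.ofInjective _ hi
  have h := e.symm.finrank_eq
  let b := Pi.basisFun k[X] ι
  let b' := Submodule.smithNormalFormTopBasis b h
  have h0 := Submodule.smithNormalFormCoeffs_ne_zero b h
  have h1 : Associated B.det (∏ i, Submodule.smithNormalFormCoeffs b h i) := by
    rw [← Matrix.det_diagonal, ← LinearMap.det_toLin' B, ← LinearMap.det_toLin b']
    refine (LinearMap.associated_det_of_eq_comp ((b'.equiv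
      (Submodule.smithNormalFormBotBasis b h) (Equiv.refl _)).trans e.symm) _ _ fun x => ?_).symm
    refine LinearMap.congr_fun (g := Matrix.toLin' B ∘ₗ (LinearEquiv.trans (b'.equiv
      (Submodule.smithNormalFormBotBasis b h) (Equiv.refl _)) e.symm).toLinearMap)
      (b'.ext fun i => ?_) x
    rw [Matrix.toLin_self, LinearMap.comp_apply, LinearEquiv.coe_coe, LinearEquiv.trans_apply,
      Module.Basis.equiv_apply, Equiv.refl_apply, LinearEquiv.ofInjective_symm_apply,
      Submodule.smithNormalFormBotBasis_def, Finset.sum_eq_single i, Matrix.diagonal_apply_eq]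
    · exact fun j _ hj => by rw [Matrix.diagonal_apply_ne _ hj, zero_smul]
    · simp
  have h2 : ∀ i, Module.Finite k (k[X] ⧸ Ideal.span {Submodule.smithNormalFormCoeffs b h i}) :=
    fun i => (AdjoinRoot.powerBasis (h0 i)).finite
  refine ⟨Module.Finite.equiv
    ((Submodule.quotientEquivPiSpan _ b h).restrictScalars k).symm, ?_⟩
  rw [natDegree_eq_of_degree_eq (degree_eq_degree_of_associated h1),
    natDegree_prod _ _ fun i _ => h0 i, Submodule.finrank_quotient_eq_sum k b h]
  exact Finset.sum_congr rfl fun i _ => (AdjoinRoot.powerBasis (h0 i)).finrank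

/-- Minkowski lemma over `k [t]`. -/
theorem mink_poly {k ι : Type} [Field k] [Fintype ι] [DecidableEq ι] (A : Matrix ι ι k[X])
    (hA : A.det ≠ 0) (μ : ℕ) (h : Fintype.card ι * μ < A.det.natDegree) :
    ∃ (x : ι → k[X]) (g : k[X]), g ≠ 0 ∧ x ≠ 0 ∧ (∀ i, g ∣ A.mulVec x i) ∧
      ∀ i, x i = 0 ∨ (x i).natDegree + μ < g.natDegree := by
  classical
  rcases isEmpty_or_nonempty ι with hι | hι
  · simp at h
  have hd := Matrix.det_adjugate A
  obtain ⟨h1, h2⟩ := rpmink_codim A.adjugate (hd ▸ pow_ne_zero _ hA)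
  rw [hd, natDegree_pow] at h2
  let φ : (ι → Fin (A.det.natDegree - μ) → k) →ₗ[k] (ι → k[X]) :=
    (ofFn (A.det.natDegree - μ)).compLeft ι
  let ψ := ((LinearMap.range (Matrix.toLin' A.adjugate)).mkQ.restrictScalars k).comp φ
  have hn : 0 < Fintype.card ι := Fintype.card_pos
  have h3 : LinearMap.ker ψ ≠ ⊥ := by
    refine LinearMap.ker_ne_bot_of_finrank_lt ?_
    rw [h2, Module.finrank_pi_fintype]
    simp only [Module.finrank_fintype_fun_eq_card, Fintype.card_fin, Finset.sum_const,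
      Finset.card_univ, smul_eq_mul]
    obtain ⟨n, hn⟩ := Nat.exists_eq_succ_of_ne_zero hn.ne'
    rw [hn] at h ⊢
    obtain ⟨m, hm⟩ : ∃ m, A.det.natDegree = μ + m := Nat.exists_eq_add_of_le (by nlinarith)
    rw [hm] at h ⊢
    simp only [Nat.succ_sub_one, Nat.add_sub_cancel_left, Nat.succ_eq_add_one] at h ⊢
    nlinarith
  obtain ⟨u, hu, h0⟩ := Submodule.exists_mem_ne_zero_of_ne_bot h3
  obtain ⟨y, hy⟩ : φ u ∈ LinearMap.range (Matrix.toLin' A.adjugate) :=
    (Submodule.Quotient.mk_eq_zero _).1 hu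
  refine ⟨φ u, A.det, hA, fun e => h0 (funext fun i => injective_ofFn _ ?_), fun i => ?_,
    fun i => ?_⟩
  · exact (congrFun e i).trans (map_zero _).symm
  · rw [← hy, Matrix.toLin'_apply, Matrix.mulVec_mulVec, Matrix.mul_adjugate, Matrix.smul_mulVec,
      Matrix.one_mulVec]
    exact Dvd.intro _ rfl
  · by_cases e : φ u i = 0
    · exact Or.inl e
    · have h4 : (φ u i).natDegree < A.det.natDegree - μ :=
        (natDegree_lt_iff_degree_lt e).2 (ofFn_degree_lt (u i))
      exact Or.inr (by omega)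

variable {k T : Type} [Field k] [Field T] [Algebra (RatFunc k) T] [Algebra k T]
  [IsScalarTower k (RatFunc k) T] (P : Pl k T)

theorem rpmink_C (c : k) : ip k T (C c) = algebraMap k T c := by
  rw [IsScalarTower.algebraMap_apply k (RatFunc k) T,
    IsScalarTower.algebraMap_apply k k[X] (RatFunc k)]
  rfl

section
omit [Algebra k T] [IsScalarTower k (RatFunc k) T]

theorem rpmink_inj : Function.Injective (ip k T) :=
  (algebraMap (RatFunc k) T).injective.comp (IsFractionRing.injective k[X] (RatFunc k))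

theorem rpmink_fin (f : k[X]) {w : P.W} (hw : P.pt w ≠ none) : P.v w (ip k T f) ≤ 1 := by
  by_cases h : f = 0
  · simp [h]
  · obtain ⟨a, ha⟩ := Option.ne_none_iff_exists'.1 hw
    rw [P.v_ip w f h, ha]
    exact pow_le_one₀ (by simp) (by norm_num)

theorem rpmink_inf {f : k[X]} (h : f ≠ 0) {w : P.W} (hw : P.pt w = none) :
    P.v w (ip k T f) = P.q ^ f.natDegree := by
  rw [P.v_ip w f h, hw, P.q_eq]
  rfl

theorem rpmink_zero {α : T} (h1 : ∀ w, P.pt w ≠ none → P.v w α ≤ 1)
    (h2 : ∀ w, P.pt w = none → P.q * P.v w α ≤ 1) : α = 0 := by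
  by_contra h
  have hq : 1 < P.q := P.one_lt_q
  have h3 := P.pf α h (fun _ => 1) (fun _ => le_rfl) fun w => by
    by_cases e : P.pt w = none
    · exact (le_mul_of_one_le_left' hq.le).trans (h2 w e)
    · exact h1 w e
  have h4 := P.toPF.mass_le_I (m := 1) (E := {w | P.pt w ∈ ({none} : Finset (Option k))})
    (f := fun w => 1 / P.v w α) fun w hw => by
      rw [pow_one, le_div_iff₀ ((P.v w).pos_iff.2 h)]
      exact h2 w (Finset.mem_singleton.1 hw)
  rw [P.mass_pt, P.I_one] at *
  simpa using h4.trans h3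

theorem rpmink_rel (V : Submodule (RatFunc k) T) [FiniteDimensional (RatFunc k) V] {n : ℕ}
    (hn : Module.finrank (RatFunc k) V < n) (y : Fin n → T) (hy : ∀ i, y i ∈ V) :
    ∃ f : Fin n → k[X], ∑ i, ip k T (f i) * y i = 0 ∧ ∃ i, (f i).coeff 0 ≠ 0 := by
  classical
  let _ : Algebra k[X] T := (ip k T).toAlgebra
  have : IsScalarTower k[X] (RatFunc k) T := IsScalarTower.of_algebraMap_eq' rfl
  have h1 : ¬ LinearIndependent k[X] y := fun h => by
    have h2 : LinearIndependent (RatFunc k) fun i => (⟨y i, hy i⟩ : V) :=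
      LinearIndependent.of_comp V.subtype
        ((LinearIndependent.iff_fractionRing k[X] (RatFunc k)).1 h)
    have h3 := h2.fintype_card_le_finrank
    rw [Fintype.card_fin] at h3
    omega
  obtain ⟨f, h2, i, hi⟩ := Fintype.not_linearIndependent_iff.1 h1
  obtain ⟨g, h3, h4⟩ := Finset.extract_gcd f ⟨i, Finset.mem_univ i⟩
  have h5 : Finset.univ.gcd f ≠ 0 := fun e => hi (by rw [h3 i (Finset.mem_univ i), e, zero_mul])
  refine ⟨g, ?_, ?_⟩
  · refine (mul_eq_zero.1 ?_).resolve_left ((map_ne_zero_iff _ rpmink_inj).2 h5)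
    rw [← h2, Finset.mul_sum]
    refine Finset.sum_congr rfl fun j hj => ?_
    rw [← mul_assoc, ← map_mul, ← h3 j hj]
    rfl
  · by_contra! e
    exact not_isUnit_X (isUnit_of_dvd_one
      (h4 ▸ Finset.dvd_gcd fun j _ => X_dvd_iff.2 (e j) : (X : k[X]) ∣ 1))

end

/-- The elements that are integral at all finite places. -/
def rpmink_O : Submodule k T where
  carrier := {z | ∀ w, P.pt w ≠ none → P.v w z ≤ 1}
  add_mem' ha hb w hw := (P.v w).map_add_le (ha w hw) (hb w hw)
  zero_mem' w _ := by simp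
  smul_mem' c z hz w hw := by
    rw [Algebra.smul_def, map_mul, ← rpmink_C]
    exact mul_le_one' (rpmink_fin P _ hw) (hz w hw)

theorem rpmink_dim (V : Submodule (RatFunc k) T) [FiniteDimensional (RatFunc k) V] (n : ℕ) :
    ∀ S : Submodule k T, FiniteDimensional k S → (∀ α ∈ S, α ∈ V) → S ≤ rpmink_O P →
      (∀ α ∈ S, ∀ w, P.pt w = none → P.q * P.v w α ≤ P.q ^ n) →
      Module.finrank k S ≤ Module.finrank (RatFunc k) V * n := by
  induction n with
  | zero =>
    intro S _ _ h2 h3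
    have h4 : S = ⊥ := (Submodule.eq_bot_iff _).2 fun α hα =>
      rpmink_zero P (h2 hα) fun w hw => (h3 α hα w hw).trans_eq (pow_zero _)
    simp [h4]
  | succ n ih =>
    intro S hS h1 h2 h3
    have hX : ip k T X ≠ 0 := (map_ne_zero_iff _ rpmink_inj).2 X_ne_zero
    let S' : Submodule k T := S.comap (LinearMap.mulLeft k (ip k T X)) ⊓ rpmink_O P
    have hS' : FiniteDimensional k S' := FiniteDimensional.of_injective
      ((LinearMap.mulLeft k (ip k T X)).restrict (p := S') (q := S) fun x hx => hx.1)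
      fun x y e => Subtype.ext (mul_left_cancel₀ hX (congrArg Subtype.val e))
    have h4 := ih S' hS' (fun β hβ => ?_) inf_le_right fun β hβ w hw => ?_
    · obtain ⟨W, hW⟩ := Submodule.exists_isCompl (S'.map (LinearMap.mulLeft k (ip k T X)))
      have h5 : S'.map (LinearMap.mulLeft k (ip k T X)) ≤ S := Submodule.map_le_iff_le_comap.2
        inf_le_left
      have h6 : S'.map (LinearMap.mulLeft k (ip k T X)) ⊔ W ⊓ S = S := by
        rw [← sup_inf_assoc_of_le _ h5, hW.sup_eq_top, top_inf_eq]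
      have hW' : FiniteDimensional k (W ⊓ S : Submodule k T) :=
        Submodule.finiteDimensional_of_le inf_le_right
      have h7 := Submodule.finrank_add_le_finrank_add_finrank
        (S'.map (LinearMap.mulLeft k (ip k T X))) (W ⊓ S)
      have h8 := Submodule.finrank_map_le (LinearMap.mulLeft k (ip k T X)) S'
      rw [h6] at h7
      suffices h9 : Module.finrank k (W ⊓ S : Submodule k T) ≤ Module.finrank (RatFunc k) V by
        rw [Nat.mul_succ]
        omega
      by_contra! h9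
      obtain ⟨y, hy⟩ := exists_linearIndependent_of_le_finrank (le_refl
        (Module.finrank k (W ⊓ S : Submodule k T)))
      obtain ⟨f, a1, i, a2⟩ := rpmink_rel V h9 (fun i => y i) fun i => h1 _ (y i).2.2
      refine a2 (Fintype.linearIndependent_iff.1 hy (fun i => (f i).coeff 0) ?_ i)
      have a3 : ip k T X * -∑ i, ip k T (f i).divX * y i =
          (∑ i, (f i).coeff 0 • y i : (W ⊓ S : Submodule k T)) := by
        rw [mul_neg, neg_eq_iff_add_eq_zero, ← a1, Submodule.coe_sum, Finset.mul_sum,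
          ← Finset.sum_add_distrib]
        refine Finset.sum_congr rfl fun j _ => ?_
        rw [Submodule.coe_smul, Algebra.smul_def, ← rpmink_C, ← mul_assoc, ← add_mul, ← map_mul,
          ← map_add, X_mul_divX_add]
      refine Subtype.ext ((Submodule.disjoint_def.1 hW.disjoint) _ ⟨_, ⟨?_, fun w hw => ?_⟩, a3⟩
        (∑ i, (f i).coeff 0 • y i).2.1)
      · exact Submodule.mem_comap.2 (Set.mem_of_eq_of_mem a3 (∑ i, (f i).coeff 0 • y i).2.2)
      · rw [Valuation.map_neg]
        refine (P.v w).map_sum_le fun j _ => ?_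
        rw [map_mul]
        exact mul_le_one' (rpmink_fin P _ hw) (h2 (y j).2.2 w hw)
    · have a1 := V.smul_mem (algebraMap k[X] (RatFunc k) X)⁻¹ (h1 _ hβ.1)
      rwa [Algebra.smul_def, map_inv₀, LinearMap.mulLeft_apply,
        show algebraMap (RatFunc k) T (algebraMap k[X] (RatFunc k) X) = ip k T X from rfl,
        inv_mul_cancel_left₀ hX] at a1
    · have a1 := h3 _ hβ.1 w hw
      rw [LinearMap.mulLeft_apply, map_mul, rpmink_inf P X_ne_zero hw, natDegree_X, pow_one,
        pow_succ'] at a1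
      exact le_of_mul_le_mul_left a1 (zero_lt_one.trans P.one_lt_q)

theorem Pl.dim_le [Infinite k] (V : Submodule (RatFunc k) T) [FiniteDimensional (RatFunc k) V]
    (μ m : ℕ) (z : Fin m → T) (hz : LinearIndependent k z) (hV : ∀ i, z i ∈ V)
    (h1 : ∀ i w, P.pt w ≠ none → P.v w (z i) ≤ 1)
    (h2 : ∀ i w, P.pt w = none → P.v w (z i) ≤ P.q ^ μ) :
    m ≤ Module.finrank (RatFunc k) V * (μ + 1) := by
  have h3 := finrank_span_eq_card hz
  rw [Fintype.card_fin] at h3
  rw [← h3]
  refine rpmink_dim P V _ _ (FiniteDimensional.span_of_finite k (Set.finite_range z))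
    (fun α hα => ?_) (Submodule.span_le.2 (Set.range_subset_iff.2 h1)) fun α hα w hw => ?_
  · exact (Submodule.span_le (p := V.restrictScalars k)).2 (Set.range_subset_iff.2 hV) hα
  · obtain ⟨c, rfl⟩ := (Submodule.mem_span_range_iff_exists_fun k).1 hα
    rw [pow_succ']
    refine mul_le_mul_right ((P.v w).map_sum_le fun i _ => ?_) _
    by_cases e : c i = 0
    · simp [e]
    · rw [Algebra.smul_def, map_mul, ← rpmink_C, rpmink_inf P (C_ne_zero.2 e) hw, natDegree_C,
        pow_zero, one_mul]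
      exact h2 i w hw

omit [Algebra k T] [IsScalarTower k (RatFunc k) T] in
theorem rpmink_den [Algebra.IsAlgebraic (RatFunc k) T] {κ : Type} [Fintype κ] (z : κ → T) :
    ∃ f : k[X], f ≠ 0 ∧ ∀ j w, P.pt w ≠ none → P.v w (ip k T f * z j) ≤ 1 := by
  choose f h1 h2 using fun j => P.denom (z j)
  refine ⟨∏ j, f j, Finset.prod_ne_zero_iff.2 fun j _ => h1 j, fun j w hw => ?_⟩
  obtain ⟨g, hg⟩ := Finset.dvd_prod_of_mem f (Finset.mem_univ j)
  rw [hg, map_mul (ip k T), mul_right_comm, map_mul]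
  exact mul_le_one' (h2 j w hw) (rpmink_fin P g hw)

omit [Algebra k T] [IsScalarTower k (RatFunc k) T] in
theorem rpmink_tr (L : IntermediateField (RatFunc k) T) [FiniteDimensional (RatFunc k) L]
    (z : L) (hz : ∀ w, P.pt w ≠ none → P.v w z ≤ 1) :
    ∃ r : k[X], algebraMap k[X] (RatFunc k) r = Algebra.trace (RatFunc k) L z := by
  let _ : Algebra k[X] T := (ip k T).toAlgebra
  have : IsScalarTower k[X] (RatFunc k) T := IsScalarTower.of_algebraMap_eq' rfl
  have : IsScalarTower k[X] L T := IsScalarTower.of_algebraMap_eq' rfl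
  have h1 : IsIntegral k[X] (algebraMap L T z) := P.integral z hz
  exact IsIntegrallyClosed.isIntegral_iff.1 (Algebra.isIntegral_trace
    ((isIntegral_algebraMap_iff (algebraMap L T).injective).1 h1))

omit [Algebra k T] [IsScalarTower k (RatFunc k) T] in
theorem rpmink_basis (L : IntermediateField (RatFunc k) T) [FiniteDimensional (RatFunc k) L]
    [Algebra.IsSeparable (RatFunc k) T] {κ : Type} [Fintype κ]
    (b : Module.Basis κ (RatFunc k) L) : ∃ δ : k[X], δ ≠ 0 ∧
      (∀ j w, P.pt w ≠ none → P.v w (ip k T δ * b j) ≤ 1) ∧ ∀ z : L,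
      (∀ w, P.pt w ≠ none → P.v w z ≤ 1) → ∀ j, ∃ r : k[X], algebraMap k[X] (RatFunc k) r =
        algebraMap k[X] (RatFunc k) δ * b.repr z j := by
  let c := fun j => ((Algebra.traceForm (RatFunc k) L).toDual
    (traceForm_nondegenerate (RatFunc k) L)).symm (b.coord j)
  obtain ⟨δ, h1, h2⟩ := rpmink_den P (Sum.elim (fun j => (b j : T)) fun j => (c j : T))
  refine ⟨δ, h1, fun j => h2 (Sum.inl j), fun z hz j => ?_⟩
  obtain ⟨r, hr⟩ := rpmink_tr P L (algebraMap k[X] (RatFunc k) δ • (c j * z)) fun w hw => by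
    rw [IntermediateField.coe_smul, Algebra.smul_def, IntermediateField.coe_mul, ← mul_assoc,
      map_mul]
    exact mul_le_one' (h2 (Sum.inr j) w hw) (hz w hw)
  refine ⟨r, ?_⟩
  rw [hr, map_smul, ← Algebra.traceForm_apply, LinearMap.BilinForm.apply_toDual_symm_apply]
  rfl

theorem rpmink_det {ι : Type} [Fintype ι] [DecidableEq ι] (v : Valuation T ℝ≥0) (A : Matrix ι ι T)
    (h : ∀ i j, v (A i j) ≤ 1) : v A.det ≤ 1 := by
  rw [Matrix.det_apply']
  refine v.map_sum_le fun σ _ => ?_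
  rw [map_mul, map_prod]
  refine mul_le_one' ?_ (Finset.prod_le_one' fun i _ => h _ _)
  rcases Int.units_eq_one_or (Equiv.Perm.sign σ) with e | e <;> simp [e]

theorem Pl.mink (L : IntermediateField (RatFunc k) T) [FiniteDimensional (RatFunc k) L]
    [Algebra.IsSeparable (RatFunc k) T] :
    ∃ C0 : ℕ, ∀ (ι : Type) [Fintype ι] [DecidableEq ι] (A : Matrix ι ι T) (μ : ℕ),
    (∀ i j, A i j ∈ L) → (∀ i j w, P.pt w ≠ none → P.v w (A i j) ≤ 1) → A.det ≠ 0 →
    ((Fintype.card ι * μ : ℕ) : ℝ≥0∞) <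
      P.I (Set.mulIndicator {w | P.pt w ≠ none} fun w => (P.v w A.det)⁻¹) →
    ∃ x : ι → T, x ≠ 0 ∧ (∀ i, x i ∈ L) ∧ (∀ i w, P.pt w ≠ none → P.v w (A.mulVec x i) ≤ 1) ∧
      ∀ i w, P.pt w = none → P.q ^ μ * P.v w (x i) ≤ P.q ^ C0 := by
  let b := Module.finBasis (RatFunc k) L
  obtain ⟨δ, d0, d1, d2⟩ := rpmink_basis P L b
  choose C hC using fun j => P.inf_bound (b j : T)
  refine ⟨(δ ^ 3).natDegree + ∑ j, C j, fun ι _ _ A μ a1 a2 a3 a4 => ?_⟩
  have hq : 1 < P.q := P.one_lt_q
  have hs : ∀ (f : k[X]) (z : L), ((algebraMap k[X] (RatFunc k) f • z : L) : T) =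
      ip k T f * z := fun f z => by
    rw [IntermediateField.coe_smul, Algebra.smul_def]
    rfl
  have hi : ∀ f : k[X], f ≠ 0 → ip k T f ≠ 0 := fun f => (map_ne_zero_iff _ rpmink_inj).2
  obtain ⟨B, hB⟩ : ∃ B : Matrix ι ι L, ∀ i j, (B i j : T) = ip k T (δ ^ 2) * A i j :=
    ⟨fun i j => algebraMap k[X] (RatFunc k) (δ ^ 2) • ⟨A i j, a1 i j⟩, fun i j => hs _ _⟩
  have b1 : ∀ p q : ι × Fin (Module.finrank (RatFunc k) L), ∃ r : k[X],
      algebraMap k[X] (RatFunc k) r = b.repr (B p.1 q.1 * b q.2) p.2 := fun p q => by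
    obtain ⟨r, hr⟩ := d2 (⟨A p.1 q.1, a1 _ _⟩ * algebraMap k[X] (RatFunc k) δ • b q.2)
      (fun w hw => by
        rw [IntermediateField.coe_mul, hs, map_mul]
        exact mul_le_one' (a2 _ _ w hw) (d1 _ w hw)) p.2
    refine ⟨r, ?_⟩
    rw [hr, ← smul_eq_mul, ← Finsupp.smul_apply, ← map_smul]
    congr 2
    refine Subtype.ext ?_
    rw [hs, IntermediateField.coe_mul, IntermediateField.coe_mul, hs, hB, map_pow]
    ring
  choose A' hA' using b1
  have b2 : Algebra.norm (RatFunc k) B.det =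
      algebraMap k[X] (RatFunc k) (Matrix.of A').det := by
    rw [Algebra.norm_eq_matrix_det b, RingHom.map_det]
    refine (Matrix.det_det B (Algebra.leftMulMatrix b).toRingHom).trans ?_
    congr 1
    ext p q
    exact (Algebra.leftMulMatrix_eq_repr_mul b _ _ _).trans (hA' p q).symm
  have b3 : (B.det : T) = ip k T ((δ ^ 2) ^ Fintype.card ι) * A.det := by
    rw [map_pow, ← Matrix.det_smul]
    refine ((algebraMap L T).map_det B).trans ?_
    congr 1
    ext i j
    exact hB i j
  have b4 : ip k T ((δ ^ 2) ^ Fintype.card ι) ≠ 0 := hi _ (pow_ne_zero _ (pow_ne_zero _ d0))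
  have b5 : (Matrix.of A').det ≠ 0 := fun e => by
    rw [e, map_zero, Algebra.norm_eq_zero_iff] at b2
    rw [b2] at b3
    exact mul_ne_zero b4 a3 b3.symm
  have b6 := P.norm L inferInstance B.det _ b5 b2 fun w hw => by
    rw [b3, map_mul]
    exact mul_le_one' (rpmink_fin P _ hw) (rpmink_det _ _ fun i j => a2 i j w hw)
  have b7 : P.I (Set.mulIndicator {w | P.pt w ≠ none} fun w => (P.v w A.det)⁻¹) ≤
      P.I (Set.mulIndicator {w | P.pt w ≠ none} fun w => (P.v w B.det)⁻¹) :=
    P.toPF.I_le fun w => Set.mulIndicator_le_mulIndicator' fun hw => by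
      rw [b3, map_mul]
      exact inv_anti₀ (mul_pos ((P.v w).pos_iff.2 b4) ((P.v w).pos_iff.2 a3))
        (mul_le_of_le_one_left' (rpmink_fin P _ hw))
  have b8 : Fintype.card (ι × Fin (Module.finrank (RatFunc k) L)) * μ <
      (Matrix.of A').det.natDegree := by
    have e := (ENNReal.mul_lt_mul_right (a := Module.finrank (RatFunc k) L)
      (Nat.cast_ne_zero.2 Module.finrank_pos.ne') (ENNReal.natCast_ne_top _)
        (a4.trans_le b7)).trans_le b6
    rw [← Nat.cast_mul, Nat.cast_lt] at e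
    rw [Fintype.card_prod, Fintype.card_fin]
    linarith
  obtain ⟨x, g, g0, x0, c1, c2⟩ := mink_poly _ b5 μ b8
  choose r hr using c1
  have g1 : algebraMap k[X] (RatFunc k) g ≠ 0 :=
    (map_ne_zero_iff _ (IsFractionRing.injective k[X] (RatFunc k))).2 g0
  let y : ι → L := fun j => (algebraMap k[X] (RatFunc k) g)⁻¹ •
    ∑ m, algebraMap k[X] (RatFunc k) (x (j, m)) • b m
  have c3 : ∀ i, ∑ j, B i j * y j = ∑ l, algebraMap k[X] (RatFunc k) (r (i, l)) • b l := fun i => by
    refine b.ext_elem fun l => ?_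
    rw [b.repr_sum_self, ← inv_mul_cancel_left₀ g1 (algebraMap _ _ (r _)), ← map_mul, ← hr]
    simp only [y, Matrix.mulVec, dotProduct, map_sum, map_mul, Matrix.of_apply, hA',
      Fintype.sum_prod_type, Finset.mul_sum, mul_smul_comm, map_smul, Finset.smul_sum,
      Finsupp.finsetSum_apply, Finsupp.smul_apply, smul_eq_mul]
    exact Finset.sum_congr rfl fun j _ => Finset.sum_congr rfl fun m _ => by ring
  refine ⟨fun j => ip k T (δ ^ 3) * y j, fun e => x0 (funext fun p => ?_),
    fun j => hs _ _ ▸ Subtype.mem _, fun i w hw => ?_, fun j w hw => ?_⟩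
  · have e1 : y p.1 = 0 := Subtype.ext
      ((mul_eq_zero.1 (congrFun e p.1)).resolve_left (hi _ (pow_ne_zero _ d0)))
    exact (map_eq_zero_iff _ (IsFractionRing.injective k[X] (RatFunc k))).1
      (Fintype.linearIndependent_iff.1 b.linearIndependent _
        ((smul_eq_zero.1 e1).resolve_left (inv_ne_zero g1)) p.2)
  · have e1 : A.mulVec (fun j => ip k T (δ ^ 3) * y j) i =
        ∑ l, ip k T (r (i, l)) * (ip k T δ * b l) := by
      have e2 := congrArg (fun z : L => ip k T δ * (z : T)) (c3 i)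
      simp only [IntermediateField.coe_sum, IntermediateField.coe_mul, hs, hB, Finset.mul_sum,
        map_pow] at e2
      simp only [Matrix.mulVec, dotProduct, map_pow]
      exact (Finset.sum_congr rfl fun j _ => by ring).trans
        (e2.trans (Finset.sum_congr rfl fun j _ => by ring))
    rw [e1]
    refine (P.v w).map_sum_le fun l _ => ?_
    rw [map_mul]
    exact mul_le_one' (rpmink_fin P _ hw) (d1 l w hw)
  · have e1 : ip k T (X ^ μ) * (y j : T) =
        ∑ m, ip k T (X ^ μ * x (j, m)) / ip k T g * b m := by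
      dsimp only [y]
      rw [IntermediateField.coe_smul, IntermediateField.coe_sum, Algebra.smul_def, map_inv₀,
        Finset.mul_sum, Finset.mul_sum]
      refine Finset.sum_congr rfl fun m _ => ?_
      rw [hs, map_mul,
        show algebraMap (RatFunc k) T (algebraMap k[X] (RatFunc k) g) = ip k T g from rfl]
      ring
    have e2 : P.q ^ μ = P.v w (ip k T (X ^ μ)) := by
      rw [rpmink_inf P (pow_ne_zero _ X_ne_zero) hw, natDegree_X_pow]
    rw [map_mul, mul_left_comm, e2, ← map_mul, e1, rpmink_inf P (pow_ne_zero _ d0) hw, pow_add]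
    refine mul_le_mul_right ((P.v w).map_sum_le fun m _ => ?_) _
    rw [map_mul, ← one_mul (P.q ^ _)]
    refine mul_le_mul' ?_ ((hC m w hw).trans (pow_le_pow_right₀ hq.le
      (Finset.single_le_sum (f := C) (fun _ _ => Nat.zero_le _) (Finset.mem_univ m))))
    by_cases e : x (j, m) = 0
    · simp [e]
    · rw [map_div₀, rpmink_inf P g0 hw, rpmink_inf P (mul_ne_zero (pow_ne_zero _ X_ne_zero) e) hw,
        natDegree_X_pow_mul _ e]
      exact div_le_one_of_le₀ (pow_le_pow_right₀ hq.le ((c2 _).resolve_left e).le) zero_le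

end JR
end
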