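import Mathlib

-- merged part: Pool.Agent.Work.MP_969914_nt.RBase
section
/-! Definitions for the rational case of the finite index theorem. -/

set_option autoImplicit false

namespace JR

open scoped NNReal ENNReal
open Polynomial

/-! ### Dynamics of `z ↦ (a z² + 1) / (c z² + 1)` -/

def Phi {R : Type} [CommRing R] (a c : R) (Z : R × R) : R × R :=
  (a * Z.1 ^ 2 + Z.2 ^ 2, c * Z.1 ^ 2 + Z.2 ^ 2)

def wedge {R : Type} [CommRing R] (Z W : R × R) : R := Z.1 * W.2 - Z.2 * W.1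

/-- The critical points: `false` is `0`, `true` is `∞`. -/
def crit {R : Type} [CommRing R] (b : Bool) : R × R := if b then (1, 0) else (0, 1)

/-- Homogeneous critical orbits. -/
def orb {R : Type} [CommRing R] (a c : R) (b : Bool) (n : ℕ) : R × R := (Phi a c)^[n] (crit b)

def phi {K : Type} [Field K] (a c z : K) : K := (a * z ^ 2 + 1) / (c * z ^ 2 + 1)

/-- Affine orbit of the critical values: `vv a c b r = φ^(r+1) (crit b)`. -/
def vv {K : Type} [Field K] (a c : K) (b : Bool) (r : ℕ) : K :=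
  (orb a c b (r + 1)).1 / (orb a c b (r + 1)).2

/-- Numerator and denominator of the `j`-th iterate. -/
noncomputable def PQ {R : Type} [CommRing R] (a c : R) (j : ℕ) : R[X] × R[X] :=
  (Phi (C a) (C c))^[j] (X, 1)

noncomputable def Wr {R : Type} [CommRing R] (P Q : R[X]) : R[X] :=
  derivative P * Q - P * derivative Q

/-- The labelling hypothesis (H). -/
structure HypH {K : Type} [Field K] (a c : K) : Prop where
  two : (2 : K) ≠ 0
  ne : a ≠ c
  inj : ∀ m n, wedge (orb a c false m) (orb a c false n) = 0 → m = n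
  sep : ∀ s, 2 ≤ s → wedge (orb a c false s) (orb a c true 2) ≠ 0

/-- Both critical orbits are infinite and disjoint. -/
structure HypEq {K : Type} [Field K] (a c : K) : Prop where
  two : (2 : K) ≠ 0
  ne : a ≠ c
  inj : ∀ b b' m n, wedge (orb a c b m) (orb a c b' n) = 0 → b = b' ∧ m = n

/-- `s` is not postcritical. -/
def Unr {K : Type} [Field K] (a c s : K) : Prop :=
  ∀ b i, wedge (orb a c b (i + 1)) (s, 1) ≠ 0

def IsOrbit {K : Type} [Field K] (a c : K) (z : ℤ → K) : Prop :=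
  ∀ i, c * z i ^ 2 + 1 ≠ 0 ∧ z (i + 1) = phi a c (z i)

/-- `Z` is the full `j`-th preimage of the zero set of the form `F`, where `F` is given by its
pull-back polynomial; all points of `Z` are not postcritical. -/
structure Splits {K : Type} [Field K] (a c : K) (F : K[X]) (N : ℕ) (Z : Finset K) : Prop where
  card : Z.card = N
  unr : ∀ ζ ∈ Z, Unr a c ζ
  eq : ∃ l : K, l ≠ 0 ∧ F = C l * ∏ ζ ∈ Z, (X - C ζ)

/-- The pull-back of `∏ (X - s)` under the `j`-th iterate. -/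
noncomputable def pullS {K : Type} [Field K] (a c : K) (j : ℕ) (S : Finset K) : K[X] :=
  ∏ s ∈ S, ((PQ a c j).1 - C s * (PQ a c j).2)

/-- The polynomial whose roots are the `i`-th preimages of `crit b`. -/
noncomputable def critPoly {K : Type} [Field K] (a c : K) (b : Bool) (i : ℕ) : K[X] :=
  if b then (PQ a c i).2 else (PQ a c i).1

/-- `rho a c a' c' X Y`; `rho = P^D Q - P Q^D`. -/
def rho {R : Type} [CommRing R] (a c a' c' : R) (Z : R × R) : R :=
  Z.1 ^ 2 * (a' * (c * Z.1 ^ 2 + Z.2 ^ 2) - c' * (a * Z.1 ^ 2 + Z.2 ^ 2))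

/-! ### Iterative Hasse derivations -/

structure HD (K : Type) [Field K] where
  E : K →+* PowerSeries K
  c0 : ∀ a, PowerSeries.coeff 0 (E a) = a
  iter : ∀ a i j, PowerSeries.coeff j (E (PowerSeries.coeff i (E a))) =
    ((i + j).choose i : K) * PowerSeries.coeff (i + j) (E a)

noncomputable def HD.D {K : Type} [Field K] (H : HD K) (r : ℕ) (a : K) : K :=
  PowerSeries.coeff r (H.E a)

/-- Compatibility of Hasse derivations along `k0 → K`. -/
def HD.Compat {k0 K : Type} [Field k0] [Field K] [Algebra k0 K] (H0 : HD k0) (H : HD K) : Prop :=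
  ∀ r a, H.D r (algebraMap k0 K a) = algebraMap k0 K (H0.D r a)

/-- Variables: `(false, i)` is the `i`-th jet of `x`, `(true, i)` the `i`-th jet of `y`. -/
abbrev Vr : Type := Bool × ℕ

noncomputable def HD.jet2 {K : Type} [Field K] (H : HD K) (x y : K) : Vr → K :=
  fun s => H.D s.2 (if s.1 then y else x)

section jets
variable {k0 : Type} [Field k0]

/-- `P^E (∑ ξ i T^i)`. -/
noncomputable def evP (H : HD k0) (P : k0[X]) {L : Type} [CommRing L] [Algebra k0 L]
    (ξ : ℕ → L) : PowerSeries L :=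
  P.eval₂ ((PowerSeries.map (algebraMap k0 L)).comp H.E) (PowerSeries.mk ξ)

/-- The map induced on jets by `P / Q`. -/
noncomputable def jpt (H : HD k0) (P Q : k0[X]) {L : Type} [Field L] [Algebra k0 L]
    (ξ : ℕ → L) : ℕ → L :=
  fun i => PowerSeries.coeff i (evP H P ξ * (evP H Q ξ)⁻¹)

noncomputable def jpt2 (H : HD k0) (P Q : k0[X]) {L : Type} [Field L] [Algebra k0 L]
    (ω : Vr → L) : Vr → L :=
  fun s => jpt H P Q (fun i => ω (s.1, i)) s.2

open Classical in
/-- Substitute the constant `c` for the variable `u`. -/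
noncomputable def sub1 {σ : Type} (u : σ) (c : k0) :
    MvPolynomial σ k0 →ₐ[k0] MvPolynomial σ k0 :=
  MvPolynomial.aeval fun s => if s = u then MvPolynomial.C c else MvPolynomial.X s

/-- Substitute constants for the jets of order `0` and `1` on the side `b`. -/
noncomputable def spec2 (b : Bool) (l0 l1 : k0) :
    MvPolynomial Vr k0 →ₐ[k0] MvPolynomial Vr k0 :=
  (sub1 (b, 1) l1).comp (sub1 (b, 0) l0)

/-- All variables of `f` lie in `V`. -/
def On {σ : Type} (V : Set σ) (f : MvPolynomial σ k0) : Prop :=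
  ∀ s, s ∉ V → f.degreeOf s = 0

/-- The coordinates of `ω` in `V` are algebraically independent. -/
def Ind (k0 : Type) [Field k0] {σ L : Type} [Field L] [Algebra k0 L] (ω : σ → L) (V : Set σ) :
    Prop :=
  ∀ f : MvPolynomial σ k0, On V f → MvPolynomial.aeval ω f = 0 → f = 0

/-- Elements algebraic over `k0 (S)`. -/
def acl (k0 : Type) [Field k0] {L : Type} [Field L] [Algebra k0 L] (S : Set L) : Set L :=
  {z | IsAlgebraic (Algebra.adjoin k0 S) z}

/-- `G` generates the ideal of relations of `ω` on the variables `V`. -/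
structure Gen {σ L : Type} [Field L] [Algebra k0 L] (ω : σ → L) (V : Set σ)
    (G : MvPolynomial σ k0) : Prop where
  irr : Irreducible G
  on : On V G
  zero : MvPolynomial.aeval ω G = 0
  dvd : ∀ f, On V f → MvPolynomial.aeval ω f = 0 → G ∣ f

/-- Variables of order `< A` on the `x` side and `< B` on the `y` side. -/
def box (A B : ℕ) : Set Vr := {s | s.2 < if s.1 then B else A}

/-- Standard density, one critical orbit. -/
def Std1 (H : HD k0) (a c : k0) : Prop :=
  ∀ f : MvPolynomial Vr k0, f ≠ 0 → ∀ β : Bool, ∃ R : ℕ, ∀ r, R ≤ r →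
    spec2 β (vv a c false r) (H.D 1 (vv a c false r)) f ≠ 0

/-- Standard density, two points at distant levels. -/
def Std2 (H : HD k0) (a c : k0) : Prop :=
  ∀ f : MvPolynomial Vr k0, f ≠ 0 → ∃ R : ℕ, ∀ b b' r r', R ≤ r → R ≤ r' →
    (r + R ≤ r' ∨ r' + R ≤ r) →
    spec2 false (vv a c b r) (H.D 1 (vv a c b r))
      (spec2 true (vv a c b' r') (H.D 1 (vv a c b' r')) f) ≠ 0

/-- No shift on a curve of bidegree `(d, d)`. -/
def Std3 (a c : k0) : Prop :=
  ∀ G : k0[X][X], Irreducible G → G.natDegree ≠ 0 → (Bivariate.swap G).natDegree = G.natDegree →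
    ∃ R : ℕ, ∀ b b' r r', (R ≤ r ∨ R ≤ r') → G.evalEval (vv a c b r) (vv a c b' r') = 0 → r = r'

end jets

/-! ### Product formula structures -/

structure PF (K Γ : Type) [Field K] [LinearOrderedCommGroupWithZero Γ] where
  W : Type
  v : W → Valuation K Γ
  I : (W → Γ) → ℝ≥0∞
  q : Γ
  one_lt_q : 1 < q
  I_one : I (fun _ => 1) = 0
  I_mono : ∀ f g : W → Γ, (∀ w, f w ≤ max 1 (g w)) → I f ≤ I g
  I_mul : ∀ f g : W → Γ, I (fun w => f w * g w) ≤ I f + I g
  I_pow : ∀ (f : W → Γ) (n : ℕ), (n : ℝ≥0∞) * I f ≤ I (fun w => f w ^ n)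
  pf : ∀ α : K, α ≠ 0 → ∀ f : W → Γ, (∀ w, 1 ≤ f w) → (∀ w, v w α ≤ f w) →
    I (fun w => f w / v w α) ≤ I f

namespace PF
variable {K Γ : Type} [Field K] [LinearOrderedCommGroupWithZero Γ] (N : PF K Γ)

noncomputable def ht (α : K) : ℝ≥0∞ := N.I fun w => N.v w α

open Classical in
noncomputable def mass (E : Set N.W) : ℝ≥0∞ := N.I fun w => if w ∈ E then N.q else 1

/-- Excess of the zeros of `α` over simple zeros. -/
noncomputable def exc (α : K) : ℝ≥0∞ := N.I fun w => (N.q * N.v w α)⁻¹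

/-- The place `w` sees `z` at the critical point `crit b`. -/
def Ev (z : K) (b : Bool) : Set N.W := {w | if b then 1 < N.v w z else N.v w z < 1}

end PF

/-- Product formula structure with a Hasse derivation and regular subfields. -/
structure Loc (p : ℕ) (K Γ : Type) [Field K] [LinearOrderedCommGroupWithZero Γ]
    extends PF K Γ where
  H : HD K
  good : Set W
  R : W → Subfield K
  disc : ∀ w ∈ good, ∀ α ∈ R w, v w α < 1 → v w α ≤ q⁻¹
  tau : ∀ w ∈ good, ∃ τ ∈ R w, v w τ = q⁻¹ ∧ H.E τ = PowerSeries.C τ + PowerSeries.X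
  D_int : ∀ w ∈ good, ∀ α ∈ R w, v w α ≤ 1 → ∀ r, v w (H.D r α) ≤ 1
  D_le : ∀ w ∈ good, ∀ α ∈ R w, ∀ r, v w (H.D r α) ≤ q ^ r * v w α
  D_glob : ∀ r, ∃ C : ℕ, ∀ w α, v w (H.D r α) ≤ q ^ C * v w α
  proot : ∀ α, H.D 1 α = 0 → ∃ β, β ^ p = α

/-- The nonstandard interface. -/
structure NS (p : ℕ) (K Γ : Type) [Field K] [LinearOrderedCommGroupWithZero Γ]
    extends Loc p K Γ where
  good_ae : toPF.mass goodᶜ = 0
  reg_ae : ∀ α, toPF.mass {w | α ∉ R w} = 0
  sqrt0 : ∀ α, toPF.ht α = 0 → ∃ β, β ^ 2 = α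

/-- The standard places of the quadratic closure `T` of a function field `K0` over `k`. -/
structure Std (p : ℕ) (k T : Type) [Field k] [Field T] [Algebra k T]
    extends Loc p T ℝ≥0 where
  t : T
  K0 : IntermediateField k T
  n0 : ℕ
  fin : Set W
  galois : IsGalois K0 T
  t_mem : t ∈ K0
  t_trans : Transcendental k t
  sqrt : ∀ α : T, ∃ β, β ^ 2 = α
  E_k : ∀ c : k, H.E (algebraMap k T c) = PowerSeries.C (algebraMap k T c)
  D_t : H.D 1 t = 1
  D_mem : ∀ z ∈ K0, ∀ r, H.D r z ∈ K0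
  proot0 : ∀ z ∈ K0, H.D 1 z = 0 → ∃ y ∈ K0, y ^ p = z
  v_k : ∀ w (c : k), v w (algebraMap k T c) ≤ 1
  residue : ∀ w z, v w z ≤ 1 → ∃ c : k, v w (z - algebraMap k T c) < 1
  good_fin : good ⊆ fin
  v_t_fin : ∀ w ∈ fin, v w t ≤ 1
  v_t_inf : ∀ w ∉ fin, v w t ≤ q
  mass_inf : toPF.mass finᶜ ≤ 1
  mass_bad : toPF.mass goodᶜ < ⊤
  ht_lt : ∀ z, toPF.ht z < ⊤
  inf_bound : ∀ z, ∃ C : ℕ, ∀ w ∉ fin, v w z ≤ q ^ C
  denom : ∀ z ∈ K0, ∃ u ∈ K0, u ≠ 0 ∧ ∀ w ∈ fin, v w u ≤ 1 ∧ v w (u * z) ≤ 1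
  K0_le : ∀ w ∈ good, ∀ z ∈ K0, z ∈ R w
  vgroup : ∀ w ∈ good, ∀ z ∈ R w, z ≠ 0 → ∃ n : ℤ, v w z = q ^ n
  R_sqrt : ∀ w ∈ good, ∀ z, z ^ 2 ∈ R w → v w z = 1 → z ∈ R w
  R_proot : ∀ w ∈ good, ∀ z, z ^ p ∈ R w → z ∈ R w
  R_D : ∀ w ∈ good, ∀ z ∈ R w, ∀ r, H.D r z ∈ R w
  tau0 : ∀ w ∈ good, ∃ τ ∈ K0, v w τ = q⁻¹ ∧ H.E τ = PowerSeries.C τ + PowerSeries.X
  restr_inf : ∃ s : Finset W, ∀ w ∉ fin, ∃ w' ∈ s, ∀ z ∈ K0, v w z = v w' z
  fibres : ∀ M : ℕ, ∃ (E : Set W) (s : Finset W), E ⊆ good ∧ (M : ℝ≥0∞) ≤ toPF.mass E ∧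
    ∀ w ∈ E, ∃ w' ∈ s, ∀ z ∈ K0, v w z = v w' z
  dim_le : ∀ (L : IntermediateField K0 T), FiniteDimensional K0 L → ∀ (ν : T), ν ≠ 0 →
    ∀ (μ m : ℕ) (z : Fin m → T), LinearIndependent k z → (∀ i, z i ∈ L) →
    (∀ i, ∀ w ∈ fin, v w (ν * z i) ≤ 1) → (∀ i, ∀ w ∉ fin, v w (ν * z i) ≤ q ^ μ) →
    m ≤ n0 * Module.finrank K0 L * (μ + 1)
  mink : ∃ C0 : ℕ, ∀ (ι : Type) [Fintype ι] [DecidableEq ι] (A : Matrix ι ι T) (μ : ℕ),
    (∀ i j, A i j ∈ K0) → (∀ i j, ∀ w ∈ fin, v w (A i j) ≤ 1) → A.det ≠ 0 →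
    ((Fintype.card ι * μ : ℕ) : ℝ≥0∞) <
      I (Set.mulIndicator fin fun w => (v w A.det)⁻¹) →
    ∃ x : ι → T, x ≠ 0 ∧ (∀ i, x i ∈ K0) ∧ (∀ i, ∀ w ∈ fin, v w (A.mulVec x i) ≤ 1) ∧
      ∀ i, ∀ w ∉ fin, q ^ μ * v w (x i) ≤ q ^ C0

/-! ### The tree -/

/-- Level `n` of the tree over `B` (affine points). -/
def lev {K : Type} [Field K] (a c : K) (B : K × K) (n : ℕ) : Set K :=
  {z | wedge ((Phi a c)^[n] (z, 1)) B = 0}

def dl {K : Type} [Field K] (a c z : K) : K := (1 - z) * (c * z - a)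

/-- The data of the normal form. -/
structure Dyn {p : ℕ} {k T : Type} [Field k] [Field T] [Algebra k T] (S : Std p k T) where
  a : T
  c : T
  B : T × T
  a_mem : a ∈ S.K0
  c_mem : c ∈ S.K0
  B_mem : B.1 ∈ S.K0
  B_form : B.2 = 1 ∨ B = (1, 0)
  a_int : ∀ w ∈ S.fin, S.v w a ≤ 1
  c_int : ∀ w ∈ S.fin, S.v w c ≤ 1
  d_unit : ∀ w ∈ S.fin, S.v w (a - c) = 1
  B_int : ∀ w ∈ S.fin, S.v w B.1 ≤ 1
  hypH : HypH a c
  col : ∀ n, 1 ≤ n → wedge (orb a c false n) (orb a c true n) ≠ 0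
  unr : ∀ b i, wedge (orb a c b (i + 1)) B ≠ 0
  nonper : ∀ n, wedge ((Phi a c)^[n + 1] B) B ≠ 0
  aut : c = a ^ 3 → c * B.1 ^ 2 ≠ a * B.2 ^ 2
  der : S.H.D 1 a ≠ 0 ∨ S.H.D 1 c ≠ 0 ∨ (B.2 = 1 ∧ S.H.D 1 B.1 ≠ 0)

namespace Dyn
variable {p : ℕ} {k T : Type} [Field k] [Field T] [Algebra k T] {S : Std p k T} (d : Dyn S)

def V (n : ℕ) : Set T := lev d.a d.c d.B n

/-- The children of `z` are not rational over `K0 (z)`. -/
def GoodStep (z : T) : Prop :=
  ∀ u : T, u ^ 2 = dl d.a d.c z → u ∉ IntermediateField.adjoin S.K0 {z}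

/-- Contact of the critical orbit `b` at time `n` with the finite set `A`. -/
noncomputable def con (b : Bool) (n : ℕ) (A : Finset T) (w : S.W) : ℝ≥0 :=
  ∏ s ∈ A, S.v w (wedge (orb d.a d.c b n) (s, 1))

def GoodSet (n : ℕ) (A : Finset T) : Set S.W :=
  {w | w ∈ S.good ∧ (∀ s ∈ A, S.v w s ≤ 1) ∧
    ((d.con false n A w = S.q⁻¹ ∧ d.con true n A w = 1) ∨
      (d.con false n A w = 1 ∧ d.con true n A w = S.q⁻¹))}

def SimpleSet (n : ℕ) (A : Finset T) : Set S.W :=
  {w | w ∈ S.good ∧ (∀ s ∈ A, S.v w s ≤ 1) ∧ d.con false n A w = S.q⁻¹}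

/-- The uniform lower bound for a family of sets of places. -/
def LowerBd (G : ℕ → Finset T → Set S.W) : Prop :=
  ∃ ε : ℝ≥0, 0 < ε ∧ ∀ σ : ℕ, ∃ (n1 : ℕ) (ε1 : ℝ≥0), 0 < ε1 ∧ ∀ n, n1 ≤ n → ∀ A : Finset T,
    A.card ≤ σ → (∀ s ∈ A, ∃ l, 1 ≤ l ∧ s ∈ d.V l) →
    (∀ s ∈ A, S.toPF.mass {w | s ∉ S.R w} ≤ ε1 * 2 ^ n) →
    (ε : ℝ≥0∞) * A.card * 2 ^ n ≤ S.toPF.mass (G n A)

/-- A branch of the tree, with homogeneous lifts. -/
def IsBranch (Z : ℕ → T × T) : Prop := Z 0 = d.B ∧ ∀ n, Phi d.a d.c (Z (n + 1)) = Z n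

end Dyn

end JR
end

-- merged part: Pool.Agent.Work.MP_969914_nt.RPf
section
/-! Basic theory of product formula structures. -/

set_option autoImplicit false

namespace JR

open scoped NNReal ENNReal
open Polynomial Filter

namespace PF
variable {K Γ : Type} [Field K] [LinearOrderedCommGroupWithZero Γ] (N : PF K Γ)

theorem I_le {f g : N.W → Γ} (h : ∀ w, f w ≤ g w) : N.I f ≤ N.I g := by
  exact N.I_mono f g fun w => (h w).trans (le_max_right _ _)

theorem I_eq_zero {f : N.W → Γ} (h : ∀ w, f w ≤ 1) : N.I f = 0 := by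
  exact le_antisymm ((N.I_le h).trans N.I_one.le) bot_le

theorem I_max_one (f : N.W → Γ) : N.I (fun w => max 1 (f w)) = N.I f := by
  exact le_antisymm (N.I_mono _ _ fun w => le_rfl) (N.I_le fun w => le_max_right _ _)

theorem rpf_l (a b : Γ) : a ≤ max 1 a * max 1 b :=
  (le_max_right 1 a).trans (le_mul_of_one_le_right' (le_max_left _ _))

theorem rpf_r (a b : Γ) : b ≤ max 1 a * max 1 b :=
  (le_max_right 1 b).trans (le_mul_of_one_le_left' (le_max_left _ _))

theorem rpf_mul {f g h : N.W → Γ} {a b : ℝ≥0∞} (e : ∀ w, h w ≤ f w * g w) (ha : N.I f ≤ a)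
    (hb : N.I g ≤ b) : N.I h ≤ a + b :=
  (N.I_le e).trans ((N.I_mul f g).trans (add_le_add ha hb))

theorem I_max_le (f g : N.W → Γ) : N.I (fun w => max (f w) (g w)) ≤ N.I f + N.I g := by
  exact N.rpf_mul (fun w => max_le (rpf_l _ _) (rpf_r _ _)) (N.I_max_one f).le (N.I_max_one g).le

theorem I_pow_eq (f : N.W → Γ) (n : ℕ) : N.I (fun w => f w ^ n) = n * N.I f := by
  refine le_antisymm ?_ (N.I_pow f n)
  induction n with
  | zero => exact (N.I_eq_zero fun w => (pow_zero _).le).trans_le bot_le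
  | succ n ih =>
    rw [Nat.cast_succ, add_mul, one_mul]
    exact N.rpf_mul (fun w => (pow_succ _ _).le) ih le_rfl

theorem I_prod_le {ι : Type} (s : Finset ι) (f : ι → N.W → Γ) :
    N.I (fun w => ∏ i ∈ s, f i w) ≤ ∑ i ∈ s, N.I (f i) := by
  classical
  induction s using Finset.induction_on with
  | empty => exact (N.I_eq_zero fun w => (Finset.prod_empty).le).trans_le bot_le
  | insert a s ha ih =>
    rw [Finset.sum_insert ha]
    exact N.rpf_mul (fun w => (Finset.prod_insert ha).le) le_rfl ih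

theorem ht_mul_le (α β : K) : N.ht (α * β) ≤ N.ht α + N.ht β := by
  exact N.rpf_mul (fun w => (map_mul _ _ _).le) le_rfl le_rfl

theorem ht_add_le (α β : K) : N.ht (α + β) ≤ N.ht α + N.ht β := by
  exact (N.I_le fun w => (N.v w).map_add α β).trans (N.I_max_le _ _)

theorem ht_neg (α : K) : N.ht (-α) = N.ht α := by
  simp only [ht, Valuation.map_neg]

theorem rpf_div {α β : K} (hβ : β ≠ 0) {f : N.W → Γ} (h1 : ∀ w, 1 ≤ f w)
    (ha : ∀ w, N.v w α ≤ f w) (hb : ∀ w, N.v w β ≤ f w) : N.ht (α / β) ≤ N.I f := by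
  refine (N.I_le fun w => ?_).trans (N.pf β hβ f h1 hb)
  rw [map_div₀, div_eq_mul_inv, div_eq_mul_inv]
  exact mul_le_mul_left (ha w) _

theorem rpf_inv (α : K) : N.ht α⁻¹ ≤ N.ht α := by
  by_cases h : α = 0
  · rw [h, inv_zero]
  · rw [← one_div]
    exact (N.rpf_div h (fun w => le_max_left _ _) (fun w => (map_one _).le.trans (le_max_left _ _))
      fun w => le_max_right _ _).trans (N.I_max_one _).le

theorem ht_inv (α : K) : N.ht α⁻¹ = N.ht α := by
  exact le_antisymm (N.rpf_inv α) (by simpa using N.rpf_inv α⁻¹)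

theorem ht_pow (α : K) (n : ℕ) : N.ht (α ^ n) = n * N.ht α := by
  simp only [ht, map_pow, I_pow_eq]

theorem ht_natCast (n : ℕ) : N.ht (n : K) = 0 := by
  refine N.I_eq_zero fun w => ?_
  induction n with
  | zero => simp
  | succ n ih => rw [Nat.cast_succ]; exact (N.v w).map_add_le ih (map_one _).le

/-- Projective form of the product formula. -/
theorem ht_div_le {α β : K} (hβ : β ≠ 0) {f : N.W → Γ} (h1 : ∀ w, 1 ≤ f w)
    (ha : ∀ w, N.v w α ≤ f w) (hb : ∀ w, N.v w β ≤ f w) : N.ht (α / β) ≤ N.I f := by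
  exact N.rpf_div hβ h1 ha hb

theorem mass_mono {E F : Set N.W} (h : E ⊆ F) : N.mass E ≤ N.mass F := by
  refine N.I_mono _ _ fun w => ?_
  by_cases e : w ∈ E
  · rw [if_pos e, if_pos (h e)]
    exact le_max_right _ _
  · rw [if_neg e]
    exact le_max_left _ _

theorem mass_empty : N.mass ∅ = 0 := by
  exact N.I_eq_zero fun w => (if_neg (Set.notMem_empty w)).le

theorem mass_union_le (E F : Set N.W) : N.mass (E ∪ F) ≤ N.mass E + N.mass F := by
  refine (N.I_le fun w => ?_).trans (N.I_max_le _ _)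
  by_cases e : w ∈ E
  · rw [if_pos (Set.mem_union_left F e), if_pos e]
    exact le_max_left _ _
  · by_cases e' : w ∈ F
    · rw [if_pos (Set.mem_union_right E e'), if_pos e']
      exact le_max_right _ _
    · rw [if_neg (fun h : w ∈ E ∪ F => h.elim e e'), if_neg e]
      exact le_max_left _ _

theorem mass_biUnion_le {ι : Type} (s : Finset ι) (E : ι → Set N.W) :
    N.mass (⋃ i ∈ s, E i) ≤ ∑ i ∈ s, N.mass (E i) := by
  classical
  induction s using Finset.induction_on with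
  | empty => simpa using N.mass_empty
  | insert a s ha ih =>
    rw [Finset.sum_insert ha, Finset.set_biUnion_insert]
    exact (N.mass_union_le _ _).trans (add_le_add le_rfl ih)

/-- A function bounded by `q ^ C` on `E` and by `1` elsewhere. -/
theorem I_le_mass {f : N.W → Γ} {E : Set N.W} {C : ℕ} (h1 : ∀ w ∈ E, f w ≤ N.q ^ C)
    (h2 : ∀ w ∉ E, f w ≤ 1) : N.I f ≤ C * N.mass E := by
  rw [mass, ← I_pow_eq]
  refine N.I_le fun w => ?_
  by_cases e : w ∈ E
  · rw [if_pos e]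
    exact h1 w e
  · rw [if_neg e, one_pow]
    exact h2 w e

theorem mass_le_I {f : N.W → Γ} {E : Set N.W} {m : ℕ} (h : ∀ w ∈ E, N.q ^ m ≤ f w) :
    m * N.mass E ≤ N.I f := by
  rw [mass, ← I_pow_eq]
  refine N.I_mono _ _ fun w => ?_
  by_cases e : w ∈ E
  · rw [if_pos e]
    exact (h w e).trans (le_max_right _ _)
  · rw [if_neg e, one_pow]
    exact le_max_left _ _

theorem mass_le_exc {α : K} (hα : α ≠ 0) :
    N.mass {w | N.v w α ≤ N.q⁻¹ ^ 2} ≤ N.exc α := by
  have hq : 0 < N.q := zero_lt_one.trans N.one_lt_q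
  refine le_trans (by simp)
    (N.mass_le_I (m := 1) (E := {w | N.v w α ≤ N.q⁻¹ ^ 2}) fun w hw => ?_)
  have h0 : 0 < N.v w α := (N.v w).pos_iff.2 hα
  rw [pow_one, le_inv_comm₀ hq (mul_pos hq h0)]
  refine (mul_le_mul_right (show N.v w α ≤ N.q⁻¹ ^ 2 from hw) _).trans_eq ?_
  rw [sq, mul_inv_cancel_left₀ hq.ne']

theorem ht_le_mass_add_exc (α : K) :
    N.ht α ≤ N.mass {w | N.v w α < 1} + N.exc α := by
  classical
  have hq : 0 < N.q := zero_lt_one.trans N.one_lt_q
  rw [← N.ht_inv]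
  refine (N.I_mono _ _ fun w => ?_).trans (N.I_mul _ _)
  rw [map_inv₀]
  by_cases e : N.v w α < 1
  · rw [if_pos (show w ∈ {w | N.v w α < 1} from e), mul_inv, mul_inv_cancel_left₀ hq.ne']
    exact le_max_right _ _
  · exact (inv_le_one_of_one_le₀ (not_lt.1 e)).trans (le_max_left _ _)

/-- The filter of sets with null complement. -/
def ae : Filter N.W where
  sets := {E | N.mass Eᶜ = 0}
  univ_sets := by simpa using N.mass_empty
  sets_of_superset := fun {x y} hx hxy =>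
    le_antisymm ((N.mass_mono (Set.compl_subset_compl.2 hxy)).trans (le_of_eq hx)) bot_le
  inter_sets := fun {x y} hx hy => by
    have h := N.mass_union_le xᶜ yᶜ
    rw [← Set.compl_inter, show N.mass xᶜ = 0 from hx, show N.mass yᶜ = 0 from hy, add_zero] at h
    exact le_antisymm h bot_le

theorem eventually_ae_iff {P : N.W → Prop} :
    (∀ᶠ w in N.ae, P w) ↔ N.mass {w | ¬ P w} = 0 := Iff.rfl

theorem mass_mono_ae {E F : Set N.W} (h : ∀ᶠ w in N.ae, w ∈ E → w ∈ F) :
    N.mass E ≤ N.mass F := by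
  have h1 : E ⊆ F ∪ {w | ¬ (w ∈ E → w ∈ F)} := fun w hw => by
    by_cases e : w ∈ F
    exacts [Or.inl e, Or.inr fun h => e (h hw)]
  refine (N.mass_mono h1).trans ((N.mass_union_le _ _).trans ?_)
  rw [N.eventually_ae_iff.1 h, add_zero]

/-- The elements of height zero. -/
def k0 : Subfield K where
  carrier := {α | N.ht α = 0}
  mul_mem' := fun {a b} ha hb => le_antisymm ((N.ht_mul_le a b).trans (by
    rw [show N.ht a = 0 from ha, show N.ht b = 0 from hb, add_zero])) bot_le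
  one_mem' := by simpa using N.ht_natCast 1
  add_mem' := fun {a b} ha hb => le_antisymm ((N.ht_add_le a b).trans (by
    rw [show N.ht a = 0 from ha, show N.ht b = 0 from hb, add_zero])) bot_le
  zero_mem' := by simpa using N.ht_natCast 0
  neg_mem' := fun {a} ha => (N.ht_neg a).trans ha
  inv_mem' := fun a ha => (N.ht_inv a).trans ha

theorem mem_k0 {α : K} : α ∈ N.k0 ↔ N.ht α = 0 := Iff.rfl

theorem rpf_prod {ι : Type} (s : Finset ι) (c : ι → K) :
    N.I (fun w => ∏ i ∈ s, max 1 (N.v w (c i))) ≤ ∑ i ∈ s, N.ht (c i) :=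
  (N.I_prod_le s _).trans (Finset.sum_le_sum fun _ _ => (N.I_max_one _).le)

theorem rpf_prod0 {ι : Type} (s : Finset ι) (c : ι → N.k0) :
    N.I (fun w => ∏ i ∈ s, max 1 (N.v w (c i))) = 0 :=
  le_antisymm ((N.rpf_prod s _).trans (Finset.sum_eq_zero fun i _ => (c i).2).le) bot_le

theorem rpf_one_le {ι : Type} (s : Finset ι) (c : ι → Γ) : 1 ≤ ∏ i ∈ s, max 1 (c i) :=
  Finset.one_le_prod' fun _ _ => le_max_left _ _

theorem rpf_le {ι : Type} {s : Finset ι} (c : ι → Γ) {i : ι} (h : i ∈ s) :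
    c i ≤ ∏ i ∈ s, max 1 (c i) :=
  (le_max_right _ _).trans
    (Finset.single_le_prod' (f := fun i => max 1 (c i)) (fun _ _ => le_max_left _ _) h)

theorem rpf_pow (a : Γ) {i n : ℕ} (h : i ≤ n) : a ^ i ≤ max 1 a ^ n :=
  (pow_le_pow_left' (le_max_right _ _) _).trans (pow_le_pow_right' (le_max_left _ _) h)

theorem rpf_Ipow (z : K) (n : ℕ) : N.I (fun w => max 1 (N.v w z) ^ n) = n * N.ht z := by
  rw [I_pow_eq, I_max_one, ht]

theorem rpf_eval (v : Valuation K Γ) (P : K[X]) (x : K) {n : ℕ} (hn : P.natDegree ≤ n) {g : Γ}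
    (h : ∀ i, v (P.coeff i) ≤ g) : v (P.eval x) ≤ g * max 1 (v x) ^ n := by
  rw [eval_eq_sum_range]
  refine v.map_sum_le fun i hi => ?_
  rw [map_mul, map_pow]
  exact mul_le_mul' (h i) (rpf_pow _ (by have := Finset.mem_range.1 hi; omega))

/-- Size of a polynomial value; `ν` collects the coefficients. -/
theorem v_aeval_le {σ : Type} (f : MvPolynomial σ N.k0) :
    ∃ ν : N.W → Γ, N.I ν = 0 ∧ (∀ w, 1 ≤ ν w) ∧ ∀ (w : N.W) (ω : σ → K),
      N.v w (MvPolynomial.aeval ω f) ≤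
        ν w * ∏ s ∈ f.vars, max 1 (N.v w (ω s)) ^ f.degreeOf s := by
  refine ⟨fun w => ∏ d ∈ f.support, max 1 (N.v w (f.coeff d : N.k0)), N.rpf_prod0 _ _,
    fun w => rpf_one_le _ _, fun w ω => ?_⟩
  rw [MvPolynomial.aeval_def, MvPolynomial.eval₂_eq]
  refine (N.v w).map_sum_le fun d hd => ?_
  rw [map_mul, map_prod]
  refine mul_le_mul' (rpf_le (fun d => N.v w (f.coeff d : N.k0)) hd) ?_
  refine (Finset.prod_le_prod' fun s _ => ?_).trans (Finset.prod_le_prod_of_subset_of_one_le'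
    (fun s hs => (MvPolynomial.mem_vars_iff_mem_support s).2 ⟨d, hd, hs⟩)
    fun s _ _ => one_le_pow_of_one_le' (le_max_left _ _) _)
  rw [map_pow]
  exact rpf_pow _ (MvPolynomial.monomial_le_degreeOf s hd)

theorem ht_aeval_le {σ : Type} (f : MvPolynomial σ N.k0) (ω : σ → K) (V : Finset σ) (M : σ → ℕ)
    (hV : On (V : Set σ) f) (hM : ∀ s ∈ V, f.degreeOf s ≤ M s) :
    N.ht (MvPolynomial.aeval ω f) ≤ ∑ s ∈ V, M s * N.ht (ω s) := by
  obtain ⟨ν, h1, -, h3⟩ := N.v_aeval_le f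
  have h4 : f.vars ⊆ V := fun s hs => by
    by_contra e
    exact MvPolynomial.mem_vars_iff_degreeOf_ne_zero.1 hs (hV s e)
  refine (N.rpf_mul (fun w => h3 w ω) h1.le (N.I_prod_le _ _)).trans ?_
  rw [zero_add]
  refine (Finset.sum_le_sum fun s hs => ?_).trans (Finset.sum_le_sum_of_subset h4)
  rw [rpf_Ipow]
  exact mul_le_mul_left (Nat.cast_le.2 (hM s (h4 hs))) _

theorem ht_poly {F : N.k0[X]} (hF : F ≠ 0) (z : K) :
    N.ht (aeval z F) = F.natDegree * N.ht z := by
  have hc : ∀ (G : N.k0[X]) w i, N.v w (G.coeff i : N.k0) ≤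
      ∏ i ∈ G.support, max 1 (N.v w (G.coeff i : N.k0)) := fun G w i => by
    by_cases e : i ∈ G.support
    · exact rpf_le (fun i => N.v w (G.coeff i : N.k0)) e
    · rw [notMem_support_iff.1 e]
      simp
  have he : ∀ (G : N.k0[X]) w n, G.natDegree ≤ n → N.v w (aeval z G) ≤
      (∏ i ∈ G.support, max 1 (N.v w (G.coeff i : N.k0))) * max 1 (N.v w z) ^ n :=
    fun G w n hn => by
      rw [← eval_map_algebraMap]
      exact rpf_eval _ _ _ (natDegree_map_le.trans hn) fun i => by rw [coeff_map]; exact hc G w i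
  refine le_antisymm ((N.rpf_mul (fun w => he F w _ le_rfl) (N.rpf_prod0 _ _).le
    (N.rpf_Ipow z _).le).trans_eq (zero_add _)) ?_
  rcases Nat.eq_zero_or_pos F.natDegree with h0 | h0
  · simp [h0]
  have hl : F.leadingCoeff ≠ 0 := leadingCoeff_ne_zero.2 hF
  obtain ⟨G, hG⟩ : ∃ G, G = C F.leadingCoeff⁻¹ * F.eraseLead := ⟨_, rfl⟩
  have h1 : G.natDegree ≤ F.natDegree - 1 :=
    hG ▸ (natDegree_C_mul_le _ _).trans (eraseLead_natDegree_le F)
  have h2 : z ^ F.natDegree + aeval z G = (F.leadingCoeff⁻¹ : N.k0) * aeval z F := by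
    have h3 : X ^ F.natDegree + G = C F.leadingCoeff⁻¹ * F := by
      conv_rhs => arg 2; rw [← eraseLead_add_C_mul_X_pow F]
      rw [hG, mul_add, ← mul_assoc, ← C_mul, inv_mul_cancel₀ hl, C_1, one_mul, add_comm]
    have h4 := congrArg (aeval z) h3
    rwa [map_add, map_mul, aeval_X_pow, aeval_C] at h4
  rw [ht, ← I_pow_eq]
  have h5 : N.I (fun w => (∏ i ∈ G.support, max 1 (N.v w (G.coeff i : N.k0))) ^ F.natDegree) ≤
      0 := by rw [I_pow_eq, rpf_prod0, mul_zero]
  refine ((N.I_le fun w => ?_).trans (N.I_max_le _ _)).trans ((add_le_add h5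
    ((N.ht_mul_le (F.leadingCoeff⁻¹ : N.k0) (aeval z F)).trans
      (add_le_add (le_of_eq (F.leadingCoeff⁻¹ : N.k0).2) le_rfl))).trans_eq (by simp))
  rcases le_or_gt (N.v w z) (∏ i ∈ G.support, max 1 (N.v w (G.coeff i : N.k0))) with e | e
  · exact (pow_le_pow_left' e _).trans (le_max_left _ _)
  · refine le_trans (le_of_eq ?_) (le_max_right _ _)
    have e1 : 1 < N.v w z := (rpf_one_le _ _).trans_lt e
    rw [← h2, (N.v w).map_add_eq_of_lt_left, map_pow]
    refine (he G w _ h1).trans_lt ?_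
    rw [max_eq_right e1.le, map_pow]
    conv_rhs => rw [← Nat.sub_add_cancel h0, pow_succ']
    exact mul_lt_mul_of_pos_right e (pow_pos (zero_lt_one.trans e1) _)

theorem ht_eq_zero_of_isAlgebraic {z : K} (h : IsAlgebraic N.k0 z) : N.ht z = 0 := by
  obtain ⟨F, hF, h0⟩ := h
  have h1 := N.ht_poly hF z
  have h2 : N.ht 0 = 0 := N.k0.zero_mem
  rw [h0, h2] at h1
  refine (mul_eq_zero.1 h1.symm).resolve_left fun e => hF ?_
  rw [eq_C_of_natDegree_eq_zero (Nat.cast_eq_zero.1 e)] at h0 ⊢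
  rw [aeval_C, map_eq_zero] at h0
  rw [h0, C_0]

/-- Upper bound for the height of `A (x, y) / B (x, y)` with coefficients in `K`. -/
theorem ht_div_evalEval (A B : K[X][X]) : ∃ s : Finset K,
    (∀ α ∈ s, ∃ i j, α = (A.coeff i).coeff j ∨ α = (B.coeff i).coeff j) ∧ ∀ (x y : K) (M e : ℕ),
    A.natDegree ≤ e → B.natDegree ≤ e → (∀ i, (A.coeff i).natDegree ≤ M) →
    (∀ i, (B.coeff i).natDegree ≤ M) → B.evalEval x y ≠ 0 →
    N.ht (A.evalEval x y / B.evalEval x y) ≤ M * N.ht x + e * N.ht y + ∑ α ∈ s, N.ht α := by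
  classical
  have hs : ∀ A : K[X][X], ∃ s : Finset K, (∀ α ∈ s, ∃ i j, α = (A.coeff i).coeff j) ∧
      ∀ i j, (A.coeff i).coeff j ≠ 0 → (A.coeff i).coeff j ∈ s := fun A => by
    refine ⟨A.support.biUnion fun i => (A.coeff i).coeffs, fun α h => ?_, fun i j h => ?_⟩
    · obtain ⟨i, -, h⟩ := Finset.mem_biUnion.1 h
      obtain ⟨j, -, h⟩ := mem_coeffs_iff.1 h
      exact ⟨i, j, h⟩
    · exact Finset.mem_biUnion.2 ⟨i, mem_support_iff.2 fun e => h (by rw [e, coeff_zero]),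
        coeff_mem_coeffs h⟩
  obtain ⟨s, h1, h2⟩ := hs A
  obtain ⟨t, h3, h4⟩ := hs B
  refine ⟨s ∪ t, fun α h => (Finset.mem_union.1 h).elim
    (fun h => (h1 α h).imp fun _ h => h.imp fun _ => Or.inl)
    (fun h => (h3 α h).imp fun _ h => h.imp fun _ => Or.inr), fun x y M e a1 a2 a3 a4 a5 => ?_⟩
  have key : ∀ (A : K[X][X]), A.natDegree ≤ e → (∀ i, (A.coeff i).natDegree ≤ M) →
      (∀ i j, (A.coeff i).coeff j ≠ 0 → (A.coeff i).coeff j ∈ s ∪ t) → ∀ w,
      N.v w (A.evalEval x y) ≤ max 1 (N.v w x) ^ M * max 1 (N.v w y) ^ e *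
        ∏ α ∈ s ∪ t, max 1 (N.v w α) := fun A b1 b2 b3 w => by
    rw [← map_evalRingHom_eval, mul_right_comm, mul_comm (_ ^ M)]
    refine rpf_eval _ _ _ (natDegree_map_le.trans b1) fun i => ?_
    rw [coeff_map, coe_evalRingHom]
    refine rpf_eval _ _ _ (b2 i) fun j => ?_
    by_cases h : (A.coeff i).coeff j = 0
    · rw [h]
      simp
    · exact rpf_le (fun α => N.v w α) (b3 i j h)
  refine (N.ht_div_le a5 (fun w => ?_) (key A a1 a3 fun i j h => Finset.mem_union_left _ (h2 i j h))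
    (key B a2 a4 fun i j h => Finset.mem_union_right _ (h4 i j h))).trans
    (N.rpf_mul (fun _ => le_rfl) (N.rpf_mul (fun _ => le_rfl) (N.rpf_Ipow x M).le
      (N.rpf_Ipow y e).le) (N.rpf_prod _ fun α => α))
  exact one_le_mul (one_le_mul (one_le_pow_of_one_le' (le_max_left _ _) _)
    (one_le_pow_of_one_le' (le_max_left _ _) _)) (rpf_one_le _ _)

theorem ht_phi_le (a c z : K) : N.ht (phi a c z) ≤ 2 * N.ht z + (N.ht a + N.ht c) := by
  by_cases h : c * z ^ 2 + 1 = 0
  · rw [phi, h, div_zero]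
    exact (show N.ht 0 = 0 from N.k0.zero_mem).trans_le bot_le
  have h1 : ∀ w, 1 ≤ max 1 (N.v w z) ^ 2 * (max 1 (N.v w a) * max 1 (N.v w c)) := fun w =>
    one_le_mul (one_le_pow_of_one_le' (le_max_left _ _) _)
      (one_le_mul (le_max_left _ _) (le_max_left _ _))
  refine (N.ht_div_le h h1 (fun w => ?_) fun w => ?_).trans (N.rpf_mul (fun _ => le_rfl)
    (N.rpf_Ipow z 2).le (N.rpf_mul (fun _ => le_rfl) (N.I_max_one _).le (N.I_max_one _).le))
  all_goals
    refine (N.v w).map_add_le ?_ ((map_one _).le.trans (h1 w))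
    rw [map_mul, map_pow, mul_comm]
  exacts [mul_le_mul' (rpf_pow _ le_rfl) (rpf_l _ _), mul_le_mul' (rpf_pow _ le_rfl) (rpf_r _ _)]

theorem le_ht_phi {a c : K} (h : a ≠ c) {z : K} (hz : c * z ^ 2 + 1 ≠ 0) :
    2 * N.ht z ≤ N.ht (phi a c z) + 2 * (N.ht a + N.ht c) := by
  have h0 : a - c * phi a c z = (a - c) / (c * z ^ 2 + 1) := by
    rw [phi]
    field_simp
    ring
  have h1 : a - c * phi a c z ≠ 0 := h0 ▸ div_ne_zero (sub_ne_zero.2 h) hz
  have h2 : z ^ 2 = (phi a c z - 1) / (a - c * phi a c z) := by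
    rw [eq_div_iff h1, h0, phi, div_sub_one hz, ← mul_div_assoc]
    congr 1
    ring
  have h3 : ∀ w, max 1 (N.v w (phi a c z)) ≤
      max 1 (N.v w (phi a c z)) * (max 1 (N.v w a) * max 1 (N.v w c)) := fun w =>
    le_mul_of_one_le_right' (one_le_mul (le_max_left _ _) (le_max_left _ _))
  have h4 := N.ht_pow z 2
  rw [Nat.cast_ofNat] at h4
  rw [← h4, h2]
  refine (N.ht_div_le h1 (fun w => (le_max_left _ _).trans (h3 w)) (fun w => ?_) fun w => ?_).trans
    (N.rpf_mul (fun _ => le_rfl) (N.I_max_one _).le ((N.rpf_mul (fun _ => le_rfl)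
      (N.I_max_one _).le (N.I_max_one _).le).trans ?_))
  · exact ((N.v w).map_sub_le (le_max_right _ _) ((map_one _).le.trans (le_max_left _ _))).trans
      (h3 w)
  · refine (N.v w).map_sub_le ((rpf_l _ _).trans (le_mul_of_one_le_left' (le_max_left _ _))) ?_
    rw [map_mul, mul_comm]
    exact mul_le_mul' (le_max_right _ _) (rpf_r _ _)
  · rw [two_mul]
    exact le_self_add

end PF

end JR
end

-- merged part: Pool.Agent.Work.MP_969914_nt.RHd
section
/-! Elementary properties of Hasse derivations. -/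

set_option autoImplicit false

namespace JR

open Polynomial

namespace HD
variable {K : Type} [Field K] (H : HD K)

theorem D_zero (a : K) : H.D 0 a = a := H.c0 a

theorem D_add (r : ℕ) (a b : K) : H.D r (a + b) = H.D r a + H.D r b := by simp [D]

theorem D_neg (r : ℕ) (a : K) : H.D r (-a) = -H.D r a := by simp [D]

theorem D_sub (r : ℕ) (a b : K) : H.D r (a - b) = H.D r a - H.D r b := by simp [D]

theorem D_mul (r : ℕ) (a b : K) :
    H.D r (a * b) = ∑ x ∈ Finset.HasAntidiagonal.antidiagonal r, H.D x.1 a * H.D x.2 b := by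
  simp [D, PowerSeries.coeff_mul]

theorem D1_mul (a b : K) : H.D 1 (a * b) = a * H.D 1 b + H.D 1 a * b := by
  rw [D_mul, Finset.Nat.antidiagonal_succ]
  simp [D_zero]

theorem D_of_zero (r : ℕ) : H.D r 0 = 0 := by simp [D]

theorem D_one (r : ℕ) : H.D (r + 1) 1 = 0 := by simp [D, PowerSeries.coeff_one]

theorem D_D (i j : ℕ) (a : K) : H.D j (H.D i a) = ((i + j).choose i : K) * H.D (i + j) a :=
  H.iter a i j

theorem E_eq_mk (a : K) : H.E a = PowerSeries.mk fun r => H.D r a := by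
  ext r; simp [D]

/-- `D 1` as a derivation over the integers. -/
noncomputable def der : Derivation ℤ K K :=
  Derivation.mk' (AddMonoidHom.mk' (H.D 1) (H.D_add 1)).toIntLinearMap fun a b => by
    simp [H.D1_mul, mul_comm]

theorem der_apply (a : K) : H.der a = H.D 1 a := rfl

/-- Restriction to a stable subfield. -/
noncomputable def restrict (L : Subfield K) (h : ∀ a ∈ L, ∀ r, H.D r a ∈ L) : HD L where
  E :=
    { toFun := fun a => PowerSeries.mk fun r => ⟨H.D r a, h a a.2 r⟩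
      map_one' := by
        ext r
        cases r with
        | zero => simp [D_zero]
        | succ r => simp [D_one, PowerSeries.coeff_one]
      map_mul' := fun a b => by
        ext r
        simp [PowerSeries.coeff_mul, D_mul]
      map_zero' := by ext r; simp [D_of_zero]
      map_add' := fun a b => by ext r; simp [D_add] }
  c0 := fun a => by ext; simp [D_zero]
  iter := fun a i j => by ext; simp [D_D]

theorem restrict_compat (L : Subfield K) (h : ∀ a ∈ L, ∀ r, H.D r a ∈ L) :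
    (H.restrict L h).Compat H := fun r a => by
  simp [D, restrict]; rfl

theorem D_pow_char (p : ℕ) [Fact p.Prime] [CharP K p] (a : K) {r : ℕ} (h : ¬ p ∣ r) :
    H.D r (a ^ p) = 0 := by
  have hp : 0 < p := (Fact.out : p.Prime).pos
  have h1 : H.D r (a ^ p) = (PowerSeries.trunc (r + 1) (H.E a ^ p)).coeff r := by
    rw [PowerSeries.coeff_trunc, if_pos (Nat.lt_succ_self r), D, map_pow]
  rw [h1, ← PowerSeries.trunc_trunc_pow, PowerSeries.coeff_trunc, if_pos (Nat.lt_succ_self r),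
    ← Polynomial.coe_pow, Polynomial.coeff_coe, ← Polynomial.map_frobenius_expand p, Polynomial.coeff_map,
    Polynomial.coeff_expand hp, if_neg h, map_zero]

variable {k0 : Type} [Field k0] [Algebra k0 K] {H0 : HD k0}

/-- Chain rule for polynomials in one variable. -/
theorem D1_aeval (hc : H0.Compat H) (F : k0[X]) (z : K) :
    H.D 1 (aeval z F) = aeval z (derivative F) * H.D 1 z +
      aeval z (F.sum fun i a => monomial i (H0.D 1 a)) := by
  induction F using Polynomial.induction_on' with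
  | add P Q hP hQ =>
    rw [Polynomial.sum_add_index _ _ _ (fun i => by simp [D_of_zero])
      (fun i a b => by simp [D_add])]
    simp only [map_add, D_add, hP, hQ]
    ring
  | monomial n a =>
    rw [Polynomial.sum_monomial_index _ _ (by simp [D_of_zero])]
    have hz : H.D 1 (z ^ n) = n * z ^ (n - 1) * H.D 1 z := by
      have := H.der.leibniz_pow z n
      rw [der_apply, der_apply, nsmul_eq_mul, smul_eq_mul, ← mul_assoc] at this
      exact this
    simp only [derivative_monomial, aeval_monomial, D1_mul, hz, hc 1 a, map_mul, map_natCast]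
    ring

theorem E_aeval (hc : H0.Compat H) (F : k0[X]) (z : K) :
    H.E (aeval z F) = evP H0 F fun r => H.D r z := by
  have e : H.E.comp (algebraMap k0 K) = (PowerSeries.map (algebraMap k0 K)).comp H0.E := by
    ext a r
    simpa [D] using hc r a
  rw [aeval_def, Polynomial.hom_eval₂, evP, e, ← E_eq_mk]

theorem jet_div (hc : H0.Compat H) (P Q : k0[X]) (z : K) (hQ : aeval z Q ≠ 0) (i : ℕ) :
    H.D i (aeval z P / aeval z Q) = jpt H0 P Q (fun r => H.D r z) i := by
  have h0 : PowerSeries.constantCoeff (H.E (aeval z Q)) ≠ 0 := by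
    rw [← PowerSeries.coeff_zero_eq_constantCoeff_apply, H.c0]; exact hQ
  have h1 : H.E (aeval z P / aeval z Q) = H.E (aeval z P) * (H.E (aeval z Q))⁻¹ := by
    rw [PowerSeries.eq_mul_inv_iff_mul_eq h0, ← map_mul, div_mul_cancel₀ _ hQ]
  rw [jpt, ← H.E_aeval hc, ← H.E_aeval hc, ← h1, D]

theorem jet2_div (hc : H0.Compat H) (P Q : k0[X]) (x y : K) (hx : aeval x Q ≠ 0)
    (hy : aeval y Q ≠ 0) :
    H.jet2 (aeval x P / aeval x Q) (aeval y P / aeval y Q) = jpt2 H0 P Q (H.jet2 x y) := by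
  funext s
  obtain ⟨b, i⟩ := s
  cases b
  · simpa [jet2, jpt2] using H.jet_div hc P Q x hx i
  · simpa [jet2, jpt2] using H.jet_div hc P Q y hy i

end HD

end JR
end

-- merged part: Pool.Agent.Work.MP_969914_nt.RAcl
section
/-! Algebraic dependence toolkit. -/

set_option autoImplicit false

namespace JR

open Polynomial

section on
variable {k0 σ : Type} [Field k0] {V V' : Set σ} {f g : MvPolynomial σ k0}

theorem On.mono (h : On V f) (hV : V ⊆ V') : On V' f := fun s hs => h s fun h' => hs (hV h')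

theorem racl_on : On V f ↔ f ∈ MvPolynomial.supported k0 V := by
  rw [MvPolynomial.mem_supported]
  refine ⟨fun h s hs => ?_, fun h s hs => ?_⟩
  · by_contra hV
    exact MvPolynomial.mem_vars_iff_degreeOf_ne_zero.1 hs (h s hV)
  · by_contra hd
    exact hs (h (MvPolynomial.mem_vars_iff_degreeOf_ne_zero.2 hd))

theorem On.C (r : k0) : On V (MvPolynomial.C r : MvPolynomial σ k0) := racl_on.2 (Subalgebra.algebraMap_mem _ r)

theorem On.X {s : σ} (hs : s ∈ V) : On V (MvPolynomial.X s : MvPolynomial σ k0) :=   racl_on.2 (MvPolynomial.X_mem_supported.2 hs)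

theorem On.add (hf : On V f) (hg : On V g) : On V (f + g) :=   racl_on.2 (add_mem (racl_on.1 hf) (racl_on.1 hg))

theorem On.sub (hf : On V f) (hg : On V g) : On V (f - g) :=   racl_on.2 (sub_mem (racl_on.1 hf) (racl_on.1 hg))

theorem On.mul (hf : On V f) (hg : On V g) : On V (f * g) :=   racl_on.2 (mul_mem (racl_on.1 hf) (racl_on.1 hg))

theorem On.pow (hf : On V f) (n : ℕ) : On V (f ^ n) := racl_on.2 (pow_mem (racl_on.1 hf) n)

theorem On.sum {ι : Type} {s : Finset ι} {F : ι → MvPolynomial σ k0} (h : ∀ i ∈ s, On V (F i)) :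
    On V (∑ i ∈ s, F i) := racl_on.2 (sum_mem fun i hi => racl_on.1 (h i hi))

theorem On.aeval_X {s : σ} (hs : s ∈ V) (P : k0[X]) :
    On V (aeval (MvPolynomial.X s : MvPolynomial σ k0) P) :=   racl_on.2 (Algebra.adjoin_le (Set.singleton_subset_iff.2 (MvPolynomial.X_mem_supported.2 hs))
    (aeval_mem_adjoin_singleton k0 _))

theorem On.of_dvd (hg : On V g) (h0 : g ≠ 0) (h : f ∣ g) : On V f := by
  obtain ⟨q, rfl⟩ := h
  intro s hs
  have := hg s hs
  rw [MvPolynomial.degreeOf_mul_eq (left_ne_zero_of_mul h0) (right_ne_zero_of_mul h0)] at this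
  omega

theorem degreeOf_le_of_dvd (h0 : g ≠ 0) (h : f ∣ g) (s : σ) : f.degreeOf s ≤ g.degreeOf s := by
  obtain ⟨q, rfl⟩ := h
  rw [MvPolynomial.degreeOf_mul_eq (left_ne_zero_of_mul h0) (right_ne_zero_of_mul h0)]
  omega

theorem exists_on_finset (f : MvPolynomial σ k0) (h : On V f) :
    ∃ U : Finset σ, (U : Set σ) ⊆ V ∧ On (U : Set σ) f :=   ⟨f.vars, MvPolynomial.mem_supported.1 (racl_on.1 h),
    racl_on.2 (MvPolynomial.mem_supported_vars f)⟩

theorem On.aeval_congr {L : Type} [CommRing L] [Algebra k0 L] (h : On V f) {ω ω' : σ → L}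
    (e : ∀ s ∈ V, ω s = ω' s) : MvPolynomial.aeval ω f = MvPolynomial.aeval ω' f := by
  have h' := racl_on.1 h
  clear h
  induction h' using Algebra.adjoin_induction with
  | mem x hx =>
    obtain ⟨s, hs, rfl⟩ := hx
    simp [e s hs]
  | algebraMap r => simp
  | add x y _ _ hx hy => rw [map_add, map_add, hx, hy]
  | mul x y _ _ hx hy => rw [map_mul, map_mul, hx, hy]

theorem degreeOf_sub1_le (u : σ) (c : k0) (f : MvPolynomial σ k0) (s : σ) :
    (sub1 u c f).degreeOf s ≤ f.degreeOf s := by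
  classical
  conv_lhs => rw [f.as_sum, map_sum]
  refine (MvPolynomial.degreeOf_sum_le _ _ _).trans (Finset.sup_le fun m hm => ?_)
  refine le_trans ?_ (MvPolynomial.monomial_le_degreeOf s hm)
  rw [sub1, MvPolynomial.aeval_monomial, MvPolynomial.algebraMap_eq]
  refine (MvPolynomial.degreeOf_C_mul_le _ _ _).trans
    ((MvPolynomial.degreeOf_prod_le _ _ _).trans ?_)
  calc _ ≤ ∑ i ∈ m.support, if s = i then m i else 0 := by
        refine Finset.sum_le_sum fun i _ => (MvPolynomial.degreeOf_pow_le _ _ _).trans ?_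
        split_ifs with h1 h2 h2
        · simp [MvPolynomial.degreeOf_C]
        · simp [MvPolynomial.degreeOf_C]
        · simp [h2]
        · simp [MvPolynomial.degreeOf_X, h2]
    _ ≤ m s := by
        rw [Finset.sum_ite_eq]
        split_ifs <;> simp

theorem On.sub1 (h : On V f) (u : σ) (c : k0) : On (V \ {u}) (sub1 u c f) := by
  have h' := racl_on.1 h
  clear h
  induction h' using Algebra.adjoin_induction with
  | mem x hx =>
    obtain ⟨s, hs, rfl⟩ := hx
    rw [JR.sub1, MvPolynomial.aeval_X]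
    split_ifs with h1
    · exact On.C c
    · exact On.X ⟨hs, h1⟩
  | algebraMap r =>
    rw [AlgHom.commutes]
    exact On.C r
  | add x y _ _ hx hy =>
    rw [map_add]
    exact hx.add hy
  | mul x y _ _ hx hy =>
    rw [map_mul]
    exact hx.mul hy

open Classical in
theorem aeval_sub1 {L : Type} [CommRing L] [Algebra k0 L] (ω : σ → L) (u : σ) (c : k0)
    (f : MvPolynomial σ k0) : MvPolynomial.aeval ω (sub1 u c f) =
      MvPolynomial.aeval (fun s => if s = u then algebraMap k0 L c else ω s) f := by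
  rw [sub1, MvPolynomial.comp_aeval_apply]
  congr 2
  funext s
  split_ifs <;> simp

theorem aeval_sub1_of_eq {L : Type} [CommRing L] [Algebra k0 L] {ω : σ → L} {u : σ} {c : k0}
    (h : ω u = algebraMap k0 L c) (f : MvPolynomial σ k0) :
    MvPolynomial.aeval ω (sub1 u c f) = MvPolynomial.aeval ω f := by
  rw [aeval_sub1]
  congr 2
  funext s
  split_ifs with h1
  · rw [h1, h]
  · rfl

theorem sub1_of_on (h : On V f) {u : σ} (hu : u ∉ V) (c : k0) : sub1 u c f = f := by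
  rw [sub1, h.aeval_congr (ω' := MvPolynomial.X) fun s hs =>
    if_neg fun e : s = u => hu (e ▸ hs), MvPolynomial.aeval_X_left_apply]

theorem sub1_comm {u u' : σ} (h : u ≠ u') (c c' : k0) (f : MvPolynomial σ k0) :
    sub1 u c (sub1 u' c' f) = sub1 u' c' (sub1 u c f) := by
  have : (sub1 u c).comp (sub1 u' c') = (sub1 u' c').comp (sub1 u c) := by
    refine MvPolynomial.algHom_ext fun s => ?_
    by_cases h1 : s = u
    · subst h1
      simp [sub1, h]
    · by_cases h2 : s = u'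
      · subst h2
        simp [sub1, h1]
      · simp [sub1, h1, h2]
  exact AlgHom.congr_fun this f

end on

section acl
variable {k0 σ L : Type} [Field k0] [Field L] [Algebra k0 L] {S S' : Set L}

theorem racl_cl (S : Set L) : acl k0 S = (AlgebraicIndependent.matroid k0 L).closure S := by
  rw [AlgebraicIndependent.matroid_closure_eq]
  rfl

theorem racl_ind {ω : σ → L} {V : Set σ} : Ind k0 ω V ↔ AlgebraicIndepOn k0 ω V := by
  refine Iff.trans ?_ algebraicIndependent_comp_subtype.symm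
  simp only [Ind, racl_on]

theorem racl_adjoin {ω : σ → L} {V : Set σ} {y : L} :
    y ∈ Algebra.adjoin k0 (ω '' V) ↔
      ∃ f : MvPolynomial σ k0, On V f ∧ MvPolynomial.aeval ω f = y := by
  have : Algebra.adjoin k0 (ω '' V) =
      (MvPolynomial.supported k0 V).map (MvPolynomial.aeval ω) := by
    rw [MvPolynomial.supported_eq_adjoin_X, AlgHom.map_adjoin, Set.image_image]
    simp
  rw [this, Subalgebra.mem_map]
  simp only [racl_on]

theorem subset_acl (S : Set L) : S ⊆ acl k0 S := by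
  rw [racl_cl]
  exact Matroid.subset_closure _ _

theorem acl_mono (h : S ⊆ S') : acl k0 S ⊆ acl k0 S' := by
  rw [racl_cl, racl_cl]
  exact Matroid.closure_mono _ h

theorem acl_subset_acl (h : S ⊆ acl k0 S') : acl k0 S ⊆ acl k0 S' := by
  rw [racl_cl] at h
  rw [racl_cl, racl_cl]
  exact Matroid.closure_subset_closure_of_subset_closure h

/-- `acl` is a subfield containing the constants. -/
theorem exists_aclField (S : Set L) : ∃ F : IntermediateField k0 L, (F : Set L) = acl k0 S :=   ⟨((Subalgebra.algebraicClosure (Algebra.adjoin k0 S) L).restrictScalars k0).toIntermediateField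
    fun _ hx => IsAlgebraic.inv hx, rfl⟩

theorem mem_acl_of_root {P : L[X]} (h0 : P ≠ 0) (hc : ∀ i, P.coeff i ∈ acl k0 S) {z : L}
    (hz : P.eval z = 0) : z ∈ acl k0 S := by
  refine acl_subset_acl (S := acl k0 S) subset_rfl ?_
  obtain ⟨q, rfl⟩ : P ∈ Polynomial.lifts (algebraMap (Algebra.adjoin k0 (acl k0 S)) L) :=
    (lifts_iff_coeff_lifts P).2 fun i => ⟨⟨_, Algebra.subset_adjoin (hc i)⟩, rfl⟩
  refine ⟨q, fun e => h0 (by rw [e, map_zero]), ?_⟩
  rwa [coe_mapRingHom, eval_map_algebraMap] at hz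

theorem aeval_mem_acl {ω : σ → L} {V : Set σ} {f : MvPolynomial σ k0} (hf : On V f)
    (h : ∀ s ∈ V, ω s ∈ acl k0 S) : MvPolynomial.aeval ω f ∈ acl k0 S := by
  obtain ⟨F, hF⟩ := exists_aclField (k0 := k0) S
  rw [← hF] at h ⊢
  have : Algebra.adjoin k0 (ω '' V) ≤ F.toSubalgebra := by
    refine Algebra.adjoin_le ?_
    rintro _ ⟨s, hs, rfl⟩
    exact h s hs
  exact this (racl_adjoin.2 ⟨f, hf, rfl⟩)

theorem exists_finset_of_mem_acl {ω : σ → L} {V : Set σ} {z : L} (h : z ∈ acl k0 (ω '' V)) :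
    ∃ U : Finset σ, (U : Set σ) ⊆ V ∧ z ∈ acl k0 (ω '' U) := by
  rw [racl_cl] at h
  obtain ⟨I, h1, h2, -, h3⟩ := Matroid.exists_mem_finite_closure_of_mem_closure h
  obtain ⟨U, u1, u2, u3⟩ := Set.exists_subset_image_finite_and.1
    (⟨I, h1, h2, h3⟩ : ∃ t ⊆ ω '' V, t.Finite ∧
      z ∈ (AlgebraicIndependent.matroid k0 L).closure t)
  lift U to Finset σ using u2
  exact ⟨U, u1, by rwa [racl_cl]⟩

/-- An equation with coefficients on `V`; the constant term does not vanish if `z ≠ 0`. -/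
theorem exists_eq_of_mem_acl {ω : σ → L} {V : Set σ} {z : L} (h : z ∈ acl k0 (ω '' V)) :
    ∃ P : (MvPolynomial σ k0)[X], (∀ i, On V (P.coeff i)) ∧
      MvPolynomial.aeval ω P.leadingCoeff ≠ 0 ∧
      P.eval₂ (MvPolynomial.aeval ω : MvPolynomial σ k0 →ₐ[k0] L).toRingHom z = 0 ∧
      (z ≠ 0 → MvPolynomial.aeval ω (P.coeff 0) ≠ 0) := by
  classical
  obtain ⟨q, h0, h1, h2⟩ : ∃ q : (Algebra.adjoin k0 (ω '' V))[X], q ≠ 0 ∧ aeval z q = 0 ∧
      (z ≠ 0 → q.coeff 0 ≠ 0) := by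
    by_cases hz : z = 0
    · obtain ⟨q, h0, h1⟩ := h
      exact ⟨q, h0, h1, fun e => absurd hz e⟩
    · obtain ⟨q, h0, h1⟩ := IsAlgebraic.exists_nonzero_coeff_and_aeval_eq_zero h
        (mem_nonZeroDivisors_of_ne_zero hz)
      exact ⟨q, fun e => h0 (by rw [e, coeff_zero]), h1, fun _ => h0⟩
  choose F hF hF' using fun i => racl_adjoin.1 (q.coeff i).2
  let P : (MvPolynomial σ k0)[X] := ∑ i ∈ q.support, monomial i (F i)
  have hP : ∀ i, P.coeff i = if i ∈ q.support then F i else 0 := fun i => by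
    simp only [P, finsetSum_coeff, coeff_monomial, Finset.sum_ite_eq']
  have hP' : ∀ i, MvPolynomial.aeval ω (P.coeff i) = q.coeff i := fun i => by
    rw [hP]
    split_ifs with hi
    · exact hF' i
    · rw [notMem_support_iff.1 hi, map_zero, ZeroMemClass.coe_zero]
  have hne : ∀ i, P.coeff i ≠ 0 → MvPolynomial.aeval ω (P.coeff i) ≠ 0 := fun i hi => by
    rw [hP', Ne, ZeroMemClass.coe_eq_zero, ← Ne, ← mem_support_iff]
    by_contra hi'
    exact hi (by rw [hP, if_neg hi'])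
  refine ⟨P, fun i => ?_, hne _ (leadingCoeff_ne_zero.2 fun e => h0 ?_), ?_, fun hz => ?_⟩
  · rw [hP]
    split_ifs
    · exact hF i
    · exact racl_on.2 (zero_mem _)
  · ext i
    rw [← hP', e]
    simp
  · rw [eval₂_eq_eval_map, ← h1, ← eval_map_algebraMap]
    congr 1
    ext i
    rw [coeff_map, coeff_map]
    exact hP' i
  · rw [hP', Ne, ZeroMemClass.coe_eq_zero]
    exact h2 hz

theorem Ind.mono {ω : σ → L} {V V' : Set σ} (h : Ind k0 ω V') (hV : V ⊆ V') : Ind k0 ω V :=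
  fun f hf => h f (hf.mono hV)

theorem ind_empty (ω : σ → L) : Ind k0 ω ∅ :=   racl_ind.2 (algebraicIndependent_empty_type_iff.2 (algebraMap k0 L).injective)

theorem ind_of_finite {ω : σ → L} {V : Set σ}
    (h : ∀ U : Finset σ, (U : Set σ) ⊆ V → Ind k0 ω U) : Ind k0 ω V := by
  intro f hf h0
  obtain ⟨U, h1, h2⟩ := exists_on_finset f hf
  exact h U h1 f h2 h0

theorem ind_insert {ω : σ → L} {V : Set σ} {u : σ} (hu : u ∉ V) :
    Ind k0 ω (insert u V) ↔ Ind k0 ω V ∧ ω u ∉ acl k0 (ω '' V) := by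
  rw [racl_ind, racl_ind, AlgebraicIndepOn.insert_iff hu]
  rfl

theorem Ind.congr {ω ω' : σ → L} {V : Set σ} (h : Ind k0 ω V) (e : ∀ s ∈ V, ω s = ω' s) :
    Ind k0 ω' V := fun f hf h0 => h f hf ((hf.aeval_congr e).trans h0)

theorem ind_singleton {ω : σ → L} {u : σ} : Ind k0 ω {u} ↔ Transcendental k0 (ω u) := by
  rw [racl_ind]
  exact algebraicIndependent_singleton_iff (⟨u, rfl⟩ : ({u} : Set σ))

theorem ind_pair {ω : σ → L} {u u' : σ} (h : u ≠ u') :
    Ind k0 ω {u, u'} ↔ ∀ G : k0[X][X], aevalAeval (ω u) (ω u') G = 0 → G = 0 := by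
  have hinj : Function.Injective ![u, u'] := by
    intro i j e
    fin_cases i <;> fin_cases j
    · rfl
    · exact absurd e h
    · exact absurd e.symm h
    · rfl
  have h1 : Ind k0 ω {u, u'} ↔ AlgebraicIndependent k0 (ω ∘ ![u, u']) := by
    rw [racl_ind, show ({u, u'} : Set σ) = Set.range ![u, u'] by
      rw [Matrix.range_cons_cons_empty]]
    exact (algebraicIndependent_equiv' (Equiv.ofInjective _ hinj) rfl).symm
  have h2 : aevalAeval (ω u) (ω u') = (MvPolynomial.aeval (ω ∘ ![u, u'])).comp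
      (Bivariate.equivMvPolynomial k0 : k0[X][X] →ₐ[k0] MvPolynomial (Fin 2) k0) := by
    ext <;> simp
  rw [h1, algebraicIndependent_iff, h2]
  refine ⟨fun H G hG => ?_, fun H p hp => ?_⟩
  · exact (map_eq_zero_iff _ (Bivariate.equivMvPolynomial k0).injective).1 (H _ hG)
  · obtain ⟨G, rfl⟩ := (Bivariate.equivMvPolynomial k0).surjective p
    rw [H G hp, map_zero]

theorem racl_indep {ω : σ → L} {V : Set σ} : Ind k0 ω V ↔
    Set.InjOn ω V ∧ (AlgebraicIndependent.matroid k0 L).Indep (ω '' V) := by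
  rw [racl_ind]
  refine ⟨fun h => ?_, fun h => (algebraicIndependent_image h.1).2 h.2⟩
  exact ⟨Set.injOn_iff_injective.2 (AlgebraicIndependent.injective h),
    AlgebraicIndependent.image h⟩

theorem racl_rk {ω : σ → L} {U : Finset σ} (h : Ind k0 ω U) (hs : ∀ s ∈ U, ω s ∈ acl k0 S) :
    (U.card : ℕ∞) ≤ (AlgebraicIndependent.matroid k0 L).eRk S := by
  obtain ⟨h1, h2⟩ := racl_indep.1 h
  rw [← Set.encard_coe_eq_coe_finsetCard, ← h1.encard_image, ← Matroid.eRk_closure_eq,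
    ← racl_cl]
  refine h2.encard_le_eRk_of_subset ?_
  rintro _ ⟨s, hs', rfl⟩
  exact hs s hs'

/-- Exchange: an independent family inside the closure of another family. -/
theorem card_le_of_ind {σ' : Type} {ω : σ → L} {ω' : σ' → L} {U : Finset σ} {U' : Finset σ'}
    (h : Ind k0 ω U) (hs : ∀ s ∈ U, ω s ∈ acl k0 (ω' '' U')) : U.card ≤ U'.card := by
  have := (racl_rk h hs).trans ((Matroid.eRk_le_encard _ _).trans (Set.encard_image_le _ _))
  rwa [Set.encard_coe_eq_coe_finsetCard, Nat.cast_le] at this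

theorem ind_of_card {σ' : Type} {ω : σ → L} {ω' : σ' → L} {U : Finset σ} {U' : Finset σ'}
    (h : Ind k0 ω U) (hs : ∀ s ∈ U, ω s ∈ acl k0 (ω' '' U')) (hc : U'.card ≤ U.card) :
    Ind k0 ω' U' ∧ acl k0 (ω' '' U') ⊆ acl k0 (ω '' U) := by
  have h1 := racl_rk h hs
  have h2 := (AlgebraicIndependent.matroid k0 L).eRk_le_encard (ω' '' U')
  have h3 := Set.encard_image_le ω' (U' : Set σ')
  have h4 : (U' : Set σ').encard ≤ U.card := by
    rw [Set.encard_coe_eq_coe_finsetCard]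
    exact_mod_cast hc
  obtain ⟨i1, i2⟩ := racl_indep.1 h
  refine ⟨racl_indep.2 ⟨U'.finite_toSet.injOn_of_encard_image_eq
    (h3.antisymm (h4.trans (h1.trans h2))), (Matroid.indep_iff_eRk_eq_encard_of_finite
      (U'.finite_toSet.image _)).2 (h2.antisymm (h3.trans (h4.trans h1)))⟩, ?_⟩
  have hb : (AlgebraicIndependent.matroid k0 L).IsBasis (ω '' U) (acl k0 (ω' '' U')) := by
    refine i2.isBasis_of_eRk_ge (U.finite_toSet.image _) ?_ ?_ (Set.subset_univ _)
    · rintro _ ⟨s, hs', rfl⟩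
      exact hs s hs'
    · rw [racl_cl, Matroid.eRk_closure_eq, i2.eRk_eq_encard, i1.encard_image,
        Set.encard_coe_eq_coe_finsetCard]
      exact h2.trans (h3.trans h4)
  rw [racl_cl (ω '' U)]
  exact hb.subset_closure

theorem exists_ind_erase {σ' : Type} {ω : σ → L} {ω' : σ' → L} {U : Finset σ} {U' : Finset σ'}
    (h : Ind k0 ω U) (hs : ∀ s ∈ U, ω s ∈ acl k0 (ω' '' U')) (hc : U'.card ≤ U.card + 1)
    (hne : U'.Nonempty) : ∃ u ∈ U', Ind k0 ω' ((U' : Set σ') \ {u}) := by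
  classical
  obtain ⟨J, hJ⟩ := (AlgebraicIndependent.matroid k0 L).exists_isBasis' (ω' '' U')
  obtain ⟨W, w1, w2, rfl⟩ := Set.SurjOn.exists_subset_injOn_image_eq hJ.subset
  lift W to Finset σ' using U'.finite_toSet.subset w1
  have hW : Ind k0 ω' W := racl_indep.2 ⟨w2, hJ.indep⟩
  have h1 := racl_rk h hs
  rw [← hJ.encard_eq_eRk, w2.encard_image, Set.encard_coe_eq_coe_finsetCard, Nat.cast_le] at h1
  by_cases h2 : U' ⊆ W
  · obtain ⟨u, hu⟩ := hne
    exact ⟨u, hu, hW.mono (Set.sdiff_subset.trans h2)⟩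
  · obtain ⟨u, hu, hu'⟩ := Finset.not_subset.1 h2
    have h3 : W = U'.erase u := Finset.eq_of_subset_of_card_le
      (Finset.subset_erase.2 ⟨w1, hu'⟩) (by rw [Finset.card_erase_of_mem hu]; omega)
    refine ⟨u, hu, ?_⟩
    rwa [← Finset.coe_erase, ← h3]

end acl

end JR
end

-- merged part: Pool.Agent.Work.MP_969914_nt.RNs
section
/-! Basic theory of the nonstandard interface. -/

set_option autoImplicit false

namespace JR

open scoped NNReal ENNReal
open Polynomial Filter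

section aux
variable {K Γ : Type} [Field K] [LinearOrderedCommGroupWithZero Γ] (v : Valuation K Γ)

theorem rns_mul_sub {a b c d : K} {γ : Γ} (ha : v a ≤ 1) (hd : v d ≤ 1) (h1 : v (a - c) ≤ γ)
    (h2 : v (b - d) ≤ γ) : v (a * b - c * d) ≤ γ := by
  have e : a * b - c * d = a * (b - d) + (a - c) * d := by ring
  rw [e]
  refine v.map_add_le ?_ ?_
  · rw [map_mul]
    calc v a * v (b - d) ≤ 1 * γ := mul_le_mul' ha h2
      _ = γ := one_mul _
  · rw [map_mul]
    calc v (a - c) * v d ≤ γ * 1 := mul_le_mul' h1 hd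
      _ = γ := mul_one _

theorem rns_pow_sub {a b : K} {γ : Γ} (ha : v a ≤ 1) (hb : v b ≤ 1) (h : v (a - b) ≤ γ) (n : ℕ) :
    v (a ^ n - b ^ n) ≤ γ := by
  induction n with
  | zero => simp
  | succ n ih =>
    rw [pow_succ, pow_succ]
    exact rns_mul_sub v (by rw [map_pow]; exact pow_le_one' ha n) hb ih h

theorem rns_prod_le {ι : Type} (t : Finset ι) (a : ι → K) (ha : ∀ i ∈ t, v (a i) ≤ 1) :
    v (∏ i ∈ t, a i) ≤ 1 := by
  rw [map_prod]
  exact Finset.prod_le_one' ha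

theorem rns_prod_sub {ι : Type} (t : Finset ι) (a b : ι → K) {γ : Γ}
    (h : ∀ i ∈ t, v (a i) ≤ 1 ∧ v (b i) ≤ 1 ∧ v (a i - b i) ≤ γ) :
    v (∏ i ∈ t, a i - ∏ i ∈ t, b i) ≤ γ := by
  classical
  induction t using Finset.induction_on with
  | empty => simp
  | insert i t hi ih =>
    rw [Finset.prod_insert hi, Finset.prod_insert hi]
    have h' := fun j hj => h j (Finset.mem_insert_of_mem hj)
    have hi' := h i (Finset.mem_insert_self i t)
    exact rns_mul_sub v hi'.1 (rns_prod_le v t b fun j hj => (h' j hj).2.1) hi'.2.2 (ih h')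

theorem rns_deg {σ R : Type} [CommRing R] {f : MvPolynomial σ R} {m : σ →₀ ℕ}
    (hm : m ∈ f.support) {s : σ} (hs : s ∈ m.support) : f.degreeOf s ≠ 0 := by
  have h1 := MvPolynomial.monomial_le_degreeOf s hm
  have h2 := Finsupp.mem_support_iff.1 hs
  omega

theorem rns_tau (H : HD K) {τ : K} (h : H.E τ = PowerSeries.C τ + PowerSeries.X) :
    H.D 1 τ = 1 ∧ H.D 2 τ = 0 := by
  constructor
  · simp [HD.D, h, PowerSeries.coeff_X]
  · simp [HD.D, h, PowerSeries.coeff_X]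

theorem rns_D2_mul (H : HD K) (a b : K) :
    H.D 2 (a * b) = a * H.D 2 b + H.D 1 a * H.D 1 b + H.D 2 a * b := by
  rw [H.D_mul, Finset.Nat.sum_antidiagonal_succ, Finset.Nat.sum_antidiagonal_succ]
  simp [H.D_zero, add_assoc]

end aux

namespace NS
variable {p : ℕ} {K Γ : Type} [Field K] [LinearOrderedCommGroupWithZero Γ] (N : NS p K Γ)

theorem ae_good : ∀ᶠ w in N.toPF.ae, w ∈ N.good := N.good_ae

theorem ae_reg (α : K) : ∀ᶠ w in N.toPF.ae, α ∈ N.R w := N.reg_ae α

theorem rns_q_pos : 0 < N.q := zero_lt_one.trans N.one_lt_q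

theorem rns_qinv_lt : N.q⁻¹ < 1 := inv_lt_one_of_one_lt₀ N.one_lt_q

theorem mass_lt_one_le {α : K} (hα : α ≠ 0) :
    N.toPF.mass {w | N.v w α < 1} ≤ N.toPF.ht α := by
  have h1 : N.toPF.mass {w | N.v w α < 1} ≤ N.toPF.mass {w | N.q ^ 1 ≤ N.v w α⁻¹} := by
    refine N.toPF.mass_mono_ae ?_
    filter_upwards [N.ae_good, N.ae_reg α] with w hw hr h
    have h2 := N.disc w hw α hr h
    have h3 : 0 < N.v w α := zero_lt_iff.2 ((N.v w).ne_zero_iff.2 hα)
    show N.q ^ 1 ≤ N.v w α⁻¹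
    rw [pow_one, map_inv₀]
    exact (le_inv_comm₀ N.rns_q_pos h3).2 h2
  have h2 := N.toPF.mass_le_I (f := fun w => N.v w α⁻¹) (E := {w | N.q ^ 1 ≤ N.v w α⁻¹}) (m := 1)
    fun w hw => hw
  rw [Nat.cast_one, one_mul] at h2
  exact h1.trans (h2.trans (N.toPF.ht_inv α).le)

theorem mass_one_lt_le (α : K) : N.toPF.mass {w | 1 < N.v w α} ≤ N.toPF.ht α := by
  by_cases hα : α = 0
  · subst hα
    have e : {w | 1 < N.v w (0 : K)} = ∅ := by ext w; simp
    rw [e, N.toPF.mass_empty]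
    exact bot_le
  · have h := N.mass_lt_one_le (inv_ne_zero hα)
    rw [N.toPF.ht_inv] at h
    refine (N.toPF.mass_mono fun w hw => ?_).trans h
    show N.v w α⁻¹ < 1
    rw [map_inv₀]
    exact inv_lt_one_of_one_lt₀ hw

theorem ae_unit {α : K} (h : α ∈ N.toPF.k0) (h0 : α ≠ 0) :
    ∀ᶠ w in N.toPF.ae, N.v w α = 1 := by
  have h' : N.toPF.ht α = 0 := h
  have h1 : ∀ᶠ w in N.toPF.ae, ¬ N.v w α < 1 := by
    rw [PF.eventually_ae_iff]
    simpa [h'] using N.mass_lt_one_le h0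
  have h2 : ∀ᶠ w in N.toPF.ae, ¬ 1 < N.v w α := by
    rw [PF.eventually_ae_iff]
    simpa [h'] using N.mass_one_lt_le α
  filter_upwards [h1, h2] with w a b
  exact le_antisymm (not_lt.1 b) (not_lt.1 a)

theorem ae_int {α : K} (h : α ∈ N.toPF.k0) : ∀ᶠ w in N.toPF.ae, N.v w α ≤ 1 := by
  have h' : N.toPF.ht α = 0 := h
  rw [PF.eventually_ae_iff]
  simpa [h'] using N.mass_one_lt_le α

/-- `max 1 |D r α|` is negligible on the set where `α` is integral. -/
theorem exists_D_bound (α : K) (r : ℕ) : ∃ ν : N.W → Γ, N.I ν = 0 ∧ (∀ w, 1 ≤ ν w) ∧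
    ∀ w, (N.v w α ≤ 1 → N.v w (N.H.D r α) ≤ ν w) ∧
      N.v w (N.H.D r α) ≤ ν w * (N.q ^ r * N.v w α) := by
  classical
  obtain ⟨C, hC⟩ := N.D_glob r
  have hq : ∀ n : ℕ, 1 ≤ N.q ^ n := fun n => one_le_pow_of_one_le' N.one_lt_q.le n
  refine ⟨fun w => if w ∈ N.good ∧ α ∈ N.R w then 1 else N.q ^ C, ?_, fun w => ?_, fun w => ?_⟩
  · have h0 : N.toPF.mass {w | ¬ (w ∈ N.good ∧ α ∈ N.R w)} = 0 :=
      N.toPF.eventually_ae_iff.1 (N.ae_good.and (N.ae_reg α))
    have h1 := N.toPF.I_le_mass (f := fun w => if w ∈ N.good ∧ α ∈ N.R w then 1 else N.q ^ C)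
      (E := {w | ¬ (w ∈ N.good ∧ α ∈ N.R w)}) (C := C)
      (fun w hw => by rw [if_neg hw]) (fun w hw => by rw [if_pos (not_not.1 hw)])
    rw [h0, mul_zero] at h1
    exact le_antisymm h1 bot_le
  · show 1 ≤ ite _ _ _
    split_ifs
    · exact le_rfl
    · exact hq C
  · by_cases h : w ∈ N.good ∧ α ∈ N.R w
    · simp only [if_pos h, one_mul]
      exact ⟨fun h1 => N.D_int w h.1 α h.2 h1 r, N.D_le w h.1 α h.2 r⟩
    · simp only [if_neg h]
      refine ⟨fun h1 => (hC w α).trans ?_, (hC w α).trans ?_⟩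
      · exact mul_le_of_le_one_right' h1
      · exact mul_le_mul_right (le_mul_of_one_le_left' (hq r)) _

theorem ht_D_le (α : K) (r : ℕ) : N.toPF.ht (N.H.D r α) ≤ (r + 1) * N.toPF.ht α := by
  classical
  obtain ⟨ν, h0, h1, h2⟩ := N.exists_D_bound α r
  let g : N.W → Γ := fun w => if 1 < N.v w α then N.q ^ r else 1
  have hg : N.I g ≤ r * N.toPF.mass {w | 1 < N.v w α} :=
    N.toPF.I_le_mass (f := g) (fun w hw => (if_pos hw).le) (fun w hw => (if_neg hw).le)
  have h3 : N.toPF.ht (N.H.D r α) ≤ N.I fun w => ν w * (g w * max 1 (N.v w α)) := by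
    refine N.toPF.I_le fun w => ?_
    by_cases h : 1 < N.v w α
    · simp only [g, if_pos h, max_eq_right h.le]
      exact (h2 w).2
    · simp only [g, if_neg h, max_eq_left (not_lt.1 h), mul_one]
      exact (h2 w).1 (not_lt.1 h)
  have h4 := N.I_mul ν fun w => g w * max 1 (N.v w α)
  have h5 := N.I_mul g fun w => max 1 (N.v w α)
  have h6 : N.I (fun w => max 1 (N.v w α)) = N.toPF.ht α := N.toPF.I_max_one _
  rw [h6] at h5
  rw [h0, zero_add] at h4
  refine h3.trans (h4.trans (h5.trans ?_))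
  rw [add_mul, one_mul]
  exact add_le_add_left (hg.trans (mul_le_mul_right (N.mass_one_lt_le α) _)) _

theorem D_mem_k0 {α : K} (h : α ∈ N.toPF.k0) (r : ℕ) : N.H.D r α ∈ N.toPF.k0 := by
  have h1 := N.ht_D_le α r
  rw [show N.toPF.ht α = 0 from h, mul_zero] at h1
  exact le_antisymm h1 bot_le

/-- The Hasse derivation on the constants. -/
noncomputable def H0 : HD N.toPF.k0 := N.H.restrict N.toPF.k0 fun _ h r => N.D_mem_k0 h r

theorem compat : N.H0.Compat N.H := HD.restrict_compat _ _ _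

theorem rns_root {α β : K} {n : ℕ} (hn : n ≠ 0) (h : α ∈ N.toPF.k0) (e : β ^ n = α) :
    β ∈ N.toPF.k0 := by
  have h1 := N.toPF.ht_pow β n
  rw [e, show N.toPF.ht α = 0 from h] at h1
  exact (mul_eq_zero.1 h1.symm).resolve_left (Nat.cast_ne_zero.2 hn)

theorem sqrt_k0 (α : N.toPF.k0) : ∃ β : N.toPF.k0, β ^ 2 = α := by
  obtain ⟨β, hβ⟩ := N.sqrt0 α α.2
  exact ⟨⟨β, N.rns_root two_ne_zero α.2 hβ⟩, Subtype.ext hβ⟩

theorem proot_k0 [Fact p.Prime] (α : N.toPF.k0) (h : N.H0.D 1 α = 0) :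
    ∃ β : N.toPF.k0, β ^ p = α := by
  have h1 := N.compat 1 α
  rw [h, map_zero] at h1
  obtain ⟨β, hβ⟩ := N.proot _ h1
  exact ⟨⟨β, N.rns_root (Fact.out : p.Prime).ne_zero α.2 hβ⟩, Subtype.ext hβ⟩

theorem infinite_k0 [Fact p.Prime] [CharP K p] (h2 : (2 : K) ≠ 0) : Infinite N.toPF.k0 := by
  by_contra h
  rw [not_infinite_iff_finite] at h
  have h1 : Function.Injective fun β : N.toPF.k0 => β ^ 2 :=
    Finite.injective_iff_surjective.2 N.sqrt_k0
  have h3 : (-1 : N.toPF.k0) = 1 := h1 (by simp)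
  have h4 : (-1 : K) = 1 := by simpa using congrArg Subtype.val h3
  exact h2 (by linear_combination -h4)

theorem rns_ae_coeff {σ : Type} (f : MvPolynomial σ N.toPF.k0) :
    ∀ᶠ w in N.toPF.ae, ∀ m ∈ f.support, N.v w (algebraMap N.toPF.k0 K (f.coeff m)) ≤ 1 :=
  (Filter.eventually_all_finset _).2 fun m _ => N.ae_int (f.coeff m).2

theorem ae_aeval_int {σ : Type} (f : MvPolynomial σ N.toPF.k0) :
    ∀ᶠ w in N.toPF.ae, ∀ ω : σ → K, (∀ s, f.degreeOf s ≠ 0 → N.v w (ω s) ≤ 1) →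
      N.v w (MvPolynomial.aeval ω f) ≤ 1 := by
  filter_upwards [N.rns_ae_coeff f] with w hw ω h
  rw [MvPolynomial.aeval_def, MvPolynomial.eval₂_eq]
  refine (N.v w).map_sum_le fun m hm => ?_
  rw [map_mul]
  refine mul_le_one' (hw m hm) (rns_prod_le _ _ _ fun s hs => ?_)
  rw [map_pow]
  exact pow_le_one' (h s (rns_deg hm hs)) _

theorem ae_aeval_congr {σ : Type} (f : MvPolynomial σ N.toPF.k0) :
    ∀ᶠ w in N.toPF.ae, ∀ (ω ω' : σ → K) (γ : Γ),
      (∀ s, f.degreeOf s ≠ 0 → N.v w (ω s) ≤ 1 ∧ N.v w (ω' s) ≤ 1 ∧ N.v w (ω s - ω' s) ≤ γ) →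
      N.v w (MvPolynomial.aeval ω f - MvPolynomial.aeval ω' f) ≤ γ := by
  filter_upwards [N.rns_ae_coeff f] with w hw ω ω' γ h
  rw [MvPolynomial.aeval_def, MvPolynomial.eval₂_eq, MvPolynomial.aeval_def,
    MvPolynomial.eval₂_eq, ← Finset.sum_sub_distrib]
  refine (N.v w).map_sum_le fun m hm => ?_
  rw [← mul_sub, map_mul]
  refine (mul_le_of_le_one_left' (hw m hm)).trans (rns_prod_sub _ _ _ _ fun s hs => ?_)
  obtain ⟨h1, h2, h3⟩ := h s (rns_deg hm hs)
  refine ⟨?_, ?_, rns_pow_sub _ h1 h2 h3 _⟩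
  · rw [map_pow]; exact pow_le_one' h1 _
  · rw [map_pow]; exact pow_le_one' h2 _

theorem rns_ae_pcoeff (f : N.toPF.k0[X]) (n : ℕ) :
    ∀ᶠ w in N.toPF.ae, ∀ i ∈ Finset.range n, N.v w (f.coeff i : K) ≤ 1 :=
  (Filter.eventually_all_finset _).2 fun i _ => N.ae_int (f.coeff i).2

theorem ae_poly_int (f : N.toPF.k0[X]) :
    ∀ᶠ w in N.toPF.ae, ∀ z : K, N.v w z ≤ 1 → N.v w (aeval z f) ≤ 1 := by
  filter_upwards [N.rns_ae_pcoeff f (f.natDegree + 1)] with w hw z hz
  rw [aeval_eq_sum_range]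
  refine (N.v w).map_sum_le fun i hi => ?_
  rw [Algebra.smul_def, map_mul, map_pow]
  exact mul_le_one' (hw i hi) (pow_le_one' hz _)

theorem ae_poly_big {f : N.toPF.k0[X]} (hf : f ≠ 0) :
    ∀ᶠ w in N.toPF.ae, ∀ z : K, 1 < N.v w z → N.v w (aeval z f) = N.v w z ^ f.natDegree := by
  have hl : (f.coeff f.natDegree : K) ≠ 0 := fun h =>
    leadingCoeff_ne_zero.2 hf (Subtype.ext h)
  filter_upwards [N.rns_ae_pcoeff f f.natDegree, N.ae_unit (f.coeff f.natDegree).2 hl]
    with w hw h1 z hz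
  have e : N.v w (f.coeff f.natDegree • z ^ f.natDegree) = N.v w z ^ f.natDegree := by
    rw [Algebra.smul_def, map_mul, map_pow]
    show N.v w (f.coeff f.natDegree : K) * _ = _
    rw [h1, one_mul]
  rw [aeval_eq_sum_range, Finset.sum_range_succ, (N.v w).map_add_eq_of_lt_right, e]
  rw [e]
  refine (N.v w).map_sum_lt (pow_ne_zero _ (zero_lt_one.trans hz).ne') fun i hi => ?_
  rw [Algebra.smul_def, map_mul, map_pow]
  exact (mul_le_of_le_one_left' (hw i hi)).trans_lt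
    (pow_lt_pow_right₀ hz (Finset.mem_range.1 hi))

theorem ae_jet_int (z : K) (r : ℕ) :
    ∀ᶠ w in N.toPF.ae, N.v w z ≤ 1 → N.v w (N.H.D r z) ≤ 1 := by
  filter_upwards [N.ae_good, N.ae_reg z] with w hw hr h
  exact N.D_int w hw z hr h r

/-- Local form of an element with a simple zero. -/
theorem rns_simple {w : N.W} (hw : w ∈ N.good) {τ f : K} (hτ : τ ∈ N.R w)
    (hv : N.v w τ = N.q⁻¹) (hE : N.H.E τ = PowerSeries.C τ + PowerSeries.X) (hf : f ∈ N.R w)
    (h : N.v w f = N.q⁻¹) : N.v w (N.H.D 1 f) = 1 ∧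
      N.v w (N.H.D 1 f / f - N.H.D 2 f / N.H.D 1 f - τ⁻¹) < 1 := by
  have hq : N.q⁻¹ ≠ 0 := inv_ne_zero N.rns_q_pos.ne'
  have hτ0 : τ ≠ 0 := fun e => hq (by rw [← hv, e, map_zero])
  obtain ⟨u, rfl⟩ : ∃ u, f = τ * u := ⟨f / τ, by field_simp⟩
  have hu : u ∈ N.R w := by
    have := (N.R w).mul_mem ((N.R w).inv_mem hτ) hf
    rwa [inv_mul_cancel_left₀ hτ0] at this
  have hvu : N.v w u = 1 := by
    rw [map_mul, hv] at h
    exact mul_left_cancel₀ hq (h.trans (mul_one _).symm)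
  have hu0 : u ≠ 0 := fun e => by simp [e] at hvu
  have hD := fun r => N.D_int w hw u hu hvu.le r
  obtain ⟨t1, t2⟩ := rns_tau N.H hE
  have e1 : N.H.D 1 (τ * u) = τ * N.H.D 1 u + u := by rw [N.H.D1_mul, t1, one_mul]
  have e2 : N.H.D 2 (τ * u) = τ * N.H.D 2 u + N.H.D 1 u := by
    rw [rns_D2_mul, t1, t2]; ring
  have h1 : N.v w (τ * N.H.D 1 u + u) = 1 := by
    rw [(N.v w).map_add_eq_of_lt_right, hvu]
    rw [hvu, map_mul, hv]
    exact (mul_le_of_le_one_right' (hD 1)).trans_lt N.rns_qinv_lt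
  have h2 : τ * N.H.D 1 u + u ≠ 0 := fun e => by simp [e] at h1
  refine ⟨by rw [e1, h1], ?_⟩
  have e3 : N.H.D 1 (τ * u) / (τ * u) - N.H.D 2 (τ * u) / N.H.D 1 (τ * u) - τ⁻¹ =
      τ * (N.H.D 1 u * N.H.D 1 u - u * N.H.D 2 u) / (u * (τ * N.H.D 1 u + u)) := by
    rw [e1, e2]
    field_simp
    ring
  rw [e3, map_div₀, map_mul, map_mul, hvu, h1, hv, mul_one, div_one]
  refine (mul_le_of_le_one_right' ((N.v w).map_sub_le ?_ ?_)).trans_lt N.rns_qinv_lt
  · rw [map_mul]; exact mul_le_one' (hD 1) (hD 1)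
  · rw [map_mul]; exact mul_le_one' hvu.le (hD 2)

/-- At a simple zero the derivative is a unit. -/
theorem ae_simple_unit (δ : K) :
    ∀ᶠ w in N.toPF.ae, N.v w δ = N.q⁻¹ → N.v w (N.H.D 1 δ) = 1 := by
  filter_upwards [N.ae_good, N.ae_reg δ] with w hw hr h
  obtain ⟨τ, h1, h2, h3⟩ := N.tau w hw
  exact (N.rns_simple hw h1 h2 h3 hr h).1

/-- At a multiple zero the derivative vanishes. -/
theorem ae_double (δ : K) :
    ∀ᶠ w in N.toPF.ae, N.v w δ ≤ N.q⁻¹ ^ 2 → N.v w (N.H.D 1 δ) < 1 := by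
  filter_upwards [N.ae_good, N.ae_reg δ] with w hw hr h
  refine ((N.D_le w hw δ hr 1).trans (mul_le_mul_right h _)).trans_lt ?_
  rw [pow_one, pow_two, mul_inv_cancel_left₀ N.rns_q_pos.ne']
  exact N.rns_qinv_lt

/-- Two simple zeros: the difference of logarithmic derivatives. -/
theorem ae_two_simple (f g : K) :
    ∀ᶠ w in N.toPF.ae, N.v w f = N.q⁻¹ → N.v w g = N.q⁻¹ →
      N.v w (N.H.D 1 f / f - N.H.D 1 g / g -
        (N.H.D 2 f / N.H.D 1 f - N.H.D 2 g / N.H.D 1 g)) < 1 := by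
  filter_upwards [N.ae_good, N.ae_reg f, N.ae_reg g] with w hw hf hg h h'
  obtain ⟨τ, h1, h2, h3⟩ := N.tau w hw
  have e : N.H.D 1 f / f - N.H.D 1 g / g - (N.H.D 2 f / N.H.D 1 f - N.H.D 2 g / N.H.D 1 g) =
      (N.H.D 1 f / f - N.H.D 2 f / N.H.D 1 f - τ⁻¹) -
        (N.H.D 1 g / g - N.H.D 2 g / N.H.D 1 g - τ⁻¹) := by ring
  rw [e]
  exact (N.v w).map_sub_lt (N.rns_simple hw h1 h2 h3 hf h).2 (N.rns_simple hw h1 h2 h3 hg h').2

/-- The analytic half of every auxiliary polynomial argument. -/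
theorem mass_le_of_aux {σ : Type} (Θ : MvPolynomial σ N.toPF.k0) (ω : σ → K) (V : Finset σ)
    (M : σ → ℕ) (hV : On (V : Set σ) Θ) (hM : ∀ s ∈ V, Θ.degreeOf s ≤ M s)
    (h0 : MvPolynomial.aeval ω Θ ≠ 0) {E : Set N.W}
    (hE : ∀ᶠ w in N.toPF.ae, w ∈ E → N.v w (MvPolynomial.aeval ω Θ) < 1) :
    N.toPF.mass E ≤ ∑ s ∈ V, M s * N.toPF.ht (ω s) :=
  (N.toPF.mass_mono_ae (F := {w | N.v w (MvPolynomial.aeval ω Θ) < 1}) hE).trans
    ((N.mass_lt_one_le h0).trans (N.toPF.ht_aeval_le Θ ω V M hV hM))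

/-- If `sub1 u c Θ = α A + β B` and `ω u ≡ c`, `A (ω) ≡ B (ω) ≡ 0`, then `Θ (ω) ≡ 0`. -/
theorem ae_aux_vanish {σ : Type} (Θ A B : MvPolynomial σ N.toPF.k0) (u : σ) (c : N.toPF.k0)
    (V : Set σ) (hΘ : On V Θ) (hA : On V A) (hB : On V B)
    (h : sub1 u c Θ ∈ Ideal.span {A, B}) :
    ∀ᶠ w in N.toPF.ae, ∀ ω : σ → K, (∀ s ∈ V, N.v w (ω s) ≤ 1) → N.v w (ω u - c) < 1 →
      N.v w (MvPolynomial.aeval ω A) < 1 → N.v w (MvPolynomial.aeval ω B) < 1 →
      N.v w (MvPolynomial.aeval ω Θ) < 1 := by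
  classical
  obtain ⟨α, β, e⟩ := Ideal.mem_span_pair.1 h
  filter_upwards [N.ae_aeval_int α, N.ae_aeval_int β, N.ae_aeval_congr Θ, N.ae_int c.2]
    with w hα hβ hc hc1 ω hω hu h1 h2
  let ω0 : σ → K := fun s => if s ∈ V then ω s else 0
  have e0 : ∀ s ∈ V, ω s = ω0 s := fun s hs => by simp only [ω0, if_pos hs]
  have hi : ∀ s, N.v w (ω0 s) ≤ 1 := fun s => by
    by_cases hs : s ∈ V
    · rw [← e0 s hs]; exact hω s hs
    · simp [ω0, hs]
  rw [hA.aeval_congr e0] at h1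
  rw [hB.aeval_congr e0] at h2
  have h3 : N.v w (MvPolynomial.aeval ω0 (sub1 u c Θ)) < 1 := by
    rw [← e, map_add, map_mul, map_mul]
    refine (N.v w).map_add_lt ?_ ?_
    · rw [map_mul]
      exact (mul_le_of_le_one_left' (hα ω0 fun s _ => hi s)).trans_lt h1
    · rw [map_mul]
      exact (mul_le_of_le_one_left' (hβ ω0 fun s _ => hi s)).trans_lt h2
  rw [aeval_sub1] at h3
  have h4 := hc ω (fun s => if s = u then algebraMap N.toPF.k0 K c else ω0 s) (N.v w (ω u - c))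
    fun s hs => by
      have hV : s ∈ V := by_contra fun hn => hs (hΘ s hn)
      refine ⟨hω s hV, ?_, ?_⟩
      · split_ifs
        · exact hc1
        · exact hi s
      · split_ifs with hsu
        · subst hsu; exact le_rfl
        · rw [← e0 s hV, sub_self, map_zero]; exact zero_le
  have h5 := (N.v w).map_add_lt (h4.trans_lt hu) h3
  convert h5 using 2
  rw [sub_add_cancel]

/-- Removing a factor which divides a power of a unit. -/
theorem ae_cancel {σ : Type} (g A Ξ : MvPolynomial σ N.toPF.k0) (n : ℕ) (V : Set σ)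
    (hΞ : On V Ξ) (h0 : Ξ ≠ 0) (h : g ∣ Ξ ^ n) :
    ∀ᶠ w in N.toPF.ae, ∀ ω : σ → K, (∀ s ∈ V, N.v w (ω s) ≤ 1) →
      N.v w (MvPolynomial.aeval ω Ξ) = 1 → N.v w (MvPolynomial.aeval ω (g * A)) < 1 →
      N.v w (MvPolynomial.aeval ω A) < 1 := by
  obtain ⟨g', e⟩ := h
  have hn : Ξ ^ n ≠ 0 := pow_ne_zero n h0
  have hg : On V g := (hΞ.pow n).of_dvd hn ⟨g', e⟩
  have hg' : On V g' := (hΞ.pow n).of_dvd hn ⟨g, by rw [e, mul_comm]⟩
  filter_upwards [N.ae_aeval_int g, N.ae_aeval_int g'] with w h1 h2 ω hω h3 h4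
  have a1 := h1 ω fun s hs => hω s (by_contra fun hn => hs (hg s hn))
  have a2 := h2 ω fun s hs => hω s (by_contra fun hn => hs (hg' s hn))
  have a3 : N.v w (MvPolynomial.aeval ω g) * N.v w (MvPolynomial.aeval ω g') = 1 := by
    rw [← map_mul, ← map_mul, ← e, map_pow, map_pow, h3, one_pow]
  have a4 : N.v w (MvPolynomial.aeval ω g) = 1 :=
    le_antisymm a1 (a3.symm.le.trans (mul_le_of_le_one_right' a2))
  rwa [map_mul, map_mul, a4, one_mul] at h4

/-- A constant which vanishes on a set of positive mass is zero. -/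
theorem eq_zero_of_mass_pos {α : K} (h : α ∈ N.toPF.k0) {E : Set N.W} (hE : N.toPF.mass E ≠ 0)
    (hv : ∀ᶠ w in N.toPF.ae, w ∈ E → N.v w α < 1) : α = 0 := by
  by_contra h0
  have h1 : N.toPF.mass E ≤ N.toPF.mass ∅ := by
    refine N.toPF.mass_mono_ae ?_
    filter_upwards [hv, N.ae_unit h h0] with w a b c
    exact absurd b (a c).ne
  rw [N.toPF.mass_empty] at h1
  exact hE (le_antisymm h1 bot_le)

theorem ht_orbit {a c : N.toPF.k0} (h : a ≠ c) {z : ℤ → K} (hz : IsOrbit (a : K) c z) (i : ℤ)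
    (j : ℕ) : N.toPF.ht (z (i + j)) = 2 ^ j * N.toPF.ht (z i) := by
  have ha : N.toPF.ht (a : K) = 0 := a.2
  have hc : N.toPF.ht (c : K) = 0 := c.2
  have h' : (a : K) ≠ c := fun e => h (Subtype.ext e)
  have step : ∀ i, N.toPF.ht (z (i + 1)) = 2 * N.toPF.ht (z i) := fun i => by
    have h1 := N.toPF.ht_phi_le a c (z i)
    have h2 := N.toPF.le_ht_phi h' (hz i).1
    rw [ha, hc, add_zero, add_zero] at h1
    rw [ha, hc, add_zero, mul_zero, add_zero] at h2
    rw [(hz i).2]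
    exact le_antisymm h1 h2
  induction j with
  | zero => simp
  | succ j ih =>
    rw [Nat.cast_succ, ← add_assoc, step, ih, pow_succ]
    ring

end NS

end JR
end

-- merged part: Pool.Agent.Work.MP_969914_nt.RJet
section
/-! The map induced on jets: pointwise structure. -/

set_option autoImplicit false

namespace JR

open Polynomial

variable {k0 L : Type} [Field k0] (H : HD k0) (P Q : k0[X]) [Field L] [Algebra k0 L]

theorem rjet_taylor {R : Type} [CommRing R] (G : R[X]) (y δ : R) :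
    ∃ w k : R, G.eval (y + δ) = G.eval y + G.derivative.eval y * δ + w * δ ^ 2 + k * δ ^ 3 ∧
      2 * w = G.derivative.derivative.eval y := by
  have h : ∀ T : R[X], T.eval δ = T.coeff 0 + T.divX.eval δ * δ := fun T => by
    conv_lhs => rw [← divX_mul_X_add T]
    rw [eval_add, eval_mul, eval_X, eval_C, add_comm]
  refine ⟨(hasseDeriv 2 G).eval y, (taylor y G).divX.divX.divX.eval δ, ?_, ?_⟩
  · rw [add_comm y δ, ← taylor_eval, h (taylor y G), h (taylor y G).divX, h (taylor y G).divX.divX,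
      coeff_divX, coeff_divX, coeff_divX, taylor_coeff_zero, zero_add, taylor_coeff_one,
      taylor_coeff]
    ring
  · have h2 := congrArg (eval y) (congrFun (factorial_smul_hasseDeriv (R := R) 2) G)
    simpa [Nat.factorial] using h2

theorem rjet_mul {R : Type} [CommRing R] {m n : ℕ} {A B : PowerSeries R}
    (hA : PowerSeries.X ^ m ∣ A) (hB : PowerSeries.X ^ n ∣ B) :
    PowerSeries.coeff (m + n) (A * B) = PowerSeries.coeff m A * PowerSeries.coeff n B := by
  obtain ⟨A, rfl⟩ := hA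
  obtain ⟨B, rfl⟩ := hB
  have h : ∀ (r : ℕ) (Z : PowerSeries R),
      PowerSeries.coeff r (PowerSeries.X ^ r * Z) = PowerSeries.coeff 0 Z := fun r Z => by
    simpa using PowerSeries.coeff_X_pow_mul Z r 0
  rw [mul_mul_mul_comm, ← pow_add, h, h, h]
  simp

theorem rjet_mul0 {R : Type} [CommRing R] {m : ℕ} {A : PowerSeries R}
    (hA : PowerSeries.X ^ m ∣ A) (B : PowerSeries R) :
    PowerSeries.coeff m (A * B) = PowerSeries.coeff m A * PowerSeries.coeff 0 B :=
  rjet_mul (n := 0) hA (by simp)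

theorem rjet_zero {R : Type} [CommRing R] {m n : ℕ} {A : PowerSeries R}
    (hA : PowerSeries.X ^ m ∣ A) (h : n < m) : PowerSeries.coeff n A = 0 :=
  PowerSeries.X_pow_dvd_iff.1 hA n h

theorem rjet_dvd {R : Type} [CommRing R] {ξ ξ' : ℕ → R} {i : ℕ} (h : ∀ m < i, ξ m = ξ' m) :
    PowerSeries.X ^ i ∣ PowerSeries.mk ξ - PowerSeries.mk ξ' :=
  PowerSeries.X_pow_dvd_iff.2 fun m hm => by simp [h m hm]

theorem rjet_dvd_pow {R : Type} [CommRing R] {δ : PowerSeries R} {i n : ℕ} (e : ℕ)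
    (h : PowerSeries.X ^ i ∣ δ) (hn : n ≤ i * e) : PowerSeries.X ^ n ∣ δ ^ e :=
  (pow_dvd_pow _ hn).trans (by rw [pow_mul]; exact pow_dvd_pow_of_dvd h e)

theorem coeff_zero_evP {R : Type} [CommRing R] [Algebra k0 R] (ξ : ℕ → R) :
    PowerSeries.coeff 0 (evP H P ξ) = aeval (ξ 0) P := by
  rw [PowerSeries.coeff_zero_eq_constantCoeff_apply, evP, hom_eval₂, aeval_def]
  congr 1
  ext a
  simp only [RingHom.comp_apply, ← PowerSeries.coeff_zero_eq_constantCoeff_apply,
    PowerSeries.coeff_map, H.c0]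

theorem rjet_cc {R : Type} [CommRing R] [Algebra k0 R] (ξ : ℕ → R) :
    PowerSeries.constantCoeff (evP H P ξ) = aeval (ξ 0) P := by
  rw [← PowerSeries.coeff_zero_eq_constantCoeff_apply, coeff_zero_evP]

theorem rjet_inv0 (ξ : ℕ → L) : PowerSeries.coeff 0 (evP H Q ξ)⁻¹ = (aeval (ξ 0) Q)⁻¹ := by
  rw [PowerSeries.coeff_zero_eq_constantCoeff_apply, PowerSeries.constantCoeff_inv, rjet_cc]

/-- Expansion of the difference of two values. -/
theorem rjet_diff {ξ ξ' : ℕ → L} (hQ : aeval (ξ 0) Q ≠ 0) (hQ' : aeval (ξ' 0) Q ≠ 0) :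
    ∃ w k : PowerSeries L, evP H P ξ * (evP H Q ξ)⁻¹ - evP H P ξ' * (evP H Q ξ')⁻¹ =
      (evP H (Wr P Q) ξ' * (PowerSeries.mk ξ - PowerSeries.mk ξ') +
        w * (PowerSeries.mk ξ - PowerSeries.mk ξ') ^ 2 +
        k * (PowerSeries.mk ξ - PowerSeries.mk ξ') ^ 3) * ((evP H Q ξ)⁻¹ * (evP H Q ξ')⁻¹) ∧
      2 * w = evP H (derivative (Wr P Q)) ξ' := by
  have h1 := PowerSeries.mul_inv_cancel (evP H Q ξ) (by rwa [rjet_cc])
  have h2 := PowerSeries.mul_inv_cancel (evP H Q ξ') (by rwa [rjet_cc])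
  generalize (evP H Q ξ)⁻¹ = u at h1 ⊢
  generalize (evP H Q ξ')⁻¹ = u' at h2 ⊢
  unfold evP at h1 h2 ⊢
  generalize (PowerSeries.map (algebraMap k0 L)).comp H.E = φ at h1 h2 ⊢
  generalize PowerSeries.mk ξ = x at h1 h2 ⊢
  generalize PowerSeries.mk ξ' = y at h1 h2 ⊢
  obtain ⟨w, k, h3, h4⟩ := rjet_taylor (P.map φ) y (x - y)
  obtain ⟨w', k', h5, h6⟩ := rjet_taylor (Q.map φ) y (x - y)
  simp only [add_sub_cancel, derivative_map, eval_map] at h3 h4 h5 h6
  refine ⟨w * Q.eval₂ φ y - w' * P.eval₂ φ y, k * Q.eval₂ φ y - k' * P.eval₂ φ y, ?_, ?_⟩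
  · simp only [Wr, eval₂_sub, eval₂_mul]
    linear_combination (-P.eval₂ φ x * u) * h2 + (P.eval₂ φ y * u') * h1 +
      (Q.eval₂ φ y * u * u') * h3 - (P.eval₂ φ y * u * u') * h5
  · simp only [Wr, derivative_sub, derivative_mul, eval₂_sub, eval₂_add, eval₂_mul]
    linear_combination Q.eval₂ φ y * h4 - P.eval₂ φ y * h6

theorem rjet_sub (ξ ξ' : ℕ → L) (i : ℕ) : jpt H P Q ξ i - jpt H P Q ξ' i =
    PowerSeries.coeff i (evP H P ξ * (evP H Q ξ)⁻¹ - evP H P ξ' * (evP H Q ξ')⁻¹) :=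
  (map_sub _ _ _).symm

theorem rjet_map_inv {K : Type} [Field K] (f : K →+* L) (A : PowerSeries K) :
    PowerSeries.map f A⁻¹ = (PowerSeries.map f A)⁻¹ := by
  have h1 : PowerSeries.constantCoeff (PowerSeries.map f A) = f (PowerSeries.constantCoeff A) := by
    simp only [← PowerSeries.coeff_zero_eq_constantCoeff_apply, PowerSeries.coeff_map]
  by_cases h : PowerSeries.constantCoeff A = 0
  · rw [PowerSeries.inv_eq_zero.2 h, map_zero, PowerSeries.inv_eq_zero.2 (by rw [h1, h, map_zero])]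
  · rw [PowerSeries.eq_inv_iff_mul_eq_one (by rw [h1]; exact (_root_.map_ne_zero f).2 h), ← map_mul,
      PowerSeries.inv_mul_cancel _ h, map_one]

theorem rjet_map_evP {K : Type} [Field K] [Algebra k0 K] (f : K →ₐ[k0] L) (η : ℕ → K) :
    PowerSeries.map (f : K →+* L) (evP H P η) = evP H P fun m => f (η m) := by
  rw [evP, evP, hom_eval₂]
  congr 1
  ext a n
  simp

theorem rjet_nat {K : Type} [Field K] [Algebra k0 K] (f : K →ₐ[k0] L) (η : ℕ → K) (i : ℕ) :
    jpt H P Q (fun m => f (η m)) i = f (jpt H P Q η i) := by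
  simp only [jpt, ← rjet_map_evP, ← rjet_map_inv, ← map_mul, PowerSeries.coeff_map, RingHom.coe_coe]

theorem jpt_zero (ξ : ℕ → L) : jpt H P Q ξ 0 = aeval (ξ 0) P / aeval (ξ 0) Q := by
  rw [jpt, rjet_mul0 (by simp), coeff_zero_evP, rjet_inv0, div_eq_mul_inv]

/-- The `i`-th new jet only depends on the old jets of order `≤ i`. -/
theorem jpt_congr {ξ ξ' : ℕ → L} {i : ℕ} (h : ∀ m ≤ i, ξ m = ξ' m) :
    jpt H P Q ξ i = jpt H P Q ξ' i := by
  have h0 := h 0 (Nat.zero_le _)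
  by_cases hQ : aeval (ξ 0) Q = 0
  · rw [jpt, jpt, PowerSeries.inv_eq_zero.2 (by rw [rjet_cc, hQ]),
      PowerSeries.inv_eq_zero.2 (by rw [rjet_cc, ← h0, hQ]), mul_zero, mul_zero]
  obtain ⟨w, k, h1, -⟩ := rjet_diff H P Q (ξ' := ξ') hQ (h0 ▸ hQ)
  have h2 := rjet_dvd (i := i + 1) fun m hm => h m (by omega)
  rw [← sub_eq_zero, rjet_sub, h1]
  exact rjet_zero (((h2.mul_left _).add ((h2.pow two_ne_zero).mul_left _)).add
    ((h2.pow three_ne_zero).mul_left _) |>.mul_right _) (Nat.lt_succ_self i)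

theorem jpt_mem (F : IntermediateField k0 L) {ξ : ℕ → L} {i : ℕ} (h : ∀ m ≤ i, ξ m ∈ F) :
    jpt H P Q ξ i ∈ F := by
  have h1 : ∀ m, (if m ≤ i then ξ m else 0) ∈ F := fun m => by
    split_ifs with e
    exacts [h m e, zero_mem _]
  rw [jpt_congr H P Q (ξ' := fun m => F.val ⟨_, h1 m⟩) fun m hm => by simp [hm], rjet_nat]
  exact SetLike.coe_mem _

/-- Triangularity. -/
theorem jpt_tri {ξ ξ' : ℕ → L} {i : ℕ} (hQ : aeval (ξ 0) Q ≠ 0) (h : ∀ m ≤ i, ξ m = ξ' m) :
    jpt H P Q ξ (i + 1) - jpt H P Q ξ' (i + 1) =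
      aeval (ξ 0) (Wr P Q) / aeval (ξ 0) Q ^ 2 * (ξ (i + 1) - ξ' (i + 1)) := by
  have h0 := h 0 (Nat.zero_le _)
  obtain ⟨w, k, h1, -⟩ := rjet_diff H P Q (ξ' := ξ') hQ (h0 ▸ hQ)
  have h2 := rjet_dvd (i := i + 1) fun m hm => h m (by omega)
  rw [rjet_sub, h1, rjet_mul0 (((h2.mul_left _).add ((h2.pow two_ne_zero).mul_left _)).add
    ((h2.pow three_ne_zero).mul_left _)), map_add, map_add,
    rjet_zero ((rjet_dvd_pow (n := i + 2) 2 h2 (by omega)).mul_left _) (by omega),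
    rjet_zero ((rjet_dvd_pow (n := i + 2) 3 h2 (by omega)).mul_left _) (by omega),
    mul_comm (evP H _ _), rjet_mul0 h2, rjet_mul0 (m := 0) (by simp), coeff_zero_evP, rjet_inv0,
    rjet_inv0, ← h0, map_sub, PowerSeries.coeff_mk, PowerSeries.coeff_mk]
  field_simp
  ring

theorem rjet_one (ξ : ℕ → L) : PowerSeries.coeff 1 (evP H P ξ) =
    aeval (ξ 0) (derivative P) * ξ 1 + aeval (ξ 0) (P.sum fun i a => monomial i (H.D 1 a)) := by
  induction P using Polynomial.induction_on' with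
  | add p q hp hq =>
    rw [evP, eval₂_add, map_add, sum_add_index _ _ _ (fun i => by simp [H.D_of_zero])
      (fun i a b => by simp [H.D_add]), derivative_add, map_add, map_add]
    rw [evP] at hp hq
    rw [hp, hq]
    ring
  | monomial n a =>
    rw [evP, eval₂_monomial, sum_monomial_index _ _ (by simp [H.D_of_zero]), derivative_monomial,
      PowerSeries.coeff_one_mul, PowerSeries.coeff_one_pow]
    simp only [map_pow, RingHom.comp_apply, ← PowerSeries.coeff_zero_eq_constantCoeff_apply,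
      PowerSeries.coeff_map, H.c0, PowerSeries.coeff_mk, aeval_monomial, map_mul, map_natCast, HD.D]
    ring

theorem jpt_one (ξ : ℕ → L) (hQ : aeval (ξ 0) Q ≠ 0) :
    jpt H P Q ξ 1 = (aeval (ξ 0) (Wr P Q) * ξ 1 +
      (aeval (ξ 0) (P.sum fun i a => monomial i (H.D 1 a)) * aeval (ξ 0) Q -
        aeval (ξ 0) P * aeval (ξ 0) (Q.sum fun i a => monomial i (H.D 1 a)))) /
      aeval (ξ 0) Q ^ 2 := by
  have h1 : evP H P ξ * (evP H Q ξ)⁻¹ * evP H Q ξ = evP H P ξ := by
    rw [mul_assoc, PowerSeries.inv_mul_cancel _ (by rwa [rjet_cc]), mul_one]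
  have h2 := congrArg (PowerSeries.coeff 1) h1
  have h3 := jpt_zero H P Q ξ
  rw [jpt, PowerSeries.coeff_zero_eq_constantCoeff_apply] at h3
  rw [PowerSeries.coeff_one_mul, h3, rjet_cc, rjet_one, rjet_one] at h2
  rw [jpt, eq_div_iff (pow_ne_zero 2 hQ)]
  simp only [Wr, map_sub, map_mul]
  field_simp at h2
  linear_combination h2

/-- Away from the critical points the old jets are algebraic over the new ones. -/
theorem mem_acl_jpt {ξ : ℕ → L} (hQ : aeval (ξ 0) Q ≠ 0) (hW : aeval (ξ 0) (Wr P Q) ≠ 0)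
    {S : Set L} {i : ℕ} (h : ∀ m ≤ i, jpt H P Q ξ m ∈ acl k0 S) : ξ i ∈ acl k0 S := by
  obtain ⟨F, hF⟩ := exists_aclField (k0 := k0) S
  induction i using Nat.strong_induction_on with
  | _ i ih =>
    cases i with
    | zero =>
      have h1 := h 0 le_rfl
      rw [jpt_zero] at h1
      refine mem_acl_of_root (P := P.map (algebraMap k0 L) -
        C (aeval (ξ 0) P / aeval (ξ 0) Q) * Q.map (algebraMap k0 L)) (fun e => hW ?_) (fun n => ?_) ?_
      · have h2 := congrArg (fun T => eval (ξ 0) (derivative T)) e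
        simp only [derivative_sub, derivative_C_mul, derivative_map, eval_sub, eval_mul, eval_C,
          eval_map_algebraMap, derivative_zero, eval_zero] at h2
        simp only [Wr, map_sub, map_mul]
        field_simp at h2
        linear_combination h2
      · rw [← hF] at h1 ⊢
        rw [coeff_sub, coeff_C_mul, coeff_map, coeff_map]
        exact sub_mem (F.algebraMap_mem _) (mul_mem h1 (F.algebraMap_mem _))
      · rw [eval_sub, eval_mul, eval_C, eval_map_algebraMap, eval_map_algebraMap,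
          div_mul_cancel₀ _ hQ, sub_self]
    | succ i =>
      have h1 : ∀ m ≤ i, ξ m ∈ F := fun m hm => by
        rw [← SetLike.mem_coe, hF]
        exact ih m (by omega) fun r hr => h r (by omega)
      have h2 := jpt_tri H P Q (ξ' := fun m => if m ≤ i then ξ m else 0) (i := i) hQ
        fun m hm => by simp [hm]
      have h3 := jpt_mem H P Q F (ξ := fun m => if m ≤ i then ξ m else 0) (i := i + 1)
        fun m _ => by
          split_ifs with e
          exacts [h1 m e, zero_mem _]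
      have h4 := h (i + 1) le_rfl
      have h5 : ∀ T : k0[X], aeval (ξ 0) T ∈ F := fun T =>
        (aeval_algebraMap_apply L (⟨ξ 0, h1 0 (Nat.zero_le _)⟩ : F) T).symm ▸ SetLike.coe_mem _
      rw [← hF] at h4 ⊢
      have h6 := sub_mem h4 h3
      rw [h2, if_neg (by omega), sub_zero] at h6
      have h7 := mul_mem (div_mem (pow_mem (h5 Q) 2) (h5 (Wr P Q))) h6
      rwa [← mul_assoc, ← inv_div, inv_mul_cancel₀ (div_ne_zero hW (pow_ne_zero 2 hQ)),
        one_mul] at h7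

theorem rjet_const (c : k0) (hQ : Q.eval c ≠ 0) (i : ℕ) :
    jpt H P Q (fun r => algebraMap k0 L (H.D r c)) i =
      algebraMap k0 L (H.D i (P.eval c / Q.eval c)) := by
  have h1 := HD.jet_div H (H0 := H) (fun _ _ => rfl) P Q c (by simpa using hQ) i
  simp only [coe_aeval_eq_eval] at h1
  rw [h1]
  exact rjet_nat H P Q (Algebra.ofId k0 L) _ i

theorem rjet_evP_const (c : k0) : evP H P (fun r => algebraMap k0 L (H.D r c)) =
    PowerSeries.map (algebraMap k0 L) (H.E (P.eval c)) := by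
  have h1 := HD.E_aeval H (H0 := H) (fun _ _ => rfl) P c
  simp only [coe_aeval_eq_eval] at h1
  rw [h1]
  exact (rjet_map_evP H P (Algebra.ofId k0 L) _).symm

theorem rjet_aeval {x : L} {c : k0} (hc : x = algebraMap k0 L c) (T : k0[X]) :
    aeval x T = algebraMap k0 L (T.eval c) := by
  rw [hc, aeval_algebraMap_apply, coe_aeval_eq_eval]

/-- At a critical point the new jets of order `0` and `1` are those of the critical value. -/
theorem jpt_crit {ξ : ℕ → L} {c : k0} (hc : ξ 0 = algebraMap k0 L c) (hQ : Q.eval c ≠ 0)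
    (hW : (Wr P Q).eval c = 0) :
    jpt H P Q ξ 0 = algebraMap k0 L (P.eval c / Q.eval c) ∧
      jpt H P Q ξ 1 = algebraMap k0 L (H.D 1 (P.eval c / Q.eval c)) := by
  refine ⟨by rw [jpt_zero, rjet_aeval hc, rjet_aeval hc, map_div₀], ?_⟩
  have h1 := jpt_tri H P Q (ξ := ξ) (ξ' := fun r => algebraMap k0 L (H.D r c)) (i := 0)
    (by rw [rjet_aeval hc]; exact (_root_.map_ne_zero _).2 hQ) fun m hm => by
      rw [Nat.le_zero.1 hm, hc, H.D_zero]
  rwa [rjet_aeval hc, hW, map_zero, zero_div, zero_mul, sub_eq_zero, rjet_const H P Q c hQ] at h1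

theorem rjet_two {ξ : ℕ → L} {c : k0} (hc : ξ 0 = algebraMap k0 L c)
    (hQ : Q.eval c ≠ 0) (hW : (Wr P Q).eval c = 0) :
    2 * (jpt H P Q ξ 2 - algebraMap k0 L (H.D 2 (P.eval c / Q.eval c))) =
      algebraMap k0 L ((derivative (Wr P Q)).eval c / Q.eval c ^ 2) *
        (ξ 1 - algebraMap k0 L (H.D 1 c)) ^ 2 := by
  have h0 : algebraMap k0 L (H.D 0 c) = algebraMap k0 L c := by rw [H.D_zero]
  have hQ' := (_root_.map_ne_zero (algebraMap k0 L)).2 hQ
  obtain ⟨w, k, h1, h3⟩ := rjet_diff H P Q (ξ := ξ) (ξ' := fun r => algebraMap k0 L (H.D r c))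
    (by rwa [rjet_aeval hc]) (by rwa [rjet_aeval h0])
  have h2 := rjet_dvd (ξ := ξ) (ξ' := fun r => algebraMap k0 L (H.D r c)) (i := 1) fun m hm => by
    rw [Nat.lt_one_iff.1 hm, hc, h0]
  have h4 := congrArg (PowerSeries.coeff 0) h3
  rw [two_mul, map_add, ← two_mul, coeff_zero_evP, rjet_aeval h0] at h4
  have h5 := rjet_mul h2 h2
  rw [← sq, map_sub, PowerSeries.coeff_mk, PowerSeries.coeff_mk] at h5
  rw [← rjet_const H P Q c hQ, rjet_sub, h1, rjet_evP_const, hW, map_zero, map_zero, zero_mul,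
    zero_add, rjet_mul0 (((rjet_dvd_pow (n := 2) 2 h2 (by omega)).mul_left _).add
      ((rjet_dvd_pow (n := 2) 3 h2 (by omega)).mul_left _)), map_add,
    rjet_zero ((rjet_dvd_pow (n := 3) 3 h2 (by omega)).mul_left _) (by omega),
    mul_comm w, rjet_mul0 (rjet_dvd_pow (n := 2) 2 h2 (by omega)), h5,
    rjet_mul0 (m := 0) (by simp), rjet_inv0, rjet_inv0, rjet_aeval hc, rjet_aeval h0, map_div₀,
    map_pow, ← h4]
  field_simp
  ring

theorem rjet_wr_one {ξ : ℕ → L} {c : k0} (hc : ξ 0 = algebraMap k0 L c) (hW : P.eval c = 0) :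
    PowerSeries.coeff 1 (evP H P ξ) =
      algebraMap k0 L ((derivative P).eval c) * (ξ 1 - algebraMap k0 L (H.D 1 c)) := by
  have h0 : algebraMap k0 L (H.D 0 c) = algebraMap k0 L c := by rw [H.D_zero]
  have h1 := rjet_one H P fun r => algebraMap k0 L (H.D r c)
  rw [rjet_evP_const, hW, map_zero, map_zero, map_zero, h0, ← hc] at h1
  rw [rjet_one, ← rjet_aeval hc]
  linear_combination -h1

theorem rjet_high {ξ ξ' : ℕ → L} {c : k0} (hc : ξ 0 = algebraMap k0 L c)
    (hQ : Q.eval c ≠ 0) (hW : (Wr P Q).eval c = 0) {i : ℕ} (h : ∀ m < i + 2, ξ m = ξ' m) :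
    jpt H P Q ξ (i + 3) - jpt H P Q ξ' (i + 3) =
      algebraMap k0 L ((derivative (Wr P Q)).eval c / Q.eval c ^ 2) *
        (ξ 1 - algebraMap k0 L (H.D 1 c)) * (ξ (i + 2) - ξ' (i + 2)) := by
  have h0 : ξ' 0 = algebraMap k0 L c := (h 0 (by omega)).symm.trans hc
  have hQ' := (_root_.map_ne_zero (algebraMap k0 L)).2 hQ
  obtain ⟨w, k, h1, -⟩ := rjet_diff H P Q (ξ := ξ) (ξ' := ξ')
    (by rwa [rjet_aeval hc]) (by rwa [rjet_aeval h0])
  have h2 := rjet_dvd h
  have h3 : PowerSeries.X ^ 1 ∣ evP H (Wr P Q) ξ' := PowerSeries.X_pow_dvd_iff.2 fun m hm => by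
    rw [Nat.lt_one_iff.1 hm, coeff_zero_evP, rjet_aeval h0, hW, map_zero]
  have h4 := rjet_mul h3 h2
  have h5 := mul_dvd_mul h3 h2
  rw [← pow_add, show 1 + (i + 2) = i + 3 by omega] at h5
  rw [show 1 + (i + 2) = i + 3 by omega, rjet_wr_one H _ h0 hW, ← h 1 (by omega), map_sub,
    PowerSeries.coeff_mk, PowerSeries.coeff_mk] at h4
  rw [rjet_sub, h1, rjet_mul0 ((h5.add ((rjet_dvd_pow 2 h2 (by omega)).mul_left _)).add
      ((rjet_dvd_pow 3 h2 (by omega)).mul_left _)), map_add, map_add, h4,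
    rjet_zero ((rjet_dvd_pow (n := i + 4) 2 h2 (by omega)).mul_left _) (by omega),
    rjet_zero ((rjet_dvd_pow (n := i + 4) 3 h2 (by omega)).mul_left _) (by omega),
    rjet_mul0 (m := 0) (by simp), rjet_inv0, rjet_inv0, rjet_aeval hc, rjet_aeval h0, map_div₀,
    map_pow]
  field_simp
  ring

/-- At a simple critical point the old jet of order `i` is algebraic over the new jets of orders
`2, …, i + 1`. -/
theorem mem_acl_jpt_crit (h2 : (2 : k0) ≠ 0) {ξ : ℕ → L} {c : k0} (hc : ξ 0 = algebraMap k0 L c)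
    (hQ : Q.eval c ≠ 0) (hW : (Wr P Q).eval c = 0) (hW' : (derivative (Wr P Q)).eval c ≠ 0)
    (h1 : ξ 1 ≠ algebraMap k0 L (H.D 1 c)) {S : Set L} {i : ℕ}
    (h : ∀ m, 2 ≤ m → m ≤ i + 1 → jpt H P Q ξ m ∈ acl k0 S) : ξ i ∈ acl k0 S := by
  obtain ⟨F, hF⟩ := exists_aclField (k0 := k0) S
  have hα : algebraMap k0 L ((derivative (Wr P Q)).eval c / Q.eval c ^ 2) ≠ 0 :=
    (_root_.map_ne_zero _).2 (div_ne_zero hW' (pow_ne_zero 2 hQ))
  have hε := sub_ne_zero.2 h1
  induction i using Nat.strong_induction_on with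
  | _ i ih =>
    match i with
    | 0 => rw [← hF, hc]; exact F.algebraMap_mem c
    | 1 =>
      have h3 := h 2 le_rfl le_rfl
      rw [← hF] at h3
      have h4 := mul_mem (ofNat_mem F 2)
        (sub_mem h3 (F.algebraMap_mem (H.D 2 (P.eval c / Q.eval c))))
      rw [rjet_two H P Q hc hQ hW] at h4
      have h5 := mul_mem (inv_mem (F.algebraMap_mem
        ((derivative (Wr P Q)).eval c / Q.eval c ^ 2))) h4
      rw [inv_mul_cancel_left₀ hα] at h5
      have h6 : ξ 1 - algebraMap k0 L (H.D 1 c) ∈ acl k0 S := by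
        refine mem_acl_of_root (P := X ^ 2 - C ((ξ 1 - algebraMap k0 L (H.D 1 c)) ^ 2))
          (X_pow_sub_C_ne_zero two_pos _) (fun n => ?_) (by simp)
        rw [← hF, coeff_sub, coeff_X_pow, coeff_C]
        refine sub_mem ?_ ?_ <;> split_ifs
        exacts [one_mem _, zero_mem _, h5, zero_mem _]
      rw [← hF] at h6 ⊢
      simpa using add_mem h6 (F.algebraMap_mem (H.D 1 c))
    | i + 2 =>
      have h3 : ∀ m < i + 2, ξ m ∈ F := fun m hm => by
        rw [← SetLike.mem_coe, hF]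
        exact ih m hm fun r hr hr' => h r hr (by omega)
      have h4 := rjet_high H P Q (ξ' := fun m => if m < i + 2 then ξ m else 0) (i := i) hc hQ hW
        fun m hm => by simp [hm]
      have h5 := jpt_mem H P Q F (ξ := fun m => if m < i + 2 then ξ m else 0) (i := i + 3)
        fun m _ => by
          split_ifs with e
          exacts [h3 m e, zero_mem _]
      have h6 := h (i + 3) (by omega) le_rfl
      rw [← hF] at h6 ⊢
      have h7 := sub_mem h6 h5
      rw [h4, if_neg (by omega), sub_zero] at h7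
      have h8 := mul_mem (inv_mem (mul_mem (F.algebraMap_mem
        ((derivative (Wr P Q)).eval c / Q.eval c ^ 2))
        (sub_mem (h3 1 (by omega)) (F.algebraMap_mem (H.D 1 c))))) h7
      rwa [inv_mul_cancel_left₀ (mul_ne_zero hα hε)] at h8

end JR
end

-- merged part: Pool.Agent.Work.MP_969914_nt.RElim
section
/-! Elimination, principal relation ideals, specialisation, growth. -/

set_option autoImplicit false

namespace JR

open Polynomial

variable {k0 σ : Type} [Field k0]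

theorem relim_gauss {R : Type} [CommRing R] [IsDomain R] [UniqueFactorizationMonoid R]
    {A B : R[X]} (h : IsRelPrime A B) : ∃ c : R, c ≠ 0 ∧ C c ∈ Ideal.span {A, B} := by
  have := Classical.arbitrary (NormalizedGCDMonoid R)
  have hi : Function.Injective (Polynomial.map (algebraMap R (FractionRing R))) :=
    map_injective _ (IsFractionRing.injective R (FractionRing R))
  have h1 : IsRelPrime (A.map (algebraMap R (FractionRing R)))
      (B.map (algebraMap R (FractionRing R))) := fun d hA hB => by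
    have d0 : d ≠ 0 := by
      rintro rfl
      have a0 : A = 0 := hi (by rw [Polynomial.map_zero]; exact zero_dvd_iff.1 hA)
      have b0 : B = 0 := hi (by rw [Polynomial.map_zero]; exact zero_dvd_iff.1 hB)
      exact not_isUnit_zero (h (a0 ▸ dvd_refl (0 : R[X])) (b0 ▸ dvd_refl (0 : R[X])))
    refine isUnit_or_eq_zero_of_isUnit_integerNormalization_primPart (R := R) d0 ?_
    obtain ⟨b, hb, e⟩ := IsLocalization.integerNormalization_spec (nonZeroDivisors R) d
    have h2 : ((IsLocalization.integerNormalization (nonZeroDivisors R) d).primPart).map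
        (algebraMap R (FractionRing R)) ∣ d := by
      have h3 := Polynomial.map_dvd (algebraMap R (FractionRing R))
        (IsLocalization.integerNormalization (nonZeroDivisors R) d).primPart_dvd
      rw [e, Algebra.smul_def, Polynomial.algebraMap_apply] at h3
      exact (IsUnit.dvd_mul_left (isUnit_C.2
        (IsLocalization.map_units (FractionRing R) ⟨b, hb⟩))).1 h3
    exact h ((isPrimitive_primPart _).dvd_of_fraction_map_dvd_fraction_map (h2.trans hA))
      ((isPrimitive_primPart _).dvd_of_fraction_map_dvd_fraction_map (h2.trans hB))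
  obtain ⟨a, b, hab⟩ := h1.isCoprime
  obtain ⟨s, hs, ea⟩ := IsLocalization.integerNormalization_spec (nonZeroDivisors R) a
  obtain ⟨t, ht, eb⟩ := IsLocalization.integerNormalization_spec (nonZeroDivisors R) b
  refine ⟨s * t, mul_ne_zero (nonZeroDivisors.ne_zero hs) (nonZeroDivisors.ne_zero ht),
    Ideal.mem_span_pair.2 ⟨C t * IsLocalization.integerNormalization (nonZeroDivisors R) a,
      C s * IsLocalization.integerNormalization (nonZeroDivisors R) b, hi ?_⟩⟩
  rw [Algebra.smul_def, Polynomial.algebraMap_apply] at ea eb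
  simp only [Polynomial.map_add, Polynomial.map_mul, ea, eb, map_C, map_mul]
  linear_combination (C (algebraMap R (FractionRing R) s) * C (algebraMap R (FractionRing R) t)) * hab

theorem relim_deg_rename {τ : Type} (f : τ → σ) (p : MvPolynomial τ k0) {s : σ}
    (hs : s ∉ Set.range f) : (MvPolynomial.rename f p).degreeOf s = 0 := by
  by_contra h
  obtain ⟨i, -, hi⟩ := MvPolynomial.mem_vars_rename f p
    (MvPolynomial.mem_vars_iff_degreeOf_ne_zero.2 h)
  exact hs ⟨i, hi⟩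

theorem relim_one {A B : MvPolynomial σ k0} (h : IsRelPrime A B) (u : σ) :
    ∃ Λ ∈ Ideal.span {A, B}, Λ ≠ 0 ∧ Λ.degreeOf u = 0 := by
  classical
  let e : MvPolynomial σ k0 ≃ₐ[k0] (MvPolynomial {s // s ≠ u} k0)[X] :=
    (MvPolynomial.renameEquiv k0 (Equiv.optionSubtypeNe u).symm).trans
      (MvPolynomial.optionEquivLeft k0 _)
  have h1 : IsRelPrime (e A) (e B) := fun d hA hB => by
    have := h (d := e.symm d) (by simpa using map_dvd e.symm hA) (by simpa using map_dvd e.symm hB)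
    simpa using this.map e
  obtain ⟨c, c0, hc⟩ := relim_gauss h1
  obtain ⟨a, b, hab⟩ := Ideal.mem_span_pair.1 hc
  have h2 : e (MvPolynomial.rename Subtype.val c) = C c := by
    have : e.toAlgHom.comp (MvPolynomial.rename Subtype.val) = Polynomial.CAlgHom := by
      refine MvPolynomial.algHom_ext fun s => ?_
      simp [e, Equiv.optionSubtypeNe_symm_of_ne s.2]
    exact DFunLike.congr_fun this c
  refine ⟨MvPolynomial.rename Subtype.val c, Ideal.mem_span_pair.2 ⟨e.symm a, e.symm b,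
    e.injective (by simp [hab, h2])⟩, fun h0 => c0 ?_, relim_deg_rename _ _ ?_⟩
  · exact MvPolynomial.rename_injective _ Subtype.val_injective (h0.trans (map_zero _).symm)
  · rintro ⟨s, hs⟩
    exact s.2 hs

theorem relim_lift {V : Set σ} {A : MvPolynomial σ k0} (hA : On V A) :
    ∃ A₀ : MvPolynomial V k0, MvPolynomial.rename Subtype.val A₀ = A :=
  MvPolynomial.exists_rename_eq_of_vars_subset_range A _ Subtype.val_injective fun s hs => by
    by_contra hn
    exact MvPolynomial.mem_vars_iff_degreeOf_ne_zero.1 hs (hA s fun h => hn ⟨⟨s, h⟩, rfl⟩)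

theorem elim1 {A B : MvPolynomial σ k0} (h : IsRelPrime A B) {V : Set σ} (hA : On V A)
    (hB : On V B) (u : σ) :
    ∃ Λ ∈ Ideal.span {A, B}, Λ ≠ 0 ∧ On (V \ {u}) Λ := by
  by_cases hu : u ∈ V
  · obtain ⟨A₀, rfl⟩ := relim_lift hA
    obtain ⟨B₀, rfl⟩ := relim_lift hB
    have h1 : IsRelPrime A₀ B₀ := fun d h1 h2 => by
      have := (h (map_dvd _ h1) (map_dvd _ h2)).map
        (MvPolynomial.killCompl (R := k0) (Subtype.val_injective (p := (· ∈ V))))
      rwa [MvPolynomial.killCompl_rename_app] at this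
    obtain ⟨Λ, h2, h3, h4⟩ := relim_one h1 ⟨u, hu⟩
    obtain ⟨a, b, rfl⟩ := Ideal.mem_span_pair.1 h2
    refine ⟨MvPolynomial.rename Subtype.val (a * A₀ + b * B₀), Ideal.mem_span_pair.2
      ⟨MvPolynomial.rename Subtype.val a, MvPolynomial.rename Subtype.val b, by simp⟩,
      fun h0 => h3 ?_, fun s hs => ?_⟩
    · exact MvPolynomial.rename_injective _ Subtype.val_injective (h0.trans (map_zero _).symm)
    · by_cases hV : s ∈ V
      · have e : s = u := by
          by_contra hn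
          exact hs ⟨hV, hn⟩
        subst e
        exact (MvPolynomial.degreeOf_rename_of_injective Subtype.val_injective
          (⟨s, hu⟩ : V)).trans h4
      · exact relim_deg_rename _ _ (by rwa [Subtype.range_coe])
  · have e : V ⊆ V \ {u} := fun s hs => ⟨hs, fun h' => hu (Set.mem_singleton_iff.1 h' ▸ hs)⟩
    by_cases h0 : A = 0
    · refine ⟨B, Ideal.subset_span (by simp), fun h1 => ?_, hB.mono e⟩
      exact not_isUnit_zero (h (h0 ▸ dvd_refl (0 : MvPolynomial σ k0))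
        (h1 ▸ dvd_refl (0 : MvPolynomial σ k0)))
    · exact ⟨A, Ideal.subset_span (by simp), h0, hA.mono e⟩

theorem cod2 {L : Type} [Field L] [Algebra k0 L] {A B : MvPolynomial σ k0} (h : IsRelPrime A B)
    {V : Set σ} (hA : On V A) (hB : On V B) {ω : σ → L} (h1 : MvPolynomial.aeval ω A = 0)
    (h2 : MvPolynomial.aeval ω B = 0) (u : σ) : ¬ Ind k0 ω (V \ {u}) := by
  intro hI
  obtain ⟨Λ, h3, h4, h5⟩ := elim1 h hA hB u
  obtain ⟨a, b, rfl⟩ := Ideal.mem_span_pair.1 h3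
  exact h4 (hI _ h5 (by simp [h1, h2]))

theorem relim_irr {L : Type} [Field L] [Algebra k0 L] (ω : σ → L) (f : MvPolynomial σ k0) :
    f ≠ 0 → MvPolynomial.aeval ω f = 0 →
      ∃ G, Irreducible G ∧ G ∣ f ∧ MvPolynomial.aeval ω G = 0 := by
  refine UniqueFactorizationMonoid.induction_on_prime f (fun h => absurd rfl h)
    (fun x hx _ h => absurd h (hx.map _).ne_zero) fun a p a0 hp ih _ h => ?_
  rw [map_mul] at h
  rcases mul_eq_zero.1 h with h | h
  · exact ⟨p, hp.irreducible, dvd_mul_right _ _, h⟩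
  · obtain ⟨G, h1, h2, h3⟩ := ih a0 h
    exact ⟨G, h1, h2.mul_left _, h3⟩

theorem exists_gen {L : Type} [Field L] [Algebra k0 L] {ω : σ → L} {V : Set σ} {u : σ}
    (h1 : Ind k0 ω (V \ {u})) (h2 : ¬ Ind k0 ω V) :
    ∃ G : MvPolynomial σ k0, Gen ω V G ∧ G.degreeOf u ≠ 0 := by
  obtain ⟨f, hf, h3, h0⟩ : ∃ f : MvPolynomial σ k0, On V f ∧ MvPolynomial.aeval ω f = 0 ∧ f ≠ 0 := by
    by_contra hn
    exact h2 fun f hf h3 => by_contra fun h0 => hn ⟨f, hf, h3, h0⟩
  obtain ⟨G, hG, hd, hz⟩ := relim_irr ω f h0 h3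
  have hV : On V G := hf.of_dvd h0 hd
  refine ⟨G, ⟨hG, hV, hz, fun g hg hg0 => by_contra fun hn => ?_⟩, fun hu => hG.ne_zero ?_⟩
  · exact cod2 (hG.isRelPrime_iff_not_dvd.2 hn) hV hg hz hg0 u h1
  · refine h1 G (fun s hs => ?_) hz
    by_cases e : s = u
    · rw [e, hu]
    · exact hV s fun h' => hs ⟨h', e⟩

theorem relim_unit {d : MvPolynomial σ k0} (h0 : d ≠ 0) (h : ∀ s, d.degreeOf s = 0) : IsUnit d := by
  have h1 : d = MvPolynomial.C (d.coeff 0) := MvPolynomial.vars_eq_empty_iff_eq_C.1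
    (Finset.eq_empty_of_forall_notMem fun s hs =>
      MvPolynomial.mem_vars_iff_degreeOf_ne_zero.1 hs (h s))
  rw [h1] at h0 ⊢
  exact (IsUnit.mk0 _ fun e => h0 (by rw [e, map_zero])).map MvPolynomial.C

/-- The generic point of a prime divisor. -/
theorem exists_generic {π : MvPolynomial σ k0} (hπ : Irreducible π) :
    ∃ (L : Type) (_ : Field L) (_ : Algebra k0 L) (ω : σ → L),
      (∀ f, MvPolynomial.aeval ω f = 0 ↔ π ∣ f) ∧
      ∃ u, π.degreeOf u ≠ 0 ∧ Ind k0 ω {u}ᶜ := by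
  have hp : (Ideal.span {π}).IsPrime :=
    (Ideal.span_singleton_prime hπ.ne_zero).2 hπ.prime
  let φ : MvPolynomial σ k0 →ₐ[k0] FractionRing (MvPolynomial σ k0 ⧸ Ideal.span {π}) :=
    (IsScalarTower.toAlgHom k0 (MvPolynomial σ k0 ⧸ Ideal.span {π}) _).comp
      (Ideal.Quotient.mkₐ k0 _)
  have h1 : ∀ f, MvPolynomial.aeval (fun s => φ (MvPolynomial.X s)) f = 0 ↔ π ∣ f := fun f => by
    have e : MvPolynomial.aeval (fun s => φ (MvPolynomial.X s)) = φ :=
      MvPolynomial.algHom_ext fun s => MvPolynomial.aeval_X _ _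
    rw [e, ← Ideal.mem_span_singleton, ← Ideal.Quotient.eq_zero_iff_mem]
    exact map_eq_zero_iff _ (IsFractionRing.injective (MvPolynomial σ k0 ⧸ Ideal.span {π}) _)
  obtain ⟨u, hu⟩ : ∃ u, π.degreeOf u ≠ 0 := by
    by_contra hn
    exact hπ.not_isUnit (relim_unit hπ.ne_zero fun s => by_contra fun h => hn ⟨s, h⟩)
  refine ⟨_, inferInstance, inferInstance, _, h1, u, hu, fun f hf h0 => by_contra fun hn => hu ?_⟩
  have := degreeOf_le_of_dvd hn ((h1 f).1 h0) u
  rw [hf u fun h => h rfl] at this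
  exact Nat.le_zero.1 this

/-- The generic point of affine space. -/
theorem exists_generic_zero :
    ∃ (L : Type) (_ : Field L) (_ : Algebra k0 L) (ω : σ → L), Ind k0 ω Set.univ := by
  let φ : MvPolynomial σ k0 →ₐ[k0] FractionRing (MvPolynomial σ k0) :=
    IsScalarTower.toAlgHom k0 (MvPolynomial σ k0) _
  refine ⟨_, inferInstance, inferInstance, fun s => φ (MvPolynomial.X s), fun f _ h0 => ?_⟩
  have e : MvPolynomial.aeval (fun s => φ (MvPolynomial.X s)) = φ :=
    MvPolynomial.algHom_ext fun s => MvPolynomial.aeval_X _ _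
  rw [e] at h0
  exact (map_eq_zero_iff _ (IsFractionRing.injective (MvPolynomial σ k0) _)).1 h0

/-- Coprimality survives specialisation of variables. -/
theorem relPrime_spec {A B : MvPolynomial σ k0} (h : IsRelPrime A B) (hA : A ≠ 0) (hB : B ≠ 0) :
    ∃ F : Finset (MvPolynomial σ k0), (∀ f ∈ F, f ≠ 0) ∧
      ∀ (u u' : σ) (c c' : k0), (∀ f ∈ F, sub1 u' c' (sub1 u c f) ≠ 0) →
        IsRelPrime (sub1 u' c' (sub1 u c A)) (sub1 u' c' (sub1 u c B)) ∧
          sub1 u' c' (sub1 u c A) ≠ 0 ∧ sub1 u' c' (sub1 u c B) ≠ 0 := by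
  classical
  choose Λ h1 h2 h3 using relim_one h
  refine ⟨insert A (insert B (A.vars.image Λ)), fun f hf => ?_, fun u u' c c' hF => ?_⟩
  · simp only [Finset.mem_insert, Finset.mem_image] at hf
    rcases hf with rfl | rfl | ⟨s, -, rfl⟩
    exacts [hA, hB, h2 s]
  have a0 := hF A (Finset.mem_insert_self _ _)
  have b0 := hF B (Finset.mem_insert_of_mem (Finset.mem_insert_self _ _))
  have hle : ∀ (f : MvPolynomial σ k0) (s : σ),
      (sub1 u' c' (sub1 u c f)).degreeOf s ≤ f.degreeOf s := fun f s =>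
    (degreeOf_sub1_le _ _ _ _).trans (degreeOf_sub1_le _ _ _ _)
  refine ⟨fun d dA dB => relim_unit (fun e => a0 (zero_dvd_iff.1 (e ▸ dA))) fun s => ?_, a0, b0⟩
  by_cases hs : s ∈ A.vars
  · have l0 := hF (Λ s) (Finset.mem_insert_of_mem (Finset.mem_insert_of_mem
      (Finset.mem_image_of_mem _ hs)))
    have hd : d ∣ sub1 u' c' (sub1 u c (Λ s)) := by
      obtain ⟨a, b, e⟩ := Ideal.mem_span_pair.1 (h1 s)
      rw [← e]
      simp only [map_add, map_mul]
      exact dvd_add (dA.mul_left _) (dB.mul_left _)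
    exact Nat.le_zero.1 (((degreeOf_le_of_dvd l0 hd s).trans (hle _ s)).trans (h3 s).le)
  · have : A.degreeOf s = 0 := by
      by_contra hn
      exact hs (MvPolynomial.mem_vars_iff_degreeOf_ne_zero.2 hn)
    exact Nat.le_zero.1 (((degreeOf_le_of_dvd a0 dA s).trans (hle _ s)).trans this.le)

theorem relim_sub_monomial (i : σ) (c a : k0) (m : σ →₀ ℕ) :
    sub1 i c (MvPolynomial.monomial m a) = MvPolynomial.monomial (m.erase i) (a * c ^ m i) := by
  have e : MvPolynomial.monomial m a =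
      MvPolynomial.monomial (m.erase i) a * MvPolynomial.X i ^ m i := by
    rw [← MvPolynomial.monomial_add_single, Finsupp.erase_add_single]
  have h1 : On {i}ᶜ (MvPolynomial.monomial (m.erase i) a) := fun s hs => by
    have e' : s = i := not_not.1 hs
    refine Nat.le_zero.1 (MvPolynomial.degreeOf_le_iff.2 fun n hn => ?_)
    rw [Finset.mem_singleton.1 (MvPolynomial.support_monomial_subset hn), e', Finsupp.erase_same]
  have h2 : sub1 i c (MvPolynomial.X i) = MvPolynomial.C c := by simp [sub1]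
  rw [e, map_mul, map_pow, sub1_of_on h1 (fun h => h rfl), h2, ← map_pow, mul_comm,
    MvPolynomial.C_mul_monomial, mul_comm]

theorem growth {G f : MvPolynomial σ k0} (h : G ∣ f) {u i : σ} (hui : u ≠ i)
    (hu : G.degreeOf u ≠ 0) (I : Finset k0)
    (hI : ∀ c ∈ I, sub1 i c f ≠ 0 ∧ (sub1 i c f).degreeOf u = 0) :
    I.card ≤ G.degreeOf i := by
  classical
  obtain ⟨m, hm, hmu⟩ : ∃ m ∈ G.support, m u ≠ 0 := by
    by_contra hn
    refine hu (Nat.le_zero.1 (MvPolynomial.degreeOf_le_iff.2 fun n h' => Nat.le_zero.2 ?_))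
    by_contra h0
    exact hn ⟨n, h', h0⟩
  obtain ⟨q, hq⟩ : ∃ q : k0[X], q = ∑ n ∈ G.support,
    if n.erase i = m.erase i then monomial (n i) (G.coeff n) else 0 := ⟨_, rfl⟩
  have h1 : ∀ c, q.eval c = (sub1 i c G).coeff (m.erase i) := fun c => by
    conv_rhs => rw [G.as_sum]
    rw [hq, eval_finsetSum, map_sum, MvPolynomial.coeff_sum]
    refine Finset.sum_congr rfl fun n _ => ?_
    rw [relim_sub_monomial, MvPolynomial.coeff_monomial]
    split_ifs
    · rw [eval_monomial]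
    · rw [eval_zero]
  have h2 : q.coeff (m i) = G.coeff m := by
    rw [hq, finsetSum_coeff, Finset.sum_eq_single_of_mem m hm]
    · rw [if_pos rfl, coeff_monomial_same]
    · intro n _ hn
      split_ifs with e
      · rw [coeff_monomial, if_neg fun e' => hn ?_]
        rw [← Finsupp.erase_add_single i n, e, e', Finsupp.erase_add_single]
      · exact coeff_zero _
  have h3 : q ≠ 0 := fun e => MvPolynomial.mem_support_iff.1 hm (by rw [← h2, e, coeff_zero])
  have h4 : q.natDegree ≤ G.degreeOf i := by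
    rw [hq]
    refine natDegree_sum_le_of_forall_le _ _ fun n hn => ?_
    split_ifs
    · exact (natDegree_monomial_le _).trans (MvPolynomial.monomial_le_degreeOf i hn)
    · simp
  refine le_trans (Polynomial.card_le_degree_of_subset_roots fun c hc => ?_) h4
  rw [mem_roots h3, IsRoot, h1]
  by_contra hn
  have h5 := MvPolynomial.monomial_le_degreeOf u (MvPolynomial.mem_support_iff.2 hn)
  have h6 := degreeOf_le_of_dvd (hI c hc).1 (map_dvd (sub1 i c) h) u
  rw [Finsupp.erase_ne hui] at h5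
  exact hmu (Nat.le_zero.1 ((h5.trans h6).trans (hI c hc).2.le))

/-- Removing the common factor. -/
theorem exists_relPrime_part {A B Ξ : MvPolynomial σ k0} (hA : A ≠ 0)
    (h : ∀ π, Irreducible π → π ∣ A → π ∣ B → π ∣ Ξ) :
    ∃ (g A' B' : MvPolynomial σ k0) (n : ℕ), A = g * A' ∧ B = g * B' ∧ IsRelPrime A' B' ∧
      g ∣ Ξ ^ n := by
  obtain ⟨A', B', g, h1, rfl, rfl⟩ := UniqueFactorizationMonoid.exists_reduced_factors A hA B
  have key : ∀ g : MvPolynomial σ k0, g ≠ 0 → (∀ π, Irreducible π → π ∣ g → π ∣ Ξ) →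
      ∃ n : ℕ, g ∣ Ξ ^ n := fun g => by
    refine UniqueFactorizationMonoid.induction_on_prime g (fun h => absurd rfl h)
      (fun x hx _ _ => ⟨0, hx.dvd⟩) fun a p a0 hp ih _ h' => ?_
    obtain ⟨n, hn⟩ := ih a0 fun π h2 h3 => h' π h2 (h3.mul_left _)
    exact ⟨n + 1, by
      rw [pow_succ']
      exact mul_dvd_mul (h' p hp.irreducible (dvd_mul_right _ _)) hn⟩
  obtain ⟨n, hn⟩ := key g (left_ne_zero_of_mul hA) fun π h2 h3 =>
    h π h2 (h3.mul_right _) (h3.mul_right _)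
  exact ⟨g, A', B', n, rfl, rfl, h1, hn⟩

/-- A relation involving `u` whose leading coefficient does not vanish. -/
theorem exists_rel_not_dvd {L : Type} [Field L] [Algebra k0 L] {ω : σ → L} {V : Set σ} {u : σ}
    (hu : u ∉ V) (h : ω u ∈ acl k0 (ω '' V)) {G : MvPolynomial σ k0} (hG : On V G)
    (h0 : MvPolynomial.aeval ω G = 0) :
    ∃ f, On (insert u V) f ∧ MvPolynomial.aeval ω f = 0 ∧ ¬ G ∣ f := by
  classical
  obtain ⟨P, h1, h2, h3, -⟩ := exists_eq_of_mem_acl h
  let ψ : MvPolynomial σ k0 →ₐ[k0] L[X] :=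
    MvPolynomial.aeval fun s => if s = u then X else C (ω s)
  have hψ : ∀ g, On V g → ψ g = C (MvPolynomial.aeval ω g) := fun g hg => by
    refine (hg.aeval_congr (ω' := fun s => C (ω s)) fun s hs =>
      if_neg fun e : s = u => hu (e ▸ hs)).trans ?_
    exact (MvPolynomial.comp_aeval_apply ω (CAlgHom : L →ₐ[k0] L[X]) g).symm
  have hX : ψ (MvPolynomial.X u) = X := by simp [ψ]
  refine ⟨∑ i ∈ P.support, P.coeff i * MvPolynomial.X u ^ i, On.sum fun i _ =>
    ((h1 i).mono (Set.subset_insert _ _)).mul ((On.X (Set.mem_insert _ _)).pow i), ?_, ?_⟩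
  · rw [← h3, eval₂_eq_sum, Polynomial.sum_def, map_sum]
    exact Finset.sum_congr rfl fun i _ => by simp
  · rintro ⟨g, hg⟩
    have h4 := congrArg ψ hg
    rw [map_mul, hψ G hG, h0, map_zero, zero_mul, map_sum] at h4
    have h5 := congrArg (fun p : L[X] => p.coeff P.natDegree) h4
    have P0 : P ≠ 0 := fun e => h2 (by rw [e, leadingCoeff_zero, map_zero])
    simp only [map_mul, map_pow, hX, hψ _ (h1 _), finsetSum_coeff, coeff_C_mul_X_pow,
      Finset.sum_ite_eq, coeff_zero, natDegree_mem_support_of_nonzero P0, if_true] at h5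
    exact h2 h5

end JR
end

-- merged part: Pool.Agent.Work.MP_969914_nt.RPull
section
/-! Pull-back of polynomials in jets. -/

set_option autoImplicit false

namespace JR

open Polynomial

variable {k0 : Type} [Field k0] (H : HD k0)

/-- `g` is the pull-back of `f` under `P / Q`, with denominators cleared. -/
structure IsPull (P Q : k0[X]) (D m : ℕ) (f g : MvPolynomial Vr k0) : Prop where
  ev : ∀ (L : Type) [Field L] [Algebra k0 L] (ω : Vr → L), (∀ b, aeval (ω (b, 0)) Q ≠ 0) →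
    MvPolynomial.aeval ω g = (aeval (ω (false, 0)) Q * aeval (ω (true, 0)) Q) ^ m *
      MvPolynomial.aeval (jpt2 H P Q ω) f
  deg0 : ∀ b, g.degreeOf (b, 0) ≤ m * D
  deg : ∀ b i, g.degreeOf (b, i + 1) ≤ m
  on : ∀ A B, On (box A B) f → On (box (max A 1) (max B 1)) g
  critx : ∀ A B c, (Wr P Q).eval c = 0 → On (box (A + 1) B) f →
    On (box A (max B 1) \ {(false, 0)}) (sub1 (false, 0) c g)
  crity : ∀ A B c, (Wr P Q).eval c = 0 → On (box A (B + 1)) f →
    On (box (max A 1) B \ {(true, 0)}) (sub1 (true, 0) c g)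

/-- Degree bounds for the coefficients of a universal series. -/
def rpull_W (n : ℕ) (φ : PowerSeries (MvPolynomial ℕ k0)) : Prop :=
  ∀ i, (PowerSeries.coeff i φ).degreeOf 0 ≤ n ∧ ∀ m, (PowerSeries.coeff i φ).degreeOf (m + 1) ≤ i

theorem rpull_sum_le {σ ι : Type} (s : Finset ι) (F : ι → MvPolynomial σ k0) (u : σ) {n : ℕ}
    (h : ∀ i ∈ s, (F i).degreeOf u ≤ n) : (∑ i ∈ s, F i).degreeOf u ≤ n :=
  (MvPolynomial.degreeOf_sum_le u s F).trans (Finset.sup_le h)

theorem rpull_mul_le {σ : Type} {f g : MvPolynomial σ k0} {u : σ} {a b : ℕ}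
    (hf : f.degreeOf u ≤ a) (hg : g.degreeOf u ≤ b) : (f * g).degreeOf u ≤ a + b :=
  (MvPolynomial.degreeOf_mul_le u f g).trans (add_le_add hf hg)

theorem rpull_pow_le {σ : Type} {f : MvPolynomial σ k0} {u : σ} {a : ℕ}
    (hf : f.degreeOf u ≤ a) (n : ℕ) : (f ^ n).degreeOf u ≤ n * a :=
  (MvPolynomial.degreeOf_pow_le u f n).trans (Nat.mul_le_mul_left n hf)

theorem rpull_W_mul {a b : ℕ} {φ ψ : PowerSeries (MvPolynomial ℕ k0)} (h : rpull_W a φ)
    (h' : rpull_W b ψ) : rpull_W (a + b) (φ * ψ) := fun i => by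
  rw [PowerSeries.coeff_mul]
  refine ⟨rpull_sum_le _ _ _ fun x _ => rpull_mul_le (h _).1 (h' _).1,
    fun m => rpull_sum_le _ _ _ fun x hx => ?_⟩
  rw [← Finset.HasAntidiagonal.mem_antidiagonal.1 hx]
  exact rpull_mul_le ((h _).2 m) ((h' _).2 m)

theorem rpull_W_X : rpull_W 1 (PowerSeries.mk (MvPolynomial.X : ℕ → MvPolynomial ℕ k0)) :=
  fun i => by
    rw [PowerSeries.coeff_mk]
    refine ⟨?_, fun m => ?_⟩
    · rw [MvPolynomial.degreeOf_X]
      split_ifs <;> omega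
    · rw [MvPolynomial.degreeOf_X]
      split_ifs <;> omega

theorem rpull_W_C (φ : PowerSeries k0) :
    rpull_W 0 (PowerSeries.map (algebraMap k0 (MvPolynomial ℕ k0)) φ) := fun i => by
  rw [PowerSeries.coeff_map, MvPolynomial.algebraMap_eq]
  exact ⟨(MvPolynomial.degreeOf_C _ _).le, fun m => (MvPolynomial.degreeOf_C _ _).trans_le
    (Nat.zero_le _)⟩

theorem rpull_W_pow (n : ℕ) :
    rpull_W n (PowerSeries.mk (MvPolynomial.X : ℕ → MvPolynomial ℕ k0) ^ n) := by
  induction n with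
  | zero =>
    have := rpull_W_C (k0 := k0) 1
    rwa [map_one] at this
  | succ n ih => rw [pow_succ]; exact rpull_W_mul ih rpull_W_X

theorem rpull_W_evP {P : k0[X]} {D : ℕ} (h : P.natDegree ≤ D) :
    rpull_W D (evP H P (MvPolynomial.X : ℕ → MvPolynomial ℕ k0)) := fun i => by
  rw [evP, eval₂_eq_sum_range, map_sum]
  have key := fun j => rpull_W_mul (rpull_W_C (H.E (P.coeff j))) (rpull_W_pow j) i
  refine ⟨rpull_sum_le _ _ _ fun j hj => (key j).1.trans ?_,
    fun m => rpull_sum_le _ _ _ fun j _ => (key j).2 m⟩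
  have := Finset.mem_range.1 hj
  omega

theorem rpull_nat (P : k0[X]) {L : Type} [CommRing L] [Algebra k0 L] (ξ : ℕ → L) (i : ℕ) :
    MvPolynomial.aeval ξ (PowerSeries.coeff i
      (evP H P (MvPolynomial.X : ℕ → MvPolynomial ℕ k0))) = PowerSeries.coeff i (evP H P ξ) := by
  have h := hom_eval₂ P ((PowerSeries.map (algebraMap k0 (MvPolynomial ℕ k0))).comp H.E)
    (PowerSeries.map (MvPolynomial.aeval ξ : MvPolynomial ℕ k0 →ₐ[k0] L).toRingHom)
    (PowerSeries.mk MvPolynomial.X)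
  have h1 := congrArg (PowerSeries.coeff i) h
  rw [PowerSeries.coeff_map] at h1
  refine h1.trans ?_
  rw [evP]
  congr 2
  · ext a j
    simp
  · ext j
    simp

theorem rpull_J {P Q : k0[X]} {D : ℕ} (hP : P.natDegree ≤ D) (hQ : Q.natDegree ≤ D) (i : ℕ) :
    ∃ J : MvPolynomial ℕ k0, J.degreeOf 0 ≤ (i + 1) * D ∧ (∀ m, J.degreeOf (m + 1) ≤ i) ∧
      ∀ (L : Type) [Field L] [Algebra k0 L] (ξ : ℕ → L), aeval (ξ 0) Q ≠ 0 →
        MvPolynomial.aeval ξ J = aeval (ξ 0) Q ^ (i + 1) * jpt H P Q ξ i := by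
  induction i using Nat.strong_induction_on with
  | _ i ih =>
  choose! J h1 h2 h3 using ih
  have hp := rpull_W_evP H hP
  have hq := rpull_W_evP H hQ
  set p := evP H P (MvPolynomial.X : ℕ → MvPolynomial ℕ k0) with hp'
  set q := evP H Q (MvPolynomial.X : ℕ → MvPolynomial ℕ k0) with hq'
  refine ⟨PowerSeries.coeff 0 q ^ i * PowerSeries.coeff i p - ∑ r ∈ Finset.range i,
    J r * (PowerSeries.coeff (i - r) q * PowerSeries.coeff 0 q ^ (i - r - 1)), ?_, fun m => ?_,
    fun L _ _ ξ h0 => ?_⟩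
  · refine (MvPolynomial.degreeOf_sub_le _ _ _).trans (max_le ?_ (rpull_sum_le _ _ _ fun r hr => ?_))
    · exact (rpull_mul_le (rpull_pow_le (hq 0).1 i) (hp i).1).trans (by rw [add_one_mul])
    · have hr' := Finset.mem_range.1 hr
      refine (rpull_mul_le (h1 r hr') (rpull_mul_le (hq _).1 (rpull_pow_le (hq 0).1 _))).trans ?_
      rw [← add_assoc, ← add_one_mul, ← add_mul]
      exact Nat.mul_le_mul_right _ (by omega)
  · refine (MvPolynomial.degreeOf_sub_le _ _ _).trans (max_le ?_ (rpull_sum_le _ _ _ fun r hr => ?_))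
    · exact (rpull_mul_le (rpull_pow_le ((hq 0).2 m) i) ((hp i).2 m)).trans (by omega)
    · have hr' := Finset.mem_range.1 hr
      exact (rpull_mul_le (h2 r hr' m) (rpull_mul_le ((hq _).2 m)
        (rpull_pow_le ((hq 0).2 m) _))).trans (by omega)
  · have hc : PowerSeries.coeff 0 (evP H Q ξ) = aeval (ξ 0) Q := coeff_zero_evP H Q ξ
    have e : evP H P ξ * (evP H Q ξ)⁻¹ * evP H Q ξ = evP H P ξ := by
      rw [mul_assoc, PowerSeries.inv_mul_cancel, mul_one]
      rwa [← PowerSeries.coeff_zero_eq_constantCoeff_apply, hc]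
    have e2 := congrArg (PowerSeries.coeff i) e
    rw [PowerSeries.coeff_mul, Finset.Nat.sum_antidiagonal_eq_sum_range_succ_mk,
      Finset.sum_range_succ, Nat.sub_self, hc] at e2
    simp only [map_sub, map_mul, map_pow, map_sum, hp', hq', rpull_nat, hc]
    rw [← e2, mul_add, Finset.mul_sum, add_sub_assoc, add_comm, sub_add_eq_add_sub, add_sub_assoc,
      ← Finset.sum_sub_distrib, Finset.sum_eq_zero, add_zero, jpt, pow_succ]
    · ring
    · intro r hr
      have hr' := Finset.mem_range.1 hr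
      obtain ⟨t, rfl⟩ : ∃ t, i = r + 1 + t := ⟨i - (r + 1), by omega⟩
      rw [h3 r hr' L ξ h0, jpt, show r + 1 + t - r - 1 = t by omega]
      ring

/-- The first three conditions on a pull-back. -/
structure rpull_R (P Q : k0[X]) (D m : ℕ) (f g : MvPolynomial Vr k0) : Prop where
  ev : ∀ (L : Type) [Field L] [Algebra k0 L] (ω : Vr → L), (∀ b, aeval (ω (b, 0)) Q ≠ 0) →
    MvPolynomial.aeval ω g = (aeval (ω (false, 0)) Q * aeval (ω (true, 0)) Q) ^ m *
      MvPolynomial.aeval (jpt2 H P Q ω) f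
  deg0 : ∀ b, g.degreeOf (b, 0) ≤ m * D
  deg : ∀ b i, g.degreeOf (b, i + 1) ≤ m

/-- The denominator on the side `b`. -/
noncomputable def rpull_q (Q : k0[X]) (b : Bool) : MvPolynomial Vr k0 :=
  aeval (MvPolynomial.X (b, 0) : MvPolynomial Vr k0) Q

theorem rpull_q_ne (Q : k0[X]) {b : Bool} {s : Vr} (h : s ≠ (b, 0)) :
    (rpull_q Q b).degreeOf s = 0 := On.aeval_X (V := {(b, 0)}) rfl Q s h

theorem rpull_q_le {Q : k0[X]} {D : ℕ} (hQ : Q.natDegree ≤ D) (b : Bool) (s : Vr) :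
    (rpull_q Q b).degreeOf s ≤ D := by
  rw [rpull_q, aeval_eq_sum_range]
  refine rpull_sum_le _ _ _ fun j hj => ?_
  have h1 : (MvPolynomial.X (b, 0) : MvPolynomial Vr k0).degreeOf s ≤ 1 := by
    rw [MvPolynomial.degreeOf_X]
    split_ifs <;> omega
  rw [MvPolynomial.smul_eq_C_mul]
  refine (rpull_mul_le (MvPolynomial.degreeOf_C _ _).le (rpull_pow_le h1 j)).trans ?_
  have := Finset.mem_range.1 hj
  omega

theorem rpull_q_ev (Q : k0[X]) (b : Bool) {L : Type} [CommRing L] [Algebra k0 L] (ω : Vr → L) :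
    MvPolynomial.aeval ω (rpull_q Q b) = aeval (ω (b, 0)) Q := by
  rw [rpull_q, ← aeval_algHom_apply, MvPolynomial.aeval_X]

variable {H}

theorem rpull_R.mul {P Q : k0[X]} {D m m' : ℕ} {f g f' g' : MvPolynomial Vr k0}
    (h : rpull_R H P Q D m f g) (h' : rpull_R H P Q D m' f' g') :
    rpull_R H P Q D (m + m') (f * f') (g * g') where
  ev L _ _ ω hω := by
    rw [map_mul, map_mul, h.ev L ω hω, h'.ev L ω hω]
    ring
  deg0 b := (rpull_mul_le (h.deg0 b) (h'.deg0 b)).trans (add_mul _ _ _).ge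
  deg b i := rpull_mul_le (h.deg b i) (h'.deg b i)

theorem rpull_R.add {P Q : k0[X]} {D m : ℕ} {f g f' g' : MvPolynomial Vr k0}
    (h : rpull_R H P Q D m f g) (h' : rpull_R H P Q D m f' g') :
    rpull_R H P Q D m (f + f') (g + g') where
  ev L _ _ ω hω := by rw [map_add, map_add, h.ev L ω hω, h'.ev L ω hω, mul_add]
  deg0 b := (MvPolynomial.degreeOf_add_le _ _ _).trans (max_le (h.deg0 b) (h'.deg0 b))
  deg b i := (MvPolynomial.degreeOf_add_le _ _ _).trans (max_le (h.deg b i) (h'.deg b i))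

theorem rpull_R_C (P Q : k0[X]) (D : ℕ) (a : k0) :
    rpull_R H P Q D 0 (MvPolynomial.C a) (MvPolynomial.C a) where
  ev L _ _ ω _ := by simp
  deg0 _ := (MvPolynomial.degreeOf_C _ _).trans_le (Nat.zero_le _)
  deg _ _ := (MvPolynomial.degreeOf_C _ _).le

theorem rpull_R_one (P : k0[X]) {Q : k0[X]} {D : ℕ} (hQ : Q.natDegree ≤ D) :
    rpull_R H P Q D 1 1 (rpull_q Q false * rpull_q Q true) where
  ev L _ _ ω _ := by rw [map_mul, rpull_q_ev, rpull_q_ev, map_one, pow_one, mul_one]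
  deg0 b := by
    cases b
    · exact (rpull_mul_le (rpull_q_le hQ _ _) (rpull_q_ne Q (by simp)).le).trans (by omega)
    · exact (rpull_mul_le (rpull_q_ne Q (by simp)).le (rpull_q_le hQ _ _)).trans (by omega)
  deg b i := (rpull_mul_le (rpull_q_ne Q (by simp)).le (rpull_q_ne Q (by simp)).le).trans
    (by omega)

theorem rpull_R.up {P Q : k0[X]} {D m : ℕ} (hQ : Q.natDegree ≤ D) {f g : MvPolynomial Vr k0}
    (h : rpull_R H P Q D m f g) {m' : ℕ} (hm : m ≤ m') : ∃ g', rpull_R H P Q D m' f g' := by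
  induction hm with
  | refl => exact ⟨g, h⟩
  | step _ ih =>
    obtain ⟨g', hg'⟩ := ih
    have := hg'.mul (rpull_R_one P hQ)
    rw [mul_one] at this
    exact ⟨_, this⟩

theorem rpull_R_X {P Q : k0[X]} {D : ℕ} (hP : P.natDegree ≤ D) (hQ : Q.natDegree ≤ D) (s : Vr) :
    ∃ g, rpull_R H P Q D (s.2 + 1) (MvPolynomial.X s) g := by
  obtain ⟨b, i⟩ := s
  obtain ⟨J, h1, h2, h3⟩ := rpull_J H hP hQ i
  have inj : Function.Injective (Prod.mk b : ℕ → Vr) := fun _ _ h => (Prod.mk.inj h).2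
  have same : ∀ j, (MvPolynomial.rename (Prod.mk b) J).degreeOf (b, j) = J.degreeOf j :=
    fun j => MvPolynomial.degreeOf_rename_of_injective inj j
  have other : ∀ b' j, b' ≠ b → (MvPolynomial.rename (Prod.mk b) J).degreeOf (b', j) = 0 := by
    intro b' j hb
    by_contra h
    obtain ⟨j', -, e⟩ :=
      MvPolynomial.mem_vars_rename _ _ (MvPolynomial.mem_vars_iff_degreeOf_ne_zero.2 h)
    exact hb (Prod.mk.inj e).1.symm
  refine ⟨MvPolynomial.rename (Prod.mk b) J * rpull_q Q (!b) ^ (i + 1), fun L _ _ ω hω => ?_,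
    fun b' => ?_, fun b' j => ?_⟩
  · rw [map_mul, map_pow, rpull_q_ev, MvPolynomial.aeval_rename, h3 L _ (hω b),
      MvPolynomial.aeval_X, mul_pow]
    cases b
    · exact mul_right_comm _ _ _
    · exact (mul_comm _ _).trans (mul_assoc _ _ _).symm
  · by_cases hb : b' = b
    · subst hb
      exact (rpull_mul_le ((same 0).trans_le h1)
        (rpull_pow_le (rpull_q_ne Q (by simp)).le _)).trans (by simp)
    · exact (rpull_mul_le (other b' 0 hb).le (rpull_pow_le (rpull_q_le hQ _ _) _)).trans (by simp)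
  · refine (rpull_mul_le (a := i) ?_ (rpull_pow_le (rpull_q_ne Q (by simp)).le _)).trans (by simp)
    by_cases hb : b' = b
    · subst hb
      exact (same _).trans_le (h2 j)
    · exact (other b' _ hb).trans_le (Nat.zero_le _)

theorem rpull_exists (f : MvPolynomial Vr k0) : ∃ n : ℕ, ∀ (P Q : k0[X]) (D : ℕ),
    P.natDegree ≤ D → Q.natDegree ≤ D → ∃ g, rpull_R H P Q D n f g := by
  induction f using MvPolynomial.induction_on with
  | C a => exact ⟨0, fun P Q D _ _ => ⟨_, rpull_R_C P Q D a⟩⟩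
  | add f f' h h' =>
    obtain ⟨n, h⟩ := h
    obtain ⟨n', h'⟩ := h'
    refine ⟨max n n', fun P Q D hP hQ => ?_⟩
    obtain ⟨g, hg⟩ := h P Q D hP hQ
    obtain ⟨g', hg'⟩ := h' P Q D hP hQ
    obtain ⟨g₁, h₁⟩ := hg.up hQ (le_max_left n n')
    obtain ⟨g₂, h₂⟩ := hg'.up hQ (le_max_right n n')
    exact ⟨_, h₁.add h₂⟩
  | mul_X f s h =>
    obtain ⟨n, h⟩ := h
    refine ⟨n + (s.2 + 1), fun P Q D hP hQ => ?_⟩
    obtain ⟨g, hg⟩ := h P Q D hP hQ
    obtain ⟨g', hg'⟩ := rpull_R_X (H := H) hP hQ s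
    exact ⟨_, hg.mul hg'⟩

/-- A polynomial whose generic value does not depend on a variable does not contain it. -/
theorem rpull_on {σ : Type} {V : Set σ} {g : MvPolynomial σ k0}
    (h : ∀ s ∉ V, ∀ (L : Type) [Field L] [Algebra k0 L] (ω ω' : σ → L),
      (∀ t, Transcendental k0 (ω t)) → (∀ t, Transcendental k0 (ω' t)) →
      (∀ t, t ≠ s → ω t = ω' t) → MvPolynomial.aeval ω g = MvPolynomial.aeval ω' g) :
    On V g := by
  classical
  intro s hs
  obtain ⟨L, _, _, η, hη⟩ := exists_generic_zero (k0 := k0) (σ := Option σ)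
  have tr : ∀ t, Transcendental k0 (η t) := fun t =>
    ind_singleton.1 (hη.mono (Set.subset_univ _))
  have h1 := h s hs L (η ∘ some) (η ∘ fun t => if t = s then none else some t) (fun _ => tr _)
    (fun _ => tr _) fun t ht => by simp [ht]
  rw [← MvPolynomial.aeval_rename, ← MvPolynomial.aeval_rename, ← sub_eq_zero, ← map_sub] at h1
  have h2 := sub_eq_zero.1 (hη _ (fun _ h => absurd trivial h) h1)
  rw [← MvPolynomial.degreeOf_rename_of_injective (Option.some_injective σ), h2]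
  by_contra h3
  obtain ⟨t, -, e⟩ :=
    MvPolynomial.mem_vars_rename _ _ (MvPolynomial.mem_vars_iff_degreeOf_ne_zero.2 h3)
  split_ifs at e with ht
  exact ht (Option.some.inj e)

theorem rpull_tr {L : Type} [Field L] [Algebra k0 L] {x : L} (hx : Transcendental k0 x)
    {Q : k0[X]} (hQ : Q ≠ 0) : aeval x Q ≠ 0 := fun h => hx ⟨Q, hQ, h⟩

theorem rpull_R.congr {P Q : k0[X]} {D m : ℕ} {f g : MvPolynomial Vr k0}
    (h : rpull_R H P Q D m f g) {V : Set Vr} (hf : On V f) {L : Type} [Field L] [Algebra k0 L]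
    {ω ω' : Vr → L} (h0 : ∀ b, aeval (ω (b, 0)) Q ≠ 0) (h1 : ∀ b, ω (b, 0) = ω' (b, 0))
    (h2 : ∀ t ∈ V, jpt2 H P Q ω t = jpt2 H P Q ω' t) :
    MvPolynomial.aeval ω g = MvPolynomial.aeval ω' g := by
  rw [h.ev L ω h0, h.ev L ω' fun b => h1 b ▸ h0 b, h1, h1, hf.aeval_congr h2]

theorem rpull_sub1 {L : Type} [CommRing L] [Algebra k0 L] (ω : Vr → L) (u : Vr) (c : k0)
    (f : MvPolynomial Vr k0) : MvPolynomial.aeval ω (sub1 u c f) =
      MvPolynomial.aeval (fun s => if s = u then algebraMap k0 L c else ω s) f := by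
  rw [aeval_sub1]
  congr 2
  funext s
  congr

theorem rpull_R.crit {P Q : k0[X]} (hQ : Q ≠ 0) {D m : ℕ} {f g : MvPolynomial Vr k0}
    (h : rpull_R H P Q D m f g) (β : Bool) (hd : rpull_q Q β ∣ g) {c : k0}
    (hc : (Wr P Q).eval c = 0) {V V' : Set Vr} (hf : On V f) (h0 : (!β, 0) ∈ V')
    (hV : ∀ b i j, (b, i) ∈ V → (b, j) ∉ V' → i < j ∨ (b = β ∧ i = j)) :
    On (V' \ {(β, 0)}) (sub1 (β, 0) c g) := by
  by_cases hQc : Q.eval c = 0
  · obtain ⟨g', rfl⟩ := hd
    have : sub1 (β, 0) c (rpull_q Q β) = 0 := by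
      rw [sub1, rpull_q_ev, if_pos rfl, ← MvPolynomial.algebraMap_eq, aeval_algebraMap_apply,
        coe_aeval_eq_eval, hQc, map_zero]
    rw [map_mul, this, zero_mul]
    exact fun s _ => MvPolynomial.degreeOf_zero s
  refine rpull_on fun s hs L _ _ ω ω' tr _ e => ?_
  rw [rpull_sub1, rpull_sub1]
  by_cases hs1 : s = (β, 0)
  · congr 2
    funext t
    split_ifs with ht
    · rfl
    · exact e t (hs1 ▸ ht)
  have hs2 : s ∉ V' := fun h' => hs ⟨h', hs1⟩
  have e' : ∀ t, t ≠ s → (if t = (β, 0) then algebraMap k0 L c else ω t) =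
      (if t = (β, 0) then algebraMap k0 L c else ω' t) := fun t ht => by rw [e t ht]
  have hq : ∀ b, aeval (if (b, 0) = (β, 0) then algebraMap k0 L c else ω (b, 0)) Q ≠ 0 := by
    intro b
    split_ifs
    · rw [aeval_algebraMap_apply, coe_aeval_eq_eval]
      exact (_root_.map_ne_zero _).2 hQc
    · exact rpull_tr (tr _) hQ
  refine h.congr hf hq (fun b => e' _ ?_) ?_
  · rintro rfl
    refine hs2 ?_
    have : b = !β := by
      cases b <;> cases β <;> simp_all
    exact this ▸ h0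
  · rintro ⟨b, i⟩ ht
    obtain ⟨b', j⟩ := s
    by_cases hb : b = b'
    · subst hb
      rcases hV b i j ht hs2 with hij | ⟨rfl, rfl⟩
      · exact jpt_congr H P Q fun r hr => e' _ fun h' => by
          have := (Prod.mk.inj h').2
          dsimp only at hr
          omega
      · obtain ⟨i, rfl⟩ : ∃ i', i = i' + 1 :=
          Nat.exists_eq_succ_of_ne_zero fun h' => hs1 (by rw [h'])
        have h3 := jpt_tri H P Q (i := i)
          (ξ := fun r => if (b, r) = (b, 0) then algebraMap k0 L c else ω (b, r))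
          (ξ' := fun r => if (b, r) = (b, 0) then algebraMap k0 L c else ω' (b, r)) (hq b)
          fun r hr => e' _ fun h' => by
            have := (Prod.mk.inj h').2
            omega
        rw [if_pos rfl, aeval_algebraMap_apply, coe_aeval_eq_eval, hc, map_zero, zero_div,
          zero_mul, sub_eq_zero] at h3
        exact h3
    · exact jpt_congr H P Q fun r _ => e' _ fun h' => hb (Prod.mk.inj h').1

variable (H)

theorem exists_pull (f : MvPolynomial Vr k0) : ∃ m0 : ℕ, ∀ m, m0 ≤ m → ∀ (P Q : k0[X]) (D : ℕ),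
    Q ≠ 0 → P.natDegree ≤ D → Q.natDegree ≤ D → ∃ g, IsPull H P Q D m f g := by
  obtain ⟨n, hn⟩ := rpull_exists (H := H) f
  refine ⟨n + 1, fun m hm P Q D hQ0 hP hQ => ?_⟩
  obtain ⟨m, rfl⟩ : ∃ m', m = m' + 1 := ⟨m - 1, by omega⟩
  obtain ⟨g₀, h₀⟩ := hn P Q D hP hQ
  obtain ⟨g, hg⟩ := h₀.up hQ (show n ≤ m by omega)
  have h := hg.mul (rpull_R_one P hQ)
  rw [mul_one] at h
  refine ⟨_, h.ev, h.deg0, h.deg, fun A B hf => ?_, fun A B c hc hf => ?_, fun A B c hc hf => ?_⟩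
  · refine rpull_on fun s hs L _ _ ω ω' tr _ e => ?_
    obtain ⟨b', j⟩ := s
    refine h.congr hf (fun b => rpull_tr (tr _) hQ0) (fun b => e _ fun h' => hs ?_) ?_
    · rw [← h']
      cases b <;> simp [box]
    · rintro ⟨b, i⟩ ht
      refine jpt_congr H P Q fun r hr => e _ fun h' => hs ?_
      rw [← h']
      cases b <;> simp only [box, Set.mem_ofPred_eq, Bool.false_eq_true, if_false, if_true] at * <;>
        omega
  · refine h.crit hQ0 false ((dvd_mul_right _ _).mul_left g) hc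
      hf (by simp [box]) fun b i j h1 h2 => ?_
    cases b <;> simp only [box, Set.mem_ofPred_eq, Bool.false_eq_true, if_false, if_true,
      true_and, Bool.true_eq_false, false_and, or_false] at * <;> omega
  · refine h.crit hQ0 true ((dvd_mul_left _ _).mul_left g) hc
      hf (by simp [box]) fun b i j h1 h2 => ?_
    cases b <;> simp only [box, Set.mem_ofPred_eq, Bool.false_eq_true, if_false, if_true,
      true_and, false_and, or_false] at * <;> omega

end JR
end

-- merged part: Pool.Agent.Work.MP_969914_nt.RBox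
section
/-! Dimension counts in boxes of monomials: construction of auxiliary polynomials. -/

set_option autoImplicit false

namespace JR

variable {k0 σ : Type} [Field k0] [DecidableEq σ]

section counting

theorem rbox_d1 (Z : Finset σ) (t δ : σ → ℕ) (T m : ℕ) (ht : ∀ s ∈ Z, t s ≤ T)
    (hδ : ∀ s ∈ Z, δ s ≤ m) :
    ∏ s ∈ Z, t s ≤ ∏ s ∈ Z, (t s - δ s) + Z.card * m * T ^ (Z.card - 1) := by
  induction Z using Finset.induction_on with
  | empty => simp
  | insert i Z hi ih =>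
    have h1 := ih (fun s hs => ht s (Finset.mem_insert_of_mem hs))
      fun s hs => hδ s (Finset.mem_insert_of_mem hs)
    have h2 : ∏ s ∈ Z, (t s - δ s) ≤ T ^ Z.card := Finset.prod_le_pow_card _ _ _ fun s hs =>
      (Nat.sub_le _ _).trans (ht s (Finset.mem_insert_of_mem hs))
    have h3 := ht i (Finset.mem_insert_self _ _)
    have h4 := hδ i (Finset.mem_insert_self _ _)
    have h5 : T * (Z.card * m * T ^ (Z.card - 1)) = Z.card * m * T ^ Z.card := by
      cases Z.card with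
      | zero => simp
      | succ n => rw [Nat.add_sub_cancel, pow_succ]; ring
    rw [Finset.prod_insert hi, Finset.prod_insert hi, Finset.card_insert_of_notMem hi,
      Nat.add_sub_cancel]
    generalize ∏ s ∈ Z, (t s - δ s) = A at *
    generalize Z.card * m * T ^ (Z.card - 1) = K at *
    calc t i * ∏ s ∈ Z, t s ≤ t i * (A + K) := Nat.mul_le_mul_left _ h1
      _ = t i * A + t i * K := mul_add _ _ _
      _ ≤ (t i - δ i + m) * A + T * K :=
        add_le_add (Nat.mul_le_mul_right _ (by omega)) (Nat.mul_le_mul_right _ h3)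
      _ ≤ (t i - δ i) * A + m * T ^ Z.card + T * K := by
        rw [add_mul]
        exact Nat.add_le_add_right (Nat.add_le_add_left (Nat.mul_le_mul_left _ h2) _) _
      _ = _ := by rw [h5]; ring

theorem rbox_step {P A B C K1 K2 t a b μ : ℕ} (h : P + C ≤ A + B + K2) (hA : A ≤ C + K1)
    (hB : B ≤ C + K1) (ht : a + b ≤ t) (ha : a ≤ μ) (hb : b ≤ μ) :
    t * P + (t - a - b) * C ≤ (t - a) * A + (t - b) * B + (t * K2 + 2 * μ * K1) := by
  obtain ⟨r, rfl⟩ := Nat.exists_eq_add_of_le ht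
  rw [show a + b + r - a - b = r by omega, show a + b + r - a = b + r by omega,
    show a + b + r - b = a + r by omega]
  have h1 := Nat.mul_le_mul_left (a + b + r) h
  have h2 := Nat.mul_le_mul_left a hA
  have h3 := Nat.mul_le_mul_left b hB
  have h4 := Nat.mul_le_mul_right K1 ha
  have h5 := Nat.mul_le_mul_right K1 hb
  nlinarith

theorem rbox_ins {Z : Finset σ} {i : σ} (hi : i ∉ Z) (t δ δ' : σ → ℕ) (T m μ K : ℕ)
    (ht : ∀ s ∈ Z, t s ≤ T) (hδ : ∀ s ∈ Z, δ s ≤ m) (hδ' : ∀ s ∈ Z, δ' s ≤ m)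
    (h : ∏ s ∈ Z, t s + ∏ s ∈ Z, (t s - δ s - δ' s) ≤
      ∏ s ∈ Z, (t s - δ s) + ∏ s ∈ Z, (t s - δ' s) + K)
    (h1 : δ i + δ' i ≤ t i) (h2 : δ i ≤ μ) (h3 : δ' i ≤ μ) :
    ∏ s ∈ insert i Z, t s + ∏ s ∈ insert i Z, (t s - δ s - δ' s) ≤
      ∏ s ∈ insert i Z, (t s - δ s) + ∏ s ∈ insert i Z, (t s - δ' s) +
        (t i * K + 2 * μ * (Z.card * m * T ^ (Z.card - 1))) := by
  simp only [Finset.prod_insert hi]
  refine rbox_step h (rbox_d1 Z _ δ' T m (fun s hs => (Nat.sub_le _ _).trans (ht s hs)) hδ') ?_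
    h1 h2 h3
  simp only [fun s => Nat.sub_right_comm (t s) (δ s) (δ' s)]
  exact rbox_d1 Z _ δ T m (fun s hs => (Nat.sub_le _ _).trans (ht s hs)) hδ

theorem rbox_d2 (Z : Finset σ) (t δ δ' : σ → ℕ) (T m : ℕ) (ht : ∀ s ∈ Z, t s ≤ T)
    (hδ : ∀ s ∈ Z, δ s ≤ m) (hδ' : ∀ s ∈ Z, δ' s ≤ m) (h : ∀ s ∈ Z, δ s + δ' s ≤ t s) :
    ∏ s ∈ Z, t s + ∏ s ∈ Z, (t s - δ s - δ' s) ≤ ∏ s ∈ Z, (t s - δ s) + ∏ s ∈ Z, (t s - δ' s) +
      Z.card * (Z.card - 1) * m ^ 2 * T ^ (Z.card - 2) := by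
  induction Z using Finset.induction_on with
  | empty => simp
  | insert i Z hi ih =>
    have k := fun (s : σ) (hs : s ∈ Z) => Finset.mem_insert_of_mem (b := i) hs
    have k0 := Finset.mem_insert_self i Z
    refine (rbox_ins hi t δ δ' T m m _ (fun s hs => ht s (k s hs)) (fun s hs => hδ s (k s hs))
      (fun s hs => hδ' s (k s hs)) (ih (fun s hs => ht s (k s hs)) (fun s hs => hδ s (k s hs))
      (fun s hs => hδ' s (k s hs)) fun s hs => h s (k s hs)) (h i k0) (hδ i k0)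
      (hδ' i k0)).trans (Nat.add_le_add_left ?_ _)
    refine (Nat.add_le_add_right (Nat.mul_le_mul_right _ (ht i k0)) _).trans (le_of_eq ?_)
    rw [Finset.card_insert_of_notMem hi]
    rcases Z.card with _ | _ | n
    · simp
    · simp
      ring
    · simp only [show n + 1 + 1 - 1 = n + 1 by omega, show n + 1 + 1 - 2 = n by omega,
        show n + 1 + 1 + 1 - 1 = n + 2 by omega, show n + 1 + 1 + 1 - 2 = n + 1 by omega]
      ring

end counting

section linear

open Module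

variable {W : Type} [AddCommGroup W] [Module k0 W]

theorem rbox_inf [FiniteDimensional k0 W] {ι : Type} (I : Finset ι) (U : ι → Submodule k0 W)
    (K : ℕ) (h : ∀ c ∈ I, finrank k0 W ≤ finrank k0 (U c) + K) :
    finrank k0 W ≤ finrank k0 (I.inf U : Submodule k0 W) + I.card * K := by
  classical
  induction I using Finset.induction_on with
  | empty => rw [Finset.inf_empty, finrank_top]; exact Nat.le_add_right _ _
  | insert i I hi ih =>
    have h1 := ih fun c hc => h c (Finset.mem_insert_of_mem hc)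
    have h2 := h i (Finset.mem_insert_self _ _)
    have h3 := Submodule.finrank_sup_add_finrank_inf_eq (U i) (I.inf U)
    have h4 := Submodule.finrank_le (U i ⊔ I.inf U)
    rw [Finset.inf_insert, Finset.card_insert_of_notMem hi, add_mul, one_mul]
    omega

theorem rbox_main {ι : Type} (I : Finset ι) (B B' : Submodule k0 W) [FiniteDimensional k0 B]
    [FiniteDimensional k0 B'] (φ : ι → W →ₗ[k0] W) (J : ι → Submodule k0 W) (K : ℕ)
    (hφ : ∀ c, ∀ f ∈ B, φ c f ∈ B')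
    (hK : ∀ c ∈ I, finrank k0 B' ≤ finrank k0 (B' ⊓ J c : Submodule k0 W) + K)
    (h : I.card * K < finrank k0 B) : ∃ Θ ∈ B, Θ ≠ 0 ∧ ∀ c ∈ I, φ c Θ ∈ J c := by
  have h1 := rbox_inf I (fun c => LinearMap.ker
    (((J c).comap B'.subtype).mkQ ∘ₗ (φ c).restrict (hφ c))) K fun c hc => by
      have k1 := LinearMap.finrank_range_add_finrank_ker
        (((J c).comap B'.subtype).mkQ ∘ₗ (φ c).restrict (hφ c))
      have k2 := Submodule.finrank_le (LinearMap.range
        (((J c).comap B'.subtype).mkQ ∘ₗ (φ c).restrict (hφ c)))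
      have k3 := ((J c).comap B'.subtype).finrank_quotient_add_finrank
      have k4 := Submodule.finrank_map_subtype_eq B' ((J c).comap B'.subtype)
      rw [Submodule.map_comap_subtype] at k4
      have k5 := hK c hc
      omega
  obtain ⟨Θ, h2, h3⟩ := Submodule.exists_mem_ne_zero_of_ne_bot (p := I.inf fun c => LinearMap.ker
      (((J c).comap B'.subtype).mkQ ∘ₗ (φ c).restrict (hφ c))) fun h0 => by
    rw [h0, finrank_bot] at h1
    omega
  refine ⟨Θ.1, Θ.2, fun h0 => h3 (Subtype.ext h0), fun c hc => ?_⟩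
  have h4 := SetLike.le_def.1 (Finset.inf_le hc) h2
  exact (Submodule.Quotient.mk_eq_zero ((J c).comap B'.subtype)).1 h4

end linear

section box

open Module MvPolynomial

variable (k0) in
/-- The polynomials in the variables `V` of degree less than `t s` in `s`. -/
noncomputable def rbox (V : Finset σ) (t : σ → ℕ) : Submodule k0 (MvPolynomial σ k0) :=
  restrictSupport k0 (V.finsupp fun s => Finset.range (t s) : Finset (σ →₀ ℕ))

variable {V : Finset σ} {t : σ → ℕ} {f : MvPolynomial σ k0}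

instance rbox_fin : FiniteDimensional k0 (rbox k0 V t) :=
  Module.Finite.of_basis (basisRestrictSupport k0 _)

theorem rbox_rank : finrank k0 (rbox k0 V t) = ∏ s ∈ V, t s := by
  rw [rbox, finrank_eq_card_basis (basisRestrictSupport k0 _)]
  simp [Finset.card_finsupp]

theorem rbox_mem : f ∈ rbox k0 V t ↔ f = 0 ∨ On (V : Set σ) f ∧ ∀ s ∈ V, f.degreeOf s < t s := by
  rw [rbox, mem_restrictSupport_iff, Finset.coe_subset]
  constructor
  · intro h
    refine or_iff_not_imp_left.2 fun h0 => ⟨fun s hs => Nat.le_zero.1 (degreeOf_le_iff.2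
      fun a ha => ?_), fun s hs => ?_⟩
    · exact (Finsupp.notMem_support_iff.1 fun k => hs ((Finset.mem_finsupp_iff.1 (h ha)).1 k)).le
    · have k := fun a ha => Finset.mem_range.1 ((Finset.mem_finsupp_iff.1 (h (x := a) ha)).2 s hs)
      obtain ⟨a, ha⟩ := support_nonempty.2 h0
      exact (degreeOf_lt_iff (Nat.zero_lt_of_lt (k a ha))).2 k
  · rintro (rfl | ⟨h1, h2⟩) a ha
    · simp at ha
    refine Finset.mem_finsupp_iff.2 ⟨fun s hs => by_contra fun k => ?_, fun s hs =>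
      Finset.mem_range.2 ((monomial_le_degreeOf s ha).trans_lt (h2 s hs))⟩
    exact Finsupp.mem_support_iff.1 hs (Nat.le_zero.1 ((monomial_le_degreeOf s ha).trans (h1 s k).le))

theorem rbox_mul {N : MvPolynomial σ k0} (hN : On (V : Set σ) N) {δ : σ → ℕ}
    (hδ : ∀ s ∈ V, N.degreeOf s ≤ δ s) (hf : f ∈ rbox k0 V fun s => t s - δ s) :
    f * N ∈ rbox k0 V t := by
  rcases rbox_mem.1 hf with rfl | ⟨h1, h2⟩
  · rw [zero_mul]
    exact zero_mem _
  refine rbox_mem.2 (Or.inr ⟨h1.mul hN, fun s hs => (degreeOf_mul_le _ _ _).trans_lt ?_⟩)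
  have := h2 s hs
  have := hδ s hs
  omega

theorem rbox_div {N : MvPolynomial σ k0} (hN : N ≠ 0) (hf : f * N ∈ rbox k0 V t) :
    f ∈ rbox k0 V fun s => t s - N.degreeOf s := by
  refine rbox_mem.2 (or_iff_not_imp_left.2 fun h0 => ?_)
  obtain ⟨h1, h2⟩ := (rbox_mem.1 hf).resolve_left (mul_ne_zero h0 hN)
  refine ⟨h1.of_dvd (mul_ne_zero h0 hN) (dvd_mul_right _ _), fun s hs => ?_⟩
  have := h2 s hs
  rw [degreeOf_mul_eq h0 hN] at this
  omega

theorem rbox_sub {V' : Finset σ} {t' : σ → ℕ} {u : σ} (c : k0) (hf : f ∈ rbox k0 (insert u V) t)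
    (hV : V = V') (ht : ∀ s ∈ V, t s ≤ t' s) : sub1 u c f ∈ rbox k0 V' t' := by
  subst hV
  rcases rbox_mem.1 hf with rfl | ⟨h1, h2⟩
  · rw [map_zero]
    exact zero_mem _
  refine rbox_mem.2 (Or.inr ⟨(h1.sub1 u c).mono fun s hs => ?_, fun s hs =>
    ((degreeOf_sub1_le _ _ _ _).trans_lt (h2 s (Finset.mem_insert_of_mem hs))).trans_le (ht s hs)⟩)
  exact (Finset.mem_insert.1 hs.1).resolve_left hs.2

theorem rbox_one {N : MvPolynomial σ k0} (h0 : N ≠ 0) (hN : On (V : Set σ) N) {δ : σ → ℕ}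
    (hδ : ∀ s ∈ V, N.degreeOf s ≤ δ s) : ∏ s ∈ V, (t s - δ s) ≤ finrank k0
      (rbox k0 V t ⊓ (Ideal.span {N}).restrictScalars k0 : Submodule k0 (MvPolynomial σ k0)) := by
  rw [← rbox_rank (k0 := k0), ← LinearMap.finrank_range_of_inj
    (f := LinearMap.mulRight k0 N ∘ₗ (rbox k0 V fun s => t s - δ s).subtype)
    fun a b h => Subtype.ext (mul_right_cancel₀ h0 h)]
  refine Submodule.finrank_mono ?_
  rintro _ ⟨a, rfl⟩
  exact ⟨rbox_mul hN hδ a.2, Ideal.mem_span_singleton'.2 ⟨a.1, rfl⟩⟩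

theorem rbox_two {N R : MvPolynomial σ k0} (h0' : R ≠ 0) (h : IsRelPrime N R)
    (hN : On (V : Set σ) N) (hR : On (V : Set σ) R) :
    ∏ s ∈ V, (t s - N.degreeOf s) + ∏ s ∈ V, (t s - R.degreeOf s) ≤ finrank k0
      (rbox k0 V t ⊓ (Ideal.span {N, R}).restrictScalars k0 : Submodule k0 (MvPolynomial σ k0)) +
      ∏ s ∈ V, (t s - N.degreeOf s - R.degreeOf s) := by
  let g := (LinearMap.mulRight k0 N ∘ₗ (rbox k0 V fun s => t s - N.degreeOf s).subtype).coprod
    (LinearMap.mulRight k0 R ∘ₗ (rbox k0 V fun s => t s - R.degreeOf s).subtype)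
  have h1 := LinearMap.finrank_range_add_finrank_ker g
  rw [finrank_prod, rbox_rank, rbox_rank] at h1
  rw [← h1, ← rbox_rank (k0 := k0)]
  refine add_le_add (Submodule.finrank_mono ?_) ?_
  · rintro _ ⟨⟨a, b⟩, rfl⟩
    exact ⟨add_mem (rbox_mul hN (fun _ _ => le_rfl) a.2) (rbox_mul hR (fun _ _ => le_rfl) b.2),
      Ideal.mem_span_pair.2 ⟨a.1, b.1, rfl⟩⟩
  · let p := (rbox k0 V fun s => t s - N.degreeOf s).subtype ∘ₗ LinearMap.fst k0 _ _ ∘ₗ
      (LinearMap.ker g).subtype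
    have hp : Function.Injective p := by
      rw [injective_iff_map_eq_zero]
      rintro ⟨⟨a, b⟩, hab⟩ (ha : a.1 = 0)
      have k : a.1 * N + b.1 * R = 0 := hab
      rw [ha, zero_mul, zero_add] at k
      exact Subtype.ext (Prod.ext (Subtype.ext ha) (Subtype.ext ((mul_eq_zero.1 k).resolve_right h0')))
    rw [← LinearMap.finrank_range_of_inj hp]
    refine (Submodule.finrank_mono (t := (rbox k0 V fun s => t s - N.degreeOf s - R.degreeOf s).map
      (LinearMap.mulRight k0 R)) ?_).trans (Submodule.finrank_map_le _ _)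
    rintro _ ⟨⟨⟨a, b⟩, hab⟩, rfl⟩
    have k : a.1 * N + b.1 * R = 0 := hab
    obtain ⟨γ, hγ⟩ : R ∣ a.1 := h.symm.dvd_of_dvd_mul_right ⟨-b.1, by linear_combination k⟩
    rw [mul_comm] at hγ
    exact ⟨γ, rbox_div h0' (hγ ▸ a.2), hγ.symm⟩

theorem rbox_big {x y : σ} {Z : Finset σ} (hxy : x ≠ y) (hx : x ∉ Z) (hy : y ∉ Z) (d d' e : ℕ) :
    ∃ t : σ → ℕ, t x = d + 1 ∧ (∀ z ∈ Z, t z = e + 1) ∧
      finrank k0 (rbox k0 (insert y (insert x Z)) t) = (d + 1) * (d' + 1) * (e + 1) ^ Z.card ∧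
      ∀ Θ ∈ rbox k0 (insert y (insert x Z)) t, Θ ≠ 0 → On (insert x (insert y Z) : Finset σ) Θ ∧
        Θ.degreeOf x ≤ d ∧ Θ.degreeOf y ≤ d' ∧ ∀ z ∈ Z, Θ.degreeOf z ≤ e := by
  obtain ⟨t, h1, h2, h3⟩ : ∃ t : σ → ℕ, t x = d + 1 ∧ t y = d' + 1 ∧ ∀ z ∈ Z, t z = e + 1 :=
    ⟨fun s => if s = x then d + 1 else if s = y then d' + 1 else e + 1, if_pos rfl,
      by simp [hxy.symm], fun z hz => by
        simp [ne_of_mem_of_not_mem hz hx, ne_of_mem_of_not_mem hz hy]⟩
  refine ⟨t, h1, h3, ?_, fun Θ h h0 => ?_⟩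
  · rw [rbox_rank, Finset.prod_insert (by simp [hxy.symm, hy]), Finset.prod_insert hx, h1, h2,
      Finset.prod_congr rfl h3, Finset.prod_const]
    ring
  · obtain ⟨k1, k2⟩ := (rbox_mem.1 h).resolve_left h0
    exact ⟨by rwa [Finset.insert_comm], Nat.lt_succ_iff.1 ((k2 x (by simp)).trans_eq h1),
      Nat.lt_succ_iff.1 ((k2 y (by simp)).trans_eq h2), fun z hz =>
        Nat.lt_succ_iff.1 ((k2 z (by simp [hz])).trans_eq (h3 z hz))⟩

end box

/-- One relation in the short variables `Z` at every point of `I`. -/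
theorem aux_one (x y : σ) (Z : Finset σ) (hxy : x ≠ y) (hx : x ∉ Z) (hy : y ∉ Z)
    (I : Finset (k0 × k0)) (N : k0 × k0 → MvPolynomial σ k0) (m d d' e : ℕ)
    (hN : ∀ c ∈ I, N c ≠ 0 ∧ On (Z : Set σ) (N c) ∧ ∀ z ∈ Z, (N c).degreeOf z ≤ m)
    (hc : I.card * (Z.card * m * (e + 1) ^ (Z.card - 1)) < (d + 1) * (d' + 1) * (e + 1) ^ Z.card) :
    ∃ Θ : MvPolynomial σ k0, Θ ≠ 0 ∧ On (insert x (insert y Z) : Finset σ) Θ ∧
      Θ.degreeOf x ≤ d ∧ Θ.degreeOf y ≤ d' ∧ (∀ z ∈ Z, Θ.degreeOf z ≤ e) ∧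
      ∀ c ∈ I, N c ∣ sub1 x c.1 (sub1 y c.2 Θ) := by
  obtain ⟨t, -, h2, h3, h4⟩ := rbox_big (k0 := k0) hxy hx hy d d' e
  obtain ⟨Θ, k1, k2, k3⟩ := rbox_main I (rbox k0 (insert y (insert x Z)) t) (rbox k0 Z t)
    (fun c => (sub1 x c.1).toLinearMap ∘ₗ (sub1 y c.2).toLinearMap)
    (fun c => (Ideal.span {N c}).restrictScalars k0) _
    (fun c f hf => rbox_sub c.1 (rbox_sub c.2 hf rfl fun _ _ => le_rfl) rfl fun _ _ => le_rfl)
    (fun c hc => by
      obtain ⟨a1, a2, a3⟩ := hN c hc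
      rw [rbox_rank]
      exact (rbox_d1 Z t (fun _ => m) (e + 1) m (fun s hs => (h2 s hs).le) fun _ _ => le_rfl).trans
        (Nat.add_le_add_right (rbox_one a1 a2 a3) _)) (h3 ▸ hc)
  obtain ⟨a1, a2, a3, a4⟩ := h4 Θ k1 k2
  exact ⟨Θ, k2, a1, a2, a3, a4, fun c hc => Ideal.mem_span_singleton.1 (k3 c hc)⟩

/-- Two coprime relations in `x` and the short variables `Z` at every point of `I`. -/
theorem aux_two (x y : σ) (Z : Finset σ) (hxy : x ≠ y) (hx : x ∉ Z) (hy : y ∉ Z)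
    (I : Finset k0) (N R : k0 → MvPolynomial σ k0) (M m d d' e : ℕ)
    (hN : ∀ c ∈ I, N c ≠ 0 ∧ R c ≠ 0 ∧ IsRelPrime (N c) (R c) ∧
      On (insert x Z : Finset σ) (N c) ∧ On (insert x Z : Finset σ) (R c) ∧
      (N c).degreeOf x ≤ M ∧ (R c).degreeOf x ≤ M ∧
      ∀ z ∈ Z, (N c).degreeOf z ≤ m ∧ (R c).degreeOf z ≤ m)
    (hc : I.card * (2 * Z.card * M * m * (e + 2 * m + 1) ^ (Z.card - 1) +
        Z.card ^ 2 * m ^ 2 * (d + 2 * M + 1) * (e + 2 * m + 1) ^ (Z.card - 2)) <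
      (d + 1) * (d' + 1) * (e + 1) ^ Z.card) :
    ∃ Θ : MvPolynomial σ k0, Θ ≠ 0 ∧ On (insert x (insert y Z) : Finset σ) Θ ∧
      Θ.degreeOf x ≤ d ∧ Θ.degreeOf y ≤ d' ∧ (∀ z ∈ Z, Θ.degreeOf z ≤ e) ∧
      ∀ c ∈ I, sub1 y c Θ ∈ Ideal.span {N c, R c} := by
  obtain ⟨t, h1, h2, h3, h4⟩ := rbox_big (k0 := k0) hxy hx hy d d' e
  obtain ⟨t', h5, h6⟩ : ∃ t' : σ → ℕ, t' x = d + 2 * M + 1 ∧ ∀ z ∈ Z, t' z = e + 2 * m + 1 :=
    ⟨fun s => if s = x then d + 2 * M + 1 else e + 2 * m + 1, if_pos rfl,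
      fun z hz => if_neg (ne_of_mem_of_not_mem hz hx)⟩
  obtain ⟨Θ, k1, k2, k3⟩ := rbox_main I (rbox k0 (insert y (insert x Z)) t)
    (rbox k0 (insert x Z) t') (fun c => (sub1 y c).toLinearMap)
    (fun c => (Ideal.span {N c, R c}).restrictScalars k0) _
    (fun c f hf => rbox_sub c hf rfl fun s hs => by
      rcases Finset.mem_insert.1 hs with rfl | hs
      · omega
      · rw [h2 s hs, h6 s hs]
        omega)
    (fun c hc => by
      obtain ⟨-, a2, a3, a4, a5, a6, a7, a8⟩ := hN c hc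
      have b1 := rbox_two (t := t') a2 a3 a4 a5
      have b2 := rbox_ins hx t' (fun s => (N c).degreeOf s) (fun s => (R c).degreeOf s)
        (e + 2 * m + 1) m M _ (fun s hs => (h6 s hs).le) (fun s hs => (a8 s hs).1)
        (fun s hs => (a8 s hs).2) (rbox_d2 Z t' _ _ (e + 2 * m + 1) m (fun s hs => (h6 s hs).le)
          (fun s hs => (a8 s hs).1) (fun s hs => (a8 s hs).2) fun s hs => by
            have := a8 s hs
            rw [h6 s hs]
            omega) (by omega) a6 a7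
      have b3 : t' x * (Z.card * (Z.card - 1) * m ^ 2 * (e + 2 * m + 1) ^ (Z.card - 2)) +
          2 * M * (Z.card * m * (e + 2 * m + 1) ^ (Z.card - 1)) ≤
          2 * Z.card * M * m * (e + 2 * m + 1) ^ (Z.card - 1) +
            Z.card ^ 2 * m ^ 2 * (d + 2 * M + 1) * (e + 2 * m + 1) ^ (Z.card - 2) := by
        rw [h5, add_comm]
        refine add_le_add (le_of_eq (by ring)) ?_
        calc _ ≤ (d + 2 * M + 1) * (Z.card * Z.card * m ^ 2 * (e + 2 * m + 1) ^ (Z.card - 2)) := by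
              gcongr
              exact Nat.sub_le _ _
          _ = _ := by ring
      rw [rbox_rank]
      omega) (h3 ▸ hc)
  obtain ⟨a1, a2, a3, a4⟩ := h4 Θ k1 k2
  exact ⟨Θ, k2, a1, a2, a3, a4, k3⟩

theorem count_one (n m g : ℕ) (hn : 1 ≤ n) : ∃ e, ∀ d : ℕ,
    (2 ^ g * d) ^ 2 * (n * m * (e + 1) ^ (n - 1)) < (d + 1) * (d + 1) * (e + 1) ^ n ∧
    (2 ^ g * d) * (n * m * (e + 1) ^ (n - 1)) < (d + 1) * (0 + 1) * (e + 1) ^ n := by
  obtain ⟨n, rfl⟩ := Nat.exists_eq_add_of_le' hn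
  refine ⟨(2 ^ g) ^ 2 * ((n + 1) * m), fun d => ?_⟩
  have hG : 1 ≤ 2 ^ g := Nat.one_le_two_pow
  rw [Nat.add_sub_cancel]
  generalize 2 ^ g = G at *
  generalize (n + 1) * m = a
  rw [pow_succ (G ^ 2 * a + 1), ← mul_assoc _ a, ← mul_assoc _ a, mul_comm (_ ^ n), ← mul_assoc,
    ← mul_assoc ((d + 1) * (0 + 1))]
  have hp : 0 < (G ^ 2 * a + 1) ^ n := by positivity
  refine ⟨Nat.mul_lt_mul_of_pos_right ?_ hp, Nat.mul_lt_mul_of_pos_right ?_ hp⟩
  · have : (d + 1) * (d + 1) * (G ^ 2 * a + 1) =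
        (G * d) ^ 2 * a + 1 + ((2 * d + 1) * (G ^ 2 * a) + d * d + 2 * d) := by ring
    omega
  · have h1 : G * d * a ≤ G ^ 2 * d * a := by
      gcongr
      exact Nat.le_self_pow two_ne_zero G
    have : (d + 1) * (0 + 1) * (G ^ 2 * a + 1) = G ^ 2 * d * a + 1 + (G ^ 2 * a + d) := by ring
    omega

theorem count_two (n m g : ℕ) (hn : 1 ≤ n) : ∃ e, ∀ d : ℕ,
    (2 ^ g * d) * (2 * n * (m * (2 ^ g * d)) * m * (e + 2 * m + 1) ^ (n - 1) +
        n ^ 2 * m ^ 2 * (d + 2 * (m * (2 ^ g * d)) + 1) * (e + 2 * m + 1) ^ (n - 2)) <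
      (d + 1) * (d + 1) * (e + 1) ^ n := by
  obtain ⟨n, rfl⟩ := Nat.exists_eq_add_of_le' hn
  rw [Nat.add_sub_cancel]
  generalize 2 ^ g = G
  obtain ⟨c, hc⟩ : ∃ c, c = G * (2 * (n + 1) * (m * G) * m + (n + 1) ^ 2 * m ^ 2 * (2 * (m * G) + 1)) :=
    ⟨_, rfl⟩
  refine ⟨2 * m + c * 2 ^ n, fun d => ?_⟩
  obtain ⟨E, hE⟩ : ∃ E, E = 2 * m + c * 2 ^ n + 1 := ⟨_, rfl⟩
  have h1 : 2 * m + c * 2 ^ n + 2 * m + 1 ≤ 2 * E := by omega
  have h2 : (2 * m + c * 2 ^ n + 2 * m + 1) ^ (n + 1 - 2) ≤ (2 * E) ^ n :=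
    (Nat.pow_le_pow_left h1 _).trans (Nat.pow_le_pow_right (by omega) (by omega))
  have h3 := Nat.pow_le_pow_left h1 n
  rw [← hE]
  generalize (2 * m + c * 2 ^ n + 2 * m + 1) ^ (n + 1 - 2) = A at *
  generalize (2 * m + c * 2 ^ n + 2 * m + 1) ^ n = B at *
  have h4 : d + 2 * (m * (G * d)) + 1 ≤ (2 * (m * G) + 1) * (d + 1) := by nlinarith
  calc _ ≤ G * (d + 1) * (2 * (n + 1) * (m * (G * (d + 1))) * m * (2 * E) ^ n +
        (n + 1) ^ 2 * m ^ 2 * ((2 * (m * G) + 1) * (d + 1)) * (2 * E) ^ n) := by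
        gcongr <;> omega
    _ = (d + 1) * (d + 1) * (E ^ n * (c * 2 ^ n)) := by rw [hc, mul_pow]; ring
    _ < _ := by
      rw [pow_succ]
      have : 0 < E := by omega
      gcongr
      omega

end JR
end

-- merged part: Pool.Agent.Work.MP_969914_nt.RP0
section
/-! Raw places of a separable algebraic extension of `k (t)`. -/

set_option autoImplicit false

namespace JR

open scoped NNReal ENNReal
open Polynomial

/-- The image of a polynomial in `t`. -/
noncomputable def ip (k T : Type) [Field k] [Field T] [Algebra (RatFunc k) T] : k[X] →+* T :=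
  (algebraMap (RatFunc k) T).comp (algebraMap k[X] (RatFunc k))

/-- Normalised size of a polynomial at a point of the projective line. -/
noncomputable def szp {k : Type} [Field k] (a : Option k) (f : k[X]) : ℝ≥0 :=
  match a with
  | none => 2 ^ f.natDegree
  | some a => 2⁻¹ ^ f.rootMultiplicity a

structure Pl (k T : Type) [Field k] [Field T] [Algebra (RatFunc k) T] extends PF T ℝ≥0 where
  q_eq : q = 2
  pt : W → Option k
  v_ip : ∀ w (f : k[X]), f ≠ 0 → v w (ip k T f) = szp (pt w) f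
  residue : ∀ w z, v w z ≤ 1 → ∃ c : k, v w (z - ip k T (C c)) < 1
  mass_pt : ∀ A : Finset (Option k), toPF.mass {w | pt w ∈ A} = A.card
  restr : ∀ (a : Option k) (L : IntermediateField (RatFunc k) T), FiniteDimensional (RatFunc k) L →
    ∃ s : Finset W, ∀ w, pt w = a → ∃ w' ∈ s, ∀ z ∈ L, v w z = v w' z
  norm : ∀ (L : IntermediateField (RatFunc k) T), FiniteDimensional (RatFunc k) L → ∀ (α : L)
    (f : k[X]), f ≠ 0 → Algebra.norm (RatFunc k) α = algebraMap k[X] (RatFunc k) f →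
    (∀ w, pt w ≠ none → v w α ≤ 1) →
    (Module.finrank (RatFunc k) L : ℝ≥0∞) *
      I (Set.mulIndicator {w | pt w ≠ none} fun w => (v w α)⁻¹) ≤ f.natDegree
  integral : ∀ z : T, (∀ w, pt w ≠ none → v w z ≤ 1) →
    ∃ g : k[X][X], g.Monic ∧ g.eval₂ (ip k T) z = 0

/-- The closure of a subfield for a real valued valuation. -/
def clos {T : Type} [Field T] (v : Valuation T ℝ≥0) (F : Subfield T) : Set T :=
  {z | ∀ ε : ℝ≥0, 0 < ε → ∃ f ∈ F, v (z - f) < ε}

end JR
end

-- merged part: Pool.Agent.Work.MP_969914_nt.RPStda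
section
/-! The quadratic closure of a field inside an algebraically closed field. -/

set_option autoImplicit false

namespace JR

open scoped NNReal ENNReal IntermediateField
open Polynomial

theorem rpstd_quad0 (K M : Type) [Field K] [Field M] [Algebra K M] [IsGalois K M]
    (hs : ∀ α : M, ∃ β, β ^ 2 = α) :
    ∃ T : IntermediateField K M, IsGalois K T ∧ (∀ α : T, ∃ β : T, β ^ 2 = α) ∧
      ∀ L : Subfield T, (∀ c : K, algebraMap K T c ∈ L) → (∀ z, z ^ 2 ∈ L → z ∈ L) → L = ⊤ := by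
  let S : Set (IntermediateField K M) := {L | ∀ z, z ^ 2 ∈ L → z ∈ L}
  have hT : ∀ z, z ^ 2 ∈ sInf S → z ∈ sInf S := by
    intro z hz
    rw [IntermediateField.mem_sInf] at hz ⊢
    exact fun L hL => hL z (hz L hL)
  refine ⟨sInf S, ?_, ?_, ?_⟩
  · have hn : Normal K (sInf S : IntermediateField K M) := by
      rw [IntermediateField.normal_iff_forall_map_le']
      intro σ
      rw [IntermediateField.map_le_iff_le_comap]
      refine sInf_le ?_
      intro z hz
      have hz' : σ (z ^ 2) ∈ sInf S := hz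
      rw [map_pow] at hz'
      exact hT _ hz'
    exact {}
  · intro α
    obtain ⟨β, hβ⟩ := hs α
    exact ⟨⟨β, hT β (hβ ▸ α.2)⟩, Subtype.ext hβ⟩
  · intro L hK hL
    let L' : IntermediateField K M := ((L.toIntermediateField hK).map (sInf S).val)
    have h1 : L' ∈ S := by
      rintro z ⟨y, hy, e⟩
      have e' : (y : M) = z ^ 2 := e
      have hz : z ∈ sInf S := hT z (e' ▸ y.2)
      have : (⟨z, hz⟩ : (sInf S : IntermediateField K M)) ^ 2 = y := Subtype.ext e'.symm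
      exact ⟨⟨z, hz⟩, hL _ (this ▸ hy), rfl⟩
    rw [eq_top_iff]
    intro x _
    obtain ⟨y, hy, e⟩ := (sInf_le h1 : sInf S ≤ L') x.2
    have : y = x := Subtype.ext e
    exact this ▸ hy

theorem rpstd_quad (K Ω : Type) [Field K] [Field Ω] [Algebra K Ω] [IsAlgClosed Ω]
    (h2 : (2 : K) ≠ 0) :
    ∃ T : IntermediateField K Ω, IsGalois K T ∧ (∀ α : T, ∃ β : T, β ^ 2 = α) ∧
      ∀ L : Subfield T, (∀ c : K, algebraMap K T c ∈ L) → (∀ z, z ^ 2 ∈ L → z ∈ L) → L = ⊤ := by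
  let M := separableClosure K Ω
  have : IsSepClosed M := IsSepClosure.sep_closed K
  have h2M : ((2 : ℕ) : M) ≠ 0 := by
    have : ((2 : ℕ) : M) = algebraMap K M 2 := by simp [map_ofNat]
    rw [this]
    exact (_root_.map_ne_zero _).2 h2
  have : NeZero ((2 : ℕ) : M) := ⟨h2M⟩
  obtain ⟨T, h1, h3, h4⟩ := rpstd_quad0 K M fun α => IsSepClosed.exists_pow_nat_eq α 2
  let e : T ≃ₐ[K] T.map M.val := T.equivMap M.val
  refine ⟨T.map M.val, IsGalois.of_algEquiv e, ?_, ?_⟩
  · intro α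
    obtain ⟨β, hβ⟩ := h3 (e.symm α)
    exact ⟨e β, by rw [← map_pow, hβ, e.apply_symm_apply]⟩
  · intro L hK hL
    have := h4 (L.comap e.toRingEquiv.toRingHom)
      (fun c => by simpa [Subfield.mem_comap] using hK c)
      (fun z hz => hL (e z) (by simpa [Subfield.mem_comap] using hz))
    rw [eq_top_iff]
    intro x _
    have hx : e.symm x ∈ L.comap e.toRingEquiv.toRingHom := this ▸ Subfield.mem_top _
    simpa [Subfield.mem_comap] using hx

/-- Integral elements have valuation at most one. -/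
theorem rpstd_int {k Ω : Type} [Field k] [Field Ω] [Algebra k Ω] (T : IntermediateField k Ω)
    (v : Valuation T ℝ≥0) (hk : ∀ c : k, v (algebraMap k T c) ≤ 1) {t : T} (ht : v t ≤ 1)
    {z : T} (hz : IsIntegral (Algebra.adjoin k {(t : Ω)}) (z : Ω)) : v z ≤ 1 := by
  let O : Subalgebra k T := { v.integer.toSubsemiring with algebraMap_mem' := hk }
  have hle : Algebra.adjoin k {(t : Ω)} ≤ O.map T.val := by
    refine Algebra.adjoin_le ?_
    rintro _ rfl
    exact ⟨t, ht, rfl⟩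
  have hT : Algebra.adjoin k {(t : Ω)} ≤ T.toSubalgebra := by
    refine Algebra.adjoin_le ?_
    rintro _ rfl
    exact t.2
  let φ : Algebra.adjoin k {(t : Ω)} →+* T := (Subalgebra.inclusion hT).toRingHom
  have hφ : ∀ c, φ c ∈ v.integer := by
    intro c
    obtain ⟨y, hy, e⟩ := hle c.2
    have : y = φ c := Subtype.ext e
    exact this ▸ hy
  obtain ⟨g, hg, e⟩ := hz
  refine (Valuation.integer.integers v).mem_of_integral
    ⟨g.map (φ.codRestrict v.integer hφ), hg.map _, ?_⟩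
  rw [eval₂_map]
  apply T.val.toRingHom.injective
  rw [hom_eval₂, map_zero]
  exact e

end JR
end
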