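import Mathlib
import Pool.Agent.Work.MP_969914_nt.RDyn
import Pool.Agent.Work.MP_969914_nt.RPStda

-- merged part: Pool.Agent.Work.MP_969914_nt.Fin
section
/-! The algebraic end of the zero estimate: no chain of invariant curves. -/

set_option autoImplicit false
set_option maxSynthPendingDepth 3

open Polynomial

namespace Pool.Agent.Work.MP_969914_nt

variable {F : Type*} [Field F]

lemma lucas (p : ℕ) [hp : Fact p.Prime] [CharP F p] {n : ℕ} (hn : n ≠ 0) :
    ∃ a, p ^ a ≤ n ∧ ((n.choose (p ^ a) : ℕ) : F) ≠ 0 ∧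
      ∀ s, 0 < s → s < p ^ a → ((n.choose s : ℕ) : F) = 0 := by
  obtain ⟨a, m, hm, rfl⟩ := Nat.exists_eq_pow_mul_and_not_dvd hn p hp.out.ne_one
  have hpos : 0 < p ^ a := pow_pos hp.out.pos a
  have hm0 : m ≠ 0 := by rintro rfl; simp at hm
  have key : ∀ s, (((p ^ a * m).choose s : ℕ) : F) =
      if p ^ a ∣ s then ((m.choose (s / p ^ a) : ℕ) : F) else 0 := by
    intro s
    have h1 : ((X + 1 : F[X])) ^ (p ^ a * m) = expand F (p ^ a) ((X + 1) ^ m) := by
      rw [pow_mul, add_pow_char_pow, map_pow, map_add, expand_X, map_one, one_pow]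
    rw [← coeff_X_add_one_pow F, h1, coeff_expand hpos, coeff_X_add_one_pow]
  refine ⟨a, Nat.le_mul_of_pos_right _ (Nat.pos_of_ne_zero hm0), ?_, fun s h0 hs => ?_⟩
  · rw [key, if_pos dvd_rfl, Nat.div_self hpos, Nat.choose_one_right]
    exact fun h => hm ((CharP.cast_eq_zero_iff F p m).1 h)
  · rw [key, if_neg (Nat.not_dvd_of_pos_of_lt h0 hs)]

lemma dvd_of_comp {c : F} {η : F[X]} {σ : ℕ} (h : X ^ σ ∣ η.comp (X ^ 2 + C c)) :
    (X - C c) ^ ((σ + 1) / 2) ∣ η := by
  rcases eq_or_ne η 0 with rfl | h0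
  · simp
  obtain ⟨η1, h1, h2⟩ := exists_eq_pow_rootMultiplicity_mul_and_not_dvd η h0 c
  set μ := rootMultiplicity c η
  suffices (σ + 1) / 2 ≤ μ by
    rw [h1]; exact (pow_dvd_pow _ this).mul_right _
  by_contra hlt
  have h3 : η.comp (X ^ 2 + C c) = X ^ (2 * μ) * η1.comp (X ^ 2 + C c) := by
    conv_lhs => rw [h1]
    simp only [mul_comp, pow_comp, sub_comp, X_comp, C_comp, add_sub_cancel_right, pow_mul]
  have h4 : (X : F[X]) ^ (2 * μ) * X ∣ X ^ (2 * μ) * η1.comp (X ^ 2 + C c) := by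
    rw [← h3, ← pow_succ]
    exact (pow_dvd_pow _ (by omega)).trans h
  have h5 := (mul_dvd_mul_iff_left (pow_ne_zero _ X_ne_zero)).1 h4
  rw [X_dvd_iff, coeff_zero_eq_eval_zero, eval_comp] at h5
  apply h2
  rw [dvd_iff_isRoot]
  simpa using h5

lemma dvd_both {c : F} (h2 : (2 : F) ≠ 0) (hc : c ≠ 0) {η : F[X]} {m : ℕ} {e : F[X]}
    (hpar : η.comp (-X) = e * η) (h : (X - C c) ^ m ∣ η) : (X ^ 2 - C c ^ 2) ^ m ∣ e * η := by
  have h1 : (X - C (-c)) ^ m ∣ e * η := by
    obtain ⟨u, hu⟩ := h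
    rw [← hpar, hu]
    refine ⟨(-1) ^ m * u.comp (-X), ?_⟩
    simp only [mul_comp, pow_comp, sub_comp, X_comp, C_comp, map_neg]
    rw [← mul_assoc, ← mul_pow]
    congr 2
    ring
  have hcop : IsCoprime ((X - C c) ^ m) ((X - C (-c)) ^ m) := by
    refine (isCoprime_X_sub_C_of_isUnit_sub ?_).pow
    rw [sub_neg_eq_add, ← two_mul]
    exact (mul_ne_zero h2 hc).isUnit
  have := hcop.mul_dvd (h.mul_left e) h1
  rw [← mul_pow] at this
  convert this using 2
  simp only [map_neg]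
  ring

lemma natDegree_sq_sub (c : F) : (X ^ 2 - C c ^ 2 : F[X]).natDegree = 2 := by
  rw [← C_pow]; exact natDegree_X_pow_sub_C

lemma fin_lemma (p : ℕ) [hp : Fact p.Prime] [CharP F p] (hp2 : p ≠ 2) {c : F} (hc : c ≠ 0)
    (hc2 : c + 2 ≠ 0) {σ : ℕ} (hσ : 1 ≤ σ) (ξ : ℕ → F[X]) (hdeg : ∀ s, (ξ s).natDegree ≤ σ)
    {γ : F} (hrel : ∀ s < 3, (ξ s).comp (X ^ 2 + C c) + C γ = (2 * X) ^ σ * ξ (s + 1))
    (hcase : (γ = 0 ∧ ∃ s < 4, ξ s ≠ 0) ∨ (γ ≠ 0 ∧ ∃ a, σ = p ^ a)) : False := by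
  have h2 : (2 : F) ≠ 0 := by
    intro h
    have := (CharP.cast_eq_zero_iff F p 2).1 (by exact_mod_cast h)
    exact hp2 ((Nat.prime_dvd_prime_iff_eq hp.out Nat.prime_two).1 this)
  have h2X : (2 * X : F[X]) ≠ 0 := mul_ne_zero (by rw [← C_ofNat]; exact C_ne_zero.2 h2) X_ne_zero
  have hsq0 : (X ^ 2 - C c ^ 2 : F[X]) ≠ 0 := by
    intro h; have := natDegree_sq_sub c; rw [h] at this; simp at this
  set m := (σ + 1) / 2 with hm
  have hA : ∀ s < 3, (X - C c) ^ m ∣ ξ s + C γ := by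
    intro s hs
    refine dvd_of_comp ?_
    rw [add_comp, C_comp, hrel s hs, mul_pow, mul_comm (2 ^ σ), mul_assoc]
    exact dvd_mul_right _ _
  have hB : ∀ s < 3, (ξ (s + 1)).comp (-X) = (-1) ^ σ * ξ (s + 1) := by
    intro s hs
    have h1 := congrArg (fun q => q.comp (-X)) (hrel s hs)
    simp only [add_comp, C_comp, comp_assoc, pow_comp, X_comp, mul_comp, neg_sq] at h1
    rw [hrel s hs] at h1
    have h3 : (2 : F[X]).comp (-X) = 2 := by rw [← C_ofNat, C_comp]
    rw [h3, mul_neg, neg_pow] at h1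
    apply mul_left_cancel₀ (pow_ne_zero σ h2X)
    have h4 : ((-1 : F[X]) ^ σ) * (-1) ^ σ = 1 := by rw [← mul_pow]; simp
    linear_combination (-((-1 : F[X]) ^ σ)) * h1 - ((2 * X) ^ σ * (ξ (s + 1)).comp (-X)) * h4
  have hunit : ∀ η : F[X], ∀ q : F[X], q ∣ (-1) ^ σ * η → q ∣ η := by
    intro η q h
    have h4 : ((-1 : F[X]) ^ σ) * (-1) ^ σ = 1 := by rw [← mul_pow]; simp
    have := h.mul_left ((-1) ^ σ)
    rwa [← mul_assoc, h4, one_mul] at this
  rcases hcase with ⟨rfl, s0, hs0, hξ⟩ | ⟨hγ, a, ha⟩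
  · have hiff : ∀ s < 3, (ξ s = 0 ↔ ξ (s + 1) = 0) := by
      intro s hs
      have := hrel s hs
      rw [map_zero, add_zero] at this
      constructor
      · intro h
        rw [h, zero_comp] at this
        exact (mul_eq_zero.1 this.symm).resolve_left (pow_ne_zero _ h2X)
      · intro h
        rw [h, mul_zero, comp_eq_zero_iff] at this
        rcases this with h' | ⟨-, h'⟩
        · exact h'
        · have := congrArg natDegree h'
          rw [natDegree_X_pow_add_C, natDegree_C] at this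
          omega
    have h1 : ξ 1 ≠ 0 := by
      clear * - F ξ hiff s0 hs0 hξ
      intro h
      have e0 := (hiff 0 (by norm_num)).2 h
      have e2 := (hiff 1 (by norm_num)).1 h
      have e3 := (hiff 2 (by norm_num)).1 e2
      interval_cases s0 <;> simp_all
    have d1 := hunit _ _ (dvd_both h2 hc (hB 0 (by norm_num)) (by simpa using hA 1 (by norm_num)))
    have d2 := hunit _ _ (dvd_both h2 hc (hB 1 (by norm_num)) (by simpa using hA 2 (by norm_num)))
    obtain ⟨u, hu⟩ := d1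
    obtain ⟨v, hv⟩ := d2
    have hu0 : u ≠ 0 := by rintro rfl; simp [h1] at hu
    have hdu : u.natDegree = 0 := by
      have := congrArg natDegree hu
      rw [natDegree_mul (pow_ne_zero _ hsq0) hu0, natDegree_pow, natDegree_sq_sub] at this
      have := hdeg (0 + 1)
      omega
    obtain ⟨κ, rfl⟩ := natDegree_eq_zero.1 hdu
    have hκ : κ ≠ 0 := by rintro rfl; simp at hu0
    have h3 := congrArg (eval c) (hrel 1 (by norm_num))
    rw [show ξ 1 = _ from hu, show ξ (1 + 1) = _ from hv] at h3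
    have hm0 : m ≠ 0 := by omega
    simp only [map_zero, add_zero, eval_comp, eval_add, eval_pow, eval_X, eval_C, eval_mul,
      eval_sub, sub_self, zero_pow hm0, zero_mul, mul_zero] at h3
    have h5 : (c ^ 2 + c) ^ 2 - c ^ 2 = c ^ 3 * (c + 2) := by ring
    rw [h5] at h3
    exact mul_ne_zero (pow_ne_zero _ (mul_ne_zero (pow_ne_zero _ hc) hc2)) hκ h3
  · have hodd : Odd σ := by rw [ha]; exact (hp.out.odd_of_ne_two hp2).pow
    have hcQ : c ^ σ ≠ 0 := pow_ne_zero _ hc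
    set δ := γ / c ^ σ with hδ
    have hδ0 : δ ≠ 0 := div_ne_zero hγ hcQ
    have hγδ : γ = δ * c ^ σ := by rw [hδ]; field_simp
    have hsub : (X - C c : F[X]) ^ σ = X ^ σ - C c ^ σ := by rw [ha, sub_pow_char_pow]
    have hθ : ∀ s, s < 2 → ξ (s + 1) + C δ * X ^ σ = 0 := by
      intro s hs
      by_contra hne
      have e1 : (X - C c) ^ m ∣ ξ (s + 1) + C δ * X ^ σ := by
        have e2 : ξ (s + 1) + C δ * X ^ σ = (ξ (s + 1) + C γ) + C δ * (X - C c) ^ σ := by
          rw [hsub, hγδ]; simp only [map_mul, map_pow]; ring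
        rw [e2]
        exact dvd_add (hA _ (by omega)) ((pow_dvd_pow _ (by omega)).mul_left _)
      have e3 : (ξ (s + 1) + C δ * X ^ σ).comp (-X) = (-1) ^ σ * (ξ (s + 1) + C δ * X ^ σ) := by
        rw [add_comp, hB s (by omega)]
        simp only [mul_comp, C_comp, pow_comp, X_comp]
        rw [neg_pow]
        ring
      have e4 := natDegree_le_of_dvd (hunit _ _ (dvd_both h2 hc e3 e1)) hne
      rw [natDegree_pow, natDegree_sq_sub] at e4
      have e5 : (ξ (s + 1) + C δ * X ^ σ).natDegree ≤ σ :=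
        natDegree_add_le_of_degree_le (hdeg _) ((natDegree_C_mul_le _ _).trans (by simp))
      obtain ⟨u, hu⟩ := hodd
      omega
    have x1 : ξ 1 = -(C δ * X ^ σ) := eq_neg_of_add_eq_zero_left (hθ 0 (by norm_num))
    have x2 : ξ (1 + 1) = -(C δ * X ^ σ) := eq_neg_of_add_eq_zero_left (hθ 1 (by norm_num))
    have h3 := congrArg (eval 1) (hrel 1 (by norm_num))
    rw [x1, x2] at h3
    simp only [eval_comp, eval_add, eval_pow, eval_X, eval_C, eval_mul, eval_neg, one_pow,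
      mul_one, eval_ofNat] at h3
    have e6 : (1 + c) ^ σ = 1 + c ^ σ := by rw [ha, add_pow_char_pow, one_pow]
    have e7 : (2 : F) ^ σ = 2 := by
      rw [ha, ← one_add_one_eq_two, add_pow_char_pow, one_pow]
    rw [e6, e7, hγδ] at h3
    apply hδ0
    linear_combination h3

/-- The tangent map `(X, Y) ↦ (X^2 + c, 2 X Y + 1)` acting on polynomials. -/
noncomputable def sharp {A : Type*} [CommRing A] (c : A) : A[X][X] →+* A[X][X] :=
  (compRingHom (C (2 * X) * X + 1)).comp (mapRingHom (compRingHom (X ^ 2 + C c)))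

lemma sharp_apply {A : Type*} [CommRing A] (c : A) (Ψ : A[X][X]) :
    sharp c Ψ = (Ψ.map (compRingHom (X ^ 2 + C c))).comp (C (2 * X) * X + 1) := rfl

lemma coeff_lin_pow {R : Type*} [CommRing R] (u : R) (m b : ℕ) :
    ((C u * X + 1) ^ m).coeff b = (m.choose b : R) * u ^ b := by
  have : (C u * X + 1) ^ m = ((X + 1) ^ m).comp (C u * X) := by simp
  rw [this, comp_C_mul_X_coeff, coeff_X_add_one_pow]

lemma coeff_sharp {A : Type*} [CommRing A] (c : A) (Ψ : A[X][X]) {n : ℕ} (hn : Ψ.natDegree ≤ n)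
    (b : ℕ) : (sharp c Ψ).coeff b = ∑ b' ∈ Finset.range (n + 1),
      (Ψ.coeff b').comp (X ^ 2 + C c) * ((b'.choose b : A[X]) * (2 * X) ^ b) := by
  rw [sharp_apply, comp, eval₂_eq_sum_range' _ (n := n + 1)
    (natDegree_map_le.trans_lt (by omega)), finsetSum_coeff]
  refine Finset.sum_congr rfl fun b' _ => ?_
  rw [coeff_C_mul, coeff_lin_pow, coeff_map]
  rfl

lemma chain_field (p : ℕ) [hp : Fact p.Prime] [CharP F p] (hp2 : p ≠ 2) {c : F} (hc : c ≠ 0)
    (hc2 : c + 2 ≠ 0) {n : ℕ} (hn : n ≠ 0) (Ψ : ℕ → F[X][X]) (hd : ∀ s, (Ψ s).natDegree ≤ n)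
    (hm : ∀ s, (Ψ s).coeff n = 1) (hc' : ∀ s b, ((Ψ s).coeff b).natDegree ≤ n - b)
    (hrel : ∀ s < 3, sharp c (Ψ s) = C ((2 * X) ^ n) * Ψ (s + 1)) : False := by
  classical
  have h2 : (2 : F) ≠ 0 := by
    intro h
    have := (CharP.cast_eq_zero_iff F p 2).1 (by exact_mod_cast h)
    exact hp2 ((Nat.prime_dvd_prime_iff_eq hp.out Nat.prime_two).1 this)
  have h2X : (2 * X : F[X]) ≠ 0 := mul_ne_zero (by rw [← C_ofNat]; exact C_ne_zero.2 h2) X_ne_zero
  obtain ⟨a, ha1, ha2, ha3⟩ := lucas (F := F) p hn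
  have hpos : 0 < p ^ a := pow_pos hp.out.pos a
  set T := (Finset.Ico (n - p ^ a) n).filter
    fun b => b = n - p ^ a ∨ ∃ s < 4, (Ψ s).coeff b ≠ 0 with hT
  have hTne : T.Nonempty := ⟨n - p ^ a, by
    simp only [hT, Finset.mem_filter, Finset.mem_Ico]; exact ⟨⟨le_rfl, by omega⟩, Or.inl trivial⟩⟩
  have hb := T.max'_mem hTne
  set b := T.max' hTne with hbdef
  simp only [hT, Finset.mem_filter, Finset.mem_Ico] at hb
  have hzero : ∀ b', b < b' → b' < n → ∀ s < 4, (Ψ s).coeff b' = 0 := by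
    intro b' h1 h3 s hs
    by_contra hne
    have : b' ∈ T := by
      simp only [hT, Finset.mem_filter, Finset.mem_Ico]
      exact ⟨⟨by omega, h3⟩, Or.inr ⟨s, hs, hne⟩⟩
    have := T.le_max' b' this
    omega
  refine fin_lemma p hp2 hc hc2 (σ := n - b) (by omega) (fun s => (Ψ s).coeff b)
    (fun s => hc' s b) (γ := (n.choose b : F)) ?_ ?_
  · intro s hs
    have h1 := congrArg (fun q => q.coeff b) (hrel s hs)
    simp only [coeff_C_mul] at h1
    rw [coeff_sharp c _ (hd s), Finset.sum_range_succ, Finset.sum_eq_single b, hm] at h1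
    · apply mul_left_cancel₀ (pow_ne_zero b h2X)
      rw [← mul_assoc, ← pow_add, show b + (n - b) = n by omega, ← h1]
      simp only [Nat.choose_self, Nat.cast_one, one_mul, one_comp, map_natCast]
      ring
    · intro b' hb' hne
      rcases lt_or_gt_of_ne hne with h | h
      · simp [Nat.choose_eq_zero_of_lt h]
      · simp [hzero b' h (by simpa using hb') s (by omega)]
    · intro h; exact absurd (Finset.mem_range.2 hb.1.2) h
  · rw [← Nat.choose_symm hb.1.2.le]
    rcases eq_or_ne b (n - p ^ a) with h | h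
    · right
      have : n - b = p ^ a := by omega
      rw [this]
      exact ⟨ha2, a, rfl⟩
    · left
      exact ⟨ha3 _ (by omega) (by omega), hb.2.resolve_left h⟩

end Pool.Agent.Work.MP_969914_nt
end

-- merged part: Pool.Agent.Work.MP_969914_nt.RInv
section
/-! No invariant curve for the map on first order jets. -/

set_option autoImplicit false

namespace JR

open Polynomial

section forms

variable {L : Type} [Field L]

/-- The form of degree `M` attached to `θ`, evaluated at `(P, Q)`. -/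
noncomputable def rinv_T {R : Type} [CommRing R] [Algebra L R] (P Q : R) (M : ℕ) (θ : L[X]) : R :=
  ∑ i ∈ Finset.range (M + 1), algebraMap L R (θ.coeff i) * (P ^ i * Q ^ (M - i))

theorem rinv_T_map {R S : Type} [CommRing R] [Algebra L R] [CommRing S] [Algebra L S]
    (f : R →ₐ[L] S) (P Q : R) (M : ℕ) (θ : L[X]) :
    f (rinv_T P Q M θ) = rinv_T (f P) (f Q) M θ := by
  simp [rinv_T, map_sum]

theorem rinv_T_field {K : Type} [Field K] [Algebra L K] (P : K) {Q : K} (hQ : Q ≠ 0) {M : ℕ}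
    {θ : L[X]} (h : θ.natDegree ≤ M) : rinv_T P Q M θ = aeval (P / Q) θ * Q ^ M := by
  rw [aeval_eq_sum_range' (Nat.lt_succ_of_le h), Finset.sum_mul]
  refine Finset.sum_congr rfl fun i hi => ?_
  rw [Algebra.smul_def, div_pow, pow_sub₀ _ hQ (Nat.lt_succ_iff.1 (Finset.mem_range.1 hi))]
  ring

theorem rinv_T_zero {K : Type} [Field K] [Algebra L K] (P : K) (M : ℕ) (θ : L[X]) :
    rinv_T P 0 M θ = algebraMap L K (θ.coeff M) * P ^ M := by
  rw [rinv_T, Finset.sum_range_succ, Finset.sum_eq_zero, Nat.sub_self, pow_zero, mul_one, zero_add]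
  intro i hi
  rw [zero_pow (Nat.sub_ne_zero_of_lt (Finset.mem_range.1 hi)), mul_zero, mul_zero]

theorem rinv_T_common {K : Type} [Field K] [Algebra L K] {P Q : K} {M N : ℕ} {θ g : L[X]}
    (hc : IsCoprime θ g) (h1 : θ.natDegree ≤ N) (h2 : g.natDegree ≤ M)
    (h3 : θ.coeff N ≠ 0 ∨ g.coeff M ≠ 0) (e1 : rinv_T P Q N θ = 0) (e2 : rinv_T P Q M g = 0) :
    P = 0 ∧ Q = 0 := by
  by_cases hQ : Q = 0
  · subst hQ
    rw [rinv_T_zero, mul_eq_zero, map_eq_zero] at e1 e2
    exact ⟨h3.elim (fun h => eq_zero_of_pow_eq_zero (e1.resolve_left h))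
      fun h => eq_zero_of_pow_eq_zero (e2.resolve_left h), rfl⟩
  · rw [rinv_T_field _ hQ h1, mul_eq_zero, or_iff_left (pow_ne_zero _ hQ)] at e1
    rw [rinv_T_field _ hQ h2, mul_eq_zero, or_iff_left (pow_ne_zero _ hQ)] at e2
    exact ((aeval_ne_zero_of_isCoprime hc (P / Q)).elim (fun h => h e1) fun h => h e2).elim

theorem rinv_T_deg {P Q : L[X]} (hP : P.natDegree ≤ 2) (hQ : Q.natDegree ≤ 2) (M : ℕ) (θ : L[X]) :
    (rinv_T P Q M θ).natDegree ≤ 2 * M ∧
      (rinv_T P Q M θ).coeff (2 * M) = rinv_T (P.coeff 2) (Q.coeff 2) M θ := by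
  have key : ∀ i ∈ Finset.range (M + 1), 2 * M = i * 2 + (M - i) * 2 := fun i hi => by
    have := Finset.mem_range.1 hi
    omega
  constructor
  · refine natDegree_sum_le_of_forall_le _ _ fun i hi => ?_
    rw [Polynomial.algebraMap_apply, key i hi]
    exact (natDegree_C_mul_le _ _).trans (natDegree_mul_le_of_le (natDegree_pow_le_of_le i hP)
      (natDegree_pow_le_of_le _ hQ))
  · rw [rinv_T, finsetSum_coeff]
    refine Finset.sum_congr rfl fun i hi => ?_
    rw [Polynomial.algebraMap_apply, coeff_C_mul, key i hi, coeff_mul_add_eq_of_natDegree_le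
      (natDegree_pow_le_of_le i hP) (natDegree_pow_le_of_le _ hQ), coeff_pow_of_natDegree_le hP,
      coeff_pow_of_natDegree_le hQ]

theorem rinv_pow_deriv (P : L[X]) (i : ℕ) :
    P * derivative (P ^ i) = (i : L[X]) * P ^ i * derivative P := by
  rcases i with _ | i
  · simp
  · rw [derivative_pow_succ, map_add, C_eq_natCast, C_1]
    push_cast
    ring

theorem rinv_T_deriv (P Q : L[X]) {N : ℕ} (hN : (N : L) = 0) (θ : L[X]) :
    P * Q * derivative (rinv_T P Q N θ) =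
      (derivative P * Q - P * derivative Q) * rinv_T P Q N (X * derivative θ) := by
  rw [rinv_T, rinv_T, derivative_sum, Finset.mul_sum, Finset.mul_sum]
  refine Finset.sum_congr rfl fun i hi => ?_
  have h1 : (X * derivative θ).coeff i = i * θ.coeff i := by
    rcases i with _ | i
    · simp
    · rw [coeff_X_mul, coeff_derivative, mul_comm]
      norm_cast
  have h2 : ((N - i : ℕ) : L[X]) = -i := by
    rw [Nat.cast_sub (Nat.lt_succ_iff.1 (Finset.mem_range.1 hi)), ← C_eq_natCast N, hN, C_0,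
      zero_sub]
  have h3 := rinv_pow_deriv P i
  have h4 := rinv_pow_deriv Q (N - i)
  rw [h2] at h4
  rw [h1, Polynomial.algebraMap_apply, Polynomial.algebraMap_apply, Algebra.algebraMap_self_apply,
    Algebra.algebraMap_self_apply, derivative_C_mul, derivative_mul, C_mul, C_eq_natCast]
  linear_combination C (θ.coeff i) * Q * Q ^ (N - i) * h3 + C (θ.coeff i) * P * P ^ i * h4

/-- Numerator and denominator of the map. -/
noncomputable def rinv_P (a : L) : L[X] := C a * X ^ 2 + 1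

/-- The numerator of the derivative. -/
noncomputable def rinv_W (a c : L) : L[X] := C (2 * (a - c)) * X

/-- The numerator of the variation. -/
noncomputable def rinv_R (a c a' c' : L) : L[X] := rho (C a) (C c) (C a') (C c') (X, 1)

theorem rinv_P_deg (a : L) : (rinv_P a).natDegree ≤ 2 := by
  unfold rinv_P
  compute_degree

theorem rinv_P_coeff (a : L) : (rinv_P a).coeff 2 = a := by
  simp [rinv_P, coeff_one]

theorem rinv_P_ne (a : L) : rinv_P a ≠ 0 := fun h => by
  simpa [rinv_P] using congrArg (eval 0) h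

theorem rinv_W_deg (a c : L) : (rinv_W a c).natDegree ≤ 1 := by
  unfold rinv_W
  compute_degree

theorem rinv_R_deg (a c a' c' : L) : (rinv_R a c a' c').natDegree ≤ 4 := by
  unfold rinv_R rho
  compute_degree

variable {a c : L}

theorem rinv_W_ne (h : HypH a c) : rinv_W a c ≠ 0 :=
  mul_ne_zero (C_ne_zero.2 (mul_ne_zero h.two (sub_ne_zero.2 h.ne))) X_ne_zero

/-- Vanishing propagates along the critical orbit. -/
theorem rinv_A (h : HypH a c) {N : ℕ} {η : L[X]} (hd : η.natDegree ≤ N)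
    (h0 : X ∣ rinv_T (rinv_P a) (rinv_P c) N η) (h1 : η ∣ X * rinv_T (rinv_P a) (rinv_P c) N η) :
    η = 0 := by
  have ev : ∀ v : L, c * v ^ 2 + 1 ≠ 0 → (rinv_T (rinv_P a) (rinv_P c) N η).eval v = 0 →
      η.eval (phi a c v) = 0 := fun v hv e => by
    have e1 : aeval v (rinv_P c) = c * v ^ 2 + 1 := by simp [rinv_P]
    have e2 : aeval v (rinv_P a) = a * v ^ 2 + 1 := by simp [rinv_P]
    rw [← coe_aeval_eq_eval, rinv_T_map, e1, e2, rinv_T_field _ hv hd, mul_eq_zero,
      or_iff_left (pow_ne_zero _ hv)] at e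
    exact e
  have key : ∀ r, η.eval (vv a c false r) = 0 := fun r => by
    induction r with
    | zero =>
      have := ev 0 (by simp) (by rwa [X_dvd_iff, coeff_zero_eq_eval_zero] at h0)
      simpa [phi, vv_zero_false] using this
    | succ r ih =>
      obtain ⟨a1, a2, a3⟩ := h.vv_succ r
      have := eval_eq_zero_of_dvd_of_eval_eq_zero h1 ih
      rw [eval_mul, eval_X, mul_eq_zero, or_iff_right a1] at this
      exact a3 ▸ ev _ a2 this
  exact eq_zero_of_infinite_isRoot η (Set.infinite_of_injective_forall_mem h.vv_inj key)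

/-- There are no poles. -/
theorem rinv_C (h : HypH a c) (a' c' l : L) {j M : ℕ} (hj : 0 < j) {θ g : L[X]} (hc : IsCoprime θ g)
    (hg : g ≠ 0) (h1 : θ.natDegree ≤ M + 2 * j) (h2 : g.natDegree ≤ M)
    (h3 : θ.coeff (M + 2 * j) ≠ 0 ∨ g.coeff M ≠ 0)
    (e : rinv_T (rinv_P a) (rinv_P c) (M + 2 * j) θ * g =
      (rinv_W a c ^ j * θ - C l * rinv_R a c a' c' ^ j * g) * rinv_T (rinv_P a) (rinv_P c) M g) :
    M = 0 := by
  have c1 : IsCoprime (rinv_T (rinv_P a) (rinv_P c) M g)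
      (rinv_T (rinv_P a) (rinv_P c) (M + 2 * j) θ) := by
    refine (isCoprime_iff_aeval_ne_zero_of_isAlgClosed L (AlgebraicClosure L) _ _).2 fun z => ?_
    by_contra hz
    rw [not_or, not_not, not_not, rinv_T_map, rinv_T_map] at hz
    obtain ⟨b1, b2⟩ := rinv_T_common hc h1 h2 h3 hz.2 hz.1
    simp only [rinv_P, map_add, map_mul, aeval_C, map_pow, aeval_X, map_one] at b1 b2
    have b3 : algebraMap L (AlgebraicClosure L) (a - c) * z ^ 2 = 0 := by
      rw [map_sub]; linear_combination b1 - b2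
    rw [mul_eq_zero, map_eq_zero, or_iff_right (sub_ne_zero.2 h.ne)] at b3
    rw [b3, mul_zero, zero_add] at b1
    exact one_ne_zero b1
  have c2 := c1.dvd_of_dvd_mul_left (z := g) (by rw [e]; exact dvd_mul_left _ _)
  have c3 := natDegree_le_of_dvd c2 hg
  obtain ⟨d1, d2⟩ := rinv_T_deg (rinv_P_deg a) (rinv_P_deg c) M g
  obtain ⟨d3, d4⟩ := rinv_T_deg (rinv_P_deg a) (rinv_P_deg c) (M + 2 * j) θ
  rw [rinv_P_coeff, rinv_P_coeff] at d2 d4
  by_cases z : rinv_T a c M g = 0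
  · exfalso
    have z' : rinv_T a c (M + 2 * j) θ ≠ 0 := fun z' => by
      obtain ⟨b1, b2⟩ := rinv_T_common hc h1 h2 h3 z' z
      exact h.ne (b1.trans b2.symm)
    have d5 := le_natDegree_of_ne_zero (d4.trans_ne z')
    have d6 : (rinv_T (rinv_P a) (rinv_P c) M g).natDegree ≠ 2 * M := fun e' =>
      (ne_zero_of_dvd_ne_zero hg c2) (leadingCoeff_eq_zero.1 (by rw [leadingCoeff, e', d2, z]))
    have d7 := natDegree_mul (p := rinv_T (rinv_P a) (rinv_P c) (M + 2 * j) θ)
      (fun e' => z' (by rw [← d4, e', coeff_zero])) hg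
    have d8 := natDegree_mul_le_of_le (natDegree_pow_le_of_le j (rinv_W_deg a c)) h1
    have d9 := natDegree_mul_le_of_le ((natDegree_C_mul_le l _).trans
      (natDegree_pow_le_of_le j (rinv_R_deg a c a' c'))) (le_refl g.natDegree)
    have d10 := natDegree_mul_le_of_le ((natDegree_sub_le _ _).trans (max_le_max d8 d9))
      (le_refl (rinv_T (rinv_P a) (rinv_P c) M g).natDegree)
    rw [← e] at d10
    omega
  · have := le_natDegree_of_ne_zero (d2.trans_ne z)
    omega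

variable {Ω : Type} [Field Ω] [Algebra L Ω] {x : Ω}

theorem rinv_ne (hx : Transcendental L x) {f : L[X]} (hf : f ≠ 0) : aeval x f ≠ 0 :=
  (map_ne_zero_iff _ (transcendental_iff_injective.1 hx)).2 hf

theorem rinv_T_pt (hx : Transcendental L x) {M : ℕ} {θ : L[X]} (h : θ.natDegree ≤ M) :
    aeval x (rinv_T (rinv_P a) (rinv_P c) M θ) =
      aeval (aeval x (rinv_P a) / aeval x (rinv_P c)) θ * aeval x (rinv_P c) ^ M := by
  rw [rinv_T_map, rinv_T_field _ (rinv_ne hx (rinv_P_ne c)) h]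

theorem rinv_tr (h : HypH a c) (hx : Transcendental L x) {g : L[X]} (hg : g ≠ 0) :
    aeval (aeval x (rinv_P a) / aeval x (rinv_P c)) g ≠ 0 := fun e => by
  have h1 := rinv_T_pt (a := a) (c := c) hx (le_refl g.natDegree)
  rw [e, zero_mul, map_eq_zero_iff _ (transcendental_iff_injective.1 hx)] at h1
  exact hg (rinv_A h le_rfl (h1 ▸ dvd_zero _) (by rw [h1, mul_zero]; exact dvd_zero _))

/-- The functional equation with values `r₁` at `φ x` and `r₀` at `x`. -/
def rinv_E (a c a' c' l : L) (j : ℕ) (x r₁ r₀ : Ω) : Prop :=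
  r₁ + algebraMap L Ω l * (aeval x (rinv_R a c a' c') / aeval x (rinv_P c) ^ 2) ^ j =
    (aeval x (rinv_W a c) / aeval x (rinv_P c) ^ 2) ^ j * r₀

theorem rinv_poly (hx : Transcendental L x) {a' c' l : L} {j : ℕ} {θ : L[X]}
    (hd : θ.natDegree ≤ 2 * j)
    (e : rinv_E a c a' c' l j x (aeval (aeval x (rinv_P a) / aeval x (rinv_P c)) θ) (aeval x θ)) :
    rinv_T (rinv_P a) (rinv_P c) (2 * j) θ + C l * rinv_R a c a' c' ^ j = rinv_W a c ^ j * θ := by
  have hq := pow_ne_zero j (pow_ne_zero 2 (rinv_ne hx (rinv_P_ne c)))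
  apply transcendental_iff_injective.1 hx
  rw [rinv_E, div_pow, div_pow] at e
  rw [map_add, rinv_T_pt hx hd, map_mul, map_mul, map_pow, map_pow, aeval_C, pow_mul]
  field_simp at e
  linear_combination e

/-- Reduction to polynomial solutions. -/
theorem rinv_red (h : HypH a c) (hx : Transcendental L x) {a' c' l : L} {j : ℕ} (hj : 0 < j)
    {u w : L[X]} (hw : w ≠ 0)
    (e : rinv_E a c a' c' l j x (aeval (aeval x (rinv_P a) / aeval x (rinv_P c)) u /
      aeval (aeval x (rinv_P a) / aeval x (rinv_P c)) w) (aeval x u / aeval x w)) :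
    ∃ θ : L[X], θ.natDegree ≤ 2 * j ∧ θ ∣ u ∧
      rinv_E a c a' c' l j x (aeval (aeval x (rinv_P a) / aeval x (rinv_P c)) θ) (aeval x θ) := by
  obtain ⟨θ, g, d, hc, rfl, rfl⟩ := UniqueFactorizationMonoid.exists_reduced_factors' u w hw
  obtain ⟨hd, hg⟩ := mul_ne_zero_iff.1 hw
  rw [map_mul, map_mul, map_mul, map_mul, mul_div_mul_left _ _ (rinv_tr h hx hd),
    mul_div_mul_left _ _ (rinv_ne hx hd)] at e
  have h1 : θ.natDegree ≤ max g.natDegree (θ.natDegree - 2 * j) + 2 * j := by omega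
  have h0 : max g.natDegree (θ.natDegree - 2 * j) = 0 := by
    refine rinv_C h a' c' l hj hc.isCoprime hg h1 (le_max_left _ _) ?_ ?_
    · rcases le_or_gt (θ.natDegree - 2 * j) g.natDegree with b | b
      · rw [max_eq_left b]
        exact Or.inr (leadingCoeff_ne_zero.2 hg)
      · rw [max_eq_right b.le, Nat.sub_add_cancel (by omega)]
        refine Or.inl (leadingCoeff_ne_zero.2 fun b' => ?_)
        simp [b'] at b
    · have hq := pow_ne_zero j (pow_ne_zero 2 (rinv_ne hx (rinv_P_ne c)))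
      have b1 := rinv_tr h hx hg
      have b2 := rinv_ne hx hg
      apply transcendental_iff_injective.1 hx
      rw [rinv_E, div_pow, div_pow] at e
      rw [map_mul, map_mul, rinv_T_pt hx h1, rinv_T_pt hx (le_max_left _ _), map_sub, map_mul,
        map_mul, map_mul, map_pow, map_pow, aeval_C, pow_add, pow_mul]
      field_simp at e
      linear_combination aeval x (rinv_P c) ^ max g.natDegree (θ.natDegree - 2 * j) * e
  obtain ⟨g₀, rfl⟩ := natDegree_eq_zero.1 (show g.natDegree = 0 by omega)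
  refine ⟨C g₀⁻¹ * θ, (natDegree_C_mul_le _ _).trans (by omega), ⟨C g₀ * d, ?_⟩, ?_⟩
  · rw [mul_mul_mul_comm, ← C_mul, inv_mul_cancel₀ (C_ne_zero.1 hg), C_1, one_mul, mul_comm]
  · simpa only [map_mul, aeval_C, map_inv₀, ← div_eq_inv_mul] using e

theorem rinv_hom (h : HypH a c) (hx : Transcendental L x) {a' c' : L} {j : ℕ} (hj : 0 < j)
    {θ : L[X]} (hd : θ.natDegree ≤ 2 * j)
    (e : rinv_E a c a' c' 0 j x (aeval (aeval x (rinv_P a) / aeval x (rinv_P c)) θ) (aeval x θ)) :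
    θ = 0 := by
  have h1 := rinv_poly hx hd e
  rw [C_0, zero_mul, add_zero] at h1
  refine rinv_A h hd ?_ ?_ <;> rw [h1]
  · exact (dvd_pow (dvd_mul_left _ _) hj.ne').mul_right _
  · exact (dvd_mul_left _ _).mul_left _

theorem rinv_one (h : HypH a c) {a' c' l : L} (hl : l ≠ 0) {θ : L[X]} (hd : θ.natDegree ≤ 2)
    (e : rinv_T (rinv_P a) (rinv_P c) 2 θ + C l * rinv_R a c a' c' = rinv_W a c * θ) :
    a' = 0 ∧ c' = 0 := by
  have h1 : θ = C (θ.coeff 0) + C (θ.coeff 1) * X + C (θ.coeff 2) * X ^ 2 := by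
    conv_lhs => rw [as_sum_range_C_mul_X_pow' θ (Nat.lt_succ_of_le hd)]
    simp [Finset.sum_range_succ]
  rw [rinv_T] at e
  generalize θ.coeff = t at e h1
  have h2 : C (t 0 + t 1 + t 2) + C (-(2 * (a - c) * t 0)) * X +
      C (2 * c * t 0 + (a + c) * t 1 + 2 * a * t 2 + l * (a' - c') - 2 * (a - c) * t 1) * X ^ 2 +
      C (-(2 * (a - c) * t 2)) * X ^ 3 +
      C (c ^ 2 * t 0 + a * c * t 1 + a ^ 2 * t 2 + l * (a' * c - c' * a)) * X ^ 4 = 0 := by
    simp only [Finset.sum_range_succ, Finset.sum_range_zero, Polynomial.algebraMap_apply,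
      Algebra.algebraMap_self_apply, rinv_P, rinv_R, rinv_W, rho, h1, map_add, map_sub, map_mul,
      map_neg, map_pow, map_ofNat] at e ⊢
    linear_combination e
  have c0 := congrArg (coeff · 0) h2
  have c1 := congrArg (coeff · 1) h2
  have c2 := congrArg (coeff · 2) h2
  have c3 := congrArg (coeff · 3) h2
  have c4 := congrArg (coeff · 4) h2
  simp only [coeff_add, coeff_C_mul, coeff_X_pow, coeff_X, coeff_C, coeff_zero] at c0 c1 c2 c3 c4
  norm_num [h.two, sub_ne_zero.2 h.ne] at c0 c1 c2 c3 c4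
  have t1 : t 1 = 0 := by rw [c1, c3] at c0; simpa using c0
  rw [c1, c3, t1] at c2 c4
  have b1 : a' - c' = 0 := by simpa [hl] using c2
  have b2 : a' * c - c' * a = 0 := by simpa [hl] using c4
  have b3 : a' * (a - c) = 0 := by linear_combination a * b1 - b2
  rw [mul_eq_zero, or_iff_left (sub_ne_zero.2 h.ne)] at b3
  exact ⟨b3, by linear_combination b3 - b1⟩

theorem rinv_frob (p : ℕ) [Fact p.Prime] [CharP L p] (x : Ω) (f : L[X]) :
    aeval x f ^ p = aeval (x ^ p) (f.map (frobenius L p)) := by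
  rw [← map_pow, ← map_frobenius_expand, map_expand, expand_aeval]

theorem rinv_B (p : ℕ) [hp : Fact p.Prime] [CharP L p] {l : L} (hl : l ≠ 0) (n : ℕ) {a c : L}
    (h : HypH a c) {x : Ω} (hx : Transcendental L x) {a' c' : L} {θ : L[X]}
    (hd : θ.natDegree ≤ 2 * p ^ n)
    (e : rinv_E a c a' c' l (p ^ n) x (aeval (aeval x (rinv_P a) / aeval x (rinv_P c)) θ)
      (aeval x θ)) : a' = 0 ∧ c' = 0 := by
  induction n generalizing a c x a' c' θ with
  | zero => exact rinv_one h hl (by simpa using hd) (by simpa using rinv_poly hx hd e)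
  | succ n ih =>
  have hs : ((p ^ (n + 1) : ℕ) : L) = 0 := by simp
  have h1 := congrArg derivative (rinv_poly hx hd e)
  have h2 := rinv_T_deriv (rinv_P a) (rinv_P c) (N := 2 * p ^ (n + 1))
    (by rw [Nat.cast_mul, hs, mul_zero]) θ
  have h3 : derivative (rinv_P a) * rinv_P c - rinv_P a * derivative (rinv_P c) = rinv_W a c := by
    simp only [rinv_P, rinv_W, derivative_add, derivative_one, derivative_C_mul, derivative_X_sq,
      map_mul, map_sub, map_ofNat]
    ring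
  rw [derivative_add, derivative_C_mul, derivative_mul, derivative_pow, derivative_pow, hs] at h1
  simp only [C_0, zero_mul, mul_zero, add_zero, zero_add] at h1
  obtain ⟨m, hm⟩ : ∃ m, p ^ (n + 1) = m + 2 :=
    Nat.exists_eq_add_of_le' (hp.out.two_le.trans (Nat.le_self_pow n.succ_ne_zero p))
  rw [h3, h1] at h2
  have h4 : rinv_T (rinv_P a) (rinv_P c) (2 * p ^ (n + 1)) (X * derivative θ) =
      rinv_P a * rinv_P c * rinv_W a c ^ m * C (2 * (a - c)) * (X * derivative θ) := by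
    apply mul_left_cancel₀ (rinv_W_ne h)
    rw [← h2, hm, pow_add, sq, rinv_W]
    ring
  have h5 : X * derivative θ = 0 := by
    refine rinv_A h (N := 2 * p ^ (n + 1)) ?_ ?_ ?_
    · have := natDegree_mul_le_of_le natDegree_X_le (natDegree_derivative_le θ)
      omega
    · rw [h4]
      exact (dvd_mul_right _ _).mul_left _
    · rw [h4]
      exact (dvd_mul_left _ _).mul_left _
  rw [mul_eq_zero, or_iff_right X_ne_zero] at h5
  obtain ⟨θ₁, rfl⟩ : ∃ θ₁, expand L p θ₁ = θ := ⟨_, expand_contract p h5 hp.out.ne_zero⟩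
  have mP : ∀ b : L, (rinv_P b).map (frobenius L p) = rinv_P (frobenius L p b) := fun b => by
    simp [rinv_P]
  have mW : (rinv_W a c).map (frobenius L p) = rinv_W (frobenius L p a) (frobenius L p c) := by
    rw [rinv_W, Polynomial.map_mul, map_C, map_X, map_mul, map_sub, map_ofNat, rinv_W]
  have mR : (rinv_R a c a' c').map (frobenius L p) = rinv_R (frobenius L p a) (frobenius L p c)
      (frobenius L p a') (frobenius L p c') := by
    simp [rinv_R, rho]
  have h6 := ih ((HypH.map (frobenius L p)).2 h) (hx.pow hp.out.pos) (a' := frobenius L p a')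
    (c' := frobenius L p c') (θ := θ₁) ?_ ?_
  · simpa using h6
  · rw [natDegree_expand, pow_succ, ← mul_assoc] at hd
    exact Nat.le_of_mul_le_mul_right hd hp.out.pos
  · rw [rinv_E, ← mP, ← mP, ← mW, ← mR, ← rinv_frob, ← rinv_frob, ← rinv_frob, ← rinv_frob,
      ← pow_mul, mul_comm p 2, pow_mul, ← div_pow, ← div_pow, ← div_pow, ← pow_mul, ← pow_mul,
      ← pow_succ', ← expand_aeval, ← expand_aeval]
    exact e

theorem rinv_coeff {K : Type} [Field K] (G : K[X]) {e k : ℕ} (he : G.natDegree ≤ e) (hk : k < e)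
    (h0 : ∀ i, k < i → i < e → G.coeff i = 0) (α ψ : K) :
    (G.comp (C α * X + C ψ)).coeff e = G.coeff e * α ^ e ∧ (G.comp (C α * X + C ψ)).coeff k =
      (G.coeff k + e.choose k * G.coeff e * ψ ^ (e - k)) * α ^ k := by
  have h1 : ∀ m, (G.comp (C α * X + C ψ)).coeff m =
      (∑ i ∈ Finset.range (e + 1), i.choose m * G.coeff i * ψ ^ (i - m)) * α ^ m := fun m => by
    have h2 : G.comp (C α * X + C ψ) = (taylor ψ G).comp (C α * X) := by
      simp [taylor_apply, comp_assoc]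
    rw [h2, comp_C_mul_X_coeff, taylor_coeff, hasseDeriv_apply,
      sum_over_range' _ (by simp) _ (Nat.lt_succ_of_le he), eval_finsetSum]
    simp only [eval_monomial]
  constructor
  · rw [h1, Finset.sum_range_succ, Finset.sum_eq_zero fun i hi => by
      rw [Nat.choose_eq_zero_of_lt (Finset.mem_range.1 hi), Nat.cast_zero, zero_mul, zero_mul]]
    simp
  · rw [h1, Finset.sum_eq_add k e hk.ne]
    · simp
    · intro i hi hi'
      rcases lt_or_gt_of_ne hi'.1 with b | b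
      · rw [Nat.choose_eq_zero_of_lt b, Nat.cast_zero, zero_mul, zero_mul]
      · rw [h0 i b (by have := Finset.mem_range.1 hi; omega), mul_zero, zero_mul]
    · intro b
      exact absurd (Finset.mem_range.2 (by omega)) b
    · intro b
      exact absurd (Finset.mem_range.2 (by omega)) b

end forms

/-- `G (φ x, φ' u + ρ / Q²)` is proportional to `G (x, u)` at a transcendental point `x`. -/
theorem inv_curve (p : ℕ) [Fact p.Prime] {L Ω : Type} [Field L] [CharP L p] [Field Ω]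
    [Algebra L Ω] {a c : L} (h : HypH a c) (a' c' : L) (G : L[X][X]) (hG : G.natDegree ≠ 0)
    {x : Ω} (hx : Transcendental L x) (η : Ω)
    (hη : (G.map (aeval (phi (algebraMap L Ω a) (algebraMap L Ω c) x) : L[X] →ₐ[L] Ω).toRingHom).comp
        (C ((algebraMap L Ω c * x ^ 2 + 1)⁻¹ ^ 2) *
          (C (2 * (algebraMap L Ω a - algebraMap L Ω c) * x) * X +
            C (rho (algebraMap L Ω a) (algebraMap L Ω c) (algebraMap L Ω a') (algebraMap L Ω c')
              (x, 1)))) =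
      C η * G.map (aeval x : L[X] →ₐ[L] Ω).toRingHom) :
    a' = 0 ∧ c' = 0 ∧ ∀ i, i < G.natDegree → G.coeff i = 0 := by
  have eP : ∀ b : L, algebraMap L Ω b * x ^ 2 + 1 = aeval x (rinv_P b) := fun b => by
    simp [rinv_P]
  have eW : 2 * (algebraMap L Ω a - algebraMap L Ω c) * x = aeval x (rinv_W a c) := by
    simp only [rinv_W, map_mul, aeval_C, aeval_X, map_sub, map_ofNat]
  have eR : rho (algebraMap L Ω a) (algebraMap L Ω c) (algebraMap L Ω a') (algebraMap L Ω c')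
      (x, 1) = aeval x (rinv_R a c a' c') := by
    simp [rinv_R, rho]
  rw [phi, eP, eP, eW, eR, mul_add, ← mul_assoc, ← C_mul, ← C_mul, inv_pow, ← div_eq_inv_mul,
    ← div_eq_inv_mul] at hη
  have hα := div_ne_zero (rinv_ne hx (rinv_W_ne h)) (pow_ne_zero 2 (rinv_ne hx (rinv_P_ne c)))
  have hl : G.coeff G.natDegree ≠ 0 :=
    leadingCoeff_ne_zero.2 fun e => hG (by rw [e, natDegree_zero])
  have main : ∀ j, 0 < j → j ≤ G.natDegree →
      (∀ i, G.natDegree < i + j → i < G.natDegree → G.coeff i = 0) →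
      rinv_E a c a' c' (G.natDegree.choose j) j x
        (aeval (aeval x (rinv_P a) / aeval x (rinv_P c)) (G.coeff (G.natDegree - j)) /
          aeval (aeval x (rinv_P a) / aeval x (rinv_P c)) (G.coeff G.natDegree))
        (aeval x (G.coeff (G.natDegree - j)) / aeval x (G.coeff G.natDegree)) := by
    intro j h1 h2 h3
    obtain ⟨b1, b2⟩ := rinv_coeff (G.map (aeval (aeval x (rinv_P a) / aeval x (rinv_P c)) :
      L[X] →ₐ[L] Ω).toRingHom) natDegree_map_le (show G.natDegree - j < G.natDegree by omega)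
      (fun i i1 i2 => by rw [coeff_map, h3 i (by omega) i2, map_zero])
      (aeval x (rinv_W a c) / aeval x (rinv_P c) ^ 2)
      (aeval x (rinv_R a c a' c') / aeval x (rinv_P c) ^ 2)
    rw [hη, coeff_C_mul, coeff_map, coeff_map] at b1 b2
    rw [coeff_map, Nat.choose_symm h2, Nat.sub_sub_self h2] at b2
    simp only [AlgHom.toRingHom_eq_coe, RingHom.coe_coe] at b1 b2
    have b3 := rinv_tr h hx hl
    have b4 := rinv_ne hx hl
    rw [← Nat.sub_add_cancel h2, pow_add, Nat.sub_add_cancel h2] at b1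
    rw [rinv_E, map_natCast]
    apply mul_left_cancel₀ (pow_ne_zero (G.natDegree - j) hα)
    generalize (aeval x (rinv_W a c) / aeval x (rinv_P c) ^ 2) ^ j = α₁ at *
    generalize (aeval x (rinv_W a c) / aeval x (rinv_P c) ^ 2) ^ (G.natDegree - j) = α₂ at *
    generalize (aeval x (rinv_R a c a' c') / aeval x (rinv_P c) ^ 2) ^ j = ψ at *
    field_simp
    linear_combination aeval x (G.coeff (G.natDegree - j)) * b1 -
      aeval x (G.coeff G.natDegree) * b2
  have key : ∀ j, j ≤ G.natDegree → (∀ s, 0 < s → s ≤ j → (G.natDegree.choose s : L) = 0 ∨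
      (a' = 0 ∧ c' = 0)) → ∀ i, G.natDegree ≤ i + j → i < G.natDegree → G.coeff i = 0 := by
    intro j h1 h2
    induction j with
    | zero => intro i i1 i2; omega
    | succ j ih =>
      replace ih := ih (by omega) fun s s1 s2 => h2 s s1 (by omega)
      have h3 := main (j + 1) j.succ_pos h1 fun i i1 i2 => ih i (by omega) i2
      have h4 : G.coeff (G.natDegree - (j + 1)) = 0 := by
        obtain ⟨θ, b1, b2, b3⟩ := rinv_red (a' := a') (c' := c') (l := 0) h hx j.succ_pos hl (by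
          rcases h2 (j + 1) j.succ_pos le_rfl with b | ⟨rfl, rfl⟩
          · rwa [b] at h3
          · simpa [rinv_E, rinv_R, rho] using h3)
        exact zero_dvd_iff.1 (rinv_hom h hx j.succ_pos b1 b3 ▸ b2)
      intro i i1 i2
      rcases i1.eq_or_lt with b | b
      · rwa [show i = G.natDegree - (j + 1) by omega]
      · exact ih i (by omega) i2
  obtain ⟨n, n1, n2, n3⟩ := Pool.Agent.Work.MP_969914_nt.lucas (F := L) p hG
  have n0 : 0 < p ^ n := pow_pos (Fact.out : p.Prime).pos n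
  obtain ⟨θ, b1, -, b3⟩ := rinv_red h hx n0 hl (main _ n0 n1 fun i i1 i2 =>
    key (p ^ n - 1) (by omega) (fun s s1 s2 => Or.inl (n3 s s1 (by omega))) i (by omega) i2)
  obtain ⟨b4, b5⟩ := rinv_B p n2 n h hx b1 b3
  exact ⟨b4, b5, fun i hi => key _ le_rfl (fun _ _ _ => Or.inr ⟨b4, b5⟩) i (by omega) hi⟩

end JR
end

-- merged part: Pool.Agent.Work.MP_969914_nt.RM1
section
/-! An orbit and its derivative are algebraically independent. -/

set_option autoImplicit false

namespace JR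

open scoped NNReal ENNReal
open Polynomial Filter

section aux
variable {k0 : Type} [Field k0]

theorem rm1_sub {σ : Type} (u : σ) (f : MvPolynomial σ k0) :
    ∃ β, f = sub1 u 0 f + MvPolynomial.X u * β := by
  induction f using MvPolynomial.induction_on with
  | C r => exact ⟨0, by simp [sub1]⟩
  | add f g hf hg =>
    obtain ⟨β, h⟩ := hf
    obtain ⟨γ, h'⟩ := hg
    exact ⟨β + γ, by rw [map_add]; linear_combination h + h'⟩
  | mul_X f s hf =>
    obtain ⟨β, h⟩ := hf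
    by_cases hs : s = u
    · exact ⟨f, by simp [sub1, hs, mul_comm]⟩
    · have e : sub1 u (0 : k0) (MvPolynomial.X s) = MvPolynomial.X s := by simp [sub1, hs]
      exact ⟨β * MvPolynomial.X s, by rw [map_mul, e]; linear_combination h * MvPolynomial.X s⟩

theorem rm1_const {σ : Type} {f : MvPolynomial σ k0} (h : On ∅ f) :
    f = MvPolynomial.C (MvPolynomial.aeval (fun _ => (0 : k0)) f) := by
  have e := h.aeval_congr (ω := MvPolynomial.X) (ω' := fun _ => (0 : MvPolynomial σ k0))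
    fun _ hs => hs.elim
  rw [MvPolynomial.aeval_X_left_apply] at e
  refine e.trans ?_
  rw [MvPolynomial.aeval_zero', MvPolynomial.aeval_zero']
  rfl

theorem rm1_map {A B : Type} [CommRing A] [CommRing B] [Algebra k0 A] [Algebra k0 B]
    (ψ : A →ₐ[k0] B) (x y : A) (G : k0[X][X]) :
    ψ (aevalAeval x y G) = aevalAeval (ψ x) (ψ y) G := by
  have : ψ.comp (aevalAeval x y) = aevalAeval (ψ x) (ψ y) :=
    algHom_ext' (by ext; simp) (by simp)
  exact AlgHom.congr_fun this G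

theorem rm1_eval₂ {A : Type} [CommRing A] [Algebra k0 A] (x y : A) (G : k0[X][X]) :
    G.eval₂ (aeval x : k0[X] →ₐ[k0] A).toRingHom y = aevalAeval x y G := by
  induction G using Polynomial.induction_on' with
  | add p q hp hq => rw [eval₂_add, map_add, hp, hq]
  | monomial n p =>
    rw [eval₂_monomial, ← C_mul_X_pow_eq_monomial, map_mul, map_pow, aevalAeval_C, aevalAeval_Y]
    rfl

theorem rm1_on {σ : Type} {V : Set σ} {u u' : σ} (hu : u ∈ V) (hu' : u' ∈ V) (G : k0[X][X]) :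
    On V (aevalAeval (MvPolynomial.X u) (MvPolynomial.X u' : MvPolynomial σ k0) G) := by
  induction G using Polynomial.induction_on' with
  | add p q hp hq => rw [map_add]; exact hp.add hq
  | monomial n p =>
    rw [← C_mul_X_pow_eq_monomial, map_mul, map_pow, aevalAeval_C, aevalAeval_Y]
    exact (On.aeval_X hu p).mul ((On.X hu').pow n)

theorem rm1_box : box 2 0 = ({(false, 0), (false, 1)} : Finset Vr) := by
  ext ⟨b, i⟩
  cases b <;> simp [box]
  omega

theorem rm1_D_phi {K : Type} [Field K] (H : HD K) {a c x : K} (h : c * x ^ 2 + 1 ≠ 0) :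
    H.D 1 (phi a c x) = (c * x ^ 2 + 1)⁻¹ ^ 2 *
      (2 * (a - c) * x * H.D 1 x + rho a c (H.D 1 a) (H.D 1 c) (x, 1)) := by
  have e : phi a c x * (c * (x * x) + 1) = a * (x * x) + 1 := by
    rw [← pow_two, phi, div_mul_cancel₀ _ h]
  have e' := congrArg (H.D 1) e
  simp only [H.D1_mul, H.D_add, H.D_one 0] at e'
  simp only [rho]
  field_simp
  linear_combination (c * x ^ 2 + 1) * e' -
    (c * (x * H.D 1 x + H.D 1 x * x) + H.D 1 c * (x * x)) * e

/-- An irreducible relation which holds at a point and at its image is invariant. -/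
theorem rm1_inv (p : ℕ) [Fact p.Prime] [CharP k0 p] {K : Type} [Field K] [Algebra k0 K]
    {a c : k0} (h : HypH a c) (a' c' : k0) {G : k0[X][X]} (hG : Irreducible G)
    (hd : G.natDegree ≠ 0) {x u : K} (hx : Transcendental k0 x) (h1 : aevalAeval x u G = 0)
    (h2 : aevalAeval (phi (algebraMap k0 K a) (algebraMap k0 K c) x)
      ((algebraMap k0 K c * x ^ 2 + 1)⁻¹ ^ 2 * (2 * (algebraMap k0 K a - algebraMap k0 K c) * x * u +
        rho (algebraMap k0 K a) (algebraMap k0 K c) (algebraMap k0 K a') (algebraMap k0 K c')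
          (x, 1))) G = 0) : a' = 0 ∧ c' = 0 := by
  obtain ⟨ψ, hψ⟩ : ∃ ψ : RatFunc k0 →ₐ[k0] K, ψ RatFunc.X = x := by
    have hi := transcendental_iff_injective.1 hx
    refine ⟨IsFractionRing.liftAlgHom hi, ?_⟩
    rw [← RatFunc.algebraMap_X]
    exact (IsFractionRing.lift_algebraMap (g := (aeval x : k0[X] →ₐ[k0] K).toRingHom) hi _).trans
      (aeval_X x)
  have hC (r : k0) : ψ (RatFunc.C r) = algebraMap k0 K r := ψ.commutes r
  have ev (y : RatFunc k0) (v : K) :
      (G.map (aeval y : k0[X] →ₐ[k0] RatFunc k0).toRingHom).eval₂ ψ.toRingHom v =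
        aevalAeval (ψ y) v G := by
    rw [eval₂_map, ← rm1_eval₂]
    congr 1
    ext <;> simp [hC]
  have eA : (aeval RatFunc.X : k0[X] →ₐ[k0] RatFunc k0).toRingHom = algebraMap _ _ := by
    ext <;> simp
  have hA : Irreducible (G.map (aeval RatFunc.X : k0[X] →ₐ[k0] RatFunc k0).toRingHom) := by
    rw [eA]
    exact (hG.isPrimitive hd).irreducible_iff_irreducible_map_fraction_map.1 hG
  have hA' : (G.map (aeval RatFunc.X : k0[X] →ₐ[k0] RatFunc k0).toRingHom).natDegree =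
      G.natDegree := by
    rw [eA, natDegree_map_eq_of_injective (IsFractionRing.injective _ _)]
  have key (B : (RatFunc k0)[X]) (hB : B.natDegree ≤ G.natDegree) (h0 : B.eval₂ ψ.toRingHom u = 0) :
      ∃ η, B = C η * G.map (aeval RatFunc.X : k0[X] →ₐ[k0] RatFunc k0).toRingHom := by
    rcases hA.isCoprime_or_dvd B with ⟨s, t, e⟩ | ⟨T, rfl⟩
    · have := congrArg (eval₂ ψ.toRingHom u) e
      rw [eval₂_add, eval₂_mul, eval₂_mul, h0, ev, hψ, h1, eval₂_one] at this
      simp at this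
    · rcases eq_or_ne T 0 with rfl | hT
      · exact ⟨0, by simp⟩
      · rw [natDegree_mul hA.ne_zero hT, hA'] at hB
        exact ⟨_, by rw [mul_comm, ← eq_C_of_natDegree_eq_zero (by omega : T.natDegree = 0)]⟩
  have h3 := fun η hη => inv_curve p h a' c' G hd RatFunc.transcendental_X η hη
  refine (key _ ?_ ?_).elim fun η hη => ⟨(h3 η hη).1, (h3 η hη).2.1⟩
  · refine natDegree_comp_le.trans ?_
    refine (Nat.mul_le_mul natDegree_map_le ((natDegree_C_mul_le _ _).trans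
      natDegree_linear_le)).trans (mul_one _).le
  · rw [eval₂_comp, ev, ← h2, eval₂_mul, eval₂_add, eval₂_mul, eval₂_C, eval₂_C, eval₂_C, eval₂_X]
    simp [phi, rho, hψ, hC, map_ofNat]

end aux

namespace NS
variable {p : ℕ} [Fact p.Prime] {K Γ : Type} [Field K] [CharP K p]
  [LinearOrderedCommGroupWithZero Γ] (N : NS p K Γ)

/-- An orbit of positive finite height. -/
structure Orb (a c : N.toPF.k0) (z : ℤ → K) : Prop where
  orbit : IsOrbit (a : K) c z
  pos : N.toPF.ht (z 0) ≠ 0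
  fin : N.toPF.ht (z 0) ≠ ⊤

variable {N} {a c : N.toPF.k0} {z : ℤ → K}

theorem Orb.ht_pos (hac : a ≠ c) (h : N.Orb a c z) (l : ℤ) :
    N.toPF.ht (z l) ≠ 0 ∧ N.toPF.ht (z l) ≠ ⊤ := by
  obtain ⟨j, rfl | rfl⟩ := l.eq_nat_or_neg
  · have e := N.ht_orbit hac h.orbit 0 j
    rw [zero_add] at e
    rw [e]
    exact ⟨mul_ne_zero (by simp) h.pos, ENNReal.mul_ne_top (by simp) h.fin⟩
  · have e := N.ht_orbit hac h.orbit (-j) j
    rw [neg_add_cancel] at e
    exact ⟨fun h0 => h.pos (by rw [e, h0, mul_zero]),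
      fun h0 => h.fin (by rw [e, h0, ENNReal.mul_top (by simp)])⟩

theorem Orb.trans (hac : a ≠ c) (h : N.Orb a c z) (l : ℤ) : Transcendental N.toPF.k0 (z l) :=
  fun h' => (h.ht_pos hac l).1 (N.toPF.ht_eq_zero_of_isAlgebraic h')

theorem Orb.ne_zero (hac : a ≠ c) (h : N.Orb a c z) (l : ℤ) : z l ≠ 0 :=
  fun h' => h.trans hac l (h' ▸ isAlgebraic_zero)

/-- A relation among the jets of `z` does not restrict to a nonzero constant on `z = 0`. -/
theorem ht_eq_zero_of_const (z : K) (g : MvPolynomial Vr N.toPF.k0)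
    (h0 : MvPolynomial.aeval (N.H.jet2 z z) g = 0) {r : N.toPF.k0} (hr : r ≠ 0)
    (h : sub1 (false, 0) 0 (sub1 (true, 0) 0 g) = MvPolynomial.C r) : N.toPF.ht z = 0 := by
  obtain ⟨β, hβ⟩ := rm1_sub (true, 0) g
  obtain ⟨γ, hγ⟩ := rm1_sub (false, 0) (sub1 (true, 0) 0 g)
  rw [hγ, h] at hβ
  have e : (r : K) = -(z * MvPolynomial.aeval (N.H.jet2 z z) (β + γ)) := by
    rw [hβ] at h0
    simp only [map_add, map_mul, MvPolynomial.aeval_X, MvPolynomial.aeval_C, HD.jet2, HD.D_zero,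
      ite_self] at h0 ⊢
    have : algebraMap N.toPF.k0 K r = r := rfl
    linear_combination h0 - this
  have hr' : (r : K) ≠ 0 := fun h => hr (Subtype.ext h)
  have hz : z ≠ 0 := fun h => hr' (by rw [e, h, zero_mul, neg_zero])
  have e' : z⁻¹ = -MvPolynomial.aeval (N.H.jet2 z z) (β + γ) * (r : K)⁻¹ := by
    field_simp
    linear_combination e
  obtain ⟨ν, hν, -, hb⟩ := N.toPF.v_aeval_le (β + γ)
  choose μ hμ h1 h2 using N.exists_D_bound z
  rw [← N.toPF.ht_inv]
  refine le_antisymm ((N.I_mono _ (fun w => ν w * (∏ s ∈ (β + γ).vars,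
    μ s.2 w ^ (β + γ).degreeOf s) * N.v w (r : K)⁻¹) fun w => ?_).trans ?_) bot_le
  · rcases le_total (N.v w z) 1 with hw | hw
    · refine le_max_of_le_right ?_
      rw [e', map_mul, Valuation.map_neg]
      refine mul_le_mul_left ((hb w _).trans (mul_le_mul_right ?_ _)) _
      refine Finset.prod_le_prod' fun s _ => pow_le_pow_left₀ zero_le ?_ _
      exact max_le (h1 _ w) (by simpa [HD.jet2] using (h2 s.2 w).1 hw)
    · refine le_max_of_le_left ?_
      rw [map_inv₀]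
      exact inv_le_one_of_one_le₀ hw
  · refine (N.I_mul _ _).trans ?_
    have h3 : N.I (fun w => N.v w (r : K)⁻¹) = 0 := (N.toPF.ht_inv r).trans r.2
    rw [h3, add_zero]
    refine (N.I_mul _ _).trans ?_
    rw [hν, zero_add]
    refine (N.toPF.I_prod_le _ _).trans (Finset.sum_eq_zero fun s _ => ?_).le
    rw [N.toPF.I_pow_eq, hμ, mul_zero]

/-- Every relation between the orbit and its derivative holds on the critical orbit. -/
theorem rm1_crit (hH : HypH a c) (h : N.Orb a c z) (l : ℤ) {G : N.toPF.k0[X][X]}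
    (hG : aevalAeval (z l) (N.H.D 1 (z l)) G = 0) (r : ℕ) :
    G.evalEval (vv a c false r) (N.H0.D 1 (vv a c false r)) = 0 := by
  obtain ⟨hQ, hW, hv⟩ := crit_data_zero hH r
  obtain ⟨m, hm⟩ := exists_pull N.H0
    (aevalAeval (MvPolynomial.X (false, 0)) (MvPolynomial.X (false, 1)) G)
  obtain ⟨g, hg⟩ := hm m le_rfl _ _ _ (fun h => hQ (by rw [h, eval_zero]))
    (natDegree_PQ a c (r + 1)).1 (natDegree_PQ a c (r + 1)).2
  obtain ⟨i, rfl⟩ : ∃ i : ℤ, l = i + (r + 1 : ℕ) := ⟨l - (r + 1 : ℕ), by ring⟩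
  have h1 : MvPolynomial.aeval (N.H.jet2 (z i) (z i)) g = 0 := by
    rw [hg.ev K _ fun b => by
      simpa [HD.jet2, HD.D_zero] using (IsOrbit.iter h.orbit i (r + 1)).1,
      ← jet2_orbit N.compat h.orbit h.orbit, rm1_map]
    simp only [MvPolynomial.aeval_X, HD.jet2, HD.D_zero, ite_self]
    rw [hG, mul_zero]
  have h2 := (hg.critx 1 0 0 hW (rm1_on (by simp [box]) (by simp [box]) G)).sub1 (true, 0) 0
  rw [sub1_comm (by simp)] at h2
  have h3 := rm1_const (h2.mono (V' := ∅) (by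
    clear * - h1 h2 i
    rintro ⟨b, i⟩ ⟨⟨h1, h2⟩, h3⟩
    cases b <;> simp_all [box]))
  by_contra h0
  refine (h.ht_pos hH.ne i).1 (ht_eq_zero_of_const _ g h1 ?_ h3)
  have hQ' : aeval (0 : N.toPF.k0) (PQ a c (r + 1)).2 ≠ 0 := by rwa [coe_aeval_eq_eval]
  rw [aeval_sub1_of_eq (by simp), aeval_sub1_of_eq (by simp), hg.ev _ _ fun _ => hQ', rm1_map]
  refine mul_ne_zero (pow_ne_zero _ (mul_ne_zero hQ' hQ')) ?_
  obtain ⟨e0, e1⟩ := jpt_crit N.H0 _ _ (L := N.toPF.k0) (ξ := fun _ => 0) (c := 0) rfl hQ hW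
  simp only [MvPolynomial.aeval_X, jpt2]
  rwa [e0, e1, hv, coe_aevalAeval_eq_evalEval]

/-- (M'). -/
theorem ind_jet1 (hH : HypH a c) (hρ : N.H0.D 1 a ≠ 0 ∨ N.H0.D 1 c ≠ 0) (h : N.Orb a c z)
    (l : ℤ) (G : N.toPF.k0[X][X]) (hG : aevalAeval (z l) (N.H.D 1 (z l)) G = 0) : G = 0 := by
  by_contra h0
  have hp (l : ℤ) : Ind N.toPF.k0 (N.H.jet2 (z l) (z l))
      ({(false, 0), (false, 1)} : Finset Vr) ↔
        ∀ G : N.toPF.k0[X][X], aevalAeval (z l) (N.H.D 1 (z l)) G = 0 → G = 0 := by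
    rw [Finset.coe_pair, ind_pair (by simp)]
    simp only [HD.jet2, HD.D_zero, ite_self]
  have h1 : ∃ G' : N.toPF.k0[X][X], G' ≠ 0 ∧
      aevalAeval (z (l + 1)) (N.H.D 1 (z (l + 1))) G' = 0 := by
    by_contra h1
    refine h0 ((hp l).1 (ind_of_card ((hp (l + 1)).2 fun G' h2 => ?_) (fun s hs => ?_) le_rfl).1 G hG)
    · by_contra h3
      exact h1 ⟨G', h3, h2⟩
    · rw [← rm1_box, acl_box_level N.compat hH.two hH.ne h.orbit h.orbit (h.ne_zero hH.ne)
        (h.ne_zero hH.ne) 2 0 l (l + 1), rm1_box]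
      exact subset_acl _ ⟨s, hs, rfl⟩
  obtain ⟨G', h1, h2⟩ := h1
  obtain ⟨A, hA, dA, mA⟩ := exists_min_rel (h.trans hH.ne l) h0 hG
  obtain ⟨B, hB, dB, mB⟩ := exists_min_rel (h.trans hH.ne (l + 1)) h1 h2
  have h3 : B ∣ A := by
    refine dvd_of_common_points hB dB
      (Set.range fun r => (vv a c false r, N.H0.D 1 (vv a c false r))) ?_ ?_
    · rw [← Set.range_comp]
      exact Set.infinite_range_of_injective hH.vv_inj
    · rintro _ ⟨r, rfl⟩
      exact ⟨rm1_crit hH h _ ((mB B).2 dvd_rfl) r, rm1_crit hH h _ ((mA A).2 dvd_rfl) r⟩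
  have h4 := (mB A).2 h3
  rw [(h.orbit l).2, rm1_D_phi _ (h.orbit l).1] at h4
  have : CharP N.toPF.k0 p := CharP.subring K p N.toPF.k0.toSubring
  obtain ⟨h5, h6⟩ := rm1_inv p hH (N.H0.D 1 a) (N.H0.D 1 c) hA dA (h.trans hH.ne l)
    ((mA A).2 dvd_rfl) (by rw [← N.compat, ← N.compat]; exact h4)
  exact hρ.elim (· h5) (· h6)

end NS

end JR
end

-- merged part: Pool.Agent.Work.MP_969914_nt.RM2
section
/-! Multiple zeros of `F (z)` when `z`, `z'` are independent. -/

set_option autoImplicit false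

namespace JR

open scoped NNReal ENNReal
open Polynomial Filter

/-- The auxiliary polynomial attached to a coefficient table. -/
noncomputable def rm2_th {k : Type} [Field k] {d : ℕ} (c : Fin (d + 1) × Fin (d + 1) → k) :
    MvPolynomial (Fin 2) k :=
  ∑ x : Fin (d + 1) × Fin (d + 1),
    MvPolynomial.C (c x) * (MvPolynomial.X 0 ^ (x.1 : ℕ) * MvPolynomial.X 1 ^ (x.2 : ℕ))

theorem rm2_th_deg {k : Type} [Field k] {d : ℕ} (c : Fin (d + 1) × Fin (d + 1) → k) (s : Fin 2) :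
    (rm2_th c).degreeOf s ≤ d := by
  unfold rm2_th
  refine (MvPolynomial.degreeOf_sum_le _ _ _).trans (Finset.sup_le fun x _ => ?_)
  refine (MvPolynomial.degreeOf_C_mul_le _ _ _).trans ?_
  refine (MvPolynomial.degreeOf_mul_le _ _ _).trans ?_
  have h1 := MvPolynomial.degreeOf_pow_le s (MvPolynomial.X 0 : MvPolynomial (Fin 2) k) x.1
  have h2 := MvPolynomial.degreeOf_pow_le s (MvPolynomial.X 1 : MvPolynomial (Fin 2) k) x.2
  have hx1 := x.1.2
  have hx2 := x.2.2
  rw [MvPolynomial.degreeOf_X] at h1 h2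
  fin_cases s
  · simp at h1 h2 ⊢
    omega
  · simp at h1 h2 ⊢
    omega

theorem rm2_th_ne {k L : Type} [Field k] [Field L] [Algebra k L] {d : ℕ}
    {c : Fin (d + 1) × Fin (d + 1) → k} (hc : ∃ x, c x ≠ 0) {z u : L}
    (hz : ∀ G : k[X][X], aevalAeval z u G = 0 → G = 0) :
    MvPolynomial.aeval ![z, u] (rm2_th c) ≠ 0 := by
  intro h
  obtain ⟨x0, hx0⟩ := hc
  have hG := hz (∑ x : Fin (d + 1) × Fin (d + 1), monomial (x.2 : ℕ) (monomial (x.1 : ℕ) (c x)))
    (by
      rw [← h, rm2_th, map_sum, map_sum]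
      refine Finset.sum_congr rfl fun x _ => ?_
      rw [← C_mul_X_pow_eq_monomial, ← C_mul_X_pow_eq_monomial]
      simp [mul_assoc])
  have h2 := congrArg (fun G : k[X][X] => (G.coeff x0.2).coeff x0.1) hG
  simp only [finsetSum_coeff, coeff_zero] at h2
  rw [Finset.sum_eq_single x0] at h2
  · simp at h2
    exact hx0 h2
  · intro x _ hx
    rw [coeff_monomial]
    split_ifs with h3
    · rw [coeff_monomial, if_neg]
      intro h4
      exact hx (Prod.ext (Fin.ext h4) (Fin.ext h3))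
    · simp
  · simp

theorem rm2_exists {k : Type} [Field k] {F : k[X]} (hF : F ≠ 0) (P Q : k[X]) {d : ℕ}
    (hd : F.natDegree < (d + 1) ^ 2) :
    ∃ c : Fin (d + 1) × Fin (d + 1) → k, (∃ x, c x ≠ 0) ∧ ∃ α β : MvPolynomial (Fin 2) k,
      aeval (MvPolynomial.X 0) P ^ d * rm2_th c = α * aeval (MvPolynomial.X 0) F +
        β * (aeval (MvPolynomial.X 0) P * MvPolynomial.X 1 + aeval (MvPolynomial.X 0) Q) := by
  have : Module.Finite k (AdjoinRoot F) := (AdjoinRoot.powerBasis hF).finite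
  have hr : Module.finrank k (AdjoinRoot F) = F.natDegree := by
    rw [(AdjoinRoot.powerBasis hF).finrank, AdjoinRoot.powerBasis_dim]
  have hdep : ¬ LinearIndependent k (fun x : Fin (d + 1) × Fin (d + 1) =>
      AdjoinRoot.mk F (X ^ (x.1 : ℕ) * ((-Q) ^ (x.2 : ℕ) * P ^ (d - x.2)))) := by
    intro h
    have := h.fintype_card_le_finrank
    rw [hr, Fintype.card_prod, Fintype.card_fin] at this
    rw [sq] at hd
    omega
  obtain ⟨c, hc, hx⟩ := Fintype.not_linearIndependent_iff.1 hdep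
  refine ⟨c, hx, ?_⟩
  have hdv : F ∣ ∑ x : Fin (d + 1) × Fin (d + 1),
      C (c x) * (X ^ (x.1 : ℕ) * ((-Q) ^ (x.2 : ℕ) * P ^ (d - x.2))) := by
    rw [← AdjoinRoot.mk_eq_zero, map_sum, ← hc]
    refine Finset.sum_congr rfl fun x _ => ?_
    rw [map_mul, AdjoinRoot.mk_C, Algebra.smul_def, AdjoinRoot.algebraMap_eq]
  obtain ⟨A, hA⟩ := hdv
  set x0 : MvPolynomial (Fin 2) k := MvPolynomial.X 0 with hx0
  set u : MvPolynomial (Fin 2) k := MvPolynomial.X 1 with hu
  have hdv2 : (aeval x0 P * u + aeval x0 Q) ∣ aeval x0 P ^ d * rm2_th c - aeval x0 (F * A) := by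
    rw [← hA, rm2_th, map_sum, Finset.mul_sum, ← Finset.sum_sub_distrib]
    refine Finset.dvd_sum fun x _ => ?_
    have h1 : (aeval x0 P * u + aeval x0 Q) ∣
        (aeval x0 P * u) ^ (x.2 : ℕ) - (-aeval x0 Q) ^ (x.2 : ℕ) := by
      have := sub_dvd_pow_sub_pow (aeval x0 P * u) (-aeval x0 Q) x.2
      rwa [sub_neg_eq_add] at this
    have h2 : aeval x0 P ^ d = aeval x0 P ^ (x.2 : ℕ) * aeval x0 P ^ (d - x.2) := by
      rw [← pow_add]
      congr 1
      have := x.2.2
      omega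
    have h3 : aeval x0 P ^ d * (MvPolynomial.C (c x) * (x0 ^ (x.1 : ℕ) * u ^ (x.2 : ℕ))) -
        aeval x0 (C (c x) * (X ^ (x.1 : ℕ) * ((-Q) ^ (x.2 : ℕ) * P ^ (d - x.2)))) =
        ((aeval x0 P * u) ^ (x.2 : ℕ) - (-aeval x0 Q) ^ (x.2 : ℕ)) *
          (MvPolynomial.C (c x) * x0 ^ (x.1 : ℕ) * aeval x0 P ^ (d - x.2)) := by
      rw [h2]
      simp only [map_mul, map_pow, map_neg, aeval_X, aeval_C, MvPolynomial.algebraMap_eq, mul_pow]
      ring
    rw [h3]
    exact h1.mul_right _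
  obtain ⟨β, hβ⟩ := hdv2
  refine ⟨aeval x0 A, β, ?_⟩
  rw [map_mul] at hβ
  linear_combination hβ

theorem rm2_aeval_comp {k L : Type} [Field k] [Field L] [Algebra k L] (z u : L) (P : k[X]) :
    MvPolynomial.aeval ![z, u] (aeval (MvPolynomial.X 0 : MvPolynomial (Fin 2) k) P) =
      aeval z P := by
  rw [← aeval_algHom_apply]
  simp

namespace PF
variable {K Γ : Type} [Field K] [LinearOrderedCommGroupWithZero Γ] (N : PF K Γ)

/-- Negligible functions. -/
def rm2_Negl (ν : N.W → Γ) : Prop := N.I ν = 0 ∧ ∀ w, 1 ≤ ν w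

variable {N}

theorem rm2_Negl.mul {μ ν : N.W → Γ} (h1 : N.rm2_Negl μ) (h2 : N.rm2_Negl ν) :
    N.rm2_Negl fun w => μ w * ν w := by
  refine ⟨le_antisymm ((N.I_mul μ ν).trans (by rw [h1.1, h2.1, add_zero])) bot_le, fun w => ?_⟩
  exact one_le_mul (h1.2 w) (h2.2 w)

theorem rm2_Negl.pow {μ : N.W → Γ} (h1 : N.rm2_Negl μ) (n : ℕ) :
    N.rm2_Negl fun w => μ w ^ n :=
  ⟨by rw [N.I_pow_eq, h1.1, mul_zero], fun w => one_le_pow₀ (h1.2 w)⟩

theorem rm2_negl_const (c : N.k0) : N.rm2_Negl fun w => max 1 (N.v w c) :=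
  ⟨by rw [N.I_max_one]; exact c.2, fun _ => le_max_left _ _⟩

theorem rm2_negl_prod {ι : Type} (s : Finset ι) (f : ι → N.W → Γ)
    (h : ∀ i ∈ s, N.rm2_Negl (f i)) : N.rm2_Negl fun w => ∏ i ∈ s, f i w := by
  refine ⟨le_antisymm ((N.I_prod_le s f).trans (le_of_eq ?_)) bot_le, fun w => ?_⟩
  · exact Finset.sum_eq_zero fun i hi => (h i hi).1
  · exact Finset.one_le_prod' fun i hi => (h i hi).2 w

theorem rm2_aeval_bound {σ : Type} (f : MvPolynomial σ N.k0) {μ : N.W → Γ}
    (hμ : N.rm2_Negl μ) : ∃ ν, N.rm2_Negl ν ∧ ∀ (w : N.W) (ω : σ → K),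
      (∀ s, N.v w (ω s) ≤ μ w) → N.v w (MvPolynomial.aeval ω f) ≤ ν w := by
  obtain ⟨ν, h0, h1, h⟩ := N.v_aeval_le f
  refine ⟨fun w => ν w * ∏ s ∈ f.vars, μ w ^ f.degreeOf s, rm2_Negl.mul ⟨h0, h1⟩
    (rm2_negl_prod _ (fun s w => μ w ^ f.degreeOf s) fun s _ => hμ.pow _), fun w ω hω => ?_⟩
  refine (h w ω).trans (mul_le_mul' le_rfl (Finset.prod_le_prod' fun s _ => ?_))
  exact pow_le_pow_left' (max_le (hμ.2 w) (hω s)) _

theorem rm2_big {F : N.k0[X]} (hF : F ≠ 0) : ∃ μ, N.rm2_Negl μ ∧ ∀ (w : N.W) (z : K),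
    N.v w z ≤ μ w ∨ 1 ≤ μ w * N.v w (aeval z F) := by
  set n := F.natDegree with hn
  have hl : ((F.coeff n : N.k0) : K) ≠ 0 := by
    have : F.coeff n ≠ 0 := leadingCoeff_ne_zero.2 hF
    exact_mod_cast this
  refine ⟨fun w => (∏ i ∈ Finset.range n, max 1 (N.v w (F.coeff i))) *
      max 1 (N.v w ((F.coeff n)⁻¹ : N.k0)),
    (rm2_negl_prod _ (fun i w => max 1 (N.v w (F.coeff i))) fun i _ => rm2_negl_const _).mul
      (rm2_negl_const _), fun w z => ?_⟩
  beta_reduce
  set A := ∏ i ∈ Finset.range n, max 1 (N.v w (F.coeff i)) with hA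
  have hA1 : 1 ≤ A := Finset.one_le_prod' fun i _ => le_max_left _ _
  have hAi : ∀ i ∈ Finset.range n, N.v w (F.coeff i) ≤ A := fun i hi =>
    (le_max_right 1 _).trans (Finset.single_le_prod' (f := fun i => max 1 (N.v w (F.coeff i)))
      (fun j _ => le_max_left _ _) hi)
  set l := N.v w (F.coeff n) with hlv
  have hl0 : l ≠ 0 := (N.v w).ne_zero_iff.2 hl
  have hlp : 0 < l := zero_lt_iff.2 hl0
  have hinv : N.v w ((F.coeff n)⁻¹ : N.k0) = l⁻¹ := by
    rw [hlv, ← map_inv₀]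
    rfl
  rw [hinv]
  by_cases hz : N.v w z ≤ A * max 1 l⁻¹
  · exact Or.inl hz
  right
  push Not at hz
  have hz1 : 1 < N.v w z := lt_of_le_of_lt (one_le_mul hA1 (le_max_left _ _)) hz
  have hz0 : 0 < N.v w z := zero_lt_one.trans hz1
  have hAl : A < l * N.v w z := by
    have h1 : A * l⁻¹ < N.v w z := lt_of_le_of_lt (mul_le_mul' le_rfl (le_max_right _ _)) hz
    rwa [mul_inv_lt_iff₀' hlp] at h1
  have htop : N.v w ((F.coeff n : K) * z ^ n) = l * N.v w z ^ n := by
    rw [map_mul, map_pow]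
  have hlow : N.v w (∑ i ∈ Finset.range n, (F.coeff i : K) * z ^ i) <
      N.v w ((F.coeff n : K) * z ^ n) := by
    refine (N.v w).map_sum_lt (by rw [htop]; exact mul_ne_zero hl0 (pow_ne_zero _ hz0.ne'))
      fun i hi => ?_
    rw [htop, map_mul, map_pow]
    have hi' := Finset.mem_range.1 hi
    calc N.v w (F.coeff i) * N.v w z ^ i ≤ A * N.v w z ^ i := mul_le_mul' (hAi i hi) le_rfl
      _ < l * N.v w z * N.v w z ^ i := mul_lt_mul_of_pos_right hAl (pow_pos hz0 _)
      _ = l * N.v w z ^ (i + 1) := by rw [pow_succ', mul_assoc]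
      _ ≤ l * N.v w z ^ n := mul_le_mul' le_rfl (pow_le_pow_right₀ hz1.le hi')
  have hev : aeval z F = ∑ i ∈ Finset.range n, (F.coeff i : K) * z ^ i +
      (F.coeff n : K) * z ^ n := by
    rw [aeval_eq_sum_range, Finset.sum_range_succ]
    simp only [Algebra.smul_def]
    rfl
  rw [hev, (N.v w).map_add_eq_of_lt_right hlow, htop]
  calc (1 : Γ) = 1 * l⁻¹ * (l * 1) := by field_simp
    _ ≤ A * max 1 l⁻¹ * (l * N.v w z ^ n) :=
      mul_le_mul' (mul_le_mul' hA1 (le_max_right _ _)) (mul_le_mul' le_rfl (one_le_pow₀ hz1.le))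

end PF

namespace NS
variable {p : ℕ} {K Γ : Type} [Field K] [LinearOrderedCommGroupWithZero Γ] {N : NS p K Γ}

theorem rm2_q_pos : 0 < N.q := zero_lt_one.trans N.one_lt_q

theorem rm2_big2 {F : N.toPF.k0[X]} (hF : F ≠ 0) (z : K) : ∃ μ, N.toPF.rm2_Negl μ ∧ ∀ w : N.W,
    (N.v w z ≤ μ w ∧ N.v w (N.H.D 1 z) ≤ μ w) ∨ 1 ≤ μ w * N.v w (aeval z F) := by
  classical
  obtain ⟨μ, hμ, h⟩ := PF.rm2_big hF
  obtain ⟨ν, h0, h1, hν⟩ := N.exists_D_bound z 1
  set E : Set N.W := {w | 1 < N.v w z ∧ N.v w z ≤ μ w} with hE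
  have hm : N.toPF.mass E = 0 := by
    have h2 : N.toPF.mass E ≤ N.toPF.mass {w | N.q ^ 1 ≤ μ w} := by
      refine N.toPF.mass_mono_ae ?_
      filter_upwards [N.ae_good, N.ae_reg z⁻¹] with w hg hr hw
      have hz0 : 0 < N.v w z := zero_lt_one.trans hw.1
      have h3 := N.disc w hg z⁻¹ hr (by rw [map_inv₀]; exact inv_lt_one_of_one_lt₀ hw.1)
      rw [map_inv₀, inv_le_inv₀ hz0 rm2_q_pos] at h3
      show N.q ^ 1 ≤ μ w
      rw [pow_one]
      exact h3.trans hw.2
    have h3 := N.toPF.mass_le_I (f := μ) (E := {w | N.q ^ 1 ≤ μ w}) (m := 1) fun w hw => hw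
    rw [hμ.1, Nat.cast_one, one_mul] at h3
    exact le_antisymm (h2.trans h3) bot_le
  have hind : N.toPF.rm2_Negl fun w => if w ∈ E then N.q else 1 := by
    refine ⟨by rw [← hm]; unfold PF.mass; congr; funext w; congr, fun w => ?_⟩
    show 1 ≤ if w ∈ E then N.q else 1
    split_ifs
    · exact N.one_lt_q.le
    · exact le_rfl
  refine ⟨fun w => ν w * ((if w ∈ E then N.q else 1) * μ w),
    PF.rm2_Negl.mul ⟨h0, h1⟩ (hind.mul hμ), fun w => ?_⟩
  have hle : μ w ≤ ν w * ((if w ∈ E then N.q else 1) * μ w) :=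
    le_mul_of_one_le_of_le (h1 w) (le_mul_of_one_le_left' (hind.2 w))
  rcases h w z with hz | hz
  · refine Or.inl ⟨hz.trans hle, ?_⟩
    by_cases hz1 : N.v w z ≤ 1
    · exact ((hν w).1 hz1).trans (le_mul_of_one_le_right' (one_le_mul (hind.2 w) (hμ.2 w)))
    · have hw : w ∈ E := ⟨not_le.1 hz1, hz⟩
      refine (hν w).2.trans ?_
      show _ ≤ ν w * ((if w ∈ E then N.q else 1) * μ w)
      rw [if_pos hw, pow_one]
      exact mul_le_mul' le_rfl (mul_le_mul' le_rfl hz)
  · exact Or.inr (hz.trans (mul_le_mul' hle le_rfl))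

/-- The analytic step for the excess. -/
theorem rm2_exc_le {F : N.toPF.k0[X]} (hF : F ≠ 0) (z : K) (α β : MvPolynomial (Fin 2) N.toPF.k0)
    {T : K} (hT : T ≠ 0) (h : T = MvPolynomial.aeval ![z, N.H.D 1 z] α * aeval z F +
      MvPolynomial.aeval ![z, N.H.D 1 z] β * N.H.D 1 (aeval z F)) :
    N.toPF.exc (aeval z F) ≤ N.toPF.ht T := by
  obtain ⟨μ, hμ, hb⟩ := rm2_big2 hF z
  obtain ⟨να, hα, hα'⟩ := PF.rm2_aeval_bound α hμ
  obtain ⟨νβ, hβ, hβ'⟩ := PF.rm2_aeval_bound β hμ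
  obtain ⟨ν, h0, h1, hν⟩ := N.exists_D_bound (aeval z F) 1
  have hneg := hμ.mul (hα.mul (hβ.mul ⟨h0, h1⟩))
  have key : ∀ w, (N.q * N.v w (aeval z F))⁻¹ ≤
      (μ w * (να w * (νβ w * ν w))) * max 1 (N.v w T⁻¹) := by
    intro w
    set f := N.v w (aeval z F) with hf
    by_cases hf0 : f = 0
    · rw [hf0, mul_zero, inv_zero]
      exact zero_le
    have hfp : 0 < f := zero_lt_iff.2 hf0
    have hqf : 0 < N.q * f := mul_pos rm2_q_pos hfp
    have hfq : f ≤ N.q * f := le_mul_of_one_le_left' N.one_lt_q.le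
    rw [inv_le_iff_one_le_mul₀ hqf]
    rcases hb w with hz | hz
    · have hω : ∀ s, N.v w (![z, N.H.D 1 z] s) ≤ μ w := by
        intro s
        fin_cases s
        · exact hz.1
        · exact hz.2
      have hT0 : N.v w T ≠ 0 := (N.v w).ne_zero_iff.2 hT
      have hTle : N.v w T ≤ (να w * (νβ w * ν w)) * (N.q * f) := by
        rw [h]
        refine (N.v w).map_add_le ?_ ?_
        · rw [map_mul]
          exact mul_le_mul' ((hα' w _ hω).trans
            (le_mul_of_one_le_right' (one_le_mul (hβ.2 w) (h1 w)))) hfq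
        · rw [map_mul]
          have h2 := (hν w).2
          rw [pow_one] at h2
          calc _ ≤ νβ w * (ν w * (N.q * f)) := mul_le_mul' (hβ' w _ hω) h2
            _ = 1 * (νβ w * ν w) * (N.q * f) := by rw [one_mul, mul_assoc]
            _ ≤ _ := mul_le_mul' (mul_le_mul' (hα.2 w) le_rfl) le_rfl
      calc (1 : Γ) = 1 * (N.v w T * (N.v w T)⁻¹) := by rw [mul_inv_cancel₀ hT0, one_mul]
        _ ≤ μ w * (((να w * (νβ w * ν w)) * (N.q * f)) * max 1 (N.v w T⁻¹)) := by
          refine mul_le_mul' (hμ.2 w) (mul_le_mul' hTle ?_)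
          rw [map_inv₀]
          exact le_max_right _ _
        _ = _ := by simp only [mul_assoc, mul_comm, mul_left_comm]
    · refine hz.trans (mul_le_mul' ?_ hfq)
      exact le_mul_of_le_of_one_le (le_mul_of_one_le_right'
        (one_le_mul (hα.2 w) (one_le_mul (hβ.2 w) (h1 w)))) (le_max_left _ _)
  calc N.toPF.exc (aeval z F) ≤ N.I fun w =>
        (μ w * (να w * (νβ w * ν w))) * max 1 (N.v w T⁻¹) := N.toPF.I_le key
    _ ≤ N.I (fun w => μ w * (να w * (νβ w * ν w))) + N.I fun w => max 1 (N.v w T⁻¹) :=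
        N.I_mul _ _
    _ = N.toPF.ht T := by
        rw [hneg.1, zero_add, N.toPF.I_max_one, ← N.toPF.ht_inv T]
        rfl

theorem rm2_sum_le (z : K) (d : ℕ) :
    ∑ s : Fin 2, ((d : ℕ) : ℝ≥0∞) * N.toPF.ht (![z, N.H.D 1 z] s) ≤ 3 * d * N.toPF.ht z := by
  have h := N.ht_D_le z 1
  rw [Fin.sum_univ_two]
  calc _ ≤ d * N.toPF.ht z + d * ((((1 : ℕ) : ℝ≥0∞) + 1) * N.toPF.ht z) :=
        add_le_add le_rfl (mul_le_mul' le_rfl h)
    _ = 3 * d * N.toPF.ht z := by
        push_cast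
        ring

theorem mass_multiple_le {z : K}
    (hz : ∀ G : N.toPF.k0[X][X], aevalAeval z (N.H.D 1 z) G = 0 → G = 0)
    {F : N.toPF.k0[X]} (hF : F ≠ 0) {d : ℕ} (hd : F.natDegree < (d + 1) ^ 2) :
    N.toPF.mass {w | N.v w (aeval z F) ≤ N.q⁻¹ ^ 2 ∧ N.v w (aeval z (derivative F)) = 1 ∧
      N.v w z ≤ 1} ≤ 3 * d * N.toPF.ht z := by
  obtain ⟨c, hc, α, β, h⟩ := rm2_exists hF (derivative F)
    (F.sum fun i a => monomial i (N.H0.D 1 a)) hd
  have h1 := congrArg (MvPolynomial.aeval ![z, N.H.D 1 z]) h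
  simp only [map_mul, map_add, map_pow, rm2_aeval_comp, MvPolynomial.aeval_X,
    Matrix.cons_val_one, Matrix.cons_val_zero] at h1
  rw [← N.H.D1_aeval N.compat F z] at h1
  refine (N.mass_le_of_aux (rm2_th c) ![z, N.H.D 1 z] Finset.univ (fun _ => d)
    (fun s hs => absurd (by simp) hs) (fun s _ => rm2_th_deg c s) (rm2_th_ne hc hz) ?_).trans
    (rm2_sum_le z d)
  filter_upwards [N.ae_jet_int z 1, N.ae_aeval_int α, N.ae_aeval_int β,
    N.ae_double (aeval z F)] with w hj hα hβ hD hw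
  have hω : ∀ s, N.v w (![z, N.H.D 1 z] s) ≤ 1 := by
    intro s
    fin_cases s
    · exact hw.2.2
    · exact hj hw.2.2
  have h2 := congrArg (N.v w) h1
  rw [map_mul, map_pow, hw.2.1, one_pow, one_mul] at h2
  rw [h2]
  have hq : N.q⁻¹ ^ 2 < 1 :=
    pow_lt_one₀ zero_le (inv_lt_one_of_one_lt₀ N.one_lt_q) two_ne_zero
  refine (N.v w).map_add_lt ?_ ?_
  · rw [map_mul]
    exact mul_lt_one_of_nonneg_of_lt_one_right (hα _ fun s _ => hω s) zero_le
      (hw.1.trans_lt hq)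
  · rw [map_mul]
    exact mul_lt_one_of_nonneg_of_lt_one_right (hβ _ fun s _ => hω s) zero_le (hD hw.1)

theorem exc_le {z : K}
    (hz : ∀ G : N.toPF.k0[X][X], aevalAeval z (N.H.D 1 z) G = 0 → G = 0)
    {F : N.toPF.k0[X]} (hF : F.Separable) {d : ℕ} (hd : F.natDegree < (d + 1) ^ 2) :
    N.toPF.exc (aeval z F) ≤ 3 * d * N.toPF.ht z := by
  obtain ⟨c, hc, α, β, h⟩ := rm2_exists hF.ne_zero (derivative F)
    (F.sum fun i a => monomial i (N.H0.D 1 a)) hd
  have h1 := congrArg (MvPolynomial.aeval ![z, N.H.D 1 z]) h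
  simp only [map_mul, map_add, map_pow, rm2_aeval_comp, MvPolynomial.aeval_X,
    Matrix.cons_val_one, Matrix.cons_val_zero] at h1
  rw [← N.H.D1_aeval N.compat F z] at h1
  obtain ⟨A, B, hAB⟩ := (IsCoprime.pow_right hF : IsCoprime F (derivative F ^ d))
  have h2 := congrArg (aeval z) hAB
  simp only [map_mul, map_add, map_pow, map_one] at h2
  refine (rm2_exc_le hF.ne_zero z
    (aeval (MvPolynomial.X 0) A * rm2_th c + aeval (MvPolynomial.X 0) B * α)
    (aeval (MvPolynomial.X 0) B * β) (rm2_th_ne hc hz) ?_).trans ?_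
  · simp only [map_mul, map_add, rm2_aeval_comp]
    linear_combination aeval z B * h1 - MvPolynomial.aeval ![z, N.H.D 1 z] (rm2_th c) * h2
  · exact (N.toPF.ht_aeval_le (rm2_th c) ![z, N.H.D 1 z] Finset.univ (fun _ => d)
      (fun s hs => absurd (by simp) hs) (fun s _ => rm2_th_deg c s)).trans (rm2_sum_le z d)

/-- The case `z' = 0`: no multiple zeros at points with nonzero derivative. -/
theorem exc_eq_zero_of_D {z : K} (hz : N.H.D 1 z = 0) (S : Finset N.toPF.k0)
    (hS : ∀ s ∈ S, N.H0.D 1 s ≠ 0) : N.toPF.exc (aeval z (∏ s ∈ S, (X - C s))) = 0 := by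
  set F : N.toPF.k0[X] := ∏ s ∈ S, (X - C s) with hF
  have hsep : F.Separable := separable_prod_X_sub_C_iff'.2 fun _ _ _ _ h => h
  set Q : N.toPF.k0[X] := F.sum fun i a => monomial i (N.H0.D 1 a) with hQ
  have hcop : IsCoprime F Q := by
    refine IsCoprime.prod_left fun s hs => ?_
    rw [(irreducible_X_sub_C s).coprime_iff_not_dvd, dvd_iff_isRoot]
    intro hr
    have h0 : aeval (algebraMap N.toPF.k0 K s) F = 0 := by
      rw [aeval_algebraMap_apply, coe_aeval_eq_eval, hF, eval_prod,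
        Finset.prod_eq_zero hs (by simp), map_zero]
    have h1 := N.H.D1_aeval N.compat F (algebraMap N.toPF.k0 K s)
    rw [h0, HD.D_of_zero, ← hQ, aeval_algebraMap_apply K s Q, coe_aeval_eq_eval, hr.eq_zero,
      map_zero, add_zero, N.compat 1 s] at h1
    rcases mul_eq_zero.1 h1.symm with h2 | h2
    · exact hsep.aeval_derivative_ne_zero h0 h2
    · exact hS s hs ((map_eq_zero _).1 h2)
  obtain ⟨A, B, hAB⟩ := hcop
  have h2 := congrArg (aeval z) hAB
  simp only [map_mul, map_add, map_one] at h2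
  have h3 := rm2_exc_le hsep.ne_zero z (aeval (MvPolynomial.X 0) A) (aeval (MvPolynomial.X 0) B)
    (one_ne_zero (α := K)) (by
      rw [rm2_aeval_comp, rm2_aeval_comp, N.H.D1_aeval N.compat F z, hz, mul_zero, zero_add, ← hQ]
      exact h2.symm)
  have h4 : N.toPF.ht 1 = 0 := N.toPF.k0.one_mem
  rw [h4] at h3
  exact le_antisymm h3 bot_le

theorem rm2_v_prod (S : Finset N.toPF.k0) (w : N.W) (z : K) :
    N.v w (aeval z (∏ s ∈ S, (X - C s))) = ∏ s ∈ S, N.v w (z - s) := by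
  rw [map_prod, map_prod]
  refine Finset.prod_congr rfl fun s _ => ?_
  rw [map_sub, aeval_X, aeval_C]
  rfl

theorem rm2_prod_sub (S : Finset N.toPF.k0) : ∀ᶠ w in N.toPF.ae, ∀ z : K,
    ((∀ s ∈ S, 1 ≤ N.v w (z - s)) → 1 ≤ N.v w (aeval z (∏ s ∈ S, (X - C s)))) ∧
    ∀ s ∈ S, N.v w (z - s) < 1 → N.v w z ≤ 1 ∧ (∀ s' ∈ S, s' ≠ s → N.v w (z - s') = 1) ∧
      N.v w (aeval z (∏ s ∈ S, (X - C s))) = N.v w (z - s) := by
  classical
  have h1 : ∀ᶠ w in N.toPF.ae, ∀ s ∈ S, N.v w (s : K) ≤ 1 :=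
    (eventually_all_finset S).2 fun s _ => N.ae_int s.2
  have h2 : ∀ᶠ w in N.toPF.ae, ∀ s ∈ S, ∀ s' ∈ S, s' ≠ s → N.v w ((s : K) - s') = 1 := by
    refine (eventually_all_finset S).2 fun s _ => (eventually_all_finset S).2 fun s' _ => ?_
    by_cases h : s' = s
    · exact Eventually.of_forall fun w hw => absurd h hw
    · have h3 : (s : K) - s' ≠ 0 := fun h4 => h (Subtype.ext (sub_eq_zero.1 h4).symm)
      exact (N.ae_unit (N.toPF.k0.sub_mem s.2 s'.2) h3).mono fun w hw _ => hw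
  filter_upwards [h1, h2] with w hw1 hw2 z
  refine ⟨fun h => ?_, fun s hs h => ?_⟩
  · rw [rm2_v_prod]
    exact Finset.one_le_prod' h
  have h3 : ∀ s' ∈ S, s' ≠ s → N.v w (z - s') = 1 := by
    intro s' hs' hne
    have h4 := hw2 s hs s' hs' hne
    have h5 : z - s' = (z - s) + ((s : K) - s') := by ring
    rw [h5, (N.v w).map_add_eq_of_lt_right (by rw [h4]; exact h), h4]
  refine ⟨?_, h3, ?_⟩
  · have h5 : z = (z - s) + (s : K) := by ring
    rw [h5]
    exact (N.v w).map_add_le h.le (hw1 s hs)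
  · rw [rm2_v_prod, Finset.prod_eq_single s (fun s' hs' hne => h3 s' hs' hne)
      fun h6 => absurd hs h6]

/-- Consequences of vanishing excess. -/
theorem simple_of_exc {z : K} (hz : Transcendental N.toPF.k0 z) (S : Finset N.toPF.k0)
    (h : N.toPF.exc (aeval z (∏ s ∈ S, (X - C s))) = 0) :
    S.card * N.toPF.ht z ≤ N.toPF.mass {w | ∃ s ∈ S, N.v w (z - s) < 1} ∧
      ∀ᶠ w in N.toPF.ae, ∀ s ∈ S, N.v w (z - s) < 1 → N.v w (z - s) = N.q⁻¹ := by
  have hm : (∏ s ∈ S, (X - C s) : N.toPF.k0[X]).Monic := monic_prod_X_sub_C _ _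
  have hf : aeval z (∏ s ∈ S, (X - C s) : N.toPF.k0[X]) ≠ 0 := fun h0 => hz ⟨_, hm.ne_zero, h0⟩
  constructor
  · have h1 := N.toPF.ht_poly hm.ne_zero z
    rw [natDegree_finsetProd_X_sub_C_eq_card] at h1
    have h2 := N.toPF.ht_le_mass_add_exc (aeval z (∏ s ∈ S, (X - C s) : N.toPF.k0[X]))
    rw [h, add_zero, h1] at h2
    refine h2.trans (N.toPF.mass_mono fun w hw => ?_)
    by_contra hne
    have h3 : ∀ s ∈ S, 1 ≤ N.v w (z - s) := fun s hs => not_lt.1 fun h4 => hne ⟨s, hs, h4⟩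
    have h5 : N.v w (aeval z (∏ s ∈ S, (X - C s) : N.toPF.k0[X])) < 1 := hw
    rw [rm2_v_prod] at h5
    exact absurd (Finset.one_le_prod' h3) (not_le.2 h5)
  · have h1 : ∀ᶠ w in N.toPF.ae,
        ¬ N.v w (aeval z (∏ s ∈ S, (X - C s) : N.toPF.k0[X])) ≤ N.q⁻¹ ^ 2 := by
      rw [PF.eventually_ae_iff]
      have h2 := N.toPF.mass_le_exc hf
      rw [h] at h2
      simpa only [not_not] using le_antisymm h2 bot_le
    have h2 : ∀ᶠ w in N.toPF.ae, ∀ s ∈ S, z - s ∈ N.R w :=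
      (eventually_all_finset S).2 fun s _ => N.ae_reg _
    filter_upwards [h1, h2, N.ae_good, rm2_prod_sub S] with w hw1 hw2 hg hp s hs hlt
    rw [((hp z).2 s hs hlt).2.2] at hw1
    have h3 := N.disc w hg _ (hw2 s hs) hlt
    refine h3.antisymm (not_lt.1 fun h4 => hw1 ?_)
    obtain ⟨τ, hτ, hv, -⟩ := N.tau w hg
    have hqi : 0 < N.q⁻¹ := inv_pos.2 rm2_q_pos
    have h5 := N.disc w hg ((z - s) / τ) ((N.R w).div_mem (hw2 s hs) hτ) (by
      rw [map_div₀, hv, div_lt_one₀ hqi]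
      exact h4)
    rwa [map_div₀, hv, div_le_iff₀ hqi, ← sq] at h5

/-- Distinct constants are distinct at almost every place. -/
theorem ae_prod_sub (S : Finset N.toPF.k0) : ∀ᶠ w in N.toPF.ae, ∀ z : K,
    ((∀ s ∈ S, 1 ≤ N.v w (z - s)) → 1 ≤ N.v w (aeval z (∏ s ∈ S, (X - C s)))) ∧
    ∀ s ∈ S, N.v w (z - s) < 1 → N.v w z ≤ 1 ∧ (∀ s' ∈ S, s' ≠ s → N.v w (z - s') = 1) ∧
      N.v w (aeval z (∏ s ∈ S, (X - C s))) = N.v w (z - s) := rm2_prod_sub S

end NS

end JR
end

-- merged part: Pool.Agent.Work.MP_969914_nt.RM3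
section
/-! Simple zeros along an orbit; critical passages. -/

set_option autoImplicit false

namespace JR

open scoped NNReal ENNReal
open Polynomial Filter

namespace NS
variable {p : ℕ} [Fact p.Prime] {K Γ : Type} [Field K] [CharP K p]
  [LinearOrderedCommGroupWithZero Γ] {N : NS p K Γ} {a c : N.toPF.k0} {z : ℤ → K}

omit [Fact p.Prime] [CharP K p] in
theorem rm3_v_le (w : N.W) (f : N.toPF.k0[X]) {n : ℕ} (hn : f.natDegree ≤ n) {γ : Γ}
    (hγ : ∀ i ≤ n, N.v w (f.coeff i) ≤ γ) (x : K) :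
    N.v w (aeval x f) ≤ γ * max 1 (N.v w x) ^ n := by
  rw [aeval_eq_sum_range' (Nat.lt_succ_of_le hn)]
  refine (N.v w).map_sum_le fun i hi => ?_
  have hi' := Nat.lt_succ_iff.1 (Finset.mem_range.1 hi)
  rw [Algebra.smul_def, map_mul, map_pow]
  exact mul_le_mul' (hγ i hi') ((pow_le_pow_left₀ zero_le (le_max_right _ _) i).trans
    (pow_le_pow_right₀ (le_max_left _ _) hi'))

omit [Fact p.Prime] [CharP K p] in
theorem rm3_nu {ι : Type} (s : Finset ι) (f : ι → N.toPF.k0) : ∃ ν : N.W → Γ, N.I ν = 0 ∧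
    (∀ w, 1 ≤ ν w) ∧ ∀ w, ∀ i ∈ s, N.v w (f i) ≤ ν w := by
  classical
  refine ⟨fun w => ∏ i ∈ s, max 1 (N.v w (f i)), le_antisymm ((N.toPF.I_prod_le s _).trans
    (Finset.sum_eq_zero fun i _ => (N.toPF.I_max_one _).trans (f i).2).le) zero_le,
    fun w => Finset.one_le_prod' fun i _ => le_max_left _ _, fun w i hi => ?_⟩
  exact (le_max_right _ _).trans (Finset.single_le_prod' (f := fun i => max 1 (N.v w (f i)))
    (fun i _ => le_max_left _ _) hi)

omit [Fact p.Prime] [CharP K p] in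
theorem rm3_ae_le (f : N.toPF.k0[X]) {n : ℕ} (hn : f.natDegree ≤ n) :
    ∀ᶠ w in N.toPF.ae, ∀ x : K, N.v w (aeval x f) ≤ max 1 (N.v w x) ^ n := by
  filter_upwards [(eventually_all_finset (Finset.range (n + 1))).2
    fun i _ => N.ae_int (f.coeff i).2] with w hw x
  simpa using rm3_v_le w f hn (fun i hi => hw i (Finset.mem_range.2 (Nat.lt_succ_of_le hi))) x

omit [Fact p.Prime] [CharP K p] in
theorem rm3_v_big (w : N.W) (Z : Finset N.toPF.k0) {x : K} (h : ∀ ζ ∈ Z, N.v w ζ < N.v w x) :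
    N.v w (aeval x (∏ ζ ∈ Z, (X - C ζ))) = N.v w x ^ Z.card := by
  rw [map_prod, map_prod, ← Finset.prod_const]
  refine Finset.prod_congr rfl fun ζ hζ => ?_
  rw [map_sub, aeval_X, aeval_C]
  exact (N.v w).map_sub_eq_of_lt_left (h ζ hζ)

omit [Fact p.Prime] [CharP K p] in
theorem rm3_pull (hz : IsOrbit (a : K) c z) (S : Finset N.toPF.k0) (j : ℕ) (l : ℤ) :
    aeval (z (l + j)) (∏ s ∈ S, (X - C s)) * aeval (z l) (PQ a c j).2 ^ S.card =
      aeval (z l) (pullS a c j S) := by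
  obtain ⟨h1, h2⟩ := IsOrbit.iter (k0 := N.toPF.k0) hz l j
  rw [pullS, map_prod, map_prod, ← Finset.prod_const, ← Finset.prod_mul_distrib]
  refine Finset.prod_congr rfl fun s _ => ?_
  rw [map_sub, map_sub, map_mul, aeval_X, aeval_C, aeval_C, h2, sub_mul, div_mul_cancel₀ _ h1]

theorem exc_pull_le (hac : a ≠ c) (hz : IsOrbit (a : K) c z) {S Z : Finset N.toPF.k0} {j : ℕ}
    (hZ : Splits a c (pullS a c j S) (2 ^ j * S.card) Z) (l : ℤ) :
    N.toPF.exc (aeval (z (l + j)) (∏ s ∈ S, (X - C s))) ≤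
      N.toPF.exc (aeval (z l) (∏ ζ ∈ Z, (X - C ζ))) := by
  obtain ⟨lam, h0, hl⟩ := hZ.eq
  have hQ := (IsOrbit.iter (k0 := N.toPF.k0) hz l j).1
  have e := rm3_pull hz S j l
  rw [hl, map_mul, aeval_C] at e
  obtain ⟨ν₀, h1, h2, h3⟩ := rm3_nu (N := N) Z id
  obtain ⟨ν₁, k1, k2, k3⟩ := rm3_nu (N := N) (Finset.range (2 ^ j + 1)) (PQ a c j).2.coeff
  let ν : N.W → Γ := fun w => N.v w (lam⁻¹ : N.toPF.k0) * (ν₁ w * ν₀ w ^ 2 ^ j) ^ S.card
  have hν : N.I ν = 0 := by
    refine le_antisymm ((N.I_mul _ _).trans (le_of_eq ?_)) zero_le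
    have h4 := N.I_mul ν₁ fun w => ν₀ w ^ 2 ^ j
    rw [N.toPF.I_pow_eq, h1, k1, mul_zero, add_zero] at h4
    rw [N.toPF.I_pow_eq, le_antisymm h4 zero_le, mul_zero, add_zero]
    exact (lam⁻¹).2
  refine le_trans (N.toPF.I_le (g := fun w => ν w *
    max 1 (N.q * N.v w (aeval (z l) (∏ ζ ∈ Z, (X - C ζ))))⁻¹) fun w => ?_)
    ((N.I_mul _ _).trans (by rw [hν, zero_add, N.toPF.I_max_one]; rfl))
  have h4 := rm3_v_le w _ (natDegree_PQ a c j).2
    (fun i hi => k3 w i (Finset.mem_range.2 (Nat.lt_succ_of_le hi))) (z l)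
  have h5 : (N.q * N.v w (aeval (z (l + j)) (∏ s ∈ S, (X - C s))))⁻¹ =
      N.v w (lam⁻¹ : N.toPF.k0) * (N.v w (aeval (z l) (PQ a c j).2) ^ S.card *
        (N.q * N.v w (aeval (z l) (∏ ζ ∈ Z, (X - C ζ))))⁻¹) := by
    rw [eq_div_of_mul_eq (pow_ne_zero _ hQ) e, map_div₀, map_mul, map_pow, Subfield.coe_inv,
      map_inv₀, mul_inv, mul_inv, inv_div, div_eq_mul_inv, mul_inv]
    simp only [mul_left_comm]
    rfl
  rw [h5, mul_assoc]
  refine mul_le_mul_right ?_ _
  rcases le_or_gt (N.v w (z l)) (ν₀ w) with h6 | h6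
  · exact mul_le_mul' (pow_le_pow_left₀ zero_le (h4.trans (mul_le_mul_right
      (pow_le_pow_left₀ zero_le (max_le (h2 w) h6) _) _)) _) (le_max_right _ _)
  · have h7 := (h2 w).trans_lt h6
    rw [max_eq_right h7.le] at h4
    rw [rm3_v_big w Z fun ζ hζ => (h3 w ζ hζ).trans_lt h6, hZ.card]
    refine le_trans ?_ (le_mul_of_one_le_right' (le_max_left _ _))
    rw [← div_eq_mul_inv, div_le_iff₀ (mul_pos (zero_lt_one.trans N.one_lt_q)
      (pow_pos (zero_lt_one.trans h7) _))]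
    refine (pow_le_pow_left₀ zero_le h4 _).trans ?_
    rw [mul_pow, ← pow_mul]
    exact mul_le_mul' (pow_le_pow_left₀ zero_le
      (le_mul_of_one_le_right' (one_le_pow₀ (h2 w))) _) (le_mul_of_one_le_left' N.one_lt_q.le)

/-- (M). -/
theorem exc_eq_zero (hH : HypH a c) (hρ : N.H0.D 1 a ≠ 0 ∨ N.H0.D 1 c ≠ 0) (h : N.Orb a c z)
    (S : Finset N.toPF.k0) (hS : ∀ s ∈ S, Unr a c s) (l : ℤ) :
    N.toPF.exc (aeval (z l) (∏ s ∈ S, (X - C s))) = 0 := by
  by_contra hn
  obtain ⟨m, hm⟩ := ENNReal.exists_nat_mul_gt hn (b := 3 * S.card * N.toPF.ht (z l))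
    (ENNReal.mul_ne_top (ENNReal.mul_ne_top (by simp) (by simp)) (h.ht_pos hH.ne l).2)
  obtain ⟨Z, hZ⟩ := exists_splits_pull hH.two hH.ne N.sqrt_k0 S hS (2 * m)
  have h1 := exc_pull_le hH.ne h.orbit hZ (l - (2 * m : ℕ))
  have h2 := N.ht_orbit hH.ne h.orbit (l - (2 * m : ℕ)) (2 * m)
  rw [sub_add_cancel] at h1 h2
  have h3 := exc_le (ind_jet1 hH hρ h (l - (2 * m : ℕ))) (F := ∏ ζ ∈ Z, (X - C ζ))
    (separable_prod_X_sub_C_iff'.2 fun _ _ _ _ e => e) (d := 2 ^ m * S.card) (by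
      rw [natDegree_finsetProd_X_sub_C_eq_card, hZ.card, mul_comm 2 m, pow_mul]
      linarith only [Nat.le_self_pow two_ne_zero S.card, Nat.zero_le (2 ^ m * S.card),
        Nat.mul_le_mul_left ((2 ^ m) ^ 2) (Nat.le_self_pow two_ne_zero S.card)])
  refine hm.not_ge ((mul_le_mul' (b := 2 ^ m) ?_ (h1.trans h3)).trans (le_of_eq ?_))
  · exact_mod_cast Nat.lt_two_pow_self.le
  · rw [h2]
    push_cast
    ring

omit [Fact p.Prime] [CharP K p] in
theorem rm3_ae_zero (Z : Finset N.toPF.k0) : ∀ᶠ w in N.toPF.ae, ∀ x : K,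
    N.v w (aeval x (∏ ζ ∈ Z, (X - C ζ))) < 1 ↔ ∃ ζ ∈ Z, N.v w (x - ζ) < 1 := by
  filter_upwards [ae_prod_sub Z] with w hw x
  refine ⟨fun h => ?_, fun ⟨ζ, hζ, h⟩ => ((hw x).2 ζ hζ h).2.2 ▸ h⟩
  by_contra hn
  push Not at hn
  exact h.not_ge ((hw x).1 hn)

omit [Fact p.Prime] [CharP K p] in
theorem rm3_ae_lt {F G : N.toPF.k0[X]} (h : IsCoprime F G) {n : ℕ} {Z : Finset N.toPF.k0}
    (hZ : Splits a c F n Z) (hG : G.natDegree ≤ n) : ∀ᶠ w in N.toPF.ae, ∀ x : K,
      N.v w (aeval x F) < N.v w (aeval x G) ↔ ∃ ζ ∈ Z, N.v w (x - ζ) < 1 := by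
  obtain ⟨lam, h0, hl⟩ := hZ.eq
  obtain ⟨A, B, hAB⟩ := h
  filter_upwards [rm3_ae_zero Z, ae_prod_sub Z, rm3_ae_le G hG, N.ae_poly_int A, N.ae_poly_int B,
    N.ae_unit lam.2 (fun e => h0 (Subtype.ext e)),
    (eventually_all_finset Z).2 fun ζ _ => N.ae_int ζ.2] with w h1 h2 h3 h4 h5 h6 h7 x
  have e : N.v w (aeval x F) = N.v w (aeval x (∏ ζ ∈ Z, (X - C ζ))) := by
    rw [hl, map_mul, map_mul, aeval_C]
    exact (congrArg (· * _) h6).trans (one_mul _)
  refine ⟨fun h => ?_, fun ⟨ζ, hζ, h⟩ => ?_⟩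
  · rcases le_or_gt (N.v w x) 1 with hx | hx
    · refine (h1 x).1 (e ▸ h.trans_le ((h3 x).trans ?_))
      rw [max_eq_left hx, one_pow]
    · have h8 := h.trans_le (h3 x)
      rw [e, rm3_v_big w Z fun ζ hζ => (h7 ζ hζ).trans_lt hx, max_eq_right hx.le, hZ.card] at h8
      exact absurd h8 (lt_irrefl _)
  · have hx := ((h2 x).2 ζ hζ h).1
    have h8 : N.v w (aeval x F) < 1 := e ▸ (h1 x).2 ⟨ζ, hζ, h⟩
    refine h8.trans_le (not_lt.1 fun h9 => ?_)
    have h10 := (N.v w).map_add_lt (x := aeval x A * aeval x F) (y := aeval x B * aeval x G)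
      (by rw [map_mul]; exact mul_lt_one_of_nonneg_of_lt_one_right (h4 x hx) zero_le h8)
      (by rw [map_mul]; exact mul_lt_one_of_nonneg_of_lt_one_right (h5 x hx) zero_le h9)
    rw [← map_mul, ← map_mul, ← map_add, hAB, map_one, map_one] at h10
    exact lt_irrefl _ h10

/-- Contact with `S` at level `l + j` is contact with the preimage at level `l`. -/
theorem ae_pull_iff (hac : a ≠ c) (hz : IsOrbit (a : K) c z) {S Z : Finset N.toPF.k0} {j : ℕ}
    (hZ : Splits a c (pullS a c j S) (2 ^ j * S.card) Z) (l : ℤ) :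
    ∀ᶠ w in N.toPF.ae, (∃ s ∈ S, N.v w (z (l + j) - s) < 1) ↔ ∃ ζ ∈ Z, N.v w (z l - ζ) < 1 := by
  have hQ := (IsOrbit.iter (k0 := N.toPF.k0) hz l j).1
  have h1 : IsCoprime (pullS a c j S) ((PQ a c j).2 ^ S.card) :=
    (IsCoprime.prod_left fun s _ => by
      rw [sub_eq_add_neg, ← neg_mul]
      exact (isCoprime_PQ hac j).add_mul_right_left _).pow_right
  filter_upwards [rm3_ae_zero S, rm3_ae_lt h1 hZ (natDegree_pow_le.trans (by
    rw [mul_comm]
    exact Nat.mul_le_mul_right _ (natDegree_PQ a c j).2))] with w h2 h3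
  rw [← h2, ← h3, ← rm3_pull hz, map_pow, map_mul,
    mul_lt_iff_lt_one_left ((N.v w).pos_iff.2 (pow_ne_zero _ hQ))]

theorem ae_ev_iff (hE : HypEq a c) (hz : IsOrbit (a : K) c z) {b : Bool} {i : ℕ}
    {Z : Finset N.toPF.k0} (hZ : Splits a c (critPoly a c b (i + 1)) (2 ^ (i + 1)) Z) (l : ℤ) :
    ∀ᶠ w in N.toPF.ae, w ∈ N.toPF.Ev (z (l + (i + 1 : ℕ))) b ↔ ∃ ζ ∈ Z, N.v w (z l - ζ) < 1 := by
  obtain ⟨h1, h2⟩ := IsOrbit.iter (k0 := N.toPF.k0) hz l (i + 1)
  cases b with
  | false =>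
    filter_upwards [rm3_ae_lt (isCoprime_PQ hE.ne (i + 1)) hZ (natDegree_PQ a c _).2] with w h3
    rw [← h3, h2]
    change N.v w _ < 1 ↔ _
    rw [map_div₀, div_lt_one₀ ((N.v w).pos_iff.2 h1)]
  | true =>
    filter_upwards [rm3_ae_lt (isCoprime_PQ hE.ne (i + 1)).symm hZ (natDegree_PQ a c _).1] with w h3
    rw [← h3, h2]
    change 1 < N.v w _ ↔ _
    rw [map_div₀, one_lt_div₀ ((N.v w).pos_iff.2 h1)]

/-- Critical passages lift to simple contacts. -/
theorem ev_lift (hE : HypEq a c) (hρ : N.H0.D 1 a ≠ 0 ∨ N.H0.D 1 c ≠ 0) (h : N.Orb a c z)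
    {b : Bool} {i : ℕ} {Z : Finset N.toPF.k0}
    (hZ : Splits a c (critPoly a c b (i + 1)) (2 ^ (i + 1)) Z) (l : ℤ) :
    ∀ᶠ w in N.toPF.ae, w ∈ N.toPF.Ev (z (l + (i + 1 : ℕ))) b →
      ∃ ζ ∈ Z, N.v w (z l - ζ) = N.q⁻¹ ∧ N.v w (z l) ≤ 1 ∧
        N.v w (N.H.D 1 (z l) - (N.H0.D 1 ζ : N.toPF.k0)) = 1 := by
  filter_upwards [ae_ev_iff hE h.orbit hZ l, ae_prod_sub Z,
    (simple_of_exc (h.trans hE.ne l) Z (exc_eq_zero hE.hypH hρ h Z hZ.unr l)).2,
    (eventually_all_finset Z).2 fun ζ _ => N.ae_simple_unit (z l - ζ)] with w h1 h2 h3 h4 hw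
  obtain ⟨ζ, hζ, h5⟩ := h1.1 hw
  refine ⟨ζ, hζ, h3 ζ hζ h5, ((h2 _).2 ζ hζ h5).1, ?_⟩
  have h6 := h4 ζ hζ (h3 ζ hζ h5)
  rw [HD.D_sub] at h6
  exact (congrArg (fun t => N.v w (N.H.D 1 (z l) - t)) (N.compat 1 ζ)).symm.trans h6

theorem ht_le_mass_ev (hE : HypEq a c) (hρ : N.H0.D 1 a ≠ 0 ∨ N.H0.D 1 c ≠ 0) (h : N.Orb a c z)
    (b : Bool) (l : ℤ) : N.toPF.ht (z l) ≤ N.toPF.mass (N.toPF.Ev (z l) b) := by
  obtain ⟨Z, hZ⟩ := exists_splits_crit hE N.sqrt_k0 b 0
  have h1 := (simple_of_exc (h.trans hE.ne (l - 1)) Z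
    (exc_eq_zero hE.hypH hρ h Z hZ.unr (l - 1))).1
  have h2 := N.ht_orbit hE.ne h.orbit (l - 1) 1
  have h3 := ae_ev_iff hE h.orbit hZ (l - 1)
  have e : l - 1 + (0 + 1 : ℕ) = l := by simp
  rw [e] at h2 h3
  rw [hZ.card] at h1
  refine le_trans (h2.le.trans (le_of_eq_of_le (by norm_num) h1)) (N.toPF.mass_mono_ae ?_)
  filter_upwards [h3] with w hw using hw.2

/-- Without critical passage the iterate is unramified. -/
theorem ae_passage (h2 : (2 : N.toPF.k0) ≠ 0) (hac : a ≠ c) (hz : IsOrbit (a : K) c z) (l : ℤ)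
    (j : ℕ) : ∀ᶠ w in N.toPF.ae, N.v w (z (l + j)) ≤ 1 → (∀ i : ℕ, i < j → N.v w (z (l + i)) = 1) →
      N.v w (aeval (z l) (PQ a c j).2) = 1 ∧
        N.v w (aeval (z l) (Wr (PQ a c j).1 (PQ a c j).2)) = 1 := by
  induction j with
  | zero => exact Eventually.of_forall fun w _ _ => by simp [PQ, Wr]
  | succ j ih =>
    have hd : a - c ≠ 0 := sub_ne_zero.2 hac
    filter_upwards [ih, N.ae_unit (a - c).2 (fun e => hd (Subtype.ext e)), N.ae_int c.2,
      N.ae_unit (2 * (a - c)).2 (fun e => mul_ne_zero h2 hd (Subtype.ext e))]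
      with w h3 h4 h5 h6 h7 h8
    have hy := h8 j j.lt_succ_self
    obtain ⟨hQ, hW⟩ := h3 hy.le fun i hi => h8 i (hi.trans j.lt_succ_self)
    obtain ⟨k1, k2⟩ := IsOrbit.iter (k0 := N.toPF.k0) hz l j
    obtain ⟨k3, k4⟩ := hz (l + j)
    have hP : N.v w (aeval (z l) (PQ a c j).1) = 1 := by
      rwa [k2, map_div₀, hQ, div_one] at hy
    rw [Nat.cast_succ, ← add_assoc, k4, phi, map_div₀, div_le_one₀ ((N.v w).pos_iff.2 k3)] at h7
    have k5 : N.v w (c * z (l + j) ^ 2 + 1) = 1 := by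
      refine le_antisymm ((N.v w).map_add_le ?_ (map_one _).le) ?_
      · rw [map_mul, map_pow, hy, one_pow, mul_one]
        exact h5
      · refine le_of_eq_of_le ?_ ((N.v w).map_sub_le h7 le_rfl)
        rw [add_sub_add_right_eq_sub, ← sub_mul, map_mul, map_pow, hy, one_pow, mul_one]
        exact h4.symm
    constructor
    · have e : aeval (z l) (PQ a c (j + 1)).2 =
          (c * z (l + j) ^ 2 + 1) * aeval (z l) (PQ a c j).2 ^ 2 := by
        rw [PQ_succ, Phi, map_add, map_mul, map_pow, map_pow, aeval_C, k2, add_mul, one_mul,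
          mul_assoc, ← mul_pow, div_mul_cancel₀ _ k1]
        rfl
      rw [e, map_mul, map_pow, k5, hQ, one_pow, one_mul]
    · rw [Wr_succ]
      simp only [map_mul (aeval (z l)), map_mul (N.v w), aeval_C, hP, hQ, hW, mul_one]
      exact h6

/-- After a critical passage the orbit has double contact with the critical orbit. -/
theorem ae_contact (hE : HypEq a c) (hz : IsOrbit (a : K) c z) (b : Bool) (s : ℤ) (r : ℕ) :
    ∀ᶠ w in N.toPF.ae, w ∈ N.toPF.Ev (z s) b →
      N.v w (z (s + 1 + r) - (vv a c b r : N.toPF.k0)) ≤ N.q⁻¹ ^ 2 := by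
  have hd : a - c ≠ 0 := sub_ne_zero.2 hE.ne
  have hq : N.q⁻¹ ^ 2 < 1 := pow_lt_one₀ zero_le (inv_lt_one_of_one_lt₀ N.one_lt_q) two_ne_zero
  induction r with
  | zero =>
    obtain ⟨k1, k2⟩ := hz s
    rw [Nat.cast_zero, add_zero, k2, phi]
    cases b with
    | false =>
      filter_upwards [N.ae_good, N.ae_reg (z s), N.ae_int (a - c).2, N.ae_int c.2]
        with w h1 h2 h3 h4 hw
      have h5 : N.v w (z s) < 1 := hw
      have e : (a * z s ^ 2 + 1) / (c * z s ^ 2 + 1) - (vv a c false 0 : N.toPF.k0) =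
          (a - c : N.toPF.k0) * z s ^ 2 / (1 + c * z s ^ 2) := by
        rw [vv_zero_false, add_comm 1, eq_div_iff k1, sub_mul, div_mul_cancel₀ _ k1]
        push_cast
        ring
      rw [e, map_div₀, (N.v w).map_one_add_of_lt, div_one, map_mul, map_pow]
      · exact mul_le_of_le_one_of_le h3 (pow_le_pow_left₀ zero_le (N.disc w h1 _ h2 h5) 2)
      · rw [map_mul, map_pow]
        exact mul_lt_one_of_nonneg_of_lt_one_right h4 zero_le (pow_lt_one₀ zero_le h5 two_ne_zero)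
    | true =>
      have hc : (c : K) ≠ 0 := fun e => (hE.orb_ne true 0).2 (by
        simpa [orb, crit, Phi] using e)
      filter_upwards [N.ae_good, N.ae_reg (z s)⁻¹, N.ae_int (a - c).2, N.ae_unit c.2 hc]
        with w h1 h2 h3 h4 hw
      have h5 : 1 < N.v w (z s) := hw
      have h6 := N.disc w h1 _ h2 (by
        rw [map_inv₀]
        exact inv_lt_one_of_one_lt₀ h5)
      have e : (a * z s ^ 2 + 1) / (c * z s ^ 2 + 1) - (vv a c true 0 : N.toPF.k0) =
          -((a - c : N.toPF.k0) / (c * (c * z s ^ 2 + 1))) := by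
        rw [vv_zero_true]
        push_cast
        rw [div_sub_div _ _ k1 hc, ← neg_div, mul_comm (c : K) (_ + _)]
        congr 1
        ring
      have h7 : N.v w (c * z s ^ 2) = N.v w (z s) ^ 2 := by rw [map_mul, map_pow, h4, one_mul]
      rw [e, Valuation.map_neg, map_div₀, map_mul, h4, one_mul, (N.v w).map_add_eq_of_lt_left, h7,
        div_eq_mul_inv, ← inv_pow, ← map_inv₀]
      · exact mul_le_of_le_one_of_le h3 (pow_le_pow_left₀ zero_le h6 2)
      · rw [map_one, h7]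
        exact one_lt_pow₀ h5 two_ne_zero
  | succ r ih =>
    obtain ⟨-, k1, k2⟩ := hE.vv_succ b r
    obtain ⟨k3, k4⟩ := hz (s + 1 + r)
    have k5 : (c : K) * (vv a c b r : N.toPF.k0) ^ 2 + 1 ≠ 0 := fun e => k1 (Subtype.ext e)
    filter_upwards [ih, N.ae_int (a - c).2, N.ae_int c.2, N.ae_int (vv a c b r).2,
      N.ae_unit (c * vv a c b r ^ 2 + 1).2 k5] with w h1 h2 h3 h4 h5 hw
    rw [Nat.cast_succ, ← add_assoc, k4, k2]
    generalize z (s + 1 + r) = u at h1 k3
    generalize vv a c b r = t at h1 h4 h5 k5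
    have h6 := h1 hw
    have h7 : N.v w (u + t) ≤ 1 := by
      rw [show u + t = u - t + t + t by ring]
      exact (N.v w).map_add_le ((N.v w).map_add_le (h6.trans hq.le) h4) h4
    have h8 : N.v w ((u - t) * (u + t)) ≤ N.q⁻¹ ^ 2 := by
      rw [map_mul]
      exact mul_le_of_le_of_le_one h6 h7
    have h9 : N.v w (c * (t : K) ^ 2 + 1) = 1 := h5
    have h10 : N.v w (c * u ^ 2 + 1) = 1 := by
      rw [show (c : K) * u ^ 2 + 1 = c * (t : K) ^ 2 + 1 + c * ((u - t) * (u + t)) by ring,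
        (N.v w).map_add_eq_of_lt_left, h9]
      rw [h9, map_mul]
      exact mul_lt_one_of_nonneg_of_lt_one_right h3 zero_le (h8.trans_lt hq)
    have e : phi (a : K) c u - (phi a c t : N.toPF.k0) = (a - c : N.toPF.k0) *
        ((u - t) * (u + t)) / ((c * u ^ 2 + 1) * (c * (t : K) ^ 2 + 1)) := by
      unfold phi
      push_cast
      rw [div_sub_div _ _ k3 k5]
      congr 1
      ring
    rw [e, map_div₀, map_mul _ (_ + _), h9, h10, one_mul, div_one, map_mul]
    exact mul_le_of_le_one_of_le h2 h8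

end NS

end JR
end

-- merged part: Pool.Agent.Work.MP_969914_nt.Runge
section
/-! An effective form of Runge's method. -/

set_option autoImplicit false
set_option maxSynthPendingDepth 3

open Polynomial

namespace Pool.Agent.Work.MP_969914_nt

variable {k : Type*} [Field k]

lemma coeff_sum_mono {ι : Type*} (I : Finset ι) (a : ι → k[X]) (J L : ι → ℕ) (j l : ℕ) :
    ((∑ s ∈ I, mono (a s) (J s) (L s)).coeff l).coeff j =
      ∑ s ∈ I, if J s = j ∧ L s = l then a s else 0 := by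
  rw [finsetSum_coeff, finsetSum_coeff]
  simp only [coeff_mono]

lemma runge_core {Ψ : k[X][X][X]} (hΨ : Ψ ≠ 0) {B L n n1 : ℕ} (h1 : (ht k).d Ψ ≤ B)
    (hN : 1 ≤ (tot k).d Ψ) (hn1 : n1 ≤ (tot k).d Ψ) (hn : n1 ≤ n)
    (hP : ∀ j l, (Ψ.coeff l).coeff j ≠ 0 → l ≤ n ∧ (j + l = (tot k).d Ψ → l ≤ n1))
    (IG : Finset (ℕ × ℕ)) (hIG : ∀ s ∈ IG, s.1 + s.2 ≤ L) (hcard : (L + 1) * n1 < IG.card)
    {x y : k[X]} (hy : y.natDegree ≤ x.natDegree) (e1 : Ψ.evalEval x y = 0) :
    ∃ G : k[X][X][X], G ≠ 0 ∧ (∀ j l, (G.coeff l).coeff j ≠ 0 → (j, l) ∈ IG) ∧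
      (ht k).d G ≤ (L + 1) ^ 2 * (n + 1) * B ∧
      (G.evalEval x y = 0 ∨ x.natDegree ≤ (L + 1) ^ 2 * (n + 1) * B + B) := by
  classical
  set N := (tot k).d Ψ with hNdef
  set K' := 2 * L + L * n with hK'
  set K := K' + N - L with hK
  let IH : Finset (Σ _ : ℕ, ℕ) := (Finset.range (L + 1)).sigma fun i => Finset.range (L + i * n + 1)
  let O : Finset (Σ _ : ℕ, ℕ) :=
    (Finset.range (L + 1)).sigma fun i => Finset.range (L + n1 + i * n + 1)
  have hIH : ∀ s ∈ IH, s.1 ≤ L ∧ s.2 ≤ L + s.1 * n ∧ s.1 + s.2 ≤ K' := by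
    intro s hs
    simp only [IH, Finset.mem_sigma, Finset.mem_range] at hs
    have : s.1 * n ≤ L * n := Nat.mul_le_mul_right _ (by omega)
    omega
  have hOcard : O.card = IH.card + (L + 1) * n1 := by
    simp only [O, IH, Finset.card_sigma, Finset.card_range]
    rw [show (L + 1) * n1 = ∑ _i ∈ Finset.range (L + 1), n1 by simp, ← Finset.sum_add_distrib]
    exact Finset.sum_congr rfl fun i _ => by ring
  have hOle : O.card ≤ (L + 1) ^ 2 * (n + 1) := by
    simp only [O, Finset.card_sigma, Finset.card_range]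
    calc _ ≤ ∑ _i ∈ Finset.range (L + 1), (L + 1) * (n + 1) := by
          refine Finset.sum_le_sum fun i hi => ?_
          have : i * n ≤ L * n := Nat.mul_le_mul_right _ (by simp at hi; omega)
          linarith only [hn, this]
      _ = _ := by simp; ring
  let E : (ℕ × ℕ) ⊕ (Σ _ : ℕ, ℕ) → k[X][X][X] :=
    Sum.elim (fun s => mono 1 (K + s.1) s.2) (fun s => -(Ψ * mono 1 (K' - s.1 - s.2) s.2))
  have hE : ∀ s, (ht k).d (E s) ≤ B := by
    rintro (s | s)
    · exact (ht_mono _ _ _).trans (by simp)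
    · simp only [E, Sum.elim_inr, (ht k).d_neg]
      have := (ht k).mul_le' h1 (ht_mono (1 : k[X]) (K' - s.1 - s.2) s.2)
      simpa using this
  obtain ⟨c, hc0, hc1, hc2⟩ := siegel' (IG.disjSum IH) O
    (fun o s => ((E s).coeff o.2).coeff (K' + N - o.1 - o.2)) B
    (fun o s => (ht_le_iff _ _).1 (hE s) _ _) (by rw [Finset.card_disjSum]; omega)
  set G := ∑ s ∈ IG, mono (c (Sum.inl s)) s.1 s.2 with hG
  set H := ∑ s ∈ IH, mono (c (Sum.inr s)) (K' - s.1 - s.2) s.2 with hH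
  set Rm := ∑ s ∈ IG.disjSum IH, C (C (c s)) * E s with hRm
  have hcB : ∀ s, (c s).natDegree ≤ (L + 1) ^ 2 * (n + 1) * B :=
    fun s => (hc1 s).trans (Nat.mul_le_mul_right _ hOle)
  have hRm_eq : Rm = C X ^ K * G + -(Ψ * H) := by
    clear * - k IG c E K G hG Ψ K' IH H hH Rm hRm
    have h3 : ∑ s ∈ IG, C (C (c (Sum.inl s))) * E (Sum.inl s) = C X ^ K * G := by
      rw [hG, Finset.mul_sum]
      refine Finset.sum_congr rfl fun s _ => ?_
      simp only [E, Sum.elim_inl, mono_eq, map_one]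
      ring
    have h4 : ∑ s ∈ IH, C (C (c (Sum.inr s))) * E (Sum.inr s) + Ψ * H = 0 := by
      rw [hH, Finset.mul_sum, ← Finset.sum_add_distrib]
      refine Finset.sum_eq_zero fun s _ => ?_
      simp only [E, Sum.elim_inr, mono_eq, map_one]
      ring
    rw [hRm, Finset.sum_disjSum, h3]
    linear_combination h4
  have hRm_coeff : ∀ j l, (Rm.coeff l).coeff j =
      ∑ s ∈ IG.disjSum IH, ((E s).coeff l).coeff j * c s := by
    intro j l
    rw [hRm, finsetSum_coeff, finsetSum_coeff]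
    refine Finset.sum_congr rfl fun s _ => ?_
    rw [coeff_C_mul, coeff_C_mul, mul_comm]
  have hKpos : 1 ≤ K := by omega
  have hRm_tot : (tot k).d Rm ≤ K - 1 := by
    clear * - k Rm K Ψ B L n n1 IG x y hKpos K' N O IH E c hc2 hRm_coeff hIG hIH hP
    rw [tot_le_iff]
    intro j l hjl
    by_contra hlt
    apply hjl
    have hge : K ≤ j + l := by omega
    by_cases hO : j + l ≤ K' + N ∧ l ≤ L + n1 + (K' + N - j - l) * n
    · have hmem : (⟨K' + N - j - l, l⟩ : Σ _ : ℕ, ℕ) ∈ O := by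
        simp only [O, Finset.mem_sigma, Finset.mem_range]
        omega
      have := hc2 _ hmem
      rw [hRm_coeff, ← this]
      refine Finset.sum_congr rfl fun s _ => ?_
      simp only
      rw [show K' + N - (K' + N - j - l) - l = j by omega]
    · rw [hRm_coeff]
      refine Finset.sum_eq_zero fun s hs => ?_
      suffices ((E s).coeff l).coeff j = 0 by rw [this, zero_mul]
      by_contra hne
      apply hO
      rcases s with s | s
      · have hs' := hIG s (by simpa using hs)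
        simp only [E, Sum.elim_inl, coeff_mono] at hne
        split_ifs at hne with h
        · omega
        · exact absurd rfl hne
      · have hs' := hIH s (by simpa using hs)
        simp only [E, Sum.elim_inr, coeff_neg, coeff_mul_mono, mul_one, neg_eq_zero] at hne
        split_ifs at hne with h
        · have h5 := hP _ _ hne
          have h6 := (tot_le_iff Ψ N).1 le_rfl _ _ hne
          refine ⟨by omega, ?_⟩
          obtain ⟨i1, hi1⟩ : ∃ i1, K' + N - j - l = s.1 + i1 := ⟨K' + N - j - l - s.1, by clear * - K' N j l s k Ψ B L n n1 IG x y hs' h h5 h6; omega⟩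
          rw [hi1, add_mul]
          rcases Nat.eq_zero_or_pos i1 with h0 | h0
          · have := h5.2 (by clear * - j K' s l N k Ψ B L n n1 IG x y hs' h h5 h6 i1 hi1 h0; omega)
            omega
          · have : n ≤ i1 * n := Nat.le_mul_of_pos_left _ h0
            omega
        · exact absurd rfl hne
  have hGcoeff : ∀ j l, (G.coeff l).coeff j = if (j, l) ∈ IG then c (Sum.inl (j, l)) else 0 := by
    intro j l
    rw [hG, coeff_sum_mono]
    split_ifs with h
    · rw [Finset.sum_eq_single (j, l)]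
      · simp
      · intro s _ hs
        rw [if_neg (fun h' => hs (Prod.ext h'.1 h'.2))]
      · intro h'; exact absurd h h'
    · refine Finset.sum_eq_zero fun s hs => ?_
      rw [if_neg]
      rintro ⟨rfl, rfl⟩
      exact h hs
  have hG0 : G ≠ 0 := by
    clear * - k G IG IH c hc0 hGcoeff L n K' hIH H hH Ψ B n1 x y hΨ hKpos K Rm hRm_eq hRm_tot
    intro h0
    obtain ⟨s, hs, hs0⟩ := hc0
    rcases s with s | s
    · have := hGcoeff s.1 s.2
      rw [h0, if_pos (by simpa using hs)] at this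
      exact hs0 (by simpa using this.symm)
    · have hs1 : s ∈ IH := by simpa using hs
      have hs' := hIH s hs1
      have hHc : (H.coeff s.2).coeff (K' - s.1 - s.2) = c (Sum.inr s) := by
        rw [hH, coeff_sum_mono, Finset.sum_eq_single s]
        · simp
        · intro s' hs2 hne
          have := hIH s' hs2
          rw [if_neg]
          rintro ⟨h3, h4⟩
          exact hne (Sigma.ext (by omega) (heq_of_eq h4))
        · intro h'; exact absurd hs1 h'
      have hH0 : H ≠ 0 := by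
        intro h
        rw [h] at hHc
        exact hs0 (by simpa using hHc.symm)
      have h7 := (tot_le_iff H _).1 le_rfl _ _ (by rw [hHc]; exact hs0)
      have h8 := (tot k).d_mul Ψ H hΨ hH0
      rw [hRm_eq, h0, mul_zero, zero_add, (tot k).d_neg, h8] at hRm_tot
      omega
  have hGht : (ht k).d G ≤ (L + 1) ^ 2 * (n + 1) * B :=
    (ht k).sum_le _ _ fun s _ => (ht_mono _ _ _).trans (hcB _)
  refine ⟨G, hG0, ?_, hGht, ?_⟩
  · intro j l h
    rw [hGcoeff] at h
    by_contra h'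
    exact h (if_neg h')
  · by_cases hev : G.evalEval x y = 0
    · exact Or.inl hev
    right
    have hRm_ht : (ht k).d Rm ≤ (L + 1) ^ 2 * (n + 1) * B + B :=
      (ht k).sum_le _ _ fun s _ =>
        (ht k).mul_le' ((ht_C _).trans ((ht1_C _).trans (hcB s))) (hE s)
    have h9 := natDegree_evalEval_le Rm x y hRm_ht hRm_tot le_rfl hy
    rcases eq_or_ne x 0 with rfl | hx0
    · simp
    rw [hRm_eq] at h9
    simp only [evalEval_add, evalEval_neg, evalEval_mul, evalEval_pow, evalEval_C, eval_X, e1,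
      zero_mul, neg_zero, add_zero] at h9
    rw [natDegree_mul (pow_ne_zero _ hx0) hev, natDegree_pow] at h9
    obtain ⟨K1, hK1⟩ : ∃ K1, K = K1 + 1 := ⟨K - 1, by omega⟩
    rw [hK1, add_mul, Nat.add_sub_cancel] at h9
    omega

/-- Effective Runge: a curve through a high point `(x, y)` with `deg y ≤ deg x` has its total
degree equal to its degree in `Y`. -/
lemma runge {Ψ : k[X][X][X]} (hΨ : Irreducible Ψ) (hn : Ψ.natDegree ≠ 0) {B : ℕ}
    (h1 : (ht k).d Ψ ≤ B) (h2 : (tot k).d Ψ ≤ B) {x y : k[X]} (hy : y.natDegree ≤ x.natDegree)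
    (e1 : Ψ.evalEval x y = 0) (hx : 722 * B ^ 12 < x.natDegree) :
    (tot k).d Ψ ≤ Ψ.natDegree := by
  classical
  by_contra hlt
  push Not at hlt
  set n := Ψ.natDegree with hndef
  set N := (tot k).d Ψ with hNdef
  have hΨ0 := hΨ.ne_zero
  obtain ⟨n1, hc1, hc2, hc3⟩ := (tot1 k).exists_ext 1 hΨ0
  simp only [tot1_eq, one_mul] at hc2 hc3
  change _ = N at hc2
  change ∀ j, _ → _ → _ < N at hc3
  have hn1 : n1 ≤ n := le_natDegree_of_ne_zero hc1
  have hP : ∀ j l, (Ψ.coeff l).coeff j ≠ 0 → l ≤ n ∧ (j + l = (tot k).d Ψ → l ≤ n1) := by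
    intro j l h
    have hl : Ψ.coeff l ≠ 0 := fun h0 => by simp [h0] at h
    refine ⟨le_natDegree_of_ne_zero hl, fun h' => ?_⟩
    by_contra h''
    have := hc3 l (by omega) hl
    have := le_natDegree_of_ne_zero h
    omega
  have hB : 1 ≤ B := by omega
  set L := B ^ 2 + B with hL
  have hnB : n ≤ B := by omega
  have hLn : n * n + n ≤ L := by nlinarith only [h2, hlt, hL]
  have hbound : (L + 1) ^ 2 * (n + 1) * B + B ≤ 19 * B ^ 6 := by
    have e1 : L + 1 ≤ 3 * B ^ 2 := by nlinarith only [h2, hlt, hL]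
    have e2 : (L + 1) ^ 2 * (n + 1) ≤ (3 * B ^ 2) ^ 2 * (2 * B) := by gcongr; omega
    have e3 : B ≤ B ^ 6 := Nat.le_self_pow (by norm_num) B
    have e4 : (L + 1) ^ 2 * (n + 1) * B ≤ (3 * B ^ 2) ^ 2 * (2 * B) * B := by gcongr
    linarith only [e3, e4]
  have hB6 : B ≤ 19 * B ^ 6 := by omega
  have hL6 : L ≤ 19 * B ^ 6 := by
    have : B ^ 2 ≤ B ^ 6 := Nat.pow_le_pow_right hB (by norm_num)
    have e3 : B ≤ B ^ 6 := Nat.le_self_pow (by norm_num) B
    omega
  have hx6 : 19 * B ^ 6 < x.natDegree := by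
    have : B ^ 6 ≤ B ^ 12 := Nat.pow_le_pow_right hB (by norm_num)
    omega
  have fin : ∀ IG : Finset (ℕ × ℕ), (∀ s ∈ IG, s.1 + s.2 ≤ L) → (L + 1) * n1 < IG.card →
      (∀ G : k[X][X][X], G ≠ 0 → (∀ j l, (G.coeff l).coeff j ≠ 0 → (j, l) ∈ IG) → ¬ Ψ ∣ G) →
      False := by
    intro IG hIG hcard hdvd
    obtain ⟨G, hG0, hG1, hG2, hG3⟩ := runge_core hΨ0 h1 (by omega) (by omega) hn1 hP IG hIG hcard
      hy e1
    rcases hG3 with hG3 | hG3
    · have hGt : (tot k).d G ≤ 19 * B ^ 6 := by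
        rw [tot_le_iff]
        intro j l h
        exact (hIG _ (hG1 j l h)).trans hL6
      have := elim hΨ hn (hdvd G hG0 hG1) (B := 19 * B ^ 6) (h1.trans hB6) (h2.trans hB6)
        (by omega) hGt e1 hG3
      have e : 2 * (19 * B ^ 6) ^ 2 = 722 * B ^ 12 := by ring
      omega
    · omega
  have hlow : ∀ G : k[X][X][X], G ≠ 0 → G.natDegree < n → ¬ Ψ ∣ G :=
    fun G hG0 hG hd => absurd (natDegree_le_of_dvd hd hG0) (by omega)
  have htop : ∀ G : k[X][X][X], G ≠ 0 →
      (G.coeff G.natDegree).coeff (G.coeff G.natDegree).natDegree ≠ 0 := by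
    intro G hG0
    simpa using hG0
  set R1 := Finset.range (L + 1 - n) ×ˢ Finset.range n with hR1
  have hR1c : R1.card = (L + 1 - n) * n := by simp [hR1]
  obtain ⟨L1, hL1⟩ : ∃ L1, L + 1 = L1 + n := ⟨L + 1 - n, by omega⟩
  rcases hn1.lt_or_eq with hlt1 | heq
  · refine fin R1 ?_ ?_ ?_
    · intro s hs
      simp only [hR1, Finset.mem_product, Finset.mem_range] at hs
      omega
    · rw [hR1c, hL1, Nat.add_sub_cancel]
      have : (L1 + n) * (n1 + 1) ≤ (L1 + n) * n := Nat.mul_le_mul_left _ hlt1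
      linarith only [hLn, hL1, hlt1, this]
    · intro G hG0 hG1
      have := hG1 _ _ (htop G hG0)
      simp only [hR1, Finset.mem_product, Finset.mem_range] at this
      exact hlow G hG0 this.2
  · set R2 := ({0} : Finset ℕ) ×ˢ Finset.Ico n (L + 1) with hR2
    have hdisj : Disjoint R1 R2 := by
      rw [Finset.disjoint_left]
      intro s h1 h2
      simp only [hR1, hR2, Finset.mem_product, Finset.mem_range, Finset.mem_Ico] at h1 h2
      omega
    refine fin (R1 ∪ R2) ?_ ?_ ?_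
    · intro s hs
      simp only [hR1, hR2, Finset.mem_union, Finset.mem_product, Finset.mem_range,
        Finset.mem_Ico, Finset.mem_singleton] at hs
      omega
    · rw [Finset.card_union_of_disjoint hdisj, hR1c, hR2, Finset.card_product,
        Finset.card_singleton, Nat.card_Ico, hL1, Nat.add_sub_cancel, heq]
      linarith only [hLn, hL1]
    · intro G hG0 hG1 hd
      have := hG1 _ _ (htop G hG0)
      simp only [hR1, hR2, Finset.mem_union, Finset.mem_product, Finset.mem_range,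
        Finset.mem_Ico, Finset.mem_singleton] at this
      rcases this with h | h
      · exact hlow G hG0 h.2 hd
      · have h3 : Ψ.leadingCoeff ∣ G.leadingCoeff := leadingCoeff_dvd_leadingCoeff hd
        have h4 := natDegree_le_of_dvd h3 (by simpa using hG0)
        have h5 : G.leadingCoeff.natDegree = 0 := h.1
        have h6 : (Ψ.coeff n1).natDegree = Ψ.leadingCoeff.natDegree := by rw [heq]; rfl
        omega

end Pool.Agent.Work.MP_969914_nt
end
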