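import Pool.Agent.Work.MP_969914_nt.S6Sieg
import Pool.Agent.Work.MP_969914_nt.RPStda
import Pool.Agent.Work.MP_969914_nt.Runge
import Pool.Agent.Work.MP_969914_nt.RDyn

-- merged part: Pool.Agent.Work.MP_969914_nt.RHat
section
/-! Canonical heights of the critical orbits. -/

set_option autoImplicit false

namespace JR

open scoped NNReal ENNReal

theorem rhat_ratio {K : Type} [Field K] {X Y : K × K} (hX : X ≠ 0) (hY : Y ≠ 0)
    (h : wedge X Y = 0) : X.1 / X.2 = Y.1 / Y.2 := by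
  rw [wedge, sub_eq_zero] at h
  by_cases h1 : X.2 = 0
  · have h2 : X.1 ≠ 0 := fun e => hX (Prod.ext e h1)
    rw [h1, zero_mul] at h
    rw [h1, (mul_eq_zero.1 h).resolve_left h2, div_zero, div_zero]
  by_cases h2 : Y.2 = 0
  · have h3 : Y.1 ≠ 0 := fun e => hY (Prod.ext e h2)
    rw [h2, mul_zero] at h
    exact absurd ((mul_eq_zero.1 h.symm).resolve_right h3) h1
  rw [div_eq_div_iff h1 h2, h, mul_comm]

theorem rhat_vv_eq {K : Type} [Field K] {a c : K} (hac : a ≠ c) {b b' : Bool} {m n : ℕ}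
    (e : wedge (orb a c b m) (orb a c b' n) = 0) (j : ℕ) :
    vv a c b (m + j) = vv a c b' (n + j) := by
  refine rhat_ratio (orb_ne_zero hac _ _) (orb_ne_zero hac _ _) ?_
  have h := wedge_iter (a := a) (c := c) e (j + 1)
  simp only [orb, ← Function.iterate_add_apply] at h ⊢
  rwa [show m + j + 1 = j + 1 + m by ring, show n + j + 1 = j + 1 + n by ring]

theorem rhat_le {A B C : ℝ≥0} (h : ∀ j : ℕ, A * 2 ^ j ≤ B * 2 ^ j + C) : A ≤ B := by
  by_contra h1
  have h2 : (0 : ℝ) < A - B := sub_pos.2 (by exact_mod_cast not_le.1 h1)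
  obtain ⟨j, hj⟩ := pow_unbounded_of_one_lt ((C : ℝ) / (A - B)) (one_lt_two (α := ℝ))
  rw [div_lt_iff₀ h2] at hj
  have h3 : (A : ℝ) * 2 ^ j ≤ B * 2 ^ j + C := by exact_mod_cast h j
  linarith

theorem rhat_limit {u : ℕ → ℝ≥0} {C : ℝ≥0} (h1 : ∀ r, u (r + 1) ≤ 2 * u r + C)
    (h2 : ∀ r, 2 * u r ≤ u (r + 1) + C) :
    ∃ h : ℝ≥0, ∀ r, u r ≤ h * 2 ^ r + C ∧ h * 2 ^ r ≤ u r + C := by
  have h3 : ∀ r : ℕ, dist ((u r : ℝ) / 2 ^ r) ((u (r + 1) : ℝ) / 2 ^ (r + 1)) ≤ C / 2 / 2 ^ r := by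
    intro r
    have e1 : (u (r + 1) : ℝ) ≤ 2 * u r + C := by exact_mod_cast h1 r
    have e2 : 2 * (u r : ℝ) ≤ u (r + 1) + C := by exact_mod_cast h2 r
    have e3 : (u r : ℝ) / 2 ^ r - (u (r + 1) : ℝ) / 2 ^ (r + 1) =
        (2 * u r - u (r + 1)) / 2 / 2 ^ r := by
      rw [pow_succ]
      field_simp
    rw [Real.dist_eq, e3, abs_div, abs_div, abs_two, abs_of_pos (by positivity : (0 : ℝ) < 2 ^ r)]
    gcongr
    exact abs_le.2 ⟨by linarith, by linarith⟩
  obtain ⟨L, hL⟩ := cauchySeq_tendsto_of_complete (cauchySeq_of_le_geometric_two h3)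
  have h4 : 0 ≤ L := ge_of_tendsto' hL fun r => by positivity
  refine ⟨⟨L, h4⟩, fun r => ?_⟩
  have h5 := dist_le_of_le_geometric_two_of_tendsto h3 hL r
  have h6 : (0 : ℝ) < 2 ^ r := by positivity
  rw [Real.dist_eq, abs_le, ← neg_div, le_sub_iff_add_le, sub_le_iff_le_add, le_div_iff₀ h6,
    div_le_iff₀ h6, add_mul, add_mul, div_mul_cancel₀ _ h6.ne', div_mul_cancel₀ _ h6.ne'] at h5
  constructor
  · rw [← NNReal.coe_le_coe]
    push_cast
    exact h5.2.trans (add_comm _ _).le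
  · rw [← NNReal.coe_le_coe]
    push_cast
    show L * 2 ^ r ≤ _
    linarith [h5.1]

theorem rhat_step {K Γ : Type} [Field K] [LinearOrderedCommGroupWithZero Γ] (N : PF K Γ)
    {a c : K} (hac : a ≠ c) {Z : K × K} (hZ : Z ≠ 0) :
    N.ht ((Phi a c Z).1 / (Phi a c Z).2) ≤ 2 * N.ht (Z.1 / Z.2) + 2 * (N.ht a + N.ht c) ∧
      2 * N.ht (Z.1 / Z.2) ≤ N.ht ((Phi a c Z).1 / (Phi a c Z).2) + 2 * (N.ht a + N.ht c) := by
  have h0 : N.ht a + N.ht c ≤ 2 * (N.ht a + N.ht c) := by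
    rw [two_mul]
    exact le_self_add
  by_cases h1 : Z.2 = 0
  · have h2 : Z.1 ^ 2 ≠ 0 := pow_ne_zero _ fun e => hZ (Prod.ext e h1)
    have h3 : N.ht 0 = 0 := by simpa using N.ht_natCast 0
    have h4 : (Phi a c Z).1 / (Phi a c Z).2 = a * c⁻¹ := by
      simp only [Phi, h1, zero_pow two_ne_zero, add_zero]
      rw [mul_div_mul_right _ _ h2, div_eq_mul_inv]
    rw [h4, h1, div_zero, h3, mul_zero, zero_add]
    refine ⟨((N.ht_mul_le _ _).trans ?_).trans h0, zero_le⟩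
    rw [N.ht_inv]
  have h4 : (Phi a c Z).1 / (Phi a c Z).2 = phi a c (Z.1 / Z.2) := by
    rw [phi, ← mul_div_mul_right (a * (Z.1 / Z.2) ^ 2 + 1) _ (pow_ne_zero 2 h1)]
    congr 1 <;> simp only [Phi] <;> field_simp
  rw [h4]
  refine ⟨(N.ht_phi_le _ _ _).trans (add_le_add le_rfl h0), ?_⟩
  by_cases h5 : c * (Z.1 / Z.2) ^ 2 + 1 = 0
  · have h6 : (Z.1 / Z.2) ^ 2 = -c⁻¹ := by
      have h7 : c ≠ 0 := fun e => by simp [e] at h5
      field_simp
      field_simp at h5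
      linear_combination h5
    have h7 := N.ht_pow (Z.1 / Z.2) 2
    rw [h6, N.ht_neg, N.ht_inv] at h7
    push_cast at h7
    rw [← h7]
    exact (le_add_self.trans h0).trans le_add_self
  · exact N.le_ht_phi hac h5

theorem rhat_pow {k : Type} [Monoid k] {x : k} {p n : ℕ} (h : x ^ p ^ n = x) (m : ℕ) :
    x ^ p ^ (n * m) = x := by
  induction m with
  | zero => simp
  | succ m ih => rw [Nat.mul_succ, pow_add, pow_mul, ih, h]

/-- The reduced orbit is finite. -/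
theorem rhat_finite {p : ℕ} [hp : Fact p.Prime] {k : Type} [Field k] [CharP k p]
    (hk : ∀ x : k, ∃ n, 0 < n ∧ x ^ p ^ n = x) (α γ : k) (b : Bool) :
    (Set.range (orb α γ b)).Finite := by
  obtain ⟨n, hn, h1⟩ := hk α
  obtain ⟨m, hm, h2⟩ := hk γ
  have h3 : iterateFrobenius k p (n * m) α = α := rhat_pow h1 m
  have h4 : iterateFrobenius k p (n * m) γ = γ := by
    rw [mul_comm]
    exact rhat_pow h2 n
  have h5 : (Polynomial.X ^ p ^ (n * m) - Polynomial.X : Polynomial k) ≠ 0 :=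
    FiniteField.X_pow_card_pow_sub_X_ne_zero k (Nat.mul_pos hn hm).ne' hp.out.one_lt
  have h6 : {x : k | iterateFrobenius k p (n * m) x = x}.Finite := by
    refine (Polynomial.finite_setOf_isRoot h5).subset fun x hx => ?_
    have h7 : x ^ p ^ (n * m) = x := hx
    simp [h7]
  refine (h6.prod h6).subset ?_
  rintro _ ⟨r, rfl⟩
  have h7 := map_orb α γ (iterateFrobenius k p (n * m)) b r
  rw [h3, h4] at h7
  exact ⟨(congrArg Prod.fst h7).symm, (congrArg Prod.snd h7).symm⟩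

theorem rhat_prim {K : Type} [Field K] (v : Valuation K ℝ≥0) {a c : K} (ia : v a ≤ 1)
    (ic : v c ≤ 1) (iu : v (a - c) = 1) (b : Bool) (n : ℕ) :
    max (v (orb a c b n).1) (v (orb a c b n).2) = 1 := by
  induction n with
  | zero => cases b <;> simp [orb, crit]
  | succ n ih =>
    rw [orb_succ]
    generalize orb a c b n = Z at ih
    have h1 : v Z.1 ≤ 1 := (le_max_left _ _).trans ih.le
    have h2 : v Z.2 ≤ 1 := (le_max_right _ _).trans ih.le
    have h3 : ∀ x : K, v x ≤ 1 → v (x * Z.1 ^ 2 + Z.2 ^ 2) ≤ 1 := fun x hx => by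
      refine v.map_add_le ?_ ?_
      · rw [map_mul, map_pow]
        exact mul_le_one' hx (pow_le_one' h1 2)
      · rw [map_pow]
        exact pow_le_one' h2 2
    refine le_antisymm (max_le (h3 a ia) (h3 c ic)) (not_lt.1 fun h4 => ?_)
    rw [max_lt_iff] at h4
    have h5 : v (Z.1 ^ 2) < 1 := by
      have h6 := v.map_sub_lt h4.1 h4.2
      rwa [show (Phi a c Z).1 - (Phi a c Z).2 = (a - c) * Z.1 ^ 2 by simp only [Phi]; ring,
        map_mul, iu, one_mul] at h6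
    have h6 : v (Z.2 ^ 2) < 1 := by
      have h7 : v (a * Z.1 ^ 2) < 1 := by
        rw [map_mul]
        exact mul_lt_one_of_nonneg_of_lt_one_right ia zero_le h5
      have h8 := v.map_sub_lt h4.1 h7
      rwa [show (Phi a c Z).1 - a * Z.1 ^ 2 = Z.2 ^ 2 by simp only [Phi]; ring] at h8
    rw [map_pow, pow_lt_one_iff_of_nonneg zero_le two_ne_zero] at h5 h6
    exact absurd ih (max_lt h5 h6).ne

namespace Std
variable {p : ℕ} [Fact p.Prime] {k T : Type} [Field k] [CharP k p] [Field T]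
  [Algebra k T] (S : Std p k T)

/-- `h` is the canonical height of the critical orbit `b`. -/
def IsHat (a c : T) (b : Bool) (h : ℝ≥0) : Prop :=
  ∃ C : ℝ≥0, ∀ r : ℕ, S.toPF.ht (vv a c b r) ≤ h * 2 ^ r + C ∧
    (h : ℝ≥0∞) * 2 ^ r ≤ S.toPF.ht (vv a c b r) + C

theorem exists_hat {a c : T} (h : a ≠ c) (b : Bool) : ∃ h, S.IsHat a c b h := by
  have h1 : ∀ z, ∃ u : ℝ≥0, S.toPF.ht z = u := fun z =>
    ⟨_, (ENNReal.coe_toNNReal (S.ht_lt z).ne).symm⟩
  choose u hu using h1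
  have h2 : ∀ r, u (vv a c b (r + 1)) ≤ 2 * u (vv a c b r) + 2 * (u a + u c) ∧
      2 * u (vv a c b r) ≤ u (vv a c b (r + 1)) + 2 * (u a + u c) := fun r => by
    have h3 := rhat_step S.toPF h (orb_ne_zero h b (r + 1))
    rw [← orb_succ] at h3
    simp only [hu] at h3
    exact ⟨by exact_mod_cast h3.1, by exact_mod_cast h3.2⟩
  obtain ⟨L, hL⟩ := rhat_limit (u := fun r => u (vv a c b r)) (fun r => (h2 r).1)
    fun r => (h2 r).2
  refine ⟨L, 2 * (u a + u c), fun r => ?_⟩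
  rw [hu]
  exact ⟨by exact_mod_cast (hL r).1, by exact_mod_cast (hL r).2⟩

omit [Fact p.Prime] [CharP k p] in
theorem rhat_shift {a c : T} (hac : a ≠ c) {b b' : Bool} {m n : ℕ}
    (e : wedge (orb a c b m) (orb a c b' n) = 0) {h h' : ℝ≥0} (hh : S.IsHat a c b h)
    (hh' : S.IsHat a c b' h') : h * 2 ^ m = h' * 2 ^ n := by
  obtain ⟨C, hC⟩ := hh
  obtain ⟨C', hC'⟩ := hh'
  refine le_antisymm (rhat_le (C := C' + C) fun j => ?_) (rhat_le (C := C + C') fun j => ?_)
  · have h1 := (hC (m + j)).2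
    rw [rhat_vv_eq hac e j] at h1
    have h2 := h1.trans (add_le_add (hC' (n + j)).1 le_rfl)
    rw [mul_assoc, mul_assoc, ← pow_add, ← pow_add, ← add_assoc]
    exact_mod_cast h2
  · have h1 := (hC' (n + j)).2
    rw [← rhat_vv_eq hac e j] at h1
    have h2 := h1.trans (add_le_add (hC (m + j)).1 le_rfl)
    rw [mul_assoc, mul_assoc, ← pow_add, ← pow_add, ← add_assoc]
    exact_mod_cast h2

omit [Fact p.Prime] [CharP k p] in
theorem rhat_mul (w : S.W) {x y : T} {ξ η : k} (hx : S.v w (x - algebraMap k T ξ) < 1)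
    (hy : S.v w (y - algebraMap k T η) < 1) : S.v w (x * y - algebraMap k T (ξ * η)) < 1 := by
  have h1 : S.v w x ≤ 1 := by simpa using (S.v w).map_add_le hx.le (S.v_k w ξ)
  rw [show x * y - algebraMap k T (ξ * η) =
    x * (y - algebraMap k T η) + (x - algebraMap k T ξ) * algebraMap k T η by rw [map_mul]; ring]
  refine (S.v w).map_add_lt ?_ ?_ <;> rw [map_mul]
  · exact mul_lt_one_of_nonneg_of_lt_one_right h1 zero_le hy
  · exact mul_lt_one_of_nonneg_of_lt_one_left zero_le hx (S.v_k w η)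

omit [Fact p.Prime] [CharP k p] in
theorem rhat_add (w : S.W) {x y : T} {ξ η : k} (hx : S.v w (x - algebraMap k T ξ) < 1)
    (hy : S.v w (y - algebraMap k T η) < 1) : S.v w (x + y - algebraMap k T (ξ + η)) < 1 := by
  rw [show x + y - algebraMap k T (ξ + η) =
    (x - algebraMap k T ξ) + (y - algebraMap k T η) by rw [map_add]; ring]
  exact (S.v w).map_add_lt hx hy

theorem rhat_local (hk : ∀ x : k, ∃ n, 0 < n ∧ x ^ p ^ n = x) (w : S.W) {a c : T}
    (ia : S.v w a ≤ 1) (ic : S.v w c ≤ 1) (b : Bool) : ∃ κ : ℕ → k × k, (Set.range κ).Finite ∧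
      ∀ m n, κ m = κ n → S.v w (wedge (orb a c b m) (orb a c b n)) < 1 := by
  obtain ⟨α, hα⟩ := S.residue w a ia
  obtain ⟨γ, hγ⟩ := S.residue w c ic
  have h1 : ∀ n, S.v w ((orb a c b n).1 - algebraMap k T (orb α γ b n).1) < 1 ∧
      S.v w ((orb a c b n).2 - algebraMap k T (orb α γ b n).2) < 1 := by
    intro n
    induction n with
    | zero => cases b <;> simp [orb, crit]
    | succ n ih =>
      rw [orb_succ, orb_succ]
      simp only [Phi, sq]
      exact ⟨S.rhat_add w (S.rhat_mul w hα (S.rhat_mul w ih.1 ih.1)) (S.rhat_mul w ih.2 ih.2),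
        S.rhat_add w (S.rhat_mul w hγ (S.rhat_mul w ih.1 ih.1)) (S.rhat_mul w ih.2 ih.2)⟩
  refine ⟨orb α γ b, rhat_finite hk α γ b, fun m n e => ?_⟩
  have h2 := S.rhat_mul w (h1 m).1 (h1 n).2
  have h3 := S.rhat_mul w (h1 m).2 (h1 n).1
  rw [e] at h2 h3
  rw [mul_comm (orb α γ b n).2] at h3
  have h4 := (S.v w).map_sub_lt h2 h3
  rwa [sub_sub_sub_cancel_right] at h4

omit [Fact p.Prime] [CharP k p] in
theorem rhat_mem {a c : T} (ha : a ∈ S.K0) (hc : c ∈ S.K0) (b : Bool) (n : ℕ) :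
    (orb a c b n).1 ∈ S.K0 ∧ (orb a c b n).2 ∈ S.K0 := by
  induction n with
  | zero => cases b <;> simp [orb, crit]
  | succ n ih =>
    rw [orb_succ]
    exact ⟨add_mem (mul_mem ha (pow_mem ih.1 2)) (pow_mem ih.2 2),
      add_mem (mul_mem hc (pow_mem ih.1 2)) (pow_mem ih.2 2)⟩

omit [Fact p.Prime] [CharP k p] in
theorem rhat_mass {X Y : T × T} (hX : X.2 ≠ 0) (hY : Y.2 ≠ 0) (hw : wedge X Y ≠ 0) {E : Set S.W}
    (h1 : ∀ w ∈ E, max (S.v w X.1) (S.v w X.2) = 1) (h2 : ∀ w ∈ E, max (S.v w Y.1) (S.v w Y.2) = 1)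
    (h3 : ∀ w ∈ E, S.v w (wedge X Y) ≤ S.q⁻¹) :
    S.toPF.mass E ≤ S.toPF.ht (X.1 / X.2) + S.toPF.ht (Y.1 / Y.2) := by
  have e : (X.1 / X.2 - Y.1 / Y.2) * (X.2 * Y.2) = wedge X Y := by
    rw [wedge]
    field_simp
  have h0 : X.1 / X.2 - Y.1 / Y.2 ≠ 0 := fun h => hw (by rw [← e, h, zero_mul])
  have h4 := S.pf _ h0 (fun w => max 1 (S.v w (X.1 / X.2)) * max 1 (S.v w (Y.1 / Y.2)))
    (fun w => one_le_mul (le_max_left _ _) (le_max_left _ _)) fun w => by
      refine (S.v w).map_sub_le ?_ ?_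
      · exact (le_max_right _ _).trans (le_mul_of_one_le_right' (le_max_left _ _))
      · exact (le_max_right _ _).trans (le_mul_of_one_le_left' (le_max_left _ _))
  have h5 : ∀ (Z : T × T) (w : S.W), Z.2 ≠ 0 → max (S.v w Z.1) (S.v w Z.2) = 1 →
      max 1 (S.v w (Z.1 / Z.2)) * S.v w Z.2 = 1 := fun Z w hZ h => by
    rw [max_mul_of_nonneg _ _ zero_le, one_mul, ← map_mul, div_mul_cancel₀ _ hZ, max_comm, h]
  have h6 := S.toPF.mass_le_I (E := E) (m := 1) (f := fun w => max 1 (S.v w (X.1 / X.2)) *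
      max 1 (S.v w (Y.1 / Y.2)) / S.v w (X.1 / X.2 - Y.1 / Y.2)) fun w hE => by
    have e1 := h5 X w hX (h1 w hE)
    have e2 := h5 Y w hY (h2 w hE)
    have e3 := h3 w hE
    have e4 : 0 < S.v w (X.1 / X.2 - Y.1 / Y.2) := (S.v w).pos_iff.2 h0
    have e5 : (0 : ℝ≥0) < S.q := one_pos.trans S.one_lt_q
    rw [← e, map_mul, map_mul] at e3
    rw [pow_one, le_div_iff₀ e4]
    generalize max 1 (S.v w (X.1 / X.2)) = A at *
    generalize max 1 (S.v w (Y.1 / Y.2)) = B at *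
    generalize S.v w (X.1 / X.2 - Y.1 / Y.2) = D at *
    calc S.q * D = S.q * D * ((A * S.v w X.2) * (B * S.v w Y.2)) := by rw [e1, e2]; ring
      _ = S.q * (D * (S.v w X.2 * S.v w Y.2)) * (A * B) := by ring
      _ ≤ S.q * S.q⁻¹ * (A * B) := by gcongr
      _ = A * B := by rw [mul_inv_cancel₀ e5.ne', one_mul]
  rw [Nat.cast_one, one_mul] at h6
  refine h6.trans (h4.trans ((S.I_mul _ _).trans ?_))
  rw [S.toPF.I_max_one, S.toPF.I_max_one]
  exact le_rfl

/-- Northcott property along an orbit with good reduction. -/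
theorem hat_pos (hk : ∀ x : k, ∃ n, 0 < n ∧ x ^ p ^ n = x) {a c : T} (ha : a ∈ S.K0)
    (hc : c ∈ S.K0) (ia : ∀ w ∈ S.fin, S.v w a ≤ 1) (ic : ∀ w ∈ S.fin, S.v w c ≤ 1)
    (iu : ∀ w ∈ S.fin, S.v w (a - c) = 1) (hac : a ≠ c) {b : Bool}
    (hinj : ∀ m n, wedge (orb a c b m) (orb a c b n) = 0 → m = n) {h : ℝ≥0}
    (hh : S.IsHat a c b h) : h ≠ 0 := by
  classical
  rintro rfl
  obtain ⟨C, hC⟩ := hh
  have h1 : ∀ r, S.toPF.ht (vv a c b r) ≤ C := fun r => by simpa using (hC r).1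
  obtain ⟨M, hM⟩ := exists_nat_gt (C + C)
  obtain ⟨E, s, hE, hM', hs⟩ := S.fibres M
  have hw : ∀ m n, wedge (orb a c b m) (orb a c b n) ∈ S.K0 := fun m n =>
    sub_mem (mul_mem (S.rhat_mem ha hc b m).1 (S.rhat_mem ha hc b n).2)
      (mul_mem (S.rhat_mem ha hc b m).2 (S.rhat_mem ha hc b n).1)
  have h2 : ∀ w' : S.W, ∃ κ : ℕ → k × k, (Set.range κ).Finite ∧ ∀ w ∈ E,
      (∀ z ∈ S.K0, S.v w z = S.v w' z) → ∀ m n, κ m = κ n →
        S.v w (wedge (orb a c b m) (orb a c b n)) < 1 := by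
    intro w'
    by_cases h3 : ∃ w ∈ E, ∀ z ∈ S.K0, S.v w z = S.v w' z
    · obtain ⟨w₀, e1, e2⟩ := h3
      obtain ⟨κ, f1, f2⟩ := S.rhat_local hk w₀ (ia _ (S.good_fin (hE e1)))
        (ic _ (S.good_fin (hE e1))) b
      refine ⟨κ, f1, fun w _ e3 m n e4 => ?_⟩
      rw [e3 _ (hw m n), ← e2 _ (hw m n)]
      exact f2 m n e4
    · exact ⟨fun _ => 0, Set.finite_range_const, fun w e1 e2 => absurd ⟨w, e1, e2⟩ h3⟩
  choose κ hκ hκ' using h2
  have h3 : {r : ℕ | (orb a c b (r + 1)).2 = 0}.Finite := by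
    refine Set.Subsingleton.finite fun m hm n hn => Nat.succ_injective (hinj _ _ ?_)
    rw [wedge, show (orb a c b m.succ).2 = 0 from hm, show (orb a c b n.succ).2 = 0 from hn]
    ring
  have h4 : (Set.univ.pi fun w' : s => Set.range (κ w')).Finite := Set.Finite.pi fun w' => hκ _
  obtain ⟨m, hm, n, hn, hmn, e⟩ := h3.infinite_compl.exists_ne_map_eq_of_mapsTo
    (f := fun (r : ℕ) (w' : s) => κ w' (r + 1)) (t := Set.univ.pi fun w' : s => Set.range (κ w'))
    (fun r _ w' _ => ⟨_, rfl⟩) h4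
  have h5 := fun (r : ℕ) (w : S.W) (h : w ∈ E) => rhat_prim (S.v w) (ia _ (S.good_fin (hE h)))
    (ic _ (S.good_fin (hE h))) (iu _ (S.good_fin (hE h))) b r
  have h6 := S.rhat_mass (X := orb a c b (m + 1)) (Y := orb a c b (n + 1)) hm hn
    (fun e => hmn (Nat.succ_injective (hinj _ _ e))) (h5 _) (h5 _) fun w h => by
      obtain ⟨w', e1, e2⟩ := hs w h
      exact S.disc w (hE h) _ (S.K0_le w (hE h) _ (hw _ _))
        (hκ' w' w h e2 _ _ (congrFun e ⟨w', e1⟩))
  have h7 : (M : ℝ≥0∞) ≤ C + C := hM'.trans (h6.trans (add_le_add (h1 m) (h1 n)))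
  exact absurd (by exact_mod_cast h7) (not_le.2 hM)

theorem hat_eq_zero {a c : T} (hac : a ≠ c) {b : Bool} {m n : ℕ} (hmn : m ≠ n)
    (e : wedge (orb a c b m) (orb a c b n) = 0) {h : ℝ≥0} (hh : S.IsHat a c b h) : h = 0 := by
  by_contra h0
  exact hmn (pow_right_injective₀ two_pos (by norm_num)
    (mul_left_cancel₀ h0 (S.rhat_shift hac e hh hh)))

theorem hypEq_of_hat {a c : T} (hH : HypH a c)
    (col : ∀ n, 1 ≤ n → wedge (orb a c false n) (orb a c true n) ≠ 0) {h : ℝ≥0} (h0 : h ≠ 0)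
    (h1 : S.IsHat a c false h) (h2 : S.IsHat a c true h) : HypEq a c := by
  have h3 : ∀ b, S.IsHat a c b h := fun b => by cases b <;> assumption
  have h4 : ∀ n, wedge (orb a c false n) (orb a c true n) ≠ 0 := fun n => by
    rcases n.eq_zero_or_pos with rfl | hn
    · simp [orb, crit, wedge]
    · exact col n hn
  refine ⟨hH.two, hH.ne, fun b b' m n e => ?_⟩
  obtain rfl : m = n := pow_right_injective₀ two_pos (by norm_num)
    (mul_left_cancel₀ h0 (S.rhat_shift hH.ne e (h3 b) (h3 b')))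
  refine ⟨?_, rfl⟩
  cases b <;> cases b'
  · rfl
  · exact absurd e (h4 m)
  · refine absurd ?_ (h4 m)
    rw [wedge] at e ⊢
    linear_combination -e
  · rfl

end Std

end JR
end

-- merged part: Pool.Agent.Work.MP_969914_nt.RPull2
section
/-! Restriction of pull-backs to critical points. -/

set_option autoImplicit false

namespace JR

open Polynomial

variable {k0 : Type} [Field k0] {H : HD k0} {P Q : k0[X]} {D m : ℕ}

/-- A simple critical point `c` of `P / Q` with critical value `v`. -/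
structure CritPt (P Q : k0[X]) (c v : k0) : Prop where
  q : Q.eval c ≠ 0
  w : (Wr P Q).eval c = 0
  w' : (derivative (Wr P Q)).eval c ≠ 0
  val : P.eval c / Q.eval c = v

/-- The variables `(b, i)` with `l b ≤ i < l b + n b`. -/
def rpull2_W (l n : Bool → ℕ) : Finset Vr :=
  ({false} ×ˢ Finset.Ico (l false) (l false + n false)) ∪
    ({true} ×ˢ Finset.Ico (l true) (l true + n true))

theorem rpull2_mem {l n : Bool → ℕ} {b : Bool} {i : ℕ} :
    (b, i) ∈ rpull2_W l n ↔ l b ≤ i ∧ i < l b + n b := by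
  cases b <;> simp [rpull2_W]

theorem rpull2_card (l n : Bool → ℕ) : (rpull2_W l n).card = n false + n true := by
  rw [rpull2_W, Finset.card_union_of_disjoint]
  · simp
  · exact Finset.disjoint_product.2 (Or.inl (by simp))

section side
variable {L : Type} [Field L] [Algebra k0 L]

/-- The jets `x, y` of orders `0, 1` are based at a regular point (`e = 0`) or at a simple critical point (`e = 1`). -/
def rpull2_Side (H : HD k0) (P Q : k0[X]) (x y : L) (e : ℕ) : Prop :=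
  (e = 0 ∧ aeval x Q ≠ 0 ∧ aeval x (Wr P Q) ≠ 0) ∨
    (e = 1 ∧ ∃ c v, CritPt P Q c v ∧ x = algebraMap k0 L c ∧ y ≠ algebraMap k0 L (H.D 1 c))

theorem rpull2_sub {ω ω' : Vr → L} {u : Vr} {c : k0} (h1 : ω' u = algebraMap k0 L c)
    (h2 : ∀ s, s ≠ u → ω' s = ω s) (f : MvPolynomial Vr k0) :
    MvPolynomial.aeval ω' f = MvPolynomial.aeval ω (sub1 u c f) := by
  rw [aeval_sub1]
  refine congrArg (fun w : Vr → L => MvPolynomial.aeval w f) (funext fun s => ?_)
  split_ifs with h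
  · rw [h, h1]
  · exact h2 s h

theorem rpull2_q {x y : L} {e : ℕ} (h : rpull2_Side H P Q x y e) : aeval x Q ≠ 0 := by
  rcases h with ⟨-, h, -⟩ | ⟨-, c, v, h, h1, -⟩
  · exact h
  · rw [h1, aeval_algebraMap_apply, coe_aeval_eq_eval]
    exact (_root_.map_ne_zero _).2 h.q

theorem rpull2_acl (h2 : (2 : k0) ≠ 0) {ω : Vr → L} {e n : Bool → ℕ}
    (h : ∀ b, rpull2_Side H P Q (ω (b, 0)) (ω (b, 1)) (e b)) :
    ∀ s ∈ rpull2_W e n, ω s ∈ acl k0 (jpt2 H P Q ω '' rpull2_W (fun b => 2 * e b) n) := by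
  rintro ⟨b, i⟩ hs
  rw [rpull2_mem] at hs
  rcases h b with ⟨he, h3, h4⟩ | ⟨he, c, v, hc, h3, h4⟩
  · refine mem_acl_jpt H P Q (ξ := fun i => ω (b, i)) h3 h4 fun m hm =>
      subset_acl _ ⟨(b, m), ?_, rfl⟩
    rw [Finset.mem_coe, rpull2_mem]
    omega
  · refine mem_acl_jpt_crit H P Q h2 (ξ := fun i => ω (b, i)) h3 hc.q hc.w hc.w' h4
      fun m hm hm' => subset_acl _ ⟨(b, m), ?_, rfl⟩
    rw [Finset.mem_coe, rpull2_mem]
    omega

theorem rpull2_ev {f g : MvPolynomial Vr k0} (h : IsPull H P Q D m f g) {ω : Vr → L}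
    {e : Bool → ℕ} (hs : ∀ b, rpull2_Side H P Q (ω (b, 0)) (ω (b, 1)) (e b))
    (h0 : MvPolynomial.aeval ω g = 0) : MvPolynomial.aeval (jpt2 H P Q ω) f = 0 := by
  have hq : ∀ b, aeval (ω (b, 0)) Q ≠ 0 := fun b => rpull2_q (hs b)
  rw [h.ev L ω hq] at h0
  exact (mul_eq_zero.1 h0).resolve_left (pow_ne_zero _ (mul_ne_zero (hq _) (hq _)))

theorem rpull2_spec {ω : Vr → L} {b : Bool} {c v : k0} (hc : CritPt P Q c v)
    (h : ω (b, 0) = algebraMap k0 L c) (f : MvPolynomial Vr k0) :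
    MvPolynomial.aeval (jpt2 H P Q ω) (spec2 b v (H.D 1 v) f) =
      MvPolynomial.aeval (jpt2 H P Q ω) f := by
  obtain ⟨h1, h2⟩ := jpt_crit H P Q (ξ := fun i => ω (b, i)) h hc.q hc.w
  rw [hc.val] at h1 h2
  rw [spec2, AlgHom.comp_apply, aeval_sub1_of_eq (u := (b, 1)) h2, aeval_sub1_of_eq (u := (b, 0)) h1]

theorem rpull2_trans {ω : Vr → L} (h : Ind k0 ω Set.univ) (s : Vr) : Transcendental k0 (ω s) :=
  ind_singleton.1 (h.mono (Set.subset_univ _))

theorem rpull2_ne {x : L} (h : Transcendental k0 x) (c : k0) : x ≠ algebraMap k0 L c :=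
  fun e => h (e ▸ isAlgebraic_algebraMap c)

theorem rpull2_reg {x : L} (h : Transcendental k0 x) {c v : k0} (hc : CritPt P Q c v) :
    aeval x Q ≠ 0 ∧ aeval x (Wr P Q) ≠ 0 := by
  refine ⟨fun e => h ⟨Q, fun e1 => hc.q ?_, e⟩, fun e => h ⟨Wr P Q, fun e1 => hc.w' ?_, e⟩⟩
  · rw [e1, eval_zero]
  · rw [e1, derivative_zero, eval_zero]

theorem rpull2_zero (h2 : (2 : k0) ≠ 0) {ω : Vr → L} {e n : Bool → ℕ}
    (hs : ∀ b, rpull2_Side H P Q (ω (b, 0)) (ω (b, 1)) (e b)) (hi : Ind k0 ω (rpull2_W e n))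
    {F : MvPolynomial Vr k0} (hF : On (rpull2_W (fun b => 2 * e b) n) F)
    (h0 : MvPolynomial.aeval (jpt2 H P Q ω) F = 0) : F = 0 :=
  (ind_of_card hi (rpull2_acl h2 hs) (by rw [rpull2_card, rpull2_card])).1 F hF h0

end side

theorem rpull2_box (f : MvPolynomial Vr k0) : ∃ A, On (box A A) f := by
  obtain ⟨U, -, hU⟩ := exists_on_finset (V := Set.univ) f fun s hs => absurd (Set.mem_univ s) hs
  refine ⟨U.sup Prod.snd + 1, hU.mono fun s hs => ?_⟩
  have : s.2 ≤ U.sup Prod.snd := Finset.le_sup (f := Prod.snd) hs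
  simp only [box, ite_self, Set.mem_ofPred_eq]
  omega

theorem rpull2_on {V : Set Vr} {f : MvPolynomial Vr k0} (h : On V f) (b : Bool) (l0 l1 : k0) :
    On ((V \ {(b, 0)}) \ {(b, 1)}) (spec2 b l0 l1 f) :=
  (h.sub1 (b, 0) l0).sub1 (b, 1) l1

theorem IsPull.ne_zero_one (h2 : (2 : k0) ≠ 0) {f g : MvPolynomial Vr k0}
    (h : IsPull H P Q D m f g) (b : Bool) {c v : k0} (hc : CritPt P Q c v)
    (hf : spec2 b v (H.D 1 v) f ≠ 0) : sub1 (b, 0) c g ≠ 0 := by
  classical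
  intro h0
  obtain ⟨L, _, _, ω₀, hω⟩ := exists_generic_zero (k0 := k0) (σ := Vr)
  obtain ⟨A, hA⟩ := rpull2_box f
  let ω : Vr → L := fun s => if s = (b, 0) then algebraMap k0 L c else ω₀ s
  let e : Bool → ℕ := fun b' => if b' = b then 1 else 0
  have e0 : ω (b, 0) = algebraMap k0 L c := if_pos rfl
  have hs : ∀ b', rpull2_Side H P Q (ω (b', 0)) (ω (b', 1)) (e b') := by
    intro b'
    by_cases hb : b' = b
    · subst hb
      refine Or.inr ⟨if_pos rfl, c, v, hc, e0, ?_⟩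
      have : ω (b', 1) = ω₀ (b', 1) := if_neg (by simp)
      exact this ▸ rpull2_ne (rpull2_trans hω _) _
    · have : ω (b', 0) = ω₀ (b', 0) := if_neg (by simp [hb])
      exact Or.inl ⟨if_neg hb, this ▸ rpull2_reg (rpull2_trans hω _) hc⟩
  have h1 : MvPolynomial.aeval ω g = 0 := by
    rw [rpull2_sub (ω := ω₀) e0 fun s hs => if_neg hs, h0, map_zero]
  refine hf (rpull2_zero h2 (n := fun _ => A) hs ?_ ?_ ?_)
  · refine (hω.mono (Set.subset_univ _)).congr ?_
    rintro ⟨b', i⟩ hi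
    rw [Finset.mem_coe, rpull2_mem] at hi
    refine (if_neg ?_).symm
    rintro ⟨⟩
    simp [e] at hi
  · refine (rpull2_on hA b _ _).mono ?_
    rintro ⟨b', i⟩ ⟨⟨h3, h4⟩, h5⟩
    rw [Finset.mem_coe, rpull2_mem]
    simp only [box, ite_self, Set.mem_ofPred_eq, Set.mem_singleton_iff, Prod.mk.injEq] at h3 h4 h5
    by_cases hb : b' = b
    · simp only [e, hb, true_and, if_true] at h4 h5 ⊢
      omega
    · simp only [e, hb, if_false]
      omega
  · rw [rpull2_spec hc e0, rpull2_ev h hs h1]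

theorem IsPull.ne_zero_two (h2 : (2 : k0) ≠ 0) {f g : MvPolynomial Vr k0}
    (h : IsPull H P Q D m f g) {c v c' v' : k0} (hc : CritPt P Q c v) (hc' : CritPt P Q c' v')
    (hf : spec2 false v (H.D 1 v) (spec2 true v' (H.D 1 v') f) ≠ 0) :
    sub1 (false, 0) c (sub1 (true, 0) c' g) ≠ 0 := by
  classical
  intro h0
  obtain ⟨L, _, _, ω₀, hω⟩ := exists_generic_zero (k0 := k0) (σ := Vr)
  obtain ⟨A, hA⟩ := rpull2_box f
  let ω : Vr → L := fun s => if s = (true, 0) then algebraMap k0 L c' else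
    if s = (false, 0) then algebraMap k0 L c else ω₀ s
  have e0 : ω (false, 0) = algebraMap k0 L c := by simp [ω]
  have e1 : ω (true, 0) = algebraMap k0 L c' := by simp [ω]
  have e2 : ∀ b i, 1 ≤ i → ω (b, i) = ω₀ (b, i) := fun b i hi => by
    have : i ≠ 0 := by omega
    simp [ω, this]
  have hs : ∀ b, rpull2_Side H P Q (ω (b, 0)) (ω (b, 1)) 1 := by
    intro b
    cases b
    · exact Or.inr ⟨rfl, c, v, hc, e0, e2 false 1 le_rfl ▸ rpull2_ne (rpull2_trans hω _) _⟩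
    · exact Or.inr ⟨rfl, c', v', hc', e1, e2 true 1 le_rfl ▸ rpull2_ne (rpull2_trans hω _) _⟩
  have h1 : MvPolynomial.aeval ω g = 0 := by
    rw [rpull2_sub (ω := fun s => if s = (false, 0) then algebraMap k0 L c else ω₀ s) e1
      fun s hs => if_neg hs, rpull2_sub (ω := ω₀) (u := (false, 0)) (c := c)
      (ω' := fun s => if s = (false, 0) then algebraMap k0 L c else ω₀ s) (if_pos rfl)
      fun s hs => if_neg hs, h0, map_zero]
  refine hf (rpull2_zero h2 (e := fun _ => 1) (n := fun _ => A) hs ?_ ?_ ?_)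
  · refine (hω.mono (Set.subset_univ _)).congr ?_
    rintro ⟨b, i⟩ hi
    rw [Finset.mem_coe, rpull2_mem] at hi
    exact (e2 b i hi.1).symm
  · refine (rpull2_on (rpull2_on hA true _ _) false _ _).mono ?_
    rintro ⟨b, i⟩ ⟨⟨⟨⟨h3, h4⟩, h5⟩, h6⟩, h7⟩
    rw [Finset.mem_coe, rpull2_mem]
    simp only [box, ite_self, Set.mem_ofPred_eq, Set.mem_singleton_iff, Prod.mk.injEq]
      at h3 h4 h5 h6 h7
    cases b
    · simp only [true_and] at h6 h7
      omega
    · simp only [true_and] at h4 h5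
      omega
  · rw [rpull2_spec hc e0, rpull2_spec hc' e1, rpull2_ev (e := fun _ => 1) h hs h1]

/-- Common factors of the restricted pull-backs of a coprime pair. -/
theorem IsPull.common (h2 : (2 : k0) ≠ 0) {f f' g g' : MvPolynomial Vr k0} {A B : ℕ}
    (h : IsPull H P Q D m f g) (h' : IsPull H P Q D m f' g') (hf : On (box (A + 1) (B + 2)) f)
    (hf' : On (box (A + 1) (B + 2)) f') {c v : k0} (hc : CritPt P Q c v)
    (hrel : IsRelPrime (spec2 true v (H.D 1 v) f) (spec2 true v (H.D 1 v) f'))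
    (h0 : spec2 true v (H.D 1 v) f ≠ 0) (π : MvPolynomial Vr k0) (hπ : Irreducible π)
    (d1 : π ∣ sub1 (true, 0) c g) (d2 : π ∣ sub1 (true, 0) c g') :
    π ∣ aeval (MvPolynomial.X (false, 0) : MvPolynomial Vr k0) (Q * Wr P Q) *
      (MvPolynomial.X (true, 1) - MvPolynomial.C (H.D 1 c)) := by
  classical
  by_contra hn
  obtain ⟨L, _, _, ω₀, hω, u, hu, hi⟩ := exists_generic hπ
  rw [← hω, map_mul, mul_eq_zero, not_or, ← aeval_algHom_apply, MvPolynomial.aeval_X, map_mul,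
    mul_eq_zero, not_or, map_sub, MvPolynomial.aeval_X, MvPolynomial.aeval_C, sub_eq_zero] at hn
  let ω : Vr → L := fun s => if s = (true, 0) then algebraMap k0 L c else ω₀ s
  let e : Bool → ℕ := fun b => if b then 1 else 0
  let n : Bool → ℕ := fun b => if b then B else A + 1
  have e0 : ω (true, 0) = algebraMap k0 L c := if_pos rfl
  have e1 : ω (false, 0) = ω₀ (false, 0) := if_neg (by simp)
  have e2 : ω (true, 1) = ω₀ (true, 1) := if_neg (by simp)
  have hs : ∀ b, rpull2_Side H P Q (ω (b, 0)) (ω (b, 1)) (e b) := by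
    intro b
    cases b
    · exact Or.inl ⟨rfl, e1 ▸ hn.1⟩
    · exact Or.inr ⟨rfl, c, v, hc, e0, e2 ▸ hn.2⟩
  have hev : ∀ {F G : MvPolynomial Vr k0}, IsPull H P Q D m F G → π ∣ sub1 (true, 0) c G →
      MvPolynomial.aeval (jpt2 H P Q ω) (spec2 true v (H.D 1 v) F) = 0 := by
    intro F G hF hG
    rw [rpull2_spec hc e0]
    refine rpull2_ev hF hs ?_
    rw [rpull2_sub (ω := ω₀) e0 fun s hs => if_neg hs, (hω _).2 hG]
  have hon : ∀ {F : MvPolynomial Vr k0}, On (box (A + 1) (B + 2)) F →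
      On (rpull2_W (fun b => 2 * e b) n) (spec2 true v (H.D 1 v) F) := by
    intro F hF
    refine (rpull2_on hF true _ _).mono ?_
    rintro ⟨b, i⟩ ⟨⟨h3, h4⟩, h5⟩
    rw [Finset.mem_coe, rpull2_mem]
    cases b
    · simpa [box, e, n] using h3
    · simp only [box, Set.mem_ofPred_eq, Set.mem_singleton_iff, Prod.mk.injEq, true_and,
        if_true] at h3 h4 h5
      simp only [e, n, if_true]
      omega
  have hu' : u ∈ rpull2_W e n := by
    by_contra h3
    refine hu ((h.crity (A + 1) (B + 1) c hc.w hf).of_dvd (h.ne_zero_one h2 true hc h0) d1 u ?_)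
    rintro ⟨h4, h5⟩
    obtain ⟨b, i⟩ := u
    rw [rpull2_mem] at h3
    cases b
    · simp [box, e, n] at h3 h4
      omega
    · simp only [box, Set.mem_ofPred_eq, Set.mem_singleton_iff, Prod.mk.injEq, true_and,
        if_true] at h4 h5
      simp only [e, n, if_true] at h3
      omega
  have hI : Ind k0 ω ((rpull2_W e n).erase u) := by
    refine (hi.mono fun s hs' => (Finset.mem_erase.1 hs').1).congr ?_
    rintro ⟨b, i⟩ h3
    have h4 := rpull2_mem.1 (Finset.mem_erase.1 h3).2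
    refine (if_neg ?_).symm
    rintro ⟨⟩
    simp [e] at h4
  obtain ⟨u', -, h3⟩ := exists_ind_erase hI
    (fun s hs' => rpull2_acl h2 hs s (Finset.mem_erase.1 hs').2)
    (by rw [Finset.card_erase_add_one hu', rpull2_card, rpull2_card])
    ⟨(false, 0), rpull2_mem.2 (by simp [e, n])⟩
  exact cod2 hrel (hon hf) (hon hf') (hev h d1) (hev h' d2) u' h3

end JR
end

-- merged part: Pool.Agent.Work.MP_969914_nt.ROne
section
/-! All jets of one orbit are independent. -/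

set_option autoImplicit false

namespace JR

open scoped NNReal ENNReal
open Polynomial Filter

namespace NS
variable {p : ℕ} [Fact p.Prime] {K Γ : Type} [Field K] [CharP K p]
  [LinearOrderedCommGroupWithZero Γ] {N : NS p K Γ} {a c : N.toPF.k0} {z : ℤ → K}

omit [Fact p.Prime] [CharP K p] in
theorem rone_int {w : N.W} {α β : K} (h : N.v w (α - β) < 1) (hβ : N.v w β ≤ 1) :
    N.v w α ≤ 1 := by
  have := (N.v w).map_add_le h.le hβ
  rwa [sub_add_cancel] at this

omit [Fact p.Prime] [CharP K p] in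
theorem rone_congr {σ : Type} {Θ : MvPolynomial σ N.toPF.k0} {V : Set σ} (hΘ : On V Θ) (u : σ)
    (c : N.toPF.k0) : ∀ᶠ w in N.toPF.ae, ∀ ω : σ → K, (∀ s ∈ V, N.v w (ω s) ≤ 1) →
      N.v w (ω u - c) < 1 → N.v w (MvPolynomial.aeval ω Θ) < 1 →
      N.v w (MvPolynomial.aeval ω (sub1 u c Θ)) < 1 := by
  classical
  filter_upwards [N.ae_aeval_congr Θ, N.ae_int c.2] with w h1 h2 ω h3 h4 h5
  have h6 := h1 ω (fun s => if s = u then algebraMap _ K c else ω s) (N.v w (ω u - c))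
    fun s hs => by
      have := h3 s (by_contra fun h => hs (hΘ s h))
      split_ifs with e
      · exact ⟨this, h2, by rw [e]; exact le_rfl⟩
      · exact ⟨this, this, by simp⟩
  have h7 := (N.v w).map_sub_lt h5 (h6.trans_lt h4)
  rw [sub_sub_cancel] at h7
  rw [aeval_sub1]
  convert h7

omit [Fact p.Prime] [CharP K p] in
/-- The analytic form of the one relation lemma. -/
theorem mass_le_aux_one {σ : Type} [DecidableEq σ] (ω : σ → K) (x y : σ) (Z : Finset σ)
    (hxy : x ≠ y) (hx : x ∉ Z) (hy : y ∉ Z) (I : Finset (N.toPF.k0 × N.toPF.k0))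
    (F : N.toPF.k0 × N.toPF.k0 → MvPolynomial σ N.toPF.k0) (m d d' e : ℕ)
    (hF : ∀ c ∈ I, F c ≠ 0 ∧ On (Z : Set σ) (F c) ∧ ∀ s ∈ Z, (F c).degreeOf s ≤ m)
    (hc : I.card * (Z.card * m * (e + 1) ^ (Z.card - 1)) < (d + 1) * (d' + 1) * (e + 1) ^ Z.card)
    (hnz : ∀ Θ : MvPolynomial σ N.toPF.k0, On (insert x (insert y Z) : Finset σ) Θ →
      Θ.degreeOf x ≤ d → Θ.degreeOf y ≤ d' → MvPolynomial.aeval ω Θ = 0 → Θ = 0)
    {E : Set N.W} (hE : ∀ᶠ w in N.toPF.ae, w ∈ E → ∃ c ∈ I, N.v w (ω x - c.1) < 1 ∧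
      N.v w (ω y - c.2) < 1 ∧ (∀ s ∈ Z, N.v w (ω s) ≤ 1) ∧
      N.v w (MvPolynomial.aeval ω (F c)) < 1) :
    N.toPF.mass E ≤ d * N.toPF.ht (ω x) + d' * N.toPF.ht (ω y) + e * ∑ s ∈ Z, N.toPF.ht (ω s) := by
  obtain ⟨Θ, h0, hon, d1, d2, d3, hdiv⟩ := aux_one x y Z hxy hx hy I F m d d' e hF hc
  have hx' : x ∉ insert y Z := by simp [hxy, hx]
  have key := N.mass_le_of_aux Θ ω (insert x (insert y Z))
    (fun s => if s = x then d else if s = y then d' else e) hon (fun s hs => by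
      split_ifs with e1 e2
      · rwa [e1]
      · rwa [e2]
      · exact d3 s (by simpa [e1, e2] using hs)) (fun h => h0 (hnz Θ hon d1 d2 h)) (E := E) (by
    have h1 : ∀ c ∈ I, ∀ᶠ w in N.toPF.ae, N.v w (ω x - c.1) < 1 → N.v w (ω y - c.2) < 1 →
        (∀ s ∈ Z, N.v w (ω s) ≤ 1) → N.v w (MvPolynomial.aeval ω (F c)) < 1 →
        N.v w (MvPolynomial.aeval ω Θ) < 1 := fun c hcI => by
      have o1 := (hon.sub1 y c.2).mono Set.sdiff_subset
      have o2 : On ((insert x (insert y Z) : Finset σ) : Set σ) (F c) :=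
        (hF c hcI).2.1.mono fun s hs => by simp [Finset.mem_coe.1 hs]
      filter_upwards [N.ae_aux_vanish _ (F c) (F c) x c.1 _ o1 o2 o2
          (Ideal.mem_of_dvd _ (hdiv c hcI) (Ideal.subset_span (by simp))),
        N.ae_aux_vanish Θ _ _ y c.2 _ hon o1 o1 (Ideal.subset_span (by simp)),
        N.ae_int c.1.2, N.ae_int c.2.2] with w a1 a2 a3 a4 b1 b2 b3 b4
      have b5 : ∀ s ∈ ((insert x (insert y Z) : Finset σ) : Set σ), N.v w (ω s) ≤ 1 := by
        simp only [Finset.coe_insert, Set.forall_mem_insert, Finset.mem_coe]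
        exact ⟨rone_int b1 a3, rone_int b2 a4, b3⟩
      have b6 := a1 ω b5 b1 b4 b4
      exact a2 ω b5 b2 b6 b6
    filter_upwards [hE, (eventually_all_finset I).2 h1] with w a1 a2 hw
    obtain ⟨c, hcI, b1, b2, b3, b4⟩ := a1 hw
    exact a2 c hcI b1 b2 b3 b4)
  rw [Finset.sum_insert hx', Finset.sum_insert hy, if_pos rfl, if_neg hxy.symm, if_pos rfl,
    ← add_assoc] at key
  refine key.trans_eq ?_
  rw [Finset.mul_sum]
  refine congrArg _ (Finset.sum_congr rfl fun s hs => ?_)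
  rw [if_neg (ne_of_mem_of_not_mem hs hx), if_neg (ne_of_mem_of_not_mem hs hy)]

/-- Elementary inequality used to close the auxiliary polynomial arguments. -/
theorem small_contra {μ h : ℝ≥0∞} (hμ : μ ≠ 0) (hh : h ≠ ⊤) (g0 : ℕ) :
    ∃ g, g0 ≤ g ∧ ∀ C : ℕ, ∃ i0, ∀ i, i0 ≤ i → ∀ h' : ℝ≥0∞, 2 ^ (g + i) * h' = h →
      ¬ μ ≤ (2 * 2 ^ i + C) * h' := by
  obtain ⟨n, hn⟩ := ENNReal.exists_nat_mul_gt hμ (ENNReal.mul_ne_top (a := 4) (by simp) hh)
  refine ⟨max g0 n, le_max_left _ _, fun C => ⟨C, fun i hi h' e hle => hn.not_ge ?_⟩⟩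
  have h1 : (n : ℝ≥0∞) ≤ 2 ^ max g0 n := by
    exact_mod_cast ((le_max_right g0 n).trans (Nat.lt_two_pow_self).le)
  have h2 : (C : ℝ≥0∞) ≤ 2 * 2 ^ i := by
    have := hi.trans (Nat.lt_two_pow_self (n := i)).le
    exact_mod_cast (by omega : C ≤ 2 * 2 ^ i)
  calc (n : ℝ≥0∞) * μ ≤ 2 ^ max g0 n * ((2 * 2 ^ i + 2 * 2 ^ i) * h') := by
        gcongr
        exact hle.trans (by gcongr)
    _ = 4 * h := by
        rw [← e]
        ring

theorem rone_step (hE : HypEq a c) (hρ : N.H0.D 1 a ≠ 0 ∨ N.H0.D 1 c ≠ 0) (h1 : Std1 N.H0 a c)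
    (h : N.Orb a c z) {n : ℕ} (ih : ∀ l, Ind N.toPF.k0 (N.H.jet2 (z l) (z l)) (box (n + 2) 0))
    (l : ℤ) : Ind N.toPF.k0 (N.H.jet2 (z l) (z l)) (box (n + 3) 0) := by
  classical
  intro f hf hf0
  by_contra hne
  obtain ⟨r, hr⟩ := h1 f hne false
  obtain ⟨m, hm⟩ := exists_pull N.H0 f
  obtain ⟨g, hg, hs⟩ := small_contra (h.ht_pos hE.ne (l - 1 - r)).1 (h.ht_pos hE.ne l).2 (r + 2)
  obtain ⟨e, he⟩ := count_one (n + 1) m g (by omega)
  obtain ⟨i, hi⟩ := hs (e * ((n + 1) * (n + 2)))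
  obtain ⟨t, ht⟩ : ∃ t, t + 2 + r = g + i := ⟨g + i - (r + 2), by omega⟩
  obtain ⟨S, hS⟩ := exists_splits_crit hE N.sqrt_k0 false t
  set l0 : ℤ := l - (g + i : ℕ) with hl0
  have e1 : l0 + (g + i : ℕ) = l := sub_add_cancel _ _
  have e2 : l0 + (t + 1 : ℕ) = l - 1 - r := by omega
  have hQ := (IsOrbit.iter (a := a) (c := c) h.orbit l0 (g + i)).1
  obtain ⟨G, hG⟩ := hm m le_rfl (PQ a c (g + i)).1 (PQ a c (g + i)).2 (2 ^ (g + i))
    (fun h0 => hQ (by rw [h0, map_zero])) (natDegree_PQ a c _).1 (natDegree_PQ a c _).2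
  set ω := N.H.jet2 (z l0) (z l0) with hω
  have hω0 : ∀ b, ω (b, 0) = z l0 := fun b => by simp [hω, HD.jet2, HD.D_zero]
  have hωs : ∀ s, ω s = N.H.D s.2 (z l0) := fun s => by simp [hω, HD.jet2]
  have hG0 : MvPolynomial.aeval ω G = 0 := by
    rw [hG.ev K ω fun b => by rwa [hω0],
      ← jet2_orbit N.compat (a := a) (c := c) h.orbit h.orbit, e1, hf0, mul_zero]
  have hcr : ∀ ζ ∈ S, CritPt (PQ a c (g + i)).1 (PQ a c (g + i)).2 ζ (vv a c false r) := by
    intro ζ hζ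
    obtain ⟨κ, -, hκ⟩ := hS.eq
    have := crit_data hE (b := false) (i := t) (ζ := ζ) (by
      rw [hκ, eval_mul, eval_prod, Finset.prod_eq_zero hζ (by simp), mul_zero]) r
    rw [ht] at this
    exact ⟨this.1, this.2.1, this.2.2.1, this.2.2.2⟩
  set Z : Finset Vr := (Finset.range (n + 1)).image fun i => (false, i + 1) with hZ
  have mZ : ∀ s : Vr, s ∈ Z ↔ s.1 = false ∧ 0 < s.2 ∧ s.2 < n + 2 := by
    rintro ⟨b, j⟩
    simp only [hZ, Finset.mem_image, Finset.mem_range, Prod.mk.injEq]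
    exact ⟨by rintro ⟨i, h1, h2, h3⟩; exact ⟨h2.symm, by omega, by omega⟩,
      fun ⟨h1, h2, h3⟩ => ⟨j - 1, by omega, h1.symm, by omega⟩⟩
  have cZ : Z.card = n + 1 := by
    rw [hZ, Finset.card_image_of_injective _ fun _ _ h => by simpa using h, Finset.card_range]
  have key := mass_le_aux_one (N := N) ω (false, 0) (true, 0) Z (by simp) (by simp [mZ])
    (by simp [mZ]) (S.image fun ζ => (ζ, ζ))
    (fun ζ => sub1 (false, 0) ζ.1 (sub1 (true, 0) ζ.2 G)) m (2 ^ i) 0 e (fun ζ' hζ' => by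
      obtain ⟨ζ, hζ, rfl⟩ := Finset.mem_image.1 hζ'
      refine ⟨hG.ne_zero_two hE.two (hcr ζ hζ) (hcr ζ hζ) ?_, ?_, fun s hs => ?_⟩
      · rw [spec2, spec2, AlgHom.comp_apply, AlgHom.comp_apply, sub1_of_on hf (by simp [box]),
          sub1_of_on hf (by simp [box])]
        exact hr r le_rfl
      · rw [sub1_comm (by simp)]
        refine ((hG.critx (n + 2) 0 ζ (hcr ζ hζ).w hf).sub1 _ _).mono ?_
        rintro ⟨b, j⟩ ⟨⟨a1, a2⟩, a3⟩
        cases b <;> simp [box, mZ] at a1 a2 a3 ⊢ <;> omega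
      · obtain ⟨j, -, rfl⟩ := Finset.mem_image.1 hs
        exact ((degreeOf_sub1_le _ _ _ _).trans (degreeOf_sub1_le _ _ _ _)).trans (hG.deg _ _))
    (by
      refine lt_of_le_of_lt ?_ (cZ ▸ (he (2 ^ i)).2)
      rw [cZ, ← pow_add]
      exact Nat.mul_le_mul_right _ (Finset.card_image_le.trans
        (hS.card.trans_le (Nat.pow_le_pow_right (by norm_num) (by omega)))))
    (fun Θ o1 _ o2 o3 => ih l0 Θ (fun s hs => by
      by_cases e : s = (true, 0)
      · rw [e]; omega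
      refine o1 s fun hs' => hs ?_
      obtain ⟨b, j⟩ := s
      cases b <;> simp [box, mZ] at e hs' ⊢ <;> omega) o3)
    (E := N.toPF.Ev (z (l0 + (t + 1 : ℕ))) false) (by
      have o1 := hG.on _ _ hf
      have a1 : ∀ ζ ∈ S, ∀ᶠ w in N.toPF.ae, _ ∧ _ := fun ζ _ => (rone_congr o1 (true, 0) ζ).and
        (rone_congr ((o1.sub1 (true, 0) ζ).mono Set.sdiff_subset) (false, 0) ζ)
      filter_upwards [ev_lift hE hρ h hS l0, (eventually_all_finset S).2 a1,
        (eventually_all_finset (Finset.range (n + 3))).2 fun j _ => N.ae_jet_int (z l0) j]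
        with w b1 b2 b3 hw
      obtain ⟨ζ, hζ, c1, c2, -⟩ := b1 hw
      have c3 : ∀ b, N.v w (ω (b, 0) - ζ) < 1 := fun b => by
        rw [hω0, c1]
        exact inv_lt_one_of_one_lt₀ N.one_lt_q
      have c4 : ∀ s : Vr, s.2 < n + 3 → N.v w (ω s) ≤ 1 := fun s hs => by
        rw [hωs]
        exact b3 _ (Finset.mem_range.2 hs) c2
      have c5 : ∀ s ∈ box (max (n + 3) 1) (max 0 1), N.v w (ω s) ≤ 1 := by
        rintro ⟨b, j⟩ hs
        refine c4 _ ?_
        cases b <;> simp [box] at hs ⊢ <;> omega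
      refine ⟨(ζ, ζ), Finset.mem_image_of_mem _ hζ, c3 _, c3 _,
        fun s hs => c4 s (by have := (mZ s).1 hs; omega), ?_⟩
      exact (b2 ζ hζ).2 ω c5 (c3 _) ((b2 ζ hζ).1 ω c5 (c3 _) (by rw [hG0, map_zero]; exact one_pos)))
  refine hi i le_rfl (N.toPF.ht (z l0)) (by rw [← N.ht_orbit hE.ne h.orbit, e1]) ?_
  have k2 : ∑ s ∈ Z, N.toPF.ht (ω s) ≤ ((n + 1) * (n + 2) : ℕ) * N.toPF.ht (z l0) := by
    refine (Finset.sum_le_card_nsmul Z _ ((n + 2 : ℕ) * N.toPF.ht (z l0)) fun s hs => ?_).trans_eq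
      (by rw [cZ, nsmul_eq_mul, ← mul_assoc, Nat.cast_mul])
    rw [hωs]
    refine (N.ht_D_le _ _).trans (mul_le_mul_left ?_ _)
    have := (mZ s).1 hs
    exact_mod_cast (by omega : s.2 + 1 ≤ n + 2)
  rw [← e2]
  refine ((ht_le_mass_ev hE hρ h false _).trans key).trans ?_
  rw [hω0, Nat.cast_zero, zero_mul, add_zero, add_mul, Nat.cast_mul e, mul_assoc (e : ℝ≥0∞),
    two_mul, Nat.cast_pow, Nat.cast_ofNat]
  gcongr
  exact le_self_add

theorem ind_one (hE : HypEq a c) (hρ : N.H0.D 1 a ≠ 0 ∨ N.H0.D 1 c ≠ 0) (h1 : Std1 N.H0 a c)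
    (h : N.Orb a c z) (l : ℤ) (y : K) (A : ℕ) :
    Ind N.toPF.k0 (N.H.jet2 (z l) y) (box A 0) := by
  have key : ∀ n l, Ind N.toPF.k0 (N.H.jet2 (z l) (z l)) (box (n + 2) 0) := fun n => by
    induction n with
    | zero =>
      intro l
      refine Ind.mono ((ind_pair (u := (false, 0)) (u' := (false, 1)) (by simp)).2
        fun G hG => ind_jet1 hE.hypH hρ h l G ?_) ?_
      · simpa [HD.jet2, HD.D_zero] using hG
      · rintro ⟨b, j⟩ hs
        cases b <;> simp [box] at hs ⊢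
        omega
    | succ n ih => exact rone_step hE hρ h1 h ih
  refine ((key A l).mono ?_).congr ?_
  · rintro ⟨b, j⟩ hs
    cases b <;> simp [box] at hs ⊢
    omega
  · rintro ⟨b, j⟩ hs
    cases b
    · rfl
    · simp [box] at hs

end NS

end JR
end

-- merged part: Pool.Agent.Work.MP_969914_nt.RSdn
section
/-! The two orbits do not meet a finite set at the same places. -/

set_option autoImplicit false

namespace JR

open scoped NNReal ENNReal
open Polynomial Filter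

section alg
variable {k0 σ : Type} [Field k0] {V : Set σ} {f g : MvPolynomial σ k0} {m n : ℕ}

/-- Variables in `V`, all degrees at most `m`. -/
def RsdnB (V : Set σ) (m : ℕ) (f : MvPolynomial σ k0) : Prop := On V f ∧ ∀ s, f.degreeOf s ≤ m

theorem RsdnB.C (r : k0) : RsdnB V m (MvPolynomial.C r : MvPolynomial σ k0) :=
  ⟨On.C r, fun s => by simp⟩

theorem RsdnB.X {s : σ} (hs : s ∈ V) : RsdnB V 1 (MvPolynomial.X s : MvPolynomial σ k0) :=
  ⟨On.X hs, fun t => by classical rw [MvPolynomial.degreeOf_X]; split_ifs <;> simp⟩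

theorem RsdnB.add (hf : RsdnB V m f) (hg : RsdnB V m g) : RsdnB V m (f + g) :=
  ⟨hf.1.add hg.1, fun s => (MvPolynomial.degreeOf_add_le s f g).trans (max_le (hf.2 s) (hg.2 s))⟩

theorem RsdnB.sub (hf : RsdnB V m f) (hg : RsdnB V m g) : RsdnB V m (f - g) :=
  ⟨hf.1.sub hg.1, fun s => (MvPolynomial.degreeOf_sub_le s f g).trans (max_le (hf.2 s) (hg.2 s))⟩

theorem RsdnB.mul (hf : RsdnB V m f) (hg : RsdnB V n g) : RsdnB V (m + n) (f * g) :=
  ⟨hf.1.mul hg.1, fun s =>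
    (MvPolynomial.degreeOf_mul_le s f g).trans (add_le_add (hf.2 s) (hg.2 s))⟩

theorem RsdnB.mono {V' : Set σ} (hf : RsdnB V m f) (hV : V ⊆ V') (h : m ≤ n) : RsdnB V' n f :=
  ⟨hf.1.mono hV, fun s => (hf.2 s).trans h⟩

theorem RsdnB.sum {ι : Type} {s : Finset ι} {F : ι → MvPolynomial σ k0}
    (h : ∀ i ∈ s, RsdnB V m (F i)) : RsdnB V m (∑ i ∈ s, F i) :=
  Finset.sum_induction F (RsdnB V m) (fun _ _ => RsdnB.add) (by simpa using RsdnB.C (0 : k0)) h

theorem rsdn_on_prod {ι : Type} {s : Finset ι} {F : ι → MvPolynomial σ k0}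
    (h : ∀ i ∈ s, On V (F i)) : On V (∏ i ∈ s, F i) :=
  Finset.prod_induction F (On V) (fun _ _ => On.mul) (by simpa using On.C (1 : k0)) h

theorem rsdn_sub1_X (u : σ) (c : k0) : sub1 u c (MvPolynomial.X u) = MvPolynomial.C c := by
  simp [sub1]

theorem rsdn_ne_zero {u : σ} (hu : u ∉ V) (hf : On V f) (hg : On V g) (h0 : f ≠ 0) :
    MvPolynomial.X u * f + g ≠ 0 := fun h => by
  have h1 := congrArg (sub1 u 0) h
  rw [map_add, map_mul, rsdn_sub1_X, sub1_of_on hg hu, map_zero, map_zero, zero_mul, zero_add] at h1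
  rw [h1, add_zero] at h
  exact mul_ne_zero (MvPolynomial.X_ne_zero u) h0 h

theorem rsdn_ind_some {L : Type} [Field L] [Algebra k0 L] {ω : σ → L} (h : Ind k0 ω V) (W : L) :
    Ind k0 (fun o : Option σ => o.elim W ω) (some '' V) := by
  intro f hf h0
  obtain ⟨g, rfl⟩ := MvPolynomial.exists_rename_eq_of_vars_subset_range f some
    (Option.some_injective _) fun s hs => by
      by_contra h1
      exact MvPolynomial.mem_vars_iff_degreeOf_ne_zero.1 hs
        (hf s fun h2 => h1 (Set.image_subset_range _ _ h2))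
  rw [MvPolynomial.aeval_rename] at h0
  rw [h g (fun s hs => by
    rw [← MvPolynomial.degreeOf_rename_of_injective (Option.some_injective _)]
    exact hf _ (by simpa using hs)) h0, map_zero]

theorem rsdn_clear {L ι : Type} [Field L] [DecidableEq ι] {Z : Finset ι} {b : ι → L}
    (hb : ∀ s ∈ Z, b s ≠ 0) (a : ι → L) :
    ∑ s ∈ Z, a s * ∏ t ∈ Z.erase s, b t = (∏ s ∈ Z, b s) * ∑ s ∈ Z, a s / b s := by
  rw [Finset.mul_sum]
  refine Finset.sum_congr rfl fun s hs => ?_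
  rw [← Finset.mul_prod_erase Z b hs]
  have := hb s hs
  field_simp

/-- Every relation has large degree in the variable `i`. -/
theorem rsdn_growth {L : Type} [Field L] [Algebra k0 L] {ω : σ → L} {i j u : σ} {T : Set σ}
    (hij : i ≠ j) (hui : u ≠ i) (huj : u ≠ j) (hi : i ∉ T) (hu : u ∉ T)
    (hind : Ind k0 ω (insert i (insert j T))) (Z : Finset k0) (d : k0 → k0)
    {P Q : MvPolynomial σ k0} (hP : On T P) (hQ : On T Q) (hPd : ∀ s ∈ Z, P ≠ MvPolynomial.C (d s))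
    (hx : ∀ s ∈ Z, ω i - algebraMap k0 L s ≠ 0) (hy : ∀ s ∈ Z, ω j - algebraMap k0 L s ≠ 0)
    (hW : ω u = ∑ s ∈ Z, (MvPolynomial.aeval ω P - algebraMap k0 L (d s)) / (ω i - algebraMap k0 L s) -
      ∑ s ∈ Z, (MvPolynomial.aeval ω Q - algebraMap k0 L (d s)) / (ω j - algebraMap k0 L s))
    {Θ : MvPolynomial σ k0} (hΘ : On (insert i (insert j (insert u T))) Θ)
    (h0 : MvPolynomial.aeval ω Θ = 0) (hne : Θ ≠ 0) : Z.card ≤ Θ.degreeOf i := by
  classical
  obtain ⟨G, hG, hGu⟩ := exists_gen (ω := ω) (V := insert i (insert j (insert u T))) (u := u)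
    (hind.mono fun s hs => by grind) fun h => hne (h Θ hΘ h0)
  refine le_trans ?_ (degreeOf_le_of_dvd hne (hG.dvd Θ hΘ h0) i)
  have hT : T ⊆ insert i (insert j (insert u T)) := fun s hs => by simp [hs]
  have hl : ∀ {U : Set σ} {t : σ} (Y : Finset k0), t ∈ U →
      On U (∏ s ∈ Y, (MvPolynomial.X t - MvPolynomial.C s : MvPolynomial σ k0)) :=
    fun Y ht => rsdn_on_prod fun s _ => (On.X ht).sub (On.C s)
  refine growth (hG.dvd ((∑ s ∈ Z, (P - MvPolynomial.C (d s)) *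
      ∏ t ∈ Z.erase s, (MvPolynomial.X i - MvPolynomial.C t)) *
      ∏ s ∈ Z, (MvPolynomial.X j - MvPolynomial.C s) -
      (∏ s ∈ Z, (MvPolynomial.X i - MvPolynomial.C s)) *
      ((∏ s ∈ Z, (MvPolynomial.X j - MvPolynomial.C s)) * MvPolynomial.X u +
        ∑ s ∈ Z, (Q - MvPolynomial.C (d s)) *
          ∏ t ∈ Z.erase s, (MvPolynomial.X j - MvPolynomial.C t))) ?_ ?_) hui hGu Z fun c hc => ?_
  · exact ((On.sum fun s _ => ((hP.mono hT).sub (On.C _)).mul (hl _ (by simp))).mul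
      (hl _ (by simp))).sub ((hl _ (by simp)).mul (((hl _ (by simp)).mul (On.X (by simp))).add
      (On.sum fun s _ => ((hQ.mono hT).sub (On.C _)).mul (hl _ (by simp)))))
  · simp only [map_sub, map_add, map_mul, map_sum, map_prod, MvPolynomial.aeval_X,
      MvPolynomial.aeval_C]
    rw [rsdn_clear hx, rsdn_clear hy, hW]
    ring
  · have h1 : On (insert j T) (∏ s ∈ Z, (MvPolynomial.X j - MvPolynomial.C s : MvPolynomial σ k0)) :=
      hl _ (by simp)
    have h2 : ∀ r : k0, sub1 i c (MvPolynomial.C r) = MvPolynomial.C r := fun r =>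
      sub1_of_on (On.C r) hi c
    have h3 : ∀ Y : Finset k0, c ∈ Y →
        sub1 i c (∏ s ∈ Y, (MvPolynomial.X i - MvPolynomial.C s)) = 0 := fun Y hY => by
      rw [map_prod]
      exact Finset.prod_eq_zero hY (by rw [map_sub, rsdn_sub1_X, h2, sub_self])
    rw [map_sub, map_mul, map_mul, sub1_of_on h1 (by simp [hij, hi]), map_sum, h3 Z hc, zero_mul,
      sub_zero, Finset.sum_eq_single_of_mem c hc fun s _ hs => by
        rw [map_mul, h3 _ (Finset.mem_erase.2 ⟨hs.symm, hc⟩), mul_zero]]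
    simp only [map_mul, map_sub, map_prod, rsdn_sub1_X, h2, sub1_of_on hP hi]
    refine ⟨mul_ne_zero (mul_ne_zero (sub_ne_zero.2 (hPd c hc)) (Finset.prod_ne_zero_iff.2
      fun t ht => sub_ne_zero.2 fun e => (Finset.mem_erase.1 ht).1
        (MvPolynomial.C_injective σ k0 e).symm)) (Finset.prod_ne_zero_iff.2 fun t ht e => hy t ht ?_),
      (((hP.mono (Set.subset_insert j T)).sub (On.C _)).mul
        (rsdn_on_prod fun t _ => (On.C _).sub (On.C _))).mul h1 u (by simp [huj, hu])⟩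
    simpa using congrArg (MvPolynomial.aeval ω) e

theorem rsdn_count {n t : ℕ} (ht : t ≤ 4) :
    n * n * ((t + 1) * 3 * (960 + 1) ^ (t + 1 - 1)) <
      (n / 8 + 1) * (n / 8 + 1) * (960 + 1) ^ (t + 1) := by
  have h1 : n ≤ 8 * (n / 8 + 1) := by omega
  generalize n / 8 = d at h1
  rw [Nat.add_sub_cancel, pow_succ', ← mul_assoc (n * n), ← mul_assoc _ (960 + 1)]
  refine Nat.mul_lt_mul_of_pos_right ?_ (by positivity)
  calc n * n * ((t + 1) * 3) ≤ 8 * (d + 1) * (8 * (d + 1)) * ((4 + 1) * 3) := by gcongr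
    _ < _ := by nlinarith

theorem rsdn_arith {n d h D E W S : ℝ≥0∞} (hn : n * h ≠ ⊤) (hd : 8 * d ≤ n) (h1 : n * h ≤ E + D)
    (h2 : E ≤ d * h + d * h + 960 * (W + S)) (h3 : W ≤ D + (h + h)) (h4 : S ≤ 10 * h) :
    3 * n * h ≤ 16000 * D + 100000 * h := by
  rw [← ENNReal.add_le_add_iff_left hn]
  calc n * h + 3 * n * h = 4 * (n * h) := by ring
    _ ≤ 4 * (d * h + d * h + 960 * (D + (h + h) + 10 * h) + D) := by
      gcongr
      exact h1.trans (by gcongr; exact h2.trans (by gcongr))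
    _ = 8 * d * h + (3844 * D + 46080 * h) := by ring
    _ ≤ _ := by gcongr <;> norm_num

end alg

namespace NS
variable {p : ℕ} [Fact p.Prime] {K Γ : Type} [Field K] [CharP K p]
  [LinearOrderedCommGroupWithZero Γ] (N : NS p K Γ)

/-- Places where exactly one of `x`, `y` meets `S`. -/
def Diff (S : Finset N.toPF.k0) (x y : K) : Set N.W :=
  {w | ¬ ((∃ s ∈ S, N.v w (x - s) < 1) ↔ ∃ s ∈ S, N.v w (y - s) < 1)}

variable {N}

/-- The logarithmic derivative of `∏ (x - s)`. -/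
noncomputable def rsdnS (N : NS p K Γ) (Z : Finset N.toPF.k0) (x : K) : K :=
  ∑ s ∈ Z, N.H.D 1 (x - s) / (x - s)

/-- Its regular part at `ζ`. -/
noncomputable def rsdnL (N : NS p K Γ) (Z : Finset N.toPF.k0) (ζ : N.toPF.k0) (x : K) : K :=
  ∑ s ∈ Z, ((ζ : K) - s)⁻¹ * N.H.D 1 (x - s)

omit [Fact p.Prime] [CharP K p] in
theorem rsdn_side (x : K) (Z : Finset N.toPF.k0) : ∀ᶠ w in N.toPF.ae, ∀ ζ ∈ Z, N.v w (x - ζ) < 1 →
    N.v w (rsdnL N Z ζ x) ≤ 1 ∧
      N.v w (rsdnS N Z x - N.H.D 1 (x - ζ) / (x - ζ) - rsdnL N Z ζ x) < 1 := by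
  classical
  filter_upwards [ae_prod_sub Z, (eventually_all_finset Z).2 fun s _ => N.ae_jet_int (x - s) 1]
    with w a b ζ hζ h
  have h1 := ((a x).2 ζ hζ h).2.1
  have h2 := ((a ζ).2 ζ hζ (by simp)).2.1
  have h3 : rsdnL N Z ζ x = ∑ s ∈ Z.erase ζ, ((ζ : K) - s)⁻¹ * N.H.D 1 (x - s) := by
    rw [rsdnL, ← Finset.add_sum_erase Z _ hζ, sub_self, inv_zero, zero_mul, zero_add]
  rw [h3, rsdnS, ← Finset.add_sum_erase Z _ hζ, add_sub_cancel_left, ← Finset.sum_sub_distrib]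
  refine ⟨(N.v w).map_sum_le fun s hs => ?_, (N.v w).map_sum_lt one_ne_zero fun s hs => ?_⟩
  all_goals
    obtain ⟨h4, h5⟩ := Finset.mem_erase.1 hs
    have h6 := h1 s h5 h4
    have h7 := h2 s h5 h4
    have h8 := b s h5 h6.le
  · rwa [map_mul, map_inv₀, h7, inv_one, one_mul]
  · have h9 : x - s ≠ 0 := fun e => by simp [e] at h6
    have h10 : (ζ : K) - s ≠ 0 := fun e => by simp [e] at h7
    rw [show N.H.D 1 (x - s) / (x - s) - ((ζ : K) - s)⁻¹ * N.H.D 1 (x - s) =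
      -(N.H.D 1 (x - s) * (x - ζ)) / (x - s) / (ζ - s) by field_simp; ring, map_div₀, map_div₀, h6,
      h7, div_one, div_one, Valuation.map_neg, map_mul]
    exact (mul_le_of_le_one_left' h8).trans_lt h

omit [Fact p.Prime] [CharP K p] in
theorem rsdn_key (x y : K) (Z : Finset N.toPF.k0) : ∀ᶠ w in N.toPF.ae, ∀ ζ ∈ Z, ∀ ζ' ∈ Z,
    N.v w (x - ζ) = N.q⁻¹ → N.v w (y - ζ') = N.q⁻¹ → N.v w (rsdnS N Z x - rsdnS N Z y) ≤ 1 ∧
      N.v w ((rsdnS N Z x - rsdnS N Z y) * (N.H.D 1 (x - ζ) * N.H.D 1 (y - ζ')) +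
        ((rsdnL N Z ζ' y - rsdnL N Z ζ x) * (N.H.D 1 (x - ζ) * N.H.D 1 (y - ζ')) +
        (N.H.D 2 (y - ζ') * N.H.D 1 (x - ζ) - N.H.D 2 (x - ζ) * N.H.D 1 (y - ζ')))) < 1 := by
  have hs : ∀ z : K, ∀ᶠ w in N.toPF.ae, ∀ s ∈ Z, (N.v w (z - s) = N.q⁻¹ →
      N.v w (N.H.D 1 (z - s)) = 1) ∧ (N.v w (z - s) ≤ 1 → N.v w (N.H.D 2 (z - s)) ≤ 1) :=
    fun z => (eventually_all_finset Z).2 fun s _ => (N.ae_simple_unit _).and (N.ae_jet_int _ 2)
  filter_upwards [rsdn_side x Z, rsdn_side y Z, hs x, hs y, (eventually_all_finset Z).2 fun s _ =>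
    (eventually_all_finset Z).2 fun t _ => N.ae_two_simple (x - s) (y - t)]
    with w a b c d e ζ hζ ζ' hζ' h h'
  have hq : N.q⁻¹ < 1 := inv_lt_one_of_one_lt₀ N.one_lt_q
  obtain ⟨a1, a2⟩ := a ζ hζ (h ▸ hq)
  obtain ⟨b1, b2⟩ := b ζ' hζ' (h' ▸ hq)
  have c1 := (c ζ hζ).1 h
  have c2 := (c ζ hζ).2 (h ▸ hq.le)
  have d1 := (d ζ' hζ').1 h'
  have d2 := (d ζ' hζ').2 (h' ▸ hq.le)
  have h1 := (N.v w).map_add_lt ((N.v w).map_sub_lt a2 b2) (e ζ hζ ζ' hζ' h h')
  clear a b c d e hs a2 b2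
  generalize x - ζ = f, y - ζ' = g at *
  generalize N.H.D 1 f = f1, N.H.D 2 f = f2, N.H.D 1 g = g1, N.H.D 2 g = g2, rsdnL N Z ζ x = A,
    rsdnL N Z ζ' y = B, rsdnS N Z x = S, rsdnS N Z y = T at *
  have h2 : f1 ≠ 0 := fun e => by simp [e] at c1
  have h3 : g1 ≠ 0 := fun e => by simp [e] at d1
  rw [show S - f1 / f - A - (T - g1 / g - B) + (f1 / f - g1 / g - (f2 / f1 - g2 / g1)) =
    S - T - (A - B + (f2 / f1 - g2 / g1)) by ring] at h1
  constructor
  · rw [← sub_add_cancel (S - T) (A - B + (f2 / f1 - g2 / g1))]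
    refine (N.v w).map_add_le h1.le ((N.v w).map_add_le ((N.v w).map_sub_le a1 b1)
      ((N.v w).map_sub_le ?_ ?_))
    · rwa [map_div₀, c1, div_one]
    · rwa [map_div₀, d1, div_one]
  · rwa [show (S - T) * (f1 * g1) + ((B - A) * (f1 * g1) + (g2 * f1 - f2 * g1)) =
      (S - T - (A - B + (f2 / f1 - g2 / g1))) * f1 * g1 by field_simp; ring, map_mul, map_mul, c1,
      d1, mul_one, mul_one]

theorem ht_dlog_le {x y : K} (Z : Finset N.toPF.k0) (hx : Transcendental N.toPF.k0 x)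
    (hy : Transcendental N.toPF.k0 y)
    (sx : ∀ᶠ w in N.toPF.ae, ∀ s ∈ Z, N.v w (x - s) < 1 → N.v w (x - s) = N.q⁻¹)
    (sy : ∀ᶠ w in N.toPF.ae, ∀ s ∈ Z, N.v w (y - s) < 1 → N.v w (y - s) = N.q⁻¹) :
    N.toPF.ht (∑ s ∈ Z, N.H.D 1 (x - s) / (x - s) - ∑ s ∈ Z, N.H.D 1 (y - s) / (y - s)) ≤
      N.toPF.mass (N.Diff Z x y) + (N.toPF.ht x + N.toPF.ht y) := by
  obtain ⟨C, hC⟩ := N.D_glob 1
  have hb : ∀ {w : N.W} {γ : Γ} {α : K}, N.v w (N.H.D 1 α) ≤ γ * N.v w α →
      N.v w (N.H.D 1 α / α) ≤ γ := fun {w γ α} h => by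
    rw [map_div₀]
    exact div_le_of_le_mul₀ zero_le zero_le h
  have hq := N.one_lt_q.le
  have hae : ∀ᶠ w in N.toPF.ae, N.v w (rsdnS N Z x - rsdnS N Z y) ≤ N.q ∧
      (w ∉ N.Diff Z x y ∪ ({w | 1 < N.v w x} ∪ {w | 1 < N.v w y}) →
        N.v w (rsdnS N Z x - rsdnS N Z y) ≤ 1) := by
    have hr : ∀ z : K, ∀ᶠ w in N.toPF.ae, N.v w (rsdnS N Z z) ≤ N.q := fun z => by
      filter_upwards [N.ae_good, (eventually_all_finset Z).2 fun s _ => N.ae_reg (z - s)] with w a b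
      exact (N.v w).map_sum_le fun s hs => hb (by simpa using N.D_le w a _ (b s hs) 1)
    have hu : ∀ z : K, ∀ᶠ w in N.toPF.ae, N.v w z ≤ 1 → (¬ ∃ s ∈ Z, N.v w (z - s) < 1) →
        N.v w (rsdnS N Z z) ≤ 1 := fun z => by
      filter_upwards [(eventually_all_finset Z).2 fun s _ => N.ae_int s.2,
        (eventually_all_finset Z).2 fun s _ => N.ae_jet_int (z - s) 1] with w a b c d
      refine (N.v w).map_sum_le fun s hs => hb ((b s hs ((N.v w).map_sub_le c (a s hs))).trans ?_)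
      rw [one_mul]
      exact not_lt.1 fun e => d ⟨s, hs, e⟩
    filter_upwards [hr x, hr y, hu x, hu y, sx, sy, rsdn_key x y Z] with w a b c d e f g
    refine ⟨(N.v w).map_sub_le a b, fun h => ?_⟩
    simp only [Diff, Set.mem_union, Set.mem_ofPred_eq, not_or, not_not, not_lt] at h
    by_cases h1 : ∃ s ∈ Z, N.v w (x - s) < 1
    · obtain ⟨t, ht, h2⟩ := h.1.1 h1
      obtain ⟨s, hs, h1⟩ := h1
      exact (g s hs t ht (e s hs h1) (f t ht h2)).1
    · exact (N.v w).map_sub_le (c h.2.1 h1) (d h.2.2 fun h2 => h1 (h.1.2 h2))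
  classical
  rw [PF.eventually_ae_iff] at hae
  set B := {w | ¬ (N.v w (rsdnS N Z x - rsdnS N Z y) ≤ N.q ∧
      (w ∉ N.Diff Z x y ∪ ({w | 1 < N.v w x} ∪ {w | 1 < N.v w y}) →
        N.v w (rsdnS N Z x - rsdnS N Z y) ≤ 1))} with hB
  have h1 := N.toPF.I_le_mass (f := fun w => if w ∈ B then N.q ^ C else 1) (E := B) (C := C)
    (fun w h => by simp [h]) fun w h => by simp [h]
  rw [hae, mul_zero] at h1
  refine le_trans ?_ ((N.toPF.mass_union_le _ _).trans (add_le_add le_rfl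
    ((N.toPF.mass_union_le _ _).trans (add_le_add (N.mass_one_lt_le x) (N.mass_one_lt_le y)))))
  refine le_trans ((N.toPF.I_le fun w => ?_).trans (N.I_mul _ _))
    ((add_le_add h1 le_rfl).trans (zero_add _).le)
  show N.v w (rsdnS N Z x - rsdnS N Z y) ≤ _
  by_cases h2 : w ∈ B
  · rw [if_pos h2]
    refine le_trans ((N.v w).map_sub_le ((N.v w).map_sum_le fun s _ => hb (hC w _))
      ((N.v w).map_sum_le fun s _ => hb (hC w _))) (le_mul_of_one_le_right' ?_)
    split_ifs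
    exacts [hq, le_rfl]
  · rw [if_neg h2, one_mul]
    rw [hB, Set.mem_ofPred_eq, not_not] at h2
    split_ifs with h3
    exacts [h2.1, h2.2 h3]

theorem rsdn_gen {x y : K} (Z : Finset N.toPF.k0) {h : ℝ≥0∞} (hx : N.toPF.ht x = h)
    (hy : N.toPF.ht y = h) (hh : h ≠ ⊤)
    (ex : N.toPF.exc (aeval x (∏ s ∈ Z, (X - C s))) = 0)
    (ey : N.toPF.exc (aeval y (∏ s ∈ Z, (X - C s))) = 0) {σ : Type} [DecidableEq σ] (ω : σ → K)
    (i j u : σ) (T : Finset σ) (hij : i ≠ j) (hi : i ∉ insert u T) (hj : j ∉ insert u T)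
    (hu : u ∉ T) (hT : T.card ≤ 4) (ωi : ω i = x) (ωj : ω j = y)
    (ωu : ω u = rsdnS N Z x - rsdnS N Z y) (hind : Ind N.toPF.k0 ω (insert i (insert j T)))
    (P : Bool → ℕ → MvPolynomial σ N.toPF.k0) (hP : ∀ b r, r = 1 ∨ r = 2 →
      RsdnB (T : Set σ) 1 (P b r) ∧ MvPolynomial.aeval ω (P b r) = N.H.D r (if b then y else x))
    (hP0 : ∀ b, ∀ s ∈ Z, P b 1 ≠ MvPolynomial.C (N.H0.D 1 s))
    (hint : ∀ᶠ w in N.toPF.ae, N.v w x ≤ 1 → N.v w y ≤ 1 → ∀ s ∈ T, N.v w (ω s) ≤ 1)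
    (hS : ∑ s ∈ T, N.toPF.ht (ω s) ≤ 10 * h) :
    3 * Z.card * h ≤ 16000 * N.toPF.mass (N.Diff Z x y) + 100000 * h := by
  rcases Nat.eq_zero_or_pos Z.card with h0 | h0
  · simp [h0]
  have tx : Transcendental N.toPF.k0 x := ωi ▸ ind_singleton.1 (hind.mono (by simp))
  have ty : Transcendental N.toPF.k0 y := ωj ▸ ind_singleton.1 (hind.mono (by simp))
  obtain ⟨mx, sx⟩ := simple_of_exc tx Z ex
  obtain ⟨-, sy⟩ := simple_of_exc ty Z ey
  have hn : ∀ {z : K}, Transcendental N.toPF.k0 z → ∀ s ∈ Z, z - algebraMap N.toPF.k0 K s ≠ 0 :=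
    fun t s _ e => t (sub_eq_zero.1 e ▸ isAlgebraic_algebraMap s)
  have hD : ∀ b r (s : N.toPF.k0), r = 1 ∨ r = 2 →
      MvPolynomial.aeval ω (P b r) - algebraMap N.toPF.k0 K (N.H0.D r s) =
        N.H.D r ((if b then y else x) - s) := fun b r s hr => by
    rw [(hP b r hr).2, ← N.compat r s, HD.D_sub]
    rfl
  have hB : ∀ b r (s : N.toPF.k0), r = 1 ∨ r = 2 →
      RsdnB (T : Set σ) 1 (P b r - MvPolynomial.C (N.H0.D r s)) := fun b r s hr =>
    (hP b r hr).1.sub (RsdnB.C _)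
  have hL : ∀ b (ζ : N.toPF.k0), RsdnB (T : Set σ) 1
      (∑ s ∈ Z, MvPolynomial.C (ζ - s)⁻¹ * (P b 1 - MvPolynomial.C (N.H0.D 1 s))) := fun b ζ =>
    RsdnB.sum fun s _ => (RsdnB.C (m := 0) _).mul (hB b 1 s (.inl rfl))
  simp only [Finset.mem_insert, not_or] at hi hj
  have key := mass_le_aux_one (N := N) ω i j (insert u T) hij (by simp [hi]) (by simp [hj]) (Z ×ˢ Z)
    (fun c => MvPolynomial.X u * ((P false 1 - MvPolynomial.C (N.H0.D 1 c.1)) *
        (P true 1 - MvPolynomial.C (N.H0.D 1 c.2))) +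
      ((∑ s ∈ Z, MvPolynomial.C (c.2 - s)⁻¹ * (P true 1 - MvPolynomial.C (N.H0.D 1 s)) -
        ∑ s ∈ Z, MvPolynomial.C (c.1 - s)⁻¹ * (P false 1 - MvPolynomial.C (N.H0.D 1 s))) *
        ((P false 1 - MvPolynomial.C (N.H0.D 1 c.1)) * (P true 1 - MvPolynomial.C (N.H0.D 1 c.2))) +
      ((P true 2 - MvPolynomial.C (N.H0.D 2 c.2)) * (P false 1 - MvPolynomial.C (N.H0.D 1 c.1)) -
        (P false 2 - MvPolynomial.C (N.H0.D 2 c.1)) * (P true 1 - MvPolynomial.C (N.H0.D 1 c.2)))))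
    3 (Z.card / 8) (Z.card / 8) 960 (fun c hc => ?_)
    (by rw [Finset.card_product, Finset.card_insert_of_notMem hu]; exact rsdn_count hT)
    (fun Θ a b _ d => ?_)
    (E := {w | (∃ s ∈ Z, N.v w (x - s) < 1) ∧ ∃ s ∈ Z, N.v w (y - s) < 1}) ?_
  · rw [Finset.sum_insert hu, ωi, ωj, ωu, hx, hy] at key
    rw [hx] at mx
    refine rsdn_arith (d := (Z.card / 8 : ℕ)) (ENNReal.mul_ne_top (ENNReal.natCast_ne_top _) hh)
      (by exact_mod_cast Nat.mul_div_le Z.card 8) (mx.trans ((N.toPF.mass_mono fun w a => ?_).trans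
        (N.toPF.mass_union_le _ _))) key ?_ hS
    · by_cases b : ∃ s ∈ Z, N.v w (y - s) < 1
      exacts [.inl ⟨a, b⟩, .inr fun c => b (c.1 a)]
    · have := ht_dlog_le Z tx ty sx sy
      rwa [hx, hy] at this
  · obtain ⟨c1, c2⟩ := Finset.mem_product.1 hc
    have h1 := (hB false 1 c.1 (.inl rfl)).mul (hB true 1 c.2 (.inl rfl))
    have h2 := (((hL true c.2).sub (hL false c.1)).mul h1).add
      ((((hB true 2 c.2 (.inr rfl)).mul (hB false 1 c.1 (.inl rfl))).sub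
        ((hB false 2 c.1 (.inr rfl)).mul (hB true 1 c.2 (.inl rfl)))).mono le_rfl (by omega))
    have h3 : (T : Set σ) ⊆ (insert u T : Finset σ) := by simp
    have h4 := ((RsdnB.X (s := u) (by simp)).mul (h1.mono h3 le_rfl)).add (h2.mono h3 le_rfl)
    exact ⟨rsdn_ne_zero (by simpa using hu) h1.1 h2.1 (mul_ne_zero (sub_ne_zero.2 (hP0 _ _ c1))
      (sub_ne_zero.2 (hP0 _ _ c2))), h4.1, fun s _ => h4.2 s⟩
  · by_contra h1
    have := rsdn_growth hij (Ne.symm hi.1) (Ne.symm hj.1) (by simpa using hi.2) (by simpa using hu)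
      hind Z (N.H0.D 1) (hP false 1 (.inl rfl)).1.1 (hP true 1 (.inl rfl)).1.1 (hP0 false)
      (ωi ▸ hn tx) (ωj ▸ hn ty) (by
        simp only [hD _ 1 _ (.inl rfl), ωi, ωj, ωu]
        rfl) (by simpa using a) d h1
    omega
  · filter_upwards [sx, sy, rsdn_key x y Z, hint, ae_prod_sub Z] with w a b c d e
    rintro ⟨⟨s, hs, h1⟩, t, ht, h2⟩
    obtain ⟨h3, h4⟩ := c s hs t ht (a s hs h1) (b t ht h2)
    refine ⟨(s, t), Finset.mem_product.2 ⟨hs, ht⟩, ωi ▸ h1, ωj ▸ h2, Finset.forall_mem_insert .. |>.2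
      ⟨ωu ▸ h3, d ((e x).2 s hs h1).1 ((e y).2 t ht h2).1⟩, ?_⟩
    simp only [map_add, map_sub, map_mul, map_sum, MvPolynomial.aeval_X, MvPolynomial.aeval_C,
      hD _ 1 _ (.inl rfl), hD _ 2 _ (.inr rfl), ωu, map_inv₀]
    exact h4

/-- One level, all jets independent. -/
theorem diff_level {x y : K} (Z : Finset N.toPF.k0) {h : ℝ≥0∞} (hx : N.toPF.ht x = h)
    (hy : N.toPF.ht y = h) (hh : h ≠ ⊤) (hind : Ind N.toPF.k0 (N.H.jet2 x y) (box 3 3))
    (ex : N.toPF.exc (aeval x (∏ s ∈ Z, (X - C s))) = 0)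
    (ey : N.toPF.exc (aeval y (∏ s ∈ Z, (X - C s))) = 0) :
    3 * Z.card * h ≤ 16000 * N.toPF.mass (N.Diff Z x y) + 100000 * h := by
  have hj : ∀ (z : K) (r : ℕ), N.toPF.ht z = h → N.toPF.ht (N.H.D r z) ≤ (r + 1 : ℕ) * h :=
    fun z r e => by simpa [e] using N.ht_D_le z r
  refine rsdn_gen Z hx hy hh ex ey (σ := Option Vr)
    (fun o => o.elim (rsdnS N Z x - rsdnS N Z y) (N.H.jet2 x y)) (some (false, 0)) (some (true, 0))
    none {some (false, 1), some (false, 2), some (true, 1), some (true, 2)} (by decide) (by decide)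
    (by decide) (by decide) (by decide) (N.H.D_zero x) (N.H.D_zero y) rfl
    ((rsdn_ind_some hind _).mono fun s hs => ?_)
    (fun b r => MvPolynomial.X (some (b, r))) (fun b r hr => ⟨RsdnB.X ?_, by cases b <;> simp [HD.jet2]⟩)
    (fun b s _ e => ?_) ?_ ?_
  · simp only [Finset.coe_insert, Finset.coe_singleton, Set.mem_insert_iff,
      Set.mem_singleton_iff] at hs
    rcases hs with rfl | rfl | rfl | rfl | rfl | rfl <;> exact ⟨_, by simp [box], rfl⟩
  · rcases hr with rfl | rfl <;> cases b <;> simp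
  · simpa using congrArg (MvPolynomial.degreeOf (some (b, 1))) e
  · filter_upwards [N.ae_jet_int x 1, N.ae_jet_int x 2, N.ae_jet_int y 1, N.ae_jet_int y 2]
      with w a b c d e f
    simp only [Finset.forall_mem_insert, Finset.mem_singleton, forall_eq]
    exact ⟨a e, b e, c f, d f⟩
  · rw [Finset.sum_insert (by decide), Finset.sum_insert (by decide), Finset.sum_pair (by decide)]
    refine (add_le_add (hj x 1 hx) (add_le_add (hj x 2 hx) (add_le_add (hj y 1 hy)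
      (hj y 2 hy)))).trans (le_of_eq ?_)
    push_cast
    ring

/-- One level, constant jets. -/
theorem diff_level_zero {x y : K} (Z : Finset N.toPF.k0) {h : ℝ≥0∞} (hx : N.toPF.ht x = h)
    (hy : N.toPF.ht y = h) (hh : h ≠ ⊤)
    (hind : ∀ G : N.toPF.k0[X][X], aevalAeval x y G = 0 → G = 0)
    (x1 : N.H.D 1 x = 0) (x2 : N.H.D 2 x = 0) (y1 : N.H.D 1 y = 0) (y2 : N.H.D 2 y = 0)
    (hZ : ∀ s ∈ Z, N.H0.D 1 s ≠ 0) :
    3 * Z.card * h ≤ 16000 * N.toPF.mass (N.Diff Z x y) + 100000 * h := by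
  refine rsdn_gen Z hx hy hh (exc_eq_zero_of_D x1 Z hZ) (exc_eq_zero_of_D y1 Z hZ) (σ := Fin 3)
    ![x, y, rsdnS N Z x - rsdnS N Z y] 0 1 2 ∅ (by decide) (by decide) (by decide) (by decide)
    (by decide) rfl rfl rfl (by
      simpa using (ind_pair (ω := ![x, y, rsdnS N Z x - rsdnS N Z y]) (u := 0) (u' := 1)
        (by decide)).2 hind)
    (fun _ _ => MvPolynomial.C 0) (fun b r hr => ⟨RsdnB.C _, ?_⟩)
    (fun _ s hs e => hZ s hs (MvPolynomial.C_injective _ _ e).symm) (by simp) (by simp)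
  rcases hr with rfl | rfl <;> cases b <;> simp [x1, x2, y1, y2]

end NS

end JR
end

-- merged part: Pool.Agent.Work.MP_969914_nt.RPairA
section
/-! Two orbits: existence of partners. -/

set_option autoImplicit false

namespace JR

open scoped NNReal ENNReal
open Polynomial Filter


/-- The short variables. -/
def rpairaZ (A B : ℕ) : Finset Vr :=
  ((Finset.univ : Finset Bool) ×ˢ Finset.range (A + B + 2)).filter
    fun s => s.2 ≠ 0 ∧ s.2 < if s.1 then B + 1 else A + 2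

theorem rpaira_memZ {A B : ℕ} {s : Vr} :
    s ∈ rpairaZ A B ↔ s.2 ≠ 0 ∧ s ∈ box (A + 2) (B + 1) := by
  obtain ⟨b, i⟩ := s
  cases b <;> simp [rpairaZ, box] <;> omega

theorem rpaira_sub1 {A B : ℕ} : box (max (A + 2) 1) (B + 1) \ {(true, 0)} ⊆
    ((insert (false, 0) (rpairaZ A B) : Finset Vr) : Set Vr) := by
  rintro ⟨b, i⟩ ⟨h1, h2⟩
  simp only [Finset.coe_insert, Set.mem_insert_iff, Finset.mem_coe, rpaira_memZ]
  cases b <;> simp [box] at h1 h2 ⊢ <;> omega

theorem rpaira_sub2 {A B : ℕ} :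
    ((insert (false, 0) (insert (true, 0) (rpairaZ A B)) : Finset Vr) : Set Vr) ⊆
      box (A + 2) (B + 1) := by
  rintro ⟨b, i⟩ h
  simp only [Finset.coe_insert, Set.mem_insert_iff, Finset.mem_coe, rpaira_memZ] at h
  rcases h with h | h | h
  · rw [h]; simp [box]
  · rw [h]; simp [box]
  · exact h.2

theorem rpaira_sub3 {A B : ℕ} : box (A + 2) (B + 1) ⊆ box (A + 2) (B + 2) := by
  rintro ⟨b, i⟩ h
  cases b <;> simp [box] at h ⊢ <;> omega

/-- The algebraic half: the auxiliary polynomial. -/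
theorem rpaira_alg {k0 : Type} [Field k0] {H : HD k0} (h2 : (2 : k0) ≠ 0) {P Q : k0[X]}
    {m γ d e A B : ℕ} {f f' g g' : MvPolynomial Vr k0}
    (h : IsPull H P Q (2 ^ γ * d) m f g) (h' : IsPull H P Q (2 ^ γ * d) m f' g')
    (hf : On (box (A + 2) (B + 2)) f) (hf' : On (box (A + 2) (B + 2)) f') {v : k0}
    (hrel : IsRelPrime (spec2 true v (H.D 1 v) f) (spec2 true v (H.D 1 v) f'))
    (h0 : spec2 true v (H.D 1 v) f ≠ 0) (h0' : spec2 true v (H.D 1 v) f' ≠ 0)
    (I : Finset k0) (hI : ∀ ζ ∈ I, CritPt P Q ζ v) (hcard : I.card ≤ 2 ^ γ * d)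
    (hc : (2 ^ γ * d) * (2 * (rpairaZ A B).card * (m * (2 ^ γ * d)) * m *
        (e + 2 * m + 1) ^ ((rpairaZ A B).card - 1) +
        (rpairaZ A B).card ^ 2 * m ^ 2 * (d + 2 * (m * (2 ^ γ * d)) + 1) *
          (e + 2 * m + 1) ^ ((rpairaZ A B).card - 2)) <
      (d + 1) * (d + 1) * (e + 1) ^ (rpairaZ A B).card) :
    ∃ Θ : MvPolynomial Vr k0, Θ ≠ 0 ∧
      On ((insert (false, 0) (insert (true, 0) (rpairaZ A B)) : Finset Vr) : Set Vr) Θ ∧
      Θ.degreeOf (false, 0) ≤ d ∧ Θ.degreeOf (true, 0) ≤ d ∧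
      (∀ z ∈ rpairaZ A B, Θ.degreeOf z ≤ e) ∧
      ∀ ζ ∈ I, ∃ (G A' B' : MvPolynomial Vr k0) (n : ℕ), sub1 (true, 0) ζ g = G * A' ∧
        sub1 (true, 0) ζ g' = G * B' ∧ On (box (A + 2) (B + 2)) A' ∧
        On (box (A + 2) (B + 2)) B' ∧
        G ∣ (aeval (MvPolynomial.X (false, 0) : MvPolynomial Vr k0) (Q * Wr P Q) *
          (MvPolynomial.X (true, 1) - MvPolynomial.C (H.D 1 ζ))) ^ n ∧
        sub1 (true, 0) ζ Θ ∈ Ideal.span {A', B'} := by
  classical
  have key : ∀ ζ, ζ ∈ I → ∃ (G A' B' : MvPolynomial Vr k0) (n : ℕ),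
      sub1 (true, 0) ζ g = G * A' ∧ sub1 (true, 0) ζ g' = G * B' ∧ IsRelPrime A' B' ∧
      G ∣ (aeval (MvPolynomial.X (false, 0) : MvPolynomial Vr k0) (Q * Wr P Q) *
          (MvPolynomial.X (true, 1) - MvPolynomial.C (H.D 1 ζ))) ^ n := fun ζ hζ =>
    exists_relPrime_part (h.ne_zero_one h2 true (hI ζ hζ) h0)
      (fun π hπ d1 d2 => IsPull.common h2 (A := A + 1) h h' hf hf' (hI ζ hζ) hrel h0 π hπ d1 d2)
  choose! G A' B' n hA hB hR hG using key
  have part : ∀ {f g : MvPolynomial Vr k0}, IsPull H P Q (2 ^ γ * d) m f g →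
      On (box (A + 2) (B + 2)) f → spec2 true v (H.D 1 v) f ≠ 0 → ∀ ζ ∈ I,
      ∀ G A' : MvPolynomial Vr k0, sub1 (true, 0) ζ g = G * A' → A' ≠ 0 ∧
        On ((insert (false, 0) (rpairaZ A B) : Finset Vr) : Set Vr) A' ∧
        A'.degreeOf (false, 0) ≤ m * (2 ^ γ * d) ∧ ∀ z ∈ rpairaZ A B, A'.degreeOf z ≤ m := by
    intro f g h hf h0 ζ hζ G A' e
    have hn := h.ne_zero_one h2 true (hI ζ hζ) h0
    have hd : A' ∣ sub1 (true, 0) ζ g := ⟨G, by rw [e, mul_comm]⟩
    refine ⟨fun h => hn (by rw [e, h, mul_zero]), ?_, ?_, ?_⟩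
    · exact On.of_dvd ((h.crity (A + 2) (B + 1) ζ (hI ζ hζ).w hf).mono rpaira_sub1) hn hd
    · exact (degreeOf_le_of_dvd hn hd _).trans ((degreeOf_sub1_le _ _ _ _).trans (h.deg0 false))
    · rintro ⟨b, i⟩ hz
      obtain ⟨i, rfl⟩ := Nat.exists_eq_succ_of_ne_zero (rpaira_memZ.1 hz).1
      exact (degreeOf_le_of_dvd hn hd _).trans ((degreeOf_sub1_le _ _ _ _).trans (h.deg b i))
  have hsub : ((insert (false, 0) (rpairaZ A B) : Finset Vr) : Set Vr) ⊆ box (A + 2) (B + 2) :=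
    fun s hs => rpaira_sub3 (rpaira_sub2 (by
      simp only [Finset.coe_insert, Set.mem_insert_iff] at hs ⊢
      tauto))
  obtain ⟨Θ, t0, t1, t2, t3, t4, t5⟩ := aux_two (k0 := k0) (false, 0) (true, 0) (rpairaZ A B)
    (by simp) (by simp [rpaira_memZ]) (by simp [rpaira_memZ]) I A' B' (m * (2 ^ γ * d)) m d d e
    (fun ζ hζ => by
      obtain ⟨a1, a2, a3, a4⟩ := part h hf h0 ζ hζ _ _ (hA ζ hζ)
      obtain ⟨b1, b2, b3, b4⟩ := part h' hf' h0' ζ hζ _ _ (hB ζ hζ)
      exact ⟨a1, b1, hR ζ hζ, a2, b2, a3, b3, fun z hz => ⟨a4 z hz, b4 z hz⟩⟩)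
    (lt_of_le_of_lt (Nat.mul_le_mul_right _ hcard) hc)
  refine ⟨Θ, t0, t1, t2, t3, t4, fun ζ hζ => ⟨G ζ, A' ζ, B' ζ, n ζ, hA ζ hζ, hB ζ hζ,
    (part h hf h0 ζ hζ _ _ (hA ζ hζ)).2.1.mono hsub,
    (part h' hf' h0' ζ hζ _ _ (hB ζ hζ)).2.1.mono hsub, hG ζ hζ, t5 ζ hζ⟩⟩

namespace NS
variable {p : ℕ} [Fact p.Prime] {K Γ : Type} [Field K] [CharP K p]
  [LinearOrderedCommGroupWithZero Γ] (N : NS p K Γ)

/-- No small relation at deep levels: what the growth lemma provides. -/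
def NoSmall (x y : ℤ → K) (A B : ℕ) : Prop :=
  ∀ l : ℤ, ∃ g0 : ℕ, ∀ g i : ℕ, g0 ≤ g → ∀ Θ : MvPolynomial Vr N.toPF.k0, On (box A B) Θ →
    Θ.degreeOf (false, 0) ≤ 2 ^ i → Θ.degreeOf (true, 0) ≤ 2 ^ i →
    MvPolynomial.aeval (N.H.jet2 (x (l - (g + i : ℕ))) (y (l - (g + i : ℕ)))) Θ = 0 → Θ = 0

variable {N} {a c : N.toPF.k0} {x y : ℤ → K}

theorem rpaira_ht_eq (hac : a ≠ c) (hx : N.Orb a c x) (hy : N.Orb a c y)
    (hht : N.toPF.ht (x 0) = N.toPF.ht (y 0)) (i : ℤ) : N.toPF.ht (x i) = N.toPF.ht (y i) := by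
  rcases le_total 0 i with hi | hi
  · obtain ⟨j, rfl⟩ := Int.eq_ofNat_of_zero_le hi
    have e1 := N.ht_orbit hac hx.orbit 0 j
    have e2 := N.ht_orbit hac hy.orbit 0 j
    rw [zero_add] at e1 e2
    rw [e1, e2, hht]
  · obtain ⟨j, hj⟩ := Int.eq_ofNat_of_zero_le (neg_nonneg.2 hi)
    have e1 := N.ht_orbit hac hx.orbit i j
    have e2 := N.ht_orbit hac hy.orbit i j
    have hz : i + j = 0 := by omega
    rw [hz] at e1 e2
    rw [e1, e2] at hht
    exact (ENNReal.mul_right_inj (by simp) (by simp)).1 hht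

/-- The restricted pull-back of a relation is small at the lifted point. -/
theorem rpaira_small (g : MvPolynomial Vr N.toPF.k0) (V : Set Vr) (hg : On V g) (ω : Vr → K)
    (h0 : MvPolynomial.aeval ω g = 0) (u : Vr) (ζ : N.toPF.k0) :
    ∀ᶠ w in N.toPF.ae, (∀ s ∈ V, N.v w (ω s) ≤ 1) → N.v w (ω u) ≤ 1 → N.v w (ω u - ζ) < 1 →
      N.v w (MvPolynomial.aeval ω (sub1 u ζ g)) < 1 := by
  obtain ⟨ω', e0, e1, e2⟩ : ∃ ω' : Vr → K, MvPolynomial.aeval ω (sub1 u ζ g) =
      MvPolynomial.aeval ω' g ∧ ω' u = ζ ∧ ∀ s, s ≠ u → ω' s = ω s :=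
    ⟨_, aeval_sub1 ω u ζ g, if_pos rfl, fun s hs => if_neg hs⟩
  filter_upwards [N.ae_aeval_congr g] with w hw h1 h2 h3
  rw [e0]
  have hζ : N.v w (ζ : K) ≤ 1 := by
    have : (ζ : K) = ω u - (ω u - ζ) := by ring
    rw [this]
    exact Valuation.map_sub_le _ h2 h3.le
  have := hw ω' ω (N.v w (ω u - ζ))
    (fun s hs => by
      have hV : s ∈ V := by
        by_contra hV
        exact hs (hg s hV)
      by_cases hsu : s = u
      · subst hsu
        rw [e1]
        refine ⟨hζ, h2, ?_⟩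
        rw [Valuation.map_sub_swap]
      · rw [e2 s hsu, sub_self, map_zero]
        exact ⟨h1 s hV, h1 s hV, zero_le⟩)
  rw [h0, sub_zero] at this
  exact lt_of_le_of_lt this h3

/-- The auxiliary polynomial vanishes at the lifted point. -/
theorem rpaira_van {P Q : N.toPF.k0[X]} {A B n : ℕ} {g g' G A' B' Θ : MvPolynomial Vr N.toPF.k0}
    {ω : Vr → K} {ζ ζ' : N.toPF.k0} (hQW : aeval (ω (false, 0)) (Q * Wr P Q) ≠ 0)
    (hg : On (box (A + 2) (B + 2)) g) (hg' : On (box (A + 2) (B + 2)) g')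
    (hgz : MvPolynomial.aeval ω g = 0) (hgz' : MvPolynomial.aeval ω g' = 0)
    (hΘ : On (box (A + 2) (B + 2)) Θ)
    (e1 : sub1 (true, 0) ζ g = G * A') (e2 : sub1 (true, 0) ζ g' = G * B')
    (o1 : On (box (A + 2) (B + 2)) A') (o2 : On (box (A + 2) (B + 2)) B')
    (hG : G ∣ (aeval (MvPolynomial.X (false, 0) : MvPolynomial Vr N.toPF.k0) (Q * Wr P Q) *
          (MvPolynomial.X (true, 1) - MvPolynomial.C ζ')) ^ n)
    (hsp : sub1 (true, 0) ζ Θ ∈ Ideal.span {A', B'}) :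
    ∀ᶠ w in N.toPF.ae, (∀ s ∈ box (A + 2) (B + 2), N.v w (ω s) ≤ 1) →
      N.v w (ω (true, 0) - ζ) < 1 → N.v w (aeval (ω (false, 0)) Q) = 1 →
      N.v w (aeval (ω (false, 0)) (Wr P Q)) = 1 → N.v w (ω (true, 1) - ζ') = 1 →
      N.v w (MvPolynomial.aeval ω Θ) < 1 := by
  have hev : MvPolynomial.aeval ω
      (aeval (MvPolynomial.X (false, 0) : MvPolynomial Vr N.toPF.k0) (Q * Wr P Q)) =
      aeval (ω (false, 0)) (Q * Wr P Q) := by
    rw [← Polynomial.aeval_algHom_apply, MvPolynomial.aeval_X]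
  obtain ⟨Ξ, hΞo, hΞ0, hΞv, hG'⟩ : ∃ Ξ : MvPolynomial Vr N.toPF.k0, On (box (A + 2) (B + 2)) Ξ ∧
      Ξ ≠ 0 ∧ MvPolynomial.aeval ω Ξ = aeval (ω (false, 0)) Q * aeval (ω (false, 0)) (Wr P Q) *
        (ω (true, 1) - ζ') ∧ G ∣ Ξ ^ n := by
    refine ⟨_, (On.aeval_X (by simp [box]) _).mul ((On.X (by simp [box])).sub (On.C _)),
      mul_ne_zero (fun h => ?_) (fun h => ?_), ?_, hG⟩
    · rw [h, map_zero] at hev
      exact hQW hev.symm
    · have := congrArg (MvPolynomial.aeval fun _ : Vr => ζ' + 1) h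
      simp at this
    · rw [map_mul, hev, map_mul, map_sub, MvPolynomial.aeval_X, MvPolynomial.aeval_C]
      rfl
  have s1 := rpaira_small g _ hg ω hgz (true, 0) ζ
  have s2 := rpaira_small g' _ hg' ω hgz' (true, 0) ζ
  rw [e1] at s1
  rw [e2] at s2
  filter_upwards [s1, s2, N.ae_cancel G A' Ξ n _ hΞo hΞ0 hG', N.ae_cancel G B' Ξ n _ hΞo hΞ0 hG',
    N.ae_aux_vanish Θ A' B' (true, 0) ζ _ hΘ o1 o2 hsp] with w w1 w2 w3 w4 w5 hint hlt q1 q2 q3
  have hy0 : N.v w (ω (true, 0)) ≤ 1 := hint _ (by simp [box])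
  have hu : N.v w (MvPolynomial.aeval ω Ξ) = 1 := by
    rw [hΞv, map_mul, map_mul, q1, q2, q3, mul_one, mul_one]
  exact w5 ω hint hlt (w3 ω hint hu (w1 hint hy0 hlt)) (w4 ω hint hu (w2 hint hy0 hlt))

/-- The height count. -/
theorem rpaira_sum (u u' : K) (hh : N.toPF.ht u = N.toPF.ht u') (A B d ε : ℕ) :
    ∑ s ∈ insert (false, 0) (insert (true, 0) (rpairaZ A B)),
      ((if s.2 = 0 then d else ε : ℕ) : ℝ≥0∞) * N.toPF.ht (N.H.jet2 u u' s) ≤
      (2 * d + (∑ s ∈ rpairaZ A B, ε * (s.2 + 1) : ℕ)) * N.toPF.ht u := by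
  have ωx : N.H.jet2 u u' (false, 0) = u := by simp [HD.jet2, HD.D_zero]
  have ωy : N.H.jet2 u u' (true, 0) = u' := by simp [HD.jet2, HD.D_zero]
  rw [Finset.sum_insert (by simp [rpaira_memZ]), Finset.sum_insert (by simp [rpaira_memZ]),
    ωx, ωy, ← hh]
  have hZ : ∑ s ∈ rpairaZ A B, ((if s.2 = 0 then d else ε : ℕ) : ℝ≥0∞) *
      N.toPF.ht (N.H.jet2 u u' s) ≤
      ((∑ s ∈ rpairaZ A B, ε * (s.2 + 1) : ℕ) : ℝ≥0∞) * N.toPF.ht u := by
    rw [Nat.cast_sum, Finset.sum_mul]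
    refine Finset.sum_le_sum fun s hs => ?_
    rw [if_neg (rpaira_memZ.1 hs).1, Nat.cast_mul, mul_assoc]
    refine mul_le_mul_right ?_ _
    obtain ⟨b, k⟩ := s
    cases b
    · simpa [HD.jet2] using N.ht_D_le u k
    · rw [hh]
      simpa [HD.jet2] using N.ht_D_le u' k
  refine (add_le_add le_rfl (add_le_add le_rfl hZ)).trans (le_of_eq ?_)
  simp only [if_true]
  ring

/-- (A). -/
theorem partner (hE : HypEq a c) (hρ : N.H0.D 1 a ≠ 0 ∨ N.H0.D 1 c ≠ 0) (h1 : Std1 N.H0 a c)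
    (hx : N.Orb a c x) (hy : N.Orb a c y) (hht : N.toPF.ht (x 0) = N.toPF.ht (y 0)) {A B : ℕ}
    (hs : N.NoSmall x y (A + 2) (B + 1)) (l : ℤ) {f f' : MvPolynomial Vr N.toPF.k0}
    (hf : On (box (A + 2) (B + 2)) f) (hf' : On (box (A + 2) (B + 2)) f') (f0 : f ≠ 0)
    (f0' : f' ≠ 0) (hrel : IsRelPrime f f')
    (e : MvPolynomial.aeval (N.H.jet2 (x l) (y l)) f = 0)
    (e' : MvPolynomial.aeval (N.H.jet2 (x l) (y l)) f' = 0) :
    ∃ r0 : ℕ, ∀ r, r0 ≤ r → ∃ (r' : ℕ) (b : Bool),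
      N.toPF.mass (N.toPF.Ev (x (l - r')) b ∩ N.toPF.Ev (y (l - 1 - r)) false) ≠ 0 := by
  classical
  obtain ⟨F, hF0, hF⟩ := relPrime_spec hrel f0 f0'
  choose! R hR using fun φ (hφ : φ ∈ F) => h1 φ (hF0 φ hφ) true
  refine ⟨F.sup R, fun r hr => ?_⟩
  obtain ⟨hrel', s0, s0'⟩ := hF (true, 0) (true, 1) (vv a c false r) (N.H0.D 1 (vv a c false r))
    (fun φ hφ => hR φ hφ r ((Finset.le_sup hφ).trans hr))
  have hsp2 : ∀ (u u' : N.toPF.k0) (φ : MvPolynomial Vr N.toPF.k0),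
      sub1 (true, 1) u' (sub1 (true, 0) u φ) = spec2 true u u' φ := fun _ _ _ => rfl
  rw [hsp2, hsp2] at hrel'
  rw [hsp2] at s0 s0'
  by_contra hcon
  push Not at hcon
  have hac := hE.ne
  obtain ⟨m1, hm1⟩ := exists_pull N.H0 f
  obtain ⟨m2, hm2⟩ := exists_pull N.H0 f'
  obtain ⟨g0, hg0⟩ := hs l
  obtain ⟨γ, hγ, hsm⟩ := small_contra (hy.ht_pos hac (l - 1 - r)).1 (hx.ht_pos hac l).2
    (max g0 (r + 2))
  have hn : 1 ≤ (rpairaZ A B).card :=
    Finset.card_pos.2 ⟨(false, 1), rpaira_memZ.2 ⟨by simp, by simp [box]⟩⟩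
  obtain ⟨ε, hε⟩ := count_two (rpairaZ A B).card (max m1 m2) γ hn
  obtain ⟨i, hi⟩ := hsm (∑ s ∈ rpairaZ A B, ε * (s.2 + 1))
  obtain ⟨t, ht⟩ : ∃ t, γ + i = t + 2 + r := ⟨γ + i - 2 - r, by omega⟩
  obtain ⟨I, hI⟩ := exists_splits_crit hE N.sqrt_k0 false t
  set P := (PQ a c (γ + i)).1 with hP
  set Q := (PQ a c (γ + i)).2 with hQ
  have hxQ := IsOrbit.iter (K := K) (a := a) (c := c) hx.orbit (l - (γ + i : ℕ)) (γ + i)
  have hyQ := IsOrbit.iter (K := K) (a := a) (c := c) hy.orbit (l - (γ + i : ℕ)) (γ + i)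
  have hQ0 : Q ≠ 0 := fun h => hxQ.1 (by rw [← hQ, h, map_zero])
  have hdeg := natDegree_PQ a c (γ + i)
  rw [pow_add] at hdeg
  obtain ⟨g, hg⟩ := hm1 (max m1 m2) (le_max_left _ _) P Q (2 ^ γ * 2 ^ i) hQ0 hdeg.1 hdeg.2
  obtain ⟨g', hg'⟩ := hm2 (max m1 m2) (le_max_right _ _) P Q (2 ^ γ * 2 ^ i) hQ0 hdeg.1 hdeg.2
  have hcrit : ∀ ζ ∈ I, CritPt P Q ζ (vv a c false r) := by
    intro ζ hζ
    obtain ⟨lc, -, hlc⟩ := hI.eq
    have hz : (critPoly a c false (t + 1)).eval ζ = 0 := by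
      rw [hlc, eval_mul, eval_prod, Finset.prod_eq_zero hζ (by simp), mul_zero]
    have := crit_data hE hz r
    rw [← ht] at this
    exact ⟨this.1, this.2.1, this.2.2.1, this.2.2.2⟩
  have hcard : I.card ≤ 2 ^ γ * 2 ^ i := by
    rw [hI.card, ← pow_add]
    exact Nat.pow_le_pow_right (by norm_num) (by omega)
  obtain ⟨Θ, t0, t1, t2, t3, t4, t5⟩ := rpaira_alg (γ := γ) (d := 2 ^ i) (e := ε) (A := A) (B := B)
    hE.two hg hg' hf hf' hrel' s0 s0' I hcrit hcard (hε (2 ^ i))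
  set ω := N.H.jet2 (x (l - (γ + i : ℕ))) (y (l - (γ + i : ℕ))) with hω
  have ωx : ω (false, 0) = x (l - (γ + i : ℕ)) := by simp [hω, HD.jet2, HD.D_zero]
  have ωy : ω (true, 0) = y (l - (γ + i : ℕ)) := by simp [hω, HD.jet2, HD.D_zero]
  have ωy1 : ω (true, 1) = N.H.D 1 (y (l - (γ + i : ℕ))) := by simp [hω, HD.jet2]
  have hΘ : MvPolynomial.aeval ω Θ ≠ 0 := fun h =>
    t0 (hg0 γ i ((le_max_left _ _).trans hγ) Θ (t1.mono rpaira_sub2) t2 t3 h)
  have hjet : jpt2 N.H0 P Q ω = N.H.jet2 (x l) (y l) := by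
    have := jet2_orbit N.compat (a := a) (c := c) hx.orbit hy.orbit (l - (γ + i : ℕ)) (γ + i)
    rw [sub_add_cancel] at this
    exact this.symm
  have hωQ : ∀ b, aeval (ω (b, 0)) Q ≠ 0 := by
    intro b
    cases b
    · rw [ωx]; exact hxQ.1
    · rw [ωy]; exact hyQ.1
  have hgz : MvPolynomial.aeval ω g = 0 := by rw [hg.ev K ω hωQ, hjet, e, mul_zero]
  have hgz' : MvPolynomial.aeval ω g' = 0 := by rw [hg'.ev K ω hωQ, hjet, e', mul_zero]
  have hon : ∀ {f g : MvPolynomial Vr N.toPF.k0}, IsPull N.H0 P Q (2 ^ γ * 2 ^ i) (max m1 m2) f g →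
      On (box (A + 2) (B + 2)) f → On (box (A + 2) (B + 2)) g := by
    intro f g h hf
    have := h.on _ _ hf
    rwa [max_eq_left (by omega), max_eq_left (by omega)] at this
  -- the vanishing of the auxiliary polynomial
  have hvan : ∀ ζ ∈ I, ∀ᶠ w in N.toPF.ae, (∀ s ∈ box (A + 2) (B + 2), N.v w (ω s) ≤ 1) →
      N.v w (ω (true, 0) - ζ) < 1 → N.v w (aeval (ω (false, 0)) Q) = 1 →
      N.v w (aeval (ω (false, 0)) (Wr P Q)) = 1 →
      N.v w (ω (true, 1) - (N.H0.D 1 ζ : N.toPF.k0)) = 1 →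
      N.v w (MvPolynomial.aeval ω Θ) < 1 := by
    intro ζ hζ
    obtain ⟨G, A', B', n, e1, e2, o1, o2, hG, hsp⟩ := t5 ζ hζ
    refine rpaira_van (fun h => ?_) (hon hg hf) (hon hg' hf') hgz hgz'
      (t1.mono (rpaira_sub2.trans rpaira_sub3)) e1 e2 o1 o2 hG hsp
    rw [ωx] at h
    exact mul_ne_zero hQ0 (Wr_ne_zero hE.two hac _)
      (transcendental_iff.1 (hx.trans hac (l - (γ + i : ℕ))) _ h)
  have hno : ∀ r' ∈ Finset.range (γ + i + 1), ∀ᶠ w in N.toPF.ae,
      w ∈ N.toPF.Ev (y (l - 1 - r)) false → N.v w (x (l - r')) = 1 := by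
    intro r' _
    have a1 : ∀ b, ∀ᶠ w in N.toPF.ae,
        ¬ w ∈ N.toPF.Ev (x (l - r')) b ∩ N.toPF.Ev (y (l - 1 - r)) false := fun b => by
      rw [PF.eventually_ae_iff]
      simpa using hcon r' b
    filter_upwards [a1 false, a1 true] with w w1 w2 hw
    have u1 : ¬ N.v w (x (l - r')) < 1 := fun h => w1 ⟨by simpa [PF.Ev] using h, hw⟩
    have u2 : ¬ 1 < N.v w (x (l - r')) := fun h => w2 ⟨by simpa [PF.Ev] using h, hw⟩
    exact le_antisymm (not_lt.1 u2) (not_lt.1 u1)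
  have hjx : ∀ s ∈ Finset.range (A + 2), ∀ᶠ w in N.toPF.ae,
      N.v w (x (l - (γ + i : ℕ))) ≤ 1 → N.v w (N.H.D s (x (l - (γ + i : ℕ)))) ≤ 1 :=
    fun s _ => N.ae_jet_int _ s
  have hjy : ∀ s ∈ Finset.range (B + 2), ∀ᶠ w in N.toPF.ae,
      N.v w (y (l - (γ + i : ℕ))) ≤ 1 → N.v w (N.H.D s (y (l - (γ + i : ℕ)))) ≤ 1 :=
    fun s _ => N.ae_jet_int _ s
  have hlev : l - (γ + i : ℕ) + (t + 1 : ℕ) = l - 1 - r := by
    push_cast
    have : (γ : ℤ) + i = t + 2 + r := by exact_mod_cast ht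
    omega
  have hae : ∀ᶠ w in N.toPF.ae, w ∈ N.toPF.Ev (y (l - 1 - r)) false →
      N.v w (MvPolynomial.aeval ω Θ) < 1 := by
    filter_upwards [(eventually_all_finset I).2 hvan, (eventually_all_finset _).2 hno,
      (eventually_all_finset _).2 hjx, (eventually_all_finset _).2 hjy,
      ev_lift hE hρ hy hI (l - (γ + i : ℕ)),
      ae_passage hE.two hac hx.orbit (l - (γ + i : ℕ)) (γ + i)] with w w1 w2 w3 w4 w5 w6 hw
    rw [hlev] at w5
    obtain ⟨ζ, hζ, z1, z2, z3⟩ := w5 hw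
    have hx1 : N.v w (x (l - (γ + i : ℕ))) = 1 := w2 (γ + i) (by simp) hw
    obtain ⟨q1, q2⟩ := w6 (by
        have := w2 0 (by simp) hw
        rw [sub_add_cancel]
        simpa using this.le)
      (fun k hk => by
        have := w2 (γ + i - k) (Finset.mem_range.2 (by omega)) hw
        convert this using 3
        push_cast [Nat.cast_sub hk.le]
        ring)
    refine w1 ζ hζ ?_ ?_ ?_ ?_ ?_
    · rintro ⟨b, s⟩ hs
      cases b
      · exact w3 s (Finset.mem_range.2 (by simpa [box] using hs)) hx1.le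
      · exact w4 s (Finset.mem_range.2 (by simpa [box] using hs)) z2
    · rw [ωy, z1]
      exact inv_lt_one_of_one_lt₀ N.one_lt_q
    · rw [ωx]; exact q1
    · rw [ωx]; exact q2
    · rw [ωy1]; exact z3
  have hmass := N.mass_le_of_aux Θ ω (insert (false, 0) (insert (true, 0) (rpairaZ A B)))
    (fun s => if s.2 = 0 then 2 ^ i else ε) t1 (fun s hs => by
      simp only [Finset.mem_insert] at hs
      rcases hs with rfl | rfl | hs
      · simpa using t2
      · simpa using t3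
      · rw [if_neg (rpaira_memZ.1 hs).1]; exact t4 s hs) hΘ hae
  have hh := rpaira_ht_eq hac hx hy hht (l - (γ + i : ℕ))
  refine hi i le_rfl (N.toPF.ht (x (l - (γ + i : ℕ)))) ?_ ?_
  · have := N.ht_orbit hac hx.orbit (l - (γ + i : ℕ)) (γ + i)
    rw [sub_add_cancel] at this
    exact this.symm
  · refine (ht_le_mass_ev hE hρ hy false _).trans (hmass.trans ?_)
    have := rpaira_sum _ _ hh A B (2 ^ i) ε
    rw [Nat.cast_pow, Nat.cast_ofNat] at this
    exact this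

end NS

end JR
end

-- merged part: Pool.Agent.Work.MP_969914_nt.RPairB
section
/-! Two orbits: relations vanish on the strata of pairs; growth. -/

set_option autoImplicit false

namespace JR

open scoped NNReal ENNReal
open Polynomial Filter

namespace NS
variable {p : ℕ} [Fact p.Prime] {K Γ : Type} [Field K] [CharP K p]
  [LinearOrderedCommGroupWithZero Γ] {N : NS p K Γ} {a c : N.toPF.k0} {x y : ℤ → K}

theorem rpairb_crit {k0 : Type} [Field k0] {a c : k0} (hE : HypEq a c) {b : Bool} {i n : ℕ}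
    {Z : Finset k0} (hZ : Splits a c (critPoly a c b (i + 1)) n Z) {ζ : k0} (hζ : ζ ∈ Z) (r : ℕ) :
    CritPt (PQ a c (i + 2 + r)).1 (PQ a c (i + 2 + r)).2 ζ (vv a c b r) := by
  obtain ⟨l, -, h⟩ := hZ.eq
  have h0 : (critPoly a c b (i + 1)).eval ζ = 0 := by
    rw [h, eval_mul, eval_prod, Finset.prod_eq_zero hζ (by simp), mul_zero]
  obtain ⟨h1, h2, h3, h4⟩ := crit_data hE h0 r
  exact ⟨h1, h2, h3, h4⟩

omit [Fact p.Prime] [CharP K p] in
/-- The pull-back of a relation is a relation. -/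
theorem rpairb_pull (hx : IsOrbit (a : K) c x) (hy : IsOrbit (a : K) c y) (l : ℤ)
    {f : MvPolynomial Vr N.toPF.k0} (e : MvPolynomial.aeval (N.H.jet2 (x l) (y l)) f = 0) :
    ∃ m : ℕ, ∀ j : ℕ, ∃ g, IsPull N.H0 (PQ a c j).1 (PQ a c j).2 (2 ^ j) m f g ∧
      MvPolynomial.aeval (N.H.jet2 (x (l - j)) (y (l - j))) g = 0 := by
  obtain ⟨m, hm⟩ := exists_pull N.H0 f
  refine ⟨m, fun j => ?_⟩
  obtain ⟨h1, h2⟩ := IsOrbit.iter (k0 := N.toPF.k0) hx (l - j) j
  obtain ⟨h3, h4⟩ := IsOrbit.iter (k0 := N.toPF.k0) hy (l - j) j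
  obtain ⟨g, hg⟩ := hm m le_rfl (PQ a c j).1 (PQ a c j).2 (2 ^ j)
    (fun h => h1 (by rw [h, map_zero])) (natDegree_PQ a c j).1 (natDegree_PQ a c j).2
  refine ⟨g, hg, ?_⟩
  rw [sub_add_cancel] at h2 h4
  rw [hg.ev K _ ?_, ← HD.jet2_div N.H N.compat _ _ _ _ h1 h3, ← h2, ← h4, e, mul_zero]
  rintro (_ | _)
  · simpa [HD.jet2, HD.D_zero] using h1
  · simpa [HD.jet2, HD.D_zero] using h3

omit [Fact p.Prime] [CharP K p] in
theorem rpairb_ht (hac : a ≠ c) (hx : IsOrbit (a : K) c x) (hy : IsOrbit (a : K) c y)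
    (hht : N.toPF.ht (x 0) = N.toPF.ht (y 0)) (l : ℤ) : N.toPF.ht (x l) = N.toPF.ht (y l) := by
  obtain ⟨n, rfl | rfl⟩ := l.eq_nat_or_neg
  · have h1 := N.ht_orbit hac hx 0 n
    have h2 := N.ht_orbit hac hy 0 n
    rw [zero_add] at h1 h2
    rw [h1, h2, hht]
  · have h1 := N.ht_orbit hac hx (-n) n
    have h2 := N.ht_orbit hac hy (-n) n
    rw [neg_add_cancel] at h1 h2
    rw [h1, h2] at hht
    exact (ENNReal.mul_right_inj (by simp) (by simp)).1 hht

omit [Fact p.Prime] [CharP K p] in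
theorem rpairb_ae (g : MvPolynomial Vr N.toPF.k0) (M : ℕ) (hg : ∀ s, g.degreeOf s ≠ 0 → s.2 < M)
    (u v : K) (h0 : MvPolynomial.aeval (N.H.jet2 u v) g = 0) :
    ∀ᶠ w in N.toPF.ae, ∀ ζ ζ' : N.toPF.k0, N.v w u ≤ 1 → N.v w v ≤ 1 →
      N.v w (u - ζ) = N.q⁻¹ → N.v w (v - ζ') = N.q⁻¹ →
      (∀ s : Vr, s.2 < M → N.v w (N.H.jet2 u v s) ≤ 1) ∧
      N.v w (MvPolynomial.aeval (N.H.jet2 u v)
        (sub1 (false, 0) ζ (sub1 (true, 0) ζ' g))) < 1 := by
  have hq : N.q⁻¹ < 1 := inv_lt_one_of_one_lt₀ N.one_lt_q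
  filter_upwards [N.ae_aeval_congr g, (eventually_all_finset (Finset.range M)).2
    fun i _ => (N.ae_jet_int u i).and (N.ae_jet_int v i)] with w h1 h2 ζ ζ' hu hv e e'
  have h3 : ∀ s : Vr, s.2 < M → N.v w (N.H.jet2 u v s) ≤ 1 := by
    rintro ⟨_ | _, i⟩ hi
    · exact (h2 i (Finset.mem_range.2 hi)).1 hu
    · exact (h2 i (Finset.mem_range.2 hi)).2 hv
  have h4 : ∀ {z : K} {η : N.toPF.k0}, N.v w z ≤ 1 → N.v w (z - η) = N.q⁻¹ →
      N.v w (η : K) ≤ 1 := fun {z η} hz e => by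
    rw [← sub_sub_cancel z (η : K)]
    exact (N.v w).map_sub_le hz (e.trans_le hq.le)
  refine ⟨h3, ?_⟩
  rw [aeval_sub1, aeval_sub1, ← Valuation.map_neg, ← zero_sub, ← h0]
  refine (h1 _ _ N.q⁻¹ fun s hs => ⟨h3 s (hg s hs), ?_⟩).trans_lt hq
  split_ifs with h5 h6
  · subst h5
    exact ⟨h4 hv e', by
      simp only [HD.jet2, HD.D_zero, if_true]
      exact e'.le⟩
  · subst h6
    exact ⟨h4 hu e, by
      simp only [HD.jet2, HD.D_zero]
      exact e.le⟩
  · exact ⟨h3 s (hg s hs), by simp⟩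

theorem rpairb_short (A B : ℕ) : ∃ Z : Finset Vr, 1 ≤ Z.card ∧
    ∀ s, s ∈ Z ↔ s ∈ box (A + 2) (B + 1) ∧ s.2 ≠ 0 := by
  classical
  have h : ∀ s, s ∈ ((Finset.univ : Finset Bool) ×ˢ Finset.range (A + B + 2)).filter
      (fun s => s ∈ box (A + 2) (B + 1) ∧ s.2 ≠ 0) ↔ s ∈ box (A + 2) (B + 1) ∧ s.2 ≠ 0 := by
    rintro ⟨_ | _, i⟩ <;> simp [box] <;> omega
  exact ⟨_, Finset.one_le_card.2 ⟨(false, 1), (h _).2 (by simp [box])⟩, h⟩

/-- (B). -/
theorem pair_vanish (hE : HypEq a c) (hρ : N.H0.D 1 a ≠ 0 ∨ N.H0.D 1 c ≠ 0)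
    (hx : N.Orb a c x) (hy : N.Orb a c y) (hht : N.toPF.ht (x 0) = N.toPF.ht (y 0)) {A B : ℕ}
    (hs : N.NoSmall x y (A + 2) (B + 1)) (l : ℤ) {f : MvPolynomial Vr N.toPF.k0}
    (hf : On (box (A + 2) (B + 2)) f) (e : MvPolynomial.aeval (N.H.jet2 (x l) (y l)) f = 0)
    {r r' : ℕ} {b b' : Bool}
    (hm : N.toPF.mass (N.toPF.Ev (x (l - 1 - r)) b ∩ N.toPF.Ev (y (l - 1 - r')) b') ≠ 0) :
    spec2 false (vv a c b r) (N.H0.D 1 (vv a c b r))
      (spec2 true (vv a c b' r') (N.H0.D 1 (vv a c b' r')) f) = 0 := by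
  by_contra hne
  have hH := rpairb_ht hE.ne hx.orbit hy.orbit hht
  obtain ⟨g0, hg0⟩ := hs l
  obtain ⟨m, hm'⟩ := rpairb_pull hx.orbit hy.orbit l e
  obtain ⟨Z, hZ1, hZ⟩ := rpairb_short A B
  obtain ⟨g, h1, h2⟩ := small_contra hm (hx.ht_pos hE.ne l).2 (g0 + r + r' + 2)
  obtain ⟨e0, he⟩ := count_one Z.card m g hZ1
  obtain ⟨i, hi⟩ := h2 (e0 * ∑ s ∈ Z, (s.2 + 1))
  obtain ⟨f', h3, h4⟩ := hm' (g + i)
  obtain ⟨i1, e1⟩ : ∃ i1, g + i = i1 + 2 + r := ⟨g + i - 2 - r, by omega⟩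
  obtain ⟨i2, e2⟩ : ∃ i2, g + i = i2 + 2 + r' := ⟨g + i - 2 - r', by omega⟩
  obtain ⟨S, hS⟩ := exists_splits_crit hE N.sqrt_k0 b i1
  obtain ⟨S', hS'⟩ := exists_splits_crit hE N.sqrt_k0 b' i2
  refine hi i le_rfl (N.toPF.ht (x (l - (g + i : ℕ)))) (by
    rw [← N.ht_orbit hE.ne hx.orbit, sub_add_cancel]) ?_
  refine (mass_le_aux_one (N.H.jet2 (x (l - (g + i : ℕ))) (y (l - (g + i : ℕ)))) (false, 0)
    (true, 0) Z (by simp) (by simp [hZ]) (by simp [hZ]) (S ×ˢ S')
    (fun ζ => sub1 (false, 0) ζ.1 (sub1 (true, 0) ζ.2 f')) m (2 ^ i) (2 ^ i) e0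
    (fun ζ hζ => ?_) (lt_of_le_of_lt (Nat.mul_le_mul_right _ ?_) (he (2 ^ i)).1)
    (fun Θ h5 => hg0 g i (by omega) Θ (h5.mono ?_)) ?_).trans ?_
  · have c1 := rpairb_crit hE hS (Finset.mem_product.1 hζ).1 r
    have c2 := rpairb_crit hE hS' (Finset.mem_product.1 hζ).2 r'
    rw [← e1] at c1
    rw [← e2] at c2
    refine ⟨h3.ne_zero_two hE.two c1 c2 hne,
      ((h3.crity (A + 2) (B + 1) _ c2.w hf).sub1 _ _).mono ?_, ?_⟩
    · rintro ⟨_ | _, t⟩ <;> simp [hZ, box]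
    · rintro ⟨β, _ | t⟩ hs
      · exact absurd rfl ((hZ _).1 hs).2
      · exact (degreeOf_sub1_le _ _ _ _).trans ((degreeOf_sub1_le _ _ _ _).trans (h3.deg β t))
  · rw [Finset.card_product, hS.card, hS'.card, ← pow_add, ← pow_add, ← pow_mul]
    exact Nat.pow_le_pow_right two_pos (by omega)
  · rintro ⟨_ | _, t⟩ <;> simp [hZ, box] <;> omega
  · have a1 := ev_lift hE hρ hx hS (l - (g + i : ℕ))
    have a2 := ev_lift hE hρ hy hS' (l - (g + i : ℕ))
    rw [show l - (g + i : ℕ) + (i1 + 1 : ℕ) = l - 1 - r by rw [e1]; push_cast; ring] at a1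
    rw [show l - (g + i : ℕ) + (i2 + 1 : ℕ) = l - 1 - r' by rw [e2]; push_cast; ring] at a2
    have hq : N.q⁻¹ < 1 := inv_lt_one_of_one_lt₀ N.one_lt_q
    have a3 := rpairb_ae f' (A + B + 2) (fun s hs => by
      have : s ∈ box (max (A + 2) 1) (max (B + 2) 1) := by_contra fun h => hs (h3.on _ _ hf s h)
      obtain ⟨_ | _, t⟩ := s <;> simp [box] at this ⊢ <;> omega) _ _ h4
    filter_upwards [a1, a2, a3] with w b1 b2 b3 hw
    obtain ⟨ζ, c1, c2, c3, -⟩ := b1 hw.1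
    obtain ⟨ζ', d1, d2, d3, -⟩ := b2 hw.2
    obtain ⟨b4, b5⟩ := b3 ζ ζ' c3 d3 c2 d2
    refine ⟨(ζ, ζ'), Finset.mem_product.2 ⟨c1, d1⟩, ?_, ?_, fun s hs => b4 s ?_, b5⟩
    · simpa [HD.jet2, HD.D_zero] using c2.trans_lt hq
    · simpa [HD.jet2, HD.D_zero] using d2.trans_lt hq
    · have := ((hZ s).1 hs).1
      obtain ⟨_ | _, t⟩ := s <;> simp [box] at this ⊢ <;> omega
  · have h5 : ∀ s : Vr, N.toPF.ht (N.H.jet2 (x (l - (g + i : ℕ))) (y (l - (g + i : ℕ))) s) ≤
        (s.2 + 1) * N.toPF.ht (x (l - (g + i : ℕ))) := by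
      rintro ⟨_ | _, t⟩
      · exact N.ht_D_le _ t
      · rw [hH]
        exact N.ht_D_le _ t
    refine (add_le_add (add_le_add (mul_le_mul_right (h5 _) _) (mul_le_mul_right (h5 _) _))
      (mul_le_mul_right (Finset.sum_le_sum fun s _ => h5 s) _)).trans_eq ?_
    rw [← Finset.sum_mul]
    push_cast
    ring

/-- Growth of the degree of the generator in the base variable of the side `β`. -/
theorem growth_gen (hE : HypEq a c) (h1 : Std1 N.H0 a c) (hx : N.Orb a c x) (hy : N.Orb a c y)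
    {A B : ℕ} (G : ℤ → MvPolynomial Vr N.toPF.k0)
    (hG : ∀ l, Gen (N.H.jet2 (x l) (y l)) (box (A + 1) (B + 1)) (G l)) (β : Bool) (o : ℕ)
    (ho : ∀ l, (G l).degreeOf (β, o + 1) ≠ 0) (ho' : ∀ l i, o + 1 < i → (G l).degreeOf (β, i) = 0)
    (l : ℤ) : ∃ r : ℕ, ∀ i : ℕ, 2 ^ (i + 1) ≤ (G (l - (i + 2 + r : ℕ))).degreeOf (β, 0) := by
  classical
  obtain ⟨r, hr⟩ := h1 (G l) (hG l).irr.ne_zero β
  obtain ⟨m, hm⟩ := rpairb_pull hx.orbit hy.orbit l (hG l).zero
  refine ⟨r, fun i => ?_⟩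
  obtain ⟨g, h2, h3⟩ := hm (i + 2 + r)
  obtain ⟨S, hS⟩ := exists_splits_crit hE N.sqrt_k0 false i
  have h4 := h2.on _ _ (hG l).on
  rw [max_eq_left (Nat.le_add_left 1 A), max_eq_left (Nat.le_add_left 1 B)] at h4
  rw [← hS.card]
  refine growth ((hG _).dvd g h4 h3) (u := (β, o + 1)) (by simp) (ho _) S fun ζ hζ => ?_
  have h5 := rpairb_crit hE hS hζ r
  refine ⟨h2.ne_zero_one hE.two β h5 (hr r le_rfl), ?_⟩
  cases β
  · refine h2.critx (o + 1) (B + 1) ζ h5.w ?_ _ (by simp [box])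
    rintro ⟨_ | _, t⟩ hs
    · exact ho' l t (by simpa [box] using hs)
    · exact (hG l).on _ (by simpa [box] using hs)
  · refine h2.crity (A + 1) (o + 1) ζ h5.w ?_ _ (by simp [box])
    rintro ⟨_ | _, t⟩ hs
    · exact (hG l).on _ (by simpa [box] using hs)
    · exact ho' l t (by simpa [box] using hs)

end NS

end JR
end

-- merged part: Pool.Agent.Work.MP_969914_nt.RCurvea
section
/-! Algebraic lemmas for plane curves through a point and their derivatives. -/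

set_option autoImplicit false

namespace JR

open scoped NNReal ENNReal
open Polynomial Filter

theorem rcurve_lim {a b : ℝ≥0∞} (ha : a ≠ ⊤) (h : ∀ m : ℕ, m * a ≤ m * b + a) : a ≤ b := by
  by_contra! hb
  obtain ⟨c, rfl⟩ := exists_add_of_le hb.le
  obtain ⟨n, hn⟩ := ENNReal.exists_nat_mul_gt (a := c) (by rintro rfl; simp at hb) ha
  have h1 := h n
  rw [mul_add, ENNReal.add_le_add_iff_left
    (ENNReal.mul_ne_top (ENNReal.natCast_ne_top n) hb.ne_top)] at h1
  exact h1.not_gt hn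

section ring
variable {R : Type} [CommRing R]

/-- An additive map applied to the coefficients. -/
noncomputable def rcurveD (δ : R →+ R) : R[X] →+ R[X] :=
  AddMonoidHom.mk' (fun f => f.sum fun i a => monomial i (δ a)) fun f g =>
    sum_add_index _ _ _ (by simp) (by simp)

theorem rcurveD_monomial (δ : R →+ R) (n : ℕ) (a : R) :
    rcurveD δ (monomial n a) = monomial n (δ a) :=
  sum_monomial_index a (fun i a => monomial i (δ a)) (by simp)

theorem rcurveD_coeff (δ : R →+ R) (f : R[X]) (i : ℕ) :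
    (rcurveD δ f).coeff i = δ (f.coeff i) := by
  induction f using Polynomial.induction_on' with
  | add f g hf hg => simp [hf, hg]
  | monomial n a =>
    rw [rcurveD_monomial, coeff_monomial, coeff_monomial]
    split_ifs <;> simp

theorem rcurve_eig [IsDomain R] (δ : R →+ R) {f l : R[X]} (hf : f ≠ 0)
    (h : rcurveD δ f = f * l) : ∃ m, l = C m ∧ δ f.leadingCoeff = f.leadingCoeff * m := by
  have h1 : l.natDegree = 0 := by
    by_contra h1
    have h2 : (rcurveD δ f).natDegree ≤ f.natDegree := natDegree_le_iff_coeff_eq_zero.2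
      fun i hi => by rw [rcurveD_coeff, coeff_eq_zero_of_natDegree_lt hi, map_zero]
    rw [h, natDegree_mul hf (by rintro rfl; simp at h1)] at h2
    omega
  refine ⟨_, eq_C_of_natDegree_eq_zero h1, ?_⟩
  rw [leadingCoeff, ← rcurveD_coeff, h, ← coeff_mul_C, ← eq_C_of_natDegree_eq_zero h1]

theorem rcurve_swap (G : R[X][X]) : derivative (Bivariate.swap G) =
    Bivariate.swap (rcurveD (derivative : R[X] →ₗ[R] R[X]).toAddMonoidHom G) := by
  induction G using Polynomial.induction_on' with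
  | add f g hf hg => simp only [map_add, hf, hg]
  | monomial n f =>
    induction f using Polynomial.induction_on' with
    | add f g hf hg => simp only [map_add, hf, hg]
    | monomial m a =>
      rw [rcurveD_monomial, LinearMap.toAddMonoidHom_coe, derivative_monomial,
        Bivariate.swap_monomial_monomial, Bivariate.swap_monomial_monomial, derivative_monomial,
        ← C_eq_natCast, monomial_mul_C]

theorem rcurve_root [IsDomain R] (p : ℕ) [Fact p.Prime] [CharP R p] {f : R[X]}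
    (h : derivative f = 0) (hc : ∀ i, ∃ β, β ^ p = f.coeff i) : ∃ g : R[X], g ^ p = f := by
  have hp := (Fact.out : p.Prime).ne_zero
  obtain ⟨g, hg⟩ := (mem_lifts (f := frobenius R p) (contract p f)).1
    (lifts_iff_coeff_lifts _ |>.2 fun n => by rw [coeff_contract hp]; exact hc _)
  exact ⟨g, by rw [← map_frobenius_expand, map_expand, hg, expand_contract p h hp]⟩

theorem rcurve_mono {A : Type} [CommRing A] [Algebra R A] (u v : A) (n : ℕ) (f : R[X]) :
    aevalAeval u v (monomial n f) = aeval u f * v ^ n := by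
  rw [← C_mul_X_pow_eq_monomial, map_mul, map_pow, aevalAeval_C, aevalAeval_Y]

theorem rcurve_map {A : Type} [CommRing A] [Algebra R A] (u v : A) (G : R[X][X]) :
    (G.map (mapRingHom (algebraMap R A))).evalEval u v = aevalAeval u v G := by
  rw [← eval₂_eval₂RingHom_apply]
  induction G using Polynomial.induction_on' with
  | add f g hf hg => rw [eval₂_add, map_add, hf, hg]
  | monomial n f => rw [eval₂_monomial, rcurve_mono, coe_eval₂RingHom, aeval_def]

theorem rcurve_sum {A : Type} [CommRing A] [Algebra R A] (u v : A) (G : R[X][X]) (s : R) :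
    aevalAeval u v G - aeval v (G.map (evalRingHom s)) = ∑ i ∈ Finset.range (G.natDegree + 1),
      (aeval u (G.coeff i) - algebraMap R A ((G.coeff i).eval s)) * v ^ i := by
  conv_lhs => rw [G.as_sum_range]
  simp only [map_sum, Polynomial.map_sum, map_monomial, rcurve_mono, aeval_monomial, sub_mul,
    Finset.sum_sub_distrib, coe_evalRingHom]

end ring

variable {k0 K : Type} [Field k0] [Field K] [Algebra k0 K]

/-- The pull-back of `h` under `P / Q`. -/
theorem rcurve_pull (P Q : k0[X]) {D : ℕ} (hP : P.natDegree ≤ D) (hQ : Q.natDegree ≤ D) (e : ℕ) :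
    ∀ h : k0[X], h.natDegree ≤ e → ∃ F : k0[X], F.natDegree ≤ e * D ∧ ∀ z t : K,
      aeval z P = t * aeval z Q → aeval z F = aeval z Q ^ e * aeval t h ∧
        aeval z Q ^ 2 * aeval z (derivative F) = e * aeval z Q * aeval z (derivative Q) *
          aeval z F + aeval z Q ^ e * aeval t (derivative h) * aeval z (Wr P Q) := by
  induction e with
  | zero =>
    intro h hh
    rw [eq_C_of_natDegree_le_zero hh]
    exact ⟨C (h.coeff 0), by simp, fun z t _ => by simp⟩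
  | succ e ih =>
    intro h hh
    obtain ⟨F, h1, h2⟩ := ih h.divX (by rw [natDegree_divX_eq_natDegree_tsub_one]; omega)
    refine ⟨P * F + C (h.coeff 0) * Q ^ (e + 1), (natDegree_add_le _ _).trans (max_le
      (natDegree_mul_le.trans (by linarith)) ((natDegree_C_mul_le _ _).trans
        (natDegree_pow_le.trans (Nat.mul_le_mul_left _ hQ)))), fun z t ht => ?_⟩
    obtain ⟨h3, h4⟩ := h2 z t ht
    rw [← divX_mul_X_add h]
    simp only [Wr, derivative_mul, derivative_C, derivative_X, derivative_pow_succ, map_add, map_mul,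
      map_sub, map_pow, aeval_C, aeval_X, map_zero, map_one, map_natCast, coeff_add, coeff_C_zero,
      mul_coeff_zero, coeff_X_zero, ht] at h4 ⊢
    push_cast
    refine ⟨by rw [h3]; ring, ?_⟩
    rw [h3] at h4 ⊢
    linear_combination t * aeval z Q * h4

theorem rcurve_ind {u v : K} : (∀ G : k0[X][X], aevalAeval u v G = 0 → G = 0) ↔
    Transcendental k0 u ∧ v ∉ acl k0 {u} := by
  have h := ind_pair (k0 := k0) (ω := fun b : Bool => if b then v else u) (u := false) (u' := true)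
    (by simp)
  rw [Set.pair_comm, ind_insert (by simp), ind_singleton, Set.image_singleton] at h
  exact h.symm

theorem rcurve_mem (F : IntermediateField k0 K) {u v : K} (hu : u ∈ F) (hv : v ∈ F)
    (G : k0[X][X]) : aevalAeval u v G ∈ F := by
  induction G using Polynomial.induction_on' with
  | add f g hf hg => rw [map_add]; exact add_mem hf hg
  | monomial n f =>
    rw [rcurve_mono]
    refine mul_mem ?_ (pow_mem hv n)
    induction f using Polynomial.induction_on' with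
    | add f g hf hg => rw [map_add]; exact add_mem hf hg
    | monomial m a => rw [aeval_monomial]; exact mul_mem (F.algebraMap_mem a) (pow_mem hu m)

/-- The chain rule in two variables. -/
theorem rcurve_chain {H0 : HD k0} {H : HD K} (hc : H0.Compat H) (u v : K) (G : k0[X][X]) :
    H.D 1 (aevalAeval u v G) =
      aevalAeval u v (rcurveD (derivative : k0[X] →ₗ[k0] k0[X]).toAddMonoidHom G) * H.D 1 u +
      aevalAeval u v (derivative G) * H.D 1 v +
      aevalAeval u v (rcurveD (rcurveD (AddMonoidHom.mk' (H0.D 1) (H0.D_add 1))) G) := by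
  induction G using Polynomial.induction_on' with
  | add f g hf hg =>
    simp only [map_add, H.D_add, hf, hg]
    ring
  | monomial n f =>
    have h1 : H.D 1 (v ^ n) = n • v ^ (n - 1) • H.D 1 v := H.der.leibniz_pow v n
    have h2 : rcurveD (AddMonoidHom.mk' (H0.D 1) (H0.D_add 1)) f =
      f.sum fun i a => monomial i (H0.D 1 a) := rfl
    rw [rcurveD_monomial, rcurveD_monomial, derivative_monomial, rcurve_mono, rcurve_mono,
      rcurve_mono, rcurve_mono, H.D1_mul, h1, h2, H.D1_aeval hc, map_mul, map_natCast,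
      LinearMap.toAddMonoidHom_coe, nsmul_eq_mul, smul_eq_mul]
    ring

theorem rcurve_sep (p : ℕ) [Fact p.Prime] [CharP k0 p] {H0 : HD k0} {H : HD K} (hc : H0.Compat H)
    (hr : ∀ α, H0.D 1 α = 0 → ∃ β, β ^ p = α) {u v : K}
    (hu : ∀ G : k0[X][X], aevalAeval u (H.D 1 u) G = 0 → G = 0) {G : k0[X][X]}
    (hG : Irreducible G) (h0 : ∀ f, aevalAeval u v f = 0 ↔ G ∣ f) : derivative G ≠ 0 := by
  wlog hl : G.leadingCoeff.leadingCoeff = 1 generalizing G
  · have h1 : G.leadingCoeff.leadingCoeff ≠ 0 := by simpa using hG.ne_zero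
    have h2 : IsUnit (C (C G.leadingCoeff.leadingCoeff⁻¹)) :=
      isUnit_C.2 (isUnit_C.2 (inv_ne_zero h1).isUnit)
    have h3 := this ((irreducible_isUnit_mul h2).2 hG) (fun f => by rw [h0, h2.mul_left_dvd])
      (by rw [leadingCoeff_mul, leadingCoeff_mul, leadingCoeff_C, leadingCoeff_C,
        inv_mul_cancel₀ h1])
    intro hY
    rw [derivative_C_mul, hY, mul_zero] at h3
    exact h3 rfl
  intro hY
  have h1 := rcurve_chain hc u v G
  rw [(h0 G).2 dvd_rfl, H.D_of_zero, hY, map_zero, zero_mul, add_zero] at h1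
  by_cases hX : rcurveD (derivative : k0[X] →ₗ[k0] k0[X]).toAddMonoidHom G = 0
  · rw [hX, map_zero, zero_mul, zero_add] at h1
    obtain ⟨l, hl'⟩ := (h0 _).1 h1.symm
    obtain ⟨m, rfl, h2⟩ := rcurve_eig _ hG.ne_zero hl'
    obtain ⟨m', rfl, h3⟩ := rcurve_eig _ (leadingCoeff_ne_zero.2 hG.ne_zero) h2
    rw [hl, one_mul, AddMonoidHom.mk'_apply, H0.D_one 0] at h3
    rw [← h3, C_0, C_0, mul_zero] at hl'
    obtain ⟨g, hg⟩ := rcurve_root p hY fun i => rcurve_root p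
      (by simpa [rcurveD_coeff] using congrArg (coeff · i) hX) fun j => hr _
        (by simpa [rcurveD_coeff] using congrArg (fun f => (f.coeff i).coeff j) hl')
    exact not_irreducible_pow (Fact.out : p.Prime).ne_one (hg ▸ hG)
  · have h2 : aevalAeval u v
        (rcurveD (derivative : k0[X] →ₗ[k0] k0[X]).toAddMonoidHom G) ≠ 0 := fun h => by
      have h3 := _root_.map_dvd Bivariate.swap ((h0 _).1 h)
      rw [← rcurve_swap, dvd_derivative_iff, rcurve_swap, map_eq_zero_iff _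
        Bivariate.swap.injective] at h3
      exact hX h3
    obtain ⟨h3, h4⟩ := rcurve_ind.1 hu
    obtain ⟨F, hF⟩ := exists_aclField (k0 := k0) {u}
    have a1 : u ∈ F := by
      rw [← SetLike.mem_coe, hF]
      exact subset_acl _ rfl
    have a2 : v ∈ F := by
      rw [← SetLike.mem_coe, hF]
      exact not_not.1 fun h => hG.ne_zero (rcurve_ind.2 ⟨h3, h⟩ G ((h0 G).2 dvd_rfl))
    refine h4 ?_
    rw [← hF, eq_div_of_mul_eq h2 ((mul_comm _ _).trans (eq_neg_of_add_eq_zero_left h1.symm))]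
    exact div_mem (neg_mem (rcurve_mem F a1 a2 _)) (rcurve_mem F a1 a2 _)

theorem rcurve_dvd {a c : k0} (hE : HypEq a c) {G G' : k0[X][X]} (hG : Irreducible G)
    (hd : G.natDegree ≠ 0) (b : Bool) {T : Set ℕ} (hT : T.Infinite)
    (h : ∀ r ∈ T, G.evalEval (vv a c false r) (vv a c b r) = 0 ∧
      G'.evalEval (vv a c false r) (vv a c b r) = 0) : G ∣ G' := by
  refine dvd_of_common_points hG hd ((fun r => (vv a c false r, vv a c b r)) '' T) ?_ ?_
  · rw [Set.image_image]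
    exact hT.image hE.hypH.vv_inj.injOn
  · rintro _ ⟨r, hr, rfl⟩
    exact h r hr

theorem rcurve_ne {a c : k0} (hE : HypEq a c) {f : k0[X]} (hf : f ≠ 0) :
    ∀ᶠ r in atTop, f.eval (vv a c false r) ≠ 0 := by
  rw [← Nat.cofinite_eq_atTop]
  exact hE.hypH.vv_inj.tendsto_cofinite.eventually (p := fun s => f.eval s ≠ 0)
    (eventually_cofinite.2 (by simpa using finite_setOfPred_isRoot hf))

end JR
end

-- merged part: Pool.Agent.Work.MP_969914_nt.RCurve
section
/-! Two orbits of equal height are independent. -/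

set_option autoImplicit false

namespace JR

open scoped NNReal ENNReal
open Polynomial Filter

namespace NS
variable {p : ℕ} [Fact p.Prime] {K Γ : Type} [Field K] [CharP K p]
  [LinearOrderedCommGroupWithZero Γ] {N : NS p K Γ} {a c : N.toPF.k0} {x y : ℤ → K}

theorem deg_le_of_ht {u v : K} {G : N.toPF.k0[X][X]} (hd : G.natDegree ≠ 0)
    (h0 : ∀ f, aevalAeval u v f = 0 ↔ G ∣ f) (hu : Transcendental N.toPF.k0 u)
    (hv : N.toPF.ht v ≠ ⊤) :
    G.natDegree * N.toPF.ht v ≤ (Bivariate.swap G).natDegree * N.toPF.ht u := by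
  have he := Nat.pos_of_ne_zero hd
  refine rcurve_lim (ENNReal.mul_ne_top (ENNReal.natCast_ne_top _) hv) fun m => ?_
  obtain ⟨A, B, hB, h1, h2, h3, h4, h5⟩ := exists_quot_pow hd (G.natDegree * m)
    ((Bivariate.swap G).natDegree * m) (by nlinarith)
  have h6 : aevalAeval u v B ≠ 0 := fun h => (natDegree_le_of_dvd ((h0 B).1 h) hB).not_gt h2
  have h7 := (h0 _).2 h5
  rw [map_sub (aevalAeval (R := N.toPF.k0) u v), map_mul, map_pow, aevalAeval_Y, sub_eq_zero] at h7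
  obtain ⟨s, hs, hs'⟩ := N.toPF.ht_div_evalEval (A.map (mapRingHom (algebraMap N.toPF.k0 K)))
    (B.map (mapRingHom (algebraMap N.toPF.k0 K)))
  have h8 := hs' u v _ _ (natDegree_map_le.trans h1.le) (natDegree_map_le.trans h2.le)
    (fun i => by rw [coeff_map]; exact natDegree_map_le.trans (h3 i))
    (fun i => by rw [coeff_map]; exact natDegree_map_le.trans (h4 i)) (by rwa [rcurve_map])
  rw [rcurve_map, rcurve_map, h7, mul_div_cancel_left₀ _ h6, PF.ht_pow,
    Finset.sum_eq_zero fun α hα => by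
      obtain ⟨i, j, rfl | rfl⟩ := hs α hα <;>
      · rw [coeff_map, coe_mapRingHom, coeff_map]
        exact Subtype.prop (p := (· ∈ N.toPF.k0)) _, add_zero] at h8
  push_cast at h8
  rwa [← mul_assoc, ← mul_assoc, mul_comm (m : ℝ≥0∞), mul_comm (m : ℝ≥0∞)]

theorem separable_rel {u v : K}
    (hu : ∀ G : N.toPF.k0[X][X], aevalAeval u (N.H.D 1 u) G = 0 → G = 0)
    (hv : ∀ G : N.toPF.k0[X][X], aevalAeval v (N.H.D 1 v) G = 0 → G = 0)
    {G : N.toPF.k0[X][X]} (hG : Irreducible G) (h0 : ∀ f, aevalAeval u v f = 0 ↔ G ∣ f) :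
    derivative G ≠ 0 ∧ derivative (Bivariate.swap G) ≠ 0 := by
  have := (algebraMap N.toPF.k0 K).charP (algebraMap N.toPF.k0 K).injective p
  refine ⟨rcurve_sep p N.compat N.proot_k0 hu hG h0, rcurve_sep p N.compat N.proot_k0 hv
    (v := u) (hG.map Bivariate.swap) fun f => ?_⟩
  rw [← Bivariate.aevalAeval_swap, h0, ← map_dvd_iff Bivariate.swap, Bivariate.swap_swap_apply]

omit [Fact p.Prime] [CharP K p] in
theorem rcurve_q : N.q⁻¹ ^ 2 < 1 :=
  pow_lt_one₀ zero_le (inv_lt_one_of_one_lt₀ N.one_lt_q) two_ne_zero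

omit [Fact p.Prime] [CharP K p] in
theorem rcurve_l1 (f : N.toPF.k0[X]) (s : N.toPF.k0) : ∀ᶠ w in N.toPF.ae, ∀ (z : K) (γ : Γ),
    N.v w (z - s) ≤ γ → γ ≤ 1 →
      N.v w z ≤ 1 ∧ N.v w (aeval z f - algebraMap N.toPF.k0 K (f.eval s)) ≤ γ := by
  obtain ⟨g, hg⟩ := X_sub_C_dvd_sub_C_eval (p := f) (a := s)
  filter_upwards [N.ae_poly_int g, N.ae_int s.2] with w h1 h2 z γ h3 h4
  have h5 : N.v w z ≤ 1 := by simpa using (N.v w).map_add_le (h3.trans h4) h2
  have h6 := congrArg (aeval z) hg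
  rw [map_sub, map_mul, map_sub, aeval_C, aeval_C, aeval_X] at h6
  refine ⟨h5, ?_⟩
  rw [h6, map_mul]
  exact (mul_le_mul' h3 (h1 z h5)).trans_eq (mul_one γ)

omit [Fact p.Prime] [CharP K p] in
theorem rcurve_l2 (G : N.toPF.k0[X][X]) (s : N.toPF.k0) : ∀ᶠ w in N.toPF.ae, ∀ (z t : K) (γ : Γ),
    N.v w (z - s) ≤ γ → γ ≤ 1 → N.v w (aevalAeval z t G - aeval t (G.map (evalRingHom s))) ≤
      γ * max 1 (N.v w t) ^ G.natDegree := by
  filter_upwards [(eventually_all_finset (Finset.range (G.natDegree + 1))).2 fun i _ =>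
    rcurve_l1 (G.coeff i) s] with w h z t γ h1 h2
  rw [rcurve_sum]
  refine (N.v w).map_sum_le fun i hi => ?_
  rw [map_mul, map_pow]
  exact mul_le_mul' (h i hi z γ h1 h2).2 ((pow_le_pow_left' (le_max_right _ _) i).trans
    (pow_le_pow_right' (le_max_left _ _) (Nat.lt_succ_iff.1 (Finset.mem_range.1 hi))))

/-- Every deep critical passage of `x` has a partner below `l`. -/
theorem curve_partner (hE : HypEq a c) (hρ : N.H0.D 1 a ≠ 0 ∨ N.H0.D 1 c ≠ 0) (hx : N.Orb a c x)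
    (hy : N.Orb a c y) (l : ℤ) {G : N.toPF.k0[X][X]} (hG : Irreducible G) (hY : derivative G ≠ 0)
    (h0 : aevalAeval (x l) (y l) G = 0) :
    ∃ r0 : ℕ, ∀ r, r0 ≤ r → ∃ (r' : ℕ) (b : Bool),
      N.toPF.mass (N.toPF.Ev (x (l - 1 - r)) false ∩ N.toPF.Ev (y (l - 1 - r')) b) ≠ 0 := by
  obtain ⟨R, A, B, hR, hAB⟩ := exists_disc hG hY
  obtain ⟨r0, hr0⟩ := eventually_atTop.1 ((rcurve_ne hE hR).and
    (rcurve_ne hE (leadingCoeff_ne_zero.2 hG.ne_zero)))
  refine ⟨r0, fun r hr => ?_⟩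
  by_contra! hn
  obtain ⟨h1, h2⟩ := hr0 r hr
  have h3 := ae_contact hE hx.orbit false (l - 1 - r) r
  rw [show l - 1 - r + 1 + r = l by ring] at h3
  generalize vv a c false r = s at h1 h2 h3
  have h4 := congrArg (fun f => aeval (y l) (f.map (evalRingHom s))) hAB
  simp only [Polynomial.map_add, Polynomial.map_mul, map_C, map_add, map_mul, aeval_C,
    coe_evalRingHom, ← derivative_map] at h4
  have h5 := rcurve_l2 G s
  have h6 : (G.map (evalRingHom s)).natDegree = G.natDegree :=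
    natDegree_map_of_leadingCoeff_ne_zero _ h2
  have h7 : G.map (evalRingHom s) ≠ 0 := fun h => h2 (by
    simpa using congrArg (coeff · G.natDegree) h)
  generalize G.map (evalRingHom s) = h at h4 h5 h6 h7
  have key : ∀ (j d : ℕ), 0 < j → G.natDegree * 2 ^ j < (d + 1) ^ 2 →
      N.toPF.ht (x (l - 1 - r)) ≤ 3 * d * N.toPF.ht (y (l - j)) := fun j d hj hd => by
    obtain ⟨F, f1, f2⟩ := rcurve_pull (K := K) _ _ (natDegree_PQ a c j).1 (natDegree_PQ a c j).2
      _ h h6.le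
    obtain ⟨i1, i2⟩ := IsOrbit.iter (k0 := N.toPF.k0) hy.orbit (l - j) j
    rw [sub_add_cancel] at i2
    obtain ⟨f3, f4⟩ := f2 (y (l - j)) (y l) (by rw [i2, div_mul_cancel₀ _ i1])
    have f5 : F ≠ 0 := by
      rintro rfl
      exact mul_ne_zero (pow_ne_zero _ i1) (fun e => hy.trans hE.ne l ⟨h, h7, e⟩)
        (f3.symm.trans (map_zero _))
    refine (ht_le_mass_ev hE hρ hx false _).trans ((N.toPF.mass_mono_ae ?_).trans
      (mass_multiple_le (ind_jet1 hE.hypH hρ hy (l - j)) f5 (f1.trans_lt hd)))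
    have h8 := ae_passage hE.two hE.ne hy.orbit (l - j) j
    rw [sub_add_cancel] at h8
    have h9 : ∀ᶠ w in N.toPF.ae, ∀ i ∈ Finset.range j, ∀ b,
        w ∉ N.toPF.Ev (x (l - 1 - r)) false ∩ N.toPF.Ev (y (l - j + i)) b :=
      (eventually_all_finset _).2 fun i hi => eventually_all.2 fun b => by
        have := hn (j - 1 - i) b
        rw [show l - 1 - (j - 1 - i : ℕ) = l - j + i by have := Finset.mem_range.1 hi; omega] at this
        exact N.toPF.eventually_ae_iff.2 (by simp only [not_not]; exact this)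
    filter_upwards [h3, h5, h8, h9, N.ae_poly_big h7, N.ae_poly_int (A.map (evalRingHom s)),
      N.ae_poly_int (B.map (evalRingHom s)), N.ae_poly_int (derivative h),
      N.ae_poly_int (derivative (PQ a c j).2), N.ae_unit (R.eval s).2 (by simpa using h1),
      N.ae_int (natCast_mem N.toPF.k0 G.natDegree)] with w a1 a2 a3 a4 a5 a6 a7 a8 a9 a10 a11 hw
    have b1 := a2 (x l) (y l) _ (a1 hw) rcurve_q.le
    rw [h0, zero_sub, Valuation.map_neg] at b1
    have b2 : N.v w (y l) ≤ 1 := by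
      by_contra! b2
      rw [a5 _ b2, h6, max_eq_right b2.le] at b1
      exact b1.not_gt (mul_lt_of_lt_one_left (pow_pos (one_pos.trans b2) _) rcurve_q)
    rw [max_eq_left b2, one_pow, mul_one] at b1
    have b3 : ∀ i : ℕ, i < j → N.v w (y (l - j + i)) = 1 := fun i hi => le_antisymm
      (not_lt.1 fun e => a4 i (Finset.mem_range.2 hi) true ⟨hw, e⟩)
      (not_lt.1 fun e => a4 i (Finset.mem_range.2 hi) false ⟨hw, e⟩)
    obtain ⟨b4, b5⟩ := a3 b2 b3
    have b6 : N.v w (y (l - j)) ≤ 1 := by simpa using (b3 0 hj).le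
    have b7 : N.v w (aeval (y l) (derivative h)) = 1 := le_antisymm (a8 _ b2) (not_lt.1 fun e => by
      have := (N.v w).map_add_lt (mul_lt_one_of_nonneg_of_lt_one_right (a6 _ b2) zero_le
        (b1.trans_lt rcurve_q) |>.trans_eq' (map_mul _ _ _).symm)
        (mul_lt_one_of_nonneg_of_lt_one_right (a7 _ b2) zero_le e |>.trans_eq' (map_mul _ _ _).symm)
      rw [h4] at this
      exact this.ne a10)
    have b8 : N.v w (aeval (y (l - j)) F) ≤ N.q⁻¹ ^ 2 := by
      rwa [f3, map_mul, map_pow, b4, one_pow, one_mul]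
    refine ⟨b8, ?_, b6⟩
    have b9 := congrArg (N.v w) f4
    rw [map_mul, map_pow, b4, one_pow, one_mul, Valuation.map_add_eq_of_lt_right] at b9
    · rw [b9, map_mul, map_mul, map_pow, b4, b5, b7, one_pow, one_mul, one_mul]
    · rw [map_mul, map_mul, map_mul, map_mul, map_mul, map_pow, b4, b5, b7, one_pow, mul_one,
        mul_one, mul_one]
      exact mul_lt_one_of_nonneg_of_lt_one_right (mul_le_one' a11 (a9 _ b6)) zero_le
        (b8.trans_lt rcurve_q)
  obtain ⟨n, hn'⟩ := ENNReal.exists_nat_mul_gt (hx.ht_pos hE.ne (l - 1 - r)).1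
    (ENNReal.mul_ne_top (a := 3 * G.natDegree) (by finiteness) (hy.ht_pos hE.ne l).2)
  have k1 := key (n + 1 + (n + 1)) (G.natDegree * 2 ^ (n + 1)) (by omega) (by
    rw [pow_add 2 (n + 1)]
    nlinarith [Nat.mul_le_mul_right (2 ^ (n + 1) * 2 ^ (n + 1)) (Nat.le_mul_self G.natDegree),
      Nat.zero_le (G.natDegree * 2 ^ (n + 1))])
  have k2 := N.ht_orbit hE.ne hy.orbit (l - (n + 1 + (n + 1) : ℕ)) (n + 1 + (n + 1))
  rw [sub_add_cancel] at k2
  have k3 : (n : ℝ≥0∞) ≤ 2 ^ (n + 1) := by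
    exact_mod_cast (Nat.le_succ n).trans (Nat.lt_two_pow_self).le
  refine hn'.not_ge ((mul_le_mul' k3 k1).trans_eq ?_)
  rw [k2, pow_add 2 (n + 1)]
  push_cast
  ring

omit [Fact p.Prime] [CharP K p] in
theorem rcurve_ht (hac : a ≠ c) (hx : IsOrbit (a : K) c x) (hy : IsOrbit (a : K) c y)
    (hht : N.toPF.ht (x 0) = N.toPF.ht (y 0)) (l : ℤ) : N.toPF.ht (x l) = N.toPF.ht (y l) := by
  obtain ⟨n, rfl | rfl⟩ := l.eq_nat_or_neg
  · have h1 := N.ht_orbit hac hx 0 n
    have h2 := N.ht_orbit hac hy 0 n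
    rw [zero_add] at h1 h2
    rw [h1, h2, hht]
  · have h1 := N.ht_orbit hac hx (-n) n
    have h2 := N.ht_orbit hac hy (-n) n
    rw [neg_add_cancel] at h1 h2
    rwa [h1, h2, ENNReal.mul_right_inj (by simp) (by finiteness)] at hht

/-- The minimal relation at one level. -/
theorem rcurve_level (hE : HypEq a c) (hρ : N.H0.D 1 a ≠ 0 ∨ N.H0.D 1 c ≠ 0) (h3 : Std3 a c)
    (hx : N.Orb a c x) (hy : N.Orb a c y) (hht : N.toPF.ht (x 0) = N.toPF.ht (y 0)) {l : ℤ}
    (hne : x l ≠ y l) (h : y l ∈ acl N.toPF.k0 {x l}) : ∃ G : N.toPF.k0[X][X], Irreducible G ∧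
      G.natDegree ≠ 0 ∧ (Bivariate.swap G).natDegree = G.natDegree ∧ derivative G ≠ 0 ∧
      derivative (Bivariate.swap G) ≠ 0 ∧ (∀ f, aevalAeval (x l) (y l) f = 0 ↔ G ∣ f) ∧
      ∀ᶠ r in atTop, G.evalEval (vv a c false r) (vv a c true r) = 0 := by
  have h1 := mt rcurve_ind.1 fun e => e.2 h
  push Not at h1
  obtain ⟨G0, h1, h2⟩ := h1
  obtain ⟨G, hG, hd, h0⟩ := exists_min_rel (hx.trans hE.ne l) h2 h1
  obtain ⟨hY, hX⟩ := separable_rel (ind_jet1 hE.hypH hρ hx l) (ind_jet1 hE.hypH hρ hy l) hG h0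
  have e := rcurve_ht hE.ne hx.orbit hy.orbit hht l
  obtain ⟨p1, p2⟩ := hy.ht_pos hE.ne l
  have d1 := deg_le_of_ht hd h0 (hx.trans hE.ne l) p2
  have d2 := deg_le_of_ht (u := y l) (v := x l) (G := Bivariate.swap G)
    (fun e => hX (derivative_of_natDegree_zero e)) (fun f => by
      rw [← Bivariate.aevalAeval_swap, h0, ← map_dvd_iff Bivariate.swap,
        Bivariate.swap_swap_apply]) (hy.trans hE.ne l) (e ▸ p2)
  rw [Bivariate.swap_swap_apply] at d2
  rw [e, ENNReal.mul_le_mul_iff_left p1 p2, Nat.cast_le] at d1 d2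
  have hdd := le_antisymm d2 d1
  refine ⟨G, hG, hd, hdd, hY, hX, h0, ?_⟩
  obtain ⟨r0, hr0⟩ := curve_partner hE hρ hx hy l hG hY ((h0 G).2 dvd_rfl)
  obtain ⟨R, hR⟩ := h3 G hG hd hdd
  have hT : ∀ᶠ r in atTop, G.evalEval (vv a c false r) (vv a c false r) ≠ 0 := by
    rw [← Nat.cofinite_eq_atTop, eventually_cofinite]
    by_contra hT
    have := (h0 _).2 (rcurve_dvd hE (G' := C X - X) hG hd false hT fun r hr =>
      ⟨not_not.1 hr, by simp [evalEval_C]⟩)
    rw [map_sub, aevalAeval_X, aevalAeval_Y, sub_eq_zero] at this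
    exact hne this
  filter_upwards [hT, eventually_ge_atTop r0, eventually_ge_atTop R] with r a1 a2 a3
  obtain ⟨r', b, hm⟩ := hr0 r a2
  have a4 : G.evalEval (vv a c false r) (vv a c b r') = 0 := by
    have b1 := ae_contact hE hx.orbit false (l - 1 - r) r
    have b2 := ae_contact hE hy.orbit b (l - 1 - r') r'
    rw [show l - 1 - r + 1 + r = l by ring] at b1
    rw [show l - 1 - r' + 1 + r' = l by ring] at b2
    refine Subtype.ext (N.eq_zero_of_mass_pos (Subtype.prop _) hm ?_)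
    filter_upwards [b1, b2, rcurve_l2 G (vv a c false r),
      rcurve_l1 (G.map (evalRingHom (vv a c false r))) (vv a c b r')] with w c1 c2 c3 c4 hw
    obtain ⟨c5, c6⟩ := c4 _ _ (c2 hw.2) rcurve_q.le
    have c7 := c3 _ (y l) _ (c1 hw.1) rcurve_q.le
    rw [(h0 G).2 dvd_rfl, zero_sub, Valuation.map_neg, max_eq_left c5, one_pow, mul_one] at c7
    have c8 := (N.v w).map_sub_le c7 c6
    rw [sub_sub_cancel, map_evalRingHom_eval] at c8
    exact c8.trans_lt rcurve_q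
  obtain rfl := hR false b r r' (.inl a3) a4
  cases b
  exacts [absurd a4 a1, a4]

theorem ind_curve (hE : HypEq a c) (hρ : N.H0.D 1 a ≠ 0 ∨ N.H0.D 1 c ≠ 0) (h3 : Std3 a c)
    (hca : c ≠ a ^ 3) (hx : N.Orb a c x) (hy : N.Orb a c y)
    (hht : N.toPF.ht (x 0) = N.toPF.ht (y 0)) (hne : ∀ i, x i ≠ y i) (l : ℤ)
    (G : N.toPF.k0[X][X]) (hG : aevalAeval (x l) (y l) G = 0) : G = 0 := by
  by_contra h0
  have e1 : box 1 0 = {(false, 0)} := by
    ext ⟨_ | _, i⟩ <;> simp [box]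
  have e2 : box 0 1 = {(true, 0)} := by
    ext ⟨_ | _, i⟩ <;> simp [box]
  have h1 : y l ∈ acl N.toPF.k0 {x l} :=
    not_not.1 fun h => h0 (rcurve_ind.2 ⟨hx.trans hE.ne l, h⟩ G hG)
  have h2 : y (l + 1) ∈ acl N.toPF.k0 {x (l + 1)} := by
    have a1 := fun A B => acl_box_level N.compat hE.two hE.ne hx.orbit hy.orbit
      (hx.ne_zero hE.ne) (hy.ne_zero hE.ne) A B l (l + 1)
    have a2 := a1 1 0
    have a3 := a1 0 1
    simp only [e1, e2, Set.image_singleton, HD.jet2, HD.D_zero, Bool.false_eq_true, if_true,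
      if_false] at a2 a3
    rw [← a2]
    exact acl_subset_acl (Set.singleton_subset_iff.2 h1) (a3 ▸ subset_acl _ rfl)
  obtain ⟨G1, g1, g2, g3, g4, g5, g6, g7⟩ := rcurve_level hE hρ h3 hx hy hht (hne l) h1
  obtain ⟨G2, k1, k2, -, -, -, k6, k7⟩ := rcurve_level hE hρ h3 hx hy hht (hne (l + 1)) h2
  have h4 := rcurve_dvd hE g1 g2 true
    (Nat.frequently_atTop_iff_infinite.1 (g7.and k7).frequently) fun _ h => h
  refine hca (curve_alg hE h3 g1 g2 g3 g4 g5 (hx.orbit l).1 (hy.orbit l).1 g6 (fun f => ?_) (hne l))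
  rw [(g1.associated_of_dvd k1 h4).dvd_iff_dvd_left, ← k6, (hx.orbit l).2, (hy.orbit l).2]
  rfl

end NS

end JR
end

-- merged part: Pool.Agent.Work.MP_969914_nt.RPair
section
/-! All jets of two orbits are independent. -/

set_option autoImplicit false

namespace JR

open scoped NNReal ENNReal
open Polynomial Filter

theorem rpair_mem_false {A B i : ℕ} : ((false, i) : Vr) ∈ box A B ↔ i < A := by simp [box]

theorem rpair_mem_true {A B i : ℕ} : ((true, i) : Vr) ∈ box A B ↔ i < B := by simp [box]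

theorem rpair_box_mono {A B A' B' : ℕ} (hA : A ≤ A') (hB : B ≤ B') : box A B ⊆ box A' B' := by
  rintro ⟨_ | _, i⟩ h
  · exact rpair_mem_false.2 ((rpair_mem_false.1 h).trans_le hA)
  · exact rpair_mem_true.2 ((rpair_mem_true.1 h).trans_le hB)

theorem rpair_box_succ (A B : ℕ) : box A (B + 1) = insert (true, B) (box A B) := by
  ext ⟨_ | _, i⟩
  · simp [rpair_mem_false]
  · simp only [rpair_mem_true, Set.mem_insert_iff, Prod.mk.injEq, true_and]; omega

theorem rpair_exists_boxF (A B : ℕ) : ∃ U : Finset Vr, (U : Set Vr) = box A B ∧ U.card = A + B := by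
  refine ⟨(Finset.range A).image (Prod.mk false) ∪ (Finset.range B).image (Prod.mk true), ?_, ?_⟩
  · ext ⟨_ | _, i⟩ <;> simp [box]
  · rw [Finset.card_union_of_disjoint, Finset.card_image_of_injective _ (Prod.mk_right_injective _),
      Finset.card_image_of_injective _ (Prod.mk_right_injective _), Finset.card_range,
      Finset.card_range]
    simp [Finset.disjoint_left]

theorem rpair_spec_of_on {k0 : Type} [Field k0] {V : Set Vr} {f : MvPolynomial Vr k0} (hf : On V f)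
    {β : Bool} (h0 : (β, 0) ∉ V) (h1 : (β, 1) ∉ V) (l0 l1 : k0) : spec2 β l0 l1 f = f := by
  rw [spec2, AlgHom.comp_apply, sub1_of_on hf h0, sub1_of_on hf h1]

theorem rpair_on_spec {k0 : Type} [Field k0] {V : Set Vr} {f : MvPolynomial Vr k0} (hf : On V f)
    (β : Bool) (l0 l1 : k0) : On V (spec2 β l0 l1 f) := by
  rw [spec2, AlgHom.comp_apply]
  exact ((hf.sub1 (β, 0) l0).sub1 (β, 1) l1).mono fun _ h => h.1.1

/-- If two ideals of relations vanish on infinitely many common strata, they agree. -/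
theorem rec_dvd {k0 K : Type} [Field k0] [Field K] [Algebra k0 K] {H0 : HD k0} {a c : k0}
    (h1 : Std1 H0 a c) {ω : Vr → K} {A B : ℕ} {U : Finset Vr} (hU : U.card + 2 = (A + 2) + (B + 2))
    (hsp : ∀ s ∈ box (A + 2) (B + 2), ω s ∈ acl k0 (ω '' U))
    (S : Set (k0 × k0 × ℕ)) (hS : ∀ R, ∃ s ∈ S, R ≤ s.2.2)
    (hv : ∀ f, On (box (A + 2) (B + 2)) f → MvPolynomial.aeval ω f = 0 → ∀ s ∈ S,
      spec2 false s.1 s.2.1 (spec2 true (vv a c false s.2.2) (H0.D 1 (vv a c false s.2.2)) f) = 0)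
    {g : MvPolynomial Vr k0} (hg : On (box (A + 2) (B + 2)) g)
    (hg' : ∀ s ∈ S, spec2 false s.1 s.2.1
      (spec2 true (vv a c false s.2.2) (H0.D 1 (vv a c false s.2.2)) g) = 0) :
    MvPolynomial.aeval ω g = 0 := by
  classical
  obtain ⟨W, hW, hWc⟩ := rpair_exists_boxF (A + 2) (B + 2)
  set B0 : Finset Vr := (W.erase (false, 0)).erase (false, 1) with hB0
  have m0 : ((false, 0) : Vr) ∈ W := by rw [← Finset.mem_coe, hW, rpair_mem_false]; omega
  have m1 : ((false, 1) : Vr) ∈ W := by rw [← Finset.mem_coe, hW, rpair_mem_false]; omega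
  have hc : B0.card = U.card := by
    rw [hB0, Finset.card_erase_of_mem (by simp [m1]), Finset.card_erase_of_mem m0]
    omega
  have hsub : (B0 : Set Vr) ⊆ box (A + 2) (B + 2) := fun s hs =>
    hW ▸ Finset.mem_coe.2 (Finset.mem_of_mem_erase (Finset.mem_of_mem_erase hs))
  have key : ∀ f : MvPolynomial Vr k0, On (B0 : Set Vr) f → (∀ s ∈ S, spec2 false s.1 s.2.1
      (spec2 true (vv a c false s.2.2) (H0.D 1 (vv a c false s.2.2)) f) = 0) → f = 0 := by
    intro f hf h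
    by_contra h0
    obtain ⟨R, hR⟩ := h1 f h0 true
    obtain ⟨s, hs, hs'⟩ := hS R
    refine hR _ hs' ?_
    rw [← h s hs, rpair_spec_of_on (rpair_on_spec hf _ _ _) (by simp [hB0]) (by simp [hB0])]
  have hind : Ind k0 ω B0 := fun f hf h => key f hf (hv f (hf.mono hsub) h)
  have hacl := (ind_of_card hind (fun s hs => hsp s (hsub hs)) hc.ge).2
  obtain ⟨P, hP, -, hP0, hP1⟩ := exists_eq_of_mem_acl (hacl (aeval_mem_acl hg hsp))
  by_contra h0
  refine hP1 h0 ?_
  rw [key _ (hP 0) fun s hs => ?_, map_zero]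
  have e1 : On (box (A + 2) (B + 2)) (P.eval g) := by
    rw [eval_eq_sum_range]
    exact On.sum fun i _ => ((hP i).mono hsub).mul (hg.pow i)
  have e2 := hv _ e1 (by
    rw [← hP0, ← eval₂_id]
    exact hom_eval₂ P (RingHom.id _)
      (MvPolynomial.aeval ω : MvPolynomial Vr k0 →ₐ[k0] K).toRingHom g) s hs
  rw [← X_mul_divX_add P, eval_add, eval_mul, eval_X, eval_C, map_add, map_add, map_mul, map_mul,
    hg' s hs, zero_mul, zero_add] at e2
  exact e2

/-- Recurrence of types. -/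
theorem exists_gap {ι : Type} [Finite ι] (τ : ℕ → ι) :
    ∃ g, 1 ≤ g ∧ ∀ R, ∃ r, R ≤ r ∧ τ r = τ (r + g) := by
  have := Fintype.ofFinite ι
  by_contra hn
  push Not at hn
  choose! R hR using hn
  set M := (Finset.range (Fintype.card ι + 1)).sup R with hM
  obtain ⟨i, j, hij, e⟩ := Fintype.exists_ne_map_eq_of_card_lt
    (fun i : Fin (Fintype.card ι + 1) => τ (M + i)) (by simp)
  wlog h : i < j generalizing i j
  · exact this j i hij.symm e.symm (lt_of_le_of_ne (not_lt.1 h) hij.symm)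
  have h' : (i : ℕ) < j := h
  have hj := j.2
  refine hR (j - i) (by omega) (M + i) (le_add_right (Finset.le_sup (f := R) ?_)) ?_
  · rw [Finset.mem_range]; omega
  · rw [e]; congr 1; omega

section abstract
variable {k0 K : Type} [Field k0] [Field K] [Algebra k0 K]

theorem rpair_box_succ' (A B : ℕ) : box (A + 1) B = insert (false, A) (box A B) := by
  ext ⟨_ | _, i⟩
  · simp only [rpair_mem_false, Set.mem_insert_iff, Prod.mk.injEq, true_and]; omega
  · simp [rpair_mem_true]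

theorem rpair_ind_erase {ω : Vr → K} {A b : ℕ} (h0 : Ind k0 ω (box A 0)) (m : ℕ)
    (h : ∀ i < m, i ≠ b → ω (true, i) ∉ acl k0 (ω '' box A i)) :
    Ind k0 ω (box A m \ {(true, b)}) := by
  induction m with
  | zero => exact h0.mono Set.diff_subset
  | succ m ih =>
    have ih' := ih fun i hi => h i (by omega)
    by_cases e : m = b
    · rw [rpair_box_succ, e, Set.insert_diff_of_mem _ (Set.mem_singleton _), ← e]
      rwa [← e] at ih'
    · rw [rpair_box_succ, Set.insert_diff_of_notMem _ (by simpa using e),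
        ind_insert (by simp [rpair_mem_true])]
      exact ⟨ih', fun h' => h m (by omega) e (acl_mono (Set.image_mono Set.diff_subset) h')⟩

theorem rpair_on_of_not_ind {ω : Vr → K} {V V' : Set Vr} {G : MvPolynomial Vr k0} (hG : Gen ω V G)
    (hV : V' ⊆ V) (h : ¬ Ind k0 ω V') : On V' G := by
  simp only [Ind, not_forall] at h
  obtain ⟨f, hf, e, h0⟩ := h
  exact hf.of_dvd h0 (hG.dvd f (hf.mono hV) e)

theorem rpair_not_ind {ω : Vr → K} {A m : ℕ} (h : ω (true, m) ∈ acl k0 (ω '' box A m)) :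
    ¬ Ind k0 ω (box A (m + 1)) := fun h' => by
  rw [rpair_box_succ, ind_insert (by simp [rpair_mem_true])] at h'
  exact h'.2 h

end abstract

namespace NS
variable {p : ℕ} [Fact p.Prime] {K Γ : Type} [Field K] [CharP K p]
  [LinearOrderedCommGroupWithZero Γ] {N : NS p K Γ} {a c : N.toPF.k0} {x y : ℤ → K}

theorem rpair_level (hE : HypEq a c) (hx : N.Orb a c x) (hy : N.Orb a c y) {A m : ℕ} {l : ℤ}
    (h : N.H.jet2 (x l) (y l) (true, m) ∈ acl N.toPF.k0 (N.H.jet2 (x l) (y l) '' box A m))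
    (l' : ℤ) :
    N.H.jet2 (x l') (y l') (true, m) ∈ acl N.toPF.k0 (N.H.jet2 (x l') (y l') '' box A m) := by
  have e := fun B => acl_box_level N.compat hE.two hE.ne hx.orbit hy.orbit (hx.ne_zero hE.ne)
    (hy.ne_zero hE.ne) A B l l'
  rw [← e m]
  have h1 : acl N.toPF.k0 (N.H.jet2 (x l) (y l) '' box A (m + 1)) ⊆
      acl N.toPF.k0 (N.H.jet2 (x l) (y l) '' box A m) := by
    refine acl_subset_acl ?_
    rw [rpair_box_succ, Set.image_insert_eq]
    exact Set.insert_subset h (subset_acl _)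
  refine h1 ?_
  rw [e (m + 1)]
  exact subset_acl _ ⟨_, rpair_mem_true.2 (Nat.lt_succ_self m), rfl⟩

/-- The generators grow in one of the two base variables. -/
theorem rpair_growth (hE : HypEq a c) (hρ : N.H0.D 1 a ≠ 0 ∨ N.H0.D 1 c ≠ 0)
    (h1 : Std1 N.H0 a c) (h3 : Std3 a c) (hca : c ≠ a ^ 3)
    (hx : N.Orb a c x) (hy : N.Orb a c y) (hht : N.toPF.ht (x 0) = N.toPF.ht (y 0))
    (hne : ∀ i, x i ≠ y i) {A B b : ℕ} (hb : b ≤ B) (G : ℤ → MvPolynomial Vr N.toPF.k0)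
    (hG : ∀ l, Gen (N.H.jet2 (x l) (y l)) (box (A + 1) (B + 1)) (G l))
    (hd : ∀ l, (G l).degreeOf (true, b) ≠ 0)
    (hdep : ∀ l, N.H.jet2 (x l) (y l) (true, b) ∈
      acl N.toPF.k0 (N.H.jet2 (x l) (y l) '' box (A + 1) b)) :
    ∃ β : Bool, ∀ l : ℤ, ∃ r : ℕ, ∀ i : ℕ,
      2 ^ (i + 1) ≤ (G (l - (i + 2 + r : ℕ))).degreeOf (β, 0) := by
  classical
  rcases b with _ | o
  · have hex : ∃ A', N.H.jet2 (x 0) (y 0) (true, 0) ∈
        acl N.toPF.k0 (N.H.jet2 (x 0) (y 0) '' box A' 0) := ⟨_, hdep 0⟩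
    have hA := Nat.find_min' hex (hdep 0)
    have hmin : ∀ A' < Nat.find hex, ∀ l, Ind N.toPF.k0 (N.H.jet2 (x l) (y l)) (box A' 1) := by
      intro A' hA' l
      rw [rpair_box_succ, ind_insert (by simp [rpair_mem_true])]
      exact ⟨ind_one hE hρ h1 hx l _ _, fun h => Nat.find_min hex hA' (rpair_level hE hx hy h 0)⟩
    have h2 : 2 ≤ Nat.find hex := by
      by_contra hlt
      refine rpair_not_ind (Nat.find_spec hex) (Ind.mono ?_ (V' := {(false, 0), (true, 0)}) ?_)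
      · rw [ind_pair (by simp)]
        intro G' hG'
        refine ind_curve hE hρ h3 hca hx hy hht hne 0 G' ?_
        simpa [HD.jet2, HD.D_zero] using hG'
      · rintro ⟨_ | _, i⟩ hi
        · have := rpair_mem_false.1 hi
          obtain rfl : i = 0 := by omega
          simp
        · have := rpair_mem_true.1 hi
          obtain rfl : i = 0 := by omega
          simp
    obtain ⟨o, ho⟩ : ∃ o, Nat.find hex = o + 2 := ⟨Nat.find hex - 2, by omega⟩
    have hon : ∀ l, On (box (o + 2) 1) (G l) := fun l =>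
      rpair_on_of_not_ind (hG l) (rpair_box_mono (by omega) (by omega))
        (rpair_not_ind (ho ▸ rpair_level hE hx hy (Nat.find_spec hex) l))
    refine ⟨false, growth_gen hE h1 hx hy G hG false o (fun l h0 => ?_) fun l i hi =>
      hon l _ (by rw [rpair_mem_false]; omega)⟩
    refine (hG l).irr.ne_zero (hmin (o + 1) (by omega) l _ (fun s hs => ?_) (hG l).zero)
    by_cases e : s = (false, o + 1)
    · rw [e, h0]
    · refine hon l s fun h => ?_
      rw [rpair_box_succ'] at h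
      exact h.elim e hs
  · have hon : ∀ l, On (box (A + 1) (o + 1 + 1)) (G l) := fun l =>
      rpair_on_of_not_ind (hG l) (rpair_box_mono le_rfl (by omega)) (rpair_not_ind (hdep l))
    exact ⟨true, growth_gen hE h1 hx hy G hG true o hd fun l i hi =>
      hon l _ (by rw [rpair_mem_true]; omega)⟩

/-- The case of two dependent jets. -/
theorem rpair_contra (hE : HypEq a c) (hρ : N.H0.D 1 a ≠ 0 ∨ N.H0.D 1 c ≠ 0)
    (h1 : Std1 N.H0 a c) (h2 : Std2 N.H0 a c) (h3 : Std3 a c) (hca : c ≠ a ^ 3)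
    (hx : N.Orb a c x) (hy : N.Orb a c y) (hht : N.toPF.ht (x 0) = N.toPF.ht (y 0))
    (hne : ∀ i, x i ≠ y i) {A B b : ℕ} (hb : b ≤ B)
    (hdep : ∀ l, N.H.jet2 (x l) (y l) (true, b) ∈
      acl N.toPF.k0 (N.H.jet2 (x l) (y l) '' box (A + 2) b))
    (hdep' : ∀ l, N.H.jet2 (x l) (y l) (true, B + 1) ∈
      acl N.toPF.k0 (N.H.jet2 (x l) (y l) '' box (A + 2) (B + 1)))
    (hind : ∀ l, ∀ i < B + 1, i ≠ b → N.H.jet2 (x l) (y l) (true, i) ∉
      acl N.toPF.k0 (N.H.jet2 (x l) (y l) '' box (A + 2) i)) : False := by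
  classical
  have hI := fun l => rpair_ind_erase (b := b) (ind_one hE hρ h1 hx l (y l) (A + 2)) _ (hind l)
  choose G hG hd using fun l => exists_gen (hI l) fun h =>
    rpair_not_ind (hdep l) (h.mono (rpair_box_mono le_rfl (by omega)))
  obtain ⟨β, hβ⟩ := rpair_growth hE hρ h1 h3 hca hx hy hht hne hb G hG hd hdep
  have hsub : box (A + 2) (B + 1) ⊆ box (A + 2) (B + 2) := rpair_box_mono le_rfl (by omega)
  have hs : N.NoSmall x y (A + 2) (B + 1) := by
    intro l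
    obtain ⟨r, hr⟩ := hβ l
    refine ⟨r + 2, fun g i hg Θ hΘ d1 d2 e => ?_⟩
    by_contra h0
    have e1 := hr (g + i - 2 - r)
    rw [show g + i - 2 - r + 2 + r = g + i by omega] at e1
    have e2 := degreeOf_le_of_dvd h0 ((hG _).dvd Θ hΘ e) (β, 0)
    have e3 : Θ.degreeOf (β, 0) ≤ 2 ^ i := by cases β <;> assumption
    have := (pow_le_pow_iff_right₀ (by norm_num : 1 < 2)).1 (e1.trans (e2.trans e3))
    omega
  obtain ⟨R, hR⟩ := h2 (G 0) (hG 0).irr.ne_zero
  obtain ⟨f', hf', e', hnd⟩ := exists_rel_not_dvd (u := (true, B + 1)) (by simp [rpair_mem_true])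
    (hdep' (-1 - R)) (hG _).on (hG _).zero
  rw [← rpair_box_succ] at hf'
  obtain ⟨r0, hr0⟩ := partner hE hρ h1 hx hy hht hs (-1 - R) ((hG _).on.mono hsub) hf'
    (hG _).irr.ne_zero (by rintro rfl; exact hnd (dvd_zero _))
    ((hG _).irr.isRelPrime_iff_not_dvd.2 hnd) (hG _).zero e'
  have hp : ∀ n : ℕ, ∃ t : Bool × Fin (2 * R + 1), ∀ (l : ℤ) (r r' : ℕ),
      (r' : ℤ) = l + (R + 1 + r0 + n) → (r : ℤ) + R = r' + t.2 →
      N.toPF.mass (N.toPF.Ev (x (l - 1 - r)) t.1 ∩ N.toPF.Ev (y (l - 1 - r')) false) ≠ 0 := by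
    intro n
    obtain ⟨r', b', hm⟩ := hr0 (r0 + n) (by omega)
    have hv := pair_vanish hE hρ hx hy hht hs 0 ((hG 0).on.mono hsub) (hG 0).zero
      (r := R + r') (r' := R + 1 + r0 + n) (b := b') (b' := false) (by
        convert hm using 5 <;> push_cast <;> ring)
    have hclose : ¬ (R + r' + R ≤ R + 1 + r0 + n ∨ R + 1 + r0 + n + R ≤ R + r') := fun h =>
      hR _ _ _ _ (by omega) (by omega) h hv
    refine ⟨(b', ⟨R + r' + R - (R + 1 + r0 + n), by omega⟩), fun l r r'' e1 e2 => ?_⟩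
    simp only at e2 ⊢
    convert hm using 5 <;> push_cast <;> omega
  choose τ hτ using hp
  obtain ⟨g, hg, hgap⟩ := exists_gap τ
  obtain ⟨W, hW, hWc⟩ := rpair_exists_boxF (A + 2) (B + 1)
  have hbW : ((true, b) : Vr) ∈ W := by rw [← Finset.mem_coe, hW, rpair_mem_true]; omega
  have hdvd : ∀ l, (G l).degreeOf (β, 0) ≤ (G (l + g)).degreeOf (β, 0) := by
    intro l
    refine degreeOf_le_of_dvd (hG _).irr.ne_zero ((hG l).dvd _ (hG _).on ?_) _
    have hU : acl N.toPF.k0 (N.H.jet2 (x l) (y l) '' box (A + 2) (B + 1)) ⊆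
        acl N.toPF.k0 (N.H.jet2 (x l) (y l) '' (W.erase (true, b))) := by
      refine acl_subset_acl ?_
      rintro _ ⟨s, hs, rfl⟩
      by_cases e : s = (true, b)
      · refine acl_mono (Set.image_mono fun s hs => ?_) (e ▸ hdep l)
        rw [Finset.coe_erase, hW]
        refine ⟨rpair_box_mono le_rfl (by omega) hs, ?_⟩
        rintro rfl
        simp [rpair_mem_true] at hs
      · exact subset_acl _ ⟨s, by rw [Finset.coe_erase, hW]; exact ⟨hs, e⟩, rfl⟩
    refine rec_dvd h1 (U := W.erase (true, b)) (A := A) (B := B)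
      (by rw [Finset.card_erase_of_mem hbW]; omega) (fun s hs => hU ?_)
      {s | ∃ (n r : ℕ), τ n = τ (n + g) ∧ (s.2.2 : ℤ) = l + g + (R + 1 + r0 + n) ∧
        (r : ℤ) + R = s.2.2 + (τ n).2 ∧ s.1 = vv a c (τ n).1 r ∧ s.2.1 = N.H0.D 1 s.1}
      (fun R' => ?_) ?_ ((hG _).on.mono hsub) ?_
    · rw [rpair_box_succ] at hs
      rcases hs with rfl | hs
      · exact hdep' l
      · exact subset_acl _ ⟨s, hs, rfl⟩
    · obtain ⟨n, hn, e⟩ := hgap (R' + l.natAbs)
      obtain ⟨r, hr⟩ : ∃ r : ℕ, (r : ℤ) = l + g + (1 + r0 + n) + (τ n).2 :=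
        ⟨(l + g + (1 + r0 + n) + (τ n).2).toNat, by omega⟩
      refine ⟨(vv a c (τ n).1 r, N.H0.D 1 (vv a c (τ n).1 r), (l + g + (R + 1 + r0 + n)).toNat),
        ⟨n, r, e, ?_, ?_, rfl, rfl⟩, ?_⟩ <;> simp only <;> omega
    · rintro f hf e ⟨s1, s2, r'⟩ ⟨n, r, en, e1, e2, e3, e4⟩
      simp only at e1 e2 e3 e4 ⊢
      rw [e4, e3]
      refine pair_vanish hE hρ hx hy hht hs l hf e ?_
      rw [en] at e2 ⊢
      exact hτ (n + g) l r r' (by push_cast; omega) e2
    · rintro ⟨s1, s2, r'⟩ ⟨n, r, en, e1, e2, e3, e4⟩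
      simp only at e1 e2 e3 e4 ⊢
      rw [e4, e3]
      exact pair_vanish hE hρ hx hy hht hs (l + g) ((hG _).on.mono hsub) (hG _).zero
        (hτ n (l + g) r r' e1 e2)
  have hbd : ∀ n : ℕ, (G (0 - (n * g : ℕ))).degreeOf (β, 0) ≤ (G 0).degreeOf (β, 0) := by
    intro n
    induction n with
    | zero => simp
    | succ n ih =>
      refine (hdvd _).trans (le_of_eq_of_le ?_ ih)
      congr 2
      push_cast
      ring
  obtain ⟨r, hr⟩ := hβ 0
  set M := (G 0).degreeOf (β, 0)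
  have e0 : M + 2 + r ≤ (M + 2 + r) * g := Nat.le_mul_of_pos_right _ hg
  have e1 := hr ((M + 2 + r) * g - 2 - r)
  rw [show (M + 2 + r) * g - 2 - r + 2 + r = (M + 2 + r) * g by omega] at e1
  have e2 := (Nat.lt_two_pow_self.trans_le e1).trans_le (hbd _)
  omega

/-- (IND). -/
theorem ind_pair_jets (hE : HypEq a c) (hρ : N.H0.D 1 a ≠ 0 ∨ N.H0.D 1 c ≠ 0)
    (h1 : Std1 N.H0 a c) (h2 : Std2 N.H0 a c) (h3 : Std3 a c) (hca : c ≠ a ^ 3)
    (hx : N.Orb a c x) (hy : N.Orb a c y) (hht : N.toPF.ht (x 0) = N.toPF.ht (y 0))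
    (hne : ∀ i, x i ≠ y i) (l : ℤ) : Ind N.toPF.k0 (N.H.jet2 (x l) (y l)) Set.univ := by
  classical
  by_cases hex : ∃ m A, N.H.jet2 (x l) (y l) (true, m) ∈
      acl N.toPF.k0 (N.H.jet2 (x l) (y l) '' box A m)
  · exfalso
    have : Infinite K := by
      have := N.infinite_k0 (p := p) (fun e => hE.two (Subtype.ext e))
      exact Infinite.of_injective _ N.toPF.k0.subtype.injective
    obtain ⟨A1, hA1⟩ := Nat.find_spec hex
    have hex' : ∃ m, Nat.find hex < m ∧ ∃ A, N.H.jet2 (x l) (y l) (true, m) ∈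
        acl N.toPF.k0 (N.H.jet2 (x l) (y l) '' box A m) := by
      obtain ⟨b', A, h, h'⟩ := next_dep p N.compat (x l) (y l) (b := Nat.find hex) ⟨A1, hA1⟩
      exact ⟨b', h, A, h'⟩
    obtain ⟨hlt, A2, hA2⟩ := Nat.find_spec hex'
    obtain ⟨B, hB⟩ : ∃ B, Nat.find hex' = B + 1 := ⟨Nat.find hex' - 1, by omega⟩
    rw [hB] at hA2 hlt
    refine rpair_contra hE hρ h1 h2 h3 hca hx hy hht hne (A := A1 + A2) (B := B)
      (b := Nat.find hex) (by omega) (fun l' => rpair_level hE hx hy (l := l) ?_ l')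
      (fun l' => rpair_level hE hx hy (l := l) ?_ l') fun l' i hi hi' h => ?_
    · exact acl_mono (Set.image_mono (rpair_box_mono (by omega) le_rfl)) hA1
    · exact acl_mono (Set.image_mono (rpair_box_mono (by omega) le_rfl)) hA2
    · have h' := rpair_level hE hx hy h l
      rcases lt_or_gt_of_ne hi' with e | e
      · exact Nat.find_min hex e ⟨_, h'⟩
      · exact Nat.find_min hex' (by omega : i < Nat.find hex') ⟨e, _, h'⟩
  · push Not at hex
    refine ind_of_finite fun U _ => ?_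
    set M := U.sup Prod.snd + 1
    refine (rpair_ind_erase (b := M) (ind_one hE hρ h1 hx l (y l) M) M
      fun i _ _ => hex i M).mono ?_
    rintro ⟨β, i⟩ hi
    have : i ≤ U.sup Prod.snd := Finset.le_sup (f := Prod.snd) hi
    refine ⟨by cases β <;> simp [box, M] <;> omega, fun e => ?_⟩
    have := congrArg Prod.snd e
    simp only at this
    omega

end NS

end JR
end

-- merged part: Pool.Agent.Work.MP_969914_nt.RSdn2
section
/-! The nonstandard form of the gcd bound. -/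

set_option autoImplicit false

namespace JR

open scoped NNReal ENNReal
open Polynomial Filter

theorem rsdn2_arith {h h' μ : ℝ≥0∞} {n : ℕ} (hh : h ≠ ⊤) (e : h = 2 ^ 17 * h')
    (h1 : 3 * ((2 ^ 17 * n : ℕ) : ℝ≥0∞) * h' ≤ 16000 * μ + 100000 * h') : n * h ≤ 8000 * μ := by
  rcases Nat.eq_zero_or_pos n with rfl | hn
  · simp
  have h2 : (100000 : ℝ≥0∞) * h' ≤ n * h := by
    have h3 : (1 : ℝ≥0∞) ≤ n := by exact_mod_cast hn
    calc (100000 : ℝ≥0∞) * h' ≤ 2 ^ 17 * h' := by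
          gcongr
          norm_num
      _ = 1 * h := by rw [e, one_mul]
      _ ≤ n * h := by gcongr
  have h4 : 2 * (n * h) + n * h ≤ 2 * (8000 * μ) + n * h := by
    calc 2 * (n * h) + n * h = 3 * ((2 ^ 17 * n : ℕ) : ℝ≥0∞) * h' := by
          rw [e]
          push_cast
          ring
      _ ≤ 16000 * μ + n * h := h1.trans (add_le_add le_rfl h2)
      _ = 2 * (8000 * μ) + n * h := by ring
  have h5 : (n : ℝ≥0∞) * h ≠ ⊤ := ENNReal.mul_ne_top (ENNReal.natCast_ne_top n) hh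
  exact (ENNReal.mul_le_mul_iff_right two_ne_zero ENNReal.ofNat_ne_top).1
    ((ENNReal.add_le_add_iff_right h5).1 h4)

theorem rsdn2_map {K : Type} [Field K] (f : K →+* K) {a c : K} {z : ℤ → K} (h : IsOrbit a c z) :
    IsOrbit (f a) (f c) fun i => f (z i) := fun i => by
  obtain ⟨h1, h2⟩ := h i
  refine ⟨fun h3 => h1 (f.injective ?_), ?_⟩
  · simpa using h3
  · simp [h2, phi]

theorem rsdn2_expand {k K : Type} [Field k] [Field K] [Algebra k K] {x y : K} {q : ℕ}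
    (hq : 0 < q) (h : ∀ G : k[X][X], aevalAeval x y G = 0 → G = 0) (G : k[X][X])
    (hG : aevalAeval (x ^ q) (y ^ q) G = 0) : G = 0 := by
  have e : ∀ F : k[X][X], aevalAeval x y (expand k[X] q (F.map (expand k q).toRingHom)) =
      aevalAeval (x ^ q) (y ^ q) F := by
    intro F
    induction F using Polynomial.induction_on' with
    | add f g hf hg => rw [Polynomial.map_add, map_add, map_add, map_add, hf, hg]
    | monomial n r =>
      rw [← C_mul_X_pow_eq_monomial, Polynomial.map_mul, Polynomial.map_pow, map_C, map_X,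
        map_mul, map_pow, expand_C, expand_X, map_mul, map_mul, map_pow, map_pow, map_pow,
        aevalAeval_C, aevalAeval_C, aevalAeval_Y, aevalAeval_Y]
      congr 1
      exact expand_aeval q r x
  have h1 := h _ ((e G).trans hG)
  rw [expand_eq_zero hq] at h1
  exact (Polynomial.map_eq_zero_iff (expand_injective hq)).1 h1

theorem rsdn2_D_PQ {k : Type} [Field k] (H : HD k) {a c ζ : k} (ha : H.D 1 a = 0)
    (hc : H.D 1 c = 0) (hζ : H.D 1 ζ = 0) (j : ℕ) :
    H.D 1 ((PQ a c j).1.eval ζ) = 0 ∧ H.D 1 ((PQ a c j).2.eval ζ) = 0 := by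
  induction j with
  | zero => exact ⟨by simpa [PQ] using hζ, by simpa [PQ] using H.D_one 0⟩
  | succ j ih =>
    rw [PQ_succ]
    simp [Phi, sq, H.D_add, H.D1_mul, ha, hc, ih.1, ih.2]

namespace NS
variable {p : ℕ} [Fact p.Prime] {K Γ : Type} [Field K] [CharP K p]
  [LinearOrderedCommGroupWithZero Γ] {N : NS p K Γ} {a c : N.toPF.k0} {x y : ℤ → K}

theorem rsdn2_ht (hac : a ≠ c) (hx : IsOrbit (a : K) c x) :
    N.toPF.ht (x 0) = 2 ^ 17 * N.toPF.ht (x (-17)) := by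
  simpa using N.ht_orbit hac hx (-17) 17

theorem rsdn2_ht_eq (hac : a ≠ c) (hx : IsOrbit (a : K) c x) (hy : IsOrbit (a : K) c y)
    (hht : N.toPF.ht (x 0) = N.toPF.ht (y 0)) : N.toPF.ht (y (-17)) = N.toPF.ht (x (-17)) := by
  rw [rsdn2_ht hac hx, rsdn2_ht hac hy] at hht
  exact ((ENNReal.mul_right_inj (by simp) (by simp)).1 hht).symm

theorem rsdn2_main (h2 : (2 : N.toPF.k0) ≠ 0) (hac : a ≠ c) (hx : IsOrbit (a : K) c x)
    (hy : IsOrbit (a : K) c y) (hfin : N.toPF.ht (x 0) ≠ ⊤) (S : Finset N.toPF.k0)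
    (hS : ∀ s ∈ S, Unr a c s)
    (h : ∀ Z, Splits a c (pullS a c 17 S) (2 ^ 17 * S.card) Z →
      3 * Z.card * N.toPF.ht (x (-17)) ≤
        16000 * N.toPF.mass (N.Diff Z (x (-17)) (y (-17))) + 100000 * N.toPF.ht (x (-17))) :
    S.card * N.toPF.ht (x 0) ≤ 8000 * N.toPF.mass (N.Diff S (x 0) (y 0)) := by
  obtain ⟨Z, hZ⟩ := exists_splits_pull h2 hac N.sqrt_k0 S hS 17
  have h3 := h Z hZ
  rw [hZ.card] at h3
  refine rsdn2_arith hfin (rsdn2_ht hac hx) (h3.trans (add_le_add ?_ le_rfl))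
  refine mul_le_mul_right (N.toPF.mass_mono_ae ?_) _
  have e : (-17 : ℤ) + (17 : ℕ) = 0 := by norm_num
  have h4 := ae_pull_iff hac hx hZ (-17)
  have h5 := ae_pull_iff hac hy hZ (-17)
  rw [e] at h4 h5
  filter_upwards [h4, h5] with w h6 h7 h8 h9
  exact h8 (h6.symm.trans (h9.trans h7))

theorem sd_rho (hE : HypEq a c) (hρ : N.H0.D 1 a ≠ 0 ∨ N.H0.D 1 c ≠ 0)
    (h1 : Std1 N.H0 a c) (h2 : Std2 N.H0 a c) (h3 : Std3 a c) (hca : c ≠ a ^ 3)
    (hx : N.Orb a c x) (hy : N.Orb a c y) (hht : N.toPF.ht (x 0) = N.toPF.ht (y 0))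
    (hne : ∀ i, x i ≠ y i) (S : Finset N.toPF.k0) (hS : ∀ s ∈ S, Unr a c s) :
    S.card * N.toPF.ht (x 0) ≤ 8000 * N.toPF.mass (N.Diff S (x 0) (y 0)) := by
  refine rsdn2_main hE.two hE.ne hx.orbit hy.orbit hx.fin S hS fun Z hZ => ?_
  exact diff_level Z rfl (rsdn2_ht_eq hE.ne hx.orbit hy.orbit hht) (hx.ht_pos hE.ne _).2
    ((ind_pair_jets hE hρ h1 h2 h3 hca hx hy hht hne _).mono (Set.subset_univ _))
    (exc_eq_zero hE.hypH hρ hx Z hZ.unr _) (exc_eq_zero hE.hypH hρ hy Z hZ.unr _)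

/-- The map is a Frobenius twist of the map given by `a1`, `c1`. -/
theorem sd_zero {a1 c1 : N.toPF.k0} {x1 y1 : ℤ → K} {n : ℕ} (hE : HypEq a1 c1)
    (hρ : N.H0.D 1 a1 ≠ 0 ∨ N.H0.D 1 c1 ≠ 0) (h3 : Std3 a1 c1) (hca : c1 ≠ a1 ^ 3)
    (hx : N.Orb a1 c1 x1) (hy : N.Orb a1 c1 y1) (hht : N.toPF.ht (x1 0) = N.toPF.ht (y1 0))
    (hne : ∀ i, x1 i ≠ y1 i) (S : Finset N.toPF.k0)
    (hS : ∀ s ∈ S, Unr (a1 ^ p ^ (n + 1)) (c1 ^ p ^ (n + 1)) s) (hS' : ∀ s ∈ S, N.H0.D 1 s ≠ 0) :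
    S.card * N.toPF.ht (x1 0 ^ p ^ (n + 1)) ≤
      8000 * N.toPF.mass (N.Diff S (x1 0 ^ p ^ (n + 1)) (y1 0 ^ p ^ (n + 1))) := by
  have hp : p.Prime := Fact.out
  have hq : 0 < p ^ (n + 1) := pow_pos hp.pos _
  have d1 : ¬ p ∣ 1 := hp.not_dvd_one
  have d2 : ¬ p ∣ 2 := fun h => hE.two (by
    simpa using (CharP.cast_eq_zero_iff N.toPF.k0 p 2).2 h)
  have hac : a1 ^ p ^ (n + 1) ≠ c1 ^ p ^ (n + 1) := fun h =>
    hE.ne ((iterateFrobenius N.toPF.k0 p (n + 1)).injective h)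
  have ho : ∀ z : ℤ → K, IsOrbit (a1 : K) c1 z →
      IsOrbit ((a1 ^ p ^ (n + 1) : N.toPF.k0) : K) (c1 ^ p ^ (n + 1) : N.toPF.k0)
        fun i => z i ^ p ^ (n + 1) := fun z hz => by
    simpa only [iterateFrobenius_def, SubmonoidClass.coe_pow] using
      rsdn2_map (iterateFrobenius K p (n + 1)) hz
  have hf : ∀ l, N.toPF.ht (x1 l ^ p ^ (n + 1)) ≠ ⊤ := fun l => by
    rw [N.toPF.ht_pow]
    exact ENNReal.mul_ne_top (ENNReal.natCast_ne_top _) (hx.ht_pos hE.ne l).2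
  have hD : ∀ (z : K) (r : ℕ), ¬ p ∣ r → N.H.D r (z ^ p ^ (n + 1)) = 0 := fun z r hr => by
    rw [pow_succ, pow_mul]
    exact N.H.D_pow_char p _ hr
  have hD0 : ∀ z : N.toPF.k0, N.H0.D 1 (z ^ p ^ (n + 1)) = 0 := fun z => by
    rw [pow_succ, pow_mul]
    exact N.H0.D_pow_char p _ d1
  refine rsdn2_main (x := fun i => x1 i ^ p ^ (n + 1)) (y := fun i => y1 i ^ p ^ (n + 1))
    hE.two hac (ho _ hx.orbit) (ho _ hy.orbit) (hf 0) S hS fun Z hZ => ?_
  refine diff_level_zero Z rfl ?_ (hf _)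
    (rsdn2_expand hq (ind_curve hE hρ h3 hca hx hy hht hne _)) (hD _ _ d1) (hD _ _ d2)
    (hD _ _ d1) (hD _ _ d2) fun ζ hζ h0 => ?_
  · rw [N.toPF.ht_pow, N.toPF.ht_pow, rsdn2_ht_eq hE.ne hx.orbit hy.orbit hht]
  · obtain ⟨h4, h5⟩ := hZ.mem_pull hac hζ
    obtain ⟨h6, h7⟩ := rsdn2_D_PQ N.H0 (hD0 a1) (hD0 c1) h0 17
    have h8 := N.H0.D1_mul ((PQ (a1 ^ p ^ (n + 1)) (c1 ^ p ^ (n + 1)) 17).1.eval ζ /
      (PQ (a1 ^ p ^ (n + 1)) (c1 ^ p ^ (n + 1)) 17).2.eval ζ)
      ((PQ (a1 ^ p ^ (n + 1)) (c1 ^ p ^ (n + 1)) 17).2.eval ζ)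
    rw [div_mul_cancel₀ _ h4, h6, h7, mul_zero, zero_add] at h8
    exact mul_ne_zero (hS' _ h5) h4 h8.symm

end NS

end JR
end

-- merged part: Pool.Agent.Work.MP_969914_nt.U0
section
/-! The ultrapower of the standard places: definitions. -/

set_option autoImplicit false

namespace JR

open scoped NNReal ENNReal Topology
open Polynomial Filter

/-- Germs along an ultrafilter. -/
abbrev UG (U : Ultrafilter ℕ) (T : Type) : Type := Germ (U : Filter ℕ) T

noncomputable instance germLO (U : Ultrafilter ℕ) :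
    LinearOrderedCommGroupWithZero (UG U ℝ≥0) :=
  CanonicallyOrderedAdd.toLinearOrderedCommGroupWithZero

/-- The germ of a sequence. -/
abbrev gm (U : Ultrafilter ℕ) {T : Type} (a : ℕ → T) : UG U T := (a : Germ (U : Filter ℕ) T)

instance germCharP (U : Ultrafilter ℕ) (T : Type) [Field T] (p : ℕ) [CharP T p]
    (K : Subfield (UG U T)) : CharP K p := by
  have : CharP (UG U T) p := charP_of_injective_ringHom
    ((Germ.coeRingHom (U : Filter ℕ)).comp (Pi.constRingHom ℕ T)).injective p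
  exact K.subtype.charP K.subtype.injective p

/-- Standard density in its pointwise form. -/
def Std1' {k0 : Type} [Field k0] (H : HD k0) (a c : k0) (b : Bool) : Prop :=
  ∀ G : k0[X][X], G ≠ 0 → ∃ R : ℕ, ∀ r, R ≤ r → G.evalEval (vv a c b r) (H.D 1 (vv a c b r)) ≠ 0

variable {p : ℕ} {k T : Type} [Field k] [Field T] [Algebra k T]

/-- The Hasse derivation on the base field. -/
noncomputable def Std.HK (S : Std p k T) : HD S.K0 :=
  S.H.restrict S.K0.toSubfield S.D_mem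

theorem Std.coe_HK (S : Std p k T) (r : ℕ) (z : S.K0) : (S.HK.D r z : T) = S.H.D r z :=
  (HD.restrict_compat S.H S.K0.toSubfield S.D_mem r z).symm

/-- The nonstandard model at scale `lam`. -/
structure Lim (S : Std p k T) (U : Ultrafilter ℕ) (lam : ℕ → ℝ≥0) where
  K : Subfield (UG U T)
  N : NS p K (UG U ℝ≥0)
  pl : N.W → ℕ → S.W
  lam_top : Tendsto lam U atTop
  mem_K : ∀ a : ℕ → T,
    Tendsto (fun n => S.toPF.mass {w | a n ∉ S.R w} / lam n) U (𝓝 0) → gm U a ∈ K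
  q_eq : N.q = gm U fun _ => S.q
  v_eq : ∀ ω (z : K) (a : ℕ → T), (z : UG U T) = gm U a →
    N.v ω z = gm U fun n => S.v (pl ω n) (a n)
  D_eq : ∀ r (z : K) (a : ℕ → T), (z : UG U T) = gm U a →
    (N.H.D r z : UG U T) = gm U fun n => S.H.D r (a n)
  ht_eq : ∀ (z : K) (a : ℕ → T), (z : UG U T) = gm U a →
    Tendsto (fun n => S.toPF.ht (a n) / lam n) U (𝓝 (N.toPF.ht z))
  good : ∀ ω ∈ N.good, ∀ᶠ n in U, pl ω n ∈ S.good
  mass_le : ∀ (E : ℕ → Set S.W) (F : Set N.W) (μ : ℝ≥0∞),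
    (∀ ω ∈ F, ∀ᶠ n in U, pl ω n ∈ E n) →
    (∀ᶠ n in U, S.toPF.mass (E n) ≤ μ * lam n) → N.toPF.mass F ≤ μ

/-- `ι` is the embedding of the base field by constant sequences. -/
def Lim.IsCst {S : Std p k T} {U : Ultrafilter ℕ} {lam : ℕ → ℝ≥0} (L : Lim S U lam)
    (ι : S.K0 →+* L.N.toPF.k0) : Prop :=
  ∀ z, ((ι z : L.K) : UG U T) = gm U fun _ => (z : T)

namespace Dyn
variable {S : Std p k T} (d : Dyn S)

def a0 : S.K0 := ⟨d.a, d.a_mem⟩

def c0 : S.K0 := ⟨d.c, d.c_mem⟩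

/-- The lower bound with a given constant. -/
def LB (ε : ℝ≥0) (G : ℕ → Finset T → Set S.W) : Prop :=
  ∀ σ : ℕ, ∃ (n1 : ℕ) (ε1 : ℝ≥0), 0 < ε1 ∧ ∀ n, n1 ≤ n → ∀ A : Finset T,
    A.card ≤ σ → (∀ s ∈ A, ∃ l, 1 ≤ l ∧ s ∈ d.V l) →
    (∀ s ∈ A, S.toPF.mass {w | s ∉ S.R w} ≤ ε1 * 2 ^ n) →
    (ε : ℝ≥0∞) * A.card * 2 ^ n ≤ S.toPF.mass (G n A)

def SimpleB (b : Bool) (n : ℕ) (A : Finset T) : Set S.W :=
  {w | w ∈ S.good ∧ (∀ s ∈ A, S.v w s ≤ 1) ∧ d.con b n A w = S.q⁻¹}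

/-- The critical orbit `b` is infinite. -/
def Inj (b : Bool) : Prop :=
  ∀ m n, wedge (orb d.a d.c b m) (orb d.a d.c b n) = 0 → m = n

/-- A sequence of times and of finite sets of vertices, with its nonstandard model. -/
structure Seq where
  r : ℕ → ℕ
  hr : ∀ m, m ≤ r m
  κ : ℕ
  s : Fin κ → ℕ → T
  inj : ∀ m, Function.Injective fun i => s i m
  mem : ∀ i m, ∃ l, 1 ≤ l ∧ s i m ∈ d.V l
  L : Lim S (hyperfilter ℕ) fun m => 2 ^ r m
  ι : S.K0 →+* L.N.toPF.k0
  cst : L.IsCst ι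
  Z : Finset L.N.toPF.k0
  card : Z.card = κ
  mem_Z : ∀ ζ, ζ ∈ Z ↔ ∃ i, ((ζ : L.K) : UG (hyperfilter ℕ) T) = gm (hyperfilter ℕ) (s i)

open Classical in
noncomputable def Seq.A {d : Dyn S} (Q : d.Seq) (m : ℕ) : Finset T :=
  Finset.univ.image fun i => Q.s i m

end Dyn

end JR
end

-- merged part: Pool.Agent.Work.MP_969914_nt.S6Def
section
/-! Definitions for the eventual stability theorem. -/

set_option autoImplicit false

namespace JR

open Polynomial
open scoped NNReal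

section ring
variable {R : Type} [CommRing R]

/-- The two affine charts. -/
def pt (b : Bool) (x : R) : R × R := if b then (1, x) else (x, 1)

/-- The direction of the chart. -/
def dir (b : Bool) : R × R := if b then (0, 1) else (1, 0)

/-- A basis of the forms of degree `2 ^ N - 1`, indexed by `l < 2 ^ N`. -/
def Bf (a c : R) (N l : ℕ) (W : R × R) : R :=
  ∏ i ∈ Finset.range N, if l.testBit i then ((Phi a c)^[i] W).2 else ((Phi a c)^[i] W).1

/-- The curve `φ^j x = - φ^j y`. -/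
def Fs (a c : R) (j : ℕ) (W W' : R × R) : R :=
  ((Phi a c)^[j] W).1 * ((Phi a c)^[j] W').2 + ((Phi a c)^[j] W).2 * ((Phi a c)^[j] W').1

/-- The basis of bihomogeneous forms of bidegree `(2 ^ N - 1, D - 1)`. -/
def sB (a c : R) (N D l i : ℕ) (W W' : R × R) : R :=
  Bf a c N l W * (W'.1 ^ i * W'.2 ^ (D - 1 - i))

/-- The point `V + x E`; `x` is the inner variable. -/
noncomputable def W0 (V E : R × R) : R[X][X] × R[X][X] :=
  (C (C V.1 + C E.1 * X), C (C V.2 + C E.2 * X))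

/-- The point `V + (x + h) E`; `h` is the outer variable. -/
noncomputable def W1 (V E : R × R) : R[X][X] × R[X][X] :=
  (C (C V.1 + C E.1 * X) + C (C E.1) * X, C (C V.2 + C E.2 * X) + C (C E.2) * X)

noncomputable def Fp (a c : R) (j : ℕ) (V E : R × R) : R[X][X] :=
  Fs (C (C a)) (C (C c)) j (W0 V E) (W1 V E)

noncomputable def sp (a c : R) (N D l i : ℕ) (V E : R × R) : R[X][X] :=
  sB (C (C a)) (C (C c)) N D l i (W0 V E) (W1 V E)

/-- One step of division by `F` in powers of the variable. -/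
noncomputable def Top (F s : R[X]) : R[X] := divX (C (F.coeff 0) * s - C (s.coeff 0) * F)

/-- The pull-back of the tangent coordinate under the `k`-th iterate. -/
def Uf (a c a' c' : R) : ℕ → R × R → R → R
  | 0, _, u => u
  | k + 1, W, u => 2 * (a - c) * ((Phi a c)^[k] W).1 * ((Phi a c)^[k] W).2 * Uf a c a' c' k W u +
      rho a c a' c' ((Phi a c)^[k] W)

/-- The Jacobian of the `k`-th iterate in the affine coordinate. -/
noncomputable def Jp (a c : R) (k : ℕ) : R[X] :=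
  ∏ r ∈ Finset.range k, C (2 * (a - c)) * (PQ a c r).1 * (PQ a c r).2

/-- The linear form `X - l Y`. -/
def lf (l : R) (Z : R × R) : R := Z.1 - l * Z.2

variable {R' : Type} [CommRing R'] (f : R →+* R') (a c : R)

theorem map_iter' (Z : R × R) (n : ℕ) :
    (Phi (f a) (f c))^[n] (Prod.map f f Z) = Prod.map f f ((Phi a c)^[n] Z) := map_iter a c f Z n

theorem map_Bf (N l : ℕ) (W : R × R) :
    f (Bf a c N l W) = Bf (f a) (f c) N l (Prod.map f f W) := by
  simp only [Bf, map_prod, map_iter', Prod.map_fst, Prod.map_snd, apply_ite f]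

theorem map_Fs (j : ℕ) (W W' : R × R) :
    f (Fs a c j W W') = Fs (f a) (f c) j (Prod.map f f W) (Prod.map f f W') := by
  simp only [Fs, map_add, map_mul, map_iter', Prod.map_fst, Prod.map_snd]

theorem map_sB (N D l i : ℕ) (W W' : R × R) :
    f (sB a c N D l i W W') = sB (f a) (f c) N D l i (Prod.map f f W) (Prod.map f f W') := by
  simp only [sB, map_mul, map_pow, map_Bf, Prod.map_fst, Prod.map_snd]

theorem map_rho (a' c' : R) (W : R × R) :
    f (rho a c a' c' W) = rho (f a) (f c) (f a') (f c') (Prod.map f f W) := by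
  simp [rho]

theorem map_Uf (a' c' : R) (k : ℕ) (W : R × R) (u : R) :
    f (Uf a c a' c' k W u) = Uf (f a) (f c) (f a') (f c') k (Prod.map f f W) (f u) := by
  induction k with
  | zero => rfl
  | succ k ih =>
    simp only [Uf, map_add, map_mul, map_sub, ih, map_rho, map_iter', Prod.map_fst, Prod.map_snd,
      map_ofNat]

theorem map_Fp (j : ℕ) (V E : R × R) :
    (Fp a c j V E).map (mapRingHom f) = Fp (f a) (f c) j (Prod.map f f V) (Prod.map f f E) := by
  have := map_Fs (mapRingHom (mapRingHom f)) (C (C a)) (C (C c)) j (W0 V E) (W1 V E)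
  simpa [Fp, W0, W1] using this

theorem map_sp (N D l i : ℕ) (V E : R × R) :
    (sp a c N D l i V E).map (mapRingHom f) =
      sp (f a) (f c) N D l i (Prod.map f f V) (Prod.map f f E) := by
  have := map_sB (mapRingHom (mapRingHom f)) (C (C a)) (C (C c)) N D l i (W0 V E) (W1 V E)
  simpa [sp, W0, W1] using this

theorem map_pt (b : Bool) (x : R) : Prod.map f f (pt b x) = pt b (f x) := by
  cases b <;> simp [pt]

theorem map_dir (b : Bool) : Prod.map f f (dir b) = dir b := by cases b <;> simp [dir]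

theorem evalEval_Fp (j : ℕ) (b : Bool) (x h : R) :
    (Fp a c j (pt b 0) (dir b)).evalEval x h = Fs a c j (pt b x) (pt b (x + h)) := by
  have := map_Fs (evalEvalRingHom x h) (C (C a)) (C (C c)) j (W0 (pt b 0) (dir b))
    (W1 (pt b 0) (dir b))
  cases b <;> simpa [Fp, W0, W1, pt, dir, evalEval_C] using this

theorem evalEval_sp (N D l i : ℕ) (b : Bool) (x h : R) :
    (sp a c N D l i (pt b 0) (dir b)).evalEval x h = sB a c N D l i (pt b x) (pt b (x + h)) := by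
  have := map_sB (evalEvalRingHom x h) (C (C a)) (C (C c)) N D l i (W0 (pt b 0) (dir b))
    (W1 (pt b 0) (dir b))
  cases b <;> simpa [sp, W0, W1, pt, dir, evalEval_C] using this

theorem coeff_zero_Fp (j : ℕ) (b : Bool) :
    (Fp a c j (pt b 0) (dir b)).coeff 0 =
      2 * (((Phi (C a) (C c))^[j] (pt b X)).1 * ((Phi (C a) (C c))^[j] (pt b X)).2) := by
  have := map_Fs (evalRingHom (0 : R[X])) (C (C a)) (C (C c)) j (W0 (pt b 0) (dir b))
    (W1 (pt b 0) (dir b))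
  rw [coeff_zero_eq_eval_zero]
  cases b <;> simp [Fp, W0, W1, pt, dir] at this ⊢ <;> rw [this, Fs] <;> ring

theorem Bf_smul (N l : ℕ) (x : R) (W : R × R) :
    Bf a c N l (x * W.1, x * W.2) = x ^ (2 ^ N - 1) * Bf a c N l W := by
  induction N with
  | zero => simp [Bf]
  | succ N ih =>
    have h : 2 ^ (N + 1) - 1 = 2 ^ N - 1 + 2 ^ N := by have := Nat.one_le_two_pow (n := N); omega
    simp only [Bf, Finset.prod_range_succ] at ih ⊢
    rw [ih, iter_smul, h, pow_add]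
    split_ifs <;> ring

theorem Fs_smul (j : ℕ) (x y : R) (W W' : R × R) :
    Fs a c j (x * W.1, x * W.2) (y * W'.1, y * W'.2) = x ^ 2 ^ j * y ^ 2 ^ j * Fs a c j W W' := by
  simp only [Fs, iter_smul]; ring

theorem sB_smul (N : ℕ) {D i : ℕ} (hi : i < D) (l : ℕ) (x y : R) (W W' : R × R) :
    sB a c N D l i (x * W.1, x * W.2) (y * W'.1, y * W'.2) =
      x ^ (2 ^ N - 1) * y ^ (D - 1) * sB a c N D l i W W' := by
  have h : D - 1 = i + (D - 1 - i) := by omega
  simp only [sB, Bf_smul]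
  conv_rhs => rw [h, pow_add, ← h]
  ring

theorem Uf_smul (a' c' : R) (k : ℕ) (x : R) (W : R × R) (u : R) :
    Uf a c a' c' k (x * W.1, x * W.2) (x ^ 2 * u) = x ^ 2 ^ (k + 1) * Uf a c a' c' k W u := by
  induction k with
  | zero => simp [Uf]
  | succ k ih => simp only [Uf, ih, iter_smul, rho]; ring

end ring

/-- The coefficients of `G` are bounded by `B` on the polydisc of radius `ρ`. -/
def Sm {T : Type} [Field T] (v : Valuation T ℝ≥0) (ρ B : ℝ≥0) (G : T[X][X]) : Prop :=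
  ∀ i r, v ((G.coeff i).coeff r) * ρ ^ (i + r) ≤ B

/-- A polynomial with integral coefficients. -/
def Itg {T : Type} [Field T] (v : Valuation T ℝ≥0) (g : T[X]) : Prop := ∀ r, v (g.coeff r) ≤ 1

namespace Dyn
variable {p : ℕ} {k T : Type} [Field k] [Field T] [Algebra k T] {S : Std p k T} (d : Dyn S)

/-- A branch of the tree: `b n` has level `n + 1`. -/
structure Br (b : ℕ → T) : Prop where
  mem : ∀ n, b n ∈ d.V (n + 1)
  step : ∀ n, phi d.a d.c (b (n + 1)) = b n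

/-- `Z` is the normalised homogeneous lift of the vertex `z` of level `m`. -/
structure Lift (m : ℕ) (z : T) (Z : T × T) : Prop where
  iter : (Phi d.a d.c)^[m] Z = d.B
  ne : Z.2 ≠ 0
  eq : Z.1 = z * Z.2

end Dyn

/-- The mass of the places where `z` is not regular. -/
noncomputable def Std.irr {p : ℕ} {k T : Type} [Field k] [Field T] [Algebra k T] (S : Std p k T)
    (z : T) : ENNReal := S.toPF.mass {w | ¬ (w ∈ S.good ∧ z ∈ S.R w)}

/-- The zeros of `α` at the finite places. -/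
noncomputable def Std.zer {p : ℕ} {k T : Type} [Field k] [Field T] [Algebra k T] (S : Std p k T)
    (α : T) : ENNReal := S.I (Set.mulIndicator S.fin fun w => (S.v w α)⁻¹)

end JR
end

-- merged part: Pool.Agent.Work.MP_969914_nt.S6Tree
section
/-! Branches of the tree and lifts. -/

set_option autoImplicit false

namespace JR

open Polynomial IntermediateField
open scoped NNReal

namespace Dyn
variable {p : ℕ} {k T : Type} [Field k] [Field T] [Algebra k T] {S : Std p k T} {d : Dyn S}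
  {b : ℕ → T}

theorem s6tree_prop {P B : T × T} (hP : P ≠ 0) (hB : B ≠ 0) (h : wedge P B = 0) :
    ∃ l : T, l ≠ 0 ∧ (l * P.1, l * P.2) = B := by
  have key : ∃ l : T, (l * P.1, l * P.2) = B := by
    unfold wedge at h
    by_cases h1 : P.1 = 0
    · have h2 : P.2 ≠ 0 := fun h2 => hP (Prod.ext h1 h2)
      refine ⟨B.2 / P.2, Prod.ext ?_ (div_mul_cancel₀ _ h2)⟩
      simp only
      field_simp
      linear_combination h
    · refine ⟨B.1 / P.1, Prod.ext (div_mul_cancel₀ _ h1) ?_⟩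
      simp only
      field_simp
      linear_combination -h
  obtain ⟨l, hl⟩ := key
  refine ⟨l, ?_, hl⟩
  rintro rfl
  exact hB (by rw [← hl]; simp)

theorem s6tree_root (S : Std p k T) (l : T) (m : ℕ) : ∃ κ : T, κ ^ 2 ^ m = l := by
  induction m with
  | zero => exact ⟨l, by simp⟩
  | succ m ih =>
    obtain ⟨κ, hκ⟩ := ih
    obtain ⟨β, hβ⟩ := S.sqrt κ
    exact ⟨β, by rw [pow_succ', pow_mul, hβ, hκ]⟩

theorem exists_lift {m : ℕ} {z : T} (hz : z ∈ d.V m) : ∃ Z, d.Lift m z Z := by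
  obtain ⟨l, hl0, hl⟩ :=
    s6tree_prop (iter_ne_zero d.hypH.ne (Z := (z, 1)) (by simp) m) d.B_ne_zero hz
  obtain ⟨κ, rfl⟩ := s6tree_root S l m
  refine ⟨(κ * z, κ * 1), (iter_smul d.a d.c κ (z, 1) m).trans hl, ?_, by ring⟩
  rw [mul_one]
  rintro rfl
  exact hl0 (zero_pow (by positivity))

theorem Lift.mem {m : ℕ} {z : T} {Z : T × T} (h : d.Lift m z Z) : z ∈ d.V m := by
  have h1 : Z = (Z.2 * z, Z.2 * 1) := Prod.ext (by rw [h.eq, mul_comm]) (mul_one _).symm
  have h2 := iter_smul d.a d.c Z.2 (z, 1) m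
  rw [← h1, h.iter] at h2
  change wedge ((Phi d.a d.c)^[m] (z, 1)) d.B = 0
  rw [h2]
  simp only [wedge]
  ring

theorem Lift.phi {m : ℕ} {z : T} {Z : T × T} (h : d.Lift (m + 2) z Z) :
    d.Lift (m + 1) (phi d.a d.c z) (Phi d.a d.c Z) := by
  have h1 := (d.V_succ h.mem).1
  have h2 : (Phi d.a d.c Z).2 = Z.2 ^ 2 * (d.c * z ^ 2 + 1) := by
    simp only [Phi, h.eq]
    ring
  refine ⟨h.iter, ?_, ?_⟩
  · rw [h2]
    exact mul_ne_zero (pow_ne_zero 2 h.ne) h1
  · rw [h2, JR.phi, mul_comm (Z.2 ^ 2), ← mul_assoc, div_mul_cancel₀ _ h1]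
    simp only [Phi, h.eq]
    ring

theorem Lift.iterate {m j : ℕ} {z : T} {Z : T × T} (h : d.Lift (m + 1 + j) z Z) :
    d.Lift (m + 1) ((JR.phi d.a d.c)^[j] z) ((Phi d.a d.c)^[j] Z) := by
  induction j generalizing z Z with
  | zero => exact h
  | succ j ih =>
    rw [show m + 1 + (j + 1) = m + j + 2 by ring] at h
    have h1 := h.phi
    rw [show m + j + 1 = m + 1 + j by ring] at h1
    exact ih h1

theorem Lift.norm {m : ℕ} {z : T} {Z : T × T} (h : d.Lift m z Z) {w : S.W} (hw : w ∈ S.fin) :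
    max (S.v w Z.1) (S.v w Z.2) = 1 := by
  have h1 := d.norm_iter hw Z m
  rw [h.iter, d.norm_B hw] at h1
  exact (pow_eq_one_iff_of_nonneg (by positivity) (by positivity)).1 h1.symm

theorem lift_bound (d : Dyn S) : ∃ C : ℕ, ∀ (m : ℕ) (Z : T × T), (Phi d.a d.c)^[m] Z = d.B →
    ∀ i ≤ m, ∀ w ∉ S.fin,
      max (S.v w ((Phi d.a d.c)^[i] Z).1) (S.v w ((Phi d.a d.c)^[i] Z).2) ≤ S.q ^ C := by
  obtain ⟨C0, hC0⟩ := d.exists_inf_const
  obtain ⟨C1, hC1⟩ := S.inf_bound d.B.1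
  have hq : 1 ≤ S.q := S.one_lt_q.le
  have key : ∀ (m : ℕ) (Z : T × T), (Phi d.a d.c)^[m] Z = d.B → ∀ w ∉ S.fin,
      max (S.v w Z.1) (S.v w Z.2) ≤ S.q ^ (C0 + C1) := by
    intro m
    induction m with
    | zero =>
      intro Z hZ w hw
      obtain rfl : Z = d.B := hZ
      refine max_le ((hC1 w hw).trans (pow_le_pow_right₀ hq (by omega))) ?_
      rcases d.B_form with h | h
      · rw [h, map_one]
        exact one_le_pow₀ hq
      · rw [h]
        simp
    | succ m ih =>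
      intro Z hZ w hw
      have h1 := ih (Phi d.a d.c Z) hZ w hw
      refine (pow_le_pow_iff_left₀ (by positivity) (by positivity) two_ne_zero).1 ?_
      calc _ ≤ _ := (hC0 w hw Z).2
        _ ≤ S.q ^ (C0 + C1) * S.q ^ (C0 + C1) :=
          mul_le_mul' (pow_le_pow_right₀ hq (by omega)) h1
        _ = _ := (sq _).symm
  refine ⟨C0 + C1, fun m Z hZ i hi => key (m - i) _ ?_⟩
  rw [← Function.iterate_add_apply, Nat.sub_add_cancel hi, hZ]

theorem s6tree_step (hb : d.Br b) (n : ℕ) (Z : T × T) (h : d.Lift (n + 1) (b n) Z) :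
    ∃ Z', d.Lift (n + 1 + 1) (b (n + 1)) Z' ∧ Phi d.a d.c Z' = Z := by
  have h1 := (d.V_succ (hb.mem (n + 1))).1
  obtain ⟨κ, hκ⟩ := S.sqrt (Z.2 / (d.c * b (n + 1) ^ 2 + 1))
  rw [eq_div_iff h1] at hκ
  have h2 : Phi d.a d.c (b (n + 1) * κ, κ) = Z := by
    refine Prod.ext ?_ ?_
    · rw [h.eq, ← hb.step n, ← hκ, JR.phi, mul_comm (κ ^ 2), ← mul_assoc, div_mul_cancel₀ _ h1]
      simp only [Phi]
      ring
    · rw [← hκ]
      simp only [Phi]
      ring
  refine ⟨(b (n + 1) * κ, κ), ⟨?_, ?_, rfl⟩, h2⟩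
  · rw [Function.iterate_succ_apply, h2, h.iter]
  · rintro (rfl : κ = 0)
    exact h.ne (by rw [← hκ]; ring)

theorem Br.exists_lifts (hb : d.Br b) :
    ∃ Z : ℕ → T × T, (∀ n, d.Lift (n + 1) (b n) (Z n)) ∧ ∀ n, Phi d.a d.c (Z (n + 1)) = Z n := by
  choose f hf hf' using s6tree_step hb
  obtain ⟨Z0, hZ0⟩ := exists_lift (hb.mem 0)
  let Z : ∀ n : ℕ, {Z : T × T // d.Lift (n + 1) (b n) Z} := fun n =>
    Nat.rec (motive := fun n => {Z : T × T // d.Lift (n + 1) (b n) Z}) ⟨Z0, hZ0⟩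
      (fun n W => ⟨f n W.1 W.2, hf n W.1 W.2⟩) n
  exact ⟨fun n => (Z n).1, fun n => (Z n).2, fun n => hf' n (Z n).1 (Z n).2⟩

theorem Br.iter (hb : d.Br b) (n j : ℕ) : (JR.phi d.a d.c)^[j] (b (n + j)) = b n := by
  induction j with
  | zero => rfl
  | succ j ih => rw [Function.iterate_succ_apply, ← add_assoc, hb.step, ih]

theorem Br.injective (hb : d.Br b) : Function.Injective b := by
  intro m n h
  have := d.V_disjoint (hb.mem m) (h ▸ hb.mem n)
  omega

/-- `u = b (n+1) (c b n - a)` is the square root of `dl (b n)`. -/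
theorem Br.sq (hb : d.Br b) (n : ℕ) :
    (b (n + 1) * (d.c * b n - d.a)) ^ 2 = dl d.a d.c (b n) ∧ d.c * b n - d.a ≠ 0 := by
  exact ⟨(d.phi_eq_iff (hb.mem n) (b (n + 1))).1 ⟨(d.V_succ (hb.mem (n + 1))).1, hb.step n⟩,
    (d.dl_ne_zero (hb.mem n)).2⟩

theorem Br.mem_of_succ (hb : d.Br b) (L : Subfield T) (hL : ∀ z ∈ S.K0, z ∈ L) {n j : ℕ}
    (h : b (n + j) ∈ L) : b n ∈ L := by
  induction j with
  | zero => exact h
  | succ j ih =>
    refine ih ?_
    rw [← hb.step (n + j)]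
    have h1 : b (n + j + 1) ^ 2 ∈ L := pow_mem h 2
    exact div_mem (add_mem (mul_mem (hL _ d.a_mem) h1) (one_mem L))
      (add_mem (mul_mem (hL _ d.c_mem) h1) (one_mem L))

theorem Br.sq_mem (hb : d.Br b) (L : Subfield T) (hL : ∀ z ∈ S.K0, z ∈ L) {n : ℕ}
    (h : b n ∈ L) : b (n + 1) ^ 2 ∈ L := by
  obtain ⟨h1, h2⟩ := hb.sq n
  have h3 : d.c * b n - d.a ∈ L := sub_mem (mul_mem (hL _ d.c_mem) h) (hL _ d.a_mem)
  rw [mul_pow, ← eq_div_iff (pow_ne_zero 2 h2)] at h1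
  rw [h1]
  exact div_mem (mul_mem (sub_mem (one_mem L) h) h3) (pow_mem h3 2)

end Dyn

end JR
end

-- merged part: Pool.Agent.Work.MP_969914_nt.S6Con
section
/-! Contact between conjugates at a ramified place. -/

set_option autoImplicit false

namespace JR

open Polynomial IntermediateField
open scoped NNReal ENNReal

namespace Std
variable {p : ℕ} {k T : Type} [Field k] [Field T] [Algebra k T] (S : Std p k T)

/-- The mass of the good places where `x` is regular and `y` is not. -/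
noncomputable def ram (x y : T) : ℝ≥0∞ := S.toPF.mass {w | w ∈ S.good ∧ x ∈ S.R w ∧ y ∉ S.R w}

/-- The conjugates over `R w` of an integral element are close to each other. -/
theorem contact {w : S.W} (hw : w ∈ S.good) {z : T} (hz : S.v w z ≤ 1) (hn : z ∉ S.R w)
    (hv : ∀ σ : T ≃ₐ[S.K0] T, (∀ y ∈ S.R w, σ y = y) → ∀ c : k,
      S.v w (σ (z - algebraMap k T c)) = S.v w (z - algebraMap k T c))
    (O : Finset T) (hO : ∀ y, y ∈ O ↔ ∃ σ : T ≃ₐ[S.K0] T, (∀ y ∈ S.R w, σ y = y) ∧ σ z = y) :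
    ∃ ε : ℝ≥0, ε ^ O.card ≤ S.q⁻¹ ∧ ∀ y ∈ O, S.v w (z - y) ≤ ε := by
  obtain ⟨c, hc⟩ := S.residue w z hz
  have hk : ∀ σ : T ≃ₐ[S.K0] T, σ (algebraMap k T c) = algebraMap k T c := fun σ =>
    σ.commutes ⟨_, S.K0.algebraMap_mem c⟩
  have h1 : ∀ y ∈ O, S.v w (y - algebraMap k T c) = S.v w (z - algebraMap k T c) := by
    intro y hy
    obtain ⟨σ, hσ, rfl⟩ := (hO y).1 hy
    rw [← hv σ hσ c, map_sub σ, hk]
  have hm : ∀ τ : T ≃ₐ[S.K0] T, (∀ y ∈ S.R w, τ y = y) → ∀ y ∈ O, τ y ∈ O := by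
    intro τ hτ y hy
    obtain ⟨σ, hσ, rfl⟩ := (hO y).1 hy
    exact (hO _).2 ⟨σ.trans τ, fun x hx => by rw [AlgEquiv.trans_apply, hσ x hx, hτ x hx], rfl⟩
  have h2 : ∏ y ∈ O, (y - algebraMap k T c) ∈ S.R w := by
    refine S.mem_of_fixed _ (S.K0_le w hw) fun τ hτ => ?_
    rw [map_prod]
    refine Finset.prod_nbij (fun y => τ y) (hm τ hτ) τ.injective.injOn (fun y hy => ?_)
      fun y _ => by rw [map_sub, hk]
    exact ⟨τ.symm y, hm τ.symm (fun x hx => by rw [AlgEquiv.symm_apply_eq, hτ x hx]) y hy,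
      τ.apply_symm_apply y⟩
  have h3 : S.v w (∏ y ∈ O, (y - algebraMap k T c)) = S.v w (z - algebraMap k T c) ^ O.card := by
    rw [map_prod, Finset.prod_congr rfl h1, Finset.prod_const]
  have h4 : O.card ≠ 0 :=
    Finset.card_ne_zero_of_mem ((hO z).2 ⟨AlgEquiv.refl, fun _ _ => rfl, rfl⟩)
  refine ⟨S.v w (z - algebraMap k T c), ?_, fun y hy => ?_⟩
  · rw [← h3]
    exact S.disc w hw _ h2 (by rw [h3]; exact pow_lt_one₀ zero_le hc h4)
  · rw [← sub_sub_sub_cancel_right z y (algebraMap k T c)]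
    exact (S.v w).map_sub_le le_rfl (h1 y hy).le

end Std

namespace Dyn
variable {p : ℕ} {k T : Type} [Field k] [Field T] [Algebra k T] {S : Std p k T} {d : Dyn S}
  {b : ℕ → T}

theorem s6con_aut (σ : T ≃ₐ[S.K0] T) (j : ℕ) (z : T) :
    σ ((phi d.a d.c)^[j] z) = (phi d.a d.c)^[j] (σ z) := by
  induction j with
  | zero => rfl
  | succ j ih => rw [Function.iterate_succ_apply', Function.iterate_succ_apply', d.aut_phi, ih]

theorem s6con_le {m : ℕ} {z : T} {Z : T × T} (h : d.Lift m z Z) {w : S.W} (hw : w ∈ S.good) :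
    S.v w Z.1 ≤ 1 ∧ S.v w Z.2 ≤ 1 :=
  max_le_iff.1 (h.norm (S.good_fin hw)).le

/-- Chordal form of the contact between conjugates. -/
theorem s6con_chord {m : ℕ} {z : T} {w : S.W} (hw : w ∈ S.good) (hn : z ∉ S.R w)
    {L : Subfield T} (hL : S.R w ≤ L) (hzL : z ∈ L)
    (hv : ∀ σ : T ≃ₐ[S.K0] T, (∀ z ∈ S.R w, σ z = z) → ∀ y ∈ L, S.v w (σ y) = S.v w y)
    (O : Finset T) (hO : ∀ y, y ∈ O ↔ ∃ σ : T ≃ₐ[S.K0] T, (∀ y ∈ S.R w, σ y = y) ∧ σ z = y)
    {Z : T × T} (hZ : d.Lift (m + 1) z Z) :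
    ∃ ε : ℝ≥0, ε ^ O.card ≤ S.q⁻¹ ∧
      ∀ y ∈ O, ∀ W, d.Lift (m + 1) y W → S.v w (wedge Z W) ≤ ε := by
  classical
  have hk : ∀ c : k, algebraMap k T c ∈ L := fun c =>
    hL (S.K0_le w hw _ (S.K0.algebraMap_mem c))
  rcases le_total (S.v w z) 1 with h | h
  · obtain ⟨ε, h1, h2⟩ := S.contact hw h hn (fun σ hσ c => hv σ hσ _ (sub_mem hzL (hk c))) O hO
    refine ⟨ε, h1, fun y hy W hW => ?_⟩
    have e : wedge Z W = Z.2 * W.2 * (z - y) := by rw [wedge, hZ.eq, hW.eq]; ring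
    rw [e, map_mul, map_mul]
    exact (mul_le_of_le_one_left' (mul_le_one' (s6con_le hZ hw).2 (s6con_le hW hw).2)).trans
      (h2 y hy)
  · obtain ⟨ε, h1, h2⟩ := S.contact hw (z := z⁻¹) (by rw [map_inv₀]; exact inv_le_one_of_one_le₀ h)
      (fun h => hn (by simpa using inv_mem h))
      (fun σ hσ c => hv σ hσ _ (sub_mem (inv_mem hzL) (hk c))) (O.image fun y => y⁻¹) fun y => by
        rw [Finset.mem_image]
        constructor
        · rintro ⟨x, hx, rfl⟩
          obtain ⟨σ, hσ, rfl⟩ := (hO x).1 hx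
          exact ⟨σ, hσ, map_inv₀ σ z⟩
        · rintro ⟨σ, hσ, rfl⟩
          exact ⟨σ z, (hO _).2 ⟨σ, hσ, rfl⟩, (map_inv₀ σ z).symm⟩
    rw [Finset.card_image_of_injective _ inv_injective] at h1
    refine ⟨ε, h1, fun y hy W hW => ?_⟩
    have hz0 := d.ne_zero_of_mem_V hZ.mem
    have hy0 := d.ne_zero_of_mem_V hW.mem
    have e : wedge Z W = -(Z.1 * W.1 * (z⁻¹ - y⁻¹)) := by
      rw [wedge, hZ.eq, hW.eq]
      field_simp
      ring
    rw [e, Valuation.map_neg, map_mul, map_mul]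
    exact (mul_le_of_le_one_left' (mul_le_one' (s6con_le hZ hw).1 (s6con_le hW hw).1)).trans
      (h2 _ (Finset.mem_image_of_mem _ hy))

theorem Br.contact (hb : d.Br b) {r j : ℕ} {w : S.W} (hw : w ∈ S.good) (h1 : b r ∈ S.R w)
    (h2 : b (r + 1) ∉ S.R w) (A : Finset T)
    (hA : ∀ σ : T ≃ₐ[S.K0] T, σ (b (r + 1)) = -b (r + 1) → σ (b (r + 1 + j)) ∈ A) {Z : T × T}
    (hZ : d.Lift (r + 2 + j) (b (r + 1 + j)) Z) {Y : T → T × T}
    (hY : ∀ z ∈ A, d.Lift (r + 2 + j) z (Y z)) :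
    ∏ z ∈ A, S.v w (wedge Z (Y z)) ^ 2 ≤ S.q⁻¹ := by
  classical
  obtain ⟨L, hL, hsq, hv⟩ := S.exists_tower d.hypH.two hw
  have hbL : ∀ i, b (r + i) ∈ L := fun i => by
    induction i with
    | zero => exact hL h1
    | succ i ih => exact hsq _ (hb.sq_mem L (fun z hz => hL (S.K0_le w hw z hz)) ih)
  have hzL : b (r + 1 + j) ∈ L := by rw [add_assoc]; exact hbL _
  have hsR := hb.sq_mem (S.R w) (S.K0_le w hw) h1
  obtain ⟨σ0, hσ0, hneg⟩ := S.exists_aut_neg d.hypH.two (S.R w) (S.K0_le w hw) h2 hsR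
  obtain ⟨O, hO⟩ : ∃ O : Finset T, ∀ y, y ∈ O ↔
      ∃ σ : T ≃ₐ[S.K0] T, (∀ y ∈ S.R w, σ y = y) ∧ σ (b (r + 1 + j)) = y := by
    have hf : {y | ∃ σ : T ≃ₐ[S.K0] T, (∀ y ∈ S.R w, σ y = y) ∧ σ (b (r + 1 + j)) = y}.Finite :=
      (d.V_finite _).subset (by rintro _ ⟨σ, -, rfl⟩; exact d.aut_mem_V σ hZ.mem)
    exact ⟨hf.toFinset, fun y => hf.mem_toFinset⟩
  have e : r + 2 + j = r + 1 + j + 1 := by omega
  rw [e] at hZ hY
  obtain ⟨ε, hε, hle⟩ := s6con_chord hw (fun h => h2 (hb.mem_of_succ _ (S.K0_le w hw) h)) hL hzL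
    hv O hO hZ
  have hit : ∀ σ : T ≃ₐ[S.K0] T, (JR.phi d.a d.c)^[j] (σ (b (r + 1 + j))) = σ (b (r + 1)) :=
    fun σ => by rw [← s6con_aut, hb.iter]
  have hsub : O.filter (fun y => (JR.phi d.a d.c)^[j] y = -b (r + 1)) ⊆ A := by
    intro y hy
    obtain ⟨hy, hy'⟩ := Finset.mem_filter.1 hy
    obtain ⟨σ, -, rfl⟩ := (hO y).1 hy
    exact hA σ (by rw [← hit, hy'])
  have hcard : O.card ≤ (O.filter fun y => (JR.phi d.a d.c)^[j] y = -b (r + 1)).card * 2 := by
    have h3 := Finset.card_filter_add_card_filter_not (s := O)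
      fun y => (JR.phi d.a d.c)^[j] y = -b (r + 1)
    have h4 : (O.filter fun y => ¬ (JR.phi d.a d.c)^[j] y = -b (r + 1)).card ≤
        (O.filter fun y => (JR.phi d.a d.c)^[j] y = -b (r + 1)).card := by
      refine Finset.card_le_card_of_injOn (fun y => σ0 y) (fun y hy => ?_) σ0.injective.injOn
      obtain ⟨hy, hy'⟩ := Finset.mem_filter.1 hy
      obtain ⟨σ, hσ, rfl⟩ := (hO y).1 hy
      refine Finset.mem_filter.2 ⟨(hO _).2 ⟨σ.trans σ0,
        fun x hx => by rw [AlgEquiv.trans_apply, hσ x hx, hσ0 x hx], rfl⟩, ?_⟩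
      have h5 : σ (b (r + 1)) ^ 2 = b (r + 1) ^ 2 := by rw [← map_pow, hσ _ hsR]
      rw [hit] at hy'
      rw [← s6con_aut, hit, (sq_eq_sq_iff_eq_or_eq_neg.1 h5).resolve_right hy', hneg]
    omega
  have hε1 : ε ≤ 1 := by
    by_contra h
    exact absurd ((one_le_pow₀ (not_le.1 h).le).trans hε)
      (not_le.2 (inv_lt_one_of_one_lt₀ S.one_lt_q))
  have hone : ∀ y ∈ A, S.v w (wedge Z (Y y)) ^ 2 ≤ 1 := fun y hy => by
    refine pow_le_one₀ zero_le ((S.v w).map_sub_le ?_ ?_) <;> rw [map_mul]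
    · exact mul_le_one' (s6con_le hZ hw).1 (s6con_le (hY y hy) hw).2
    · exact mul_le_one' (s6con_le hZ hw).2 (s6con_le (hY y hy) hw).1
  calc ∏ z ∈ A, S.v w (wedge Z (Y z)) ^ 2
      ≤ ∏ z ∈ O.filter (fun y => (JR.phi d.a d.c)^[j] y = -b (r + 1)),
          S.v w (wedge Z (Y z)) ^ 2 :=
        Finset.prod_le_prod_of_subset_of_le_one' hsub fun y hy _ => hone y hy
    _ ≤ (ε ^ 2) ^ (O.filter fun y => (JR.phi d.a d.c)^[j] y = -b (r + 1)).card :=
        Finset.prod_le_pow_card _ _ _ fun y hy => pow_le_pow_left₀ zero_le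
          (hle y (Finset.mem_filter.1 hy).1 _ (hY y (hsub hy))) 2
    _ ≤ ε ^ O.card := by
        rw [← pow_mul, mul_comm]
        exact pow_le_pow_of_le_one zero_le hε1 hcard
    _ ≤ S.q⁻¹ := hε

end Dyn

end JR
end

-- merged part: Pool.Agent.Work.MP_969914_nt.S6Sq
section
/-! A simple zero of a pull-back. -/

set_option autoImplicit false

namespace JR

open Polynomial

variable {L : Type} [Field L] {a c : L}

theorem s6sq_step {Ω : Type} [Field Ω] (hs : ∀ α : Ω, ∃ β, β ^ 2 = α) (h2 : (2 : Ω) ≠ 0)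
    {a c s : Ω} (h3 : a ≠ c) (h4 : a + c ≠ 0) (h5 : s ≠ 1) (h6 : c * s ≠ a) :
    ∃ r, r ≠ 0 ∧ r ≠ 1 ∧ c * r ≠ a ∧ r ^ 2 * (c * s - a) = 1 - s := by
  obtain ⟨r, hr⟩ := hs ((1 - s) / (c * s - a))
  rw [eq_div_iff (sub_ne_zero.2 h6)] at hr
  have h0 : r ≠ 0 := fun e => h5 (by rw [e] at hr; linear_combination hr)
  by_contra! h7
  have h8 := h7 (-r) (neg_ne_zero.2 h0)
  have h9 := h7 r h0
  rw [neg_sq] at h8
  by_cases e1 : r = 1
  · refine h8 (fun e => h2 ?_) (fun e => h4 ?_) hr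
    · linear_combination -e - e1
    · linear_combination -e - c * e1
  · have e2 : c * r = a := by
      by_contra e
      exact h9 e1 e hr
    refine h8 (fun e => h4 ?_) (fun e => h3 ?_) hr
    · linear_combination -e2 - c * e
    · have e3 : a = 0 := (mul_eq_zero.1 (show 2 * a = 0 by
        linear_combination -e - e2)).resolve_left h2
      rw [e3] at e2 ⊢
      exact ((mul_eq_zero.1 e2).resolve_right h0).symm

theorem s6sq_pt {Ω : Type} [Field Ω] [Algebra L Ω] (hs : ∀ α : Ω, ∃ β, β ^ 2 = α)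
    (h2 : (2 : L) ≠ 0) (h3 : a ≠ c) (h4 : a + c ≠ 0) (j : ℕ) : ∀ s : Ω, s ≠ 1 →
      algebraMap L Ω c * s ≠ algebraMap L Ω a → ∃ x : Ω, aeval x (PQ a c j).2 ≠ 0 ∧
        aeval x (PQ a c j).1 = s * aeval x (PQ a c j).2 ∧
        aeval x (Wr (PQ a c j).1 (PQ a c j).2) ≠ 0 := by
  have inj := (algebraMap L Ω).injective
  induction j with
  | zero => exact fun s _ _ => ⟨s, by simp [PQ], by simp [PQ], by simp [Wr_zero]⟩
  | succ j ih =>
    intro s h5 h6
    obtain ⟨r, r0, r1, r2, r3⟩ := s6sq_step hs ((rdyn_two (algebraMap L Ω)).2 h2) (inj.ne h3)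
      (by rw [← map_add]; exact (map_ne_zero_iff _ inj).2 h4) h5 h6
    obtain ⟨x, b1, b2, b3⟩ := ih r r1 r2
    refine ⟨x, fun e => ?_, ?_, ?_⟩
    · simp only [PQ_succ, Phi, map_add, map_mul, map_pow, aeval_C, b2] at e
      refine mul_ne_zero (sub_ne_zero.2 (inj.ne h3)) (pow_ne_zero 2 b1) ?_
      linear_combination -(algebraMap L Ω c * s - algebraMap L Ω a) * e +
        algebraMap L Ω c * aeval x (PQ a c j).2 ^ 2 * r3
    · simp only [PQ_succ, Phi, map_add, map_mul, map_pow, aeval_C, b2]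
      linear_combination -aeval x (PQ a c j).2 ^ 2 * r3
    · rw [Wr_succ, map_mul, map_mul, map_mul, aeval_C, b2]
      exact mul_ne_zero (mul_ne_zero (mul_ne_zero ((map_ne_zero_iff _ inj).2
        (mul_ne_zero h2 (sub_ne_zero.2 h3))) (mul_ne_zero r0 b1)) b1) b3

/-- The product of the pull-backs of `- x (i+1)` and `- y (i+1)` is not a square. -/
theorem not_sq_pull (h : HypH a c)
    (col : ∀ n, 1 ≤ n → wedge (orb a c false n) (orb a c true n) ≠ 0) (i j : ℕ) (hj : 1 ≤ j)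
    {e : L} (he : e ≠ 0) (r : FractionRing L[X]) :
    r ^ 2 ≠ algebraMap L[X] (FractionRing L[X]) (C e *
      ((C (orb a c false (i + 1)).1 * (PQ a c j).2 + C (orb a c false (i + 1)).2 * (PQ a c j).1) *
      (C (orb a c true (i + 1)).1 * (PQ a c j).2 + C (orb a c true (i + 1)).2 * (PQ a c j).1))) := by
  intro hr
  have _ := hj
  have hi : IsIntegral L[X] r :=
    IsIntegral.of_pow (n := 2) (by norm_num) (hr ▸ isIntegral_algebraMap)
  obtain ⟨q, rfl⟩ := IsIntegrallyClosed.isIntegral_iff.1 hi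
  rw [← map_pow] at hr
  have h1 := IsFractionRing.injective L[X] (FractionRing L[X]) hr
  have h2 := col (i + 1) (by omega)
  obtain ⟨-, h3, -⟩ := h.orb_ne i
  have h4 : (orb a c false (i + 1)).1 + (orb a c false (i + 1)).2 ≠ 0 := fun e => by
    have e1 := h.inj (i + 1 + 1) (0 + 1 + 1) (by
      rw [orb_succ, orb_succ a c false (0 + 1), wedge_Phi]
      simp [orb, Phi, crit] at e ⊢
      exact Or.inr e)
    obtain rfl : i = 0 := by omega
    exact h.two (by simpa [orb, Phi, crit, one_add_one_eq_two] using e)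
  have h5 : (orb a c false (i + 1)).1 * c + (orb a c false (i + 1)).2 * a ≠ 0 := fun e =>
    h.sep (i + 1 + 1) (by omega) (by
      rw [orb_succ, orb_succ a c true 1, wedge_Phi]
      simp [orb, Phi, crit] at e ⊢
      exact Or.inr e)
  have h6 : a + c ≠ 0 := fun e => h.sep 2 le_rfl (by
    obtain rfl := eq_neg_of_add_eq_zero_left e
    simp only [orb, Phi, crit, wedge, Function.iterate_succ, Function.iterate_zero,
      Function.comp, id, if_true, Bool.false_eq_true, if_false]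
    ring)
  rw [wedge] at h2
  generalize orb a c false (i + 1) = U at *
  generalize orb a c true (i + 1) = V at *
  have inj := (algebraMap L (AlgebraicClosure L)).injective
  have h7 := (map_ne_zero_iff _ inj).2 h3
  obtain ⟨x, b1, b2, b3⟩ := s6sq_pt (Ω := AlgebraicClosure L)
    (fun α => IsAlgClosed.exists_pow_nat_eq α two_pos) h.two h.ne h6 j
    (algebraMap L _ (-U.1 / U.2))
    ((map_ne_one_iff _ inj).2 fun e => h4 (by
      rw [div_eq_one_iff_eq h3] at e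
      linear_combination -e))
    (by
      rw [← map_mul]
      refine inj.ne fun e => h5 ?_
      rw [← e]
      field_simp
      ring)
  rw [map_div₀, map_neg] at b2
  have c1 := congrArg (aeval x) h1
  have c2 := congrArg (fun g => aeval x (derivative g)) h1
  have c3 := (map_ne_zero_iff _ inj).2 h2
  simp only [Wr, map_sub, map_mul, map_add, map_pow, aeval_C, derivative_mul, derivative_pow,
    derivative_C, zero_mul, zero_add, b2] at b3 c1 c2 c3
  have c4 : algebraMap L _ U.1 * aeval x (PQ a c j).2 + algebraMap L _ U.2 *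
      (-algebraMap L _ U.1 / algebraMap L (AlgebraicClosure L) U.2 * aeval x (PQ a c j).2) = 0 := by
    field_simp
    ring
  rw [c4, zero_mul, mul_zero, pow_eq_zero_iff two_ne_zero] at c1
  rw [c4, c1, zero_mul, add_zero, zero_pow (by norm_num), mul_zero, zero_mul] at c2
  refine mul_ne_zero ((map_ne_zero_iff _ inj).2 he) (mul_ne_zero (fun e => b3 ?_) fun e => c3 ?_)
    c2.symm
  · field_simp
    linear_combination aeval x (PQ a c j).2 * e
  · field_simp at e
    rw [mul_zero, mul_eq_zero] at e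
    linear_combination -e.resolve_left b1

end JR
end

-- merged part: Pool.Agent.Work.MP_969914_nt.S6Irr
section
/-! Irreducibility of the curve `φ^j x = - φ^j y`. -/

set_option autoImplicit false

namespace JR

open Polynomial

variable {L : Type} [Field L] {a c : L}

open IntermediateField in
theorem s6irr_mob {K : Type} [Field K] {G H : K[X]} (hG : Irreducible G)
    (hd : H.natDegree = G.natDegree)
    (key : ∀ t : AlgebraicClosure K, aeval t H = 0 → ∃ β ∈ K⟮t⟯, aeval β G = 0) :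
    Irreducible H := by
  have h0 : H.natDegree ≠ 0 := by rw [hd]; exact hG.natDegree_pos.ne'
  have hH : H ≠ 0 := fun e => h0 (by rw [e, natDegree_zero])
  obtain ⟨t, ht⟩ := IsAlgClosed.exists_aeval_eq_zero (AlgebraicClosure K) H
    (natDegree_pos_iff_degree_pos.1 (Nat.pos_of_ne_zero h0)).ne'
  obtain ⟨β, hβ, hz⟩ := key t ht
  have it : IsIntegral K t := Algebra.IsIntegral.isIntegral t
  have iβ : IsIntegral K β := Algebra.IsIntegral.isIntegral β
  have : FiniteDimensional K K⟮t⟯ := adjoin.finiteDimensional it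
  have h1 : Module.finrank K K⟮β⟯ ≤ Module.finrank K K⟮t⟯ :=
    finrank_le_of_le_right (adjoin_simple_le_iff.2 hβ)
  rw [adjoin.finrank it, adjoin.finrank iβ, ← minpoly.eq_of_irreducible hG hz,
    natDegree_mul_leadingCoeff_self_inv, ← hd] at h1
  exact (associated_of_dvd_of_natDegree_le (minpoly.dvd K t ht) hH h1).irreducible
    (minpoly.irreducible it)

open IntermediateField in
theorem s6irr_sq {K : Type} [Field K] {H : K[X]} (hH : Irreducible H)
    (h : ∀ r : K, r ^ 2 ≠ H.eval 0 * H.leadingCoeff ∧ r ^ 2 ≠ -(H.eval 0 * H.leadingCoeff)) :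
    Irreducible (H.comp (X ^ 2)) := by
  have hl : H.leadingCoeff ≠ 0 := leadingCoeff_ne_zero.2 hH.ne_zero
  have hu : IsUnit (C H.leadingCoeff⁻¹ : K[X]) := isUnit_C.2 (inv_ne_zero hl).isUnit
  have h3 : Irreducible (H * C H.leadingCoeff⁻¹) := (irreducible_mul_isUnit hu).2 hH
  rw [← irreducible_mul_isUnit hu, ← C_comp (p := X ^ 2), ← mul_comp]
  refine irreducible_comp (monic_mul_leadingCoeff_inv hH.ne_zero) (monic_X_pow 2) h3
    fun E _ _ x hx => ?_
  have hi : IsIntegral K x := not_not.mp fun h' => h3.ne_zero (hx.symm.trans (dif_neg h'))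
  rw [Polynomial.map_pow, map_X]
  refine X_pow_sub_C_irreducible_of_prime Nat.prime_two fun b hb => ?_
  have e2 := congrArg (Algebra.norm K) hb
  rw [map_pow, ← adjoin.powerBasis_gen hi, Algebra.PowerBasis.norm_gen_eq_coeff_zero_minpoly,
    adjoin.powerBasis_gen, minpoly_gen, hx, coeff_zero_eq_eval_zero, eval_mul, eval_C] at e2
  rcases neg_one_pow_eq_or K (adjoin.powerBasis hi).dim with h4 | h4 <;> rw [h4] at e2
  · exact (h (H.leadingCoeff * Algebra.norm K b)).1 (by rw [mul_pow, e2]; field_simp)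
  · exact (h (H.leadingCoeff * Algebra.norm K b)).2 (by rw [mul_pow, e2]; field_simp)

theorem s6irr_deg {K : Type} [Field K] (a c : K) (U : K × K) (i : ℕ)
    (h0 : wedge (orb a c true i) U ≠ 0) :
    (C U.2 * (PQ a c i).1 - C U.1 * (PQ a c i).2).natDegree = 2 ^ i ∧
      (C U.2 * (PQ a c i).1 - C U.1 * (PQ a c i).2).leadingCoeff = wedge (orb a c true i) U := by
  have e : (C U.2 * (PQ a c i).1 - C U.1 * (PQ a c i).2).coeff (2 ^ i) =
      wedge (orb a c true i) U := by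
    rw [← coeff_PQ, coeff_sub, coeff_C_mul, coeff_C_mul, wedge]; ring
  have hd : (C U.2 * (PQ a c i).1 - C U.1 * (PQ a c i).2).natDegree = 2 ^ i :=
    natDegree_eq_of_le_of_coeff_ne_zero ((natDegree_sub_le _ _).trans (max_le
      ((natDegree_C_mul_le _ _).trans (natDegree_PQ a c i).1)
      ((natDegree_C_mul_le _ _).trans (natDegree_PQ a c i).2))) (by rwa [e])
  exact ⟨hd, by rw [leadingCoeff, hd, e]⟩

/-- Irreducibility of `φ^i y = U` from the norm criterion. -/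
theorem irr_of_not_sq {K : Type} [Field K] {a c : K} (h2 : (2 : K) ≠ 0) (h : a ≠ c) (U : K × K)
    (i : ℕ) (h0 : wedge (orb a c true 0) U ≠ 0)
    (hU : ∀ n < i, ∀ r : K,
      r ^ 2 ≠ wedge (orb a c false (n + 1)) U * wedge (orb a c true (n + 1)) U ∧
      r ^ 2 ≠ -(wedge (orb a c false (n + 1)) U * wedge (orb a c true (n + 1)) U)) :
    Irreducible (C U.2 * (PQ a c i).1 - C U.1 * (PQ a c i).2) ∧
      (C U.2 * (PQ a c i).1 - C U.1 * (PQ a c i).2).natDegree = 2 ^ i := by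
  induction i with
  | zero =>
    have hd := (s6irr_deg a c U 0 h0).1
    exact ⟨irreducible_of_degree_eq_one ((degree_eq_iff_natDegree_eq_of_pos one_pos).2 hd), hd⟩
  | succ i ih =>
    obtain ⟨hG, hd⟩ := ih fun n hn => hU n (by omega)
    have ne : ∀ n ≤ i + 1, wedge (orb a c true n) U ≠ 0 := by
      rintro (_ | n) hn
      · exact h0
      · exact fun e => (hU n (by omega) 0).1 (by rw [e]; ring)
    obtain ⟨hd1, hl1⟩ := s6irr_deg a c U (i + 1) (ne _ le_rfl)
    refine ⟨?_, hd1⟩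
    obtain ⟨Z, hZ⟩ : ∃ Z, Z = (Phi (C a) (C c))^[i] (C a * X + 1, C c * X + 1) := ⟨_, rfl⟩
    have e : C U.2 * (PQ a c (i + 1)).1 - C U.1 * (PQ a c (i + 1)).2 =
        (C U.2 * Z.1 - C U.1 * Z.2).comp (X ^ 2) := by
      have := map_iter (C a) (C c) (compRingHom (X ^ 2)) (C a * X + 1, C c * X + 1) i
      simp only [coe_compRingHom_apply, C_comp, add_comp, mul_comp, X_comp, one_comp] at this
      simp only [PQ, Function.iterate_succ_apply, Phi, one_pow, sub_comp, mul_comp, C_comp]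
      rw [this, hZ]
    have e0 : (C U.2 * Z.1 - C U.1 * Z.2).eval 0 = wedge (orb a c false (i + 1)) U := by
      have := congrArg (eval 0) e
      rw [eval_comp, eval_pow, eval_X, zero_pow two_ne_zero] at this
      rw [← this, orb, crit, if_neg (by simp), ← rdyn_eval, wedge]
      simp only [eval_sub, eval_mul, eval_C]; ring
    rw [e, natDegree_comp, natDegree_X_pow, pow_succ] at hd1
    rw [e, leadingCoeff_comp (by simp), leadingCoeff_X_pow, one_pow, mul_one] at hl1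
    rw [e]
    refine s6irr_sq (s6irr_mob hG (by omega) fun t ht => ?_) (by rw [e0, hl1]; exact hU i (by omega))
    set f := algebraMap K (AlgebraicClosure K)
    have m := map_iter (C a) (C c) (aeval t : K[X] →ₐ[K] _).toRingHom (C a * X + 1, C c * X + 1) i
    simp only [AlgHom.toRingHom_eq_coe, RingHom.coe_coe, aeval_C, map_add, map_mul, aeval_X,
      map_one, ← hZ] at m
    simp only [map_sub, map_mul, aeval_C] at ht
    have hc : f c * t + 1 ≠ 0 := by
      intro hc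
      have s := iter_smul (f a) (f c) (f a * t + 1) (1, 0) i
      have o := map_orb a c f true i
      rw [orb, crit, if_pos rfl] at o
      simp only [mul_one, mul_zero, o] at s
      rw [hc, s, Prod.mk.injEq] at m
      rw [← m.1, ← m.2] at ht
      have w : (f a * t + 1) ^ 2 ^ i * f (wedge (orb a c true i) U) = 0 := by
        rw [wedge, map_sub, map_mul, map_mul]; linear_combination ht
      have w1 := pow_eq_zero_iff (by positivity) |>.1
        ((mul_eq_zero.1 w).resolve_right ((_root_.map_ne_zero f).2 (ne i (by omega))))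
      have : f (a - c) = 0 := by rw [map_sub]; linear_combination f a * hc - f c * w1
      exact h (sub_eq_zero.1 ((_root_.map_eq_zero f).1 this))
    refine ⟨(f a * t + 1) / (f c * t + 1), ?_, ?_⟩
    · have mt := IntermediateField.mem_adjoin_simple_self K t
      exact div_mem (add_mem (mul_mem (IntermediateField.algebraMap_mem _ a) mt) (one_mem _))
        (add_mem (mul_mem (IntermediateField.algebraMap_mem _ c) mt) (one_mem _))
    · have s := iter_smul (f a) (f c) (f c * t + 1) ((f a * t + 1) / (f c * t + 1), 1) i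
      rw [← aeval_PQ] at s
      simp only [mul_one, mul_div_cancel₀ _ hc] at s
      have s' := Prod.mk.inj (m.symm.trans s)
      rw [s'.1, s'.2] at ht
      refine (mul_eq_zero.1 (?_ : (f c * t + 1) ^ 2 ^ i * _ = 0)).resolve_left (pow_ne_zero _ hc)
      simp only [map_sub, map_mul, aeval_C]
      linear_combination ht

theorem irr_Fs (h : HypH a c) (col : ∀ n, 1 ≤ n → wedge (orb a c false n) (orb a c true n) ≠ 0)
    (j : ℕ) :
    Irreducible ((Fs (C (C a)) (C (C c)) j (C X, 1) (X, 1)).map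
      (algebraMap L[X] (FractionRing L[X]))) ∧
      (Fs (C (C a)) (C (C c)) j (C X, 1) (X, 1)).natDegree = 2 ^ j := by
  set f := algebraMap L[X] (FractionRing L[X])
  have hf : Function.Injective f := IsFractionRing.injective _ _
  have g := (f.comp C).injective
  have e : (Fs (C (C a)) (C (C c)) j (C X, 1) (X, 1)).map f =
      C (f (PQ a c j).2) * (PQ (f (C a)) (f (C c)) j).1 -
        C (-f (PQ a c j).1) * (PQ (f (C a)) (f (C c)) j).2 := by
    have h1 := map_Fs (mapRingHom f) (C (C a)) (C (C c)) j (C X, 1) (X, 1)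
    have h3 := map_iter (C a) (C c) (C.comp f) (X, 1) j
    simp only [coe_mapRingHom, map_C, Prod.map_apply, map_X, Polynomial.map_one,
      RingHom.comp_apply, map_one] at h1 h3
    rw [h1, Fs, h3, map_neg, PQ, PQ]
    ring
  have w : ∀ b n, wedge (orb (f (C a)) (f (C c)) b n) (-f (PQ a c j).1, f (PQ a c j).2) =
      f (C (orb a c b n).1 * (PQ a c j).2 + C (orb a c b n).2 * (PQ a c j).1) := by
    intro b n
    rw [map_orb, map_orb, wedge, map_add, map_mul, map_mul]; ring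
  have := irr_of_not_sq (K := FractionRing L[X]) (a := f (C a)) (c := f (C c))
    ((rdyn_two (f.comp C)).2 h.two) (fun e => h.ne (g e)) (-f (PQ a c j).1, f (PQ a c j).2) j ?_
    fun n hn r => ?_
  · rw [← e, natDegree_map_eq_of_injective hf] at this
    exact this
  · have e1 := congrArg Prod.snd (rdyn_eval a c j 0)
    have e2 : (orb a c false j).2 ≠ 0 := by
      rcases j with _ | j
      · simp [orb, crit]
      · exact (h.orb_ne j).2.1
    have : (PQ a c j).2 ≠ 0 := fun e3 => e2 (by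
      rw [e3, eval_zero] at e1; exact e1.symm)
    simpa [wedge, orb, crit] using (map_ne_zero_iff f hf).2 this
  · have p1 := not_sq_pull h col n j (by omega) one_ne_zero r
    have p2 := not_sq_pull h col n j (by omega) (neg_ne_zero.2 one_ne_zero) r
    rw [w, w, ← map_mul, ← map_neg]
    rw [map_one, one_mul] at p1
    rw [map_neg, map_one, neg_one_mul] at p2
    exact ⟨p1, p2⟩

end JR
end

-- merged part: Pool.Agent.Work.MP_969914_nt.S6B
section
/-! The basis `Bf` and determinants of Sylvester type. -/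

set_option autoImplicit false

namespace JR

open Polynomial

section ring
variable {R : Type} [CommRing R]

theorem s6b_succ (a c : R) (N l : ℕ) : Bf (C a) (C c) (N + 1) l (X, 1) =
    Bf (C a) (C c) N l (X, 1) * if l.testBit N then (PQ a c N).2 else (PQ a c N).1 :=
  Finset.prod_range_succ _ _

theorem natDegree_Bf (a c : R) (N l : ℕ) : (Bf (C a) (C c) N l (X, 1)).natDegree < 2 ^ N := by
  induction N with
  | zero => simp [Bf]
  | succ N ih =>
    rw [s6b_succ]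
    refine natDegree_mul_le.trans_lt ?_
    have h := natDegree_PQ a c N
    have : (if l.testBit N then (PQ a c N).2 else (PQ a c N).1).natDegree ≤ 2 ^ N := by
      split_ifs
      exacts [h.2, h.1]
    omega

theorem s6b_coef (f : R[X]) {m : ℕ} (hf : f.natDegree ≤ m) (j i : ℕ) :
    (X ^ j * f).coeff i = if i ∈ Set.Icc j (j + m) then f.coeff (i - j) else 0 := by
  rw [coeff_X_pow_mul']
  simp only [Set.mem_Icc, ite_and]
  split_ifs with h1 h2
  · rfl
  · exact coeff_eq_zero_of_natDegree_lt (by omega)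
  · rfl

theorem s6b_add (a c : R) (N l : ℕ) (W : R × R) : Bf a c N (2 ^ N + l) W = Bf a c N l W :=
  Finset.prod_congr rfl fun i hi => by
    rw [Nat.testBit_two_pow_add_gt (Finset.mem_range.1 hi)]

theorem s6b_deg (a c : R) (N : ℕ) (f : ℕ → R) :
    (∑ l ∈ Finset.range (2 ^ N), C (f l) * Bf (C a) (C c) N l (X, 1)).natDegree < 2 ^ N := by
  have h := Nat.one_le_two_pow (n := N)
  refine (natDegree_sum_le_of_forall_le (n := 2 ^ N - 1) _ _ fun l _ => ?_).trans_lt (by omega)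
  have := natDegree_Bf a c N l
  exact (natDegree_C_mul_le _ _).trans (by omega)

/-- Determinant of the multiples of `f` and `g`. -/
theorem det_syl (f g : R[X]) (m n : ℕ) (hf : f.natDegree ≤ m) (hg : g.natDegree ≤ n)
    (B : Fin n → R[X]) (hB : ∀ l, (B l).natDegree < n) :
    (Matrix.of fun α r : Fin (m + n) => (Fin.addCases (motive := fun _ => R[X])
      (fun a => X ^ (a : ℕ) * g) (fun l => B l * f) α).coeff r).det =
      (Matrix.of fun l r : Fin n => (B l).coeff r).det * resultant f g m n := by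
  have e : (Matrix.of fun α r : Fin (m + n) => (Fin.addCases (motive := fun _ => R[X])
      (fun a => X ^ (a : ℕ) * g) (fun l => B l * f) α).coeff r) =
      Matrix.reindex finSumFinEquiv finSumFinEquiv (Matrix.fromBlocks (1 : Matrix (Fin m) (Fin m) R)
        0 0 (Matrix.of fun l r : Fin n => (B l).coeff r)) * (sylvester f g m n).transpose := by
    ext α r
    rw [Matrix.mul_apply, Fin.sum_univ_add]
    induction α using Fin.addCases with
    | left a =>
      simp only [Matrix.of_apply, Fin.addCases_left, Matrix.reindex_apply, Matrix.submatrix_apply,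
        finSumFinEquiv_symm_apply_natAdd, finSumFinEquiv_symm_apply_castAdd,
        Matrix.fromBlocks_apply₁₁, Matrix.zero_apply, zero_mul, Finset.sum_const_zero,
        Matrix.fromBlocks_apply₁₂, add_zero, Matrix.transpose_apply, sylvester, ← s6b_coef g hg,
        Matrix.one_apply, ite_mul, one_mul, Finset.sum_ite_eq, Finset.mem_univ, if_true]
    | right l =>
      simp only [Matrix.of_apply, Fin.addCases_right, Matrix.reindex_apply, Matrix.submatrix_apply,
        finSumFinEquiv_symm_apply_natAdd, finSumFinEquiv_symm_apply_castAdd,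
        Matrix.fromBlocks_apply₂₁, Matrix.zero_apply, zero_mul, Finset.sum_const_zero,
        Matrix.fromBlocks_apply₂₂, zero_add, Matrix.transpose_apply, sylvester, ← s6b_coef f hf]
      conv_lhs => rw [(B l).as_sum_range' n (hB l), Finset.sum_mul, finsetSum_coeff]
      rw [Finset.sum_range]
      refine Finset.sum_congr rfl fun i _ => ?_
      rw [← C_mul_X_pow_eq_monomial, mul_assoc, coeff_C_mul]
  rw [e, Matrix.det_mul, Matrix.det_reindex_self, Matrix.det_fromBlocks_zero₂₁, Matrix.det_one,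
    one_mul, Matrix.det_transpose, resultant]

end ring

section field
variable {K : Type} [Field K] {a c : K}

theorem s6b_two {P Q U V : K[X]} {n : ℕ} (hc : IsCoprime P Q) (hP : P.coeff n ≠ 0)
    (hV : V.natDegree < n) (e : U * P + V * Q = 0) : U = 0 ∧ V = 0 := by
  have h1 : P ∣ V := hc.dvd_of_dvd_mul_right ⟨-U, by linear_combination e⟩
  have h2 : V = 0 := eq_zero_of_dvd_of_natDegree_lt h1 (hV.trans_le (le_natDegree_of_ne_zero hP))
  rw [h2, zero_mul, add_zero] at e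
  exact ⟨(mul_eq_zero.1 e).resolve_right fun h0 => hP (by rw [h0, coeff_zero]), h2⟩

theorem s6b_indep (h : a ≠ c) (N : ℕ) : ∀ f : ℕ → K,
    ∑ l ∈ Finset.range (2 ^ N), C (f l) * Bf (C a) (C c) N l (X, 1) = 0 →
      ∀ l < 2 ^ N, f l = 0 := by
  induction N with
  | zero =>
    intro f hf l hl
    obtain rfl : l = 0 := by simpa using hl
    simpa [Bf] using hf
  | succ N ih =>
    intro f hf
    have e : (∑ l ∈ Finset.range (2 ^ N), C (f l) * Bf (C a) (C c) N l (X, 1)) * (PQ a c N).1 +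
        (∑ l ∈ Finset.range (2 ^ N), C (f (2 ^ N + l)) * Bf (C a) (C c) N l (X, 1)) *
          (PQ a c N).2 = 0 := by
      rw [pow_succ, mul_two, Finset.sum_range_add] at hf
      rw [Finset.sum_mul, Finset.sum_mul]
      refine Eq.trans (congrArg₂ (· + ·) (Finset.sum_congr rfl fun l hl => ?_)
        (Finset.sum_congr rfl fun l hl => ?_)) hf
      · rw [s6b_succ, Nat.testBit_lt_two_pow (Finset.mem_range.1 hl), mul_assoc]
        rfl
      · rw [s6b_succ, Nat.testBit_two_pow_add_eq, Nat.testBit_lt_two_pow (Finset.mem_range.1 hl),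
          s6b_add, mul_assoc]
        rfl
    have hz : (∑ l ∈ Finset.range (2 ^ N), C (f l) * Bf (C a) (C c) N l (X, 1)) = 0 ∧
        (∑ l ∈ Finset.range (2 ^ N), C (f (2 ^ N + l)) * Bf (C a) (C c) N l (X, 1)) = 0 := by
      by_cases hP : (PQ a c N).1.coeff (2 ^ N) = 0
      · have hQ : (PQ a c N).2.coeff (2 ^ N) ≠ 0 := fun hQ =>
          orb_ne_zero h true N (by rw [← coeff_PQ, hP, hQ]; rfl)
        exact (s6b_two (isCoprime_PQ h N).symm hQ (s6b_deg a c N f)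
          ((add_comm _ _).trans e)).symm
      · exact s6b_two (isCoprime_PQ h N) hP (s6b_deg a c N fun l => f (2 ^ N + l)) e
    intro l hl
    by_cases hl' : l < 2 ^ N
    · exact ih f hz.1 l hl'
    · obtain ⟨l', rfl⟩ := Nat.exists_eq_add_of_le (not_lt.1 hl')
      exact ih (fun l => f (2 ^ N + l)) hz.2 l' (by omega)

theorem Bf_indep (h : a ≠ c) (N : ℕ) (f : Fin (2 ^ N) → K)
    (hf : ∑ l, C (f l) * Bf (C a) (C c) N l (X, 1) = 0) : f = 0 := by
  have := s6b_indep h N (fun l => if hl : l < 2 ^ N then f ⟨l, hl⟩ else 0) (by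
    rw [Finset.sum_range, ← hf]
    exact Finset.sum_congr rfl fun l _ => by simp only [l.2, dif_pos])
  funext l
  simpa only [l.2, dif_pos, Pi.zero_apply] using this l l.2

theorem det_Bf_ne (h : a ≠ c) (N : ℕ) :
    (Matrix.of fun l r : Fin (2 ^ N) => (Bf (C a) (C c) N l (X, 1)).coeff r).det ≠ 0 := by
  intro h0
  obtain ⟨v, hv, e⟩ := Matrix.exists_vecMul_eq_zero_iff.2 h0
  refine hv (Bf_indep h N v ?_)
  ext r
  by_cases hr : r < 2 ^ N
  · have := congrFun e ⟨r, hr⟩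
    simpa [Matrix.vecMul, dotProduct] using this
  · rw [finsetSum_coeff, coeff_zero]
    refine Finset.sum_eq_zero fun l _ => ?_
    rw [coeff_C_mul, coeff_eq_zero_of_natDegree_lt ((natDegree_Bf a c N l).trans_le (not_lt.1 hr)),
      mul_zero]

end field

end JR
end

-- merged part: Pool.Agent.Work.MP_969914_nt.S6Zero
section
/-! The auxiliary form does not vanish at points of large degree. -/

set_option autoImplicit false

namespace JR

open Polynomial IntermediateField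

theorem s6zero_res {K : Type} [Field K] (p q : K[X][X]) (m n : ℕ) {b : ℕ}
    (hp : ∀ i, (p.coeff i).natDegree ≤ b) (hq : ∀ i, (q.coeff i).natDegree ≤ b) :
    (resultant p q m n).natDegree ≤ (m + n) * b := by
  have h : ∀ i j, (sylvester p q m n i j).natDegree ≤ b := fun i j => by
    induction j using Fin.addCases with
    | left j =>
      simp only [sylvester, Matrix.of_apply, Fin.addCases_left]
      split_ifs
      · exact hq _
      · simp
    | right j =>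
      simp only [sylvester, Matrix.of_apply, Fin.addCases_right]
      split_ifs
      · exact hp _
      · simp
  rw [resultant, Matrix.det_apply']
  refine natDegree_sum_le_of_forall_le _ _ fun σ _ => natDegree_mul_le.trans ?_
  rw [natDegree_intCast, zero_add]
  refine (natDegree_prod_le _ _).trans ((Finset.sum_le_card_nsmul _ _ b fun i _ => h _ _).trans ?_)
  simp

theorem sB_ne_zero {K T : Type} [Field K] [Field T] [Algebra K T] {a c : K} (h : HypH a c)
    (col : ∀ n, 1 ≤ n → wedge (orb a c false n) (orb a c true n) ≠ 0) {j N : ℕ} (hN : j ≤ N)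
    (f : Fin (2 ^ N) × Fin (2 ^ j) → K) (hf : f ≠ 0) {x y : T}
    (hx : 2 * 2 ^ j * 2 ^ N < Module.finrank K K⟮x⟯)
    (hF : Fs (algebraMap K T a) (algebraMap K T c) j (x, 1) (y, 1) = 0) :
    ∑ p, algebraMap K T (f p) *
      sB (algebraMap K T a) (algebraMap K T c) N (2 ^ j) p.1 p.2 (x, 1) (y, 1) ≠ 0 := by
  intro h0
  obtain ⟨hi, hd⟩ := irr_Fs h col j
  obtain ⟨s, hs⟩ : ∃ s : K[X][X], s =
    ∑ p, C (C (f p)) * sB (C (C a)) (C (C c)) N (2 ^ j) p.1 p.2 (C X, 1) (X, 1) := ⟨_, rfl⟩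
  obtain ⟨F, hF'⟩ : ∃ F : K[X][X], F = Fs (C (C a)) (C (C c)) j (C X, 1) (X, 1) := ⟨_, rfl⟩
  rw [← hF'] at hi hd
  have hs' : s = ∑ p, monomial p.2 (C (f p) * Bf (C a) (C c) N p.1 (X, 1)) := by
    refine hs.trans (Finset.sum_congr rfl fun p _ => ?_)
    rw [← C_mul_X_pow_eq_monomial, map_mul, map_Bf C]
    simp [sB, mul_assoc]
  have h1 : s ≠ 0 := fun h1 => hf (funext fun p => congrFun (Bf_indep h.ne N (fun l => f (l, p.2))
    (by simpa [hs', Fintype.sum_prod_type, coeff_monomial, Fin.val_inj] using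
      congrArg (coeff · p.2) h1)) p.1)
  have h2 : s.natDegree ≤ 2 ^ j - 1 := hs' ▸ natDegree_sum_le_of_forall_le _ _ fun p _ =>
    (natDegree_monomial_le _).trans (Nat.le_sub_one_of_lt p.2.2)
  have h3 : ∀ i, (s.coeff i).natDegree ≤ 2 ^ N := fun i => by
    rw [hs', finsetSum_coeff]
    refine natDegree_sum_le_of_forall_le _ _ fun p _ => ?_
    rw [coeff_monomial]
    split_ifs
    · exact (natDegree_C_mul_le _ _).trans (natDegree_Bf a c N _).le
    · simp
  have h4 : ∀ i, (F.coeff i).natDegree ≤ 2 ^ N := fun i => by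
    have e1 := map_iter' (C : K[X] →+* K[X][X]) (C a) (C c) (X, 1) j
    have e2 := map_iter' (mapRingHom (C : K →+* K[X])) (C a) (C c) (X, 1) j
    simp only [Prod.map_apply, map_one, coe_mapRingHom, map_C, map_X,
      Polynomial.map_one] at e1 e2
    rw [hF', Fs, e1, e2]
    simp only [Prod.map_fst, Prod.map_snd, coeff_add, coeff_C_mul, coeff_map]
    refine (natDegree_add_le_of_degree_le ?_ ?_).trans (Nat.pow_le_pow_right two_pos hN)
    · exact (natDegree_mul_C_le _ _).trans (natDegree_PQ a c j).1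
    · exact (natDegree_mul_C_le _ _).trans (natDegree_PQ a c j).2
  have h5 : 0 < 2 ^ j := by positivity
  have hinj := IsFractionRing.injective K[X] (FractionRing K[X])
  have h6 : resultant F s ≠ 0 := fun h6 => by
    have h7 := resultant_ne_zero _ (s.map (algebraMap K[X] (FractionRing K[X])))
      (hi.coprime_iff_not_dvd.2 fun k => by
        have := natDegree_le_of_dvd k ((Polynomial.map_ne_zero_iff hinj).2 h1)
        rw [natDegree_map_eq_of_injective hinj, natDegree_map_eq_of_injective hinj] at this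
        omega)
    rw [natDegree_map_eq_of_injective hinj, natDegree_map_eq_of_injective hinj, resultant_map_map,
      h6, map_zero] at h7
    exact h7 rfl
  have h7 := (s6zero_res F s F.natDegree s.natDegree h4 h3).trans
    (Nat.mul_le_mul_right _ (show F.natDegree + s.natDegree ≤ 2 * 2 ^ j by omega))
  obtain ⟨U, V, -, -, hUV⟩ := exists_mul_add_mul_eq_C_resultant F s le_rfl le_rfl
    (Or.inl (by omega))
  have e := congrArg (eval₂RingHom (aeval x : K[X] →ₐ[K] T).toRingHom y) hUV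
  have e1 : eval₂RingHom (aeval x : K[X] →ₐ[K] T).toRingHom y F = 0 := by
    rw [hF', map_Fs, ← hF]
    simp
  have e2 : eval₂RingHom (aeval x : K[X] →ₐ[K] T).toRingHom y s = 0 := by
    rw [hs, map_sum, ← h0]
    refine Finset.sum_congr rfl fun p _ => ?_
    rw [map_mul, map_sB]
    simp
  rw [map_add, map_mul, map_mul, e1, e2, zero_mul, zero_mul, add_zero, coe_eval₂RingHom,
    eval₂_C] at e
  have h8 := natDegree_le_of_dvd (minpoly.dvd K x e.symm) h6
  rw [adjoin.finrank (IsAlgebraic.isIntegral ⟨_, h6, e.symm⟩)] at hx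
  omega

end JR
end

-- merged part: Pool.Agent.Work.MP_969914_nt.S6Det
section
/-! Determinants: ultrametric bound, block form, product formula. -/

set_option autoImplicit false

namespace JR

open Polynomial
open scoped NNReal ENNReal

theorem val_det_le {T ι : Type} [Field T] [Fintype ι] [DecidableEq ι] (v : Valuation T ℝ≥0)
    (M : Matrix ι ι T) (B : ι → ℝ≥0) (h : ∀ i j, v (M i j) ≤ B i) : v M.det ≤ ∏ i, B i := by
  rw [Matrix.det_apply]
  refine v.map_sum_le fun σ _ => ?_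
  have h1 : v (∏ i, M (σ i) i) ≤ ∏ i, B i := by
    rw [map_prod, ← Equiv.prod_comp σ B]
    exact Finset.prod_le_prod' fun i _ => h _ _
  rcases Int.units_eq_one_or (Equiv.Perm.sign σ) with e | e <;> rw [e]
  · rwa [one_smul]
  · rwa [Units.neg_smul, one_smul, Valuation.map_neg]

theorem det_block {R : Type} [CommRing R] (e : ℕ) (n : Fin (e + 1) → ℕ)
    (g : (Σ i, Fin (n i)) → R[X][X]) (hg : ∀ α, (g α).natDegree ≤ α.1) :
    (Matrix.of fun α β : Σ i, Fin (n i) => ((g α).coeff β.1).coeff β.2).det =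
      ∏ i, (Matrix.of fun α r : Fin (n i) => ((g ⟨i, α⟩).coeff i).coeff r).det := by
  have h : (Matrix.of fun α β : Σ i, Fin (n i) =>
      ((g α).coeff β.1).coeff β.2).transpose.BlockTriangular fun α => α.1 := by
    intro α β hlt
    simp only [Matrix.transpose_apply, Matrix.of_apply]
    rw [coeff_eq_zero_of_natDegree_lt ((hg β).trans_lt hlt), coeff_zero]
  rw [← Matrix.det_transpose, h.det_fintype]
  refine Finset.prod_congr rfl fun i _ => ?_
  rw [← Matrix.det_submatrix_equiv_self (Equiv.sigmaSubtype i).symm, ← Matrix.det_transpose]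
  rfl

theorem evalEval_eq_sum {R : Type} [CommRing R] (e : ℕ) (n : Fin (e + 1) → ℕ) (g : R[X][X])
    (h1 : g.natDegree ≤ e) (h2 : ∀ i : Fin (e + 1), (g.coeff i).degree < n i) (x u : R) :
    g.evalEval x u = ∑ β : Σ i, Fin (n i), (g.coeff β.1).coeff β.2 * (x ^ (β.2 : ℕ) * u ^ (β.1 : ℕ)) := by
  rw [evalEval, eval_eq_sum_range' (Nat.lt_succ_of_le h1), ← Fin.sum_univ_eq_sum_range
    (fun i => g.coeff i * C u ^ i), eval_finsetSum, Fintype.sum_sigma]
  refine Finset.sum_congr rfl fun i _ => ?_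
  rw [eval_mul, eval_pow, eval_C, eval_eq_sum,
    ← sum_fin (fun e a => a * x ^ e) (fun _ => zero_mul _) (h2 i),
    Finset.sum_mul]
  exact Finset.sum_congr rfl fun r _ => mul_assoc _ _ _

theorem exists_poly_of_coeff {R : Type} [CommRing R] (e : ℕ) (n : Fin (e + 1) → ℕ)
    (f : (Σ i, Fin (n i)) → R) (hf : f ≠ 0) : ∃ g : R[X][X], g ≠ 0 ∧ ∀ x u : R,
      g.evalEval x u = ∑ β, f β * (x ^ (β.2 : ℕ) * u ^ (β.1 : ℕ)) := by
  refine ⟨∑ β : Σ i, Fin (n i), monomial β.1 (monomial β.2 (f β)), fun h => hf ?_, fun x u => ?_⟩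
  · funext β
    have h1 := congrArg (fun g : R[X][X] => (g.coeff β.1).coeff β.2) h
    simp only [finsetSum_coeff, coeff_zero] at h1
    rw [Finset.sum_eq_single β] at h1
    · simpa using h1
    · rintro ⟨i, r⟩ _ hne
      obtain ⟨j, s⟩ := β
      rw [coeff_monomial]
      split_ifs with h2
      · obtain rfl : i = j := Fin.ext h2
        rw [coeff_monomial, if_neg]
        intro h3
        obtain rfl : r = s := Fin.ext h3
        exact hne rfl
      · exact coeff_zero _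
    · simp
  · simp only [evalEval, eval_finsetSum, eval_monomial, eval_mul, eval_pow, eval_C, mul_assoc]

theorem exists_rel_of_det {T ι : Type} [Field T] [Fintype ι] [DecidableEq ι] (x : ℕ → ι → T)
    (h : ∀ g : ι → ℕ, (Matrix.of fun β γ => x (g γ) β).det = 0) :
    ∃ f : ι → T, f ≠ 0 ∧ ∀ n, ∑ β, f β * x n β = 0 := by
  by_cases ht : Submodule.span T (Set.range x) = ⊤
  · exfalso
    obtain ⟨κ, a, -, hsp, hli⟩ := exists_linearIndependent' T x
    let b := Module.Basis.mk hli (hsp.trans ht).ge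
    let e := b.indexEquiv (Pi.basisFun T ι)
    have h1 : LinearIndependent T (Matrix.of fun β γ => x (a (e.symm γ)) β).col :=
      hli.comp e.symm e.symm.injective
    rw [Matrix.linearIndependent_cols_iff_isUnit, Matrix.isUnit_iff_isUnit_det, h] at h1
    exact not_isUnit_zero h1
  · obtain ⟨φ, h0, hφ⟩ := Submodule.exists_le_ker_of_lt_top _ (lt_top_iff_ne_top.2 ht)
    refine ⟨fun β => φ fun j => if β = j then 1 else 0, fun h1 => h0 ?_, fun n => ?_⟩
    · refine LinearMap.ext fun y => ?_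
      rw [LinearMap.pi_apply_eq_sum_univ]
      exact Finset.sum_eq_zero fun β _ => by rw [congrFun h1 β]; simp
    · have h2 : φ (x n) = 0 := hφ (Submodule.subset_span ⟨n, rfl⟩)
      rw [LinearMap.pi_apply_eq_sum_univ] at h2
      exact (Finset.sum_congr rfl fun β _ => by rw [smul_eq_mul, mul_comm]).trans h2

namespace Std
variable {p : ℕ} {k T : Type} [Field k] [Field T] [Algebra k T] (S : Std p k T)

theorem zer_det_le {ι : Type} [Fintype ι] [DecidableEq ι] (A M : Matrix ι ι T) (hA : A.det ≠ 0)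
    (hM : M.det ≠ 0) (h1 : ∀ w ∈ S.fin, S.v w A.det ≤ 1) (g : ι → S.W → ℝ≥0)
    (hg : ∀ γ w, 1 ≤ g γ w) (h2 : ∀ β γ, ∀ w ∈ S.fin, S.v w (M β γ) ≤ g γ w) (s : ι → ℕ)
    (h3 : ∀ α γ, ∀ w ∉ S.fin, S.v w ((A * M) α γ) ≤ S.q ^ s α) :
    S.zer A.det ≤ (∑ α, s α : ℕ) + ∑ γ, S.I (g γ) := by
  classical
  have hq := S.one_lt_q.le
  have h0 : (A * M).det ≠ 0 := by rw [Matrix.det_mul]; exact mul_ne_zero hA hM
  have hM' : ∀ w ∈ S.fin, S.v w M.det ≤ ∏ γ, g γ w := fun w hw => by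
    rw [← Matrix.det_transpose]
    exact val_det_le _ _ _ fun i j => h2 j i w hw
  have hg1 : ∀ w, 1 ≤ ∏ γ, g γ w := fun w => Finset.one_le_prod' fun γ _ => hg γ w
  let u : S.W → ℝ≥0 := fun w => if w ∈ S.fin then 1 else S.q ^ ∑ α, s α
  have hu : S.I u ≤ (∑ α, s α : ℕ) := by
    refine (S.toPF.I_le_mass (E := S.finᶜ) (C := ∑ α, s α) ?_ ?_).trans ?_
    · intro w hw
      exact le_of_eq (if_neg hw)
    · intro w hw
      exact le_of_eq (if_pos (not_not.1 hw))
    · exact mul_le_of_le_one_right' S.mass_inf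
  have h4 := S.pf _ h0 (fun w => u w * ∏ γ, g γ w) ?_ ?_
  · refine le_trans (S.I_mono _ _ fun w => ?_) (h4.trans ((S.I_mul _ _).trans
      (add_le_add hu (S.toPF.I_prod_le _ _))))
    by_cases hw : w ∈ S.fin
    · refine le_max_of_le_right ?_
      have a1 : S.v w M.det ≠ 0 := (Valuation.ne_zero_iff _).2 hM
      rw [Set.mulIndicator_of_mem hw, Matrix.det_mul, map_mul, show u w = 1 from if_pos hw,
        one_mul, mul_comm, ← div_div, div_eq_mul_inv]
      exact le_mul_of_one_le_left' ((one_le_div₀ (pos_iff_ne_zero.2 a1)).2 (hM' w hw))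
    · rw [Set.mulIndicator_of_notMem hw]
      exact le_max_left _ _
  · intro w
    refine one_le_mul ?_ (hg1 w)
    by_cases hw : w ∈ S.fin
    · exact ge_of_eq (if_pos hw)
    · exact (one_le_pow₀ hq).trans (ge_of_eq (if_neg hw))
  · intro w
    by_cases hw : w ∈ S.fin
    · rw [Matrix.det_mul, map_mul]
      exact mul_le_mul' ((h1 w hw).trans (ge_of_eq (if_pos hw))) (hM' w hw)
    · refine (val_det_le _ _ _ fun i j => h3 i j w hw).trans ?_
      rw [Finset.prod_pow_eq_pow_sum, show u w = _ from if_neg hw]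
      exact le_mul_of_one_le_right' (hg1 w)

theorem zer_pow (α : T) (n : ℕ) : S.zer (α ^ n) = n * S.zer α := by
  rw [zer, zer, ← S.toPF.I_pow_eq]
  congr 1
  funext w
  by_cases hw : w ∈ S.fin
  · simp [hw]
  · simp [hw]

theorem zer_mono {α β : T} (hβ : β ≠ 0) (h : ∀ w ∈ S.fin, S.v w β ≤ S.v w α) :
    S.zer α ≤ S.zer β := by
  refine S.toPF.I_le fun w => ?_
  by_cases hw : w ∈ S.fin
  · rw [Set.mulIndicator_of_mem hw, Set.mulIndicator_of_mem hw]
    exact inv_anti₀ (pos_iff_ne_zero.2 ((Valuation.ne_zero_iff _).2 hβ)) (h w hw)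
  · rw [Set.mulIndicator_of_notMem hw, Set.mulIndicator_of_notMem hw]

end Std

end JR
end

-- merged part: Pool.Agent.Work.MP_969914_nt.S6Conj
section
/-! Conjugates and degrees along a branch, the lemma of Koenig. -/

set_option autoImplicit false

namespace JR

open Polynomial IntermediateField
open scoped NNReal

namespace Dyn
variable {p : ℕ} {k T : Type} [Field k] [Field T] [Algebra k T] {S : Std p k T} {d : Dyn S}
  {b : ℕ → T}

theorem s6conj_mem (L : IntermediateField S.K0 T) : ∀ z ∈ S.K0, z ∈ L :=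
  fun z hz => L.algebraMap_mem ⟨z, hz⟩

theorem s6conj_fix (σ : T ≃ₐ[S.K0] T) {z : T} (hz : z ∈ S.K0) : σ z = z := σ.commutes ⟨z, hz⟩

theorem s6conj_alg (z : T) : IsAlgebraic S.K0 z :=
  have := S.galois
  Algebra.IsAlgebraic.isAlgebraic z

theorem s6conj_pigeon {A : Set T} (hA : A.Finite) {P : T → ℕ → Prop}
    (h : ∀ r, ∃ j ≥ r, ∃ x ∈ A, P x j) : ∃ x ∈ A, ∀ r, ∃ j ≥ r, P x j := by
  by_contra h1
  refine Filter.frequently_atTop.2 h (((Filter.eventually_all_finite hA).2 fun x hx =>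
    Filter.not_frequently.1 fun e => h1 ⟨x, hx, Filter.frequently_atTop.1 e⟩).mono ?_)
  exact fun j a ⟨x, hx, e⟩ => a x hx e

theorem Br.good_iff (hb : d.Br b) (n : ℕ) : d.GoodStep (b n) ↔ b (n + 1) ∉ S.K0⟮b n⟯ := by
  obtain ⟨h1, h2⟩ := hb.sq n
  have h3 : d.c * b n - d.a ∈ S.K0⟮b n⟯ := sub_mem (mul_mem (s6conj_mem _ _ d.c_mem)
    (mem_adjoin_simple_self _ _)) (s6conj_mem _ _ d.a_mem)
  refine ⟨fun h e => h _ h1 (mul_mem e h3), fun h u hu e => h ?_⟩
  rw [← mul_div_cancel_right₀ (b (n + 1)) h2]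
  refine div_mem ?_ h3
  rcases sq_eq_sq_iff_eq_or_eq_neg.1 (h1.trans hu.symm) with h4 | h4 <;> rw [h4]
  exacts [e, neg_mem e]

theorem goodStep_aut (σ : T ≃ₐ[S.K0] T) {z : T} (h : d.GoodStep z) : d.GoodStep (σ z) := by
  intro u hu e
  obtain ⟨v, hv, rfl⟩ : u ∈ (S.K0⟮z⟯).map (σ : T →ₐ[S.K0] T) := by
    rwa [adjoin_map, Set.image_singleton]
  refine h v (σ.injective ?_) hv
  simp only [dl, map_mul, map_sub, map_one, map_pow, s6conj_fix σ d.a_mem, s6conj_fix σ d.c_mem]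
  exact hu

open Classical in
theorem Br.le_finrank (hb : d.Br b) (n : ℕ) :
    2 ^ ((Finset.range n).filter fun i => d.GoodStep (b i)).card ≤
      Module.finrank S.K0 S.K0⟮b n⟯ := by
  have h1 : ∀ n, FiniteDimensional S.K0 S.K0⟮b n⟯ := fun n =>
    adjoin.finiteDimensional (s6conj_alg _).isIntegral
  induction n with
  | zero => exact Module.finrank_pos
  | succ n ih =>
    have h2 : S.K0⟮b n⟯ ≤ S.K0⟮b (n + 1)⟯ := adjoin_simple_le_iff.2
      (hb.mem_of_succ (S.K0⟮b (n + 1)⟯).toSubfield (s6conj_mem _) (mem_adjoin_simple_self _ _))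
    rw [Finset.range_add_one, Finset.filter_insert]
    split_ifs with h
    · obtain ⟨m, hm⟩ := finrank_dvd_of_le_right h2
      have h3 : m ≠ 0 := by
        rintro rfl
        exact Module.finrank_pos.ne' hm
      have h4 : m ≠ 1 := by
        rintro rfl
        exact (hb.good_iff n).1 h (eq_of_le_of_finrank_eq h2 (by rw [hm, mul_one]) ▸
          mem_adjoin_simple_self _ _)
      rw [Finset.card_insert_of_notMem (by simp), pow_succ, hm]
      exact Nat.mul_le_mul ih (by omega)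
    · exact ih.trans (finrank_le_of_le_right h2)

open Classical in
/-- The conjugates of `b (r + j)` over `K0 (b r)`. -/
theorem Br.exists_conj (hb : d.Br b) (r j : ℕ) : ∃ A : Finset T,
    A.card ≤ 2 ^ ((Finset.Ico r (r + j)).filter fun i => d.GoodStep (b i)).card ∧
      ∀ σ : T ≃ₐ[S.K0] T, σ (b r) = b r → σ (b (r + j)) ∈ A := by
  induction j with
  | zero => exact ⟨{b r}, by simp, fun σ h => by simpa using h⟩
  | succ j ih =>
    obtain ⟨A, h1, h2⟩ := ih
    choose s hs using S.sqrt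
    rw [← add_assoc, ← Finset.insert_Ico_right_eq_Ico_add_one (Nat.le_add_right r j),
      Finset.filter_insert]
    split_ifs with h
    · refine ⟨A.biUnion fun y => {s ((1 - y) / (d.c * y - d.a)), -s ((1 - y) / (d.c * y - d.a))},
        (Finset.card_biUnion_le_card_mul _ _ 2 fun _ _ => Finset.card_le_two).trans ?_,
        fun σ hσ => Finset.mem_biUnion.2 ⟨_, h2 σ hσ, ?_⟩⟩
      · rw [Finset.card_insert_of_notMem (by simp), pow_succ]
        exact Nat.mul_le_mul_right _ h1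
      · obtain ⟨h3, h4⟩ := hb.sq (r + j)
        have h5 : b (r + j + 1) ^ 2 = (1 - b (r + j)) / (d.c * b (r + j) - d.a) := by
          rw [eq_div_iff h4]
          refine mul_right_cancel₀ h4 ?_
          rw [← dl, ← h3]
          ring
        rw [Finset.mem_insert, Finset.mem_singleton, ← sq_eq_sq_iff_eq_or_eq_neg, hs, ← map_pow, h5]
        simp only [map_div₀, map_mul, map_sub, map_one, s6conj_fix σ d.a_mem, s6conj_fix σ d.c_mem]
    · rw [hb.good_iff, not_not, ← mem_toSubalgebra,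
        adjoin_simple_toSubalgebra_of_isAlgebraic (s6conj_alg _),
        Algebra.adjoin_singleton_eq_range_aeval] at h
      obtain ⟨g, hg⟩ := h
      refine ⟨A.image fun y => aeval y g, Finset.card_image_le.trans h1, fun σ hσ =>
        Finset.mem_image.2 ⟨_, h2 σ hσ, ?_⟩⟩
      rw [← hg]
      exact aeval_algHom_apply σ _ g

/-- Transitivity along a run of good steps. -/
theorem Br.trans (hb : d.Br b) (r j : ℕ) (h : ∀ i < j, d.GoodStep (b (r + i))) {z : T}
    (hz : z ∈ d.V (r + 1 + j)) (e : (JR.phi d.a d.c)^[j] z = b r) :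
    ∃ σ : T ≃ₐ[S.K0] T, σ (b (r + j)) = z := by
  induction j generalizing z with
  | zero => exact ⟨1, e.symm⟩
  | succ j ih =>
    have h1 : z ∈ d.V (r + j + 2) := by convert hz using 2; omega
    obtain ⟨σ, hσ⟩ := ih (fun i hi => h i (by omega)) (z := JR.phi d.a d.c z)
      (by convert (d.V_succ h1).2 using 2; omega) e
    have h2 := (d.phi_eq_iff (hb.mem (r + j)) (σ.symm z)).1 ⟨(d.V_succ (d.aut_mem_V _ h1)).1, by
      rw [← d.aut_phi, ← hσ, σ.symm_apply_apply]⟩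
    obtain ⟨h3, h4⟩ := hb.sq (r + j)
    rw [← h3, mul_pow, mul_pow, mul_left_inj' (pow_ne_zero 2 h4), sq_eq_sq_iff_eq_or_eq_neg] at h2
    rcases h2 with h2 | h2
    · exact ⟨σ, by rw [← add_assoc, ← h2, σ.apply_symm_apply]⟩
    · obtain ⟨τ, -, hτ⟩ := S.exists_aut_neg d.hypH.two (S.K0⟮b (r + j)⟯).toSubfield (s6conj_mem _)
        ((hb.good_iff _).1 (h j j.lt_succ_self))
        (hb.sq_mem _ (s6conj_mem _) (mem_adjoin_simple_self _ _))
      exact ⟨σ * τ, by rw [← add_assoc, AlgEquiv.mul_apply, hτ, ← h2, σ.apply_symm_apply]⟩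

/-- The lemma of Koenig. -/
theorem exists_bad_branch (d : Dyn S)
    (h : ∀ r0, 1 ≤ r0 → ∃ n, r0 ≤ n ∧ ∃ z ∈ d.V n, ¬ d.GoodStep z) :
    ∃ b : ℕ → T, d.Br b ∧ ∀ n, ∃ m, n ≤ m ∧ ¬ d.GoodStep (b m) := by
  let P : ℕ → T → Prop := fun n z => z ∈ d.V (n + 1) ∧ ∀ r, ∃ j ≥ r, ∃ y ∈ d.V (n + 1 + j),
    (JR.phi d.a d.c)^[j] y = z ∧ ¬ d.GoodStep y
  obtain ⟨z, hz⟩ : ∃ z, P 0 z := s6conj_pigeon (d.V_finite _) fun r => by
    obtain ⟨n, h1, y, h2, h3⟩ := h (r + 1) (by omega)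
    obtain ⟨j, rfl⟩ : ∃ j, n = 0 + 1 + j := ⟨n - 1, by omega⟩
    exact ⟨j, by omega, _, d.rtop_iter_mem j h2, y, h2, rfl, h3⟩
  have h1 : ∀ n (z : {z // P n z}), ∃ x : {x // P (n + 1) x}, JR.phi d.a d.c x = z := by
    rintro n ⟨z, -, hz⟩
    obtain ⟨x, ⟨h2, h3⟩, h4⟩ := s6conj_pigeon (A := {x ∈ d.V (n + 1 + 1) | JR.phi d.a d.c x = z})
      (P := fun x j => ∃ y ∈ d.V (n + 1 + 1 + j), (JR.phi d.a d.c)^[j] y = x ∧ ¬ d.GoodStep y)
      ((d.V_finite _).subset fun _ => And.left) fun r => by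
        obtain ⟨j, a, y, b, c, e⟩ := hz (r + 1)
        obtain ⟨j, rfl⟩ : ∃ i, j = i + 1 := ⟨j - 1, by omega⟩
        have f : y ∈ d.V (n + 1 + 1 + j) := by convert b using 2; omega
        exact ⟨j, by omega, _, ⟨d.rtop_iter_mem j f, by rwa [Function.iterate_succ_apply'] at c⟩,
          y, f, rfl, e⟩
    exact ⟨⟨x, h2, h4⟩, h3⟩
  choose f hf using h1
  let g : ∀ n, {z // P n z} := fun n => Nat.rec ⟨z, hz⟩ f n
  have hb : d.Br fun n => (g n).1 := ⟨fun n => (g n).2.1, fun n => hf n (g n)⟩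
  refine ⟨_, hb, fun n => ?_⟩
  by_contra h2
  have h3 : ∀ i, d.GoodStep (g (n + i)).1 := fun i => not_not.1 fun e => h2 ⟨_, n.le_add_right i, e⟩
  obtain ⟨j, -, y, h4, h5, h6⟩ := (g n).2.2 0
  obtain ⟨σ, rfl⟩ := hb.trans n j (fun i _ => h3 i) h4 h5
  exact h6 (goodStep_aut σ (h3 j))

end Dyn

end JR
end

-- merged part: Pool.Agent.Work.MP_969914_nt.S6Th
section
/-! The tangent coordinate along a branch. -/

set_option autoImplicit false

namespace JR

open Polynomial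
open scoped NNReal ENNReal

section ring
variable {R : Type} [CommRing R] (a c a' c' : R)

/-- `Uf` as a polynomial in the affine coordinate (inner) and the tangent coordinate (outer). -/
noncomputable def Up (k : ℕ) : R[X][X] :=
  Uf (C (C a)) (C (C c)) (C (C a')) (C (C c')) k (C X, 1) X

theorem Up_eq (k : ℕ) : ∃ g : R[X], g.natDegree ≤ 2 ^ (k + 1) ∧
    Up a c a' c' k = C (Jp a c k) * X + C g := by
  induction k with
  | zero => exact ⟨0, by simp, by simp [Up, Uf, Jp]⟩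
  | succ k ih =>
    obtain ⟨g, h1, h2⟩ := ih
    obtain ⟨d1, d2⟩ := natDegree_PQ a c k
    have e : (Phi (C (C a)) (C (C c)))^[k] (C X, 1) = Prod.map C C (PQ a c k) := by
      rw [PQ, ← map_iter', Prod.map_apply, map_one]
    have s1 := natDegree_pow_le_of_le 2 d1
    have s2 : ∀ x y : R, (C y * (C x * (PQ a c k).1 ^ 2 + (PQ a c k).2 ^ 2)).natDegree ≤
        2 * 2 ^ k := fun x y => (natDegree_C_mul_le _ _).trans (natDegree_add_le_of_degree_le
      ((natDegree_C_mul_le _ _).trans s1) (natDegree_pow_le_of_le 2 d2))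
    refine ⟨C (2 * (a - c)) * ((PQ a c k).1 * (PQ a c k).2 * g) +
      rho (C a) (C c) (C a') (C c') (PQ a c k), natDegree_add_le_of_degree_le
        ((natDegree_C_mul_le _ _).trans ((natDegree_mul_le_of_le
          (natDegree_mul_le_of_le d1 d2) h1).trans (by omega)))
        ((natDegree_mul_le_of_le s1 (natDegree_sub_le_of_le (s2 c a') (s2 a c'))).trans
          (by omega)), ?_⟩
    rw [Up, Uf, e, ← Up, h2, ← map_rho, Jp, Jp, Finset.prod_range_succ]
    simp only [Prod.map_fst, Prod.map_snd, map_add, map_mul, map_sub, map_ofNat]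
    ring

theorem evalEval_Up (k : ℕ) (x u : R) :
    (Up a c a' c' k).evalEval x u = Uf a c a' c' k (x, 1) u := by
  simpa [Up] using map_Uf (evalEvalRingHom x u) (C (C a)) (C (C c)) (C (C a')) (C (C c')) k
    (C X, 1) X

end ring

namespace Dyn
variable {p : ℕ} {k T : Type} [Field k] [Field T] [Algebra k T] {S : Std p k T} {d : Dyn S}
  {b : ℕ → T}

theorem D_phi (d : Dyn S) {z : T} (hz : d.c * z ^ 2 + 1 ≠ 0) :
    S.H.D 1 (phi d.a d.c z) * (d.c * z ^ 2 + 1) ^ 2 = 2 * (d.a - d.c) * z * S.H.D 1 z +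
      rho d.a d.c (S.H.D 1 d.a) (S.H.D 1 d.c) (z, 1) := by
  have e : phi d.a d.c z * (d.c * (z * z) + 1) = d.a * (z * z) + 1 := by
    rw [← sq, phi, div_mul_cancel₀ _ hz]
  have e' := congrArg (S.H.D 1) e
  simp only [S.H.D1_mul, S.H.D_add, S.H.D_one 0] at e'
  simp only [rho]
  linear_combination (d.c * z ^ 2 + 1) * e' -
    (S.H.D 1 d.c * z ^ 2 + 2 * d.c * z * S.H.D 1 z) * e

theorem exists_th (d : Dyn S) : ∃ (u : T) (C : ℕ), u ≠ 0 ∧
    (∀ w ∈ S.fin, S.v w (u * S.H.D 1 d.a) ≤ 1 ∧ S.v w (u * S.H.D 1 d.c) ≤ 1) ∧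
    ∀ (m : ℕ) (z : T) (Z : T × T), d.Lift m z Z →
      (∀ w ∉ S.fin, S.v w (Z.2 ^ 2 * (u * S.H.D 1 z)) ≤ S.q ^ C) ∧
      S.I (fun w => max 1 (Set.mulIndicator S.fin
        (fun w => S.v w (Z.2 ^ 2 * (u * S.H.D 1 z))) w)) ≤ C * S.irr z := by
  obtain ⟨u1, -, n1, h1⟩ := S.denom _ (S.D_mem _ d.a_mem 1)
  obtain ⟨u2, -, n2, h2⟩ := S.denom _ (S.D_mem _ d.c_mem 1)
  obtain ⟨C1, c1⟩ := S.D_glob 1
  obtain ⟨C2, c2⟩ := d.lift_bound
  obtain ⟨C3, c3⟩ := S.inf_bound (u1 * u2)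
  have hu : ∀ w ∈ S.fin, S.v w (u1 * u2) ≤ 1 := fun w hw => by
    rw [map_mul]
    exact mul_le_one' (h1 w hw).1 (h2 w hw).1
  refine ⟨u1 * u2, C1 + (C3 + (C2 + C2)), mul_ne_zero n1 n2, fun w hw => ⟨?_, ?_⟩,
    fun m z Z hZ => ?_⟩
  · rw [mul_right_comm, map_mul]
    exact mul_le_one' (h1 w hw).2 (h2 w hw).1
  · rw [mul_assoc, map_mul]
    exact mul_le_one' (h1 w hw).1 (h2 w hw).2
  generalize u1 * u2 = u at *
  have k1 : ∀ w, S.v w (Z.2 ^ 2 * (u * S.H.D 1 z)) ≤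
      S.q ^ C1 * (S.v w u * (S.v w Z.1 * S.v w Z.2)) := fun w => by
    rw [map_mul, map_mul, map_pow, hZ.eq, map_mul]
    refine (mul_le_mul_right (mul_le_mul_right (c1 w z) _) _).trans_eq ?_
    ring
  have q1 : ∀ n, 1 ≤ S.q ^ n := fun n => one_le_pow₀ S.one_lt_q.le
  refine ⟨fun w hw => (k1 w).trans ?_, S.toPF.I_le_mass (fun w _ => max_le (q1 _) ?_)
    fun w hw => max_le le_rfl ?_⟩
  · have := max_le_iff.1 (c2 m Z hZ.iter 0 (Nat.zero_le _) w hw)
    rw [pow_add, pow_add, pow_add]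
    exact mul_le_mul_right (mul_le_mul' (c3 w hw) (mul_le_mul' this.1 this.2)) _
  · refine Set.mulIndicator_apply_le' (fun hw => (k1 w).trans ?_) fun _ => q1 _
    have := max_le_iff.1 (hZ.norm hw).le
    rw [pow_add]
    exact mul_le_mul_right ((mul_le_one' (hu w hw) (mul_le_one' this.1 this.2)).trans (q1 _)) _
  · obtain ⟨g1, g2⟩ := not_not.1 hw
    have g3 := S.good_fin g1
    have := max_le_iff.1 (hZ.norm g3).le
    rw [Set.mulIndicator_of_mem g3]
    rcases le_total (S.v w z) 1 with g | g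
    · rw [map_mul, map_mul, map_pow]
      exact mul_le_one' (pow_le_one' this.2 2) (mul_le_one' (hu w g3) (S.D_int w g1 z g2 g 1))
    · have z0 : z ≠ 0 := fun e => by simp [e] at g
      have e := S.H.D1_mul z z⁻¹
      rw [mul_inv_cancel₀ z0, S.H.D_one 0] at e
      have e' : Z.2 ^ 2 * (u * S.H.D 1 z) = -(Z.1 ^ 2 * (u * S.H.D 1 z⁻¹)) := by
        rw [hZ.eq]
        linear_combination -(Z.2 ^ 2 * u * z) * e - Z.2 ^ 2 * u * S.H.D 1 z * mul_inv_cancel₀ z0
      rw [e', Valuation.map_neg, map_mul, map_mul, map_pow]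
      exact mul_le_one' (pow_le_one' this.1 2) (mul_le_one' (hu w g3)
        (S.D_int w g1 _ (inv_mem g2) (by rw [map_inv₀]; exact inv_le_one_of_one_le₀ g) 1))

theorem Br.Uf_val (hb : d.Br b) {Z : ℕ → T × T} (h1 : ∀ n, d.Lift (n + 1) (b n) (Z n))
    (h2 : ∀ n, Phi d.a d.c (Z (n + 1)) = Z n) (u : T) (n κ : ℕ) :
    Uf d.a d.c (u * S.H.D 1 d.a) (u * S.H.D 1 d.c) κ (Z (n + κ))
      ((Z (n + κ)).2 ^ 2 * (u * S.H.D 1 (b (n + κ)))) = (Z n).2 ^ 2 * (u * S.H.D 1 (b n)) := by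
  have e : ∀ κ n, (Phi d.a d.c)^[κ] (Z (n + κ)) = Z n := fun κ n => by
    induction κ with
    | zero => rfl
    | succ κ ih => rw [Function.iterate_succ_apply, ← add_assoc, h2, ih]
  induction κ generalizing n with
  | zero => rfl
  | succ κ ih =>
    rw [Uf, ← add_assoc, add_right_comm, e, ih]
    have e1 : (Z n).2 = (Z (n + 1)).2 ^ 2 * (d.c * b (n + 1) ^ 2 + 1) := by
      rw [← h2 n, Phi, (h1 (n + 1)).eq]
      ring
    have e2 := d.D_phi (right_ne_zero_of_mul (e1 ▸ (h1 n).ne))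
    rw [hb.step] at e2
    simp only [rho] at e2 ⊢
    rw [e1, (h1 (n + 1)).eq]
    linear_combination -(u * (Z (n + 1)).2 ^ 4) * e2

end Dyn

end JR
end

-- merged part: Pool.Agent.Work.MP_969914_nt.S6Lam
section
/-! A linear form with many zeros along the critical orbit. -/

set_option autoImplicit false

namespace JR

open Polynomial
open scoped NNReal ENNReal

section aux
variable {p : ℕ} {k T : Type} [Field k] [Field T] [Algebra k T] (S : Std p k T)

theorem s6lam_le (w : S.W) (l : k) (X : T × T) :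
    S.v w (lf (algebraMap k T l) X) ≤ max (S.v w X.1) (S.v w X.2) := by
  refine (S.v w).map_sub_le (le_max_left _ _) ?_
  rw [map_mul]
  exact (mul_le_of_le_one_left' (S.v_k w l)).trans (le_max_right _ _)

theorem s6lam_sub (w : S.W) (X : T × T) : Set.Subsingleton
    {l : k | S.v w (lf (algebraMap k T l) X) ≠ max (S.v w X.1) (S.v w X.2)} := by
  intro l hl l' hl'
  by_contra hne
  have h1 := lt_of_le_of_ne (s6lam_le S w l X) hl
  have h2 := lt_of_le_of_ne (s6lam_le S w l' X) hl'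
  have h3 := (S.v w).map_sub_lt h1 h2
  have e : lf (algebraMap k T l) X - lf (algebraMap k T l') X = algebraMap k T (l' - l) * X.2 := by
    simp only [lf, map_sub]
    ring
  rw [e, map_mul, S.v_k_eq w (sub_ne_zero.2 (Ne.symm hne)), one_mul] at h3
  have h4 : S.v w (algebraMap k T l * X.2) < max (S.v w X.1) (S.v w X.2) := by
    rw [map_mul]
    exact (mul_le_of_le_one_left' (S.v_k w l)).trans_lt h3
  have h5 := (S.v w).map_add_lt h1 h4
  rw [lf, sub_add_cancel] at h5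
  exact (max_lt h5 h3).false

theorem s6lam_sub0 {X : T × T} (hX : X ≠ 0) :
    Set.Subsingleton {l : k | lf (algebraMap k T l) X = 0} := by
  intro l hl l' hl'
  by_contra hne
  have h1 : X.1 - algebraMap k T l * X.2 = 0 := hl
  have h2 : X.1 - algebraMap k T l' * X.2 = 0 := hl'
  have h3 : algebraMap k T (l' - l) * X.2 = 0 := by
    rw [map_sub]
    linear_combination h1 - h2
  have h4 : X.2 = 0 := (mul_eq_zero.1 h3).resolve_left
    ((_root_.map_ne_zero _).2 (sub_ne_zero.2 (Ne.symm hne)))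
  rw [h4, mul_zero, sub_zero] at h1
  exact hX (Prod.ext h1 h4)

theorem s6lam_one {α : T} (hα : α ≠ 0) (h : ∀ w ∈ S.fin, S.v w α ≤ 1) (w : S.W) :
    1 ≤ Set.mulIndicator S.fin (fun w => (S.v w α)⁻¹) w := by
  by_cases hw : w ∈ S.fin
  · rw [Set.mulIndicator_of_mem hw]
    exact (one_le_inv₀ ((S.v w).pos_iff.2 hα)).2 (h w hw)
  · rw [Set.mulIndicator_of_notMem hw]

theorem s6lam_zer {α β : T} (hα : α ≠ 0) (hβ : β ≠ 0) (h1 : ∀ w ∈ S.fin, S.v w α ≤ 1)
    (h2 : ∀ w ∈ S.fin, S.v w β ≤ 1) {m : ℕ} (h3 : ∀ w ∉ S.fin, S.v w β ≤ S.q ^ m * S.v w α) :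
    S.zer β ≤ S.zer α + m := by
  classical
  have hq : 1 ≤ S.q ^ m := one_le_pow₀ S.one_lt_q.le
  have h4 := S.pf (β / α) (div_ne_zero hβ hα)
    (fun w => Set.mulIndicator S.fin (fun w => (S.v w α)⁻¹) w * if w ∈ S.fin then 1 else S.q ^ m)
    (fun w => one_le_mul (s6lam_one S hα h1 w) (by split_ifs; exacts [le_rfl, hq]))
    (fun w => by
      have h0 := (S.v w).pos_iff.2 hα
      rw [map_div₀]
      by_cases hw : w ∈ S.fin
      · rw [Set.mulIndicator_of_mem hw, if_pos hw, mul_one, div_eq_mul_inv]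
        exact mul_le_of_le_one_left' (h2 w hw)
      · rw [Set.mulIndicator_of_notMem hw, if_neg hw, one_mul, div_le_iff₀ h0]
        exact h3 w hw)
  refine (S.I_mono _ _ fun w => ?_).trans (h4.trans ((S.I_mul _ _).trans (add_le_add le_rfl ?_)))
  · by_cases hw : w ∈ S.fin
    · refine le_trans (le_of_eq ?_) (le_max_right _ _)
      have h0 := (S.v w).pos_iff.2 hα
      rw [Set.mulIndicator_of_mem hw, Set.mulIndicator_of_mem hw, if_pos hw, mul_one, map_div₀]
      field_simp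
    · rw [Set.mulIndicator_of_notMem hw]
      exact le_max_left _ _
  · refine (S.toPF.I_le_mass (E := S.finᶜ) (C := m) (fun w hw => (if_neg hw).le)
      fun w hw => (if_pos (not_not.1 hw)).le).trans ?_
    exact mul_le_of_le_one_right' S.mass_inf

theorem s6lam_ht {X : T × T} {L : T} (hX : X.2 ≠ 0) (hL : L ≠ 0)
    (h1 : ∀ w ∈ S.fin, S.v w L ≤ 1) (h2 : ∀ w ∈ S.fin, max (S.v w X.1) (S.v w X.2) = 1)
    (h3 : ∀ w ∉ S.fin, S.v w L = max (S.v w X.1) (S.v w X.2)) :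
    S.toPF.ht (X.1 / X.2) ≤ S.zer L := by
  have key : ∀ x : T, (∀ w, S.v w x ≤ max (S.v w X.1) (S.v w X.2)) → ∀ w,
      S.v w (x / L) ≤ Set.mulIndicator S.fin (fun w => (S.v w L)⁻¹) w := by
    intro x hx w
    rw [map_div₀]
    by_cases hw : w ∈ S.fin
    · rw [Set.mulIndicator_of_mem hw, div_eq_mul_inv]
      exact mul_le_of_le_one_left' ((hx w).trans (h2 w hw).le)
    · rw [Set.mulIndicator_of_notMem hw, div_le_one₀ ((S.v w).pos_iff.2 hL), h3 w hw]
      exact hx w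
  rw [← div_div_div_cancel_right₀ hL]
  exact S.toPF.ht_div_le (div_ne_zero hX hL) (s6lam_one S hL h1)
    (key _ fun _ => le_max_left _ _) (key _ fun _ => le_max_right _ _)

theorem s6lam_rec {M : ℕ → ℝ≥0} {Q : ℝ≥0} (hQ : 1 ≤ Q) (h : ∀ n, M (n + 1) ≤ Q * M n ^ 2)
    (n r : ℕ) : M (n + r) ≤ Q ^ 2 ^ r * M n ^ 2 ^ r := by
  have key : Q * M (n + r) ≤ (Q * M n) ^ 2 ^ r := by
    induction r with
    | zero => simp
    | succ r ih =>
      rw [pow_succ 2, pow_mul]
      refine (mul_le_mul_right (h (n + r)) _).trans ?_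
      rw [← mul_assoc, ← sq, ← mul_pow]
      exact pow_le_pow_left₀ zero_le ih 2
  rw [← mul_pow]
  exact (le_mul_of_one_le_left' hQ).trans key

theorem s6lam_prod {M : ℕ → ℝ≥0} {Q : ℝ≥0} (hQ : 1 ≤ Q) (h : ∀ n, M (n + 1) ≤ Q * M n ^ 2)
    {κ N : ℕ} (hκ : κ ≤ N) :
    M N ^ κ ≤ Q ^ 2 ^ κ * ∏ r ∈ Finset.range κ, M (N - r) ^ 2 ^ r := by
  induction κ with
  | zero => simpa using hQ
  | succ κ ih =>
    have h1 := s6lam_rec hQ h (N - κ) κ
    rw [Nat.sub_add_cancel (by omega)] at h1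
    rw [pow_succ, Finset.prod_range_succ, pow_succ 2, pow_mul, sq, mul_mul_mul_comm]
    exact mul_le_mul' (ih (by omega)) h1

end aux

namespace Dyn
variable {p : ℕ} [Fact p.Prime] {k T : Type} [Field k] [IsAlgClosed k] [CharP k p] [Field T]
  [Algebra k T] {S : Std p k T} (d : Dyn S)

theorem exists_generic (N : ℕ) : ∃ l : k,
    (∀ b, ∀ n ≤ N, lf (algebraMap k T l) (orb d.a d.c b n) ≠ 0) ∧ ∀ n ≤ N, ∀ w ∉ S.fin,
      S.v w (lf (algebraMap k T l) (orb d.a d.c false n)) =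
        max (S.v w (orb d.a d.c false n).1) (S.v w (orb d.a d.c false n).2) := by
  obtain ⟨s, hs⟩ := S.restr_inf
  have h1 : (⋃ b, ⋃ n ∈ Set.Iic N, {l : k | lf (algebraMap k T l) (orb d.a d.c b n) = 0}).Finite :=
    Set.finite_iUnion fun b => (Set.finite_Iic N).biUnion fun n _ =>
      (s6lam_sub0 (orb_ne_zero d.hypH.ne b n)).finite
  have h2 : (⋃ n ∈ Set.Iic N, ⋃ w ∈ (s : Set S.W), {l : k |
      S.v w (lf (algebraMap k T l) (orb d.a d.c false n)) ≠
        max (S.v w (orb d.a d.c false n).1) (S.v w (orb d.a d.c false n).2)}).Finite :=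
    (Set.finite_Iic N).biUnion fun n _ => s.finite_toSet.biUnion fun w _ =>
      (s6lam_sub S w _).finite
  obtain ⟨l, hl⟩ := (h1.union h2).exists_notMem
  simp only [Set.mem_union, Set.mem_iUnion, not_or, not_exists] at hl
  refine ⟨l, fun b n hn => hl.1 b n hn, fun n hn w hw => ?_⟩
  obtain ⟨w', hw', e⟩ := hs w hw
  obtain ⟨m1, m2⟩ := d.orb_mem false n
  rw [e _ m1, e _ m2, e (lf _ _) (sub_mem m1 (mul_mem (S.K0.algebraMap_mem l) m2))]
  exact not_not.1 (hl.2 n hn w' hw')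

theorem exists_lam (hk : ∀ x : k, ∃ n, 0 < n ∧ x ^ p ^ n = x) :
    ∃ (h : ℝ≥0) (C : ℕ), 0 < h ∧ ∀ κ N : ℕ, κ + 1 ≤ N → ∃ l : k,
      (∀ b, ∀ n ≤ N, lf (algebraMap k T l) (orb d.a d.c b n) ≠ 0) ∧
      (κ : ℝ≥0∞) * (h * 2 ^ N) ≤ S.zer (∏ r ∈ Finset.range κ,
        lf (algebraMap k T l) (orb d.a d.c false (N - r)) ^ 2 ^ r) + C * (κ + 2 ^ κ) := by
  obtain ⟨h, hh⟩ := S.exists_hat d.hypH.ne false
  have h0 := S.hat_pos hk d.a_mem d.c_mem d.a_int d.c_int d.d_unit d.hypH.ne d.hypH.inj hh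
  obtain ⟨C₀, hC₀⟩ := hh
  obtain ⟨C, hC⟩ := d.exists_inf_const
  refine ⟨h / 2, C + ⌈C₀⌉₊, half_pos (pos_iff_ne_zero.2 h0), fun κ N hκ => ?_⟩
  obtain ⟨l, hl, hl'⟩ := d.exists_generic N
  refine ⟨l, hl, ?_⟩
  have hfin : ∀ n, ∀ w ∈ S.fin, S.v w (lf (algebraMap k T l) (orb d.a d.c false n)) ≤ 1 :=
    fun n w hw => (s6lam_le S w l _).trans (d.norm_orb hw false n).le
  obtain ⟨n, rfl⟩ : ∃ n, N = n + 1 := ⟨N - 1, by omega⟩
  have h1 := s6lam_ht S (d.hypH.orb_ne n).2.1 (hl false _ le_rfl) (hfin _)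
    (fun w hw => d.norm_orb hw false _) (hl' _ le_rfl)
  have h2 := s6lam_zer S (α := ∏ r ∈ Finset.range κ,
      lf (algebraMap k T l) (orb d.a d.c false (n + 1 - r)) ^ 2 ^ r) (m := C * 2 ^ κ)
    (Finset.prod_ne_zero_iff.2 fun r _ => pow_ne_zero _ (hl false _ (Nat.sub_le _ _)))
    (pow_ne_zero κ (hl false _ le_rfl))
    (fun w hw => by
      rw [map_prod]
      exact Finset.prod_le_one' fun r _ => by
        rw [map_pow]
        exact pow_le_one' (hfin _ w hw) _)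
    (fun w hw => by
      rw [map_pow]
      exact pow_le_one' (hfin _ w hw) _)
    (fun w hw => by
      have := s6lam_prod (M := fun n => max (S.v w (orb d.a d.c false n).1)
        (S.v w (orb d.a d.c false n).2)) (one_le_pow₀ S.one_lt_q.le)
        (fun n => by rw [orb_succ]; exact (hC w hw _).1) (κ := κ) (N := n + 1) (by omega)
      rw [map_pow, map_prod, pow_mul, hl' _ le_rfl w hw]
      refine this.trans_eq (congrArg _ (Finset.prod_congr rfl fun r _ => ?_))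
      rw [map_pow, hl' _ (Nat.sub_le _ _) w hw])
  rw [S.zer_pow] at h2
  have h3 : ((h / 2 : ℝ≥0) : ℝ≥0∞) * 2 ^ (n + 1) = h * 2 ^ n := by
    have : h / 2 * 2 ^ (n + 1) = h * 2 ^ n := by
      rw [pow_succ']
      field_simp
    exact_mod_cast this
  have h4 : (C₀ : ℝ≥0∞) ≤ (⌈C₀⌉₊ : ℕ) := by exact_mod_cast Nat.le_ceil C₀
  rw [h3]
  refine (mul_le_mul_right ((hC₀ n).2.trans (add_le_add h1 h4)) _).trans ?_
  rw [mul_add]
  refine (add_le_add h2 le_rfl).trans ?_
  rw [add_assoc]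
  refine add_le_add le_rfl ?_
  have : C * 2 ^ κ + κ * ⌈C₀⌉₊ ≤ (C + ⌈C₀⌉₊) * (κ + 2 ^ κ) := by
    nlinarith [Nat.zero_le (C * κ), Nat.zero_le (⌈C₀⌉₊ * 2 ^ κ)]
  exact_mod_cast this

end Dyn

end JR
end

-- merged part: Pool.Agent.Work.MP_969914_nt.S6Res
section
/-! Resultants of the iterates. -/

set_option autoImplicit false

namespace JR

open Polynomial

section ring
variable {R : Type} [CommRing R]

theorem s6res_mul {f₁ f₂ g : R[X]} {m₁ m₂ n : ℕ} (h1 : f₁.natDegree ≤ m₁) (h2 : f₂.natDegree ≤ m₂)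
    (hg : g.natDegree ≤ n) :
    resultant (f₁ * f₂) g (m₁ + m₂) n = resultant f₁ g m₁ n * resultant f₂ g m₂ n := by
  obtain ⟨k₁, rfl⟩ := Nat.exists_eq_add_of_le h1
  obtain ⟨k₂, rfl⟩ := Nat.exists_eq_add_of_le h2
  rw [add_add_add_comm, resultant_add_left_deg _ _ _ _ _ natDegree_mul_le,
    resultant_add_left_deg _ _ _ _ _ le_rfl, resultant_add_left_deg _ _ _ _ _ le_rfl,
    resultant_mul_left _ _ _ _ hg]
  ring

/-- `x` divides the resultant of `f` (formal degree `m`) with `g`. -/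
def s6res_Dv (g : R[X]) (n : ℕ) (x : R) (f : R[X]) (m : ℕ) : Prop :=
  f.natDegree ≤ m ∧ x ∣ resultant f g m n

theorem s6res_Dv.mul {g f₁ f₂ : R[X]} {n m₁ m₂ : ℕ} {x₁ x₂ : R} (hg : g.natDegree ≤ n)
    (h1 : s6res_Dv g n x₁ f₁ m₁) (h2 : s6res_Dv g n x₂ f₂ m₂) :
    s6res_Dv g n (x₁ * x₂) (f₁ * f₂) (m₁ + m₂) :=
  ⟨natDegree_mul_le.trans (add_le_add h1.1 h2.1), by
    rw [s6res_mul h1.1 h2.1 hg]
    exact mul_dvd_mul h1.2 h2.2⟩

theorem s6res_Dv.pow {g f : R[X]} {n m : ℕ} {x : R} (hg : g.natDegree ≤ n)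
    (h : s6res_Dv g n x f m) (i : ℕ) : s6res_Dv g n (x ^ i) (f ^ i) (i * m) := by
  induction i with
  | zero => exact ⟨by simp, by simp⟩
  | succ i ih =>
    rw [pow_succ, pow_succ, add_mul, one_mul]
    exact ih.mul hg h

/-- `U` is congruent to `x Q ^ m` modulo `P`, homogeneously. -/
def s6res_Cg (D : ℕ) (P Q : R[X]) (m : ℕ) (x : R) (U : R[X]) : Prop :=
  ∃ H : R[X], H.natDegree + D ≤ m * D ∧ U = C x * Q ^ m + P * H

theorem s6res_Cg.lin {D m : ℕ} {P Q U V : R[X]} {x y : R} (h1 : s6res_Cg D P Q m x U)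
    (h2 : s6res_Cg D P Q m y V) (e : R) : s6res_Cg D P Q m (e * x + y) (C e * U + V) := by
  obtain ⟨H1, d1, rfl⟩ := h1
  obtain ⟨H2, d2, rfl⟩ := h2
  refine ⟨C e * H1 + H2, ?_, by rw [map_add, map_mul]; ring⟩
  have h3 := natDegree_add_le (C e * H1) H2
  have h4 := natDegree_C_mul_le e H1
  omega

theorem s6res_Cg.sq {D m : ℕ} {P Q U : R[X]} {x : R} (hP : P.natDegree ≤ D) (hQ : Q.natDegree ≤ D)
    (h : s6res_Cg D P Q m x U) : s6res_Cg D P Q (m * 2) (x ^ 2) (U ^ 2) := by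
  obtain ⟨H, d, rfl⟩ := h
  refine ⟨C (2 * x) * (Q ^ m * H) + P * (H * H), ?_, by
    rw [map_mul, map_pow, map_ofNat]; ring⟩
  have h1 := natDegree_add_le (C (2 * x) * (Q ^ m * H)) (P * (H * H))
  have h2 := natDegree_C_mul_le (2 * x) (Q ^ m * H)
  have h3 := natDegree_mul_le (p := Q ^ m) (q := H)
  have h4 := natDegree_pow_le_of_le m hQ
  have h5 := natDegree_mul_le (p := P) (q := H * H)
  have h6 := natDegree_mul_le (p := H) (q := H)
  rw [mul_right_comm]
  omega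

theorem s6res_iter (a c : R) {D : ℕ} {P Q : R[X]} (hP : P.natDegree ≤ D) (hQ : Q.natDegree ≤ D)
    {Y : R × R} {Z : R[X] × R[X]} (h1 : s6res_Cg D P Q 1 Y.1 Z.1) (h2 : s6res_Cg D P Q 1 Y.2 Z.2)
    (n : ℕ) : s6res_Cg D P Q (2 ^ n) ((Phi a c)^[n] Y).1 ((Phi (C a) (C c))^[n] Z).1 ∧
      s6res_Cg D P Q (2 ^ n) ((Phi a c)^[n] Y).2 ((Phi (C a) (C c))^[n] Z).2 := by
  induction n with
  | zero => exact ⟨h1, h2⟩
  | succ n ih =>
    rw [Function.iterate_succ_apply', Function.iterate_succ_apply', pow_succ]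
    exact ⟨(ih.1.sq hP hQ).lin (ih.2.sq hP hQ) a, (ih.1.sq hP hQ).lin (ih.2.sq hP hQ) c⟩

theorem s6res_lf {D m : ℕ} {P Q : R[X]} {Y : R × R} {Z : R[X] × R[X]}
    (h : s6res_Cg D P Q m Y.1 Z.1 ∧ s6res_Cg D P Q m Y.2 Z.2) (l : R) :
    s6res_Cg D P Q m (lf l Y) (lf (C l) Z) := by
  have h1 := h.2.lin h.1 (-l)
  rwa [map_neg, neg_mul, neg_mul, neg_add_eq_sub, neg_add_eq_sub] at h1

theorem s6res_cong (a c l : R) {r N : ℕ} (h : r ≤ N) :
    s6res_Cg (2 ^ r) (PQ a c r).1 (PQ a c r).2 (2 ^ (N - r)) (lf l (orb a c false (N - r)))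
      (lf (C l) (PQ a c N)) ∧
    s6res_Cg (2 ^ r) (PQ a c r).2 (PQ a c r).1 (2 ^ (N - r)) (lf l (orb a c true (N - r)))
      (lf (C l) (PQ a c N)) := by
  have h1 : PQ a c N = (Phi (C a) (C c))^[N - r] (PQ a c r) := by
    rw [PQ, PQ, ← Function.iterate_add_apply, Nat.sub_add_cancel h]
  obtain ⟨h2, h3⟩ := natDegree_PQ a c r
  rw [h1]
  exact ⟨s6res_lf (s6res_iter a c h2 h3 ⟨1, by simp, by simp [crit]⟩
      ⟨0, by simp, by simp [crit]⟩ _) l,
    s6res_lf (s6res_iter a c h3 h2 ⟨0, by simp, by simp [crit]⟩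
      ⟨1, by simp, by simp [crit]⟩ _) l⟩

theorem s6res_deg (a c l : R) (N : ℕ) : (lf (C l) (PQ a c N)).natDegree ≤ 2 ^ N :=
  (natDegree_sub_le _ _).trans (max_le (natDegree_PQ a c N).1
    ((natDegree_C_mul_le _ _).trans (natDegree_PQ a c N).2))

theorem s6res_main (a c l : R) {k N e i : ℕ} (hN : k + 1 ≤ N) (hi : i ≤ e) :
    s6res_Dv (lf (C l) (PQ a c N)) (2 ^ N)
      ((∏ r ∈ Finset.range k, lf l (orb a c false (N - r)) ^ 2 ^ r) ^ i)
      ((PQ a c (k + 1)).1 ^ (e - i) * Jp a c k ^ i) (2 ^ (k + 1) * e - 2 * i) := by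
  have hg := s6res_deg a c l N
  have h1 : ∀ j ≤ N, s6res_Dv (lf (C l) (PQ a c N)) (2 ^ N)
      (∏ r ∈ Finset.range j, lf l (orb a c false (N - r)) ^ 2 ^ r) (Jp a c j) (2 ^ (j + 1) - 2) := by
    intro j hj
    induction j with
    | zero => exact ⟨by simp [Jp], by simp⟩
    | succ j ih =>
      obtain ⟨H, d, hH⟩ := (s6res_cong a c l (r := j) (N := N) (by omega)).1
      rw [← pow_add, Nat.sub_add_cancel (by omega)] at d
      have h2 : s6res_Dv (lf (C l) (PQ a c N)) (2 ^ N) (lf l (orb a c false (N - j)) ^ 2 ^ j)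
          (PQ a c j).1 (2 ^ j) := ⟨(natDegree_PQ a c j).1, by
        rw [hH, resultant_add_mul_right _ _ _ _ _ d (natDegree_PQ a c j).1, resultant_C_mul_right]
        exact dvd_mul_right _ _⟩
      have h3 := (ih (by omega)).mul hg ((s6res_Dv.mul hg (f₁ := C (2 * (a - c))) (m₁ := 0)
        ⟨(natDegree_C _).le, one_dvd _⟩ h2).mul hg ⟨(natDegree_PQ a c j).2, one_dvd _⟩)
      have h4 : 2 ^ (j + 1) - 2 + (0 + 2 ^ j + 2 ^ j) = 2 ^ (j + 1 + 1) - 2 := by
        have := Nat.one_le_two_pow (n := j)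
        omega
      rw [one_mul, mul_one, h4] at h3
      rw [Jp, Finset.prod_range_succ, Finset.prod_range_succ]
      exact h3
  have h5 := (s6res_Dv.pow hg ⟨(natDegree_PQ a c (k + 1)).1, one_dvd _⟩ (e - i)).mul hg
    ((h1 k (by omega)).pow hg i)
  have h6 : (e - i) * 2 ^ (k + 1) + i * (2 ^ (k + 1) - 2) = 2 ^ (k + 1) * e - 2 * i := by
    obtain ⟨j, rfl⟩ := Nat.exists_eq_add_of_le hi
    obtain ⟨t, ht⟩ : ∃ t, 2 ^ (k + 1) = t + 2 :=
      ⟨2 ^ (k + 1) - 2, by have := Nat.one_le_two_pow (n := k); omega⟩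
    rw [ht, Nat.add_sub_cancel_left, Nat.add_sub_cancel]
    refine Nat.eq_sub_of_add_eq ?_
    ring
  rwa [one_pow, one_mul, h6] at h5

theorem natDegree_Jp (a c : R) (k : ℕ) : (Jp a c k).natDegree + 2 ≤ 2 ^ (k + 1) := by
  induction k with
  | zero => simp [Jp]
  | succ k ih =>
    have h1 := natDegree_PQ a c k
    have h2 := natDegree_mul_le (p := Jp a c k)
      (q := C (2 * (a - c)) * (PQ a c k).1 * (PQ a c k).2)
    have h3 := natDegree_mul_le (p := C (2 * (a - c)) * (PQ a c k).1) (q := (PQ a c k).2)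
    have h4 := natDegree_C_mul_le (2 * (a - c)) (PQ a c k).1
    rw [Jp, Finset.prod_range_succ, ← Jp, pow_succ 2 (k + 1), pow_succ 2 k] at *
    omega

theorem res_dvd [IsDomain R] (a c l : R) {k N e i : ℕ} (hN : k + 1 ≤ N) (hi : i ≤ e) :
    (∏ r ∈ Finset.range k, lf l (orb a c false (N - r)) ^ 2 ^ r) ^ i ∣
      resultant ((PQ a c (k + 1)).1 ^ (e - i) * Jp a c k ^ i) (lf (C l) (PQ a c N))
        (2 ^ (k + 1) * e - 2 * i) (2 ^ N) := by
  exact (s6res_main a c l hN hi).2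

end ring

section field
variable {K : Type} [Field K] {a c : K}

theorem res_ne (h2 : (2 : K) ≠ 0) (h : a ≠ c) {l : K} {k N e i : ℕ} (hN : k + 1 ≤ N) (hi : i ≤ e)
    (hl : ∀ b, ∀ n ≤ N, lf l (orb a c b n) ≠ 0) :
    resultant ((PQ a c (k + 1)).1 ^ (e - i) * Jp a c k ^ i) (lf (C l) (PQ a c N))
      (2 ^ (k + 1) * e - 2 * i) (2 ^ N) ≠ 0 := by
  have hc : (lf (C l) (PQ a c N)).coeff (2 ^ N) ≠ 0 := by
    have h1 := hl true N le_rfl
    rw [← coeff_PQ] at h1
    rwa [lf, coeff_sub, coeff_C_mul]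
  have hd : (lf (C l) (PQ a c N)).natDegree = 2 ^ N :=
    le_antisymm (s6res_deg a c l N) (le_natDegree_of_ne_zero hc)
  have key : ∀ {D m : ℕ} {P Q U : K[X]} {x : K}, IsCoprime P Q → x ≠ 0 →
      s6res_Cg D P Q m x U → IsCoprime P U := by
    rintro D m P Q U x h1 h3 ⟨H, -, rfl⟩
    exact ((isCoprime_mul_unit_left_right (isUnit_C.2 h3.isUnit) _ _).2
      h1.pow_right).add_mul_left_right H
  have h3 : ∀ r ≤ N, IsCoprime (PQ a c r).1 (lf (C l) (PQ a c N)) ∧
      IsCoprime (PQ a c r).2 (lf (C l) (PQ a c N)) := fun r hr =>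
    ⟨key (isCoprime_PQ h r) (hl false _ (Nat.sub_le _ _)) (s6res_cong a c l hr).1,
      key (isCoprime_PQ h r).symm (hl true _ (Nat.sub_le _ _)) (s6res_cong a c l hr).2⟩
  have h4 : IsCoprime ((PQ a c (k + 1)).1 ^ (e - i) * Jp a c k ^ i) (lf (C l) (PQ a c N)) := by
    refine (h3 _ hN).1.pow_left.mul_left (IsCoprime.pow_left (IsCoprime.prod_left fun r hr => ?_))
    have h5 := h3 r (by have := Finset.mem_range.1 hr; omega)
    exact ((isCoprime_mul_unit_left_left (isUnit_C.2 (mul_ne_zero h2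
      (sub_ne_zero.2 h)).isUnit) _ _).2 h5.1).mul_left h5.2
  obtain ⟨j, hj⟩ := Nat.exists_eq_add_of_le (s6res_main a c l hN hi).1
  have h6 := resultant_ne_zero _ _ h4
  rw [hd] at h6
  rw [hj, resultant_add_left_deg _ _ _ _ _ le_rfl]
  exact mul_ne_zero (mul_ne_zero (pow_ne_zero _ (neg_ne_zero.2 one_ne_zero)) (pow_ne_zero _ hc)) h6

end field

end JR
end

-- merged part: Pool.Agent.Work.MP_969914_nt.S6L
section
/-! Bounded ramification forces the jets of a branch onto a curve. -/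

set_option autoImplicit false

namespace JR

open Polynomial
open scoped NNReal ENNReal

section ring
variable {R : Type} [CommRing R]

/-- Weighted degree: the inner variable has weight one, the outer variable weight two. -/
def Wd (M : ℕ) (G : R[X][X]) : Prop := ∀ i r, (G.coeff i).coeff r ≠ 0 → r + 2 * i ≤ M

theorem Wd.mul {M M' : ℕ} {G G' : R[X][X]} (h : Wd M G) (h' : Wd M' G') : Wd (M + M') (G * G') := by
  intro i r hne
  rw [coeff_mul, finsetSum_coeff] at hne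
  obtain ⟨x, hx, h1⟩ := Finset.exists_ne_zero_of_sum_ne_zero hne
  rw [coeff_mul] at h1
  obtain ⟨y, hy, h2⟩ := Finset.exists_ne_zero_of_sum_ne_zero h1
  have h3 := h _ _ (left_ne_zero_of_mul h2)
  have h4 := h' _ _ (right_ne_zero_of_mul h2)
  have h5 := Finset.HasAntidiagonal.mem_antidiagonal.1 hx
  have h6 := Finset.HasAntidiagonal.mem_antidiagonal.1 hy
  omega

theorem Wd.C {M : ℕ} {g : R[X]} (h : g.natDegree ≤ M) : Wd M (C g) := by
  intro i r hne
  rw [coeff_C] at hne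
  split_ifs at hne with hi
  · have := le_natDegree_of_ne_zero hne
    omega
  · simp at hne

theorem Wd.X : Wd 2 (X : R[X][X]) := by
  intro i r hne
  rw [coeff_X] at hne
  split_ifs at hne with hi
  · rw [coeff_one] at hne
    split_ifs at hne with hr
    · omega
    · simp at hne
  · simp at hne

theorem Wd.add {M : ℕ} {G G' : R[X][X]} (h : Wd M G) (h' : Wd M G') : Wd M (G + G') := by
  intro i r hne
  rw [coeff_add, coeff_add] at hne
  by_cases h1 : (G.coeff i).coeff r = 0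
  · exact h' i r (by simpa [h1] using hne)
  · exact h i r h1

theorem Wd.mono {M M' : ℕ} {G : R[X][X]} (h : Wd M G) (hM : M ≤ M') : Wd M' G :=
  fun i r hne => (h i r hne).trans hM

theorem Wd.pow {M : ℕ} {G : R[X][X]} (h : Wd M G) (n : ℕ) : Wd (n * M) (G ^ n) := by
  induction n with
  | zero => simpa using Wd.C (R := R) (M := 0) (g := 1) (by simp)
  | succ n ih => rw [pow_succ, add_mul, one_mul]; exact ih.mul h

variable (a c a' c' l : R) (κ e N : ℕ)

/-- The number of monomials in the block `i`. -/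
abbrev nL (i : Fin (e + 1)) : ℕ := 2 ^ (κ + 1) * e - 2 * i + 2 ^ N

/-- The small basis. -/
noncomputable def gL (α : Σ i, Fin (nL κ e N i)) : R[X][X] :=
  Fin.addCases (motive := fun _ => R[X][X])
    (fun s => C (X ^ (s : ℕ) * lf (C l) (PQ a c N)) * X ^ (α.1 : ℕ))
    (fun s => C (Bf (C a) (C c) N s (X, 1) * (PQ a c (κ + 1)).1 ^ (e - α.1)) *
      Up a c a' c' κ ^ (α.1 : ℕ)) α.2

theorem natDegree_Up : (Up a c a' c' κ).natDegree ≤ 1 ∧ (Up a c a' c' κ).coeff 1 = Jp a c κ := by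
  obtain ⟨g, -, hg⟩ := Up_eq a c a' c' κ
  rw [hg]
  exact ⟨natDegree_linear_le, by simp⟩

theorem natDegree_gL (α : Σ i, Fin (nL κ e N i)) :
    (gL a c a' c' l κ e N α).natDegree ≤ α.1 := by
  obtain ⟨i, α⟩ := α
  induction α using Fin.addCases with
  | left s =>
    simp only [gL, Fin.addCases_left]
    exact (natDegree_C_mul_le _ _).trans (natDegree_X_pow_le _)
  | right s =>
    simp only [gL, Fin.addCases_right]
    refine (natDegree_C_mul_le _ _).trans (natDegree_pow_le.trans ?_)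
    simpa using Nat.mul_le_mul_left i (natDegree_Up a c a' c' κ).1

theorem coeff_gL (i : Fin (e + 1)) (α : Fin (nL κ e N i)) :
    (gL a c a' c' l κ e N ⟨i, α⟩).coeff i = Fin.addCases (motive := fun _ => R[X])
      (fun s => X ^ (s : ℕ) * lf (C l) (PQ a c N))
      (fun s => Bf (C a) (C c) N s (X, 1) * ((PQ a c (κ + 1)).1 ^ (e - i) * Jp a c κ ^ (i : ℕ))) α := by
  induction α using Fin.addCases with
  | left s => simp only [gL, Fin.addCases_left, coeff_C_mul, coeff_X_pow_self, mul_one]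
  | right s =>
    simp only [gL, Fin.addCases_right, coeff_C_mul]
    have h := coeff_pow_of_natDegree_le (m := i) (natDegree_Up a c a' c' κ).1
    rw [mul_one] at h
    rw [h, (natDegree_Up a c a' c' κ).2, mul_assoc]

theorem natDegree_lf : (lf (C l) (PQ a c N)).natDegree ≤ 2 ^ N :=
  (natDegree_sub_le _ _).trans (max_le (natDegree_PQ a c N).1
    ((natDegree_C_mul_le _ _).trans (natDegree_PQ a c N).2))

theorem two_mul_le_L (i : Fin (e + 1)) : 2 * (i : ℕ) ≤ 2 ^ (κ + 1) * e :=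
  Nat.mul_le_mul (by simpa using Nat.pow_le_pow_right two_pos (Nat.le_add_left 1 κ))
    (Nat.lt_succ_iff.1 i.2)

theorem wd_gL (α : Σ i, Fin (nL κ e N i)) :
    Wd (2 ^ N - 1 + 2 ^ (κ + 1) * e) (gL a c a' c' l κ e N α) := by
  obtain ⟨i, α⟩ := α
  have hi := two_mul_le_L κ e i
  have hN := Nat.one_le_two_pow (n := N)
  induction α using Fin.addCases with
  | left s =>
    simp only [gL, Fin.addCases_left]
    refine ((Wd.C (natDegree_mul_le.trans (add_le_add (natDegree_X_pow_le _)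
      (natDegree_lf a c l N)))).mul (Wd.X.pow i)).mono ?_
    have := s.2
    omega
  | right s =>
    simp only [gL, Fin.addCases_right]
    obtain ⟨g, hg1, hg⟩ := Up_eq a c a' c' κ
    have h1 : Wd (2 ^ (κ + 1)) (Up a c a' c' κ) := by
      rw [hg]
      exact (((Wd.C le_rfl).mul Wd.X).mono (natDegree_Jp a c κ)).add (Wd.C hg1)
    have h2 := natDegree_Bf a c N s
    refine ((Wd.C (M := 2 ^ N - 1 + (e - i) * 2 ^ (κ + 1)) (natDegree_mul_le.trans
      (add_le_add (by omega) (natDegree_pow_le.trans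
        (Nat.mul_le_mul_left _ (natDegree_PQ a c _).1))))).mul (h1.pow i)).mono ?_
    rw [add_assoc, ← add_mul, Nat.sub_add_cancel (Nat.lt_succ_iff.1 i.2), mul_comm]

theorem degree_coeff_gL (α : Σ i, Fin (nL κ e N i)) (i : Fin (e + 1)) :
    ((gL a c a' c' l κ e N α).coeff i).degree < (nL κ e N i : ℕ) := by
  rw [degree_lt_iff_coeff_zero]
  intro r hr
  by_contra hne
  have h1 := wd_gL a c a' c' l κ e N α i r hne
  have hi := two_mul_le_L κ e i
  have hN := Nat.one_le_two_pow (n := N)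
  simp only [nL] at hr
  omega

theorem det_gL :
    (Matrix.of fun α β : Σ i, Fin (nL κ e N i) =>
      ((gL a c a' c' l κ e N α).coeff β.1).coeff β.2).det =
      ∏ i : Fin (e + 1),
        (Matrix.of fun s r : Fin (2 ^ N) => (Bf (C a) (C c) N s (X, 1)).coeff r).det *
        resultant ((PQ a c (κ + 1)).1 ^ (e - i) * Jp a c κ ^ (i : ℕ)) (lf (C l) (PQ a c N))
          (2 ^ (κ + 1) * e - 2 * i) (2 ^ N) := by
  rw [det_block e _ _ (natDegree_gL a c a' c' l κ e N)]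
  refine Finset.prod_congr rfl fun i _ => ?_
  simp only [coeff_gL]
  refine det_syl _ _ _ _ ?_ (natDegree_lf a c l N) _ fun s => natDegree_Bf a c N s
  refine natDegree_mul_le.trans ((add_le_add natDegree_pow_le natDegree_pow_le).trans ?_)
  have h1 := Nat.mul_le_mul_left (e - i) (natDegree_PQ a c (κ + 1)).1
  have h2 := Nat.mul_le_mul_left i (natDegree_Jp a c κ)
  have h3 : (e - i) * 2 ^ (κ + 1) + i * 2 ^ (κ + 1) = 2 ^ (κ + 1) * e := by
    rw [← add_mul, Nat.sub_add_cancel (Nat.lt_succ_iff.1 i.2), mul_comm]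
  rw [mul_add] at h2
  omega

theorem eval_PQ (j : ℕ) (z : R) :
    Prod.map (evalRingHom z) (evalRingHom z) (PQ a c j) = (Phi a c)^[j] (z, 1) := by
  have := map_iter' (evalRingHom z) (C a) (C c) (X, 1) j
  simpa [PQ] using this.symm

theorem eval_gL_left (i : Fin (e + 1)) (s : Fin (2 ^ (κ + 1) * e - 2 * i)) (z y u : R) :
    y ^ (2 ^ N - 1 + 2 ^ (κ + 1) * e) *
      (gL a c a' c' l κ e N ⟨i, Fin.castAdd _ s⟩).evalEval z u =
      (y * z) ^ (s : ℕ) * y ^ (2 ^ (κ + 1) * e - 2 * i - 1 - s) *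
        lf l ((Phi a c)^[N] (y * z, y)) * (y ^ 2 * u) ^ (i : ℕ) := by
  have h1 := iter_smul a c y (z, 1) N
  simp only [mul_one] at h1
  have h2 : 2 ^ N - 1 + 2 ^ (κ + 1) * e =
      s + (2 ^ (κ + 1) * e - 2 * i - 1 - s) + 2 ^ N + 2 * i := by
    have := s.2
    have hN := Nat.one_le_two_pow (n := N)
    omega
  rw [h1, ← eval_PQ, h2]
  simp only [gL, Fin.addCases_left, evalEval_mul, evalEval_C, evalEval_pow, evalEval_X, lf,
    eval_mul, eval_pow, eval_X, eval_sub, eval_C, Prod.map_fst, Prod.map_snd, coe_evalRingHom]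
  ring

theorem eval_gL_right (i : Fin (e + 1)) (s : Fin (2 ^ N)) (z y u : R) :
    y ^ (2 ^ N - 1 + 2 ^ (κ + 1) * e) *
      (gL a c a' c' l κ e N ⟨i, Fin.natAdd _ s⟩).evalEval z u =
      Bf a c N s (y * z, y) * ((Phi a c)^[κ + 1] (y * z, y)).1 ^ (e - i) *
        Uf a c a' c' κ (y * z, y) (y ^ 2 * u) ^ (i : ℕ) := by
  have h1 := iter_smul a c y (z, 1) (κ + 1)
  have h3 := Bf_smul a c N s y (z, 1)
  have h4 := Uf_smul a c a' c' κ y (z, 1) u
  have h5 := map_Bf (evalRingHom z) (C a) (C c) N s (X, 1)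
  simp only [mul_one] at h1 h3 h4
  simp only [coe_evalRingHom, eval_C, Prod.map_apply, eval_X, eval_one] at h5
  have h2 : 2 ^ N - 1 + 2 ^ (κ + 1) * e =
      2 ^ N - 1 + 2 ^ (κ + 1) * (e - i) + 2 ^ (κ + 1) * i := by
    rw [add_assoc, ← mul_add, Nat.sub_add_cancel (Nat.lt_succ_iff.1 i.2)]
  rw [h1, h3, h4, ← eval_PQ, h2]
  simp only [gL, Fin.addCases_right, evalEval_mul, evalEval_C, evalEval_pow, evalEval_Up,
    eval_mul, eval_pow, h5, Prod.map_fst, coe_evalRingHom]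
  ring

variable {R' : Type} [CommRing R'] (f : R →+* R')

theorem map_PQ (j : ℕ) : Prod.map (mapRingHom f) (mapRingHom f) (PQ a c j) = PQ (f a) (f c) j := by
  have := map_iter' (mapRingHom f) (C a) (C c) (X, 1) j
  simpa [PQ] using this.symm

theorem map_Jp : (Jp a c κ).map f = Jp (f a) (f c) κ := by
  simp only [Jp, Polynomial.map_prod, Polynomial.map_mul, map_C, ← map_PQ, Prod.map_fst,
    Prod.map_snd, coe_mapRingHom, map_mul, map_sub, map_ofNat, Polynomial.map_sub,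
    Polynomial.map_ofNat]

theorem map_res {κ N e i : ℕ} {t : R}
    (ht : resultant ((PQ a c (κ + 1)).1 ^ (e - i) * Jp a c κ ^ i) (lf (C l) (PQ a c N))
      (2 ^ (κ + 1) * e - 2 * i) (2 ^ N) =
      (∏ r ∈ Finset.range κ, lf l (orb a c false (N - r)) ^ 2 ^ r) ^ i * t) :
    resultant ((PQ (f a) (f c) (κ + 1)).1 ^ (e - i) * Jp (f a) (f c) κ ^ i)
      (lf (C (f l)) (PQ (f a) (f c) N)) (2 ^ (κ + 1) * e - 2 * i) (2 ^ N) =
      (∏ r ∈ Finset.range κ, lf (f l) (orb (f a) (f c) false (N - r)) ^ 2 ^ r) ^ i * f t := by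
  have h := congrArg f ht
  rw [← resultant_map_map, Polynomial.map_mul, Polynomial.map_pow, Polynomial.map_pow, map_Jp, lf,
    Polynomial.map_sub, Polynomial.map_mul, map_C] at h
  simp only [lf, map_mul, map_pow, map_prod, map_sub] at h
  simp only [lf, map_orb]
  rw [← h, ← map_PQ, ← map_PQ]
  rfl

end ring

section val
variable {T : Type} [Field T] {v : Valuation T ℝ≥0} {a c l : T}

theorem exists_int {x : T} (h : v x ≤ 1) : ∃ y : v.integer, v.integer.subtype y = x :=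
  ⟨⟨x, h⟩, rfl⟩

theorem val_detB_le (ha : v a ≤ 1) (hc : v c ≤ 1) (N : ℕ) :
    v (Matrix.of fun s r : Fin (2 ^ N) => (Bf (C a) (C c) N s (X, 1)).coeff r).det ≤ 1 := by
  refine (val_det_le v _ (fun _ => 1) fun s r => ?_).trans (by simp)
  obtain ⟨a, rfl⟩ := exists_int ha
  obtain ⟨c, rfl⟩ := exists_int hc
  have h := map_Bf (mapRingHom v.integer.subtype) (C a) (C c) N s (X, 1)
  simp only [coe_mapRingHom, map_C, Prod.map_apply, map_X, Polynomial.map_one] at h
  rw [Matrix.of_apply, ← h, coeff_map]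
  exact ((Bf (C a) (C c) N s (X, 1)).coeff r).2

theorem val_res_le (ha : v a ≤ 1) (hc : v c ≤ 1) (hl : v l ≤ 1) {κ N e i : ℕ} (hN : κ + 1 ≤ N)
    (hi : i ≤ e) :
    v (resultant ((PQ a c (κ + 1)).1 ^ (e - i) * Jp a c κ ^ i) (lf (C l) (PQ a c N))
      (2 ^ (κ + 1) * e - 2 * i) (2 ^ N)) ≤
      v (∏ r ∈ Finset.range κ, lf l (orb a c false (N - r)) ^ 2 ^ r) ^ i := by
  obtain ⟨a, rfl⟩ := exists_int ha
  obtain ⟨c, rfl⟩ := exists_int hc
  obtain ⟨l, rfl⟩ := exists_int hl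
  obtain ⟨t, ht⟩ := res_dvd a c l hN hi
  rw [map_res a c l _ ht, map_mul, map_pow]
  exact mul_le_of_le_one_right zero_le t.2

end val

theorem count_L (C : ℕ) {κ e N : ℕ} (he : e = κ + 1) (hN : N = 4 * e) :
    ∑ α : Σ i, Fin (nL κ e N i), Fin.addCases (motive := fun _ => ℕ)
      (fun _ => C * (2 ^ (κ + 1) * e + e)) (fun _ => C * (N + e)) α.2 ≤
      (e + 1) * (C * 2 ^ N * (6 * e)) ∧
    Fintype.card (Σ i, Fin (nL κ e N i)) ≤ (e + 1) * (2 * 2 ^ N) ∧ κ + 2 ^ κ ≤ 2 ^ N := by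
  have h4 : κ < 2 ^ κ := Nat.lt_two_pow_self
  have h2 : 2 ^ N = 16 * (2 ^ κ) ^ 4 := by rw [hN, he]; ring
  have h3 : 2 ^ (κ + 1) = 2 * 2 ^ κ := pow_succ' _ _
  have h5 : e ≤ 2 ^ κ := by omega
  have h0 : 1 ≤ e := by omega
  have h6 : 2 ^ (κ + 1) * e * (2 ^ (κ + 1) * e + e) ≤ 2 ^ N := by
    rw [h2, h3]
    generalize 2 ^ κ = x at *
    have k1 : 2 * x * e ≤ 2 * x * x := Nat.mul_le_mul_left _ h5
    have k2 : e ≤ 2 * x * x := by nlinarith
    calc 2 * x * e * (2 * x * e + e) ≤ 2 * x * x * (2 * x * x + 2 * x * x) :=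
          Nat.mul_le_mul k1 (add_le_add k1 k2)
      _ ≤ 16 * x ^ 4 := by nlinarith [Nat.zero_le (x ^ 4)]
  have h7 : 2 ^ (κ + 1) * e ≤ 2 ^ N :=
    le_trans (Nat.le_mul_of_pos_right _ (by positivity)) h6
  refine ⟨?_, ?_, ?_⟩
  · rw [Fintype.sum_sigma]
    refine (Finset.sum_le_card_nsmul _ _ (C * 2 ^ N * (6 * e)) fun i _ => ?_).trans (by simp)
    rw [Fin.sum_univ_add]
    simp only [Fin.addCases_left, Fin.addCases_right, Finset.sum_const, Finset.card_univ,
      Fintype.card_fin, smul_eq_mul]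
    have k1 : (2 ^ (κ + 1) * e - 2 * i) * (C * (2 ^ (κ + 1) * e + e)) ≤ C * 2 ^ N :=
      calc _ ≤ 2 ^ (κ + 1) * e * (C * (2 ^ (κ + 1) * e + e)) :=
            Nat.mul_le_mul_right _ (Nat.sub_le _ _)
        _ = C * (2 ^ (κ + 1) * e * (2 ^ (κ + 1) * e + e)) := by ring
        _ ≤ _ := Nat.mul_le_mul_left _ h6
    have k2 : C * 2 ^ N ≤ C * 2 ^ N * e := Nat.le_mul_of_pos_right _ h0
    have k3 : 2 ^ N * (C * (N + e)) = C * 2 ^ N * e * 5 := by
      generalize 2 ^ N = y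
      rw [hN]; ring
    have k4 : C * 2 ^ N * (6 * e) = C * 2 ^ N * e * 6 := by ring
    omega
  · rw [Fintype.card_sigma]
    refine (Finset.sum_le_card_nsmul _ _ (2 * 2 ^ N) fun i _ => ?_).trans (by simp)
    rw [Fintype.card_fin, nL]
    omega
  · have : 2 ^ (κ + 1) ≤ 2 ^ (κ + 1) * e := Nat.le_mul_of_pos_right _ h0
    omega

theorem val_Bf_le {T : Type} [Field T] {v : Valuation T ℝ≥0} {a c : T} {N : ℕ} {W : T × T}
    {B : ℝ≥0} (h : ∀ i ≤ N, max (v ((Phi a c)^[i] W).1) (v ((Phi a c)^[i] W).2) ≤ B) (l : ℕ) :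
    v (Bf a c N l W) ≤ B ^ N := by
  rw [Bf, map_prod]
  refine (Finset.prod_le_pow_card _ _ B fun i hi => ?_).trans (by simp)
  have := h i (Finset.mem_range.1 hi).le
  split_ifs
  · exact (le_max_right _ _).trans this
  · exact (le_max_left _ _).trans this

theorem final_L {κ e N A C1 : ℕ} {h : ℝ≥0} {z : ℝ≥0∞} (he : 1 ≤ e) (h0 : κ + 2 ^ κ ≤ 2 ^ N)
    (h1 : (κ : ℝ≥0∞) * (h * 2 ^ N) ≤ z + C1 * (κ + 2 ^ κ))
    (h2 : ((∑ i : Fin (e + 1), (i : ℕ) : ℕ) : ℝ≥0∞) * z ≤ ((e + 1) * e * (A * 2 ^ N) : ℕ)) :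
    κ * h ≤ ((2 * A + C1 : ℕ) : ℝ≥0) := by
  have h3 : (∑ i : Fin (e + 1), (i : ℕ)) * 2 = (e + 1) * e := by
    rw [Fin.sum_univ_eq_sum_range (fun i => i), Finset.sum_range_id_mul_two]; rfl
  have h4 : z ≤ ((2 * A * 2 ^ N : ℕ) : ℝ≥0∞) := by
    rw [← h3, mul_assoc, Nat.cast_mul] at h2
    rw [mul_assoc]
    refine (ENNReal.mul_le_mul_iff_right ?_ (ENNReal.natCast_ne_top _)).1 h2
    have : (e + 1) * e ≠ 0 := by positivity
    rw [Ne, Nat.cast_eq_zero]
    omega
  have h5 : (C1 : ℝ≥0∞) * (κ + 2 ^ κ) ≤ ((C1 * 2 ^ N : ℕ) : ℝ≥0∞) := by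
    exact_mod_cast Nat.mul_le_mul_left C1 h0
  have h6 := h1.trans (add_le_add h4 h5)
  have h7 : (κ : ℝ≥0) * h * 2 ^ N ≤ ((2 * A + C1 : ℕ) : ℝ≥0) * 2 ^ N := by
    rw [← ENNReal.coe_le_coe]
    push_cast at h6 ⊢
    rw [mul_assoc, add_mul]
    exact h6
  exact le_of_mul_le_mul_right h7 (by positivity)

namespace Dyn
variable {p : ℕ} [Fact p.Prime] {k T : Type} [Field k] [IsAlgClosed k] [CharP k p] [Field T]
  [Algebra k T] {S : Std p k T} {d : Dyn S} {b : ℕ → T}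

theorem Br.exists_theta (hk : ∀ x : k, ∃ n, 0 < n ∧ x ^ p ^ n = x) (hb : d.Br b) (R : ℕ)
    (hR : ∀ n, S.irr (b n) ≤ R) :
    ∃ G : T[X][X], G ≠ 0 ∧ ∃ n1, ∀ n, n1 ≤ n → G.evalEval (b n) (S.H.D 1 (b n)) = 0 := by
  classical
  obtain ⟨h, C1, hh, hlam⟩ := d.exists_lam hk
  obtain ⟨u, C2, hu, -, hth⟩ := d.exists_th
  obtain ⟨C3, hZb⟩ := d.lift_bound
  obtain ⟨Z, hZ, hZs⟩ := hb.exists_lifts
  obtain ⟨κ, hκ⟩ : ∃ κ : ℕ, ((2 * (6 * (C2 + C3) + 2 * (C2 * R)) + C1 : ℕ) : ℝ≥0) < κ * h := by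
    obtain ⟨κ, hκ⟩ := exists_nat_gt (((2 * (6 * (C2 + C3) + 2 * (C2 * R)) + C1 : ℕ) : ℝ≥0) / h)
    exact ⟨κ, (div_lt_iff₀ hh).1 hκ⟩
  obtain ⟨e, he⟩ : ∃ e, e = κ + 1 := ⟨_, rfl⟩
  obtain ⟨N, hN⟩ : ∃ N, N = 4 * e := ⟨_, rfl⟩
  have hκN : κ + 1 ≤ N := by omega
  obtain ⟨l, hl, hz⟩ := hlam κ N hκN
  obtain ⟨c1, c2, c3⟩ := count_L (C2 + C3) he hN
  have hq : 1 ≤ S.q := S.one_lt_q.le
  have hZe : ∀ n, ((Z n).2 * b n, (Z n).2) = Z n := fun n =>
    Prod.ext (by rw [(hZ n).eq, mul_comm]) rfl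
  obtain ⟨x, hx⟩ : ∃ x : ℕ → (Σ i, Fin (nL κ e N i)) → T, ∀ n β, x n β =
      (Z (n + N)).2 ^ (2 ^ N - 1 + 2 ^ (κ + 1) * e) *
        (b (n + N) ^ (β.2 : ℕ) * (u * S.H.D 1 (b (n + N))) ^ (β.1 : ℕ)) := ⟨_, fun _ _ => rfl⟩
  have key : ∀ g : (Σ i, Fin (nL κ e N i)) → ℕ, (Matrix.of fun β γ => x (g γ) β).det = 0 := by
    intro g
    by_contra hM
    obtain ⟨A, hA⟩ : ∃ A, A = Matrix.of fun α β : Σ i, Fin (nL κ e N i) =>
      ((gL d.a d.c (u * S.H.D 1 d.a) (u * S.H.D 1 d.c) (algebraMap k T l) κ e N α).coeff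
        β.1).coeff β.2 := ⟨_, rfl⟩
    obtain ⟨α0, hα0⟩ : ∃ α0, α0 = ∏ r ∈ Finset.range κ,
      lf (algebraMap k T l) (orb d.a d.c false (N - r)) ^ 2 ^ r := ⟨_, rfl⟩
    rw [← hα0] at hz
    have hA0 : A.det ≠ 0 := by
      rw [hA, det_gL]
      exact Finset.prod_ne_zero_iff.2 fun i _ => mul_ne_zero (det_Bf_ne d.hypH.ne N)
        (res_ne d.hypH.two d.hypH.ne hκN (Nat.lt_succ_iff.1 i.2) hl)
    have hA1 : ∀ w ∈ S.fin, S.v w A.det ≤ S.v w (α0 ^ ∑ i : Fin (e + 1), (i : ℕ)) := by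
      intro w hw
      rw [hA, det_gL, map_prod, map_pow, ← Finset.prod_pow_eq_pow_sum]
      refine Finset.prod_le_prod' fun i _ => ?_
      rw [map_mul, hα0]
      exact (mul_le_mul' (val_detB_le (d.a_int w hw) (d.c_int w hw) N) (val_res_le (d.a_int w hw)
        (d.c_int w hw) (S.v_k w l) hκN (Nat.lt_succ_iff.1 i.2))).trans (by rw [one_mul])
    have hA2 : ∀ w ∈ S.fin, S.v w A.det ≤ 1 := by
      intro w hw
      refine (hA1 w hw).trans ?_
      rw [map_pow, hα0, map_prod]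
      refine pow_le_one' (Finset.prod_le_one' fun r _ => ?_) _
      have := d.norm_orb hw false (N - r)
      rw [map_pow, lf]
      refine pow_le_one' ((S.v w).map_sub_le (this ▸ le_max_left _ _) ?_) _
      rw [map_mul]
      exact mul_le_one' (S.v_k w l) (this ▸ le_max_right _ _)
    have main := S.zer_det_le A _ hA0 hM hA2
      (fun γ w => max 1 (Set.mulIndicator S.fin (fun w => S.v w ((Z (g γ + N)).2 ^ 2 *
        (u * S.H.D 1 (b (g γ + N))))) w) ^ e) (fun γ w => one_le_pow₀ (le_max_left _ _))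
      (fun β γ w hw => by
        have h1 := (hZ (g γ + N)).norm hw
        have h2 : 2 ^ N - 1 + 2 ^ (κ + 1) * e =
            β.2 + (2 ^ N - 1 + 2 ^ (κ + 1) * e - 2 * β.1 - β.2) + 2 * β.1 := by
          have := β.2.2
          have := two_mul_le_L κ e β.1
          have := Nat.one_le_two_pow (n := N)
          simp only [nL] at *
          omega
        have h3 : x (g γ) β = (Z (g γ + N)).1 ^ (β.2 : ℕ) *
            (Z (g γ + N)).2 ^ (2 ^ N - 1 + 2 ^ (κ + 1) * e - 2 * β.1 - β.2) *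
            ((Z (g γ + N)).2 ^ 2 * (u * S.H.D 1 (b (g γ + N)))) ^ (β.1 : ℕ) := by
          rw [hx, (hZ _).eq]
          conv_lhs => rw [h2]
          ring
        rw [Matrix.of_apply, h3, map_mul, map_mul, map_pow, map_pow, map_pow,
          Set.mulIndicator_of_mem hw]
        refine (mul_le_of_le_one_left zero_le (mul_le_one'
          (pow_le_one' (h1 ▸ le_max_left _ _) _) (pow_le_one' (h1 ▸ le_max_right _ _) _))).trans ?_
        exact (pow_le_pow_left' (le_max_right _ _) _).trans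
          (pow_le_pow_right₀ (le_max_left _ _) (Nat.lt_succ_iff.1 β.1.2)))
      (fun α => Fin.addCases (motive := fun _ => ℕ)
        (fun _ => (C2 + C3) * (2 ^ (κ + 1) * e + e)) (fun _ => (C2 + C3) * (N + e)) α.2)
      (fun α γ w hw => by
        have h1 : (A * Matrix.of fun β γ => x (g γ) β) α γ =
            (Z (g γ + N)).2 ^ (2 ^ N - 1 + 2 ^ (κ + 1) * e) *
            (gL d.a d.c (u * S.H.D 1 d.a) (u * S.H.D 1 d.c) (algebraMap k T l) κ e N α).evalEval
              (b (g γ + N)) (u * S.H.D 1 (b (g γ + N))) := by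
          rw [evalEval_eq_sum e (nL κ e N) _ ((natDegree_gL _ _ _ _ _ _ _ _ α).trans
            (Nat.lt_succ_iff.1 α.1.2)) (degree_coeff_gL _ _ _ _ _ _ _ _ α), Finset.mul_sum,
            Matrix.mul_apply]
          refine Finset.sum_congr rfl fun β _ => ?_
          rw [hA, Matrix.of_apply, Matrix.of_apply, hx]
          ring
        have h2 := fun i (hi : i ≤ N) => hZb _ _ (hZ (g γ + N)).iter i (by omega) w hw
        have h3 := fun n => (hth _ _ _ (hZ n)).1 w hw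
        obtain ⟨i, α⟩ := α
        have hi := Nat.lt_succ_iff.1 i.2
        rw [h1]
        induction α using Fin.addCases with
        | left s =>
          have h4 := h2 0 (Nat.zero_le _)
          have h5 : S.v w (lf (algebraMap k T l) ((Phi d.a d.c)^[N] (Z (g γ + N)))) ≤ S.q ^ C3 := by
            refine (S.v w).map_sub_le ((le_max_left _ _).trans (h2 N le_rfl)) ?_
            rw [map_mul]
            exact (mul_le_mul' (S.v_k w l) ((le_max_right _ _).trans (h2 N le_rfl))).trans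
              (by rw [one_mul])
          rw [eval_gL_left, hZe, mul_comm (Z _).2, ← (hZ _).eq, Fin.addCases_left, map_mul, map_mul,
            map_mul, map_pow, map_pow, map_pow]
          refine (mul_le_mul' (mul_le_mul' (mul_le_mul'
            (pow_le_pow_left' ((le_max_left _ _).trans h4) _)
            (pow_le_pow_left' ((le_max_right _ _).trans h4) _)) h5)
            (pow_le_pow_left' (h3 _) _)).trans ?_
          rw [← pow_mul, ← pow_mul, ← pow_mul, ← pow_add, ← pow_add, ← pow_add]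
          refine pow_le_pow_right₀ hq ?_
          have k1 := s.2
          have k2 : C3 * s + C3 * (2 ^ (κ + 1) * e - 2 * i - 1 - s) + C3 ≤
              C3 * (2 ^ (κ + 1) * e) := by
            rw [← mul_add, ← mul_add_one]
            exact Nat.mul_le_mul_left _ (by omega)
          have k3 := Nat.mul_le_mul_left C2 hi
          nlinarith [Nat.zero_le (C2 * (2 ^ (κ + 1) * e)), Nat.zero_le (C3 * e)]
        | right s =>
          have h4 := hb.Uf_val hZ hZs u (g γ + N - κ) κ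
          rw [show g γ + N - κ + κ = g γ + N by omega] at h4
          rw [eval_gL_right, hZe, h4, Fin.addCases_right, map_mul, map_mul, map_pow, map_pow]
          refine (mul_le_mul' (mul_le_mul' (val_Bf_le h2 s)
            (pow_le_pow_left' ((le_max_left _ _).trans (h2 _ hκN)) _))
            (pow_le_pow_left' (h3 _) _)).trans ?_
          rw [← pow_mul, ← pow_mul, ← pow_mul, ← pow_add, ← pow_add]
          refine pow_le_pow_right₀ hq ?_
          have k2 := Nat.mul_le_mul_left C3 (Nat.sub_le e i)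
          have k3 := Nat.mul_le_mul_left C2 hi
          nlinarith [Nat.zero_le (C2 * N)])
    have h1 := (S.zer_mono hA0 hA1).trans main
    rw [S.zer_pow] at h1
    refine absurd (final_L (by omega) c3 hz (h1.trans ?_)) hκ.not_ge
    have h2 : ∀ γ ∈ Finset.univ, S.I (fun w => max 1 (Set.mulIndicator S.fin
        (fun w => S.v w ((Z (g γ + N)).2 ^ 2 * (u * S.H.D 1 (b (g γ + N))))) w) ^ e) ≤
        ((e * (C2 * R) : ℕ) : ℝ≥0∞) := fun γ _ => by
      rw [S.toPF.I_pow_eq]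
      push_cast
      exact mul_le_mul_right ((hth _ _ _ (hZ _)).2.trans (mul_le_mul_right (hR _) _)) _
    refine (add_le_add (Nat.cast_le.2 c1) (Finset.sum_le_card_nsmul _ _ _ h2)).trans ?_
    rw [nsmul_eq_mul, ← Nat.cast_mul, ← Nat.cast_add, Nat.cast_le, Finset.card_univ]
    refine (add_le_add le_rfl (Nat.mul_le_mul_right _ c2)).trans (le_of_eq ?_)
    ring
  obtain ⟨f, hf, hf0⟩ := exists_rel_of_det x key
  obtain ⟨G, hG, hGe⟩ := exists_poly_of_coeff e (nL κ e N) (fun β => f β * u ^ (β.1 : ℕ))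
    fun h0 => hf (funext fun β =>
      (mul_eq_zero.1 (congrFun h0 β)).resolve_right (pow_ne_zero _ hu))
  refine ⟨G, hG, N, fun n hn => ?_⟩
  obtain ⟨n, rfl⟩ := Nat.exists_eq_add_of_le' hn
  refine (mul_eq_zero.1 ?_).resolve_left
    (pow_ne_zero (2 ^ N - 1 + 2 ^ (κ + 1) * e) (hZ (n + N)).ne)
  rw [hGe, ← hf0 n, Finset.mul_sum]
  refine Finset.sum_congr rfl fun β _ => ?_
  rw [hx]
  ring

end Dyn

end JR
end

-- merged part: Pool.Agent.Work.MP_969914_nt.S6Inv
section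
/-! The first order jets of a branch are not contained in a curve. -/

set_option autoImplicit false

namespace JR

open Polynomial Filter

section
variable {L : Type} [Field L]

/-- The pull-back of `G` under the map on first order jets, with denominators cleared. -/
noncomputable def s6inv_pb (a c a' c' : L) (M e : ℕ) (G : L[X][X]) : L[X][X] :=
  ∑ i ∈ Finset.range (e + 1),
    C (rinv_P c ^ (2 * (e - i)) * rinv_T (rinv_P a) (rinv_P c) M (G.coeff i)) *
      (C (rinv_W a c) * X + C (rinv_R a c a' c')) ^ i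

theorem s6inv_deg (a c a' c' : L) (M e : ℕ) (G : L[X][X]) :
    (s6inv_pb a c a' c' M e G).natDegree ≤ e := by
  refine natDegree_sum_le_of_forall_le _ _ fun i hi => (natDegree_C_mul_le _ _).trans ?_
  refine (natDegree_pow_le_of_le i natDegree_linear_le).trans ?_
  have := Finset.mem_range.1 hi
  omega

theorem s6inv_map {K : Type} [Field K] [Algebra L K] (a c a' c' : L) {M e : ℕ} {G : L[X][X]}
    (he : G.natDegree ≤ e) (hM : ∀ i, (G.coeff i).natDegree ≤ M) {x : K}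
    (hx : algebraMap L K c * x ^ 2 + 1 ≠ 0) :
    (s6inv_pb a c a' c' M e G).map (aeval x : L[X] →ₐ[L] K).toRingHom =
      C ((algebraMap L K c * x ^ 2 + 1) ^ (M + 2 * e)) *
        (G.map (aeval (phi (algebraMap L K a) (algebraMap L K c) x) :
          L[X] →ₐ[L] K).toRingHom).comp
        (C ((algebraMap L K c * x ^ 2 + 1)⁻¹ ^ 2) *
          (C (2 * (algebraMap L K a - algebraMap L K c) * x) * X +
            C (rho (algebraMap L K a) (algebraMap L K c) (algebraMap L K a') (algebraMap L K c')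
              (x, 1)))) := by
  have eP : ∀ b : L, aeval x (rinv_P b) = algebraMap L K b * x ^ 2 + 1 := fun b => by
    simp [rinv_P]
  have eW : aeval x (rinv_W a c) = 2 * (algebraMap L K a - algebraMap L K c) * x := by
    simp only [rinv_W, map_mul, aeval_C, aeval_X, map_sub, map_ofNat]
  have eR : aeval x (rinv_R a c a' c') =
      rho (algebraMap L K a) (algebraMap L K c) (algebraMap L K a') (algebraMap L K c')
        (x, 1) := by
    simp [rinv_R, rho]
  rw [comp, eval₂_eq_sum_range' _ (Nat.lt_succ_of_le (natDegree_map_le.trans he)), s6inv_pb,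
    Polynomial.map_sum, Finset.mul_sum]
  refine Finset.sum_congr rfl fun i hi => ?_
  obtain ⟨j, rfl⟩ := Nat.exists_eq_add_of_le (Nat.lt_succ_iff.1 (Finset.mem_range.1 hi))
  simp only [Polynomial.map_mul, Polynomial.map_pow, Polynomial.map_add, map_C, map_X, coeff_map,
    AlgHom.toRingHom_eq_coe, RingHom.coe_coe]
  rw [eW, eR, map_mul, map_pow, rinv_T_map, eP, eP, rinv_T_field _ hx (hM i), mul_pow, ← C_pow,
    ← mul_assoc (C _) (C _), ← C_mul, ← mul_assoc (C _) (C _), ← C_mul, phi,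
    Nat.add_sub_cancel_left]
  congr 2
  generalize algebraMap L K c * x ^ 2 + 1 = q at hx ⊢
  rw [inv_pow, inv_pow, ← pow_mul, mul_add, pow_add, pow_add]
  field_simp

theorem s6inv_cancel {u v : L} (hu : u ≠ 0) {A B : L[X]} (h : C u * A = C v * B) :
    A = C (u⁻¹ * v) * B := by
  rw [C_mul, mul_assoc, ← h, ← mul_assoc, ← C_mul, inv_mul_cancel₀ hu, C_1, one_mul]

end

namespace Dyn
variable {p : ℕ} [Fact p.Prime] {k T : Type} [Field k] [Field T] [Algebra k T] [CharP T p]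
  {S : Std p k T} {d : Dyn S} {b : ℕ → T}

omit [Fact p.Prime] [CharP T p] in
theorem s6inv_ne (hb : d.Br b) (n : ℕ) : d.c * b (n + 1) ^ 2 + 1 ≠ 0 := fun h => by
  obtain ⟨Z, h1, h2⟩ := hb.exists_lifts
  refine (h1 n).ne ?_
  rw [← h2 n, Phi, (h1 (n + 1)).eq]
  linear_combination (Z (n + 1)).2 ^ 2 * h

omit [Fact p.Prime] [CharP T p] in
theorem s6inv_root (hb : d.Br b) {g : T[X]} (hg : g ≠ 0) : ∀ᶠ n in atTop, g.eval (b n) ≠ 0 := by
  rw [← Nat.cofinite_eq_atTop]
  exact hb.injective.tendsto_cofinite.eventually (p := fun x => g.eval x ≠ 0)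
    (by simpa [eventually_cofinite] using finite_setOfPred_isRoot hg)

omit [Fact p.Prime] [CharP T p] in
theorem s6inv_end (hb : d.Br b) (ha : S.H.D 1 d.a = 0) (hc : S.H.D 1 d.c = 0) {n : ℕ}
    (h : S.H.D 1 (b n) = 0) : False := by
  have key : ∀ z, d.c * z ^ 2 + 1 ≠ 0 → S.H.D 1 z = 0 → S.H.D 1 (phi d.a d.c z) = 0 :=
    fun z hz h0 => by
      have := d.D_phi hz
      rw [h0, ha, hc] at this
      simpa [rho, hz] using this
  induction n with
  | succ n ih => exact ih (hb.step n ▸ key _ (s6inv_ne hb n) h)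
  | zero =>
    obtain ⟨h1, h2⟩ := (d.der.resolve_left fun h => h ha).resolve_left fun h => h hc
    obtain ⟨Z, hZ⟩ := exists_lift (hb.mem 0)
    have e := hZ.iter
    simp only [zero_add, Function.iterate_one, Phi, hZ.eq, Prod.ext_iff, h1] at e
    have h3 : d.c * b 0 ^ 2 + 1 ≠ 0 := fun h3 =>
      one_ne_zero (α := T) (by linear_combination Z.2 ^ 2 * h3 - e.2)
    refine h2 ?_
    rw [← key _ h3 h, phi]
    congr 1
    rw [eq_div_iff h3]
    linear_combination (d.a * b 0 ^ 2 + 1) * e.2 - (d.c * b 0 ^ 2 + 1) * e.1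

theorem Br.no_theta (hb : d.Br b) {G : T[X][X]} (hG : G ≠ 0) (n1 : ℕ)
    (h : ∀ n, n1 ≤ n → G.evalEval (b n) (S.H.D 1 (b n)) = 0) : False := by
  replace h := eventually_atTop.2 ⟨n1, h⟩
  induction he : G.natDegree using Nat.strong_induction_on generalizing G with
  | _ e ih =>
  have hl : G.coeff e ≠ 0 := he ▸ leadingCoeff_ne_zero.2 hG
  have he0 : e ≠ 0 := by
    rintro rfl
    obtain ⟨n, h1, h2⟩ := (h.and (s6inv_root hb hl)).exists
    rw [eq_C_of_natDegree_eq_zero he, evalEval_C] at h1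
    exact h2 h1
  obtain ⟨M, hM⟩ : ∃ M, ∀ i, (G.coeff i).natDegree ≤ M := by
    refine ⟨G.support.sup fun i => (G.coeff i).natDegree, fun i => ?_⟩
    by_cases hi : i ∈ G.support
    · exact Finset.le_sup (f := fun i => (G.coeff i).natDegree) hi
    · rw [notMem_support_iff.1 hi, natDegree_zero]
      exact Nat.zero_le _
  set Gs := s6inv_pb d.a d.c (S.H.D 1 d.a) (S.H.D 1 d.c) M e G with hGs
  have h1 : ∀ᶠ n in atTop, Gs.evalEval (b n) (S.H.D 1 (b n)) = 0 := by
    obtain ⟨m, hm⟩ := eventually_atTop.1 h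
    filter_upwards [eventually_ge_atTop (m + 1)] with n hn
    obtain ⟨n, rfl⟩ : ∃ n', n = n' + 1 := ⟨n - 1, by omega⟩
    have hq := s6inv_ne hb n
    have h2 := s6inv_map (K := T) d.a d.c (S.H.D 1 d.a) (S.H.D 1 d.c) he.le hM hq
    simp only [AlgHom.toRingHom_eq_coe, coe_aeval_eq_evalRingHom, Algebra.algebraMap_self_apply]
      at h2
    have h3 := d.D_phi hq
    rw [hb.step] at h2 h3
    rw [← map_evalRingHom_eval, hGs, h2, eval_mul, eval_comp, map_evalRingHom_eval]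
    refine mul_eq_zero_of_right _ ?_
    rw [← hm n (by omega)]
    congr 1
    simp only [eval_mul, eval_add, eval_C, eval_X]
    rw [← h3]
    field_simp
  have h2 : C (G.coeff e) * Gs - C (Gs.coeff e) * G = 0 := by
    by_contra h2
    refine ih _ ?_ h2 ?_ rfl
    · refine Nat.lt_of_le_pred (Nat.pos_of_ne_zero he0) (natDegree_le_iff_coeff_eq_zero.2 ?_)
      intro i hi
      rw [coeff_sub, coeff_C_mul, coeff_C_mul]
      rcases (show i = e ∨ e < i by rw [Nat.pred_eq_sub_one] at hi; omega) with rfl | hi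
      · ring
      · rw [coeff_eq_zero_of_natDegree_lt ((s6inv_deg ..).trans_lt hi),
          coeff_eq_zero_of_natDegree_lt (he.trans_lt hi), mul_zero, mul_zero, sub_zero]
    · filter_upwards [h, h1] with n a1 a2
      rw [evalEval_sub, evalEval_mul, evalEval_mul, a1, a2, mul_zero, mul_zero, sub_zero]
  have hx : Transcendental T (RatFunc.X : RatFunc T) := RatFunc.transcendental_X
  have hq : algebraMap T (RatFunc T) d.c * RatFunc.X ^ 2 + 1 ≠ 0 := by
    simpa [rinv_P] using rinv_ne hx (rinv_P_ne d.c)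
  have h3 := s6inv_map d.a d.c (S.H.D 1 d.a) (S.H.D 1 d.c) he.le hM hq
  have h4 := congrArg (Polynomial.map (aeval (RatFunc.X : RatFunc T) :
    T[X] →ₐ[T] RatFunc T).toRingHom) (sub_eq_zero.1 h2)
  rw [Polynomial.map_mul, Polynomial.map_mul, map_C, map_C, hGs, h3, ← mul_assoc, ← C_mul] at h4
  have h5 := mul_ne_zero (rinv_ne hx hl) (pow_ne_zero (M + 2 * e) hq)
  obtain ⟨a1, a2, a3⟩ := inv_curve p d.hypH (S.H.D 1 d.a) (S.H.D 1 d.c) G (he ▸ he0) hx
    _ (s6inv_cancel h5 h4)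
  have h6 : G = C (G.coeff e) * X ^ e := by
    ext1 i
    rw [coeff_C_mul, coeff_X_pow]
    split_ifs with hi
    · rw [hi, mul_one]
    · rw [mul_zero]
      rcases lt_or_gt_of_ne hi with hi | hi
      · exact a3 i (he ▸ hi)
      · exact coeff_eq_zero_of_natDegree_lt (he.trans_lt hi)
  obtain ⟨n, h7, h8⟩ := (h.and (s6inv_root hb hl)).exists
  rw [h6, evalEval_mul, evalEval_C, evalEval_pow, evalEval_X, mul_eq_zero, or_iff_right h8] at h7
  exact s6inv_end hb a1 a2 (eq_zero_of_pow_eq_zero h7)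

end Dyn

end JR
end
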