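import Pool.Agent.Work.MP_969914_nt.S6Sieg
import Pool.Agent.Work.MP_969914_nt.S6Inv
import Pool.Agent.Work.MP_969914_nt.RDyn
import Mathlib

-- merged part: Pool.Agent.Work.MP_969914_nt.F7A
section
/-! Maximal steps when the second critical orbit contains a critical point. -/

set_option autoImplicit false

namespace JR

open scoped NNReal ENNReal

namespace Dyn
variable {p : ℕ} {k T : Type} [Field k] [Field T] [Algebra k T] {S : Std p k T} {d : Dyn S}

theorem con_eq {w : S.W} (hw : w ∈ S.fin) (b : Bool) (m : ℕ) {A : Finset T}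
    (hA : ∀ s ∈ A, S.v w s ≤ 1) :
    d.con b m A w = ∏ s ∈ A, chd (S.v w) (orb d.a d.c b m) (s, 1) := by
  unfold con
  refine Finset.prod_congr rfl fun s hs => ?_
  rw [d.v_wedge_orb hw, max_eq_right (hA s hs), mul_one]

theorem local_A {w : S.W} {n s r r' i : ℕ} {b' : Bool} (hn : r + 1 + i + 1 = n + s)
    (hr : wedge (orb d.a d.c true (r' + 1)) (crit b') = 0) (hrn : r' + 1 ≤ n) (hs : 1 ≤ s)
    {A A0 : Finset T} (hA1 : ∀ s ∈ A, s ∈ d.V (r + 1))
    (hA : ∀ z, z ∈ A0 ↔ z ∈ d.V (r + 1 + i) ∧ (phi d.a d.c)^[i] z ∈ A) {u : T}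
    (hu : u ∈ d.KV (r + 1 + i)) (hu2 : u ^ 2 = ∏ z ∈ A0, dl d.a d.c z)
    (ho : d.Old n w) (hp : d.Per s w) (h1 : d.Reg 1 w) : w ∉ d.SimpleSet (i + 1) A := by
  rintro ⟨hg, hint, hcon⟩
  have hw := S.good_fin hg
  obtain ⟨s0, hs0, hlt⟩ : ∃ s0 ∈ A, chd (S.v w) (orb d.a d.c false (i + 1)) (s0, 1) < 1 := by
    by_contra hcc
    push Not at hcc
    rw [con_eq hw false (i + 1) hint,
      Finset.prod_eq_one fun y hy => le_antisymm (chd_le_one _ _) (hcc y hy)] at hcon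
    have h2 : S.q⁻¹ < 1 := inv_lt_one_of_one_lt₀ S.one_lt_q
    rw [← hcon] at h2
    exact lt_irrefl _ h2
  have push : ∀ (b : Bool), ∀ y ∈ A, chd (S.v w) (orb d.a d.c b (n + s)) d.B ≤
      chd (S.v w) (orb d.a d.c b (i + 1)) (y, 1) := by
    intro b y hy
    have h2 := d.chd_B_le hw (hA1 y hy) (orb d.a d.c b (i + 1))
    rwa [rdyn_orb, show r + 1 + (i + 1) = n + s by omega] at h2
  obtain ⟨k1, k2⟩ := no_evt_of_crit hw ho hp hr hrn hs ((push false s0 hs0).trans_lt hlt)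
  have hreg : d.Reg (r + 1 + i) w := by
    refine reg_of_no_evt hg h1 fun l hl α hα b hE => ?_
    have h2 := hE.near_B hw hα
    cases b
    · rw [k1 (l + 1) (by omega) (by omega)] at h2
      exact lt_irrefl _ h2
    · rw [k2 (l + 1) (by omega) (by omega)] at h2
      exact lt_irrefl _ h2
  have huR : u ∈ S.R w :=
    S.adjoin_le_R hg (fun z hz => hreg (r + 1 + i) (by omega) le_rfl z hz) u hu
  have hct : d.con true (i + 1) A w = 1 := by
    rw [con_eq hw true (i + 1) hint]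
    refine Finset.prod_eq_one fun y hy => le_antisymm (chd_le_one _ _) ?_
    exact (k2 (n + s) (by omega) le_rfl).ge.trans (push true y hy)
  have hv := v_rel hA1 hA hu2 w
  rw [hcon, hct, mul_one] at hv
  refine S.not_mem_of_odd hg ?_ ?_ hv huR
  · refine prod_mem fun y hy => ?_
    have hy' : y ∈ S.R w := hreg (r + 1) (by omega) (by omega) y (hA1 y hy)
    have h2 := d.orb_mem true i
    exact sub_mem (mul_mem (S.K0_le w hg _ h2.1) (one_mem _))
      (mul_mem (S.K0_le w hg _ h2.2) hy')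
  · exact Finset.prod_ne_zero_iff.2 fun y hy => d.wedge_true_ne (hA1 y hy) i

theorem indep_A (hsd : d.LowerBd d.SimpleSet) {r : ℕ} (hst : d.Stable (r + 1)) {r' : ℕ}
    {b' : Bool} (hr : wedge (orb d.a d.c true (r' + 1)) (crit b') = 0) :
    ∃ N0 : ℕ, ∀ N, N0 ≤ N → Indep (d.KV (N + 1)) (d.Vf (N + 1)) (dl d.a d.c) := by
  classical
  obtain ⟨ε, hε, hb⟩ := hsd.bdd
  obtain ⟨m0, hm0⟩ := hb (r + 1)
  obtain ⟨C, hC⟩ := d.mass_old
  obtain ⟨s1, hs1⟩ := exists_pow_gt hε (C + 1)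
  replace hs1 := hs1 s1 le_rfl
  obtain ⟨C2, hC2⟩ := d.mass_per (r + 1 + s1)
  obtain ⟨C3, hC3⟩ := d.mass_reg 1
  refine ⟨r + s1 + m0 + r' + C2 + C3, fun N hN => ?_⟩
  by_contra h
  obtain ⟨A0, u, hne, hV, hinv, hu, -, hu2, -, -⟩ := exists_rel h
  obtain ⟨i, hi⟩ : ∃ i, N + 1 = r + 1 + i := ⟨N - r, by omega⟩
  obtain ⟨n, hn⟩ : ∃ n, i + 1 = n + s1 := ⟨i + 1 - s1, by omega⟩
  rw [hi] at hV hu
  set A : Finset T := A0.image ((phi d.a d.c)^[i]) with hAdef
  have hA1 : ∀ y ∈ A, y ∈ d.V (r + 1) := by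
    intro y hy
    obtain ⟨z, hz, rfl⟩ := Finset.mem_image.1 hy
    exact d.iter_mem_V (hV z hz)
  have hA : ∀ z, z ∈ A0 ↔ z ∈ d.V (r + 1 + i) ∧ (phi d.a d.c)^[i] z ∈ A := by
    intro z
    refine ⟨fun hz => ⟨hV z hz, Finset.mem_image_of_mem _ hz⟩, fun hz => ?_⟩
    obtain ⟨z', hz', e⟩ := Finset.mem_image.1 hz.2
    exact hst.saturated (P := fun z => z ∈ A0) le_rfl hinv (hV z' hz') hz.1 e hz'
  have hsub : d.SimpleSet (i + 1) A ⊆ {w | w ∈ S.good ∧ ¬ d.Old n w} ∪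
      ({w | w ∈ S.good ∧ ¬ d.Per (r + 1 + s1) w} ∪ {w | ¬ d.Reg 1 w}) := by
    intro w hw
    by_cases ho : d.Old n w
    · by_cases hp : d.Per (r + 1 + s1) w
      · by_cases h1 : d.Reg 1 w
        · exact absurd hw (local_A (by omega) hr (by omega) (by omega) hA1 hA hu hu2 ho hp h1)
        · exact Or.inr (Or.inr h1)
      · exact Or.inr (Or.inl ⟨hw.1, hp⟩)
    · exact Or.inl ⟨hw.1, ho⟩
  have hup : S.toPF.mass (d.SimpleSet (i + 1) A) ≤ C * 2 ^ n + (C2 + C3) :=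
    (S.toPF.mass_mono hsub).trans ((S.toPF.mass_union_le _ _).trans (add_le_add (hC n)
      ((S.toPF.mass_union_le _ _).trans (add_le_add hC2 hC3))))
  have hlo := hm0 (i + 1) (by omega) A fun y hy => ⟨r + 1, by omega, le_rfl, hA1 y hy⟩
  have hcard : (1 : ℝ≥0∞) ≤ A.card := by
    have : 1 ≤ A.card := Finset.card_pos.2 (hne.image _)
    exact_mod_cast this
  have h2 : ((C2 : ℝ≥0∞) + C3) ≤ 2 ^ n := by
    have : C2 + C3 ≤ 2 ^ n := le_trans (by omega) (Nat.lt_two_pow_self (n := n)).le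
    exact_mod_cast this
  have h3 : (ε : ℝ≥0∞) * 2 ^ s1 * 2 ^ n ≤ ((C + 1 : ℕ) : ℝ≥0∞) * 2 ^ n := by
    calc (ε : ℝ≥0∞) * 2 ^ s1 * 2 ^ n = ε * 1 * 2 ^ (i + 1) := by rw [hn, pow_add]; ring
      _ ≤ ε * A.card * 2 ^ (i + 1) := by gcongr
      _ ≤ C * 2 ^ n + (C2 + C3) := hlo.trans hup
      _ ≤ C * 2 ^ n + 2 ^ n := by gcongr
      _ = ((C + 1 : ℕ) : ℝ≥0∞) * 2 ^ n := by push_cast; ring
  have h4 : (2 : ℝ≥0∞) ^ n ≠ 0 := pow_ne_zero _ two_ne_zero
  have h5 : (2 : ℝ≥0∞) ^ n ≠ ⊤ := ENNReal.pow_ne_top (by norm_num)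
  exact absurd ((ENNReal.mul_le_mul_iff_left h4 h5).1 h3) (not_le.2 hs1)

end Dyn

end JR
end

-- merged part: Pool.Agent.Work.MP_969914_nt.F7B
section
/-! Maximal steps in the general case. -/

set_option autoImplicit false

namespace JR

open scoped NNReal ENNReal

namespace Dyn
variable {p : ℕ} {k T : Type} [Field k] [Field T] [Algebra k T] {S : Std p k T} {d : Dyn S}

theorem f7b_one {w : S.W} {b : Bool} {α : T} (h : ¬ d.Evt w b α) :
    chd (S.v w) (orb d.a d.c b 1) (α, 1) = 1 := le_antisymm (chd_le_one _ _) (not_lt.1 h)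

theorem f7b_chd {w : S.W} (hw : w ∈ S.fin) {l : ℕ} {y : T} (hy : y ∈ d.V (l + 1)) (b : Bool)
    (i : ℕ) : chd (S.v w) (orb d.a d.c b (i + 1)) (y, 1) =
      ∏ α ∈ d.fib (l + 1) y i, chd (S.v w) (orb d.a d.c b 1) (α, 1) := by
  rw [← d.chd_fib hw hy, rdyn_orb]

theorem f7b_lt {w : S.W} (hw : w ∈ S.fin) {l : ℕ} {y : T} (hy : y ∈ d.V (l + 1)) {b : Bool}
    {i : ℕ} (h : chd (S.v w) (orb d.a d.c b (i + 1)) (y, 1) ≠ 1) :
    ∃ α ∈ d.fib (l + 1) y i, d.Evt w b α := by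
  by_contra hn
  push Not at hn
  exact h ((f7b_chd hw hy b i).trans (Finset.prod_eq_one fun α hα => f7b_one (hn α hα)))

theorem f7b_q : S.q⁻¹ < 1 := inv_lt_one_of_one_lt₀ S.one_lt_q

theorem f7b_ch_sq {w : S.W} (hw : w ∈ S.good) {α : T} (h : α ∈ S.R w) : d.ch α ^ 2 ∈ S.R w := by
  have ha := S.K0_le w hw _ d.a_mem
  have hc := S.K0_le w hw _ d.c_mem
  have h1 : d.c * α - d.a ∈ S.R w := sub_mem (mul_mem hc h) ha
  rw [ch, div_pow, d.rt_sq]
  exact div_mem (mul_mem (sub_mem (one_mem _) h) h1) (pow_mem h1 2)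

theorem f7b_ch_not {w : S.W} (hw : w ∈ S.good) {l : ℕ} {α : T} (hα : α ∈ d.V l) (h : α ∈ S.R w)
    {b : Bool} (h1 : chd (S.v w) (orb d.a d.c b 1) (α, 1) = S.q⁻¹)
    (h2 : chd (S.v w) (orb d.a d.c (!b) 1) (α, 1) = 1) : d.ch α ∉ S.R w := by
  intro hc
  have h3 : d.rt α ∈ S.R w := by
    rw [d.rt_eq hα]
    exact mul_mem hc (sub_mem (mul_mem (S.K0_le w hw _ d.c_mem) h) (S.K0_le w hw _ d.a_mem))
  have h4 : S.v w (d.rt α) ^ 2 = max (S.v w α) 1 ^ 2 * S.q⁻¹ := by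
    rw [d.v_rt_sq (S.good_fin hw)]
    cases b
    · rw [h1, show chd (S.v w) (orb d.a d.c true 1) (α, 1) = 1 from h2, mul_one]
    · rw [h1, show chd (S.v w) (orb d.a d.c false 1) (α, 1) = 1 from h2, one_mul]
  rcases le_total (S.v w α) 1 with h5 | h5
  · refine S.not_mem_of_odd hw (one_mem _) one_ne_zero ?_ h3
    rw [h4, max_eq_right h5, map_one, one_pow, one_mul, mul_one]
  · have h6 : S.v w α ≠ 0 := (zero_lt_one.trans_le h5).ne'
    refine S.not_mem_of_odd hw (inv_mem h) (inv_ne_zero ((S.v w).ne_zero_iff.1 h6)) ?_ h3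
    rw [h4, max_eq_left h5, map_inv₀, mul_right_comm, ← mul_pow, mul_inv_cancel₀ h6, one_pow,
      one_mul]

/-- A simple contact with `A` lifts to a unique event. -/
theorem lift_contact {w : S.W} (hw : w ∈ S.fin) {n s r i : ℕ} (hn : r + 1 + i = n)
    (ho : d.Old n w) (hp : d.Per s w) (hc : d.Crt s w) {A : Finset T}
    (hA : ∀ y ∈ A, S.v w y ≤ 1 ∧ ∃ μ, μ < s ∧ y ∈ d.V (r + μ + 1)) {b : Bool}
    (h : d.con b (i + 1) A w = S.q⁻¹) :
    ∃ μ, μ < s ∧ ∃ α ∈ d.V (r + μ + 1 + i), (phi d.a d.c)^[i] α ∈ A ∧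
      chd (S.v w) (orb d.a d.c b 1) (α, 1) = S.q⁻¹ ∧
      ∀ A' ⊆ A, ((phi d.a d.c)^[i] α ∈ A' → d.con b (i + 1) A' w = S.q⁻¹) ∧
        ((phi d.a d.c)^[i] α ∉ A' → d.con b (i + 1) A' w = 1) := by
  have h' := h
  rw [con_eq hw b _ fun y hy => (hA y hy).1] at h'
  obtain ⟨y, hy, hy1⟩ : ∃ y ∈ A, chd (S.v w) (orb d.a d.c b (i + 1)) (y, 1) ≠ 1 := by
    by_contra hn
    push Not at hn
    exact f7b_q.ne (h'.symm.trans (Finset.prod_eq_one hn))
  obtain ⟨μ, hμ, hyV⟩ := (hA y hy).2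
  obtain ⟨α, hα, e⟩ := f7b_lt hw hyV hy1
  obtain ⟨hαV, rfl⟩ := d.mem_fib.1 hα
  have K : ∀ y' ∈ A, y' ≠ (phi d.a d.c)^[i] α →
      chd (S.v w) (orb d.a d.c b (i + 1)) (y', 1) = 1 := by
    intro y' hy' hne
    by_contra hn
    obtain ⟨μ', hμ', hyV'⟩ := (hA y' hy').2
    obtain ⟨α', hα', e'⟩ := f7b_lt hw hyV' hn
    obtain ⟨hαV', rfl⟩ := d.mem_fib.1 hα'
    exact hne (by rw [(evt_uniq hw ho hp hc hαV hαV' (by omega) (by omega) e e').2])
  have K1 : ∀ A' ⊆ A, (phi d.a d.c)^[i] α ∈ A' → d.con b (i + 1) A' w =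
      chd (S.v w) (orb d.a d.c b (i + 1)) ((phi d.a d.c)^[i] α, 1) := by
    intro A' hA' hm
    rw [con_eq hw b _ fun y hy => (hA y (hA' hy)).1]
    exact Finset.prod_eq_single_of_mem _ hm fun y' hy' hne => K y' (hA' hy') hne
  have K2 := (K1 A subset_rfl hy).symm.trans h
  refine ⟨μ, hμ, α, hαV, hy, ?_, fun A' hA' => ⟨fun hm => (K1 A' hA' hm).trans K2, fun hm => ?_⟩⟩
  · rw [← K2, f7b_chd hw hyV]
    symm
    refine Finset.prod_eq_single_of_mem _ hα fun α' hα' hne => f7b_one fun e' => hne ?_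
    exact (evt_uniq hw ho hp hc (d.mem_fib.1 hα').1 hαV (by omega) (by omega) e' e).2
  · rw [con_eq hw b _ fun y hy => (hA y (hA' hy)).1]
    exact Finset.prod_eq_one fun y' hy' => K y' (hA' hy') fun e => hm (e ▸ hy')

theorem no_contact {w : S.W} (hw : w ∈ S.fin) {i : ℕ} {A : Finset T} (hA : ∀ y ∈ A, S.v w y ≤ 1)
    {b : Bool} (h : d.con b (i + 1) A w = 1) :
    (∀ A' ⊆ A, d.con b (i + 1) A' w = 1) ∧ ∀ l, ∀ α ∈ d.V (l + 1 + i),
      (phi d.a d.c)^[i] α ∈ A → ¬ d.Evt w b α := by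
  rw [con_eq hw b _ hA, Finset.prod_eq_one_iff_of_le_one' fun y _ => chd_le_one _ _] at h
  refine ⟨fun A' hA' => ?_, fun l α hα hm => not_lt.2 ?_⟩
  · rw [con_eq hw b _ fun y hy => hA y (hA' hy)]
    exact Finset.prod_eq_one fun y hy => h y (hA' hy)
  · have h1 := d.chd_anc_le hw hα (orb d.a d.c b 1)
    rwa [rdyn_orb, h _ hm] at h1

theorem local_B {w : S.W} (hw : w ∈ S.good) {n s r i N : ℕ} (hn : r + 1 + i = n)
    (hN : n + s = N) (ho : d.Old n w) (hp : d.Per (s + 1) w) (hc : d.Crt (s + 1) w)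
    (h1 : d.Reg (r + s + 1) w) {A A0 : Finset T} {u : T} (hA0 : ∀ z ∈ A0, z ∈ d.V N)
    (hu : u ∈ d.KV N) (h0 : u ≠ 0) (hu2 : u ^ 2 = ∏ z ∈ A0, dl d.a d.c z) (hu3 : u ^ 2 ∈ S.K0)
    (hu' : ∀ g : T ≃ₐ[S.K0] T, g u = u ∨ g u = -u)
    (hI : ∀ l, n ≤ l + 1 → ∀ y ∈ d.V (l + 1), ∀ j, j < s →
      Indep (d.Ly (l + 1) y j) (d.fib (l + 1) y j) (dl d.a d.c))
    (hA : ∀ y ∈ A, S.v w y ≤ 1 ∧ ∃ μ, μ < s + 1 ∧ y ∈ d.V (r + μ + 1))
    (hA' : ∀ μ j, μ + j = s → ∀ α ∈ d.V (r + μ + 1 + i),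
      (phi d.a d.c)^[i] α ∈ A ↔ d.Bad N u A0 j α) (b : Bool) :
    ¬ (d.con b (i + 1) A w = S.q⁻¹ ∧ d.con (!b) (i + 1) A w = 1) := by
  classical
  rintro ⟨hb, hb'⟩
  have hwf := S.good_fin hw
  obtain ⟨U, σ, hIn⟩ := S.exists_inert d.two_ne hw
  obtain ⟨μ1, hμ1, α1, hα1, hm1, hq1, hcon⟩ := lift_contact hwf hn ho hp hc hA hb
  obtain ⟨hcon', hno⟩ := no_contact hwf (fun y hy => (hA y hy).1) hb'
  have e1 : d.Evt w b α1 := hq1.trans_lt f7b_q
  have hr1 : d.Reg 1 w := fun j a1 a2 => h1 j a1 (by omega)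
  set At := A.filter fun y => y ∈ d.V (r + s + 1) with hAt
  have hAt1 : ∀ y ∈ At, y ∈ d.V (r + s + 1) := fun y hy => (Finset.mem_filter.1 hy).2
  have hsub : At ⊆ A := Finset.filter_subset _ _
  have eN : N = r + s + 1 + i := by omega
  have hAt2 : ∀ z, z ∈ A0 ↔ z ∈ d.V (r + s + 1 + i) ∧ (phi d.a d.c)^[i] z ∈ At := by
    intro z
    constructor
    · intro hz
      have hz' : z ∈ d.V (r + s + 1 + i) := eN ▸ hA0 z hz
      exact ⟨hz', Finset.mem_filter.2 ⟨(hA' s 0 rfl z hz').2 hz, d.iter_mem_V hz'⟩⟩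
    · exact fun hz => (hA' s 0 rfl z hz.1).1 (hsub hz.2)
  have hv := v_rel hAt1 hAt2 hu2 w
  have hv' : d.con false (i + 1) At w * d.con true (i + 1) At w = d.con b (i + 1) At w := by
    have h3 := hcon' At hsub
    cases b
    · rw [show d.con true (i + 1) At w = 1 from h3, mul_one]
    · rw [show d.con false (i + 1) At w = 1 from h3, one_mul]
  rw [hv'] at hv
  have he : ∏ y ∈ At, wedge (orb d.a d.c true i) (y, 1) ∈ S.R w := by
    refine prod_mem fun y hy => ?_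
    exact sub_mem (mul_mem (S.K0_le w hw _ (d.orb_mem true i).1) (one_mem _))
      (mul_mem (S.K0_le w hw _ (d.orb_mem true i).2) (h1 _ (by omega) le_rfl y (hAt1 y hy)))
  have he0 : ∏ y ∈ At, wedge (orb d.a d.c true i) (y, 1) ≠ 0 :=
    Finset.prod_ne_zero_iff.2 fun y hy => d.wedge_true_ne (hAt1 y hy) i
  have huR := S.K0_le w hw _ hu3
  have hun : ∀ (b : Bool) j α j' α', (∃ l, l + 1 + (j + 1) = N ∧ α ∈ d.V (l + 1) ∧ d.Evt w b α) →
      (∃ l, l + 1 + (j' + 1) = N ∧ α' ∈ d.V (l + 1) ∧ d.Evt w b α') → j = j' ∧ α = α' := by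
    rintro b j α j' α' ⟨l, a1, a2, a3⟩ ⟨l', b1, b2, b3⟩
    obtain ⟨c1, c2⟩ := evt_uniq hwf ho hp hc a2 b2 (by omega) (by omega) a3 b3
    exact ⟨by omega, c2⟩
  have hin : ∀ z ∈ d.V N, z ∈ U ∧ (z ∈ S.R w ∨ ∃ i' j b, i' + 1 + (j + 1) = N ∧
      d.Evt w b ((phi d.a d.c)^[j + 1] z) ∧ d.ch ((phi d.a d.c)^[j + 1] z) ∉ S.R w) := by
    intro z hz
    obtain rfl : N = r + s + i + 1 := by omega
    exact inert_tree hw hIn ho hc hr1 (by omega) hz
  obtain ⟨j, α, ⟨l, a1, a2, a3⟩, a4⟩ := swap_core hu h0 hu' (σ := σ)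
    (fun z hz => hIn.inv z (hin z hz).1)
    (fun j α => ∃ l, l + 1 + (j + 1) = N ∧ α ∈ d.V (l + 1) ∧ d.Evt w b α)
    (fun j α => ∃ l, l + 1 + (j + 1) = N ∧ α ∈ d.V (l + 1) ∧ d.Evt w (!b) α) (hun b) (hun !b)
    (fun z hz hne => by
      obtain ⟨i', j, b', c1, c2, c3⟩ := (hin z hz).2.resolve_left fun h => hne (hIn.fix z h)
      have c4 : (phi d.a d.c)^[j + 1] z ∈ d.V (i' + 1) := d.iter_mem_V (c1 ▸ hz)
      refine ⟨i', j, c1, ?_,
        hIn.neg _ (f7b_ch_sq hw (evt_reg hw hIn ho hc hr1 (by omega) c4 c2)) c3⟩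
      rcases Bool.eq_or_eq_not b' b with rfl | rfl
      · exact Or.inl ⟨i', c1, c4, c2⟩
      · exact Or.inr ⟨i', c1, c4, c2⟩)
    (by
      rcases (Nat.lt_succ_iff.1 hμ1).eq_or_lt with rfl | hlt
      · refine Or.inl ⟨hIn.neg u huR (S.not_mem_of_odd hw he he0 (hv.trans
          ((hcon At hsub).1 (Finset.mem_filter.2 ⟨hm1, d.iter_mem_V hα1⟩)))), ?_⟩
        rintro j α ⟨l, a1, a2, a3⟩
        have := (evt_uniq hwf ho hp hc a2 hα1 (by omega) (by omega) a3 e1).1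
        omega
      · obtain ⟨j, rfl⟩ : ∃ j, s = μ1 + (j + 1) := ⟨s - μ1 - 1, by omega⟩
        have c1 : (phi d.a d.c)^[i] α1 ∉ At := fun h => by
          have := d.V_disjoint (hAt1 _ h) (d.iter_mem_V hα1)
          omega
        have c2 : α1 ∈ d.V (r + μ1 + i + 1) := by
          rwa [show r + μ1 + i + 1 = r + μ1 + 1 + i by omega]
        have c3 := evt_reg hw hIn ho hc hr1 (by omega) c2 e1
        exact Or.inr ⟨hIn.fix u (S.mem_of_even hw huR he (hv.trans ((hcon At hsub).2 c1))),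
          r + μ1 + i, j, α1, by omega, c2, ⟨r + μ1 + i, by omega, c2, e1⟩,
          hIn.neg _ (f7b_ch_sq hw c3) (f7b_ch_not hw c2 c3 hq1 (f7b_one (hno _ α1 hα1 hm1))),
          (hA' μ1 (j + 1) rfl α1 hα1).1 hm1,
          fun i' hi' => hI _ (by omega) α1 c2 i' (by omega)⟩)
  have a5 := ho.level hwf a2 a3
  obtain ⟨μ, hμ⟩ : ∃ μ, l + 1 = r + μ + 1 + i := ⟨l + 1 - n, by omega⟩
  rw [hμ] at a2
  exact hno _ α a2 ((hA' μ (j + 1) (by omega) α a2).2 a4) a3

/-- The window set. -/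
theorem exists_window {r : ℕ} (hst : d.Stable (r + 1)) {s i N : ℕ} (hN : r + 1 + i + s = N)
    {A0 : Finset T} {u : T} (hne : A0.Nonempty) (hA0 : ∀ z ∈ A0, z ∈ d.V N)
    (hinv : ∀ g : T ≃ₐ[S.K0] T, ∀ z ∈ A0, g z ∈ A0)
    (hu' : ∀ g : T ≃ₐ[S.K0] T, g u = u ∨ g u = -u) :
    ∃ A : Finset T, 2 ^ s ≤ A.card ∧ (∀ y ∈ A, ∃ μ, μ < s + 1 ∧ y ∈ d.V (r + μ + 1)) ∧
      ∀ μ j, μ + j = s → ∀ α ∈ d.V (r + μ + 1 + i),
        (phi d.a d.c)^[i] α ∈ A ↔ d.Bad N u A0 j α := by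
  classical
  obtain ⟨A, hA⟩ : ∃ A : Finset T, ∀ y, y ∈ A ↔ ∃ μ, μ < s + 1 ∧ ∃ α,
      (α ∈ d.V (r + μ + 1 + i) ∧ d.Bad N u A0 (s - μ) α) ∧ (phi d.a d.c)^[i] α = y :=
    ⟨(Finset.range (s + 1)).biUnion fun μ =>
      ((d.Vf (r + μ + 1 + i)).filter (d.Bad N u A0 (s - μ))).image (phi d.a d.c)^[i], fun y => by
        simp only [Finset.mem_biUnion, Finset.mem_range, Finset.mem_image, Finset.mem_filter,
          mem_Vf]⟩
  have h3 : ∀ μ j, μ + j = s → ∀ α ∈ d.V (r + μ + 1 + i),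
      (phi d.a d.c)^[i] α ∈ A ↔ d.Bad N u A0 j α := by
    intro μ j hj α hα
    obtain rfl : j = s - μ := by omega
    rw [hA]
    refine ⟨?_, fun h => ⟨μ, by omega, α, ⟨hα, h⟩, rfl⟩⟩
    rintro ⟨μ', -, α', ⟨b1, b2⟩, b3⟩
    have b4 := d.V_disjoint (d.iter_mem_V hα) (b3 ▸ d.iter_mem_V b1)
    obtain rfl : μ' = μ := by omega
    exact hst.saturated (by omega) (fun g z hz => hz.aut hu' hinv g) b1 hα b3 b2
  refine ⟨A, ?_, fun y hy => ?_, h3⟩
  · obtain ⟨z0, hz0⟩ := hne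
    have b1 : z0 ∈ d.V (r + 1 + (s + i)) := by
      rw [show r + 1 + (s + i) = N by omega]
      exact hA0 z0 hz0
    rw [← d.card_fib (d.iter_mem_V b1) s]
    refine Finset.card_le_card fun y hy => ?_
    obtain ⟨b2, b3⟩ := d.mem_fib.1 hy
    obtain ⟨z, b4, rfl⟩ := d.exists_above b2 i
    refine (h3 s 0 rfl z (by rwa [show r + s + 1 + i = r + 1 + s + i by omega])).2 ?_
    exact hst.saturated le_rfl (P := fun z => z ∈ A0) hinv b1 (by rwa [← add_assoc])
      (by rw [← b3, Function.iterate_add_apply]) hz0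
  · obtain ⟨μ, b1, α, ⟨b2, -⟩, rfl⟩ := (hA y).1 hy
    exact ⟨μ, b1, d.iter_mem_V b2⟩

theorem indep_B [IsAlgClosed k] (hsd : d.LowerBd d.GoodSet) {r : ℕ} (hst : d.Stable (r + 1))
    (hc : ∀ r b', wedge (orb d.a d.c true (r + 1)) (crit b') ≠ 0) :
    ∃ N0 : ℕ, ∀ N, N0 ≤ N → Indep (d.KV (N + 1)) (d.Vf (N + 1)) (dl d.a d.c) := by
  obtain ⟨ε, hε, hb⟩ := hsd.bdd
  obtain ⟨C, hC⟩ := d.mass_old
  obtain ⟨s, hs⟩ := exists_pow_gt hε (C * 2 ^ r + 1)
  obtain ⟨C1, hC1⟩ := d.mass_per (s + 1)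
  obtain ⟨C2, hC2⟩ := d.mass_crt hc (s + 1)
  obtain ⟨C3, hC3⟩ := d.mass_reg (r + s + 1)
  obtain ⟨m0, hm0⟩ := hb (r + s + 1)
  obtain ⟨n0, hn0⟩ := full hsd hst s
  refine ⟨r + s + (m0 + n0 + (C1 + C2 + C3)), fun N hN => ?_⟩
  obtain ⟨i, rfl⟩ : ∃ i, N = r + s + i := ⟨N - (r + s), by omega⟩
  by_contra hn
  obtain ⟨A0, u, hne, hA0, hinv, hu, h0, hu2, hu3, hu'⟩ := exists_rel hn
  obtain ⟨A, hA1, hA2, hA3⟩ := exists_window hst (s := s) (i := i) (by omega) hne hA0 hinv hu'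
  have h1 := hm0 (i + 1) (by omega) A fun y hy => by
    obtain ⟨μ, a1, a2⟩ := hA2 y hy
    exact ⟨_, by omega, by omega, a2⟩
  have h2 : d.GoodSet (i + 1) A ⊆ (({w | w ∈ S.good ∧ ¬ d.Old (r + 1 + i) w} ∪
      {w | w ∈ S.good ∧ ¬ d.Per (s + 1) w}) ∪ {w | w ∈ S.good ∧ ¬ d.Crt (s + 1) w}) ∪
        {w | ¬ d.Reg (r + s + 1) w} := by
    rintro w ⟨hw, hv, hcon⟩
    by_contra hx
    simp only [Set.mem_union, Set.mem_ofPred_eq, hw, true_and, not_or, not_not] at hx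
    have h3 := local_B hw rfl (by omega) hx.1.1.1 hx.1.1.2 hx.1.2 hx.2 hA0 hu h0 hu2 hu3 hu'
      (fun l hl => hn0 l (by omega)) (fun y hy => ⟨hv y hy, hA2 y hy⟩) hA3
    rcases hcon with h4 | h4
    · exact h3 false h4
    · exact h3 true h4.symm
  have h3 := (S.toPF.mass_mono h2).trans ((S.toPF.mass_union_le _ _).trans (add_le_add
    ((S.toPF.mass_union_le _ _).trans (add_le_add ((S.toPF.mass_union_le _ _).trans
      (add_le_add (hC _) hC1)) hC2)) hC3))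
  have h4 : ((C * 2 ^ r + 1 : ℕ) : ℝ≥0∞) * 2 ^ (i + 1) ≤ ε * A.card * 2 ^ (i + 1) := by
    refine mul_le_mul_left ((hs s le_rfl).le.trans (mul_le_mul_right ?_ _)) _
    exact_mod_cast hA1
  have h5 : (C * 2 ^ r + 1) * 2 ^ (i + 1) ≤ C * 2 ^ (r + 1 + i) + C1 + C2 + C3 := by
    exact_mod_cast h4.trans (h1.trans h3)
  have h6 : i + 1 < 2 ^ (i + 1) := Nat.lt_two_pow_self
  rw [add_mul, mul_assoc, ← pow_add, show r + (i + 1) = r + 1 + i by omega] at h5
  omega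

end Dyn

end JR
end

-- merged part: Pool.Agent.Work.MP_969914_nt.ULima
section
/-! Construction of the nonstandard model: the product formula structure. -/

set_option autoImplicit false

namespace JR

open scoped NNReal ENNReal Topology
open Polynomial Filter

section germ
variable {U : Ultrafilter ℕ}

theorem ulim_eq {X : Type} {a b : ℕ → X} : gm U a = gm U b ↔ ∀ᶠ n in U, a n = b n := Germ.coe_eq

theorem ulim_rep {X : Type} (z : UG U X) : ∃ a, z = gm U a :=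
  Germ.inductionOn z fun a => ⟨a, rfl⟩

theorem ulim_le {a b : ℕ → ℝ≥0} : gm U a ≤ gm U b ↔ ∀ᶠ n in U, a n ≤ b n := Germ.coe_le

theorem ulim_lt {a b : ℕ → ℝ≥0} : gm U a < gm U b ↔ ∀ᶠ n in U, a n < b n := Germ.coe_lt

theorem ulim_max (a b : ℕ → ℝ≥0) : max (gm U a) (gm U b) = gm U fun n => max (a n) (b n) :=
  Germ.max_def _ _

theorem ulim_le_max {a b : ℕ → ℝ≥0} : gm U a ≤ max 1 (gm U b) ↔ ∀ᶠ n in U, a n ≤ max 1 (b n) := by
  rw [← ulim_le, ← ulim_max]
  rfl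

theorem ulim_ne_zero {T : Type} [Field T] {a : ℕ → T} (h : gm U a ≠ 0) : ∀ᶠ n in U, a n ≠ 0 :=
  Ultrafilter.eventually_not.2 fun e => h (ulim_eq.2 e)

theorem ulim_transfer {W : Type} {P : ℕ → W → Prop} (h : ∀ ω : ℕ → W, ∀ᶠ n in U, P n (ω n)) :
    ∀ᶠ n in U, ∀ w, P n w := by
  classical
  by_contra hc
  have h1 := Ultrafilter.eventually_not.2 hc
  obtain ⟨n0, h0⟩ := h1.exists
  obtain ⟨w0, -⟩ := not_forall.1 h0
  obtain ⟨n, a, b⟩ := (h1.and (h fun n => if e : ∃ w, ¬ P n w then e.choose else w0)).exists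
  have e := not_forall.1 a
  rw [dif_pos e] at b
  exact e.choose_spec b

end germ

section lim
variable (U : Ultrafilter ℕ) (lam : ℕ → ℝ≥0)

/-- The limit at scale `lam`. -/
noncomputable def ulim (u : ℕ → ℝ≥0∞) : ℝ≥0∞ := (U.map fun n => u n / lam n).lim

theorem ulim_tendsto (u : ℕ → ℝ≥0∞) : Tendsto (fun n => u n / lam n) U (𝓝 (ulim U lam u)) :=
  (U.map fun n => u n / lam n).le_nhds_lim

variable {U lam}

theorem ulim_mono {u u' : ℕ → ℝ≥0∞} (h : ∀ᶠ n in U, u n ≤ u' n) : ulim U lam u ≤ ulim U lam u' :=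
  le_of_tendsto_of_tendsto (ulim_tendsto U lam u) (ulim_tendsto U lam u')
    (h.mono fun _ hn => ENNReal.div_le_div_right hn _)

theorem ulim_add (u u' : ℕ → ℝ≥0∞) :
    ulim U lam (fun n => u n + u' n) = ulim U lam u + ulim U lam u' :=
  tendsto_nhds_unique (ulim_tendsto U lam _)
    (((ulim_tendsto U lam u).add (ulim_tendsto U lam u')).congr fun _ => ENNReal.add_div.symm)

theorem ulim_mul {c : ℝ≥0∞} (hc : c ≠ ⊤) (u : ℕ → ℝ≥0∞) :
    ulim U lam (fun n => c * u n) = c * ulim U lam u :=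
  tendsto_nhds_unique (ulim_tendsto U lam _)
    ((ENNReal.Tendsto.const_mul (ulim_tendsto U lam u) (Or.inr hc)).congr fun _ =>
      (mul_div_assoc _ _ _).symm)

theorem ulim_zero : ulim U lam (fun _ => 0) = 0 := by
  simpa using ulim_mul (U := U) (lam := lam) ENNReal.zero_ne_top fun _ => 0

theorem ulim_const (hl : Tendsto lam U atTop) {c : ℝ≥0∞} (hc : c ≠ ⊤) :
    ulim U lam (fun _ => c) = 0 := by
  refine tendsto_nhds_unique (ulim_tendsto U lam _) ?_
  have h := ENNReal.Tendsto.const_div (a := c) (ENNReal.tendsto_coe_nhds_top.2 hl) (Or.inr hc)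
  rwa [ENNReal.div_top] at h

theorem ulim_le_of {u : ℕ → ℝ≥0∞} {μ : ℝ≥0∞} (h : ∀ᶠ n in U, u n ≤ μ * lam n) :
    ulim U lam u ≤ μ :=
  le_of_tendsto (ulim_tendsto U lam u) (h.mono fun _ hn => ENNReal.div_le_of_le_mul hn)

end lim

variable {p : ℕ} {k T : Type} [Field k] [Field T] [Algebra k T] (S : Std p k T)
  (U : Ultrafilter ℕ) (lam : ℕ → ℝ≥0)

/-- The valuation on germs along a sequence of places. -/
noncomputable def ulimV (ω : ℕ → S.W) : Valuation (UG U T) (UG U ℝ≥0) where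
  toFun z := Germ.liftOn z (fun a => gm U fun n => S.v (ω n) (a n)) fun _ _ h =>
    ulim_eq.2 (h.mono fun _ hn => congrArg _ hn)
  map_zero' := ulim_eq.2 (Eventually.of_forall fun n => (S.v (ω n)).map_zero)
  map_one' := ulim_eq.2 (Eventually.of_forall fun n => (S.v (ω n)).map_one)
  map_mul' x y := Germ.inductionOn₂ x y fun a b =>
    ulim_eq.2 (Eventually.of_forall fun n => (S.v (ω n)).map_mul (a n) (b n))
  map_add_le_max' x y := Germ.inductionOn₂ x y fun a b =>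
    (ulim_le.2 (Eventually.of_forall fun n => (S.v (ω n)).map_add (a n) (b n))).trans
      (ulim_max _ _).ge

theorem ulimV_gm (ω : ℕ → S.W) (a : ℕ → T) :
    ulimV S U ω (gm U a) = gm U fun n => S.v (ω n) (a n) := rfl

/-- The outer integral. -/
noncomputable def ulimI (f : (ℕ → S.W) → UG U ℝ≥0) : ℝ≥0∞ :=
  ⨅ (F : ℕ → S.W → ℝ≥0) (_ : ∀ ω, f ω ≤ max 1 (gm U fun n => F n (ω n))),
    ulim U lam fun n => S.I (F n)

variable {S U lam}

theorem ulimI_le {f : (ℕ → S.W) → UG U ℝ≥0} (F : ℕ → S.W → ℝ≥0)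
    (h : ∀ ω, f ω ≤ max 1 (gm U fun n => F n (ω n))) :
    ulimI S U lam f ≤ ulim U lam fun n => S.I (F n) := iInf₂_le F h

theorem ulimI_int (F : ℕ → S.W → ℝ≥0) :
    ulimI S U lam (fun ω => gm U fun n => F n (ω n)) = ulim U lam fun n => S.I (F n) := by
  refine le_antisymm (ulimI_le F fun ω => le_max_right _ _) (le_iInf₂ fun G hG => ulim_mono ?_)
  exact (ulim_transfer (P := fun n w => F n w ≤ max 1 (G n w)) fun ω =>
    ulim_le_max.1 (hG ω)).mono fun n hn => S.I_mono _ _ hn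

theorem ulimI_mono {f g : (ℕ → S.W) → UG U ℝ≥0} (h : ∀ ω, f ω ≤ max 1 (g ω)) :
    ulimI S U lam f ≤ ulimI S U lam g :=
  le_iInf₂ fun G hG => ulimI_le G fun ω => (h ω).trans (max_le (le_max_left _ _) (hG ω))

theorem ulimI_mul (f g : (ℕ → S.W) → UG U ℝ≥0) :
    ulimI S U lam (fun ω => f ω * g ω) ≤ ulimI S U lam f + ulimI S U lam g := by
  refine ENNReal.le_iInf₂_add_iInf₂ fun F hF G hG => ?_
  refine (ulimI_le (fun n w => max 1 (F n w) * max 1 (G n w)) fun ω => ?_).trans ?_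
  · refine (mul_le_mul' (hF ω) (hG ω)).trans (le_max_of_le_right (le_of_eq ?_))
    exact congrArg₂ (· * ·) (ulim_max _ _) (ulim_max _ _)
  · rw [← ulim_add]
    refine ulim_mono (Eventually.of_forall fun n => (S.I_mul _ _).trans_eq ?_)
    exact congrArg₂ (· + ·) (S.toPF.I_max_one _) (S.toPF.I_max_one _)

theorem ulimI_pow (f : (ℕ → S.W) → UG U ℝ≥0) (m : ℕ) :
    (m : ℝ≥0∞) * ulimI S U lam f ≤ ulimI S U lam fun ω => f ω ^ m := by
  rcases eq_or_ne m 0 with rfl | hm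
  · simp
  refine le_iInf₂ fun F hF => ?_
  have e : ∀ x : ℝ≥0, (x ^ (m⁻¹ : ℝ)) ^ m = x := fun x => NNReal.rpow_inv_natCast_pow x hm
  refine (mul_le_mul_right (ulimI_le (fun n w => F n w ^ (m⁻¹ : ℝ)) fun ω => ?_) _).trans ?_
  · obtain ⟨b, hb⟩ := ulim_rep (f ω)
    have h : f ω ^ m ≤ _ := hF ω
    rw [hb] at h ⊢
    refine ulim_le_max.2 ((ulim_le_max (a := fun n => b n ^ m)).1 h |>.mono fun n hn => ?_)
    rcases le_max_iff.1 hn with h1 | h1
    · exact le_max_of_le_left ((pow_le_one_iff hm).1 h1)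
    · rw [← e (F n (ω n))] at h1
      exact le_max_of_le_right ((pow_le_pow_iff_left₀ zero_le zero_le hm).1 h1)
  · rw [← ulim_mul (ENNReal.natCast_ne_top m)]
    refine ulim_mono (Eventually.of_forall fun n => (S.I_pow _ m).trans_eq ?_)
    simp only [e]

theorem ulimI_pf {α : UG U T} (hα : α ≠ 0) {f : (ℕ → S.W) → UG U ℝ≥0}
    (h : ∀ ω, ulimV S U ω α ≤ f ω) :
    ulimI S U lam (fun ω => f ω / ulimV S U ω α) ≤ ulimI S U lam f := by
  obtain ⟨a, rfl⟩ := ulim_rep α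
  refine le_iInf₂ fun F hF => ?_
  refine (ulimI_le (fun n w => max 1 (F n w) / S.v w (a n)) fun ω => ?_).trans (ulim_mono ?_)
  · refine le_max_of_le_right ((div_le_div_of_nonneg_right (hF ω) zero_le).trans (le_of_eq ?_))
    exact congrArg (· / ulimV S U ω (gm U a)) (ulim_max _ _)
  · filter_upwards [ulim_ne_zero hα, ulim_transfer (P := fun n w => S.v w (a n) ≤ max 1 (F n w))
      fun ω => ulim_le_max.1 ((h ω).trans (hF ω))] with n h0 h1
    exact (S.pf _ h0 _ (fun w => le_max_left _ _) h1).trans_eq (S.toPF.I_max_one _)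

variable (S U lam)

/-- The product formula structure on a field of germs. -/
noncomputable def ulimPF (K : Subfield (UG U T)) : PF K (UG U ℝ≥0) where
  W := ℕ → S.W
  v ω := (ulimV S U ω).comap K.subtype
  I := ulimI S U lam
  q := gm U fun _ => S.q
  one_lt_q := ulim_lt.2 (Eventually.of_forall fun _ => S.one_lt_q)
  I_one := (ulimI_int fun _ _ => 1).trans (by simp only [S.I_one, ulim_zero])
  I_mono _ _ h := ulimI_mono h
  I_mul := ulimI_mul
  I_pow := ulimI_pow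
  pf α h _ _ h2 := ulimI_pf (fun e => h (Subtype.ext e)) h2

theorem ulimPF_mass (K : Subfield (UG U T)) (E : ℕ → Set S.W) (F : Set (ℕ → S.W))
    (h : ∀ ω ∈ F, ∀ᶠ n in U, ω n ∈ E n) :
    (ulimPF S U lam K).mass F ≤ ulim U lam fun n => S.toPF.mass (E n) := by
  classical
  refine ulimI_le (fun n w => if w ∈ E n then S.q else 1) fun ω => ?_
  split_ifs with hω
  · exact le_max_of_le_right (ulim_le.2 ((h ω hω).mono fun n hn => (if_pos hn).ge))
  · exact le_max_left _ _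

theorem ulimPF_ht (K : Subfield (UG U T)) (z : K) (a : ℕ → T) (h : (z : UG U T) = gm U a) :
    (ulimPF S U lam K).ht z = ulim U lam fun n => S.toPF.ht (a n) := by
  refine Eq.trans ?_ (ulimI_int fun n w => S.v w (a n))
  show ulimI S U lam (fun ω => ulimV S U ω z) = _
  rw [h]
  rfl

end JR
end

-- merged part: Pool.Agent.Work.MP_969914_nt.ULim
section
/-! Construction of the nonstandard model. -/

set_option autoImplicit false

namespace JR

open scoped NNReal ENNReal Topology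
open Polynomial Filter

section model
variable {p : ℕ} {k T : Type} [Field k] [Field T] [Algebra k T] (S : Std p k T)
  (U : Ultrafilter ℕ) (lam : ℕ → ℝ≥0)

/-- The Hasse derivation on germs. -/
noncomputable def ulimH : HD (UG U T) where
  E :=
    { toFun := fun z => PowerSeries.mk fun r => Germ.map (S.H.D r) z
      map_one' := by
        ext r
        rw [PowerSeries.coeff_mk, PowerSeries.coeff_one]
        cases r with
        | zero => exact ulim_eq.2 (Eventually.of_forall fun n => S.H.D_zero 1)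
        | succ r => exact ulim_eq.2 (Eventually.of_forall fun n => S.H.D_one r)
      map_mul' := fun x y => Germ.inductionOn₂ x y fun a b => by
        ext r
        simp only [PowerSeries.coeff_mul, PowerSeries.coeff_mk]
        refine Eq.trans ?_ (map_sum (Germ.coeRingHom (U : Filter ℕ))
          (fun x : ℕ × ℕ => (fun n => S.H.D x.1 (a n)) * fun n => S.H.D x.2 (b n)) _)
        exact ulim_eq.2 (Eventually.of_forall fun n => by
          simpa [Finset.sum_apply] using S.H.D_mul r (a n) (b n))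
      map_zero' := by
        ext r
        rw [PowerSeries.coeff_mk, map_zero]
        exact ulim_eq.2 (Eventually.of_forall fun n => S.H.D_of_zero r)
      map_add' := fun x y => Germ.inductionOn₂ x y fun a b => by
        ext r
        simp only [map_add, PowerSeries.coeff_mk]
        exact ulim_eq.2 (Eventually.of_forall fun n => S.H.D_add r (a n) (b n)) }
  c0 z := Germ.inductionOn z fun a => by
    simp only [RingHom.coe_mk, MonoidHom.coe_mk, OneHom.coe_mk, PowerSeries.coeff_mk]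
    exact ulim_eq.2 (Eventually.of_forall fun n => S.H.D_zero (a n))
  iter z i j := Germ.inductionOn z fun a => by
    simp only [RingHom.coe_mk, MonoidHom.coe_mk, OneHom.coe_mk, PowerSeries.coeff_mk]
    exact ulim_eq.2 (Eventually.of_forall fun n => S.H.D_D i j (a n))

theorem ulimH_gm (r : ℕ) (a : ℕ → T) :
    (ulimH S U).D r (gm U a) = gm U fun n => S.H.D r (a n) :=
  PowerSeries.coeff_mk r fun r => Germ.map (S.H.D r) (gm U a)

/-- Admissible sequences. -/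
def ulimAdm (a : ℕ → T) : Prop := ulim U lam (fun n => S.toPF.mass {w | a n ∉ S.R w}) = 0

variable {S U lam}

theorem ulimAdm.mono {a b : ℕ → T} (h : ulimAdm S U lam a)
    (e : ∀ᶠ n in U, ∀ w, a n ∈ S.R w → b n ∈ S.R w) : ulimAdm S U lam b := by
  refine le_antisymm ((ulim_mono (e.mono fun n hn => S.toPF.mass_mono ?_)).trans_eq h) bot_le
  exact fun w (hw : b n ∉ S.R w) (h' : a n ∈ S.R w) => hw (hn w h')

theorem ulimAdm.two {a b c : ℕ → T} (ha : ulimAdm S U lam a) (hb : ulimAdm S U lam b)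
    (e : ∀ n w, a n ∈ S.R w → b n ∈ S.R w → c n ∈ S.R w) : ulimAdm S U lam c := by
  have h := ulim_add (U := U) (lam := lam) (fun n => S.toPF.mass {w | a n ∉ S.R w})
    fun n => S.toPF.mass {w | b n ∉ S.R w}
  rw [ha, hb, add_zero] at h
  refine le_antisymm ((ulim_mono (Eventually.of_forall fun n =>
    (S.toPF.mass_mono fun w hw => ?_).trans (S.toPF.mass_union_le _ _))).trans_eq h) bot_le
  by_contra hc
  exact hw (e n w (not_not.1 fun h => hc (Or.inl h)) (not_not.1 fun h => hc (Or.inr h)))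

theorem ulimAdm_of {a : ℕ → T} (e : ∀ n w, a n ∈ S.R w) : ulimAdm S U lam a := by
  have : ∀ n, {w | a n ∉ S.R w} = ∅ := fun n => Set.eq_empty_of_forall_notMem fun w h => h (e n w)
  simp only [ulimAdm, this, PF.mass_empty, ulim_zero]

theorem ulimAdm.good (hl : Tendsto lam U atTop) {a b : ℕ → T} (ha : ulimAdm S U lam a)
    (e : ∀ᶠ n in U, ∀ w ∈ S.good, a n ∈ S.R w → b n ∈ S.R w) : ulimAdm S U lam b := by
  have h := ulim_add (U := U) (lam := lam) (fun _ => S.toPF.mass S.goodᶜ)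
    fun n => S.toPF.mass {w | a n ∉ S.R w}
  rw [ha, ulim_const hl S.mass_bad.ne, add_zero] at h
  refine le_antisymm ((ulim_mono (e.mono fun n hn =>
    (S.toPF.mass_mono fun w hw => ?_).trans (S.toPF.mass_union_le _ _))).trans_eq h) bot_le
  by_contra hc
  exact hw (hn w (not_not.1 fun h => hc (Or.inl h)) (not_not.1 fun h => hc (Or.inr h)))

variable (S U lam)

/-- The field of admissible germs. -/
def ulimK : Subfield (UG U T) where
  carrier := {z | ∃ a, ulimAdm S U lam a ∧ z = gm U a}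
  mul_mem' := by
    rintro _ _ ⟨a, ha, rfl⟩ ⟨b, hb, rfl⟩
    exact ⟨a * b, ha.two hb fun n w => mul_mem, rfl⟩
  one_mem' := ⟨1, ulimAdm_of fun _ _ => one_mem _, rfl⟩
  add_mem' := by
    rintro _ _ ⟨a, ha, rfl⟩ ⟨b, hb, rfl⟩
    exact ⟨a + b, ha.two hb fun n w => add_mem, rfl⟩
  zero_mem' := ⟨0, ulimAdm_of fun _ _ => zero_mem _, rfl⟩
  neg_mem' := by
    rintro _ ⟨a, ha, rfl⟩
    exact ⟨-a, ha.mono (Eventually.of_forall fun n w => neg_mem), rfl⟩
  inv_mem' := by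
    rintro _ ⟨a, ha, rfl⟩
    exact ⟨a⁻¹, ha.mono (Eventually.of_forall fun n w => inv_mem), rfl⟩

/-- Germs that are regular along a sequence of places. -/
def ulimR (ω : ℕ → S.W) : Subfield (UG U T) where
  carrier := {z | ∃ a, (∀ᶠ n in U, a n ∈ S.R (ω n)) ∧ z = gm U a}
  mul_mem' := by
    rintro _ _ ⟨a, ha, rfl⟩ ⟨b, hb, rfl⟩
    exact ⟨a * b, (ha.and hb).mono fun n h => mul_mem h.1 h.2, rfl⟩
  one_mem' := ⟨1, Eventually.of_forall fun _ => one_mem _, rfl⟩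
  add_mem' := by
    rintro _ _ ⟨a, ha, rfl⟩ ⟨b, hb, rfl⟩
    exact ⟨a + b, (ha.and hb).mono fun n h => add_mem h.1 h.2, rfl⟩
  zero_mem' := ⟨0, Eventually.of_forall fun _ => zero_mem _, rfl⟩
  neg_mem' := by
    rintro _ ⟨a, ha, rfl⟩
    exact ⟨-a, ha.mono fun n => neg_mem, rfl⟩
  inv_mem' := by
    rintro _ ⟨a, ha, rfl⟩
    exact ⟨a⁻¹, ha.mono fun n => inv_mem, rfl⟩

variable {U lam} (hl : Tendsto lam U atTop)
include hl

theorem ulimK_D (z : UG U T) (hz : z ∈ ulimK S U lam) (r : ℕ) :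
    (ulimH S U).D r z ∈ ulimK S U lam := by
  obtain ⟨a, ha, rfl⟩ := hz
  exact ⟨_, ha.good hl (Eventually.of_forall fun n w hw h => S.R_D w hw _ h r), ulimH_gm S U r a⟩

/-- The Hasse derivation on admissible germs. -/
noncomputable def ulimHK : HD (ulimK S U lam) := (ulimH S U).restrict _ (ulimK_D S hl)

theorem ulimHK_gm (r : ℕ) (z : ulimK S U lam) (a : ℕ → T) (h : (z : UG U T) = gm U a) :
    ((ulimHK S hl).D r z : UG U T) = gm U fun n => S.H.D r (a n) := by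
  rw [← ulimH_gm, ← h]
  exact (HD.restrict_compat _ _ (ulimK_D S hl) r z).symm

theorem ulim_vD (ω : ℕ → S.W) (r : ℕ) (z : ulimK S U lam) (a : ℕ → T)
    (h : (z : UG U T) = gm U a) : (ulimPF S U lam _).v ω ((ulimHK S hl).D r z) =
      gm U fun n => S.v (ω n) (S.H.D r (a n)) :=
  congrArg (ulimV S U ω) (ulimHK_gm S hl r z a h)

omit hl in
theorem ulim_v {K : Subfield (UG U T)} (ω : ℕ → S.W) (z : K) (a : ℕ → T)
    (h : (z : UG U T) = gm U a) : (ulimPF S U lam K).v ω z = gm U fun n => S.v (ω n) (a n) :=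
  congrArg (ulimV S U ω) h

/-- The local structure. -/
noncomputable def ulimLoc : Loc p (ulimK S U lam) (UG U ℝ≥0) where
  toPF := ulimPF S U lam _
  H := ulimHK S hl
  good := {ω | ∀ᶠ n in U, ω n ∈ S.good}
  R ω := (ulimR S U ω).comap (ulimK S U lam).subtype
  disc := by
    rintro ω hω α ⟨a, ha, e⟩ h
    rw [ulim_v S ω α a e] at h ⊢
    refine (ulim_le (b := fun _ => S.q⁻¹)).2 ?_
    filter_upwards [hω, ha, (ulim_lt (b := fun _ => 1)).1 h] with n h1 h2 h3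
    exact S.disc _ h1 _ h2 h3
  tau := by
    intro ω hω
    have : ∀ n, ∃ τ ∈ S.K0, ω n ∈ S.good →
        S.v (ω n) τ = S.q⁻¹ ∧ S.H.E τ = PowerSeries.C τ + PowerSeries.X := fun n => by
      by_cases h : ω n ∈ S.good
      · obtain ⟨τ, h1, h2⟩ := S.tau0 _ h
        exact ⟨τ, h1, fun _ => h2⟩
      · exact ⟨0, zero_mem _, fun h' => absurd h' h⟩
    choose τ h1 h2 using this
    let z : ulimK S U lam := ⟨gm U τ, τ, (ulimAdm_of (a := 0) fun _ _ => zero_mem _).good hl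
      (Eventually.of_forall fun n w hw _ => S.K0_le w hw _ (h1 n)), rfl⟩
    refine ⟨z, ⟨τ, hω.mono fun n hn => S.K0_le _ hn _ (h1 n), rfl⟩, ?_, ?_⟩
    · exact (ulim_v S ω z τ rfl).trans
        ((ulim_eq (b := fun _ => S.q⁻¹)).2 (hω.mono fun n hn => (h2 n hn).1))
    · ext r
      refine (ulimHK_gm S hl r z τ rfl).trans ?_
      have e : ∀ᶠ n in U, S.H.D r (τ n) =
          PowerSeries.coeff r (PowerSeries.C (τ n) + PowerSeries.X) :=
        hω.mono fun n hn => by rw [HD.D, (h2 n hn).2]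
      rw [ulim_eq.2 e]
      simp only [map_add, PowerSeries.coeff_C, PowerSeries.coeff_X]
      split_ifs <;> rfl
  D_int := by
    rintro ω hω α ⟨a, ha, e⟩ h r
    rw [ulim_v S ω α a e] at h
    rw [ulim_vD S hl ω r α a e]
    refine (ulim_le (b := fun _ => 1)).2 ?_
    filter_upwards [hω, ha, (ulim_le (b := fun _ => 1)).1 h] with n h1 h2 h3
    exact S.D_int _ h1 _ h2 h3 r
  D_le := by
    rintro ω hω α ⟨a, ha, e⟩ r
    rw [ulim_vD S hl ω r α a e, ulim_v S ω α a e]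
    refine (ulim_le (b := fun n => S.q ^ r * S.v (ω n) (a n))).2 ?_
    filter_upwards [hω, ha] with n h1 h2
    exact S.D_le _ h1 _ h2 r
  D_glob r := by
    obtain ⟨C, hC⟩ := S.D_glob r
    refine ⟨C, fun ω α => ?_⟩
    obtain ⟨a, e⟩ := ulim_rep (α : UG U T)
    rw [ulim_vD S hl ω r α a e, ulim_v S ω α a e]
    exact (ulim_le (b := fun n => S.q ^ C * S.v (ω n) (a n))).2
      (Eventually.of_forall fun n => hC _ _)
  proot := by
    rintro ⟨_, a, ha, rfl⟩ h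
    have h1 := ulimHK_gm S hl 1 ⟨_, a, ha, rfl⟩ a rfl
    rw [h] at h1
    have : ∀ n, ∃ b, S.H.D 1 (a n) = 0 → b ^ p = a n := fun n => by
      by_cases h : S.H.D 1 (a n) = 0
      · exact (S.proot _ h).imp fun b hb _ => hb
      · exact ⟨0, fun h' => absurd h' h⟩
    choose b hb using this
    have h2 : ∀ᶠ n in U, b n ^ p = a n :=
      ((ulim_eq (a := fun _ => 0)).1 h1).mono fun n hn => hb n hn.symm
    exact ⟨⟨gm U b, b, ha.good hl (h2.mono fun n hn w hw h => S.R_proot w hw _ (hn ▸ h)), rfl⟩,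
      Subtype.ext ((ulim_eq (a := fun n => b n ^ p)).2 h2)⟩

/-- The nonstandard structure. -/
noncomputable def ulimNS : NS p (ulimK S U lam) (UG U ℝ≥0) where
  toLoc := ulimLoc S hl
  good_ae := le_antisymm ((ulimPF_mass S U lam _ (fun _ => S.goodᶜ) _ fun _ h =>
    Ultrafilter.eventually_not.2 h).trans_eq (ulim_const hl S.mass_bad.ne)) bot_le
  reg_ae := by
    rintro ⟨_, a, ha, rfl⟩
    refine le_antisymm ((ulimPF_mass S U lam _ (fun n => {w | a n ∉ S.R w}) _ fun ω h =>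
      Ultrafilter.eventually_not.2 fun h' => ?_).trans_eq ha) bot_le
    exact absurd (show gm U a ∈ ulimR S U ω from ⟨a, h', rfl⟩) h
  sqrt0 := by
    rintro α h
    rcases eq_or_ne α 0 with rfl | h0
    · exact ⟨0, zero_pow two_ne_zero⟩
    obtain ⟨_, a, ha, rfl⟩ := α
    have h1 : ulim U lam (fun n => S.toPF.ht (a n)) = 0 :=
      (ulimPF_ht S U lam (ulimK S U lam) ⟨_, a, ha, rfl⟩ a rfl).symm.trans h
    have h2 := ulim_ne_zero (a := a) fun e => h0 (Subtype.ext e)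
    choose b hb using fun n => S.sqrt (a n)
    refine ⟨⟨gm U b, b, ?_, rfl⟩,
      Subtype.ext ((ulim_eq (a := fun n => b n ^ 2)).2 (Eventually.of_forall hb))⟩
    have h3 := ulim_add (U := U) (lam := lam)
      (fun n => S.toPF.mass S.goodᶜ + S.toPF.mass {w | a n ∉ S.R w}) fun n => 2 * S.toPF.ht (a n)
    rw [ulim_add (fun _ => S.toPF.mass S.goodᶜ), ulim_mul ENNReal.ofNat_ne_top, h1, ha, ulim_const hl S.mass_bad.ne, mul_zero,
      add_zero, add_zero] at h3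
    refine le_antisymm ((ulim_mono (h2.mono fun n hn => ?_)).trans_eq h3) bot_le
    refine le_trans ?_ (add_le_add (S.toPF.mass_union_le _ _) (S.mass_ne_one_le hn))
    refine (S.toPF.mass_mono fun w hw => ?_).trans (S.toPF.mass_union_le _ _)
    by_contra hc
    have g1 : w ∈ S.good := not_not.1 fun h => hc (Or.inl (Or.inl h))
    have g2 : a n ∈ S.R w := not_not.1 fun h => hc (Or.inl (Or.inr h))
    have g3 : S.v w (a n) = 1 := not_not.1 fun h => hc (Or.inr ⟨g1, g2, h⟩)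
    rw [← hb n] at g2 g3
    rw [map_pow] at g3
    exact hw (S.R_sqrt w g1 _ g2 ((pow_eq_one_iff_of_nonneg zero_le two_ne_zero).1 g3))

end model

theorem exists_lim {p : ℕ} [Fact p.Prime] {k T : Type} [Field k] [Field T] [Algebra k T]
    [CharP T p] (S : Std p k T) (U : Ultrafilter ℕ) {lam : ℕ → ℝ≥0} (hl : Tendsto lam U atTop) :
    Nonempty (Lim S U lam) :=
  ⟨{ K := ulimK S U lam
     N := ulimNS S hl
     pl := id
     lam_top := hl
     mem_K := fun a h => ⟨a, tendsto_nhds_unique (ulim_tendsto U lam _) h, rfl⟩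
     q_eq := rfl
     v_eq := fun ω z a h => ulim_v S ω z a h
     D_eq := fun r z a h => ulimHK_gm S hl r z a h
     ht_eq := fun z a h => (ulimPF_ht S U lam _ z a h).symm ▸ ulim_tendsto U lam _
     good := fun _ h => h
     mass_le := fun E F _ h h' => (ulimPF_mass S U lam _ E F h).trans (ulim_le_of h') }⟩

end JR
end

-- merged part: Pool.Agent.Work.MP_969914_nt.UDesc
section
/-! Descent of the standard density statements. -/

set_option autoImplicit false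

namespace JR

open scoped NNReal ENNReal
open Polynomial

section
variable {k1 k0 : Type} [Field k1] [Field k0] (ι : k1 →+* k0) {H1 : HD k1} {H0 : HD k0}
section aux
variable {R S : Type} [CommRing R] [CommRing S]

/-- `π` is linear over the image of `j`. -/
def udesc_Prj (j : S →+* R) (π : R →+ S) : Prop := ∀ a x, π (a * j x) = π a * x

/-- Coefficientwise application of an additive map. -/
noncomputable def udesc_pi (π : R →+ S) : R[X] →+ S[X] where
  toFun F := F.sum fun i a => monomial i (π a)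
  map_zero' := sum_zero_index _
  map_add' F G := sum_add_index F G _ (by simp) (by simp)

theorem udesc_pi_monomial (π : R →+ S) (n : ℕ) (a : R) :
    udesc_pi π (monomial n a) = monomial n (π a) :=
  sum_monomial_index (f := fun i a => monomial i (π a)) a (by simp)

theorem udesc_pi_coeff (π : R →+ S) (F : R[X]) (i : ℕ) :
    (udesc_pi π F).coeff i = π (F.coeff i) := by
  induction F using Polynomial.induction_on' with
  | add p q hp hq => simp only [map_add, coeff_add, hp, hq]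
  | monomial n a =>
    rw [udesc_pi_monomial, coeff_monomial, coeff_monomial]
    split_ifs <;> simp

theorem udesc_pi_ne {π : R →+ S} {F : R[X]} {i : ℕ} (h : π (F.coeff i) ≠ 0) : udesc_pi π F ≠ 0 :=
  fun e => h (by rw [← udesc_pi_coeff, e, coeff_zero])

theorem udesc_pi_deg (π : R →+ S) (F : R[X]) : (udesc_pi π F).natDegree ≤ F.natDegree :=
  natDegree_le_iff_coeff_eq_zero.2 fun i hi => by
    rw [udesc_pi_coeff, coeff_eq_zero_of_natDegree_lt hi, map_zero]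

theorem udesc_Prj.poly {j : S →+* R} {π : R →+ S} (h : udesc_Prj j π) :
    udesc_Prj (mapRingHom j) (udesc_pi π) := by
  intro F g
  ext n
  rw [udesc_pi_coeff, coeff_mul, coeff_mul, map_sum]
  refine Finset.sum_congr rfl fun x _ => ?_
  rw [coe_mapRingHom, coeff_map, h, udesc_pi_coeff]

theorem udesc_Prj.eval {j : S →+* R} {π : R →+ S} (h : udesc_Prj j π) (F : R[X]) (x : S) :
    (udesc_pi π F).eval x = π (F.eval (j x)) := by
  induction F using Polynomial.induction_on' with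
  | add p q hp hq => simp only [map_add, eval_add, hp, hq]
  | monomial n a => rw [udesc_pi_monomial, eval_monomial, eval_monomial, ← map_pow, h]

theorem udesc_Prj.evalEval {j : S →+* R} {π : R →+ S} (h : udesc_Prj j π) (F : R[X][X]) (x y : S) :
    (udesc_pi (udesc_pi π) F).evalEval x y = π (F.evalEval (j x) (j y)) := by
  rw [Polynomial.evalEval, h.poly.eval, h.eval, coe_mapRingHom, map_C]

theorem udesc_two {π : R →+ S} {F : R[X][X]} (h : π F.leadingCoeff.leadingCoeff ≠ 0) :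
    udesc_pi (udesc_pi π) F ≠ 0 :=
  udesc_pi_ne (udesc_pi_ne h)

end aux

theorem udesc_sep {a : k0} (ha : a ≠ 0) : ∃ π : k0 →+ k1, udesc_Prj ι π ∧ π a ≠ 0 := by
  let _ := ι.toAlgebra
  obtain ⟨π, hπ⟩ := Module.Projective.exists_dual_ne_zero k1 ha
  refine ⟨π.toAddMonoidHom, fun b x => ?_, hπ⟩
  have : b * ι x = x • b := by rw [Algebra.smul_def, mul_comm]; rfl
  rw [this]
  show π (x • b) = π b * x
  rw [map_smul, smul_eq_mul, mul_comm]

theorem udesc_sep_mv {σ : Type} {f : MvPolynomial σ k0} (hf : f ≠ 0) :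
    ∃ π : MvPolynomial σ k0 →+ k1, udesc_Prj (MvPolynomial.C.comp ι) π ∧ π f ≠ 0 := by
  obtain ⟨m, hm⟩ := MvPolynomial.ne_zero_iff.1 hf
  obtain ⟨π, h1, h2⟩ := udesc_sep ι hm
  refine ⟨π.comp (MvPolynomial.coeffAddMonoidHom m), fun b x => ?_, h2⟩
  show π (MvPolynomial.coeff m (b * MvPolynomial.C (ι x))) = π (MvPolynomial.coeff m b) * x
  rw [mul_comm b, MvPolynomial.coeff_C_mul, mul_comm, h1]

open Classical in
/-- Two variables are singled out. -/
noncomputable def udesc_phi (k : Type) [Field k] (β : Bool) :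
    MvPolynomial Vr k →+* (MvPolynomial Vr k)[X][X] :=
  MvPolynomial.eval₂Hom (C.comp (C.comp MvPolynomial.C)) fun s =>
    if s = (β, 0) then C X else if s = (β, 1) then X else C (C (MvPolynomial.X s))

theorem udesc_phi_eval (β : Bool) (l0 l1 : k0) (f : MvPolynomial Vr k0) :
    (udesc_phi k0 β f).evalEval (MvPolynomial.C l0) (MvPolynomial.C l1) = spec2 β l0 l1 f := by
  have : (evalEvalRingHom (MvPolynomial.C l0) (MvPolynomial.C l1)).comp (udesc_phi k0 β) =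
      (spec2 β l0 l1 : MvPolynomial Vr k0 →+* MvPolynomial Vr k0) := by
    refine MvPolynomial.ringHom_ext (fun r => ?_) fun s => ?_
    · simp [udesc_phi]
    · by_cases h0 : s = (β, 0)
      · simp [udesc_phi, spec2, sub1, h0]
      · by_cases h1 : s = (β, 1)
        · simp [udesc_phi, spec2, sub1, h1]
        · simp [udesc_phi, spec2, sub1, h0, h1]
  exact RingHom.congr_fun this f

theorem udesc_phi_inj (β : Bool) : Function.Injective (udesc_phi k0 β) := by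
  have : (evalEvalRingHom (MvPolynomial.X (β, 0)) (MvPolynomial.X (β, 1))).comp (udesc_phi k0 β) =
      RingHom.id _ := by
    refine MvPolynomial.ringHom_ext (fun r => ?_) fun s => ?_
    · simp [udesc_phi]
    · by_cases h0 : s = (β, 0)
      · simp [udesc_phi, h0]
      · by_cases h1 : s = (β, 1)
        · simp [udesc_phi, h1]
        · simp [udesc_phi, h0, h1]
  exact Function.LeftInverse.injective (g := evalEvalRingHom _ _) (RingHom.congr_fun this)

theorem udesc_ne {R S : Type} [CommRing R] [CommRing S] {φ : R →+* S} (h : Function.Injective φ)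
    {f : R} (hf : f ≠ 0) : φ f ≠ 0 := fun e => hf (h (e.trans (map_zero φ).symm))

theorem udesc_lc {R : Type} [CommRing R] {F : R[X][X]} (h : F ≠ 0) :
    F.leadingCoeff.leadingCoeff ≠ 0 :=
  leadingCoeff_ne_zero.2 (leadingCoeff_ne_zero.2 h)


theorem std1_of_point (hc : ∀ r z, H0.D r (ι z) = ι (H1.D r z)) {a c : k1}
    (h : Std1' H1 a c false) : Std1 H0 (ι a) (ι c) := by
  intro f hf β
  obtain ⟨π, h1, h2⟩ := udesc_sep_mv ι (udesc_lc (udesc_ne (udesc_phi_inj β) hf))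
  obtain ⟨R, hR⟩ := h _ (udesc_two h2)
  refine ⟨R, fun r hr e => hR r hr ?_⟩
  rw [map_vv, hc, ← udesc_phi_eval] at e
  rw [h1.evalEval]
  exact (congrArg π e).trans (map_zero π)
/-- Coefficientwise application of an additive map, several variables. -/
noncomputable def udesc_mv {σ : Type} (π : k0 →+ k1) (f : MvPolynomial σ k0) : MvPolynomial σ k1 :=
  ∑ m ∈ f.support, MvPolynomial.monomial m (π (f.coeff m))

theorem udesc_mv_coeff {σ : Type} (π : k0 →+ k1) (f : MvPolynomial σ k0) (m : σ →₀ ℕ) :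
    (udesc_mv π f).coeff m = π (f.coeff m) := by
  classical
  rw [udesc_mv, MvPolynomial.coeff_sum]
  simp only [MvPolynomial.coeff_monomial, Finset.sum_ite_eq', MvPolynomial.mem_support_iff]
  split_ifs with h
  · rfl
  · rw [not_not.1 h, map_zero]

theorem udesc_mv_comm {σ : Type} {π : k0 →+ k1} (h : udesc_Prj ι π)
    (Ψ0 : MvPolynomial σ k0 →ₐ[k0] MvPolynomial σ k0) (Ψ1 : MvPolynomial σ k1 →ₐ[k1] MvPolynomial σ k1)
    (hΨ : ∀ g, Ψ0 (MvPolynomial.map ι g) = MvPolynomial.map ι (Ψ1 g)) (f : MvPolynomial σ k0) :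
    udesc_mv π (Ψ0 f) = Ψ1 (udesc_mv π f) := by
  have hadd : ∀ f g : MvPolynomial σ k0, udesc_mv π (f + g) = udesc_mv π f + udesc_mv π g := by
    intro f g
    ext m
    simp only [udesc_mv_coeff, MvPolynomial.coeff_add, map_add]
  have hC : ∀ (a : k0) (g : MvPolynomial σ k1),
      udesc_mv π (MvPolynomial.C a * MvPolynomial.map ι g) = MvPolynomial.C (π a) * g := by
    intro a g
    ext m
    rw [udesc_mv_coeff, MvPolynomial.coeff_C_mul, MvPolynomial.coeff_C_mul, MvPolynomial.coeff_map, h]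
  induction f using MvPolynomial.induction_on' with
  | add p q hp hq => rw [map_add, hadd, hadd, map_add, hp, hq]
  | monomial m a =>
    have e : MvPolynomial.monomial m a =
        MvPolynomial.C a * MvPolynomial.map ι (MvPolynomial.monomial m 1) := by
      rw [MvPolynomial.map_monomial, map_one, MvPolynomial.C_mul_monomial, mul_one]
    rw [e, map_mul, MvPolynomial.algHom_C, MvPolynomial.algebraMap_eq, hΨ, hC, hC, map_mul,
      MvPolynomial.algHom_C, MvPolynomial.algebraMap_eq]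

theorem udesc_sub1 {σ : Type} (u : σ) (c : k1) (g : MvPolynomial σ k1) :
    sub1 u (ι c) (MvPolynomial.map ι g) = MvPolynomial.map ι (sub1 u c g) := by
  induction g using MvPolynomial.induction_on with
  | C a => simp
  | add p q hp hq => simp only [map_add, hp, hq]
  | mul_X p s hp =>
    simp only [map_mul, hp, MvPolynomial.map_X]
    congr 1
    by_cases h : s = u <;> simp [sub1, h]

theorem udesc_spec2 (b : Bool) (l0 l1 : k1) (g : MvPolynomial Vr k1) :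
    spec2 b (ι l0) (ι l1) (MvPolynomial.map ι g) = MvPolynomial.map ι (spec2 b l0 l1 g) := by
  simp only [spec2, AlgHom.comp_apply, udesc_sub1]


theorem Std2.map (hc : ∀ r z, H0.D r (ι z) = ι (H1.D r z)) {a c : k1} (h : Std2 H1 a c) :
    Std2 H0 (ι a) (ι c) := by
  intro f hf
  obtain ⟨m, hm⟩ := MvPolynomial.ne_zero_iff.1 hf
  obtain ⟨π, h1, h2⟩ := udesc_sep ι hm
  obtain ⟨R, hR⟩ := h (udesc_mv π f) fun e => h2 (by
    rw [← udesc_mv_coeff, e, MvPolynomial.coeff_zero])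
  refine ⟨R, fun b b' r r' a1 a2 a3 e => hR b b' r r' a1 a2 a3 ?_⟩
  rw [map_vv, map_vv, hc, hc] at e
  rw [← udesc_mv_comm ι h1 _ _ (udesc_spec2 ι _ _ _), ← udesc_mv_comm ι h1 _ _ (udesc_spec2 ι _ _ _), e]
  simp [udesc_mv]

theorem udesc_spec2_comm (l0 l1 m0 m1 : k1) (f : MvPolynomial Vr k1) :
    spec2 false l0 l1 (spec2 true m0 m1 f) = spec2 true m0 m1 (spec2 false l0 l1 f) := by
  simp only [spec2, AlgHom.comp_apply]
  rw [sub1_comm (u := (false, 0)) (u' := (true, 1)) (by simp),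
    sub1_comm (u := (false, 1)) (u' := (true, 1)) (by simp),
    sub1_comm (u := (false, 0)) (u' := (true, 0)) (by simp),
    sub1_comm (u := (false, 1)) (u' := (true, 0)) (by simp)]

/-- Extraction of a coefficient in four variables. The pair `(l0, l1)` is put on the side `β`. -/
theorem exists_nested {f : MvPolynomial Vr k1} (hf : f ≠ 0) (β : Bool) :
    ∃ G : k1[X][X][X][X], G ≠ 0 ∧ ∀ l0 l1 m0 m1 : k1,
      spec2 false (if β then m0 else l0) (if β then m1 else l1)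
        (spec2 true (if β then l0 else m0) (if β then l1 else m1) f) = 0 →
      (G.map (mapRingHom (evalEvalRingHom m0 m1))).evalEval l0 l1 = 0 := by
  set F := (udesc_phi k1 β f).map (mapRingHom (udesc_phi k1 (!β))) with hF
  have hf0 := udesc_ne (S := (MvPolynomial Vr k1)[X][X]) (udesc_phi_inj β) hf
  have hF0 : F ≠ 0 := (Polynomial.map_ne_zero_iff
    (map_injective _ (udesc_phi_inj (!β)))).2 hf0
  obtain ⟨π, h1, h2⟩ := udesc_sep_mv (RingHom.id k1) (udesc_lc (udesc_lc hF0))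
  refine ⟨udesc_pi (udesc_pi (udesc_pi (udesc_pi π))) F, udesc_two (udesc_two h2),
    fun l0 l1 m0 m1 e => ?_⟩
  have e1 : spec2 (!β) m0 m1 (spec2 β l0 l1 f) = 0 := by
    cases β
    · rw [← e]; exact (udesc_spec2_comm _ _ _ _ _).symm
    · exact e
  have e2 : ∀ l : k1, l = evalEvalRingHom m0 m1 (C (C l)) := fun l => by simp
  have e3 : ∀ l : k1, mapRingHom (mapRingHom (MvPolynomial.C.comp (RingHom.id k1))) (C (C l)) =
      udesc_phi k1 (!β) (MvPolynomial.C l) := fun l => by simp [udesc_phi]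
  rw [e2 l0, e2 l1, map_mapRingHom_evalEval, h1.poly.poly.evalEval, coe_evalEvalRingHom,
    h1.evalEval, e3, e3, hF, map_mapRingHom_evalEval, udesc_phi_eval]
  exact (congrArg π ((udesc_phi_eval _ _ _ _).trans e1)).trans (map_zero π)

end
theorem udesc_fin {K k0 : Type} [Field K] [Field k0] (ι : K →+* k0) {a c : K} (hE : HypEq a c)
    {f : k0[X]} (hf : f ≠ 0) : ∃ R : ℕ, ∀ b r, R ≤ r → f.eval (ι (vv a c b r)) ≠ 0 := by
  classical
  have h1 : ∀ b, {r | f.eval (ι (vv a c b r)) = 0}.Finite := fun b =>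
    Set.Finite.of_finite_image (f := fun r => ι (vv a c b r))
      ((f.roots.toFinset.finite_toSet).subset (by
        rintro _ ⟨r, hr, rfl⟩
        simpa [hf] using hr))
      fun r _ r' _ e => (hE.vv_inj (ι.injective e)).2
  obtain ⟨R, hR⟩ := ((h1 false).union (h1 true)).bddAbove
  refine ⟨R + 1, fun b r hr e => ?_⟩
  have : r ≤ R := hR (by cases b; exacts [Or.inl e, Or.inr e])
  omega

theorem udesc_arith {d : ℕ} (hd : d ≠ 0) {x y h C C0 : ℝ≥0} {r r' : ℕ} (hr : r < r')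
    (h1 : x ≤ h * 2 ^ r + C) (h2 : h * 2 ^ r' ≤ y + C)
    (h3 : (2 * d : ℕ) * y ≤ (2 * d : ℕ) * x + (d - 1 : ℕ) * y + C0) :
    h * 2 ^ r' ≤ (3 * d + 1) * C + C0 := by
  obtain ⟨e, rfl⟩ := Nat.exists_eq_succ_of_ne_zero hd
  have h4 : h * 2 ^ (r + 1) ≤ h * 2 ^ r' := by gcongr; exacts [one_le_two, hr]
  rw [pow_succ] at h4
  simp only [Nat.succ_eq_add_one, Nat.add_sub_cancel] at h3 ⊢
  have a1 : (x : ℝ) ≤ h * 2 ^ r + C := by exact_mod_cast h1
  have a2 : (h : ℝ) * 2 ^ r' ≤ y + C := by exact_mod_cast h2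
  have a3 : 2 * ((e : ℝ) + 1) * y ≤ 2 * (e + 1) * x + e * y + C0 := by exact_mod_cast h3
  have a4 : (h : ℝ) * (2 ^ r * 2) ≤ h * 2 ^ r' := by exact_mod_cast h4
  have a5 : 2 * (x : ℝ) ≤ y + 3 * C := by linarith
  have a6 : ((e : ℝ) + 1) * (2 * x) ≤ (e + 1) * (y + 3 * C) :=
    mul_le_mul_of_nonneg_left a5 (by positivity)
  have a7 : (h : ℝ) * 2 ^ r' ≤ (3 * ((e : ℝ) + 1) + 1) * C + C0 := by linarith
  exact_mod_cast a7

theorem udesc_side {p : ℕ} [Fact p.Prime] {k T : Type} [Field k] [CharP k p] [Field T]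
    [Algebra k T] (S : Std p k T) {k0 : Type} [Field k0] (ι : S.K0 →+* k0) {a c : S.K0}
    (hE : HypEq a c) {h : ℝ≥0} (h0 : h ≠ 0) (hh : ∀ b, S.IsHat (a : T) c b h) {G : k0[X][X]}
    (hG : Irreducible G) (hd : G.natDegree ≠ 0)
    (hdd : (Bivariate.swap G).natDegree = G.natDegree) :
    ∃ R : ℕ, ∀ b b' r r', R ≤ r' → r < r' →
      G.evalEval (ι (vv a c b r)) (ι (vv a c b' r')) ≠ 0 := by
  set d := G.natDegree with hdef
  have hpos := Nat.pos_of_ne_zero hd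
  obtain ⟨A, B, hB, a1, a2, a3, a4, a5⟩ := exists_quot_pow hd (2 * d) (2 * d)
    (by rw [hdd]; nlinarith)
  obtain ⟨π, hπ, hπ0⟩ := udesc_sep ι (udesc_lc hB)
  set A' := udesc_pi (udesc_pi π) A with hA'
  set B' := udesc_pi (udesc_pi π) B with hB'
  have hB'0 : B' ≠ 0 := udesc_two hπ0
  have dA : A'.natDegree < d := (udesc_pi_deg _ _).trans_lt a1
  have dB : B'.natDegree < d := (udesc_pi_deg _ _).trans_lt a2
  have cA : ∀ i, (A'.coeff i).natDegree ≤ 2 * d := fun i => by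
    rw [hA', udesc_pi_coeff]; exact (udesc_pi_deg _ _).trans (a3 i)
  have cB : ∀ i, (B'.coeff i).natDegree ≤ 2 * d := fun i => by
    rw [hB', udesc_pi_coeff]; exact (udesc_pi_deg _ _).trans (a4 i)
  have hB''0 : B'.map (mapRingHom ι) ≠ 0 :=
    (Polynomial.map_ne_zero_iff (map_injective _ ι.injective)).2 hB'0
  have hnd : ¬ Bivariate.swap G ∣ Bivariate.swap (B'.map (mapRingHom ι)) := by
    rw [map_dvd_iff Bivariate.swap]
    exact fun e => (natDegree_le_of_dvd e hB''0).not_gt (natDegree_map_le.trans_lt dB)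
  obtain ⟨Rz, U, V, hRz, hUV⟩ := rcurvealg_res (hG.map Bivariate.swap) (by rwa [hdd]) hnd
  obtain ⟨R1, hR1⟩ := udesc_fin ι hE hRz
  have hsw : ∀ (x y : k0) (F : k0[X][X]), (Bivariate.swap F).evalEval y x = F.evalEval x y :=
    fun x y F => by
      rw [← coe_aevalAeval_eq_evalEval, ← coe_aevalAeval_eq_evalEval, Bivariate.aevalAeval_swap]
  have h1 : ∀ z, ∃ u : ℝ≥0, S.toPF.ht z = u := fun z =>
    ⟨_, (ENNReal.coe_toNNReal (S.ht_lt z).ne).symm⟩
  choose u hu using h1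
  choose C hC using hh
  set j := algebraMap S.K0 T with hj
  obtain ⟨s, -, hs⟩ := S.toPF.ht_div_evalEval (A'.map (mapRingHom j)) (B'.map (mapRingHom j))
  set C1 := C false + C true with hC1
  have hCb : ∀ b, C b ≤ C1 := fun b => by cases b; exacts [le_self_add, le_add_self]
  obtain ⟨R2, hR2⟩ := pow_unbounded_of_one_lt (((3 * d + 1) * C1 + ∑ α ∈ s, u α) / h)
    (one_lt_two (α := ℝ≥0))
  refine ⟨max R1 R2, fun b b' r r' hr hrr e => ?_⟩
  set x := vv a c b r with hx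
  set y := vv a c b' r' with hy
  have b1 : B'.evalEval x y ≠ 0 := by
    intro e'
    have := congrArg (evalEval (ι y) (ι x)) hUV
    rw [evalEval_add, evalEval_mul, evalEval_mul, hsw, hsw, e, map_mapRingHom_evalEval, e', map_zero,
      mul_zero, mul_zero, add_zero, evalEval_C] at this
    exact hR1 b' r' ((le_max_left _ _).trans hr) this.symm
  have b2 : A'.evalEval x y = B'.evalEval x y * y ^ (2 * d) := by
    have := evalEval_dvd (ι x) (ι y) a5
    rw [e, zero_dvd_iff, evalEval_sub, evalEval_mul, evalEval_pow, evalEval_X, sub_eq_zero] at this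
    rw [hA', hB', hπ.evalEval, hπ.evalEval, this, ← map_pow, hπ]
  have b3 := hs (j x) (j y) (2 * d) (d - 1)
    (natDegree_map_le.trans (Nat.le_sub_one_of_lt dA)) (natDegree_map_le.trans (Nat.le_sub_one_of_lt dB))
    (fun i => by rw [coeff_map]; exact natDegree_map_le.trans (cA i))
    (fun i => by rw [coeff_map]; exact natDegree_map_le.trans (cB i))
    (by rw [map_mapRingHom_evalEval]; exact (map_ne_zero j).2 b1)
  rw [map_mapRingHom_evalEval, map_mapRingHom_evalEval, ← map_div₀, b2, mul_div_cancel_left₀ _ b1,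
    map_pow, PF.ht_pow] at b3
  have ex : j x = vv (a : T) c b r := (map_vv j b r).symm
  have ey : j y = vv (a : T) c b' r' := (map_vv j b' r').symm
  have b4 := (hC b r).1
  have b5 := (hC b' r').2
  rw [← ex] at b4
  rw [← ey] at b5
  simp only [hu] at b3 b4 b5
  have b6 := udesc_arith hd (x := u (j x)) (y := u (j y)) (h := h) (C := C1) (C0 := ∑ α ∈ s, u α) hrr
    (le_trans (by exact_mod_cast b4) (add_le_add le_rfl (hCb b)))
    (le_trans (by exact_mod_cast b5) (add_le_add le_rfl (hCb b')))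
    (by exact_mod_cast b3)
  rw [div_lt_iff₀ (pos_iff_ne_zero.2 h0), mul_comm _ h] at hR2
  have b7 : h * 2 ^ R2 ≤ h * 2 ^ r' := by
    gcongr
    exacts [one_le_two, (le_max_right _ _).trans hr]
  exact (hR2.trans_le b7).not_ge b6


theorem Std.std3 {p : ℕ} [Fact p.Prime] {k T : Type} [Field k] [CharP k p] [Field T] [Algebra k T]
    (S : Std p k T) {k0 : Type} [Field k0] (ι : S.K0 →+* k0) {a c : S.K0} (hE : HypEq a c)
    {h : ℝ≥0} (h0 : h ≠ 0) (h1 : S.IsHat (a : T) c false h) (h2 : S.IsHat (a : T) c true h) :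
    Std3 (ι a) (ι c) := by
  intro G hG hd hdd
  have hh : ∀ b, S.IsHat (a : T) c b h := fun b => by cases b <;> assumption
  obtain ⟨R1, hR1⟩ := udesc_side S ι hE h0 hh hG hd hdd
  obtain ⟨R2, hR2⟩ := udesc_side S ι hE h0 hh (hG.map Bivariate.swap) (by rwa [hdd])
    (by rw [Bivariate.swap_swap_apply, hdd])
  refine ⟨max R1 R2, fun b b' r r' hr e => ?_⟩
  rw [map_vv, map_vv] at e
  rcases lt_trichotomy r r' with h3 | h3 | h3
  · exact absurd e (hR1 b b' r r' (by omega) h3)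
  · exact h3
  · refine absurd ?_ (hR2 b' b r' r (by omega) h3)
    rwa [← coe_aevalAeval_eq_evalEval, Bivariate.aevalAeval_swap, coe_aevalAeval_eq_evalEval]

end JR
end

-- merged part: Pool.Agent.Work.MP_969914_nt.UOrb
section
/-! Orbits in the nonstandard model and standard density. -/

set_option autoImplicit false

namespace JR

open scoped NNReal ENNReal Topology
open Polynomial Filter

variable {p : ℕ} [Fact p.Prime] {k T : Type} [Field k] [CharP k p] [Field T] [Algebra k T]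
  [CharP T p] {S : Std p k T}

/-- Two ring homomorphisms on bivariate polynomials agree if they agree on generators. -/
theorem uorb_ext {A B : Type} [CommRing A] [CommRing B] {f g : A[X][X] →+* B}
    (h0 : ∀ a, f (C (C a)) = g (C (C a))) (h1 : f (C X) = g (C X)) (h2 : f X = g X) : f = g :=
  ringHom_ext' (ringHom_ext h0 h1) h2

theorem uorb_div {U : Ultrafilter ℕ} {lam : ℕ → ℝ≥0} (hl : Tendsto lam U atTop) {C : ℝ≥0∞}
    (hC : C ≠ ⊤) : Tendsto (fun n => C / (lam n : ℝ≥0∞)) U (𝓝 0) := by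
  have h := ENNReal.Tendsto.const_div (a := C) (ENNReal.tendsto_coe_nhds_top.2 hl) (Or.inr hC)
  rwa [ENNReal.div_top] at h

theorem uorb_le {U : Ultrafilter ℕ} {lam : ℕ → ℝ≥0} (hl : Tendsto lam U atTop) {C : ℝ≥0∞}
    (hC : C ≠ ⊤) {f : ℕ → ℝ≥0∞} (h : ∀ n, f n ≤ C) :
    Tendsto (fun n => f n / (lam n : ℝ≥0∞)) U (𝓝 0) :=
  tendsto_of_tendsto_of_tendsto_of_le_of_le tendsto_const_nhds (uorb_div hl hC)
    (fun _ => zero_le) fun n => ENNReal.div_le_div_right (h n) _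

theorem uorb_vv (a c : S.K0) (b : Bool) (m : ℕ) :
    vv (a : T) c b m = ((vv a c b m : S.K0) : T) :=
  map_vv (algebraMap S.K0 T) b m

theorem uorb_pow {r : ℕ → ℕ} (hr : ∀ n, n ≤ r n) :
    Tendsto r (hyperfilter ℕ) atTop ∧
      Tendsto (fun n => (2 : ℝ≥0) ^ r n) (hyperfilter ℕ) atTop := by
  have h : Tendsto r (hyperfilter ℕ) atTop :=
    (tendsto_atTop_mono hr tendsto_id).mono_left Nat.hyperfilter_le_atTop
  exact ⟨h, (tendsto_pow_atTop_atTop_of_one_lt one_lt_two).comp h⟩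

namespace Lim
variable {U : Ultrafilter ℕ} {lam : ℕ → ℝ≥0} (L : Lim S U lam)

/-- Sequences in the base field are regular. -/
theorem mem_of_K0 {a : ℕ → T} (h : ∀ n, a n ∈ S.K0) : gm U a ∈ L.K :=
  L.mem_K a (uorb_le L.lam_top S.mass_bad.ne fun n =>
    S.toPF.mass_mono fun w hw hg => hw (S.K0_le w hg _ (h n)))

theorem ht_eq_zero {z : L.K} {a : ℕ → T} (hz : (z : UG U T) = gm U a) {C : ℝ≥0∞} (hC : C ≠ ⊤)
    (h : ∀ n, S.toPF.ht (a n) ≤ C) : L.N.toPF.ht z = 0 :=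
  tendsto_nhds_unique (L.ht_eq z a hz) (uorb_le L.lam_top hC h)

theorem exists_cst : ∃ ι, L.IsCst ι := by
  let j : S.K0 →+* UG U T :=
    ((Germ.coeRingHom (U : Filter ℕ)).comp (Pi.constRingHom ℕ T)).comp (algebraMap S.K0 T)
  let j1 : S.K0 →+* L.K := j.codRestrict L.K fun z => L.mem_of_K0 fun _ => z.2
  exact ⟨j1.codRestrict L.N.toPF.k0 fun z =>
    L.ht_eq_zero (a := fun _ => (z : T)) rfl (S.ht_lt z).ne fun _ => le_rfl, fun z => rfl⟩

theorem IsCst.compat {ι : S.K0 →+* L.N.toPF.k0} (h : L.IsCst ι) (r : ℕ) (z : S.K0) :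
    L.N.H0.D r (ι z) = ι (S.HK.D r z) := by
  refine Subtype.ext (Subtype.ext ?_)
  have h1 : ((L.N.H0.D r (ι z) : L.N.toPF.k0) : L.K) = L.N.H.D r (ι z : L.K) :=
    (L.N.compat r (ι z)).symm
  rw [h1, L.D_eq r _ _ (h z), h, S.coe_HK]

/-- Polynomial evaluation commutes with germs. -/
theorem uorb_push {A : Type} [CommRing A] {ψ : A →+* L.N.toPF.k0} {φ : ℕ → A →+* S.K0}
    (hψ : ∀ g, ((ψ g : L.K) : UG U T) = gm U fun n => (φ n g : T)) {x y : L.K}
    {xs ys : ℕ → S.K0} (hx : (x : UG U T) = gm U fun n => (xs n : T))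
    (hy : (y : UG U T) = gm U fun n => (ys n : T)) (G : A[X][X]) :
    ((aevalAeval x y (G.map (mapRingHom ψ)) : L.K) : UG U T) =
      gm U fun n => (((G.map (mapRingHom (φ n))).evalEval (xs n) (ys n) : S.K0) : T) := by
  have key : (L.K.subtype.comp (aevalAeval x y : L.N.toPF.k0[X][X] →ₐ[L.N.toPF.k0] L.K).toRingHom).comp
      (mapRingHom (mapRingHom ψ)) = (Germ.coeRingHom (U : Filter ℕ)).comp (RingHom.pi fun n =>
        ((algebraMap S.K0 T).comp (evalEvalRingHom (xs n) (ys n))).comp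
          (mapRingHom (mapRingHom (φ n)))) := by
    refine uorb_ext (fun g => ?_) ?_ ?_
    · refine Eq.trans ?_ ((hψ g).trans (congrArg (gm U) (funext fun n => ?_)))
      · simp
        rfl
      · rw [RingHom.pi_apply]
        simp
    · refine Eq.trans ?_ (hx.trans (congrArg (gm U) (funext fun n => ?_)))
      · simp
      · rw [RingHom.pi_apply]
        simp
    · refine Eq.trans ?_ (hy.trans (congrArg (gm U) (funext fun n => ?_)))
      · simp
      · rw [RingHom.pi_apply]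
        simp
  exact RingHom.congr_fun key G

theorem uorb_D {x : L.K} {xs : ℕ → S.K0} (hx : (x : UG U T) = gm U fun n => (xs n : T)) :
    (L.N.H.D 1 x : UG U T) = gm U fun n => (S.HK.D 1 (xs n) : T) := by
  rw [L.D_eq 1 x _ hx]
  simp only [S.coe_HK]

end Lim

/-- An infinite critical orbit seen at the scale `2 ^ r n`. -/
theorem Lim.exists_orb {U : Ultrafilter ℕ} {r : ℕ → ℕ} (hr : Tendsto r U atTop)
    (L : Lim S U fun n => 2 ^ r n) {ι : S.K0 →+* L.N.toPF.k0} (hι : L.IsCst ι) {a c : S.K0}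
    (hac : a ≠ c) {b : Bool} (hfin : ∀ n, (orb a c b (n + 1)).2 ≠ 0) {h : ℝ≥0} (h0 : h ≠ 0)
    (hh : S.IsHat (a : T) c b h) :
    ∃ z : ℤ → L.K, L.N.Orb (ι a) (ι c) z ∧ L.N.toPF.ht (z 0) = h ∧
      ∀ i : ℤ, (z i : UG U T) = gm U fun n => vv (a : T) c b (r n + i).toNat := by
  let z : ℤ → L.K := fun i => ⟨gm U fun n => vv (a : T) c b (r n + i).toNat,
    L.mem_of_K0 fun n => by rw [uorb_vv]; exact Subtype.property _⟩
  have hz : ∀ i : ℤ, (z i : UG U T) = gm U fun n => vv (a : T) c b (r n + i).toNat := fun _ => rfl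
  have hf : ∀ m, (orb (a : T) (c : T) b (m + 1)).2 ≠ 0 := fun m => by
    have e := map_orb a c (algebraMap S.K0 T) b (m + 1)
    have e2 : (orb (a : T) (c : T) b (m + 1)).2 = algebraMap S.K0 T (orb a c b (m + 1)).2 :=
      congrArg Prod.snd e
    rw [e2]
    exact (_root_.map_ne_zero _).2 (hfin m)
  have step : ∀ m, (c : T) * vv (a : T) c b m ^ 2 + 1 ≠ 0 ∧
      vv (a : T) c b (m + 1) = phi (a : T) c (vv (a : T) c b m) := fun m => by
    have h1 := rdyn_phi (a := (a : T)) (c := (c : T)) (hf m)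
    rw [← orb_succ] at h1
    exact ⟨h1.1.2 (hf _), h1.2⟩
  have e1 : ∀ (t : S.K0) (i : ℤ), ((((ι t : L.K) * z i ^ 2 + 1 : L.K)) : UG U T) =
      gm U fun n => (t : T) * vv (a : T) c b (r n + i).toNat ^ 2 + 1 := fun t i => by
    rw [Subfield.coe_add, Subfield.coe_mul, SubmonoidClass.coe_pow, hι, hz]
    rfl
  have ne : ∀ i : ℤ, (ι c : L.K) * z i ^ 2 + 1 ≠ 0 := fun i e => by
    have h1 := e1 c i
    rw [e] at h1
    obtain ⟨n, hn⟩ := (Germ.coe_eq.1 (show gm U (fun _ => (0 : T)) = _ from h1)).exists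
    exact (step _).1 hn.symm
  have hz0 : L.N.toPF.ht (z 0) = h := by
    obtain ⟨C, hC⟩ := hh
    have h1 := L.ht_eq (z 0) _ (hz 0)
    simp only [add_zero, Int.toNat_natCast] at h1
    have h2 := uorb_div L.lam_top (C := C) ENNReal.coe_ne_top
    have p0 : ∀ n, (((2 : ℝ≥0) ^ r n : ℝ≥0) : ℝ≥0∞) ≠ 0 := fun n => by simp
    have p1 : ∀ n, (((2 : ℝ≥0) ^ r n : ℝ≥0) : ℝ≥0∞) = 2 ^ r n := fun n => by simp
    refine le_antisymm ?_ ?_
    · have h3 := (tendsto_const_nhds (x := (h : ℝ≥0∞))).add h2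
      rw [add_zero] at h3
      refine le_of_tendsto_of_tendsto' h1 h3 fun n => ?_
      refine (ENNReal.div_le_div_right (hC (r n)).1 _).trans (le_of_eq ?_)
      rw [ENNReal.add_div, ← p1, ENNReal.mul_div_cancel_right (p0 n) ENNReal.coe_ne_top]
    · have h3 := h1.add h2
      rw [add_zero] at h3
      refine ge_of_tendsto' h3 fun n => ?_
      rw [← ENNReal.add_div, ENNReal.le_div_iff_mul_le (Or.inl (p0 n)) (Or.inl ENNReal.coe_ne_top),
        p1]
      exact (hC (r n)).2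
  refine ⟨z, ⟨fun i => ⟨ne i, ?_⟩, ?_, ?_⟩, hz0, hz⟩
  · rw [phi, eq_div_iff (ne i)]
    refine Subtype.ext ?_
    rw [Subfield.coe_mul, e1, e1, hz]
    refine Germ.coe_eq.2 ?_
    filter_upwards [hr.eventually_ge_atTop (-i).toNat] with n hn
    have e2 : ((r n : ℤ) + (i + 1)).toNat = ((r n : ℤ) + i).toNat + 1 := by omega
    change vv (a : T) c b ((r n : ℤ) + (i + 1)).toNat * _ = _
    rw [e2, (step _).2, phi, div_mul_cancel₀ _ (step _).1]
  · rw [hz0]; exact ENNReal.coe_ne_zero.2 h0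
  · rw [hz0]; exact ENNReal.coe_ne_top

/-- The common core of both density statements. -/
theorem uorb_core {a c : S.K0} (hH : HypH a c) (hρ : S.HK.D 1 a ≠ 0 ∨ S.HK.D 1 c ≠ 0) {b : Bool}
    (hfin : ∀ n, (orb a c b (n + 1)).2 ≠ 0) {h : ℝ≥0} (h0 : h ≠ 0) (hh : S.IsHat (a : T) c b h)
    {r : ℕ → ℕ} (hr : ∀ n, n ≤ r n) (L : Lim S (hyperfilter ℕ) fun n => 2 ^ r n)
    {ι : S.K0 →+* L.N.toPF.k0} (hι : L.IsCst ι) {A : Type} [CommRing A] {ψ : A →+* L.N.toPF.k0}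
    {φ : ℕ → A →+* S.K0}
    (hψ : ∀ g, ((ψ g : L.K) : UG (hyperfilter ℕ) T) = gm (hyperfilter ℕ) fun n => (φ n g : T))
    {G : A[X][X]} (hG : ∀ n, (G.map (mapRingHom (φ n))).evalEval (vv a c b (r n))
      (S.HK.D 1 (vv a c b (r n))) = 0) : G.map (mapRingHom ψ) = 0 := by
  obtain ⟨z, ho, -, hz⟩ := L.exists_orb (uorb_pow hr).1 hι hH.ne hfin h0 hh
  have hx : (z 0 : UG (hyperfilter ℕ) T) =
      gm (hyperfilter ℕ) fun n => ((vv a c b (r n) : S.K0) : T) := by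
    rw [hz]
    simp only [add_zero, Int.toNat_natCast, uorb_vv]
  refine NS.ind_jet1 ((HypH.map ι).2 hH) ?_ ho 0 _ (Subtype.ext ?_)
  · rw [hι.compat, hι.compat, _root_.map_ne_zero, _root_.map_ne_zero]
    exact hρ
  · rw [L.uorb_push hψ hx (L.uorb_D hx) G]
    simp only [hG]
    rfl

theorem Std.std1' {a c : S.K0} (hH : HypH a c) (hρ : S.HK.D 1 a ≠ 0 ∨ S.HK.D 1 c ≠ 0) {b : Bool}
    (hfin : ∀ n, (orb a c b (n + 1)).2 ≠ 0) {h : ℝ≥0} (h0 : h ≠ 0) (hh : S.IsHat (a : T) c b h) :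
    Std1' S.HK a c b := by
  intro G hG
  by_contra hc
  push Not at hc
  choose r hr h1 using hc
  obtain ⟨L⟩ := exists_lim S (hyperfilter ℕ) (uorb_pow hr).2
  obtain ⟨ι, hι⟩ := L.exists_cst
  have h2 := uorb_core hH hρ hfin h0 hh hr L hι (ψ := ι) (φ := fun _ => RingHom.id _) hι (G := G)
    fun n => by rw [mapRingHom_id, Polynomial.map_id]; exact h1 n
  exact hG ((Polynomial.map_eq_zero_iff (Polynomial.map_injective ι ι.injective)).1 h2)

theorem uorb_key {a c : S.K0} (hE : HypEq a c) (hρ : S.HK.D 1 a ≠ 0 ∨ S.HK.D 1 c ≠ 0)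
    {h : ℝ≥0} (h0 : h ≠ 0) (hh : ∀ b, S.IsHat (a : T) c b h) {G : S.K0[X][X][X][X]} (hG : G ≠ 0)
    (b b' : Bool) : ∃ R : ℕ, ∀ r r', R ≤ r' → r' + R ≤ r →
      (G.map (mapRingHom (evalEvalRingHom (vv a c b' r') (S.HK.D 1 (vv a c b' r'))))).evalEval
        (vv a c b r) (S.HK.D 1 (vv a c b r)) ≠ 0 := by
  by_contra hc
  push Not at hc
  choose r r' hr' hrr h1 using hc
  have hr : ∀ n, n ≤ r n := fun n => by have := hrr n; omega
  obtain ⟨L⟩ := exists_lim S (hyperfilter ℕ) (uorb_pow hr).2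
  obtain ⟨ι, hι⟩ := L.exists_cst
  let u : L.K := ⟨gm (hyperfilter ℕ) fun n => ((vv a c b' (r' n) : S.K0) : T),
    L.mem_of_K0 fun n => Subtype.property _⟩
  have hu : (u : UG (hyperfilter ℕ) T) =
      gm (hyperfilter ℕ) fun n => ((vv a c b' (r' n) : S.K0) : T) := rfl
  have u0 : u ∈ L.N.toPF.k0 := by
    obtain ⟨C, hC⟩ := hh b'
    refine tendsto_nhds_unique (L.ht_eq u _ hu) ?_
    have h2 := uorb_div (uorb_pow (r := id) fun _ => le_rfl).2 (C := (h : ℝ≥0∞) + C) (by simp)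
    refine tendsto_of_tendsto_of_tendsto_of_le_of_le tendsto_const_nhds h2 (fun _ => zero_le)
      fun n => ?_
    have q1 : S.toPF.ht ((vv a c b' (r' n) : S.K0) : T) ≤ ((h : ℝ≥0∞) + C) * 2 ^ r' n := by
      rw [← uorb_vv, add_mul]
      exact (hC _).1.trans (add_le_add le_rfl (le_mul_of_one_le_right' (one_le_pow₀ one_le_two)))
    have q2 : (((2 : ℝ≥0) ^ n : ℝ≥0) : ℝ≥0∞) * 2 ^ r' n ≤ (((2 : ℝ≥0) ^ r n : ℝ≥0) : ℝ≥0∞) := by
      push_cast
      rw [← pow_add]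
      exact pow_le_pow_right₀ one_le_two (by have := hrr n; omega)
    refine (ENNReal.div_le_div q1 q2).trans (le_of_eq ?_)
    exact ENNReal.mul_div_mul_right _ _ (by simp) (by simp)
  let ψ : S.K0[X][X] →+* L.N.toPF.k0 :=
    (evalEvalRingHom (⟨u, u0⟩ : L.N.toPF.k0) ⟨L.N.H.D 1 u, L.N.D_mem_k0 u0 1⟩).comp
      (mapRingHom (mapRingHom ι))
  have hψ : ∀ g, ((ψ g : L.K) : UG (hyperfilter ℕ) T) = gm (hyperfilter ℕ) fun n =>
      ((evalEvalRingHom (vv a c b' (r' n)) (S.HK.D 1 (vv a c b' (r' n))) g : S.K0) : T) := by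
    intro g
    have e1 := L.uorb_push (ψ := ι) (φ := fun _ => RingHom.id _) hι hu (L.uorb_D hu) g
    simp only [mapRingHom_id, Polynomial.map_id] at e1
    refine Eq.trans (congrArg _ ?_) e1
    have key : L.N.toPF.k0.subtype.comp
        (evalEvalRingHom (⟨u, u0⟩ : L.N.toPF.k0) ⟨L.N.H.D 1 u, L.N.D_mem_k0 u0 1⟩) =
        (aevalAeval u (L.N.H.D 1 u) : L.N.toPF.k0[X][X] →ₐ[L.N.toPF.k0] L.K).toRingHom := by
      refine uorb_ext (fun g => ?_) ?_ ?_
      · simp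
        rfl
      · simp
      · simp
    exact RingHom.congr_fun key _
  have h2 := uorb_core hE.hypH hρ (fun n => (hE.orb_ne b n).2) h0 (hh b) hr L hι hψ h1
  obtain ⟨i, hi⟩ : ∃ i, G.coeff i ≠ 0 := ⟨_, leadingCoeff_ne_zero.2 hG⟩
  obtain ⟨j, hj⟩ : ∃ j, (G.coeff i).coeff j ≠ 0 := ⟨_, leadingCoeff_ne_zero.2 hi⟩
  have h3 : ψ ((G.coeff i).coeff j) = 0 := by
    have := congrArg (fun P => (P.coeff i).coeff j) h2
    simpa only [coeff_map, coe_mapRingHom, coeff_zero] using this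
  obtain ⟨R, hR⟩ := Std.std1' hE.hypH hρ (fun n => (hE.orb_ne b' n).2) h0 (hh b') _ hj
  have h4 := hψ ((G.coeff i).coeff j)
  rw [h3] at h4
  obtain ⟨n, hn, hn'⟩ := ((Germ.coe_eq.1 (show gm (hyperfilter ℕ) (fun _ => (0 : T)) = _ from h4)).and
    ((uorb_pow hr').1.eventually_ge_atTop R)).exists
  exact hR _ hn' (Subtype.ext hn.symm)

theorem Std.std2 {a c : S.K0} (hE : HypEq a c) (hρ : S.HK.D 1 a ≠ 0 ∨ S.HK.D 1 c ≠ 0)
    {h : ℝ≥0} (h0 : h ≠ 0) (h1 : S.IsHat (a : T) c false h) (h2 : S.IsHat (a : T) c true h) :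
    Std2 S.HK a c := by
  intro f hf
  have hh : ∀ b, S.IsHat (a : T) c b h := fun b => by cases b <;> assumption
  choose G hG hG' using exists_nested hf
  choose R hR using fun q : Bool × Bool × Bool => uorb_key hE hρ h0 hh (hG q.1) q.2.1 q.2.2
  refine ⟨Finset.univ.sup R, fun b b' r r' hr hr' hd e => ?_⟩
  have le : ∀ q, R q ≤ Finset.univ.sup R := fun q => Finset.le_sup (Finset.mem_univ q)
  rcases hd with hd | hd
  · have := le (true, b', b)
    exact hR (true, b', b) r' r (by omega) (by omega) (hG' true _ _ _ _ e)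
  · have := le (false, b, b')
    exact hR (false, b, b') r r' (by omega) (by omega) (hG' false _ _ _ _ e)

end JR
end

-- merged part: Pool.Agent.Work.MP_969914_nt.ULoc
section
/-! Standard estimates for contacts of the critical orbits. -/

set_option autoImplicit false

namespace JR

open scoped NNReal ENNReal
open Polynomial

section aux
variable {K : Type} [Field K]

theorem uloc_D_iter (H : HD K) {a c : K} (ha : H.D 1 a = 0) (hc : H.D 1 c = 0) {Z : K × K}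
    (h1 : H.D 1 Z.1 = 0) (h2 : H.D 1 Z.2 = 0) (n : ℕ) :
    H.D 1 ((Phi a c)^[n] Z).1 = 0 ∧ H.D 1 ((Phi a c)^[n] Z).2 = 0 := by
  induction n with
  | zero => exact ⟨h1, h2⟩
  | succ n ih =>
    rw [Function.iterate_succ_apply']
    simp [Phi, sq, H.D_add, H.D1_mul, ha, hc, ih.1, ih.2]

theorem uloc_D_div (H : HD K) {x y : K} (hx : H.D 1 x = 0) (hy : H.D 1 y = 0) :
    H.D 1 (x / y) = 0 := by
  by_cases h : y = 0
  · rw [h, div_zero, H.D_of_zero]
  · have e := H.D1_mul (x / y) y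
    rw [div_mul_cancel₀ _ h, hx, hy, mul_zero, zero_add] at e
    exact (mul_eq_zero.1 e.symm).resolve_right h

theorem uloc_wedge {X : K × K} (h : X.2 ≠ 0) (s : K) :
    wedge X (s, 1) = X.2 * (X.1 / X.2 - s) := by
  simp only [wedge]
  field_simp

/-- The automorphism that exchanges the critical points. -/
def ulocMu (a : K) (Z : K × K) : K × K := (Z.2, a ^ 2 * Z.1)

theorem uloc_mu_ne {a : K} (ha : a ≠ 0) {Z : K × K} (hZ : Z ≠ 0) : ulocMu a Z ≠ 0 := by
  intro h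
  have h1 : Z.2 = 0 := congrArg Prod.fst h
  have h2 : a ^ 2 * Z.1 = 0 := congrArg Prod.snd h
  exact hZ (Prod.ext ((mul_eq_zero.1 h2).resolve_left (pow_ne_zero 2 ha)) h1)

theorem uloc_mu_swap {a : K} {U V : K × K} (h : wedge (ulocMu a U) V = 0) :
    wedge U (ulocMu a V) = 0 := by
  simp only [wedge, ulocMu] at h ⊢
  linear_combination -h

theorem uloc_mu_mu {a : K} {U V : K × K} (h : wedge U V = 0) :
    wedge (ulocMu a U) (ulocMu a V) = 0 := by
  simp only [wedge, ulocMu] at h ⊢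
  linear_combination -a ^ 2 * h

theorem uloc_mu_iter {a c : K} (ha : a ≠ 0) (hca : c = a ^ 3) (Z : K × K) (n : ℕ) :
    wedge ((Phi a c)^[n] (ulocMu a Z)) (ulocMu a ((Phi a c)^[n] Z)) = 0 := by
  induction n with
  | zero => simp only [Function.iterate_zero_apply, wedge, mul_comm, sub_self]
  | succ n ih =>
    rw [Function.iterate_succ_apply', Function.iterate_succ_apply']
    have h := wedge_Phi a c ((Phi a c)^[n] (ulocMu a Z)) (ulocMu a ((Phi a c)^[n] Z))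
    have e : Phi a c (ulocMu a ((Phi a c)^[n] Z)) = _ := Phi_swap hca ((Phi a c)^[n] Z)
    rw [ih, mul_zero, zero_mul, e] at h
    refine (mul_eq_zero.1 ?_).resolve_left ha
    generalize Phi a c ((Phi a c)^[n] (ulocMu a Z)) = P at h ⊢
    generalize Phi a c ((Phi a c)^[n] Z) = Q at h ⊢
    simp only [wedge, ulocMu] at h ⊢
    linear_combination h

end aux

namespace Std
variable {p : ℕ} {k T : Type} [Field k] [Field T] [Algebra k T] (S : Std p k T)

theorem uloc_mass {α : T} (h0 : α ≠ 0) :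
    S.toPF.mass {w | w ∈ S.good ∧ α ∈ S.R w ∧ S.v w α < 1} ≤ S.toPF.ht α := by
  have h := S.toPF.mass_le_I (E := {w | w ∈ S.good ∧ α ∈ S.R w ∧ S.v w α < 1}) (m := 1)
    (f := fun w => S.v w α⁻¹) fun w hw => by
      rw [pow_one, map_inv₀]
      exact S.rtop_q_le h0 hw.1 hw.2.1 hw.2.2
  rw [Nat.cast_one, one_mul] at h
  exact h.trans (S.toPF.ht_inv α).le

theorem uloc_const [Fact p.Prime] [IsAlgClosed k] [CharP T p] {z : T}
    (hz : ∀ w ∈ S.fin, S.v w z ≤ 1) (h : ∀ n, ∃ y ∈ S.K0, y ^ p ^ (n + 1) = z) :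
    IsAlgebraic k z := by
  have hp : p.Prime := Fact.out
  obtain ⟨E, s, hE, hM, -⟩ := S.fibres 1
  obtain ⟨w, hw⟩ : E.Nonempty := by
    rw [Set.nonempty_iff_ne_empty]
    rintro rfl
    rw [S.toPF.mass_empty] at hM
    simp at hM
  have hg := hE hw
  obtain ⟨κ, hκ⟩ := S.residue w z (hz w (S.good_fin hg))
  by_cases h0 : z - algebraMap k T κ = 0
  · rw [sub_eq_zero.1 h0]
    exact isAlgebraic_algebraMap κ
  exfalso
  have hq : S.q⁻¹ < 1 := inv_lt_one_of_one_lt₀ S.one_lt_q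
  obtain ⟨n, hn⟩ := NNReal.exists_pow_lt_of_lt_one ((S.v w).pos_iff.2 h0) hq
  obtain ⟨y, hy, e⟩ := h n
  obtain ⟨κ', e'⟩ := IsAlgClosed.exists_pow_nat_eq κ (pow_pos hp.pos (n + 1))
  have e2 : (y - algebraMap k T κ') ^ p ^ (n + 1) = z - algebraMap k T κ := by
    rw [sub_pow_char_pow, e, ← map_pow, e']
  rw [← e2, map_pow] at hκ hn
  have h1 : S.v w (y - algebraMap k T κ') < 1 :=
    (pow_lt_one_iff_of_nonneg zero_le (pow_pos hp.pos _).ne').1 hκ
  have h2 := S.disc w hg _ (S.K0_le w hg _ (sub_mem hy (S.K0.algebraMap_mem κ'))) h1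
  refine absurd hn (not_lt.2 ((pow_le_pow_left' h2 _).trans ?_))
  exact pow_le_pow_of_le_one zero_le hq.le
    ((Nat.le_succ n).trans (Nat.lt_pow_self hp.one_lt).le)

end Std

namespace Dyn
variable {p : ℕ} [Fact p.Prime] {k T : Type} [Field k] [IsAlgClosed k] [CharP k p] [Field T]
  [Algebra k T] [CharP T p] {S : Std p k T} (d : Dyn S)

/-- Contact with one integral point. -/
theorem v_wedge {w : S.W} (hw : w ∈ S.fin) {s : T} (hs : S.v w s ≤ 1) (b : Bool) (r : ℕ) :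
    S.v w (wedge (orb d.a d.c b (r + 1)) (s, 1)) ≤ 1 ∧
    ((orb d.a d.c b (r + 1)).2 = 0 → S.v w (wedge (orb d.a d.c b (r + 1)) (s, 1)) = 1) ∧
    ((orb d.a d.c b (r + 1)).2 ≠ 0 →
      S.v w (wedge (orb d.a d.c b (r + 1)) (s, 1)) = min 1 (S.v w (vv d.a d.c b r - s))) := by
  have hn := d.norm_orb hw b (r + 1)
  unfold vv
  generalize orb d.a d.c b (r + 1) = X at hn
  have h1 : S.v w X.1 ≤ 1 := (le_max_left _ _).trans hn.le
  have h2 : S.v w X.2 ≤ 1 := (le_max_right _ _).trans hn.le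
  have h3 : S.v w (wedge X (s, 1)) ≤ 1 := by
    refine (S.v w).map_sub_le (by simpa using h1) ?_
    rw [map_mul]
    exact mul_le_one' h2 hs
  refine ⟨h3, fun h => ?_, fun h => ?_⟩
  · simpa [wedge, h] using hn
  rcases h2.eq_or_lt with h4 | h4
  · rw [uloc_wedge h, map_mul, h4, one_mul] at h3 ⊢
    exact (min_eq_right h3).symm
  · have h5 : S.v w X.1 = 1 := by
      rcases max_choice (S.v w X.1) (S.v w X.2) with e | e
      · exact e.symm.trans hn
      · exact absurd (e.symm.trans hn) h4.ne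
    have h6 : S.v w (wedge X (s, 1)) = 1 := by
      rw [wedge, mul_one, (S.v w).map_sub_eq_of_lt_left, h5]
      rw [h5, map_mul]
      exact mul_lt_one_of_nonneg_of_lt_one_left zero_le h4 hs
    rw [h6, min_eq_left]
    rw [uloc_wedge h, map_mul] at h6
    exact h6.ge.trans (mul_le_of_le_one_left' h2)

theorem Inj.fin {b : Bool} (h : d.Inj b) (n : ℕ) : (orb d.a d.c b (n + 1)).2 ≠ 0 := by
  cases b
  · exact (d.hypH.orb_ne n).2.1
  · intro h0
    exact absurd (h (n + 1) 0 (by rw [rdyn_true, h0, neg_zero])) (Nat.succ_ne_zero n)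

theorem D_vv_eq_zero (ha : S.H.D 1 d.a = 0) (hc : S.H.D 1 d.c = 0) (b : Bool) (r : ℕ) :
    S.H.D 1 (vv d.a d.c b r) = 0 := by
  have h := uloc_D_iter S.H ha hc (Z := crit b)
    (by cases b <;> simp [crit, S.H.D_of_zero, S.H.D_one 0])
    (by cases b <;> simp [crit, S.H.D_of_zero, S.H.D_one 0]) (r + 1)
  exact uloc_D_div S.H h.1 h.2

theorem D_ne_zero_of_mem_V (ha : S.H.D 1 d.a = 0) (hc : S.H.D 1 d.c = 0) {l : ℕ} (hl : 1 ≤ l)
    {s : T} (hs : s ∈ d.V l) : S.H.D 1 s ≠ 0 := by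
  intro h0
  obtain ⟨h1, h2⟩ := uloc_D_iter S.H ha hc (Z := (s, 1)) h0 (S.H.D_one 0) l
  have h3 := iter_ne_zero d.hypH.ne (Z := (s, 1))
    (fun h => one_ne_zero (congrArg Prod.snd h)) l
  have h4 : wedge ((Phi d.a d.c)^[l] (s, 1)) d.B = 0 := hs
  rcases d.der with h | h | h
  · exact h ha
  · exact h hc
  · rw [wedge, h.1, mul_one, sub_eq_zero] at h4
    have h5 : ((Phi d.a d.c)^[l] (s, 1)).2 ≠ 0 := fun e =>
      h3 (Prod.ext (by rw [h4, e, zero_mul]; rfl) e)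
    refine h.2 ?_
    rw [← mul_div_cancel_left₀ d.B.1 h5, ← h4]
    exact uloc_D_div S.H h1 h2

/-- The map is a Frobenius twist of a map with nonconstant coefficients. -/
theorem exists_frob (hk : ∀ x : k, ∃ n, 0 < n ∧ x ^ p ^ n = x) (ha : S.H.D 1 d.a = 0)
    (hc : S.H.D 1 d.c = 0) : ∃ (n : ℕ) (a1 c1 : S.K0), a1 ^ p ^ (n + 1) = d.a0 ∧
      c1 ^ p ^ (n + 1) = d.c0 ∧ (S.HK.D 1 a1 ≠ 0 ∨ S.HK.D 1 c1 ≠ 0) := by
  by_contra hn
  push Not at hn
  have key : ∀ n, ∃ a1 c1 : S.K0, a1 ^ p ^ (n + 1) = d.a0 ∧ c1 ^ p ^ (n + 1) = d.c0 := by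
    intro n
    induction n with
    | zero =>
      obtain ⟨y, hy, e⟩ := S.proot0 _ d.a_mem ha
      obtain ⟨y', hy', e'⟩ := S.proot0 _ d.c_mem hc
      exact ⟨⟨y, hy⟩, ⟨y', hy'⟩, Subtype.ext (by simpa [a0] using e),
        Subtype.ext (by simpa [c0] using e')⟩
    | succ n ih =>
      obtain ⟨a1, c1, e1, e2⟩ := ih
      obtain ⟨f1, f2⟩ := hn n a1 c1 e1 e2
      obtain ⟨y, hy, e⟩ := S.proot0 _ a1.2 (by rw [← S.coe_HK, f1]; rfl)
      obtain ⟨y', hy', e'⟩ := S.proot0 _ c1.2 (by rw [← S.coe_HK, f2]; rfl)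
      refine ⟨⟨y, hy⟩, ⟨y', hy'⟩, ?_, ?_⟩
      · rw [pow_succ', pow_mul, ← e1]
        exact congrArg (· ^ p ^ (n + 1)) (Subtype.ext e)
      · rw [pow_succ', pow_mul, ← e2]
        exact congrArg (· ^ p ^ (n + 1)) (Subtype.ext e')
  rcases transcendental_of_hypH p hk d.hypH with h | h
  · refine h (S.uloc_const d.a_int fun n => ?_)
    obtain ⟨a1, c1, e1, -⟩ := key n
    exact ⟨a1, a1.2, congrArg Subtype.val e1⟩
  · refine h (S.uloc_const d.c_int fun n => ?_)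
    obtain ⟨a1, c1, -, e2⟩ := key n
    exact ⟨c1, c1.2, congrArg Subtype.val e2⟩

theorem isHat_frob {a1 c1 : T} {n : ℕ} {b : Bool} {h : ℝ≥0}
    (hh : S.IsHat (a1 ^ p ^ n) (c1 ^ p ^ n) b h) : S.IsHat a1 c1 b (h / p ^ n) := by
  have hp : p.Prime := Fact.out
  have hP : (0 : ℝ≥0) < (p : ℝ≥0) ^ n := pow_pos (by exact_mod_cast hp.pos) n
  obtain ⟨C, hC⟩ := hh
  refine ⟨C / p ^ n, fun r => ?_⟩
  have e : vv (a1 ^ p ^ n) (c1 ^ p ^ n) b r = vv a1 c1 b r ^ p ^ n :=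
    map_vv (iterateFrobenius T p n) b r
  have h1 := hC r
  rw [e, S.toPF.ht_pow] at h1
  obtain ⟨u, hu⟩ : ∃ u : ℝ≥0, S.toPF.ht (vv a1 c1 b r) = u :=
    ⟨_, (ENNReal.coe_toNNReal (S.ht_lt _).ne).symm⟩
  rw [hu] at h1 ⊢
  have h2 : (p : ℝ≥0) ^ n * u ≤ h * 2 ^ r + C := by exact_mod_cast h1.1
  have h3 : h * 2 ^ r ≤ (p : ℝ≥0) ^ n * u + C := by exact_mod_cast h1.2
  have h4 : u ≤ h / p ^ n * 2 ^ r + C / p ^ n := by
    rw [div_mul_eq_mul_div, ← add_div, le_div_iff₀ hP, mul_comm]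
    exact h2
  have h5 : h / p ^ n * 2 ^ r ≤ u + C / p ^ n := by
    rw [div_mul_eq_mul_div, div_le_iff₀ hP, add_mul, div_mul_cancel₀ _ hP.ne', mul_comm u]
    exact h3
  exact ⟨by exact_mod_cast h4, by exact_mod_cast h5⟩

theorem uloc_con {w : S.W} (hw : w ∈ S.good) {A : Finset T} (hA : ∀ s ∈ A, S.v w s ≤ 1)
    {b : Bool} {n : ℕ} (h : d.con b (n + 1) A w ≠ 1) : ∃ s ∈ A,
      (orb d.a d.c b (n + 1)).2 ≠ 0 ∧ S.v w (vv d.a d.c b n - s) < 1 := by
  obtain ⟨s, hs, h1⟩ := Finset.exists_ne_one_of_prod_ne_one h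
  obtain ⟨-, h2, h3⟩ := d.v_wedge (S.good_fin hw) (hA s hs) b n
  have h4 : (orb d.a d.c b (n + 1)).2 ≠ 0 := fun e => h1 (h2 e)
  refine ⟨s, hs, h4, not_le.1 fun e => h1 ?_⟩
  rw [h3 h4, min_eq_left e]

omit [Fact p.Prime] [IsAlgClosed k] [CharP k p] [CharP T p] in
theorem uloc_vv_mem {w : S.W} (hw : w ∈ S.good) (b : Bool) (n : ℕ) : vv d.a d.c b n ∈ S.R w :=
  S.K0_le w hw _ (div_mem (d.orb_mem b (n + 1)).1 (d.orb_mem b (n + 1)).2)

omit [Fact p.Prime] [IsAlgClosed k] [CharP k p] [CharP T p] in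
theorem uloc_ne' (hca : d.c = d.a ^ 3) {l e : ℕ} {s s' : T} (hs : s ∈ d.V l)
    (hs' : s' ∈ d.V (e + l)) : d.a ^ 2 * s * s' - 1 ≠ 0 := by
  intro h
  have hac := d.hypH.ne
  have ha : d.a ≠ 0 := fun h => hac (by rw [hca, h]; simp)
  have hpt : ∀ z : T, ((z, 1) : T × T) ≠ 0 := fun z h => one_ne_zero (congrArg Prod.snd h)
  have h0 : wedge (ulocMu d.a (s, 1)) (s', 1) = 0 := by
    simp only [wedge, ulocMu]
    linear_combination -h
  have g1 : wedge ((Phi d.a d.c)^[l] (s, 1)) d.B = 0 := hs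
  have g2 : wedge ((Phi d.a d.c)^[e + l] (s', 1)) d.B = 0 := hs'
  have a4 : wedge (ulocMu d.a d.B) ((Phi d.a d.c)^[l] (s', 1)) = 0 :=
    wedge_trans (uloc_mu_ne ha (iter_ne_zero hac (hpt s) l)) (rdyn_comm (uloc_mu_mu g1))
      (wedge_trans (iter_ne_zero hac (uloc_mu_ne ha (hpt s)) l)
        (rdyn_comm (uloc_mu_iter ha hca (s, 1) l)) (wedge_iter h0 l))
  have a5 : wedge ((Phi d.a d.c)^[e] (ulocMu d.a d.B)) d.B = 0 := by
    refine wedge_trans (iter_ne_zero hac (hpt s') (e + l)) ?_ g2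
    rw [Function.iterate_add_apply]
    exact wedge_iter a4 e
  cases e with
  | zero =>
    refine d.aut hca ?_
    simp only [Function.iterate_zero_apply, wedge, ulocMu] at a5
    rw [hca]
    linear_combination -d.a * a5
  | succ e =>
    have a6 : wedge ((Phi d.a d.c)^[e + 1] d.B) (ulocMu d.a d.B) = 0 :=
      uloc_mu_swap (wedge_trans (iter_ne_zero hac (uloc_mu_ne ha d.B_ne_zero) (e + 1))
        (rdyn_comm (uloc_mu_iter ha hca d.B (e + 1))) a5)
    refine d.nonper (e + 1 + e) ?_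
    rw [add_assoc (e + 1), Function.iterate_add_apply]
    exact wedge_trans (iter_ne_zero hac (uloc_mu_ne ha d.B_ne_zero) (e + 1))
      (wedge_iter a6 (e + 1)) a5

omit [Fact p.Prime] [IsAlgClosed k] [CharP k p] [CharP T p] in
theorem uloc_ne (hca : d.c = d.a ^ 3) {l l' : ℕ} {s s' : T} (hs : s ∈ d.V l)
    (hs' : s' ∈ d.V l') : d.a ^ 2 * s * s' - 1 ≠ 0 := by
  rcases le_total l l' with h | h
  · obtain ⟨e, rfl⟩ := Nat.exists_eq_add_of_le' h
    exact d.uloc_ne' hca hs hs'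
  · obtain ⟨e, rfl⟩ := Nat.exists_eq_add_of_le' h
    rw [mul_right_comm]
    exact d.uloc_ne' hca hs' hs

/-- Contacts of an orbit are bounded by its height. -/
theorem mass_con_le {b : Bool} {h : ℝ≥0} (hh : S.IsHat d.a d.c b h) (σ : ℕ) :
    ∃ C : ℝ≥0, ∀ (n : ℕ) (A : Finset T), A.card ≤ σ → (∀ s ∈ A, ∃ l, 1 ≤ l ∧ s ∈ d.V l) →
      S.toPF.mass {w | w ∈ S.good ∧ (∀ s ∈ A, S.v w s ≤ 1 ∧ s ∈ S.R w) ∧
        d.con b (n + 1) A w ≠ 1} ≤ (h / 2 : ℝ≥0) * A.card * 2 ^ (n + 1) + C := by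
  obtain ⟨C0, hC0⟩ := hh
  obtain ⟨C1, hC1⟩ := d.exists_ht_V
  refine ⟨σ * (C0 + C1), fun n A hA hV => ?_⟩
  have hsub : {w | w ∈ S.good ∧ (∀ s ∈ A, S.v w s ≤ 1 ∧ s ∈ S.R w) ∧ d.con b (n + 1) A w ≠ 1} ⊆
      ⋃ s ∈ A, {w | (orb d.a d.c b (n + 1)).2 ≠ 0 ∧ w ∈ S.good ∧
        vv d.a d.c b n - s ∈ S.R w ∧ S.v w (vv d.a d.c b n - s) < 1} := by
    rintro w ⟨h1, h2, h3⟩
    obtain ⟨s, hs, h4, h5⟩ := d.uloc_con h1 (fun s hs => (h2 s hs).1) h3
    exact Set.mem_biUnion hs ⟨h4, h1, sub_mem (d.uloc_vv_mem h1 b n) (h2 s hs).2, h5⟩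
  refine (S.toPF.mass_mono hsub).trans ((S.toPF.mass_biUnion_le _ _).trans ?_)
  refine (Finset.sum_le_card_nsmul A _ ((h : ℝ≥0∞) * 2 ^ n + (C0 + C1)) fun s hs => ?_).trans ?_
  · obtain ⟨l, -, hl⟩ := hV s hs
    by_cases h0 : (orb d.a d.c b (n + 1)).2 = 0
    · simp only [h0, ne_eq, not_true, false_and, Set.ofPred_false, S.toPF.mass_empty, zero_le]
    have h1 : vv d.a d.c b n - s ≠ 0 := fun e =>
      d.unr_of_mem_V hl b n (by rw [uloc_wedge h0]; exact mul_eq_zero_of_right _ e)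
    refine (S.toPF.mass_mono fun w hw => hw.2).trans ((S.uloc_mass h1).trans ?_)
    rw [sub_eq_add_neg, ← add_assoc]
    refine (S.toPF.ht_add_le _ _).trans (add_le_add (hC0 n).1 ?_)
    rw [S.toPF.ht_neg]
    exact hC1 l s hl
  · have h1 : (A.card : ℝ≥0) * (h * 2 ^ n + (C0 + C1)) ≤
        h / 2 * A.card * 2 ^ (n + 1) + σ * (C0 + C1) := by
      rw [mul_add]
      refine add_le_add (le_of_eq ?_) (mul_le_mul_left (by exact_mod_cast hA) _)
      rw [pow_succ]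
      field_simp
    rw [nsmul_eq_mul]
    exact_mod_cast h1

/-- The case of an automorphism exchanging the critical points. -/
theorem mass_con_swap (hca : d.c = d.a ^ 3) (σ : ℕ) :
    ∃ C : ℝ≥0, ∀ (n : ℕ) (A : Finset T), A.card ≤ σ → (∀ s ∈ A, ∃ l, 1 ≤ l ∧ s ∈ d.V l) →
      S.toPF.mass {w | w ∈ S.good ∧ (∀ s ∈ A, S.v w s ≤ 1 ∧ s ∈ S.R w) ∧
        d.con false (n + 1) A w ≠ 1 ∧ d.con true (n + 1) A w ≠ 1} ≤ C := by
  have ha : d.a ≠ 0 := fun h => d.hypH.ne (by rw [hca, h]; simp)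
  obtain ⟨C1, hC1⟩ := d.exists_ht_V
  obtain ⟨u, hu⟩ : ∃ u : ℝ≥0, S.toPF.ht d.a = u :=
    ⟨_, (ENNReal.coe_toNNReal (S.ht_lt _).ne).symm⟩
  refine ⟨σ * (σ * (2 * u + C1 + C1)), fun n A hA hV => ?_⟩
  have hsub : {w | w ∈ S.good ∧ (∀ s ∈ A, S.v w s ≤ 1 ∧ s ∈ S.R w) ∧
      d.con false (n + 1) A w ≠ 1 ∧ d.con true (n + 1) A w ≠ 1} ⊆
      ⋃ s ∈ A, ⋃ s' ∈ A, {w | w ∈ S.good ∧ d.a ^ 2 * s * s' - 1 ∈ S.R w ∧
        S.v w (d.a ^ 2 * s * s' - 1) < 1} := by
    rintro w ⟨h1, h2, h3, h3'⟩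
    obtain ⟨s, hs, h4, h5⟩ := d.uloc_con h1 (fun s hs => (h2 s hs).1) h3
    obtain ⟨s', hs', h4', h5'⟩ := d.uloc_con h1 (fun s hs => (h2 s hs).1) h3'
    refine Set.mem_biUnion hs (Set.mem_biUnion hs' ⟨h1, sub_mem (mul_mem (mul_mem
      (pow_mem (S.K0_le w h1 _ d.a_mem) 2) (h2 s hs).2) (h2 s' hs').2) (one_mem _), ?_⟩)
    have e : d.a ^ 2 * vv d.a d.c false n * vv d.a d.c true n = 1 := by
      have h := uloc_mu_iter ha hca (crit false) (n + 1)
      rw [show ulocMu d.a (crit false) = crit true by simp [ulocMu, crit]] at h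
      change wedge (orb d.a d.c true (n + 1)) (ulocMu d.a (orb d.a d.c false (n + 1))) = 0 at h
      simp only [wedge, ulocMu] at h
      unfold vv
      field_simp
      linear_combination h
    generalize vv d.a d.c false n = x at *
    generalize vv d.a d.c true n = y at *
    have hy : S.v w y ≤ 1 := by
      simpa using (S.v w).map_add_le h5'.le (h2 s' hs').1
    have e2 : d.a ^ 2 * s * s' - 1 = -(d.a ^ 2 * (s * (y - s') + y * (x - s))) := by
      linear_combination e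
    rw [e2, Valuation.map_neg, map_mul, map_pow]
    refine mul_lt_one_of_nonneg_of_lt_one_right (pow_le_one' (d.a_int w (S.good_fin h1)) 2)
      zero_le ((S.v w).map_add_lt ?_ ?_) <;> rw [map_mul]
    · exact mul_lt_one_of_nonneg_of_lt_one_right (h2 s hs).1 zero_le h5'
    · exact mul_lt_one_of_nonneg_of_lt_one_right hy zero_le h5
  have hσ : (A.card : ℝ≥0∞) ≤ σ := by exact_mod_cast hA
  refine (S.toPF.mass_mono hsub).trans ((S.toPF.mass_biUnion_le _ _).trans ?_)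
  refine (Finset.sum_le_card_nsmul A _ ((σ : ℝ≥0∞) * (2 * u + C1 + C1)) fun s hs => ?_).trans ?_
  · refine (S.toPF.mass_biUnion_le _ _).trans ?_
    refine (Finset.sum_le_card_nsmul A _ ((2 : ℝ≥0∞) * u + C1 + C1) fun s' hs' => ?_).trans ?_
    · obtain ⟨l, -, hl⟩ := hV s hs
      obtain ⟨l', -, hl'⟩ := hV s' hs'
      refine (S.uloc_mass (d.uloc_ne hca hl hl')).trans ?_
      have h1 : S.toPF.ht 1 = 0 := by simpa using S.toPF.ht_natCast 1
      rw [sub_eq_add_neg]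
      refine (S.toPF.ht_add_le _ _).trans ?_
      rw [S.toPF.ht_neg, h1, add_zero]
      refine (S.toPF.ht_mul_le _ _).trans (add_le_add ?_ (hC1 l' s' hl'))
      refine (S.toPF.ht_mul_le _ _).trans (add_le_add ?_ (hC1 l s hl))
      rw [S.toPF.ht_pow, hu]
      exact le_rfl
    · rw [nsmul_eq_mul]
      exact mul_le_mul_left hσ _
  · rw [nsmul_eq_mul]
    push_cast
    exact mul_le_mul_left hσ _

theorem LB.good {b : Bool} {ε ε2 ε3 : ℝ≥0} (h : d.LB ε (d.SimpleB b))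
    (h' : ∀ σ : ℕ, ∃ C : ℝ≥0, ∀ (n : ℕ) (A : Finset T), A.card ≤ σ →
      (∀ s ∈ A, ∃ l, 1 ≤ l ∧ s ∈ d.V l) →
      S.toPF.mass {w | w ∈ S.good ∧ (∀ s ∈ A, S.v w s ≤ 1 ∧ s ∈ S.R w) ∧
        d.con b (n + 1) A w ≠ 1 ∧ d.con (!b) (n + 1) A w ≠ 1} ≤ ε2 * A.card * 2 ^ (n + 1) + C)
    (hε : ε3 + ε2 < ε) : d.LB ε3 d.GoodSet := by
  intro σ
  obtain ⟨n1, ε1, hε1, H⟩ := h σ
  obtain ⟨C, hC⟩ := h' σ
  obtain ⟨δ, hδ, e⟩ : ∃ δ : ℝ≥0, 0 < δ ∧ ε = ε3 + ε2 + δ + δ := by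
    refine ⟨(ε - (ε3 + ε2)) / 2, half_pos (tsub_pos_of_lt hε), ?_⟩
    rw [add_assoc, add_halves, add_tsub_cancel_of_le hε.le]
  obtain ⟨N, hN⟩ := pow_unbounded_of_one_lt (C / δ) (one_lt_two (α := ℝ≥0))
  rw [div_lt_iff₀ hδ] at hN
  refine ⟨max n1 (N + 1), min ε1 δ, lt_min hε1 hδ, fun n hn A hA hV hR => ?_⟩
  rcases Nat.eq_zero_or_pos A.card with h0 | h0
  · simp [h0]
  obtain ⟨m, rfl⟩ : ∃ m, n = m + 1 := ⟨n - 1, by have := le_of_max_le_right hn; omega⟩
  have h1 := H (m + 1) (le_of_max_le_left hn) A hA hV fun s hs =>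
    (hR s hs).trans (mul_le_mul_left (by exact_mod_cast min_le_left ε1 δ) _)
  have hsub : d.SimpleB b (m + 1) A ⊆ (d.GoodSet (m + 1) A ∪ ⋃ s ∈ A, {w | s ∉ S.R w}) ∪
      {w | w ∈ S.good ∧ (∀ s ∈ A, S.v w s ≤ 1 ∧ s ∈ S.R w) ∧
        d.con b (m + 1) A w ≠ 1 ∧ d.con (!b) (m + 1) A w ≠ 1} := by
    rintro w ⟨g1, g2, g3⟩
    by_cases g4 : ∀ s ∈ A, s ∈ S.R w
    · by_cases g5 : d.con (!b) (m + 1) A w = 1
      · refine Or.inl (Or.inl ⟨g1, g2, ?_⟩)
        cases b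
        · exact Or.inl ⟨g3, g5⟩
        · exact Or.inr ⟨g5, g3⟩
      · refine Or.inr ⟨g1, fun s hs => ⟨g2 s hs, g4 s hs⟩, ?_, g5⟩
        rw [g3]
        exact (inv_lt_one_of_one_lt₀ S.one_lt_q).ne
    · push Not at g4
      obtain ⟨s, hs, g4⟩ := g4
      exact Or.inl (Or.inr (Set.mem_biUnion hs g4))
  have h2 : S.toPF.mass (⋃ s ∈ A, {w | s ∉ S.R w}) ≤ A.card * (δ * 2 ^ (m + 1)) := by
    refine (S.toPF.mass_biUnion_le _ _).trans ?_
    rw [← nsmul_eq_mul]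
    exact Finset.sum_le_card_nsmul A _ _ fun s hs =>
      (hR s hs).trans (mul_le_mul_left (by exact_mod_cast min_le_right ε1 δ) _)
  have h3 : C ≤ δ * A.card * 2 ^ (m + 1) := by
    refine hN.le.trans ?_
    rw [mul_comm, mul_assoc]
    refine mul_le_mul_right ?_ _
    exact (pow_le_pow_right₀ one_le_two (by have := le_of_max_le_right hn; omega)).trans
      (le_mul_of_one_le_left' (by exact_mod_cast h0))
  have h4 := h1.trans ((S.toPF.mass_mono hsub).trans ((S.toPF.mass_union_le _ _).trans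
    (add_le_add ((S.toPF.mass_union_le _ _).trans (add_le_add le_rfl h2))
      ((hC m A hA hV).trans (add_le_add le_rfl (ENNReal.coe_le_coe.2 h3))))))
  have hfin : ((ε2 + δ + δ : ℝ≥0) : ℝ≥0∞) * A.card * 2 ^ (m + 1) ≠ ⊤ := by finiteness
  refine (ENNReal.add_le_add_iff_right hfin).1 (le_of_eq_of_le ?_ (h4.trans (le_of_eq ?_)))
  · rw [e]
    push_cast
    ring
  · push_cast
    ring

end Dyn

end JR
end

-- merged part: Pool.Agent.Work.MP_969914_nt.USeq
section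
/-! Extraction of standard lower bounds from the nonstandard model. -/

set_option autoImplicit false

namespace JR

open scoped NNReal ENNReal Topology
open Polynomial Filter

theorem useq_pigeon {P : ℕ → ℕ → Prop} (hP : ∀ κ m m', m ≤ m' → P κ m' → P κ m) {σ : ℕ}
    (h : ∀ m, ∃ κ ≤ σ, P κ m) : ∃ κ, ∀ m, P κ m := by
  by_contra hn
  push Not at hn
  choose f hf using hn
  obtain ⟨κ, h1, h2⟩ := h ((Finset.range (σ + 1)).sup f)
  exact hf κ (hP _ _ _ (Finset.le_sup (Finset.mem_range.2 (Nat.lt_succ_of_le h1))) h2)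

theorem useq_ne {T : Type} {a b : ℕ → T} (h : ∀ m, a m ≠ b m) :
    gm (hyperfilter ℕ) a ≠ gm (hyperfilter ℕ) b := fun e =>
  let ⟨m, hm⟩ := (Germ.coe_eq.1 e).exists
  h m hm

namespace Dyn
variable {p : ℕ} [Fact p.Prime] {k T : Type} [Field k] [IsAlgClosed k] [CharP k p] [Field T]
  [Algebra k T] [CharP T p] {S : Std p k T} {d : Dyn S}

theorem lb_of_seq {ε ε' : ℝ≥0} (h : ε < ε') (G : ℕ → Finset T → Set S.W)
    (H : ∀ Q : d.Seq, ∃ E : Set Q.L.N.W, 2 * (ε' : ℝ≥0∞) * Q.κ ≤ Q.L.N.toPF.mass E ∧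
      ∀ᶠ ω in Q.L.N.toPF.ae, ω ∈ E →
        ∀ᶠ m in (hyperfilter ℕ : Filter ℕ), Q.L.pl ω m ∈ G (Q.r m + 1) (Q.A m)) :
    d.LB ε G := by
  classical
  intro σ
  by_contra hn
  push Not at hn
  obtain ⟨u, u1, u2, u3⟩ := exists_seq_strictAnti_tendsto (0 : ℝ≥0)
  obtain ⟨κ, hκ⟩ := useq_pigeon (σ := σ) (P := fun κ m => ∃ r, m ≤ r ∧ ∃ A : Finset T,
      A.card = κ ∧ (∀ s ∈ A, ∃ l, 1 ≤ l ∧ s ∈ d.V l) ∧
      (∀ s ∈ A, S.toPF.mass {w | s ∉ S.R w} ≤ u m * 2 ^ (r + 1)) ∧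
      S.toPF.mass (G (r + 1) A) < ε * κ * 2 ^ (r + 1))
    (fun κ m m' hm ⟨r, h1, A, h2, h3, h4, h5⟩ => ⟨r, hm.trans h1, A, h2, h3, fun s hs =>
      (h4 s hs).trans (mul_le_mul_left (ENNReal.coe_le_coe.2 (u1.antitone hm)) _), h5⟩)
    fun m => by
      obtain ⟨n, h1, A, h2, h3, h4, h5⟩ := hn (m + 1) (u m) (u2 m)
      obtain ⟨r, rfl⟩ : ∃ r, n = r + 1 := ⟨n - 1, by omega⟩
      exact ⟨A.card, h2, r, by omega, A, rfl, h3, h4, h5⟩
  choose r hr A h2 h3 h4 h5 using hκ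
  have hrt : Tendsto r (hyperfilter ℕ) atTop :=
    tendsto_atTop_mono hr (tendsto_id'.2 Nat.hyperfilter_le_atTop)
  obtain ⟨L⟩ := exists_lim S (hyperfilter ℕ) (lam := fun m => 2 ^ r m)
    ((tendsto_pow_atTop_atTop_of_one_lt one_lt_two).comp hrt)
  obtain ⟨ι, hι⟩ := L.exists_cst
  obtain ⟨C, hC⟩ := d.exists_ht_V
  let s : Fin κ → ℕ → T := fun i m => ((Finset.equivFinOfCardEq (h2 m)).symm i : T)
  have s1 : ∀ i m, s i m ∈ A m := fun i m => Subtype.property _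
  have s2 : ∀ m, Function.Injective fun i => s i m := fun m =>
    Subtype.val_injective.comp (Finset.equivFinOfCardEq (h2 m)).symm.injective
  have s3 : ∀ i, gm (hyperfilter ℕ) (s i) ∈ L.K := fun i => by
    have t1 : Tendsto (fun m => ((u m * 2 : ℝ≥0) : ℝ≥0∞)) (hyperfilter ℕ) (𝓝 0) := by
      have := ENNReal.tendsto_coe.2 (u3.mul_const 2)
      rw [zero_mul] at this
      exact this.mono_left Nat.hyperfilter_le_atTop
    refine L.mem_K _ (tendsto_of_tendsto_of_tendsto_of_le_of_le tendsto_const_nhds t1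
      (fun _ => zero_le) fun m => ENNReal.div_le_of_le_mul ((h4 m _ (s1 i m)).trans_eq ?_))
    push_cast
    ring
  let ζ : Fin κ → L.N.toPF.k0 := fun i => ⟨⟨_, s3 i⟩, L.ht_eq_zero (a := s i) rfl
    (ENNReal.natCast_ne_top C) fun m => let ⟨l, _, hl⟩ := h3 m _ (s1 i m); hC l _ hl⟩
  have z1 : Function.Injective ζ := fun i j e => by
    by_contra hij
    exact useq_ne (fun m h => hij (s2 m h)) 
      (congrArg (fun z : L.N.toPF.k0 => ((z : L.K) : UG (hyperfilter ℕ) T)) e)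
  obtain ⟨E, e1, e2⟩ := H ⟨r, hr, κ, s, s2, fun i m => h3 m _ (s1 i m), L, ι, hι,
    Finset.univ.image ζ, by simp [Finset.card_image_of_injective _ z1], fun z => by
      rw [Finset.mem_image]
      exact ⟨fun ⟨i, _, e⟩ => ⟨i, e ▸ rfl⟩, fun ⟨i, e⟩ =>
        ⟨i, Finset.mem_univ _, Subtype.ext (Subtype.ext e.symm)⟩⟩⟩
  have hA : ∀ m, (Finset.univ.image fun i => s i m) = A m := fun m =>
    Finset.eq_of_subset_of_card_le (Finset.image_subset_iff.2 fun i _ => s1 i m)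
      (by simp [Finset.card_image_of_injective _ (s2 m), h2])
  have e3 := L.mass_le (fun m => G (r m + 1) (A m))
    {ω | ∀ᶠ m in (hyperfilter ℕ : Filter ℕ), L.pl ω m ∈ G (r m + 1) (A m)} (2 * ε * κ)
    (fun _ h => h) (Eventually.of_forall fun m => (h5 m).le.trans_eq (by push_cast; ring))
  have e4 : 2 * (ε' : ℝ≥0∞) * κ ≤ 2 * ε * κ := e1.trans (le_trans (L.N.toPF.mass_mono_ae
    (e2.mono fun ω h1 h2 => (h1 h2).mono fun m hm => by
      rw [← hA]
      exact hm)) e3)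
  have k0 : κ ≠ 0 := fun e => by simpa [e] using h5 0
  rw [ENNReal.mul_le_mul_iff_left (by exact_mod_cast k0) (ENNReal.natCast_ne_top κ),
    ENNReal.mul_le_mul_iff_right two_ne_zero ENNReal.ofNat_ne_top, ENNReal.coe_le_coe] at e4
  exact h.not_ge e4

namespace Seq
variable (Q : d.Seq)

theorem tendsto_r : Tendsto Q.r (hyperfilter ℕ) atTop := by
  exact tendsto_atTop_mono Q.hr (tendsto_id'.2 Nat.hyperfilter_le_atTop)

theorem useq_ex (i : Fin Q.κ) :
    ∃ ζ ∈ Q.Z, ((ζ : Q.L.K) : UG (hyperfilter ℕ) T) = gm (hyperfilter ℕ) (Q.s i) := by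
  classical
  have h := Finset.eq_of_subset_of_card_le
    (s := Q.Z.image fun ζ : Q.L.N.toPF.k0 => ((ζ : Q.L.K) : UG (hyperfilter ℕ) T))
    (t := Finset.univ.image fun i => gm (hyperfilter ℕ) (Q.s i))
    (Finset.image_subset_iff.2 fun ζ hζ => let ⟨i, hi⟩ := (Q.mem_Z ζ).1 hζ
      Finset.mem_image.2 ⟨i, Finset.mem_univ _, hi.symm⟩)
    (by
      rw [Finset.card_image_of_injective _ fun a b e => Subtype.ext (Subtype.ext e), Q.card]
      exact Finset.card_image_le.trans (by simp))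
  exact Finset.mem_image.1 (h ▸ Finset.mem_image_of_mem _ (Finset.mem_univ i))

theorem unr : ∀ ζ ∈ Q.Z, Unr (Q.ι d.a0) (Q.ι d.c0) ζ := by
  intro ζ hζ
  obtain ⟨i, hi⟩ := (Q.mem_Z ζ).1 hζ
  let g : T →+* UG (hyperfilter ℕ) T :=
    (Germ.coeRingHom (hyperfilter ℕ : Filter ℕ)).comp (Pi.constRingHom ℕ T)
  refine (Unr.map (Q.L.K.subtype.comp Q.L.N.toPF.k0.subtype)).1 ?_
  have ea : (Q.L.K.subtype.comp Q.L.N.toPF.k0.subtype) (Q.ι d.a0) = g d.a := Q.cst d.a0
  have ec : (Q.L.K.subtype.comp Q.L.N.toPF.k0.subtype) (Q.ι d.c0) = g d.c := Q.cst d.c0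
  have ez : (Q.L.K.subtype.comp Q.L.N.toPF.k0.subtype) ζ = gm _ (Q.s i) := hi
  rw [ea, ec, ez]
  intro b n
  rw [map_orb]
  exact useq_ne (a := fun m => wedge (orb d.a d.c b (n + 1)) (Q.s i m, 1)) (b := fun _ => 0)
    fun m => let ⟨_, _, hl⟩ := Q.mem i m; d.unr_of_mem_V hl b n

theorem D_ne_zero (ha : S.H.D 1 d.a = 0) (hc : S.H.D 1 d.c = 0) :
    ∀ ζ ∈ Q.Z, Q.L.N.H0.D 1 ζ ≠ 0 := by
  intro ζ hζ h0
  obtain ⟨i, hi⟩ := (Q.mem_Z ζ).1 hζ
  have h1 := Q.L.N.compat 1 ζ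
  rw [h0, map_zero] at h1
  have h2 := Q.L.D_eq 1 ζ _ hi
  rw [show Q.L.N.H.D 1 ζ = 0 from h1] at h2
  exact useq_ne (b := fun _ => 0)
    (fun m => let ⟨_, hl, hl'⟩ := Q.mem i m; d.D_ne_zero_of_mem_V ha hc hl hl') h2.symm

theorem ae_good : ∀ᶠ ω in Q.L.N.toPF.ae, ∀ᶠ m in (hyperfilter ℕ : Filter ℕ),
    Q.L.pl ω m ∈ S.good ∧ ∀ s ∈ Q.A m, S.v (Q.L.pl ω m) s ≤ 1 := by
  classical
  filter_upwards [Q.L.N.ae_good, (eventually_all_finset Q.Z).2 fun ζ _ => Q.L.N.ae_int ζ.2]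
    with ω h1 h2
  have h3 : ∀ i, ∀ᶠ m in (hyperfilter ℕ : Filter ℕ), S.v (Q.L.pl ω m) (Q.s i m) ≤ 1 := fun i => by
    obtain ⟨ζ, hζ, e⟩ := Q.useq_ex i
    have h4 := h2 ζ hζ
    rw [Q.L.v_eq ω _ _ e] at h4
    exact Germ.coe_le.1 h4
  filter_upwards [Q.L.good ω h1, eventually_all.2 h3] with m h4 h5
  refine ⟨h4, fun s hs => ?_⟩
  obtain ⟨i, -, rfl⟩ := Finset.mem_image.1 hs
  exact h5 i

/-- Contacts in the model and standard contacts. -/
theorem ae_con {b : Bool} (hb : d.Inj b) {x : Q.L.K}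
    (hx : (x : UG (hyperfilter ℕ) T) = gm (hyperfilter ℕ) fun m => vv d.a d.c b (Q.r m))
    (hs : ∀ᶠ ω in Q.L.N.toPF.ae, ∀ ζ ∈ Q.Z, Q.L.N.v ω (x - ζ) < 1 →
      Q.L.N.v ω (x - ζ) = Q.L.N.q⁻¹) :
    ∀ᶠ ω in Q.L.N.toPF.ae,
      ((∃ ζ ∈ Q.Z, Q.L.N.v ω (x - ζ) < 1) → ∀ᶠ m in (hyperfilter ℕ : Filter ℕ),
        d.con b (Q.r m + 1) (Q.A m) (Q.L.pl ω m) = S.q⁻¹) ∧
      (¬ (∃ ζ ∈ Q.Z, Q.L.N.v ω (x - ζ) < 1) → ∀ᶠ m in (hyperfilter ℕ : Filter ℕ),
        d.con b (Q.r m + 1) (Q.A m) (Q.L.pl ω m) = 1) := by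
  classical
  choose ζ z1 z2 using Q.useq_ex
  filter_upwards [hs, NS.ae_prod_sub Q.Z, Q.ae_good] with ω h1 h2 h3
  have hv : ∀ i, Q.L.N.v ω (x - ζ i) = gm (hyperfilter ℕ) fun m =>
      S.v (Q.L.pl ω m) (vv d.a d.c b (Q.r m) - Q.s i m) := fun i =>
    Q.L.v_eq ω _ _ (by rw [AddSubgroupClass.coe_sub, hx, z2]; rfl)
  have hc : ∀ᶠ m in (hyperfilter ℕ : Filter ℕ), d.con b (Q.r m + 1) (Q.A m) (Q.L.pl ω m) =
      ∏ i, min 1 (S.v (Q.L.pl ω m) (vv d.a d.c b (Q.r m) - Q.s i m)) := h3.mono fun m hm => by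
    rw [con, Seq.A, Finset.prod_image (Q.inj m).injOn]
    exact Finset.prod_congr rfl fun i _ => (d.v_wedge (S.good_fin hm.1)
      (hm.2 _ (Finset.mem_image_of_mem _ (Finset.mem_univ i))) b _).2.2 (hb.fin d _)
  refine ⟨fun ⟨ζ0, k1, k2⟩ => ?_, fun hn => ?_⟩
  · obtain ⟨i0, hi⟩ := (Q.mem_Z ζ0).1 k1
    obtain rfl : ζ0 = ζ i0 := Subtype.ext (Subtype.ext (hi.trans (z2 i0).symm))
    have k3 := h1 _ k1 k2
    rw [hv, Q.L.q_eq] at k3
    have k4 : ∀ i, ∀ᶠ m in (hyperfilter ℕ : Filter ℕ), i ≠ i0 →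
        S.v (Q.L.pl ω m) (vv d.a d.c b (Q.r m) - Q.s i m) = 1 := fun i => by
      rcases eq_or_ne i i0 with e | e
      · exact Eventually.of_forall fun _ h => absurd e h
      · have k5 := ((h2 x).2 _ k1 k2).2.1 _ (z1 i) fun e' =>
          useq_ne (fun m h => e (Q.inj m h)) (by rw [← z2, ← z2, e'])
        rw [hv] at k5
        exact (Germ.coe_eq.1 k5).mono fun _ h _ => h
    filter_upwards [hc, Germ.coe_eq.1 k3, eventually_all.2 k4] with m a1 a2 a3
    rw [a1, Finset.prod_eq_single i0 (fun i _ hi => by rw [a3 i hi, min_self])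
      (fun h => absurd (Finset.mem_univ _) h), a2]
    exact min_eq_right (inv_le_one_of_one_le₀ S.one_lt_q.le)
  · have k4 : ∀ i, ∀ᶠ m in (hyperfilter ℕ : Filter ℕ),
        1 ≤ S.v (Q.L.pl ω m) (vv d.a d.c b (Q.r m) - Q.s i m) := fun i => by
      have k5 := not_lt.1 fun h => hn ⟨_, z1 i, h⟩
      rw [hv] at k5
      exact Germ.coe_le.1 k5
    filter_upwards [hc, eventually_all.2 k4] with m a1 a2
    rw [a1]
    exact Finset.prod_eq_one fun i _ => min_eq_left (a2 i)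

end Seq

end Dyn

end JR
end

-- merged part: Pool.Agent.Work.MP_969914_nt.RSD
section
/-! The standard form of the gcd bound. -/

set_option autoImplicit false

namespace JR

open scoped NNReal ENNReal
open Polynomial Filter

namespace Dyn
variable {p : ℕ} [Fact p.Prime] {k T : Type} [Field k] [IsAlgClosed k] [CharP k p] [Field T]
  [Algebra k T] [CharP T p] {S : Std p k T} (d : Dyn S)

omit [Fact p.Prime] [IsAlgClosed k] [CharP k p] [CharP T p] in
theorem hypH0 : HypH d.a0 d.c0 := (HypH.map (algebraMap S.K0 T)).1 d.hypH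

theorem Inj.fin0 {b : Bool} (h : d.Inj b) (n : ℕ) : (orb d.a0 d.c0 b (n + 1)).2 ≠ 0 := fun e => by
  have := congrArg Prod.snd (map_orb d.a0 d.c0 (algebraMap S.K0 T) b (n + 1))
  rw [e, map_zero] at this
  exact Inj.fin d h n this

omit [Fact p.Prime] [IsAlgClosed k] [CharP k p] [CharP T p] in
theorem rho_cases : (S.HK.D 1 d.a0 ≠ 0 ∨ S.HK.D 1 d.c0 ≠ 0) ∨
    (S.H.D 1 d.a = 0 ∧ S.H.D 1 d.c = 0) := by
  by_contra h
  push Not at h
  exact h.2 ((S.coe_HK 1 d.a0).symm.trans (by rw [h.1.1]; rfl))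
    ((S.coe_HK 1 d.c0).symm.trans (by rw [h.1.2]; rfl))

variable {d}

omit [IsAlgClosed k] in
theorem Seq.rho (Q : d.Seq) {a c : S.K0} (h : S.HK.D 1 a ≠ 0 ∨ S.HK.D 1 c ≠ 0) :
    Q.L.N.H0.D 1 (Q.ι a) ≠ 0 ∨ Q.L.N.H0.D 1 (Q.ι c) ≠ 0 := by
  simpa only [Q.cst.compat, _root_.map_ne_zero] using h

/-- Vanishing excess for the germ of a critical orbit. -/
theorem Seq.exc (Q : d.Seq) {b : Bool} {z : ℤ → Q.L.K} (hz : Q.L.N.Orb (Q.ι d.a0) (Q.ι d.c0) z)
    (e : (z 0 : UG (hyperfilter ℕ) T) = gm (hyperfilter ℕ) fun m => vv d.a d.c b (Q.r m)) :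
    Q.L.N.toPF.exc (aeval (z 0) (∏ s ∈ Q.Z, (X - C s))) = 0 := by
  rcases d.rho_cases with h | h
  · exact NS.exc_eq_zero ((HypH.map Q.ι).2 d.hypH0) (Q.rho h) hz _ Q.unr 0
  · refine NS.exc_eq_zero_of_D (Subtype.ext ?_) _ (Q.D_ne_zero h.1 h.2)
    rw [Q.L.D_eq 1 _ _ e]
    simp only [d.D_vv_eq_zero h.1 h.2]
    rfl

theorem Seq.exists_orb (Q : d.Seq) {b : Bool} (hb : d.Inj b) {h : ℝ≥0} (h0 : h ≠ 0)
    (hh : S.IsHat d.a d.c b h) : ∃ z : ℤ → Q.L.K, Q.L.N.Orb (Q.ι d.a0) (Q.ι d.c0) z ∧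
      Q.L.N.toPF.ht (z 0) = h ∧
      (z 0 : UG (hyperfilter ℕ) T) = gm (hyperfilter ℕ) fun m => vv d.a d.c b (Q.r m) := by
  obtain ⟨z, h1, h2, h3⟩ := Lim.exists_orb Q.tendsto_r Q.L Q.cst d.hypH0.ne (Inj.fin0 d hb) h0 hh
  exact ⟨z, h1, h2, by simpa [a0, c0] using h3 0⟩

theorem lb_simple {b : Bool} (hb : d.Inj b) {h : ℝ≥0} (hh : S.IsHat d.a d.c b h) {ε : ℝ≥0}
    (hε : ε < h / 2) : d.LB ε (d.SimpleB b) := by
  have h0 : h ≠ 0 := by rintro rfl; simp at hε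
  refine lb_of_seq hε _ fun Q => ?_
  obtain ⟨z, hz, hht, e⟩ := Q.exists_orb hb h0 hh
  obtain ⟨h1, h2⟩ := NS.simple_of_exc (hz.trans ((HypH.map Q.ι).2 d.hypH0).ne 0) _ (Q.exc hz e)
  refine ⟨_, le_of_eq_of_le ?_ h1, ?_⟩
  · rw [hht, Q.card, mul_comm (Q.κ : ℝ≥0∞)]
    congr 1
    norm_cast
    field_simp
  · filter_upwards [Q.ae_con hb e h2, Q.ae_good] with ω h3 h4 h5
    filter_upwards [h3.1 h5, h4] with m h6 h7
    exact ⟨h7.1, h7.2, h6⟩

/-- From the set where exactly one orbit meets `Z` to the standard set. -/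
theorem Seq.good_of_diff (Q : d.Seq) (h1 : d.Inj false) (h2 : d.Inj true) {x y : Q.L.K}
    (ex : (x : UG (hyperfilter ℕ) T) = gm (hyperfilter ℕ) fun m => vv d.a d.c false (Q.r m))
    (ey : (y : UG (hyperfilter ℕ) T) = gm (hyperfilter ℕ) fun m => vv d.a d.c true (Q.r m))
    (tx : Transcendental Q.L.N.toPF.k0 x) (ty : Transcendental Q.L.N.toPF.k0 y)
    (hx : Q.L.N.toPF.exc (aeval x (∏ s ∈ Q.Z, (X - C s))) = 0)
    (hy : Q.L.N.toPF.exc (aeval y (∏ s ∈ Q.Z, (X - C s))) = 0) :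
    ∀ᶠ ω in Q.L.N.toPF.ae, ω ∈ Q.L.N.Diff Q.Z x y → ∀ᶠ m in (hyperfilter ℕ : Filter ℕ),
      Q.L.pl ω m ∈ d.GoodSet (Q.r m + 1) (Q.A m) := by
  filter_upwards [Q.ae_con h1 ex (NS.simple_of_exc tx _ hx).2,
    Q.ae_con h2 ey (NS.simple_of_exc ty _ hy).2, Q.ae_good] with ω h3 h4 h5 h6
  by_cases h7 : ∃ ζ ∈ Q.Z, Q.L.N.v ω (x - ζ) < 1
  · filter_upwards [h3.1 h7, h4.2 fun h8 => h6 (iff_of_true h7 h8), h5] with m e1 e2 e3
    exact ⟨e3.1, e3.2, Or.inl ⟨e1, e2⟩⟩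
  · have h8 : ∃ ζ ∈ Q.Z, Q.L.N.v ω (y - ζ) < 1 := by
      by_contra h8
      exact h6 (iff_of_false h7 h8)
    filter_upwards [h3.2 h7, h4.1 h8, h5] with m e1 e2 e3
    exact ⟨e3.1, e3.2, Or.inr ⟨e1, e2⟩⟩

theorem rsd_arith {κ : ℕ} {h : ℝ≥0} {μ : ℝ≥0∞} (e : κ * (h : ℝ≥0∞) ≤ 8000 * μ) :
    2 * ((h / 16000 : ℝ≥0) : ℝ≥0∞) * κ ≤ μ := by
  refine (ENNReal.mul_le_mul_iff_right (a := 8000) (by simp) (by simp)).1 (le_of_eq_of_le ?_ e)
  norm_cast
  ring

omit [IsAlgClosed k] in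
theorem Seq.ne_of (Q : d.Seq) {a c : S.K0} (hE : HypEq a c) {x y : ℤ → Q.L.K}
    (hx : ∀ i : ℤ, (x i : UG (hyperfilter ℕ) T) =
      gm (hyperfilter ℕ) fun n => vv (a : T) c false (Q.r n + i).toNat)
    (hy : ∀ i : ℤ, (y i : UG (hyperfilter ℕ) T) =
      gm (hyperfilter ℕ) fun n => vv (a : T) c true (Q.r n + i).toNat) (i : ℤ) : x i ≠ y i := by
  intro e
  have e' := (hx i).symm.trans ((congrArg Subtype.val e).trans (hy i))
  obtain ⟨n, hn⟩ := (Germ.coe_eq.1 e').exists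
  have := (((HypEq.map (algebraMap S.K0 T)).2 hE).vv_inj hn).1
  simp at this

theorem lb_diff (hk : ∀ x : k, ∃ n, 0 < n ∧ x ^ p ^ n = x) (hE : HypEq d.a d.c)
    (hca : d.c ≠ d.a ^ 3) {h : ℝ≥0} (h1 : S.IsHat d.a d.c false h) (h2 : S.IsHat d.a d.c true h)
    {ε : ℝ≥0} (hε : ε < h / 16000) : d.LB ε d.GoodSet := by
  have h0 : h ≠ 0 := by rintro rfl; simp at hε
  have i1 : d.Inj false := fun m n e => (hE.inj _ _ _ _ e).2
  have i2 : d.Inj true := fun m n e => (hE.inj _ _ _ _ e).2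
  have hE0 : HypEq d.a0 d.c0 := (HypEq.map (algebraMap S.K0 T)).1 hE
  have hca0 : d.c0 ≠ d.a0 ^ 3 := fun e => hca (congrArg Subtype.val e)
  refine lb_of_seq hε _ fun Q => ?_
  obtain ⟨x, hx, tx, ex⟩ := Lim.exists_orb Q.tendsto_r Q.L Q.cst hE0.ne (Inj.fin0 d i1) h0 h1
  obtain ⟨y, hy, ty, ey⟩ := Lim.exists_orb Q.tendsto_r Q.L Q.cst hE0.ne (Inj.fin0 d i2) h0 h2
  have ex0 : (x 0 : UG (hyperfilter ℕ) T) =
      gm (hyperfilter ℕ) fun m => vv d.a d.c false (Q.r m) := by simpa [a0, c0] using ex 0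
  have ey0 : (y 0 : UG (hyperfilter ℕ) T) =
      gm (hyperfilter ℕ) fun m => vv d.a d.c true (Q.r m) := by simpa [a0, c0] using ey 0
  have hE' := (HypEq.map Q.ι).2 hE0
  refine ⟨_, rsd_arith ?_, Q.good_of_diff i1 i2 ex0 ey0 (hx.trans hE'.ne 0) (hy.trans hE'.ne 0)
    (Q.exc hx ex0) (Q.exc hy ey0)⟩
  rw [← Q.card, ← tx]
  rcases d.rho_cases with hρ | hρ
  · refine NS.sd_rho hE' (Q.rho hρ)
      (std1_of_point Q.ι Q.cst.compat (Std.std1' hE0.hypH hρ (Inj.fin0 d i1) h0 h1))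
      (Std2.map Q.ι Q.cst.compat (Std.std2 hE0 hρ h0 h1 h2)) (S.std3 Q.ι hE0 h0 h1 h2) ?_ hx hy
      (tx.trans ty.symm) (Q.ne_of hE0 ex ey) _ Q.unr
    rw [← map_pow]
    exact fun e => hca0 (Q.ι.injective e)
  · obtain ⟨n, a1, c1, ha, hc, hρ'⟩ := d.exists_frob hk hρ.1 hρ.2
    have : CharP S.K0 p := (algebraMap S.K0 T).charP (algebraMap S.K0 T).injective p
    have hE1 : HypEq a1 c1 := (HypEq.map (iterateFrobenius S.K0 p (n + 1))).1 (by
      rwa [iterateFrobenius_def, iterateFrobenius_def, ha, hc])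
    have ha' : (a1 : T) ^ p ^ (n + 1) = d.a := congrArg Subtype.val ha
    have hc' : (c1 : T) ^ p ^ (n + 1) = d.c := congrArg Subtype.val hc
    have g0 : h / p ^ (n + 1) ≠ 0 := div_ne_zero h0
      (pow_ne_zero _ (Nat.cast_ne_zero.2 (Fact.out : p.Prime).ne_zero))
    have g1 := isHat_frob (a1 := (a1 : T)) (c1 := c1) (n := n + 1) (b := false) (h := h)
      (by rwa [ha', hc'])
    have g2 := isHat_frob (a1 := (a1 : T)) (c1 := c1) (n := n + 1) (b := true) (h := h)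
      (by rwa [ha', hc'])
    obtain ⟨x1, hx1, tx1, ex1⟩ := Lim.exists_orb Q.tendsto_r Q.L Q.cst hE1.ne
      (fun n => (hE1.orb_ne false n).2) g0 g1
    obtain ⟨y1, hy1, ty1, ey1⟩ := Lim.exists_orb Q.tendsto_r Q.L Q.cst hE1.ne
      (fun n => (hE1.orb_ne true n).2) g0 g2
    have hv : ∀ b r, vv (a1 : T) c1 b r ^ p ^ (n + 1) = vv d.a d.c b r := fun b r => by
      have := map_vv (a := (a1 : T)) (c := c1) (iterateFrobenius T p (n + 1)) b r
      simp only [iterateFrobenius_def, ha', hc'] at this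
      exact this.symm
    have px : x1 0 ^ p ^ (n + 1) = x 0 := Subtype.ext (by
      rw [SubmonoidClass.coe_pow, ex1, ex, ← Germ.coe_pow]
      exact congrArg _ (funext fun m => hv _ _))
    have py : y1 0 ^ p ^ (n + 1) = y 0 := Subtype.ext (by
      rw [SubmonoidClass.coe_pow, ey1, ey, ← Germ.coe_pow]
      exact congrArg _ (funext fun m => hv _ _))
    have := NS.sd_zero (n := n) ((HypEq.map Q.ι).2 hE1) (Q.rho hρ') (S.std3 Q.ι hE1 g0 g1 g2) (by
        rw [← map_pow]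
        intro e
        apply hca0
        rw [← ha, ← hc, Q.ι.injective e, ← pow_mul, ← pow_mul, mul_comm]) hx1 hy1
      (tx1.trans ty1.symm) (Q.ne_of hE1 ex1 ey1) Q.Z
      (by rw [← map_pow, ← map_pow, ha, hc]; exact Q.unr) (Q.D_ne_zero hρ.1 hρ.2)
    rwa [px, py] at this

variable (d)

theorem exists_hat_false (hk : ∀ x : k, ∃ n, 0 < n ∧ x ^ p ^ n = x) :
    ∃ h, h ≠ 0 ∧ S.IsHat d.a d.c false h := by
  obtain ⟨h, hh⟩ := S.exists_hat d.hypH.ne false
  exact ⟨h, S.hat_pos hk d.a_mem d.c_mem d.a_int d.c_int d.d_unit d.hypH.ne d.hypH.inj hh, hh⟩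

theorem sdA (hk : ∀ x : k, ∃ n, 0 < n ∧ x ^ p ^ n = x) : d.LowerBd d.SimpleSet := by
  obtain ⟨h, h0, hh⟩ := d.exists_hat_false hk
  have : 0 < h := pos_iff_ne_zero.2 h0
  exact ⟨h / 4, by positivity, lb_simple (b := false) d.hypH.inj hh (by
    rw [← NNReal.coe_lt_coe] at this ⊢; push_cast at this ⊢; linarith)⟩

theorem sd_of_lt {b : Bool} (hb : d.Inj b) {h h' : ℝ≥0} (hh : S.IsHat d.a d.c b h)
    (hh' : S.IsHat d.a d.c (!b) h') (hlt : h' < h) : d.LowerBd d.GoodSet := by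
  obtain ⟨η, rfl⟩ := exists_add_of_le hlt.le
  have hη : 0 < η := by simpa using hlt
  refine ⟨η / 8, by positivity, LB.good d (ε := h' / 2 + η / 4) (ε2 := h' / 2)
    (lb_simple hb hh ?_) (fun σ => ?_) ?_⟩
  · rw [← NNReal.coe_lt_coe] at hη ⊢; push_cast at hη ⊢; linarith
  · obtain ⟨C, hC⟩ := d.mass_con_le hh' σ
    refine ⟨C, fun n A h1 h2 => le_trans (S.toPF.mass_mono ?_) (hC n A h1 h2)⟩
    exact fun w hw => ⟨hw.1, hw.2.1, hw.2.2.2⟩
  · rw [← NNReal.coe_lt_coe] at hη ⊢; push_cast at hη ⊢; linarith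

theorem sd (hk : ∀ x : k, ∃ n, 0 < n ∧ x ^ p ^ n = x) : d.LowerBd d.GoodSet := by
  obtain ⟨h, h0, hh⟩ := d.exists_hat_false hk
  obtain ⟨h', hh'⟩ := S.exists_hat d.hypH.ne true
  have hp : 0 < h := pos_iff_ne_zero.2 h0
  rcases lt_trichotomy h' h with e | rfl | e
  · exact d.sd_of_lt (b := false) d.hypH.inj hh hh' e
  · by_cases hca : d.c = d.a ^ 3
    · refine ⟨h' / 8, by positivity, LB.good d (b := false) (ε := h' / 4) (ε2 := 0)
        (lb_simple d.hypH.inj hh ?_) (fun σ => ?_) ?_⟩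
      · rw [← NNReal.coe_lt_coe] at hp ⊢; push_cast at hp ⊢; linarith
      · obtain ⟨C, hC⟩ := d.mass_con_swap hca σ
        exact ⟨C, fun n A h1 h2 => (hC n A h1 h2).trans le_add_self⟩
      · rw [← NNReal.coe_lt_coe] at hp ⊢; push_cast at hp ⊢; linarith
    · refine ⟨h' / 20000, by positivity,
        lb_diff hk (S.hypEq_of_hat d.hypH d.col h0 hh hh') hca hh hh' ?_⟩
      rw [← NNReal.coe_lt_coe] at hp ⊢; push_cast at hp ⊢; linarith
  · refine d.sd_of_lt (b := true) (fun m n e' => ?_) hh' hh e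
    by_contra hne
    exact (hp.trans e).ne' (S.hat_eq_zero d.hypH.ne hne e' hh')

end Dyn

end JR
end

-- merged part: Pool.Agent.Work.MP_969914_nt.S6Sm
section
/-! Sizes of the jets of the basis at the normalised preimages of the critical points. -/

set_option autoImplicit false

namespace JR

open Polynomial
open scoped NNReal

section
variable {T : Type} [Field T] {v : Valuation T ℝ≥0} {ρ B B' : ℝ≥0} {G G' : T[X][X]}

theorem Sm.mono (h : Sm v ρ B G) (hB : B ≤ B') : Sm v ρ B' G := fun i r => (h i r).trans hB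

theorem s6sm_add_le {x y : T} {t : ℝ≥0} (hx : v x * t ≤ B) (hy : v y * t ≤ B) :
    v (x + y) * t ≤ B := by
  rcases le_max_iff.1 (v.map_add x y) with h | h
  · exact (mul_le_mul_left h t).trans hx
  · exact (mul_le_mul_left h t).trans hy

theorem s6sm_sum_le {ι : Type} (s : Finset ι) (f : ι → T) {t : ℝ≥0}
    (h : ∀ i ∈ s, v (f i) * t ≤ B) : v (∑ i ∈ s, f i) * t ≤ B := by
  classical
  induction s using Finset.induction_on with
  | empty => simp
  | insert a s ha ih =>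
    rw [Finset.sum_insert ha]
    exact s6sm_add_le (h a (Finset.mem_insert_self _ _))
      (ih fun i hi => h i (Finset.mem_insert_of_mem hi))

theorem Sm.add (h : Sm v ρ B G) (h' : Sm v ρ B G') : Sm v ρ B (G + G') := by
  intro i r
  rw [coeff_add, coeff_add]
  exact s6sm_add_le (h i r) (h' i r)

theorem Sm.sub (h : Sm v ρ B G) (h' : Sm v ρ B G') : Sm v ρ B (G - G') := by
  intro i r
  rw [coeff_sub, coeff_sub, sub_eq_add_neg]
  exact s6sm_add_le (h i r) (by rw [v.map_neg]; exact h' i r)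

theorem Sm.mul (h : Sm v ρ B G) (h' : Sm v ρ B' G') : Sm v ρ (B * B') (G * G') := by
  intro i r
  rw [coeff_mul, finsetSum_coeff]
  refine s6sm_sum_le _ _ fun x hx => ?_
  rw [coeff_mul]
  refine s6sm_sum_le _ _ fun y hy => ?_
  rw [Finset.HasAntidiagonal.mem_antidiagonal] at hx hy
  have e : i + r = (x.1 + y.1) + (x.2 + y.2) := by omega
  rw [v.map_mul, e, pow_add, mul_mul_mul_comm]
  exact mul_le_mul' (h _ _) (h' _ _)

theorem Sm.CC {a : T} (h : v a ≤ B) : Sm v ρ B (C (C a)) := by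
  intro i r
  rw [coeff_C]
  split_ifs with hi
  · rw [coeff_C]
    split_ifs with hr
    · subst hi hr
      simpa using h
    · simp
  · simp

theorem Sm.pow (h : Sm v ρ B G) (n : ℕ) : Sm v ρ (B ^ n) (G ^ n) := by
  induction n with
  | zero =>
    have := Sm.CC (v := v) (ρ := ρ) (B := 1) (a := 1) (by simp)
    simpa using this
  | succ n ih =>
    rw [pow_succ, pow_succ]
    exact ih.mul h

theorem Sm.sum {ι : Type} (s : Finset ι) (g : ι → T[X][X]) (h : ∀ i ∈ s, Sm v ρ B (g i)) :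
    Sm v ρ B (∑ i ∈ s, g i) := by
  intro i r
  rw [finsetSum_coeff, finsetSum_coeff]
  exact s6sm_sum_le _ _ fun x hx => h x hx i r

theorem Sm.prod {ι : Type} (s : Finset ι) (g : ι → T[X][X]) (b : ι → ℝ≥0)
    (h : ∀ i ∈ s, Sm v ρ (b i) (g i)) : Sm v ρ (∏ i ∈ s, b i) (∏ i ∈ s, g i) := by
  classical
  induction s using Finset.induction_on with
  | empty =>
    have := Sm.CC (v := v) (ρ := ρ) (B := 1) (a := 1) (by simp)
    simpa using this
  | insert a s ha ih =>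
    rw [Finset.prod_insert ha, Finset.prod_insert ha]
    exact (h a (Finset.mem_insert_self _ _)).mul
      (ih fun i hi => h i (Finset.mem_insert_of_mem hi))

theorem Sm.X_outer : Sm v ρ ρ (X : T[X][X]) := by
  intro i r
  rw [coeff_X]
  split_ifs with hi
  · rw [coeff_one]
    split_ifs with hr
    · subst hi hr
      simp
    · simp
  · simp

theorem Sm.X_inner : Sm v ρ ρ (C X : T[X][X]) := by
  intro i r
  rw [coeff_C]
  split_ifs with hi
  · rw [coeff_X]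
    split_ifs with hr
    · subst hi hr
      simp
    · simp
  · simp

theorem s6sm_C0 (h : Sm v ρ B G) : Sm v ρ B (C (G.coeff 0)) := by
  intro i r
  rw [coeff_C]
  split_ifs with hi
  · subst hi
    exact h 0 r
  · simp

theorem s6sm_divX (hρ : ρ ≠ 0) (h : Sm v ρ B G) : Sm v ρ (B * ρ⁻¹) (divX G) := by
  intro i r
  rw [coeff_divX, le_mul_inv_iff₀ (pos_iff_ne_zero.2 hρ), mul_assoc, ← pow_succ]
  have e : i + r + 1 = i + 1 + r := by omega
  rw [e]
  exact h (i + 1) r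

theorem Sm.top_iter (hρ : ρ ≠ 0) (h : Sm v ρ B G) (h' : Sm v ρ B' G') (n : ℕ) :
    Sm v ρ (B' * (B * ρ⁻¹) ^ n) ((Top G)^[n] G') := by
  induction n with
  | zero => simpa using h'
  | succ n ih =>
    rw [Function.iterate_succ_apply', Top]
    have e : B' * (B * ρ⁻¹) ^ (n + 1) = B * (B' * (B * ρ⁻¹) ^ n) * ρ⁻¹ := by ring
    rw [e]
    refine s6sm_divX hρ (Sm.sub ((s6sm_C0 h).mul ih) ?_)
    rw [mul_comm B]
    exact (s6sm_C0 ih).mul h

theorem s6sm_dir (b : Bool) : v (dir b : T × T).1 ≤ 1 ∧ v (dir b : T × T).2 ≤ 1 := by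
  cases b <;> simp [dir]

theorem s6sm_crit (b : Bool) : max (v (crit b : T × T).1) (v (crit b : T × T).2) = 1 := by
  cases b <;> simp [crit]

theorem s6sm_lin {e : T} (he : v e ≤ 1) :
    Sm v ρ ρ (C (C e * X)) ∧ Sm v ρ ρ (C (C e * X) + C (C e) * X) := by
  have h1 : Sm v ρ ρ (C (C e * X)) := by
    have := (Sm.CC (ρ := ρ) he).mul (Sm.X_inner (v := v) (ρ := ρ))
    rwa [one_mul, ← map_mul] at this
  have h2 := (Sm.CC (ρ := ρ) he).mul (Sm.X_outer (v := v) (ρ := ρ))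
  rw [one_mul] at h2
  exact ⟨h1, h1.add h2⟩

theorem s6sm_W0 (V : T × T) {E : T × T} (h1 : v E.1 ≤ 1) (h2 : v E.2 ≤ 1) :
    Sm v ρ ρ ((W0 V E).1 - C (C V.1)) ∧ Sm v ρ ρ ((W0 V E).2 - C (C V.2)) := by
  have e1 : (W0 V E).1 - C (C V.1) = C (C E.1 * X) := by
    simp only [W0, map_add]; ring
  have e2 : (W0 V E).2 - C (C V.2) = C (C E.2 * X) := by
    simp only [W0, map_add]; ring
  rw [e1, e2]
  exact ⟨(s6sm_lin h1).1, (s6sm_lin h2).1⟩

theorem s6sm_W1 (V : T × T) {E : T × T} (h1 : v E.1 ≤ 1) (h2 : v E.2 ≤ 1) :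
    Sm v ρ ρ ((W1 V E).1 - C (C V.1)) ∧ Sm v ρ ρ ((W1 V E).2 - C (C V.2)) := by
  have e1 : (W1 V E).1 - C (C V.1) = C (C E.1 * X) + C (C E.1) * X := by
    simp only [W1, map_add]; ring
  have e2 : (W1 V E).2 - C (C V.2) = C (C E.2 * X) + C (C E.2) * X := by
    simp only [W1, map_add]; ring
  rw [e1, e2]
  exact ⟨(s6sm_lin h1).2, (s6sm_lin h2).2⟩

theorem s6sm_base {V : T × T} {W : T[X][X] × T[X][X]} {ε : ℝ≥0} (h1 : v V.1 ≤ B) (h2 : v V.2 ≤ B)
    (hε : ε ≤ B) (h : Sm v ρ ε (W.1 - C (C V.1)) ∧ Sm v ρ ε (W.2 - C (C V.2))) :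
    Sm v ρ B W.1 ∧ Sm v ρ B W.2 := by
  have k1 := (h.1.mono hε).add (Sm.CC h1)
  have k2 := (h.2.mono hε).add (Sm.CC h2)
  rw [sub_add_cancel] at k1 k2
  exact ⟨k1, k2⟩

theorem s6sm_Phi {K : ℝ≥0} (hK : 1 ≤ K) {a c : T} (ha : v a ≤ K) (hc : v c ≤ K)
    {W : T[X][X] × T[X][X]} (h : Sm v ρ B W.1 ∧ Sm v ρ B W.2) :
    Sm v ρ (K * B ^ 2) (Phi (C (C a)) (C (C c)) W).1 ∧
      Sm v ρ (K * B ^ 2) (Phi (C (C a)) (C (C c)) W).2 := by
  have h2 : Sm v ρ (K * B ^ 2) (W.2 ^ 2) :=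
    (h.2.pow 2).mono (le_mul_of_one_le_left zero_le hK)
  exact ⟨((Sm.CC ha).mul (h.1.pow 2)).add h2, ((Sm.CC hc).mul (h.1.pow 2)).add h2⟩

theorem s6sm_Fs {a c : T[X][X]} {j : ℕ} {W W' : T[X][X] × T[X][X]}
    (h : Sm v ρ B ((Phi a c)^[j] W).1 ∧ Sm v ρ B ((Phi a c)^[j] W).2)
    (h' : Sm v ρ B' ((Phi a c)^[j] W').1 ∧ Sm v ρ B' ((Phi a c)^[j] W').2) :
    Sm v ρ (B * B') (Fs a c j W W') := (h.1.mul h'.2).add (h.2.mul h'.1)

theorem s6sm_sB {a c : T[X][X]} {N : ℕ} {W W' : T[X][X] × T[X][X]} (β : ℕ → ℝ≥0)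
    (h : ∀ n, Sm v ρ (β n) ((Phi a c)^[n] W).1 ∧ Sm v ρ (β n) ((Phi a c)^[n] W).2)
    (h' : Sm v ρ B W'.1 ∧ Sm v ρ B W'.2) (D l i : ℕ) :
    Sm v ρ ((∏ n ∈ Finset.range N, β n) * (B ^ i * B ^ (D - 1 - i))) (sB a c N D l i W W') := by
  refine Sm.mul (Sm.prod _ _ _ fun n _ => ?_) ((h'.1.pow _).mul (h'.2.pow _))
  split_ifs
  · exact (h n).2
  · exact (h n).1

theorem s6sm_delta {K ε : ℝ≥0} (hK : 1 ≤ K) {a c : T} (ha : v a ≤ K) (hc : v c ≤ K)
    {A : T × T} (h1 : v A.1 ≤ K) (h2 : v A.2 ≤ K) (hε : ε ≤ K) {W : T[X][X] × T[X][X]}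
    (h : Sm v ρ ε (W.1 - C (C A.1)) ∧ Sm v ρ ε (W.2 - C (C A.2))) :
    Sm v ρ (K ^ 2 * ε) ((Phi (C (C a)) (C (C c)) W).1 - C (C (Phi a c A).1)) ∧
      Sm v ρ (K ^ 2 * ε) ((Phi (C (C a)) (C (C c)) W).2 - C (C (Phi a c A).2)) := by
  obtain ⟨b1, b2⟩ := s6sm_base h1 h2 hε h
  have k1 := h.1.mul (b1.add (Sm.CC h1))
  have k2 : Sm v ρ (K * (ε * K)) _ :=
    (h.2.mul (b2.add (Sm.CC h2))).mono (le_mul_of_one_le_left zero_le hK)
  have e : K ^ 2 * ε = K * (ε * K) := by ring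
  have e1 : (Phi (C (C a)) (C (C c)) W).1 - C (C (Phi a c A).1) =
      C (C a) * ((W.1 - C (C A.1)) * (W.1 + C (C A.1))) +
        (W.2 - C (C A.2)) * (W.2 + C (C A.2)) := by
    simp only [Phi, map_add, map_mul, map_pow]; ring
  have e2 : (Phi (C (C a)) (C (C c)) W).2 - C (C (Phi a c A).2) =
      C (C c) * ((W.1 - C (C A.1)) * (W.1 + C (C A.1))) +
        (W.2 - C (C A.2)) * (W.2 + C (C A.2)) := by
    simp only [Phi, map_add, map_mul, map_pow]; ring
  rw [e, e1, e2]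
  exact ⟨((Sm.CC ha).mul k1).add k2, ((Sm.CC hc).mul k1).add k2⟩

theorem s6sm_back {K : ℝ≥0} (hK : 1 ≤ K) {a c : T}
    (h : ∀ Z : T × T, max (v Z.1) (v Z.2) ^ 2 ≤ K * max (v (Phi a c Z).1) (v (Phi a c Z).2))
    {j : ℕ} {V : T × T} {β : Bool} (hV : (Phi a c)^[j] V = crit β) :
    ∀ i ≤ j, max (v ((Phi a c)^[i] V).1) (v ((Phi a c)^[i] V).2) ≤ K := by
  intro i hi
  induction hi using Nat.decreasingInduction with
  | self => rw [hV, s6sm_crit]; exact hK
  | of_succ i _ ih =>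
    rw [Function.iterate_succ_apply'] at ih
    have h1 := (h _).trans (mul_le_mul_right ih K)
    rw [← sq] at h1
    exact (pow_le_pow_iff_left₀ zero_le zero_le two_ne_zero).1 h1

theorem s6sm_sum_pow (j N : ℕ) :
    ∑ i ∈ Finset.range N, 2 ^ (i - j) + 1 ≤ min N j + 2 ^ (N - j) := by
  induction N with
  | zero => simp
  | succ N ih =>
    rw [Finset.sum_range_succ]
    rcases lt_or_ge N j with h | h
    · have e1 : N - j = 0 := by omega
      have e2 : N + 1 - j = 0 := by omega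
      rw [e1] at ih
      rw [e1, e2]
      omega
    · have e : N + 1 - j = N - j + 1 := by omega
      rw [e, pow_succ]
      omega

theorem s6sm_iter {K : ℝ≥0} (hK : 1 ≤ K) {a c : T} (ha : v a ≤ K) (hc : v c ≤ K) {j : ℕ}
    {V : T × T} (hV : ∀ i ≤ j, max (v ((Phi a c)^[i] V).1) (v ((Phi a c)^[i] V).2) ≤ K)
    (hρ : K ^ (2 * j) * ρ = 1) {W : T[X][X] × T[X][X]}
    (h : Sm v ρ ρ (W.1 - C (C V.1)) ∧ Sm v ρ ρ (W.2 - C (C V.2))) :
    (∀ i ≤ j, Sm v ρ K ((Phi (C (C a)) (C (C c)))^[i] W).1 ∧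
      Sm v ρ K ((Phi (C (C a)) (C (C c)))^[i] W).2) ∧
    ∀ i, Sm v ρ (K ^ (2 * 2 ^ (i - j))) ((Phi (C (C a)) (C (C c)))^[i] W).1 ∧
      Sm v ρ (K ^ (2 * 2 ^ (i - j))) ((Phi (C (C a)) (C (C c)))^[i] W).2 := by
  have hε : ∀ i ≤ j, K ^ (2 * i) * ρ ≤ K := fun i hi =>
    ((mul_le_mul_left (pow_le_pow_right₀ hK (by omega)) ρ).trans hρ.le).trans hK
  have k1 : ∀ i ≤ j,
      Sm v ρ (K ^ (2 * i) * ρ)
        (((Phi (C (C a)) (C (C c)))^[i] W).1 - C (C ((Phi a c)^[i] V).1)) ∧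
      Sm v ρ (K ^ (2 * i) * ρ)
        (((Phi (C (C a)) (C (C c)))^[i] W).2 - C (C ((Phi a c)^[i] V).2)) := by
    intro i
    induction i with
    | zero => intro _; simpa using h
    | succ i ih =>
      intro hi
      have hi' : i ≤ j := by omega
      have e : K ^ (2 * (i + 1)) * ρ = K ^ 2 * (K ^ (2 * i) * ρ) := by ring
      rw [Function.iterate_succ_apply', Function.iterate_succ_apply', e]
      exact s6sm_delta hK ha hc ((le_max_left _ _).trans (hV i hi'))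
        ((le_max_right _ _).trans (hV i hi')) (hε i hi') (ih hi')
  have k2 : ∀ i ≤ j, Sm v ρ K ((Phi (C (C a)) (C (C c)))^[i] W).1 ∧
      Sm v ρ K ((Phi (C (C a)) (C (C c)))^[i] W).2 := fun i hi =>
    s6sm_base ((le_max_left _ _).trans (hV i hi)) ((le_max_right _ _).trans (hV i hi))
      (hε i hi) (k1 i hi)
  have k3 : ∀ n, ∃ e, e + 1 = 2 * 2 ^ n ∧
      Sm v ρ (K ^ e) ((Phi (C (C a)) (C (C c)))^[j + n] W).1 ∧
      Sm v ρ (K ^ e) ((Phi (C (C a)) (C (C c)))^[j + n] W).2 := by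
    intro n
    induction n with
    | zero => exact ⟨1, rfl, by simpa using k2 j le_rfl⟩
    | succ n ih =>
      obtain ⟨e, he, ih⟩ := ih
      refine ⟨2 * e + 1, by rw [pow_succ]; omega, ?_⟩
      have e1 : K ^ (2 * e + 1) = K * (K ^ e) ^ 2 := by ring
      rw [← add_assoc, Function.iterate_succ_apply', e1]
      exact s6sm_Phi hK ha hc ih
  refine ⟨k2, fun i => ?_⟩
  rcases le_total i j with hi | hi
  · have hle : K ≤ K ^ (2 * 2 ^ (i - j)) := le_self_pow₀ hK (by positivity)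
    exact ⟨(k2 i hi).1.mono hle, (k2 i hi).2.mono hle⟩
  · obtain ⟨e, he, h1, h2⟩ := k3 (i - j)
    rw [Nat.add_sub_cancel' hi] at h1 h2
    have hle : K ^ e ≤ K ^ (2 * 2 ^ (i - j)) := pow_le_pow_right₀ hK (by omega)
    exact ⟨h1.mono hle, h2.mono hle⟩

theorem s6sm_main {K : ℝ≥0} (hK : 1 ≤ K) {a c : T} (ha : v a ≤ K) (hc : v c ≤ K) {j : ℕ}
    {V : T × T} (hV : ∀ i ≤ j, max (v ((Phi a c)^[i] V).1) (v ((Phi a c)^[i] V).2) ≤ K)
    (b : Bool) (N l n r : ℕ) {i : ℕ} (hi : i < 2 ^ j) :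
    v ((((Top (Fp a c j V (dir b)))^[n] (sp a c N (2 ^ j) l i V (dir b))).coeff 0).coeff r) ≤
      K ^ (3 * (2 ^ (N - j) + 2 ^ j + (j + 1) * (n + r))) := by
  have hK0 : K ^ (2 * j) ≠ 0 := pow_ne_zero _ (zero_lt_one.trans_le hK).ne'
  have hρ : K ^ (2 * j) * (K ^ (2 * j))⁻¹ = 1 := mul_inv_cancel₀ hK0
  have hd := s6sm_dir (v := v) b
  obtain ⟨a0, b0⟩ := s6sm_iter hK ha hc hV hρ (s6sm_W0 V hd.1 hd.2)
  obtain ⟨a1, -⟩ := s6sm_iter hK ha hc hV hρ (s6sm_W1 V hd.1 hd.2)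
  have hF : Sm v (K ^ (2 * j))⁻¹ (K * K) (Fp a c j V (dir b)) :=
    s6sm_Fs (a0 j le_rfl) (a1 j le_rfl)
  have hs : Sm v (K ^ (2 * j))⁻¹ _ (sp a c N (2 ^ j) l i V (dir b)) :=
    s6sm_sB _ b0 (a1 0 (Nat.zero_le _)) (2 ^ j) l i
  have h := Sm.top_iter (inv_ne_zero hK0) hF hs n 0 r
  rw [zero_add, inv_pow, mul_inv_le_iff₀ (pos_iff_ne_zero.2 (pow_ne_zero _ hK0)), inv_inv,
    Finset.prod_pow_eq_pow_sum, ← sq, ← pow_add, ← pow_add, ← pow_add, ← pow_mul, ← pow_mul,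
    ← pow_add, ← pow_add, ← Finset.mul_sum] at h
  refine h.trans (pow_le_pow_right₀ hK ?_)
  have h1 := s6sm_sum_pow j N
  have h2 : j < 2 ^ j := Nat.lt_two_pow_self
  have h3 : min N j ≤ j := min_le_right _ _
  have h4 : i + (2 ^ j - 1 - i) ≤ 2 ^ j := by omega
  have h5 : (2 + 2 * j) * n + 2 * j * r ≤ 3 * ((j + 1) * (n + r)) := by nlinarith
  generalize 2 ^ (N - j) = P at *
  omega

/-- Integrality of the basis and of the curve at an integral point. -/
theorem sm_Fp_sp {a c : T} (ha : v a ≤ 1) (hc : v c ≤ 1) {V : T × T} (h1 : v V.1 ≤ 1)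
    (h2 : v V.2 ≤ 1) (b : Bool) :
    (∀ j, Sm v 1 1 (Fp a c j V (dir b))) ∧ ∀ N D l i, Sm v 1 1 (sp a c N D l i V (dir b)) := by
  have hd := s6sm_dir (v := v) b
  have h0 : Sm v 1 1 (W0 V (dir b)).1 ∧ Sm v 1 1 (W0 V (dir b)).2 :=
    s6sm_base h1 h2 le_rfl (s6sm_W0 V hd.1 hd.2)
  have h0' : Sm v 1 1 (W1 V (dir b)).1 ∧ Sm v 1 1 (W1 V (dir b)).2 :=
    s6sm_base h1 h2 le_rfl (s6sm_W1 V hd.1 hd.2)
  have key : ∀ W : T[X][X] × T[X][X], Sm v 1 1 W.1 ∧ Sm v 1 1 W.2 → ∀ n,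
      Sm v 1 1 ((Phi (C (C a)) (C (C c)))^[n] W).1 ∧
        Sm v 1 1 ((Phi (C (C a)) (C (C c)))^[n] W).2 := by
    intro W hW n
    induction n with
    | zero => exact hW
    | succ n ih =>
      rw [Function.iterate_succ_apply']
      simpa using s6sm_Phi le_rfl ha hc ih
  refine ⟨fun j => ?_, fun N D l i => ?_⟩
  · simpa [Fp] using s6sm_Fs (key _ h0 j) (key _ h0' j)
  · simpa [sp] using s6sm_sB (N := N) (fun _ => 1) (fun n => key _ h0 n) h0' D l i

end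

namespace Dyn
variable {p : ℕ} {k T : Type} [Field k] [Field T] [Algebra k T] {S : Std p k T} (d : Dyn S)

theorem jet_fin {w : S.W} (hw : w ∈ S.fin) {j : ℕ} {V : T × T} {β : Bool}
    (hV : (Phi d.a d.c)^[j] V = crit β) (b : Bool) (N D l i n r : ℕ) :
    S.v w ((((Top (Fp d.a d.c j V (dir b)))^[n] (sp d.a d.c N D l i V (dir b))).coeff 0).coeff r)
      ≤ 1 := by
  have h := d.norm_iter hw V j
  rw [hV, s6sm_crit] at h
  have h1 : max (S.v w V.1) (S.v w V.2) = 1 :=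
    (pow_eq_one_iff_of_nonneg zero_le (by positivity)).1 h.symm
  obtain ⟨hF, hs⟩ := sm_Fp_sp (d.a_int w hw) (d.c_int w hw) ((le_max_left _ _).trans h1.le)
    ((le_max_right _ _).trans h1.le) b
  simpa using (Sm.top_iter one_ne_zero (hF j) (hs N D l i) n) 0 r

theorem jet_inf : ∃ C : ℕ, ∀ w ∉ S.fin, ∀ (j : ℕ) (V : T × T) (β : Bool),
    (Phi d.a d.c)^[j] V = crit β → ∀ (b : Bool) (N l i n r : ℕ), i < 2 ^ j →
    S.v w ((((Top (Fp d.a d.c j V (dir b)))^[n]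
      (sp d.a d.c N (2 ^ j) l i V (dir b))).coeff 0).coeff r) ≤
      S.q ^ (C * (2 ^ (N - j) + 2 ^ j + (j + 1) * (n + r))) := by
  obtain ⟨C0, h0⟩ := d.exists_inf_const
  obtain ⟨Ca, ha⟩ := S.inf_bound d.a
  obtain ⟨Cc, hc⟩ := S.inf_bound d.c
  have hq : ∀ {m n : ℕ}, m ≤ n → S.q ^ m ≤ S.q ^ n := fun h => pow_le_pow_right₀ S.one_lt_q.le h
  refine ⟨(C0 + Ca + Cc) * 3, fun w hw j V β hV b N l i n r hi => ?_⟩
  have hK : 1 ≤ S.q ^ (C0 + Ca + Cc) := one_le_pow₀ S.one_lt_q.le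
  have hback : ∀ Z : T × T, max (S.v w Z.1) (S.v w Z.2) ^ 2 ≤
      S.q ^ (C0 + Ca + Cc) * max (S.v w (Phi d.a d.c Z).1) (S.v w (Phi d.a d.c Z).2) :=
    fun Z => (h0 w hw Z).2.trans (mul_le_mul_left (hq (by omega)) _)
  have := s6sm_main hK ((ha w hw).trans (hq (by omega))) ((hc w hw).trans (hq (by omega)))
    (s6sm_back hK hback hV) b N l n r hi
  rwa [← pow_mul, ← mul_assoc] at this

end Dyn

end JR
end

-- merged part: Pool.Agent.Work.MP_969914_nt.S6Top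
section
/-! Membership in the ideal `(F, h ^ k)` and change of the base point. -/

set_option autoImplicit false

namespace JR

open Polynomial
open scoped NNReal

section alg
variable {A A' : Type} [CommRing A] [CommRing A']

theorem s6top_X (F s : A[X]) : X * Top F s = C (F.coeff 0) * s - C (s.coeff 0) * F := by
  have := X_mul_divX_add (C (F.coeff 0) * s - C (s.coeff 0) * F)
  rwa [coeff_sub, coeff_C_mul, coeff_C_mul, mul_comm (s.coeff 0), sub_self, C_0, add_zero] at this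

theorem s6top_eq {F s G : A[X]} (h : X * G = C (F.coeff 0) * s - C (s.coeff 0) * F) :
    Top F s = G := monic_X.isRegular.left ((s6top_X F s).trans h.symm)

theorem s6top_coeff (f : A →+* A') (Ψ : A[X] →+* A'[X]) (u : A') (h1 : ∀ a, Ψ (C a) = C (f a))
    (h2 : Ψ X = C u * X) (G : A[X]) : (Ψ G).coeff 0 = f (G.coeff 0) := by
  conv_lhs => rw [← X_mul_divX_add G, map_add, map_mul, h1, h2]
  simp

theorem s6top_nat (f : A →+* A') (Ψ : A[X] →+* A'[X]) (u α β : A') (h1 : ∀ a, Ψ (C a) = C (f a))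
    (h2 : Ψ X = C u * X) (F s : A[X]) (n : ℕ) :
    (Top (C α * Ψ F))^[n] (C β * Ψ s) = C (β * (α * u) ^ n) * Ψ ((Top F)^[n] s) := by
  induction n with
  | zero => simp
  | succ n ih =>
    rw [Function.iterate_succ_apply', Function.iterate_succ_apply', ih]
    refine s6top_eq ?_
    have h3 := congrArg Ψ (s6top_X F ((Top F)^[n] s))
    simp only [map_mul, map_sub, h1, h2] at h3
    simp only [coeff_C_mul, s6top_coeff f Ψ u h1 h2]
    simp only [map_mul, map_pow]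
    linear_combination C β * (C α * C u) ^ n * C α * h3

theorem s6top_lin (F : A[X]) (a : A) (s t : A[X]) (n : ℕ) :
    (Top F)^[n] (C a * s + t) = C a * (Top F)^[n] s + (Top F)^[n] t := by
  induction n with
  | zero => rfl
  | succ n ih =>
    simp only [Function.iterate_succ_apply', ih]
    refine s6top_eq ?_
    rw [mul_add, mul_left_comm, s6top_X, s6top_X, coeff_add, coeff_C_mul]
    simp only [map_add, map_mul]
    ring

theorem Top_iter_map (f : A →+* A') (F s : A[X]) (n : ℕ) :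
    ((Top F)^[n] s).map f = (Top (F.map f))^[n] (s.map f) := by
  simpa using (s6top_nat f (mapRingHom f) 1 1 1 (by simp) (by simp) F s n).symm

theorem Top_iter_sum {ι : Type} (F : A[X]) (s : Finset ι) (f : ι → A) (g : ι → A[X]) (n : ℕ) :
    (Top F)^[n] (∑ i ∈ s, C (f i) * g i) = ∑ i ∈ s, C (f i) * (Top F)^[n] (g i) := by
  classical
  induction s using Finset.induction_on with
  | empty => exact Function.iterate_fixed (by simp [Top]) n
  | insert i s hi ih => rw [Finset.sum_insert hi, Finset.sum_insert hi, s6top_lin, ih]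

theorem exists_decomp [IsDomain A] (F s : A[X]) (h0 : F.coeff 0 ≠ 0) (k : ℕ)
    (h : ∀ n < k, F.coeff 0 ^ n ∣ ((Top F)^[n] s).coeff 0 →
      F.coeff 0 ^ (n + 1) ∣ ((Top F)^[n] s).coeff 0) :
    ∃ G H : A[X], s = G * F + X ^ k * H := by
  have key : ∃ G H : A[X], s = G * F + X ^ k * H ∧ (Top F)^[k] s = C (F.coeff 0 ^ k) * H := by
    induction k with
    | zero => exact ⟨0, s, by simp, by simp⟩
    | succ k ih =>
      obtain ⟨G, H, h1, h2⟩ := ih fun n hn => h n (by omega)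
      have h3 := h k (by omega)
      rw [h2, coeff_C_mul, pow_succ, mul_dvd_mul_iff_left (pow_ne_zero k h0)] at h3
      obtain ⟨g, hg⟩ := h3 (dvd_mul_right _ _)
      have h4 := X_mul_divX_add (H - C g * F)
      rw [coeff_sub, coeff_C_mul, hg, mul_comm g, sub_self, C_0, add_zero] at h4
      refine ⟨G + X ^ k * C g, divX (H - C g * F), ?_, ?_⟩
      · rw [pow_succ, mul_assoc (X ^ k), h4]
        linear_combination h1
      · rw [Function.iterate_succ_apply', h2]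
        refine s6top_eq ?_
        rw [mul_left_comm, h4, coeff_C_mul, hg]
        simp only [map_mul, map_pow]
        ring
  obtain ⟨G, H, h1, -⟩ := key
  exact ⟨G, H, h1⟩

end alg

section field
variable {T : Type} [Field T]

/-- The jets at the homogeneous point `κ • pt b x` are proportional to the affine jets at `x`. -/
theorem Top_scale (a c : T) {κ : T} (hκ : κ ≠ 0) (x : T) (b : Bool) (j N D n r : ℕ) :
    ∃ ν : T, ν ≠ 0 ∧ ∀ l i, i < D →
      (((Top (Fp a c j (κ * (pt b x).1, κ * (pt b x).2) (dir b)))^[n]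
        (sp a c N D l i (κ * (pt b x).1, κ * (pt b x).2) (dir b))).coeff 0).coeff r =
      ν * (taylor x (((Top (Fp a c j (pt b 0) (dir b)))^[n]
        (sp a c N D l i (pt b 0) (dir b))).coeff 0)).coeff r := by
  let f : T[X] →+* T[X] := compRingHom (C x + C κ⁻¹ * X)
  let Ψ : T[X][X] →+* T[X][X] := eval₂RingHom (C.comp f) (C (C κ⁻¹) * X)
  have h1 : ∀ g, Ψ (C g) = C (f g) := fun g => by simp [Ψ]
  have h2 : Ψ X = C (C κ⁻¹) * X := by simp [Ψ]
  have h3 : ∀ t, Ψ (C (C t)) = C (C t) := fun t => by simp [h1, f]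
  have h4 : (C κ * C κ⁻¹ : T[X]) = 1 := by rw [← C_mul, mul_inv_cancel₀ hκ, C_1]
  have h5 : (C (C κ) * C (C κ⁻¹) : T[X][X]) = 1 := by rw [← C_mul, h4, C_1]
  have w0 : W0 (κ * (pt b x).1, κ * (pt b x).2) (dir b) =
      (C (C κ) * (Prod.map Ψ Ψ (W0 (pt b 0) (dir b))).1,
        C (C κ) * (Prod.map Ψ Ψ (W0 (pt b 0) (dir b))).2) := by
    cases b <;> simp [W0, pt, dir, h1, f, mul_add, ← mul_assoc, h5]
  have w1 : W1 (κ * (pt b x).1, κ * (pt b x).2) (dir b) =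
      (C (C κ) * (Prod.map Ψ Ψ (W1 (pt b 0) (dir b))).1,
        C (C κ) * (Prod.map Ψ Ψ (W1 (pt b 0) (dir b))).2) := by
    cases b <;> simp [W1, pt, dir, h1, h2, f, mul_add, ← mul_assoc, h5]
  have e1 : Fp a c j (κ * (pt b x).1, κ * (pt b x).2) (dir b) =
      C (C (κ ^ 2 ^ j * κ ^ 2 ^ j)) * Ψ (Fp a c j (pt b 0) (dir b)) := by
    rw [Fp, Fp, map_Fs, h3, h3, w0, w1, Fs_smul]
    simp only [map_mul, map_pow]
  refine ⟨κ ^ (2 ^ N - 1) * κ ^ (D - 1) * (κ ^ 2 ^ j * κ ^ 2 ^ j * κ⁻¹) ^ n * κ⁻¹ ^ r,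
    by simp [hκ], fun l i hi => ?_⟩
  have e2 : sp a c N D l i (κ * (pt b x).1, κ * (pt b x).2) (dir b) =
      C (C (κ ^ (2 ^ N - 1) * κ ^ (D - 1))) * Ψ (sp a c N D l i (pt b 0) (dir b)) := by
    rw [sp, sp, map_sB, h3, h3, w0, w1, sB_smul _ _ _ hi]
    simp only [map_mul, map_pow]
  have e3 : ∀ g : T[X], f g = (taylor x g).comp (C κ⁻¹ * X) := fun g => by
    simp [f, taylor_apply, comp_assoc, add_comm]
  rw [e1, e2, s6top_nat f Ψ _ _ _ h1 h2, coeff_C_mul, s6top_coeff f Ψ _ h1 h2, ← C_mul, ← C_pow,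
    ← C_mul, coeff_C_mul, e3, comp_C_mul_X_coeff]
  ring

end field

end JR
end

-- merged part: Pool.Agent.Work.MP_969914_nt.S6Rep
section
/-! Representatives of the conjugacy classes of roots. -/

set_option autoImplicit false

namespace JR

open Polynomial IntermediateField

theorem s6rep_taylor {T : Type} [Field T] (x : T) (r : ℕ) (G : T[X]) :
    (X - C x) ^ r ∣ G ↔ ∀ i < r, (taylor x G).coeff i = 0 := by
  rw [← X_pow_dvd_iff]
  constructor
  · rintro ⟨H, rfl⟩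
    refine ⟨taylor x H, ?_⟩
    rw [taylor_mul, taylor_pow]
    simp
  · rintro ⟨H, hH⟩
    refine ⟨taylor (-x) H, ?_⟩
    have h1 := congrArg (taylor (-x)) hH
    rw [taylor_taylor, neg_add_cancel, taylor_zero, taylor_mul, taylor_pow, taylor_X, C_neg,
      ← sub_eq_add_neg] at h1
    exact h1

theorem s6rep_key {K T : Type} [Field K] [Field T] [Algebra K T] [Algebra.IsSeparable K T]
    (x : T) (n : ℕ) (g : K[X]) (h : (X - C x) ^ n ∣ g.map (algebraMap K T)) :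
    minpoly K x ^ n ∣ g := by
  have hsep : ((minpoly K x).map (algebraMap K T)).Separable :=
    Polynomial.Separable.map (Algebra.IsSeparable.isSeparable K x)
  obtain ⟨u, hu⟩ : X - C x ∣ (minpoly K x).map (algebraMap K T) := by
    rw [dvd_iff_isRoot, IsRoot, eval_map_algebraMap, minpoly.aeval]
  have hc : IsCoprime (X - C x) u := by
    rw [hu] at hsep
    exact hsep.isCoprime
  induction n generalizing g with
  | zero => simp
  | succ n ih =>
    have h1 : aeval x g = 0 := by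
      have h2 := (dvd_pow_self (X - C x) n.succ_ne_zero).trans h
      rwa [dvd_iff_isRoot, IsRoot, eval_map_algebraMap] at h2
    obtain ⟨k, rfl⟩ := minpoly.dvd K x h1
    rw [Polynomial.map_mul, hu, pow_succ', mul_assoc,
      mul_dvd_mul_iff_left (X_sub_C_ne_zero x)] at h
    rw [pow_succ']
    exact mul_dvd_mul_left _ (ih k (hc.pow_left.dvd_of_dvd_mul_left h))

theorem exists_reps {K T : Type} [Field K] [Field T] [Algebra K T] [Algebra.IsSeparable K T]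
    {f : K[X]} (hf : f ≠ 0) (hs : (f.map (algebraMap K T)).Splits) :
    ∃ (s : Finset T) (m : T → ℕ), ∑ x ∈ s, m x * Module.finrank K K⟮x⟯ ≤ f.natDegree ∧
      (∀ x ∈ s, aeval x f = 0 ∧ m x ≤ f.natDegree) ∧
      ∀ (g : K[X]) (n : ℕ), f ^ n ∣ g → (∀ x ∈ s, ∀ r, m x * n ≤ r → r < m x * (n + 1) →
        (taylor x (g.map (algebraMap K T))).coeff r = 0) → f ^ (n + 1) ∣ g := by
  classical
  obtain ⟨M, hM⟩ : ∃ M, M = UniqueFactorizationMonoid.normalizedFactors f := ⟨_, rfl⟩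
  have hp : ∀ p ∈ M.toFinset, Irreducible p ∧ p.Monic ∧ p ∣ f := fun p hp =>
    (Polynomial.mem_normalizedFactors_iff hf).1 (hM ▸ Multiset.mem_toFinset.1 hp)
  have hr : ∀ p : K[X], ∃ x : T, p ∈ M.toFinset → aeval x p = 0 := by
    intro p
    by_cases h : p ∈ M.toFinset
    · obtain ⟨h1, -, h3⟩ := hp p h
      have h4 : (p.map (algebraMap K T)).Splits :=
        hs.of_dvd (Polynomial.map_ne_zero hf) (Polynomial.map_dvd _ h3)
      obtain ⟨x, hx⟩ := h4.exists_eval_eq_zero (by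
        rw [degree_map]
        exact (degree_pos_of_irreducible h1).ne')
      exact ⟨x, fun _ => by rwa [eval_map_algebraMap] at hx⟩
    · exact ⟨0, fun h' => absurd h' h⟩
  choose rt hrt using hr
  have hmin : ∀ p ∈ M.toFinset, minpoly K (rt p) = p := fun p h =>
    (minpoly.eq_of_irreducible_of_monic (hp p h).1 (hrt p h) (hp p h).2.1).symm
  have hinj : Set.InjOn rt M.toFinset := fun p h q h' e => by
    rw [← hmin p h, ← hmin q h', e]
  have hass : Associated (∏ p ∈ M.toFinset, p ^ M.count p) f := by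
    rw [← Finset.prod_multiset_count, hM]
    exact UniqueFactorizationMonoid.prod_normalizedFactors hf
  have hdeg : ∑ p ∈ M.toFinset, M.count p * p.natDegree = f.natDegree := by
    rw [← natDegree_eq_of_degree_eq (degree_eq_degree_of_associated hass),
      natDegree_prod _ _ fun p h => pow_ne_zero _ (hp p h).1.ne_zero]
    simp only [natDegree_pow]
  refine ⟨M.toFinset.image rt, fun x => M.count (minpoly K x), ?_, ?_, ?_⟩
  · rw [Finset.sum_image hinj, ← hdeg]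
    refine le_of_eq (Finset.sum_congr rfl fun p h => ?_)
    beta_reduce
    rw [adjoin.finrank (Algebra.IsSeparable.isIntegral K _), hmin p h]
  · intro x hx
    obtain ⟨p, h, rfl⟩ := Finset.mem_image.1 hx
    refine ⟨aeval_eq_zero_of_dvd_aeval_eq_zero (hp p h).2.2 (hrt p h), ?_⟩
    beta_reduce
    rw [hmin p h, ← hdeg]
    exact (Nat.le_mul_of_pos_right _ (hp p h).1.natDegree_pos).trans
      (Finset.single_le_sum (f := fun p : K[X] => M.count p * p.natDegree)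
        (fun _ _ => Nat.zero_le _) h)
  · intro g n hg H
    refine (hass.symm.pow_pow (n := n + 1)).dvd.trans ?_
    rw [← Finset.prod_pow]
    refine Finset.prod_dvd_of_coprime (fun p h q h' hne => ?_) fun p h => ?_
    · refine IsCoprime.pow (IsCoprime.pow ?_)
      rw [(hp p h).1.coprime_iff_not_dvd]
      exact fun hd => hne (eq_of_monic_of_associated (hp p h).2.1 (hp q h').2.1
        ((hp p h).1.associated_of_dvd (hp q h').1 hd))
    · have h1 := H (rt p) (Finset.mem_image_of_mem rt h)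
      simp only [hmin p h] at h1
      have h2 : p ^ (M.count p * n) ∣ g := by
        rw [pow_mul]
        exact (pow_dvd_pow_of_dvd
          ((Finset.dvd_prod_of_mem (fun p : K[X] => p ^ M.count p) h).trans hass.dvd) n).trans hg
      have h3 : X - C (rt p) ∣ p.map (algebraMap K T) := by
        rw [dvd_iff_isRoot, IsRoot, eval_map_algebraMap, hrt p h]
      have h4 : (X - C (rt p)) ^ (M.count p * n) ∣ g.map (algebraMap K T) := by
        refine (pow_dvd_pow_of_dvd h3 _).trans ?_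
        rw [← Polynomial.map_pow]
        exact Polynomial.map_dvd _ h2
      have h5 := s6rep_key (rt p) (M.count p * (n + 1)) g ((s6rep_taylor _ _ _).2 fun i hi =>
        (lt_or_ge i (M.count p * n)).elim ((s6rep_taylor _ _ _).1 h4 i) fun h6 => h1 i h6 hi)
      rwa [hmin p h, pow_mul] at h5

end JR
end

-- merged part: Pool.Agent.Work.MP_969914_nt.S6Gau
section
/-! The lemma of Gauss and the diagonal points of the curve. -/

set_option autoImplicit false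

namespace JR

open Polynomial
open scoped NNReal

variable {T : Type} [Field T] {v : Valuation T ℝ≥0}

/-- A polynomial of Gauss norm one. -/
def Prim (v : Valuation T ℝ≥0) (g : T[X]) : Prop := Itg v g ∧ ∃ r, v (g.coeff r) = 1

theorem s6gau_mul {f g : T[X]} (hf : Itg v f) (hg : Itg v g) : Itg v (f * g) := by
  intro r
  rw [coeff_mul]
  refine v.map_sum_le fun x _ => ?_
  rw [map_mul]
  exact mul_le_one' (hf _) (hg _)

theorem s6gau_sub {f g : T[X]} (hf : Itg v f) (hg : Itg v g) : Itg v (f - g) := by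
  intro r
  rw [coeff_sub]
  exact v.map_sub_le (hf r) (hg r)

theorem s6gau_eval {g : T[X]} (hg : Itg v g) {x : T} (hx : v x ≤ 1) : v (g.eval x) ≤ 1 := by
  rw [eval_eq_sum_range]
  refine v.map_sum_le fun i _ => ?_
  rw [map_mul, map_pow]
  exact mul_le_one' (hg _) (pow_le_one' hx _)

theorem s6gau_sm {G : T[X][X]} : Sm v 1 1 G ↔ ∀ i, Itg v (G.coeff i) := by
  simp [Sm, Itg]

theorem s6gau_evalEval {G : T[X][X]} (hG : Sm v 1 1 G) {x h : T} (hx : v x ≤ 1) (hh : v h ≤ 1) :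
    v (G.evalEval x h) ≤ 1 := by
  have e : G.evalEval x h = (G.map (evalRingHom x)).eval h := by
    rw [map_evalRingHom_eval]
  rw [e]
  refine s6gau_eval (fun r => ?_) hh
  rw [coeff_map]
  exact s6gau_eval (s6gau_sm.1 hG r) hx

theorem s6gau_prim_C {u : T} (hu : v u = 1) : Prim v (C u) := by
  refine ⟨fun r => ?_, 0, by simpa using hu⟩
  rw [coeff_C]
  split_ifs
  · exact hu.le
  · simp

theorem Prim.mul {f g : T[X]} (hf : Prim v f) (hg : Prim v g) : Prim v (f * g) := by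
  classical
  refine ⟨s6gau_mul hf.1 hg.1, Nat.find hf.2 + Nat.find hg.2, ?_⟩
  have hi := Nat.find_spec hf.2
  have hj := Nat.find_spec hg.2
  have hi' : ∀ k < Nat.find hf.2, v (f.coeff k) < 1 := fun k hk =>
    lt_of_le_of_ne (hf.1 k) (Nat.find_min hf.2 hk)
  have hj' : ∀ k < Nat.find hg.2, v (g.coeff k) < 1 := fun k hk =>
    lt_of_le_of_ne (hg.1 k) (Nat.find_min hg.2 hk)
  generalize Nat.find hf.2 = i at *
  generalize Nat.find hg.2 = j at *
  have h1 : v (f.coeff i * g.coeff j) = 1 := by rw [map_mul, hi, hj, one_mul]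
  rw [coeff_mul, v.map_sum_eq_of_lt (j := (i, j)) (by simp), h1]
  intro x hx
  rw [h1, map_mul]
  rw [Finset.mem_sdiff, Finset.mem_singleton] at hx
  obtain ⟨hx1, hx2⟩ := hx
  have hx3 : x.1 + x.2 = i + j := by simpa using hx1
  by_cases hk : x.1 < i
  · exact mul_lt_one_of_nonneg_of_lt_one_left zero_le (hi' _ hk) (hg.1 _)
  · have : x.2 < j := by
      by_contra hl
      exact hx2 (Prod.ext (by simp only; omega) (by simp only; omega))
    exact mul_lt_one_of_nonneg_of_lt_one_right (hf.1 _) zero_le (hj' _ this)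

theorem Itg.of_mul {f g : T[X]} (hf : Prim v f) (h : Itg v (g * f)) : Itg v g := by
  intro r
  by_contra hr
  rw [not_le] at hr
  have hr0 : r ∈ g.support := by
    rw [mem_support_iff]
    intro h0
    rw [h0, map_zero] at hr
    exact absurd hr (not_lt.2 zero_le)
  obtain ⟨m, -, hm⟩ := g.support.exists_max_image (fun k => v (g.coeff k)) ⟨r, hr0⟩
  have hm1 : 1 < v (g.coeff m) := hr.trans_le (hm r hr0)
  have hm0 : v (g.coeff m) ≠ 0 := (zero_lt_one.trans hm1).ne'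
  have hp : Prim v (C (g.coeff m)⁻¹ * g) := by
    refine ⟨fun k => ?_, m, ?_⟩
    · rw [coeff_C_mul, map_mul, map_inv₀]
      by_cases hk : k ∈ g.support
      · exact (inv_mul_le_one₀ (zero_lt_one.trans hm1)).2 (hm k hk)
      · rw [notMem_support_iff.1 hk, map_zero, mul_zero]
        exact zero_le
    · rw [coeff_C_mul, map_mul, map_inv₀, inv_mul_cancel₀ hm0]
  obtain ⟨s, hs⟩ := (hp.mul hf).2
  rw [mul_assoc, coeff_C_mul, map_mul, map_inv₀, inv_mul_eq_one₀ hm0] at hs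
  exact absurd (h s) (not_le.2 (hs ▸ hm1))

theorem val_le_of_decomp {F s G H : T[X][X]} (hF : Sm v 1 1 F) (hs : Sm v 1 1 s)
    (h0 : Prim v (F.coeff 0)) {k : ℕ} (e : s = G * F + X ^ k * H) {x h : T} (hx : v x ≤ 1)
    (hh : v h ≤ 1) (hz : F.evalEval x h = 0) : v (s.evalEval x h) ≤ v h ^ k := by
  induction k generalizing s G with
  | zero => simpa using s6gau_evalEval hs hx hh
  | succ k ih =>
    have hG : Itg v (G.coeff 0) := by
      refine Itg.of_mul h0 ?_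
      have : G.coeff 0 * F.coeff 0 = s.coeff 0 := by
        rw [e, coeff_add, mul_coeff_zero, mul_coeff_zero, coeff_X_pow]
        simp
      rw [this]
      exact s6gau_sm.1 hs 0
    have e2 : s - C (G.coeff 0) * F = X * (divX G * F + X ^ k * H) := by
      have := X_mul_divX_add G
      rw [e]
      linear_combination (-F) * this
    have hs' : Sm v 1 1 (divX G * F + X ^ k * H) := by
      rw [s6gau_sm]
      intro i
      rw [← coeff_X_mul, ← e2, coeff_sub, coeff_C_mul]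
      exact s6gau_sub (s6gau_sm.1 hs _) (s6gau_mul hG (s6gau_sm.1 hF _))
    have h1 := ih hs' rfl
    have e3 : s.evalEval x h = h * (divX G * F + X ^ k * H).evalEval x h := by
      have := congrArg (evalEval x h) e2
      rwa [evalEval_sub, evalEval_mul, hz, mul_zero, sub_zero, evalEval_mul, evalEval_X] at this
    rw [e3, map_mul, pow_succ']
    exact mul_le_mul_right h1 _

theorem natDegree_form (a c : T) (b : Bool) (j : ℕ) :
    ((Phi (C a) (C c))^[j] (pt b X)).1.natDegree ≤ 2 ^ j ∧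
      ((Phi (C a) (C c))^[j] (pt b X)).2.natDegree ≤ 2 ^ j := by
  induction j with
  | zero => cases b <;> simp [pt]
  | succ j ih =>
    rw [Function.iterate_succ_apply']
    generalize (Phi (C a) (C c))^[j] (pt b X) = Z at ih ⊢
    have key : ∀ u : T, (C u * Z.1 ^ 2 + Z.2 ^ 2).natDegree ≤ 2 ^ (j + 1) := by
      intro u
      refine natDegree_add_le_of_degree_le ((natDegree_C_mul_le _ _).trans ?_) ?_
      · refine natDegree_pow_le.trans ?_
        rw [pow_succ']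
        exact Nat.mul_le_mul_left _ ih.1
      · refine natDegree_pow_le.trans ?_
        rw [pow_succ']
        exact Nat.mul_le_mul_left _ ih.2
    exact ⟨key a, key c⟩

theorem s6gau_fact {a c α β u w : T} (hu : u ^ 2 = α * a + β * c) (hw : w ^ 2 = -(α + β))
    (Z : T[X] × T[X]) :
    C α * (Phi (C a) (C c) Z).1 + C β * (Phi (C a) (C c) Z).2 =
      (C u * Z.1 + C w * Z.2) * (C u * Z.1 + C (-w) * Z.2) := by
  have h1 := congrArg (C : T → T[X]) hu
  have h2 := congrArg (C : T → T[X]) hw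
  simp only [map_pow, map_add, map_mul, map_neg] at h1 h2
  simp only [Phi, map_neg]
  linear_combination (-Z.1 ^ 2) * h1 + Z.2 ^ 2 * h2

theorem splits_form (hs : ∀ α : T, ∃ β, β ^ 2 = α) (a c : T) (b : Bool) (j : ℕ) (α β : T) :
    (C α * ((Phi (C a) (C c))^[j] (pt b X)).1 + C β * ((Phi (C a) (C c))^[j] (pt b X)).2).Splits := by
  induction j generalizing α β with
  | zero =>
    refine Polynomial.Splits.of_natDegree_le_one ?_
    have := natDegree_form a c b 0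
    exact natDegree_add_le_of_degree_le ((natDegree_C_mul_le _ _).trans this.1)
      ((natDegree_C_mul_le _ _).trans this.2)
  | succ j ih =>
    obtain ⟨u, hu⟩ := hs (α * a + β * c)
    obtain ⟨w, hw⟩ := hs (-(α + β))
    rw [Function.iterate_succ_apply', s6gau_fact hu hw]
    exact (ih u w).mul (ih u (-w))

theorem s6gau_lin {α β : T} (h : max (v α) (v β) = 1) : Prim v (C α * X + C β * 1) := by
  have h1 : v α ≤ 1 := (le_max_left _ _).trans h.le
  have h2 : v β ≤ 1 := (le_max_right _ _).trans h.le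
  refine ⟨fun r => ?_, ?_⟩
  · rw [mul_one, coeff_add, coeff_C_mul, coeff_X, coeff_C]
    refine v.map_add_le ?_ ?_ <;> split_ifs <;> simp [h1, h2]
  · rcases max_eq_iff.1 h with h | h
    · exact ⟨1, by simpa [coeff_one] using h.1⟩
    · exact ⟨0, by simpa using h.1⟩

theorem prim_form (hs : ∀ α : T, ∃ β, β ^ 2 = α) {a c : T} (ha : v a ≤ 1) (hc : v c ≤ 1)
    (hd : v (a - c) = 1) (b : Bool) (j : ℕ) {α β : T} (h : max (v α) (v β) = 1) :
    Prim v (C α * ((Phi (C a) (C c))^[j] (pt b X)).1 +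
      C β * ((Phi (C a) (C c))^[j] (pt b X)).2) := by
  induction j generalizing α β with
  | zero =>
    cases b
    · exact s6gau_lin h
    · rw [add_comm]
      exact s6gau_lin (max_comm (v α) (v β) ▸ h)
  | succ j ih =>
    obtain ⟨u, hu⟩ := hs (α * a + β * c)
    obtain ⟨w, hw⟩ := hs (-(α + β))
    have h1 : v α ≤ 1 := (le_max_left _ _).trans h.le
    have h2 : v β ≤ 1 := (le_max_right _ _).trans h.le
    have hu1 : v u ≤ 1 := by
      rw [← pow_le_one_iff (two_ne_zero), ← map_pow, hu]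
      refine v.map_add_le ?_ ?_ <;> rw [map_mul]
      · exact mul_le_one' h1 ha
      · exact mul_le_one' h2 hc
    have hw1 : v w ≤ 1 := by
      rw [← pow_le_one_iff (two_ne_zero), ← map_pow, hw, v.map_neg]
      exact v.map_add_le h1 h2
    have hm : max (v u) (v w) = 1 := by
      refine le_antisymm (max_le hu1 hw1) ?_
      by_contra hlt
      rw [not_le, max_lt_iff] at hlt
      have key : ∀ t : T, v t ≤ 1 → v (u ^ 2 + t * w ^ 2) < 1 := by
        intro t ht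
        refine v.map_add_lt ?_ ?_
        · rw [map_pow]
          exact pow_lt_one₀ zero_le hlt.1 two_ne_zero
        · rw [map_mul, map_pow]
          exact mul_lt_one_of_nonneg_of_lt_one_right ht zero_le
            (pow_lt_one₀ zero_le hlt.2 two_ne_zero)
      have k1 := key c hc
      have k2 := key a ha
      rw [show u ^ 2 + c * w ^ 2 = α * (a - c) by rw [hu, hw]; ring, map_mul, hd, mul_one] at k1
      rw [show u ^ 2 + a * w ^ 2 = -(β * (a - c)) by rw [hu, hw]; ring, v.map_neg, map_mul, hd,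
        mul_one] at k2
      exact absurd h (max_lt k1 k2).ne
    rw [Function.iterate_succ_apply', s6gau_fact hu hw]
    exact (ih hm).mul (ih (by rwa [v.map_neg]))

theorem prim_Fp (hs : ∀ α : T, ∃ β, β ^ 2 = α) (h2 : v 2 = 1) {a c : T} (ha : v a ≤ 1)
    (hc : v c ≤ 1) (hd : v (a - c) = 1) (b : Bool) (j : ℕ) :
    Prim v ((Fp a c j (pt b 0) (dir b)).coeff 0) := by
  have p1 := prim_form hs ha hc hd b j (α := 1) (β := 0) (by simp)
  have p2 := prim_form hs ha hc hd b j (α := 0) (β := 1) (by simp)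
  simp only [map_one, map_zero, one_mul, zero_mul, add_zero, zero_add] at p1 p2
  rw [coeff_zero_Fp]
  exact (s6gau_prim_C h2).mul (p1.mul p2)

theorem s6gau_root (hs : ∀ α : T, ∃ β, β ^ 2 = α) (j : ℕ) (m : T) : ∃ κ : T, κ ^ 2 ^ j = m := by
  induction j generalizing m with
  | zero => exact ⟨m, by simp⟩
  | succ j ih =>
    obtain ⟨u, hu⟩ := hs m
    obtain ⟨κ, hκ⟩ := ih u
    exact ⟨κ, by rw [pow_succ, pow_mul, hκ, hu]⟩

/-- The diagonal points of the curve. -/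
theorem Fp_zero_data (hs : ∀ α : T, ∃ β, β ^ 2 = α) (h2 : (2 : T) ≠ 0) {a c : T} (h : a ≠ c)
    (b : Bool) (j : ℕ) :
    (Fp a c j (pt b 0) (dir b)).coeff 0 ≠ 0 ∧ ((Fp a c j (pt b 0) (dir b)).coeff 0).Splits ∧
      ((Fp a c j (pt b 0) (dir b)).coeff 0).natDegree ≤ 2 * 2 ^ j ∧
      ∀ x, ((Fp a c j (pt b 0) (dir b)).coeff 0).eval x = 0 → ∃ (κ : T) (β : Bool), κ ≠ 0 ∧
        (Phi a c)^[j] (κ * (pt b x).1, κ * (pt b x).2) = crit β := by
  classical
  refine ⟨?_, ?_, ?_, ?_⟩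
  · obtain ⟨r, hr⟩ := (prim_Fp (v := (1 : Valuation T ℝ≥0)) hs
      (Valuation.one_apply_of_ne_zero h2) (Valuation.one_apply_le_one a)
      (Valuation.one_apply_le_one c) (Valuation.one_apply_of_ne_zero (sub_ne_zero.2 h)) b j).2
    intro h0
    rw [h0, coeff_zero, map_zero] at hr
    exact zero_ne_one hr
  · have p1 := splits_form hs a c b j 1 0
    have p2 := splits_form hs a c b j 0 1
    simp only [map_one, map_zero, one_mul, zero_mul, add_zero, zero_add] at p1 p2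
    rw [coeff_zero_Fp]
    exact (p1.mul p2).C_mul 2
  · rw [coeff_zero_Fp]
    have := natDegree_form a c b j
    refine (natDegree_C_mul_le (2 : T) _).trans (natDegree_mul_le.trans ?_)
    omega
  · intro x hx
    have e := map_iter' (evalRingHom x) (C a) (C c) (pt b X) j
    rw [map_pt] at e
    simp only [coe_evalRingHom, eval_C, eval_X] at e
    have hne : (Phi a c)^[j] (pt b x) ≠ 0 := by
      refine iter_ne_zero h ?_ j
      cases b <;> simp [pt]
    rw [coeff_zero_Fp, eval_mul, eval_mul, eval_ofNat] at hx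
    have hx' : ((Phi a c)^[j] (pt b x)).1 * ((Phi a c)^[j] (pt b x)).2 = 0 := by
      rw [e]
      exact (mul_eq_zero.1 hx).resolve_left h2
    have hκ : ∀ m : T, m ≠ 0 → ∃ κ : T, κ ≠ 0 ∧ κ ^ 2 ^ j * m = 1 := by
      intro m hm
      obtain ⟨κ, hκ⟩ := s6gau_root hs j m⁻¹
      refine ⟨κ, ?_, by rw [hκ, inv_mul_cancel₀ hm]⟩
      rintro rfl
      rw [zero_pow (by positivity)] at hκ
      exact inv_ne_zero hm hκ.symm
    rcases mul_eq_zero.1 hx' with h1 | h1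
    · obtain ⟨κ, k0, k1⟩ := hκ _ fun h0 : ((Phi a c)^[j] (pt b x)).2 = 0 => hne (Prod.ext h1 h0)
      exact ⟨κ, false, k0, by rw [iter_smul, h1, k1, mul_zero]; rfl⟩
    · obtain ⟨κ, k0, k1⟩ := hκ _ fun h0 : ((Phi a c)^[j] (pt b x)).1 = 0 => hne (Prod.ext h0 h1)
      exact ⟨κ, true, k0, by rw [iter_smul, h1, k1, mul_zero]; rfl⟩

end JR
end

-- merged part: Pool.Agent.Work.MP_969914_nt.S6Aux
section
/-! The auxiliary form vanishing to high order along the diagonal. -/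

set_option autoImplicit false

namespace JR

open Polynomial
open scoped NNReal

theorem s6aux_mem {K T : Type} [Field K] [Field T] [Algebra K T] (g : K[X]) (x : T) (r : ℕ) :
    (taylor x (g.map (algebraMap K T))).coeff r ∈ IntermediateField.adjoin K {x} := by
  have e : g.map (algebraMap K T) = (g.map (algebraMap K (IntermediateField.adjoin K {x}))).map
      (algebraMap (IntermediateField.adjoin K {x}) T) := by
    rw [Polynomial.map_map, ← IsScalarTower.algebraMap_eq]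
  have := map_taylor (g.map (algebraMap K (IntermediateField.adjoin K {x})))
    (IntermediateField.AdjoinSimple.gen K x) (algebraMap (IntermediateField.adjoin K {x}) T)
  rw [IntermediateField.AdjoinSimple.algebraMap_gen, ← e] at this
  rw [← this, coeff_map]
  exact Subtype.property _

theorem s6aux_count {T : Type} (κ n0 M D : ℕ) (s : Bool → Finset T) (m r : Bool → T → ℕ)
    (h : ∀ b, ∑ x ∈ s b, m b x * r b x ≤ D) :
    ∑ J : (Σ b : Bool, Fin κ × Σ x : s b, Fin (m b x)), n0 * r J.1 J.2.2.1 * M ≤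
      2 * D * κ * n0 * M := by
  have key : ∀ b, ∑ J : Fin κ × Σ x : s b, Fin (m b x), n0 * r b J.2.1 * M ≤ D * κ * n0 * M := by
    intro b
    rw [Fintype.sum_prod_type]
    simp only [Fintype.sum_sigma, Finset.sum_const, Finset.card_univ, Fintype.card_fin, smul_eq_mul]
    rw [Finset.sum_coe_sort (s b) fun x => m b x * (n0 * r b x * M)]
    calc κ * ∑ x ∈ s b, m b x * (n0 * r b x * M)
        = (∑ x ∈ s b, m b x * r b x) * κ * n0 * M := by
          simp only [Finset.mul_sum, Finset.sum_mul]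
          exact Finset.sum_congr rfl fun x _ => by ring
      _ ≤ D * κ * n0 * M := by gcongr; exact h b
  rw [Fintype.sum_sigma, Fintype.sum_bool]
  have h1 := key true
  have h2 := key false
  dsimp only
  linarith

theorem s6aux_map {K T ι : Type} [Field K] [Field T] (φ : K →+* T) (A : Finset ι) (F : K[X][X])
    (f : ι → K) (g : ι → K[X][X]) (n : ℕ) (x : T) (r : ℕ) :
    (taylor x ((((Top F)^[n] (∑ i ∈ A, C (C (f i)) * g i)).coeff 0).map φ)).coeff r =
      ∑ i ∈ A, φ (f i) * (taylor x (((Top (F.map (mapRingHom φ)))^[n]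
        ((g i).map (mapRingHom φ))).coeff 0)).coeff r := by
  rw [Top_iter_sum, finsetSum_coeff, Polynomial.map_sum, map_sum, finsetSum_coeff]
  refine Finset.sum_congr rfl fun i _ => ?_
  rw [coeff_C_mul, Polynomial.map_mul, map_C, taylor_mul, taylor_C, coeff_C_mul, ← Top_iter_map,
    coeff_map, coe_mapRingHom]

namespace Dyn
variable {p : ℕ} {k T : Type} [Field k] [Field T] [Algebra k T] {S : Std p k T} (d : Dyn S)

theorem exists_aux : ∃ C0 : ℕ, ∀ j N κ μ : ℕ,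
    4 * 2 ^ j * κ * S.n0 * (μ + C0 * (2 ^ (N - j) + 2 ^ j + (j + 1) * (κ + 2 * 2 ^ j * κ)) + 1) <
      2 ^ N * 2 ^ j * (μ + 1) →
    ∃ f : Fin (2 ^ N) × Fin (2 ^ j) → S.K0, f ≠ 0 ∧ (∀ i, ∀ w ∈ S.fin, S.v w (f i) ≤ 1) ∧
      (∀ i, ∀ w ∉ S.fin, S.v w (f i) ≤ S.q ^ μ) ∧ ∀ b : Bool, ∃ G H : T[X][X],
        ∑ i, C (C (f i : T)) * sp d.a d.c N (2 ^ j) i.1 i.2 (pt b 0) (dir b) =
          G * Fp d.a d.c j (pt b 0) (dir b) + X ^ κ * H := by
  classical
  obtain ⟨C0, hC0⟩ := d.jet_inf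
  refine ⟨C0, fun j N κ μ hc => ?_⟩
  have := S.galois
  set φ := algebraMap S.K0 T with hφ
  set a0 : S.K0 := ⟨d.a, d.a_mem⟩
  set c0 : S.K0 := ⟨d.c, d.c_mem⟩
  have hF : ∀ b, (Fp a0 c0 j (pt b 0) (dir b)).map (mapRingHom φ) =
      Fp d.a d.c j (pt b 0) (dir b) := fun b => by
    rw [map_Fp, map_pt, map_dir, map_zero]; rfl
  have hs : ∀ b l i, (sp a0 c0 N (2 ^ j) l i (pt b 0) (dir b)).map (mapRingHom φ) =
      sp d.a d.c N (2 ^ j) l i (pt b 0) (dir b) := fun b l i => by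
    rw [map_sp, map_pt, map_dir, map_zero]; rfl
  have hf0 : ∀ b, ((Fp a0 c0 j (pt b 0) (dir b)).coeff 0).map φ =
      (Fp d.a d.c j (pt b 0) (dir b)).coeff 0 := fun b => by
    rw [← hF, coeff_map, coe_mapRingHom]
  have hz := fun b => Fp_zero_data S.sqrt d.hypH.two d.hypH.ne b j
  have hne : ∀ b, (Fp a0 c0 j (pt b 0) (dir b)).coeff 0 ≠ 0 := fun b h =>
    (hz b).1 (by rw [← hf0, h, Polynomial.map_zero])
  have hdeg : ∀ b, ((Fp a0 c0 j (pt b 0) (dir b)).coeff 0).natDegree ≤ 2 * 2 ^ j := fun b => by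
    rw [← natDegree_map φ, hf0]; exact (hz b).2.2.1
  choose s m hsum hroot hdvd using fun b =>
    exists_reps (T := T) (hne b) (by rw [hf0]; exact (hz b).2.1)
  have hV : ∀ b, ∀ x ∈ s b, ∃ (e : T) (β : Bool), e ≠ 0 ∧
      (Phi d.a d.c)^[j] (e * (pt b x).1, e * (pt b x).2) = crit β := fun b x hx =>
    (hz b).2.2.2 x (by rw [← hf0, eval_map_algebraMap]; exact (hroot b x hx).1)
  choose e β he hV using hV
  choose ν hν hνe using fun (b : Bool) (x : s b) (n r : ℕ) =>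
    Top_scale d.a d.c (he b x x.2) x b j N (2 ^ j) n r
  obtain ⟨f, hf, h1, h2, h3⟩ := S.siegel (ι := Fin (2 ^ N) × Fin (2 ^ j))
    (J := Σ b : Bool, Fin κ × Σ x : s b, Fin (m b x)) μ
    (C0 * (2 ^ (N - j) + 2 ^ j + (j + 1) * (κ + 2 * 2 ^ j * κ)))
    (fun J => IntermediateField.adjoin S.K0 {(J.2.2.1 : T)})
    (fun J => IntermediateField.adjoin.finiteDimensional (Algebra.IsIntegral.isIntegral _))
    (fun J => ν J.1 J.2.2.1 J.2.1 (m J.1 J.2.2.1 * J.2.1 + J.2.2.2)) (fun J => hν _ _ _ _)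
    (fun J i => (taylor (J.2.2.1 : T) (((Top (Fp d.a d.c j (pt J.1 0) (dir J.1)))^[J.2.1]
      (sp d.a d.c N (2 ^ j) i.1 i.2 (pt J.1 0) (dir J.1))).coeff 0)).coeff
        (m J.1 J.2.2.1 * J.2.1 + J.2.2.2))
    (fun J i => by
      rw [← hF, ← hs, ← Top_iter_map, coeff_map, coe_mapRingHom]
      exact s6aux_mem _ _ _)
    (fun J i w hw => by
      rw [← hνe _ _ _ _ _ _ i.2.2]
      exact d.jet_fin hw (hV _ _ _) _ _ _ _ _ _ _)
    (fun J i w hw => by
      rw [← hνe _ _ _ _ _ _ i.2.2]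
      refine (hC0 w hw j _ _ (hV _ _ _) _ _ _ _ _ _ i.2.2).trans
        (pow_le_pow_right₀ S.one_lt_q.le ?_)
      obtain ⟨b, n, x, r⟩ := J
      have k1 : m b x * (n + 1) ≤ 2 * 2 ^ j * κ :=
        Nat.mul_le_mul ((hroot b x x.2).2.trans (hdeg b)) n.2
      have k2 : (n : ℕ) + (m b x * n + r) ≤ κ + 2 * 2 ^ j * κ := by
        have := r.2
        have := n.2
        rw [mul_add, mul_one] at k1
        omega
      dsimp only
      gcongr)
    (by
      refine lt_of_le_of_lt (s6aux_count κ S.n0 _ (2 * 2 ^ j) s m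
        (fun _ x => Module.finrank S.K0 (IntermediateField.adjoin S.K0 {x}))
        fun b => (hsum b).trans (hdeg b)) ?_
      rw [Fintype.card_prod, Fintype.card_fin, Fintype.card_fin]
      refine lt_of_eq_of_lt ?_ hc
      ring)
  refine ⟨f, hf, h1, h2, fun b => ?_⟩
  obtain ⟨G, H, hGH⟩ := exists_decomp (Fp a0 c0 j (pt b 0) (dir b))
    (∑ i, C (C (f i)) * sp a0 c0 N (2 ^ j) i.1 i.2 (pt b 0) (dir b)) (hne b) κ
    fun n hn hd => hdvd b _ n hd fun x hx r hr hr' => by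
      rw [← hφ, s6aux_map]
      simp only [hF, hs]
      have hlt : r - m b x * n < m b x := by rw [mul_add, mul_one] at hr'; omega
      have := h3 ⟨b, ⟨n, hn⟩, ⟨x, hx⟩, ⟨r - m b x * n, hlt⟩⟩
      dsimp only at this
      rw [Nat.add_sub_cancel' hr] at this
      exact this
  refine ⟨G.map (mapRingHom φ), H.map (mapRingHom φ), ?_⟩
  have := congrArg (Polynomial.map (mapRingHom φ)) hGH
  simp only [Polynomial.map_sum, Polynomial.map_mul, Polynomial.map_add, Polynomial.map_pow, map_X,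
    map_C, coe_mapRingHom, hF, hs] at this
  exact this

end Dyn

end JR
end

-- merged part: Pool.Agent.Work.MP_969914_nt.S6Loc
section
/-! The value of the auxiliary form at a finite place. -/

set_option autoImplicit false

namespace JR

open Polynomial
open scoped NNReal

namespace Dyn
variable {p : ℕ} {k T : Type} [Field k] [Field T] [Algebra k T] {S : Std p k T} (d : Dyn S)

theorem s6loc_chart {w : S.W} (hw : w ∈ S.fin) {j N κ : ℕ} (f : Fin (2 ^ N) × Fin (2 ^ j) → T)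
    (hf : ∀ i, S.v w (f i) ≤ 1) (b : Bool) {G H : T[X][X]}
    (e : ∑ i, C (C (f i)) * sp d.a d.c N (2 ^ j) i.1 i.2 (pt b 0) (dir b) =
      G * Fp d.a d.c j (pt b 0) (dir b) + X ^ κ * H) {u u' x y : T} (hu : S.v w u = 1)
    (hu' : S.v w u' = 1) (hx : S.v w x ≤ 1) (hy : S.v w y ≤ 1) {Z Z' : T × T}
    (eZ : Z = (u * (pt b x).1, u * (pt b x).2)) (eZ' : Z' = (u' * (pt b y).1, u' * (pt b y).2))
    (hF : Fs d.a d.c j Z Z' = 0) :
    S.v w (∑ i, f i * sB d.a d.c N (2 ^ j) i.1 i.2 Z Z') ≤ S.v w (wedge Z Z') ^ κ := by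
  subst eZ eZ'
  have u0 : u ≠ 0 := fun h => by simp [h] at hu
  have u0' : u' ≠ 0 := fun h => by simp [h] at hu'
  have hs := sm_Fp_sp (d.a_int w hw) (d.c_int w hw) (V := pt b 0) (by cases b <;> simp [pt])
    (by cases b <;> simp [pt]) b
  have h1 := val_le_of_decomp (hs.1 j) (Sm.sum _ _ fun i _ => by
      simpa using (Sm.CC (hf i)).mul (hs.2 N (2 ^ j) i.1 i.2))
    (prim_Fp S.sqrt (S.v_two d.hypH.two w) (d.a_int w hw) (d.c_int w hw) (d.d_unit w hw) b j) e hx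
    (h := y - x) (((S.v w).map_sub _ _).trans (max_le hy hx)) (by
      rw [Fs_smul] at hF
      rw [evalEval_Fp, add_sub_cancel]
      simpa [u0, u0'] using hF)
  have h2 : S.v w (wedge (u * (pt b x).1, u * (pt b x).2) (u' * (pt b y).1, u' * (pt b y).2)) =
      S.v w (y - x) := by
    cases b
    · rw [show wedge (u * (pt false x).1, u * (pt false x).2) (u' * (pt false y).1,
        u' * (pt false y).2) = u * u' * -(y - x) by simp [wedge, pt]; ring]
      rw [map_mul, map_mul, hu, hu', Valuation.map_neg, one_mul, one_mul]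
    · rw [show wedge (u * (pt true x).1, u * (pt true x).2) (u' * (pt true y).1,
        u' * (pt true y).2) = u * u' * (y - x) by simp [wedge, pt]; ring]
      rw [map_mul, map_mul, hu, hu', one_mul, one_mul]
  rw [h2]
  refine le_of_eq_of_le ?_ h1
  simp only [fun i : Fin (2 ^ N) × Fin (2 ^ j) => sB_smul d.a d.c N i.2.2 i.1 u u' (pt b x) (pt b y),
    mul_left_comm (f _), ← Finset.mul_sum, evalEval_finsetSum, evalEval_mul, evalEval_CC,
    evalEval_sp, add_sub_cancel, map_mul, map_pow, hu, hu', one_pow, one_mul]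

/-- The order of vanishing at a finite place. -/
theorem local_le {w : S.W} (hw : w ∈ S.fin) {j N κ : ℕ} (f : Fin (2 ^ N) × Fin (2 ^ j) → T)
    (hf : ∀ i, S.v w (f i) ≤ 1) (hG : ∀ b : Bool, ∃ G H : T[X][X],
      ∑ i, C (C (f i)) * sp d.a d.c N (2 ^ j) i.1 i.2 (pt b 0) (dir b) =
        G * Fp d.a d.c j (pt b 0) (dir b) + X ^ κ * H) {Z Z' : T × T}
    (hZ : max (S.v w Z.1) (S.v w Z.2) = 1) (hZ' : max (S.v w Z'.1) (S.v w Z'.2) = 1)
    (hF : Fs d.a d.c j Z Z' = 0) :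
    S.v w (∑ i, f i * sB d.a d.c N (2 ^ j) i.1 i.2 Z Z') ≤ S.v w (wedge Z Z') ^ κ := by
  have a1 : S.v w Z.1 ≤ 1 := hZ ▸ le_max_left _ _
  have a2 : S.v w Z.2 ≤ 1 := hZ ▸ le_max_right _ _
  have b1 : S.v w Z'.1 ≤ 1 := hZ' ▸ le_max_left _ _
  have b2 : S.v w Z'.2 ≤ 1 := hZ' ▸ le_max_right _ _
  have nz : ∀ {t : T}, S.v w t = 1 → t ≠ 0 := fun h h0 => by simp [h0] at h
  by_cases h2 : S.v w Z.2 = 1 ∧ S.v w Z'.2 = 1
  · obtain ⟨G, H, e⟩ := hG false
    exact d.s6loc_chart hw f hf false e h2.1 h2.2 (x := Z.1 / Z.2) (y := Z'.1 / Z'.2)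
      (by simpa [h2.1] using a1) (by simpa [h2.2] using b1)
      (by simp [pt, mul_div_cancel₀ _ (nz h2.1)]) (by simp [pt, mul_div_cancel₀ _ (nz h2.2)]) hF
  by_cases h1 : S.v w Z.1 = 1 ∧ S.v w Z'.1 = 1
  · obtain ⟨G, H, e⟩ := hG true
    exact d.s6loc_chart hw f hf true e h1.1 h1.2 (x := Z.2 / Z.1) (y := Z'.2 / Z'.1)
      (by simpa [h1.1] using a2) (by simpa [h1.2] using b2)
      (by simp [pt, mul_div_cancel₀ _ (nz h1.1)]) (by simp [pt, mul_div_cancel₀ _ (nz h1.2)]) hF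
  have hW : S.v w (wedge Z Z') = 1 := by
    rcases max_eq_iff.1 hZ with ⟨c1, -⟩ | ⟨c1, -⟩ <;> rcases max_eq_iff.1 hZ' with ⟨c2, -⟩ | ⟨c2, -⟩
    · exact absurd ⟨c1, c2⟩ h1
    · have : S.v w (Z.2 * Z'.1) < S.v w (Z.1 * Z'.2) := by
        rw [map_mul, map_mul, c1, c2, one_mul]
        exact mul_lt_one_of_nonneg_of_lt_one_left (zero_le) (a2.lt_of_ne fun h => h2 ⟨h, c2⟩) b1
      rw [wedge, Valuation.map_sub_eq_of_lt_left _ this, map_mul, c1, c2, one_mul]
    · have : S.v w (Z.1 * Z'.2) < S.v w (Z.2 * Z'.1) := by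
        rw [map_mul, map_mul, c1, c2, one_mul]
        exact mul_lt_one_of_nonneg_of_lt_one_left (zero_le) (a1.lt_of_ne fun h => h1 ⟨h, c2⟩) b2
      rw [wedge, Valuation.map_sub_eq_of_lt_right _ this, map_mul, c1, c2, one_mul]
    · exact absurd ⟨c1, c2⟩ h2
  rw [hW, one_pow]
  refine Valuation.map_sum_le _ fun i _ => ?_
  simp only [sB, Bf, map_mul, map_pow, map_prod]
  refine mul_le_one' (hf i) (mul_le_one' (Finset.prod_le_one' fun n _ => ?_)
    (mul_le_one' (pow_le_one' b1 _) (pow_le_one' b2 _)))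
  have := d.norm_iter hw Z n
  rw [hZ, one_pow] at this
  split_ifs
  exacts [this ▸ le_max_right _ _, this ▸ le_max_left _ _]

end Dyn

end JR
end

-- merged part: Pool.Agent.Work.MP_969914_nt.S6E
section
/-! Equidistribution of the contact among the preimages. -/

set_option autoImplicit false

namespace JR

open Polynomial IntermediateField
open scoped NNReal

theorem equi_count (n0 C0 : ℕ) : ∃ n1 C1 : ℕ, ∀ j : ℕ,
    4 * 2 ^ j * 4 ^ j * n0 * (C1 * 2 ^ j + C0 * (2 ^ (5 * j + n1 - j) + 2 ^ j +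
      (j + 1) * (4 ^ j + 2 * 2 ^ j * 4 ^ j)) + 1) < 2 ^ (5 * j + n1) * 2 ^ j * (C1 * 2 ^ j + 1) := by
  refine ⟨8 * n0 + 4, 16 * n0 * C0, fun j => ?_⟩
  have hE : 8 * n0 + 4 < 2 ^ (8 * n0 + 4) := Nat.lt_two_pow_self
  have hD : j + 1 ≤ 2 ^ j := Nat.lt_two_pow_self
  have e1 : 4 ^ j = (2 ^ j) ^ 2 := by rw [sq, ← mul_pow]; rfl
  have e2 : 2 ^ (5 * j + (8 * n0 + 4) - j) = (2 ^ j) ^ 4 * 2 ^ (8 * n0 + 4) := by
    rw [← pow_mul, ← pow_add]
    congr 1
    omega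
  have e3 : 2 ^ (5 * j + (8 * n0 + 4)) = (2 ^ j) ^ 5 * 2 ^ (8 * n0 + 4) := by
    rw [← pow_mul, ← pow_add, mul_comm j]
  rw [e1, e2, e3]
  generalize 2 ^ (8 * n0 + 4) = E at hE ⊢
  generalize 2 ^ j = D at hD ⊢
  have hD1 : 1 ≤ D := by omega
  have hp : ∀ m n, m ≤ n → D ^ m ≤ D ^ n := fun m n h => Nat.pow_le_pow_right hD1 h
  have h1 : D + (j + 1) * (D ^ 2 + 2 * D * D ^ 2) ≤ D ^ 4 * E := by
    have a1 : (j + 1) * (D ^ 2 + 2 * D * D ^ 2) ≤ D ^ 3 + 2 * D ^ 4 :=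
      (Nat.mul_le_mul_right _ hD).trans_eq (by ring)
    have a2 := hp 1 4 (by norm_num)
    have a3 := hp 3 4 (by norm_num)
    have a4 : D ^ 4 * 4 ≤ D ^ 4 * E := Nat.mul_le_mul_left _ (by omega)
    rw [pow_one] at a2
    omega
  have h2 : 4 * n0 * C0 * D ^ 3 * (D + (j + 1) * (D ^ 2 + 2 * D * D ^ 2)) ≤
      4 * n0 * C0 * D ^ 3 * (D ^ 4 * E) := Nat.mul_le_mul_left _ h1
  have h3 : 8 * n0 * C0 * (D ^ 4 * (8 * n0)) ≤ 8 * n0 * C0 * (D ^ 7 * E) :=
    Nat.mul_le_mul_left _ (Nat.mul_le_mul (hp 4 7 (by norm_num)) (by omega))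
  have h4 : D ^ 3 * (4 * n0) < D ^ 6 * E :=
    Nat.mul_lt_mul_of_le_of_lt (hp 3 6 (by norm_num)) (by omega) (by positivity)
  linarith

theorem s6e_sB {T : Type} [Field T] (v : Valuation T ℝ≥0) {a c : T} {N D l i : ℕ} (hi : i < D)
    {Z Z' : T × T} {B : ℝ≥0} (hB : 1 ≤ B)
    (h : ∀ r < N, max (v ((Phi a c)^[r] Z).1) (v ((Phi a c)^[r] Z).2) ≤ B)
    (h' : max (v Z'.1) (v Z'.2) ≤ B) : v (sB a c N D l i Z Z') ≤ B ^ (N + D) := by
  rw [sB, map_mul, map_mul, map_pow, map_pow, pow_add]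
  refine mul_le_mul' ?_ ?_
  · rw [Bf, map_prod]
    refine (Finset.prod_le_pow_card _ _ B fun r hr => ?_).trans_eq (by rw [Finset.card_range])
    have := h r (Finset.mem_range.1 hr)
    split_ifs
    · exact (le_max_right _ _).trans this
    · exact (le_max_left _ _).trans this
  · refine (mul_le_mul' (pow_le_pow_left' ((le_max_left _ _).trans h') _)
      (pow_le_pow_left' ((le_max_right _ _).trans h') _)).trans ?_
    rw [← pow_add]
    exact pow_le_pow_right₀ hB (by omega)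

namespace Dyn
variable {p : ℕ} {k T : Type} [Field k] [Field T] [Algebra k T] {S : Std p k T} (d : Dyn S)

theorem equi : ∃ C : ℕ, ∀ (j m : ℕ) (z z' : T) (Z Z' : T × T), C * (j + 1) ≤ m →
    d.Lift m z Z → d.Lift m z' Z' → Fs d.a d.c j Z Z' = 0 →
    2 ^ (C * (j + 1)) ≤ Module.finrank S.K0 S.K0⟮z⟯ →
    2 ^ j * S.zer (wedge Z Z') ≤ C := by
  obtain ⟨C0, H0⟩ := d.exists_aux
  obtain ⟨n1, C1, H1⟩ := equi_count S.n0 C0
  obtain ⟨C2, H2⟩ := d.lift_bound
  refine ⟨C1 + C2 * (6 + n1) + n1 + 6, fun j m z z' Z Z' hm hZ hZ' hF hz => ?_⟩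
  obtain ⟨f, f0, f1, f2, f3⟩ := H0 j (5 * j + n1) (4 ^ j) (C1 * 2 ^ j) (H1 j)
  have hN : 6 * j + n1 + 2 ≤ (C1 + C2 * (6 + n1) + n1 + 6) * (j + 1) := by
    have : (n1 + 6) * (j + 1) ≤ (C1 + C2 * (6 + n1) + n1 + 6) * (j + 1) :=
      Nat.mul_le_mul_right _ (by omega)
    have : 0 ≤ n1 * j := Nat.zero_le _
    linarith
  have eZ : Z = (Z.2 * ((z, 1) : T × T).1, Z.2 * ((z, 1) : T × T).2) :=
    Prod.ext (hZ.eq.trans (mul_comm _ _)) (mul_one _).symm
  have eZ' : Z' = (Z'.2 * ((z', 1) : T × T).1, Z'.2 * ((z', 1) : T × T).2) :=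
    Prod.ext (hZ'.eq.trans (mul_comm _ _)) (mul_one _).symm
  have hF1 : Fs d.a d.c j (z, 1) (z', 1) = 0 := by
    rw [eZ, eZ', Fs_smul] at hF
    exact (mul_eq_zero.1 hF).resolve_left
      (mul_ne_zero (pow_ne_zero _ hZ.ne) (pow_ne_zero _ hZ'.ne))
  have h0 : ∑ i, (f i : T) * sB d.a d.c (5 * j + n1) (2 ^ j) i.1 i.2 Z Z' ≠ 0 := by
    have h1 := sB_ne_zero (K := S.K0) (T := T) (a := ⟨d.a, d.a_mem⟩) (c := ⟨d.c, d.c_mem⟩)
      ((HypH.map (algebraMap S.K0 T)).1 d.hypH) (fun n hn h => d.col n hn (by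
        have := congrArg (algebraMap S.K0 T) h
        rw [map_zero, wedge, map_sub, map_mul, map_mul] at this
        change wedge (orb (algebraMap S.K0 T ⟨d.a, d.a_mem⟩) (algebraMap S.K0 T ⟨d.c, d.c_mem⟩)
          false n) (orb (algebraMap S.K0 T ⟨d.a, d.a_mem⟩) (algebraMap S.K0 T ⟨d.c, d.c_mem⟩)
          true n) = 0
        rw [map_orb, map_orb]
        exact this)) (j := j) (N := 5 * j + n1) (by omega) f f0 (x := z) (y := z')
      (lt_of_lt_of_le (by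
        rw [← pow_succ', ← pow_add]
        exact Nat.pow_lt_pow_right one_lt_two (by omega)) hz) hF1
    intro h
    apply h1
    have h2 : ∑ i, (f i : T) * sB d.a d.c (5 * j + n1) (2 ^ j) i.1 i.2 Z Z' =
        Z.2 ^ (2 ^ (5 * j + n1) - 1) * Z'.2 ^ (2 ^ j - 1) *
          ∑ i, (f i : T) * sB d.a d.c (5 * j + n1) (2 ^ j) i.1 i.2 (z, 1) (z', 1) := by
      rw [Finset.mul_sum]
      refine Finset.sum_congr rfl fun i _ => ?_
      rw [mul_left_comm, ← sB_smul d.a d.c _ i.2.2, ← eZ, ← eZ']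
    rw [h2] at h
    exact (mul_eq_zero.1 h).resolve_left
      (mul_ne_zero (pow_ne_zero _ hZ.ne) (pow_ne_zero _ hZ'.ne))
  have h1 : ∀ w ∈ S.fin, S.v w (∑ i, (f i : T) * sB d.a d.c (5 * j + n1) (2 ^ j) i.1 i.2 Z Z') ≤
      S.v w (wedge Z Z' ^ 4 ^ j) := fun w hw => by
    rw [map_pow]
    exact d.local_le hw (fun i => (f i : T)) (fun i => f1 i w hw) f3 (hZ.norm hw) (hZ'.norm hw) hF
  have h2 : ∀ w ∈ S.fin, S.v w (wedge Z Z' ^ 4 ^ j) ≤ 1 := fun w hw => by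
    have a1 := hZ.norm hw
    have a2 := hZ'.norm hw
    rw [map_pow]
    refine pow_le_one' ((S.v w).map_sub_le ?_ ?_) _
    · rw [map_mul]
      exact mul_le_one' ((le_max_left _ _).trans a1.le) ((le_max_right _ _).trans a2.le)
    · rw [map_mul]
      exact mul_le_one' ((le_max_right _ _).trans a1.le) ((le_max_left _ _).trans a2.le)
  have h3 : ∀ w ∉ S.fin, S.v w (∑ i, (f i : T) * sB d.a d.c (5 * j + n1) (2 ^ j) i.1 i.2 Z Z') ≤
      S.q ^ (C1 * 2 ^ j + C2 * (5 * j + n1 + 2 ^ j)) := fun w hw => by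
    refine (S.v w).map_sum_le fun i _ => ?_
    rw [map_mul, pow_add S.q, pow_mul S.q C2]
    exact mul_le_mul' (f2 i w hw) (s6e_sB _ i.2.2 (one_le_pow₀ S.one_lt_q.le)
      (fun r hr => H2 m Z hZ.iter r (by omega) w hw) (H2 m Z' hZ'.iter 0 m.zero_le w hw))
  have h4 := (S.zer_mono h0 h1).trans (S.I_fin_inv_le h0 (fun w hw => (h1 w hw).trans (h2 w hw)) h3)
  have h5 : C1 * 2 ^ j + C2 * (5 * j + n1 + 2 ^ j) ≤ 2 ^ j * (C1 + C2 * (6 + n1) + n1 + 6) := by
    have hD : j + 1 ≤ 2 ^ j := Nat.lt_two_pow_self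
    have a1 : n1 ≤ n1 * 2 ^ j := Nat.le_mul_of_pos_right _ (by omega)
    have a2 : C2 * (5 * j + n1 + 2 ^ j) ≤ C2 * ((6 + n1) * 2 ^ j) :=
      Nat.mul_le_mul_left _ (by linarith)
    have a3 : 0 ≤ 2 ^ j * (n1 + 6) := Nat.zero_le _
    linarith
  have h6 := h4.trans (Nat.cast_le.2 h5)
  rw [S.zer_pow, show 4 ^ j = 2 ^ j * 2 ^ j from mul_pow 2 2 j, Nat.cast_mul, Nat.cast_mul,
    mul_assoc, ENNReal.mul_le_mul_iff_right (by positivity) (ENNReal.natCast_ne_top _)] at h6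
  exact_mod_cast h6

end Dyn

end JR
end

-- merged part: Pool.Agent.Work.MP_969914_nt.S6Ram
section
/-! The mass of the places which ramify at a given step. -/

set_option autoImplicit false

namespace JR

open Polynomial IntermediateField
open scoped NNReal ENNReal

namespace Dyn
variable {p : ℕ} {k T : Type} [Field k] [Field T] [Algebra k T] {S : Std p k T} {d : Dyn S}
  {b : ℕ → T}

open Classical in
theorem s6ram_A (hb : d.Br b) (r j : ℕ) : ∃ A : Finset T,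
    A.card ≤ 2 ^ ((Finset.Ico r (r + j)).filter fun i => d.GoodStep (b i)).card ∧
    (∀ σ : T ≃ₐ[S.K0] T, σ (b r) = -b r → σ (b (r + j)) ∈ A) ∧
    ∀ y ∈ A, ∃ σ : T ≃ₐ[S.K0] T, σ (b r) = -b r ∧ σ (b (r + j)) = y := by
  by_cases h : ∃ σ : T ≃ₐ[S.K0] T, σ (b r) = -b r
  · obtain ⟨σ₀, h0⟩ := h
    obtain ⟨A, hc, hA⟩ := hb.exists_conj r j
    refine ⟨(A.image σ₀).filter fun y => ∃ σ : T ≃ₐ[S.K0] T, σ (b r) = -b r ∧ σ (b (r + j)) = y,
      ((Finset.card_filter_le _ _).trans Finset.card_image_le).trans hc, fun σ hσ => ?_,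
      fun y hy => (Finset.mem_filter.1 hy).2⟩
    refine Finset.mem_filter.2 ⟨Finset.mem_image.2 ⟨_, hA (σ.trans σ₀.symm) ?_, by simp⟩,
      σ, hσ, rfl⟩
    rw [AlgEquiv.trans_apply, hσ, ← h0, AlgEquiv.symm_apply_apply]
  · exact ⟨∅, by simp, fun σ hσ => (h ⟨σ, hσ⟩).elim, by simp⟩

theorem s6ram_iter (d : Dyn S) (σ : T ≃ₐ[S.K0] T) (j : ℕ) (z : T) :
    σ ((JR.phi d.a d.c)^[j] z) = (JR.phi d.a d.c)^[j] (σ z) := by
  induction j with
  | zero => rfl
  | succ j ih => rw [Function.iterate_succ_apply', Function.iterate_succ_apply', d.aut_phi, ih]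

theorem s6ram_pair (hb : d.Br b) {r j : ℕ} {σ : T ≃ₐ[S.K0] T} (hσ : σ (b r) = -b r)
    {Z Y : T × T} (hZ : d.Lift (r + 1 + j) (b (r + j)) Z)
    (hY : d.Lift (r + 1 + j) (σ (b (r + j))) Y) :
    Fs d.a d.c j Z Y = 0 ∧ wedge Z Y ≠ 0 := by
  have e : (JR.phi d.a d.c)^[j] (σ (b (r + j))) = -b r := by
    rw [← s6ram_iter, hb.iter, hσ]
  constructor
  · have h1 := hZ.iterate.eq
    have h2 := hY.iterate.eq
    rw [hb.iter] at h1
    rw [e] at h2
    rw [Fs, h1, h2]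
    ring
  · intro h
    have h3 : Z.2 * Y.2 * (b (r + j) - σ (b (r + j))) = 0 := by
      rw [← h, wedge, hZ.eq, hY.eq]
      ring
    have h4 := sub_eq_zero.1 ((mul_eq_zero.1 h3).resolve_left (mul_ne_zero hZ.ne hY.ne))
    rw [← h4, hb.iter] at e
    exact rdyn_neg d.hypH.two (d.ne_zero_of_mem_V (hb.mem r)) e

theorem s6ram_mass (S : Std p k T) {E : Set S.W} (hE : E ⊆ S.fin) (A : Finset T) (g : T → T)
    (h0 : ∀ z ∈ A, g z ≠ 0) (h : ∀ w ∈ E, ∏ z ∈ A, S.v w (g z) ^ 2 ≤ S.q⁻¹) :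
    S.toPF.mass E ≤ ∑ z ∈ A, 2 * S.zer (g z) := by
  have h1 := S.toPF.mass_le_I (E := E) (m := 1)
    (f := fun w => ∏ z ∈ A, Set.mulIndicator S.fin (fun w => (S.v w (g z))⁻¹) w ^ 2)
    (fun w hw => by
      have hp : 0 < ∏ z ∈ A, S.v w (g z) ^ 2 :=
        Finset.prod_pos fun z hz => pow_pos ((Valuation.pos_iff _).2 (h0 z hz)) 2
      have h2 := (le_inv_comm₀ hp S.rtop_q_pos).1 (h w hw)
      rw [pow_one]
      refine h2.trans (le_of_eq ?_)
      rw [← Finset.prod_inv_distrib]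
      refine Finset.prod_congr rfl fun z _ => ?_
      rw [Set.mulIndicator_of_mem (hE hw), inv_pow])
  rw [Nat.cast_one, one_mul] at h1
  refine h1.trans ((S.toPF.I_prod_le A fun z w =>
    Set.mulIndicator S.fin (fun w => (S.v w (g z))⁻¹) w ^ 2).trans (le_of_eq ?_))
  refine Finset.sum_congr rfl fun z _ => ?_
  rw [S.toPF.I_pow_eq]
  rfl

open Classical in
theorem ram_decay (d : Dyn S) : ∃ C : ℕ, ∀ b : ℕ → T, d.Br b → ∀ r j : ℕ,
    C * (j + 1) ≤ ((Finset.range (r + 1)).filter fun i => d.GoodStep (b i)).card →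
    2 ^ j * S.ram (b r) (b (r + 1)) ≤
      C * 2 ^ ((Finset.Ico (r + 1) (r + 1 + j)).filter fun i => d.GoodStep (b i)).card := by
  obtain ⟨C, hC⟩ := d.equi
  refine ⟨2 * C, fun b hb r j hc => ?_⟩
  obtain ⟨A, hA1, hA2, hA3⟩ := s6ram_A hb (r + 1) j
  have hm : b (r + 1 + j) ∈ d.V (r + 2 + j) := by
    have := hb.mem (r + 1 + j)
    rwa [show r + 1 + j + 1 = r + 2 + j by ring] at this
  obtain ⟨Z, hZ⟩ := exists_lift hm
  have hY : ∀ z, ∃ Y, z ∈ A → d.Lift (r + 2 + j) z Y := fun z => by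
    by_cases hz : z ∈ A
    · obtain ⟨σ, -, rfl⟩ := hA3 z hz
      obtain ⟨Y, hY⟩ := exists_lift (d.aut_mem_V σ hm)
      exact ⟨Y, fun _ => hY⟩
    · exact ⟨0, fun h => (hz h).elim⟩
  choose Y hY using hY
  have hp : ∀ z ∈ A, Fs d.a d.c j Z (Y z) = 0 ∧ wedge Z (Y z) ≠ 0 := fun z hz => by
    obtain ⟨σ, h1, h2⟩ := hA3 z hz
    exact s6ram_pair hb h1 hZ (by rw [h2]; exact hY z hz)
  have h1 : S.ram (b r) (b (r + 1)) ≤ ∑ z ∈ A, 2 * S.zer (wedge Z (Y z)) :=
    s6ram_mass S (fun w hw => S.good_fin hw.1) A (fun z => wedge Z (Y z)) (fun z hz => (hp z hz).2)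
      fun w hw => hb.contact hw.1 hw.2.1 hw.2.2 A hA2 hZ hY
  have hc' : C * (j + 1) ≤ ((Finset.range (r + 1)).filter fun i => d.GoodStep (b i)).card :=
    le_trans (Nat.mul_le_mul_right _ (by omega)) hc
  have h2 : C * (j + 1) ≤ r + 2 + j := by
    have := hc'.trans (Finset.card_filter_le _ _)
    rw [Finset.card_range] at this
    omega
  have h3 : 2 ^ (C * (j + 1)) ≤ Module.finrank S.K0 S.K0⟮b (r + 1 + j)⟯ :=
    le_trans (Nat.pow_le_pow_right two_pos (hc'.trans (Finset.card_le_card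
      (Finset.filter_subset_filter _ (Finset.range_subset_range.2 (by omega))))))
      (hb.le_finrank (r + 1 + j))
  have h4 : ∀ z ∈ A, 2 ^ j * (2 * S.zer (wedge Z (Y z))) ≤ 2 * (C : ℝ≥0∞) := fun z hz => by
    rw [mul_left_comm]
    exact mul_le_mul_right (hC j _ _ _ _ _ h2 hZ (hY z hz) (hp z hz).1 h3) 2
  calc 2 ^ j * S.ram (b r) (b (r + 1)) ≤ 2 ^ j * ∑ z ∈ A, 2 * S.zer (wedge Z (Y z)) :=
        mul_le_mul_right h1 _
    _ = ∑ z ∈ A, 2 ^ j * (2 * S.zer (wedge Z (Y z))) := Finset.mul_sum _ _ _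
    _ ≤ A.card • (2 * (C : ℝ≥0∞)) := Finset.sum_le_card_nsmul _ _ _ h4
    _ ≤ _ := by
      rw [nsmul_eq_mul, mul_comm, Nat.cast_mul, Nat.cast_two]
      refine mul_le_mul_right ?_ _
      exact_mod_cast hA1

theorem ram_le (d : Dyn S) : ∃ C : ℕ, ∀ b : ℕ → T, d.Br b → ∀ r, S.ram (b r) (b (r + 1)) ≤ C := by
  obtain ⟨C, hC⟩ := d.exists_ht_V
  obtain ⟨m, hm⟩ := ENNReal.exists_nat_gt (S.ht_lt d.a).ne
  obtain ⟨n, hn⟩ := ENNReal.exists_nat_gt (S.ht_lt d.c).ne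
  refine ⟨2 * (C + (n + C + m)), fun b hb r => ?_⟩
  obtain ⟨e, h0⟩ := hb.sq r
  have hd : dl d.a d.c (b r) ≠ 0 := mul_ne_zero (d.dl_ne_zero (hb.mem r)).1 h0
  refine (S.toPF.mass_mono ?_).trans ((S.mass_ne_one_le hd).trans ?_)
  · rintro w ⟨hw, h1, h2⟩
    have h3 : d.c * b r - d.a ∈ S.R w :=
      sub_mem (mul_mem (S.K0_le w hw _ d.c_mem) h1) (S.K0_le w hw _ d.a_mem)
    have h4 : dl d.a d.c (b r) ∈ S.R w := mul_mem (sub_mem (one_mem _) h1) h3
    refine ⟨hw, h4, fun h5 => h2 ?_⟩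
    rw [← e] at h4 h5
    rw [map_pow, pow_eq_one_iff_of_nonneg zero_le two_ne_zero] at h5
    have h6 := div_mem (S.R_sqrt w hw _ h4 h5) h3
    rwa [mul_div_cancel_right₀ _ h0] at h6
  · have h1 : S.toPF.ht (1 - b r) ≤ C := by
      have h2 := S.toPF.ht_add_le ((1 : ℕ) : T) (-b r)
      rw [S.toPF.ht_natCast, S.toPF.ht_neg, zero_add, Nat.cast_one, ← sub_eq_add_neg] at h2
      exact h2.trans (hC _ _ (hb.mem r))
    have h2 : S.toPF.ht (d.c * b r - d.a) ≤ n + C + m := by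
      have h3 := S.toPF.ht_add_le (d.c * b r) (-d.a)
      rw [S.toPF.ht_neg, ← sub_eq_add_neg] at h3
      exact h3.trans (add_le_add ((S.toPF.ht_mul_le _ _).trans
        (add_le_add hn.le (hC _ _ (hb.mem r)))) hm.le)
    push_cast
    exact mul_le_mul_right ((S.toPF.ht_mul_le _ _).trans (add_le_add h1 h2)) 2

theorem Br.ram_bad (hb : d.Br b) {r : ℕ} (h : ¬ d.GoodStep (b r)) :
    S.ram (b r) (b (r + 1)) = 0 := by
  rw [hb.good_iff, not_not] at h
  refine le_antisymm ((S.toPF.mass_mono ?_).trans S.toPF.mass_empty.le) bot_le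
  rintro w ⟨hw, h1, h2⟩
  have h3 : S.K0⟮b r⟯ ≤ (S.R w).toIntermediateField fun x => S.K0_le w hw _ x.2 :=
    adjoin_le_iff.2 (Set.singleton_subset_iff.2 h1)
  exact h2 (h3 h)

theorem irr_le (d : Dyn S) : ∃ C : ℕ, ∀ b : ℕ → T, d.Br b → ∀ n,
    S.irr (b n) ≤ C + ∑ r ∈ Finset.range n, S.ram (b r) (b (r + 1)) := by
  obtain ⟨C, hC⟩ := d.exists_mass_irr
  refine ⟨C * 2, fun b hb n => ?_⟩
  induction n with
  | zero =>
    have h := hC _ _ (hb.mem 0)
    rw [Finset.sum_range_zero, add_zero]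
    refine le_trans h (le_of_eq ?_)
    push_cast
    ring
  | succ n ih =>
    rw [Finset.sum_range_succ, ← add_assoc]
    refine le_trans ((S.toPF.mass_mono ?_).trans (S.toPF.mass_union_le
      {w | ¬ (w ∈ S.good ∧ b n ∈ S.R w)} {w | w ∈ S.good ∧ b n ∈ S.R w ∧ b (n + 1) ∉ S.R w}))
      (add_le_add ih le_rfl)
    intro w hw
    by_cases h : w ∈ S.good ∧ b n ∈ S.R w
    · exact Or.inr ⟨h.1, h.2, fun h' => hw ⟨h.1, h'⟩⟩
    · exact Or.inl h

theorem Br.irr_mono (hb : d.Br b) {m n : ℕ} (h : m ≤ n) : S.irr (b m) ≤ S.irr (b n) := by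
  obtain ⟨j, rfl⟩ := Nat.exists_eq_add_of_le h
  exact S.toPF.mass_mono fun w hw h' => hw ⟨h'.1, hb.mem_of_succ _ (S.K0_le w h'.1) h'.2⟩

end Dyn

end JR
end

-- merged part: Pool.Agent.Work.MP_969914_nt.S6Gap
section
/-! A run of good steps which is followed by a bad step is short. -/

set_option autoImplicit false

namespace JR

open Polynomial IntermediateField
open scoped NNReal ENNReal

namespace Dyn
variable {p : ℕ} {k T : Type} [Field k] [Field T] [Algebra k T] {S : Std p k T} {d : Dyn S}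
  {b : ℕ → T}

theorem s6gap_iter (σ : T ≃ₐ[S.K0] T) (i : ℕ) (z : T) :
    σ ((JR.phi d.a d.c)^[i] z) = (JR.phi d.a d.c)^[i] (σ z) := by
  induction i generalizing z with
  | zero => rfl
  | succ i ih => rw [Function.iterate_succ_apply, Function.iterate_succ_apply, ih, d.aut_phi]

theorem s6gap_dl (σ : T ≃ₐ[S.K0] T) (z : T) : σ (dl d.a d.c z) = dl d.a d.c (σ z) := by
  have hf : ∀ x ∈ S.K0, σ x = x := fun x hx => σ.commutes ⟨x, hx⟩
  simp only [dl, map_mul, map_sub, map_one, hf _ d.a_mem, hf _ d.c_mem]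

theorem s6gap_aeval (σ : T ≃ₐ[S.K0] T) (z : T) (g : S.K0[X]) :
    σ (aeval z g) = aeval (σ z) g :=
  (aeval_algHom_apply (σ : T →ₐ[S.K0] T) z g).symm

theorem Br.exists_sq (hb : d.Br b) {m i : ℕ} (h : ∀ r < i, d.GoodStep (b (m + r)))
    (hn : ¬ d.GoodStep (b (m + i))) (L : Subfield T) (hL : ∀ z ∈ S.K0, z ∈ L) (hm : b m ∈ L) :
    ∃ u ∈ L, u ^ 2 = (-1) ^ 2 ^ i * (wedge (orb d.a d.c false (i + 1)) (b m, 1) *
      wedge (orb d.a d.c true (i + 1)) (b m, 1)) := by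
  classical
  have := S.galois
  obtain ⟨A, hA⟩ : ∃ A : Finset T, ∀ z, z ∈ A ↔ z ∈ d.V (m + 1 + i) ∧
      (JR.phi d.a d.c)^[i] z = b m :=
    ⟨(d.V_finite (m + 1 + i)).toFinset.filter fun z => (JR.phi d.a d.c)^[i] z = b m, by simp⟩
  obtain ⟨h1, -⟩ := d.prod_dl (hb.mem m) i A hA
  simp only [GoodStep, not_forall, not_not] at hn
  obtain ⟨u0, hu, hu0⟩ := hn
  have halg : IsIntegral S.K0 (b (m + i)) := Algebra.IsIntegral.isIntegral _
  rw [← IntermediateField.mem_toSubalgebra, adjoin_simple_toSubalgebra_of_isAlgebraic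
    halg.isAlgebraic, Algebra.adjoin_singleton_eq_range_aeval] at hu0
  obtain ⟨g, hg⟩ := hu0
  have hg' : aeval (b (m + i)) g = u0 := hg
  have h2 : ∀ z ∈ A, dl d.a d.c z = aeval z g ^ 2 := by
    intro z hz
    obtain ⟨σ, hσ⟩ := hb.trans m i h ((hA z).1 hz).1 ((hA z).1 hz).2
    rw [← hσ, ← s6gap_dl, ← hu, ← hg', map_pow, s6gap_aeval]
  have h3 : ∏ z ∈ A, aeval z g ∈ L := by
    refine S.mem_of_fixed L hL fun σ hσ => ?_
    have key : ∀ τ : T ≃ₐ[S.K0] T, τ (b m) = b m → ∀ z ∈ A, τ z ∈ A := fun τ hτ z hz =>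
      (hA _).2 ⟨d.aut_mem_V τ ((hA z).1 hz).1, by rw [← s6gap_iter, ((hA z).1 hz).2, hτ]⟩
    rw [map_prod]
    refine Finset.prod_bijective σ σ.bijective (fun z => ⟨key σ (hσ _ hm) z, fun hz => ?_⟩)
      fun z _ => s6gap_aeval σ z g
    have := key σ.symm (by rw [AlgEquiv.symm_apply_eq, hσ _ hm]) _ hz
    rwa [AlgEquiv.symm_apply_apply] at this
  refine ⟨(∏ z ∈ A, aeval z g) * wedge (orb d.a d.c true i) (b m, 1), mul_mem h3 ?_, ?_⟩
  · obtain ⟨h4, h5⟩ := d.orb_mem true i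
    exact sub_mem (mul_mem (hL _ h4) (one_mem _)) (mul_mem (hL _ h5) hm)
  · rw [← h1, mul_pow, ← Finset.prod_pow, Finset.prod_congr rfl h2]

theorem s6gap_sub (hb : d.Br b) {m i : ℕ} (h : ∀ r < i, d.GoodStep (b (m + r)))
    (hn : ¬ d.GoodStep (b (m + i))) :
    S.toPF.mass (d.GoodSet (i + 1) {b m}) ≤ S.irr (b m) := by
  refine S.toPF.mass_mono fun w hw hw' => ?_
  obtain ⟨u, hu, e⟩ := hb.exists_sq h hn (S.R w) (S.K0_le w hw'.1) hw'.2
  have hq := S.one_lt_q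
  have hq0 : 0 < S.q := zero_lt_one.trans hq
  have h1 : S.v w u ^ 2 = S.q⁻¹ := by
    have h2 := congrArg (S.v w) e
    rw [map_pow, map_mul, map_mul, map_pow, Valuation.map_neg, map_one, one_pow, one_mul] at h2
    obtain ⟨-, -, h3 | h3⟩ := hw <;> simp only [con, Finset.prod_singleton] at h3 <;>
      rw [h2, h3.1, h3.2]
    exacts [mul_one _, one_mul _]
  have hu0 : u ≠ 0 := by
    rintro rfl
    rw [map_zero, zero_pow two_ne_zero] at h1
    exact inv_ne_zero hq0.ne' h1.symm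
  obtain ⟨n, hn⟩ := S.vgroup w hw'.1 u hu hu0
  rw [hn, ← zpow_natCast, ← zpow_mul, ← zpow_neg_one] at h1
  have := zpow_right_injective₀ hq0 hq.ne' h1
  omega

theorem s6gap_num {C : ℕ} {ε : ℝ≥0} (h : 1 ≤ C * ε) {i : ℕ} {x : ℝ≥0∞}
    (hx : (ε : ℝ≥0∞) * 2 ^ (i + 1) ≤ x) : 2 ^ i ≤ C * (x + 1) := by
  have h1 : (1 : ℝ≥0∞) ≤ C * ε := by exact_mod_cast h
  calc (2 : ℝ≥0∞) ^ i ≤ 1 * 2 ^ (i + 1) := by
        rw [one_mul]; exact pow_le_pow_right₀ one_le_two (Nat.le_succ i)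
    _ ≤ C * ε * 2 ^ (i + 1) := by gcongr
    _ ≤ C * (x + 1) := by
        rw [mul_assoc]
        exact mul_le_mul_right (hx.trans le_self_add) _

theorem gap (d : Dyn S) (hsd : d.LowerBd d.GoodSet) : ∃ C : ℕ, ∀ b : ℕ → T, d.Br b → ∀ m i : ℕ,
    (∀ r < i, d.GoodStep (b (m + r))) → ¬ d.GoodStep (b (m + i)) →
    2 ^ i ≤ C * (S.irr (b m) + 1) := by
  obtain ⟨ε, hε, H⟩ := hsd
  obtain ⟨n1, ε1, hε1, H1⟩ := H 1
  obtain ⟨C1, hC1⟩ := exists_nat_ge (ε⁻¹ + ε1⁻¹)
  have hC : ∀ e : ℝ≥0, 0 < e → e⁻¹ ≤ ε⁻¹ + ε1⁻¹ → 1 ≤ ((2 ^ n1 + C1 : ℕ) : ℝ≥0) * e := by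
    intro e he h
    rw [← inv_le_iff_one_le_mul₀ he]
    exact (h.trans hC1).trans (Nat.cast_le.2 (Nat.le_add_left _ _))
  refine ⟨2 ^ n1 + C1, fun b hb m i h hn => ?_⟩
  rcases lt_or_ge (i + 1) n1 with h1 | h1
  · have h2 : 2 ^ i ≤ 2 ^ n1 + C1 :=
      (Nat.pow_le_pow_right two_pos (by omega)).trans (Nat.le_add_right _ _)
    calc (2 : ℝ≥0∞) ^ i ≤ ((2 ^ n1 + C1 : ℕ) : ℝ≥0∞) * 1 := by
          rw [mul_one]; exact_mod_cast h2
      _ ≤ _ := mul_le_mul_right le_add_self _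
  by_cases h2 : S.toPF.mass {w | b m ∉ S.R w} ≤ ε1 * 2 ^ (i + 1)
  · have h3 := H1 (i + 1) h1 {b m} (by simp)
      (fun s hs => ⟨m + 1, by omega, Finset.mem_singleton.1 hs ▸ hb.mem m⟩)
      (fun s hs => Finset.mem_singleton.1 hs ▸ h2)
    rw [Finset.card_singleton, Nat.cast_one, mul_one] at h3
    exact s6gap_num (hC ε hε le_self_add) (h3.trans (s6gap_sub hb h hn))
  · refine s6gap_num (hC ε1 hε1 le_add_self) ((not_le.1 h2).le.trans ?_)
    exact S.toPF.mass_mono fun w hw hw' => hw hw'.2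

end Dyn

end JR
end

-- merged part: Pool.Agent.Work.MP_969914_nt.S6Book
section
/-! Bookkeeping of the ramified masses along a branch. -/

set_option autoImplicit false

namespace JR

open Finset

lemma s6book_geo {G : ℕ} (hG : 0 < G) (N : ℕ) : ∑ i ∈ range N, (1 / 2 : ℝ) ^ (i / G) ≤ 2 * G := by
  have key : ∀ q : ℕ, ∑ i ∈ range (G * q), (1 / 2 : ℝ) ^ (i / G) = 2 * G * (1 - (1 / 2) ^ q) := by
    intro q
    induction q with
    | zero => simp
    | succ q ih =>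
      rw [mul_add_one, sum_range_add, ih, sum_congr rfl (g := fun _ => (1 / 2 : ℝ) ^ q)
        fun i hi => by rw [Nat.mul_add_div hG, Nat.div_eq_of_lt (mem_range.1 hi), add_zero],
        sum_const, card_range, nsmul_eq_mul]
      ring
  refine (sum_le_sum_of_subset_of_nonneg (range_mono (Nat.le_mul_of_pos_left N hG))
    fun _ _ _ => by positivity).trans ?_
  rw [key]
  have : (0 : ℝ) ≤ (1 / 2) ^ N := by positivity
  have : (0 : ℝ) ≤ G := by positivity
  nlinarith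

lemma s6book_sum (good : ℕ → Prop) [DecidablePred good] (f : ℕ → ℝ) (n : ℕ) :
    ∑ m ∈ range n, (if good m then f ((range (m + 1)).filter good).card else 0) =
      ∑ i ∈ range ((range n).filter good).card, f (i + 1) := by
  induction n with
  | zero => simp
  | succ n ih =>
    rw [sum_range_succ, ih, range_add_one, filter_insert]
    split_ifs
    · rw [card_insert_of_notMem (by simp), sum_range_succ]
    · simp

lemma s6book_sq (G : ℕ) : G ^ 2 ≤ 2 ^ (G + 1) := by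
  induction G with
  | zero => simp
  | succ G ih =>
    have := Nat.lt_two_pow_self (n := G)
    rw [pow_succ 2 (G + 1), pow_succ 2 G] at *
    nlinarith

lemma s6book_count {good : ℕ → Prop} [DecidablePred good] {G N : ℕ}
    (hG : ∀ m, m + G ≤ N → ∃ r < G, ¬ good (m + r)) (m q : ℕ) (h : m + G * q ≤ N) :
    ((Ico m (m + G * q)).filter good).card + q ≤ G * q := by
  induction q with
  | zero => simp
  | succ q ih =>
    rw [mul_add_one] at h ⊢
    obtain ⟨r, hr, hbad⟩ := hG (m + G * q) (by omega)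
    have k1 := ih (by omega)
    have k2 : ((Ico (m + G * q) (m + (G * q + G))).filter good).card <
        (Ico (m + G * q) (m + (G * q + G))).card :=
      card_lt_card (filter_ssubset.2 ⟨_, mem_Ico.2 ⟨by omega, by omega⟩, hbad⟩)
    rw [Nat.card_Ico] at k2
    rw [← Ico_union_Ico_eq_Ico (b := m + G * q) (by omega) (by omega), filter_union]
    have k3 := card_union_le ((Ico m (m + G * q)).filter good)
      ((Ico (m + G * q) (m + (G * q + G))).filter good)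
    omega

theorem book6 (C : ℕ) : ∃ M : ℝ, ∀ (good : ℕ → Prop) [DecidablePred good] (δ d : ℕ → ℝ),
    (∀ n, δ n ≤ C + ∑ r ∈ range n, d r) → (∀ r, d r ≤ C) → (∀ r, ¬ good r → d r ≤ 0) →
    (∀ r j, C * (j + 1) ≤ ((range (r + 1)).filter good).card →
      2 ^ j * d r ≤ C * 2 ^ ((Ico (r + 1) (r + 1 + j)).filter good).card) →
    (∀ m i, (∀ r < i, good (m + r)) → ¬ good (m + i) → (2 : ℝ) ^ i ≤ C * (δ m + 1)) →
    ∀ n, ¬ good n → δ n ≤ M := by
  classical
  refine ⟨C + C * (2 + 4 * C) * (4 * C * (C + 1 + C * (2 + 4 * C))),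
    fun good _ δ d h1 h2 h3 h4 h5 n hn => ?_⟩
  have hC : 0 < C := by
    rcases C with _ | C
    · have := h5 n 0 (by simp) hn
      norm_num at this
    · omega
  have hC1 : (1 : ℝ) ≤ C := by exact_mod_cast hC
  have hex : ∃ G, ∀ m, m + G ≤ n + 1 → ∃ r < G, ¬ good (m + r) := ⟨n + 2, fun m hm => by omega⟩
  obtain ⟨G, hG, hG'⟩ : ∃ G, (∀ m, m + G ≤ n + 1 → ∃ r < G, ¬ good (m + r)) ∧
      ∀ G' < G, ¬ ∀ m, m + G' ≤ n + 1 → ∃ r < G', ¬ good (m + r) :=
    ⟨Nat.find hex, Nat.find_spec hex, fun _ h => Nat.find_min hex h⟩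
  have hG0 : 0 < G := by
    rcases G with _ | G
    · obtain ⟨r, hr, -⟩ := hG 0 (by omega)
      omega
    · omega
  have hq : ∀ r q, G * q ≤ ((range (r + 1)).filter good).card / C - 1 →
      r + 1 + G * q ≤ n + 1 → d r ≤ C * (1 / 2) ^ q := by
    intro r q k1 k2
    rcases q with _ | q
    · simpa using h2 r
    have k3 : 0 < G * (q + 1) := Nat.mul_pos hG0 (Nat.succ_pos _)
    have k4 := h4 r (G * (q + 1)) ((Nat.mul_le_mul_left C (by omega)).trans (Nat.mul_div_le _ C))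
    have k5 := s6book_count hG (r + 1) (q + 1) k2
    have k6 : (2 : ℝ) ^ (((Ico (r + 1) (r + 1 + G * (q + 1))).filter good).card + (q + 1)) ≤
        2 ^ (G * (q + 1)) := pow_le_pow_right₀ one_le_two k5
    rw [one_div_pow, mul_one_div, le_div_iff₀ (by positivity)]
    refine le_of_mul_le_mul_left ?_ (by positivity : (0 : ℝ) < 2 ^ (G * (q + 1)))
    rw [← mul_assoc]
    refine (mul_le_mul_of_nonneg_right k4 (by positivity)).trans ?_
    rw [mul_assoc, ← pow_add, mul_comm]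
    exact mul_le_mul_of_nonneg_right k6 (by positivity)
  have hA : ∀ k ≤ n, δ k ≤ C + C * (2 + 4 * C) * G := by
    intro k hk
    refine (h1 k).trans (add_le_add le_rfl ?_)
    have k1 : ∀ m ∈ range k, d m ≤ C * ((1 / 2) ^ ((k - 1 - m) / G) +
        (if good m then (1 / 2 : ℝ) ^ ((((range (m + 1)).filter good).card / C - 1) / G)
          else 0)) := by
      intro m hm
      have hm' := mem_range.1 hm
      split_ifs with hg
      · have k2 := hq m
        generalize ((range (m + 1)).filter good).card / C - 1 = J at *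
        have k3 := Nat.mul_div_le (min (k - 1 - m) J) G
        refine (k2 _ (k3.trans (min_le_right _ _)) (by omega)).trans
          (mul_le_mul_of_nonneg_left ?_ (by positivity))
        have k6 : (0 : ℝ) ≤ (1 / 2) ^ (J / G) := by positivity
        have k7 : (0 : ℝ) ≤ (1 / 2) ^ ((k - 1 - m) / G) := by positivity
        rcases min_choice (k - 1 - m) J with h | h <;> rw [h] <;> linarith
      · exact (h3 m hg).trans (by positivity)
    refine (sum_le_sum k1).trans ?_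
    rw [← mul_sum, sum_add_distrib, sum_range_reflect (fun i => (1 / 2 : ℝ) ^ (i / G)),
      s6book_sum good fun i => (1 / 2 : ℝ) ^ ((i / C - 1) / G), mul_assoc]
    refine mul_le_mul_of_nonneg_left ?_ (by positivity)
    have k2 := s6book_geo hG0 k
    have k3 := s6book_geo (Nat.mul_pos hC hG0) ((range k).filter good).card
    have k4 : ∑ i ∈ range ((range k).filter good).card, (1 / 2 : ℝ) ^ (((i + 1) / C - 1) / G) ≤
        ∑ i ∈ range ((range k).filter good).card, 2 * (1 / 2 : ℝ) ^ (i / (C * G)) := by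
      refine sum_le_sum fun i _ => ?_
      have k5 : i / (C * G) ≤ ((i + 1) / C - 1) / G + 1 := by
        rw [← Nat.div_div_eq_div_mul, ← Nat.add_div_right _ hG0]
        have := Nat.div_le_div_right (c := C) (Nat.le_succ i)
        exact Nat.div_le_div_right (by rw [Nat.succ_eq_add_one] at this; omega)
      have k6 := pow_le_pow_of_le_one (by norm_num : (0 : ℝ) ≤ 1 / 2) (by norm_num) k5
      rw [pow_succ] at k6
      linarith
    rw [← mul_sum] at k4
    push_cast at k3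
    linarith
  have hB0 : (0 : ℝ) ≤ C * (2 + 4 * C) := by positivity
  generalize (C : ℝ) * (2 + 4 * C) = B at *
  have hB : (G : ℝ) ≤ 4 * C * (C + 1 + B) := by
    obtain ⟨G, rfl⟩ : ∃ G', G = G' + 1 := ⟨G - 1, by omega⟩
    have k1 := hG' G (by omega)
    push Not at k1
    obtain ⟨m, hm, hgood⟩ := k1
    rcases G with _ | G
    · push_cast
      nlinarith
    have hmn : m + G < n := by
      have := hgood G (by omega)
      rcases (show m + G ≤ n by omega).lt_or_eq with h | h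
      · exact h
      · exact absurd (h ▸ this) hn
    have hex2 : ∃ i, ¬ good (m + i) := ⟨n - m, by rwa [Nat.add_sub_cancel' (by omega)]⟩
    have k2 := h5 m (Nat.find hex2) (fun r hr => not_not.1 (Nat.find_min hex2 hr))
      (Nat.find_spec hex2)
    have k3 : G + 1 ≤ Nat.find hex2 := by
      by_contra h
      exact Nat.find_spec hex2 (hgood _ (by omega))
    have k4 : (2 : ℝ) ^ (G + 1) ≤ 2 ^ Nat.find hex2 := pow_le_pow_right₀ (by norm_num) k3
    have k5 := hA m (by omega)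
    have k6 : ((G + 1 + 1 : ℕ) : ℝ) ^ 2 ≤ 2 ^ (G + 1) * 4 := by
      have := s6book_sq (G + 1 + 1)
      rw [pow_succ 2 (G + 1 + 1), pow_succ 2 (G + 1), mul_assoc] at this
      exact_mod_cast this
    have k8 : (1 : ℝ) ≤ ((G + 1 + 1 : ℕ) : ℝ) := by exact_mod_cast Nat.succ_pos _
    generalize ((G + 1 + 1 : ℕ) : ℝ) = g at *
    have k9 := mul_le_mul_of_nonneg_left k5 (zero_le_one.trans hC1)
    have k10 : (C : ℝ) * (C + 1) * 1 ≤ C * (C + 1) * g :=
      mul_le_mul_of_nonneg_left k8 (by positivity)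
    refine le_of_mul_le_mul_right ?_ (one_pos.trans_le k8)
    linarith
  exact (hA n le_rfl).trans (add_le_add le_rfl (mul_le_mul_of_nonneg_left hB hB0))

end JR
end

-- merged part: Pool.Agent.Work.MP_969914_nt.RStab
section
/-! Eventual stability. -/

set_option autoImplicit false

namespace JR

open scoped ENNReal

namespace Dyn
variable {p : ℕ} [Fact p.Prime] {k T : Type} [Field k] [IsAlgClosed k] [CharP k p] [Field T]
  [Algebra k T] [CharP T p] {S : Std p k T} (d : Dyn S)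

theorem stable (hk : ∀ x : k, ∃ n, 0 < n ∧ x ^ p ^ n = x) :
    ∃ r0, 1 ≤ r0 ∧ ∀ n, r0 ≤ n → ∀ z ∈ d.V n, d.GoodStep z := by
  classical
  by_contra hcon
  push Not at hcon
  obtain ⟨b, hb, hbad⟩ := d.exists_bad_branch hcon
  obtain ⟨C1, h1⟩ := d.irr_le
  obtain ⟨C2, h2⟩ := d.ram_le
  obtain ⟨C3, h3⟩ := d.ram_decay
  obtain ⟨C4, h4⟩ := d.gap (d.sd hk)
  obtain ⟨M, hM⟩ := book6 (C1 + C2 + C3 + C4)
  have hr : ∀ r, S.ram (b r) (b (r + 1)) ≠ ⊤ := fun r =>
    ne_top_of_le_ne_top (ENNReal.natCast_ne_top C2) (h2 b hb r)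
  have hs : ∀ n, (C1 : ℝ≥0∞) + ∑ r ∈ Finset.range n, S.ram (b r) (b (r + 1)) ≠ ⊤ := fun n =>
    ENNReal.add_ne_top.2 ⟨ENNReal.natCast_ne_top C1, ENNReal.sum_ne_top.2 fun r _ => hr r⟩
  have hi : ∀ n, S.irr (b n) ≠ ⊤ := fun n => ne_top_of_le_ne_top (hs n) (h1 b hb n)
  have c1 : (0 : ℝ) ≤ C1 := Nat.cast_nonneg _
  have c2 : (0 : ℝ) ≤ C2 := Nat.cast_nonneg _
  have c3 : (0 : ℝ) ≤ C3 := Nat.cast_nonneg _
  have c4 : (0 : ℝ) ≤ C4 := Nat.cast_nonneg _
  have key := hM (fun i => d.GoodStep (b i)) (fun n => (S.irr (b n)).toReal)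
    (fun r => (S.ram (b r) (b (r + 1))).toReal)
    (fun n => by
      have := ENNReal.toReal_mono (hs n) (h1 b hb n)
      rw [ENNReal.toReal_add (ENNReal.natCast_ne_top C1) (ENNReal.sum_ne_top.2 fun r _ => hr r),
        ENNReal.toReal_sum fun r _ => hr r, ENNReal.toReal_natCast] at this
      push_cast; linarith)
    (fun r => by
      have := ENNReal.toReal_mono (ENNReal.natCast_ne_top C2) (h2 b hb r)
      rw [ENNReal.toReal_natCast] at this
      push_cast; linarith)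
    (fun r hr => by simp [hb.ram_bad hr])
    (fun r j hj => by
      have := ENNReal.toReal_mono (ENNReal.mul_ne_top (ENNReal.natCast_ne_top C3)
        (ENNReal.pow_ne_top ENNReal.ofNat_ne_top)) (h3 b hb r j
          (le_trans (Nat.mul_le_mul_right _ (by omega)) hj))
      simp only [ENNReal.toReal_mul, ENNReal.toReal_pow, ENNReal.toReal_natCast,
        ENNReal.toReal_ofNat] at this
      refine this.trans (mul_le_mul_of_nonneg_right ?_ (by positivity))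
      push_cast; linarith)
    (fun m i hg hn => by
      have := ENNReal.toReal_mono (ENNReal.mul_ne_top (ENNReal.natCast_ne_top C4)
        (ENNReal.add_ne_top.2 ⟨hi m, ENNReal.one_ne_top⟩)) (h4 b hb m i hg hn)
      rw [ENNReal.toReal_mul, ENNReal.toReal_add (hi m) ENNReal.one_ne_top] at this
      simp only [ENNReal.toReal_pow, ENNReal.toReal_natCast, ENNReal.toReal_ofNat,
        ENNReal.toReal_one] at this
      refine this.trans (mul_le_mul_of_nonneg_right ?_ (by positivity))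
      push_cast; linarith)
  obtain ⟨R, hR⟩ := exists_nat_ge M
  obtain ⟨G, hG, n1, hn1⟩ := hb.exists_theta hk R fun n => by
    obtain ⟨m, hm, hn⟩ := hbad n
    refine (hb.irr_mono hm).trans ?_
    rw [← ENNReal.toReal_le_toReal (hi m) (ENNReal.natCast_ne_top R), ENNReal.toReal_natCast]
    exact (key m hn).trans hR
  exact hb.no_theta hG n1 hn1

end Dyn

end JR
end

-- merged part: Pool.Agent.Work.MP_969914_nt.F7Main
section
/-! Finite index in the normal form. -/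

set_option autoImplicit false

namespace JR

open Module

namespace Dyn
variable {p : ℕ} {k T : Type} [Field k] [Field T] [Algebra k T] {S : Std p k T} (d : Dyn S)

theorem index_of_indep {N0 : ℕ}
    (h : ∀ N, N0 ≤ N → Indep (d.KV (N + 1)) (d.Vf (N + 1)) (dl d.a d.c)) :
    ∃ M : ℕ, 0 < M ∧ ∀ n, 2 ^ (2 ^ n - 1) ≤
      M * finrank S.K0 (IntermediateField.adjoin S.K0 (d.V n)) := by
  haveI := S.galois
  have small : ∀ n, n ≤ N0 + 1 → 2 ^ (2 ^ n - 1) ≤ 2 ^ 2 ^ (N0 + 1) * finrank S.K0 (d.KV n) := by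
    intro n hn
    haveI := d.fd_KV n
    have h1 : 0 < finrank S.K0 (d.KV n) := finrank_pos
    have h2 : 2 ^ n ≤ 2 ^ (N0 + 1) := Nat.pow_le_pow_right (by norm_num) hn
    calc 2 ^ (2 ^ n - 1) ≤ 2 ^ 2 ^ (N0 + 1) :=
          Nat.pow_le_pow_right (by norm_num) ((Nat.sub_le _ _).trans h2)
      _ ≤ _ := Nat.le_mul_of_pos_right _ h1
  have big : ∀ N, N0 ≤ N →
      2 ^ (2 ^ (N + 1) - 1) ≤ 2 ^ 2 ^ (N0 + 1) * finrank S.K0 (d.KV (N + 1)) := by
    intro N hN
    induction N, hN using Nat.le_induction with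
    | base => exact small _ le_rfl
    | succ N hN ih =>
      haveI := d.fd_KV (N + 1)
      have hI : Indep (d.KV (N + 1)) (d.Vf (N + 1)) fun α => d.rt α ^ 2 := by
        have e : (fun α => d.rt α ^ 2) = dl d.a d.c := funext d.rt_sq
        rw [e]
        exact h N hN
      have h1 := Indep.finrank_le d.two_ne (r := d.rt) (fun α hα => by
        rw [d.rt_sq]
        exact d.dl_mem (d.mem_KV le_rfl (d.mem_Vf.1 hα))) hI
      rw [← d.KV_succ, d.card_Vf] at h1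
      have h2 : 2 ^ (N + 1 + 1) - 1 = 2 ^ (N + 1) + (2 ^ (N + 1) - 1) := by
        have : 0 < 2 ^ (N + 1) := by positivity
        rw [pow_succ 2 (N + 1)]
        omega
      calc 2 ^ (2 ^ (N + 1 + 1) - 1) = 2 ^ 2 ^ (N + 1) * 2 ^ (2 ^ (N + 1) - 1) := by
            rw [h2, pow_add]
        _ ≤ 2 ^ 2 ^ (N + 1) * (2 ^ 2 ^ (N0 + 1) * finrank S.K0 (d.KV (N + 1))) :=
            Nat.mul_le_mul_left _ ih
        _ = 2 ^ 2 ^ (N0 + 1) * (2 ^ 2 ^ (N + 1) * finrank S.K0 (d.KV (N + 1))) := by ring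
        _ ≤ _ := Nat.mul_le_mul_left _ h1
  refine ⟨2 ^ 2 ^ (N0 + 1), by positivity, fun n => ?_⟩
  by_cases hn : n ≤ N0 + 1
  · exact small n hn
  · obtain ⟨N, rfl⟩ : ∃ N, n = N + 1 := ⟨n - 1, by omega⟩
    exact big N (by omega)

theorem index [Fact p.Prime] [IsAlgClosed k] [CharP k p] [CharP T p]
    (hk : ∀ x : k, ∃ n, 0 < n ∧ x ^ p ^ n = x) :
    ∃ M : ℕ, 0 < M ∧ ∀ n, 2 ^ (2 ^ n - 1) ≤
      M * finrank S.K0 (IntermediateField.adjoin S.K0 (d.V n)) := by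
  obtain ⟨r0, h1, hst⟩ := d.stable hk
  obtain ⟨r, rfl⟩ : ∃ r, r0 = r + 1 := ⟨r0 - 1, by omega⟩
  by_cases hc : ∀ r b', wedge (orb d.a d.c true (r + 1)) (crit b') ≠ 0
  · obtain ⟨N0, h⟩ := indep_B (d.sd hk) hst hc
    exact d.index_of_indep h
  · push Not at hc
    obtain ⟨r', b', hr⟩ := hc
    obtain ⟨N0, h⟩ := indep_A (d.sdA hk) hst hr
    exact d.index_of_indep h

end Dyn

end JR
end

-- merged part: Pool.Agent.Work.MP_969914_nt.RIdx
section
/-! The finite index theorem for the normal form. -/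

set_option autoImplicit false

namespace JR

namespace Dyn
variable {p : ℕ} [Fact p.Prime] {k T : Type} [Field k] [IsAlgClosed k] [CharP k p] [Field T]
  [Algebra k T] [CharP T p] {S : Std p k T} (d : Dyn S)

theorem index' (hk : ∀ x : k, ∃ n, 0 < n ∧ x ^ p ^ n = x) : ∃ M : ℕ, ∀ n,
    2 ^ (2 ^ n - 1) ≤ M * Module.finrank S.K0 (IntermediateField.adjoin S.K0 (d.V n)) := by
  obtain ⟨M, -, h⟩ := d.index hk
  exact ⟨M, h⟩

end Dyn

end JR
end
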