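import Pool.Agent.Work.MP_969914_nt.RDyn

/-! The normal form of a quadratic map of the projective line. -/

set_option autoImplicit false

namespace JR

/-- The conditions on the normal form. -/
structure NF {K : Type} [Field K] (a c : K) (B : K × K) : Prop where
  B_form : B.2 = 1 ∨ B = (1, 0)
  hypH : HypH a c
  col : ∀ n, 1 ≤ n → wedge (orb a c false n) (orb a c true n) ≠ 0
  unr : ∀ b i, wedge (orb a c b (i + 1)) B ≠ 0
  nonper : ∀ n, wedge ((Phi a c)^[n + 1] B) B ≠ 0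
  aut : c = a ^ 3 → c * B.1 ^ 2 ≠ a * B.2 ^ 2

/-- Change of coordinates. -/
def lin {K : Type} [Field K] (e1 e2 Z : K × K) : K × K := Z.1 • e1 + Z.2 • e2

section aux
variable {K : Type} [Field K]

open Classical in
/-- The normalised representative of a point of the projective line. -/
noncomputable def rnorm_nm (v : K × K) : K × K := if v.2 = 0 then (1, 0) else (v.1 / v.2, 1)

theorem rnorm_nm_form (v : K × K) : (rnorm_nm v).2 = 1 ∨ rnorm_nm v = (1, 0) := by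
  unfold rnorm_nm
  split_ifs <;> simp

theorem rnorm_nm_wedge (v : K × K) : wedge (rnorm_nm v) v = 0 := by
  unfold rnorm_nm
  split_ifs with h
  · simp [wedge, h]
  · simp [wedge, h]

theorem rnorm_ne {v : K × K} (h : v.2 = 1 ∨ v = (1, 0)) : v ≠ 0 := by
  rintro rfl
  simp [Prod.ext_iff] at h

theorem rnorm_eq {v w : K × K} (hv : v.2 = 1 ∨ v = (1, 0)) (hw : w.2 = 1 ∨ w = (1, 0))
    (h : wedge v w = 0) : v = w := by
  rcases hv with hv | rfl <;> rcases hw with hw | rfl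
  · refine Prod.ext ?_ (hv.trans hw.symm)
    rw [wedge, hv, hw] at h
    linear_combination h
  · simp [wedge, hv] at h
  · simp [wedge, hw] at h
  · rfl

theorem rnorm_wedge_smul (l l' : K) (u v : K × K) :
    wedge (l • u) (l' • v) = l * l' * wedge u v := by
  simp only [wedge, Prod.smul_fst, Prod.smul_snd, smul_eq_mul]
  ring

theorem rnorm_wedge_lin (e1 e2 Z W : K × K) :
    wedge (lin e1 e2 Z) (lin e1 e2 W) = wedge e1 e2 * wedge Z W := by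
  simp only [wedge, lin, Prod.fst_add, Prod.snd_add, Prod.smul_fst, Prod.smul_snd, smul_eq_mul]
  ring

/-- The inverse change of coordinates. -/
noncomputable def rnorm_li (e1 e2 v : K × K) : K × K :=
  (wedge v e2 / wedge e1 e2, wedge e1 v / wedge e1 e2)

theorem rnorm_lin_li {e1 e2 : K × K} (he : wedge e1 e2 ≠ 0) (v : K × K) :
    lin e1 e2 (rnorm_li e1 e2 v) = v := by
  ext <;>
  · simp only [lin, rnorm_li, Prod.fst_add, Prod.snd_add, Prod.smul_fst, Prod.smul_snd,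
      smul_eq_mul]
    field_simp
    simp only [wedge]
    ring

theorem rnorm_lin_ne {e1 e2 : K × K} (he : wedge e1 e2 ≠ 0) {Z : K × K} (hZ : Z ≠ 0) :
    lin e1 e2 Z ≠ 0 := by
  intro h
  have h1 := rnorm_wedge_lin e1 e2 Z (1, 0)
  have h2 := rnorm_wedge_lin e1 e2 Z (0, 1)
  rw [h] at h1 h2
  refine hZ (Prod.ext ?_ ?_)
  · simpa [wedge, show e1.1 * e2.2 - e1.2 * e2.1 ≠ 0 from he] using h2
  · simpa [wedge, show e1.1 * e2.2 - e1.2 * e2.1 ≠ 0 from he] using h1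

theorem rnorm_li_ne {e1 e2 : K × K} (he : wedge e1 e2 ≠ 0) {v : K × K} (hv : v ≠ 0) :
    rnorm_li e1 e2 v ≠ 0 := fun h => hv (by rw [← rnorm_lin_li he v, h]; simp [lin])

theorem rnorm_fst {e1 e2 B : K × K} (he : wedge e1 e2 ≠ 0) (hB : (lin e1 e2 B).1 = 0)
    (hB0 : B ≠ 0) (Z : K × K) : (lin e1 e2 Z).1 = 0 ↔ wedge Z B = 0 := by
  have h1 : (lin e1 e2 B).2 ≠ 0 := fun h => rnorm_lin_ne he hB0 (Prod.ext hB h)
  have h2 := rnorm_wedge_lin e1 e2 Z B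
  rw [wedge, hB, mul_zero, sub_zero] at h2
  rw [← mul_eq_zero_iff_right h1, h2, mul_eq_zero_iff_left he]

theorem rnorm_conj {Φ Ψ : K × K → K × K} {e1 e2 : K × K}
    (hc : ∀ Z, Φ (lin e1 e2 Z) = lin e1 e2 (Ψ Z)) (n : ℕ) (Z : K × K) :
    Φ^[n] (lin e1 e2 Z) = lin e1 e2 (Ψ^[n] Z) := Function.Semiconj.iterate_right
      (fun Z => (hc Z).symm) n Z |>.symm

theorem rnorm_iter_smul {Φ : K × K → K × K} (h : ∀ (l : K) v, Φ (l • v) = l ^ 2 • Φ v) (l : K)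
    (v : K × K) (n : ℕ) : Φ^[n] (l • v) = l ^ 2 ^ n • Φ^[n] v := by
  induction n with
  | zero => simp
  | succ n ih =>
    rw [Function.iterate_succ_apply', Function.iterate_succ_apply', ih, h, ← pow_mul, ← pow_succ]

theorem rnorm_fibre {a c : K} (hac : a ≠ c) {v w : K × K}
    (h : rnorm_nm (Phi a c w) = rnorm_nm (Phi a c v)) :
    wedge w v = 0 ∨ wedge w (-v.1, v.2) = 0 := by
  have h1 : wedge (Phi a c w) (Phi a c v) = 0 :=
    wedge_trans (rnorm_ne (rnorm_nm_form (Phi a c v))) (h ▸ rdyn_comm (rnorm_nm_wedge _))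
      (rnorm_nm_wedge _)
  rw [wedge_Phi, mul_assoc, mul_eq_zero_iff_left (sub_ne_zero.2 hac), mul_eq_zero] at h1
  refine h1.imp_right fun h2 => ?_
  rw [wedge]
  linear_combination h2

theorem rnorm_down {a c : K} (hac : a ≠ c) {B v : K × K} (hv : v ≠ 0) {n : ℕ}
    (h : wedge ((Phi a c)^[n + 1] v) B = 0) :
    wedge ((Phi a c)^[n] (rnorm_nm (Phi a c v))) B = 0 :=
  wedge_trans (iter_ne_zero hac hv (n + 1)) (wedge_iter (rnorm_nm_wedge _) n) h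

open Classical in
theorem rnorm_step {a c : K} (hac : a ≠ c) (s : Finset (K × K))
    (hs : ∀ v ∈ s, v.2 = 1 ∨ v = (1, 0)) :
    s.card ≤ 2 * (s.image fun v => rnorm_nm (Phi a c v)).card := by
  refine Finset.card_le_mul_card_image s 2 fun u hu => ?_
  obtain ⟨v, hv, rfl⟩ := Finset.mem_image.1 hu
  refine (Finset.card_le_card (t := {v, rnorm_nm (-v.1, v.2)}) fun w hw => ?_).trans
    Finset.card_le_two
  obtain ⟨h1, h2⟩ := Finset.mem_filter.1 hw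
  have h0 := rnorm_ne (hs v hv)
  rw [Finset.mem_insert, Finset.mem_singleton]
  refine (rnorm_fibre hac h2).imp (rnorm_eq (hs w h1) (hs v hv)) fun h3 =>
    rnorm_eq (hs w h1) (rnorm_nm_form _) (wedge_trans (fun e => h0 ?_) h3
      (rdyn_comm (rnorm_nm_wedge _)))
  simpa [Prod.ext_iff] using e

theorem rnorm_card {a c : K} (hac : a ≠ c) {B : K × K} (hB : B ≠ 0) (n : ℕ) :
    ∀ s : Finset (K × K), (∀ v ∈ s, (v.2 = 1 ∨ v = (1, 0)) ∧ wedge ((Phi a c)^[n] v) B = 0) →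
      s.card ≤ 2 ^ n := by
  classical
  induction n with
  | zero =>
    intro s hs
    exact Finset.card_le_one.2 fun v hv w hw => rnorm_eq (hs v hv).1 (hs w hw).1
      (wedge_trans hB (hs v hv).2 (rdyn_comm (hs w hw).2))
  | succ n ih =>
    intro s hs
    refine (rnorm_step hac s fun v hv => (hs v hv).1).trans ?_
    rw [pow_succ']
    refine Nat.mul_le_mul_left 2 (ih _ fun u hu => ?_)
    obtain ⟨v, hv, rfl⟩ := Finset.mem_image.1 hu
    exact ⟨rnorm_nm_form _, rnorm_down hac (rnorm_ne (hs v hv).1) (hs v hv).2⟩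

end aux

/-- If all levels of the tree are full then the base point is not postcritical. -/
theorem unr_of_card {K : Type} [Field K] {a c : K} (hac : a ≠ c) {B : K × K} (hB : B ≠ 0)
    (h : ∀ n : ℕ, ∃ s : Finset (K × K), 2 ^ n ≤ s.card ∧
      ∀ v ∈ s, (v.2 = 1 ∨ v = (1, 0)) ∧ wedge ((Phi a c)^[n] v) B = 0) (b : Bool) (i : ℕ) :
    wedge (orb a c b (i + 1)) B ≠ 0 := by
  classical
  intro h0
  obtain ⟨s, h1, hs⟩ := h (i + 1)
  have hf : (crit b : K × K).2 = 1 ∨ (crit b : K × K) = (1, 0) := by cases b <;> simp [crit]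
  have h2 := rnorm_step hac (s.erase (crit b)) fun v hv => (hs v (Finset.mem_of_mem_erase hv)).1
  have h3 : rnorm_nm (Phi a c (crit b)) ∉
      (s.erase (crit b)).image fun v => rnorm_nm (Phi a c v) := by
    intro h3
    obtain ⟨v, hv, e⟩ := Finset.mem_image.1 h3
    refine Finset.ne_of_mem_erase hv (rnorm_eq (hs v (Finset.mem_of_mem_erase hv)).1 hf ?_)
    refine (rnorm_fibre hac e).elim id fun h4 => ?_
    cases b <;> simpa [crit, wedge] using h4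
  have h4 := rnorm_card hac hB i (insert (rnorm_nm (Phi a c (crit b)))
    ((s.erase (crit b)).image fun v => rnorm_nm (Phi a c v))) fun u hu => by
      rcases Finset.mem_insert.1 hu with rfl | hu
      · exact ⟨rnorm_nm_form _, rnorm_down hac (rnorm_ne hf) h0⟩
      · obtain ⟨v, hv, rfl⟩ := Finset.mem_image.1 hu
        have h5 := hs v (Finset.mem_of_mem_erase hv)
        exact ⟨rnorm_nm_form _, rnorm_down hac (rnorm_ne h5.1) h5.2⟩
  rw [Finset.card_insert_of_notMem h3] at h4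
  have h5 := Finset.pred_card_le_card_erase (s := s) (a := crit b)
  rw [pow_succ] at h1
  omega

section
variable {Ω : Type} [Field Ω] {a0 a1 a2 b0 b1 b2 : Ω} {Φ : Ω × Ω → Ω × Ω} {C : Ω × Ω → Ω}

theorem rnorm_hom (hΦ : ∀ x y, Φ (x, y) = (a0 * x ^ 2 + a1 * x * y + a2 * y ^ 2,
      b0 * x ^ 2 + b1 * x * y + b2 * y ^ 2)) (l : Ω) (v : Ω × Ω) : Φ (l • v) = l ^ 2 • Φ v := by
  obtain ⟨x, y⟩ := v
  rw [Prod.smul_mk, hΦ, hΦ, Prod.smul_mk]
  simp only [smul_eq_mul]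
  congr 1 <;> ring

theorem rnorm_diag
    (hres : (a0 * b2 - a2 * b0) ^ 2 - (a0 * b1 - a1 * b0) * (a1 * b2 - a2 * b1) ≠ 0)
    (hΦ : ∀ x y, Φ (x, y) = (a0 * x ^ 2 + a1 * x * y + a2 * y ^ 2,
      b0 * x ^ 2 + b1 * x * y + b2 * y ^ 2))
    (hC : ∀ x y, C (x, y) = (a0 * b1 - a1 * b0) * x ^ 2 + 2 * (a0 * b2 - a2 * b0) * x * y +
      (a1 * b2 - a2 * b1) * y ^ 2) {g1 g2 : Ω × Ω} (hw : wedge g1 g2 ≠ 0) (h1 : C g1 = 0)
    (h2 : C g2 = 0) : (∀ Z, Φ (lin g1 g2 Z) = Z.1 ^ 2 • Φ g1 + Z.2 ^ 2 • Φ g2) ∧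
      wedge (Φ g1) (Φ g2) ≠ 0 := by
  obtain ⟨x, y⟩ := g1
  obtain ⟨z, t⟩ := g2
  rw [hC] at h1 h2
  obtain ⟨P, hP⟩ : ∃ P, P = 2 * a0 * x * z + a1 * (x * t + y * z) + 2 * a2 * y * t := ⟨_, rfl⟩
  obtain ⟨Q, hQ⟩ : ∃ Q, Q = 2 * b0 * x * z + b1 * (x * t + y * z) + 2 * b2 * y * t := ⟨_, rfl⟩
  have e1 : wedge (Φ (x, y)) (P, Q) = 0 := by
    rw [hΦ, hP, hQ, wedge]
    linear_combination (x * t - y * z) * h1
  have e2 : wedge (P, Q) (Φ (z, t)) = 0 := by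
    rw [hΦ, hP, hQ, wedge]
    linear_combination (x * t - y * z) * h2
  have e3 : wedge (Φ (x, y)) (Φ (z, t)) ^ 2 - wedge (Φ (x, y)) (P, Q) * wedge (P, Q) (Φ (z, t)) =
      wedge (x, y) (z, t) ^ 4 *
        ((a0 * b2 - a2 * b0) ^ 2 - (a0 * b1 - a1 * b0) * (a1 * b2 - a2 * b1)) := by
    rw [hΦ, hΦ, hP, hQ]
    simp only [wedge]
    ring
  have e4 : wedge (Φ (x, y)) (Φ (z, t)) ≠ 0 := fun h => by
    rw [h, e1] at e3
    exact mul_ne_zero (pow_ne_zero 4 hw) hres (by linear_combination -e3)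
  have e5 : (P, Q) = 0 := by
    by_contra h
    exact e4 (wedge_trans h e1 e2)
  rw [Prod.mk_eq_zero, hP, hQ] at e5
  refine ⟨fun Z => ?_, e4⟩
  simp only [lin, Prod.smul_mk, Prod.mk_add_mk, hΦ, smul_eq_mul]
  congr 1
  · linear_combination Z.1 * Z.2 * e5.1
  · linear_combination Z.1 * Z.2 * e5.2

/-- The two critical points diagonalise the map. -/
theorem exists_crit_pair [IsAlgClosed Ω] (h2 : (2 : Ω) ≠ 0)
    (hres : (a0 * b2 - a2 * b0) ^ 2 - (a0 * b1 - a1 * b0) * (a1 * b2 - a2 * b1) ≠ 0)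
    (hΦ : ∀ x y, Φ (x, y) = (a0 * x ^ 2 + a1 * x * y + a2 * y ^ 2,
      b0 * x ^ 2 + b1 * x * y + b2 * y ^ 2))
    (hC : ∀ x y, C (x, y) = (a0 * b1 - a1 * b0) * x ^ 2 + 2 * (a0 * b2 - a2 * b0) * x * y +
      (a1 * b2 - a2 * b1) * y ^ 2) :
    ∃ g1 g2 : Ω × Ω, wedge g1 g2 ≠ 0 ∧ C g1 = 0 ∧ C g2 = 0 ∧
      (∀ v, C v = 0 → wedge v g1 = 0 ∨ wedge v g2 = 0) ∧
      (∀ Z, Φ (lin g1 g2 Z) = Z.1 ^ 2 • Φ g1 + Z.2 ^ 2 • Φ g2) ∧ wedge (Φ g1) (Φ g2) ≠ 0 := by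
  suffices h : ∃ g1 g2 : Ω × Ω, wedge g1 g2 ≠ 0 ∧ C g1 = 0 ∧ C g2 = 0 ∧
      ∀ v, C v = 0 → wedge v g1 = 0 ∨ wedge v g2 = 0 by
    obtain ⟨g1, g2, hw, h3, h4, h5⟩ := h
    exact ⟨g1, g2, hw, h3, h4, h5, rnorm_diag hres hΦ hC hw h3 h4⟩
  generalize a0 * b1 - a1 * b0 = A at hres hC
  generalize a0 * b2 - a2 * b0 = B at hres hC
  generalize a1 * b2 - a2 * b1 = D at hres hC
  by_cases hA : A = 0
  · subst hA
    have hB : B ≠ 0 := fun h => hres (by simp [h])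
    refine ⟨(1, 0), (-D, 2 * B), by simp [wedge, h2, hB], by simp [hC], ?_, ?_⟩
    · rw [hC]
      ring
    · rintro ⟨x, y⟩ h
      rw [hC] at h
      refine mul_eq_zero.1 ?_
      simp only [wedge]
      linear_combination -h
  · obtain ⟨r, hr⟩ := IsAlgClosed.exists_pow_nat_eq (B ^ 2 - A * D) two_pos
    have hr0 : r ≠ 0 := fun h => hres (by rw [← hr, h]; ring)
    refine ⟨(-B + r, A), (-B - r, A), ?_, ?_, ?_, ?_⟩
    · refine fun h => mul_ne_zero (mul_ne_zero h2 hr0) hA ?_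
      rw [wedge] at h
      linear_combination h
    · rw [hC]
      linear_combination A * hr
    · rw [hC]
      linear_combination A * hr
    · rintro ⟨x, y⟩ h
      rw [hC] at h
      refine mul_eq_zero.1 ?_
      simp only [wedge]
      linear_combination A * h - y ^ 2 * hr

/-- The choice of the labels of the two critical orbits. -/
theorem rnorm_label {x y : ℕ → Ω × Ω} (hy : ∀ n, y n ≠ 0)
    (hxy : ∀ m n i, wedge (x m) (y n) = 0 → wedge (x (i + m)) (y (i + n)) = 0)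
    (hyy : ∀ m n i, wedge (y m) (y n) = 0 → wedge (y (i + m)) (y (i + n)) = 0)
    (inj : ∀ m n, wedge (x m) (x n) = 0 → m = n) (col : wedge (x 2) (y 2) ≠ 0) :
    (∀ s, 2 ≤ s → wedge (x s) (y 2) ≠ 0) ∨
      ((∀ m n, wedge (y m) (y n) = 0 → m = n) ∧ ∀ s, 2 ≤ s → wedge (y s) (x 2) ≠ 0) := by
  by_cases h : ∀ s, 2 ≤ s → wedge (x s) (y 2) ≠ 0
  · exact Or.inl h
  push Not at h
  obtain ⟨s, hs, h⟩ := h
  have hs2 : s ≠ 2 := fun e => col (e ▸ h)
  refine Or.inr ⟨fun m n h1 => ?_, fun t ht h1 => ?_⟩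
  · have h2 := hyy m n 2 h1
    rw [add_comm 2 m, add_comm 2 n] at h2
    have h3 := inj _ _ (wedge_trans (hy _) (wedge_trans (hy _) (hxy s 2 m h) h2)
      (rdyn_comm (hxy s 2 n h)))
    omega
  · obtain ⟨i, rfl⟩ := Nat.exists_eq_add_of_le' ht
    have h3 := inj _ _ (wedge_trans (hy _) (hxy s 2 i h) h1)
    omega

/-- The normalisation of the coordinates. -/
theorem rnorm_scale {g1 g2 : Ω × Ω} (hw : wedge g1 g2 ≠ 0)
    (hd : ∀ Z, Φ (lin g1 g2 Z) = Z.1 ^ 2 • Φ g1 + Z.2 ^ 2 • Φ g2) (hv : wedge (Φ g1) (Φ g2) ≠ 0)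
    (h1 : wedge (Φ g1) g1 ≠ 0) (h2 : wedge (Φ g1) g2 ≠ 0) :
    ∃ (l1 l2 a c : Ω), l1 ≠ 0 ∧ l2 ≠ 0 ∧ a ≠ c ∧
      ∀ Z, Φ (lin (l1 • g2) (l2 • g1) Z) = lin (l1 • g2) (l2 • g1) (Phi a c Z) := by
  obtain ⟨⟨β, α⟩, hZ⟩ : ∃ Z, lin g1 g2 Z = Φ g1 := ⟨_, rnorm_lin_li hw _⟩
  obtain ⟨⟨δ, γ⟩, hW⟩ : ∃ Z, lin g1 g2 Z = Φ g2 := ⟨_, rnorm_lin_li hw _⟩
  have hα : α ≠ 0 := by
    rintro rfl
    refine h1 ?_
    rw [← hZ]
    simp [lin, wedge, mul_comm, mul_left_comm]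
  have hβ : β ≠ 0 := by
    rintro rfl
    refine h2 ?_
    rw [← hZ]
    simp [lin, wedge, mul_comm, mul_left_comm]
  refine ⟨α / β ^ 2, β⁻¹, α * γ / β ^ 2, α ^ 2 * δ / β ^ 3, by positivity, by positivity,
    fun e => hv ?_, fun Z => ?_⟩
  · rw [← hZ, ← hW, rnorm_wedge_lin]
    field_simp at e
    simp only [wedge]
    linear_combination (g1.1 * g2.2 - g1.2 * g2.1) * e
  · have e : lin ((α / β ^ 2) • g2) (β⁻¹ • g1) Z = lin g1 g2 (Z.2 * β⁻¹, Z.1 * (α / β ^ 2)) := by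
      simp only [lin, smul_smul]
      exact add_comm _ _
    rw [e, hd, ← hZ, ← hW]
    ext <;>
    · simp only [lin, Phi, Prod.fst_add, Prod.snd_add, Prod.smul_fst, Prod.smul_snd, smul_eq_mul]
      field_simp
      ring

/-- An automorphism of the normal form gives an automorphism of the map. -/
theorem rnorm_aut {e1 e2 B : Ω × Ω} {a : Ω} (he : wedge e1 e2 ≠ 0) (ha : a ≠ 0)
    (hc : ∀ Z, Φ (lin e1 e2 Z) = lin e1 e2 (Phi a (a ^ 3) Z)) (hB : (lin e1 e2 B).1 = 0)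
    (hB0 : B ≠ 0) (h : a ^ 3 * B.1 ^ 2 = a * B.2 ^ 2) :
    ∃ p s t : Ω, p * t ≠ 0 ∧ (s ≠ 0 ∨ p ≠ t) ∧ ∀ x y : Ω, (x, y) ≠ 0 →
      (Φ (p * x, s * x + t * y)).1 * (s * (Φ (x, y)).1 + t * (Φ (x, y)).2) =
        p * (Φ (x, y)).1 * (Φ (p * x, s * x + t * y)).2 := by
  let μ : Ω × Ω → Ω × Ω := fun Z => (a * Z.2, a ^ 3 * Z.1)
  obtain ⟨U, hU⟩ : ∃ Z, lin e1 e2 Z = (1, 0) := ⟨_, rnorm_lin_li he _⟩
  obtain ⟨V, hV⟩ : ∃ Z, lin e1 e2 Z = (0, 1) := ⟨_, rnorm_lin_li he _⟩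
  have hVB : wedge V B = 0 := (rnorm_fst he hB hB0 V).1 (by rw [hV])
  have h0 : (lin e1 e2 (μ V)).1 = 0 := by
    refine (rnorm_fst he hB hB0 _).2 (wedge_trans (Y := μ B) (fun e => hB0 ?_) ?_ ?_)
    · simpa [μ, Prod.ext_iff, ha, and_comm] using e
    · simp only [wedge, μ] at hVB ⊢
      linear_combination -a ^ 4 * hVB
    · simp only [wedge, μ]
      linear_combination -h
  have hUV : wedge e1 e2 * wedge U V = 1 := by
    rw [← rnorm_wedge_lin, hU, hV]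
    simp [wedge]
  set p := (lin e1 e2 (μ U)).1 with hp
  set s := (lin e1 e2 (μ U)).2 with hs
  set t := (lin e1 e2 (μ V)).2 with ht
  have key : ∀ Z, lin e1 e2 (μ Z) =
      (p * (lin e1 e2 Z).1, s * (lin e1 e2 Z).1 + t * (lin e1 e2 Z).2) := by
    intro Z
    have h1 : Z = (lin e1 e2 Z).1 • U + (lin e1 e2 Z).2 • V := by
      by_contra h1
      refine rnorm_lin_ne he (sub_ne_zero.2 h1) ?_
      have h2 : ∀ (l l' : Ω), lin e1 e2 (Z - (l • U + l' • V)) =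
          lin e1 e2 Z - (l • lin e1 e2 U + l' • lin e1 e2 V) := by
        intro l l'
        simp only [lin, Prod.fst_sub, Prod.snd_sub, Prod.fst_add, Prod.snd_add, Prod.smul_fst,
          Prod.smul_snd]
        module
      rw [h2, hU, hV]
      simp
    generalize (lin e1 e2 Z).1 = l at h1
    generalize (lin e1 e2 Z).2 = l' at h1
    have h2 : lin e1 e2 (μ Z) = l • lin e1 e2 (μ U) + l' • lin e1 e2 (μ V) := by
      rw [h1]
      simp only [lin, μ, Prod.fst_add, Prod.snd_add, Prod.smul_fst, Prod.smul_snd, smul_eq_mul]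
      module
    rw [h2]
    ext
    · simp only [Prod.fst_add, Prod.smul_fst, smul_eq_mul, h0, ← hp]
      ring
    · simp only [Prod.snd_add, Prod.smul_snd, smul_eq_mul, ← hs, ← ht]
      ring
  refine ⟨p, s, t, ?_, ?_, fun x y _ => ?_⟩
  · have h1 := rnorm_wedge_lin e1 e2 (μ U) (μ V)
    rw [wedge, h0, mul_zero, sub_zero, ← hp, ← ht] at h1
    have h2 : p * t = -a ^ 4 := by
      rw [h1]
      simp only [wedge, μ] at hUV ⊢
      linear_combination -a ^ 4 * hUV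
    rw [h2]
    exact neg_ne_zero.2 (pow_ne_zero 4 ha)
  · by_contra h1
    push Not at h1
    have h2 := congrArg (wedge e1) (key (1, 0))
    rw [h1.1, ← h1.2] at h2
    refine mul_ne_zero (pow_ne_zero 3 ha) he ?_
    simp only [wedge, lin, μ, Prod.fst_add, Prod.snd_add, Prod.smul_fst, Prod.smul_snd,
      smul_eq_mul] at h2 ⊢
    linear_combination h2
  · obtain ⟨Z, hZ⟩ : ∃ Z, lin e1 e2 Z = (x, y) := ⟨_, rnorm_lin_li he _⟩
    have h1 := key Z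
    have h2 := key (Phi a (a ^ 3) Z)
    rw [hZ] at h1
    rw [← hc, hZ] at h2
    have h3 : wedge (Φ (lin e1 e2 (μ Z))) (lin e1 e2 (μ (Phi a (a ^ 3) Z))) = 0 := by
      rw [hc, rnorm_wedge_lin]
      refine mul_eq_zero_of_right _ ?_
      simp only [wedge, μ, Phi]
      ring
    rw [h1, h2, wedge] at h3
    linear_combination h3

theorem exists_nf [IsAlgClosed Ω] (h2 : (2 : Ω) ≠ 0)
    (hres : (a0 * b2 - a2 * b0) ^ 2 - (a0 * b1 - a1 * b0) * (a1 * b2 - a2 * b1) ≠ 0)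
    (hΦ : ∀ x y, Φ (x, y) = (a0 * x ^ 2 + a1 * x * y + a2 * y ^ 2,
      b0 * x ^ 2 + b1 * x * y + b2 * y ^ 2))
    (hC : ∀ x y, C (x, y) = (a0 * b1 - a1 * b0) * x ^ 2 + 2 * (a0 * b2 - a2 * b0) * x * y +
      (a1 * b2 - a2 * b1) * y ^ 2)
    (hcard : ∀ n : ℕ, Set.ncard {v : Ω × Ω | (v.2 = 1 ∨ v = (1, 0)) ∧ (Φ^[n] v).1 = 0} = 2 ^ n)
    (n1 : ¬ ∀ v : Ω × Ω, v ≠ 0 → C v = 0 → ∃ m n : ℕ, m < n ∧
      (Φ^[m] v).1 * (Φ^[n] v).2 = (Φ^[n] v).1 * (Φ^[m] v).2)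
    (n2 : ¬ ∃ v w : Ω × Ω, v ≠ 0 ∧ w ≠ 0 ∧ C v = 0 ∧ C w = 0 ∧ v.1 * w.2 ≠ w.1 * v.2 ∧
      ∃ r : ℕ, 1 ≤ r ∧
        (Φ^[r + 1] v).1 * (Φ^[r + 1] w).2 = (Φ^[r + 1] w).1 * (Φ^[r + 1] v).2)
    (n3 : ¬ ∃ n : ℕ, 1 ≤ n ∧ (Φ^[n] (0, 1)).1 = 0)
    (n4 : ¬ ∃ p s t : Ω, p * t ≠ 0 ∧ (s ≠ 0 ∨ p ≠ t) ∧ ∀ x y : Ω, (x, y) ≠ 0 →
      (Φ (p * x, s * x + t * y)).1 * (s * (Φ (x, y)).1 + t * (Φ (x, y)).2) =
        p * (Φ (x, y)).1 * (Φ (p * x, s * x + t * y)).2) :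
    ∃ (e1 e2 : Ω × Ω) (a c : Ω) (B : Ω × Ω), wedge e1 e2 ≠ 0 ∧
      (∀ Z, Φ (lin e1 e2 Z) = lin e1 e2 (Phi a c Z)) ∧ (lin e1 e2 B).1 = 0 ∧ NF a c B := by
  classical
  have hom := rnorm_iter_smul (rnorm_hom hΦ)
  have hsh : ∀ u v i, wedge u v = 0 → wedge (Φ^[i] u) (Φ^[i] v) = 0 := by
    intro u v i h
    induction i with
    | zero => exact h
    | succ i ih =>
      rw [Function.iterate_succ_apply', Function.iterate_succ_apply']
      generalize Φ^[i] u = u at ih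
      generalize Φ^[i] v = v at ih
      obtain ⟨x, y⟩ := u
      obtain ⟨z, t⟩ := v
      rw [hΦ, hΦ]
      simp only [wedge] at ih ⊢
      linear_combination ((a0 * b1 - a1 * b0) * x * z + (a0 * b2 - a2 * b0) * (x * t + y * z) +
        (a1 * b2 - a2 * b1) * y * t) * ih
  have hsh' : ∀ u v m n i, wedge (Φ^[m] u) (Φ^[n] v) = 0 →
      wedge (Φ^[i + m] u) (Φ^[i + n] v) = 0 := fun u v m n i h => by
    rw [Function.iterate_add_apply, Function.iterate_add_apply]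
    exact hsh _ _ i h
  have ne1 : ∀ {u v : Ω × Ω}, wedge u v ≠ 0 → u ≠ 0 := by
    rintro _ v h rfl
    exact h (by simp [wedge])
  have ne2 : ∀ {u v : Ω × Ω}, wedge u v ≠ 0 → v ≠ 0 := fun h => ne1 fun e => h (rdyn_comm e)
  have hne : ∀ v, v ≠ 0 → ∀ n, Φ^[n] v ≠ 0 := by
    obtain ⟨g1, g2, hw, -, -, -, hd, hv⟩ := exists_crit_pair h2 hres hΦ hC
    intro v h0 n
    induction n with
    | zero => exact h0
    | succ n ih =>
      rw [Function.iterate_succ_apply', ← rnorm_lin_li hw (Φ^[n] v), hd]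
      refine rnorm_lin_ne hv (Z := ((rnorm_li g1 g2 (Φ^[n] v)).1 ^ 2,
        (rnorm_li g1 g2 (Φ^[n] v)).2 ^ 2)) fun e => rnorm_li_ne hw ih ?_
      simpa [Prod.ext_iff] using e
  have col : ∀ {g1 g2 : Ω × Ω}, wedge g1 g2 ≠ 0 → C g1 = 0 → C g2 = 0 → ∀ r, 1 ≤ r →
      wedge (Φ^[r + 1] g1) (Φ^[r + 1] g2) ≠ 0 := by
    intro g1 g2 hw h3 h4 r hr h
    refine n2 ⟨g1, g2, ne1 hw, ne2 hw, h3, h4, fun e => hw ?_, r, hr, ?_⟩
    · rw [wedge]
      linear_combination e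
    · rw [wedge] at h
      linear_combination h
  obtain ⟨g1, g2, hw, h3, h4, inj, sep⟩ : ∃ g1 g2 : Ω × Ω, wedge g1 g2 ≠ 0 ∧ C g1 = 0 ∧
      C g2 = 0 ∧ (∀ m n, wedge (Φ^[m] g1) (Φ^[n] g1) = 0 → m = n) ∧
      ∀ s, 2 ≤ s → wedge (Φ^[s] g1) (Φ^[2] g2) ≠ 0 := by
    obtain ⟨g1, g2, hw, h3, h4, inj⟩ : ∃ g1 g2 : Ω × Ω, wedge g1 g2 ≠ 0 ∧ C g1 = 0 ∧
        C g2 = 0 ∧ ∀ m n, wedge (Φ^[m] g1) (Φ^[n] g1) = 0 → m = n := by
      obtain ⟨g1, g2, hw, h3, h4, h5, -⟩ := exists_crit_pair h2 hres hΦ hC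
      push Not at n1
      obtain ⟨v, h0, hv, h6⟩ := n1
      have inj : ∀ m n, wedge (Φ^[m] v) (Φ^[n] v) = 0 → m = n := by
        intro m n h
        rw [wedge] at h
        rcases lt_trichotomy m n with h7 | h7 | h7
        · exact (h6 m n h7 (by linear_combination h)).elim
        · exact h7
        · exact (h6 n m h7 (by linear_combination -h)).elim
      rcases h5 v hv with h7 | h7
      · exact ⟨v, g2, fun e => hw (wedge_trans h0 (rdyn_comm h7) e), hv, h4, inj⟩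
      · exact ⟨v, g1, fun e => hw (wedge_trans h0 (rdyn_comm e) h7), hv, h3, inj⟩
    rcases rnorm_label (x := fun n => Φ^[n] g1) (y := fun n => Φ^[n] g2)
      (hne _ (ne2 hw)) (hsh' _ _) (hsh' _ _) inj (col hw h3 h4 1 le_rfl) with h | h
    · exact ⟨g1, g2, hw, h3, h4, inj, h⟩
    · exact ⟨g2, g1, fun e => hw (rdyn_comm e), h4, h3, h⟩
  obtain ⟨hd, hv⟩ := rnorm_diag hres hΦ hC hw h3 h4
  obtain ⟨l1, l2, a, c, k1, k2, hac, hc⟩ := rnorm_scale hw hd hv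
    (fun h => one_ne_zero (inj 1 0 h)) fun h => sep 3 (by omega) (hsh' _ _ 1 0 2 h)
  have he : wedge (l1 • g2) (l2 • g1) ≠ 0 := by
    rw [rnorm_wedge_smul]
    exact mul_ne_zero (mul_ne_zero k1 k2) fun e => hw (rdyn_comm e)
  have tr : ∀ b b' m n, wedge (orb a c b m) (orb a c b' n) = 0 →
      wedge (Φ^[m] (bif b then g2 else g1)) (Φ^[n] (bif b' then g2 else g1)) = 0 := by
    have h5 : ∀ b m, ∃ l : Ω, l ≠ 0 ∧
        lin (l1 • g2) (l2 • g1) (orb a c b m) = l • Φ^[m] (bif b then g2 else g1) := by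
      intro b m
      rw [orb, ← rnorm_conj hc]
      cases b
      · exact ⟨_, pow_ne_zero (2 ^ m) k2, by simp [lin, crit, hom]⟩
      · exact ⟨_, pow_ne_zero (2 ^ m) k1, by simp [lin, crit, hom]⟩
    intro b b' m n h
    obtain ⟨l, h6, h7⟩ := h5 b m
    obtain ⟨l', h6', h7'⟩ := h5 b' n
    have h8 := rnorm_wedge_lin (l1 • g2) (l2 • g1) (orb a c b m) (orb a c b' n)
    rwa [h7, h7', h, mul_zero, rnorm_wedge_smul, mul_eq_zero_iff_left (mul_ne_zero h6 h6')] at h8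
  generalize l1 • g2 = e1 at hc he
  generalize l2 • g1 = e2 at hc he
  have V0 : rnorm_li e1 e2 (0, 1) ≠ 0 := rnorm_li_ne he (by simp)
  have hf := rnorm_nm_form (rnorm_li e1 e2 (0, 1))
  have hB : (lin e1 e2 (rnorm_nm (rnorm_li e1 e2 (0, 1)))).1 = 0 :=
    (rnorm_fst he (by rw [rnorm_lin_li he]) V0 _).2 (rnorm_nm_wedge _)
  generalize rnorm_nm (rnorm_li e1 e2 (0, 1)) = B at hf hB
  have hB0 := rnorm_ne hf
  refine ⟨e1, e2, a, c, B, he, hc, hB, hf, ⟨h2, hac, fun m n h => inj m n (tr _ _ _ _ h),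
    fun s hs h => sep s hs (tr _ _ _ _ h)⟩, fun n hn h => ?_, unr_of_card hac hB0 fun n => ?_,
    fun n h => n3 ⟨n + 1, by omega, ?_⟩, fun e h => n4 ?_⟩
  · obtain ⟨r, rfl⟩ := Nat.exists_eq_add_of_le' hn
    rcases Nat.eq_zero_or_pos r with rfl | hr
    · exact hv (tr _ _ _ _ h)
    · exact col hw h3 h4 r hr (tr _ _ _ _ h)
  · have hfin := Set.finite_of_ncard_pos (s := {v : Ω × Ω | (v.2 = 1 ∨ v = (1, 0)) ∧
      (Φ^[n] v).1 = 0}) (by rw [hcard]; positivity)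
    refine ⟨hfin.toFinset.image fun v => rnorm_nm (rnorm_li e1 e2 v), ?_, fun u hu => ?_⟩
    · rw [Finset.card_image_of_injOn, ← Set.ncard_eq_toFinset_card _ hfin, hcard]
      intro v hv w hw e
      have h5 := (hfin.mem_toFinset.1 hv).1
      have h6 := (hfin.mem_toFinset.1 hw).1
      refine rnorm_eq h5 h6 ?_
      rw [← rnorm_lin_li he v, ← rnorm_lin_li he w, rnorm_wedge_lin]
      refine mul_eq_zero_of_right _ (wedge_trans (rnorm_ne (rnorm_nm_form _))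
        (rdyn_comm (rnorm_nm_wedge _)) ?_)
      rw [show rnorm_nm (rnorm_li e1 e2 v) = rnorm_nm (rnorm_li e1 e2 w) from e]
      exact rnorm_nm_wedge _
    · obtain ⟨v, hv, rfl⟩ := Finset.mem_image.1 hu
      obtain ⟨h5, h6⟩ := hfin.mem_toFinset.1 hv
      refine ⟨rnorm_nm_form _, wedge_trans (iter_ne_zero hac (rnorm_li_ne he (rnorm_ne h5)) n)
        (wedge_iter (rnorm_nm_wedge _) n) ((rnorm_fst he hB hB0 _).1 ?_)⟩
      rwa [← rnorm_conj hc, rnorm_lin_li he]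
  · have h5 := (rnorm_fst he hB hB0 _).2 h
    have h6 : (lin e1 e2 B).2 ≠ 0 := fun h => rnorm_lin_ne he hB0 (Prod.ext hB h)
    have h7 : lin e1 e2 B = (lin e1 e2 B).2 • ((0 : Ω), (1 : Ω)) := Prod.ext (by simp [hB]) (by simp)
    rwa [← rnorm_conj hc, h7, hom, Prod.smul_fst, smul_eq_mul,
      mul_eq_zero_iff_left (pow_ne_zero _ h6)] at h5
  · subst e
    exact rnorm_aut he (fun h0 => hac (by simp [h0])) hc hB hB0 h

/-- The levels of the normal form are rational over the levels of the original map. -/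
theorem lev_subset (hΦ : ∀ x y, Φ (x, y) = (a0 * x ^ 2 + a1 * x * y + a2 * y ^ 2,
      b0 * x ^ 2 + b1 * x * y + b2 * y ^ 2)) {e1 e2 : Ω × Ω} {a c : Ω} {B : Ω × Ω}
    (he : wedge e1 e2 ≠ 0) (hc : ∀ Z, Φ (lin e1 e2 Z) = lin e1 e2 (Phi a c Z))
    (hB : (lin e1 e2 B).1 = 0) (hB0 : B ≠ 0) (n : ℕ) (L : Subfield Ω) (h11 : e1.1 ∈ L)
    (h12 : e1.2 ∈ L) (h21 : e2.1 ∈ L) (h22 : e2.2 ∈ L)
    (hL : ∀ z, (Φ^[n] (z, 1)).1 = 0 → z ∈ L) : ∀ z ∈ lev a c B n, z ∈ L := by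
  intro z hz
  have h1 := (rnorm_fst he hB hB0 _).2 hz
  rw [← rnorm_conj hc] at h1
  rw [wedge] at he
  by_cases hy : z * e1.2 + e2.2 = 0
  · have h2 : e1.2 ≠ 0 := fun h => he (by linear_combination e1.1 * hy - (e2.1 + z * e1.1) * h)
    have h3 : z = -e2.2 / e1.2 := by
      field_simp
      linear_combination hy
    rw [h3]
    exact div_mem (neg_mem h22) h12
  · obtain ⟨u, hu⟩ : ∃ u, (z * e1.2 + e2.2) * u = z * e1.1 + e2.1 :=
      ⟨_, mul_div_cancel₀ _ hy⟩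
    have h2 : lin e1 e2 (z, 1) = (z * e1.2 + e2.2) • (u, 1) := by
      ext <;> simp [lin, hu]
    rw [h2, rnorm_iter_smul (rnorm_hom hΦ), Prod.smul_fst, smul_eq_mul,
      mul_eq_zero_iff_left (pow_ne_zero _ hy)] at h1
    have h3 := hL u h1
    have h4 : e1.1 - e1.2 * u ≠ 0 := fun h => he (by
      linear_combination (e2.2 + z * e1.2) * h + e1.2 * hu)
    have h5 : z = (e2.2 * u - e2.1) / (e1.1 - e1.2 * u) := by
      rw [eq_div_iff h4]
      linear_combination -hu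
    rw [h5]
    exact div_mem (sub_mem (mul_mem h22 h3) h21) (sub_mem h11 (mul_mem h12 h3))

end

/-- The normal form conditions descend along a field embedding. -/
theorem NF.of_map {T Ω : Type} [Field T] [Field Ω] (ι : T →+* Ω) {a c : T} {B : T × T}
    (h : NF (ι a) (ι c) (ι B.1, ι B.2)) : NF a c B := by
  have hw : ∀ Z W : T × T, wedge (ι Z.1, ι Z.2) (ι W.1, ι W.2) = ι (wedge Z W) := by
    intro Z W
    simp [wedge]
  refine ⟨?_, ⟨fun e => h.hypH.two ?_, fun e => h.hypH.ne (congrArg ι e), fun m n e =>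
    h.hypH.inj m n ?_, fun s hs e => h.hypH.sep s hs ?_⟩, fun n hn e => h.col n hn ?_,
    fun b i e => h.unr b i ?_, fun n e => h.nonper n ?_, fun e e' => h.aut ?_ ?_⟩
  · simpa [Prod.ext_iff, map_eq_one_iff ι ι.injective] using h.B_form
  · rw [← map_ofNat ι, e, map_zero]
  · rw [rdyn_map, e, map_zero]
  · rw [rdyn_map, e, map_zero]
  · rw [rdyn_map, e, map_zero]
  · rw [map_orb, hw, e, map_zero]
  · rw [map_iter, hw, e, map_zero]
  · rw [e, map_pow]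
  · simpa using congrArg ι e'

theorem mem_lev_map {T Ω : Type} [Field T] [Field Ω] (ι : T →+* Ω) {a c : T} {B : T × T} {n : ℕ}
    {z : T} (h : z ∈ lev a c B n) : ι z ∈ lev (ι a) (ι c) (ι B.1, ι B.2) n := by
  have h1 := map_iter a c ι (z, 1) n
  rw [map_one] at h1
  change wedge ((Phi (ι a) (ι c))^[n] (ι z, 1)) _ = 0
  rw [h1]
  simpa [wedge] using congrArg ι (show wedge _ _ = 0 from h)

end JR
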