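import Pool.Agent.Work.MP_969914_nt.H70Stab
import Pool.Agent.Work.MP_969914_nt.RPStda
import Pool.Agent.Work.MP_969914_nt.RDyn
import Pool.Agent.Work.MP_969914_nt.RIdx
import Pool.Agent.Work.MP_969914_nt.RNorm

-- merged part: Pool.Agent.Work.MP_969914_nt.H70Places
section
/-! Eventual stability over the rational function field of the parameter. -/

set_option autoImplicit false

open Polynomial
open scoped NNReal

namespace Pool.Agent.Work.MP_969914_nt.H70

universe u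

variable {E : Type u} [Field E] {Γ : Type*} [LinearOrderedCommGroupWithZero Γ]

lemma two_terms (w : Valuation E Γ) {P : E[X]} (hP : P ≠ 0) {y : E} (hy : y ≠ 0)
    (h : P.eval y = 0) : ∃ i e, 0 < e ∧ e ≤ P.natDegree ∧ P.coeff i ≠ 0 ∧ P.coeff (i + e) ≠ 0 ∧
      w (P.coeff i) = w (P.coeff (i + e)) * w y ^ e := by
  classical
  obtain ⟨i, hi, hmax⟩ := P.support.exists_max_image (fun i => w (P.coeff i * y ^ i))
    (support_nonempty.2 hP)
  obtain ⟨j, hj, hji, he⟩ : ∃ j ∈ P.support, j ≠ i ∧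
      w (P.coeff j * y ^ j) = w (P.coeff i * y ^ i) := by
    by_contra hno
    push Not at hno
    have := w.map_sum_eq_of_lt (f := fun i => P.coeff i * y ^ i) hi fun j hj => by
      rw [Finset.mem_sdiff, Finset.mem_singleton] at hj
      exact (hmax j hj.1).lt_of_ne (hno j hj.1 hj.2)
    rw [eval_eq_sum, Polynomial.sum] at h
    rw [h, map_zero] at this
    exact mul_ne_zero (mem_support_iff.1 hi) (pow_ne_zero _ hy) (w.zero_iff.1 this.symm)
  have hy' : w y ≠ 0 := w.ne_zero_iff.2 hy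
  have key : ∀ i j, i < j → i ∈ P.support → j ∈ P.support →
      w (P.coeff i * y ^ i) = w (P.coeff j * y ^ j) → ∃ i e, 0 < e ∧ e ≤ P.natDegree ∧
      P.coeff i ≠ 0 ∧ P.coeff (i + e) ≠ 0 ∧ w (P.coeff i) = w (P.coeff (i + e)) * w y ^ e := by
    intro i j hij hi hj he
    obtain ⟨e, rfl⟩ := Nat.exists_eq_add_of_le hij.le
    refine ⟨i, e, by omega, (Nat.le_add_left _ _).trans (le_natDegree_of_mem_supp _ hj),
      mem_support_iff.1 hi, mem_support_iff.1 hj, mul_right_cancel₀ (pow_ne_zero i hy') ?_⟩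
    rw [map_mul, map_mul, map_pow, map_pow, pow_add] at he
    rw [he, mul_assoc, mul_comm (w y ^ i)]
  rcases hji.lt_or_gt with h1 | h1
  · exact key j i h1 hj hi he
  · exact key i j h1 hi hj he.symm

variable {k : Type*} [Field k] [Algebra k[X] E] {F : Type*} [Field F] [Algebra F E]
  [Algebra k[X] F] [IsScalarTower k[X] F E] [IsFractionRing k[X] F] [Algebra.IsAlgebraic F E]

lemma exists_pow_eq (w : Valuation E Γ) {γ : Γ} (hγ : γ ≠ 0)
    (h : ∀ q : k[X], q ≠ 0 → ∃ m : ℕ, w (algebraMap k[X] E q) = γ ^ m) {y : E} (hy : y ≠ 0) :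
    ∃ e, 0 < e ∧ e ≤ (minpoly F y).natDegree ∧ ∃ r : ℤ, w y ^ e = γ ^ r := by
  have hF : ∀ a : F, a ≠ 0 → ∃ m : ℤ, w (algebraMap F E a) = γ ^ m := by
    intro a ha
    obtain ⟨x, z, hz, rfl⟩ := IsFractionRing.div_surjective (A := k[X]) a
    obtain ⟨m, hm⟩ := h x (by rintro rfl; simp at ha)
    obtain ⟨n, hn⟩ := h z (nonZeroDivisors.ne_zero hz)
    refine ⟨m - n, ?_⟩
    rw [map_div₀, ← IsScalarTower.algebraMap_apply, ← IsScalarTower.algebraMap_apply, map_div₀,
      hm, hn, zpow_sub₀ hγ, zpow_natCast, zpow_natCast]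
  obtain ⟨i, e, h1, h2, h3, h4, h5⟩ := two_terms w (P := (minpoly F y).map (algebraMap F E))
    (Polynomial.map_ne_zero (minpoly.ne_zero (Algebra.IsAlgebraic.isAlgebraic y).isIntegral)) hy
    (by rw [eval_map_algebraMap, minpoly.aeval])
  rw [natDegree_map] at h2
  simp only [coeff_map, ne_eq, map_eq_zero] at h3 h4 h5
  obtain ⟨m, hm⟩ := hF _ h3
  obtain ⟨n, hn⟩ := hF _ h4
  refine ⟨e, h1, h2, m - n, ?_⟩
  rw [hm, hn] at h5
  rw [zpow_sub₀ hγ, h5, mul_div_cancel_left₀ _ (zpow_ne_zero _ hγ)]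

omit [Algebra.IsAlgebraic F E] in
variable (F) in
include F in
lemma inj_A : Function.Injective (algebraMap k[X] E) := by
  rw [IsScalarTower.algebraMap_eq k[X] F E]
  exact (algebraMap F E).injective.comp (IsFractionRing.injective _ _)

variable (F) in
include F in
lemma exists_atInf (h2 : (2 : k) ≠ 0) : ∃ v : Valuation E ℝ≥0, AtInf k v := by
  obtain ⟨Γ, _, w, h1, h3⟩ := exists_inf (inj_A (k := k) (E := E) F)
  have h0 : w (algebraMap k[X] E X) ≠ 0 := (zero_lt_one.trans h3).ne'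
  have : w.IsNontrivial := ⟨_, h0, h3.ne'⟩
  have hp := fun y hy => exists_pow_eq (F := F) w h0 (fun q hq => ⟨_, val_inf h1 h3 hq⟩) (y := y) hy
  obtain ⟨hr⟩ : Nonempty w.RankOne := by
    rw [Valuation.nonempty_rankOne_iff_mulArchimedean]
    refine ⟨fun a b hb => ?_⟩
    obtain ⟨x, rfl⟩ := MonoidWithZeroHom.ValueGroup₀.restrict₀_surjective _ a
    obtain ⟨y, rfl⟩ := MonoidWithZeroHom.ValueGroup₀.restrict₀_surjective _ b
    rw [← w.restrict_def] at hb ⊢
    rw [← map_one w.restrict, w.restrict_lt_iff, map_one] at hb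
    simp only [← w.restrict_def, ← map_pow, w.restrict_le_iff]
    rcases le_or_gt (w x) 1 with hx | hx
    · exact ⟨0, by simpa using hx⟩
    obtain ⟨e, he, -, r, hr⟩ := hp x (w.pos_iff.1 (zero_lt_one.trans hx))
    obtain ⟨e', he', -, r', hr'⟩ := hp y (w.pos_iff.1 (zero_lt_one.trans hb))
    have k1 : 0 < r' := (one_lt_zpow_iff_right₀ h3).1 (hr' ▸ one_lt_pow₀ hb he'.ne')
    refine ⟨e' * r.toNat, (le_self_pow₀ hx.le he.ne').trans ?_⟩
    rw [map_pow, pow_mul, hr, hr', ← zpow_natCast, ← zpow_mul]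
    refine zpow_le_zpow_right₀ h3.le ((Int.self_le_toNat r).trans ?_)
    exact le_mul_of_one_le_left (Int.natCast_nonneg _) k1
  have hm := Valuation.RankOne.strictMono w
  refine ⟨w.restrict.map (Valuation.RankOne.hom w) hm.monotone, fun r => ?_, ?_, h2⟩
  · rw [Valuation.map_apply, ← map_one (Valuation.RankOne.hom w), hm.le_iff_le,
      w.restrict_le_one_iff]
    exact h1 r
  · rw [Valuation.map_apply, ← map_one (Valuation.RankOne.hom w), hm.lt_iff_lt,
      ← map_one w.restrict, w.restrict_lt_iff, map_one]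
    exact h3

variable [IsAlgClosed E]

include F in
lemma isIntegral_of_above [IsAlgClosed k] {β : E}
    (h : ∀ (Γ : Type u) [LinearOrderedCommGroupWithZero Γ] (w : Valuation E Γ) (a : k),
      Above w a → w β ≤ 1) : IsIntegral k[X] β := by
  classical
  have hi := (Algebra.IsAlgebraic.isAlgebraic (R := F) β).isIntegral
  have hm := (minpoly.monic hi).map (algebraMap F E)
  have h1 : (minpoly F β).map (algebraMap F E) ∈ lifts (algebraMap k[X] E) := by
    rw [lifts_iff_coeff_lifts]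
    intro n
    refine exists_poly (F := F) (by rw [coeff_map]; exact ⟨_, rfl⟩) fun Γ _ w a hw => ?_
    have h3 : (minpoly F β).map (algebraMap F E) ∈ lifts w.integer.subtype := by
      rw [lifts_iff_liftsRing, (IsAlgClosed.splits _).eq_prod_roots_of_monic hm]
      refine multiset_prod_mem _ fun p hp => ?_
      obtain ⟨y, hy, rfl⟩ := Multiset.mem_map.1 hp
      obtain ⟨σ, rfl⟩ := mem_conj.1 (show y ∈ conj F β from Multiset.mem_toFinset.2 hy)
      refine sub_mem ((lifts_iff_liftsRing _ _).1 (X_mem_lifts _))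
        ((lifts_iff_liftsRing _ _).1 (C'_mem_lifts ⟨⟨σ β, ?_⟩, rfl⟩))
      exact h Γ (w.comap (σ : E →+* E)) a ⟨fun q => by simpa [map_A] using hw.le q,
        by simpa only [Valuation.comap_apply, RingHom.coe_coe, map_A] using hw.lt⟩
    obtain ⟨x, hx⟩ := (lifts_iff_coeff_lifts _).1 h3 n
    rw [← hx]
    exact x.2
  obtain ⟨P, hP, -, hP'⟩ := lifts_and_natDegree_eq_and_monic h1 hm
  exact ⟨P, hP', by rw [← eval_map, hP, eval_map_algebraMap, minpoly.aeval]⟩

omit [IsAlgClosed E] in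
lemma pole_case {w : Valuation E Γ} {a : k} (hw : Above w a) (c : k[X]) {β : E} (hβ : 1 < w β) :
    ∃ C : ℕ, ∀ n z, (fq (algebraMap k[X] E c))^[n] z = β →
      2 ^ n ≤ C * (minpoly F z).natDegree := by
  have h0 : w (algebraMap k[X] E (X - C a)) ≠ 0 :=
    w.ne_zero_iff.2 ((map_ne_zero_iff _ (inj_A F)).2 (X_sub_C_ne_zero a))
  have hp := fun y hy => exists_pow_eq (F := F) w h0 (fun q hq => ⟨_, hw.val_eq hq⟩) (y := y) hy
  obtain ⟨e, he, -, r, hr⟩ := hp β (w.pos_iff.1 (zero_lt_one.trans hβ))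
  have hr0 : r ≠ 0 := by
    rintro rfl
    exact (one_lt_pow₀ hβ he.ne').ne' (by simpa using hr)
  refine ⟨r.natAbs, fun n z hz => ?_⟩
  have h1 : 1 < w z := by
    by_contra h1
    exact absurd (hz ▸ MP_969914_nt.val_iter_le (hw.le c) (not_lt.1 h1) n) (not_le.2 hβ)
  have h3 := val_iter_of_le h1 ((hw.le c).trans h1.le) n
  obtain ⟨e', he', hle, r', hr'⟩ := hp z (w.pos_iff.1 (zero_lt_one.trans h1))
  have h4 : r * e' = r' * (2 ^ n * e : ℕ) := by
    apply zpow_right_injective₀ (zero_lt_iff.2 h0) hw.lt.ne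
    simp only
    rw [zpow_mul, zpow_mul, ← hr, ← hr', ← hz, h3, zpow_natCast, zpow_natCast, ← pow_mul,
      ← pow_mul, ← pow_mul]
    congr 1; ring
  have h5 := congrArg Int.natAbs h4
  rw [Int.natAbs_mul, Int.natAbs_mul, Int.natAbs_natCast, Int.natAbs_natCast] at h5
  refine le_trans (Nat.le_of_dvd (Nat.mul_pos (Int.natAbs_pos.2 hr0) he') ?_)
    (Nat.mul_le_mul_left _ hle)
  exact ⟨r'.natAbs * e, by rw [h5]; ring⟩

theorem stab_F [IsAlgClosed k] (h2 : (2 : k) ≠ 0) {s0 : k[X]} {g : k[X][X]} (hg : Irreducible g)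
    (hd : g.natDegree ≠ 0) (hsep : derivative g ≠ 0)
    (hs0 : s0 = X ∨ (s0.natDegree ≠ 0 ∧ derivative s0 = 0 ∧ dT g ≠ 0)) {β : E}
    (hβ : aeval β g = 0) (hper : ∀ n, (fq (-algebraMap k[X] E s0 ^ 2))^[n + 1] β ≠ β) :
    ∃ C : ℕ, ∀ n z, (fq (-algebraMap k[X] E s0 ^ 2))^[n] z = β →
      2 ^ n ≤ C * (minpoly F z).natDegree := by
  classical
  by_cases hi : IsIntegral k[X] β
  swap
  · by_contra hno
    refine hi (isIntegral_of_above (F := F) fun Γ _ w a hw => not_lt.1 fun h => hno ?_)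
    have := pole_case (F := F) hw (-s0 ^ 2) h
    rwa [map_neg, map_pow (algebraMap k[X] E)] at this
  have hm : β ∈ IS F k := ⟨hi, (separable_frac hg hd hsep (F := F)).2.of_dvd
    (minpoly.dvd F β (by rwa [aeval_map_algebraMap]))⟩
  obtain ⟨v, hv⟩ := exists_atInf (E := E) F h2
  obtain ⟨N, hN⟩ : Stab F (-algebraMap k[X] E s0 ^ 2) β := by
    rcases hs0 with rfl | ⟨h1, h3, hT⟩
    · exact hv.stab_sep hm hper
    refine hv.stab_insep ?_ h3 hm fun h0 => ?_
    · rw [hv.val_eq (by rintro rfl; simp at h1)]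
      exact one_lt_pow₀ hv.ht h1
    obtain ⟨g0, k1, -, k3⟩ := exists_min hm
    have k4 := isDer_du hm g hβ
    rw [del, h0, mul_zero, add_zero] at k4
    have k5 : g ∣ g0 := by
      obtain ⟨q, hq⟩ := k3 g hβ
      rcases hg.isUnit_or_isUnit hq with hu | hu
      · exact absurd k1 (hu.map (aeval β)).ne_zero
      · rw [hq]; exact hu.mul_right_dvd.2 dvd_rfl
    have k6 := (ht1 k).le_of_dvd (k5.trans (k3 _ k4)) hT
    have k7 := ht1_dT_le g
    apply hT
    ext1 i
    rw [coeff_dT, coeff_zero]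
    exact derivative_of_natDegree_zero (by have := (ht1_le_iff g 0).1 (by omega) i; omega)
  refine ⟨2 ^ N, fun n z hz => (hN n z hz).trans (Nat.mul_le_mul_left _ ?_)⟩
  exact ((Multiset.toFinset_card_le _).trans (card_roots' _)).trans natDegree_map_le

end Pool.Agent.Work.MP_969914_nt.H70
end

-- merged part: Pool.Agent.Work.MP_969914_nt.RPVal
section
/-! Normalised real valuations above a point of the projective line. -/

set_option autoImplicit false

namespace JR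

open scoped NNReal ENNReal
open Polynomial

open Pool.Agent.Work.MP_969914_nt

/-- A valuation all of whose values are commensurable with `w π` can be normalised. -/
theorem rpval_norm {E Γ : Type} [Field E] [LinearOrderedCommGroupWithZero Γ] (w : Valuation E Γ)
    {π : E} (h3 : 1 < w π) (hp : ∀ y, y ≠ 0 → ∃ e, 0 < e ∧ ∃ r : ℤ, w y ^ e = w π ^ r) :
    ∃ v : Valuation E ℝ≥0, v π = 2 ∧ ∀ x y, v x < v y ↔ w x < w y := by
  have h0 : w π ≠ 0 := (zero_lt_one.trans h3).ne'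
  have : w.IsNontrivial := ⟨_, h0, h3.ne'⟩
  obtain ⟨hr⟩ : Nonempty w.RankOne := by
    rw [Valuation.nonempty_rankOne_iff_mulArchimedean]
    refine ⟨fun a b hb => ?_⟩
    obtain ⟨x, rfl⟩ := MonoidWithZeroHom.ValueGroup₀.restrict₀_surjective _ a
    obtain ⟨y, rfl⟩ := MonoidWithZeroHom.ValueGroup₀.restrict₀_surjective _ b
    rw [← w.restrict_def] at hb ⊢
    rw [← map_one w.restrict, w.restrict_lt_iff, map_one] at hb
    simp only [← w.restrict_def, ← map_pow, w.restrict_le_iff]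
    rcases le_or_gt (w x) 1 with hx | hx
    · exact ⟨0, by simpa using hx⟩
    obtain ⟨e, he, r, hr⟩ := hp x (w.pos_iff.1 (zero_lt_one.trans hx))
    obtain ⟨e', he', r', hr'⟩ := hp y (w.pos_iff.1 (zero_lt_one.trans hb))
    have k1 : 0 < r' := (one_lt_zpow_iff_right₀ h3).1 (hr' ▸ one_lt_pow₀ hb he'.ne')
    refine ⟨e' * r.toNat, (le_self_pow₀ hx.le he.ne').trans ?_⟩
    rw [map_pow, pow_mul, hr, hr', ← zpow_natCast, ← zpow_mul]
    refine zpow_le_zpow_right₀ h3.le ((Int.self_le_toNat r).trans ?_)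
    exact le_mul_of_one_le_left (Int.natCast_nonneg _) k1
  have hm := Valuation.RankOne.strictMono w
  obtain ⟨u, hu⟩ : ∃ u : Valuation E ℝ≥0, ∀ x y, u x < u y ↔ w x < w y :=
    ⟨w.restrict.map (Valuation.RankOne.hom w) hm.monotone, fun x y => by
      rw [Valuation.map_apply, Valuation.map_apply, hm.lt_iff_lt, w.restrict_lt_iff]⟩
  have h1 : 1 < u π := by
    have := (hu 1 π).2 (by rwa [map_one])
    rwa [map_one] at this
  have h2 : (1 : ℝ) < u π := by exact_mod_cast h1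
  have hs : 0 < Real.logb (u π) 2 := Real.logb_pos h2 one_lt_two
  let f : ℝ≥0 →*₀ ℝ≥0 :=
    { NNReal.rpowMonoidHom (Real.logb (u π) 2) with map_zero' := NNReal.zero_rpow hs.ne' }
  have hf : ∀ x, f x = x ^ Real.logb (u π) 2 := fun _ => rfl
  have hf' : StrictMono f := fun x y h => by
    rw [hf, hf]
    exact NNReal.rpow_lt_rpow h hs
  refine ⟨u.map f hf'.monotone, ?_, fun x y => ?_⟩
  · rw [Valuation.map_apply, hf]
    apply NNReal.coe_injective
    rw [NNReal.coe_rpow, Real.rpow_logb (zero_lt_one.trans h2) h2.ne' two_pos, NNReal.coe_ofNat]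
  · rw [Valuation.map_apply, Valuation.map_apply, hf'.lt_iff_lt, hu]

/-- Residues exist as soon as polynomials have leading terms. -/
theorem rpval_res {k E : Type} [Field k] [IsAlgClosed k] [Field E] [Algebra k[X] E]
    [Algebra.IsAlgebraic k[X] E] (hinj : Function.Injective (algebraMap k[X] E))
    (v : Valuation E ℝ≥0) (hC : ∀ r : k, v (algebraMap k[X] E (C r)) ≤ 1) {τ : k[X]}
    (hτ : v (algebraMap k[X] E τ) ≠ 1) (hτ0 : τ ≠ 0)
    (hl : ∀ f : k[X], f ≠ 0 → ∃ (c : k) (m : ℕ), c ≠ 0 ∧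
      v (algebraMap k[X] E (f - C c * τ ^ m)) < v (algebraMap k[X] E τ) ^ m)
    {z : E} (hz : v z ≤ 1) : ∃ c : k, v (z - algebraMap k[X] E (C c)) < 1 := by
  classical
  have hne : ∀ f : k[X], f ≠ 0 → v (algebraMap k[X] E f) ≠ 0 := fun f hf =>
    v.ne_zero_iff.2 ((map_ne_zero_iff _ hinj).2 hf)
  have hv : ∀ (f : k[X]) (c : k) (m : ℕ), c ≠ 0 →
      v (algebraMap k[X] E (f - C c * τ ^ m)) < v (algebraMap k[X] E τ) ^ m →
      v (algebraMap k[X] E f) = v (algebraMap k[X] E τ) ^ m := by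
    intro f c m hc h
    have e : v (algebraMap k[X] E (C c * τ ^ m)) = v (algebraMap k[X] E τ) ^ m := by
      rw [map_mul, map_mul, val_C hC hc, one_mul, map_pow, map_pow]
    rw [← sub_add_cancel f (C c * τ ^ m), map_add, v.map_add_eq_of_lt_right (by rwa [e]), e]
  have hq : ∀ f g : k[X], g ≠ 0 → v (algebraMap k[X] E f) ≤ v (algebraMap k[X] E g) →
      ∃ c : k, v (algebraMap k[X] E (C c * g - f)) < v (algebraMap k[X] E g) := by
    intro f g hg h
    rcases h.lt_or_eq with h | h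
    · exact ⟨0, by rwa [C_0, zero_mul, zero_sub, map_neg, v.map_neg]⟩
    have hf : f ≠ 0 := by
      rintro rfl
      rw [map_zero, map_zero] at h
      exact hne g hg h.symm
    obtain ⟨c, m, hc, h1⟩ := hl f hf
    obtain ⟨d, n, hd, h2⟩ := hl g hg
    have h3 := hv g d n hd h2
    obtain rfl : m = n := pow_right_injective₀ (zero_lt_iff.2 (hne τ hτ0)) hτ
      ((hv f c m hc h1).symm.trans (h.trans h3))
    refine ⟨c / d, ?_⟩
    have e : C (c / d) * g - f = C (c / d) * (g - C d * τ ^ m) - (f - C c * τ ^ m) := by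
      have : C (c / d) * C d = C c := by rw [← C_mul, div_mul_cancel₀ c hd]
      linear_combination τ ^ m * this
    rw [e, map_sub, h3]
    refine v.map_sub_lt ?_ h1
    rw [map_mul, map_mul]
    exact (mul_le_of_le_one_left' (hC _)).trans_lt h2
  obtain ⟨g, hg, hgz⟩ := Algebra.IsAlgebraic.isAlgebraic (R := k[X]) z
  obtain ⟨i, hi, hmax⟩ := g.support.exists_max_image (fun i => v (algebraMap k[X] E (g.coeff i)))
    (support_nonempty.2 hg)
  have hi0 := mem_support_iff.1 hi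
  have hmax' : ∀ j, v (algebraMap k[X] E (g.coeff j)) ≤ v (algebraMap k[X] E (g.coeff i)) := by
    intro j
    by_cases hj : j ∈ g.support
    · exact hmax j hj
    · rw [notMem_support_iff.1 hj, map_zero, map_zero]
      exact zero_le
  choose c hc using fun j => hq (g.coeff j) (g.coeff i) hi0 (hmax' j)
  set q : k[X] := ∑ j ∈ g.support, monomial j (c j) with hqd
  have hq0 : q ≠ 0 := by
    intro h0
    have h1 : q.coeff i = c i := by
      rw [hqd, finsetSum_coeff, Finset.sum_eq_single i, coeff_monomial, if_pos rfl]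
      · intro j _ hj
        rw [coeff_monomial, if_neg hj]
      · exact fun h => absurd hi h
    have h2 := hc i
    rw [← h1, h0, coeff_zero, C_0, zero_mul, zero_sub, map_neg, v.map_neg] at h2
    exact h2.false
  have h1 : v (aeval z (q.map C)) < 1 := by
    have e : algebraMap k[X] E (g.coeff i) * aeval z (q.map C) =
        ∑ j ∈ g.support, algebraMap k[X] E (C (c j) * g.coeff i - g.coeff j) * z ^ j := by
      rw [aeval_def, eval₂_eq_sum, Polynomial.sum] at hgz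
      simp only [map_sub, sub_mul, Finset.sum_sub_distrib, hgz, sub_zero, hqd, Polynomial.map_sum,
        map_sum, Finset.mul_sum, map_monomial, aeval_monomial, map_mul]
      exact Finset.sum_congr rfl fun j _ => by ring
    have h2 : v (algebraMap k[X] E (g.coeff i) * aeval z (q.map C)) <
        v (algebraMap k[X] E (g.coeff i)) := by
      rw [e]
      refine v.map_sum_lt (hne _ hi0) fun j _ => ?_
      rw [map_mul, map_pow]
      exact (mul_le_of_le_one_right' (pow_le_one' hz j)).trans_lt (hc j)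
    rw [map_mul] at h2
    by_contra h3
    exact absurd h2 (not_lt.2 (le_mul_of_one_le_right' (not_lt.1 h3)))
  by_contra hno
  push Not at hno
  rw [(IsAlgClosed.splits q).eq_prod_roots, Polynomial.map_mul, map_C, map_mul, aeval_C, map_mul,
    val_C hC (leadingCoeff_ne_zero.2 hq0), one_mul, Polynomial.map_multiset_prod,
    map_multiset_prod, map_multiset_prod] at h1
  refine absurd h1 (not_lt.2 (Multiset.one_le_prod_of_one_le ?_))
  simp only [Multiset.map_map, Multiset.mem_map, Function.comp_apply, Polynomial.map_sub, map_X,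
    map_C, map_sub, aeval_X, aeval_C]
  rintro _ ⟨r, -, rfl⟩
  exact hno r

theorem exists_place {k E : Type} [Field k] [IsAlgClosed k] [Field E] [Algebra (RatFunc k) E]
    [Algebra.IsAlgebraic (RatFunc k) E] (a : Option k) :
    ∃ v : Valuation E ℝ≥0, (∀ f : k[X], f ≠ 0 → v (ip k E f) = szp a f) ∧
      ∀ z, v z ≤ 1 → ∃ c : k, v (z - ip k E (C c)) < 1 := by
  let _ : Algebra k[X] E := (ip k E).toAlgebra
  have : IsScalarTower k[X] (RatFunc k) E := IsScalarTower.of_algebraMap_eq' rfl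
  have hinj := H70.inj_A (k := k) (E := E) (RatFunc k)
  have : Algebra.IsAlgebraic k[X] E :=
    (IsFractionRing.comap_isAlgebraic_iff (K := RatFunc k)).2 ‹_›
  change ∃ v : Valuation E ℝ≥0, (∀ f : k[X], f ≠ 0 → v (algebraMap k[X] E f) = szp a f) ∧
    ∀ z, v z ≤ 1 → ∃ c : k, v (z - algebraMap k[X] E (C c)) < 1
  cases a with
  | none =>
    obtain ⟨Γ, _, w, h1, h3⟩ := exists_inf hinj
    have h0 : w (algebraMap k[X] E X) ≠ 0 := (zero_lt_one.trans h3).ne'
    obtain ⟨v, h4, h5⟩ := rpval_norm w h3 fun y hy => by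
      obtain ⟨e, he, -, h⟩ := H70.exists_pow_eq (F := RatFunc k) w h0
        (fun q hq => ⟨_, val_inf h1 h3 hq⟩) hy
      exact ⟨e, he, h⟩
    have h6 : ∀ r : k, v (algebraMap k[X] E (C r)) ≤ 1 := fun r => by
      have := (h5 1 (algebraMap k[X] E (C r))).not.2 (by rw [map_one]; exact not_lt.2 (h1 r))
      rwa [map_one, not_lt] at this
    have h7 : 1 < v (algebraMap k[X] E X) := by rw [h4]; exact one_lt_two
    refine ⟨v, fun f hf => by rw [val_inf h6 h7 hf, h4, szp], fun z hz =>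
      rpval_res hinj v h6 h7.ne' X_ne_zero (fun f hf => ?_) hz⟩
    refine ⟨f.leadingCoeff, f.natDegree, leadingCoeff_ne_zero.2 hf, ?_⟩
    rw [self_sub_C_mul_X_pow]
    rcases eraseLead_natDegree_lt_or_eraseLead_eq_zero f with h | h
    · by_cases h8 : f.eraseLead = 0
      · rw [h8, map_zero, map_zero]
        exact pow_pos (zero_lt_one.trans h7) _
      · rw [val_inf h6 h7 h8]
        exact pow_lt_pow_right₀ h7 h
    · rw [h, map_zero, map_zero]
      exact pow_pos (zero_lt_one.trans h7) _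
  | some a =>
    obtain ⟨Γ, _, w, h1, h2⟩ := exists_val (algebraMap k[X] E) hinj a
    have hw : Above w a := ⟨h1, h2⟩
    have hπ : algebraMap k[X] E (X - C a) ≠ 0 := (map_ne_zero_iff _ hinj).2 (X_sub_C_ne_zero a)
    have h0 : w (algebraMap k[X] E (X - C a)) ≠ 0 := w.ne_zero_iff.2 hπ
    have h3 : 1 < w (algebraMap k[X] E (X - C a))⁻¹ := by
      rw [map_inv₀]
      exact (one_lt_inv₀ (zero_lt_iff.2 h0)).2 h2
    obtain ⟨v, h4, h5⟩ := rpval_norm w h3 fun y hy => by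
      obtain ⟨e, he, -, r, h⟩ := H70.exists_pow_eq (F := RatFunc k) w h0
        (fun q hq => ⟨_, hw.val_eq hq⟩) hy
      exact ⟨e, he, -r, by rw [h, map_inv₀, inv_zpow', neg_neg]⟩
    have h6 : v (algebraMap k[X] E (X - C a)) = 2⁻¹ := by rw [← h4, map_inv₀, inv_inv]
    have hv : Above v a := ⟨fun r => by
      have := (h5 1 (algebraMap k[X] E r)).not.2 (by rw [map_one]; exact not_lt.2 (h1 r))
      rwa [map_one, not_lt] at this, by rw [h6]; exact inv_lt_one_of_one_lt₀ one_lt_two⟩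
    refine ⟨v, fun f hf => by rw [hv.val_eq hf, h6, szp], fun z hz =>
      rpval_res hinj v (fun r => hv.le _) hv.lt.ne (X_sub_C_ne_zero a) (fun f hf => ?_) hz⟩
    obtain ⟨u, e, hu⟩ := exists_eq_pow_rootMultiplicity_mul_and_not_dvd f hf a
    refine ⟨u.eval a, f.rootMultiplicity a, fun h => hu (dvd_iff_isRoot.2 h), ?_⟩
    generalize f.rootMultiplicity a = m at e
    have e' : f - C (u.eval a) * (X - C a) ^ m = (X - C a) ^ m * (u - C (u.eval a)) := by
      rw [e]
      ring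
    rw [e', map_mul, map_mul, map_pow, map_pow]
    refine mul_lt_of_lt_one_right (pow_pos (v.pos_iff.2 hπ) _) (hv.lt_one ?_)
    simp

/-- The product formula on the projective line. -/
theorem prod_szp {k : Type} [Field k] [IsAlgClosed k] [DecidableEq k] {f : k[X]} (hf : f ≠ 0) :
    szp none f * ∏ a ∈ f.roots.toFinset, szp (some a) f = 1 := by
  have _ := hf
  simp only [szp]
  rw [Finset.prod_pow_eq_pow_sum, ← IsAlgClosed.card_roots_eq_natDegree,
    ← Multiset.toFinset_sum_count_eq, Finset.sum_congr rfl fun a _ => count_roots f, ← mul_pow,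
    mul_inv_cancel₀ two_ne_zero, one_pow]

end JR
end

-- merged part: Pool.Agent.Work.MP_969914_nt.RPInt
section
/-! Construction of the integral over all places. -/

set_option autoImplicit false

namespace JR

open scoped NNReal ENNReal
open Polynomial Filter Topology

theorem rpint_mean (J : Type) [Nonempty J] [SemilatticeSup J] : ∃ M : (J → ℝ≥0∞) → ℝ≥0∞,
    (∀ u v, (∀ᶠ j in atTop, u j ≤ v j) → M u ≤ M v) ∧
    (∀ u v, M (fun j => u j + v j) = M u + M v) ∧
    (∀ c u, c ≠ ⊤ → M (fun j => c * u j) = c * M u) ∧ ∀ c, M (fun _ => c) = c := by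
  let U : Ultrafilter J := Ultrafilter.of atTop
  have ht : ∀ u : J → ℝ≥0∞, Tendsto u U (𝓝 (U.map u).lim) := fun u => (U.map u).le_nhds_lim
  exact ⟨fun u => (U.map u).lim, fun u v h =>
    le_of_tendsto_of_tendsto (ht u) (ht v) (h.filter_mono (Ultrafilter.of_le _)),
    fun u v => tendsto_nhds_unique (ht _) ((ht u).add (ht v)),
    fun c u hc => tendsto_nhds_unique (ht _) (ENNReal.Tendsto.const_mul (ht u) (.inr hc)),
    fun c => tendsto_nhds_unique (ht _) tendsto_const_nhds⟩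

/-- The positive part of the binary logarithm. -/
noncomputable def rpLn (x : ℝ≥0) : ℝ≥0 := (Real.logb 2 x).toNNReal

theorem rpLn_inv (x : ℝ≥0) : (rpLn x : ℝ) = Real.logb 2 x + rpLn x⁻¹ := by
  simp only [rpLn, Real.coe_toNNReal', NNReal.coe_inv, Real.logb_inv]
  rcases le_total (Real.logb 2 x) 0 with h | h
  · rw [max_eq_right h, max_eq_left (by linarith)]; ring
  · rw [max_eq_left h, max_eq_right (by linarith)]; ring

theorem rpLn_of_le {x : ℝ≥0} (h : x ≤ 1) : rpLn x = 0 :=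
  Real.toNNReal_of_nonpos (Real.logb_nonpos one_lt_two x.2 h)

theorem rpLn_of_ge {x : ℝ≥0} (h : 1 ≤ x) : (rpLn x : ℝ) = Real.logb 2 x :=
  Real.coe_toNNReal _ (Real.logb_nonneg one_lt_two h)

theorem rpLn_mono {x y : ℝ≥0} (h : x ≤ max 1 y) : rpLn x ≤ rpLn y := by
  rcases le_or_gt x 1 with h1 | h1
  · rw [rpLn_of_le h1]; exact zero_le
  · exact Real.toNNReal_le_toNNReal (Real.logb_le_logb_of_le one_lt_two
      (NNReal.coe_pos.2 (zero_lt_one.trans h1)) ((le_max_iff.1 h).resolve_left h1.not_ge))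

theorem rpLn_mul_le (x y : ℝ≥0) : rpLn (x * y) ≤ rpLn x + rpLn y := by
  rcases eq_or_ne (x * y) 0 with h | h
  · rw [h, rpLn_of_le zero_le]; exact zero_le
  · rw [rpLn, NNReal.coe_mul, Real.logb_mul (NNReal.coe_ne_zero.2 (left_ne_zero_of_mul h))
      (NNReal.coe_ne_zero.2 (right_ne_zero_of_mul h))]
    exact Real.toNNReal_add_le

theorem rpLn_pow (x : ℝ≥0) (n : ℕ) : rpLn (x ^ n) = n * rpLn x := by
  rw [rpLn, NNReal.coe_pow, Real.logb_pow, Real.toNNReal_mul (Nat.cast_nonneg n),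
    Real.toNNReal_natCast, rpLn]

theorem rpLn_two : rpLn 2 = 1 := by simp [rpLn]

theorem rpLn_pf {f x : ℝ≥0} (h1 : 1 ≤ f) (h2 : x ≤ f) (h0 : x ≠ 0) :
    rpLn (f / x) + rpLn x = rpLn f + rpLn x⁻¹ := by
  apply NNReal.eq
  rw [NNReal.coe_add, NNReal.coe_add, rpLn_inv x, rpLn_of_ge h1,
    rpLn_of_ge ((one_le_div₀ (pos_iff_ne_zero.2 h0)).2 h2), NNReal.coe_div,
    Real.logb_div (NNReal.coe_pos.2 (zero_lt_one.trans_le h1)).ne' (NNReal.coe_ne_zero.2 h0)]
  ring

theorem rpLn_prod {ι : Type} [Fintype ι] {x : ι → ℝ≥0} (h : ∀ i, x i ≠ 0) :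
    ∑ i, rpLn (x i) + rpLn (∏ i, x i)⁻¹ = ∑ i, rpLn (x i)⁻¹ + rpLn (∏ i, x i) := by
  apply NNReal.eq
  rw [NNReal.coe_add, NNReal.coe_add, rpLn_inv (∏ i, x i), NNReal.coe_prod,
    Real.logb_prod _ _ fun i _ => NNReal.coe_ne_zero.2 (h i), NNReal.coe_sum, NNReal.coe_sum,
    Finset.sum_congr rfl fun i _ => rpLn_inv (x i), Finset.sum_add_distrib]
  ring

theorem rpLn_div {x y : ℝ≥0} (hx : x ≠ 0) (hy : y ≠ 0) :
    rpLn (x / y) + (rpLn x⁻¹ + rpLn y) = rpLn (x / y)⁻¹ + (rpLn x + rpLn y⁻¹) := by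
  apply NNReal.eq
  simp only [NNReal.coe_add]
  rw [rpLn_inv (x / y), rpLn_inv x, rpLn_inv y, NNReal.coe_div,
    Real.logb_div (NNReal.coe_ne_zero.2 hx) (NNReal.coe_ne_zero.2 hy)]
  ring

section line
variable {k : Type} [Field k]

theorem rpint_szp_ne (a : Option k) (f : k[X]) : szp a f ≠ 0 := by
  cases a <;> simp [szp]

theorem rpint_szp_le (a : k) (f : k[X]) : szp (some a) f ≤ 1 :=
  pow_le_one₀ zero_le (inv_le_one_of_one_le₀ one_le_two)

theorem rpint_tsum_szp (f : k[X]) : ∑' a, (rpLn (szp a f) : ℝ≥0∞) = f.natDegree := by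
  rw [tsum_eq_single none fun a ha => ?_]
  · simp [szp, rpLn_pow, rpLn_two]
  · obtain ⟨a, rfl⟩ := Option.ne_none_iff_exists'.1 ha
    rw [rpLn_of_le (rpint_szp_le a f), ENNReal.coe_zero]

theorem rpint_tsum_inv [IsAlgClosed k] (f : k[X]) :
    ∑' a, (rpLn (szp a f)⁻¹ : ℝ≥0∞) = f.natDegree := by
  classical
  have h1 : ∀ a : k, rpLn (szp (some a) f)⁻¹ = f.roots.count a := fun a => by
    rw [szp, ← inv_pow, inv_inv, rpLn_pow, rpLn_two, mul_one, count_roots]
  rw [tsum_eq_sum (s := f.roots.toFinset.map Function.Embedding.some) fun a ha => ?_,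
    Finset.sum_map]
  · simp only [Function.Embedding.some_apply, h1, ENNReal.coe_natCast]
    rw [← Nat.cast_sum, Multiset.toFinset_sum_count_eq, IsAlgClosed.card_roots_eq_natDegree]
  · cases a with
    | none => rw [szp, rpLn_of_le (inv_le_one_of_one_le₀ (one_le_pow₀ one_le_two)), ENNReal.coe_zero]
    | some a => rw [h1, Multiset.count_eq_zero.2 (by simpa using ha)]; simp

variable {E : Type} [Field E] [Algebra (RatFunc k) E] {v : Option k → Valuation E ℝ≥0}

theorem rpint_v_rat (hv : ∀ a (f : k[X]), f ≠ 0 → v a (ip k E f) = szp a f) {r : RatFunc k}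
    (hr : r ≠ 0) (a : Option k) : v a (algebraMap _ E r) = szp a r.num / szp a r.denom := by
  rw [← hv a _ (RatFunc.num_ne_zero hr), ← hv a _ r.denom_ne_zero, ← map_div₀]
  conv_lhs => rw [← r.num_div_denom, map_div₀]
  rfl

/-- The product formula for rational functions. -/
theorem rpint_pf_rat [IsAlgClosed k] (hv : ∀ a (f : k[X]), f ≠ 0 → v a (ip k E f) = szp a f)
    {r : RatFunc k} (hr : r ≠ 0) : ∃ c : ℝ≥0∞, c ≠ ⊤ ∧
      ∑' a, (rpLn (v a (algebraMap _ E r)) : ℝ≥0∞) = c ∧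
      ∑' a, (rpLn (v a (algebraMap _ E r))⁻¹ : ℝ≥0∞) = c := by
  simp only [rpint_v_rat hv hr]
  have h1 : (r.num.natDegree + r.denom.natDegree : ℝ≥0∞) ≠ ⊤ := by simp
  refine ⟨_, ne_top_of_le_ne_top h1 ?_, rfl, (ENNReal.add_left_inj h1).1 ?_⟩
  · rw [← rpint_tsum_szp, ← rpint_tsum_inv r.denom, ← ENNReal.tsum_add]
    exact ENNReal.tsum_le_tsum fun a => by
      rw [div_eq_mul_inv]; exact_mod_cast rpLn_mul_le _ _
  · conv_lhs => rw [← rpint_tsum_szp, ← rpint_tsum_inv r.denom]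
    conv_rhs => rw [← rpint_tsum_inv r.num, ← rpint_tsum_szp r.denom]
    simp only [← ENNReal.tsum_add]
    exact tsum_congr fun a => by
      exact_mod_cast (rpLn_div (rpint_szp_ne a _) (rpint_szp_ne a _)).symm

theorem rpint_poly [IsAlgClosed k] (hv : ∀ a (f : k[X]), f ≠ 0 → v a (ip k E f) = szp a f)
    {r : RatFunc k} (h : ∀ a, v (some a) (algebraMap _ E r) ≤ 1) :
    r ∈ Set.range (algebraMap k[X] (RatFunc k)) := by
  rcases eq_or_ne r 0 with rfl | hr
  · exact ⟨0, map_zero _⟩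
  have h1 : r.denom = 1 := by
    by_contra h1
    obtain ⟨a, ha⟩ := IsAlgClosed.exists_root r.denom fun e =>
      h1 ((r.monic_denom.degree_le_zero_iff_eq_one).1 e.le)
    have h2 : ¬ r.num.IsRoot a := fun e => by
      obtain ⟨u, w, h3⟩ := r.isCoprime_num_denom
      simpa [e.eq_zero, ha.eq_zero] using congrArg (eval a) h3
    have h3 := h a
    rw [rpint_v_rat hv hr, szp, szp, rootMultiplicity_eq_zero h2, pow_zero,
      div_le_one₀ (by positivity)] at h3
    exact h3.not_gt (pow_lt_one₀ zero_le (inv_lt_one_of_one_lt₀ one_lt_two)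
      ((rootMultiplicity_pos r.denom_ne_zero).2 ha).ne')
  exact ⟨r.num, by simpa [h1] using r.num_div_denom⟩

end line

section galois
variable {F E : Type} [Field F] [Field E] [Algebra F E] [IsGalois F E] {A : Type}

/-- The average at the finite level `L`. -/
noncomputable def rpAv (L : FiniteGaloisIntermediateField F E) (f : A × (E ≃ₐ[F] E) → ℝ≥0) :
    ℝ≥0∞ :=
  (Module.finrank F L : ℝ≥0∞)⁻¹ * ∑' a, ∑ g : L ≃ₐ[F] L, (rpLn (f (a, g.liftNormal E)) : ℝ≥0∞)

theorem rpint_big {L : Type} [Field L] [Algebra F L] [FiniteDimensional F L] (φ : L →ₐ[F] E) :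
    ∀ᶠ M : FiniteGaloisIntermediateField F E in atTop, ∀ z, φ z ∈ M.toIntermediateField := by
  have := φ.toLinearMap.finiteDimensional_range
  have : FiniteDimensional F φ.fieldRange := this
  filter_upwards [eventually_ge_atTop (⟨IntermediateField.normalClosure F φ.fieldRange E⟩ :
    FiniteGaloisIntermediateField F E)] with M hM z
  exact hM (IntermediateField.le_normalClosure φ.fieldRange ⟨z, rfl⟩)

theorem rpint_prod (v : Valuation E ℝ≥0) (L : FiniteGaloisIntermediateField F E) (β : L) :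
    ∏ g : L ≃ₐ[F] L, v (g.liftNormal E β) = v (algebraMap F E (Algebra.norm F β)) := by
  rw [IsScalarTower.algebraMap_apply F L E, Algebra.norm_eq_prod_automorphisms, map_prod, map_prod]
  exact Finset.prod_congr rfl fun g _ => congrArg v (g.liftNormal_commutes E β)

theorem rpint_coeff (v : Valuation E ℝ≥0) {β : E} (h : ∀ σ : E ≃ₐ[F] E, v (σ β) ≤ 1) (n : ℕ) :
    v (algebraMap F E ((minpoly F β).coeff n)) ≤ 1 := by
  have hi := Algebra.IsAlgebraic.isAlgebraic (R := F) β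
  have h3 : (minpoly F β).map (algebraMap F E) ∈ lifts v.integer.subtype := by
    rw [lifts_iff_liftsRing, (Normal.splits inferInstance β).eq_prod_roots_of_monic
      ((minpoly.monic hi.isIntegral).map _)]
    refine multiset_prod_mem _ fun p hp => ?_
    obtain ⟨y, hy, rfl⟩ := Multiset.mem_map.1 hp
    obtain ⟨σ, rfl⟩ := minpoly.exists_algEquiv_of_root' hi (mem_aroots.1 hy).2
    exact sub_mem ((lifts_iff_liftsRing _ _).1 (X_mem_lifts _))
      ((lifts_iff_liftsRing _ _).1 (C'_mem_lifts ⟨⟨σ β, h σ⟩, rfl⟩))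
  obtain ⟨x, hx⟩ := (lifts_iff_coeff_lifts _).1 h3 n
  rw [← coeff_map, ← hx]
  exact x.2

theorem rpint_norm {L M : Type} [Field L] [Field M] [Algebra F L] [Algebra F M]
    [FiniteDimensional F M] (φ : L →ₐ[F] M) (α : L) : ∃ m : ℕ,
      Module.finrank F M = Module.finrank F L * m ∧ Algebra.norm F (φ α) = Algebra.norm F α ^ m := by
  let := φ.toAlgebra
  have := IsScalarTower.of_algHom φ
  refine ⟨Module.finrank L M, (Module.finrank_mul_finrank F L M).symm, ?_⟩
  rw [← Algebra.norm_norm (S := L), ← map_pow, ← Algebra.norm_algebraMap]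
  rfl

omit [IsGalois F E] in
theorem rpint_norm' {L : Type} [Field L] [Algebra F L] (φ : L →ₐ[F] E)
    (M : FiniteGaloisIntermediateField F E) (h : ∀ z, φ z ∈ M.toIntermediateField) (α : L) :
    ∃ m : ℕ, Module.finrank F M = Module.finrank F L * m ∧
      Algebra.norm F (⟨φ α, h α⟩ : M) = Algebra.norm F α ^ m :=
  rpint_norm (M := M) (φ.codRestrict M.toIntermediateField.toSubalgebra h) α

end galois

section level
variable {k E : Type} [Field k] [IsAlgClosed k] [Field E] [Algebra (RatFunc k) E]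
  [IsGalois (RatFunc k) E] {v : Option k → Valuation E ℝ≥0}

theorem rpAv_pf (hv : ∀ a (f : k[X]), f ≠ 0 → v a (ip k E f) = szp a f)
    (L : FiniteGaloisIntermediateField (RatFunc k) E) {β : E} (hβ : β ∈ L.toIntermediateField)
    (h0 : β ≠ 0) {f : Option k × (E ≃ₐ[RatFunc k] E) → ℝ≥0} (h1 : ∀ w, 1 ≤ f w)
    (h2 : ∀ w, v w.1 (w.2 β) ≤ f w) : rpAv L (fun w => f w / v w.1 (w.2 β)) ≤ rpAv L f := by
  have hne : ∀ a (σ : E ≃ₐ[RatFunc k] E), v a (σ β) ≠ 0 := fun a σ => by simpa using h0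
  obtain ⟨c, hc, c1, c2⟩ := rpint_pf_rat hv (r := Algebra.norm (RatFunc k) (⟨β, hβ⟩ : L))
    (Algebra.norm_ne_zero_iff.2 fun e => h0 (congrArg Subtype.val e))
  simp only [← rpint_prod] at c1 c2
  have h3 : ∑' a, ∑ g : L ≃ₐ[RatFunc k] L, (rpLn (v a (g.liftNormal E β)) : ℝ≥0∞) =
      ∑' a, ∑ g : L ≃ₐ[RatFunc k] L, (rpLn (v a (g.liftNormal E β))⁻¹ : ℝ≥0∞) := by
    rw [← ENNReal.add_left_inj hc]
    conv_lhs => rw [← c2]
    conv_rhs => rw [← c1]
    simp only [← ENNReal.tsum_add]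
    exact tsum_congr fun a => by exact_mod_cast rpLn_prod fun g : L ≃ₐ[RatFunc k] L => hne a _
  refine mul_le_mul_right ?_ _
  rcases eq_or_ne (∑' a, ∑ g : L ≃ₐ[RatFunc k] L, (rpLn (f (a, g.liftNormal E)) : ℝ≥0∞)) ⊤ with
    h4 | h4
  · exact h4 ▸ le_top
  refine le_of_eq ((ENNReal.add_left_inj (ne_top_of_le_ne_top h4 (ENNReal.tsum_le_tsum fun a =>
    Finset.sum_le_sum fun g _ => ENNReal.coe_le_coe.2
      (rpLn_mono ((h2 (a, g.liftNormal E)).trans (le_max_right _ _)))))).1 ?_)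
  conv_rhs => rw [h3]
  simp only [← ENNReal.tsum_add, ← Finset.sum_add_distrib]
  exact tsum_congr fun a => Finset.sum_congr rfl fun g _ => by
    exact_mod_cast rpLn_pf (h1 _) (h2 (a, g.liftNormal E)) (hne _ _)

theorem rpAv_norm (hv : ∀ a (f : k[X]), f ≠ 0 → v a (ip k E f) = szp a f)
    (L : FiniteGaloisIntermediateField (RatFunc k) E) (β : L) {f : k[X]} (hf : f ≠ 0) {n m : ℕ}
    (hm : Module.finrank (RatFunc k) L = n * m)
    (hN : Algebra.norm (RatFunc k) β = algebraMap k[X] (RatFunc k) f ^ m)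
    (h : ∀ a (σ : E ≃ₐ[RatFunc k] E), v (some a) (σ β) ≤ 1) :
    n * rpAv L (Set.mulIndicator {w | w.1 ≠ none} fun w => (v w.1 (w.2 β))⁻¹) ≤ f.natDegree := by
  have h0 : β ≠ 0 := Algebra.norm_ne_zero_iff.1
    (hN ▸ pow_ne_zero _ ((map_ne_zero_iff _ (IsFractionRing.injective _ _)).2 hf))
  have h1 : n * m ≠ 0 := hm ▸ Module.finrank_pos.ne'
  have h2 : ∑' a, ∑ g : L ≃ₐ[RatFunc k] L, (rpLn (Set.mulIndicator {w | w.1 ≠ none}
      (fun w : Option k × (E ≃ₐ[RatFunc k] E) => (v w.1 (w.2 β))⁻¹) (a, g.liftNormal E)) : ℝ≥0∞) ≤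
      m * f.natDegree := by
    rw [← rpint_tsum_inv, ← ENNReal.tsum_mul_left]
    refine ENNReal.tsum_le_tsum fun a => ?_
    cases a with
    | none => simp [rpLn_of_le]
    | some a =>
      have h3 := rpLn_prod (x := fun g : L ≃ₐ[RatFunc k] L => v (some a) (g.liftNormal E β))
        fun g => by simpa using h0
      rw [rpLn_of_le (Finset.prod_le_one' fun g _ => h a _), Finset.sum_eq_zero fun g _ =>
        rpLn_of_le (h a _), rpint_prod, hN, map_pow, map_pow, zero_add, add_zero,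
        show algebraMap (RatFunc k) E (algebraMap k[X] (RatFunc k) f) = ip k E f from rfl,
        hv _ f hf, ← inv_pow, rpLn_pow] at h3
      simp only [ne_eq, Set.mem_ofPred_eq, reduceCtorEq, not_false_eq_true, Set.mulIndicator_of_mem]
      exact_mod_cast h3.ge
  refine (mul_le_mul_right (mul_le_mul_right h2 _) _).trans (le_of_eq ?_)
  rw [hm, mul_left_comm, ← mul_assoc (n : ℝ≥0∞), ← Nat.cast_mul, ENNReal.inv_mul_cancel_left
    (Nat.cast_ne_zero.2 h1) (ENNReal.natCast_ne_top _)]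

end level

theorem exists_pl (k T : Type) [Field k] [IsAlgClosed k] [Field T] [Algebra (RatFunc k) T]
    [Algebra.IsSeparable (RatFunc k) T] : Nonempty (Pl k T) := by
  classical
  let E := SeparableClosure (RatFunc k)
  let ι : T →ₐ[RatFunc k] E := IsSepClosed.lift
  choose v hv hr using fun a : Option k => exists_place (E := E) a
  obtain ⟨M, M1, M2, M3, M4⟩ := rpint_mean (FiniteGaloisIntermediateField (RatFunc k) E)
  have hip : ∀ (σ : E ≃ₐ[RatFunc k] E) (f : k[X]), σ (ι (ip k T f)) = ip k E f := fun σ f =>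
    (congrArg σ (ι.commutes _)).trans (σ.commutes _)
  refine ⟨{
    W := Option k × (E ≃ₐ[RatFunc k] E)
    v := fun w => (v w.1).comap ((w.2 : E →+* E).comp (ι : T →+* E))
    I := fun f => M fun L => rpAv L f
    q := 2
    one_lt_q := one_lt_two
    I_one := by simp [rpAv, rpLn_of_le, M4]
    I_mono := fun f g h => M1 _ _ (.of_forall fun L => mul_le_mul_right (ENNReal.tsum_le_tsum
      fun a => Finset.sum_le_sum fun g _ => ENNReal.coe_le_coe.2 (rpLn_mono (h _))) _)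
    I_mul := fun f g => (M1 _ _ (.of_forall fun L => ?_)).trans_eq (M2 _ _)
    I_pow := fun f n => (M3 _ _ (ENNReal.natCast_ne_top n)).ge.trans (M1 _ _ (.of_forall fun L => ?_))
    pf := fun α h0 f h1 h2 => M1 _ _ ?_
    q_eq := rfl
    pt := Prod.fst
    v_ip := fun w f hf => (congrArg (v w.1) (hip w.2 f)).trans (hv _ f hf)
    residue := fun w z h => (hr w.1 _ h).imp fun c hc => ?_
    mass_pt := fun A => (congrArg M (funext fun L => ?_)).trans (M4 _)
    restr := fun a L hL => ?_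
    norm := fun L hL α f hf hN h =>
      ((M3 _ _ (ENNReal.natCast_ne_top _)).ge.trans (M1 _ _ ?_)).trans_eq (M4 _)
    integral := fun z h => ?_ }⟩
  · rw [rpAv, rpAv, rpAv, ← mul_add, ← ENNReal.tsum_add]
    refine mul_le_mul_right (ENNReal.tsum_le_tsum fun a => ?_) _
    rw [← Finset.sum_add_distrib]
    exact Finset.sum_le_sum fun g _ => by exact_mod_cast rpLn_mul_le _ _
  · simp only [rpAv, rpLn_pow, ENNReal.coe_mul, ENNReal.coe_natCast, ← Finset.mul_sum,
      ENNReal.tsum_mul_left]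
    exact (mul_left_comm _ _ _).le
  · filter_upwards [eventually_ge_atTop (FiniteGaloisIntermediateField.adjoin (RatFunc k) {ι α})]
      with L hL
    exact rpAv_pf hv L (FiniteGaloisIntermediateField.adjoin_simple_le_iff.1 hL)
      (by simpa using h0) h1 h2
  · show v w.1 (w.2 (ι (z - ip k T (C c)))) < 1
    rwa [map_sub, map_sub, hip]
  · have h1 : ∀ a, ((rpLn (if a ∈ A then 2 else 1) : ℝ≥0) : ℝ≥0∞) = if a ∈ A then 1 else 0 :=
      fun a => by split_ifs <;> simp [rpLn_two, rpLn_of_le]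
    simp only [rpAv, Set.mem_ofPred_eq, h1, Finset.sum_const, Finset.card_univ, nsmul_eq_mul,
      ENNReal.tsum_mul_left]
    rw [← Nat.card_eq_fintype_card, IsGalois.card_aut_eq_finrank, ENNReal.inv_mul_cancel_left
      (Nat.cast_ne_zero.2 Module.finrank_pos.ne') (ENNReal.natCast_ne_top _),
      tsum_eq_sum (s := A) fun a ha => if_neg ha]
    simp
  · obtain ⟨L', hL'⟩ := (rpint_big (ι.comp L.val)).exists
    refine ⟨Finset.univ.image fun g : L' ≃ₐ[RatFunc k] L' => (a, g.liftNormal E), fun w hw =>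
      ⟨_, Finset.mem_image_of_mem _ (Finset.mem_univ (w.2.restrictNormal L')), fun z hz => ?_⟩⟩
    subst hw
    exact congrArg (v w.1) (((w.2.restrictNormal L').liftNormal_commutes E ⟨_, hL' ⟨z, hz⟩⟩).trans
      (w.2.restrictNormal_commutes L' _)).symm
  · filter_upwards [rpint_big (ι.comp L.val)] with L' hL'
    obtain ⟨m, h1, h2⟩ := rpint_norm' _ L' hL' α
    rw [hN] at h2
    exact rpAv_norm hv L' ⟨ι α, hL' α⟩ hf h1 h2 fun a σ => h (some a, σ) (by simp)
  · have hm := minpoly.monic (Algebra.IsSeparable.isIntegral (RatFunc k) z)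
    obtain ⟨g, h1, -, h2⟩ := lifts_and_natDegree_eq_and_monic (f := algebraMap k[X] (RatFunc k))
      ((lifts_iff_coeff_lifts _).2 fun n => rpint_poly hv fun a => by
        rw [← minpoly.algHom_eq ι ι.injective z]
        exact rpint_coeff _ (fun σ => h (some a, σ) (by simp)) n) hm
    exact ⟨g, h2, by rw [ip, ← eval₂_map, h1]; exact minpoly.aeval _ z⟩

end JR
end

-- merged part: Pool.Agent.Work.MP_969914_nt.RPHasse
section
/-! The Hasse derivation on separable algebraic extensions of `k (t)`. -/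

set_option autoImplicit false

namespace JR

open Polynomial

theorem rphasse_pow_mul {K : Type} [Field K] (E : K →+* PowerSeries K)
    (c0 : ∀ a, PowerSeries.coeff 0 (E a) = a) (p : ℕ) [Fact p.Prime] [CharP K p] {n r : ℕ}
    (hr : r < p ^ n) (a b : K) :
    PowerSeries.coeff r (E (a ^ p ^ n * b)) = a ^ p ^ n * PowerSeries.coeff r (E b) := by
  have := charP_of_injective_ringHom (PowerSeries.C_injective (R := K)) p
  have h1 := PowerSeries.eq_X_mul_shift_add_const (E a)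
  rw [← PowerSeries.coeff_zero_eq_constantCoeff_apply, c0] at h1
  rw [map_mul, map_pow, h1, add_pow_char_pow, mul_pow, add_mul, map_add, mul_assoc,
    PowerSeries.coeff_X_pow_mul', if_neg (by omega), zero_add, ← map_pow, PowerSeries.coeff_C_mul]

theorem rphasse_pow {K : Type} [Field K] (E : K →+* PowerSeries K) {τ : K}
    (h : E τ = PowerSeries.C τ + PowerSeries.X) (m r : ℕ) :
    PowerSeries.coeff r (E (τ ^ m)) = (m.choose r : K) * τ ^ (m - r) := by
  rw [map_pow, h, add_comm, ← Polynomial.coe_C, ← Polynomial.coe_X, ← Polynomial.coe_add,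
    ← Polynomial.coe_pow, Polynomial.coeff_coe, coeff_X_add_C_pow, mul_comm]

/-- The coefficients of the image of an expansion. -/
theorem rphasse_sum {K : Type} [Field K] (E : K →+* PowerSeries K)
    (c0 : ∀ a, PowerSeries.coeff 0 (E a) = a) (p : ℕ) [Fact p.Prime] [CharP K p] {τ : K}
    (h : E τ = PowerSeries.C τ + PowerSeries.X) {n r : ℕ} (hr : r < p ^ n) {ι : Type} [Fintype ι]
    (b : ι → K) (c m : ι → ℕ) :
    PowerSeries.coeff r (E (∑ i, b i ^ p ^ n * ((c i : K) * τ ^ m i))) =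
      ∑ i, b i ^ p ^ n * ((c i * (m i).choose r : ℕ) * τ ^ (m i - r)) := by
  rw [map_sum, map_sum]
  refine Finset.sum_congr rfl fun i _ => ?_
  rw [rphasse_pow_mul E c0 p hr, map_mul, map_natCast, ← map_natCast (PowerSeries.C (R := K)),
    PowerSeries.coeff_C_mul, rphasse_pow E h, Nat.cast_mul, mul_assoc]

theorem HD.D_pow_mul {K : Type} [Field K] (H : HD K) (p : ℕ) [Fact p.Prime] [CharP K p] {n r : ℕ}
    (hr : r < p ^ n) (a b : K) : H.D r (a ^ p ^ n * b) = a ^ p ^ n * H.D r b := by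
  exact rphasse_pow_mul H.E H.c0 p hr a b

theorem HD.D_pow_of_E {K : Type} [Field K] (H : HD K) {τ : K}
    (h : H.E τ = PowerSeries.C τ + PowerSeries.X) (m r : ℕ) :
    H.D r (τ ^ m) = (m.choose r : K) * τ ^ (m - r) := by
  exact rphasse_pow H.E h m r

theorem rphasse_li {K : Type} [Field K] (p : ℕ) [Fact p.Prime] [CharP K p] (L : Subfield K)
    {π : K} (hπ : π ∈ L) (h : ∀ y ∈ L, y ^ p ≠ π) (n : ℕ) :
    LinearIndependent (L.map (iterateFrobenius K p n)) fun i : Fin (p ^ n) => π ^ (i : ℕ) := by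
  have hp : p.Prime := Fact.out
  obtain ⟨m, ⟨_, y, hy, rfl⟩, e⟩ := (minpoly.natSepDegree_eq_one_iff_eq_X_pow_sub_C
    (F := L.map (iterateFrobenius K p n)) (x := π) p).1
    ((minpoly.natSepDegree_eq_one_iff_pow_mem p).2 ⟨n, ⟨π ^ p ^ n, π, hπ, rfl⟩, rfl⟩)
  have h1 := minpoly.aeval (L.map (iterateFrobenius K p n)) π
  rw [e, map_sub, map_pow, aeval_X, aeval_C, sub_eq_zero] at h1
  have h2 : n ≤ m := by
    by_contra hm
    obtain ⟨d, rfl⟩ : ∃ d, n = d + 1 + m := ⟨n - m - 1, by omega⟩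
    refine h (y ^ p ^ d) (pow_mem hy _) (iterateFrobenius_inj K p m ?_)
    rw [iterateFrobenius_def, iterateFrobenius_def, h1, ← pow_mul, ← pow_mul, ← pow_succ',
      ← pow_add, ← add_assoc, add_right_comm]
    rfl
  have h3 : p ^ n ≤ (minpoly (L.map (iterateFrobenius K p n)) π).natDegree := by
    rw [e, natDegree_X_pow_sub_C]
    exact Nat.pow_le_pow_right hp.pos h2
  exact (linearIndependent_pow π).comp (Fin.castLE h3) (Fin.castLE_injective h3)

theorem rphasse_span {K : Type} [Field K] (p : ℕ) [Fact p.Prime] [CharP K p] (L : Subfield K)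
    (π : K) (n : ℕ) (z : K) :
    z ∈ Submodule.span (L.map (iterateFrobenius K p n))
      (Set.range fun i : Fin (p ^ n) => π ^ (i : ℕ)) ↔
    ∃ a : Fin (p ^ n) → K, (∀ i, a i ∈ L) ∧ z = ∑ i, a i ^ p ^ n * π ^ (i : ℕ) := by
  rw [Submodule.mem_span_range_iff_exists_fun]
  constructor
  · rintro ⟨c, rfl⟩
    choose a h1 h2 using fun i => (c i).2
    exact ⟨a, h1, Finset.sum_congr rfl fun i _ => congrArg (· * π ^ (i : ℕ)) (h2 i).symm⟩
  · rintro ⟨a, h1, rfl⟩
    exact ⟨fun i => ⟨a i ^ p ^ n, a i, h1 i, rfl⟩, rfl⟩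

/-- Powers of an element which is not a `p`-th power. -/
theorem pbasis_indep {K : Type} [Field K] (p : ℕ) [Fact p.Prime] [CharP K p] (L : Subfield K)
    {π : K} (hπ : π ∈ L) (h : ∀ y ∈ L, y ^ p ≠ π) (n : ℕ) (a : Fin (p ^ n) → K)
    (ha : ∀ i, a i ∈ L) (e : ∑ i, a i ^ p ^ n * π ^ (i : ℕ) = 0) : ∀ i, a i = 0 := by
  intro i
  have h1 := Fintype.linearIndependent_iff.1 (rphasse_li p L hπ h n)
    (fun i => ⟨a i ^ p ^ n, a i, ha i, rfl⟩) e i
  exact pow_eq_zero_iff (pow_ne_zero n (Fact.out : p.Prime).ne_zero) |>.1 (congrArg Subtype.val h1)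

theorem pbasis_change {K : Type} [Field K] (p : ℕ) [Fact p.Prime] [CharP K p] (L : Subfield K)
    {θ π : K} (hπ : π ∈ L) (h : ∀ y ∈ L, y ^ p ≠ π) (n : ℕ)
    (hθ : ∀ z ∈ L, ∃ a : Fin (p ^ n) → K, (∀ i, a i ∈ L) ∧ z = ∑ i, a i ^ p ^ n * θ ^ (i : ℕ))
    (hθL : θ ∈ L) :
    ∀ z ∈ L, ∃ a : Fin (p ^ n) → K, (∀ i, a i ∈ L) ∧ z = ∑ i, a i ^ p ^ n * π ^ (i : ℕ) := by
  have _ := hθL
  intro z hz
  have := FiniteDimensional.span_of_finite (L.map (iterateFrobenius K p n))
    (Set.finite_range fun i : Fin (p ^ n) => θ ^ (i : ℕ))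
  rw [← rphasse_span, Submodule.eq_of_le_of_finrank_le (Submodule.span_le.2 (by
      rintro _ ⟨i, rfl⟩
      exact (rphasse_span p L θ n _).2 (hθ _ (pow_mem hπ _))))
    ((finrank_range_le_card _).trans (finrank_span_eq_card (rphasse_li p L hπ h n)).ge)]
  exact (rphasse_span p L θ n z).2 (hθ z hz)

variable {k T : Type} [Field k] [IsAlgClosed k] [Field T] [Algebra (RatFunc k) T]
  [Algebra.IsSeparable (RatFunc k) T] (p : ℕ) [Fact p.Prime] [CharP k p] [CharP T p]

omit [IsAlgClosed k] [CharP T p] in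
theorem rphasse_mem (L : Subfield T) (hL : ∀ f, algebraMap (RatFunc k) T f ∈ L) (n : ℕ) {z : T}
    (hz : z ^ p ^ n ∈ L) : z ∈ L := by
  have h1 := IntermediateField.mem_adjoin_simple_self (RatFunc k) z
  rw [IntermediateField.adjoin_simple_eq_adjoin_pow_expChar_pow_of_isSeparable' (RatFunc k) T z p
    n] at h1
  exact (IntermediateField.adjoin_simple_le_iff (K := L.toIntermediateField hL)).2 hz h1

theorem not_pow_eq_t (a : k) (y : T) : y ^ p ≠ ip k T (X - C a) := by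
  intro h
  obtain ⟨f, rfl⟩ := rphasse_mem p (algebraMap (RatFunc k) T).fieldRange (fun f => ⟨f, rfl⟩) 1
    (z := y) ⟨algebraMap k[X] (RatFunc k) (X - C a), by rw [pow_one, h]; rfl⟩
  have h1 : f ^ p = algebraMap k[X] (RatFunc k) (X - C a) :=
    (algebraMap (RatFunc k) T).injective (by rw [map_pow, h]; rfl)
  have h2 : ∀ m : ℕ, (f ^ m).intDegree = m * f.intDegree := fun m => by
    rcases eq_or_ne f 0 with rfl | hf
    · cases m <;> simp
    · induction m with
      | zero => simp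
      | succ m ih =>
        rw [pow_succ, RatFunc.intDegree_mul (pow_ne_zero _ hf) hf, ih]
        push_cast
        ring
  have h3 := h2 p
  rw [h1, RatFunc.intDegree_polynomial, natDegree_X_sub_C] at h3
  exact (Fact.out : p.Prime).not_dvd_one (Int.natCast_dvd_natCast.1 ⟨_, h3⟩)

theorem exists_expand (L : Subfield T) (hL : ∀ f, algebraMap (RatFunc k) T f ∈ L) (a : k) (n : ℕ) :
    ∀ z ∈ L, ∃ b : Fin (p ^ n) → T, (∀ i, b i ∈ L) ∧
      z = ∑ i, b i ^ p ^ n * ip k T (X - C a) ^ (i : ℕ) := by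
  classical
  intro z hz
  have hp : p.Prime := Fact.out
  have hq : 0 < p ^ n := pow_pos hp.pos n
  have hi : ∀ f, ip k T f ∈ L := fun f => hL _
  rw [← rphasse_span]
  generalize hτ : ip k T (X - C a) = τ
  generalize hF : L.map (iterateFrobenius T p n) = F
  have hF' : ∀ y ∈ L, y ^ p ^ n ∈ F := fun y hy => hF ▸ ⟨y, hy, rfl⟩
  have hm := monic_X_pow_sub_C (⟨τ ^ p ^ n, hF' τ (hτ ▸ hi _)⟩ : F) hq.ne'
  have he : aeval τ (X ^ p ^ n - C (⟨τ ^ p ^ n, hF' τ (hτ ▸ hi _)⟩ : F)) = 0 := by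
    rw [map_sub, map_pow, aeval_X, aeval_C]
    exact sub_self _
  have hN : ∀ y ∈ L, y ^ p ^ n ∈ IntermediateField.adjoin F {τ} := fun y hy =>
    (IntermediateField.adjoin F {τ}).algebraMap_mem ⟨_, hF' y hy⟩
  have hc : ∀ c : k, ip k T (C c) ∈ IntermediateField.adjoin F {τ} := fun c => by
    obtain ⟨d, rfl⟩ := IsAlgClosed.exists_pow_nat_eq c hq
    rw [map_pow, map_pow]
    exact hN _ (hi _)
  have ht : ip k T X ∈ IntermediateField.adjoin F {τ} := by
    rw [← sub_add_cancel X (C a), map_add, hτ]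
    exact add_mem (IntermediateField.mem_adjoin_simple_self F τ) (hc a)
  have hP : ∀ f, ip k T f ∈ IntermediateField.adjoin F {τ} := fun f => by
    induction f using Polynomial.induction_on' with
    | add f g hf hg =>
      rw [map_add]
      exact add_mem hf hg
    | monomial m c =>
      rw [← C_mul_X_pow_eq_monomial, map_mul, map_pow]
      exact mul_mem (hc c) (pow_mem ht m)
  have h1 : z ∈ IntermediateField.adjoin F {τ} :=
    rphasse_mem (k := k) p (IntermediateField.adjoin F {τ}).toSubfield (fun f => by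
      induction f using RatFunc.induction_on with
      | f P Q _ =>
        rw [map_div₀]
        exact div_mem (hP P) (hP Q)) n (hN z hz)
  have h2 : z ∈ Subalgebra.toSubmodule (Algebra.adjoin F {τ}) := by
    rw [← IntermediateField.adjoin_simple_toSubalgebra_of_isAlgebraic ⟨_, hm.ne_zero, he⟩]
    exact h1
  rw [← Submodule.span_range_natDegree_eq_adjoin hm he, natDegree_X_pow_sub_C] at h2
  refine Submodule.span_mono (fun x hx => ?_) h2
  obtain ⟨i, hi, rfl⟩ := Finset.mem_image.1 (Finset.mem_coe.1 hx)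
  exact ⟨⟨i, Finset.mem_range.1 hi⟩, rfl⟩

theorem rphasse_expand (L : Subfield T) (hL : ∀ f, algebraMap (RatFunc k) T f ∈ L) (n : ℕ) :
    ∀ z ∈ L, ∃ b : Fin (p ^ n) → T, (∀ i, b i ∈ L) ∧
      z = ∑ i, b i ^ p ^ n * (((1 : ℕ) : T) * ip k T X ^ (i : ℕ)) := by
  simpa using exists_expand p L hL 0 n

theorem rphasse_lift {F K S : Type} [Field F] [Field K] [Algebra F K] [Algebra.IsSeparable F K]
    [CommRing S] (I : Ideal S) [IsAdicComplete I S] (e : F →+* S) (f : K →+* S ⧸ I)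
    (h : ∀ x, f (algebraMap F K x) = Ideal.Quotient.mk I (e x)) :
    ∃ g : K →+* S, (∀ x, g (algebraMap F K x) = e x) ∧ ∀ z, Ideal.Quotient.mk I (g z) = f z := by
  let _ := e.toAlgebra
  have := Algebra.FormallyEtale.of_isSeparable F K
  obtain ⟨g, hg⟩ := Algebra.FormallySmooth.exists_mkₐ_comp_eq_of_isAdicComplete (R := F) (I := I)
    ⟨f, h⟩
  exact ⟨g, g.commutes, fun z => DFunLike.congr_fun hg z⟩

include p in
theorem exists_hd : ∃ H : HD T, (∀ c : k, H.E (ip k T (C c)) = PowerSeries.C (ip k T (C c))) ∧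
    H.E (ip k T X) = PowerSeries.C (ip k T X) + PowerSeries.X := by
  have hp : p.Prime := Fact.out
  obtain ⟨E0, e1, e2⟩ : ∃ E0 : k[X] →+* PowerSeries T,
      (∀ c, E0 (C c) = PowerSeries.C (ip k T (C c))) ∧
        E0 X = PowerSeries.C (ip k T X) + PowerSeries.X :=
    ⟨eval₂RingHom (PowerSeries.C.comp ((ip k T).comp C)) (PowerSeries.C (ip k T X) + PowerSeries.X),
      fun c => by simp, by simp⟩
  have e3 : PowerSeries.constantCoeff.comp E0 = ip k T := Polynomial.ringHom_ext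
    (fun c => by simp [e1]) (by simp [e2])
  have hu : ∀ y : nonZeroDivisors k[X], IsUnit (E0 y) := fun y => by
    rw [PowerSeries.isUnit_iff_constantCoeff, ← RingHom.comp_apply, e3]
    exact ((IsLocalization.map_units (RatFunc k) y).map (algebraMap (RatFunc k) T))
  have e4 : PowerSeries.constantCoeff.comp (IsLocalization.lift (S := RatFunc k) hu) =
      algebraMap (RatFunc k) T :=
    IsLocalization.ringHom_ext (nonZeroDivisors k[X]) (by
      rw [RingHom.comp_assoc, IsLocalization.lift_comp, e3]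
      rfl)
  have hX : ∀ f g : PowerSeries T, Ideal.Quotient.mk (Ideal.span {PowerSeries.X}) f =
      Ideal.Quotient.mk _ g ↔ PowerSeries.constantCoeff f = PowerSeries.constantCoeff g :=
    fun f g => by
      rw [Ideal.Quotient.eq, Ideal.mem_span_singleton, PowerSeries.X_dvd_iff, map_sub, sub_eq_zero]
  obtain ⟨E, e5, e6⟩ := rphasse_lift (Ideal.span {(PowerSeries.X : PowerSeries T)})
    (IsLocalization.lift (S := RatFunc k) hu) ((Ideal.Quotient.mk _).comp PowerSeries.C)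
    fun x => (hX _ _).2 (by rw [PowerSeries.constantCoeff_C, ← e4]; rfl)
  have e7 : ∀ f, E (ip k T f) = E0 f := fun f => (e5 _).trans (IsLocalization.lift_eq hu f)
  have c0 : ∀ z, PowerSeries.coeff 0 (E z) = z := fun z => by
    rw [PowerSeries.coeff_zero_eq_constantCoeff_apply, (hX _ _).1 (e6 z),
      PowerSeries.constantCoeff_C]
  have ht := (e7 X).trans e2
  refine ⟨⟨E, c0, fun z i j => ?_⟩, fun c => (e7 _).trans (e1 c), ht⟩
  have hr : i + j < p ^ (i + j) := Nat.lt_pow_self hp.one_lt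
  obtain ⟨b, -, rfl⟩ := rphasse_expand (k := k) p ⊤ (fun _ => trivial) (i + j) z trivial
  rw [rphasse_sum E c0 p ht (by omega), rphasse_sum E c0 p ht (by omega),
    rphasse_sum E c0 p ht hr, Finset.mul_sum]
  refine Finset.sum_congr rfl fun m _ => ?_
  rw [one_mul, one_mul, show (m : ℕ).choose i * ((m : ℕ) - i).choose j =
    (m : ℕ).choose (i + j) * (i + j).choose i by
      rw [Nat.choose_mul (Nat.le_add_right i j), Nat.add_sub_cancel_left], Nat.sub_sub]
  push_cast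
  ring

include p in
theorem D_mem_of_hd {H : HD T} (ht : H.E (ip k T X) = PowerSeries.C (ip k T X) + PowerSeries.X)
    (L : Subfield T) (hL : ∀ f, algebraMap (RatFunc k) T f ∈ L) {z : T} (hz : z ∈ L) (r : ℕ) :
    H.D r z ∈ L := by
  obtain ⟨b, hb, rfl⟩ := rphasse_expand p L hL r z hz
  rw [HD.D, rphasse_sum H.E H.c0 p ht (Nat.lt_pow_self (Fact.out : p.Prime).one_lt)]
  exact sum_mem fun i _ => mul_mem (pow_mem (hb i) _)
    (mul_mem (natCast_mem L _) (pow_mem (hL _) _))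

theorem proot_of_hd {H : HD T} (ht : H.E (ip k T X) = PowerSeries.C (ip k T X) + PowerSeries.X)
    (L : Subfield T) (hL : ∀ f, algebraMap (RatFunc k) T f ∈ L) {z : T} (hz : z ∈ L)
    (h : H.D 1 z = 0) : ∃ y ∈ L, y ^ p = z := by
  have hp : p.Prime := Fact.out
  have h1 : 1 < p ^ 1 := by
    rw [pow_one]
    exact hp.one_lt
  obtain ⟨b, hb, rfl⟩ := rphasse_expand p L hL 1 z hz
  rw [HD.D, rphasse_sum H.E H.c0 p ht h1] at h
  have h2 := pbasis_indep p L (π := ip k T X) (hL _)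
    (fun y _ => by simpa using not_pow_eq_t (T := T) p (0 : k) y) 1 (fun i => b i * (i : ℕ))
    (fun i => mul_mem (hb i) (natCast_mem L _)) (by
      rw [← zero_mul (ip k T X), ← h, Finset.sum_mul]
      refine Finset.sum_congr rfl fun i _ => ?_
      rw [mul_pow, ← iterateFrobenius_def p 1 ((i : ℕ) : T), map_natCast, one_mul,
        Nat.choose_one_right]
      rcases (i : ℕ) with _ | m
      · simp
      · rw [Nat.add_sub_cancel]
        ring)
  refine ⟨b ⟨0, by omega⟩, hb _, ?_⟩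
  rw [Finset.sum_eq_single ⟨0, by omega⟩ (fun i _ hi => ?_) (by simp)]
  · simp
  · have h3 : ((i : ℕ) : T) ≠ 0 := fun h3 => hi (Fin.ext (Nat.eq_zero_of_dvd_of_lt
      ((CharP.cast_eq_zero_iff T p i).1 h3) (i.2.trans_eq (pow_one p))))
    rw [(mul_eq_zero.1 (h2 i)).resolve_right h3, zero_pow (by omega), zero_mul]

theorem mem_of_pow_mem (L : Subfield T) (hL : ∀ f, algebraMap (RatFunc k) T f ∈ L) {z : T}
    (hz : z ^ p ∈ L) : z ∈ L := by
  exact rphasse_mem p L hL 1 (by rwa [pow_one])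

end JR
end

-- merged part: Pool.Agent.Work.MP_969914_nt.RPLoc
section
/-! Local bounds for the Hasse derivation. -/

set_option autoImplicit false

namespace JR

open scoped NNReal ENNReal
open Polynomial

section
variable {T : Type} [Field T] (p : ℕ) [Fact p.Prime] [CharP T p] (H : HD T)
  (v : Valuation T ℝ≥0)

omit [Fact p.Prime] [CharP T p] in
theorem rploc_orth {ι : Type} [Fintype ι] (f : ι → T)
    (h : ∀ i j, f i ≠ 0 → v (f i) = v (f j) → i = j) (i : ι) : v (f i) ≤ v (∑ i, f i) := by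
  classical
  obtain ⟨j, -, hj⟩ := Finset.univ.exists_max_image (fun i => v (f i)) ⟨i, Finset.mem_univ i⟩
  by_cases e : f j = 0
  · exact (hj i (Finset.mem_univ i)).trans (by simp [e])
  rw [v.map_sum_eq_of_lt (Finset.mem_univ j) fun l hl => (hj l (Finset.mem_univ l)).lt_of_ne
    fun e' => (Finset.mem_sdiff.1 hl).2 (Finset.mem_singleton.2 (h j l e e'.symm).symm)]
  exact hj i (Finset.mem_univ i)

theorem rploc_sum {ι : Type} (s : Finset ι) (f : ι → T) (r : ℕ) :
    H.D r (∑ i ∈ s, f i) = ∑ i ∈ s, H.D r (f i) := by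
  simp only [HD.D, map_sum]

theorem rploc_nat (n : ℕ) : v (n : T) ≤ 1 := by
  induction n with
  | zero => simp
  | succ n ih => rw [Nat.cast_succ]; exact v.map_add_le ih (map_one _).le

theorem rploc_val {q : ℝ≥0} (hq : 1 < q) {a π : T} {m : ℤ} (ha : v a = q ^ m) (hπ : v π = q⁻¹)
    (N i : ℕ) : v (a ^ N * π ^ i) = q ^ (m * N - i) := by
  rw [map_mul, map_pow, map_pow, ha, hπ, zpow_sub₀ (zero_lt_one.trans hq).ne', zpow_mul,
    zpow_natCast, zpow_natCast, inv_pow, div_eq_mul_inv]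

/-- Orthogonality of the expansion in a uniformiser. -/
theorem val_term_le {q : ℝ≥0} (hq : 1 < q) (L : Subfield T)
    (hL : ∀ z ∈ L, z ≠ 0 → ∃ n : ℤ, v z = q ^ n) {π : T} (hπ : v π = q⁻¹) (n : ℕ)
    (a : Fin (p ^ n) → T) (ha : ∀ i, a i ∈ L) (i : Fin (p ^ n)) :
    v (a i ^ p ^ n * π ^ (i : ℕ)) ≤ v (∑ i, a i ^ p ^ n * π ^ (i : ℕ)) := by
  refine rploc_orth v (fun i : Fin (p ^ n) => a i ^ p ^ n * π ^ (i : ℕ)) (fun i j hi e => ?_) i
  have h0 : ∀ i : Fin (p ^ n), a i ^ p ^ n * π ^ (i : ℕ) ≠ 0 → a i ≠ 0 := fun i h e => h (by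
    rw [e, zero_pow (pow_ne_zero _ (Fact.out : p.Prime).ne_zero), zero_mul])
  obtain ⟨m, hm⟩ := hL _ (ha i) (h0 i hi)
  obtain ⟨l, hl⟩ := hL _ (ha j) (h0 j (v.ne_zero_iff.1 (e ▸ v.ne_zero_iff.2 hi)))
  rw [rploc_val v hq hm hπ, rploc_val v hq hl hπ,
    zpow_right_inj₀ (zero_lt_one.trans hq) hq.ne'] at e
  have h1 : ((p ^ n : ℕ) : ℤ) ∣ (i : ℕ) - (j : ℕ) := ⟨m - l, by linarith⟩
  have h2 := i.2
  have h3 := j.2
  have h4 := Int.eq_zero_of_abs_lt_dvd h1 (abs_lt.2 ⟨by omega, by omega⟩)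
  exact Fin.ext (by omega)

theorem D_bound_regular {q : ℝ≥0} (hq : 1 < q) (L : Subfield T)
    (hL : ∀ z ∈ L, z ≠ 0 → ∃ n : ℤ, v z = q ^ n) {τ : T} (hτ : v τ = q⁻¹)
    (hE : H.E τ = PowerSeries.C τ + PowerSeries.X)
    (hx : ∀ n, ∀ z ∈ L, ∃ b : Fin (p ^ n) → T, (∀ i, b i ∈ L) ∧
      z = ∑ i, b i ^ p ^ n * τ ^ (i : ℕ)) {z : T} (hz : z ∈ L) (r : ℕ) :
    v (H.D r z) ≤ q ^ r * v z ∧ (v z ≤ 1 → v (H.D r z) ≤ 1) := by
  obtain ⟨b, hb, e⟩ := hx r z hz
  have h0 : 0 < q := zero_lt_one.trans hq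
  have h1 := val_term_le p v hq L hL hτ r b hb
  rw [← e] at h1
  have h2 : H.D r z = ∑ i, b i ^ p ^ r * (((i : ℕ).choose r : T) * τ ^ ((i : ℕ) - r)) := by
    rw [e, rploc_sum]
    exact Finset.sum_congr rfl fun i _ => by
      rw [H.D_pow_mul p (Nat.lt_pow_self (Fact.out : p.Prime).one_lt), H.D_pow_of_E hE]
  rw [h2]
  refine ⟨v.map_sum_le fun i _ => ?_, fun h => v.map_sum_le fun i _ => ?_⟩
  · rcases lt_or_ge (i : ℕ) r with h | h
    · simp [Nat.choose_eq_zero_of_lt h]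
    refine le_trans ?_ (mul_le_mul_right (h1 i) _)
    rw [map_mul, map_mul, map_mul, mul_left_comm (q ^ r)]
    refine mul_le_mul_right ((mul_le_of_le_one_left' (rploc_nat v _)).trans_eq ?_) _
    rw [map_pow, map_pow, hτ, ← pow_sub_mul_pow q⁻¹ h, mul_left_comm, ← mul_pow,
      mul_inv_cancel₀ h0.ne', one_pow, mul_one]
  · rw [map_mul, map_mul, map_pow, map_pow, hτ]
    refine mul_le_one' (pow_le_one' ?_ _) (mul_le_one' (rploc_nat v _)
      (pow_le_one' (inv_le_one_of_one_le₀ hq.le) _))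
    by_cases e0 : b i = 0
    · simp [e0]
    obtain ⟨m, hm⟩ := hL _ (hb i) e0
    have h3 := (h1 i).trans h
    rw [rploc_val v hq hm hτ, zpow_le_one_iff_right₀ hq] at h3
    rw [hm, zpow_le_one_iff_right₀ hq]
    have h4 : ((i : ℕ) : ℤ) < (p ^ r : ℕ) := by exact_mod_cast i.2
    by_contra h5
    nlinarith

/-- Adjoining a square root. -/
def rploc_ext (L : Subfield T) (u : T) (hu : u ^ 2 ∈ L) (hu' : u ∉ L) : Subfield T where
  carrier := {w | ∃ x ∈ L, ∃ y ∈ L, w = x + y * u}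
  mul_mem' := by
    rintro _ _ ⟨x, hx, y, hy, rfl⟩ ⟨x', hx', y', hy', rfl⟩
    exact ⟨x * x' + y * y' * u ^ 2, add_mem (mul_mem hx hx') (mul_mem (mul_mem hy hy') hu),
      x * y' + y * x', add_mem (mul_mem hx hy') (mul_mem hy hx'), by ring⟩
  one_mem' := ⟨1, one_mem _, 0, zero_mem _, by ring⟩
  add_mem' := by
    rintro _ _ ⟨x, hx, y, hy, rfl⟩ ⟨x', hx', y', hy', rfl⟩
    exact ⟨x + x', add_mem hx hx', y + y', add_mem hy hy', by ring⟩
  zero_mem' := ⟨0, zero_mem _, 0, zero_mem _, by ring⟩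
  neg_mem' := by
    rintro _ ⟨x, hx, y, hy, rfl⟩
    exact ⟨-x, neg_mem hx, -y, neg_mem hy, by ring⟩
  inv_mem' := by
    rintro _ ⟨x, hx, y, hy, rfl⟩
    by_cases e : y = 0
    · exact ⟨x⁻¹, inv_mem hx, 0, zero_mem _, by simp [e]⟩
    have h1 : x - y * u ≠ 0 := fun h => hu' (by
      rw [show u = x / y by rw [eq_div_iff e, mul_comm]; exact (sub_eq_zero.1 h).symm]
      exact div_mem hx hy)
    have h2 := inv_mem (sub_mem (pow_mem hx 2) (mul_mem (pow_mem hy 2) hu))
    refine ⟨_, mul_mem hx h2, _, mul_mem (neg_mem hy) h2, ?_⟩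
    rw [show x ^ 2 - y ^ 2 * u ^ 2 = (x - y * u) * (x + y * u) by ring, mul_inv]
    linear_combination -(x + y * u)⁻¹ * mul_inv_cancel₀ h1

include p in
theorem rploc_step (h2 : (2 : T) ≠ 0) (L : Subfield T)
    (hres : ∀ z, v z ≤ 1 → ∃ c ∈ L, v (z - c) < 1) {Λ : ℝ≥0} (R : ℕ)
    (h : ∀ z ∈ L, ∀ r ≤ R, v (H.D r z) ≤ Λ ^ r * v z) {u x y : T} (hu : u ^ 2 ∈ L) (hx : x ∈ L)
    (hy : y ∈ L) {r : ℕ} (hr : r ≤ R) : v (H.D r (x + y * u)) ≤ Λ ^ r * v (x + y * u) := by
  have hp : p.Prime := Fact.out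
  have hodd : Odd p := hp.odd_of_ne_two fun e => h2 (by
    have := CharP.cast_eq_zero T p
    rwa [e, Nat.cast_ofNat] at this)
  have hA : ∀ N, R ≤ N → ∀ c, ∀ l ∈ L, v (H.D r (c ^ p ^ N * l)) ≤ Λ ^ r * v (c ^ p ^ N * l) :=
    fun N hN c l hl => by
      rw [H.D_pow_mul p ((hr.trans hN).trans_lt (Nat.lt_pow_self hp.one_lt)), map_mul, map_mul,
        mul_left_comm]
      exact mul_le_mul_right (h l hl r hr) _
  have hB : ∀ a b : T, v (H.D r a) ≤ Λ ^ r * v a → v (H.D r b) ≤ Λ ^ r * v b →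
      v a ≤ v (a + b) → v b ≤ v (a + b) → v (H.D r (a + b)) ≤ Λ ^ r * v (a + b) :=
    fun a b h1 h2 h3 h4 => by
      rw [H.D_add]
      exact v.map_add_le (h1.trans (mul_le_mul_right h3 _)) (h2.trans (mul_le_mul_right h4 _))
  by_cases e0 : y * u = 0
  · rw [e0, add_zero]
    exact h x hx r hr
  have hu0 : u ≠ 0 := right_ne_zero_of_mul e0
  have hC : ∀ N, ∃ l ∈ L, y * u = u⁻¹ ^ p ^ N * l := fun N => by
    obtain ⟨m, hm⟩ := hodd.pow (n := N)
    refine ⟨y * (u ^ 2) ^ (m + 1), mul_mem hy (pow_mem hu _), ?_⟩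
    rw [← pow_mul, show 2 * (m + 1) = p ^ N + 1 by omega, pow_succ, inv_pow]
    field_simp
  have hD : v (H.D r (y * u)) ≤ Λ ^ r * v (y * u) := by
    obtain ⟨l, hl, e⟩ := hC R
    rw [e]
    exact hA R le_rfl _ l hl
  rcases lt_trichotomy (v x) (v (y * u)) with e | e | e
  · have e' := v.map_add_eq_of_lt_right e
    exact hB _ _ (h x hx r hr) hD (e.le.trans e'.ge) e'.ge
  swap
  · have e' := v.map_add_eq_of_lt_left e
    exact hB _ _ (h x hx r hr) hD e'.ge (e.le.trans e'.ge)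
  by_cases e1 : x + y * u = 0
  · simp [e1, H.D_of_zero]
  have h0 : 0 < v (y * u) := v.pos_iff.2 e0
  have hx0 : x ≠ 0 := v.pos_iff.1 (e ▸ h0)
  have hy0 : y ≠ 0 := left_ne_zero_of_mul e0
  obtain ⟨c, hc, hc'⟩ := hres (x / (y * u)) (by rw [map_div₀, e, div_self h0.ne'])
  obtain ⟨n, hn⟩ := NNReal.exists_pow_lt_of_lt_one (div_pos (v.pos_iff.2 e1) h0) hc'
  obtain ⟨l, hl, e2⟩ := hC (n + R)
  obtain ⟨s, hs⟩ : ∃ s, s = ((x / (y * u) - c) * (y / x)) ^ p ^ (n + R) * l := ⟨_, rfl⟩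
  have e3 : x + y * u = (x + (c * (y / x)) ^ p ^ (n + R) * l) + s := by
    rw [hs, add_assoc, ← add_mul, ← add_pow_char_pow, ← add_mul, add_sub_cancel,
      show x / (y * u) * (y / x) = u⁻¹ by field_simp, ← e2]
  have e4 : v s < v (x + y * u) := by
    have e5 : v (y / x) = v u⁻¹ := by
      rw [map_div₀, e, map_mul, map_inv₀, div_mul_cancel_left₀ (v.ne_zero_iff.2 hy0)]
    rw [hs, mul_pow, mul_assoc, map_mul, map_mul, map_pow, map_pow, e5, ← map_pow v u⁻¹,
      ← map_mul, ← e2, ← lt_div_iff₀ h0]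
    exact (pow_le_pow_right_of_le_one' hc'.le ((Nat.le_add_right n R).trans
      (Nat.lt_pow_self hp.one_lt).le)).trans_lt hn
  have e6 : v (x + (c * (y / x)) ^ p ^ (n + R) * l) ≤ v (x + y * u) := by
    rw [← sub_eq_iff_eq_add.2 e3]
    exact v.map_sub_le le_rfl e4.le
  rw [e3] at e4 e6 ⊢
  exact hB _ _ (h _ (add_mem hx (mul_mem (pow_mem (mul_mem hc (div_mem hy hx)) _) hl)) r hr)
    (hs ▸ hA _ (Nat.le_add_left R n) _ l hl) e6 e4.le

include p in
/-- The bound passes to the quadratic closure. -/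
theorem D_bound_closure (h2 : (2 : T) ≠ 0) (k : Subfield T) (hk : ∀ c ∈ k, v c ≤ 1)
    (hk' : ∀ c ∈ k, ∃ d ∈ k, d ^ 2 = c) (hkD : ∀ c ∈ k, H.E c = PowerSeries.C c)
    (hres : ∀ z, v z ≤ 1 → ∃ c ∈ k, v (z - c) < 1) (L : Subfield T) (hkL : k ≤ L)
    (hmin : ∀ L' : Subfield T, L ≤ L' → (∀ z, z ^ 2 ∈ L' → z ∈ L') → L' = ⊤) {Λ : ℝ≥0}
    (hΛ : 1 ≤ Λ) (R : ℕ) (h : ∀ z ∈ L, ∀ r ≤ R, v (H.D r z) ≤ Λ ^ r * v z) :
    ∀ z, ∀ r ≤ R, v (H.D r z) ≤ Λ ^ r * v z := by
  obtain ⟨M, h1, h3⟩ := zorn_le_nonempty₀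
    {F : Subfield T | ∀ z ∈ F, ∀ r ≤ R, v (H.D r z) ≤ Λ ^ r * v z}
    (fun c hc hc' y hy => ⟨sSup c, fun z hz => by
      obtain ⟨F, hF, hz⟩ := (Subfield.mem_sSup_of_directedOn ⟨y, hy⟩ hc'.directedOn).1 hz
      exact hc hF z hz, fun F hF => le_sSup hF⟩) L h
  obtain rfl := hmin M h1 fun u hu => by
    by_contra hu'
    refine hu' (h3.2 (y := rploc_ext M u hu hu') ?_ (fun x hx => ⟨x, hx, 0, zero_mem _, by ring⟩)
      ⟨0, zero_mem _, 1, one_mem _, by ring⟩)
    rintro _ ⟨x, hx, y, hy, rfl⟩ r hr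
    exact rploc_step p H v h2 M (fun z hz => (hres z hz).imp fun c hc => ⟨h1 (hkL hc.1), hc.2⟩) R
      h3.1 hu hx hy hr
  exact fun z => h3.1 z trivial

end

theorem rploc_unif {k T : Type} [Field k] [Field T] [Algebra (RatFunc k) T]
    [Algebra.IsSeparable (RatFunc k) T] (P : Pl k T) (L : IntermediateField (RatFunc k) T)
    [FiniteDimensional (RatFunc k) L] (w : P.W) : ∃ π ∈ L, ∃ q : ℝ≥0, 1 < q ∧ P.v w π = q⁻¹ ∧
      ∀ z ∈ L, z ≠ 0 → ∃ n : ℤ, P.v w z = q ^ n := by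
  letI : Algebra k[X] T := (ip k T).toAlgebra
  have : IsScalarTower k[X] (RatFunc k) T := IsScalarTower.of_algebraMap_eq' rfl
  obtain ⟨d, hd⟩ : ∃ d, d = (Module.finrank (RatFunc k) L).factorial := ⟨_, rfl⟩
  have hd0 : d ≠ 0 := hd ▸ Nat.factorial_ne_zero _
  obtain ⟨ε, f, hε, hf, h1, h2⟩ : ∃ (ε : ℤ) (f : k[X]), ε ≠ 0 ∧ f ≠ 0 ∧
      P.v w (ip k T f) = 2 ^ ε ∧ ∀ g : k[X], g ≠ 0 → ∃ m : ℕ, P.v w (ip k T g) = (2 ^ ε) ^ m := by
    have h := P.v_ip w
    rcases e : P.pt w with _ | a <;> rw [e] at h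
    · exact ⟨1, X, one_ne_zero, X_ne_zero, by simp [h X X_ne_zero, szp],
        fun g hg => ⟨_, by rw [h g hg, zpow_one, szp]⟩⟩
    · exact ⟨-1, X - C a, by simp, X_sub_C_ne_zero a,
        by rw [h _ (X_sub_C_ne_zero a), szp, rootMultiplicity_X_sub_C_self, pow_one, zpow_neg_one],
        fun g hg => ⟨_, by rw [h g hg, zpow_neg_one, szp]⟩⟩
  have h3 : ∀ z ∈ L, z ≠ 0 → ∃ s : ℤ, P.v w z ^ d = 2 ^ s := fun z hz h0 => by
    obtain ⟨e, e1, e2, r, e3⟩ := Pool.Agent.Work.MP_969914_nt.H70.exists_pow_eq (k := k)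
      (F := RatFunc k) (P.v w) (zpow_ne_zero ε two_ne_zero) h2 h0
    have e4 : (minpoly (RatFunc k) z).natDegree ≤ Module.finrank (RatFunc k) L :=
      (congrArg natDegree (IntermediateField.minpoly_eq (⟨z, hz⟩ : L))).ge.trans
        (minpoly.natDegree_le _)
    obtain ⟨c, hc⟩ := Nat.dvd_factorial e1 (e2.trans e4)
    exact ⟨ε * r * c, by rw [hd, hc, pow_mul, e3, zpow_mul, zpow_mul, zpow_natCast]⟩
  let G : AddSubgroup ℤ :=
    { carrier := {s | ∃ z ∈ L, z ≠ 0 ∧ P.v w z ^ d = 2 ^ s}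
      add_mem' := by
        rintro a b ⟨x, hx, x0, ex⟩ ⟨y, hy, y0, ey⟩
        exact ⟨x * y, mul_mem hx hy, mul_ne_zero x0 y0, by
          rw [map_mul, mul_pow, ex, ey, zpow_add₀ two_ne_zero]⟩
      zero_mem' := ⟨1, one_mem _, one_ne_zero, by simp⟩
      neg_mem' := by
        rintro a ⟨x, hx, x0, ex⟩
        exact ⟨x⁻¹, inv_mem hx, inv_ne_zero x0, by rw [map_inv₀, inv_pow, ex, zpow_neg]⟩ }
  obtain ⟨g, hg⟩ := Int.subgroup_cyclic G
  have h4 : ∀ s, s ∈ G ↔ |g| ∣ s := fun s => by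
    rw [hg, ← AddSubgroup.zmultiples_eq_closure, Int.mem_zmultiples_iff, abs_dvd]
  have h5 : g ≠ 0 := fun e => by
    have h6 : ε * d ∈ G := ⟨ip k T f, L.algebraMap_mem _,
      (P.v w).ne_zero_iff.1 (h1 ▸ zpow_ne_zero _ two_ne_zero), by rw [h1, zpow_mul, zpow_natCast]⟩
    rw [h4, e, abs_zero, zero_dvd_iff] at h6
    exact mul_ne_zero hε (Nat.cast_ne_zero.2 hd0) h6
  obtain ⟨ρ, r1, r2, r3⟩ := (h4 _).2 dvd_rfl
  refine ⟨ρ⁻¹, inv_mem r1, P.v w ρ, ?_, map_inv₀ _ _, fun z hz h0 => ?_⟩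
  · refine (one_lt_pow_iff_of_nonneg zero_le hd0).1 ?_
    rw [r3]
    exact one_lt_zpow₀ one_lt_two (abs_pos.2 h5)
  · obtain ⟨s, hs⟩ := h3 z hz h0
    obtain ⟨j, rfl⟩ := (h4 s).1 ⟨z, hz, h0, hs⟩
    refine ⟨j, (pow_left_inj₀ zero_le zero_le hd0).1 ?_⟩
    rw [hs, zpow_mul, ← r3, ← zpow_natCast, ← zpow_natCast, ← zpow_mul, ← zpow_mul, mul_comm]

/-- The bound on a finite extension at one place. -/
theorem Pl.D_bound_fin {k T : Type} [Field k] [IsAlgClosed k] [Field T] [Algebra (RatFunc k) T]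
    [Algebra.IsSeparable (RatFunc k) T] (p : ℕ) [Fact p.Prime] [CharP k p] [CharP T p]
    (P : Pl k T) (H : HD T) (L : IntermediateField (RatFunc k) T)
    [FiniteDimensional (RatFunc k) L] (w : P.W) (R : ℕ) :
    ∃ C : ℕ, ∀ w', (∀ z ∈ L, P.v w' z = P.v w z) → (∀ z ∈ L, ∀ r, H.D r z ∈ L) →
      ∀ z ∈ L, ∀ r ≤ R, P.v w' (H.D r z) ≤ (P.q ^ C) ^ r * P.v w' z := by
  have hp : p.Prime := Fact.out
  obtain ⟨π, hπ, q, hq, h1, h2⟩ := rploc_unif P L w
  have h0 : 0 < q := zero_lt_one.trans hq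
  have h3 : ∀ y ∈ L.toSubfield, y ^ p ≠ π := fun y hy e => by
    have e0 : y ≠ 0 := fun e' => (inv_pos.2 h0).ne' (by
      rw [← h1, ← e, e', zero_pow hp.ne_zero, map_zero])
    obtain ⟨m, hm⟩ := h2 y hy e0
    rw [← e, map_pow, hm, ← zpow_natCast, ← zpow_mul, ← zpow_neg_one,
      zpow_right_inj₀ h0 hq.ne'] at h1
    have h4 : (p : ℤ) ∣ 1 := ⟨-m, by linarith⟩
    exact hp.not_dvd_one (by exact_mod_cast h4)
  have h4 := pbasis_change p L.toSubfield hπ h3 R
    (exists_expand p L.toSubfield L.algebraMap_mem (0 : k) R) (L.algebraMap_mem _)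
  obtain ⟨M, hM⟩ := (Set.finite_range fun x : Fin (p ^ R) × Fin (R + 1) =>
    P.v w (H.D x.2 (π ^ (x.1 : ℕ))) / P.v w (π ^ (x.1 : ℕ))).bddAbove
  obtain ⟨C, hC⟩ := pow_unbounded_of_one_lt M P.one_lt_q
  refine ⟨C, fun w' hw hD z hz r hr => ?_⟩
  rw [hw _ hz, hw _ (hD z hz r)]
  obtain ⟨a, ha, e⟩ := h4 z hz
  have h5 := val_term_le p (P.v w) hq L.toSubfield h2 h1 R a ha
  rw [← e] at h5
  rcases Nat.eq_zero_or_pos r with rfl | hr0
  · rw [H.D_zero, pow_zero, one_mul]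
  conv_lhs => rw [e, rploc_sum]
  refine (P.v w).map_sum_le fun i _ => le_trans ?_ (mul_le_mul_right (h5 i) _)
  rw [H.D_pow_mul p (hr.trans_lt (Nat.lt_pow_self hp.one_lt)), map_mul, map_mul, mul_left_comm]
  refine mul_le_mul_right ((div_le_iff₀ ?_).1 (((hM ⟨(i, ⟨r, by omega⟩), rfl⟩).trans hC.le).trans
    (le_self_pow₀ (one_le_pow₀ P.one_lt_q.le) hr0.ne'))) _
  rw [map_pow, h1]
  exact pow_pos (inv_pos.2 h0) _

end JR
end

-- merged part: Pool.Agent.Work.MP_969914_nt.RPStd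
section
/-! Existence of the standard places. -/

set_option autoImplicit false

namespace JR

open scoped NNReal ENNReal IntermediateField
open Polynomial

section
variable {k T : Type} [Field k] [Field T] [Algebra (RatFunc k) T]

theorem rpstd_ip_inj : Function.Injective (ip k T) :=
  (algebraMap (RatFunc k) T).injective.comp (IsFractionRing.injective k[X] (RatFunc k))

theorem rpstd_ip_C [Algebra k T] [IsScalarTower k (RatFunc k) T] (c : k) :
    ip k T (C c) = algebraMap k T c := by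
  rw [IsScalarTower.algebraMap_apply k (RatFunc k) T]
  simp [ip]

theorem rpstd_aeval [Algebra k T] [IsScalarTower k (RatFunc k) T] (f : k[X]) :
    aeval (ip k T X) f = ip k T f := by
  induction f using Polynomial.induction_on' with
  | add f g hf hg => rw [map_add, map_add, hf, hg]
  | monomial n a => rw [aeval_monomial, ← C_mul_X_pow_eq_monomial, map_mul, map_pow, rpstd_ip_C]

theorem rpstd_v_fin (P : Pl k T) {w : P.W} (hw : P.pt w ≠ none) (f : k[X]) :
    P.v w (ip k T f) ≤ 1 := by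
  by_cases hf : f = 0
  · simp [hf]
  rw [P.v_ip w f hf]
  obtain ⟨a, ha⟩ := Option.ne_none_iff_exists'.1 hw
  rw [ha]
  exact pow_le_one₀ zero_le (by norm_num)

theorem rpstd_v_C (P : Pl k T) (w : P.W) (c : k) : P.v w (ip k T (C c)) ≤ 1 := by
  by_cases hw : P.pt w = none
  · by_cases hc : c = 0
    · simp [hc]
    rw [P.v_ip w _ (C_ne_zero.2 hc), hw]
    simp [szp]
  · exact rpstd_v_fin P hw _

theorem rpstd_tau (P : Pl k T) {H : HD T}
    (hC : ∀ c : k, H.E (ip k T (C c)) = PowerSeries.C (ip k T (C c)))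
    (hX : H.E (ip k T X) = PowerSeries.C (ip k T X) + PowerSeries.X) {w : P.W} {a : k}
    (h : P.pt w = some a) : P.v w (ip k T (X - C a)) = P.q⁻¹ ∧
      H.E (ip k T (X - C a)) = PowerSeries.C (ip k T (X - C a)) + PowerSeries.X := by
  constructor
  · rw [P.v_ip w _ (X_sub_C_ne_zero a), h, P.q_eq]
    simp [szp, rootMultiplicity_X_sub_C_self]
  · rw [map_sub, map_sub, hC, hX, map_sub]
    ring

theorem rpstd_restr (P : Pl k T) (A : Finset (Option k)) (L : IntermediateField (RatFunc k) T)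
    [h : FiniteDimensional (RatFunc k) L] :
    ∃ s : Finset P.W, ∀ w, P.pt w ∈ A → ∃ w' ∈ s, ∀ z ∈ L, P.v w z = P.v w' z := by
  classical
  choose s hs using fun a => P.restr a L h
  refine ⟨A.biUnion s, fun w hw => ?_⟩
  obtain ⟨w', h1, h2⟩ := hs _ w rfl
  exact ⟨w', Finset.mem_biUnion.2 ⟨_, hw, h1⟩, h2⟩

theorem rpstd_disc {q : ℝ≥0} (hq : 1 < q) {n : ℤ} (h : q ^ n < 1) : q ^ n ≤ q⁻¹ := by
  rw [← zpow_neg_one]
  have := (zpow_lt_one_iff_right₀ hq).1 h
  exact zpow_le_zpow_right₀ hq.le (by omega)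

theorem rpstd_dim [Algebra k T] [IsScalarTower k (RatFunc k) T] [Infinite k] (P : Pl k T)
    (K0 : IntermediateField (RatFunc k) T) [FiniteDimensional (RatFunc k) K0]
    (L : IntermediateField K0 T) [FiniteDimensional K0 L] {ν : T} (hν : ν ≠ 0) (μ m : ℕ)
    (z : Fin m → T) (hz : LinearIndependent k z) (hL : ∀ i, z i ∈ L)
    (h1 : ∀ i w, P.pt w ≠ none → P.v w (ν * z i) ≤ 1)
    (h2 : ∀ i w, P.pt w = none → P.v w (ν * z i) ≤ P.q ^ μ) :
    m ≤ Module.finrank (RatFunc k) K0 * Module.finrank K0 L * (μ + 1) := by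
  have : FiniteDimensional (RatFunc k) L := Module.Finite.trans K0 L
  let f : L →ₗ[RatFunc k] T :=
    (LinearMap.mulLeft (RatFunc k) ν) ∘ₗ (L.val.toLinearMap.restrictScalars (RatFunc k))
  have hi : LinearIndependent k fun i => ν * z i :=
    hz.map' (LinearMap.mulLeft k ν) (LinearMap.ker_eq_bot.2 (mul_right_injective₀ hν))
  have := P.dim_le (LinearMap.range f) μ m _ hi (fun i => ⟨⟨z i, hL i⟩, rfl⟩) h1 h2
  refine this.trans (Nat.mul_le_mul_right _ ?_)
  have : Module.Free K0 L := Module.Free.of_divisionRing _ _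
  rw [Module.finrank_mul_finrank]
  exact f.finrank_range_le

theorem rpstd_glob (p : ℕ) [Fact p.Prime] [IsAlgClosed k] [CharP k p] [CharP T p] [Algebra k T]
    [IsScalarTower k (RatFunc k) T] [Algebra.IsSeparable (RatFunc k) T] (h2 : (2 : k) ≠ 0)
    (P : Pl k T) {H : HD T} (hC : ∀ c : k, H.E (ip k T (C c)) = PowerSeries.C (ip k T (C c)))
    (K0 : IntermediateField (RatFunc k) T) [FiniteDimensional (RatFunc k) K0]
    (hD : ∀ z ∈ K0, ∀ r, H.D r z ∈ K0)
    (hmin : ∀ L : Subfield T, (∀ z ∈ K0, z ∈ L) → (∀ z, z ^ 2 ∈ L → z ∈ L) → L = ⊤)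
    (A : Finset (Option k)) (R : P.W → Subfield T) (hR : ∀ w, P.pt w ∉ A → ∀ z ∈ K0, z ∈ R w)
    (hle : ∀ w, P.pt w ∉ A → ∀ α ∈ R w, ∀ r, P.v w (H.D r α) ≤ P.q ^ r * P.v w α) (r : ℕ) :
    ∃ C : ℕ, ∀ w α, P.v w (H.D r α) ≤ P.q ^ C * P.v w α := by
  have h2T : (2 : T) ≠ 0 := by
    have : (2 : T) = algebraMap k T 2 := by simp [map_ofNat]
    rw [this]
    exact (_root_.map_ne_zero _).2 h2
  have key : ∀ (w : P.W) (L : Subfield T), (∀ z ∈ K0, z ∈ L) → ∀ Λ : ℝ≥0, 1 ≤ Λ →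
      (∀ z ∈ L, ∀ i ≤ r, P.v w (H.D i z) ≤ Λ ^ i * P.v w z) →
      ∀ z, P.v w (H.D r z) ≤ Λ ^ r * P.v w z := by
    intro w L hL Λ hΛ h z
    refine D_bound_closure p H (P.v w) h2T (algebraMap k T).fieldRange ?_ ?_ ?_ ?_ L ?_ ?_ hΛ r h z
      r le_rfl
    · rintro _ ⟨c, rfl⟩
      rw [← rpstd_ip_C]
      exact rpstd_v_C P w c
    · rintro _ ⟨c, rfl⟩
      obtain ⟨d, hd⟩ := IsAlgClosed.exists_pow_nat_eq c (n := 2) two_pos
      exact ⟨_, ⟨d, rfl⟩, by rw [← map_pow, hd]⟩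
    · rintro _ ⟨c, rfl⟩
      rw [← rpstd_ip_C]
      exact hC c
    · intro z hz
      obtain ⟨c, hc⟩ := P.residue w z hz
      exact ⟨_, ⟨c, rfl⟩, by rwa [rpstd_ip_C] at hc⟩
    · rintro _ ⟨c, rfl⟩
      rw [← rpstd_ip_C]
      exact hL _ (K0.algebraMap_mem _)
    · exact fun L' h1 h3 => hmin L' (fun z hz => h1 (hL z hz)) h3
  obtain ⟨s, hs⟩ := rpstd_restr P A K0
  choose c hc using fun w => P.D_bound_fin p H K0 w r
  have hq := P.one_lt_q.le
  refine ⟨(s.sup c + 1) * r, fun w α => ?_⟩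
  rw [pow_mul]
  by_cases hw : P.pt w ∈ A
  · obtain ⟨w', h1, h3⟩ := hs w hw
    refine (key w K0.toSubfield (fun z hz => hz) _ (one_le_pow₀ hq) (hc w' w h3 hD) α).trans ?_
    gcongr
    exact (Finset.le_sup h1).trans (Nat.le_succ _)
  · refine (key w (R w) (hR w hw) _ hq (fun z hz i _ => hle w hw z hz i) α).trans ?_
    gcongr
    exact le_self_pow₀ hq (Nat.succ_ne_zero _)

end

theorem exists_std' (p : ℕ) [Fact p.Prime] (k T : Type) [Field k] [IsAlgClosed k] [CharP k p]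
    (h2 : (2 : k) ≠ 0) [Field T] [CharP T p] [Algebra (RatFunc k) T] [Algebra k T]
    [IsScalarTower k (RatFunc k) T] [Algebra.IsSeparable (RatFunc k) T]
    (K0 : IntermediateField (RatFunc k) T) [FiniteDimensional (RatFunc k) K0] [IsGalois K0 T]
    (hs : ∀ α : T, ∃ β, β ^ 2 = α)
    (hmin : ∀ L : Subfield T, (∀ z ∈ K0, z ∈ L) → (∀ z, z ^ 2 ∈ L → z ∈ L) → L = ⊤) :
    ∃ S : Std p k T, S.t = ip k T X ∧ (∀ z, z ∈ S.K0 ↔ z ∈ K0) := by
  classical
  obtain ⟨P⟩ := exists_pl k T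
  obtain ⟨H, hC, hX⟩ := exists_hd (k := k) (T := T) p
  obtain ⟨A, hA0, hA⟩ := P.exists_regular K0
  choose R hR using fun w => exists_closField (P.v w) (algebraMap (RatFunc k) T).fieldRange
  have hR' : ∀ w z, z ∈ R w ↔ z ∈ clos (P.v w) (algebraMap (RatFunc k) T).fieldRange :=
    fun w z => by rw [← hR w]; rfl
  have hF : ∀ w f, algebraMap (RatFunc k) T f ∈ R w :=
    fun w f => (hR' w _).2 (subset_clos _ _ ⟨f, rfl⟩)
  have hF0 : ∀ f, algebraMap (RatFunc k) T f ∈ K0.toSubfield := fun f => K0.algebraMap_mem f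
  have hv : ∀ w, ∀ z ∈ R w, z ≠ 0 → ∃ n : ℤ, P.v w z = P.q ^ n :=
    fun w z hz h0 => P.vgroup w ((hR' w z).1 hz) h0
  have hpt : ∀ w, P.pt w ∉ A → ∃ a, P.pt w = some a :=
    fun w hw => Option.ne_none_iff_exists'.1 fun h => hw (h ▸ hA0)
  have hb : ∀ w, P.pt w ∉ A → ∀ z ∈ R w, ∀ r,
      P.v w (H.D r z) ≤ P.q ^ r * P.v w z ∧ (P.v w z ≤ 1 → P.v w (H.D r z) ≤ 1) := by
    intro w hw z hz r
    obtain ⟨a, ha⟩ := hpt w hw
    obtain ⟨h1, h3⟩ := rpstd_tau P hC hX ha
    exact D_bound_regular p H (P.v w) P.one_lt_q (R w) (hv w) h1 h3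
      (fun n => exists_expand p (R w) (hF w) a n) hz r
  have hD : ∀ z ∈ K0, ∀ r, H.D r z ∈ K0 :=
    fun z hz r => D_mem_of_hd p hX K0.toSubfield hF0 hz r
  have hK : ∀ w, P.pt w ∉ A → ∀ z ∈ K0, z ∈ R w := fun w hw z hz => (hR' w z).2 (hA w hw z hz)
  have hn : ∀ w, w ∉ {w | P.pt w ≠ none} ↔ P.pt w = none := fun w => by simp
  refine ⟨{
    toPF := P.toPF
    H := H
    good := {w | P.pt w ∉ A}
    R := R
    disc := ?_
    tau := ?_
    D_int := fun w hw α hα h r => (hb w hw α hα r).2 h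
    D_le := fun w hw α hα r => (hb w hw α hα r).1
    D_glob := rpstd_glob p h2 P hC K0 hD hmin A R hK fun w hw α hα r => (hb w hw α hα r).1
    proot := ?_
    t := ip k T X
    K0 := K0.restrictScalars k
    n0 := Module.finrank (RatFunc k) K0
    fin := {w | P.pt w ≠ none}
    galois := ‹IsGalois K0 T›
    t_mem := K0.algebraMap_mem _
    t_trans := ?_
    sqrt := hs
    E_k := fun c => by rw [← rpstd_ip_C]; exact hC c
    D_t := ?_
    D_mem := hD
    proot0 := fun z hz h => proot_of_hd p hX K0.toSubfield hF0 hz h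
    v_k := fun w c => by rw [← rpstd_ip_C]; exact rpstd_v_C P w c
    residue := fun w z hz => by simpa only [rpstd_ip_C] using P.residue w z hz
    good_fin := fun w hw h => hw (h ▸ hA0)
    v_t_fin := fun w hw => rpstd_v_fin P hw X
    v_t_inf := ?_
    mass_inf := ?_
    mass_bad := ?_
    ht_lt := P.ht_lt
    inf_bound := ?_
    denom := ?_
    K0_le := hK
    vgroup := fun w _ => hv w
    R_sqrt := fun w _ z hz h1 => (hR' w z).2 (P.sqrt_clos h2 w ((hR' w _).1 hz) h1)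
    R_proot := fun w _ z hz => mem_of_pow_mem p (R w) (hF w) hz
    R_D := fun w _ z hz r => D_mem_of_hd p hX (R w) (hF w) hz r
    tau0 := ?_
    restr_inf := ?_
    fibres := ?_
    dim_le := ?_
    mink := ?_ }, rfl, fun z => Iff.rfl⟩
  · intro w _ α hα h
    by_cases h0 : α = 0
    · simp [h0]
    obtain ⟨n, hn⟩ := hv w α hα h0
    rw [hn] at h ⊢
    exact rpstd_disc P.one_lt_q h
  · intro w hw
    obtain ⟨a, ha⟩ := hpt w hw
    exact ⟨_, hF w _, rpstd_tau P hC hX ha⟩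
  · intro α h
    obtain ⟨y, _, hy⟩ := proot_of_hd p hX ⊤ (fun _ => Subfield.mem_top _) (Subfield.mem_top α) h
    exact ⟨y, hy⟩
  · rw [transcendental_iff]
    intro f hf
    apply rpstd_ip_inj (T := T)
    rw [map_zero, ← hf, rpstd_aeval]
  · simp [HD.D, hX]
  · intro w hw
    rw [P.v_ip w X X_ne_zero, (hn w).1 hw, P.q_eq]
    simp [szp]
  · have := P.mass_pt {none}
    simp only [Finset.mem_singleton, Finset.card_singleton, Nat.cast_one] at this
    refine le_of_eq (Eq.trans ?_ this)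
    congr 1
    ext w
    simp
  · have := P.mass_pt A
    refine lt_of_eq_of_lt (Eq.trans ?_ this) (ENNReal.natCast_lt_top _)
    congr 1
    ext w
    simp
  · intro z
    obtain ⟨c, hc⟩ := P.inf_bound z
    exact ⟨c, fun w hw => hc w ((hn w).1 hw)⟩
  · intro z _
    obtain ⟨f, h0, hf⟩ := P.denom z
    exact ⟨ip k T f, hF0 _, (map_ne_zero_iff _ rpstd_ip_inj).2 h0,
      fun w hw => ⟨rpstd_v_fin P hw f, hf w hw⟩⟩
  · intro w hw
    obtain ⟨a, ha⟩ := hpt w hw
    exact ⟨_, hF0 _, rpstd_tau P hC hX ha⟩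
  · obtain ⟨s, hs⟩ := P.restr none K0 inferInstance
    exact ⟨s, fun w hw => hs w ((hn w).1 hw)⟩
  · intro M
    obtain ⟨B, hB, hM⟩ := (A.finite_toSet.infinite_compl).exists_subset_card_eq M
    obtain ⟨s, hs⟩ := rpstd_restr P B K0
    exact ⟨{w | P.pt w ∈ B}, s, fun w hw => hB hw, by rw [P.mass_pt, hM], hs⟩
  · intro L hL ν hν μ m z hz h1 h3 h4
    exact @rpstd_dim k T _ _ _ _ _ _ P K0 _ L hL ν hν μ m z hz h1 h3
      fun i w hw => h4 i w ((hn w).2 hw)
  · obtain ⟨c, hc⟩ := P.mink K0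
    refine ⟨c, fun ι _ _ B μ h1 h3 h4 h5 => ?_⟩
    obtain ⟨x, e1, e2, e3, e4⟩ := hc ι B μ h1 h3 h4 h5
    exact ⟨x, e1, e2, e3, fun i w hw => e4 i w ((hn w).1 hw)⟩

/-- The quadratic closure of a function field inside an algebraically closed field. -/
theorem exists_std (p : ℕ) [Fact p.Prime] (k Ω : Type) [Field k] [IsAlgClosed k] [CharP k p]
    (h2 : (2 : k) ≠ 0) [Field Ω] [IsAlgClosed Ω] [Algebra k Ω] {t : Ω} (ht : Transcendental k t)
    (K0 : IntermediateField k Ω) (htK : k⟮t⟯ ≤ K0)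
    (hfin : FiniteDimensional k⟮t⟯ (IntermediateField.extendScalars htK))
    (hsep : ∀ z ∈ K0, IsSeparable k⟮t⟯ z) :
    ∃ (T : IntermediateField k Ω) (S : Std p k T), (S.t : Ω) = t ∧ K0 ≤ T ∧
      (∀ z : T, z ∈ S.K0 ↔ (z : Ω) ∈ K0) ∧
      ∀ z : T, IsIntegral (Algebra.adjoin k {t}) (z : Ω) → ∀ w ∈ S.fin, S.v w z ≤ 1 := by
  have h2K : (2 : K0) ≠ 0 := by
    have : (2 : K0) = algebraMap k K0 2 := by simp [map_ofNat]
    rw [this]
    exact (_root_.map_ne_zero _).2 h2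
  obtain ⟨T1, hG, hs, hmin⟩ := rpstd_quad K0 Ω h2K
  let T : IntermediateField k Ω := T1.restrictScalars k
  have hKT : K0 ≤ T := fun z hz => T1.algebraMap_mem ⟨z, hz⟩
  let e := RatFunc.algEquivOfTranscendental t ht
  let ι : RatFunc k →ₐ[k] T := (IntermediateField.inclusion (htK.trans hKT)).comp e.toAlgHom
  let _ : Algebra (RatFunc k) T := ι.toRingHom.toAlgebra
  have : IsScalarTower k (RatFunc k) T :=
    IsScalarTower.of_algebraMap_eq fun c => (ι.commutes c).symm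
  let K1 : IntermediateField (RatFunc k) T :=
    (K0.toSubfield.comap T.val.toRingHom).toIntermediateField fun f => htK (e f).2
  let g : K0 ≃+* K1 :=
    { toFun := fun z => ⟨⟨z, hKT z.2⟩, z.2⟩
      invFun := fun z => ⟨z.1.1, z.2⟩
      left_inv := fun _ => rfl
      right_inv := fun _ => rfl
      map_mul' := fun _ _ => rfl
      map_add' := fun _ _ => rfl }
  let g' : IntermediateField.extendScalars htK ≃+* K1 := g
  have hc : (algebraMap (RatFunc k) K1).comp (e.symm.toRingEquiv : k⟮t⟯ →+* RatFunc k) =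
      (g' : IntermediateField.extendScalars htK →+* K1).comp
        (algebraMap k⟮t⟯ (IntermediateField.extendScalars htK)) := by
    refine RingHom.ext fun x => Subtype.ext (Subtype.ext ?_)
    exact (congrArg Subtype.val (e.apply_symm_apply x) :)
  have : FiniteDimensional (RatFunc k) K1 := Module.Finite.of_equiv_equiv _ g' hc
  have : Algebra.IsSeparable k⟮t⟯ (IntermediateField.extendScalars htK) :=
    ⟨fun z => IsSeparable.tower_bot (hsep z z.2)⟩
  have : Algebra.IsSeparable (RatFunc k) K1 := Algebra.IsSeparable.of_equiv_equiv _ g' hc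
  have : IsGalois K1 T := IsGalois.of_equiv_equiv (h := hG) (f := g) (g := RingEquiv.refl T1)
    (RingHom.ext fun _ => rfl)
  have : Algebra.IsSeparable (RatFunc k) T := Algebra.IsSeparable.trans (RatFunc k) K1 T
  have : CharP T p := charP_of_injective_algebraMap (algebraMap k T).injective p
  obtain ⟨S, h1, h3⟩ := exists_std' p k T h2 K1 hs fun L hL hq =>
    hmin L (fun c => hL _ c.2) hq
  have h4 : (S.t : Ω) = t := by
    rw [h1]
    exact RatFunc.algEquivOfTranscendental_X t ht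
  refine ⟨T, S, h4, hKT, h3, fun z hz w hw => ?_⟩
  exact rpstd_int T (S.v w) (S.v_k w) (S.v_t_fin w hw) (h4 ▸ hz)

end JR
end

-- merged part: Pool.Agent.Work.MP_969914_nt.RMain
section
/-! The finite index theorem over global function fields. -/

set_option autoImplicit false

namespace JR

open scoped IntermediateField

theorem exists_dyn {p : ℕ} [Fact p.Prime] {k Ω : Type} [Field k] [Field Ω] [Algebra k Ω]
    {T : IntermediateField k Ω} (S : Std p k T) {a c : T} {B : T × T} (h : NF a c B)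
    (hK : ∀ z : T, z ∈ S.K0 ↔
      (z : Ω) ∈ IntermediateField.adjoin k {(a : Ω), (c : Ω), (B.1 : Ω)})
    (ia : ∀ w ∈ S.fin, S.v w a ≤ 1) (ic : ∀ w ∈ S.fin, S.v w c ≤ 1)
    (iu : ∀ w ∈ S.fin, S.v w (a - c)⁻¹ ≤ 1) (iB : ∀ w ∈ S.fin, S.v w B.1 ≤ 1) :
    ∃ d : Dyn S, d.a = a ∧ d.c = c ∧ d.B = B := by
  have hac : a - c ≠ 0 := sub_ne_zero.2 h.hypH.ne
  refine ⟨⟨a, c, B, ?_, ?_, ?_, h.B_form, ia, ic, fun w hw => ?_, iB, h.hypH, h.col, h.unr,
    h.nonper, h.aut, ?_⟩, rfl, rfl, rfl⟩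
  · exact (hK _).2 (IntermediateField.subset_adjoin _ _ (by simp))
  · exact (hK _).2 (IntermediateField.subset_adjoin _ _ (by simp))
  · exact (hK _).2 (IntermediateField.subset_adjoin _ _ (by simp))
  · refine le_antisymm ((S.v w).map_sub_le (ia w hw) (ic w hw)) ?_
    have := iu w hw
    rwa [map_inv₀, inv_le_one₀ ((S.v w).pos_iff.2 hac)] at this
  · by_contra hn
    push Not at hn
    obtain ⟨ha, hc, hB⟩ := hn
    have hB' : S.H.D 1 B.1 = 0 := by
      rcases h.B_form with e | e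
      · exact hB e
      · rw [e]; simp [HD.D, PowerSeries.coeff_one]
    have key : ∀ z ∈ IntermediateField.adjoin k {(a : Ω), (c : Ω), (B.1 : Ω)},
        ∃ y : T, (y : Ω) = z ∧ S.H.D 1 y = 0 := by
      intro z hz
      induction hz using IntermediateField.adjoin_induction with
      | mem x hx =>
        rcases hx with rfl | rfl | rfl
        exacts [⟨_, rfl, ha⟩, ⟨_, rfl, hc⟩, ⟨_, rfl, hB'⟩]
      | algebraMap r =>
        exact ⟨algebraMap k T r, rfl, by simp [HD.D, S.E_k, PowerSeries.coeff_C]⟩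
      | add x y _ _ hx hy =>
        obtain ⟨x, rfl, hx⟩ := hx
        obtain ⟨y, rfl, hy⟩ := hy
        exact ⟨x + y, rfl, by rw [S.H.D_add, hx, hy, add_zero]⟩
      | inv x _ hx =>
        obtain ⟨x, rfl, hx⟩ := hx
        refine ⟨x⁻¹, rfl, ?_⟩
        by_cases h0 : x = 0
        · rw [h0, inv_zero, S.H.D_of_zero]
        · have e := S.H.D1_mul x x⁻¹
          rw [mul_inv_cancel₀ h0, hx] at e
          have e1 : S.H.D 1 (1 : T) = 0 := by simp [HD.D, PowerSeries.coeff_one]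
          rw [e1] at e
          simpa [h0] using e
      | mul x y _ _ hx hy =>
        obtain ⟨x, rfl, hx⟩ := hx
        obtain ⟨y, rfl, hy⟩ := hy
        exact ⟨x * y, rfl, by rw [S.H.D1_mul, hx, hy]; simp⟩
    obtain ⟨y, hy, hy'⟩ := key _ ((hK _).1 S.t_mem)
    rw [Subtype.ext hy, S.D_t] at hy'
    exact one_ne_zero hy'

theorem index_nf (p : ℕ) [Fact p.Prime] {k Ω : Type} [Field k] [IsAlgClosed k] [CharP k p]
    [Field Ω] [IsAlgClosed Ω] [CharP Ω p] [Algebra k Ω] (hk : ∀ x : k, ∃ n, 0 < n ∧ x ^ p ^ n = x)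
    {u : Ω} (hu : ∀ z : Ω, IsAlgebraic k⟮u⟯ z) {a c : Ω} {B : Ω × Ω} (h : NF a c B)
    {K : Type} [Field K] [Algebra K Ω] (G : Finset Ω)
    (hK : ∀ x : K, algebraMap K Ω x ∈ IntermediateField.adjoin k (G : Set Ω)) :
    ∃ M : ℕ, ∀ (n : ℕ) (S : Set Ω), FiniteDimensional K (IntermediateField.adjoin K S) →
      (∀ L : Subfield Ω, (∀ z ∈ G, z ∈ L) → (∀ z ∈ S, z ∈ L) → ∀ z ∈ lev a c B n, z ∈ L) →
      2 ^ (2 ^ n - 1) ≤ M * Module.finrank K (IntermediateField.adjoin K S) := by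
  classical
  have h2 : (2 : k) ≠ 0 := fun e => h.hypH.two (by
    have := congrArg (algebraMap k Ω) e
    rwa [map_ofNat, map_zero] at this)
  have hs : ((({a, c, B.1} : Finset Ω)) : Set Ω) = {a, c, B.1} := by simp
  set K0 := IntermediateField.adjoin k {a, c, B.1} with hK0
  have ha : a ∈ K0 := IntermediateField.subset_adjoin _ _ (by simp)
  have hc : c ∈ K0 := IntermediateField.subset_adjoin _ _ (by simp)
  have hB : B.1 ∈ K0 := IntermediateField.subset_adjoin _ _ (by simp)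
  obtain ⟨x, hx, hxt⟩ : ∃ x ∈ K0, Transcendental k x := by
    rcases transcendental_of_hypH p hk h.hypH with e | e
    exacts [⟨a, ha, e⟩, ⟨c, hc, e⟩]
  obtain ⟨t, ht, halg, hle, hfin, hsep, hint⟩ := exists_param hu {a, c, B.1} {a, c, B.1, (a - c)⁻¹}
    (by
      rw [hs]
      intro z hz
      simp only [Finset.mem_insert, Finset.mem_singleton] at hz
      rcases hz with rfl | rfl | rfl | rfl
      exacts [ha, hc, hB, inv_mem (sub_mem ha hc)]) (x := x) (by rwa [hs]) hxt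
  revert hle hsep
  rw [hs]
  intro hle hfin hsep
  obtain ⟨T, S, -, hT, hS, hI⟩ := exists_std p k Ω h2 ht K0 hle hfin hsep
  have hB2 : B.2 ∈ T := by
    rcases h.B_form with e | e
    · rw [e]; exact one_mem _
    · rw [e]; exact zero_mem _
  have : CharP T p := (algebraMap T Ω).charP (algebraMap T Ω).injective p
  obtain ⟨d, da, dc, dB⟩ := exists_dyn S (a := ⟨a, hT ha⟩) (c := ⟨c, hT hc⟩)
    (B := (⟨B.1, hT hB⟩, ⟨B.2, hB2⟩)) (NF.of_map (algebraMap T Ω) h) hS
    (hI _ (hint _ (by simp))) (hI _ (hint _ (by simp))) (hI _ (hint _ (by simp)))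
    (hI _ (hint _ (by simp)))
  obtain ⟨M, hM⟩ := d.index' hk
  have hG : ∀ z ∈ G, IsAlgebraic K0.toSubfield z := fun z _ => by
    obtain ⟨P, hP0, hP⟩ := halg z
    refine ⟨P.map (IntermediateField.inclusion hle).toRingHom,
      Polynomial.map_ne_zero hP0, ?_⟩
    rw [← hP, Polynomial.aeval_def, Polynomial.eval₂_map, Polynomial.aeval_def]
    rfl
  have hK' : ∀ y : K, algebraMap K Ω y ∈
      IntermediateField.adjoin K0.toSubfield (G : Set Ω) := fun y => by
    have := hK y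
    generalize algebraMap K Ω y = z at this
    induction this using IntermediateField.adjoin_induction with
    | mem x hx => exact IntermediateField.subset_adjoin _ _ hx
    | algebraMap r =>
      exact IntermediateField.algebraMap_mem (IntermediateField.adjoin K0.toSubfield (G : Set Ω))
        ⟨algebraMap k Ω r, K0.algebraMap_mem r⟩
    | add x y _ _ hx hy => exact add_mem hx hy
    | inv x _ hx => exact inv_mem hx
    | mul x y _ _ hx hy => exact mul_mem hx hy
  obtain ⟨m, hm⟩ := exists_finrank_le (K := K) S.K0 (algebraMap T Ω) K0.toSubfield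
    (fun z => ⟨fun hz => ⟨⟨⟨z, hT hz⟩, (hS _).2 hz⟩, rfl⟩, by
      rintro ⟨y, rfl⟩
      exact (hS _).1 y.2⟩) G hG hK'
  refine ⟨M * m, fun n S' hfd hL => (hM n).trans ?_⟩
  rw [mul_assoc]
  refine Nat.mul_le_mul_left _ (hm S' _ hfd fun L _ h1 h3 z hz => hL L h1 h3 _ ?_)
  have := mem_lev_map (algebraMap T Ω) hz
  rw [da, dc, dB] at this
  exact this

theorem jones :
    ∀ (K : Type) [Field K],
      (∃ (Fq : Type) (_ : Field Fq) (_ : Finite Fq) (_ : Algebra (RatFunc Fq) K),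
          FunctionField Fq K) →
      ringChar K ≠ 2 →
      ∀ (a0 a1 a2 b0 b1 b2 : K),
      (a0 * b2 - a2 * b0) ^ 2 - (a0 * b1 - a1 * b0) * (a1 * b2 - a2 * b1) ≠ 0 →
      ∀ Φ : AlgebraicClosure K × AlgebraicClosure K → AlgebraicClosure K × AlgebraicClosure K,
      (∀ x y : AlgebraicClosure K,
        Φ (x, y) =
          (algebraMap K (AlgebraicClosure K) a0 * x ^ 2
              + algebraMap K (AlgebraicClosure K) a1 * x * y
              + algebraMap K (AlgebraicClosure K) a2 * y ^ 2,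
            algebraMap K (AlgebraicClosure K) b0 * x ^ 2
              + algebraMap K (AlgebraicClosure K) b1 * x * y
              + algebraMap K (AlgebraicClosure K) b2 * y ^ 2)) →
      ∀ C : AlgebraicClosure K × AlgebraicClosure K → AlgebraicClosure K,
      (∀ x y : AlgebraicClosure K,
        C (x, y) =
          algebraMap K (AlgebraicClosure K) (a0 * b1 - a1 * b0) * x ^ 2
            + 2 * algebraMap K (AlgebraicClosure K) (a0 * b2 - a2 * b0) * x * y
            + algebraMap K (AlgebraicClosure K) (a1 * b2 - a2 * b1) * y ^ 2) →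
      (∀ n : ℕ,
        Set.ncard {v : AlgebraicClosure K × AlgebraicClosure K |
          (v.2 = 1 ∨ v = (1, 0)) ∧ (Φ^[n] v).1 = 0} = 2 ^ n) →
      (∀ M : ℕ, ∃ n : ℕ,
        M * Module.finrank K
          (IntermediateField.adjoin K
            {z : AlgebraicClosure K | (Φ^[n] (z, 1)).1 = 0}) < 2 ^ (2 ^ n - 1)) →
      ((∀ v : AlgebraicClosure K × AlgebraicClosure K, v ≠ 0 → C v = 0 →
          ∃ m n : ℕ, m < n ∧
            (Φ^[m] v).1 * (Φ^[n] v).2 = (Φ^[n] v).1 * (Φ^[m] v).2)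
        ∨ (∃ v w : AlgebraicClosure K × AlgebraicClosure K,
            v ≠ 0 ∧ w ≠ 0 ∧ C v = 0 ∧ C w = 0 ∧ v.1 * w.2 ≠ w.1 * v.2 ∧
            ∃ r : ℕ, 1 ≤ r ∧
              (Φ^[r + 1] v).1 * (Φ^[r + 1] w).2 = (Φ^[r + 1] w).1 * (Φ^[r + 1] v).2)
        ∨ (∃ n : ℕ, 1 ≤ n ∧ (Φ^[n] (0, 1)).1 = 0)
        ∨ (∃ p s t : AlgebraicClosure K, p * t ≠ 0 ∧ (s ≠ 0 ∨ p ≠ t) ∧
            ∀ x y : AlgebraicClosure K, (x, y) ≠ 0 →
              (Φ (p * x, s * x + t * y)).1 * (s * (Φ (x, y)).1 + t * (Φ (x, y)).2)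
                = p * (Φ (x, y)).1 * (Φ (p * x, s * x + t * y)).2)) := by
  classical
  rintro K _ ⟨Fq, _, _, _, hF⟩ h2 a0 a1 a2 b0 b1 b2 hres Φ hΦ C hC hcard hM
  by_contra hn
  rw [not_or, not_or, not_or] at hn
  obtain ⟨n1, n2, n3, n4⟩ := hn
  obtain ⟨p, k, u, G, hp, hchar, hcharΩ, hkc, hk, hu, hK⟩ :=
    exists_consts K Fq (AlgebraicClosure K)
  have : Fact p.Prime := ⟨hp⟩
  have : CharP k p := k.subtype.charP k.subtype.injective p
  have h2' : (2 : AlgebraicClosure K) ≠ 0 := fun e => by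
    have := (CharP.cast_eq_zero_iff (AlgebraicClosure K) p 2).1 (by exact_mod_cast e)
    exact h2 (hchar.trans ((Nat.prime_dvd_prime_iff_eq hp Nat.prime_two).1 this))
  obtain ⟨e1, e2, a, c, B, he, hc, hB, h⟩ := exists_nf (C := C) h2' (by
      intro e
      apply hres
      apply (algebraMap K (AlgebraicClosure K)).injective
      simpa using e) hΦ (by intro x y; rw [hC]; simp) hcard n1 n2 n3 n4
  obtain ⟨M, hM'⟩ := index_nf p hk hu h (K := K) (G ∪ {e1.1, e1.2, e2.1, e2.2})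
    fun x => IntermediateField.adjoin.mono _ _ _
      (Finset.coe_subset.2 Finset.subset_union_left) (hK x)
  obtain ⟨n, hn⟩ := hM M
  refine absurd (hM' n _ ?_ fun L h1 h3 => ?_) (not_le.2 hn)
  · have hfin : {z : AlgebraicClosure K | (Φ^[n] (z, 1)).1 = 0}.Finite := by
      have := Set.finite_of_ncard_ne_zero ((hcard n).trans_ne (pow_ne_zero n two_ne_zero))
      refine (this.preimage (f := fun z : AlgebraicClosure K => (z, (1 : AlgebraicClosure K)))
        fun x _ y _ e => congrArg Prod.fst e).subset fun z hz => ⟨Or.inl rfl, hz⟩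
    have := hfin.to_subtype
    exact IntermediateField.finiteDimensional_adjoin fun z _ => Algebra.IsIntegral.isIntegral z
  · refine lev_subset hΦ he hc hB ?_ n L (h1 _ (by simp)) (h1 _ (by simp)) (h1 _ (by simp))
      (h1 _ (by simp)) h3
    rintro rfl
    rcases h.B_form with e | e <;> simp [Prod.ext_iff] at e

end JR
end
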