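import Pool.Agent.Work.MP_969914_nt.RPStda
import Pool.Agent.Work.MP_969914_nt.RDyn
import Mathlib

-- merged part: Pool.Agent.Work.MP_969914_nt.RTop
section
/-! Elementary facts on the standard places and the tree. -/

set_option autoImplicit false

namespace JR

open scoped NNReal ENNReal
open Polynomial

namespace Std
variable {p : ℕ} {k T : Type} [Field k] [Field T] [Algebra k T] (S : Std p k T)

theorem v_k_eq (w : S.W) {c : k} (hc : c ≠ 0) : S.v w (algebraMap k T c) = 1 := by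
  have h1 := S.v_k w c
  have h2 := S.v_k w c⁻¹
  have h3 : S.v w (algebraMap k T c) * S.v w (algebraMap k T c⁻¹) = 1 := by
    rw [← map_mul, ← map_mul, mul_inv_cancel₀ hc, map_one, map_one]
  refine le_antisymm h1 ?_
  calc (1 : ℝ≥0) = _ := h3.symm
    _ ≤ S.v w (algebraMap k T c) * 1 := mul_le_mul_right h2 _
    _ = _ := mul_one _

theorem v_two (h2 : (2 : T) ≠ 0) (w : S.W) : S.v w 2 = 1 := by
  have h : algebraMap k T 2 = 2 := map_ofNat _ 2
  rw [← h]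
  refine S.v_k_eq w fun h0 => h2 ?_
  rw [← h, h0, map_zero]

/-- Zeros at finite places of an element which is integral there and bounded at infinity. -/
theorem I_fin_inv_le {α : T} (h0 : α ≠ 0) (h1 : ∀ w ∈ S.fin, S.v w α ≤ 1) {C : ℕ}
    (h2 : ∀ w ∉ S.fin, S.v w α ≤ S.q ^ C) :
    S.I (Set.mulIndicator S.fin fun w => (S.v w α)⁻¹) ≤ C := by
  classical
  have hq : ∀ n : ℕ, 1 ≤ S.q ^ n := fun n => one_le_pow₀ S.one_lt_q.le
  have h3 := S.pf α h0 (fun w => if w ∈ S.fin then 1 else S.q ^ C)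
    (fun w => by split_ifs; exacts [le_rfl, hq C])
    (fun w => by
      split_ifs with h
      exacts [h1 w h, h2 w h])
  have h4 : S.I (fun w => if w ∈ S.fin then 1 else S.q ^ C) ≤ C * S.toPF.mass S.finᶜ :=
    S.toPF.I_le_mass (fun w hw => by rw [if_neg hw]) fun w hw => by
      rw [if_pos (not_not.1 hw)]
  refine (S.I_mono _ _ fun w => ?_).trans (h3.trans (h4.trans ?_))
  · by_cases h : w ∈ S.fin
    · rw [Set.mulIndicator_of_mem h, if_pos h, one_div]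
      exact le_max_right _ _
    · rw [Set.mulIndicator_of_notMem h]
      exact le_max_left _ _
  · exact (mul_le_mul_right S.mass_inf _).trans (le_of_eq (mul_one _))

theorem rtop_q_pos : 0 < S.q := zero_lt_one.trans S.one_lt_q

theorem rtop_q_le {α : T} (h0 : α ≠ 0) {w : S.W} (hw : w ∈ S.good) (h1 : α ∈ S.R w)
    (h2 : S.v w α < 1) : S.q ≤ (S.v w α)⁻¹ := by
  have h3 : 0 < S.v w α := zero_lt_iff.2 ((S.v w).ne_zero_iff.2 h0)
  exact (le_inv_comm₀ h3 S.rtop_q_pos).1 (S.disc w hw α h1 h2)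

theorem mass_le_of_bound {α : T} (h0 : α ≠ 0) (h1 : ∀ w ∈ S.fin, S.v w α ≤ 1) {C : ℕ}
    (h2 : ∀ w ∉ S.fin, S.v w α ≤ S.q ^ C) :
    S.toPF.mass {w | w ∈ S.good ∧ α ∈ S.R w ∧ S.v w α < 1} ≤ C := by
  refine le_trans ?_ (S.I_fin_inv_le h0 h1 h2)
  have h := S.toPF.mass_le_I (m := 1) (E := {w | w ∈ S.good ∧ α ∈ S.R w ∧ S.v w α < 1})
    (f := Set.mulIndicator S.fin fun w => (S.v w α)⁻¹) fun w hw => by
      rw [Set.mulIndicator_of_mem (S.good_fin hw.1), pow_one]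
      exact S.rtop_q_le h0 hw.1 hw.2.1 hw.2.2
  rwa [Nat.cast_one, one_mul] at h

/-- Regular zeros and poles are bounded by the height. -/
theorem mass_ne_one_le {α : T} (h0 : α ≠ 0) :
    S.toPF.mass {w | w ∈ S.good ∧ α ∈ S.R w ∧ S.v w α ≠ 1} ≤ 2 * S.toPF.ht α := by
  have key : ∀ β : T, β ≠ 0 →
      S.toPF.mass {w | w ∈ S.good ∧ β ∈ S.R w ∧ S.v w β < 1} ≤ S.toPF.ht β := by
    intro β hβ
    have h := S.toPF.mass_le_I (m := 1) (E := {w | w ∈ S.good ∧ β ∈ S.R w ∧ S.v w β < 1})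
      (f := fun w => S.v w β⁻¹) fun w hw => by
        rw [pow_one, map_inv₀]
        exact S.rtop_q_le hβ hw.1 hw.2.1 hw.2.2
    rw [Nat.cast_one, one_mul] at h
    exact h.trans (le_of_eq (S.toPF.ht_inv β))
  have h1 := key α h0
  have h2 := key α⁻¹ (inv_ne_zero h0)
  rw [S.toPF.ht_inv] at h2
  rw [two_mul]
  refine le_trans (S.toPF.mass_mono fun w hw => ?_)
    ((S.toPF.mass_union_le _ _).trans (add_le_add h1 h2))
  rcases lt_or_gt_of_ne hw.2.2 with h | h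
  · exact Or.inl ⟨hw.1, hw.2.1, h⟩
  · refine Or.inr ⟨hw.1, (S.R w).inv_mem hw.2.1, ?_⟩
    rw [map_inv₀]
    exact inv_lt_one_of_one_lt₀ h

/-- Square roots of elements of even order. -/
theorem R_sqrt_even {w : S.W} (hw : w ∈ S.good) {z : T} (hz : z ^ 2 ∈ S.R w) {n : ℤ}
    (h : S.v w z = S.q ^ n) : z ∈ S.R w := by
  obtain ⟨τ, h1, h2, -⟩ := S.tau w hw
  have hq := S.rtop_q_pos.ne'
  have h3 : τ ≠ 0 := by
    rintro rfl
    rw [map_zero] at h2
    exact inv_ne_zero hq h2.symm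
  have h4 : τ ^ n ∈ S.R w := (S.R w).zpow_mem h1 n
  have h5 : z * τ ^ n ∈ S.R w := by
    refine S.R_sqrt w hw _ ?_ ?_
    · rw [mul_pow]
      exact (S.R w).mul_mem hz ((S.R w).pow_mem h4 2)
    · rw [map_mul, map_zpow₀, h, h2, inv_zpow, mul_inv_cancel₀ (zpow_ne_zero n hq)]
  have h6 := (S.R w).mul_mem h5 ((S.R w).inv_mem h4)
  rwa [mul_inv_cancel_right₀ (zpow_ne_zero n h3)] at h6

theorem rtop_fixed (L : Subfield T) (hL : ∀ z ∈ S.K0, z ∈ L) {u : T}
    (h : ∀ σ : T ≃ₐ[S.K0] T, (∀ z ∈ L, σ z = z) → σ u = u) : u ∈ L := by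
  have := S.galois
  have h1 := InfiniteGalois.fixedField_fixingSubgroup
    (L.toIntermediateField (K := S.K0) fun x => hL x.1 x.2)
  have h2 : u ∈ L.toIntermediateField (K := S.K0) fun x => hL x.1 x.2 := by
    rw [← h1, IntermediateField.mem_fixedField_iff]
    intro σ hσ
    exact h σ ((IntermediateField.mem_fixingSubgroup_iff _ σ).1 hσ)
  exact h2

theorem exists_aut_neg (h2 : (2 : T) ≠ 0) (L : Subfield T) (hL : ∀ z ∈ S.K0, z ∈ L) {u : T}
    (hu : u ∉ L) (hu2 : u ^ 2 ∈ L) :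
    ∃ σ : T ≃ₐ[S.K0] T, (∀ z ∈ L, σ z = z) ∧ σ u = -u := by
  by_contra hc
  refine hu (S.rtop_fixed L hL fun σ hσ => ?_)
  have h1 : σ u ^ 2 = u ^ 2 := by rw [← map_pow, hσ _ hu2]
  rcases sq_eq_sq_iff_eq_or_eq_neg.1 h1 with h | h
  · exact h
  · exact absurd ⟨σ, hσ, h⟩ hc

theorem mem_of_fixed (L : Subfield T) (hL : ∀ z ∈ S.K0, z ∈ L) {u : T}
    (h : ∀ σ : T ≃ₐ[S.K0] T, (∀ z ∈ L, σ z = z) → σ u = u) : u ∈ L := by
  exact S.rtop_fixed L hL h

end Std

namespace Dyn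
variable {p : ℕ} {k T : Type} [Field k] [Field T] [Algebra k T] {S : Std p k T} (d : Dyn S)

theorem B_ne_zero : d.B ≠ 0 := by
  intro h
  rcases d.B_form with h1 | h1
  · rw [h] at h1
    exact zero_ne_one h1
  · rw [h] at h1
    exact zero_ne_one (congrArg Prod.fst h1)

theorem iter_mem {Z : T × T} (L : Subfield T) (hL : ∀ z ∈ S.K0, z ∈ L) (h1 : Z.1 ∈ L)
    (h2 : Z.2 ∈ L) (n : ℕ) : ((Phi d.a d.c)^[n] Z).1 ∈ L ∧ ((Phi d.a d.c)^[n] Z).2 ∈ L := by
  induction n with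
  | zero => exact ⟨h1, h2⟩
  | succ n ih =>
    rw [Function.iterate_succ_apply']
    exact ⟨L.add_mem (L.mul_mem (hL _ d.a_mem) (L.pow_mem ih.1 2)) (L.pow_mem ih.2 2),
      L.add_mem (L.mul_mem (hL _ d.c_mem) (L.pow_mem ih.1 2)) (L.pow_mem ih.2 2)⟩

theorem orb_mem (b : Bool) (n : ℕ) :
    (orb d.a d.c b n).1 ∈ S.K0 ∧ (orb d.a d.c b n).2 ∈ S.K0 := by
  refine d.iter_mem S.K0.toSubfield (fun _ h => h) ?_ ?_ n <;> cases b
  exacts [zero_mem _, one_mem _, one_mem _, zero_mem _]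

theorem rtop_bound (v : Valuation T ℝ≥0) {a c : T} (hac : a ≠ c) {β : ℝ≥0} (h1 : 1 ≤ β)
    (ha : v a ≤ β) (hc : v c ≤ β) (hd : v (a - c)⁻¹ ≤ β) (Z : T × T) :
    max (v (Phi a c Z).1) (v (Phi a c Z).2) ≤ β * max (v Z.1) (v Z.2) ^ 2 ∧
      max (v Z.1) (v Z.2) ^ 2 ≤ β ^ 2 * max (v (Phi a c Z).1) (v (Phi a c Z).2) := by
  have k1 : ∀ e : T, v e ≤ β → v (e * Z.1 ^ 2 + Z.2 ^ 2) ≤ β * max (v Z.1) (v Z.2) ^ 2 := by
    intro e he
    refine v.map_add_le ?_ ?_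
    · rw [map_mul, map_pow]
      exact mul_le_mul' he (pow_le_pow_left₀ zero_le (le_max_left _ _) 2)
    · rw [map_pow]
      exact (pow_le_pow_left₀ zero_le (le_max_right _ _) 2).trans (le_mul_of_one_le_left' h1)
  refine ⟨max_le (k1 a ha) (k1 c hc), ?_⟩
  have hne : a - c ≠ 0 := sub_ne_zero.2 hac
  have k2 : ∀ e f x : T, v e ≤ β → v f ≤ β →
      x ^ 2 = (a - c)⁻¹ * (e * (Phi a c Z).1 - f * (Phi a c Z).2) →
      v x ^ 2 ≤ β ^ 2 * max (v (Phi a c Z).1) (v (Phi a c Z).2) := by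
    intro e f x he hf hx
    rw [← map_pow, hx, map_mul, sq, mul_assoc]
    refine mul_le_mul' hd (v.map_sub_le ?_ ?_)
    · rw [map_mul]
      exact mul_le_mul' he (le_max_left _ _)
    · rw [map_mul]
      exact mul_le_mul' hf (le_max_right _ _)
  have h0 : v 1 ≤ β := by rwa [map_one]
  rcases le_total (v Z.1) (v Z.2) with h | h
  · rw [max_eq_right h]
    refine k2 (-c) (-a) _ (by rwa [v.map_neg]) (by rwa [v.map_neg]) ?_
    simp only [Phi]
    field_simp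
    ring
  · rw [max_eq_left h]
    refine k2 1 1 _ h0 h0 ?_
    simp only [Phi]
    field_simp
    ring

/-- Good reduction at finite places. -/
theorem norm_Phi {w : S.W} (hw : w ∈ S.fin) (Z : T × T) :
    max (S.v w (Phi d.a d.c Z).1) (S.v w (Phi d.a d.c Z).2) = max (S.v w Z.1) (S.v w Z.2) ^ 2 := by
  have h := rtop_bound (S.v w) d.hypH.ne le_rfl (d.a_int w hw) (d.c_int w hw)
    (by rw [map_inv₀, d.d_unit w hw, inv_one]) Z
  rw [one_mul, one_pow, one_mul] at h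
  exact le_antisymm h.1 h.2

theorem norm_iter {w : S.W} (hw : w ∈ S.fin) (Z : T × T) (n : ℕ) :
    max (S.v w ((Phi d.a d.c)^[n] Z).1) (S.v w ((Phi d.a d.c)^[n] Z).2) =
      max (S.v w Z.1) (S.v w Z.2) ^ 2 ^ n := by
  induction n with
  | zero => simp
  | succ n ih => rw [Function.iterate_succ_apply', d.norm_Phi hw, ih, ← pow_mul, pow_succ]

theorem norm_orb {w : S.W} (hw : w ∈ S.fin) (b : Bool) (n : ℕ) :
    max (S.v w (orb d.a d.c b n).1) (S.v w (orb d.a d.c b n).2) = 1 := by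
  rw [orb, d.norm_iter hw]
  cases b <;> simp [crit]

theorem norm_B {w : S.W} (hw : w ∈ S.fin) : max (S.v w d.B.1) (S.v w d.B.2) = 1 := by
  rcases d.B_form with h | h
  · rw [h, map_one, max_eq_right (d.B_int w hw)]
  · simp [h]

/-- Two sided bound at the infinite places. -/
theorem exists_inf_const : ∃ C : ℕ, ∀ w ∉ S.fin, ∀ Z : T × T,
    max (S.v w (Phi d.a d.c Z).1) (S.v w (Phi d.a d.c Z).2) ≤
        S.q ^ C * max (S.v w Z.1) (S.v w Z.2) ^ 2 ∧
      max (S.v w Z.1) (S.v w Z.2) ^ 2 ≤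
        S.q ^ C * max (S.v w (Phi d.a d.c Z).1) (S.v w (Phi d.a d.c Z).2) := by
  obtain ⟨C1, h1⟩ := S.inf_bound d.a
  obtain ⟨C2, h2⟩ := S.inf_bound d.c
  obtain ⟨C3, h3⟩ := S.inf_bound (d.a - d.c)⁻¹
  have hq : ∀ {m n : ℕ}, m ≤ n → S.q ^ m ≤ S.q ^ n := fun h => pow_le_pow_right₀ S.one_lt_q.le h
  refine ⟨(C1 + C2 + C3) * 2, fun w hw Z => ?_⟩
  have h := rtop_bound (S.v w) d.hypH.ne (β := S.q ^ (C1 + C2 + C3)) (one_le_pow₀ S.one_lt_q.le)
    ((h1 w hw).trans (hq (by omega))) ((h2 w hw).trans (hq (by omega)))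
    ((h3 w hw).trans (hq (by omega))) Z
  rw [← pow_mul] at h
  exact ⟨h.1.trans (mul_le_mul_left (hq (by omega)) _), h.2⟩

theorem exists_iter_bound (Z : T × T) : ∃ C : ℕ, ∀ n, ∀ w ∉ S.fin,
    max (S.v w ((Phi d.a d.c)^[n] Z).1) (S.v w ((Phi d.a d.c)^[n] Z).2) ≤ S.q ^ (C * 2 ^ n) := by
  obtain ⟨C, hC⟩ := d.exists_inf_const
  obtain ⟨C1, h1⟩ := S.inf_bound Z.1
  obtain ⟨C2, h2⟩ := S.inf_bound Z.2
  have hq : ∀ {m n : ℕ}, m ≤ n → S.q ^ m ≤ S.q ^ n := fun h => pow_le_pow_right₀ S.one_lt_q.le h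
  refine ⟨C + (C1 + C2), fun n w hw => ?_⟩
  have key : S.q ^ C * max (S.v w ((Phi d.a d.c)^[n] Z).1) (S.v w ((Phi d.a d.c)^[n] Z).2) ≤
      S.q ^ ((C + (C1 + C2)) * 2 ^ n) := by
    induction n with
    | zero =>
      rw [pow_zero, mul_one, pow_add]
      exact mul_le_mul_right (max_le ((h1 w hw).trans (hq (by omega)))
        ((h2 w hw).trans (hq (by omega)))) _
    | succ n ih =>
      rw [Function.iterate_succ_apply', pow_succ 2, ← mul_assoc, pow_mul _ _ 2]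
      refine (mul_le_mul_right (hC w hw _).1 _).trans ?_
      rw [← mul_assoc, ← sq, ← mul_pow]
      exact pow_le_pow_left₀ zero_le ih 2
  exact (le_mul_of_one_le_left' (one_le_pow₀ S.one_lt_q.le)).trans key

theorem rtop_wedge (l : T) (Z W : T × T) : wedge (l * Z.1, l * Z.2) W = l * wedge Z W := by
  simp only [wedge]
  ring

theorem rtop_iter {a c z : T} (h : c * z ^ 2 + 1 ≠ 0) (n : ℕ) (W : T × T) :
    wedge ((Phi a c)^[n + 1] (z, 1)) W =
      (c * z ^ 2 + 1) ^ 2 ^ n * wedge ((Phi a c)^[n] (phi a c z, 1)) W := by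
  have h2 : Phi a c (z, 1) = ((c * z ^ 2 + 1) * phi a c z, (c * z ^ 2 + 1) * 1) := by
    simp [Phi, phi, mul_div_cancel₀ _ h]
  rw [Function.iterate_succ_apply, h2, iter_smul a c _ (phi a c z, 1), rtop_wedge]

theorem V_succ {n : ℕ} {z : T} (hz : z ∈ d.V (n + 2)) :
    d.c * z ^ 2 + 1 ≠ 0 ∧ phi d.a d.c z ∈ d.V (n + 1) := by
  have h1 : d.c * z ^ 2 + 1 ≠ 0 := by
    intro h
    have h2 : Phi d.a d.c (z, 1) = ((d.a * z ^ 2 + 1) * 1, (d.a * z ^ 2 + 1) * 0) := by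
      simp [Phi, h]
    have h3 : d.a * z ^ 2 + 1 ≠ 0 := by
      intro h4
      refine Phi_ne_zero d.hypH.ne (Z := (z, 1)) (fun h5 => one_ne_zero (congrArg Prod.snd h5)) ?_
      rw [h2, h4, zero_mul, zero_mul]
      rfl
    have h5 : wedge ((Phi d.a d.c)^[n + 1 + 1] (z, 1)) d.B = 0 := hz
    rw [Function.iterate_succ_apply, h2, iter_smul d.a d.c _ (1, 0), rtop_wedge] at h5
    exact mul_ne_zero (pow_ne_zero _ h3) (d.unr true n) h5
  refine ⟨h1, ?_⟩
  have h5 : wedge ((Phi d.a d.c)^[n + 1 + 1] (z, 1)) d.B = 0 := hz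
  rw [rtop_iter h1] at h5
  exact (mul_eq_zero.1 h5).resolve_left (pow_ne_zero _ h1)

theorem mem_V_succ {n : ℕ} {z : T} (h : d.c * z ^ 2 + 1 ≠ 0) (hz : phi d.a d.c z ∈ d.V n) :
    z ∈ d.V (n + 1) := by
  have h1 : wedge ((Phi d.a d.c)^[n] (phi d.a d.c z, 1)) d.B = 0 := hz
  show wedge ((Phi d.a d.c)^[n + 1] (z, 1)) d.B = 0
  rw [rtop_iter h, h1, mul_zero]

theorem neg_mem_V {n : ℕ} {z : T} (hz : z ∈ d.V (n + 1)) : -z ∈ d.V (n + 1) := by
  have h1 : Phi d.a d.c (-z, 1) = Phi d.a d.c (z, 1) := by simp [Phi]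
  show wedge ((Phi d.a d.c)^[n + 1] (-z, 1)) d.B = 0
  rw [Function.iterate_succ_apply, h1]
  exact hz

theorem ne_zero_of_mem_V {n : ℕ} {z : T} (hz : z ∈ d.V (n + 1)) : z ≠ 0 := by
  rintro rfl
  exact d.unr false n hz

theorem unr_of_mem_V {n : ℕ} {z : T} (hz : z ∈ d.V n) : Unr d.a d.c z := by
  intro b i h
  have h1 := wedge_iter (a := d.a) (c := d.c) h n
  rw [orb, ← Function.iterate_add_apply] at h1
  exact d.unr b (n + i) (wedge_trans (iter_ne_zero d.hypH.ne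
    (fun h5 => one_ne_zero (congrArg Prod.snd h5)) n) h1 hz)

theorem dl_ne_zero {n : ℕ} {z : T} (hz : z ∈ d.V n) : 1 - z ≠ 0 ∧ d.c * z - d.a ≠ 0 := by
  have h1 := d.unr_of_mem_V hz false 0
  have h2 := d.unr_of_mem_V hz true 0
  simp only [orb, crit, Phi, wedge, zero_add, Function.iterate_one] at h1 h2
  refine ⟨fun h => h1 ?_, fun h => h2 ?_⟩
  · simp only [Bool.false_eq_true, if_false]
    linear_combination h
  · simp only [if_true]
    linear_combination -h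

/-- The children of a vertex. -/
theorem phi_eq_iff {n : ℕ} {z : T} (hz : z ∈ d.V n) (u : T) :
    (d.c * u ^ 2 + 1 ≠ 0 ∧ phi d.a d.c u = z) ↔ (u * (d.c * z - d.a)) ^ 2 = dl d.a d.c z := by
  obtain ⟨-, h2⟩ := d.dl_ne_zero hz
  have h3 : (u * (d.c * z - d.a)) ^ 2 = dl d.a d.c z ↔ d.a * u ^ 2 + 1 = z * (d.c * u ^ 2 + 1) := by
    rw [dl]
    constructor
    · intro h
      refine mul_right_cancel₀ h2 ?_
      linear_combination -h
    · intro h
      linear_combination -(d.c * z - d.a) * h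
  rw [h3, phi]
  constructor
  · rintro ⟨h4, h5⟩
    exact (div_eq_iff h4).1 h5
  · intro h
    have h4 : d.c * u ^ 2 + 1 ≠ 0 := by
      intro h4
      have h5 : (d.a - d.c) * u ^ 2 = 0 := by linear_combination h + (z - 1) * h4
      have h6 := (mul_eq_zero.1 h5).resolve_left (sub_ne_zero.2 d.hypH.ne)
      rw [h6, mul_zero, zero_add] at h4
      exact one_ne_zero h4
    exact ⟨h4, (div_eq_iff h4).2 h⟩

theorem rtop_child {n : ℕ} {z : T} (hz : z ∈ d.V n) : ∃ r : T, r ≠ -r ∧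
    r ^ 2 = (1 - z) / (d.c * z - d.a) ∧
      ∀ u, (d.c * u ^ 2 + 1 ≠ 0 ∧ phi d.a d.c u = z) ↔ u = r ∨ u = -r := by
  obtain ⟨h1, h2⟩ := d.dl_ne_zero hz
  obtain ⟨r, hr⟩ := S.sqrt ((1 - z) / (d.c * z - d.a))
  refine ⟨r, fun h => ?_, hr, fun u => ?_⟩
  · have h3 : 2 * r = 0 := by linear_combination h
    rw [(mul_eq_zero.1 h3).resolve_left d.hypH.two] at hr
    exact div_ne_zero h1 h2 (hr.symm.trans (by simp))
  · rw [d.phi_eq_iff hz, ← sq_eq_sq_iff_eq_or_eq_neg, hr, eq_div_iff h2, dl]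
    constructor
    · intro h
      refine mul_right_cancel₀ h2 ?_
      linear_combination h
    · intro h
      linear_combination (d.c * z - d.a) * h

theorem rtop_B2 : d.B.2 ∈ S.K0 := by
  rcases d.B_form with h | h <;> rw [h]
  exacts [one_mem _, zero_mem _]

theorem rtop_V_zero {z : T} (hz : z ∈ d.V 0) : z = d.B.1 ∧ z ∈ S.K0 := by
  have h1 : z * d.B.2 - 1 * d.B.1 = 0 := hz
  have h2 : z = d.B.1 := by
    rcases d.B_form with h | h
    · rw [h] at h1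
      linear_combination h1
    · rw [h] at h1
      simp at h1
  exact ⟨h2, h2 ▸ d.B_mem⟩

theorem rtop_V_one : ∃ κ ∈ S.K0, κ ≠ 0 ∧ ∀ z, z ∈ d.V 1 ↔ z ^ 2 = κ := by
  have h1 : d.B.1 - d.B.2 ≠ 0 := fun h => d.unr false 0 (by
    simp only [orb, crit, Phi, wedge, zero_add, Function.iterate_one, Bool.false_eq_true, if_false]
    linear_combination -h)
  have h2 : d.a * d.B.2 - d.c * d.B.1 ≠ 0 := fun h => d.unr true 0 (by
    simp only [orb, crit, Phi, wedge, zero_add, Function.iterate_one, if_true]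
    linear_combination h)
  refine ⟨(d.B.1 - d.B.2) / (d.a * d.B.2 - d.c * d.B.1), div_mem (sub_mem d.B_mem d.rtop_B2)
    (sub_mem (mul_mem d.a_mem d.rtop_B2) (mul_mem d.c_mem d.B_mem)), div_ne_zero h1 h2,
    fun z => ?_⟩
  rw [eq_div_iff h2]
  show (d.a * z ^ 2 + 1 ^ 2) * d.B.2 - (d.c * z ^ 2 + 1 ^ 2) * d.B.1 = 0 ↔ _
  constructor <;> intro h <;> linear_combination h

theorem rtop_card (n : ℕ) : (d.V (n + 1)).Finite ∧ (d.V (n + 1)).ncard = 2 ^ (n + 1) := by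
  classical
  induction n with
  | zero =>
    obtain ⟨κ, -, h1, h2⟩ := d.rtop_V_one
    obtain ⟨r, hr⟩ := S.sqrt κ
    have h3 : d.V (0 + 1) = {r, -r} := by
      ext z
      rw [zero_add, h2, ← hr, sq_eq_sq_iff_eq_or_eq_neg]
      rfl
    have h4 : r ≠ -r := fun h => by
      have h3 : 2 * r = 0 := by linear_combination h
      rw [(mul_eq_zero.1 h3).resolve_left d.hypH.two] at hr
      exact h1 (hr.symm.trans (by simp))
    rw [h3]
    exact ⟨Set.toFinite _, Set.ncard_pair h4⟩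
  | succ n ih =>
    choose! r h1 _ h2 using fun z (hz : z ∈ d.V (n + 1)) => d.rtop_child hz
    have h3 : d.V (n + 1 + 1) = (ih.1.toFinset.biUnion fun z => ({r z, -r z} : Finset T) :
        Finset T) := by
      ext u
      simp only [Finset.coe_biUnion, Set.mem_iUnion, Finset.mem_coe, Set.Finite.mem_toFinset,
        Finset.mem_insert, Finset.mem_singleton]
      constructor
      · intro hu
        obtain ⟨h4, h5⟩ := d.V_succ hu
        exact ⟨_, h5, (h2 _ h5 u).1 ⟨h4, rfl⟩⟩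
      · rintro ⟨z, hz, hu⟩
        obtain ⟨h4, h5⟩ := (h2 z hz u).2 hu
        exact d.mem_V_succ h4 (h5 ▸ hz)
    rw [h3, Set.ncard_coe_finset]
    refine ⟨Finset.finite_toSet _, ?_⟩
    rw [Finset.card_biUnion, Finset.sum_congr rfl (g := fun _ => 2), Finset.sum_const,
      ← Set.ncard_eq_toFinset_card _ ih.1, ih.2, smul_eq_mul, ← pow_succ]
    · intro z hz
      exact Finset.card_pair (h1 z (ih.1.mem_toFinset.1 hz))
    · intro z hz z' hz' hne
      refine Finset.disjoint_left.2 fun u hu hu' => hne ?_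
      simp only [Finset.mem_insert, Finset.mem_singleton] at hu hu'
      exact ((h2 z (ih.1.mem_toFinset.1 hz) u).2 hu).2.symm.trans
        ((h2 z' (ih.1.mem_toFinset.1 hz') u).2 hu').2

theorem V_finite (n : ℕ) : (d.V n).Finite := by
  cases n with
  | zero => exact (Set.finite_singleton _).subset fun z hz => (d.rtop_V_zero hz).1
  | succ n => exact (d.rtop_card n).1

theorem V_ncard (n : ℕ) : (d.V (n + 1)).ncard = 2 ^ (n + 1) := by
  exact (d.rtop_card n).2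

theorem V_disjoint {m n : ℕ} {z : T} (hm : z ∈ d.V m) (hn : z ∈ d.V n) : m = n := by
  have key : ∀ m j, z ∈ d.V m → z ∉ d.V (j + 1 + m) := by
    intro m j h1 h2
    have h3 := wedge_iter (a := d.a) (c := d.c) h1 (j + 1)
    rw [← Function.iterate_add_apply] at h3
    refine d.nonper j (wedge_trans (iter_ne_zero d.hypH.ne
      (fun h5 => one_ne_zero (congrArg Prod.snd h5)) (j + 1 + m)) ?_ h2)
    simp only [wedge] at h3 ⊢
    linear_combination -h3
  rcases lt_trichotomy m n with h | h | h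
  · exact absurd (show z ∈ d.V (n - m - 1 + 1 + m) by convert hn; omega) (key m _ hm)
  · exact h
  · exact absurd (show z ∈ d.V (m - n - 1 + 1 + n) by convert hm; omega) (key n _ hn)

theorem aut_mem_V (σ : T ≃ₐ[S.K0] T) {n : ℕ} {z : T} (hz : z ∈ d.V n) : σ z ∈ d.V n := by
  have hf : ∀ x ∈ S.K0, σ x = x := fun x hx => σ.commutes ⟨x, hx⟩
  have h1 := map_iter d.a d.c (σ : T →+* T) (z, 1) n
  simp only [RingHom.coe_coe, hf _ d.a_mem, hf _ d.c_mem, map_one] at h1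
  have h2 : wedge ((Phi d.a d.c)^[n] (z, 1)) d.B = 0 := hz
  show wedge ((Phi d.a d.c)^[n] (σ z, 1)) d.B = 0
  have h3 := congrArg σ h2
  rw [wedge, map_sub, map_mul, map_mul, hf _ d.B_mem, hf _ d.rtop_B2, map_zero] at h3
  rw [h1]
  exact h3

theorem aut_phi (σ : T ≃ₐ[S.K0] T) (z : T) : σ (phi d.a d.c z) = phi d.a d.c (σ z) := by
  have hf : ∀ x ∈ S.K0, σ x = x := fun x hx => σ.commutes ⟨x, hx⟩
  simp only [phi, map_div₀, map_add, map_mul, map_pow, map_one, hf _ d.a_mem, hf _ d.c_mem]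

theorem exists_ht_V : ∃ C : ℕ, ∀ n, ∀ z ∈ d.V n, S.toPF.ht z ≤ C := by
  obtain ⟨C, hC⟩ := ENNReal.exists_nat_gt
    (r := ∑ z ∈ ((d.V_finite 0).union (d.V_finite 1)).toFinset, S.toPF.ht z +
      2 * (S.toPF.ht d.a + S.toPF.ht d.c))
    (ENNReal.add_ne_top.2 ⟨(ENNReal.sum_lt_top.2 fun z _ => S.ht_lt z).ne,
      ENNReal.mul_ne_top (by simp) (ENNReal.add_ne_top.2 ⟨(S.ht_lt _).ne, (S.ht_lt _).ne⟩)⟩)
  have h0 : ∀ z ∈ d.V 0 ∪ d.V 1, S.toPF.ht z ≤ C := fun z hz =>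
    (Finset.single_le_sum (f := S.toPF.ht) (fun _ _ => zero_le)
      ((Set.Finite.mem_toFinset _).2 hz)).trans (le_self_add.trans hC.le)
  refine ⟨C, fun n => ?_⟩
  cases n with
  | zero => exact fun z hz => h0 z (Or.inl hz)
  | succ n =>
    induction n with
    | zero => exact fun z hz => h0 z (Or.inr hz)
    | succ n ih =>
      intro z hz
      obtain ⟨h1, h2⟩ := d.V_succ hz
      have h3 := (S.toPF.le_ht_phi d.hypH.ne h1).trans
        (add_le_add (ih _ h2) (le_add_self.trans hC.le))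
      rw [← two_mul] at h3
      exact (ENNReal.mul_le_mul_iff_right two_ne_zero (by simp)).1 h3

/-- Every vertex is regular outside a set of finite mass, linear in the level. -/
theorem exists_mass_irr : ∃ C : ℕ, ∀ n, ∀ z ∈ d.V n,
    S.toPF.mass {w | ¬ (w ∈ S.good ∧ z ∈ S.R w)} ≤ C * (n + 1) := by
  obtain ⟨C1, h1⟩ := d.exists_ht_V
  obtain ⟨C2, h2⟩ := ENNReal.exists_nat_gt S.mass_bad.ne
  have h3 : S.toPF.mass S.goodᶜ ≤ (C2 + 4 * C1 : ℕ) :=
    h2.le.trans (Nat.cast_le.2 (Nat.le_add_right _ _))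
  have key : ∀ (n : ℕ) (u : T) (E : Set S.W), u ∈ d.V (n + 1) →
      (∀ w ∉ E, w ∈ S.good ∧ u ^ 2 ∈ S.R w) →
      S.toPF.mass E ≤ (C2 + 4 * C1 : ℕ) * (n + 1) →
      S.toPF.mass {w | ¬ (w ∈ S.good ∧ u ∈ S.R w)} ≤ (C2 + 4 * C1 : ℕ) * ((n + 1 : ℕ) + 1) := by
    intro n u E hu hE hm
    have h4 := S.mass_ne_one_le (pow_ne_zero 2 (d.ne_zero_of_mem_V hu))
    have h5 : 2 * S.toPF.ht (u ^ 2) ≤ (C2 + 4 * C1 : ℕ) := by
      rw [S.toPF.ht_pow]
      refine (mul_le_mul_right (mul_le_mul_right (h1 _ u hu) _) _).trans ?_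
      norm_cast
      omega
    refine le_trans (S.toPF.mass_mono fun w hw => ?_) ((S.toPF.mass_union_le _ _).trans
      ((add_le_add hm (h4.trans h5)).trans (le_of_eq ?_)))
    · by_cases h : w ∈ E
      · exact Or.inl h
      · refine Or.inr ⟨(hE w h).1, (hE w h).2, fun h6 => hw ⟨(hE w h).1, ?_⟩⟩
        rw [map_pow, pow_eq_one_iff_of_nonneg zero_le two_ne_zero] at h6
        exact S.R_sqrt w (hE w h).1 u (hE w h).2 h6
    · push_cast
      ring
  refine ⟨C2 + 4 * C1, fun n => ?_⟩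
  cases n with
  | zero =>
    intro z hz
    rw [Nat.cast_zero, zero_add, mul_one]
    refine le_trans (S.toPF.mass_mono (F := S.goodᶜ) fun w hw hg => hw ?_) h3
    exact ⟨hg, S.K0_le w hg z (d.rtop_V_zero hz).2⟩
  | succ n =>
    induction n with
    | zero =>
      intro z hz
      obtain ⟨κ, k1, -, k2⟩ := d.rtop_V_one
      refine key 0 z S.goodᶜ hz (fun w hw => ⟨not_not.1 hw, ?_⟩) (by simpa using h3)
      rw [(k2 z).1 hz]
      exact S.K0_le w (not_not.1 hw) κ k1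
    | succ n ih =>
      intro u hu
      obtain ⟨k1, k2⟩ := d.V_succ hu
      refine key (n + 1) u _ hu (fun w hw => ?_) (ih _ k2)
      obtain ⟨k3, k4⟩ : w ∈ S.good ∧ phi d.a d.c u ∈ S.R w := not_not.1 hw
      obtain ⟨r, -, k5, k6⟩ := d.rtop_child k2
      rw [sq_eq_sq_iff_eq_or_eq_neg.2 ((k6 u).1 ⟨k1, rfl⟩), k5]
      exact ⟨k3, div_mem (sub_mem (one_mem _) k4)
        (sub_mem (mul_mem (S.K0_le w k3 _ d.c_mem) k4) (S.K0_le w k3 _ d.a_mem))⟩

theorem rtop_iter_mem (i : ℕ) : ∀ {n : ℕ} {z : T}, z ∈ d.V (n + 1 + i) →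
    (phi d.a d.c)^[i] z ∈ d.V (n + 1) := by
  induction i with
  | zero => exact fun h => h
  | succ i ih =>
    intro n z hz
    have h1 : z ∈ d.V (n + i + 2) := by convert hz using 2; omega
    rw [Function.iterate_succ_apply]
    exact ih (by convert (d.V_succ h1).2 using 2; omega)

theorem rtop_form (i : ℕ) : ∀ (n : ℕ) (s : T), s ∈ d.V (n + 1) → ∀ A : Finset T,
    (∀ z, z ∈ A ↔ z ∈ d.V (n + 1 + i) ∧ (phi d.a d.c)^[i] z = s) → A.card = 2 ^ i ∧
      ∃ l : T, ∀ W : T × T, wedge ((Phi d.a d.c)^[i] W) (s, 1) = l * ∏ z ∈ A, (W.1 - z * W.2) := by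
  classical
  induction i with
  | zero =>
    intro n s hs A hA
    have h1 : A = {s} := by
      ext z
      rw [hA, Finset.mem_singleton]
      exact ⟨fun h => h.2, fun h => ⟨h ▸ hs, h⟩⟩
    rw [h1]
    exact ⟨rfl, 1, fun W => by simp [wedge, mul_comm]⟩
  | succ i ih =>
    intro n s hs A hA
    obtain ⟨r, h1, h2, h3⟩ := d.rtop_child hs
    have e : n + 1 + (i + 1) = n + 1 + 1 + i := by omega
    have k1 := (h3 r).2 (Or.inl rfl)
    have k2 := (h3 (-r)).2 (Or.inr rfl)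
    obtain ⟨c1, l1, f1⟩ := ih (n + 1) r (d.mem_V_succ k1.1 (k1.2 ▸ hs))
      (A.filter fun z => (phi d.a d.c)^[i] z = r) fun z => by
        rw [Finset.mem_filter, hA, e, Function.iterate_succ_apply']
        exact ⟨fun h => ⟨h.1.1, h.2⟩, fun h => ⟨⟨h.1, by rw [h.2, k1.2]⟩, h.2⟩⟩
    obtain ⟨c2, l2, f2⟩ := ih (n + 1) (-r) (d.mem_V_succ k2.1 (k2.2 ▸ hs))
      (A.filter fun z => ¬ (phi d.a d.c)^[i] z = r) fun z => by
        rw [Finset.mem_filter, hA, e, Function.iterate_succ_apply']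
        refine ⟨fun h => ⟨h.1.1, ?_⟩, fun h => ⟨⟨h.1, by rw [h.2, k2.2]⟩, ?_⟩⟩
        · exact ((h3 _).1 ⟨(d.V_succ (d.rtop_iter_mem i h.1.1)).1, h.1.2⟩).resolve_left h.2
        · rw [h.2]
          exact h1.symm
    constructor
    · rw [← Finset.card_filter_add_card_filter_not fun z => (phi d.a d.c)^[i] z = r, c1, c2,
        pow_succ, mul_two]
    · refine ⟨(d.a - d.c * s) * l1 * l2, fun W => ?_⟩
      have h4 := (eq_div_iff (d.dl_ne_zero hs).2).1 h2
      rw [← Finset.prod_filter_mul_prod_filter_not A fun z => (phi d.a d.c)^[i] z = r,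
        Function.iterate_succ_apply']
      have g1 := f1 W
      have g2 := f2 W
      generalize (Phi d.a d.c)^[i] W = Z at g1 g2 ⊢
      have h5 : wedge (Phi d.a d.c Z) (s, 1) =
          (d.a - d.c * s) * (wedge Z (r, 1) * wedge Z (-r, 1)) := by
        simp only [wedge, Phi]
        linear_combination (-Z.2 ^ 2) * h4
      rw [h5, g1, g2]
      ring

/-- The product of `dl` over the `i`-th preimages of a vertex. -/
theorem prod_dl {n : ℕ} {s : T} (hs : s ∈ d.V (n + 1)) (i : ℕ) (A : Finset T)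
    (hA : ∀ z, z ∈ A ↔ z ∈ d.V (n + 1 + i) ∧ (phi d.a d.c)^[i] z = s) :
    (∏ z ∈ A, dl d.a d.c z) * wedge (orb d.a d.c true i) (s, 1) ^ 2 = (-1) ^ 2 ^ i *
      (wedge (orb d.a d.c false (i + 1)) (s, 1) * wedge (orb d.a d.c true (i + 1)) (s, 1)) ∧
    wedge (orb d.a d.c true i) (s, 1) ≠ 0 := by
  obtain ⟨h1, l, h2⟩ := d.rtop_form i n s hs A hA
  have h3 : wedge (orb d.a d.c true i) (s, 1) = l := by
    refine (h2 (1, 0)).trans ?_
    simp
  have h4 : wedge (orb d.a d.c false (i + 1)) (s, 1) = l * ∏ z ∈ A, (1 - z) := by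
    refine (h2 (Phi d.a d.c (0, 1))).trans ?_
    simp [Phi]
  have h5 : wedge (orb d.a d.c true (i + 1)) (s, 1) =
      l * ((-1) ^ 2 ^ i * ∏ z ∈ A, (d.c * z - d.a)) := by
    refine (h2 (Phi d.a d.c (1, 0))).trans ?_
    rw [← h1, ← Finset.prod_neg]
    simp [Phi, mul_comm]
  constructor
  · rw [h3, h4, h5]
    simp only [dl, Finset.prod_mul_distrib]
    have h6 : ((-1 : T) ^ 2 ^ i) ^ 2 = 1 := by rw [← pow_mul, mul_comm, pow_mul]; simp
    linear_combination (-(∏ z ∈ A, (1 - z)) * (∏ z ∈ A, (d.c * z - d.a)) * l ^ 2) * h6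
  · cases i with
    | zero => simp [orb, crit, wedge]
    | succ i => exact d.unr_of_mem_V hs true i

end Dyn

end JR
end

-- merged part: Pool.Agent.Work.MP_969914_nt.F7Kum
section
/-! Kummer theory for square roots, and invariant relations. -/

set_option autoImplicit false

namespace JR

open IntermediateField Module

section
variable {K T : Type} [Field K] [Field T] [Algebra K T]

/-- `x` is a square in `L`. -/
def SqIn (L : IntermediateField K T) (x : T) : Prop := ∃ u ∈ L, u ^ 2 = x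

/-- The elements `e α`, `α ∈ V`, are independent modulo squares of `L`. -/
def Indep (L : IntermediateField K T) (V : Finset T) (e : T → T) : Prop :=
  ∀ I ⊆ V, SqIn L (∏ α ∈ I, e α) → I = ∅

variable {L : IntermediateField K T}

theorem SqIn.mul {x y : T} (hx : SqIn L x) (hy : SqIn L y) : SqIn L (x * y) := by
  obtain ⟨u, hu, rfl⟩ := hx
  obtain ⟨v, hv, rfl⟩ := hy
  exact ⟨u * v, mul_mem hu hv, by ring⟩

theorem SqIn.mono {L' : IntermediateField K T} (h : L ≤ L') {x : T} (hx : SqIn L x) :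
    SqIn L' x := by
  obtain ⟨u, hu, rfl⟩ := hx
  exact ⟨u, h hu, rfl⟩

theorem sqIn_sq {x : T} (hx : x ∈ L) : SqIn L (x ^ 2) := ⟨x, hx, rfl⟩

theorem sqIn_one : SqIn L 1 := ⟨1, one_mem _, one_pow 2⟩

theorem SqIn.of_mul_sq {x y : T} (hy : y ∈ L) (h0 : y ≠ 0) (h : SqIn L (y ^ 2 * x)) :
    SqIn L x := by
  obtain ⟨u, hu, e⟩ := h
  exact ⟨u / y, div_mem hu hy, by rw [div_pow, e]; field_simp⟩

theorem SqIn.neg_one_pow (hi : ∃ i : K, i ^ 2 = -1) (n : ℕ) : SqIn L ((-1) ^ n) := by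
  obtain ⟨i, hi⟩ := hi
  refine ⟨algebraMap K T i ^ n, pow_mem (L.algebraMap_mem i) n, ?_⟩
  rw [← pow_mul, mul_comm, pow_mul, ← map_pow, hi, map_neg, map_one]

theorem SqIn.prod {ι : Type} {s : Finset ι} {f : ι → T} (h : ∀ i ∈ s, SqIn L (f i)) :
    SqIn L (∏ i ∈ s, f i) :=
  Finset.prod_induction f _ (fun _ _ => SqIn.mul) sqIn_one h

/-- Relations are closed under symmetric difference. -/
theorem SqIn.symmDiff [DecidableEq T] {e : T → T} {I J : Finset T} {x : T}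
    (he : ∀ α ∈ I, e α ∈ L ∧ e α ≠ 0) (hx : x ∈ L) (h0 : x ≠ 0)
    (hI : SqIn L (x * ∏ α ∈ I, e α)) (hJ : SqIn L (x * ∏ α ∈ J, e α)) :
    SqIn L (∏ α ∈ symmDiff I J, e α) := by
  have h := hI.mul hJ
  have e1 : (x * ∏ α ∈ I, e α) * (x * ∏ α ∈ J, e α) =
      (x * ∏ α ∈ I ∩ J, e α) ^ 2 * ∏ α ∈ _root_.symmDiff I J, e α := by
    rw [symmDiff_def, Finset.sup_eq_union, Finset.prod_union disjoint_sdiff_sdiff,
      ← Finset.prod_inter_mul_prod_sdiff I J, ← Finset.prod_inter_mul_prod_sdiff J I,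
      Finset.inter_comm J I]
    ring
  rw [e1] at h
  exact h.of_mul_sq (mul_mem hx (prod_mem fun a ha => (he a (Finset.mem_inter.1 ha).1).1))
    (mul_ne_zero h0 (Finset.prod_ne_zero_iff.2 fun a ha => (he a (Finset.mem_inter.1 ha).1).2))

theorem mem_of_fixed [IsGalois K T] (L : IntermediateField K T) {u : T}
    (h : ∀ σ : T ≃ₐ[K] T, (∀ z ∈ L, σ z = z) → σ u = u) : u ∈ L := by
  rw [← InfiniteGalois.fixedField_fixingSubgroup L, IntermediateField.mem_fixedField_iff]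
  exact fun σ hσ => h σ fun z hz => (IntermediateField.mem_fixingSubgroup_iff _ _).1 hσ z hz

theorem exists_aut_neg [IsGalois K T] (L : IntermediateField K T) {u : T} (hu : u ∉ L)
    (hu2 : u ^ 2 ∈ L) : ∃ σ : T ≃ₐ[K] T, (∀ z ∈ L, σ z = z) ∧ σ u = -u := by
  by_contra hn
  push Not at hn
  refine hu (mem_of_fixed L fun σ hσ => ?_)
  have e : σ u ^ 2 = u ^ 2 := by rw [← map_pow, hσ _ hu2]
  exact (sq_eq_sq_iff_eq_or_eq_neg.1 e).resolve_right (hn σ hσ)

/-- An automorphism fixing the generators fixes the field. -/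
theorem fix_adjoin {A : Set T} {σ τ : T ≃ₐ[K] T} (h : ∀ z ∈ A, σ z = τ z) :
    ∀ z ∈ adjoin K A, σ z = τ z := by
  intro z hz
  induction hz using adjoin_induction with
  | mem x hx => exact h x hx
  | algebraMap r => simp
  | add x y _ _ hx hy => rw [map_add, map_add, hx, hy]
  | inv x _ hx => rw [map_inv₀, map_inv₀, hx]
  | mul x y _ _ hx hy => rw [map_mul, map_mul, hx, hy]

theorem map_mem_adjoin {A B : Set T} {σ : T ≃ₐ[K] T} (h : ∀ z ∈ A, σ z ∈ B) :
    ∀ z ∈ adjoin K A, σ z ∈ adjoin K B := by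
  intro z hz
  induction hz using adjoin_induction with
  | mem x hx => exact subset_adjoin _ _ (h x hx)
  | algebraMap r => simp
  | add x y _ _ hx hy => rw [map_add]; exact add_mem hx hy
  | inv x _ hx => rw [map_inv₀]; exact inv_mem hx
  | mul x y _ _ hx hy => rw [map_mul]; exact mul_mem hx hy

/-- Elements of a quadratic step. -/
theorem mem_sup_sqrt [Algebra.IsAlgebraic K T] {s z : T} (hs : s ^ 2 ∈ L)
    (hz : z ∈ L ⊔ adjoin K {s}) : ∃ a ∈ L, ∃ b ∈ L, z = a + b * s := by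
  let A : Subalgebra K T :=
    { carrier := {z | ∃ a ∈ L, ∃ b ∈ L, z = a + b * s}
      mul_mem' := by
        rintro _ _ ⟨a, ha, b, hb, rfl⟩ ⟨c, hc, d, hd, rfl⟩
        exact ⟨a * c + b * d * s ^ 2, add_mem (mul_mem ha hc) (mul_mem (mul_mem hb hd) hs),
          a * d + b * c, add_mem (mul_mem ha hd) (mul_mem hb hc), by ring⟩
      add_mem' := by
        rintro _ _ ⟨a, ha, b, hb, rfl⟩ ⟨c, hc, d, hd, rfl⟩
        exact ⟨a + c, add_mem ha hc, b + d, add_mem hb hd, by ring⟩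
      algebraMap_mem' := fun r => ⟨_, L.algebraMap_mem r, 0, zero_mem _, by simp⟩ }
  let F : IntermediateField K T := A.toIntermediateField fun x hx =>
    A.inv_mem_of_algebraic (x := ⟨x, hx⟩) (Algebra.IsAlgebraic.isAlgebraic x)
  have : L ⊔ adjoin K {s} ≤ F := sup_le (fun x hx => ⟨x, hx, 0, zero_mem _, by simp⟩)
    (adjoin_le_iff.2 (by rintro _ rfl; exact ⟨0, zero_mem _, 1, one_mem _, by simp⟩))
  exact this hz

theorem f7kum_insert [DecidableEq T] (r : T → T) (β : T) (V : Finset T) :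
    L ⊔ adjoin K (r '' ((insert β V : Finset T) : Set T)) =
      (L ⊔ adjoin K (r '' (V : Set T))) ⊔ adjoin K {r β} := by
  rw [Finset.coe_insert, Set.image_insert_eq, Set.insert_eq, adjoin_union, sup_comm (adjoin K _),
    sup_assoc]

/-- A square upstairs is a square downstairs up to the generators. -/
theorem sq_descent [Algebra.IsAlgebraic K T] (h2 : (2 : T) ≠ 0) (V : Finset T) (r : T → T)
    (hr : ∀ α ∈ V, r α ^ 2 ∈ L) {x : T} (hx : x ∈ L)
    (h : SqIn (L ⊔ adjoin K (r '' (V : Set T))) x) :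
    ∃ I ⊆ V, SqIn L (x * ∏ α ∈ I, r α ^ 2) := by
  classical
  induction V using Finset.induction_on generalizing x with
  | empty => exact ⟨∅, le_rfl, by simpa using h⟩
  | insert β V hβ ih =>
    have hr' := fun α hα => hr α (Finset.mem_insert_of_mem hα)
    have hb := hr β (Finset.mem_insert_self _ _)
    rw [f7kum_insert] at h
    set L' := L ⊔ adjoin K (r '' (V : Set T))
    have hL : L ≤ L' := le_sup_left
    have k1 : SqIn L' x → ∃ I ⊆ insert β V, SqIn L (x * ∏ α ∈ I, r α ^ 2) := fun h => by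
      obtain ⟨I, hI, h⟩ := ih hr' hx h
      exact ⟨I, hI.trans (Finset.subset_insert _ _), h⟩
    obtain ⟨u, hu, e⟩ := h
    obtain ⟨a, ha, b, hb', rfl⟩ := mem_sup_sqrt (hL hb) hu
    by_cases h1 : r β ∈ L'
    · exact k1 ⟨_, add_mem ha (mul_mem hb' h1), e⟩
    have h3 : a * b = 0 := by
      by_contra h3
      refine h1 ?_
      have : r β = (x - a ^ 2 - b ^ 2 * r β ^ 2) / (2 * (a * b)) := by
        rw [eq_div_iff (mul_ne_zero h2 h3), ← e]; ring
      rw [this]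
      exact div_mem (sub_mem (sub_mem (hL hx) (pow_mem ha 2)) (mul_mem (pow_mem hb' 2) (hL hb)))
        (mul_mem (ofNat_mem _ 2) (mul_mem ha hb'))
    rcases mul_eq_zero.1 h3 with rfl | rfl
    · obtain ⟨I, hI, h⟩ := ih hr' (mul_mem hx hb)
        ⟨b * r β ^ 2, mul_mem hb' (hL hb), by rw [← e]; ring⟩
      refine ⟨insert β I, Finset.insert_subset_insert _ hI, ?_⟩
      rwa [Finset.prod_insert fun h => hβ (hI h), ← mul_assoc]
    · exact k1 ⟨a, ha, by rw [← e]; ring⟩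

theorem f7kum_notMem [Algebra.IsAlgebraic K T] (h2 : (2 : T) ≠ 0) {V W : Finset T} {r : T → T}
    (hr : ∀ α ∈ V, r α ^ 2 ∈ L) (h : Indep L V fun α => r α ^ 2) {β : T} (hβ : β ∈ V)
    (hW : W ⊆ V) (hβW : β ∉ W) : r β ∉ L ⊔ adjoin K (r '' (W : Set T)) := by
  classical
  intro hm
  obtain ⟨I, hI, h'⟩ := sq_descent h2 W r (fun α hα => hr α (hW hα)) (hr β hβ) ⟨_, hm, rfl⟩
  have := h (insert β I) (Finset.insert_subset hβ (hI.trans hW))
    (by rwa [Finset.prod_insert fun h => hβW (hI h)])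
  simp at this

theorem Indep.exists_sign [IsGalois K T] (h2 : (2 : T) ≠ 0) {V : Finset T} {r : T → T}
    (hr : ∀ α ∈ V, r α ^ 2 ∈ L) (h : Indep L V fun α => r α ^ 2) (P : T → Prop) :
    ∃ σ : T ≃ₐ[K] T, (∀ z ∈ L, σ z = z) ∧
      ∀ α ∈ V, (P α → σ (r α) = -r α) ∧ (¬ P α → σ (r α) = r α) := by
  classical
  have key : ∀ J ⊆ V, ∃ σ : T ≃ₐ[K] T, (∀ z ∈ L, σ z = z) ∧
      ∀ α ∈ V, σ (r α) = if α ∈ J then -r α else r α := by
    intro J
    induction J using Finset.induction_on with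
    | empty => exact fun _ => ⟨1, fun _ _ => rfl, fun _ _ => by simp⟩
    | insert β J hβ ih =>
      intro hJ
      have hβV := hJ (Finset.mem_insert_self _ _)
      obtain ⟨σ, h1, h3⟩ := ih ((Finset.subset_insert _ _).trans hJ)
      obtain ⟨τ, h4, h5⟩ := exists_aut_neg _ (f7kum_notMem h2 hr h hβV (V.erase_subset β)
        (V.notMem_erase β)) (le_sup_left (a := L) (hr β hβV))
      refine ⟨σ * τ, fun z hz => ?_, fun α hα => ?_⟩
      · rw [AlgEquiv.mul_apply, h4 z (le_sup_left (a := L) hz), h1 z hz]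
      · by_cases e : α = β
        · subst e
          rw [AlgEquiv.mul_apply, h5, map_neg, h3 _ hα]
          simp [hβ]
        · rw [AlgEquiv.mul_apply, h4 _ (le_sup_right (a := L) (subset_adjoin _ _
            ⟨α, Finset.mem_coe.2 (Finset.mem_erase.2 ⟨e, hα⟩), rfl⟩)), h3 _ hα]
          simp [e]
  obtain ⟨σ, h1, h3⟩ := key _ (V.filter_subset P)
  exact ⟨σ, h1, fun α hα => ⟨fun hP => by simp [h3 α hα, hα, hP], fun hP => by simp [h3 α hα, hP]⟩⟩

theorem f7kum_two [Algebra.IsAlgebraic K T] [FiniteDimensional K L] {s : T} (hs : s ∉ L) :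
    2 * finrank K L ≤ finrank K (L ⊔ adjoin K {s} : IntermediateField K T) := by
  have : FiniteDimensional K (adjoin K {s}) :=
    adjoin.finiteDimensional (Algebra.IsIntegral.isIntegral s)
  have hle : L ≤ L ⊔ adjoin K {s} := le_sup_left
  obtain ⟨m, hm⟩ := finrank_dvd_of_le_right hle
  have hpos : 0 < finrank K (L ⊔ adjoin K {s} : IntermediateField K T) := finrank_pos
  have h1 : m ≠ 1 := by
    rintro rfl
    refine hs ?_
    rw [eq_of_le_of_finrank_eq hle (by rw [hm, mul_one])]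
    exact le_sup_right (a := L) (mem_adjoin_simple_self K s)
  have h0 : m ≠ 0 := by rintro rfl; omega
  rw [hm, mul_comm]
  exact Nat.mul_le_mul_left _ (by omega)

theorem Indep.finrank_le [Algebra.IsAlgebraic K T] [FiniteDimensional K L] (h2 : (2 : T) ≠ 0)
    {V : Finset T} {r : T → T} (hr : ∀ α ∈ V, r α ^ 2 ∈ L) (h : Indep L V fun α => r α ^ 2) :
    2 ^ V.card * finrank K L ≤
      finrank K (L ⊔ adjoin K (r '' (V : Set T)) : IntermediateField K T) := by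
  classical
  have key : ∀ W ⊆ V, 2 ^ W.card * finrank K L ≤
      finrank K (L ⊔ adjoin K (r '' (W : Set T)) : IntermediateField K T) := by
    intro W
    induction W using Finset.induction_on with
    | empty =>
      intro _
      rw [Finset.coe_empty, Set.image_empty, adjoin_empty, sup_bot_eq]
      simp
    | insert β W hβ ih =>
      intro hW
      have hW' := (Finset.subset_insert _ _).trans hW
      have : Finite (r '' (W : Set T)) := (W.finite_toSet.image r).to_subtype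
      have : FiniteDimensional K (adjoin K (r '' (W : Set T))) :=
        finiteDimensional_adjoin fun z _ => Algebra.IsIntegral.isIntegral z
      rw [f7kum_insert, Finset.card_insert_of_notMem hβ, pow_succ', mul_assoc]
      exact (Nat.mul_le_mul_left 2 (ih hW')).trans
        (f7kum_two (f7kum_notMem h2 hr h (hW (Finset.mem_insert_self _ _)) hW' hβ))
  exact key V le_rfl

end

/-- A group acting on `V` through a `2`-group fixes a nonzero vector of every nonzero invariant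
subspace of `(ℤ/2)^V`. -/
theorem exists_invariant {X G : Type} [Group G] [MulAction G X] [DecidableEq X] (V : Finset X)
    (hV : ∀ g : G, ∀ v ∈ V, g • v ∈ V) (hp : ∀ g : G, ∃ k : ℕ, ∀ v ∈ V, g ^ 2 ^ k • v = v)
    (R : Finset X → Prop) (hR : ∀ I, R I → I ⊆ V) (hs : ∀ I J, R I → R J → R (symmDiff I J))
    (hg : ∀ (g : G) (I : Finset X), R I → R (I.image fun v => g • v))
    (hne : ∃ I, R I ∧ I.Nonempty) :
    ∃ I, R I ∧ I.Nonempty ∧ ∀ g : G, ∀ v ∈ I, g • v ∈ I := by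
  classical
  obtain ⟨I0, h0, hI0⟩ := hne
  let Rel := {I // R I}
  have : Finite Rel := Finite.of_injective
    (fun I : Rel => (⟨I.1, Finset.mem_powerset.2 (hR _ I.2)⟩ : V.powerset))
    fun a b e => Subtype.ext (congrArg (·.1) e)
  let act : MulAction G Rel :=
    { smul := fun g I => ⟨I.1.image fun v => g • v, hg g _ I.2⟩
      one_smul := fun I => Subtype.ext (by
        change I.1.image (fun v => (1 : G) • v) = I.1
        simp)
      mul_smul := fun g g' I => Subtype.ext (by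
        change I.1.image (fun v => (g * g') • v) = (I.1.image fun v => g' • v).image fun v => g • v
        rw [Finset.image_image]
        simp [Function.comp_def, mul_smul]) }
  have hsm : ∀ (g : G) (I : Rel), (g • I).1 = I.1.image fun v => g • v := fun _ _ => rfl
  have hP : IsPGroup 2 (MulAction.toPermHom G Rel).range := by
    rintro ⟨_, g, rfl⟩
    obtain ⟨n, hn⟩ := hp g
    refine ⟨n, Subtype.ext ?_⟩
    change MulAction.toPermHom G Rel g ^ 2 ^ n = 1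
    rw [← map_pow]
    refine Equiv.ext fun I => Subtype.ext ?_
    change (g ^ 2 ^ n • I).1 = I.1
    rw [hsm, Finset.image_congr (g := id) fun v hv => hn v (hR _ I.2 hv), Finset.image_id]
  have := Fintype.ofFinite Rel
  have hev : 2 ∣ Nat.card Rel := by
    let f : Function.End Rel := fun I => ⟨symmDiff I.1 I0, hs _ _ I.2 h0⟩
    have hf : f ^ 2 ^ 1 = 1 := funext fun I => Subtype.ext (by
      change symmDiff (symmDiff I.1 I0) I0 = I.1
      simp)
    have e := Equiv.Perm.card_fixedPoints_modEq (p := 2) (f := f) hf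
    have : IsEmpty (Function.fixedPoints f) := ⟨fun ⟨I, hI⟩ => by
      have e : symmDiff I.1 I0 = I.1 := congrArg Subtype.val hI
      exact hI0.ne_empty (by simpa using e)⟩
    rw [Fintype.card_eq_zero (α := Function.fixedPoints f)] at e
    rw [Nat.card_eq_fintype_card]
    exact (Nat.modEq_zero_iff_dvd.1 e)
  have hE : R ∅ := by simpa using hs _ _ h0 h0
  obtain ⟨I, hI, hne⟩ := hP.exists_fixed_point_of_prime_dvd_card_of_fixed_point Rel hev
    (a := ⟨∅, hE⟩) (by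
      rintro ⟨_, g, rfl⟩
      exact Subtype.ext (Finset.image_empty _))
  refine ⟨I.1, I.2, Finset.nonempty_iff_ne_empty.2 fun e => hne (Subtype.ext e.symm),
    fun g v hv => ?_⟩
  have e : (g • I).1 = I.1 := congrArg Subtype.val (hI ⟨_, g, rfl⟩)
  rw [← e, hsm]
  exact Finset.mem_image_of_mem _ hv

/-- The form used for fields: dependent generators have an invariant relation. -/
theorem exists_invariant_rel {K T : Type} [Field K] [Field T] [Algebra K T]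
    (H : Subgroup (T ≃ₐ[K] T)) (L : IntermediateField K T) (V : Finset T) (e : T → T)
    (hL : ∀ σ ∈ H, ∀ z ∈ L, σ z ∈ L) (hV : ∀ σ ∈ H, ∀ v ∈ V, σ v ∈ V)
    (hp : ∀ σ ∈ H, ∃ k : ℕ, ∀ v ∈ V, (σ ^ 2 ^ k) v = v)
    (he : ∀ α ∈ V, e α ∈ L ∧ e α ≠ 0) (hσ : ∀ σ ∈ H, ∀ α ∈ V, σ (e α) = e (σ α))
    (h : ¬ Indep L V e) :
    ∃ I ⊆ V, I.Nonempty ∧ SqIn L (∏ α ∈ I, e α) ∧ ∀ σ ∈ H, ∀ v ∈ I, σ v ∈ I := by
  classical
  obtain ⟨I, ⟨h1, h2⟩, h3, h4⟩ := exists_invariant (G := H) V (fun g => hV g g.2)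
    (fun g => hp g g.2) (fun I => I ⊆ V ∧ SqIn L (∏ α ∈ I, e α)) (fun _ h => h.1)
    (fun I J hI hJ => ⟨symmDiff_le_sup.trans (sup_le hI.1 hJ.1), SqIn.symmDiff (x := 1)
      (fun α hα => he α (hI.1 hα)) (one_mem _) one_ne_zero (by simpa using hI.2)
      (by simpa using hJ.2)⟩)
    (fun g I hI => ⟨Finset.image_subset_iff.2 fun v hv => hV g g.2 v (hI.1 hv), by
      obtain ⟨u, hu, e'⟩ := hI.2
      refine ⟨g.1 u, hL g g.2 u hu, ?_⟩
      rw [Finset.prod_image fun a _ b _ h => MulAction.injective g h, ← map_pow, e', map_prod]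
      exact Finset.prod_congr rfl fun α hα => hσ g g.2 α (hI.1 hα)⟩)
    (by
      simp only [Indep, not_forall] at h
      obtain ⟨I, h1, h2, h3⟩ := h
      exact ⟨I, ⟨h1, h2⟩, Finset.nonempty_iff_ne_empty.2 h3⟩)
  exact ⟨I, h1, h3, h2, fun σ hσ => h4 ⟨σ, hσ⟩⟩

end JR
end

-- merged part: Pool.Agent.Work.MP_969914_nt.F7Tree
section
/-! The tree: fibres, children, product formulas, Galois action. -/

set_option autoImplicit false

namespace JR

open IntermediateField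

namespace Dyn
variable {p : ℕ} {k T : Type} [Field k] [Field T] [Algebra k T] {S : Std p k T} (d : Dyn S)

noncomputable def Vf (n : ℕ) : Finset T := (d.V_finite n).toFinset

open Classical in
/-- The vertices of relative level `j` above the vertex `y` of level `l`. -/
noncomputable def fib (l : ℕ) (y : T) (j : ℕ) : Finset T :=
  (d.Vf (l + j)).filter fun z => (phi d.a d.c)^[j] z = y

noncomputable def rt (z : T) : T := Classical.choose (S.sqrt (dl d.a d.c z))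

/-- One of the two children of `z`; the other one is `-d.ch z`. -/
noncomputable def ch (z : T) : T := d.rt z / (d.c * z - d.a)

def Nw (m : ℕ) (s : T) : T :=
  wedge (orb d.a d.c false m) (s, 1) * wedge (orb d.a d.c true m) (s, 1)

noncomputable def KV (n : ℕ) : IntermediateField S.K0 T := adjoin S.K0 (d.V n)

noncomputable def Ly (l : ℕ) (y : T) (j : ℕ) : IntermediateField S.K0 T :=
  adjoin S.K0 (d.fib l y j : Set T)

/-- All steps above level `r0` are good. -/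
def Stable (r0 : ℕ) : Prop := ∀ n, r0 ≤ n → ∀ z ∈ d.V n, d.GoodStep z

include d in
theorem two_ne : (2 : T) ≠ 0 := d.hypH.two

theorem mem_Vf {n : ℕ} {z : T} : z ∈ d.Vf n ↔ z ∈ d.V n := by simp [Vf]

theorem coe_Vf (n : ℕ) : (d.Vf n : Set T) = d.V n := by simp [Vf]

theorem card_Vf (n : ℕ) : (d.Vf (n + 1)).card = 2 ^ (n + 1) := by
  rw [← d.V_ncard n, ← d.coe_Vf, Set.ncard_coe_finset]

theorem mem_fib {l j : ℕ} {y z : T} :
    z ∈ d.fib l y j ↔ z ∈ d.V (l + j) ∧ (phi d.a d.c)^[j] z = y := by simp [fib, mem_Vf]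

theorem rt_sq (z : T) : d.rt z ^ 2 = dl d.a d.c z := Classical.choose_spec (S.sqrt _)

theorem K0_mem (L : IntermediateField S.K0 T) {z : T} (hz : z ∈ S.K0) : z ∈ L :=
  L.algebraMap_mem ⟨z, hz⟩

theorem aut_K0 (σ : T ≃ₐ[S.K0] T) {z : T} (hz : z ∈ S.K0) : σ z = z := σ.commutes ⟨z, hz⟩

theorem exists_I [IsAlgClosed k] : ∃ i : S.K0, i ^ 2 = -1 := by
  obtain ⟨i, hi⟩ := IsAlgClosed.exists_pow_nat_eq (-1 : k) two_pos
  exact ⟨algebraMap k S.K0 i, by rw [← map_pow, hi, map_neg, map_one]⟩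

theorem dl_ne {n : ℕ} {z : T} (hz : z ∈ d.V n) : dl d.a d.c z ≠ 0 :=
  mul_ne_zero (d.dl_ne_zero hz).1 (d.dl_ne_zero hz).2

theorem dl_eq (z : T) : dl d.a d.c z = -d.Nw 1 z := by
  simp only [Nw, dl, orb, crit, Phi, wedge, Function.iterate_one, Bool.false_eq_true, if_false,
    if_true]
  ring

theorem dl_mem {L : IntermediateField S.K0 T} {z : T} (hz : z ∈ L) : dl d.a d.c z ∈ L := by
  exact mul_mem (sub_mem (one_mem _) hz)
    (sub_mem (mul_mem (K0_mem L d.c_mem) hz) (K0_mem L d.a_mem))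

theorem phi_mem {L : IntermediateField S.K0 T} {z : T} (hz : z ∈ L) (j : ℕ) :
    (phi d.a d.c)^[j] z ∈ L := by
  induction j with
  | zero => exact hz
  | succ j ih =>
    rw [Function.iterate_succ_apply']
    exact div_mem (add_mem (mul_mem (K0_mem L d.a_mem) (pow_mem ih 2)) (one_mem _))
      (add_mem (mul_mem (K0_mem L d.c_mem) (pow_mem ih 2)) (one_mem _))

theorem f7tree_orb (b : Bool) (m : ℕ) :
    (orb d.a d.c b m).1 ∈ S.K0 ∧ (orb d.a d.c b m).2 ∈ S.K0 := by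
  induction m with
  | zero =>
    cases b
    · exact ⟨zero_mem _, one_mem _⟩
    · exact ⟨one_mem _, zero_mem _⟩
  | succ m ih =>
    rw [orb_succ]
    exact ⟨add_mem (mul_mem d.a_mem (pow_mem ih.1 2)) (pow_mem ih.2 2),
      add_mem (mul_mem d.c_mem (pow_mem ih.1 2)) (pow_mem ih.2 2)⟩

theorem wedge_orb_mem {L : IntermediateField S.K0 T} {z : T} (hz : z ∈ L) (b : Bool) (m : ℕ) :
    wedge (orb d.a d.c b m) (z, 1) ∈ L := by
  exact sub_mem (mul_mem (K0_mem L (d.f7tree_orb b m).1) (one_mem _))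
    (mul_mem (K0_mem L (d.f7tree_orb b m).2) hz)

theorem Nw_mem {L : IntermediateField S.K0 T} {z : T} (hz : z ∈ L) (m : ℕ) : d.Nw m z ∈ L :=
  mul_mem (d.wedge_orb_mem hz _ _) (d.wedge_orb_mem hz _ _)

theorem wedge_true_ne {n : ℕ} {z : T} (hz : z ∈ d.V n) (m : ℕ) :
    wedge (orb d.a d.c true m) (z, 1) ≠ 0 := by
  cases m with
  | zero => simp [orb, crit, wedge]
  | succ i => exact d.unr_of_mem_V hz true i

theorem Nw_ne {n : ℕ} {z : T} (hz : z ∈ d.V n) (m : ℕ) : d.Nw (m + 1) z ≠ 0 :=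
  mul_ne_zero (d.unr_of_mem_V hz _ _) (d.unr_of_mem_V hz _ _)

theorem rt_eq {n : ℕ} {z : T} (hz : z ∈ d.V n) : d.rt z = d.ch z * (d.c * z - d.a) := by
  rw [ch, div_mul_cancel₀ _ (d.dl_ne_zero hz).2]

theorem ch_mem {n : ℕ} {z : T} (hz : z ∈ d.V n) :
    d.ch z ∈ d.V (n + 1) ∧ phi d.a d.c (d.ch z) = z := by
  obtain ⟨h1, h2⟩ := (d.phi_eq_iff hz (d.ch z)).2 (by rw [← d.rt_eq hz, rt_sq])
  exact ⟨d.mem_V_succ h1 (by rw [h2]; exact hz), h2⟩

theorem phi_neg (z : T) : phi d.a d.c (-z) = phi d.a d.c z := by simp [phi]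

theorem ch_ne_neg {n : ℕ} {z : T} (hz : z ∈ d.V n) : d.ch z ≠ -d.ch z := by
  intro h
  have h3 : 2 * d.ch z = 0 := by linear_combination h
  exact d.ne_zero_of_mem_V (d.ch_mem hz).1 ((mul_eq_zero.1 h3).resolve_left d.two_ne)

theorem eq_ch {n : ℕ} {u : T} (hu : u ∈ d.V (n + 2)) :
    u = d.ch (phi d.a d.c u) ∨ u = -d.ch (phi d.a d.c u) := by
  obtain ⟨h1, h2⟩ := d.V_succ hu
  have h3 := (d.phi_eq_iff h2 u).1 ⟨h1, rfl⟩
  rw [← rt_sq, d.rt_eq h2, mul_pow, mul_pow] at h3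
  exact sq_eq_sq_iff_eq_or_eq_neg.1 (mul_right_cancel₀ (pow_ne_zero 2 (d.dl_ne_zero h2).2) h3)

theorem eq_or_neg {n : ℕ} {u u' : T} (hu : u ∈ d.V (n + 2)) (hu' : u' ∈ d.V (n + 2))
    (h : phi d.a d.c u = phi d.a d.c u') : u' = u ∨ u' = -u := by
  have h1 := d.eq_ch hu
  have h2 := d.eq_ch hu'
  rw [← h] at h2
  rcases h1 with h1 | h1 <;> rcases h2 with h2 | h2
  · exact Or.inl (h2.trans h1.symm)
  · exact Or.inr (by rw [h2, ← h1])
  · exact Or.inr (by linear_combination h2 + h1)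
  · exact Or.inl (h2.trans h1.symm)

theorem iter_mem_V {n j : ℕ} {z : T} (hz : z ∈ d.V (n + 1 + j)) :
    (phi d.a d.c)^[j] z ∈ d.V (n + 1) := by
  exact d.rtop_iter_mem j hz

theorem exists_above {n : ℕ} {y : T} (hy : y ∈ d.V n) (j : ℕ) :
    ∃ z ∈ d.V (n + j), (phi d.a d.c)^[j] z = y := by
  induction j with
  | zero => exact ⟨y, hy, rfl⟩
  | succ j ih =>
    obtain ⟨z, hz, e⟩ := ih
    exact ⟨d.ch z, (d.ch_mem hz).1, by rw [Function.iterate_succ_apply, (d.ch_mem hz).2, e]⟩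

theorem fib_zero {l : ℕ} {y : T} (hy : y ∈ d.V l) : d.fib l y 0 = {y} := by
  ext z
  rw [mem_fib, Finset.mem_singleton]
  exact ⟨fun h => h.2, fun h => ⟨h ▸ hy, h⟩⟩

theorem f7tree_V {l j : ℕ} {β : T} (h : β ∈ d.V (l + 1 + (j + 1))) : β ∈ d.V (l + j + 2) := by
  convert h using 2
  omega

theorem f7tree_down {l j : ℕ} {y β : T} (h : β ∈ d.fib (l + 1) y (j + 1)) :
    phi d.a d.c β ∈ d.fib (l + 1) y j ∧
      (β = d.ch (phi d.a d.c β) ∨ β = -d.ch (phi d.a d.c β)) := by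
  obtain ⟨h1, h2⟩ := d.mem_fib.1 h
  have h3 := d.f7tree_V h1
  refine ⟨d.mem_fib.2 ⟨?_, h2⟩, d.eq_ch h3⟩
  convert (d.V_succ h3).2 using 2
  omega

theorem f7tree_up {l j : ℕ} {y α : T} (h : α ∈ d.fib l y j) :
    d.ch α ∈ d.fib l y (j + 1) ∧ -d.ch α ∈ d.fib l y (j + 1) := by
  obtain ⟨h1, h2⟩ := d.mem_fib.1 h
  obtain ⟨h3, h4⟩ := d.ch_mem h1
  exact ⟨d.mem_fib.2 ⟨h3, by rw [Function.iterate_succ_apply, h4, h2]⟩,
    d.mem_fib.2 ⟨d.neg_mem_V h3, by rw [Function.iterate_succ_apply, phi_neg, h4, h2]⟩⟩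

theorem prod_fib_succ {M : Type} [CommMonoid M] (f : T → M) (l : ℕ) (y : T) (j : ℕ) :
    ∏ β ∈ d.fib (l + 1) y (j + 1), f β =
      ∏ α ∈ d.fib (l + 1) y j, f (d.ch α) * f (-d.ch α) := by
  classical
  rw [← Finset.prod_fiberwise_of_maps_to (g := phi d.a d.c)
    (fun β hβ => (d.f7tree_down hβ).1) f]
  refine Finset.prod_congr rfl fun α hα => ?_
  have hV := (d.mem_fib.1 hα).1
  rw [← Finset.prod_pair (d.ch_ne_neg hV)]
  congr 1
  ext β
  rw [Finset.mem_filter, Finset.mem_insert, Finset.mem_singleton]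
  constructor
  · rintro ⟨h1, rfl⟩
    exact (d.f7tree_down h1).2
  · rintro (rfl | rfl)
    · exact ⟨(d.f7tree_up hα).1, (d.ch_mem hV).2⟩
    · exact ⟨(d.f7tree_up hα).2, by rw [phi_neg, (d.ch_mem hV).2]⟩

theorem card_fib {l : ℕ} {y : T} (hy : y ∈ d.V (l + 1)) (j : ℕ) :
    (d.fib (l + 1) y j).card = 2 ^ j := by
  exact (d.rtop_form j l y hy _ fun _ => d.mem_fib).1

/-- The homogeneous iterate of a vertex is proportional to its ancestor. -/
theorem wedge_anc {n j : ℕ} {z : T} (hz : z ∈ d.V (n + 1 + j)) :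
    wedge ((Phi d.a d.c)^[j] (z, 1)) ((phi d.a d.c)^[j] z, 1) = 0 := by
  induction j generalizing z with
  | zero => simp [wedge]
  | succ j ih =>
    obtain ⟨h1, h2⟩ := d.V_succ (d.f7tree_V hz)
    rw [rtop_iter h1, Function.iterate_succ_apply, ih (by convert h2 using 2; omega), mul_zero]

theorem wedge_Phi_ch {n : ℕ} {α : T} (hα : α ∈ d.V n) (Z : T × T) :
    wedge (Phi d.a d.c Z) (α, 1) = wedge (orb d.a d.c true 1) (α, 1) *
      (wedge Z (d.ch α, 1) * wedge Z (-d.ch α, 1)) := by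
  have h1 : d.ch α ^ 2 * (d.c * α - d.a) = 1 - α := by
    refine mul_right_cancel₀ (d.dl_ne_zero hα).2 ?_
    have h2 := d.rt_sq α
    rw [d.rt_eq hα, dl] at h2
    linear_combination h2
  simp only [orb, crit, Phi, wedge, Function.iterate_one, if_true]
  linear_combination (-Z.2 ^ 2) * h1

theorem prod_wedge {l : ℕ} {s : T} (hs : s ∈ d.V (l + 1)) (j : ℕ) (Z : T × T) :
    wedge ((Phi d.a d.c)^[j] Z) (s, 1) = wedge (orb d.a d.c true j) (s, 1) *
      ∏ α ∈ d.fib (l + 1) s j, wedge Z (α, 1) := by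
  obtain ⟨-, r, h2⟩ := d.rtop_form j l s hs _ fun _ => d.mem_fib
  have h3 : wedge (orb d.a d.c true j) (s, 1) = r := by
    refine (h2 (1, 0)).trans ?_
    simp
  rw [h3, h2 Z]
  congr 1
  refine Finset.prod_congr rfl fun α _ => ?_
  simp only [wedge]
  ring

theorem prod_Nw {l : ℕ} {s : T} (hs : s ∈ d.V (l + 1)) (j m : ℕ) :
    d.Nw (m + j) s = wedge (orb d.a d.c true j) (s, 1) ^ 2 *
      ∏ α ∈ d.fib (l + 1) s j, d.Nw m α := by
  have e : ∀ b, orb d.a d.c b (m + j) = (Phi d.a d.c)^[j] (orb d.a d.c b m) := fun b => by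
    rw [orb, orb, add_comm, Function.iterate_add_apply]
  simp only [Nw]
  rw [e, e, d.prod_wedge hs, d.prod_wedge hs j (orb d.a d.c true m), Finset.prod_mul_distrib]
  ring

/-- A product over a union of fibres. -/
theorem prod_fibres {M : Type} [CommMonoid M] (f : T → M) {l j : ℕ} {A A0 : Finset T}
    (hA : ∀ z, z ∈ A0 ↔ z ∈ d.V (l + j) ∧ (phi d.a d.c)^[j] z ∈ A) :
    ∏ z ∈ A0, f z = ∏ s ∈ A, ∏ z ∈ d.fib l s j, f z := by
  classical
  rw [← Finset.prod_fiberwise_of_maps_to (g := (phi d.a d.c)^[j])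
    (fun z hz => ((hA z).1 hz).2) f]
  refine Finset.prod_congr rfl fun s hs => ?_
  congr 1
  ext z
  rw [Finset.mem_filter, hA, mem_fib]
  exact ⟨fun h => ⟨h.1.1, h.2⟩, fun h => ⟨⟨h.1, h.2 ▸ hs⟩, h.2⟩⟩

theorem aut_iter (σ : T ≃ₐ[S.K0] T) (j : ℕ) (z : T) :
    σ ((phi d.a d.c)^[j] z) = (phi d.a d.c)^[j] (σ z) := by
  induction j with
  | zero => rfl
  | succ j ih => rw [Function.iterate_succ_apply', Function.iterate_succ_apply', aut_phi, ih]

theorem aut_dl (σ : T ≃ₐ[S.K0] T) (z : T) : σ (dl d.a d.c z) = dl d.a d.c (σ z) := by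
  simp only [dl, map_mul, map_sub, map_one, aut_K0 σ d.a_mem, aut_K0 σ d.c_mem]

theorem aut_Nw (σ : T ≃ₐ[S.K0] T) (m : ℕ) (z : T) : σ (d.Nw m z) = d.Nw m (σ z) := by
  simp only [Nw, wedge, map_mul, map_sub, map_one, aut_K0 σ (d.f7tree_orb _ m).1,
    aut_K0 σ (d.f7tree_orb _ m).2]

theorem aut_fib (σ : T ≃ₐ[S.K0] T) {l j : ℕ} {y z : T} (hz : z ∈ d.fib l y j) :
    σ z ∈ d.fib l (σ y) j := by
  obtain ⟨h1, h2⟩ := d.mem_fib.1 hz
  exact d.mem_fib.2 ⟨d.aut_mem_V σ h1, by rw [← aut_iter, h2]⟩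

theorem aut_ch (σ : T ≃ₐ[S.K0] T) (z : T) :
    σ (d.ch z) = d.ch (σ z) ∨ σ (d.ch z) = -d.ch (σ z) := by
  have h1 : σ (d.rt z) ^ 2 = d.rt (σ z) ^ 2 := by rw [← map_pow, rt_sq, rt_sq, aut_dl]
  have h2 : σ (d.ch z) = σ (d.rt z) / (d.c * σ z - d.a) := by
    simp only [ch, map_div₀, map_sub, map_mul, aut_K0 σ d.a_mem, aut_K0 σ d.c_mem]
  rcases sq_eq_sq_iff_eq_or_eq_neg.1 h1 with h | h
  · exact Or.inl (by rw [h2, h, ch])
  · exact Or.inr (by rw [h2, h, ch, neg_div])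

theorem pow_fix (σ : T ≃ₐ[S.K0] T) (n : ℕ) : ∀ z ∈ d.V (n + 1), (σ ^ 2 ^ (n + 1)) z = z := by
  have key : ∀ (τ : T ≃ₐ[S.K0] T) (z : T), (τ z = z ∨ τ z = -z) → (τ ^ 2) z = z := by
    intro τ z h
    rw [sq, AlgEquiv.mul_apply]
    rcases h with h | h
    · rw [h, h]
    · rw [h, map_neg, h, neg_neg]
  induction n with
  | zero =>
    intro z hz
    obtain ⟨κ, k1, -, k2⟩ := d.rtop_V_one
    refine key σ z (sq_eq_sq_iff_eq_or_eq_neg.1 ?_)
    rw [← map_pow, (k2 z).1 hz, aut_K0 σ k1]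
  | succ n ih =>
    intro z hz
    rw [pow_succ 2 (n + 1), pow_mul]
    refine key _ z (d.eq_or_neg hz (d.aut_mem_V _ hz) ?_)
    rw [← aut_phi, ih _ (d.V_succ hz).2]

theorem mem_KV {m n : ℕ} (h : m ≤ n) {z : T} (hz : z ∈ d.V (m + 1)) : z ∈ d.KV (n + 1) := by
  obtain ⟨u, hu, e⟩ := d.exists_above hz (n - m)
  rw [← e]
  refine d.phi_mem (subset_adjoin _ _ ?_) _
  convert hu using 2
  omega

theorem f7tree_pm {L : IntermediateField S.K0 T} {u α : T} (h : u = d.ch α ∨ u = -d.ch α)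
    (hα : α ∈ L) (hr : d.rt α ∈ L) : u ∈ L := by
  have h1 : d.ch α ∈ L :=
    div_mem hr (sub_mem (mul_mem (K0_mem L d.c_mem) hα) (K0_mem L d.a_mem))
  rcases h with h | h <;> rw [h]
  · exact h1
  · exact neg_mem h1

theorem f7tree_rt {L : IntermediateField S.K0 T} {n : ℕ} {α : T} (hα : α ∈ d.V n)
    (h : d.ch α ∈ L) : d.rt α ∈ L := by
  have h1 : α ∈ L := by
    have := d.phi_mem h 1
    rwa [Function.iterate_one, (d.ch_mem hα).2] at this
  rw [d.rt_eq hα]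
  exact mul_mem h (sub_mem (mul_mem (K0_mem L d.c_mem) h1) (K0_mem L d.a_mem))

theorem KV_succ (n : ℕ) :
    d.KV (n + 2) = d.KV (n + 1) ⊔ adjoin S.K0 (d.rt '' (d.Vf (n + 1) : Set T)) := by
  refine le_antisymm (adjoin_le_iff.2 fun u hu => ?_) (sup_le (adjoin_le_iff.2 fun u hu => ?_)
    (adjoin_le_iff.2 ?_))
  · have h1 := (d.V_succ hu).2
    refine d.f7tree_pm (d.eq_ch hu) (le_sup_left (a := d.KV (n + 1)) (subset_adjoin _ _ h1))
      (le_sup_right (a := d.KV (n + 1)) (subset_adjoin _ _ ⟨_, ?_, rfl⟩))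
    exact d.mem_Vf.2 h1
  · exact d.mem_KV (Nat.le_succ n) hu
  · rintro _ ⟨α, hα, rfl⟩
    have h1 := d.mem_Vf.1 hα
    exact d.f7tree_rt h1 (subset_adjoin _ _ (d.ch_mem h1).1)

theorem Ly_zero {l : ℕ} {y : T} (hy : y ∈ d.V l) : d.Ly l y 0 = adjoin S.K0 {y} := by
  rw [Ly, d.fib_zero hy, Finset.coe_singleton]

theorem Ly_succ (l : ℕ) (y : T) (j : ℕ) : d.Ly (l + 1) y (j + 1) =
    d.Ly (l + 1) y j ⊔ adjoin S.K0 (d.rt '' (d.fib (l + 1) y j : Set T)) := by
  refine le_antisymm (adjoin_le_iff.2 fun u hu => ?_) (sup_le (adjoin_le_iff.2 fun u hu => ?_)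
    (adjoin_le_iff.2 ?_))
  · obtain ⟨h1, h2⟩ := d.f7tree_down hu
    exact d.f7tree_pm h2 (le_sup_left (a := d.Ly (l + 1) y j) (subset_adjoin _ _ h1))
      (le_sup_right (a := d.Ly (l + 1) y j) (subset_adjoin _ _ ⟨_, h1, rfl⟩))
  · have h1 : d.ch u ∈ d.Ly (l + 1) y (j + 1) := subset_adjoin _ _ (d.f7tree_up hu).1
    have h2 := d.phi_mem h1 1
    rwa [Function.iterate_one, (d.ch_mem (d.mem_fib.1 hu).1).2] at h2
  · rintro _ ⟨α, hα, rfl⟩
    exact d.f7tree_rt (d.mem_fib.1 hα).1 (subset_adjoin _ _ (d.f7tree_up hα).1)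

theorem mem_Ly {l : ℕ} {y : T} {i j : ℕ} (h : i ≤ j) {z : T} (hz : z ∈ d.fib (l + 1) y i) :
    z ∈ d.Ly (l + 1) y j := by
  induction j, h using Nat.le_induction with
  | base => exact subset_adjoin _ _ hz
  | succ j _ ih =>
    rw [Ly_succ]
    exact le_sup_left (a := d.Ly (l + 1) y j) ih

theorem fd_KV (n : ℕ) : FiniteDimensional S.K0 (d.KV n) := by
  have := S.galois
  have : Finite (d.V n) := (d.V_finite n).to_subtype
  exact finiteDimensional_adjoin fun x _ => Algebra.IsIntegral.isIntegral x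

/-- Above the level of stability the fibres are Galois orbits. -/
theorem Stable.trans {d : Dyn S} {r0 : ℕ} (h : d.Stable r0) {l : ℕ} (hl : r0 ≤ l + 1) {s : T}
    (j : ℕ) {z z' : T} (hz : z ∈ d.fib (l + 1) s j) (hz' : z' ∈ d.fib (l + 1) s j) :
    ∃ σ : T ≃ₐ[S.K0] T, σ z = z' := by
  have := S.galois
  induction j generalizing z z' with
  | zero => exact ⟨1, (d.mem_fib.1 hz).2.trans (d.mem_fib.1 hz').2.symm⟩
  | succ j ih =>
    obtain ⟨h1, -⟩ := d.f7tree_down hz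
    obtain ⟨h1', h2'⟩ := d.f7tree_down hz'
    obtain ⟨σ, hσ⟩ := ih h1 h1'
    have v1 := d.f7tree_V (d.mem_fib.1 hz).1
    have v2 := d.f7tree_V (d.mem_fib.1 hz').1
    rcases d.eq_or_neg v2 (d.aut_mem_V σ v1) (by rw [← aut_phi, hσ]) with h3 | h3
    · exact ⟨σ, h3⟩
    · have hα : phi d.a d.c z' ∈ adjoin S.K0 {phi d.a d.c z'} := mem_adjoin_simple_self _ _
      obtain ⟨τ, t1, t2⟩ := exists_aut_neg (adjoin S.K0 {phi d.a d.c z'})
        (h _ (by omega) _ (d.mem_fib.1 h1').1 _ (d.rt_sq _)) (by rw [rt_sq]; exact d.dl_mem hα)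
      have t3 : τ (d.ch (phi d.a d.c z')) = -d.ch (phi d.a d.c z') := by
        rw [ch, map_div₀, t2, map_sub, map_mul, aut_K0 τ d.a_mem, aut_K0 τ d.c_mem, t1 _ hα,
          neg_div]
      have t4 : τ z' = -z' := by
        generalize d.ch (phi d.a d.c z') = r at t3 h2'
        rcases h2' with h4 | h4 <;> rw [h4]
        · exact t3
        · rw [map_neg, t3]
      exact ⟨τ * σ, by rw [AlgEquiv.mul_apply, h3, map_neg, t4, neg_neg]⟩

/-- Norms of squares along a fibre. -/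
theorem Stable.norm_sq {d : Dyn S} {r0 : ℕ} (h : d.Stable r0) {l : ℕ} (hl : r0 ≤ l + 1) {s : T}
    (j : ℕ) {y : T} (hy : y ∈ d.fib (l + 1) s j) (F : T → T)
    (hF : ∀ (σ : T ≃ₐ[S.K0] T) (z : T), σ (F z) = F (σ z)) (hx : SqIn (adjoin S.K0 {y}) (F y)) :
    SqIn (adjoin S.K0 {s}) (∏ z ∈ d.fib (l + 1) s j, F z) := by
  have := S.galois
  obtain ⟨u, hu, e⟩ := hx
  choose! g hg using fun z (hz : z ∈ d.fib (l + 1) s j) => h.trans hl j hy hz
  refine ⟨∏ z ∈ d.fib (l + 1) s j, g z u, mem_of_fixed _ fun σ hσ => ?_, ?_⟩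
  · have h1 : σ s = s := hσ s (mem_adjoin_simple_self _ _)
    have h2 : σ.symm s = s := by
      conv_lhs => rw [← h1]
      exact σ.symm_apply_apply s
    have h3 : ∀ z ∈ d.fib (l + 1) s j, σ z ∈ d.fib (l + 1) s j := fun z hz => by
      have := d.aut_fib σ hz
      rwa [h1] at this
    have h4 : ∀ z ∈ d.fib (l + 1) s j, σ.symm z ∈ d.fib (l + 1) s j := fun z hz => by
      have := d.aut_fib σ.symm hz
      rwa [h2] at this
    rw [map_prod]
    refine Finset.prod_nbij' σ σ.symm h3 h4 (fun z _ => σ.symm_apply_apply z)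
      (fun z _ => σ.apply_symm_apply z) fun z hz => ?_
    refine fix_adjoin (σ := σ * g z) (τ := g (σ z)) (A := {y}) ?_ u hu
    rintro _ rfl
    rw [AlgEquiv.mul_apply, hg z hz, hg _ (h3 z hz)]
  · rw [← Finset.prod_pow]
    refine Finset.prod_congr rfl fun z hz => ?_
    rw [← map_pow, e, hF, hg z hz]

end Dyn

end JR
end

-- merged part: Pool.Agent.Work.MP_969914_nt.F7Ch
section
/-! The chordal distance at a place of good reduction. -/

set_option autoImplicit false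

namespace JR

open scoped NNReal

section
variable {T : Type} [Field T] (v : Valuation T ℝ≥0)

noncomputable def nrm (Z : T × T) : ℝ≥0 := max (v Z.1) (v Z.2)

/-- Chordal distance. -/
noncomputable def chd (Z W : T × T) : ℝ≥0 := v (wedge Z W) / (nrm v Z * nrm v W)

variable {v}

theorem nrm_ne_zero {Z : T × T} (h : Z ≠ 0) : nrm v Z ≠ 0 := by
  intro h0
  have h1 : v Z.1 ≤ 0 := h0 ▸ le_max_left _ _
  have h2 : v Z.2 ≤ 0 := h0 ▸ le_max_right _ _
  rw [le_zero_iff, Valuation.zero_iff] at h1 h2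
  exact h (Prod.ext h1 h2)

theorem pt_ne_zero (z : T) : ((z, 1) : T × T) ≠ 0 := fun h => one_ne_zero (congrArg Prod.snd h)

theorem crit_ne_zero (b : Bool) : (crit b : T × T) ≠ 0 := by
  cases b <;> simp [crit, Prod.ext_iff]

theorem nrm_crit (b : Bool) : nrm v (crit b) = 1 := by
  cases b <;> simp [nrm, crit]

theorem v_wedge_le (Z W : T × T) : v (wedge Z W) ≤ nrm v Z * nrm v W := by
  refine (v.map_sub _ _).trans (max_le ?_ ?_)
  · rw [map_mul]
    exact mul_le_mul' (le_max_left _ _) (le_max_right _ _)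
  · rw [map_mul]
    exact mul_le_mul' (le_max_right _ _) (le_max_left _ _)

theorem chd_le_one (Z W : T × T) : chd v Z W ≤ 1 := by
  exact div_le_one_of_le₀ (v_wedge_le Z W) zero_le

theorem chd_comm (Z W : T × T) : chd v Z W = chd v W Z := by
  have e : wedge Z W = -wedge W Z := by simp only [wedge]; ring
  rw [chd, chd, e, Valuation.map_neg, mul_comm]

theorem chd_eq_zero {Z W : T × T} (h : wedge Z W = 0) : chd v Z W = 0 := by simp [chd, h]

theorem v_wedge_eq {Z W : T × T} (hZ : Z ≠ 0) (hW : W ≠ 0) :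
    v (wedge Z W) = chd v Z W * (nrm v Z * nrm v W) := by
  rw [chd, div_mul_cancel₀ _ (mul_ne_zero (nrm_ne_zero hZ) (nrm_ne_zero hW))]

/-- Ultrametric inequality, from the Plücker relation. -/
theorem chd_le_max (X : T × T) {Y : T × T} (hY : Y ≠ 0) (Z : T × T) :
    chd v X Z ≤ max (chd v X Y) (chd v Y Z) := by
  by_cases hX : X = 0
  · rw [chd_eq_zero (by simp [hX, wedge])]
    exact zero_le
  by_cases hZ : Z = 0
  · rw [chd_eq_zero (Z := X) (W := Z) (by simp [hZ, wedge])]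
    exact zero_le
  set M := max (chd v X Y) (chd v Y Z) with hM
  have key : ∀ x y z : T, v x ≤ nrm v X → v z ≤ nrm v Z →
      wedge X Z * y = wedge X Y * z + wedge Y Z * x →
      v (wedge X Z) * v y ≤ M * (nrm v X * nrm v Z) * nrm v Y := by
    intro x y z hx hz e
    rw [← map_mul, e]
    refine (v.map_add _ _).trans (max_le ?_ ?_)
    · rw [map_mul, v_wedge_eq hX hY]
      calc chd v X Y * (nrm v X * nrm v Y) * v z ≤ M * (nrm v X * nrm v Y) * nrm v Z :=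
            mul_le_mul' (mul_le_mul' (le_max_left _ _) le_rfl) hz
        _ = _ := by ring
    · rw [map_mul, v_wedge_eq hY hZ]
      calc chd v Y Z * (nrm v Y * nrm v Z) * v x ≤ M * (nrm v Y * nrm v Z) * nrm v X :=
            mul_le_mul' (mul_le_mul' (le_max_right _ _) le_rfl) hx
        _ = _ := by ring
  have h1 := key X.1 Y.1 Z.1 (le_max_left _ _) (le_max_left _ _) (by simp only [wedge]; ring)
  have h2 := key X.2 Y.2 Z.2 (le_max_right _ _) (le_max_right _ _) (by simp only [wedge]; ring)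
  have h3 : v (wedge X Z) * nrm v Y ≤ M * (nrm v X * nrm v Z) * nrm v Y := by
    rcases max_choice (v Y.1) (v Y.2) with h | h
    · exact (congrArg (v (wedge X Z) * ·) h).le.trans h1
    · exact (congrArg (v (wedge X Z) * ·) h).le.trans h2
  have h4 := le_of_mul_le_mul_right h3 (pos_iff_ne_zero.2 (nrm_ne_zero hY))
  exact (div_le_iff₀ (pos_iff_ne_zero.2 (mul_ne_zero (nrm_ne_zero hX) (nrm_ne_zero hZ)))).2 h4

theorem chd_lt_trans {X Y Z : T × T} (hY : Y ≠ 0) (h1 : chd v X Y < 1) (h2 : chd v Y Z < 1) :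
    chd v X Z < 1 :=
  (chd_le_max X hY Z).trans_lt (max_lt h1 h2)

/-- Proportional vectors have the same distances. -/
theorem chd_congr {Z Z' : T × T} (hZ : Z ≠ 0) (hZ' : Z' ≠ 0) (h : wedge Z Z' = 0) (W : T × T) :
    chd v W Z = chd v W Z' := by
  apply le_antisymm
  · have := chd_le_max (v := v) W hZ' Z
    rwa [chd_eq_zero (rdyn_comm h), max_eq_left zero_le] at this
  · have := chd_le_max (v := v) W hZ Z'
    rwa [chd_eq_zero h, max_eq_left zero_le] at this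

theorem f7ch_nrm_neg (W : T × T) : nrm v (-W.1, W.2) = nrm v W := by
  simp only [nrm, Valuation.map_neg]

/-- A point close to its reflection is close to a critical point. -/
theorem near_crit (h2 : v 2 = 1) {W : T × T} (hW : W ≠ 0) (h : chd v W (-W.1, W.2) < 1) :
    ∃ b, chd v W (crit b) < 1 := by
  have e : chd v W (-W.1, W.2) = chd v W (crit false) * chd v W (crit true) := by
    have e1 : wedge W (-W.1, W.2) = 2 * (W.1 * W.2) := by simp only [wedge]; ring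
    have e2 : wedge W (crit false) = W.1 := by simp [wedge, crit]
    have e3 : wedge W (crit true) = -W.2 := by simp [wedge, crit]
    rw [chd, chd, chd, e1, e2, e3, f7ch_nrm_neg, nrm_crit, nrm_crit, Valuation.map_neg, map_mul,
      map_mul, h2, one_mul, mul_one, div_mul_div_comm]
  by_contra hc
  push Not at hc
  rw [e] at h
  exact absurd (one_le_mul (hc false) (hc true)) (not_le.2 h)

theorem chd_crit_neg (Z : T × T) (b : Bool) :
    chd v Z (-(crit b : T × T).1, (crit b : T × T).2) = chd v Z (crit b) := by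
  cases b <;> simp [chd, nrm, crit, wedge]

end

namespace Dyn
variable {p : ℕ} {k T : Type} [Field k] [Field T] [Algebra k T] {S : Std p k T} (d : Dyn S)
  {w : S.W}

theorem chd_Phi (hw : w ∈ S.fin) (Z W : T × T) :
    chd (S.v w) (Phi d.a d.c Z) (Phi d.a d.c W) =
      chd (S.v w) Z W * chd (S.v w) Z (-W.1, W.2) := by
  have e : Z.1 * W.2 + Z.2 * W.1 = wedge Z (-W.1, W.2) := by simp only [wedge]; ring
  have n1 : nrm (S.v w) (Phi d.a d.c Z) = nrm (S.v w) Z ^ 2 := d.norm_Phi hw Z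
  have n2 : nrm (S.v w) (Phi d.a d.c W) = nrm (S.v w) W ^ 2 := d.norm_Phi hw W
  rw [chd, chd, chd, wedge_Phi, e, n1, n2, f7ch_nrm_neg, map_mul, map_mul, d.d_unit w hw, one_mul,
    div_mul_div_comm]
  congr 1
  ring

theorem chd_iter_le (hw : w ∈ S.fin) (Z W : T × T) (j : ℕ) :
    chd (S.v w) ((Phi d.a d.c)^[j] Z) ((Phi d.a d.c)^[j] W) ≤ chd (S.v w) Z W := by
  induction j with
  | zero => exact le_rfl
  | succ j ih =>
    rw [Function.iterate_succ_apply', Function.iterate_succ_apply', d.chd_Phi hw]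
    exact (mul_le_of_le_one_right' (chd_le_one _ _)).trans ih

theorem nrm_orb (hw : w ∈ S.fin) (b : Bool) (n : ℕ) : nrm (S.v w) (orb d.a d.c b n) = 1 :=
  d.norm_orb hw b n

/-- The two critical values are distinct modulo `w`. -/
theorem chd_one_one (hw : w ∈ S.fin) :
    chd (S.v w) (orb d.a d.c false 1) (orb d.a d.c true 1) = 1 := by
  have e : wedge (orb d.a d.c false 1) (orb d.a d.c true 1) = -(d.a - d.c) := by
    simp [wedge, orb, Phi, crit]
  rw [chd, d.nrm_orb hw, d.nrm_orb hw, e, Valuation.map_neg, d.d_unit w hw, mul_one, div_one]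

theorem chd_Phi_ch (hw : w ∈ S.fin) {n : ℕ} {α : T} (hα : α ∈ d.V n) (Z : T × T) :
    chd (S.v w) (Phi d.a d.c Z) (α, 1) =
      chd (S.v w) Z (d.ch α, 1) * chd (S.v w) Z (-d.ch α, 1) := by
  obtain ⟨h1, h2⟩ := (d.phi_eq_iff hα (d.ch α)).2 (by rw [← d.rt_eq hα, d.rt_sq])
  have e : wedge (α, 1) (Phi d.a d.c (d.ch α, 1)) = 0 := by
    rw [phi, div_eq_iff h1] at h2
    simp only [wedge, Phi, one_pow, one_mul]
    rw [h2, sub_self]
  rw [chd_congr (pt_ne_zero α) (Phi_ne_zero d.hypH.ne (pt_ne_zero _)) e, d.chd_Phi hw]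

theorem chd_fib (hw : w ∈ S.fin) {l : ℕ} {s : T} (hs : s ∈ d.V (l + 1)) (j : ℕ) (Z : T × T) :
    chd (S.v w) ((Phi d.a d.c)^[j] Z) (s, 1) =
      ∏ α ∈ d.fib (l + 1) s j, chd (S.v w) Z (α, 1) := by
  induction j generalizing Z with
  | zero => rw [d.fib_zero hs, Finset.prod_singleton, Function.iterate_zero_apply]
  | succ j ih =>
    rw [Function.iterate_succ_apply, ih, d.prod_fib_succ fun α => chd (S.v w) Z (α, 1)]
    exact Finset.prod_congr rfl fun α hα => d.chd_Phi_ch hw (d.mem_fib.1 hα).1 Z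

/-- Contact with a vertex pushes forward to contact with the base point. -/
theorem chd_B_le (hw : w ∈ S.fin) {n : ℕ} {α : T} (hα : α ∈ d.V n) (Z : T × T) :
    chd (S.v w) ((Phi d.a d.c)^[n] Z) d.B ≤ chd (S.v w) Z (α, 1) := by
  rw [← chd_congr (iter_ne_zero d.hypH.ne (pt_ne_zero α) n) d.B_ne_zero hα]
  exact d.chd_iter_le hw _ _ n

theorem chd_anc_le (hw : w ∈ S.fin) {n j : ℕ} {α : T} (hα : α ∈ d.V (n + 1 + j)) (Z : T × T) :
    chd (S.v w) ((Phi d.a d.c)^[j] Z) ((phi d.a d.c)^[j] α, 1) ≤ chd (S.v w) Z (α, 1) := by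
  rw [← chd_congr (iter_ne_zero d.hypH.ne (pt_ne_zero α) j) (pt_ne_zero _) (d.wedge_anc hα)]
  exact d.chd_iter_le hw _ _ j

theorem v_wedge_orb (hw : w ∈ S.fin) (b : Bool) (m : ℕ) (z : T) :
    S.v w (wedge (orb d.a d.c b m) (z, 1)) =
      chd (S.v w) (orb d.a d.c b m) (z, 1) * max (S.v w z) 1 := by
  rw [v_wedge_eq (orb_ne_zero d.hypH.ne b m) (pt_ne_zero z), d.nrm_orb hw, one_mul, nrm]
  simp only [map_one]

theorem v_rt_sq (hw : w ∈ S.fin) (z : T) : S.v w (d.rt z) ^ 2 = max (S.v w z) 1 ^ 2 *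
    (chd (S.v w) (orb d.a d.c false 1) (z, 1) * chd (S.v w) (orb d.a d.c true 1) (z, 1)) := by
  rw [← map_pow, d.rt_sq, d.dl_eq, Valuation.map_neg, Nw, map_mul, d.v_wedge_orb hw,
    d.v_wedge_orb hw]
  ring

end Dyn

end JR
end

-- merged part: Pool.Agent.Work.MP_969914_nt.F7Clean
section
/-! Places without exceptional events. -/

set_option autoImplicit false

namespace JR

open scoped NNReal ENNReal

namespace Dyn
variable {p : ℕ} {k T : Type} [Field k] [Field T] [Algebra k T] {S : Std p k T} (d : Dyn S)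

/-- The vertex `α` is a critical value modulo `w`. -/
def Evt (w : S.W) (b : Bool) (α : T) : Prop := chd (S.v w) (orb d.a d.c b 1) (α, 1) < 1

/-- No event up to time `n`. -/
def Old (n : ℕ) (w : S.W) : Prop :=
  ∀ b l, 1 ≤ l → l ≤ n → chd (S.v w) (orb d.a d.c b l) d.B = 1

/-- The base point has no period `≤ s` modulo `w`. -/
def Per (s : ℕ) (w : S.W) : Prop :=
  ∀ r, 1 ≤ r → r ≤ s → chd (S.v w) ((Phi d.a d.c)^[r] d.B) d.B = 1

/-- No critical relation of length `≤ s` modulo `w`. -/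
def Crt (s : ℕ) (w : S.W) : Prop :=
  ∀ b b' r, 1 ≤ r → r ≤ s → chd (S.v w) (orb d.a d.c b r) (crit b') = 1

/-- All vertices of levels `1, …, l` are regular at `w`. -/
def Reg (l : ℕ) (w : S.W) : Prop := ∀ i, 1 ≤ i → i ≤ l → ∀ z ∈ d.V i, z ∈ S.R w

omit d in
theorem f7clean_mass {Z W : T × T} (hZ : Z.1 ∈ S.K0 ∧ Z.2 ∈ S.K0) (hW : W.1 ∈ S.K0 ∧ W.2 ∈ S.K0)
    (h0 : wedge Z W ≠ 0) (h1 : ∀ w ∈ S.fin, nrm (S.v w) Z = 1)
    (h2 : ∀ w ∈ S.fin, nrm (S.v w) W = 1) {C C' : ℕ} (h3 : ∀ w ∉ S.fin, nrm (S.v w) Z ≤ S.q ^ C)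
    (h4 : ∀ w ∉ S.fin, nrm (S.v w) W ≤ S.q ^ C') :
    S.toPF.mass {w | w ∈ S.good ∧ chd (S.v w) Z W ≠ 1} ≤ (C + C' : ℕ) := by
  refine le_trans (S.toPF.mass_mono ?_) (S.mass_le_of_bound h0 (C := C + C') ?_ ?_)
  · rintro w ⟨hw, h⟩
    have hf := S.good_fin hw
    refine ⟨hw, S.K0_le w hw _ (sub_mem (mul_mem hZ.1 hW.2) (mul_mem hZ.2 hW.1)), ?_⟩
    have := lt_of_le_of_ne (chd_le_one Z W) h
    rwa [chd, h1 w hf, h2 w hf, mul_one, div_one] at this
  · intro w hw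
    have := v_wedge_le (v := S.v w) Z W
    rwa [h1 w hw, h2 w hw, mul_one] at this
  · intro w hw
    rw [pow_add]
    exact (v_wedge_le Z W).trans (mul_le_mul' (h3 w hw) (h4 w hw))

include d in
theorem f7clean_mass' {Z W : T × T} (hZ : Z.1 ∈ S.K0 ∧ Z.2 ∈ S.K0) (hW : W.1 ∈ S.K0 ∧ W.2 ∈ S.K0)
    (h0 : wedge Z W ≠ 0) (h1 : ∀ w ∈ S.fin, nrm (S.v w) Z = 1)
    (h2 : ∀ w ∈ S.fin, nrm (S.v w) W = 1) :
    ∃ C : ℕ, S.toPF.mass {w | w ∈ S.good ∧ chd (S.v w) Z W ≠ 1} ≤ C := by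
  obtain ⟨C, hC⟩ := d.exists_iter_bound Z
  obtain ⟨C', hC'⟩ := d.exists_iter_bound W
  exact ⟨_, f7clean_mass hZ hW h0 h1 h2 (hC 0) (hC' 0)⟩

omit d in
theorem f7clean_union {ι : Type} (s : Finset ι) (E : ι → Set S.W)
    (h : ∀ i ∈ s, ∃ C : ℕ, S.toPF.mass (E i) ≤ C) {F : Set S.W}
    (hF : ∀ w ∈ F, ∃ i ∈ s, w ∈ E i) : ∃ C : ℕ, S.toPF.mass F ≤ C := by
  choose! C hC using h
  refine ⟨∑ i ∈ s, C i, ?_⟩
  have h1 : F ⊆ ⋃ i ∈ s, E i := fun w hw => by simpa using hF w hw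
  rw [Nat.cast_sum]
  exact (S.toPF.mass_mono h1).trans
    ((S.toPF.mass_biUnion_le s E).trans (Finset.sum_le_sum hC))

theorem mass_old : ∃ C : ℕ, ∀ n, S.toPF.mass {w | w ∈ S.good ∧ ¬ d.Old n w} ≤ C * 2 ^ n := by
  obtain ⟨C0, h0⟩ := d.exists_iter_bound (crit false)
  obtain ⟨C1, h1⟩ := d.exists_iter_bound (crit true)
  obtain ⟨C2, h2⟩ := d.exists_iter_bound d.B
  have key : ∀ n b C, (∀ w ∉ S.fin, nrm (S.v w) (orb d.a d.c b (n + 1)) ≤ S.q ^ C) →
      S.toPF.mass {w | w ∈ S.good ∧ chd (S.v w) (orb d.a d.c b (n + 1)) d.B ≠ 1} ≤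
        (C + C2 * 2 ^ 0 : ℕ) := fun n b C h =>
    f7clean_mass (d.orb_mem b _) ⟨d.B_mem, d.rtop_B2⟩ (d.unr b n)
      (fun w hw => d.nrm_orb hw b _) (fun w hw => d.norm_B hw) h (h2 0)
  refine ⟨2 * C0 + 2 * C1 + 2 * C2, fun n => ?_⟩
  induction n with
  | zero =>
    have : {w | w ∈ S.good ∧ ¬ d.Old 0 w} = ∅ := by
      ext w
      simp only [Set.mem_ofPred_eq, Set.mem_empty_iff_false, iff_false, not_and, not_not]
      intro _ b l a1 a2
      omega
    rw [this, S.toPF.mass_empty]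
    exact zero_le
  | succ n ih =>
    have hs : {w | w ∈ S.good ∧ ¬ d.Old (n + 1) w} ⊆ {w | w ∈ S.good ∧ ¬ d.Old n w} ∪
        ({w | w ∈ S.good ∧ chd (S.v w) (orb d.a d.c false (n + 1)) d.B ≠ 1} ∪
          {w | w ∈ S.good ∧ chd (S.v w) (orb d.a d.c true (n + 1)) d.B ≠ 1}) := by
      rintro w ⟨hw, h⟩
      by_contra hc
      simp only [Set.mem_union, Set.mem_ofPred_eq, hw, true_and, not_or, not_not] at hc
      refine h fun b l a1 a2 => ?_
      rcases a2.lt_or_eq with a3 | rfl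
      · exact hc.1 b l a1 (by omega)
      · cases b
        · exact hc.2.1
        · exact hc.2.2
    refine (S.toPF.mass_mono hs).trans ((S.toPF.mass_union_le _ _).trans ?_)
    refine (add_le_add ih ((S.toPF.mass_union_le _ _).trans
      (add_le_add (key n false _ (h0 (n + 1))) (key n true _ (h1 (n + 1)))))).trans ?_
    have h3 : 1 ≤ 2 ^ n := Nat.one_le_two_pow
    have h4 : (2 * C0 + 2 * C1 + 2 * C2) * 2 ^ n + (C0 * 2 ^ (n + 1) + C2 * 2 ^ 0 +
        (C1 * 2 ^ (n + 1) + C2 * 2 ^ 0)) ≤ (2 * C0 + 2 * C1 + 2 * C2) * 2 ^ (n + 1) := by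
      rw [pow_succ, pow_zero]
      nlinarith [Nat.mul_le_mul_left C2 h3]
    exact_mod_cast h4

theorem mass_per (s : ℕ) : ∃ C : ℕ, S.toPF.mass {w | w ∈ S.good ∧ ¬ d.Per s w} ≤ C := by
  refine f7clean_union (Finset.range s)
    (fun r => {w | w ∈ S.good ∧ chd (S.v w) ((Phi d.a d.c)^[r + 1] d.B) d.B ≠ 1}) ?_ ?_
  · intro r _
    refine d.f7clean_mass' (d.iter_mem S.K0.toSubfield (fun z hz => hz) d.B_mem d.rtop_B2 _)
      ⟨d.B_mem, d.rtop_B2⟩ (d.nonper r) (fun w hw => ?_) fun w hw => d.norm_B hw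
    rw [nrm, d.norm_iter hw, d.norm_B hw, one_pow]
  · rintro w ⟨hw, h⟩
    by_contra hc
    refine h fun r a1 a2 => ?_
    obtain ⟨r, rfl⟩ : ∃ m, r = m + 1 := ⟨r - 1, by omega⟩
    by_contra h1
    exact hc ⟨r, Finset.mem_range.2 a2, hw, h1⟩

theorem mass_crt (hc : ∀ r b', wedge (orb d.a d.c true (r + 1)) (crit b') ≠ 0) (s : ℕ) :
    ∃ C : ℕ, S.toPF.mass {w | w ∈ S.good ∧ ¬ d.Crt s w} ≤ C := by
  refine f7clean_union (Finset.univ ×ˢ Finset.univ ×ˢ Finset.range s)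
    (fun x : Bool × Bool × ℕ => {w | w ∈ S.good ∧
      chd (S.v w) (orb d.a d.c x.1 (x.2.2 + 1)) (crit x.2.1) ≠ 1}) ?_ ?_
  · rintro ⟨b, b', r⟩ _
    refine d.f7clean_mass' (d.orb_mem b _) (d.orb_mem b' 0) ?_ (fun w hw => d.nrm_orb hw b _)
      fun w _ => nrm_crit b'
    cases b
    · have := d.hypH.orb_ne r
      cases b'
      · simpa [wedge, crit] using this.1
      · simpa [wedge, crit] using this.2.1
    · exact hc r b'
  · rintro w ⟨hw, h⟩
    by_contra hn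
    refine h fun b b' r a1 a2 => ?_
    obtain ⟨r, rfl⟩ : ∃ m, r = m + 1 := ⟨r - 1, by omega⟩
    by_contra h1
    exact hn ⟨(b, b', r), by simpa using a2, hw, h1⟩

theorem mass_reg (l : ℕ) : ∃ C : ℕ, S.toPF.mass {w | ¬ d.Reg l w} ≤ C := by
  classical
  obtain ⟨C, hC⟩ := d.exists_mass_irr
  refine f7clean_union ((Finset.range (l + 1)).biUnion fun i => (d.V_finite i).toFinset)
    (fun z => {w | ¬ (w ∈ S.good ∧ z ∈ S.R w)}) ?_ ?_
  · intro z hz
    obtain ⟨i, _, hi⟩ := Finset.mem_biUnion.1 hz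
    exact ⟨C * (i + 1), by exact_mod_cast hC i z ((d.V_finite i).mem_toFinset.1 hi)⟩
  · intro w h
    by_contra hn
    refine h fun i _ a2 z hz => ?_
    by_contra h1
    exact hn ⟨z, Finset.mem_biUnion.2 ⟨i, Finset.mem_range.2 (by omega),
      (d.V_finite i).mem_toFinset.2 hz⟩, fun h2 => h1 h2.2⟩

variable {d} {w : S.W} {n s : ℕ}

theorem Evt.near_B (hw : w ∈ S.fin) {l : ℕ} {α : T} (hα : α ∈ d.V l) {b : Bool}
    (h : d.Evt w b α) : chd (S.v w) (orb d.a d.c b (l + 1)) d.B < 1 := by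
  rw [← rdyn_orb]
  exact (d.chd_B_le hw hα _).trans_lt h

theorem Old.level (hw : w ∈ S.fin) (ho : d.Old n w) {l : ℕ} {α : T} (hα : α ∈ d.V l) {b : Bool}
    (h : d.Evt w b α) : n ≤ l := by
  by_contra hn
  exact (h.near_B hw hα).ne (ho b (l + 1) (by omega) (by omega))

/-- Two events of the same critical orbit happen at the same time. -/
theorem time_uniq (hw : w ∈ S.fin) (ho : d.Old n w) (hp : d.Per s w) {b : Bool} {l l' : ℕ}
    (h1 : 1 ≤ l) (h1' : 1 ≤ l') (hl : l ≤ n + s) (hl' : l' ≤ n + s)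
    (e : chd (S.v w) (orb d.a d.c b l) d.B < 1) (e' : chd (S.v w) (orb d.a d.c b l') d.B < 1) :
    l = l' := by
  have key : ∀ l l', 1 ≤ l → l' ≤ n + s → chd (S.v w) (orb d.a d.c b l) d.B < 1 →
      chd (S.v w) (orb d.a d.c b l') d.B < 1 → ¬ l < l' := by
    intro l l' h1 hl' e e' hlt
    have hn : n < l := by
      by_contra hn
      exact e.ne (ho b l h1 (by omega))
    obtain ⟨r, rfl⟩ : ∃ r, l' = r + l := ⟨l' - l, by omega⟩
    have h2 := (d.chd_iter_le hw _ _ r).trans_lt e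
    rw [rdyn_orb, chd_comm] at h2
    exact (chd_lt_trans (orb_ne_zero d.hypH.ne b _) h2 e').ne (hp r (by omega) (by omega))
  have := key l l' h1 hl' e e'
  have := key l' l h1' hl e' e
  omega

theorem evt_uniq (hw : w ∈ S.fin) (ho : d.Old n w) (hp : d.Per s w) (hc : d.Crt s w) {b : Bool}
    {l l' : ℕ} {α α' : T} (hα : α ∈ d.V l) (hα' : α' ∈ d.V l') (hl : l < n + s)
    (hl' : l' < n + s) (e : d.Evt w b α) (e' : d.Evt w b α') : l = l' ∧ α = α' := by
  have hll : l = l' := by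
    have := time_uniq hw ho hp (by omega) (by omega) (by omega) (by omega) (e.near_B hw hα)
      (e'.near_B hw hα')
    omega
  subst hll
  refine ⟨rfl, ?_⟩
  by_contra hne
  have hac := d.hypH.ne
  have hl0 : wedge ((Phi d.a d.c)^[l] (α, 1)) ((Phi d.a d.c)^[l] (α', 1)) = 0 :=
    wedge_trans d.B_ne_zero hα (rdyn_comm hα')
  obtain ⟨j, hj, h1, h2⟩ : ∃ j, j < l ∧
      wedge ((Phi d.a d.c)^[j] (α, 1)) ((Phi d.a d.c)^[j] (α', 1)) ≠ 0 ∧
      wedge ((Phi d.a d.c)^[j + 1] (α, 1)) ((Phi d.a d.c)^[j + 1] (α', 1)) = 0 := by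
    by_contra hn
    have : ∀ j, j ≤ l → wedge ((Phi d.a d.c)^[j] (α, 1)) ((Phi d.a d.c)^[j] (α', 1)) ≠ 0 := by
      intro j
      induction j with
      | zero => intro _; simpa [wedge, sub_eq_zero] using hne
      | succ j ih => exact fun a1 a2 => hn ⟨j, a1, ih (by omega), a2⟩
    exact this l le_rfl hl0
  have e1 := (d.chd_iter_le hw _ _ j).trans_lt e
  have e2 := (d.chd_iter_le hw _ _ j).trans_lt e'
  rw [rdyn_orb] at e1 e2
  have hit : (Phi d.a d.c)^[l - j] ((Phi d.a d.c)^[j] (α, 1)) = (Phi d.a d.c)^[l] (α, 1) := by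
    rw [← Function.iterate_add_apply, Nat.sub_add_cancel hj.le]
  rw [Function.iterate_succ_apply', Function.iterate_succ_apply', wedge_Phi] at h2
  have hW := iter_ne_zero hac (pt_ne_zero α) j
  have hW' := iter_ne_zero hac (pt_ne_zero α') j
  generalize (Phi d.a d.c)^[j] (α, 1) = W at *
  generalize (Phi d.a d.c)^[j] (α', 1) = W' at *
  have h3 : wedge W' (-W.1, W.2) = 0 := by
    have := (mul_eq_zero.1 h2).resolve_left (mul_ne_zero (sub_ne_zero.2 hac) h1)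
    simp only [wedge]
    linear_combination this
  have h4 : ((-W.1, W.2) : T × T) ≠ 0 := fun h =>
    hW (Prod.ext (neg_eq_zero.1 (congrArg Prod.fst h)) (congrArg Prod.snd h :))
  have h5 := chd_lt_trans (orb_ne_zero hac b _) ((chd_comm _ _).trans_lt e1) e2
  rw [chd_congr hW' h4 h3] at h5
  obtain ⟨b2, h6⟩ := near_crit (S.v_two d.hypH.two w) hW h5
  by_cases hjs : j + 1 ≤ s
  · exact (chd_lt_trans hW e1 h6).ne (hc b b2 _ (by omega) hjs)
  · have h7 := (d.chd_iter_le hw _ _ (l - j)).trans_lt h6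
    rw [hit, chd_comm, chd_congr (iter_ne_zero hac (pt_ne_zero α) l) d.B_ne_zero hα] at h7
    exact h7.ne (ho b2 _ (by omega) (by omega))

/-- Events are not nested. -/
theorem evt_nest (hw : w ∈ S.fin) (ho : d.Old n w) (hc : d.Crt s w) {b b' : Bool}
    {l j : ℕ} {α' : T} (hα' : α' ∈ d.V (l + 1 + j)) (hl : l + 1 + j < n + s)
    (e : d.Evt w b ((phi d.a d.c)^[j] α')) (e' : d.Evt w b' α') : j = 0 ∧ b = b' := by
  have h1 := ho.level hw (d.rtop_iter_mem j hα') e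
  have h2 := (d.chd_anc_le hw hα' _).trans_lt e'
  rw [rdyn_orb] at h2
  have h3 := chd_lt_trans (pt_ne_zero _) h2 ((chd_comm _ _).trans_lt e)
  rcases Nat.eq_zero_or_pos j with rfl | hj
  · refine ⟨rfl, ?_⟩
    have h4 := d.chd_one_one hw
    cases b <;> cases b'
    · rfl
    · exact absurd ((chd_comm _ _).trans h4) h3.ne
    · exact absurd h4 h3.ne
    · rfl
  · exfalso
    have h4 := hc b' b j hj (by omega)
    have h5 : orb d.a d.c b 1 = Phi d.a d.c (crit b) := rfl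
    rw [orb_succ, h5, d.chd_Phi hw, chd_crit_neg, h4, mul_one] at h3
    exact lt_irrefl _ h3

/-- If the second critical orbit contains a critical point, an event of the first orbit at the
last time excludes all other events. -/
theorem no_evt_of_crit (hw : w ∈ S.fin) (ho : d.Old n w) (hp : d.Per s w) {r : ℕ} {b' : Bool}
    (hr : wedge (orb d.a d.c true (r + 1)) (crit b') = 0) (hrn : r + 1 ≤ n) (hs : 1 ≤ s)
    (e : chd (S.v w) (orb d.a d.c false (n + s)) d.B < 1) :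
    (∀ l, 1 ≤ l → l < n + s → chd (S.v w) (orb d.a d.c false l) d.B = 1) ∧
      ∀ l, 1 ≤ l → l ≤ n + s → chd (S.v w) (orb d.a d.c true l) d.B = 1 := by
  have h1 : ∀ l, 1 ≤ l → l < n + s → chd (S.v w) (orb d.a d.c false l) d.B = 1 := by
    intro l a1 a2
    by_contra hn
    have := time_uniq hw ho hp a1 (by omega) a2.le le_rfl
      (lt_of_le_of_ne (chd_le_one _ _) hn) e
    omega
  refine ⟨h1, fun l => ?_⟩
  induction l using Nat.strong_induction_on with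
  | _ l ih =>
    intro a1 a2
    by_cases hl : l ≤ n
    · exact ho true l a1 hl
    obtain ⟨m, rfl⟩ : ∃ m, l = m + (r + 1) := ⟨l - (r + 1), by omega⟩
    have h2 : wedge (orb d.a d.c true (m + (r + 1))) (orb d.a d.c b' m) = 0 := by
      rw [← rdyn_orb]
      exact wedge_iter hr m
    rw [chd_comm, chd_congr (orb_ne_zero d.hypH.ne _ _) (orb_ne_zero d.hypH.ne _ _) h2, chd_comm]
    cases b'
    · exact h1 m (by omega) (by omega)
    · exact ih m (by omega) (by omega) (by omega)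

end Dyn

end JR
end

-- merged part: Pool.Agent.Work.MP_969914_nt.S6U
section
/-! Towers of quadratic extensions over the regular subfield of a good place. -/

set_option autoImplicit false

namespace JR

open scoped NNReal

section ext
variable {T : Type} [Field T]

/-- The subfield obtained from `L` by adjoining a square root `z`. -/
def ext2 (L : Subfield T) (z : T) (hz : z ^ 2 ∈ L) (hn : z ∉ L) : Subfield T where
  carrier := {y | ∃ a ∈ L, ∃ b ∈ L, y = a + b * z}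
  mul_mem' := by
    rintro _ _ ⟨a, ha, b, hb, rfl⟩ ⟨a', ha', b', hb', rfl⟩
    exact ⟨a * a' + b * b' * z ^ 2, add_mem (mul_mem ha ha') (mul_mem (mul_mem hb hb') hz),
      a * b' + b * a', add_mem (mul_mem ha hb') (mul_mem hb ha'), by ring⟩
  one_mem' := ⟨1, one_mem _, 0, zero_mem _, by ring⟩
  add_mem' := by
    rintro _ _ ⟨a, ha, b, hb, rfl⟩ ⟨a', ha', b', hb', rfl⟩
    exact ⟨a + a', add_mem ha ha', b + b', add_mem hb hb', by ring⟩
  zero_mem' := ⟨0, zero_mem _, 0, zero_mem _, by ring⟩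
  neg_mem' := by
    rintro _ ⟨a, ha, b, hb, rfl⟩
    exact ⟨-a, neg_mem ha, -b, neg_mem hb, by ring⟩
  inv_mem' := by
    rintro _ ⟨a, ha, b, hb, rfl⟩
    by_cases h0 : a + b * z = 0
    · exact ⟨0, zero_mem _, 0, zero_mem _, by simp [h0]⟩
    have h1 : a - b * z ≠ 0 := by
      intro h
      by_cases hb0 : b = 0
      · apply h0; simpa [hb0] using h
      · apply hn
        have : z = a / b := by field_simp; linear_combination -h
        rw [this]; exact div_mem ha hb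
    have hN : a ^ 2 - b ^ 2 * z ^ 2 ∈ L := sub_mem (pow_mem ha 2) (mul_mem (pow_mem hb 2) hz)
    have h2 : a ^ 2 - b ^ 2 * z ^ 2 = (a + b * z) * (a - b * z) := by ring
    refine ⟨a / (a ^ 2 - b ^ 2 * z ^ 2), div_mem ha hN, -b / (a ^ 2 - b ^ 2 * z ^ 2),
      div_mem (neg_mem hb) hN, ?_⟩
    rw [h2]; field_simp; ring

theorem mem_ext2 {L : Subfield T} {z : T} {hz : z ^ 2 ∈ L} {hn : z ∉ L} {y : T} :
    y ∈ ext2 L z hz hn ↔ ∃ a ∈ L, ∃ b ∈ L, y = a + b * z := Iff.rfl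

theorem le_ext2 {L : Subfield T} {z : T} (hz : z ^ 2 ∈ L) (hn : z ∉ L) : L ≤ ext2 L z hz hn :=
  fun y hy => ⟨y, hy, 0, zero_mem _, by ring⟩

theorem self_mem_ext2 {L : Subfield T} {z : T} (hz : z ^ 2 ∈ L) (hn : z ∉ L) :
    z ∈ ext2 L z hz hn := ⟨0, zero_mem _, 1, one_mem _, by ring⟩

/-- `L` contains the square roots of its units. -/
def SqCl (v : Valuation T ℝ≥0) (L : Subfield T) : Prop := ∀ z, z ^ 2 ∈ L → v z = 1 → z ∈ L

variable {v : Valuation T ℝ≥0} {L : Subfield T}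

theorem SqCl.mem (h : SqCl v L) {z y : T} (hz : z ^ 2 ∈ L) (hy : y ∈ L) (e : v z = v y) :
    z ∈ L := by
  by_cases h0 : y = 0
  · have : z = 0 := by rw [← v.zero_iff, e, h0, map_zero]
    rw [this]; exact zero_mem _
  have h1 : z / y ∈ L := h _ (by rw [div_pow]; exact div_mem hz (pow_mem hy 2))
    (by rw [map_div₀, e, div_self (v.ne_zero_iff.2 h0)])
  have : z = z / y * y := by field_simp
  rw [this]; exact mul_mem h1 hy

theorem SqCl.ne (h : SqCl v L) {z a b : T} (hz : z ^ 2 ∈ L) (hn : z ∉ L) (ha : a ∈ L) (hb : b ∈ L)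
    (hb0 : b ≠ 0) : v a ≠ v (b * z) := fun e => hn <| h.mem hz (div_mem ha hb) <| by
  rw [map_div₀, e, map_mul, mul_div_cancel_left₀ _ (v.ne_zero_iff.2 hb0)]

theorem SqCl.val (h : SqCl v L) {z a b : T} (hz : z ^ 2 ∈ L) (hn : z ∉ L) (ha : a ∈ L)
    (hb : b ∈ L) : v (a + b * z) = max (v a) (v (b * z)) := by
  by_cases hb0 : b = 0
  · simp [hb0]
  · exact v.map_add_of_distinct_val (h.ne hz hn ha hb hb0)

theorem val_eq_of_sq {x y : T} (h : v (x ^ 2) = v (y ^ 2)) : v x = v y := by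
  rw [map_pow, map_pow] at h
  exact (pow_left_inj₀ zero_le zero_le two_ne_zero).1 h

theorem SqCl.ext2 (h : SqCl v L) (h2 : v 2 = 1) (hs : ∀ α : T, ∃ β, β ^ 2 = α) {z : T}
    (hz : z ^ 2 ∈ L) (hn : z ∉ L) : SqCl v (ext2 L z hz hn) := by
  rintro y ⟨a, ha, b, hb, e⟩ hy
  have h1 : max (v a) (v (b * z)) = 1 := by rw [← h.val hz hn ha hb, ← e, map_pow, hy, one_pow]
  have hbz : v (b * z) < 1 := by
    refine lt_of_le_of_ne (h1 ▸ le_max_right _ _) fun h3 => ?_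
    have hb0 : b ≠ 0 := by rintro rfl; simp at h3
    exact h.ne hz hn (one_mem _) hb hb0 (by rw [map_one, h3])
  have hva : v a = 1 := by
    rcases max_choice (v a) (v (b * z)) with h3 | h3
    · rw [← h3, h1]
    · rw [h3] at h1; exact absurd h1 hbz.ne
  have key : ∀ n : T, n ^ 2 = a ^ 2 - b ^ 2 * z ^ 2 → v (a + n) = 1 → y ∈ JR.ext2 L z hz hn := by
    intro n hn2 hv
    have hN : n ^ 2 ∈ L := hn2 ▸ sub_mem (pow_mem ha 2) (mul_mem (pow_mem hb 2) hz)
    have hvn : v n = 1 := by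
      have : v (n ^ 2) = v (1 ^ 2) := by
        rw [hn2, ← mul_pow, v.map_sub_eq_of_lt_left, map_pow, hva, map_pow, map_one]
        rw [map_pow, map_pow, hva, one_pow]
        exact pow_lt_one₀ zero_le hbz two_ne_zero
      rw [val_eq_of_sq this, map_one]
    have hnL := h n hN hvn
    obtain ⟨m, hm⟩ := hs (2 * (a + n))
    have hvm : v m = 1 := by
      have : v (m ^ 2) = v (1 ^ 2) := by rw [hm, map_mul, h2, hv, one_pow, map_one, one_mul]
      rw [val_eq_of_sq this, map_one]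
    have hmL : m ∈ L := h m (hm ▸ mul_mem (ofNat_mem _ 2) (add_mem ha hnL)) hvm
    have hm0 : m ≠ 0 := v.ne_zero_iff.1 (by rw [hvm]; exact one_ne_zero)
    have h4 : (a + n) / m + b / m * z ∈ JR.ext2 L z hz hn :=
      ⟨_, div_mem (add_mem ha hnL) hmL, _, div_mem hb hmL, rfl⟩
    have h5 : y ^ 2 = ((a + n) / m + b / m * z) ^ 2 := by
      rw [e]; field_simp; rw [hm]; linear_combination -hn2
    rcases sq_eq_sq_iff_eq_or_eq_neg.1 h5 with h6 | h6 <;> rw [h6]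
    · exact h4
    · exact neg_mem h4
  obtain ⟨n, hn2⟩ := hs (a ^ 2 - b ^ 2 * z ^ 2)
  have hvn : v n ≤ 1 := by
    have : v (n ^ 2) ≤ 1 := by
      rw [hn2, ← mul_pow]
      refine v.map_sub_le (by rw [map_pow, hva, one_pow]) ?_
      rw [map_pow]; exact pow_le_one₀ zero_le hbz.le
    rw [map_pow] at this
    exact (pow_le_one_iff_of_nonneg zero_le two_ne_zero).1 this
  by_cases h3 : v (a + n) = 1
  · exact key n hn2 h3
  · refine key (-n) (by rw [neg_sq, hn2]) ?_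
    have h4 : v (a + n) < 1 := lt_of_le_of_ne (v.map_add_le hva.le hvn) h3
    have h5 : a + -n = 2 * a - (a + n) := by ring
    have h6 : v (2 * a) = 1 := by rw [map_mul, h2, hva, one_mul]
    rw [h5, v.map_sub_eq_of_lt_left (by rwa [h6]), h6]

/-- An automorphism which preserves the valuation on `L` preserves it on `L (z)`. -/
theorem SqCl.aut (h : SqCl v L) {z : T} (hz : z ^ 2 ∈ L) (hn : z ∉ L) (σ : T →+* T)
    (hσ : ∀ y ∈ L, v (σ y) = v y) {y : T} (hy : y ∈ JR.ext2 L z hz hn) : v (σ y) = v y := by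
  obtain ⟨a, ha, b, hb, rfl⟩ := hy
  have h1 : v (σ z) = v z := val_eq_of_sq (by rw [← map_pow, hσ _ hz])
  have h2 : v (σ b * σ z) = v (b * z) := by rw [map_mul, map_mul, h1, hσ b hb]
  rw [h.val hz hn ha hb, map_add, map_mul σ]
  by_cases hb0 : b = 0
  · simp [hb0, hσ a ha]
  · rw [v.map_add_of_distinct_val (by rw [h2, hσ a ha]; exact h.ne hz hn ha hb hb0), h2, hσ a ha]

end ext

namespace Std
variable {p : ℕ} {k T : Type} [Field k] [Field T] [Algebra k T] (S : Std p k T)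

theorem sqCl_R {w : S.W} (hw : w ∈ S.good) : SqCl (S.v w) (S.R w) := S.R_sqrt w hw

/-- The quadratic closure of `R w`: all automorphisms over `R w` preserve the valuation on it. -/
theorem exists_tower (h2 : (2 : T) ≠ 0) {w : S.W} (hw : w ∈ S.good) :
    ∃ L : Subfield T, S.R w ≤ L ∧ (∀ z, z ^ 2 ∈ L → z ∈ L) ∧
      ∀ σ : T ≃ₐ[S.K0] T, (∀ z ∈ S.R w, σ z = z) → ∀ y ∈ L, S.v w (σ y) = S.v w y := by
  obtain ⟨L, hL, hmax⟩ := zorn_le_nonempty₀
    {L : Subfield T | SqCl (S.v w) L ∧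
      ∀ σ : T ≃ₐ[S.K0] T, (∀ z ∈ S.R w, σ z = z) → ∀ y ∈ L, S.v w (σ y) = S.v w y}
    (fun c hc hch y hy => by
      have hd := hch.directedOn
      refine ⟨sSup c, ⟨fun z hz hv => ?_, fun σ hσ z hz => ?_⟩, fun z hz => le_sSup hz⟩
      · obtain ⟨M, hM, h⟩ := (Subfield.mem_sSup_of_directedOn ⟨y, hy⟩ hd).1 hz
        exact le_sSup hM ((hc hM).1 z h hv)
      · obtain ⟨M, hM, h⟩ := (Subfield.mem_sSup_of_directedOn ⟨y, hy⟩ hd).1 hz
        exact (hc hM).2 σ hσ z h)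
    (S.R w) ⟨S.sqCl_R hw, fun σ hσ y hy => by rw [hσ y hy]⟩
  refine ⟨L, hL, fun z hz => ?_, hmax.prop.2⟩
  by_contra hn
  have h1 := hmax.le_of_ge (y := ext2 L z hz hn)
    ⟨hmax.prop.1.ext2 (S.v_two h2 w) S.sqrt hz hn, fun σ hσ y hy =>
      hmax.prop.1.aut hz hn (σ : T →+* T) (hmax.prop.2 σ hσ) hy⟩ (le_ext2 hz hn)
  exact hn (h1 (self_mem_ext2 hz hn))

/-- The ramified quadratic extension of `R w`. -/
theorem exists_U1 (h2 : (2 : T) ≠ 0) {w : S.W} (hw : w ∈ S.good) :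
    ∃ (π : T) (U : Subfield T) (σ : T ≃ₐ[S.K0] T), π ^ 2 ∈ S.R w ∧ S.v w (π ^ 2) = S.q⁻¹ ∧
      (∀ y, y ∈ U ↔ ∃ a ∈ S.R w, ∃ b ∈ S.R w, y = a + b * π) ∧ S.R w ≤ U ∧
      (∀ z, z ^ 2 ∈ U → ∀ y ∈ U, S.v w z = S.v w y → z ∈ U) ∧
      (∀ z, z ^ 2 ∈ S.R w → z ∈ U) ∧
      (∀ z ∈ S.R w, σ z = z) ∧ σ π = -π ∧ (∀ y ∈ U, S.v w (σ y) = S.v w y) ∧
      (∀ z, z ^ 2 ∈ S.R w → z ∉ S.R w → σ z = -z) ∧
      ∀ z ∈ U, σ z = z → z ∈ S.R w := by
  obtain ⟨τ, hτ, hv, -⟩ := S.tau w hw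
  obtain ⟨π, rfl⟩ := S.sqrt τ
  have hq0 : S.q ≠ 0 := (zero_lt_one.trans S.one_lt_q).ne'
  have hπ0 : π ≠ 0 := by
    rintro rfl
    rw [zero_pow two_ne_zero, map_zero] at hv
    exact inv_ne_zero hq0 hv.symm
  have hn : π ∉ S.R w := fun h => by
    obtain ⟨n, hn⟩ := S.vgroup w hw π h hπ0
    rw [map_pow, hn, ← zpow_natCast, ← zpow_mul, ← zpow_neg_one] at hv
    have := zpow_right_injective₀ (zero_lt_one.trans S.one_lt_q) S.one_lt_q.ne' hv
    omega
  obtain ⟨σ, hσ, hσπ⟩ := S.exists_aut_neg h2 (S.R w) (S.K0_le w hw) hn hτ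
  have hc := S.sqCl_R hw
  have odd : ∀ z, z ^ 2 ∈ S.R w → z ∉ S.R w → ∃ b ∈ S.R w, z = b * π := by
    intro z hz hzn
    have hz0 : z ≠ 0 := by rintro rfl; exact hzn (zero_mem _)
    obtain ⟨n, hn⟩ := S.vgroup w hw _ hz (pow_ne_zero _ hz0)
    have hpow : ∀ m : ℤ, S.v w ((π ^ 2) ^ (-m)) = S.q ^ m := fun m => by
      rw [map_zpow₀, hv, inv_zpow', neg_neg]
    rcases Int.even_or_odd' n with ⟨m, rfl | rfl⟩
    · refine absurd (hc.mem hz (zpow_mem hτ (-m)) (val_eq_of_sq ?_)) hzn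
      rw [hn, map_pow, hpow, ← zpow_natCast, ← zpow_mul, mul_comm]; rfl
    · refine ⟨z / π, hc.mem (by rw [div_pow]; exact div_mem hz hτ) (zpow_mem hτ (-(m + 1)))
        (val_eq_of_sq ?_), by field_simp⟩
      rw [div_pow, map_div₀, hn, hv, map_pow, hpow, div_inv_eq_mul, ← zpow_add_one₀ hq0,
        ← zpow_natCast, ← zpow_mul]
      congr 1; push_cast; ring
  refine ⟨π, ext2 (S.R w) π hτ hn, σ, hτ, hv, fun _ => Iff.rfl, le_ext2 hτ hn,
    fun z hz y hy e => (hc.ext2 (S.v_two h2 w) S.sqrt hτ hn).mem hz hy e, fun z hz => ?_, hσ, hσπ,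
    fun y hy => hc.aut hτ hn (σ : T →+* T) (fun y hy => by rw [RingHom.coe_coe, hσ y hy]) hy,
    fun z hz hzn => ?_, ?_⟩
  · by_cases hzn : z ∈ S.R w
    · exact le_ext2 hτ hn hzn
    · obtain ⟨b, hb, rfl⟩ := odd z hz hzn
      exact ⟨0, zero_mem _, b, hb, by ring⟩
  · obtain ⟨b, hb, rfl⟩ := odd z hz hzn
    rw [map_mul, hσ b hb, hσπ, mul_neg]
  · rintro _ ⟨a, ha, b, hb, rfl⟩ e
    rw [map_add, map_mul, hσ a ha, hσ b hb, hσπ] at e
    have h3 : 2 * (b * π) = 0 := by linear_combination -e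
    rw [(mul_eq_zero.1 h3).resolve_left h2, add_zero]
    exact ha

end Std

end JR
end

-- merged part: Pool.Agent.Work.MP_969914_nt.F7U
section
/-! The ramified quadratic extension of a regular field, and the inertia involution. -/

set_option autoImplicit false

namespace JR

open scoped NNReal ENNReal

namespace Std
variable {p : ℕ} {k T : Type} [Field k] [Field T] [Algebra k T] (S : Std p k T)

/-- `U` is `R w (√τ)` and `σ` the nontrivial automorphism. -/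
structure Inert (w : S.W) (U : Subfield T) (σ : T ≃ₐ[S.K0] T) : Prop where
  le : S.R w ≤ U
  fix : ∀ z ∈ S.R w, σ z = z
  inv : ∀ z ∈ U, σ (σ z) = z
  root : ∀ z, z ^ 2 ∈ S.R w → z ∈ U
  unit : ∀ z, z ^ 2 ∈ U → S.v w z = 1 → z ∈ U
  neg : ∀ z, z ^ 2 ∈ S.R w → z ∉ S.R w → σ z = -z

theorem exists_inert (h2 : (2 : T) ≠ 0) {w : S.W} (hw : w ∈ S.good) :
    ∃ (U : Subfield T) (σ : T ≃ₐ[S.K0] T), S.Inert w U σ := by
  obtain ⟨π, U, σ, h1, -, h3, h4, h5, h6, h7, h8, -, h10, -⟩ := S.exists_U1 h2 hw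
  refine ⟨U, σ, h4, h7, fun z hz => ?_, h6, fun z hz hv => h5 z hz 1 U.one_mem (by simp [hv]), h10⟩
  obtain ⟨a, ha, b, hb, rfl⟩ := (h3 z).1 hz
  simp [h7 a ha, h7 b hb, h8]

theorem not_mem_of_odd {w : S.W} (hw : w ∈ S.good) {z e : T} (he : e ∈ S.R w) (h0 : e ≠ 0)
    (h : S.v w z ^ 2 * S.v w e ^ 2 = S.q⁻¹) : z ∉ S.R w := by
  intro hz
  have hq := S.rtop_q_pos
  have hz0 : z ≠ 0 := by
    rintro rfl
    exact (inv_ne_zero hq.ne') (by simpa using h.symm)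
  obtain ⟨m, hm⟩ := S.vgroup w hw z hz hz0
  obtain ⟨n, hn⟩ := S.vgroup w hw e he h0
  rw [hm, hn, ← zpow_natCast, ← zpow_natCast, ← zpow_mul, ← zpow_mul, ← zpow_add₀ hq.ne',
    ← zpow_neg_one] at h
  have := (zpow_right_strictMono₀ S.one_lt_q).injective h
  omega

theorem mem_of_even {w : S.W} (hw : w ∈ S.good) {z e : T} (hz : z ^ 2 ∈ S.R w) (he : e ∈ S.R w)
    (h : S.v w z ^ 2 * S.v w e ^ 2 = 1) : z ∈ S.R w := by
  have h0 : e ≠ 0 := by
    rintro rfl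
    simp at h
  have h1 : z * e ∈ S.R w := S.R_sqrt w hw _ (mul_pow z e 2 ▸ mul_mem hz (pow_mem he 2)) (by
    rw [← mul_pow, ← map_mul] at h
    exact (pow_eq_one_iff_of_nonneg zero_le two_ne_zero).1 h)
  exact mul_div_cancel_right₀ z h0 ▸ div_mem h1 he

theorem adjoin_le_R {w : S.W} (hw : w ∈ S.good) {A : Set T} (hA : ∀ z ∈ A, z ∈ S.R w) :
    ∀ z ∈ IntermediateField.adjoin S.K0 A, z ∈ S.R w := by
  intro z hz
  induction hz using IntermediateField.adjoin_induction with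
  | mem x hx => exact hA x hx
  | algebraMap x => exact S.K0_le w hw _ x.2
  | add x y _ _ hx hy => exact add_mem hx hy
  | inv x _ hx => exact inv_mem hx
  | mul x y _ _ hx hy => exact mul_mem hx hy

end Std

namespace Dyn
variable {p : ℕ} {k T : Type} [Field k] [Field T] [Algebra k T] {S : Std p k T} {d : Dyn S}
  {w : S.W}

theorem f7u_dl (hw : w ∈ S.good) {U : Subfield T} (hU : S.R w ≤ U) {α : T} (hα : α ∈ U) :
    dl d.a d.c α ∈ U ∧ d.c * α - d.a ∈ U := by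
  have h := sub_mem (mul_mem (hU (S.K0_le w hw _ d.c_mem)) hα) (hU (S.K0_le w hw _ d.a_mem))
  exact ⟨mul_mem (sub_mem (one_mem _) hα) h, h⟩

theorem f7u_ch {U : Subfield T} {l : ℕ} {z : T} (hz : z ∈ d.V (l + 2))
    (h : d.ch (phi d.a d.c z) ∈ U) : z ∈ U := by
  rcases d.eq_ch hz with e | e <;> rw [e]
  exacts [h, neg_mem h]

/-- Children of a vertex without event stay in the field. -/
theorem ch_mem_of_not_evt (hw : w ∈ S.good) {U : Subfield T} (hU : S.R w ≤ U)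
    (hs : ∀ z, z ^ 2 ∈ U → S.v w z = 1 → z ∈ U) {l : ℕ} {α : T} (hα : α ∈ d.V l) (hαU : α ∈ U)
    (h : ∀ b, ¬ d.Evt w b α) : d.ch α ∈ U := by
  have h1 : ∀ b, chd (S.v w) (orb d.a d.c b 1) (α, 1) = 1 := fun b =>
    le_antisymm (chd_le_one _ _) (not_lt.1 (h b))
  have h2 := d.v_rt_sq (S.good_fin hw) α
  rw [h1, h1, mul_one, mul_one, pow_left_inj₀ zero_le zero_le two_ne_zero] at h2
  obtain ⟨e, he, he0, he'⟩ : ∃ e ∈ U, e ≠ 0 ∧ S.v w e = max (S.v w α) 1 := by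
    rcases le_or_gt (S.v w α) 1 with h3 | h3
    · exact ⟨1, one_mem _, one_ne_zero, by rw [max_eq_right h3, map_one]⟩
    · refine ⟨α, hαU, ?_, (max_eq_left h3.le).symm⟩
      rintro rfl
      simp at h3
  have h3 := hs (d.rt α / e) (by
    rw [div_pow, d.rt_sq]
    exact div_mem (f7u_dl hw hU hαU).1 (pow_mem he 2)) (by
    rw [map_div₀, h2, ← he', div_self ((map_ne_zero _).2 he0)])
  exact div_mem (div_mul_cancel₀ (d.rt α) he0 ▸ mul_mem h3 he) (f7u_dl hw hU hαU).2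

/-- Without events all vertices are regular. -/
theorem reg_of_no_evt (hw : w ∈ S.good) {N : ℕ} (hr : d.Reg 1 w)
    (h : ∀ l, l < N → ∀ α ∈ d.V l, ∀ b, ¬ d.Evt w b α) : d.Reg N w := by
  intro i h1
  induction i, h1 using Nat.le_induction with
  | base => exact fun _ => hr 1 le_rfl le_rfl
  | succ i h1 ih =>
    intro hi z hz
    obtain ⟨i, rfl⟩ := Nat.exists_eq_add_of_le' h1
    have h2 := (d.V_succ hz).2
    exact f7u_ch hz (ch_mem_of_not_evt hw le_rfl (S.R_sqrt w hw) h2 (ih (by omega) _ h2)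
      (h _ (by omega) _ h2))

variable {n s : ℕ} {U : Subfield T} {σ : T ≃ₐ[S.K0] T}

/-- The action of inertia at a clean place. -/
theorem inert_tree (hw : w ∈ S.good) (hI : S.Inert w U σ) (ho : d.Old n w) (hc : d.Crt s w)
    (hr : d.Reg 1 w) {l : ℕ} (hl : l + 1 < n + s) {z : T} (hz : z ∈ d.V (l + 1)) :
    z ∈ U ∧ (z ∈ S.R w ∨ ∃ i j b, i + 1 + (j + 1) = l + 1 ∧
      d.Evt w b ((phi d.a d.c)^[j + 1] z) ∧ d.ch ((phi d.a d.c)^[j + 1] z) ∉ S.R w) := by
  induction l generalizing z with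
  | zero => exact ⟨hI.le (hr 1 le_rfl le_rfl z hz), Or.inl (hr 1 le_rfl le_rfl z hz)⟩
  | succ l ih =>
    have h2 := (d.V_succ hz).2
    obtain ⟨h3, h4⟩ := ih (by omega) h2
    by_cases he : ∃ b, d.Evt w b (phi d.a d.c z)
    · obtain ⟨b, he⟩ := he
      have h5 : phi d.a d.c z ∈ S.R w := h4.resolve_right fun ⟨i, j, b', h6, h7, _⟩ =>
        j.succ_ne_zero (evt_nest (S.good_fin hw) ho hc (h6 ▸ h2) (by omega) h7 he).1
      refine ⟨f7u_ch hz (div_mem (hI.root _ ?_) (f7u_dl hw hI.le h3).2),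
        or_iff_not_imp_left.2 fun h6 => ⟨l, 0, b, rfl, he, fun h7 => h6 (f7u_ch hz h7)⟩⟩
      rw [d.rt_sq]
      exact (f7u_dl hw le_rfl h5).1
    · push Not at he
      exact ⟨f7u_ch hz (ch_mem_of_not_evt hw hI.le hI.unit h2 h3 he), h4.imp
        (fun h5 => f7u_ch hz (ch_mem_of_not_evt hw le_rfl (S.R_sqrt w hw) h2 h5 he))
        fun ⟨i, j, b, h5, h6⟩ => ⟨i, j + 1, b, by omega, h6⟩⟩

/-- Vertices with an event are regular. -/
theorem evt_reg (hw : w ∈ S.good) (hI : S.Inert w U σ) (ho : d.Old n w) (hc : d.Crt s w)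
    (hr : d.Reg 1 w) {l : ℕ} (hl : l + 1 < n + s) {z : T} (hz : z ∈ d.V (l + 1)) {b : Bool}
    (e : d.Evt w b z) : z ∈ S.R w :=
  (inert_tree hw hI ho hc hr hl hz).2.resolve_right fun ⟨_, j, _, h6, h7, _⟩ =>
    j.succ_ne_zero (evt_nest (S.good_fin hw) ho hc (h6 ▸ hz) (by omega) h7 e).1

end Dyn

end JR
end

-- merged part: Pool.Agent.Work.MP_969914_nt.F7Full
section
/-! Above a deep vertex the Galois group is full up to any fixed depth. -/

set_option autoImplicit false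

namespace JR

open scoped NNReal ENNReal
open IntermediateField

theorem exists_pow_gt {ε : ℝ≥0} (hε : 0 < ε) (C : ℕ) :
    ∃ m0 : ℕ, ∀ m, m0 ≤ m → (C : ℝ≥0∞) < ε * 2 ^ m := by
  obtain ⟨n, hn⟩ := pow_unbounded_of_one_lt ((C : ℝ≥0) / ε) (one_lt_two (α := ℝ≥0))
  refine ⟨n, fun m hm => ?_⟩
  have h : (C : ℝ≥0) < ε * 2 ^ m := by
    rw [div_lt_iff₀' hε] at hn
    exact hn.trans_le (mul_le_mul_right (pow_le_pow_right₀ one_le_two hm) _)
  exact_mod_cast h

namespace Dyn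
variable {p : ℕ} {k T : Type} [Field k] [Field T] [Algebra k T] {S : Std p k T} {d : Dyn S}

/-- A lower bound applied to vertices of bounded level. -/
theorem LowerBd.bdd {G : ℕ → Finset T → Set S.W} (h : d.LowerBd G) :
    ∃ ε : ℝ≥0, 0 < ε ∧ ∀ l1 : ℕ, ∃ m0 : ℕ, ∀ m, m0 ≤ m → ∀ A : Finset T,
      (∀ s ∈ A, ∃ l, 1 ≤ l ∧ l ≤ l1 ∧ s ∈ d.V l) →
      (ε : ℝ≥0∞) * A.card * 2 ^ m ≤ S.toPF.mass (G m A) := by
  classical
  obtain ⟨ε, hε, h⟩ := h
  obtain ⟨C, hC⟩ := d.exists_mass_irr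
  refine ⟨ε, hε, fun l1 => ?_⟩
  obtain ⟨n1, ε1, h1, h⟩ := h ((Finset.range (l1 + 1)).biUnion d.Vf).card
  obtain ⟨n2, h2⟩ := exists_pow_gt h1 (C * (l1 + 1))
  refine ⟨max n1 n2, fun m hm A hA => h m (le_of_max_le_left hm) A
    (Finset.card_le_card fun s hs => ?_) (fun s hs => ?_) fun s hs => ?_⟩
  · obtain ⟨l, -, hl, hs⟩ := hA s hs
    exact Finset.mem_biUnion.2 ⟨l, Finset.mem_range.2 (by omega), d.mem_Vf.2 hs⟩
  · obtain ⟨l, hl, -, hs⟩ := hA s hs
    exact ⟨l, hl, hs⟩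
  · obtain ⟨l, -, hl, hs⟩ := hA s hs
    refine le_trans (S.toPF.mass_mono ?_) ((hC l s hs).trans
      (le_trans ?_ (h2 m (le_of_max_le_right hm)).le))
    · exact fun w hw h => hw h.2
    push_cast
    gcongr

theorem v_prod_Nw (m : ℕ) (A : Finset T) (w : S.W) :
    S.v w (∏ s ∈ A, d.Nw m s) = d.con false m A w * d.con true m A w := by
  simp only [Nw, con, map_prod, map_mul, Finset.prod_mul_distrib]

theorem not_sq (hsd : d.LowerBd d.GoodSet) (l1 : ℕ) : ∃ m0 : ℕ, ∀ m, m0 ≤ m → ∀ A : Finset T,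
    A.Nonempty → (∀ s ∈ A, ∃ l, 1 ≤ l ∧ l ≤ l1 + 1 ∧ s ∈ d.V l) →
    ¬ SqIn (d.KV (l1 + 1)) (∏ s ∈ A, d.Nw m s) := by
  obtain ⟨ε, hε, h⟩ := hsd.bdd
  obtain ⟨m1, h1⟩ := h (l1 + 1)
  obtain ⟨C, hC⟩ := d.mass_reg (l1 + 1)
  obtain ⟨m2, h2⟩ := exists_pow_gt hε C
  refine ⟨max m1 m2, fun m hm A hne hA ⟨u, hu, hu2⟩ => ?_⟩
  have hs : d.GoodSet m A ⊆ {w | ¬ d.Reg (l1 + 1) w} := fun w hw hr => by
    refine S.not_mem_of_odd hw.1 (one_mem _) one_ne_zero ?_
      (S.adjoin_le_R hw.1 (hr (l1 + 1) (by omega) le_rfl) u hu)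
    rw [map_one, one_pow, mul_one, ← map_pow, hu2, v_prod_Nw]
    rcases hw.2.2 with h | h <;> simp [h.1, h.2]
  refine (h2 m (le_of_max_le_right hm)).not_ge (le_trans ?_
    ((h1 m (le_of_max_le_left hm) A hA).trans ((S.toPF.mass_mono hs).trans hC)))
  have : (1 : ℝ≥0∞) ≤ A.card := by exact_mod_cast hne.card_pos
  calc (ε : ℝ≥0∞) * 2 ^ m = ε * 1 * 2 ^ m := by rw [mul_one]
    _ ≤ _ := by gcongr

/-- The product of `dl` over a whole fibre is `Nw` up to squares. -/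
theorem sq_fib_iff [IsAlgClosed k] {l : ℕ} {y : T} (hy : y ∈ d.V (l + 1)) (j : ℕ)
    {L : IntermediateField S.K0 T} (hL : y ∈ L) (x : T) :
    SqIn L (x * ∏ α ∈ d.fib (l + 1) y j, dl d.a d.c α) ↔ SqIn L (x * d.Nw (j + 1) y) := by
  have hs : SqIn L ((-1 : T) ^ (d.fib (l + 1) y j).card) := SqIn.neg_one_pow (exists_I (S := S)) _
  have h1 : ((-1 : T) ^ (d.fib (l + 1) y j).card) * (-1) ^ (d.fib (l + 1) y j).card = 1 := by
    rw [← mul_pow]
    simp
  simp only [dl_eq]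
  rw [Finset.prod_neg, add_comm j 1, d.prod_Nw hy j 1, mul_left_comm, mul_left_comm x]
  refine ⟨fun h => (sqIn_sq (d.wedge_orb_mem hL true j)).mul ?_, fun h =>
    hs.mul (SqIn.of_mul_sq (d.wedge_orb_mem hL true j) (d.wedge_true_ne hy j) h)⟩
  have := hs.mul h
  rwa [← mul_assoc, h1, one_mul] at this

theorem f7full_all {r0 : ℕ} (hst : d.Stable r0) {l : ℕ} (hl : r0 ≤ l + 1) {y : T} {j : ℕ}
    {I : Finset T} (hI : I ⊆ d.fib (l + 1) y j) (hne : I.Nonempty)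
    (h : ∀ σ : T ≃ₐ[S.K0] T, σ y = y → ∀ z ∈ I, σ z ∈ I) : I = d.fib (l + 1) y j := by
  obtain ⟨z, hz⟩ := hne
  refine hI.antisymm fun z' hz' => ?_
  obtain ⟨σ, hσ⟩ := hst.trans hl j (hI hz) hz'
  refine hσ ▸ h σ ?_ z hz
  conv_lhs => rw [← (d.mem_fib.1 (hI hz)).2]
  rw [d.aut_iter, hσ, (d.mem_fib.1 hz').2]

theorem f7full_mem {l : ℕ} {y : T} (hy : y ∈ d.V (l + 1)) (j : ℕ) : y ∈ d.Ly (l + 1) y j :=
  d.mem_Ly (Nat.zero_le j) (by rw [d.fib_zero hy]; exact Finset.mem_singleton_self y)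

theorem f7full_fib {l j : ℕ} {y : T} {σ : T ≃ₐ[S.K0] T} (h : σ y = y) :
    ∀ z ∈ d.fib l y j, σ z ∈ d.fib l y j := fun z hz => by
  simpa only [h] using d.aut_fib σ hz

theorem f7full_dl {l j : ℕ} {y : T} :
    ∀ α ∈ d.fib (l + 1) y j, dl d.a d.c α ∈ d.Ly (l + 1) y j ∧ dl d.a d.c α ≠ 0 :=
  fun _ h => ⟨d.dl_mem (d.mem_Ly le_rfl h), d.dl_ne (d.mem_fib.1 h).1⟩

theorem descent [IsAlgClosed k] {r0 : ℕ} (hst : d.Stable r0) {l : ℕ} (hl : r0 ≤ l + 1) {y : T}
    (hy : y ∈ d.V (l + 1)) (j : ℕ)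
    (hI : ∀ i, i < j → Indep (d.Ly (l + 1) y i) (d.fib (l + 1) y i) (dl d.a d.c)) {x : T}
    (hx : x ∈ adjoin S.K0 {y}) (h0 : x ≠ 0) (h : SqIn (d.Ly (l + 1) y j) x) :
    ∃ Λ ⊆ Finset.range j, SqIn (adjoin S.K0 {y}) (x * ∏ i ∈ Λ, d.Nw (i + 1) y) := by
  classical
  have := S.galois
  induction j generalizing x with
  | zero => exact ⟨∅, Finset.empty_subset _, by rwa [Finset.prod_empty, mul_one, ← d.Ly_zero hy]⟩
  | succ j ih =>
    have hxL : x ∈ d.Ly (l + 1) y j :=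
      adjoin_le_iff.2 (Set.singleton_subset_iff.2 (f7full_mem hy j)) hx
    rw [d.Ly_succ] at h
    obtain ⟨I, hI1, hI2⟩ := sq_descent d.two_ne _ d.rt
      (fun α hα => by rw [d.rt_sq]; exact (f7full_dl α hα).1) hxL h
    simp only [d.rt_sq] at hI2
    have ih' := fun x => @ih (fun i hi => hI i (by omega)) x
    rcases I.eq_empty_or_nonempty with rfl | hne
    · obtain ⟨Λ, h1, h2⟩ := ih' x hx h0 (by simpa using hI2)
      exact ⟨Λ, h1.trans (Finset.range_mono (Nat.le_succ j)), h2⟩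
    · have e := f7full_all hst hl hI1 hne fun σ hσ z hz => by
        have k1 : SqIn (d.Ly (l + 1) y j) (x * ∏ α ∈ I.image σ, dl d.a d.c α) := by
          obtain ⟨u, hu, hu2⟩ := hI2
          refine ⟨σ u, map_mem_adjoin (f7full_fib hσ) u hu, ?_⟩
          rw [← map_pow, hu2, map_mul, map_prod, Finset.prod_image σ.injective.injOn,
            fix_adjoin (τ := 1) (by simpa using hσ) x hx]
          simp only [d.aut_dl, AlgEquiv.one_apply]
        have k2 := hI j (Nat.lt_succ_self j) _ (symmDiff_le_sup.trans (sup_le hI1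
          (Finset.image_subset_iff.2 fun z hz => f7full_fib hσ z (hI1 hz))))
          (SqIn.symmDiff (fun α hα => f7full_dl α (hI1 hα)) hxL h0 hI2 k1)
        rw [← Finset.bot_eq_empty, symmDiff_eq_bot] at k2
        rw [k2]
        exact Finset.mem_image_of_mem _ hz
      rw [e, sq_fib_iff hy j (f7full_mem hy j)] at hI2
      obtain ⟨Λ, h1, h2⟩ := ih' _ (mul_mem hx (d.Nw_mem (mem_adjoin_simple_self _ y) _))
        (mul_ne_zero h0 (d.Nw_ne hy j)) hI2
      refine ⟨insert j Λ, by rw [Finset.range_add_one]; exact Finset.insert_subset_insert _ h1, ?_⟩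
      rwa [Finset.prod_insert fun h => by simpa using h1 h, ← mul_assoc]

/-- A dependence above `y` gives a square in `K0 (y)`. -/
theorem sq_of_dep [IsAlgClosed k] {r0 : ℕ} (hst : d.Stable r0) {l : ℕ} (hl : r0 ≤ l + 1) {y : T}
    (hy : y ∈ d.V (l + 1)) (j : ℕ)
    (hI : ∀ i, i < j → Indep (d.Ly (l + 1) y i) (d.fib (l + 1) y i) (dl d.a d.c))
    (h : ¬ Indep (d.Ly (l + 1) y j) (d.fib (l + 1) y j) (dl d.a d.c)) :
    ∃ Λ ⊆ Finset.range (j + 1), Λ.Nonempty ∧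
      SqIn (adjoin S.K0 {y}) (∏ i ∈ Λ, d.Nw (i + 1) y) := by
  obtain ⟨I, hI1, hne, hI2, hI3⟩ := exists_invariant_rel (MulAction.stabilizer (T ≃ₐ[S.K0] T) y)
    (d.Ly (l + 1) y j) _ _ (fun σ hσ => map_mem_adjoin (f7full_fib hσ)) (fun σ hσ => f7full_fib hσ)
    (fun σ _ => ⟨l + j + 1, fun v hv => d.pow_fix σ _ v
      (by rw [add_right_comm]; exact (d.mem_fib.1 hv).1)⟩)
    f7full_dl (fun σ _ α _ => d.aut_dl σ α) h
  rw [f7full_all hst hl hI1 hne hI3, ← one_mul (∏ _ ∈ _, _), sq_fib_iff hy j (f7full_mem hy j),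
    one_mul] at hI2
  obtain ⟨Λ, h1, h2⟩ := descent hst hl hy j hI (d.Nw_mem (mem_adjoin_simple_self _ y) _)
    (d.Nw_ne hy j) hI2
  refine ⟨insert j Λ, by rw [Finset.range_add_one]; exact Finset.insert_subset_insert _ h1,
    Finset.insert_nonempty _ _, ?_⟩
  rwa [Finset.prod_insert fun h => by simpa using h1 h]

/-- (Full). -/
theorem full [IsAlgClosed k] (hsd : d.LowerBd d.GoodSet) {r : ℕ} (hst : d.Stable (r + 1))
    (J : ℕ) : ∃ n0 : ℕ, ∀ l, n0 ≤ l → ∀ y ∈ d.V (l + 1), ∀ j, j < J →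
      Indep (d.Ly (l + 1) y j) (d.fib (l + 1) y j) (dl d.a d.c) := by
  classical
  obtain ⟨m0, hm⟩ := not_sq hsd (r + J)
  refine ⟨r + m0, fun l hl y hy j => ?_⟩
  obtain ⟨M, rfl⟩ : ∃ M, l = r + M := ⟨l - r, by omega⟩
  induction j using Nat.strong_induction_on with
  | _ j ih =>
  intro hj
  by_contra hc
  obtain ⟨Λ, h1, hne, h2⟩ := sq_of_dep hst (by omega) hy j (fun i hi => ih i hi (by omega)) hc
  rw [add_right_comm] at hy
  have hs := d.iter_mem_V hy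
  obtain ⟨s, hs'⟩ : ∃ s, s = (phi d.a d.c)^[M] y := ⟨_, rfl⟩
  rw [← hs'] at hs
  have h3 := hst.norm_sq le_rfl M (d.mem_fib.2 ⟨hy, hs'.symm⟩) (fun z => ∏ i ∈ Λ, d.Nw (i + 1) z)
    (fun σ z => by simp only [map_prod, d.aut_Nw]) h2
  have hsm : s ∈ adjoin S.K0 {s} := mem_adjoin_simple_self _ s
  have h4 := (SqIn.prod (s := Λ) fun _ _ => sqIn_sq (d.wedge_orb_mem hsm true M)).mul h3
  rw [Finset.prod_comm, ← Finset.prod_mul_distrib] at h4
  have h5 : ∀ i, wedge (orb d.a d.c true M) (s, 1) ^ 2 * ∏ z ∈ d.fib (r + 1) s M, d.Nw (i + 1) z =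
      wedge (orb d.a d.c true i) (s, 1) ^ 2 * ∏ z ∈ d.fib (r + 1) s i, d.Nw (M + 1) z := fun i => by
    rw [← d.prod_Nw hs, ← d.prod_Nw hs, show i + 1 + M = M + 1 + i by omega]
  simp only [h5] at h4
  rw [Finset.prod_mul_distrib, Finset.prod_pow] at h4
  have h6 := SqIn.of_mul_sq (prod_mem fun i _ => d.wedge_orb_mem hsm true i)
    (Finset.prod_ne_zero_iff.2 fun i _ => d.wedge_true_ne hs i) h4
  rw [← Finset.prod_biUnion fun i _ i' _ hii => Finset.disjoint_left.2 fun z hz hz' => hii (by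
    have := d.V_disjoint (d.mem_fib.1 hz).1 (d.mem_fib.1 hz').1
    omega)] at h6
  refine hm (M + 1) (by omega) _ ?_ (fun z hz => ?_) (h6.mono (adjoin_le_iff.2
    (Set.singleton_subset_iff.2 (d.mem_KV (Nat.le_add_right r J) hs))))
  · obtain ⟨i, hi⟩ := hne
    obtain ⟨z, hz⟩ := Finset.card_pos.1 ((d.card_fib hs i).symm ▸ Nat.two_pow_pos i)
    exact ⟨z, Finset.mem_biUnion.2 ⟨i, hi, hz⟩⟩
  · obtain ⟨i, hi, hz⟩ := Finset.mem_biUnion.1 hz
    have := Finset.mem_range.1 (h1 hi)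
    exact ⟨r + 1 + i, by omega, by omega, (d.mem_fib.1 hz).1⟩

/-- Every automorphism of the tree above `y` is induced by a field automorphism. -/
theorem realize {l : ℕ} {y : T} (hy : y ∈ d.V (l + 1)) (J : ℕ)
    (hI : ∀ j, j < J → Indep (d.Ly (l + 1) y j) (d.fib (l + 1) y j) (dl d.a d.c)) (t : T → T)
    (t0 : t y = y) (ht : ∀ j, j < J → ∀ z ∈ d.fib (l + 1) y (j + 1),
      t z ∈ d.V (l + 1 + (j + 1)) ∧ phi d.a d.c (t z) = t (phi d.a d.c z) ∧ t (-z) = -t z) :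
    ∃ h : T ≃ₐ[S.K0] T, ∀ z ∈ d.fib (l + 1) y J, h z = t z := by
  have := S.galois
  induction J with
  | zero => exact ⟨1, fun z hz => by
      rw [d.fib_zero hy, Finset.mem_singleton] at hz
      rw [hz, t0, AlgEquiv.one_apply]⟩
  | succ J ih =>
    obtain ⟨h, hh⟩ := ih (fun j hj => hI j (by omega)) fun j hj => ht j (by omega)
    obtain ⟨κ, k1, k2⟩ := Indep.exists_sign (L := d.Ly (l + 1) y J) d.two_ne (r := d.rt)
      (fun α hα => by rw [d.rt_sq]; exact (f7full_dl α hα).1)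
      (by simpa only [d.rt_sq] using hI J (Nat.lt_succ_self J))
      fun β => t (d.ch β) ≠ h (d.ch β)
    have e : l + 1 + (J + 1) = l + J + 2 := by omega
    have key : ∀ β ∈ d.fib (l + 1) y J, (h * κ) (d.ch β) = t (d.ch β) ∧
        t (-d.ch β) = -t (d.ch β) := fun β hβ => by
      obtain ⟨b1, b2⟩ := d.mem_fib.1 hβ
      obtain ⟨c1, c2⟩ := d.ch_mem b1
      obtain ⟨t1, t2, t3⟩ := ht J (Nat.lt_succ_self J) (d.ch β)
        (d.mem_fib.2 ⟨c1, by rw [Function.iterate_succ_apply, c2, b2]⟩)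
      refine ⟨?_, t3⟩
      have c3 : h (d.ch β) ∈ d.V (l + 1 + (J + 1)) := d.aut_mem_V h c1
      rw [e] at t1 c3
      have c4 := d.eq_or_neg c3 t1 (by rw [← d.aut_phi, t2, c2, hh β hβ])
      have c5 : κ (d.c * β - d.a) = d.c * β - d.a := k1 _ (sub_mem (mul_mem
        (K0_mem _ d.c_mem) (d.mem_Ly le_rfl hβ)) (K0_mem _ d.a_mem))
      rw [AlgEquiv.mul_apply]
      by_cases hP : t (d.ch β) = h (d.ch β)
      · rw [hP, ch, map_div₀, c5, (k2 β hβ).2 (not_not.2 hP)]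
      · rw [c4.resolve_left hP, ch, map_div₀, c5, (k2 β hβ).1 hP, neg_div, map_neg]
    refine ⟨h * κ, fun z hz => ?_⟩
    obtain ⟨z1, z2⟩ := d.mem_fib.1 hz
    rw [e] at z1
    obtain ⟨a1, a2⟩ := key (phi d.a d.c z)
      (d.mem_fib.2 ⟨by rw [add_right_comm]; exact (d.V_succ z1).2, z2⟩)
    rcases d.eq_ch z1 with h' | h'
    · rw [h', a1]
    · rw [h', map_neg, a1, a2]

end Dyn

end JR
end

-- merged part: Pool.Agent.Work.MP_969914_nt.F7Swap
section
/-! Pure swaps. -/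

set_option autoImplicit false

namespace JR

open IntermediateField

namespace Dyn
variable {p : ℕ} {k T : Type} [Field k] [Field T] [Algebra k T] {S : Std p k T} (d : Dyn S)

/-- On level `N` the automorphism `γ` is an involution which only moves points above `α`, a vertex
of level `N - (j + 1)`, and exchanges the children of `α`. -/
structure PSwap (N j : ℕ) (α : T) (γ : T ≃ₐ[S.K0] T) : Prop where
  fix : ∀ z ∈ d.V N, (phi d.a d.c)^[j + 1] z ≠ α → γ z = z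
  neg : γ (d.ch α) = -d.ch α
  inv : ∀ z ∈ d.V N, γ (γ z) = z

/-- The vertices of level `N - j` which contribute to the sign of `u`. -/
def Bad (N : ℕ) (u : T) (A0 : Finset T) : ℕ → T → Prop
  | 0, α => α ∈ A0
  | j + 1, α => ∃ γ, d.PSwap N j α γ ∧ γ u = -u

variable {d}

theorem f7swap_l (g : T ≃ₐ[S.K0] T) (z : T) : g (g⁻¹ z) = z := g.apply_symm_apply z

theorem f7swap_r (g : T ≃ₐ[S.K0] T) (z : T) : g⁻¹ (g z) = z := g.symm_apply_apply z

theorem f7swap_inv {g : T ≃ₐ[S.K0] T} {z z' : T} (h : g z = z') : g⁻¹ z' = z := by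
  rw [← h, f7swap_r]

theorem f7swap_fix {n : ℕ} {α : T} (hα : α ∈ d.V n) {σ : T ≃ₐ[S.K0] T}
    (h : σ (d.ch α) = -d.ch α) : σ α = α := by
  have e := d.aut_phi σ (d.ch α)
  rwa [h, d.phi_neg, (d.ch_mem hα).2] at e

theorem f7swap_ch {n j : ℕ} {z : T} (hz : z ∈ d.V (n + 1 + (j + 1))) :
    (phi d.a d.c)^[j] z = d.ch ((phi d.a d.c)^[j + 1] z) ∨
      (phi d.a d.c)^[j] z = -d.ch ((phi d.a d.c)^[j + 1] z) := by
  rw [Function.iterate_succ_apply']
  refine d.eq_ch (n := n) (d.iter_mem_V (n := n + 1) ?_)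
  rwa [show n + 1 + 1 + j = n + 1 + (j + 1) by omega]

theorem PSwap.conj {N j : ℕ} {α : T} {γ : T ≃ₐ[S.K0] T} (h : d.PSwap N j α γ)
    (g : T ≃ₐ[S.K0] T) : d.PSwap N j (g α) (g * γ * g⁻¹) := by
  refine ⟨fun z hz hne => ?_, ?_, fun z hz => ?_⟩
  · rw [AlgEquiv.mul_apply, AlgEquiv.mul_apply, h.fix _ (d.aut_mem_V _ hz), f7swap_l]
    intro e
    apply hne
    rw [← e, ← d.aut_iter, f7swap_l]
  · rw [AlgEquiv.mul_apply, AlgEquiv.mul_apply]
    have e : γ (g⁻¹ (d.ch (g α))) = -g⁻¹ (d.ch (g α)) := by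
      rcases d.aut_ch g⁻¹ (g α) with e | e
      · rw [e, f7swap_r, h.neg]
      · rw [e, f7swap_r, map_neg, h.neg]
    rw [e, map_neg, f7swap_l]
  · simp only [AlgEquiv.mul_apply]
    rw [f7swap_r, h.inv _ (d.aut_mem_V _ hz), f7swap_l]

theorem conj_neg {u : T} (hu : ∀ g : T ≃ₐ[S.K0] T, g u = u ∨ g u = -u) {γ : T ≃ₐ[S.K0] T}
    (h : γ u = -u) (g : T ≃ₐ[S.K0] T) : (g * γ * g⁻¹) u = -u := by
  rw [AlgEquiv.mul_apply, AlgEquiv.mul_apply]
  have e : γ (g⁻¹ u) = -g⁻¹ u := by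
    rcases hu g⁻¹ with e | e
    · rw [e, h]
    · rw [e, map_neg, h]
  rw [e, map_neg, f7swap_l]

theorem Bad.aut {N : ℕ} {u : T} {A0 : Finset T} (hu : ∀ g : T ≃ₐ[S.K0] T, g u = u ∨ g u = -u)
    (hA : ∀ g : T ≃ₐ[S.K0] T, ∀ z ∈ A0, g z ∈ A0) {j : ℕ} {α : T} (h : d.Bad N u A0 j α)
    (g : T ≃ₐ[S.K0] T) : d.Bad N u A0 j (g α) := by
  cases j with
  | zero => exact hA g α h
  | succ j =>
    obtain ⟨γ, h1, h2⟩ := h
    exact ⟨_, h1.conj g, conj_neg hu h2 g⟩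

/-- An automorphism which is `ρ` above one child of `α` and the identity above the other one. -/
theorem f7swap_half {l j : ℕ} {α : T} (hα : α ∈ d.V (l + 1))
    (hI : ∀ i, i < j + 1 → Indep (d.Ly (l + 1) α i) (d.fib (l + 1) α i) (dl d.a d.c))
    {ρ : T ≃ₐ[S.K0] T} (hρ : ρ (d.ch α) = d.ch α) :
    ∃ g : T ≃ₐ[S.K0] T, g α = α ∧ ∀ z ∈ d.V (l + 1 + (j + 1)),
      ((phi d.a d.c)^[j] z = d.ch α → g z = z) ∧ ((phi d.a d.c)^[j] z = -d.ch α → g z = ρ z) := by
  classical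
  have hc := d.ch_mem hα
  have ρα : ρ α = α := by
    have e := d.aut_phi ρ (d.ch α)
    rwa [hρ, hc.2] at e
  let t : T → T := fun z =>
    if ∃ i, z ∈ d.V (l + 1 + (i + 1)) ∧ (phi d.a d.c)^[i] z = -d.ch α then ρ z else z
  have t1 : ∀ i, ∀ z ∈ d.V (l + 1 + (i + 1)),
      t z = if (phi d.a d.c)^[i] z = -d.ch α then ρ z else z := by
    intro i z hz
    refine if_congr ⟨fun ⟨i', h1, h2⟩ => ?_, fun h => ⟨i, hz, h⟩⟩ rfl rfl
    have : i' = i := by
      have := d.V_disjoint h1 hz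
      omega
    rwa [this] at h2
  have t2 : ∀ z, ρ z = z → t z = z := fun z hz => by
    simp only [t]
    split_ifs
    · exact hz
    · rfl
  have t3 : ∀ z, t z = ρ z ∨ t z = z := fun z => by
    simp only [t]
    split_ifs
    · exact Or.inl rfl
    · exact Or.inr rfl
  obtain ⟨g, hg⟩ := realize hα (j + 1) hI t (t2 α ρα) (by
    intro i _ z hz
    obtain ⟨hz, e⟩ := d.mem_fib.1 hz
    refine ⟨?_, ?_, ?_⟩
    · rcases t3 z with h | h
      · rw [h]
        exact d.aut_mem_V ρ hz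
      · rwa [h]
    · cases i with
      | zero =>
        have e' : phi d.a d.c z = α := e
        rw [e', t2 α ρα]
        rcases t3 z with h | h
        · rw [h, ← d.aut_phi, e', ρα]
        · rw [h, e']
      | succ i =>
        have hz' : phi d.a d.c z ∈ d.V (l + 1 + (i + 1)) := (d.V_succ (n := l + 1 + i) hz).2
        rw [t1 _ z hz, t1 _ _ hz', ← Function.iterate_succ_apply]
        split_ifs
        · rw [d.aut_phi]
        · rfl
    · cases i with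
      | zero =>
        have h : ρ z = z := by
          rcases f7swap_ch hz with h | h
          · rw [e] at h
            have h' : z = d.ch α := h
            rw [h', hρ]
          · rw [e] at h
            have h' : z = -d.ch α := h
            rw [h', map_neg, hρ]
        rw [t2 z h, t2 (-z) (by rw [map_neg, h])]
      | succ i =>
        have hz' : -z ∈ d.V (l + 1 + (i + 1 + 1)) := d.neg_mem_V (n := l + 1 + (i + 1)) hz
        rw [t1 _ z hz, t1 _ _ hz', Function.iterate_succ_apply, Function.iterate_succ_apply,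
          d.phi_neg]
        split_ifs
        · rw [map_neg]
        · rfl)
  refine ⟨g, ?_, fun z hz => ⟨fun h => ?_, fun h => ?_⟩⟩
  · obtain ⟨z, hz, e⟩ := d.exists_above hα (j + 1)
    have e2 := d.aut_iter g (j + 1) z
    rw [hg z (d.mem_fib.2 ⟨hz, e⟩), e] at e2
    rw [e2]
    rcases t3 z with h | h
    · rw [h, ← d.aut_iter, e, ρα]
    · rw [h, e]
  · rw [hg z (d.mem_fib.2 ⟨hz, by rw [Function.iterate_succ_apply', h, hc.2]⟩), t1 _ z hz, h,
      if_neg (d.ch_ne_neg hα)]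
  · rw [hg z (d.mem_fib.2 ⟨hz, by rw [Function.iterate_succ_apply', h, d.phi_neg, hc.2]⟩),
      t1 _ z hz, if_pos h]

/-- All swap shaped maps above a vertex with full group are conjugate. -/
theorem swap_conj {l j N : ℕ} (hN : l + 1 + (j + 1) = N) {α : T} (hα : α ∈ d.V (l + 1))
    (hI : ∀ i, i < j + 1 → Indep (d.Ly (l + 1) α i) (d.fib (l + 1) α i) (dl d.a d.c))
    {γ σ : T ≃ₐ[S.K0] T} (hγ : d.PSwap N j α γ) (h1 : σ (d.ch α) = -d.ch α)
    (h2 : ∀ z ∈ d.V N, σ (σ z) = z) :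
    ∃ g : T ≃ₐ[S.K0] T, ∀ z ∈ d.V N, ((phi d.a d.c)^[j + 1] z = α → (g * γ * g⁻¹) z = σ z) ∧
      ((phi d.a d.c)^[j + 1] z ≠ α → (g * γ * g⁻¹) z = z) := by
  subst hN
  have γ1 : γ (-d.ch α) = d.ch α := by rw [map_neg, hγ.neg, neg_neg]
  have σ1 : σ (-d.ch α) = d.ch α := by rw [map_neg, h1, neg_neg]
  obtain ⟨g, g0, hg⟩ := f7swap_half hα hI (ρ := σ * γ⁻¹)
    (by rw [AlgEquiv.mul_apply, f7swap_inv γ1, σ1])
  refine ⟨g, fun z hz => ⟨fun e => ?_, fun e => (hγ.conj g).fix z hz (by rwa [g0])⟩⟩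
  rw [AlgEquiv.mul_apply, AlgEquiv.mul_apply]
  rcases f7swap_ch hz with h | h
  · rw [e] at h
    rw [f7swap_inv ((hg z hz).1 h), (hg _ (d.aut_mem_V γ hz)).2 (by rw [← d.aut_iter, h, hγ.neg]),
      AlgEquiv.mul_apply, f7swap_r]
  · rw [e] at h
    have hz' := d.aut_mem_V σ hz
    have a : (phi d.a d.c)^[j] (σ z) = d.ch α := by rw [← d.aut_iter, h, σ1]
    have b := (hg _ (d.aut_mem_V γ hz')).2 (by rw [← d.aut_iter, a, hγ.neg])
    rw [AlgEquiv.mul_apply, f7swap_r, h2 z hz] at b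
    rw [f7swap_inv b, hγ.inv _ hz', (hg _ hz').1 a]

theorem one_swap {N : ℕ} {u : T} (hu : u ∈ d.KV N) (h0 : u ≠ 0) {τ : T ≃ₐ[S.K0] T}
    (h1 : τ u = -u) (h2 : ∀ z ∈ d.V N, τ (τ z) = z) (Q : ℕ → T → Prop)
    (hQ : ∀ j α j' α', Q j α → Q j' α' → j = j' ∧ α = α')
    (h3 : ∀ z ∈ d.V N, τ z ≠ z → ∃ j, Q j ((phi d.a d.c)^[j + 1] z) ∧
      τ (d.ch ((phi d.a d.c)^[j + 1] z)) = -d.ch ((phi d.a d.c)^[j + 1] z)) :
    ∃ j α, Q j α ∧ d.Bad N u ∅ (j + 1) α := by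
  by_cases h : ∀ z ∈ d.V N, τ z = z
  · have e : τ u = u := fix_adjoin (σ := τ) (τ := 1) h u hu
    rw [h1] at e
    exact absurd e.symm (rdyn_neg d.two_ne h0)
  · push Not at h
    obtain ⟨z, hz, hne⟩ := h
    obtain ⟨j, q1, q2⟩ := h3 z hz hne
    refine ⟨j, _, q1, τ, ⟨fun y hy hy' => ?_, q2, h2⟩, h1⟩
    by_contra hne'
    obtain ⟨j', q3, -⟩ := h3 y hy hne'
    obtain ⟨rfl, e⟩ := hQ _ _ _ _ q1 q3
    exact hy' e.symm

/-- The combinatorial core.  `E j α` (resp. `E' j α`) says that there is an event of the first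
(second) kind at the vertex `α` of level `N - (j + 1)`. -/
theorem swap_core {N : ℕ} {u : T} (hu : u ∈ d.KV N) (h0 : u ≠ 0)
    (hu' : ∀ g : T ≃ₐ[S.K0] T, g u = u ∨ g u = -u) {σ : T ≃ₐ[S.K0] T}
    (h2 : ∀ z ∈ d.V N, σ (σ z) = z) (E E' : ℕ → T → Prop)
    (hE : ∀ j α j' α', E j α → E j' α' → j = j' ∧ α = α')
    (hE' : ∀ j α j' α', E' j α → E' j' α' → j = j' ∧ α = α')
    (h3 : ∀ z ∈ d.V N, σ z ≠ z → ∃ i j, i + 1 + (j + 1) = N ∧
      (E j ((phi d.a d.c)^[j + 1] z) ∨ E' j ((phi d.a d.c)^[j + 1] z)) ∧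
      σ (d.ch ((phi d.a d.c)^[j + 1] z)) = -d.ch ((phi d.a d.c)^[j + 1] z))
    (h4 : (σ u = -u ∧ ∀ j α, ¬ E j α) ∨ (σ u = u ∧ ∃ l j α, l + 1 + (j + 1) = N ∧
      α ∈ d.V (l + 1) ∧ E j α ∧ σ (d.ch α) = -d.ch α ∧ d.Bad N u ∅ (j + 1) α ∧
      ∀ i, i < j + 1 → Indep (d.Ly (l + 1) α i) (d.fib (l + 1) α i) (dl d.a d.c))) :
    ∃ j α, E' j α ∧ d.Bad N u ∅ (j + 1) α := by
  rcases h4 with ⟨h1, hn⟩ | ⟨h1, l, j, α, hN, hα, hEα, hσ, ⟨γ, hγ, hγu⟩, hI⟩
  · refine one_swap hu h0 h1 h2 E' hE' fun z hz hne => ?_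
    obtain ⟨i, j, -, e, e'⟩ := h3 z hz hne
    exact ⟨j, e.resolve_left (hn _ _), e'⟩
  obtain ⟨g, hg⟩ := swap_conj hN hα hI hγ hσ h2
  have gu := conj_neg hu' hγu g
  generalize g * γ * g⁻¹ = γ' at hg gu
  have σα := f7swap_fix hα hσ
  have a1 : ∀ z ∈ d.V N, (phi d.a d.c)^[j + 1] z = α → (γ'⁻¹ * σ) z = z := fun z hz e => by
    rw [AlgEquiv.mul_apply]
    exact f7swap_inv ((hg z hz).1 e)
  have a0 : ∀ z, (phi d.a d.c)^[j + 1] z ≠ α → (phi d.a d.c)^[j + 1] (σ z) ≠ α := fun z e e' => by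
    rw [← d.aut_iter] at e'
    exact e (σ.injective (e'.trans σα.symm))
  have a2 : ∀ z ∈ d.V N, (phi d.a d.c)^[j + 1] z ≠ α → (γ'⁻¹ * σ) z = σ z := fun z hz e => by
    rw [AlgEquiv.mul_apply]
    exact f7swap_inv ((hg _ (d.aut_mem_V σ hz)).2 (a0 z e))
  refine one_swap hu h0 (τ := γ'⁻¹ * σ) ?_ (fun z hz => ?_) E' hE' fun z hz hne => ?_
  · rw [AlgEquiv.mul_apply, h1]
    exact f7swap_inv (by rw [map_neg, gu, neg_neg])
  · by_cases e : (phi d.a d.c)^[j + 1] z = α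
    · rw [a1 z hz e, a1 z hz e]
    · rw [a2 z hz e, a2 _ (d.aut_mem_V σ hz) (a0 z e), h2 z hz]
  · have e : (phi d.a d.c)^[j + 1] z ≠ α := fun e => hne (a1 z hz e)
    have e1 := a2 z hz e
    obtain ⟨i', j', hN', q1, q2⟩ := h3 z hz (by rwa [e1] at hne)
    refine ⟨j', q1.resolve_left fun q => ?_, ?_⟩
    · obtain ⟨rfl, q'⟩ := hE _ _ _ _ hEα q
      exact e q'.symm
    · have b : (γ'⁻¹ * σ) ((phi d.a d.c)^[j'] z) = σ ((phi d.a d.c)^[j'] z) := by
        rw [d.aut_iter, d.aut_iter, e1]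
      subst hN'
      rcases f7swap_ch hz with c | c
      · rw [c] at b
        rw [b, q2]
      · rw [c, map_neg, map_neg, neg_inj] at b
        rw [b, q2]

/-- A dependence on level `N` gives an invariant relation. -/
theorem exists_rel {N : ℕ} (h : ¬ Indep (d.KV (N + 1)) (d.Vf (N + 1)) (dl d.a d.c)) :
    ∃ (A0 : Finset T) (u : T), A0.Nonempty ∧ (∀ z ∈ A0, z ∈ d.V (N + 1)) ∧
      (∀ g : T ≃ₐ[S.K0] T, ∀ z ∈ A0, g z ∈ A0) ∧ u ∈ d.KV (N + 1) ∧ u ≠ 0 ∧
      u ^ 2 = ∏ z ∈ A0, dl d.a d.c z ∧ u ^ 2 ∈ S.K0 ∧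
      ∀ g : T ≃ₐ[S.K0] T, g u = u ∨ g u = -u := by
  obtain ⟨I, hI, hne, ⟨u, hu, e⟩, hinv⟩ := exists_invariant_rel ⊤ (d.KV (N + 1)) (d.Vf (N + 1))
    (dl d.a d.c) (fun σ _ => map_mem_adjoin fun z hz => d.aut_mem_V σ hz)
    (fun σ _ v hv => d.mem_Vf.2 (d.aut_mem_V σ (d.mem_Vf.1 hv)))
    (fun σ _ => ⟨N + 1, fun v hv => d.pow_fix σ N v (d.mem_Vf.1 hv)⟩)
    (fun α hα => ⟨d.dl_mem (d.mem_KV le_rfl (d.mem_Vf.1 hα)), d.dl_ne (d.mem_Vf.1 hα)⟩)
    (fun σ _ α _ => d.aut_dl σ α) h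
  have hg : ∀ g : T ≃ₐ[S.K0] T, g (u ^ 2) = u ^ 2 := by
    intro g
    rw [e, map_prod]
    exact Finset.prod_nbij' (fun z => g z) (fun z => g⁻¹ z) (fun z hz => hinv g trivial z hz)
      (fun z hz => hinv g⁻¹ trivial z hz) (fun z _ => f7swap_r g z) (fun z _ => f7swap_l g z)
      fun z _ => d.aut_dl g z
  refine ⟨I, u, hne, fun z hz => d.mem_Vf.1 (hI hz), fun g => hinv g trivial, hu, ?_, e,
    S.mem_of_fixed S.K0.toSubfield (fun _ hz => hz) fun g _ => hg g, fun g => ?_⟩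
  · rintro rfl
    refine Finset.prod_ne_zero_iff.2 (fun z hz => d.dl_ne (d.mem_Vf.1 (hI hz))) ?_
    rw [← e]
    ring
  · have := hg g
    rw [map_pow] at this
    exact sq_eq_sq_iff_eq_or_eq_neg.1 this

/-- An invariant set of vertices is a union of fibres. -/
theorem Stable.saturated {r0 : ℕ} (h : d.Stable r0) {l : ℕ} (hl : r0 ≤ l + 1) {i : ℕ}
    {P : T → Prop} (hP : ∀ (g : T ≃ₐ[S.K0] T) (z : T), P z → P (g z)) {z z' : T}
    (hz : z ∈ d.V (l + 1 + i)) (hz' : z' ∈ d.V (l + 1 + i))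
    (e : (phi d.a d.c)^[i] z = (phi d.a d.c)^[i] z') (h' : P z) : P z' := by
  obtain ⟨g, rfl⟩ := h.trans hl i (d.mem_fib.2 ⟨hz, rfl⟩) (d.mem_fib.2 ⟨hz', e.symm⟩)
  exact hP g z h'

/-- The order of the invariant relation. -/
theorem v_rel {l i : ℕ} {A A0 : Finset T} (hA1 : ∀ s ∈ A, s ∈ d.V (l + 1))
    (hA : ∀ z, z ∈ A0 ↔ z ∈ d.V (l + 1 + i) ∧ (phi d.a d.c)^[i] z ∈ A) {u : T}
    (hu : u ^ 2 = ∏ z ∈ A0, dl d.a d.c z) (w : S.W) :
    S.v w u ^ 2 * S.v w (∏ s ∈ A, wedge (orb d.a d.c true i) (s, 1)) ^ 2 =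
      d.con false (i + 1) A w * d.con true (i + 1) A w := by
  rw [← v_prod_Nw, ← map_pow, hu, d.prod_fibres _ hA, map_prod, map_prod, map_prod,
    ← Finset.prod_pow, ← Finset.prod_mul_distrib]
  refine Finset.prod_congr rfl fun s hs => ?_
  rw [add_comm i 1, d.prod_Nw (hA1 s hs) i 1, map_mul, map_pow, map_prod, map_prod, mul_comm]
  congr 1
  exact Finset.prod_congr rfl fun z _ => by rw [d.dl_eq, Valuation.map_neg]

end Dyn

end JR
end

-- merged part: Pool.Agent.Work.MP_969914_nt.S6Sieg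
section
/-! The lemma of Siegel. -/

set_option autoImplicit false

namespace JR

open Polynomial IntermediateField
open scoped NNReal

namespace Std
variable {p : ℕ} {k T : Type} [Field k] [Field T] [Algebra k T] (S : Std p k T)

/-- A polynomial in `t` of degree at most `μ`. -/
noncomputable def s6sieg_F (μ : ℕ) : (Fin (μ + 1) → k) →ₗ[k] T :=
  Fintype.linearCombination k fun e : Fin (μ + 1) => S.t ^ (e : ℕ)

theorem s6sieg_F_apply (μ : ℕ) (x : Fin (μ + 1) → k) :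
    S.s6sieg_F μ x = ∑ e, algebraMap k T (x e) * S.t ^ (e : ℕ) := by
  simp [s6sieg_F, Fintype.linearCombination_apply, Algebra.smul_def]

theorem s6sieg_mem (μ : ℕ) (x : Fin (μ + 1) → k) : S.s6sieg_F μ x ∈ S.K0 := by
  rw [s6sieg_F_apply]
  exact sum_mem fun e _ => mul_mem (S.K0.algebraMap_mem _) (pow_mem S.t_mem _)

theorem s6sieg_fin (μ : ℕ) (x : Fin (μ + 1) → k) {w : S.W} (hw : w ∈ S.fin) :
    S.v w (S.s6sieg_F μ x) ≤ 1 := by
  rw [s6sieg_F_apply]
  refine (S.v w).map_sum_le fun e _ => ?_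
  rw [map_mul, map_pow]
  exact mul_le_one' (S.v_k w _) (pow_le_one' (S.v_t_fin w hw) _)

theorem s6sieg_inf (μ : ℕ) (x : Fin (μ + 1) → k) {w : S.W} (hw : w ∉ S.fin) :
    S.v w (S.s6sieg_F μ x) ≤ S.q ^ μ := by
  rw [s6sieg_F_apply]
  refine (S.v w).map_sum_le fun e _ => ?_
  rw [map_mul, map_pow]
  exact (mul_le_of_le_one_left' (S.v_k w _)).trans ((pow_le_pow_left' (S.v_t_inf w hw) _).trans
    (pow_le_pow_right' S.one_lt_q.le (Nat.lt_succ_iff.1 e.2)))

theorem s6sieg_inj (μ : ℕ) : Function.Injective (S.s6sieg_F μ) := by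
  have h : LinearIndependent k fun e : ℕ => S.t ^ e := by
    have h1 := (Polynomial.basisMonomials k).linearIndependent.map'
      (aeval S.t : k[X] →ₐ[k] T).toLinearMap
      (LinearMap.ker_eq_bot.2 (transcendental_iff_injective.1 S.t_trans))
    simpa [Function.comp_def] using h1
  exact linearIndependent_iff_injective_fintypeLinearCombination.1 (h.comp _ Fin.val_injective)

theorem siegel {ι J : Type} [Fintype ι] [Fintype J] (μ μ' : ℕ) (L : J → IntermediateField S.K0 T)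
    (hL : ∀ j, FiniteDimensional S.K0 (L j)) (ν : J → T) (hν : ∀ j, ν j ≠ 0) (A : J → ι → T)
    (hA : ∀ j i, A j i ∈ L j) (h1 : ∀ j i, ∀ w ∈ S.fin, S.v w (ν j * A j i) ≤ 1)
    (h2 : ∀ j i, ∀ w ∉ S.fin, S.v w (ν j * A j i) ≤ S.q ^ μ')
    (hc : ∑ j, S.n0 * Module.finrank S.K0 (L j) * (μ + μ' + 1) < Fintype.card ι * (μ + 1)) :
    ∃ f : ι → S.K0, f ≠ 0 ∧ (∀ i, ∀ w ∈ S.fin, S.v w (f i) ≤ 1) ∧
      (∀ i, ∀ w ∉ S.fin, S.v w (f i) ≤ S.q ^ μ) ∧ ∀ j, ∑ i, (f i : T) * A j i = 0 := by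
  let lam : J → (ι → Fin (μ + 1) → k) →ₗ[k] T := fun j =>
    ∑ i, (LinearMap.mulRight k (A j i)).comp ((S.s6sieg_F μ).comp (LinearMap.proj i))
  have hlam : ∀ j x, lam j x = ∑ i, S.s6sieg_F μ (x i) * A j i := fun j x => by
    simp [lam, LinearMap.sum_apply]
  have hd : ∀ j, Module.finrank k (LinearMap.range (lam j)) ≤
      S.n0 * Module.finrank S.K0 (L j) * (μ + μ' + 1) := fun j => by
    let b := Module.finBasis k (LinearMap.range (lam j))
    refine S.dim_le (L j) (hL j) (ν j) (hν j) (μ + μ') _ (fun a => (b a : T))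
      (b.linearIndependent.map' (Submodule.subtype _) (Submodule.ker_subtype _))
      (fun a => ?_) (fun a w hw => ?_) fun a w hw => ?_
    · obtain ⟨x, hx⟩ := (b a).2
      rw [← hx, hlam]
      exact sum_mem fun i _ => mul_mem ((L j).algebraMap_mem ⟨_, S.s6sieg_mem μ (x i)⟩) (hA j i)
    · obtain ⟨x, hx⟩ := (b a).2
      rw [← hx, hlam, Finset.mul_sum]
      refine (S.v w).map_sum_le fun i _ => ?_
      rw [mul_left_comm, map_mul]
      exact mul_le_one' (S.s6sieg_fin μ _ hw) (h1 j i w hw)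
    · obtain ⟨x, hx⟩ := (b a).2
      rw [← hx, hlam, Finset.mul_sum]
      refine (S.v w).map_sum_le fun i _ => ?_
      rw [mul_left_comm, map_mul, pow_add]
      exact mul_le_mul' (S.s6sieg_inf μ _ hw) (h2 j i w hw)
  have hk := LinearMap.ker_ne_bot_of_finrank_lt
    (f := LinearMap.pi fun j => (lam j).rangeRestrict) (by
      rw [Module.finrank_pi_fintype, Module.finrank_pi_fintype]
      refine (Finset.sum_le_sum fun j _ => hd j).trans_lt (hc.trans_eq ?_)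
      simp)
  obtain ⟨x, hx, hx0⟩ := Submodule.exists_mem_ne_zero_of_ne_bot hk
  refine ⟨fun i => ⟨_, S.s6sieg_mem μ (x i)⟩, fun e => hx0 (funext fun i => S.s6sieg_inj μ ?_),
    fun i w hw => S.s6sieg_fin μ _ hw, fun i w hw => S.s6sieg_inf μ _ hw, fun j => ?_⟩
  · rw [Pi.zero_apply, map_zero]
    exact congrArg Subtype.val (congrFun e i)
  · rw [← hlam]
    exact congrArg Subtype.val (congrFun (LinearMap.mem_ker.1 hx) j)

end Std

end JR
end
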