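import Pool.Agent.Work.MP_969914_nt.RNs
import Pool.Agent.Work.MP_969914_nt.RHat

/-! The interface of the ultrapower of the standard places at the scale `2 ^ m n`. -/

set_option autoImplicit false

namespace JR

open scoped NNReal ENNReal
open Filter Topology

structure UP {p : ℕ} {k T : Type} [Field k] [Field T] [Algebra k T] (S : Std p k T) (m : ℕ → ℕ)
    {K Γ : Type} [Field K] [LinearOrderedCommGroupWithZero Γ] (N : NS p K Γ) where
  U : Ultrafilter ℕ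
  le : (U : Filter ℕ) ≤ atTop
  hm : Tendsto m atTop atTop
  ι : K →+* Germ (U : Filter ℕ) T
  pl : N.W → ℕ → S.W
  surj : ∀ f : ℕ → T,
    Tendsto (fun n => S.toPF.mass {w | f n ∉ S.R w} / 2 ^ m n) U (𝓝 0) → ∃ α, ι α = f
  D : ∀ (α : K) (f : ℕ → T), ι α = f → ∀ r, ι (N.H.D r α) = (fun n => S.H.D r (f n) : ℕ → T)
  ht : ∀ (α : K) (f : ℕ → T), ι α = f →
    Tendsto (fun n => S.toPF.ht (f n) / 2 ^ m n) U (𝓝 (N.toPF.ht α))
  mass : ∀ E : ℕ → Set S.W, Tendsto (fun n => S.toPF.mass (E n) / 2 ^ m n) U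
    (𝓝 (N.toPF.mass {w | ∀ᶠ n in U, pl w n ∈ E n}))
  good : ∀ w ∈ N.good, ∀ᶠ n in U, pl w n ∈ S.good
  v_lt : ∀ (α : K) (f : ℕ → T), ι α = f → ∀ w,
    N.v w α < 1 ↔ ∀ᶠ n in U, S.v (pl w n) (f n) < 1
  v_le : ∀ (α : K) (f : ℕ → T), ι α = f → ∀ w,
    N.v w α ≤ 1 ↔ ∀ᶠ n in U, S.v (pl w n) (f n) ≤ 1
  v_eq : ∀ (α : K) (f : ℕ → T), ι α = f → ∀ w,
    N.v w α = N.q⁻¹ ↔ ∀ᶠ n in U, S.v (pl w n) (f n) = S.q⁻¹

namespace UP
variable {p : ℕ} {k T : Type} [Field k] [Field T] [Algebra k T] {S : Std p k T} {m : ℕ → ℕ}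
  {K Γ : Type} [Field K] [LinearOrderedCommGroupWithZero Γ] {N : NS p K Γ} (u : UP S m N)

/-- The sequence `f` represents `α`. -/
def Rep (α : K) (f : ℕ → T) : Prop := u.ι α = (f : Germ (u.U : Filter ℕ) T)

theorem exists_rep (α : K) : ∃ f, u.Rep α f := by
  obtain ⟨f, hf⟩ := Quot.exists_rep (u.ι α)
  exact ⟨f, hf.symm⟩

variable {u} {α β : K} {f g : ℕ → T}

theorem Rep.eq_iff (hf : u.Rep α f) (hg : u.Rep β g) : α = β ↔ ∀ᶠ n in u.U, f n = g n := by
  rw [← u.ι.injective.eq_iff, hf, hg, Germ.coe_eq]; rfl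

theorem Rep.congr (hf : u.Rep α f) (e : ∀ᶠ n in u.U, f n = g n) : u.Rep α g :=
  hf.trans (Germ.coe_eq.2 e)

theorem rep_zero : u.Rep 0 fun _ => 0 := map_zero u.ι

theorem rep_one : u.Rep 1 fun _ => 1 := map_one u.ι

theorem Rep.add (hf : u.Rep α f) (hg : u.Rep β g) : u.Rep (α + β) fun n => f n + g n := by
  unfold Rep at *; rw [map_add, hf, hg]; rfl

theorem Rep.mul (hf : u.Rep α f) (hg : u.Rep β g) : u.Rep (α * β) fun n => f n * g n := by
  unfold Rep at *; rw [map_mul, hf, hg]; rfl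

theorem Rep.neg (hf : u.Rep α f) : u.Rep (-α) fun n => -f n := by
  unfold Rep at *; rw [map_neg, hf]; rfl

theorem Rep.sub (hf : u.Rep α f) (hg : u.Rep β g) : u.Rep (α - β) fun n => f n - g n := by
  unfold Rep at *; rw [map_sub, hf, hg]; rfl

theorem Rep.inv (hf : u.Rep α f) : u.Rep α⁻¹ fun n => (f n)⁻¹ := by
  unfold Rep at *; rw [map_inv₀, hf]; rfl

theorem Rep.div (hf : u.Rep α f) (hg : u.Rep β g) : u.Rep (α / β) fun n => f n / g n := by
  simpa only [div_eq_mul_inv] using hf.mul hg.inv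

theorem Rep.pow (hf : u.Rep α f) (e : ℕ) : u.Rep (α ^ e) fun n => f n ^ e := by
  induction e with
  | zero => simpa only [pow_zero] using rep_one
  | succ e ih => simpa only [pow_succ] using ih.mul hf

theorem Rep.sum {ι : Type} (s : Finset ι) {a : ι → K} {F : ι → ℕ → T}
    (h : ∀ i ∈ s, u.Rep (a i) (F i)) : u.Rep (∑ i ∈ s, a i) fun n => ∑ i ∈ s, F i n := by
  classical
  induction s using Finset.induction_on with
  | empty => simpa using rep_zero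
  | insert i s hi ih =>
    simp only [Finset.sum_insert hi]
    exact (h i (by simp)).add (ih fun j hj => h j (by simp [hj]))

theorem Rep.D (hf : u.Rep α f) (r : ℕ) : u.Rep (N.H.D r α) fun n => S.H.D r (f n) := u.D α f hf r

theorem Rep.eq_zero_iff (hf : u.Rep α f) : α = 0 ↔ ∀ᶠ n in u.U, f n = 0 := hf.eq_iff rep_zero

theorem Rep.ne_zero (hf : u.Rep α f) (h : ∀ᶠ n in u.U, f n ≠ 0) : α ≠ 0 := fun e =>
  ((hf.eq_zero_iff.1 e).and h).exists.elim fun _ h => h.2 h.1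

theorem Rep.phi {a c : K} {fa fc : ℕ → T} (ha : u.Rep a fa) (hc : u.Rep c fc) (hf : u.Rep α f) :
    u.Rep (phi a c α) fun n => phi (fa n) (fc n) (f n) :=
  ((ha.mul (hf.pow 2)).add rep_one).div ((hc.mul (hf.pow 2)).add rep_one)

variable (u)

theorem tendsto_m : Tendsto m u.U atTop := u.hm.mono_left u.le

/-- Quantities of size `o (2 ^ m n)`. -/
theorem tendsto_zero {x : ℕ → ℝ≥0∞}
    (h : ∀ ε : ℝ≥0, 0 < ε → ∀ᶠ n in u.U, x n ≤ ε * 2 ^ m n) :
    Tendsto (fun n => x n / 2 ^ m n) u.U (𝓝 0) := by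
  refine ENNReal.tendsto_nhds_zero.2 fun ε hε => ?_
  rcases eq_or_ne ε ⊤ with rfl | ht
  · exact Eventually.of_forall fun _ => le_top
  · lift ε to ℝ≥0 using ht
    exact (h ε (ENNReal.coe_pos.1 hε)).mono fun n hn => ENNReal.div_le_of_le_mul hn

theorem tendsto_zero_of_le {x : ℕ → ℝ≥0∞} {C : ℝ≥0∞} (hC : C ≠ ⊤) (h : ∀ᶠ n in u.U, x n ≤ C) :
    Tendsto (fun n => x n / 2 ^ m n) u.U (𝓝 0) := by
  lift C to ℝ≥0 using hC
  refine u.tendsto_zero fun ε hε => ?_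
  obtain ⟨M, hM⟩ := exists_nat_ge (C / ε)
  filter_upwards [h, u.tendsto_m.eventually_ge_atTop M] with n h1 h2
  refine h1.trans ?_
  have h3 : (M : ℝ≥0) ≤ 2 ^ m n := by
    exact_mod_cast (h2.trans (Nat.lt_two_pow_self (n := m n)).le)
  have h4 : C ≤ ε * 2 ^ m n := by
    rw [div_le_iff₀ hε] at hM
    exact hM.trans (by rw [mul_comm]; gcongr)
  exact_mod_cast h4

theorem exists_of_K0 {f : ℕ → T} (h : ∀ n, f n ∈ S.K0) : ∃ α, u.Rep α f :=
  u.surj f (u.tendsto_zero_of_le S.mass_bad.ne (Eventually.of_forall fun n =>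
    S.toPF.mass_mono fun w hw hg => hw (S.K0_le w hg _ (h n))))

variable {u} in
theorem Rep.mem_k0 (hf : u.Rep α f)
    (h : Tendsto (fun n => S.toPF.ht (f n) / 2 ^ m n) u.U (𝓝 0)) : α ∈ N.toPF.k0 :=
  tendsto_nhds_unique (u.ht α f hf) h

theorem exists_cst : ∃ φ : S.K0 →+* N.toPF.k0, ∀ a : S.K0, u.Rep (φ a) fun _ => a := by
  choose α hα using fun a : S.K0 => u.exists_of_K0 (f := fun _ => (a : T)) fun _ => a.2
  have hk : ∀ a, α a ∈ N.toPF.k0 := fun a =>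
    (hα a).mem_k0 (u.tendsto_zero_of_le (S.ht_lt a).ne (Eventually.of_forall fun _ => le_rfl))
  refine ⟨⟨⟨⟨fun a => ⟨α a, hk a⟩, ?_⟩, fun a b => ?_⟩, ?_, fun a b => ?_⟩, hα⟩
  · exact Subtype.ext (((hα 1).eq_iff rep_one).2 (Eventually.of_forall fun _ => rfl))
  · exact Subtype.ext (((hα (a * b)).eq_iff ((hα a).mul (hα b))).2
      (Eventually.of_forall fun _ => rfl))
  · exact Subtype.ext (((hα 0).eq_iff rep_zero).2 (Eventually.of_forall fun _ => rfl))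
  · exact Subtype.ext (((hα (a + b)).eq_iff ((hα a).add (hα b))).2
      (Eventually.of_forall fun _ => rfl))

/-- The constant sequences. -/
noncomputable def cst : S.K0 →+* N.toPF.k0 := Classical.choose u.exists_cst

theorem rep_cst (a : S.K0) : u.Rep (u.cst a) fun _ => a := Classical.choose_spec u.exists_cst a

theorem cst_D (a : S.K0) (r : ℕ) :
    N.H0.D r (u.cst a) = u.cst ⟨S.H.D r a, S.D_mem a a.2 r⟩ :=
  Subtype.ext ((N.compat r (u.cst a)).symm.trans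
    ((((u.rep_cst a).D r).eq_iff (u.rep_cst _)).2 (Eventually.of_forall fun _ => rfl)))

/-- An upper bound for internal masses. -/
theorem mass_le {E : ℕ → Set S.W} {x : ℝ≥0∞}
    (h : ∀ᶠ n in u.U, S.toPF.mass (E n) ≤ x * 2 ^ m n) :
    N.toPF.mass {w | ∀ᶠ n in u.U, u.pl w n ∈ E n} ≤ x :=
  le_of_tendsto (u.mass E) (h.mono fun _ hn => ENNReal.div_le_of_le_mul hn)

/-! ### Orbits -/

theorem exists_seq (a c : S.K0) (b : Bool) :
    ∃ z : ℤ → K, ∀ i, u.Rep (z i) fun n => vv (a : T) c b ((m n : ℤ) + i).toNat := by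
  choose z hz using fun i : ℤ => u.exists_of_K0
    (f := fun n => vv (a : T) c b ((m n : ℤ) + i).toNat)
    fun _ => div_mem (S.rhat_mem a.2 c.2 b _).1 (S.rhat_mem a.2 c.2 b _).2
  exact ⟨z, hz⟩

end UP

end JR
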