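import Pool.Agent.Work.MP_969914_nt.RPf
import Pool.Agent.Work.MP_969914_nt.RHd

/-! The ultrapower of a product formula structure. -/

set_option autoImplicit false

namespace JR

open scoped NNReal ENNReal
open Filter Topology

variable (U : Ultrafilter ℕ)

noncomputable instance germLOG : LinearOrderedCommGroupWithZero (Germ (U : Filter ℕ) ℝ≥0) where
  __ := (Germ.instSemifield : Semifield (Germ (U : Filter ℕ) ℝ≥0))
  __ := (Germ.instLinearOrder : LinearOrder (Germ (U : Filter ℕ) ℝ≥0))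
  __ := (Germ.instOrderBot : OrderBot (Germ (U : Filter ℕ) ℝ≥0))
  mul_lt_mul_of_pos_left := fun _ ha _ _ h => mul_lt_mul_of_pos_left h ha
  isBot_zero := fun x => Germ.inductionOn x fun _ =>
    Germ.coe_le.2 (Eventually.of_forall fun _ => zero_le)

/-- Limit along the ultrafilter. -/
noncomputable def ul (x : ℕ → ℝ≥0∞) : ℝ≥0∞ := (U.map x).lim

theorem tendsto_ul (x : ℕ → ℝ≥0∞) : Tendsto x U (𝓝 (ul U x)) := (U.map x).le_nhds_lim

variable {U}

theorem ul_mono {x y : ℕ → ℝ≥0∞} (h : ∀ᶠ n in U, x n ≤ y n) : ul U x ≤ ul U y :=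
  le_of_tendsto_of_tendsto (tendsto_ul U x) (tendsto_ul U y) h

theorem ul_eq {x : ℕ → ℝ≥0∞} {a : ℝ≥0∞} (h : Tendsto x U (𝓝 a)) : ul U x = a :=
  tendsto_nhds_unique (tendsto_ul U x) h

theorem ul_add (x y : ℕ → ℝ≥0∞) : ul U (fun n => x n + y n) = ul U x + ul U y :=
  ul_eq ((tendsto_ul U x).add (tendsto_ul U y))

theorem ul_nat_mul (c : ℕ) (x : ℕ → ℝ≥0∞) : ul U (fun n => c * x n) = c * ul U x :=
  ul_eq (ENNReal.Tendsto.const_mul (tendsto_ul U x) (Or.inr (ENNReal.natCast_ne_top c)))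

theorem transfer {W : Type} {P : ℕ → W → Prop} (h : ∀ w : ℕ → W, ∀ᶠ n in U, P n (w n)) :
    ∀ᶠ n in U, ∀ w, P n w := by
  classical
  by_contra hc
  have h1 : ∀ᶠ n in U, ∃ w, ¬ P n w :=
    (Ultrafilter.eventually_not.2 hc).mono fun n hn => not_forall.1 hn
  obtain ⟨_, w0, -⟩ := h1.exists
  have h2 := h fun n => if hn : ∃ w, ¬ P n w then hn.choose else w0
  obtain ⟨n, hn, hn'⟩ := (h1.and h2).exists
  rw [dif_pos hn] at hn'
  exact hn.choose_spec hn'

theorem coe_max (f g : ℕ → ℝ≥0) :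
    max (f : Germ (U : Filter ℕ) ℝ≥0) g = (fun n => max (f n) (g n) : ℕ → ℝ≥0) := by
  rw [Germ.max_def]; rfl

namespace PF
variable {T : Type} [Field T] (P : PF T ℝ≥0) (U) (m : ℕ → ℕ)

noncomputable def gv (w : ℕ → P.W) : Valuation (Germ (U : Filter ℕ) T) (Germ (U : Filter ℕ) ℝ≥0) where
  toFun α := Germ.liftOn α (fun f => ((fun n => P.v (w n) (f n) : ℕ → ℝ≥0) : Germ (U : Filter ℕ) ℝ≥0))
    fun _ _ h => Germ.coe_eq.2 (h.mono fun n hn => by simp only [hn])
  map_zero' := Germ.coe_eq.2 (Eventually.of_forall fun n => map_zero (P.v (w n)))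
  map_one' := Germ.coe_eq.2 (Eventually.of_forall fun n => map_one (P.v (w n)))
  map_mul' α β := Germ.inductionOn₂ α β fun f g =>
    Germ.coe_eq.2 (Eventually.of_forall fun n => map_mul (P.v (w n)) (f n) (g n))
  map_add_le_max' α β := Germ.inductionOn₂ α β fun f g => by
    refine le_of_le_of_eq (Germ.coe_le.2 (Eventually.of_forall fun n =>
      (P.v (w n)).map_add (f n) (g n))) (coe_max _ _).symm

theorem gv_coe (w : ℕ → P.W) (f : ℕ → T) :
    P.gv U w f = ((fun n => P.v (w n) (f n) : ℕ → ℝ≥0) : Germ (U : Filter ℕ) ℝ≥0) := rfl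

/-- Internal functions. -/
def inn (G : ℕ → P.W → ℝ≥0) (w : ℕ → P.W) : Germ (U : Filter ℕ) ℝ≥0 :=
  ((fun n => G n (w n) : ℕ → ℝ≥0) : Germ (U : Filter ℕ) ℝ≥0)

noncomputable def uI (G : ℕ → P.W → ℝ≥0) : ℝ≥0∞ := ul U fun n => P.I (G n) / 2 ^ m n

noncomputable def gI (f : (ℕ → P.W) → Germ (U : Filter ℕ) ℝ≥0) : ℝ≥0∞ :=
  ⨅ G : {G : ℕ → P.W → ℝ≥0 // ∀ w, f w ≤ P.inn U G w}, P.uI U m G.1

variable {P U m}

theorem gI_le {f : (ℕ → P.W) → Germ (U : Filter ℕ) ℝ≥0} {G : ℕ → P.W → ℝ≥0}
    (h : ∀ w, f w ≤ P.inn U G w) : P.gI U m f ≤ P.uI U m G :=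
  iInf_le (fun G : {G : ℕ → P.W → ℝ≥0 // ∀ w, f w ≤ P.inn U G w} => P.uI U m G.1) ⟨G, h⟩

theorem uI_le {G G' : ℕ → P.W → ℝ≥0} (h : ∀ᶠ n in U, P.I (G n) ≤ P.I (G' n)) :
    P.uI U m G ≤ P.uI U m G' :=
  ul_mono (h.mono fun _ hn => ENNReal.div_le_div_right hn _)

theorem gI_inn (G : ℕ → P.W → ℝ≥0) : P.gI U m (P.inn U G) = P.uI U m G := by
  refine le_antisymm (gI_le fun _ => le_rfl) (le_iInf fun G' => uI_le ?_)
  exact (transfer (P := fun n w => G n w ≤ G'.1 n w) fun w => Germ.coe_le.1 (G'.2 w)).mono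
    fun n hn => P.I_le hn

variable (P U m)

noncomputable def germ : PF (Germ (U : Filter ℕ) T) (Germ (U : Filter ℕ) ℝ≥0) where
  W := ℕ → P.W
  v := P.gv U
  I := P.gI U m
  q := ((fun _ => P.q : ℕ → ℝ≥0) : Germ (U : Filter ℕ) ℝ≥0)
  one_lt_q := Germ.coe_lt.2 (Eventually.of_forall fun _ => P.one_lt_q)
  I_one := by
    refine (gI_inn (P := P) (U := U) (m := m) fun _ _ => 1).trans (ul_eq ?_)
    simp only [P.I_one, ENNReal.zero_div]
    exact tendsto_const_nhds
  I_mono f g h := by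
    refine le_iInf fun G => (gI_le (G := fun n w => max 1 (G.1 n w)) fun w => ?_).trans
      (uI_le (Eventually.of_forall fun n => (P.I_max_one _).le))
    exact (h w).trans ((max_le_max le_rfl (G.2 w)).trans_eq (coe_max (fun _ => 1) _))
  I_mul f g := by
    refine ENNReal.le_iInf_add_iInf fun F G => ?_
    refine (gI_le (G := fun n w => F.1 n w * G.1 n w) fun w => mul_le_mul' (F.2 w) (G.2 w)).trans ?_
    rw [uI, uI, uI, ← ul_add]
    refine ul_mono (Eventually.of_forall fun n => ?_)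
    rw [← ENNReal.add_div]
    exact ENNReal.div_le_div_right (P.I_mul _ _) _
  I_pow f e := by
    rcases Nat.eq_zero_or_pos e with rfl | he
    · simp
    have he' : (0 : ℝ) < e := by exact_mod_cast he
    refine le_iInf fun G => ?_
    have h1 : P.gI U m f ≤ P.uI U m fun n w => G.1 n w ^ (e : ℝ)⁻¹ := by
      refine gI_le fun w => ?_
      have h2 : f w ^ e ≤ P.inn U G.1 w := G.2 w
      revert h2
      refine Germ.inductionOn (f w) fun φ h2 => Germ.coe_le.2 ?_
      rw [← Germ.coe_pow] at h2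
      exact (Germ.coe_le.1 h2).mono fun n hn => by
        rw [NNReal.le_rpow_inv_iff he', NNReal.rpow_natCast]; exact hn
    refine (mul_le_mul' le_rfl h1).trans ?_
    rw [uI, uI, ← ul_nat_mul]
    refine ul_mono (Eventually.of_forall fun n => ?_)
    rw [← mul_div_assoc]
    refine ENNReal.div_le_div_right ((P.I_pow _ e).trans (P.I_le fun w => ?_)) _
    rw [NNReal.rpow_inv_natCast_pow _ he.ne']
  pf α := Germ.inductionOn α fun a ha f h1 h2 => by
    have ha' : ∀ᶠ n in U, a n ≠ 0 :=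
      Ultrafilter.eventually_not.2 fun h => ha (Germ.coe_eq.2 h)
    refine le_iInf fun G => ?_
    refine (gI_le (G := fun n w => G.1 n w / P.v w (a n)) fun w => ?_).trans (uI_le ?_)
    · exact div_le_div_of_nonneg_right (G.2 w) zero_le
    · have e1 := transfer (P := fun n w => 1 ≤ G.1 n w) fun w => Germ.coe_le.1 ((h1 w).trans (G.2 w))
      have e2 := transfer (P := fun n w => P.v w (a n) ≤ G.1 n w) fun w =>
        Germ.coe_le.1 ((h2 w).trans (G.2 w))
      filter_upwards [ha', e1, e2] with n hn h1 h2 using P.pf _ hn _ h1 h2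

theorem germ_ht (f : ℕ → T) : (P.germ U m).ht f = ul U fun n => P.ht (f n) / 2 ^ m n :=
  gI_inn (P := P) (U := U) (m := m) fun n w => P.v w (f n)

theorem germ_mass (E : ℕ → Set P.W) :
    (P.germ U m).mass {w : ℕ → P.W | ∀ᶠ n in U, w n ∈ E n} =
      ul U fun n => P.mass (E n) / 2 ^ m n := by
  classical
  refine Eq.trans ?_ (gI_inn (P := P) (U := U) (m := m) fun n w => if w ∈ E n then P.q else 1)
  refine congrArg (P.gI U m) (funext fun w => ?_)
  by_cases h : ∀ᶠ n in U, w n ∈ E n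
  · exact (if_pos h).trans (Germ.coe_eq.2 (h.mono fun n hn => (if_pos hn).symm))
  · exact (if_neg h).trans
      (Germ.coe_eq.2 ((Ultrafilter.eventually_not.2 h).mono fun n hn => (if_neg hn).symm))

end PF

/-- Restriction of a product formula structure to a subfield. -/
noncomputable def PF.comap {K Γ : Type} [Field K] [LinearOrderedCommGroupWithZero Γ] (P : PF K Γ)
    (L : Subfield K) : PF L Γ where
  W := P.W
  v w := (P.v w).comap L.subtype
  I := P.I
  q := P.q
  one_lt_q := P.one_lt_q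
  I_one := P.I_one
  I_mono := P.I_mono
  I_mul := P.I_mul
  I_pow := P.I_pow
  pf α h := P.pf α fun e => h (Subtype.ext e)

/-- The Hasse derivation on germs. -/
noncomputable def HD.germ {T : Type} [Field T] (H : HD T) (U : Ultrafilter ℕ) :
    HD (Germ (U : Filter ℕ) T) where
  E :=
    { toFun := fun α => PowerSeries.mk fun r => Germ.map (H.D r) α
      map_one' := by
        ext r
        rw [PowerSeries.coeff_mk, PowerSeries.coeff_one]
        cases r with
        | zero => exact Germ.coe_eq.2 (Eventually.of_forall fun _ => H.D_zero 1)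
        | succ r => exact Germ.coe_eq.2 (Eventually.of_forall fun _ => H.D_one r)
      map_mul' := fun α β => Germ.inductionOn₂ α β fun f g => by
        ext r
        simp only [PowerSeries.coeff_mk, PowerSeries.coeff_mul]
        have := map_sum (Germ.coeRingHom (U : Filter ℕ))
          (fun x : ℕ × ℕ => fun n => H.D x.1 (f n) * H.D x.2 (g n))
          (Finset.HasAntidiagonal.antidiagonal r)
        refine Eq.trans ?_ this
        exact Germ.coe_eq.2 (Eventually.of_forall fun n => by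
          simp only [Finset.sum_apply]; exact H.D_mul r (f n) (g n))
      map_zero' := by
        ext r
        rw [PowerSeries.coeff_mk, map_zero]
        exact Germ.coe_eq.2 (Eventually.of_forall fun _ => H.D_of_zero r)
      map_add' := fun α β => Germ.inductionOn₂ α β fun f g => by
        ext r
        simp only [PowerSeries.coeff_mk, map_add]
        exact Germ.coe_eq.2 (Eventually.of_forall fun n => H.D_add r (f n) (g n)) }
  c0 α := Germ.inductionOn α fun f => by
    simp only [RingHom.coe_mk, MonoidHom.coe_mk, OneHom.coe_mk, PowerSeries.coeff_mk]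
    exact Germ.coe_eq.2 (Eventually.of_forall fun n => H.D_zero (f n))
  iter α i j := Germ.inductionOn α fun f => by
    simp only [RingHom.coe_mk, MonoidHom.coe_mk, OneHom.coe_mk, PowerSeries.coeff_mk]
    exact Germ.coe_eq.2 (Eventually.of_forall fun n => H.D_D i j (f n))

theorem HD.germ_D {T : Type} [Field T] (H : HD T) (U : Ultrafilter ℕ) (r : ℕ) (f : ℕ → T) :
    (H.germ U).D r f = ((fun n => H.D r (f n) : ℕ → T) : Germ (U : Filter ℕ) T) := by
  simp only [HD.D, HD.germ, RingHom.coe_mk, MonoidHom.coe_mk, OneHom.coe_mk, PowerSeries.coeff_mk]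
  rfl

end JR
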