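import Pool.Agent.Work.MP_969914_nt.UDef
import Pool.Agent.Work.MP_969914_nt.UGerm
import Pool.Agent.Work.MP_969914_nt.RTop

/-! Existence of the ultrapower. -/

set_option autoImplicit false

namespace JR

open scoped NNReal ENNReal
open Filter Topology

/-- Sequences of size `o (2 ^ m n)` along `U`. -/
def Sm (U : Ultrafilter ℕ) (m : ℕ → ℕ) (x : ℕ → ℝ≥0∞) : Prop :=
  Tendsto (fun n => x n / 2 ^ m n) U (𝓝 0)

section
variable {U : Ultrafilter ℕ} {m : ℕ → ℕ} {x y : ℕ → ℝ≥0∞}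

theorem Sm.mono (h : Sm U m y) (e : ∀ᶠ n in U, x n ≤ y n) : Sm U m x :=
  tendsto_of_tendsto_of_tendsto_of_le_of_le' tendsto_const_nhds h
    (Eventually.of_forall fun _ => zero_le) (e.mono fun _ hn => ENNReal.div_le_div_right hn _)

theorem Sm.add (hx : Sm U m x) (hy : Sm U m y) : Sm U m fun n => x n + y n := by
  have := Tendsto.add hx hy
  simpa only [Sm, ENNReal.add_div, add_zero] using this

theorem sm_const (hm : Tendsto m U atTop) {C : ℝ≥0∞} (hC : C ≠ ⊤) : Sm U m fun _ => C := by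
  have h1 : Tendsto (fun n : ℕ => (2⁻¹ : ℝ≥0∞) ^ n) atTop (𝓝 0) :=
    ENNReal.tendsto_pow_atTop_nhds_zero_of_lt_one (by norm_num)
  have h2 := ENNReal.Tendsto.const_mul (a := C) (h1.comp hm) (Or.inr hC)
  simpa only [Sm, mul_zero, div_eq_mul_inv, ENNReal.inv_pow, Function.comp_def] using h2

theorem sm_iff : Sm U m x ↔ ul U (fun n => x n / 2 ^ m n) = 0 :=
  ⟨ul_eq, fun h => by have := tendsto_ul U (fun n => x n / 2 ^ m n); rwa [h] at this⟩

end

namespace Std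
variable {p : ℕ} {k T : Type} [Field k] [Field T] [Algebra k T] (S : Std p k T)
  (U : Ultrafilter ℕ) (m : ℕ → ℕ)

/-- Sequences which are regular at almost all places. -/
def Adm (f : ℕ → T) : Prop := Sm U m fun n => S.toPF.mass {w | f n ∉ S.R w}

variable {S U m}

theorem Adm.op {f g h : ℕ → T} (hf : S.Adm U m f) (hg : S.Adm U m g)
    (e : ∀ n w, f n ∈ S.R w → g n ∈ S.R w → h n ∈ S.R w) : S.Adm U m h :=
  (hf.add hg).mono (Eventually.of_forall fun n => (S.toPF.mass_mono (by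
    intro w hw
    by_contra hc
    simp only [Set.mem_union, Set.mem_setOf_eq, not_or, not_not] at hc
    exact hw (e n w hc.1 hc.2))).trans (S.toPF.mass_union_le _ _))

theorem Adm.of_good (hm : Tendsto m U atTop) {f h : ℕ → T} (hf : S.Adm U m f)
    (e : ∀ᶠ n in U, ∀ w ∈ S.good, f n ∈ S.R w → h n ∈ S.R w) : S.Adm U m h :=
  (hf.add (sm_const hm S.mass_bad.ne)).mono (e.mono fun n hn => (S.toPF.mass_mono (by
    intro w hw
    by_contra hc
    simp only [Set.mem_union, Set.mem_setOf_eq, not_or, not_not, Set.mem_compl_iff] at hc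
    exact hw (hn w hc.2 hc.1))).trans (S.toPF.mass_union_le _ _))

theorem adm_of_forall {f : ℕ → T} (h : ∀ n w, f n ∈ S.R w) : S.Adm U m f := by
  simp only [Adm, Sm, h, not_true, Set.setOf_false, S.toPF.mass_empty, ENNReal.zero_div]
  exact tendsto_const_nhds

theorem Adm.congr {f g : ℕ → T} (hf : S.Adm U m f) (e : ∀ᶠ n in U, f n = g n) : S.Adm U m g :=
  Sm.mono hf (e.mono fun n hn => by rw [hn])

variable (S U m)

def KK : Subfield (Germ (U : Filter ℕ) T) where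
  carrier := {α | ∃ f : ℕ → T, (f : Germ (U : Filter ℕ) T) = α ∧ S.Adm U m f}
  mul_mem' := by
    rintro _ _ ⟨f, rfl, hf⟩ ⟨g, rfl, hg⟩
    exact ⟨f * g, rfl, hf.op hg fun _ _ => mul_mem⟩
  one_mem' := ⟨1, rfl, adm_of_forall fun _ _ => one_mem _⟩
  add_mem' := by
    rintro _ _ ⟨f, rfl, hf⟩ ⟨g, rfl, hg⟩
    exact ⟨f + g, rfl, hf.op hg fun _ _ => add_mem⟩
  zero_mem' := ⟨0, rfl, adm_of_forall fun _ _ => zero_mem _⟩
  neg_mem' := by
    rintro _ ⟨f, rfl, hf⟩
    exact ⟨-f, rfl, hf.op hf fun _ _ h _ => neg_mem h⟩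
  inv_mem' := by
    rintro _ ⟨f, rfl, hf⟩
    exact ⟨f⁻¹, rfl, hf.op hf fun _ _ h _ => inv_mem h⟩

def RR (w : ℕ → S.W) : Subfield (S.KK U m) where
  carrier := {α | ∃ f : ℕ → T, (f : Germ (U : Filter ℕ) T) = α ∧ ∀ᶠ n in U, f n ∈ S.R (w n)}
  mul_mem' := by
    rintro _ _ ⟨f, e, hf⟩ ⟨g, e', hg⟩
    exact ⟨f * g, by rw [Germ.coe_mul, e, e']; rfl, (hf.and hg).mono fun _ h => mul_mem h.1 h.2⟩
  one_mem' := ⟨1, rfl, Eventually.of_forall fun _ => one_mem _⟩
  add_mem' := by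
    rintro _ _ ⟨f, e, hf⟩ ⟨g, e', hg⟩
    exact ⟨f + g, by rw [Germ.coe_add, e, e']; rfl, (hf.and hg).mono fun _ h => add_mem h.1 h.2⟩
  zero_mem' := ⟨0, rfl, Eventually.of_forall fun _ => zero_mem _⟩
  neg_mem' := by
    rintro _ ⟨f, e, hf⟩
    exact ⟨-f, by rw [Germ.coe_neg, e]; rfl, hf.mono fun _ h => neg_mem h⟩
  inv_mem' := by
    rintro _ ⟨f, e, hf⟩
    exact ⟨f⁻¹, by rw [Germ.coe_inv, e]; rfl, hf.mono fun _ h => inv_mem h⟩

variable {S U m}

theorem mem_RR {w : ℕ → S.W} {f : ℕ → T} {h : (f : Germ (U : Filter ℕ) T) ∈ S.KK U m} :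
    (⟨f, h⟩ : S.KK U m) ∈ S.RR U m w ↔ ∀ᶠ n in U, f n ∈ S.R (w n) := by
  refine ⟨?_, fun h => ⟨f, rfl, h⟩⟩
  rintro ⟨g, e, hg⟩
  filter_upwards [hg, Germ.coe_eq.1 e] with n h1 h2
  rwa [← h2]

theorem adm_of_mem {f : ℕ → T} (h : (f : Germ (U : Filter ℕ) T) ∈ S.KK U m) : S.Adm U m f := by
  obtain ⟨g, e, hg⟩ := h
  exact hg.congr (Germ.coe_eq.1 e)

theorem KK_ind {P : S.KK U m → Prop}
    (h : ∀ (f : ℕ → T) (hf : (f : Germ (U : Filter ℕ) T) ∈ S.KK U m), P ⟨f, hf⟩) (α : S.KK U m) :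
    P α := by
  obtain ⟨_, f, rfl, hf⟩ := α
  exact h f _

theorem KK_D (hm : Tendsto m U atTop) : ∀ α ∈ S.KK U m, ∀ r, (S.H.germ U).D r α ∈ S.KK U m := by
  rintro _ ⟨f, rfl, hf⟩ r
  exact ⟨_, (S.H.germ_D U r f).symm,
    hf.of_good hm (Eventually.of_forall fun n w hw h => S.R_D w hw _ h r)⟩

/-- The Hasse derivation on admissible germs. -/
noncomputable def HK (hm : Tendsto m U atTop) : HD (S.KK U m) :=
  (S.H.germ U).restrict (S.KK U m) (KK_D hm)

theorem HK_D (hm : Tendsto m U atTop) (r : ℕ) {f : ℕ → T}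
    (h : (f : Germ (U : Filter ℕ) T) ∈ S.KK U m) :
    ((HK (S := S) hm).D r ⟨f, h⟩).1 = (fun n => S.H.D r (f n) : ℕ → T) :=
  (HD.restrict_compat (S.H.germ U) (S.KK U m) (KK_D hm) r ⟨f, h⟩).symm.trans (S.H.germ_D U r f)

theorem v_HK (hm : Tendsto m U atTop) (w : ℕ → S.W) (r : ℕ) {f : ℕ → T}
    (h : (f : Germ (U : Filter ℕ) T) ∈ S.KK U m) :
    ((S.toPF.germ U m).comap (S.KK U m)).v w ((HK hm).D r ⟨f, h⟩) =
      ((fun n => S.v (w n) (S.H.D r (f n)) : ℕ → ℝ≥0) : Germ (U : Filter ℕ) ℝ≥0) :=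
  congrArg (S.toPF.gv U w) (HK_D hm r h)

/-- The ultrapower as a local structure. -/
noncomputable def upLoc (hm : Tendsto m U atTop) :
    Loc p (S.KK U m) (Germ (U : Filter ℕ) ℝ≥0) where
  toPF := (S.toPF.germ U m).comap (S.KK U m)
  H := HK hm
  good := {w : ℕ → S.W | ∀ᶠ n in U, w n ∈ S.good}
  R := S.RR U m
  disc w hw := KK_ind fun f hf h1 h2 => Germ.coe_le.2 (by
    filter_upwards [hw, mem_RR.1 h1, Germ.coe_lt.1 h2] with n a b c using S.disc _ a _ b c)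
  tau w hw := by
    classical
    have h : ∀ n, ∃ τ ∈ S.K0, w n ∈ S.good →
        S.v (w n) τ = S.q⁻¹ ∧ S.H.E τ = PowerSeries.C τ + PowerSeries.X := fun n => by
      by_cases hn : w n ∈ S.good
      · obtain ⟨τ, h1, h2⟩ := S.tau0 _ hn
        exact ⟨τ, h1, fun _ => h2⟩
      · exact ⟨0, zero_mem _, fun h => absurd h hn⟩
    choose τ h1 h2 using h
    have hτ : (τ : Germ (U : Filter ℕ) T) ∈ S.KK U m := ⟨τ, rfl,
      (adm_of_forall (f := 0) fun _ _ => zero_mem _).of_good hm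
        (Eventually.of_forall fun n w hw _ => S.K0_le w hw _ (h1 n))⟩
    refine ⟨⟨τ, hτ⟩, mem_RR.2 (Eventually.mono hw fun n hn => S.K0_le _ hn _ (h1 n)),
      Germ.coe_eq.2 (Eventually.mono hw fun n hn => (h2 n hn).1), ?_⟩
    ext r
    refine (HK_D hm r hτ).trans ?_
    have e : ∀ᶠ n in U, S.H.D r (τ n) =
        PowerSeries.coeff r (PowerSeries.C (τ n) + PowerSeries.X) :=
      Eventually.mono hw fun n hn => by rw [HD.D, (h2 n hn).2]
    simp only [map_add, PowerSeries.coeff_C, PowerSeries.coeff_X] at e ⊢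
    split_ifs at e ⊢ <;> exact Germ.coe_eq.2 e
  D_int w hw := KK_ind fun f hf h1 h2 r => (v_HK hm w r hf).trans_le (Germ.coe_le.2 (by
    filter_upwards [hw, mem_RR.1 h1, Germ.coe_le.1 h2] with n a b c using S.D_int _ a _ b c r))
  D_le w hw := KK_ind fun f hf h1 r => (v_HK hm w r hf).trans_le (by
    have : ((fun n => S.v (w n) (S.H.D r (f n)) : ℕ → ℝ≥0) : Germ (U : Filter ℕ) ℝ≥0) ≤
        ((fun _ => S.q : ℕ → ℝ≥0) ^ r * fun n => S.v (w n) (f n) : ℕ → ℝ≥0) := Germ.coe_le.2 (by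
      filter_upwards [hw, mem_RR.1 h1] with n a b using S.D_le _ a _ b r)
    rwa [Germ.coe_mul, Germ.coe_pow] at this)
  D_glob r := by
    obtain ⟨C, hC⟩ := S.D_glob r
    refine ⟨C, fun w => KK_ind fun f hf => (v_HK hm w r hf).trans_le ?_⟩
    have : ((fun n => S.v (w n) (S.H.D r (f n)) : ℕ → ℝ≥0) : Germ (U : Filter ℕ) ℝ≥0) ≤
        ((fun _ => S.q : ℕ → ℝ≥0) ^ C * fun n => S.v (w n) (f n) : ℕ → ℝ≥0) :=
      Germ.coe_le.2 (Eventually.of_forall fun n => hC _ _)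
    rwa [Germ.coe_mul, Germ.coe_pow] at this
  proot := KK_ind fun f hf h => by
    have e : ∀ᶠ n in U, S.H.D 1 (f n) = 0 :=
      Germ.coe_eq.1 ((HK_D hm 1 hf).symm.trans (congrArg Subtype.val h))
    have h1 : ∀ n, ∃ β, S.H.D 1 (f n) = 0 → β ^ p = f n := fun n => by
      by_cases hn : S.H.D 1 (f n) = 0
      · exact (S.proot _ hn).imp fun _ h _ => h
      · exact ⟨0, fun h => absurd h hn⟩
    choose β hβ using h1
    refine ⟨⟨β, β, rfl, (adm_of_mem hf).of_good hm (e.mono fun n hn w hw h =>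
      S.R_proot w hw _ (by rwa [hβ n hn]))⟩, Subtype.ext ?_⟩
    rw [SubmonoidClass.coe_pow, ← Germ.coe_pow]
    exact Germ.coe_eq.2 (e.mono fun n hn => hβ n hn)

theorem up_mass (hm : Tendsto m U atTop) (E : ℕ → Set S.W) :
    (upLoc (S := S) hm).toPF.mass {w : ℕ → S.W | ∀ᶠ n in U, w n ∈ E n} =
      ul U fun n => S.toPF.mass (E n) / 2 ^ m n := S.toPF.germ_mass U m E

theorem up_ht (hm : Tendsto m U atTop) {f : ℕ → T} (h : (f : Germ (U : Filter ℕ) T) ∈ S.KK U m) :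
    (upLoc (S := S) hm).toPF.ht ⟨f, h⟩ = ul U fun n => S.toPF.ht (f n) / 2 ^ m n :=
  S.toPF.germ_ht U m f

/-- The ultrapower. -/
noncomputable def upNS (hm : Tendsto m U atTop) :
    NS p (S.KK U m) (Germ (U : Filter ℕ) ℝ≥0) where
  toLoc := upLoc hm
  good_ae := by
    refine Eq.trans ?_ ((up_mass hm fun _ => S.goodᶜ).trans (sm_iff.1 (sm_const hm S.mass_bad.ne)))
    exact congrArg _ (Set.ext fun w => Ultrafilter.eventually_not.symm)
  reg_ae := KK_ind fun f hf => by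
    refine Eq.trans ?_ ((up_mass hm fun n => {w | f n ∉ S.R w}).trans (sm_iff.1 (adm_of_mem hf)))
    exact congrArg _ (Set.ext fun w => (not_congr mem_RR).trans Ultrafilter.eventually_not.symm)
  sqrt0 := KK_ind fun f hf h => by
    have h0 : Sm U m fun n => S.toPF.ht (f n) := sm_iff.2 ((up_ht hm hf).symm.trans h)
    choose β hβ using fun n => S.sqrt (f n)
    refine ⟨⟨β, β, rfl, ?_⟩, Subtype.ext ?_⟩
    · refine Sm.mono (((adm_of_mem hf).add (sm_const hm S.mass_bad.ne)).add (h0.add h0))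
        (Eventually.of_forall fun n => ?_)
      by_cases hn : f n = 0
      · have : β n = 0 := pow_eq_zero_iff two_ne_zero |>.1 ((hβ n).trans hn)
        simp only [this, zero_mem, not_true, Set.setOf_false, S.toPF.mass_empty, zero_le]
      · rw [← two_mul]
        refine (S.toPF.mass_mono ?_).trans ((S.toPF.mass_union_le _ _).trans
          (add_le_add (S.toPF.mass_union_le _ _) (S.mass_ne_one_le hn)))
        intro w hw
        by_contra hc
        simp only [Set.mem_union, Set.mem_setOf_eq, not_or, not_not, Set.mem_compl_iff,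
          not_and] at hc
        refine hw (S.R_sqrt w hc.1.2 _ (by rw [hβ]; exact hc.1.1) ?_)
        have := hc.2 hc.1.2 hc.1.1
        rw [← hβ, map_pow] at this
        exact (pow_eq_one_iff_of_nonneg zero_le two_ne_zero).1 this
    · rw [SubmonoidClass.coe_pow, ← Germ.coe_pow]
      exact Germ.coe_eq.2 (Eventually.of_forall hβ)

end Std

theorem Std.exists_up {p : ℕ} [Fact p.Prime] {k T : Type} [Field k] [Field T] [Algebra k T]
    [CharP T p] (S : Std p k T) (m : ℕ → ℕ) (hm : Tendsto m atTop atTop) :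
    ∃ (K Γ : Type) (_ : Field K) (_ : CharP K p) (_ : LinearOrderedCommGroupWithZero Γ)
      (N : NS p K Γ), Nonempty (UP S m N) := by
  have hU : (hyperfilter ℕ : Filter ℕ) ≤ atTop := Nat.hyperfilter_le_atTop
  have hm' : Tendsto m (hyperfilter ℕ) atTop := hm.mono_left hU
  have : CharP (Germ (hyperfilter ℕ : Filter ℕ) T) p := charP_of_injective_ringHom
    ((Germ.coeRingHom (hyperfilter ℕ : Filter ℕ)).comp (Pi.constRingHom ℕ T)).injective p
  refine ⟨S.KK (hyperfilter ℕ) m, _, inferInstance, inferInstance, inferInstance, Std.upNS hm',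
    ⟨⟨hyperfilter ℕ, hU, hm, (S.KK _ m).subtype, fun w => w, fun f hf => ⟨⟨f, f, rfl, hf⟩, rfl⟩,
      ?_, ?_, fun E => ?_, fun w hw => hw, ?_, ?_, ?_⟩⟩⟩
  · rintro ⟨_, h⟩ f rfl r
    exact Std.HK_D hm' r h
  · rintro ⟨_, h⟩ f rfl
    exact (Std.up_ht hm' h).symm ▸ tendsto_ul _ _
  · exact (Std.up_mass hm' E).symm ▸ tendsto_ul _ _
  · rintro ⟨_, h⟩ f rfl w
    exact Germ.coe_lt
  · rintro ⟨_, h⟩ f rfl w
    exact Germ.coe_le
  · rintro ⟨_, h⟩ f rfl w
    exact Germ.coe_eq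

end JR
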