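import Pool.Agent.Work.MP_969914_nt.UZero

/-! Density of the critical orbits in first order jets. -/

set_option autoImplicit false

namespace JR

open scoped NNReal ENNReal
open Polynomial

theorem ustd_coeff {σ k0 : Type} [Field k0] (u : σ) (c : k0) (f : MvPolynomial σ k0) {D : ℕ}
    (hD : f.degreeOf u < D) (μ : σ →₀ ℕ) (h0 : μ u = 0) :
    MvPolynomial.coeff μ (sub1 u c f) =
      ∑ i ∈ Finset.range D, MvPolynomial.coeff (μ + Finsupp.single u i) f * c ^ i := by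
  classical
  have e : ∀ i, MvPolynomial.coeff (μ + Finsupp.single u i) f * c ^ i =
      ∑ m ∈ f.support, if m = μ + Finsupp.single u i then f.coeff m * c ^ i else 0 := fun i => by
    rw [Finset.sum_ite_eq']
    split_ifs with h
    · rfl
    · rw [MvPolynomial.notMem_support_iff.1 h, zero_mul]
  simp only [e]
  rw [Finset.sum_comm]
  conv_lhs => rw [f.as_sum, map_sum, MvPolynomial.coeff_sum]
  refine Finset.sum_congr rfl fun m hm => ?_
  rw [relim_sub_monomial, MvPolynomial.coeff_monomial]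
  have key : ∀ i, m = μ + Finsupp.single u i ↔ m.erase u = μ ∧ m u = i := fun i => by
    constructor
    · rintro rfl
      refine ⟨?_, by simp [h0]⟩
      rw [Finsupp.erase_add, Finsupp.erase_single, add_zero]
      exact Finsupp.erase_of_notMem_support (by simp [h0])
    · rintro ⟨rfl, rfl⟩
      exact (Finsupp.erase_add_single u m).symm
  simp only [key]
  split_ifs with h
  · simp only [h, true_and]
    rw [Finset.sum_ite_eq, if_pos (Finset.mem_range.2
      ((MvPolynomial.monomial_le_degreeOf u hm).trans_lt hD))]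
  · simp [h]

theorem ustd_deg {k0 : Type} [Field k0] (β : Bool) (l0 l1 : k0) (f : MvPolynomial Vr k0)
    (s : Vr) : (spec2 β l0 l1 f).degreeOf s ≤ f.degreeOf s := by
  rw [spec2, AlgHom.comp_apply]
  exact (degreeOf_sub1_le _ _ _ s).trans (degreeOf_sub1_le _ _ _ s)

/-- Coefficients of a specialisation. -/
theorem coeff_spec2 {k0 : Type} [Field k0] (β : Bool) (l0 l1 : k0) (f : MvPolynomial Vr k0)
    {D : ℕ} (hD : ∀ s, f.degreeOf s < D) (μ : Vr →₀ ℕ) (h0 : μ (β, 0) = 0) (h1 : μ (β, 1) = 0) :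
    MvPolynomial.coeff μ (spec2 β l0 l1 f) = ∑ i ∈ Finset.range D, ∑ l ∈ Finset.range D,
      MvPolynomial.coeff (μ + Finsupp.single (β, 0) i + Finsupp.single (β, 1) l) f *
        (l0 ^ i * l1 ^ l) := by
  rw [spec2, AlgHom.comp_apply,
    ustd_coeff _ _ _ ((degreeOf_sub1_le _ _ _ _).trans_lt (hD _)) μ h1, Finset.sum_comm]
  refine Finset.sum_congr rfl fun l _ => ?_
  rw [ustd_coeff _ _ _ (hD _) _ (by simp [h0]), Finset.sum_mul]
  refine Finset.sum_congr rfl fun i _ => ?_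
  rw [add_right_comm, mul_assoc]

/-- A coordinate functional of a field extension. -/
theorem exists_coord {F k0 : Type} [Field F] [Field k0] (φ : F →+* k0) {x : k0} (hx : x ≠ 0) :
    ∃ lam : k0 →+ F, lam x ≠ 0 ∧ ∀ (a : F) (y : k0), lam (y * φ a) = lam y * a := by
  let _ := φ.toAlgebra
  obtain ⟨lam, hl⟩ : ∃ lam : Module.Dual F k0, lam x ≠ 0 := by
    by_contra hn
    exact hx ((Module.forall_dual_apply_eq_zero_iff F x).1 fun l => by
      by_contra h
      exact hn ⟨l, h⟩)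
  refine ⟨lam.toAddMonoidHom, hl, fun a y => ?_⟩
  have e : y * φ a = a • y := by rw [Algebra.smul_def, mul_comm]; rfl
  rw [e, LinearMap.toAddMonoidHom_coe, map_smul, smul_eq_mul, mul_comm]

theorem ustd_split (ν : Vr →₀ ℕ) (β : Bool) : ∃ μ : Vr →₀ ℕ, μ (β, 0) = 0 ∧ μ (β, 1) = 0 ∧
    (∀ s : Vr, s.1 ≠ β → μ s = ν s) ∧
    μ + Finsupp.single (β, 0) (ν (β, 0)) + Finsupp.single (β, 1) (ν (β, 1)) = ν := by
  classical
  refine ⟨(ν.erase (β, 0)).erase (β, 1), by simp, by simp, fun s hs => ?_, ?_⟩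
  · rw [Finsupp.erase_ne (fun e => hs (by rw [e])), Finsupp.erase_ne (fun e => hs (by rw [e]))]
  · have e : ν (β, 1) = (ν.erase (β, 0)) (β, 1) := (Finsupp.erase_ne (by simp)).symm
    rw [add_right_comm, e, Finsupp.erase_add_single, Finsupp.erase_add_single]

section growth
variable {p : ℕ} {k T : Type} [Field k] [Field T] [Algebra k T] {S : Std p k T}

/-- Heights of size `O (2 ^ r)`. -/
def ustd_Sm (S : Std p k T) (z : ℕ → S.K0) : Prop :=
  ∃ A : ℝ≥0, ∀ r, S.toPF.ht (z r : T) ≤ A * 2 ^ r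

theorem ustd_le (A : ℝ≥0∞) (r : ℕ) : A ≤ A * 2 ^ r :=
  le_mul_of_one_le_right' (one_le_pow_of_one_le' one_le_two r)

theorem ustd_const (z : S.K0) : ustd_Sm S fun _ => z :=
  ⟨(S.toPF.ht z).toNNReal, fun r => by
    rw [ENNReal.coe_toNNReal (S.ht_lt z).ne]
    exact ustd_le _ r⟩

theorem ustd_add {x y : ℕ → S.K0} (hx : ustd_Sm S x) (hy : ustd_Sm S y) :
    ustd_Sm S fun r => x r + y r := by
  obtain ⟨A, hA⟩ := hx
  obtain ⟨B, hB⟩ := hy
  refine ⟨A + B, fun r => (S.toPF.ht_add_le _ _).trans ?_⟩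
  rw [ENNReal.coe_add, add_mul]
  exact add_le_add (hA r) (hB r)

theorem ustd_mul {x y : ℕ → S.K0} (hx : ustd_Sm S x) (hy : ustd_Sm S y) :
    ustd_Sm S fun r => x r * y r := by
  obtain ⟨A, hA⟩ := hx
  obtain ⟨B, hB⟩ := hy
  refine ⟨A + B, fun r => (S.toPF.ht_mul_le _ _).trans ?_⟩
  rw [ENNReal.coe_add, add_mul]
  exact add_le_add (hA r) (hB r)

theorem ustd_pow {x : ℕ → S.K0} (hx : ustd_Sm S x) (n : ℕ) : ustd_Sm S fun r => x r ^ n := by
  induction n with
  | zero => simpa only [pow_zero] using ustd_const (S := S) 1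
  | succ n ih => simpa only [pow_succ] using ustd_mul ih hx

theorem ustd_sum {ι : Type} (s : Finset ι) {x : ι → ℕ → S.K0} (hx : ∀ i, ustd_Sm S (x i)) :
    ustd_Sm S fun r => ∑ i ∈ s, x i r := by
  classical
  induction s using Finset.induction_on with
  | empty => simpa only [Finset.sum_empty] using ustd_const (S := S) 0
  | insert i s hi ih => simpa only [Finset.sum_insert hi] using ustd_add (hx i) ih

theorem ustd_unif {ι : Type} (s : Finset ι) {x : ι → ℕ → S.K0} (hx : ∀ i, ustd_Sm S (x i))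
    {ε : ℝ≥0} (hε : 0 < ε) :
    ∃ R : ℕ, ∀ i ∈ s, ∀ r r', r + R ≤ r' → S.toPF.ht (x i r : T) ≤ ε * 2 ^ r' := by
  choose A hA using hx
  obtain ⟨R, hR⟩ := pow_unbounded_of_one_lt ((∑ i ∈ s, A i) / ε) (one_lt_two (α := ℝ≥0))
  refine ⟨R, fun i hi r r' h => (hA i r).trans ?_⟩
  have h1 : A i ≤ ε * 2 ^ R := by
    rw [div_lt_iff₀ hε, mul_comm] at hR
    exact (Finset.single_le_sum (fun _ _ => zero_le) hi).trans hR.le
  have h2 : A i * 2 ^ r ≤ ε * 2 ^ r' := by
    calc A i * 2 ^ r ≤ ε * 2 ^ R * 2 ^ r := by gcongr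
      _ = ε * 2 ^ (r + R) := by ring
      _ ≤ ε * 2 ^ r' := by gcongr; exact one_le_two
  exact_mod_cast h2

/-- The derivation on the base field. -/
noncomputable def ustd_d (z : S.K0) : S.K0 := ⟨S.H.D 1 z, S.D_mem z z.2 1⟩

/-- Monomials in a critical value and its derivative. -/
noncomputable def ustd_m (a c : S.K0) (b : Bool) (r i l : ℕ) : S.K0 :=
  vv a c b r ^ i * ustd_d (vv a c b r) ^ l

theorem ustd_vv (a c : S.K0) (b : Bool) (r : ℕ) : ((vv a c b r : S.K0) : T) = vv (a : T) c b r :=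
  (map_vv S.K0.val.toRingHom b r).symm

end growth

variable {p : ℕ} [Fact p.Prime] {k T : Type} [Field k] [CharP k p] [Field T] [Algebra k T]
  [CharP T p] {S : Std p k T} {k0 : Type} [Field k0] {φ : S.K0 →+* k0} {H0 : HD k0}
  {a c : S.K0}

theorem ustd_sm_d {x : ℕ → S.K0} (hx : ustd_Sm S x) : ustd_Sm S fun r => ustd_d (x r) := by
  obtain ⟨A, hA⟩ := hx
  obtain ⟨C, hC⟩ := S.ht_D_le
  refine ⟨2 * A + C, fun r => (hC _ (x r).2).trans ?_⟩
  push_cast
  rw [add_mul, mul_assoc]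
  exact add_le_add (by gcongr; exact hA r) (ustd_le _ r)

theorem ustd_sm_m {b : Bool} {h : ℝ≥0} (hh : S.IsHat (a : T) c b h) (i l : ℕ) :
    ustd_Sm S fun r => ustd_m a c b r i l := by
  have h1 : ustd_Sm S fun r => vv a c b r := by
    obtain ⟨C, hC⟩ := hh
    refine ⟨h + C, fun r => ?_⟩
    rw [ustd_vv, ENNReal.coe_add, add_mul]
    exact (hC r).1.trans (add_le_add le_rfl (ustd_le _ r))
  exact ustd_mul (ustd_pow h1 i) (ustd_pow (ustd_sm_d h1) l)

theorem ustd_zero (hH : HypH (a : T) c) (hρ : S.H.D 1 a ≠ 0 ∨ S.H.D 1 c ≠ 0)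
    {b : Bool} {h : ℝ≥0} (hw : S.Wand a c b h) (D : ℕ) {ι : Type} (s : Finset ι)
    {g : ι → ℕ → ℕ → ℕ → S.K0} (hg : ∀ j i l, ustd_Sm S (g j i l)) :
    ∃ R : ℕ, ∀ j ∈ s, ∀ r r', r + R ≤ r' →
      ∑ i ∈ Finset.range D, ∑ l ∈ Finset.range D, g j i l r * ustd_m a c b r' i l = 0 →
      ∀ i, i < D → ∀ l, l < D → g j i l r = 0 := by
  obtain ⟨ε, R, hε, hz⟩ := Std.zero_est hH hρ hw D
  obtain ⟨R', hR'⟩ := ustd_unif (s ×ˢ Finset.range D ×ˢ Finset.range D)
    (x := fun t => g t.1 t.2.1 t.2.2) (fun t => hg _ _ _) hε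
  refine ⟨R + R', fun j hj r r' hr e i hi l hl => ?_⟩
  have := hz r' (by omega) (fun i l => if i < D ∧ l < D then (g j i l r : T) else 0)
    (fun i l => by
      split_ifs with h
      · exact ⟨(g j i l r).2, hR' (j, i, l) (by simp [hj, h.1, h.2]) r r' (by omega)⟩
      · refine ⟨zero_mem _, ?_⟩
        have := S.toPF.ht_natCast 0
        rw [Nat.cast_zero] at this
        rw [this]
        exact zero_le) (by
      have e' := congrArg S.K0.val e
      rw [map_sum, map_zero] at e'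
      rw [← e']
      refine Finset.sum_congr rfl fun i hi => ?_
      rw [map_sum]
      refine Finset.sum_congr rfl fun l hl => ?_
      rw [if_pos ⟨Finset.mem_range.1 hi, Finset.mem_range.1 hl⟩, ← ustd_vv]
      simp [ustd_m, ustd_d]) i hi l hl
  rw [if_pos ⟨hi, hl⟩] at this
  exact Subtype.ext this

omit [Fact p.Prime] [CharP k p] [CharP T p] in
theorem ustd_phi (hφ : ∀ x : S.K0, H0.D 1 (φ x) = φ ⟨S.H.D 1 x, S.D_mem x x.2 1⟩) (b : Bool)
    (r i l : ℕ) : vv (φ a) (φ c) b r ^ i * H0.D 1 (vv (φ a) (φ c) b r) ^ l =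
      φ (ustd_m a c b r i l) := by
  rw [map_vv, hφ, ustd_m, map_mul, map_pow, map_pow, ustd_d]

theorem ustd_lt {k0 : Type} [Field k0] (f : MvPolynomial Vr k0) (s : Vr) :
    f.degreeOf s < f.totalDegree + 1 :=
  Nat.lt_succ_of_le (MvPolynomial.degreeOf_le_totalDegree f s)

theorem Std.std1 (hφ : ∀ x : S.K0, H0.D 1 (φ x) = φ ⟨S.H.D 1 x, S.D_mem x x.2 1⟩)
    (hH : HypH (a : T) c) (hρ : S.H.D 1 a ≠ 0 ∨ S.H.D 1 c ≠ 0) {h : ℝ≥0}
    (hw : S.Wand a c false h) : Std1 H0 (φ a) (φ c) := by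
  intro f hf β
  obtain ⟨ν, hν⟩ := MvPolynomial.support_nonempty.2 hf
  obtain ⟨μ, h0, h1, -, hμ⟩ := ustd_split ν β
  obtain ⟨lam, hl, hm⟩ := exists_coord φ (MvPolynomial.mem_support_iff.1 hν)
  obtain ⟨R, hR⟩ := ustd_zero hH hρ hw (f.totalDegree + 1) (Finset.univ : Finset Unit)
    (g := fun _ i l _ =>
      lam (f.coeff (μ + Finsupp.single (β, 0) i + Finsupp.single (β, 1) l)))
    fun _ _ _ => ustd_const _
  refine ⟨R, fun r hr e => hl ?_⟩
  have e1 := coeff_spec2 β (vv (φ a) (φ c) false r) (H0.D 1 (vv (φ a) (φ c) false r)) f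
    (ustd_lt f) μ h0 h1
  rw [e, MvPolynomial.coeff_zero] at e1
  have e2 := congrArg lam e1
  simp only [map_zero, map_sum, ustd_phi hφ, hm] at e2
  have := hR () (Finset.mem_univ _) 0 r (by omega) e2.symm _
    ((MvPolynomial.monomial_le_degreeOf (β, 0) hν).trans_lt (ustd_lt f _)) _
    ((MvPolynomial.monomial_le_degreeOf (β, 1) hν).trans_lt (ustd_lt f _))
  rwa [hμ] at this

theorem ustd_two (hH : HypH (a : T) c) (hρ : S.H.D 1 a ≠ 0 ∨ S.H.D 1 c ≠ 0) {h : ℝ≥0}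
    (hw : ∀ b, S.Wand a c b h) (D : ℕ) (G : ℕ → ℕ → ℕ → ℕ → S.K0) :
    ∃ R : ℕ, ∀ b b' r r', R ≤ r → r + R ≤ r' →
      ∑ i ∈ Finset.range D, ∑ l ∈ Finset.range D,
        (∑ i' ∈ Finset.range D, ∑ l' ∈ Finset.range D, G i l i' l' * ustd_m a c b r i' l') *
          ustd_m a c b' r' i l = 0 →
      ∀ i, i < D → ∀ l, l < D → ∀ i', i' < D → ∀ l', l' < D → G i l i' l' = 0 := by
  choose R1 h1 using fun b' => ustd_zero hH hρ (hw b') D (Finset.univ : Finset Bool)
    (g := fun b i l r =>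
      ∑ i' ∈ Finset.range D, ∑ l' ∈ Finset.range D, G i l i' l' * ustd_m a c b r i' l')
    fun b i l => ustd_sum _ fun i' => ustd_sum _ fun l' =>
      ustd_mul (ustd_const _) (ustd_sm_m (hw b).hat i' l')
  choose R2 h2 using fun b => ustd_zero hH hρ (hw b) D (Finset.range D ×ˢ Finset.range D)
    (g := fun t i' l' _ => G t.1 t.2 i' l') fun _ _ _ => ustd_const _
  refine ⟨R1 false + R1 true + (R2 false + R2 true), fun b b' r r' hr hr' e i hi l hl => ?_⟩
  exact h2 b (i, l) (by simp [hi, hl]) 0 r (by cases b <;> omega)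
    (h1 b' b (Finset.mem_univ _) r r' (by cases b' <;> omega) e i hi l hl)

theorem Std.std2 (hφ : ∀ x : S.K0, H0.D 1 (φ x) = φ ⟨S.H.D 1 x, S.D_mem x x.2 1⟩)
    (hH : HypH (a : T) c) (hρ : S.H.D 1 a ≠ 0 ∨ S.H.D 1 c ≠ 0) {h : ℝ≥0}
    (hw : ∀ b, S.Wand a c b h) : Std2 H0 (φ a) (φ c) := by
  intro f hf
  obtain ⟨ν, hν⟩ := MvPolynomial.support_nonempty.2 hf
  obtain ⟨μ1, h0, h1, -, hμ1⟩ := ustd_split ν true
  obtain ⟨μ, h2, h3, h4, hμ⟩ := ustd_split μ1 false
  obtain ⟨lam, hl, hm⟩ := exists_coord φ (MvPolynomial.mem_support_iff.1 hν)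
  obtain ⟨G, hG⟩ : ∃ G : ℕ → ℕ → ℕ → ℕ → S.K0, ∀ i l i' l', G i l i' l' =
      lam (f.coeff (μ + Finsupp.single (false, 0) i + Finsupp.single (false, 1) l +
        Finsupp.single (true, 0) i' + Finsupp.single (true, 1) l')) := ⟨_, fun _ _ _ _ => rfl⟩
  obtain ⟨D, hD⟩ : ∃ D, ∀ s, f.degreeOf s < D := ⟨_, ustd_lt f⟩
  obtain ⟨R1, hR1⟩ := ustd_two hH hρ hw D G
  obtain ⟨R2, hR2⟩ := ustd_two hH hρ hw D fun i l i' l' => G i' l' i l
  refine ⟨R1 + R2, fun b b' r r' hr hr' hc e => hl ?_⟩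
  have e1 := coeff_spec2 false (vv (φ a) (φ c) b r) (H0.D 1 (vv (φ a) (φ c) b r)) _
    (fun s => (ustd_deg true (vv (φ a) (φ c) b' r') (H0.D 1 (vv (φ a) (φ c) b' r')) f s).trans_lt
      (hD s)) μ h2 h3
  rw [e, MvPolynomial.coeff_zero] at e1
  have e3 : ∀ i l, MvPolynomial.coeff
      (μ + Finsupp.single (false, 0) i + Finsupp.single (false, 1) l)
      (spec2 true (vv (φ a) (φ c) b' r') (H0.D 1 (vv (φ a) (φ c) b' r')) f) = _ := fun i l =>
    coeff_spec2 true _ _ f hD _ (by simp [h4, h0]) (by simp [h4, h1])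
  have e2 := congrArg lam e1
  simp only [e3, map_zero, map_sum, ustd_phi hφ, hm, ← hG] at e2
  have hb : ∀ s, ν s < D := fun s => (MvPolynomial.monomial_le_degreeOf s hν).trans_lt (hD s)
  have hb1 : ∀ s, μ1 s < D := fun s => lt_of_le_of_lt (by
    rw [← hμ1]; simp [add_assoc]) (hb s)
  have fin : G (μ1 (false, 0)) (μ1 (false, 1)) (ν (true, 0)) (ν (true, 1)) = 0 := by
    rcases hc with hc | hc
    · refine hR2 b b' r r' (by omega) (by omega) ?_ _ (hb _) _ (hb _) _ (hb1 _) _ (hb1 _)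
      rw [e2]
      simp only [Finset.sum_mul]
      calc _ = ∑ t ∈ Finset.range D ×ˢ Finset.range D, ∑ t' ∈ Finset.range D ×ˢ Finset.range D,
            G t'.1 t'.2 t.1 t.2 * ustd_m a c b r t'.1 t'.2 * ustd_m a c b' r' t.1 t.2 := by
            simp only [Finset.sum_product]
        _ = _ := by
            rw [Finset.sum_comm]
            simp only [Finset.sum_product, mul_right_comm]
    · exact hR1 b' b r' r (by omega) (by omega) e2.symm _ (hb1 _) _ (hb1 _) _ (hb _) _ (hb _)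
  rwa [hG, hμ, hμ1] at fin

end JR
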