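import Pool.Agent.Work.MP_969914_nt.UZero
import Pool.Agent.Work.MP_969914_nt.RCurveAlg

/-! Curves of bidegree `(d, d)` contain only finitely many shifted pairs. -/

set_option autoImplicit false

namespace JR

open scoped NNReal ENNReal
open Polynomial

section aux
variable {R R' : Type} [CommRing R] [CommRing R']

/-- Apply an additive map to all coefficients. -/
noncomputable def ustd3M (δ : R →+ R') : R[X] →+ R'[X] :=
  AddMonoidHom.mk' (fun f => f.sum fun i a => monomial i (δ a)) fun f g =>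
    sum_add_index _ _ _ (by simp) (by simp)

theorem ustd3_monomial (δ : R →+ R') (n : ℕ) (a : R) :
    ustd3M δ (monomial n a) = monomial n (δ a) :=
  sum_monomial_index a (fun i a => monomial i (δ a)) (by simp)

theorem ustd3_coeff (δ : R →+ R') (f : R[X]) (i : ℕ) : (ustd3M δ f).coeff i = δ (f.coeff i) := by
  induction f using Polynomial.induction_on' with
  | add f g hf hg => simp only [map_add, coeff_add, hf, hg]
  | monomial n a => simp only [ustd3_monomial, coeff_monomial, apply_ite δ, map_zero]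

theorem ustd3_deg (δ : R →+ R') (f : R[X]) : (ustd3M δ f).natDegree ≤ f.natDegree :=
  natDegree_le_iff_coeff_eq_zero.2 fun i hi => by
    rw [ustd3_coeff, coeff_eq_zero_of_natDegree_lt hi, map_zero]

theorem ustd3_eval (δ : R →+ R') {x : R} {x' : R'} (h : ∀ r, δ (r * x) = δ r * x') (f : R[X]) :
    δ (f.eval x) = (ustd3M δ f).eval x' := by
  induction f using Polynomial.induction_on' with
  | add f g hf hg => simp only [map_add, eval_add, hf, hg]
  | monomial n a =>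
    rw [ustd3_monomial, eval_monomial, eval_monomial]
    induction n with
    | zero => simp
    | succ n ih => rw [pow_succ, ← mul_assoc, h, ih, pow_succ, mul_assoc]

theorem ustd3_evalEval (δ : R →+ R') {x y : R} {x' y' : R'} (hx : ∀ r, δ (r * x) = δ r * x')
    (hy : ∀ r, δ (r * y) = δ r * y') (f : R[X][X]) :
    δ (f.evalEval x y) = (ustd3M (ustd3M δ) f).evalEval x' y' := by
  rw [evalEval, evalEval, ustd3_eval δ hx, ustd3_eval (ustd3M δ) (x' := C y')]
  intro r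
  ext i
  rw [ustd3_coeff, coeff_mul_C, coeff_mul_C, hy, ustd3_coeff]

theorem ustd3_coords {K k0 : Type} [Field K] [Field k0] (φ : K →+* k0) :
    ∃ (ι : Type) (δ : ι → k0 →+ K), (∀ i x r, δ i (r * φ x) = δ i r * x) ∧
      (∀ r, r ≠ 0 → ∃ i, δ i r ≠ 0) ∧ ∀ r, {i | δ i r ≠ 0}.Finite := by
  let _ := φ.toAlgebra
  let b := Module.Basis.ofVectorSpace K k0
  refine ⟨_, fun i => (b.coord i).toAddMonoidHom, fun i x r => ?_, fun r hr => ?_, fun r => ?_⟩
  · have : r * φ x = x • r := by rw [Algebra.smul_def, mul_comm]; rfl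
    simp only [this, LinearMap.toAddMonoidHom_coe, map_smul, smul_eq_mul, mul_comm]
  · by_contra h
    push Not at h
    exact hr (b.forall_coord_eq_zero_iff.1 h)
  · exact (b.repr r).support.finite_toSet.subset fun i hi => Finsupp.mem_support_iff.2 hi

theorem ustd3_spec {K : Type} [Field K] {G : K[X][X]} (hG : Irreducible G) (hd : G.natDegree ≠ 0)
    (x : K) : G.map (evalRingHom x) ≠ 0 := by
  intro h
  obtain ⟨H, e⟩ : C (X - C x) ∣ G := (C_dvd_iff_dvd_coeff _ _).2 fun i => dvd_iff_isRoot.2 (by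
    have := congrArg (coeff · i) h
    simpa using this)
  rcases hG.isUnit_or_isUnit e with h1 | h1
  · exact not_isUnit_X_sub_C x (isUnit_C.1 h1)
  · refine hd (Nat.le_zero.1 ?_)
    rw [e, ← natDegree_eq_zero_of_isUnit h1]
    exact natDegree_C_mul_le _ _

end aux

variable {p : ℕ} [Fact p.Prime] {k T : Type} [Field k] [CharP k p] [Field T] [Algebra k T]
  [CharP T p] {S : Std p k T} {k0 : Type} [Field k0] (φ : S.K0 →+* k0)

/-- Heights on a curve of bidegree `(d, d)` with coefficients in an extension field. -/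
theorem Std.ht_curve {G : k0[X][X]} (hG : Irreducible G) (hd : G.natDegree ≠ 0)
    (hdd : (Bivariate.swap G).natDegree = G.natDegree) :
    ∃ (C : ℝ≥0) (F : Finset k0), ∀ x y : S.K0, G.evalEval (φ x) (φ y) = 0 → φ x ∉ F →
      2 * S.toPF.ht (y : T) ≤ 3 * S.toPF.ht (x : T) + C := by
  classical
  obtain ⟨A, B, hB, h1, h2, h3, h4, h5⟩ := exists_quot_pow hd (3 * G.natDegree) (3 * G.natDegree)
    (by rw [hdd]; nlinarith [Nat.pos_of_ne_zero hd])
  obtain ⟨ι, δ0, d1, d2, d3⟩ := ustd3_coords φ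
  let δ : ι → k0 →+ T := fun i => S.K0.val.toRingHom.toAddMonoidHom.comp (δ0 i)
  have hδ : ∀ i r, δ i r = (δ0 i r : T) := fun _ _ => rfl
  have d1' : ∀ i (x : S.K0) r, δ i (r * φ x) = δ i r * x := fun i x r => by
    rw [hδ, hδ, d1]
    rfl
  have hI : {i | ustd3M (ustd3M (δ i)) B ≠ 0}.Finite := by
    refine (B.support.finite_toSet.biUnion fun m _ =>
      (B.coeff m).support.finite_toSet.biUnion fun j _ => d3 ((B.coeff m).coeff j)).subset
      fun i hi => ?_
    by_contra hn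
    refine hi ?_
    ext m j
    rw [ustd3_coeff, ustd3_coeff, coeff_zero, coeff_zero, hδ]
    by_contra h0
    have h6 : δ0 i ((B.coeff m).coeff j) ≠ 0 := fun e => h0 (by rw [e]; rfl)
    have h7 : (B.coeff m).coeff j ≠ 0 := fun e => h6 (by rw [e, map_zero])
    have h8 : B.coeff m ≠ 0 := fun e => h7 (by rw [e, coeff_zero])
    exact hn (Set.mem_biUnion (mem_support_iff.2 h8) (Set.mem_biUnion (mem_support_iff.2 h7) h6))
  have hF : (Prod.fst '' {q : k0 × k0 | G.evalEval q.1 q.2 = 0 ∧ B.evalEval q.1 q.2 = 0}).Finite := by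
    by_contra h
    exact hB (eq_zero_of_dvd_of_natDegree_lt (dvd_of_common_points hG hd _ h fun _ hq => hq) h2)
  choose u hu using fun z => (⟨_, (ENNReal.coe_toNNReal (S.ht_lt z).ne).symm⟩ :
    ∃ u : ℝ≥0, S.toPF.ht z = u)
  choose s hs hs' using fun i =>
    S.toPF.ht_div_evalEval (ustd3M (ustd3M (δ i)) A) (ustd3M (ustd3M (δ i)) B)
  refine ⟨∑ i ∈ hI.toFinset, ∑ α ∈ s i, u α, hF.toFinset, fun x y h0 hx => ?_⟩
  have hB0 : B.evalEval (φ x) (φ y) ≠ 0 := fun e =>
    hx (hF.mem_toFinset.2 ⟨(φ x, φ y), ⟨h0, e⟩, rfl⟩)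
  obtain ⟨i, hi⟩ := d2 _ hB0
  have hi' : (ustd3M (ustd3M (δ i)) B).evalEval (x : T) y ≠ 0 := by
    rw [← ustd3_evalEval (δ i) (d1' i x) (d1' i y), hδ]
    exact fun e => hi (Subtype.ext e)
  have hiI : i ∈ hI.toFinset := hI.mem_toFinset.2 fun e => hi' (by rw [e]; simp)
  have e1 : A.evalEval (φ x) (φ y) = B.evalEval (φ x) (φ y) * φ (y ^ (3 * G.natDegree)) := by
    obtain ⟨H, e⟩ := h5
    have := congrArg (evalEval (φ x) (φ y)) e
    rw [evalEval_mul, h0, zero_mul, evalEval_sub, evalEval_mul, evalEval_pow, evalEval_X,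
      sub_eq_zero] at this
    rw [this, map_pow]
  have e2 : (ustd3M (ustd3M (δ i)) A).evalEval (x : T) y /
      (ustd3M (ustd3M (δ i)) B).evalEval (x : T) y = (y : T) ^ (3 * G.natDegree) := by
    rw [div_eq_iff hi', ← ustd3_evalEval (δ i) (d1' i x) (d1' i y),
      ← ustd3_evalEval (δ i) (d1' i x) (d1' i y), e1, d1', mul_comm]
    rfl
  have h6 := hs' i x y (3 * G.natDegree) G.natDegree ((ustd3_deg _ _).trans h1.le)
    ((ustd3_deg _ _).trans h2.le)
    (fun m => by rw [ustd3_coeff]; exact (ustd3_deg _ _).trans (h3 m))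
    (fun m => by rw [ustd3_coeff]; exact (ustd3_deg _ _).trans (h4 m)) hi'
  rw [e2, S.toPF.ht_pow] at h6
  simp only [hu] at h6 ⊢
  have h7 : ∑ α ∈ s i, u α ≤ ∑ i ∈ hI.toFinset, ∑ α ∈ s i, u α :=
    Finset.single_le_sum (f := fun i => ∑ α ∈ s i, u α) (fun _ _ => zero_le) hiI
  generalize ∑ i ∈ hI.toFinset, ∑ α ∈ s i, u α = C at h7 ⊢
  have h8 : ((3 * G.natDegree : ℕ) : ℝ≥0) * u y ≤
      (3 * G.natDegree : ℕ) * u x + G.natDegree * u y + ∑ α ∈ s i, u α := by exact_mod_cast h6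
  generalize ∑ α ∈ s i, u α = C' at h7 h8
  have h9 : (1 : ℝ) ≤ G.natDegree := by exact_mod_cast Nat.pos_of_ne_zero hd
  have h10 : 2 * u y ≤ 3 * u x + C := by
    rw [← NNReal.coe_le_coe] at h7 h8 ⊢
    push_cast at h8 ⊢
    have := C.2
    refine le_of_mul_le_mul_left ?_ (one_pos.trans_le h9)
    nlinarith [C.coe_nonneg]
  exact_mod_cast h10

theorem ustd3_half {a c : S.K0} (hE : HypEq (a : T) c) {h : ℝ≥0} (hw : ∀ b, S.Wand a c b h)
    {G : k0[X][X]} (hG : Irreducible G) (hd : G.natDegree ≠ 0)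
    (hdd : (Bivariate.swap G).natDegree = G.natDegree) : ∃ R : ℕ, ∀ b b' r r',
      G.evalEval (vv (φ a) (φ c) b r) (vv (φ a) (φ c) b' r') = 0 → r < r' → r' < R := by
  obtain ⟨C, F, hC⟩ := Std.ht_curve φ hG hd hdd
  have hE' : HypEq (φ a) (φ c) := (HypEq.map φ).2 ((HypEq.map S.K0.val.toRingHom).1 hE)
  choose C0 hC0 using fun b => (hw b).hat
  have hh : 0 < h := pos_iff_ne_zero.2 (hw false).pos
  obtain ⟨N, hN⟩ := pow_unbounded_of_one_lt (2 * (5 * (C0 false + C0 true) + C) / h)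
    (one_lt_two (α := ℝ≥0))
  rw [div_lt_iff₀ hh] at hN
  have hfin : (⋃ x ∈ F, ⋃ b' : Bool,
      {r' | (G.map (evalRingHom x)).IsRoot (vv (φ a) (φ c) b' r')}).Finite :=
    F.finite_toSet.biUnion fun x _ => Set.finite_iUnion fun b' =>
      (finite_setOfPred_isRoot (ustd3_spec hG hd x)).preimage
        (f := vv (φ a) (φ c) b') fun _ _ _ _ e => (hE'.vv_inj e).2
  obtain ⟨M, hM⟩ := hfin.bddAbove
  refine ⟨max N (M + 1), fun b b' r r' h0 hr => ?_⟩
  by_cases hx : vv (φ a) (φ c) b r ∈ F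
  · refine lt_max_of_lt_right (Nat.lt_succ_of_le (hM ?_))
    exact Set.mem_biUnion hx (Set.mem_iUnion.2 ⟨b', (map_evalRingHom_eval _ _ _).trans h0⟩)
  refine lt_max_of_lt_left (not_le.1 fun hN' => ?_)
  rw [map_vv φ] at hx
  rw [map_vv φ, map_vv φ] at h0
  have h1 := hC _ _ h0 hx
  have e : ∀ b r, ((vv a c b r : S.K0) : T) = vv (a : T) c b r := fun b r =>
    (map_vv S.K0.val.toRingHom b r).symm
  rw [e, e] at h1
  have h2 := (hC0 b r).1
  have h3 := (hC0 b' r').2
  obtain ⟨u, hu⟩ : ∃ u : ℝ≥0, S.toPF.ht (vv (a : T) c b r) = u :=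
    ⟨_, (ENNReal.coe_toNNReal (S.ht_lt _).ne).symm⟩
  obtain ⟨u', hu'⟩ : ∃ u : ℝ≥0, S.toPF.ht (vv (a : T) c b' r') = u :=
    ⟨_, (ENNReal.coe_toNNReal (S.ht_lt _).ne).symm⟩
  rw [hu] at h1 h2
  rw [hu'] at h1 h3
  have g1 : 2 * (u' : ℝ) ≤ 3 * u + C := by exact_mod_cast h1
  have g2 : (u : ℝ) ≤ h * 2 ^ r + C0 b := by exact_mod_cast h2
  have g3 : (h : ℝ) * 2 ^ r' ≤ u' + C0 b' := by exact_mod_cast h3
  have g4 : 2 * (5 * ((C0 false : ℝ) + C0 true) + C) < 2 ^ N * h := by exact_mod_cast hN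
  have g5 : ∀ b, (C0 b : ℝ) ≤ C0 false + C0 true := fun b => by
    cases b
    · exact le_add_of_nonneg_right (C0 true).coe_nonneg
    · exact le_add_of_nonneg_left (C0 false).coe_nonneg
  have g6 : (h : ℝ) * 2 ^ N ≤ h * 2 ^ r' :=
    mul_le_mul_of_nonneg_left (pow_le_pow_right₀ one_le_two hN') h.coe_nonneg
  have g7 : (h : ℝ) * 2 ^ (r + 1) ≤ h * 2 ^ r' :=
    mul_le_mul_of_nonneg_left (pow_le_pow_right₀ one_le_two hr) h.coe_nonneg
  rw [pow_succ] at g7
  linarith [g5 b, g5 b']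

theorem Std.std3 {a c : S.K0} (hE : HypEq (a : T) c) {h : ℝ≥0} (hw : ∀ b, S.Wand a c b h) :
    Std3 (φ a) (φ c) := by
  intro G hG hd hdd
  obtain ⟨R1, h1⟩ := ustd3_half φ hE hw hG hd hdd
  obtain ⟨R2, h2⟩ := ustd3_half φ hE hw (G := Bivariate.swap G)
    ((MulEquiv.irreducible_iff (Bivariate.swap (R := k0))).2 hG) (hdd ▸ hd)
    (by rw [Bivariate.swap_swap_apply, hdd])
  refine ⟨max R1 R2, fun b b' r r' hR h0 => ?_⟩
  rcases lt_trichotomy r r' with h3 | h3 | h3
  · have := h1 b b' r r' h0 h3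
    omega
  · exact h3
  · have := h2 b' b r' r (by
      rw [← coe_aevalAeval_eq_evalEval] at h0 ⊢
      rw [Bivariate.aevalAeval_swap, h0]) h3
    omega

end JR
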