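import Pool.Agent.Work.MP_969914_nt.UTree
import Pool.Agent.Work.MP_969914_nt.UStd
import Pool.Agent.Work.MP_969914_nt.UStd3
import Pool.Agent.Work.MP_969914_nt.RSdn2

/-! The gcd bound: the cases. -/

set_option autoImplicit false

namespace JR

open scoped NNReal ENNReal
open Filter Topology Polynomial

variable {p : ℕ} [Fact p.Prime] {k T : Type} [Field k] [CharP k p] [Field T] [Algebra k T]
  [CharP T p] {S : Std p k T}

theorem usd_indep {k T : Type} [Field k] [Field T] [Algebra k T] {y : T}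
    (h : Transcendental k y) (n : ℕ) : LinearIndependent k fun i : Fin n => y ^ (i : ℕ) := by
  have h1 := ((basisMonomials k).linearIndependent.map' (aeval y).toLinearMap
    (LinearMap.ker_eq_bot.2 (transcendental_iff_injective.1 h))).comp _ (Fin.val_injective (n := n))
  have e : (fun i : Fin n => y ^ (i : ℕ)) =
      ((aeval y).toLinearMap ∘ basisMonomials k) ∘ Fin.val := by
    funext i
    simp
  rw [e]
  exact h1

omit [CharP k p] [CharP T p] in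
/-- An element with roots of all orders is constant. -/
theorem usd_const [IsAlgClosed k] {a : T} (ha : ∀ w ∈ S.fin, S.v w a ≤ 1)
    (h : ∀ n, ∃ y ∈ S.K0, y ^ p ^ (n + 1) = a) : a ∈ (algebraMap k T).range := by
  obtain ⟨C, hC⟩ := S.inf_bound a
  obtain ⟨y, hy, rfl⟩ := h (S.n0 * (C + 1))
  have hp : 1 < p := (Fact.out : p.Prime).one_lt
  have h0 : p ^ (S.n0 * (C + 1) + 1) ≠ 0 := by positivity
  have h1 : IsAlgebraic k y := by
    by_contra h1
    have h2 := S.dim_le ⊥ inferInstance 1 one_ne_zero C _ _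
      (usd_indep h1 (p ^ (S.n0 * (C + 1) + 1)))
      (fun i => IntermediateField.algebraMap_mem ⊥ (⟨_, pow_mem hy i⟩ : S.K0))
      (fun i w hw => ?_) fun i w hw => ?_
    · rw [IntermediateField.finrank_bot, mul_one] at h2
      have h3 := Nat.lt_pow_self (n := S.n0 * (C + 1) + 1) hp
      omega
    · have h3 := ha w hw
      rw [map_pow, pow_le_one_iff h0] at h3
      rw [one_mul, map_pow]
      exact pow_le_one₀ zero_le h3
    · rw [one_mul, map_pow]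
      rcases le_total (S.v w y) 1 with h3 | h3
      · exact (pow_le_one₀ zero_le h3).trans (one_le_pow₀ S.one_lt_q.le)
      · exact (pow_le_pow_right₀ h3 i.2.le).trans (map_pow (S.v w) y _ ▸ hC w hw)
  exact pow_mem (minpoly.mem_range_of_degree_eq_one k y
    (IsAlgClosed.degree_eq_one_of_irreducible k (minpoly.irreducible h1.isIntegral))) _

theorem usd_arith {η : ℝ≥0} {n : ℕ} {μ : ℝ≥0∞} (h : n * (η : ℝ≥0∞) ≤ 8000 * μ) :
    ((η / 8000 : ℝ≥0) : ℝ≥0∞) * n ≤ μ := by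
  refine (ENNReal.mul_le_mul_iff_right (a := 8000) (by norm_num) ENNReal.ofNat_ne_top).1
    (le_trans (le_of_eq ?_) h)
  rw [← mul_assoc, mul_comm, ← ENNReal.coe_ofNat, ← ENNReal.coe_mul,
    mul_div_cancel₀ _ (by norm_num)]

/-- Extraction of the inseparable part of the map. -/
theorem Dyn.exists_root [IsAlgClosed k] (d : Dyn S) {h : ℝ≥0} (hw : S.Wand d.a d.c false h)
    (ha : S.H.D 1 d.a = 0) (hc : S.H.D 1 d.c = 0) :
    ∃ (n : ℕ) (a1 c1 : S.K0), (a1 : T) ^ p ^ (n + 1) = d.a ∧ (c1 : T) ^ p ^ (n + 1) = d.c ∧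
      (S.H.D 1 a1 ≠ 0 ∨ S.H.D 1 c1 ≠ 0) := by
  by_contra h0
  push Not at h0
  have h1 : ∀ n, ∃ a1 c1 : S.K0, (a1 : T) ^ p ^ (n + 1) = d.a ∧ (c1 : T) ^ p ^ (n + 1) = d.c := by
    intro n
    induction n with
    | zero =>
      obtain ⟨y, hy, e⟩ := S.proot0 _ d.a_mem ha
      obtain ⟨z, hz, e'⟩ := S.proot0 _ d.c_mem hc
      exact ⟨⟨y, hy⟩, ⟨z, hz⟩, by simpa using e, by simpa using e'⟩
    | succ n ih =>
      obtain ⟨a1, c1, h2, h3⟩ := ih
      obtain ⟨h4, h5⟩ := h0 n a1 c1 h2 h3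
      obtain ⟨y, hy, e⟩ := S.proot0 _ a1.2 h4
      obtain ⟨z, hz, e'⟩ := S.proot0 _ c1.2 h5
      refine ⟨⟨y, hy⟩, ⟨z, hz⟩, ?_, ?_⟩
      · rw [pow_succ' p, pow_mul, e, h2]
      · rw [pow_succ' p, pow_mul, e', h3]
  obtain ⟨α, hα⟩ := usd_const d.a_int fun n => (h1 n).elim fun a1 h => h.elim fun _ h =>
    ⟨a1, a1.2, h.1⟩
  obtain ⟨γ, hγ⟩ := usd_const d.c_int fun n => (h1 n).elim fun _ h => h.elim fun c1 h =>
    ⟨c1, c1.2, h.2⟩
  obtain ⟨C, hC⟩ := hw.hat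
  refine hw.pos (le_antisymm (rhat_le (C := C) fun j => ?_) zero_le)
  have h2 := (hC j).2
  rw [← hα, ← hγ, map_vv, PF.ht, S.toPF.I_eq_zero fun w => S.v_k w _, zero_add] at h2
  rw [zero_mul, zero_add]
  exact_mod_cast h2

theorem vv_pow (a c : T) (n : ℕ) (b : Bool) (r : ℕ) :
    vv (a ^ p ^ n) (c ^ p ^ n) b r = vv a c b r ^ p ^ n := by
  exact map_vv (iterateFrobenius T p n) b r

theorem Std.Wand.root {a c : T} {n : ℕ} {b : Bool} {h : ℝ≥0}
    (hw : S.Wand (a ^ p ^ n) (c ^ p ^ n) b h) : S.Wand a c b (h / p ^ n) := by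
  have hp : (p : ℝ≥0) ^ n ≠ 0 := pow_ne_zero _ (Nat.cast_ne_zero.2 (Fact.out : p.Prime).ne_zero)
  refine ⟨fun e => hw.ne (by rw [e]), fun r e => hw.fin r ?_, div_ne_zero hw.pos hp, ?_⟩
  · have h1 := congrArg Prod.snd (map_orb a c (iterateFrobenius T p n) b (r + 1))
    rw [e, map_zero] at h1
    exact h1
  · obtain ⟨C, hC⟩ := hw.hat
    refine ⟨C, fun r => ?_⟩
    obtain ⟨h1, h2⟩ := hC r
    rw [vv_pow, S.toPF.ht_pow] at h1 h2
    have h3 : ((p ^ n : ℕ) : ℝ≥0∞) ≠ 0 := Nat.cast_ne_zero.2 (by exact_mod_cast hp)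
    have h4 : (C : ℝ≥0∞) ≤ (p ^ n : ℕ) * C :=
      le_mul_of_one_le_left zero_le (Nat.one_le_cast.2 (Nat.pos_of_ne_zero (Nat.cast_ne_zero.1 h3)))
    have h5 : (h : ℝ≥0∞) * 2 ^ r = (p ^ n : ℕ) * (((h / p ^ n : ℝ≥0) : ℝ≥0∞) * 2 ^ r) := by
      rw [← mul_assoc, ← ENNReal.coe_natCast, ← ENNReal.coe_mul, Nat.cast_pow,
        mul_div_cancel₀ _ hp]
    rw [h5] at h1 h2
    constructor <;>
      refine (ENNReal.mul_le_mul_iff_right h3 (ENNReal.natCast_ne_top _)).1 ?_ <;> rw [mul_add]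
    · exact h1.trans (add_le_add le_rfl h4)
    · exact h2.trans (add_le_add le_rfl h4)

theorem usd_D_vv {a c : T} (ha : a ∈ S.K0) (hc : c ∈ S.K0) (ha' : S.H.D 1 a = 0)
    (hc' : S.H.D 1 c = 0) (b : Bool) (r : ℕ) : S.H.D 1 (vv a c b r) = 0 := by
  obtain ⟨y, -, rfl⟩ := S.proot0 _ ha ha'
  obtain ⟨z, -, rfl⟩ := S.proot0 _ hc hc'
  have h1 := vv_pow (p := p) y z 1 b r
  rw [pow_one] at h1
  rw [h1]
  exact S.H.D_pow_char p _ (Fact.out : p.Prime).not_dvd_one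

theorem usd_swap {K : Type} [Field K] {a c : K} (hac : a ≠ c) (h : c = a ^ 3) (n : ℕ) :
    wedge (orb a c true n) ((orb a c false n).2, a ^ 2 * (orb a c false n).1) = 0 := by
  induction n with
  | zero => simp [orb, crit, wedge]
  | succ n ih =>
    have h1 := wedge_iter (a := a) (c := c) ih 1
    have h0 : a ≠ 0 := fun e => hac (by simp [h, e])
    rw [Function.iterate_one, Phi_swap h, ← orb_succ, ← orb_succ] at h1
    refine mul_left_cancel₀ h0 ?_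
    simp only [wedge] at h1 ⊢
    linear_combination h1

namespace UP
variable {m : ℕ → ℕ} {K Γ : Type} [Field K] [CharP K p] [LinearOrderedCommGroupWithZero Γ]
  {N : NS p K Γ} {u : UP S m N} {d : Dyn S} {A : ℕ → Finset T} {B : Finset N.toPF.k0}
  {s : N.toPF.k0 → ℕ → T}

theorem usd_rep (u : UP S m N) (d : Dyn S) (b : Bool) :
    ∃ z, u.Rep z fun n => vv d.a d.c b (m n) :=
  u.exists_of_K0 fun n => Std.vv_mem d.a0 d.c0 b (m n)

theorem usd_ne {a c : T} (hE : HypEq a c) {x y : ℤ → K}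
    (hx : ∀ i, u.Rep (x i) fun n => vv a c false ((m n : ℤ) + i).toNat)
    (hy : ∀ i, u.Rep (y i) fun n => vv a c true ((m n : ℤ) + i).toNat) (i : ℤ) : x i ≠ y i :=
  fun e => (((hx i).eq_iff (hy i)).1 e).exists.elim fun _ h => by simpa using (hE.vv_inj h).1

theorem usd_ca {a c : S.K0} (h : (c : T) ≠ a ^ 3) : u.cst c ≠ u.cst a ^ 3 := fun e =>
  h (congrArg Subtype.val (u.cst.injective (e.trans (map_pow _ _ _).symm)))

/-- (M) for a critical orbit. -/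
theorem TreeSet.simple (h : u.TreeSet d A B s) {b : Bool} {η : ℝ≥0} (hw : S.Wand d.a d.c b η)
    {z : K} (hz : u.Rep z fun n => vv d.a d.c b (m n)) :
    (η : ℝ≥0∞) * B.card ≤ N.toPF.mass {w | ∃ β ∈ B, N.v w (z - β) < 1} ∧
      ∀ᶠ w in N.toPF.ae, ∀ β ∈ B, N.v w (z - β) < 1 → N.v w (z - β) = N.q⁻¹ := by
  have h1 := ht_seq hw.hat hz
  rw [← h1, mul_comm]
  refine NS.simple_of_exc (fun h2 => hw.pos ?_) B ?_
  · rw [N.toPF.ht_eq_zero_of_isAlgebraic h2] at h1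
    exact_mod_cast h1.symm
  by_cases hρ : S.H.D 1 d.a ≠ 0 ∨ S.H.D 1 d.c ≠ 0
  · obtain ⟨z', hz'⟩ := u.exists_seq d.a0 d.c0 b
    rw [(hz.eq_iff (rep_seq_zero hz')).2 (Eventually.of_forall fun _ => rfl)]
    exact NS.exc_eq_zero (hypH_cst (a := d.a0) (c := d.c0) d.hypH) (rho_cst hρ)
      (orb_seq (a := d.a0) (c := d.c0) hw hz') B (fun _ => h.unr) 0
  · push Not at hρ
    exact NS.exc_eq_zero_of_D ((hz.D 1).eq_zero_iff.2 (Eventually.of_forall fun _ =>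
      usd_D_vv d.a_mem d.c_mem hρ.1 hρ.2 b _)) B fun _ => h.D_ne hρ.1 hρ.2

theorem TreeSet.mass_meet_le (h : u.TreeSet d A B s) {b : Bool} {η : ℝ≥0}
    (hh : S.IsHat d.a d.c b η) {z : K} (hz : u.Rep z fun n => vv d.a d.c b (m n)) :
    N.toPF.mass {w | ∃ β ∈ B, N.v w (z - β) < 1} ≤ (η : ℝ≥0∞) * B.card := by
  have e : {w | ∃ β ∈ B, N.v w (z - β) < 1} = ⋃ β ∈ B, {w | N.v w (z - β) < 1} := by
    ext w
    simp
  rw [e, mul_comm, ← nsmul_eq_mul]
  refine (N.toPF.mass_biUnion_le _ _).trans (Finset.sum_le_card_nsmul _ _ _ fun β hβ => ?_)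
  refine (N.mass_lt_one_le (sub_ne_zero.2 (h.ne hz hβ))).trans ?_
  rw [sub_eq_add_neg]
  refine (N.toPF.ht_add_le _ _).trans_eq ?_
  rw [N.toPF.ht_neg, N.toPF.mem_k0.1 β.2, add_zero, ht_seq hh hz]

/-- Places where only the orbit `b` meets the set are good. -/
theorem TreeSet.half (h : u.TreeSet d A B s) {b : Bool} {η : ℝ≥0} (hw : S.Wand d.a d.c b η)
    {z z' : K} (hz : u.Rep z fun n => vv d.a d.c b (m n))
    (hz' : u.Rep z' fun n => vv d.a d.c (!b) (m n)) :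
    ∀ᶠ w in N.toPF.ae, (∃ β ∈ B, N.v w (z - β) < 1) → (¬ ∃ β ∈ B, N.v w (z' - β) < 1) →
      ∀ᶠ n in u.U, u.pl w n ∈ d.GoodSet (m n + 1) (A n) := by
  filter_upwards [h.ae_int, h.con_simple hw.fin hz, h.con_one hz', (h.simple hw hz).2]
    with w h1 h2 h3 h4 ⟨β, hβ, h5⟩ h6
  filter_upwards [h1, h2 ⟨β, hβ, h4 β hβ h5⟩, h3 h6] with n h7 h8 h9
  refine ⟨h7.1, h7.2, ?_⟩
  cases b
  · exact Or.inl ⟨h8, h9⟩
  · exact Or.inr ⟨h9, h8⟩

theorem TreeSet.sdA (h : u.TreeSet d A B s) {η : ℝ≥0} (hw : S.Wand d.a d.c false η) :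
    (η : ℝ≥0∞) * B.card ≤
      N.toPF.mass {w | ∀ᶠ n in u.U, u.pl w n ∈ d.SimpleSet (m n + 1) (A n)} := by
  obtain ⟨z, hz⟩ := usd_rep u d false
  refine (h.simple hw hz).1.trans (N.toPF.mass_mono_ae ?_)
  filter_upwards [h.ae_int, h.con_simple hw.fin hz, (h.simple hw hz).2]
    with w h1 h2 h4 ⟨β, hβ, h5⟩
  filter_upwards [h1, h2 ⟨β, hβ, h4 β hβ h5⟩] with n h7 h8
  exact ⟨h7.1, h7.2, h8⟩

theorem TreeSet.sd_lt (h : u.TreeSet d A B s) {b : Bool} {η η' : ℝ≥0} (hw : S.Wand d.a d.c b η)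
    (hh : S.IsHat d.a d.c (!b) η') :
    ((η - η' : ℝ≥0) : ℝ≥0∞) * B.card ≤
      N.toPF.mass {w | ∀ᶠ n in u.U, u.pl w n ∈ d.GoodSet (m n + 1) (A n)} := by
  obtain ⟨z, hz⟩ := usd_rep u d b
  obtain ⟨z', hz'⟩ := usd_rep u d (!b)
  rw [ENNReal.coe_sub, ENNReal.sub_mul fun _ _ => ENNReal.natCast_ne_top _, tsub_le_iff_right]
  refine (h.simple hw hz).1.trans (le_trans ?_ ((N.toPF.mass_union_le _ _).trans
    (add_le_add le_rfl (h.mass_meet_le hh hz'))))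
  refine N.toPF.mass_mono_ae ?_
  filter_upwards [h.half hw hz hz'] with w h1 h2
  by_cases h3 : ∃ β ∈ B, N.v w (z' - β) < 1
  · exact Or.inr h3
  · exact Or.inl (h1 h2 h3)

theorem TreeSet.sd_aut (h : u.TreeSet d A B s) {η : ℝ≥0} (hw : ∀ b, S.Wand d.a d.c b η)
    (hc : d.c = d.a ^ 3) : (η : ℝ≥0∞) * B.card ≤
      N.toPF.mass {w | ∀ᶠ n in u.U, u.pl w n ∈ d.GoodSet (m n + 1) (A n)} := by
  obtain ⟨x, hx⟩ := usd_rep u d false
  obtain ⟨y, hy⟩ := usd_rep u d true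
  have h1 : (u.cst d.a0 : K) ^ 2 * (x * y) = 1 := by
    refine ((((u.rep_cst d.a0).pow 2).mul (hx.mul hy)).eq_iff rep_one).2
      (Eventually.of_forall fun n => ?_)
    have h1 := usd_swap d.hypH.ne hc (m n + 1)
    have h2 := (hw false).fin (m n)
    have h3 := (hw true).fin (m n)
    change d.a ^ 2 * (vv d.a d.c false (m n) * vv d.a d.c true (m n)) = 1
    simp only [wedge] at h1
    simp only [vv]
    field_simp
    linear_combination h1
  have h2 : ∀ᶠ w in N.toPF.ae, ∀ β ∈ B, ∀ β' ∈ B,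
      N.v w ((u.cst d.a0 : K) ^ 2 * β * β' - 1) = 1 := by
    refine (Finset.eventually_all _).2 fun β hβ => (Finset.eventually_all _).2 fun β' hβ' => ?_
    exact N.ae_unit (u.cst d.a0 ^ 2 * β * β' - 1).2 fun e =>
      sub_ne_zero.2 (h.mu_ne hc hβ hβ') (Subtype.ext e)
  have h3 : ∀ᶠ w in N.toPF.ae, ∀ β ∈ B, N.v w β ≤ 1 :=
    (Finset.eventually_all _).2 fun β _ => N.ae_int β.2
  refine (h.simple (hw false) hx).1.trans (N.toPF.mass_mono_ae ?_)
  filter_upwards [h.half (hw false) hx hy, h2, h3, N.ae_int (u.cst d.a0).2]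
    with w h4 h5 h6 h7 ⟨β, hβ, h8⟩
  refine h4 ⟨β, hβ, h8⟩ fun ⟨β', hβ', h9⟩ => (h5 β hβ β' hβ').not_lt ?_
  have h10 : N.v w x ≤ 1 := by simpa using (N.v w).map_add_le h8.le (h6 β hβ)
  have h11 := (rns_mul_sub (N.v w) h10 (h6 β' hβ') (le_max_left _ _) (le_max_right _ _)).trans_lt
    (max_lt h8 h9)
  rw [← h1, mul_assoc, ← mul_sub, map_mul, map_pow, (N.v w).map_sub_swap]
  exact (mul_le_of_le_one_left zero_le (pow_le_one₀ zero_le h7)).trans_lt h11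

theorem TreeSet.diff_le (h : u.TreeSet d A B s) {η : ℝ≥0} (hw : ∀ b, S.Wand d.a d.c b η)
    {x y : K} (hx : u.Rep x fun n => vv d.a d.c false (m n))
    (hy : u.Rep y fun n => vv d.a d.c true (m n)) : N.toPF.mass (N.Diff B x y) ≤
      N.toPF.mass {w | ∀ᶠ n in u.U, u.pl w n ∈ d.GoodSet (m n + 1) (A n)} := by
  refine N.toPF.mass_mono_ae ?_
  filter_upwards [h.half (hw false) hx hy, h.half (hw true) hy hx] with w h1 h2 h3
  by_cases h4 : ∃ β ∈ B, N.v w (x - β) < 1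
  · exact h1 h4 fun h5 => h3 (iff_of_true h4 h5)
  · exact h2 (by_contra fun h5 => h3 (iff_of_false h4 h5)) h4

theorem TreeSet.sd_gen [IsAlgClosed k] (h : u.TreeSet d A B s) {η : ℝ≥0}
    (hw : ∀ b, S.Wand d.a d.c b η) (hE : HypEq d.a d.c) (hc : d.c ≠ d.a ^ 3) :
    ((η / 8000 : ℝ≥0) : ℝ≥0∞) * B.card ≤
      N.toPF.mass {w | ∀ᶠ n in u.U, u.pl w n ∈ d.GoodSet (m n + 1) (A n)} := by
  obtain ⟨x, hx⟩ := usd_rep u d false
  obtain ⟨y, hy⟩ := usd_rep u d true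
  refine (usd_arith ?_).trans (h.diff_le hw hx hy)
  rw [← ht_seq (hw false).hat hx]
  by_cases hρ : S.H.D 1 d.a ≠ 0 ∨ S.H.D 1 d.c ≠ 0
  · obtain ⟨X, hX⟩ := u.exists_seq d.a0 d.c0 false
    obtain ⟨Y, hY⟩ := u.exists_seq d.a0 d.c0 true
    rw [(hx.eq_iff (rep_seq_zero hX)).2 (Eventually.of_forall fun _ => rfl),
      (hy.eq_iff (rep_seq_zero hY)).2 (Eventually.of_forall fun _ => rfl)]
    exact NS.sd_rho (hypEq_cst (a := d.a0) (c := d.c0) hE) (rho_cst hρ)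
      (Std.std1 (fun x => u.cst_D x 1) d.hypH hρ (hw false))
      (Std.std2 (fun x => u.cst_D x 1) d.hypH hρ hw) (Std.std3 u.cst hE hw) (usd_ca hc)
      (orb_seq (hw false) hX) (orb_seq (hw true) hY)
      ((ht_seq (hw false).hat (rep_seq_zero hX)).trans
        (ht_seq (hw true).hat (rep_seq_zero hY)).symm) (usd_ne hE hX hY) B fun _ => h.unr
  · push Not at hρ
    obtain ⟨n, a1, c1, h1, h2, h3⟩ := d.exists_root (hw false) hρ.1 hρ.2
    have hw' : ∀ b, S.Wand (a1 : T) c1 b (η / p ^ (n + 1)) := fun b =>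
      Std.Wand.root (by rw [h1, h2]; exact hw b)
    have hE' : HypEq (a1 : T) c1 := (HypEq.map (iterateFrobenius T p (n + 1))).1 (by
      rw [iterateFrobenius_def, iterateFrobenius_def, h1, h2]
      exact hE)
    obtain ⟨X, hX⟩ := u.exists_seq a1 c1 false
    obtain ⟨Y, hY⟩ := u.exists_seq a1 c1 true
    have e : ∀ b r, vv d.a d.c b r = vv (a1 : T) c1 b r ^ p ^ (n + 1) := fun b r => by
      rw [← vv_pow, h1, h2]
    have ea : u.cst d.a0 = u.cst a1 ^ p ^ (n + 1) := by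
      rw [← map_pow]
      exact congrArg _ (Subtype.ext h1.symm)
    have ec : u.cst d.c0 = u.cst c1 ^ p ^ (n + 1) := by
      rw [← map_pow]
      exact congrArg _ (Subtype.ext h2.symm)
    rw [(hx.eq_iff ((rep_seq_zero hX).pow _)).2 (Eventually.of_forall fun _ => e _ _),
      (hy.eq_iff ((rep_seq_zero hY).pow _)).2 (Eventually.of_forall fun _ => e _ _)]
    exact NS.sd_zero (hypEq_cst hE') (rho_cst h3) (Std.std3 u.cst hE' hw')
      (usd_ca fun e => hc (by rw [← h1, ← h2, e, pow_right_comm]))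
      (orb_seq (hw' false) hX) (orb_seq (hw' true) hY)
      ((ht_seq (hw' false).hat (rep_seq_zero hX)).trans
        (ht_seq (hw' true).hat (rep_seq_zero hY)).symm) (usd_ne hE' hX hY) B
      (fun _ hβ => ea ▸ ec ▸ h.unr hβ) fun _ => h.D_ne hρ.1 hρ.2

end UP

end JR
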