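import Pool.Agent.Work.MP_969914_nt.UZero
import Pool.Agent.Work.MP_969914_nt.RM2

/-! Finite sets of tree points in the ultrapower, and the transfer of lower bounds. -/

set_option autoImplicit false

namespace JR

open scoped NNReal ENNReal
open Filter Topology Polynomial

variable {p : ℕ} [Fact p.Prime] {k T : Type} [Field k] [CharP k p] [Field T] [Algebra k T]
  [CharP T p] {S : Std p k T}

def Dyn.a0 (d : Dyn S) : S.K0 := ⟨d.a, d.a_mem⟩

def Dyn.c0 (d : Dyn S) : S.K0 := ⟨d.c, d.c_mem⟩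

omit [Fact p.Prime] [CharP k p] [CharP T p] in
theorem utree_D (d : Dyn S) (ha : S.H.D 1 d.a = 0) (hc : S.H.D 1 d.c = 0) {l : ℕ} {z : T}
    (hz : z ∈ d.V l) : S.H.D 1 z ≠ 0 := by
  intro e
  have key : ∀ j, S.H.D 1 ((Phi d.a d.c)^[j] (z, 1)).1 = 0 ∧
      S.H.D 1 ((Phi d.a d.c)^[j] (z, 1)).2 = 0 := fun j => by
    induction j with
    | zero => exact ⟨e, S.H.D_one 0⟩
    | succ j ih =>
      rw [Function.iterate_succ_apply']
      simp [Phi, pow_two, S.H.D_add, S.H.D1_mul, ih.1, ih.2, ha, hc]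
  have h1 : wedge ((Phi d.a d.c)^[l] (z, 1)) d.B = 0 := hz
  obtain ⟨h2, h3⟩ := (d.der.resolve_left (not_not.2 ha)).resolve_left (not_not.2 hc)
  rw [wedge, h2, mul_one, sub_eq_zero] at h1
  have h4 := congrArg (S.H.D 1) h1
  rw [S.H.D1_mul, (key l).1, (key l).2, zero_mul, add_zero, eq_comm] at h4
  have h5 := (mul_eq_zero.1 h4).resolve_right h3
  exact iter_ne_zero d.hypH.ne (Z := (z, 1)) (fun h => one_ne_zero (congrArg Prod.snd h)) l
    (Prod.ext (by rw [h1, h5, zero_mul]; rfl) h5)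

theorem utree_swap {F : Type} [Field F] {a c : F} (h : c = a ^ 3) (ha : a ≠ 0) (Z : F × F)
    (j : ℕ) : wedge ((Phi a c)^[j] (Z.2, a ^ 2 * Z.1))
      (((Phi a c)^[j] Z).2, a ^ 2 * ((Phi a c)^[j] Z).1) = 0 := by
  induction j with
  | zero => simp [wedge, mul_comm]
  | succ j ih =>
    have h1 := wedge_iter (a := a) (c := c) ih 1
    rw [Function.iterate_one, Phi_swap h] at h1
    rw [Function.iterate_succ_apply', Function.iterate_succ_apply']
    refine mul_left_cancel₀ ha ?_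
    simp only [wedge] at h1 ⊢
    linear_combination h1

omit [Fact p.Prime] [CharP k p] [CharP T p] in
theorem utree_mu (d : Dyn S) (hc : d.c = d.a ^ 3) {l j : ℕ} {z z' : T} (hz : z ∈ d.V l)
    (hz' : z' ∈ d.V (j + l)) : d.a ^ 2 * z * z' ≠ 1 := by
  intro e
  have ha : d.a ≠ 0 := fun h => by simp [h] at e
  have hne := d.hypH.ne
  have hμ : ∀ {Z : T × T}, Z ≠ 0 → (Z.2, d.a ^ 2 * Z.1) ≠ 0 := fun {Z} hZ h =>
    hZ (Prod.ext ((mul_eq_zero.1 (congrArg Prod.snd h)).resolve_left (pow_ne_zero 2 ha))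
      (congrArg Prod.fst h))
  have h0 : ∀ y : T, ((y, 1) : T × T) ≠ 0 := fun y h => one_ne_zero (congrArg Prod.snd h)
  have h1 : wedge ((Phi d.a d.c)^[l] (z, 1)) d.B = 0 := hz
  have h2 : wedge ((Phi d.a d.c)^[j + l] (z', 1)) d.B = 0 := hz'
  have h3 : wedge (z', 1) (1, d.a ^ 2 * z) = 0 := by
    simp only [wedge]
    linear_combination e
  have h4 : wedge ((Phi d.a d.c)^[l] (z', 1)) (d.B.2, d.a ^ 2 * d.B.1) = 0 := by
    refine wedge_trans (hμ (iter_ne_zero hne (h0 z) l))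
      (wedge_trans (iter_ne_zero hne (hμ (h0 z)) l) (wedge_iter h3 l)
        (utree_swap hc ha (z, 1) l)) ?_
    simp only [wedge] at h1 ⊢
    linear_combination -d.a ^ 2 * h1
  have h5 : wedge ((Phi d.a d.c)^[j] (d.B.2, d.a ^ 2 * d.B.1)) d.B = 0 := by
    have h6 := wedge_iter (a := d.a) (c := d.c) h4 j
    rw [← Function.iterate_add_apply] at h6
    exact wedge_trans (iter_ne_zero hne (h0 z') _) (rdyn_comm h6) h2
  cases j with
  | zero =>
    refine d.aut hc ?_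
    simp only [wedge, Function.iterate_zero, id] at h5
    rw [hc]
    linear_combination -d.a * h5
  | succ j =>
    have h6 := wedge_trans (iter_ne_zero hne (hμ d.B_ne_zero) _)
      (rdyn_comm (utree_swap hc ha d.B (j + 1))) h5
    have h7 : wedge ((Phi d.a d.c)^[j + 1] d.B) (d.B.2, d.a ^ 2 * d.B.1) = 0 := by
      simp only [wedge] at h6 ⊢
      linear_combination -h6
    have h8 := wedge_iter (a := d.a) (c := d.c) h7 (j + 1)
    rw [← Function.iterate_add_apply] at h8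
    exact d.nonper (j + 1 + j) (wedge_trans (iter_ne_zero hne (hμ d.B_ne_zero) _) h8 h5)

omit [Fact p.Prime] [CharP k p] [CharP T p] in
theorem utree_unit (d : Dyn S) {w : S.W} (hw : w ∈ S.fin) {b : Bool} {r : ℕ} {y : T}
    (hy : S.v w y ≤ 1) (h : 1 ≤ S.v w (vv d.a d.c b r - y)) :
    S.v w (wedge (orb d.a d.c b (r + 1)) (y, 1)) = 1 := by
  have h1 := d.norm_orb hw b (r + 1)
  have h2 := (le_max_left _ _).trans h1.le
  have h3 := (le_max_right _ _).trans h1.le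
  rw [wedge, mul_one]
  rcases h3.lt_or_eq with h4 | h4
  · have h5 : S.v w (orb d.a d.c b (r + 1)).1 = 1 := by
      rcases max_eq_iff.1 h1 with h | h
      exacts [h.1, absurd h.1 h4.ne]
    rw [Valuation.map_sub_eq_of_lt_left _ ?_, h5]
    rw [map_mul, h5]
    exact (mul_le_of_le_one_right' hy).trans_lt h4
  · have h5 : (orb d.a d.c b (r + 1)).2 ≠ 0 := fun e => by simp [e] at h4
    refine le_antisymm (Valuation.map_sub_le _ h2 ?_) (h.trans_eq ?_)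
    · rw [map_mul, h4, one_mul]
      exact hy
    · rw [vv, div_sub' h5, map_div₀, h4, div_one]

omit [Fact p.Prime] [CharP k p] [CharP T p] in
theorem utree_simple (d : Dyn S) {w : S.W} (hw : w ∈ S.fin) {b : Bool} {r : ℕ}
    (hb : (orb d.a d.c b (r + 1)).2 ≠ 0) {A : Finset T} {y : T} (hA : y ∈ A)
    (hy : S.v w y ≤ 1) (h : S.v w (vv d.a d.c b r - y) = S.q⁻¹)
    (h' : ∀ x ∈ A, x ≠ y → S.v w (x - y) = 1) : d.con b (r + 1) A w = S.q⁻¹ := by
  have hq : S.q⁻¹ < 1 := inv_lt_one_of_one_lt₀ S.one_lt_q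
  have h1 : S.v w (vv d.a d.c b r) ≤ 1 := by
    rw [← sub_add_cancel (vv d.a d.c b r) y]
    exact Valuation.map_add_le _ (h.le.trans hq.le) hy
  have h2 : S.v w (orb d.a d.c b (r + 1)).2 = 1 := by
    rw [vv, map_div₀, div_le_one₀ (by simpa [pos_iff_ne_zero] using hb)] at h1
    rw [← d.norm_orb hw b (r + 1), max_eq_right h1]
  have h3 : ∀ x, S.v w (wedge (orb d.a d.c b (r + 1)) (x, 1)) = S.v w (vv d.a d.c b r - x) :=
    fun x => by rw [vv, div_sub' hb, map_div₀, h2, div_one, wedge, mul_one]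
  rw [Dyn.con, Finset.prod_eq_single y (fun x hx e => ?_) (fun e => absurd hA e), h3, h]
  rw [h3, ← sub_sub_sub_cancel_right _ _ y, Valuation.map_sub_eq_of_lt_right _ ?_, h' x hx e]
  rw [h, h' x hx e]
  exact hq

namespace UP
variable {m : ℕ → ℕ} {K Γ : Type} [Field K] [CharP K p] [LinearOrderedCommGroupWithZero Γ]
  {N : NS p K Γ}

/-- `B` is the set of germs of the finite sets `A n` of tree points. -/
structure TreeSet (u : UP S m N) (d : Dyn S) (A : ℕ → Finset T) (B : Finset N.toPF.k0)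
    (s : N.toPF.k0 → ℕ → T) : Prop where
  rep : ∀ β ∈ B, u.Rep β (s β)
  tree : ∀ β ∈ B, ∀ᶠ n in u.U, ∃ l, 1 ≤ l ∧ s β n ∈ d.V l
  mem : ∀ᶠ n in u.U, ∀ z, z ∈ A n ↔ ∃ β ∈ B, s β n = z

variable {u : UP S m N} {d : Dyn S} {A : ℕ → Finset T} {B : Finset N.toPF.k0}
  {s : N.toPF.k0 → ℕ → T}

theorem exists_treeSet (u : UP S m N) (d : Dyn S) (A : ℕ → Finset T) {σ : ℕ}
    (h1 : ∀ n, (A n).card ≤ σ) (h2 : ∀ n, ∀ z ∈ A n, ∃ l, 1 ≤ l ∧ z ∈ d.V l)
    (h3 : ∀ ε : ℝ≥0, 0 < ε → ∀ᶠ n in atTop, ∀ z ∈ A n,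
      S.toPF.mass {w | z ∉ S.R w} ≤ ε * 2 ^ m n) :
    ∃ (B : Finset N.toPF.k0) (s : N.toPF.k0 → ℕ → T), u.TreeSet d A B s ∧
      ∀ᶠ n in u.U, (A n).card = B.card := by
  classical
  obtain ⟨κ, -, hκ⟩ : ∃ κ ∈ Set.Iic σ, ∀ᶠ n in u.U, (A n).card = κ :=
    (Ultrafilter.eventually_exists_mem_iff (P := fun κ n => (A n).card = κ)
      (Set.finite_Iic σ)).1 (Eventually.of_forall fun n => ⟨_, h1 n, rfl⟩)
  have he : ∀ n, ∃ e : Fin κ → T, (A n).card = κ →
      Function.Injective e ∧ ∀ z, z ∈ A n ↔ ∃ i, e i = z := fun n => by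
    by_cases hn : (A n).card = κ
    · refine ⟨fun i => ((A n).equivFinOfCardEq hn).symm i, fun _ => ⟨fun i j e =>
        ((A n).equivFinOfCardEq hn).symm.injective (Subtype.ext e), fun z => ⟨fun hz =>
        ⟨(A n).equivFinOfCardEq hn ⟨z, hz⟩, by simp⟩, ?_⟩⟩⟩
      rintro ⟨i, rfl⟩
      exact Subtype.property _
    · exact ⟨fun _ => 0, fun h => absurd h hn⟩
  choose e he using he
  have hmem : ∀ i, ∀ᶠ n in u.U, e n i ∈ A n := fun i =>
    hκ.mono fun n hn => ((he n hn).2 _).2 ⟨i, rfl⟩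
  obtain ⟨C, hC⟩ := d.exists_ht_V
  have hβ : ∀ i, ∃ β : N.toPF.k0, u.Rep β fun n => e n i := fun i => by
    obtain ⟨α, hα⟩ := u.surj (fun n => e n i) (u.tendsto_zero fun ε hε => by
      filter_upwards [(h3 ε hε).filter_mono u.le, hmem i] with n a b
      exact a _ b)
    refine ⟨⟨α, Rep.mem_k0 hα (u.tendsto_zero_of_le (C := C) (by simp)
      ((hmem i).mono fun n hn => ?_))⟩, hα⟩
    obtain ⟨l, -, hl⟩ := h2 n _ hn
    exact hC l _ hl
  choose β hβ using hβ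
  have hinj : Function.Injective β := fun i j h => by
    obtain ⟨n, h4, h5⟩ := ((((hβ i).eq_iff (hβ j)).1 (congrArg _ h)).and hκ).exists
    exact (he n h5).1 h4
  refine ⟨Finset.univ.image β, Function.extend β (fun i n => e n i) fun _ _ => 0,
    ⟨fun b hb => ?_, fun b hb => ?_, hκ.mono fun n hn z => ?_⟩, ?_⟩
  · obtain ⟨i, -, rfl⟩ := Finset.mem_image.1 hb
    rw [hinj.extend_apply]
    exact hβ i
  · obtain ⟨i, -, rfl⟩ := Finset.mem_image.1 hb
    rw [hinj.extend_apply]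
    exact (hmem i).mono fun n hn => h2 n _ hn
  · rw [(he n hn).2]
    constructor
    · rintro ⟨i, rfl⟩
      exact ⟨β i, Finset.mem_image_of_mem _ (Finset.mem_univ i), by rw [hinj.extend_apply]⟩
    · rintro ⟨b, hb, rfl⟩
      obtain ⟨i, -, rfl⟩ := Finset.mem_image.1 hb
      exact ⟨i, by rw [hinj.extend_apply]⟩
  · rwa [Finset.card_image_of_injective _ hinj, Finset.card_univ, Fintype.card_fin]

theorem TreeSet.unr (h : u.TreeSet d A B s) {β : N.toPF.k0} (hβ : β ∈ B) :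
    Unr (u.cst d.a0) (u.cst d.c0) β := by
  intro b i e
  rw [map_orb] at e
  have e' := congrArg Subtype.val e
  have hZ := map_orb d.a0 d.c0 (algebraMap S.K0 T) b (i + 1)
  refine (((u.rep_cst (orb d.a0 d.c0 b (i + 1)).1).mul rep_one).sub
    ((u.rep_cst (orb d.a0 d.c0 b (i + 1)).2).mul (h.rep β hβ))).ne_zero
    ((h.tree β hβ).mono fun n hn => ?_) e'
  obtain ⟨l, -, hl⟩ := hn
  have h1 := d.unr_of_mem_V hl b i
  change orb d.a d.c b (i + 1) = _ at hZ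
  rw [hZ] at h1
  exact h1

theorem TreeSet.D_ne (h : u.TreeSet d A B s) (ha : S.H.D 1 d.a = 0) (hc : S.H.D 1 d.c = 0)
    {β : N.toPF.k0} (hβ : β ∈ B) : N.H0.D 1 β ≠ 0 := by
  intro e
  have e' : N.H.D 1 (β : K) = 0 := (N.compat 1 β).trans (by rw [e, map_zero])
  obtain ⟨n, h1, l, -, hl⟩ :=
    ((((h.rep β hβ).D 1).eq_zero_iff.1 e').and (h.tree β hβ)).exists
  exact utree_D d ha hc hl h1

/-- The extra automorphism does not map a tree point to a tree point. -/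
theorem TreeSet.mu_ne (h : u.TreeSet d A B s) (hc : d.c = d.a ^ 3) {β β' : N.toPF.k0}
    (hβ : β ∈ B) (hβ' : β' ∈ B) : u.cst d.a0 ^ 2 * β * β' ≠ 1 := by
  intro e
  have e' : (u.cst d.a0 : K) ^ 2 * β * β' = 1 := by exact_mod_cast congrArg Subtype.val e
  obtain ⟨n, h1, ⟨l, -, hl⟩, l', -, hl'⟩ :=
    (((((((u.rep_cst d.a0).pow 2).mul (h.rep β hβ)).mul (h.rep β' hβ')).eq_iff rep_one).1
      e').and ((h.tree β hβ).and (h.tree β' hβ'))).exists
  change d.a ^ 2 * s β n * s β' n = 1 at h1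
  rcases le_total l l' with h2 | h2
  · obtain ⟨j, rfl⟩ := Nat.exists_eq_add_of_le' h2
    exact utree_mu d hc hl hl' h1
  · obtain ⟨j, rfl⟩ := Nat.exists_eq_add_of_le' h2
    exact utree_mu d hc hl' hl (by linear_combination h1)

/-- The orbits never pass exactly through a tree point. -/
theorem TreeSet.ne (h : u.TreeSet d A B s) {b : Bool} {z : K}
    (hz : u.Rep z fun n => vv d.a d.c b (m n)) {β : N.toPF.k0} (hβ : β ∈ B) : z ≠ β := by
  intro e
  obtain ⟨n, h1, l, h2, hl⟩ := (((hz.eq_iff (h.rep β hβ)).1 e).and (h.tree β hβ)).exists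
  obtain ⟨l, rfl⟩ := Nat.exists_eq_add_of_le' h2
  by_cases h3 : (orb d.a d.c b (m n + 1)).2 = 0
  · exact d.ne_zero_of_mem_V hl (by rw [← h1, vv, h3, div_zero])
  · exact d.unr_of_mem_V hl b (m n) ((rdyn_div h3 one_ne_zero).1 (by rw [div_one]; exact h1))

theorem TreeSet.ae_int (h : u.TreeSet d A B s) : ∀ᶠ w in N.toPF.ae, ∀ᶠ n in u.U,
    u.pl w n ∈ S.good ∧ ∀ y ∈ A n, S.v (u.pl w n) y ≤ 1 := by
  filter_upwards [N.ae_good, (eventually_all_finset B).2 fun β _ => N.ae_int β.2] with w hw hi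
  filter_upwards [u.good w hw, h.mem, (eventually_all_finset B).2 fun β hβ =>
    (u.v_le _ _ (h.rep β hβ) w).1 (hi β hβ)] with n h1 h2 h3
  refine ⟨h1, fun y hy => ?_⟩
  obtain ⟨β, hβ, rfl⟩ := (h2 y).1 hy
  exact h3 β hβ

theorem utree_one {α : K} {f : ℕ → T} (hf : u.Rep α f) {w : N.W} (h : N.v w α = 1) :
    ∀ᶠ n in u.U, S.v (u.pl w n) (f n) = 1 := by
  filter_upwards [(u.v_le _ _ hf w).1 h.le,
    Ultrafilter.eventually_not.2 fun e => h.not_lt ((u.v_lt _ _ hf w).2 e)] with n h1 h2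
  exact le_antisymm h1 (not_lt.1 h2)

theorem TreeSet.con_simple (h : u.TreeSet d A B s) {b : Bool}
    (hb : ∀ r, (orb d.a d.c b (r + 1)).2 ≠ 0) {z : K} (hz : u.Rep z fun n => vv d.a d.c b (m n)) :
    ∀ᶠ w in N.toPF.ae, (∃ β ∈ B, N.v w (z - β) = N.q⁻¹) →
      ∀ᶠ n in u.U, d.con b (m n + 1) (A n) (u.pl w n) = S.q⁻¹ := by
  have hu : ∀ β ∈ B, ∀ β' ∈ B, ∀ᶠ w in N.toPF.ae, β ≠ β' → N.v w ((β : K) - β') = 1 := by
    intro β _ β' _
    by_cases e : β = β'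
    · exact Eventually.of_forall fun _ h => absurd e h
    · exact (N.ae_unit (sub_mem β.2 β'.2)
        (sub_ne_zero.2 fun h => e (Subtype.ext h))).mono fun _ h _ => h
  filter_upwards [h.ae_int, (eventually_all_finset B).2 fun β hβ =>
    (eventually_all_finset B).2 (hu β hβ)] with w hi hw
  rintro ⟨β, hβ, e⟩
  have h1 : ∀ β' ∈ B, ∀ᶠ n in u.U, β' ≠ β → S.v (u.pl w n) (s β' n - s β n) = 1 := by
    intro β' hβ'
    by_cases e : β' = β
    · exact Eventually.of_forall fun _ h => absurd e h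
    · exact (utree_one ((h.rep β' hβ').sub (h.rep β hβ)) (hw β' hβ' β hβ e)).mono fun _ h _ => h
  filter_upwards [hi, h.mem, (eventually_all_finset B).2 h1,
    (u.v_eq _ _ (hz.sub (h.rep β hβ)) w).1 e] with n h2 h3 h4 h5
  have h6 := (h3 _).2 ⟨β, hβ, rfl⟩
  refine utree_simple d (S.good_fin h2.1) (hb _) h6 (h2.2 _ h6) h5 fun y hy h7 => ?_
  obtain ⟨β', hβ', rfl⟩ := (h3 y).1 hy
  exact h4 β' hβ' fun h8 => h7 (by rw [h8])

theorem TreeSet.con_one (h : u.TreeSet d A B s) {b : Bool} {z : K}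
    (hz : u.Rep z fun n => vv d.a d.c b (m n)) :
    ∀ᶠ w in N.toPF.ae, (¬ ∃ β ∈ B, N.v w (z - β) < 1) →
      ∀ᶠ n in u.U, d.con b (m n + 1) (A n) (u.pl w n) = 1 := by
  filter_upwards [h.ae_int] with w hi hw
  have h1 : ∀ β ∈ B, ∀ᶠ n in u.U, ¬ S.v (u.pl w n) (vv d.a d.c b (m n) - s β n) < 1 :=
    fun β hβ => Ultrafilter.eventually_not.2 fun e =>
      hw ⟨β, hβ, (u.v_lt _ _ (hz.sub (h.rep β hβ)) w).2 e⟩
  filter_upwards [hi, h.mem, (eventually_all_finset B).2 h1] with n h2 h3 h4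
  refine Finset.prod_eq_one fun y hy => utree_unit d (S.good_fin h2.1) (h2.2 y hy) ?_
  obtain ⟨β, hβ, rfl⟩ := (h3 y).1 hy
  exact not_lt.1 (h4 β hβ)

end UP

/-- Transfer: a lower bound in every ultrapower is a uniform standard lower bound. -/
theorem Dyn.lowerBd_of (d : Dyn S) (G : ℕ → Finset T → Set S.W) {ε : ℝ≥0} (hε : 0 < ε)
    (H : ∀ (m : ℕ → ℕ) (K Γ : Type) [Field K] [CharP K p] [LinearOrderedCommGroupWithZero Γ]
      (N : NS p K Γ) (u : UP S m N) (A : ℕ → Finset T) (B : Finset N.toPF.k0)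
      (s : N.toPF.k0 → ℕ → T), u.TreeSet d A B s →
      (ε : ℝ≥0∞) * B.card ≤ N.toPF.mass {w | ∀ᶠ n in u.U, u.pl w n ∈ G (m n + 1) (A n)}) :
    d.LowerBd G := by
  by_contra hn
  unfold Dyn.LowerBd at hn
  push Not at hn
  obtain ⟨σ, hσ⟩ := hn (ε / 4) (by positivity)
  have h0 : ∀ j : ℕ, ∃ (m : ℕ) (A : Finset T), j ≤ m ∧ A.card ≤ σ ∧
      (∀ s ∈ A, ∃ l, 1 ≤ l ∧ s ∈ d.V l) ∧
      (∀ s ∈ A, S.toPF.mass {w | s ∉ S.R w} ≤ (((j : ℝ≥0) + 1)⁻¹ : ℝ≥0) * 2 ^ m) ∧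
      A.card ≠ 0 ∧
      S.toPF.mass (G (m + 1) A) ≤ ((ε / 2 : ℝ≥0) : ℝ≥0∞) * A.card * 2 ^ m := fun j => by
    obtain ⟨n, h1, A, h2, h3, h4, h5⟩ := hσ (j + 1) (((j : ℝ≥0) + 1)⁻¹ / 2) (by positivity)
    obtain ⟨m, rfl⟩ := Nat.exists_eq_add_of_le' (Nat.one_le_of_lt h1)
    have key : ∀ x : ℝ≥0, ((x / 2 : ℝ≥0) : ℝ≥0∞) * 2 = x := fun x => by
      exact_mod_cast div_mul_cancel₀ x two_ne_zero
    refine ⟨m, A, by omega, h2, h3, fun s hs => (h4 s hs).trans_eq ?_, fun e => ?_,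
      h5.le.trans_eq ?_⟩
    · rw [pow_succ', ← mul_assoc, key]
    · rw [e] at h5
      simp at h5
    · rw [show ε / 4 = ε / 2 / 2 by ring, pow_succ', ← mul_assoc, mul_right_comm _ _ 2, key]
  choose m A hm h1 h2 h3 h4 h5 using h0
  obtain ⟨K, Γ, _, _, _, N, ⟨u⟩⟩ := S.exists_up m (tendsto_atTop_mono hm tendsto_id)
  obtain ⟨B, s, hB, hc⟩ := u.exists_treeSet d A h1 h2 fun δ hδ => by
    obtain ⟨M, hM⟩ := exists_nat_gt δ⁻¹
    filter_upwards [eventually_ge_atTop M] with n hn z hz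
    refine (h3 n z hz).trans (mul_le_mul_left (ENNReal.coe_le_coe.2 ?_) _)
    refine inv_le_of_inv_le₀ hδ (hM.le.trans ?_)
    exact_mod_cast hn.trans (Nat.le_succ n)
  have h6 := (H m K Γ N u A B s hB).trans (u.mass_le (x := ((ε / 2 : ℝ≥0) : ℝ≥0∞) * B.card)
    (hc.mono fun n hn => hn ▸ h5 n))
  obtain ⟨n, hn⟩ := hc.exists
  have h7 : (0 : ℝ≥0) < B.card := by exact_mod_cast Nat.pos_of_ne_zero (hn ▸ h4 n)
  have h8 : ε * B.card ≤ ε / 2 * B.card := by exact_mod_cast h6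
  exact (le_of_mul_le_mul_right h8 h7).not_gt (half_lt_self hε)

end JR
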