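import Pool.Agent.Work.MP_969914_nt.UNs
import Pool.Agent.Work.MP_969914_nt.RM1

/-! Orbits in the ultrapower and the standard zero estimate. -/

set_option autoImplicit false

namespace JR

open scoped NNReal ENNReal
open Filter Topology Polynomial

variable {p : ℕ} [Fact p.Prime] {k T : Type} [Field k] [CharP k p] [Field T] [Algebra k T]
  [CharP T p] {S : Std p k T}

/-- The critical orbit `b` stays finite and has canonical height `h ≠ 0`. -/
structure Std.Wand (S : Std p k T) (a c : T) (b : Bool) (h : ℝ≥0) : Prop where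
  ne : a ≠ c
  fin : ∀ r, (orb a c b (r + 1)).2 ≠ 0
  pos : h ≠ 0
  hat : S.IsHat a c b h

theorem Std.Wand.succ {a c : T} {b : Bool} {h : ℝ≥0} (hw : S.Wand a c b h) (r : ℕ) :
    c * vv a c b r ^ 2 + 1 ≠ 0 ∧ vv a c b (r + 1) = phi a c (vv a c b r) := by
  have h1 := rdyn_phi (a := a) (c := c) (hw.fin r)
  rw [← orb_succ] at h1
  exact ⟨h1.1.2 (hw.fin (r + 1)), h1.2⟩

/-- An orbit of positive height stays finite. -/
theorem Std.wand_of_hat {a c : T} (hH : HypH a c) {b : Bool} {h : ℝ≥0} (h0 : h ≠ 0)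
    (hh : S.IsHat a c b h) : S.Wand a c b h := by
  refine ⟨hH.ne, fun r => ?_, h0, hh⟩
  cases b
  · exact (hH.orb_ne r).2.1
  · intro e
    refine h0 (S.hat_eq_zero hH.ne (m := r + 1) (n := 0) (Nat.succ_ne_zero r) ?_ hh)
    rw [rdyn_true, e, neg_zero]

theorem Std.vv_mem (a c : S.K0) (b : Bool) (r : ℕ) : vv (a : T) c b r ∈ S.K0 :=
  div_mem (S.rhat_mem a.2 c.2 b _).1 (S.rhat_mem a.2 c.2 b _).2

theorem Std.ht_D_le (S : Std p k T) :
    ∃ C : ℝ≥0, ∀ z ∈ S.K0, S.toPF.ht (S.H.D 1 z) ≤ 2 * S.toPF.ht z + C := by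
  classical
  obtain ⟨C, hC⟩ := S.D_glob 1
  have hfin : (C : ℝ≥0∞) * S.toPF.mass S.goodᶜ ≠ ⊤ :=
    ENNReal.mul_ne_top (ENNReal.natCast_ne_top C) S.mass_bad.ne
  refine ⟨((C : ℝ≥0∞) * S.toPF.mass S.goodᶜ).toNNReal, fun z hz => ?_⟩
  rw [ENNReal.coe_toNNReal hfin]
  let g : S.W → ℝ≥0 := fun w => if w ∈ S.good then 1 else S.q ^ C
  have hg : S.I g ≤ C * S.toPF.mass S.goodᶜ :=
    S.toPF.I_le_mass (f := g) (fun w hw => (if_neg hw).le)
      fun w hw => (if_pos (not_not.1 hw)).le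
  have h1 : ∀ w, S.v w (S.H.D 1 z) ≤ max 1 (S.v w z) ^ 2 * g w := by
    intro w
    have hm : 1 ≤ max 1 (S.v w z) := le_max_left _ _
    have hm' : S.v w z ≤ max 1 (S.v w z) := le_max_right _ _
    by_cases hw : w ∈ S.good
    · simp only [g, if_pos hw, mul_one]
      have hR := S.K0_le w hw z hz
      rcases le_or_gt (S.v w z) 1 with h | h
      · exact (S.D_int w hw z hR h 1).trans (one_le_pow₀ hm)
      · have h0 : z ≠ 0 := by
          rintro rfl
          rw [map_zero] at h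
          exact absurd h (not_lt.2 zero_le)
        have h2 := S.rtop_q_le (inv_ne_zero h0) hw (inv_mem hR)
          (by rw [map_inv₀]; exact inv_lt_one_of_one_lt₀ h)
        rw [map_inv₀, inv_inv] at h2
        refine (S.D_le w hw z hR 1).trans ?_
        rw [pow_one, sq]
        exact mul_le_mul' (h2.trans hm') hm'
    · simp only [g, if_neg hw]
      refine (hC w z).trans ?_
      rw [mul_comm]
      exact mul_le_mul_left (hm'.trans (le_self_pow₀ hm two_ne_zero)) _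
  have h2 := S.toPF.rpf_mul h1 (S.toPF.rpf_Ipow z 2).le hg
  exact_mod_cast h2

namespace UP
variable {m : ℕ → ℕ} {K Γ : Type} [Field K] [CharP K p] [LinearOrderedCommGroupWithZero Γ]
  {N : NS p K Γ} {u : UP S m N}

theorem ht_seq {a c : T} {b : Bool} {h : ℝ≥0} (hh : S.IsHat a c b h) {z : K}
    (hz : u.Rep z fun n => vv a c b (m n)) : N.toPF.ht z = h := by
  obtain ⟨C, hC⟩ := hh
  have h1 := u.ht z _ hz
  have h2 := u.tendsto_zero_of_le (x := fun _ => (C : ℝ≥0∞)) ENNReal.coe_ne_top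
    (Eventually.of_forall fun _ => le_rfl)
  have p0 : ∀ r : ℕ, (2 : ℝ≥0∞) ^ r ≠ 0 := fun r => pow_ne_zero r two_ne_zero
  have p1 : ∀ r : ℕ, (2 : ℝ≥0∞) ^ r ≠ ⊤ := fun r => ENNReal.pow_ne_top ENNReal.ofNat_ne_top
  apply le_antisymm
  · have h3 := (tendsto_const_nhds (x := (h : ℝ≥0∞))).add h2
    rw [add_zero] at h3
    refine le_of_tendsto_of_tendsto' h1 h3 fun n => ENNReal.div_le_of_le_mul ?_
    rw [add_mul, ENNReal.div_mul_cancel (p0 _) (p1 _)]
    exact (hC _).1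
  · have h3 := h1.add h2
    rw [add_zero] at h3
    refine ge_of_tendsto' h3 fun n => ?_
    rw [← ENNReal.add_div, ENNReal.le_div_iff_mul_le (Or.inl (p0 _)) (Or.inl (p1 _))]
    exact (hC _).2

theorem rep_seq_zero {a c : T} {b : Bool} {z : ℤ → K}
    (hz : ∀ i, u.Rep (z i) fun n => vv a c b ((m n : ℤ) + i).toNat) :
    u.Rep (z 0) fun n => vv a c b (m n) := by simpa using hz 0

theorem orb_seq {a c : S.K0} {b : Bool} {h : ℝ≥0} (hw : S.Wand a c b h) {z : ℤ → K}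
    (hz : ∀ i, u.Rep (z i) fun n => vv (a : T) c b ((m n : ℤ) + i).toNat) :
    N.Orb (u.cst a) (u.cst c) z := by
  have h0 := ht_seq hw.hat (rep_seq_zero hz)
  refine ⟨fun i => ⟨?_, ?_⟩, ?_, ?_⟩
  · exact (((u.rep_cst c).mul ((hz i).pow 2)).add rep_one).ne_zero
      (Eventually.of_forall fun n => (hw.succ _).1)
  · refine ((hz (i + 1)).eq_iff ((u.rep_cst a).phi (u.rep_cst c) (hz i))).2 ?_
    filter_upwards [u.tendsto_m.eventually_ge_atTop i.natAbs] with n hn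
    rw [show ((m n : ℤ) + (i + 1)).toNat = ((m n : ℤ) + i).toNat + 1 by omega]
    exact (hw.succ _).2
  · rw [h0]
    exact ENNReal.coe_ne_zero.2 hw.pos
  · rw [h0]
    exact ENNReal.coe_ne_top

theorem hypH_cst {a c : S.K0} (h : HypH (a : T) c) : HypH (u.cst a) (u.cst c) :=
  (HypH.map u.cst).2 ((HypH.map (algebraMap S.K0 T)).1 h)

theorem hypEq_cst {a c : S.K0} (h : HypEq (a : T) c) : HypEq (u.cst a) (u.cst c) :=
  (HypEq.map u.cst).2 ((HypEq.map (algebraMap S.K0 T)).1 h)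

theorem rho_cst {a c : S.K0} (h : S.H.D 1 a ≠ 0 ∨ S.H.D 1 c ≠ 0) :
    N.H0.D 1 (u.cst a) ≠ 0 ∨ N.H0.D 1 (u.cst c) ≠ 0 := by
  rw [u.cst_D, u.cst_D]
  exact h.imp (fun h => (map_ne_zero u.cst).2 fun e => h (congrArg Subtype.val e))
    fun h => (map_ne_zero u.cst).2 fun e => h (congrArg Subtype.val e)

end UP

/-- No relation of bounded degree and small height between a critical orbit and its derivative. -/
theorem Std.zero_est {a c : S.K0} (hH : HypH (a : T) c) (hρ : S.H.D 1 a ≠ 0 ∨ S.H.D 1 c ≠ 0)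
    {b : Bool} {h : ℝ≥0} (hw : S.Wand a c b h) (D : ℕ) :
    ∃ (ε : ℝ≥0) (R : ℕ), 0 < ε ∧ ∀ r, R ≤ r → ∀ g : ℕ → ℕ → T,
      (∀ i l, g i l ∈ S.K0 ∧ S.toPF.ht (g i l) ≤ ε * 2 ^ r) →
      ∑ i ∈ Finset.range D, ∑ l ∈ Finset.range D,
        g i l * (vv (a : T) c b r ^ i * S.H.D 1 (vv (a : T) c b r) ^ l) = 0 →
      ∀ i, i < D → ∀ l, l < D → g i l = 0 := by
  by_contra hcon
  have hex : ∀ n : ℕ, ∃ r, n ≤ r ∧ ∃ g : ℕ → ℕ → T,
      (∀ i l, g i l ∈ S.K0 ∧ S.toPF.ht (g i l) ≤ ((1 / (n + 1) : ℝ≥0) : ℝ≥0∞) * 2 ^ r) ∧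
      ∑ i ∈ Finset.range D, ∑ l ∈ Finset.range D,
        g i l * (vv (a : T) c b r ^ i * S.H.D 1 (vv (a : T) c b r) ^ l) = 0 ∧
      ¬ ∀ i, i < D → ∀ l, l < D → g i l = 0 := by
    intro n
    by_contra h1
    refine hcon ⟨1 / (n + 1), n, by positivity, fun r hr g hg hs => ?_⟩
    by_contra h2
    exact h1 ⟨r, hr, g, hg, hs, h2⟩
  choose r hr g hg hs hne using hex
  obtain ⟨K, Γ, _, _, _, N, ⟨u⟩⟩ := S.exists_up r (tendsto_atTop_mono hr tendsto_id)
  obtain ⟨z, hz⟩ := u.exists_seq a c b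
  have hz0 := UP.rep_seq_zero hz
  choose γ hγ using fun i l => u.exists_of_K0 (f := fun n => g n i l) fun n => (hg n i l).1
  have hk : ∀ i l, γ i l ∈ N.toPF.k0 := by
    intro i l
    refine (hγ i l).mem_k0 (u.tendsto_zero fun ε hε => ?_)
    obtain ⟨M, hM⟩ := exists_nat_one_div_lt hε
    filter_upwards [u.le (eventually_ge_atTop M)] with n hn
    refine (hg n i l).2.trans ?_
    have h1 : (1 / (n + 1) : ℝ≥0) ≤ ε := by
      refine le_trans ?_ hM.le
      gcongr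
    gcongr
  set G : N.toPF.k0[X][X] := ∑ i ∈ Finset.range D, ∑ l ∈ Finset.range D,
    monomial l (monomial i ⟨γ i l, hk i l⟩) with hG
  have h1 : aevalAeval (z 0) (N.H.D 1 (z 0)) G = ∑ i ∈ Finset.range D, ∑ l ∈ Finset.range D,
      γ i l * (z 0 ^ i * N.H.D 1 (z 0) ^ l) := by
    simp only [hG, map_sum]
    refine Finset.sum_congr rfl fun i _ => Finset.sum_congr rfl fun l _ => ?_
    rw [← C_mul_X_pow_eq_monomial, ← C_mul_X_pow_eq_monomial]
    have e : algebraMap N.toPF.k0 K ⟨γ i l, hk i l⟩ = γ i l := rfl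
    simp [mul_assoc, e]
  have h2 : aevalAeval (z 0) (N.H.D 1 (z 0)) G = 0 := by
    rw [h1]
    exact (UP.Rep.sum _ fun i _ => UP.Rep.sum _ fun l _ =>
      (hγ i l).mul ((hz0.pow i).mul ((hz0.D 1).pow l))).eq_zero_iff.2
        (Eventually.of_forall hs)
  have h3 := NS.ind_jet1 (UP.hypH_cst hH) (UP.rho_cst hρ) (UP.orb_seq hw hz) 0 G h2
  have h4 : ∀ i ∈ Finset.range D, ∀ l ∈ Finset.range D, γ i l = 0 := by
    intro i hi l hl
    have h5 := congrArg (fun P : N.toPF.k0[X][X] => (P.coeff l).coeff i) h3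
    simp only [hG, finsetSum_coeff, coeff_monomial, Finset.sum_ite_eq', if_pos hl,
      if_pos hi, coeff_zero] at h5
    exact congrArg Subtype.val h5
  have h5 : ∀ᶠ n in u.U, ∀ i ∈ Finset.range D, ∀ l ∈ Finset.range D, g n i l = 0 :=
    (Finset.eventually_all _).2 fun i hi => (Finset.eventually_all _).2 fun l hl =>
      (hγ i l).eq_zero_iff.1 (h4 i hi l hl)
  obtain ⟨n, hn⟩ := h5.exists
  exact hne n fun i hi l hl => hn i (Finset.mem_range.2 hi) l (Finset.mem_range.2 hl)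

end JR
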